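import Pool.Agent.Helper725_HQ.ARho

/-! Eigenfunctions of the two Hecke operators on a residue disc are constant. -/

set_option autoImplicit false
set_option linter.unusedVariables false

namespace Pool.Agent.Helper725_HQ

open Quaternion

section
variable {N : ℕ}

/-- the residue disc -/
def Dc (x : Hn N) : Prop := x.re = 0 ∧ ∃ s : (Zn N)ˣ, ∃ η : Hn N,
  x = (s : Zn N) • (im 1 0 0 + (3 : Zn N) • η)

theorem re_comm (a b : Hn N) : (a * b).re = (b * a).re := by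
  rw [Quaternion.re_mul, Quaternion.re_mul]; ring

theorem re_cj (g : (Hn N)ˣ) (x : Hn N) :
    (((g⁻¹ : (Hn N)ˣ) : Hn N) * x * (g : Hn N)).re = x.re := by
  rw [re_comm, ← mul_assoc, Units.mul_inv, one_mul]

theorem Dc_smul {x : Hn N} (h : Dc x) (t : (Zn N)ˣ) : Dc ((t : Zn N) • x) := by
  obtain ⟨h0, s, η, h1⟩ := h
  refine ⟨by rw [Quaternion.re_smul, h0, smul_zero], t * s, η, ?_⟩
  rw [h1, smul_smul, Units.val_mul]

theorem Dc_add {x : Hn N} (h : Dc x) {y : Hn N} (hy : y.re = 0)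
    (hxy : ∃ z, y = x + (3 : Zn N) • z) : Dc y := by
  obtain ⟨h0, s, η, h1⟩ := h
  obtain ⟨z, hz⟩ := hxy
  refine ⟨hy, s, η + ((s⁻¹ : (Zn N)ˣ) : Zn N) • z, ?_⟩
  have h2 : (s : Zn N) * ((s⁻¹ : (Zn N)ˣ) : Zn N) = 1 := Units.mul_inv s
  have h3 : z = ((s : Zn N) * ((s⁻¹ : (Zn N)ˣ) : Zn N)) • z := by rw [h2, one_smul]
  rw [hz, h1]
  calc (s : Zn N) • (im 1 0 0 + (3 : Zn N) • η) + (3 : Zn N) • z =
      (s : Zn N) • (im 1 0 0 + (3 : Zn N) • η) + (3 : Zn N) •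
        (((s : Zn N) * ((s⁻¹ : (Zn N)ˣ) : Zn N)) • z) := by rw [← h3]
    _ = _ := by module

theorem conj_Kz {g : (Hn N)ˣ} (hg : g ∈ Kz N 1) (x : Hn N) : ∃ z,
    ((g⁻¹ : (Hn N)ˣ) : Hn N) * x * (g : Hn N) = x + (3 : Zn N) • z := by
  obtain ⟨s, η, h1⟩ := hg
  rw [pow_one] at h1
  have h2 : x * (g : Hn N) = (g : Hn N) * x + (3 : Zn N) • ((s : Zn N) • (x * η - η * x)) := by
    rw [h1]
    simp only [smul_mul_assoc, mul_smul_comm, mul_add, add_mul, mul_one, one_mul,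
      smul_add, smul_smul, smul_sub]
    module
  refine ⟨((g⁻¹ : (Hn N)ˣ) : Hn N) * ((s : Zn N) • (x * η - η * x)), ?_⟩
  rw [mul_assoc, h2, mul_add, ← mul_assoc, Units.inv_mul, one_mul, mul_smul_comm]

theorem Dc_conj {g : (Hn N)ˣ} (hg : g ∈ Kz N 1) {x : Hn N}
    (h : Dc (((g⁻¹ : (Hn N)ˣ) : Hn N) * x * (g : Hn N))) : Dc x := by
  have h0 := h.1
  rw [re_cj] at h0
  obtain ⟨z, hz⟩ := conj_Kz hg x
  exact Dc_add h h0 ⟨-z, by rw [hz, smul_neg]; abel⟩

theorem Dc_i : Dc (im 1 0 0 : Hn N) := ⟨rfl, 1, 0, by simp⟩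

/-- square roots of the principal units -/
theorem sqrt_unit (z : Zn N) : ∃ w : Zn N, (1 + 3 * w) ^ 2 = 1 + 3 * z := by
  have h1 : ∀ n : ℕ, ∃ w : Zn N, (1 + 3 * z) ^ 3 ^ n = 1 + 3 ^ (n + 1) * w := by
    intro n
    induction n with
    | zero => exact ⟨z, by rw [pow_zero, pow_one, zero_add, pow_one]⟩
    | succ n ih =>
      obtain ⟨w, hw⟩ := ih
      refine ⟨w + 3 ^ (n + 1) * w ^ 2 + 3 ^ (2 * n + 1) * w ^ 3, ?_⟩
      rw [pow_succ 3 n, pow_mul, hw]
      ring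
  obtain ⟨w, hw⟩ := h1 N
  rw [three_pow_zero (by omega), zero_mul, add_zero] at hw
  have h2 : ∀ n : ℕ, ∃ w : Zn N, (1 + 3 * z) ^ n = 1 + 3 * w := by
    intro n
    induction n with
    | zero => exact ⟨0, by rw [pow_zero, mul_zero, add_zero]⟩
    | succ n ih =>
      obtain ⟨w, hw⟩ := ih
      exact ⟨w + z + 3 * w * z, by rw [pow_succ, hw]; ring⟩
  obtain ⟨v, hv⟩ := h2 ((3 ^ N + 1) / 2)
  refine ⟨v, ?_⟩
  rw [← hv, ← pow_mul]
  have hodd : Odd (3 ^ N) := Odd.pow (by decide)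
  obtain ⟨m, hm⟩ := hodd
  have e : (3 ^ N + 1) / 2 * 2 = 3 ^ N + 1 := by omega
  rw [e, pow_succ, hw, one_mul]

/-- the congruence subgroup acts transitively on the residue disc -/
theorem trans {x : Hn N} (h : Dc x) : ∃ g ∈ Kz N 1, ∃ t : (Zn N)ˣ,
    x = (t : Zn N) • (((g⁻¹ : (Hn N)ˣ) : Hn N) * im 1 0 0 * (g : Hn N)) := by
  obtain ⟨h0, s, η, h1⟩ := h
  obtain ⟨y, hy⟩ : ∃ y, y = im 1 0 0 + (3 : Zn N) • η := ⟨_, rfl⟩
  have hyre : y.re = 0 := by
    have e : y = ((s⁻¹ : (Zn N)ˣ) : Zn N) • x := by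
      rw [h1, smul_smul, Units.inv_mul, one_smul, hy]
    rw [e, Quaternion.re_smul, h0, smul_zero]
  obtain ⟨w, hw⟩ := sqrt_unit (2 * η.imI + 3 * (η.imI ^ 2 + η.imJ ^ 2 + η.imK ^ 2))
  obtain ⟨σ, hσ⟩ : ∃ σ, σ = 1 + 3 * w := ⟨_, rfl⟩
  obtain ⟨a, ha⟩ : ∃ a : Zn N, a = 1 + 3 * η.imI := ⟨_, rfl⟩
  obtain ⟨b, hb⟩ : ∃ b : Zn N, b = 3 * η.imJ := ⟨_, rfl⟩
  obtain ⟨c, hc⟩ : ∃ c : Zn N, c = 3 * η.imK := ⟨_, rfl⟩
  have hyv : y = im a b c := by
    apply Quaternion.ext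
    · rw [hyre]; rfl
    · rw [hy, ha]; simp
    · rw [hy, hb]; simp
    · rw [hy, hc]; simp
  have hn : σ ^ 2 = a ^ 2 + b ^ 2 + c ^ 2 := by
    rw [hσ, hw, ha, hb, hc]; ring
  obtain ⟨u, hu⟩ := unit_three (N := N) w
  rw [← hσ] at hu
  obtain ⟨tw, htw⟩ := unit_three (N := N) (-1)
  -- two is invertible
  have h2u : IsUnit (2 : Zn N) := by
    have : (1 : Zn N) + 3 * (-1) = -2 := by ring
    have h := unit_three (N := N) (-1)
    rw [this, IsUnit.neg_iff] at h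
    exact h
  obtain ⟨t2, ht2⟩ := h2u
  have h22 : ((t2⁻¹ : (Zn N)ˣ) : Zn N) * 2 = 1 := by rw [← ht2, Units.inv_mul]
  -- the conjugating element
  obtain ⟨q, hq⟩ : ∃ q : Hn N, q = σ • 1 - im 1 0 0 * y := ⟨_, rfl⟩
  obtain ⟨θ, hθ⟩ : ∃ θ : Hn N, θ = ((t2⁻¹ : (Zn N)ˣ) : Zn N) • (w • 1 - im 1 0 0 * η) := ⟨_, rfl⟩
  have hqθ : q = (t2 : Zn N) • (kp θ : Hn N) := by
    have e1 : im 1 0 0 * im 1 0 0 = (-1 : Hn N) := by
      apply Quaternion.ext <;> simp
    have e2 : im 1 0 0 * y = -1 + (3 : Zn N) • (im 1 0 0 * η) := by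
      rw [hy, mul_add, e1, mul_smul_comm]
    have e3 : (t2 : Zn N) * ((t2⁻¹ : (Zn N)ˣ) : Zn N) = 1 := Units.mul_inv t2
    rw [kap_val, hθ, hq, e2, hσ]
    calc (1 + 3 * w) • (1 : Hn N) - (-1 + (3 : Zn N) • (im 1 0 0 * η)) =
        (2 : Zn N) • (1 : Hn N) + (1 : Zn N) • ((3 : Zn N) • (w • 1 - im 1 0 0 * η)) := by
          module
      _ = (t2 : Zn N) • (1 : Hn N) + ((t2 : Zn N) * ((t2⁻¹ : (Zn N)ˣ) : Zn N)) •
          ((3 : Zn N) • (w • 1 - im 1 0 0 * η)) := by rw [e3, ht2]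
      _ = _ := by module
  have hqu : ∃ g : (Hn N)ˣ, (g : Hn N) = q := by
    refine ⟨⟨(t2 : Zn N) • (kp θ : Hn N), ((t2⁻¹ : (Zn N)ˣ) : Zn N) • ((kp θ)⁻¹ : (Hn N)ˣ),
      ?_, ?_⟩, hqθ.symm⟩
    · rw [smul_mul_assoc, mul_smul_comm, smul_smul, Units.mul_inv, Units.mul_inv, one_smul]
    · rw [smul_mul_assoc, mul_smul_comm, smul_smul, Units.inv_mul, Units.inv_mul, one_smul]
  obtain ⟨g, hg⟩ := hqu
  have hgK : g ∈ Kz N 1 := ⟨t2, θ, by rw [hg, hqθ, kap_val, pow_one]⟩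
  have hrel : (g : Hn N) * y = σ • (im 1 0 0 * (g : Hn N)) := by
    rw [hg, hq, hyv]
    apply Quaternion.ext
    · simp; ring
    · simp
      linear_combination (-1 : Zn N) * hn
    · simp; ring
    · simp; ring
  refine ⟨g, hgK, s * u, ?_⟩
  have e4 : y = σ • (((g⁻¹ : (Hn N)ˣ) : Hn N) * im 1 0 0 * (g : Hn N)) := by
    rw [mul_assoc, ← mul_smul_comm, ← hrel, ← mul_assoc, Units.inv_mul, one_mul]
  rw [h1, ← hy, Units.val_mul, hu, mul_smul, ← e4]

/-- one half -/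
def hf (N : ℕ) : Zn N := (((3 ^ N + 1) / 2 : ℕ) : Zn N)

theorem two_hf : (2 : Zn N) * hf N = 1 := by
  have hodd : Odd (3 ^ N) := Odd.pow (by decide)
  obtain ⟨m, hm⟩ := hodd
  have e : 2 * ((3 ^ N + 1) / 2) = 3 ^ N + 1 := by omega
  unfold hf
  have h1 : ((2 * ((3 ^ N + 1) / 2) : ℕ) : Zn N) = ((3 ^ N + 1 : ℕ) : Zn N) := by rw [e]
  rw [Nat.cast_mul, Nat.cast_add, ZMod.natCast_self, zero_add, Nat.cast_one] at h1
  exact_mod_cast h1

/-- a quaternion -/
def qn4 (a b c d : Zn N) : Hn N := ⟨a, b, c, d⟩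
@[simp] theorem q4_re (a b c d : Zn N) : (qn4 a b c d).re = a := rfl
@[simp] theorem q4_imI (a b c d : Zn N) : (qn4 a b c d).imI = b := rfl
@[simp] theorem q4_imJ (a b c d : Zn N) : (qn4 a b c d).imJ = c := rfl
@[simp] theorem q4_imK (a b c d : Zn N) : (qn4 a b c d).imK = d := rfl

/-- the unit `i` -/
def wi (N : ℕ) : (Hn N)ˣ := ⟨im 1 0 0, im (-1) 0 0, by apply Quaternion.ext <;> simp,
  by apply Quaternion.ext <;> simp⟩
/-- the unit `j` -/
def wj (N : ℕ) : (Hn N)ˣ := ⟨im 0 1 0, im 0 (-1) 0, by apply Quaternion.ext <;> simp,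
  by apply Quaternion.ext <;> simp⟩
/-- the unit `1 + i` -/
def wq (N : ℕ) : (Hn N)ˣ := ⟨qn4 1 1 0 0, qn4 (hf N) (-hf N) 0 0, by
    apply Quaternion.ext
    · simp; linear_combination two_hf (N := N)
    · simp
    · simp
    · simp, by
    apply Quaternion.ext
    · simp; linear_combination two_hf (N := N)
    · simp
    · simp
    · simp⟩

theorem ci_i (a b c : Zn N) : wi N * kp (im a b c) * (wi N)⁻¹ = kp (im a (-b) (-c)) := by
  rw [kap_conj]
  congr 1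
  show im 1 0 0 * im a b c * im (-1) 0 0 = _
  apply Quaternion.ext <;> simp

theorem cj_j (a b c : Zn N) : wj N * kp (im a b c) * (wj N)⁻¹ = kp (im (-a) b (-c)) := by
  rw [kap_conj]
  congr 1
  show im 0 1 0 * im a b c * im 0 (-1) 0 = _
  apply Quaternion.ext <;> simp

theorem cq_q (a b c : Zn N) : wq N * kp (im a b c) * (wq N)⁻¹ = kp (im a (-c) b) := by
  rw [kap_conj]
  congr 1
  show qn4 1 1 0 0 * im a b c * qn4 (hf N) (-hf N) 0 0 = _
  have h := two_hf (N := N)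
  apply Quaternion.ext
  · simp
  · simp; linear_combination a * h
  · simp; linear_combination (-c) * h
  · simp; linear_combination b * h

theorem pure_eq {x : Hn N} (h : x.re = 0) : x = im x.imI x.imJ x.imK := by
  apply Quaternion.ext
  · exact h
  · rfl
  · rfl
  · rfl

end

section
variable {N : ℕ} {κ : Type} [Field κ]

/-- homogeneous functions supported on the disc -/
def Gd (ψ : Fn N κ) : Prop :=
  (∀ (s : (Zn N)ˣ) (x : Hn N), ψ ((s : Zn N) • x) = ψ x) ∧ ∀ x, ¬ Dc x → ψ x = 0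

theorem Gd_rho {ψ : Fn N κ} (h : Gd ψ) {g : (Hn N)ˣ} (hg : g ∈ Kz N 1) : Gd (rho κ g ψ) := by
  refine ⟨fun s x => ?_, fun x hx => ?_⟩
  · rw [rho_apply, rho_apply, mul_smul_comm, smul_mul_assoc, h.1]
  · rw [rho_apply]
    apply h.2
    intro h'
    exact hx (Dc_conj hg h')

theorem Gd_Ia {ψ : Fn N κ} (h : Gd ψ) {T : Module.End κ (Fn N κ)}
    (hT : T ∈ Ia κ (rho (N := N) κ)) : Gd (T ψ) := by
  unfold Ia at hT
  induction hT using Submodule.span_induction with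
  | mem x hx =>
    obtain ⟨g, hg, rfl⟩ := hx
    have h1 := Gd_rho h hg
    refine ⟨fun s x => ?_, fun x hx => ?_⟩
    · show rho κ g ψ _ - ψ _ = rho κ g ψ _ - ψ _
      rw [h1.1, h.1]
    · show rho κ g ψ _ - ψ _ = 0
      rw [h1.2 x hx, h.2 x hx, sub_zero]
  | zero => exact ⟨fun _ _ => rfl, fun _ _ => rfl⟩
  | add x y _ _ h1 h2 =>
    refine ⟨fun s z => ?_, fun z hz => ?_⟩
    · show x ψ _ + y ψ _ = x ψ _ + y ψ _
      rw [h1.1, h2.1]
    · show x ψ _ + y ψ _ = 0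
      rw [h1.2 z hz, h2.2 z hz, add_zero]
  | smul r x _ h1 =>
    refine ⟨fun s z => ?_, fun z hz => ?_⟩
    · show r * x ψ _ = r * x ψ _
      rw [h1.1]
    · show r * x ψ _ = 0
      rw [h1.2 z hz, mul_zero]

theorem fixed_const {ψ : Fn N κ} (h : Gd ψ) (hf : ∀ g ∈ Kz N 1, rho κ g ψ = ψ) {x : Hn N}
    (hx : Dc x) : ψ x = ψ (im 1 0 0) := by
  obtain ⟨g, hg, t, rfl⟩ := trans hx
  have h1 := congrFun (hf g hg) (im 1 0 0)
  rw [rho_apply] at h1
  rw [h.1, h1]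

theorem pr_mem (a b c : Zn N) : pr (rho (N := N) κ) a b c ∈ Ia κ (rho (N := N) κ) ^ 1 :=
  Submodule.add_mem _ (y_mem1' (kap_rel _).mem) (y_mem1' (kap_rel _).mem)

theorem x5_mem : x5 (rho (N := N) κ) ∈ Ia κ (rho (N := N) κ) ^ 1 :=
  Submodule.add_mem _ (Submodule.add_mem _ (pr_mem _ _ _) (pr_mem _ _ _)) (pr_mem _ _ _)

theorem x7_mem : x7 (rho (N := N) κ) ∈ Ia κ (rho (N := N) κ) ^ 1 :=
  Submodule.add_mem _ (Submodule.add_mem _ (Submodule.add_mem _ (pr_mem _ _ _) (pr_mem _ _ _))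
    (pr_mem _ _ _)) (pr_mem _ _ _)

/-- an eigenfunction of an element of the augmentation ideal is killed by it -/
theorem eig_zero (h3 : (3 : κ) = 0) {φ : Fn N κ} (h : Gd φ) {T : Module.End κ (Fn N κ)}
    (hT : T ∈ Ia κ (rho (N := N) κ) ^ 1) {c : κ} (hc : ∀ x, Dc x → T φ x = c * φ x) : T φ = 0 := by
  have h1 : T φ = c • φ := by
    funext x
    by_cases hx : Dc x
    · exact hc x hx
    · rw [(Gd_Ia h (by rwa [pow_one] at hT)).2 x hx]
      show 0 = c * φ x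
      rw [h.2 x hx, mul_zero]
  obtain ⟨D, hD⟩ := Ia_nil (N := N) h3
  have h2 : ∀ n : ℕ, (T ^ n) φ = c ^ n • φ := by
    intro n
    induction n with
    | zero => rw [pow_zero, pow_zero, one_smul]; rfl
    | succ n ih =>
      rw [pow_succ]
      show (T ^ n) (T φ) = _
      rw [h1, map_smul, ih, smul_smul, pow_succ, mul_comm]
  have h3' := h2 D
  rw [hD _ (pow_memI hT D)] at h3'
  by_cases hc0 : c = 0
  · rw [h1, hc0, zero_smul]
  · have h4 : φ = 0 := by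
      have h5 : c ^ D • φ = 0 := h3'.symm
      exact (smul_eq_zero.1 h5).resolve_left (pow_ne_zero _ hc0)
    rw [h4, map_zero]

/-- eigenfunctions on the residue disc are constant -/
theorem const_main (h3 : (3 : κ) = 0) {φ : Fn N κ} (h : Gd φ)
    (Fi : ∀ a b c : Zn N, φ (im a (-b) (-c)) = φ (im a b c))
    (Fj : ∀ a b c : Zn N, φ (im (-a) b (-c)) = φ (im a b c))
    (Fq : ∀ a b c : Zn N, φ (im a c (-b)) = φ (im a b c))
    {c5 c7 : κ} (h5 : ∀ x, Dc x → x5 (rho κ) φ x = c5 * φ x)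
    (h7 : ∀ x, Dc x → x7 (rho κ) φ x = c7 * φ x) {x : Hn N} (hx : Dc x) :
    φ x = φ (im 1 0 0) := by
  have z5 := eig_zero h3 h x5_mem h5
  have z7 := eig_zero h3 h x7_mem h7
  have h3R : (3 : Module.End κ (Fn N κ)) = 0 := by
    have : (3 : Module.End κ (Fn N κ)) = algebraMap κ _ 3 := by rw [map_ofNat]
    rw [this, h3, map_zero]
  have h3M : ∀ x : κ, x + x = 0 → x = 0 := by
    intro x hx
    have : x = 3 * x - (x + x) := by ring
    rw [this, h3, hx]; ring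
  -- invariance of the function
  have nd : ∀ x : Hn N, x.re ≠ 0 → φ x = 0 := fun x hx => h.2 x (fun h' => hx h'.1)
  have ri : rho κ (wi N) φ = φ := by
    funext x
    by_cases hx : x.re = 0
    · obtain ⟨a, b, c, rfl⟩ : ∃ a b c, x = im a b c := ⟨_, _, _, pure_eq hx⟩
      rw [rho_apply, ← Fi a b c]
      congr 1
      show im (-1) 0 0 * im a b c * im 1 0 0 = _
      apply Quaternion.ext <;> simp
    · rw [rho_apply, nd x hx, nd _ (by rw [re_cj]; exact hx)]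
  have rj : rho κ (wj N) φ = φ := by
    funext x
    by_cases hx : x.re = 0
    · obtain ⟨a, b, c, rfl⟩ : ∃ a b c, x = im a b c := ⟨_, _, _, pure_eq hx⟩
      rw [rho_apply, ← Fj a b c]
      congr 1
      show im 0 (-1) 0 * im a b c * im 0 1 0 = _
      apply Quaternion.ext <;> simp
    · rw [rho_apply, nd x hx, nd _ (by rw [re_cj]; exact hx)]
  have rq : rho κ (wq N) φ = φ := by
    funext x
    by_cases hx : x.re = 0
    · obtain ⟨a, b, c, rfl⟩ : ∃ a b c, x = im a b c := ⟨_, _, _, pure_eq hx⟩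
      rw [rho_apply, ← Fq a b c]
      congr 1
      show qn4 (hf N) (-hf N) 0 0 * im a b c * qn4 1 1 0 0 = _
      have h := two_hf (N := N)
      apply Quaternion.ext
      · simp
      · simp; linear_combination a * h
      · simp; linear_combination c * h
      · simp; linear_combination (-b) * h
    · rw [rho_apply, nd x hx, nd _ (by rw [re_cj]; exact hx)]
  have rinv : ∀ w : (Hn N)ˣ, rho κ w φ = φ → rho κ w⁻¹ φ = φ := by
    intro w hw
    have h1 : (rho κ w⁻¹ * rho κ w) φ = φ := by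
      rw [← map_mul, inv_mul_cancel, map_one]; rfl
    have h2 : (rho κ w⁻¹ * rho κ w) φ = rho κ w⁻¹ (rho κ w φ) := rfl
    rw [h2, hw] at h1
    exact h1
  -- the descent
  have step : ∀ d : ℕ, 1 ≤ d → (∀ T ∈ Ia κ (rho (N := N) κ) ^ (d + 1), T φ = 0) →
      ∀ T ∈ Ia κ (rho (N := N) κ) ^ d, T φ = 0 := by
    intro d hd hnext
    have gd : ∀ T ∈ Ia κ (rho (N := N) κ) ^ d, Gd (T φ) := by
      intro T hT
      have h1 := Ia_anti le_rfl hd hT
      rw [pow_one] at h1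
      exact Gd_Ia h h1
    have z := functional_zero (ρ := rho (N := N) κ) rho_Sc h3R h3M d hd
      (⟨⟨fun T => T φ (im 1 0 0), fun _ _ => rfl⟩, fun _ _ => rfl⟩ :
        Module.End κ (Fn N κ) →ₗ[κ] κ)
      (by
        intro T hT
        show T φ (im 1 0 0) = 0
        rw [hnext T hT]; rfl)
      (by
        intro T
        show rho κ (kp (im 1 0 0)) (T φ) (im 1 0 0) - (T φ) (im 1 0 0) = 0
        rw [rho_apply]
        have e : (((kp (im 1 0 0))⁻¹ : (Hn N)ˣ) : Hn N) * im 1 0 0 * ((kp (im 1 0 0) : (Hn N)ˣ) : Hn N) =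
            im 1 0 0 := by
          have e1 : im 1 0 0 * ((kp (im 1 0 0) : (Hn N)ˣ) : Hn N) =
              ((kp (im 1 0 0) : (Hn N)ˣ) : Hn N) * im 1 0 0 := by
            rw [kap_val, mul_add, add_mul, mul_one, one_mul, mul_smul_comm, smul_mul_assoc]
          rw [mul_assoc, e1, ← mul_assoc, Units.inv_mul, one_mul]
        rw [e, sub_self])
      (ci_i (N := N)) (cj_j (N := N)) (cq_q (N := N))
      (by
        intro T hT
        show rho κ (wi N) (T (rho κ (wi N)⁻¹ φ)) (im 1 0 0) = T φ (im 1 0 0)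
        rw [rinv _ ri, rho_apply]
        have e : (((wi N)⁻¹ : (Hn N)ˣ) : Hn N) * im 1 0 0 * ((wi N : (Hn N)ˣ) : Hn N) =
            im 1 0 0 := by
          show im (-1) 0 0 * im 1 0 0 * im 1 0 0 = (im 1 0 0 : Hn N)
          apply Quaternion.ext <;> simp
        rw [e])
      (by
        intro T hT
        show rho κ (wj N) (T (rho κ (wj N)⁻¹ φ)) (im 1 0 0) = T φ (im 1 0 0)
        rw [rinv _ rj, rho_apply, ← (gd T hT).1 (-1) (im 1 0 0)]
        have e : (((wj N)⁻¹ : (Hn N)ˣ) : Hn N) * im 1 0 0 * ((wj N : (Hn N)ˣ) : Hn N) =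
            (((-1 : (Zn N)ˣ) : Zn N) • im 1 0 0 : Hn N) := by
          show im 0 (-1) 0 * im 1 0 0 * im 0 1 0 = (((-1 : (Zn N)ˣ) : Zn N) • im 1 0 0 : Hn N)
          apply Quaternion.ext <;> simp
        rw [e])
      (by
        intro T hT
        show rho κ (wq N) (T (rho κ (wq N)⁻¹ φ)) (im 1 0 0) = T φ (im 1 0 0)
        rw [rinv _ rq, rho_apply]
        have e : (((wq N)⁻¹ : (Hn N)ˣ) : Hn N) * im 1 0 0 * ((wq N : (Hn N)ˣ) : Hn N) =
            im 1 0 0 := by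
          show qn4 (hf N) (-hf N) 0 0 * im 1 0 0 * qn4 1 1 0 0 = im 1 0 0
          have h := two_hf (N := N)
          apply Quaternion.ext
          · simp
          · simp; linear_combination h
          · simp
          · simp
        rw [e])
      (by
        intro T
        show T (x5 (rho κ) φ) (im 1 0 0) = 0
        rw [z5, map_zero]; rfl)
      (by
        intro T
        show T (x7 (rho κ) φ) (im 1 0 0) = 0
        rw [z7, map_zero]; rfl)
    intro T hT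
    have hfix : ∀ g ∈ Kz N 1, rho κ g (T φ) = T φ := by
      intro g hg
      have h1 : (rho κ g - 1) * T ∈ Ia κ (rho (N := N) κ) ^ (d + 1) := by
        have h2 := fmul (y_mem1' (k := κ) (ρ := rho (N := N) κ) hg) hT
        rwa [add_comm] at h2
      have h2 := hnext _ h1
      have h3 : rho κ g (T φ) - T φ = 0 := h2
      rwa [sub_eq_zero] at h3
    funext x
    by_cases hx : Dc x
    · rw [fixed_const (gd T hT) hfix hx]
      exact z T hT
    · exact (gd T hT).2 x hx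
  have desc : ∀ m : ℕ, (∀ T ∈ Ia κ (rho (N := N) κ) ^ (m + 1), T φ = 0) →
      ∀ T ∈ Ia κ (rho (N := N) κ) ^ 1, T φ = 0 := by
    intro m
    induction m with
    | zero => intro h1; exact h1
    | succ m ih =>
      intro h1
      exact ih (step (m + 1) (by omega) h1)
  obtain ⟨D, hD⟩ := Ia_nil (N := N) h3
  have z1 := desc D (by
    intro T hT
    have : T = 0 := by
      rw [pow_succ] at hT
      induction hT using Submodule.mul_induction_on' with
      | mem_mul_mem x hx y hy => rw [hD x hx, zero_mul]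
      | add x _ y _ h1 h2 => rw [h1, h2, add_zero]
    rw [this]; rfl)
  apply fixed_const h _ hx
  intro g hg
  have h1 := z1 _ (y_mem1' (k := κ) (ρ := rho (N := N) κ) hg)
  have h2 : rho κ g φ - φ = 0 := h1
  rwa [sub_eq_zero] at h2

end

end Pool.Agent.Helper725_HQ
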