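import Mathlib

/-! Nilpotency of the augmentation ideal of a finite 3-group in characteristic three. -/

set_option autoImplicit false

namespace Pool.Agent.Helper725_HQ

/-- products of sufficiently many operators `g - 1` vanish -/
theorem nil_end {G : Type} [Group G] [Finite G] (hG : IsPGroup 3 G) (n : ℕ) :
    ∀ (A : Type) [AddCommGroup A] [Finite A], (∀ a : A, 3 • a = 0) → Nat.card A ≤ n →
    ∀ ρ : G →* AddMonoid.End A, ∃ D : ℕ, ∀ L : List G, L.length = D →
      (L.map (fun g => ρ g - 1)).prod = 0 := by
  have p3 : Fact (Nat.Prime 3) := ⟨by norm_num⟩
  induction n with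
  | zero =>
    intro A _ _ _ hc
    have := Nat.card_pos (α := A)
    omega
  | succ n ih =>
    intro A _ _ h3 hc ρ
    by_cases hA : Subsingleton A
    · refine ⟨0, ?_⟩
      intro L hL
      rw [List.length_eq_zero_iff.1 hL]
      apply AddMonoidHom.ext
      intro a
      exact Subsingleton.elim _ _
    · rw [not_subsingleton_iff_nontrivial] at hA
      letI act : MulAction G A :=
        { smul := fun g a => ρ g a
          one_smul := fun a => by
            show ρ 1 a = a
            rw [map_one]; rfl
          mul_smul := fun g h a => by
            show ρ (g * h) a = ρ g (ρ h a)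
            rw [map_mul]; rfl }
      have hsm : ∀ (g : G) (a : A), g • a = ρ g a := fun _ _ => rfl
      set W : AddSubgroup A :=
        { carrier := {a | ∀ g, ρ g a = a}
          zero_mem' := fun g => map_zero _
          add_mem' := fun {a b} ha hb g => by rw [map_add, ha g, hb g]
          neg_mem' := fun {a} ha g => by rw [map_neg, ha g] } with hW
      have hmem : ∀ a, a ∈ W ↔ ∀ g, ρ g a = a := fun _ => Iff.rfl
      have hdvd : 3 ∣ Nat.card A := by
        obtain ⟨a, ha⟩ := exists_ne (0 : A)
        have h1 : addOrderOf a = 3 := addOrderOf_eq_prime (h3 a) ha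
        rw [← h1]
        exact addOrderOf_dvd_natCard a
      obtain ⟨b, hb, hb0⟩ := hG.exists_fixed_point_of_prime_dvd_card_of_fixed_point A hdvd
        (a := (0 : A)) (by
          intro g
          rw [hsm]
          exact map_zero _)
      have hbW : b ∈ W := fun g => hb g
      have hle : ∀ g, W ≤ W.comap (ρ g) := by
        intro g a ha
        show ρ g a ∈ W
        rw [ha g]
        exact ha
      have hcard : Nat.card (A ⧸ W) ≤ n := by
        have h1 := AddSubgroup.card_eq_card_quotient_mul_card_addSubgroup W
        have h2 : 2 ≤ Nat.card W := by
          have : Nontrivial W := ⟨⟨⟨0, W.zero_mem⟩, ⟨b, hbW⟩, fun h => hb0 (congrArg Subtype.val h)⟩⟩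
          exact Finite.one_lt_card
        have h3 : 0 < Nat.card (A ⧸ W) := Nat.card_pos
        have h4 : Nat.card (A ⧸ W) * 2 ≤ Nat.card A := by
          rw [h1]
          exact Nat.mul_le_mul_left _ h2
        omega
      set ρ' : G →* AddMonoid.End (A ⧸ W) :=
        { toFun := fun g => QuotientAddGroup.map W W (ρ g) (hle g)
          map_one' := by
            apply AddMonoidHom.ext
            intro x
            induction x using QuotientAddGroup.induction_on with
            | H a =>
              show ((ρ 1 a : A) : A ⧸ W) = (a : A ⧸ W)
              rw [map_one]; rfl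
          map_mul' := fun g h => by
            apply AddMonoidHom.ext
            intro x
            induction x using QuotientAddGroup.induction_on with
            | H a =>
              show ((ρ (g * h) a : A) : A ⧸ W) = ((ρ g (ρ h a) : A) : A ⧸ W)
              rw [map_mul]; rfl } with hρ'
      obtain ⟨D, hD⟩ := ih (A ⧸ W) (by
        intro x
        induction x using QuotientAddGroup.induction_on with
        | H a =>
          rw [← QuotientAddGroup.mk_nsmul, h3 a]; rfl) hcard ρ'
      have key : ∀ (L : List G) (a : A), (((L.map (fun g => ρ g - 1)).prod a : A) : A ⧸ W) =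
          (L.map (fun g => ρ' g - 1)).prod (a : A ⧸ W) := by
        intro L
        induction L with
        | nil => intro a; rfl
        | cons g L ihL =>
          intro a
          rw [List.map_cons, List.prod_cons, List.map_cons, List.prod_cons]
          show (((ρ g - 1) ((L.map (fun g => ρ g - 1)).prod a) : A) : A ⧸ W) =
            (ρ' g - 1) ((L.map (fun g => ρ' g - 1)).prod (a : A ⧸ W))
          rw [← ihL]
          rfl
      refine ⟨D + 1, ?_⟩
      intro L hL
      cases L with
      | nil => simp at hL
      | cons g L =>
        rw [List.map_cons, List.prod_cons]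
        apply AddMonoidHom.ext
        intro a
        have h1 := key L a
        rw [hD L (by simpa using hL)] at h1
        have h2 : (L.map (fun g => ρ g - 1)).prod a ∈ W := by
          rw [← QuotientAddGroup.eq_zero_iff]
          exact h1
        show ρ g ((L.map (fun g => ρ g - 1)).prod a) - (L.map (fun g => ρ g - 1)).prod a = 0
        rw [h2 g, sub_self]

end Pool.Agent.Helper725_HQ
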