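import Pool.Agent.Helper725_HQ.AGrp
import Pool.Agent.Helper725_HQ.ANil

/-! The operators of conjugation on functions on the quaternions modulo a power of three, and the
filtration by the powers of the augmentation ideal. -/

set_option autoImplicit false
set_option linter.unusedVariables false

namespace Pool.Agent.Helper725_HQ

open Quaternion

section
variable {R : Type*} [Ring R]

theorem alg1 (g h : R) : (g - 1) * (h - 1) = (g * h - 1) - (g - 1) - (h - 1) := by noncomm_ring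

theorem alg2 (g h : R) : g * h - 1 = (g - 1) * (h - 1) + (g - 1) + (h - 1) := by noncomm_ring

theorem alg3 (g : R) : g ^ 3 - 1 = (g - 1) * (g - 1) * (g - 1) +
    3 * ((g - 1) * (g - 1) + (g - 1)) := by noncomm_ring

theorem alg4 (g h : R) : (g - 1) * (h - 1) - (h - 1) * (g - 1) = g * h - h * g := by noncomm_ring

theorem alg5 (g h c : R) (e : g * h = h * g * c) :
    ((g - 1) * (h - 1) - (h - 1) * (g - 1)) - (c - 1) = (h * g - 1) * (c - 1) := by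
  rw [alg4, e]; noncomm_ring

end

section
variable {N : ℕ}

theorem three_nilp (A : Hn N) : IsNilpotent ((3 : Zn N) • A) :=
  ⟨N, by rw [smul_pow, three_pow_zero le_rfl, zero_smul]⟩

/-- the unit `1 + 3 A` -/
noncomputable def kp (A : Hn N) : (Hn N)ˣ := (three_nilp A).isUnit_one_add.unit

theorem kap_val (A : Hn N) : (kp A : Hn N) = 1 + (3 : Zn N) • A := rfl

theorem kap_rel (A : Hn N) : Rel 1 (kp A) A := ⟨1, 0, by
  rw [kap_val, Units.val_one, smul_zero, add_zero, pow_one, one_smul]⟩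

theorem kap_conj (w : (Hn N)ˣ) (A : Hn N) : w * kp A * w⁻¹ = kp ((w : Hn N) * A *
    ((w⁻¹ : (Hn N)ˣ) : Hn N)) := by
  apply Units.ext
  rw [Units.val_mul, Units.val_mul, kap_val, kap_val, mul_add, mul_one, add_mul, Units.mul_inv,
    mul_smul_comm, smul_mul_assoc]

/-- the unit given by a quaternion of invertible norm -/
noncomputable def un (x : Hn N) (h : IsUnit (normSq x)) : (Hn N)ˣ where
  val := x
  inv := ((h.unit⁻¹ : (Zn N)ˣ) : Zn N) • star x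
  val_inv := by
    rw [mul_smul_comm, self_mul_star, ← coe_smul, smul_eq_mul]
    have : ((h.unit⁻¹ : (Zn N)ˣ) : Zn N) * normSq x = 1 := h.val_inv_mul
    rw [this]; rfl
  inv_val := by
    rw [smul_mul_assoc, star_mul_self, ← coe_smul, smul_eq_mul]
    have : ((h.unit⁻¹ : (Zn N)ˣ) : Zn N) * normSq x = 1 := h.val_inv_mul
    rw [this]; rfl

theorem un_val (x : Hn N) (h : IsUnit (normSq x)) : (un x h : Hn N) = x := rfl

/-- a pure quaternion -/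
def im (a b c : Zn N) : Hn N := ⟨0, a, b, c⟩

@[simp] theorem im_re (a b c : Zn N) : (im a b c).re = 0 := rfl
@[simp] theorem im_imI (a b c : Zn N) : (im a b c).imI = a := rfl
@[simp] theorem im_imJ (a b c : Zn N) : (im a b c).imJ = b := rfl
@[simp] theorem im_imK (a b c : Zn N) : (im a b c).imK = c := rfl

/-- generation of the congruence subgroups modulo the next one -/
theorem gen (n : ℕ) {g : (Hn N)ˣ} (hg : g ∈ Kz N (n + 1)) : ∃ a b c : ℕ, ∃ r ∈ Kz N (n + 1 + 1),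
    g = (kp (im 1 0 0) ^ 3 ^ n) ^ a * (kp (im 0 1 0) ^ 3 ^ n) ^ b *
      (kp (im 0 0 1) ^ 3 ^ n) ^ c * r := by
  obtain ⟨A, hA⟩ := Rel.of_mem hg
  obtain ⟨a, ha⟩ : ∃ a : ℕ, (a : Zn N) = A.imI := ZMod.natCast_zmod_surjective _
  obtain ⟨b, hb⟩ : ∃ b : ℕ, (b : Zn N) = A.imJ := ZMod.natCast_zmod_surjective _
  obtain ⟨c, hc⟩ : ∃ c : ℕ, (c : Zn N) = A.imK := ZMod.natCast_zmod_surjective _
  have h1 : Rel (n + 1) g (a • im 1 0 0 + b • im 0 1 0 + c • im 0 0 1) := by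
    apply Rel.scal (by omega) (z := A.re)
    have h2 : (a • im 1 0 0 + b • im 0 1 0 + c • im 0 0 1 : Hn N) + A.re • 1 = A := by
      rw [← Nat.cast_smul_eq_nsmul (Zn N) a, ← Nat.cast_smul_eq_nsmul (Zn N) b,
        ← Nat.cast_smul_eq_nsmul (Zn N) c, ha, hb, hc]
      apply Quaternion.ext
      · simp
      · simp
      · simp
      · simp
    rw [h2]
    exact hA
  have h2 : Rel (n + 1) ((kp (im 1 0 0) ^ 3 ^ n) ^ a * (kp (im 0 1 0) ^ 3 ^ n) ^ b *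
      (kp (im 0 0 1) ^ 3 ^ n) ^ c) (a • im 1 0 0 + b • im 0 1 0 + c • im 0 0 1 : Hn N) := by
    refine Rel.mul (by omega) (Rel.mul (by omega) ?_ ?_) ?_
    · exact ((kap_rel _).cube_pow n).pow (by omega) a
    · exact ((kap_rel _).cube_pow n).pow (by omega) b
    · exact ((kap_rel _).cube_pow n).pow (by omega) c
  exact ⟨a, b, c, _, h2.div h1, by rw [mul_inv_cancel_left]⟩

end

section
variable {N : ℕ} {k : Type*} [CommRing k] {R : Type*} [Ring R] [Algebra k R]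
  {ρ : (Hn N)ˣ →* R}

/-- the augmentation ideal -/
def Ia (k : Type*) [CommRing k] {R : Type*} [Ring R] [Algebra k R] (ρ : (Hn N)ˣ →* R) :
    Submodule k R :=
  Submodule.span k {T | ∃ g ∈ Kz N 1, T = ρ g - 1}

theorem y_mem1 {g : (Hn N)ˣ} (h : g ∈ Kz N 1) : ρ g - 1 ∈ Ia k ρ :=
  Submodule.subset_span ⟨g, h, rfl⟩

theorem y_mem1' {g : (Hn N)ˣ} (h : g ∈ Kz N 1) : ρ g - 1 ∈ Ia k ρ ^ 1 := by
  rw [pow_one]; exact y_mem1 h

theorem Ia_mul : Ia k ρ * Ia k ρ ≤ Ia k ρ := by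
  rw [Ia, Submodule.span_mul_span, Submodule.span_le]
  rintro _ ⟨_, ⟨g, hg, rfl⟩, _, ⟨h, hh, rfl⟩, rfl⟩
  have e : (ρ g - 1) * (ρ h - 1) = (ρ (g * h) - 1) - (ρ g - 1) -
      (ρ h - 1) := by
    rw [map_mul]; exact alg1 _ _
  show (ρ g - 1) * (ρ h - 1) ∈ Ia k ρ
  rw [e]
  exact Submodule.sub_mem _ (Submodule.sub_mem _ (y_mem1 (Subgroup.mul_mem _ hg hh)) (y_mem1 hg))
    (y_mem1 hh)

theorem Ia_anti {a b : ℕ} (ha : 1 ≤ a) (hab : a ≤ b) {T : R} (h : T ∈ Ia k ρ ^ b) :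
    T ∈ Ia k ρ ^ a := fanti Ia_mul ha hab h

/-- powers of a unipotent operator -/
theorem y_pow_mem {g : (Hn N)ˣ} {n : ℕ} (hn : 1 ≤ n) (h : ρ g - 1 ∈ Ia k ρ ^ n) (a : ℕ) :
    ρ (g ^ a) - 1 ∈ Ia k ρ ^ n := by
  induction a with
  | zero => rw [pow_zero, map_one, sub_self]; exact Submodule.zero_mem _
  | succ a ih =>
    have e : ρ (g ^ (a + 1)) - 1 = (ρ (g ^ a) - 1) * (ρ g - 1) +
        (ρ (g ^ a) - 1) + (ρ g - 1) := by
      rw [pow_succ, map_mul]; exact alg2 _ _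
    rw [e]
    have h2 := Ia_anti (b := n + n) hn (by omega) (fmul ih h)
    exact Submodule.add_mem _ (Submodule.add_mem _ h2 ih) h

theorem y_mul_mem {g h : (Hn N)ˣ} {n : ℕ} (hn : 1 ≤ n) (hg : ρ g - 1 ∈ Ia k ρ ^ n)
    (hh : ρ h - 1 ∈ Ia k ρ ^ n) : ρ (g * h) - 1 ∈ Ia k ρ ^ n := by
  have e : ρ (g * h) - 1 = (ρ g - 1) * (ρ h - 1) +
      (ρ g - 1) + (ρ h - 1) := by
    rw [map_mul]; exact alg2 _ _
  rw [e]
  have h2 := Ia_anti (b := n + n) hn (by omega) (fmul hg hh)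
  exact Submodule.add_mem _ (Submodule.add_mem _ h2 hg) hh

/-- cubes -/
theorem y_cube_mem (h3 : (3 : R) = 0) {g : (Hn N)ˣ} {n : ℕ} (h : ρ g - 1 ∈ Ia k ρ ^ n) :
    ρ (g ^ 3) - 1 ∈ Ia k ρ ^ (3 * n) := by
  have e : ρ (g ^ 3) - 1 = (ρ g - 1) * (ρ g - 1) * (ρ g - 1) +
      3 * ((ρ g - 1) * (ρ g - 1) + (ρ g - 1)) := by
    rw [map_pow]; exact alg3 _
  rw [e, h3, zero_mul, add_zero]
  have : 3 * n = n + n + n := by ring
  rw [this]
  exact fmul (fmul h h) h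

theorem y_cube_pow_mem (h3 : (3 : R) = 0) {g : (Hn N)ˣ} (h : g ∈ Kz N 1) (n : ℕ) :
    ρ (g ^ 3 ^ n) - 1 ∈ Ia k ρ ^ (3 ^ n) := by
  induction n with
  | zero => rw [pow_zero, pow_one, pow_one]; exact y_mem1 h
  | succ n ih =>
    have e : 3 ^ (n + 1) = 3 * 3 ^ n := by ring
    have e' : g ^ 3 ^ (n + 1) = (g ^ 3 ^ n) ^ 3 := by rw [← pow_mul, pow_succ]
    rw [e', e]
    exact y_cube_mem h3 ih

/-- the congruence subgroups and the powers of the augmentation ideal -/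
theorem y_mem (hs : ∀ (u : (Hn N)ˣ) (s : (Zn N)ˣ), (u : Hn N) = (s : Zn N) • 1 → ρ u = 1)
    (h3 : (3 : R) = 0) (n : ℕ) {g : (Hn N)ˣ} (hg : g ∈ Kz N (n + 1)) :
    ρ g - 1 ∈ Ia k ρ ^ (3 ^ n) := by
  obtain ⟨j, hj⟩ : ∃ j, N ≤ n + 1 + j := ⟨N, by omega⟩
  induction j generalizing n g with
  | zero =>
    obtain ⟨s, η, h1⟩ := hg
    rw [three_pow_zero (by omega), zero_smul, add_zero] at h1
    rw [hs _ s h1, sub_self]
    exact Submodule.zero_mem _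
  | succ j ih =>
    obtain ⟨a, b, c, r, hr, rfl⟩ := gen n hg
    have hpos : 1 ≤ 3 ^ n := Nat.one_le_pow _ _ (by norm_num)
    refine y_mul_mem hpos (y_mul_mem hpos (y_mul_mem hpos ?_ ?_) ?_) ?_
    · exact y_pow_mem hpos (y_cube_pow_mem h3 (kap_rel _).mem n) a
    · exact y_pow_mem hpos (y_cube_pow_mem h3 (kap_rel _).mem n) b
    · exact y_pow_mem hpos (y_cube_pow_mem h3 (kap_rel _).mem n) c
    · have h1 := ih (n + 1) hr (by omega)
      exact Ia_anti hpos (Nat.pow_le_pow_right (by norm_num) (by omega)) h1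

/-- leading terms of commutators -/
theorem y_comm (hs : ∀ (u : (Hn N)ˣ) (s : (Zn N)ˣ), (u : Hn N) = (s : Zn N) • 1 → ρ u = 1)
    (h3 : (3 : R) = 0) {g h : (Hn N)ˣ} {A B : Hn N} (hg : Rel 1 g A)
    (hh : Rel 1 h B) : ∃ c : (Hn N)ˣ, Rel 2 c (A * B - B * A) ∧ ρ c - 1 ∈ Ia k ρ ^ 3 ∧
      ((ρ g - 1) * (ρ h - 1) - (ρ h - 1) * (ρ g - 1)) - (ρ c - 1) ∈ Ia k ρ ^ 4 := by
  have h1 := hg.comm le_rfl le_rfl hh
  have hc : ρ ((h * g)⁻¹ * (g * h)) - 1 ∈ Ia k ρ ^ 3 := y_mem hs h3 1 h1.mem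
  refine ⟨_, h1, hc, ?_⟩
  obtain ⟨c, hc'⟩ : ∃ c, c = (h * g)⁻¹ * (g * h) := ⟨_, rfl⟩
  have e1 : ρ g * ρ h = ρ (h * g) * ρ c := by
    rw [← map_mul, ← map_mul, hc', mul_inv_cancel_left]
  rw [← hc'] at hc ⊢
  have e2 : ((ρ g - 1) * (ρ h - 1) - (ρ h - 1) * (ρ g - 1)) - (ρ c - 1) =
      (ρ (h * g) - 1) * (ρ c - 1) := by
    rw [map_mul] at e1 ⊢
    exact alg5 _ _ _ e1
  rw [e2]
  exact fmul (a := 1) (b := 3) (y_mem1' (Subgroup.mul_mem _ hh.mem hg.mem)) hc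

theorem y_comm3 (hs : ∀ (u : (Hn N)ˣ) (s : (Zn N)ˣ), (u : Hn N) = (s : Zn N) • 1 → ρ u = 1)
    (h3 : (3 : R) = 0) {g h : (Hn N)ˣ} (hg : g ∈ Kz N 1) (hh : h ∈ Kz N 1) :
    (ρ g - 1) * (ρ h - 1) - (ρ h - 1) * (ρ g - 1) ∈ Ia k ρ ^ 3 := by
  obtain ⟨A, hA⟩ := Rel.of_mem hg
  obtain ⟨B, hB⟩ := Rel.of_mem hh
  obtain ⟨c, -, h2, h4⟩ := y_comm (k := k) hs h3 hA hB
  have h5 := Ia_anti (by norm_num) (show 3 ≤ 4 by norm_num) h4
  have e := Submodule.add_mem _ h5 h2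
  rwa [sub_add_cancel] at e

end

end Pool.Agent.Helper725_HQ
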