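import Mathlib

/-! Identities in an algebra filtered by the powers of an ideal, in characteristic three. -/

set_option autoImplicit false
set_option linter.unusedVariables false

namespace Pool.Agent.Helper725_HQ

section
variable {k : Type*} [CommRing k] {R : Type*} [Ring R] [Algebra k R] {I : Submodule k R}

theorem fmul {a b : ℕ} {u v : R} (hu : u ∈ I ^ a) (hv : v ∈ I ^ b) : u * v ∈ I ^ (a + b) := by
  rw [pow_add]
  exact Submodule.mul_mem_mul hu hv

theorem fanti (hI : I * I ≤ I) {a b : ℕ} (ha : 1 ≤ a) (hab : a ≤ b) : I ^ b ≤ I ^ a := by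
  induction b, hab using Nat.le_induction with
  | base => exact le_rfl
  | succ n hn ih =>
    refine le_trans ?_ ih
    obtain ⟨m, rfl⟩ : ∃ m, n = m + 1 := ⟨n - 1, by omega⟩
    have h1 : I ^ (m + 1 + 1) = I ^ m * (I * I) := by
      rw [pow_succ, pow_succ, mul_assoc]
    have h2 : I ^ (m + 1) = I ^ m * I := pow_succ _ _
    rw [h1, h2]
    exact Submodule.mul_le.2 (fun u hu v hv => Submodule.mul_mem_mul hu (hI hv))

/-- truncated logarithm -/
def lam (r : R) : R := (r - 1) + (r - 1) * (r - 1)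

theorem s_lam (hI : I * I ≤ I) (h3 : (3 : R) = 0) {r r' : R} (h : r * r' = 1)
    (hr : r - 1 ∈ I) (hr' : r' - 1 ∈ I) : (r - 1 + (r' - 1)) - lam r * lam r ∈ I ^ 5 := by
  obtain ⟨y, hy⟩ : ∃ y, y = r - 1 := ⟨_, rfl⟩
  have e0 : r = 1 + y := by rw [hy]; abel
  have e1 : r' = 1 - y * r' := by
    rw [e0, add_mul, one_mul] at h
    rw [← h]; abel
  have e5 : r' = 1 - y + y * y - y * y * y + y * y * y * y - y * y * y * y * y * r' := by
    have e2 : r' = 1 - y * (1 - y * r') := by rw [← e1]; exact e1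
    have e3 : r' = 1 - y * (1 - y * (1 - y * r')) := by rw [← e1]; exact e2
    have e4 : r' = 1 - y * (1 - y * (1 - y * (1 - y * r'))) := by rw [← e1]; exact e3
    have e5 : r' = 1 - y * (1 - y * (1 - y * (1 - y * (1 - y * r')))) := by rw [← e1]; exact e4
    calc r' = 1 - y * (1 - y * (1 - y * (1 - y * (1 - y * r')))) := e5
      _ = _ := by noncomm_ring
  have key : (r - 1 + (r' - 1)) - lam r * lam r = 3 * (-(y * y * y)) - y * y * y * y * y * r' := by
    unfold lam
    rw [← hy]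
    calc y + (r' - 1) - (y + y * y) * (y + y * y) = y + ((1 - y + y * y - y * y * y +
          y * y * y * y - y * y * y * y * y * r') - 1) - (y + y * y) * (y + y * y) := by
          rw [← e5]
      _ = _ := by noncomm_ring
  have hy1 : y ∈ I ^ 1 := by rw [pow_one, hy]; exact hr
  have h5 : y * y * y * y * y ∈ I ^ 5 := fmul (fmul (fmul (fmul hy1 hy1) hy1) hy1) hy1
  rw [key, h3, zero_mul, zero_sub]
  apply Submodule.neg_mem
  have e6 : y * y * y * y * y * r' = y * y * y * y * y + y * y * y * y * y * (r' - 1) := by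
    noncomm_ring
  rw [e6]
  refine Submodule.add_mem _ h5 ?_
  have h6 := fmul h5 (show r' - 1 ∈ I ^ 1 by rw [pow_one]; exact hr')
  exact fanti hI (by norm_num) (by norm_num) h6

theorem lam_inv (hI : I * I ≤ I) (h3 : (3 : R) = 0) {r r' : R} (h : r * r' = 1)
    (hr : r - 1 ∈ I) (hr' : r' - 1 ∈ I) : lam r' + lam r ∈ I ^ 4 := by
  obtain ⟨y, hy⟩ : ∃ y, y = r - 1 := ⟨_, rfl⟩
  have e0 : r = 1 + y := by rw [hy]; abel
  have e1 : r' = 1 - y * r' := by
    rw [e0, add_mul, one_mul] at h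
    rw [← h]; abel
  have hy1 : y ∈ I ^ 1 := by rw [pow_one, hy]; exact hr
  have e5 : r' - 1 = -y + y * y - y * y * y + y * y * y * y * r' := by
    have e2 : r' = 1 - y * (1 - y * r') := by rw [← e1]; exact e1
    have e3 : r' = 1 - y * (1 - y * (1 - y * r')) := by rw [← e1]; exact e2
    have e4 : r' = 1 - y * (1 - y * (1 - y * (1 - y * r'))) := by rw [← e1]; exact e3
    calc r' - 1 = 1 - y * (1 - y * (1 - y * (1 - y * r'))) - 1 := by rw [← e4]
      _ = _ := by noncomm_ring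
  obtain ⟨z, hz⟩ : ∃ z, z = y * y * y * y * r' := ⟨_, rfl⟩
  have h4 : y * y * y * y ∈ I ^ 4 := fmul (fmul (fmul hy1 hy1) hy1) hy1
  have hz4 : z ∈ I ^ 4 := by
    have e6 : z = y * y * y * y + y * y * y * y * (r' - 1) := by rw [hz]; noncomm_ring
    rw [e6]
    refine Submodule.add_mem _ h4 ?_
    have h6 := fmul h4 (show r' - 1 ∈ I ^ 1 by rw [pow_one]; exact hr')
    exact fanti hI (by norm_num) (by norm_num) h6
  rw [← hz] at e5
  have key : lam r' + lam r = 3 * (y * y - y * y * y) + (z + (y * y * (y * y) - y * y * (y * y * y) -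
      y * y * y * (y * y) + y * y * y * (y * y * y) + (y * y * y * y + y * y * y * y) + (-y + y * y - y * y * y) * z + z * (-y + y * y - y * y * y) + z * z)) := by
    unfold lam
    rw [e5, ← hy]
    noncomm_ring
  rw [key, h3, zero_mul, zero_add]
  have le4 : ∀ {n : ℕ} {u : R}, 4 ≤ n → u ∈ I ^ n → u ∈ I ^ 4 := fun hn hu =>
    fanti hI (by norm_num) hn hu
  have hy2 := fmul hy1 hy1
  have hy3 := fmul hy2 hy1
  have hq : -y + y * y - y * y * y ∈ I ^ 1 := by
    refine Submodule.sub_mem _ (Submodule.add_mem _ (Submodule.neg_mem _ hy1) ?_) ?_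
    · exact fanti hI (by norm_num) (by norm_num) hy2
    · exact fanti hI (by norm_num) (by norm_num) hy3
  refine Submodule.add_mem _ hz4 ?_
  refine Submodule.add_mem _ (Submodule.add_mem _ (Submodule.add_mem _ (Submodule.add_mem _
    (Submodule.add_mem _ (Submodule.sub_mem _ (Submodule.sub_mem _ ?_ ?_) ?_) ?_) ?_) ?_) ?_) ?_
  · exact le4 (by norm_num) (fmul hy2 hy2)
  · exact le4 (by norm_num) (fmul hy2 hy3)
  · exact le4 (by norm_num) (fmul hy3 hy2)
  · exact le4 (by norm_num) (fmul hy3 hy3)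
  · exact Submodule.add_mem _ h4 h4
  · exact le4 (by norm_num) (fmul hq hz4)
  · exact le4 (by norm_num) (fmul hz4 hq)
  · exact le4 (by norm_num) (fmul hz4 hz4)

theorem f4 (hI : I * I ≤ I) {n : ℕ} {u : R} (hn : 4 ≤ n) (hu : u ∈ I ^ n) : u ∈ I ^ 4 :=
  fanti hI (by norm_num) hn hu

theorem f5 (hI : I * I ≤ I) {n : ℕ} {u : R} (hn : 5 ≤ n) (hu : u ∈ I ^ n) : u ∈ I ^ 5 :=
  fanti hI (by norm_num) hn hu

theorem lam_mul (hI : I * I ≤ I) (h3 : (3 : R) = 0) {r s : R} (hr : r - 1 ∈ I ^ 1)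
    (hs : s - 1 ∈ I ^ 1) (hc : (r - 1) * (s - 1) - (s - 1) * (r - 1) ∈ I ^ 3) :
    lam (r * s) - (lam r + lam s - ((r - 1) * (s - 1) - (s - 1) * (r - 1)) -
      ((r - 1) * (r - 1) * (s - 1) + (r - 1) * (s - 1) * (s - 1))) ∈ I ^ 4 := by
  obtain ⟨a, ha⟩ : ∃ a, a = r - 1 := ⟨_, rfl⟩
  obtain ⟨b, hb⟩ : ∃ b, b = s - 1 := ⟨_, rfl⟩
  have er : r = 1 + a := by rw [ha]; abel
  have es : s = 1 + b := by rw [hb]; abel
  rw [← ha, ← hb] at hc
  rw [← ha] at hr
  rw [← hb] at hs
  have key : lam (r * s) - (lam r + lam s - ((r - 1) * (s - 1) - (s - 1) * (r - 1)) -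
      ((r - 1) * (r - 1) * (s - 1) + (r - 1) * (s - 1) * (s - 1))) =
      3 * (a * b + a * a * b + a * b * b) + (a * b * (a * b) - (a * b - b * a) * b -
        a * (a * b - b * a)) := by
    unfold lam
    rw [er, es]
    noncomm_ring
  rw [key, h3, zero_mul, zero_add]
  refine Submodule.sub_mem _ (Submodule.sub_mem _ ?_ ?_) ?_
  · exact f4 hI (by norm_num) (fmul (fmul hr hs) (fmul hr hs))
  · exact f4 hI (by norm_num) (fmul hc hs)
  · exact f4 hI (by norm_num) (fmul hr hc)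

theorem lam_mul3 (hI : I * I ≤ I) (h3 : (3 : R) = 0) {r s t e : R} (hr : r - 1 ∈ I ^ 1)
    (hs : s - 1 ∈ I ^ 1) (ht : t - 1 ∈ I ^ 1) (he : e - 1 ∈ I ^ 3)
    (hc1 : (r - 1) * (s - 1) - (s - 1) * (r - 1) ∈ I ^ 3)
    (hc2 : (r - 1) * (t - 1) - (t - 1) * (r - 1) ∈ I ^ 3)
    (hc3 : (s - 1) * (t - 1) - (t - 1) * (s - 1) ∈ I ^ 3)
    (hce : (e - 1) - (((r - 1) * (s - 1) - (s - 1) * (r - 1)) +
      ((r - 1) * (t - 1) - (t - 1) * (r - 1)) + ((s - 1) * (t - 1) - (t - 1) * (s - 1))) ∈ I ^ 4) :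
    lam (r * s * t * e) - (lam r + lam s + lam t -
      ((r - 1) * (r - 1) * (s - 1) + (r - 1) * (s - 1) * (s - 1)) -
      ((r - 1 + (s - 1)) * (r - 1 + (s - 1)) * (t - 1) +
        (r - 1 + (s - 1)) * (t - 1) * (t - 1))) ∈ I ^ 4 := by
  obtain ⟨a, ha⟩ : ∃ a, a = r - 1 := ⟨_, rfl⟩
  obtain ⟨b, hb⟩ : ∃ b, b = s - 1 := ⟨_, rfl⟩
  obtain ⟨c, hc⟩ : ∃ c, c = t - 1 := ⟨_, rfl⟩
  obtain ⟨f, hf⟩ : ∃ f, f = e - 1 := ⟨_, rfl⟩
  have ers : r * s - 1 = a + b + a * b := by
    rw [ha, hb]; noncomm_ring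
  have erst : r * s * t - 1 = a + b + a * b + c + (a + b + a * b) * c := by
    rw [ha, hb, hc]; noncomm_ring
  have m1 := lam_mul hI h3 hr hs hc1
  have ka : a ∈ I ^ 1 := by rw [ha]; exact hr
  have kb : b ∈ I ^ 1 := by rw [hb]; exact hs
  have kc : c ∈ I ^ 1 := by rw [hc]; exact ht
  have kf : f ∈ I ^ 3 := by rw [hf]; exact he
  rw [← ha, ← hb] at hc1 m1
  rw [← ha, ← hc] at hc2
  rw [← hb, ← hc] at hc3
  rw [← ha, ← hb, ← hc, ← hf] at hce
  have le1 : ∀ {n : ℕ} {u : R}, 1 ≤ n → u ∈ I ^ n → u ∈ I ^ 1 := fun hn hu =>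
    fanti hI (by norm_num) hn hu
  have le3 : ∀ {n : ℕ} {u : R}, 3 ≤ n → u ∈ I ^ n → u ∈ I ^ 3 := fun hn hu =>
    fanti hI (by norm_num) hn hu
  have hab := fmul ka kb
  have hp : r * s - 1 ∈ I ^ 1 := by
    rw [ers]
    exact Submodule.add_mem _ (Submodule.add_mem _ ka kb) (le1 (by norm_num) hab)
  -- commutator of the product with the third element
  have ec : (r * s - 1) * c - c * (r * s - 1) = (a * c - c * a) + (b * c - c * b) +
      (a * (b * c - c * b) + (a * c - c * a) * b) := by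
    rw [ers]; noncomm_ring
  have hec : a * (b * c - c * b) + (a * c - c * a) * b ∈ I ^ 4 := by
    refine Submodule.add_mem _ (fmul ka hc3) (fmul hc2 kb)
  have hpc : (r * s - 1) * c - c * (r * s - 1) ∈ I ^ 3 := by
    rw [ec]
    exact Submodule.add_mem _ (Submodule.add_mem _ hc2 hc3) (le3 (by norm_num) hec)
  have m2 := lam_mul hI h3 (r := r * s) (s := t) hp ht (by rw [← hc]; exact hpc)
  rw [← hc] at m2
  have hq : r * s * t - 1 ∈ I ^ 1 := by
    rw [erst]
    rw [ers] at hp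
    exact Submodule.add_mem _ (Submodule.add_mem _ hp kc) (le1 (by norm_num) (fmul hp kc))
  have hqf : (r * s * t - 1) * f - f * (r * s * t - 1) ∈ I ^ 4 := by
    refine Submodule.sub_mem _ (fmul hq kf) ?_
    exact fmul kf hq
  have m3 := lam_mul hI h3 (r := r * s * t) (s := e) hq (le1 (by norm_num) he)
    (by rw [← hf]; exact le3 (by norm_num) hqf)
  rw [← hf] at m3
  -- collect
  have key : lam (r * s * t * e) - (lam r + lam s + lam t - (a * a * b + a * b * b) -
      ((a + b) * (a + b) * c + (a + b) * c * c)) =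
      (lam (r * s * t * e) - (lam (r * s * t) + lam e - ((r * s * t - 1) * f - f * (r * s * t - 1)) -
        ((r * s * t - 1) * (r * s * t - 1) * f + (r * s * t - 1) * f * f))) +
      (lam (r * s * t) - (lam (r * s) + lam t - ((r * s - 1) * c - c * (r * s - 1)) -
        ((r * s - 1) * (r * s - 1) * c + (r * s - 1) * c * c))) +
      (lam (r * s) - (lam r + lam s - (a * b - b * a) - (a * a * b + a * b * b))) +
      (f - ((a * b - b * a) + (a * c - c * a) + (b * c - c * b))) + f * f -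
      ((r * s * t - 1) * f - f * (r * s * t - 1)) -
        ((r * s * t - 1) * (r * s * t - 1) * f + (r * s * t - 1) * f * f) -
      (a * (b * c - c * b) + (a * c - c * a) * b) -
      (((a + b) * (a * b) + (a * b) * (a + b) + (a * b) * (a * b)) * c + (a * b) * c * c) := by
    have el : lam e = f + f * f := by unfold lam; rw [← hf]
    rw [el, ec, ers]
    noncomm_ring
  rw [← ha, ← hb, ← hc, key]
  have hs1 : a + b ∈ I ^ 1 := Submodule.add_mem _ ka kb
  refine Submodule.sub_mem _ (Submodule.sub_mem _ (Submodule.sub_mem _ (Submodule.sub_mem _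
    (Submodule.add_mem _ (Submodule.add_mem _ (Submodule.add_mem _ (Submodule.add_mem _
    m3 m2) m1) hce) ?_) hqf) ?_) hec) ?_
  · exact f4 hI (by norm_num) (fmul kf kf)
  · refine Submodule.add_mem _ (f4 hI (by norm_num) (fmul (fmul hq hq) kf)) ?_
    exact f4 hI (by norm_num) (fmul (fmul hq kf) kf)
  · refine Submodule.add_mem _ ?_ ?_
    · rw [add_mul, add_mul]
      refine Submodule.add_mem _ (Submodule.add_mem _ ?_ ?_) ?_
      · exact f4 hI (by norm_num) (fmul (fmul hs1 hab) kc)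
      · exact f4 hI (by norm_num) (fmul (fmul hab hs1) kc)
      · exact f4 hI (by norm_num) (fmul (fmul hab hab) kc)
    · exact f4 hI (by norm_num) (fmul (fmul hab kc) kc)

end

end Pool.Agent.Helper725_HQ
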