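import Pool.Agent.Helper725_HQ.AFil

/-! The quadratic and quartic parts of the two Hecke operators. -/

set_option autoImplicit false
set_option linter.unusedVariables false

namespace Pool.Agent.Helper725_HQ

section
variable {k : Type*} [CommRing k] {R : Type*} [Ring R] [Algebra k R] {I : Submodule k R}

/-- the cubic term -/
def hF (a b c : R) : R := a * a * b + a * b * b + ((a + b) * (a + b) * c + (a + b) * c * c)

theorem hF_mem (hI : I * I ≤ I) {a b c : R} (ha : a ∈ I ^ 1) (hb : b ∈ I ^ 1) (hc : c ∈ I ^ 1) :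
    hF a b c ∈ I ^ 3 := by
  have hab : a + b ∈ I ^ 1 := Submodule.add_mem _ ha hb
  unfold hF
  exact Submodule.add_mem _ (Submodule.add_mem _ (fmul (fmul ha ha) hb) (fmul (fmul ha hb) hb))
    (Submodule.add_mem _ (fmul (fmul hab hab) hc) (fmul (fmul hab hc) hc))

theorem hF_congr (hI : I * I ≤ I) {a b c b1 c1 : R} (ha : a ∈ I ^ 1) (hb : b ∈ I ^ 1)
    (hc : c ∈ I ^ 1) (hb1 : b1 ∈ I ^ 1) (hc1 : c1 ∈ I ^ 1) (h1 : b - b1 ∈ I ^ 2)
    (h2 : c - c1 ∈ I ^ 2) : hF a b c - hF a b1 c1 ∈ I ^ 4 := by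
  have key : hF a b c - hF a b1 c1 = a * a * (b - b1) + (a * (b - b1) * b + a * b1 * (b - b1)) +
      ((b - b1) * (a + b) * c + (a + b1) * (b - b1) * c + (a + b1) * (a + b1) * (c - c1)) +
      ((b - b1) * c * c + (a + b1) * (c - c1) * c + (a + b1) * c1 * (c - c1)) := by
    unfold hF
    noncomm_ring
  have hab : a + b ∈ I ^ 1 := Submodule.add_mem _ ha hb
  have hab1 : a + b1 ∈ I ^ 1 := Submodule.add_mem _ ha hb1
  rw [key]
  refine Submodule.add_mem _ (Submodule.add_mem _ (Submodule.add_mem _ ?_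
    (Submodule.add_mem _ ?_ ?_)) (Submodule.add_mem _ (Submodule.add_mem _ ?_ ?_) ?_))
    (Submodule.add_mem _ (Submodule.add_mem _ ?_ ?_) ?_)
  · exact fmul (fmul ha ha) h1
  · exact fmul (fmul ha h1) hb
  · exact fmul (fmul ha hb1) h1
  · exact fmul (fmul h1 hab) hc
  · exact fmul (fmul hab1 h1) hc
  · exact fmul (fmul hab1 hab1) h2
  · exact fmul (fmul h1 hc) hc
  · exact fmul (fmul hab1 h2) hc
  · exact fmul (fmul hab1 hc1) h2

theorem sq_step (hI : I * I ≤ I) {l U u h : R} (hw : l - (U - h) ∈ I ^ 4) (hU : U ∈ I ^ 1)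
    (hu : U - u ∈ I ^ 2) (hh : h ∈ I ^ 3) : l * l - (U * U - (u * h + h * u)) ∈ I ^ 5 := by
  obtain ⟨w, hw'⟩ : ∃ w, w = l - (U - h) := ⟨_, rfl⟩
  have el : l = U - h + w := by rw [hw']; abel
  rw [← hw'] at hw
  have key : l * l - (U * U - (u * h + h * u)) = U * w + w * U + h * h - h * w - w * h + w * w -
      (U - u) * h - h * (U - u) := by
    rw [el]; noncomm_ring
  rw [key]
  refine Submodule.sub_mem _ (Submodule.sub_mem _ (Submodule.add_mem _ (Submodule.sub_mem _
    (Submodule.sub_mem _ (Submodule.add_mem _ (Submodule.add_mem _ ?_ ?_) ?_) ?_) ?_) ?_) ?_) ?_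
  · exact fmul hU hw
  · exact fmul hw hU
  · exact f5 hI (by norm_num) (fmul hh hh)
  · exact f5 hI (by norm_num) (fmul hh hw)
  · exact f5 hI (by norm_num) (fmul hw hh)
  · exact f5 hI (by norm_num) (fmul hw hw)
  · exact fmul hu hh
  · exact fmul hh hu

/-- summation over the signs -/
theorem sign_sum (hI : I * I ≤ I) (h3 : (3 : R) = 0) {A B C a b c : R} (ha : a ∈ I ^ 1)
    (hb : b ∈ I ^ 1) (hc : c ∈ I ^ 1) (hab : a * b - b * a ∈ I ^ 3) (hac : a * c - c * a ∈ I ^ 3)
    (hbc : b * c - c * b ∈ I ^ 3) :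
    (((A + B + C) * (A + B + C) - ((a + b + c) * hF a b c + hF a b c * (a + b + c))) +
     ((A + B + -C) * (A + B + -C) - ((a + b + -c) * hF a b (-c) + hF a b (-c) * (a + b + -c))) +
     ((A + -B + C) * (A + -B + C) - ((a + -b + c) * hF a (-b) c + hF a (-b) c * (a + -b + c))) +
     ((A + -B + -C) * (A + -B + -C) -
      ((a + -b + -c) * hF a (-b) (-c) + hF a (-b) (-c) * (a + -b + -c)))) -
    (A * A + B * B + C * C - (a * a * b * b + b * b * c * c + a * a * c * c)) ∈ I ^ 5 := by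
  have key : (((A + B + C) * (A + B + C) - ((a + b + c) * hF a b c + hF a b c * (a + b + c))) +
     ((A + B + -C) * (A + B + -C) - ((a + b + -c) * hF a b (-c) + hF a b (-c) * (a + b + -c))) +
     ((A + -B + C) * (A + -B + C) - ((a + -b + c) * hF a (-b) c + hF a (-b) c * (a + -b + c))) +
     ((A + -B + -C) * (A + -B + -C) -
      ((a + -b + -c) * hF a (-b) (-c) + hF a (-b) (-c) * (a + -b + -c)))) -
    (A * A + B * B + C * C - (a * a * b * b + b * b * c * c + a * a * c * c)) =
    3 * (A * A + B * B + C * C - 5 * (a * a * b * b + b * b * c * c + a * a * c * c)) +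
    4 * (((a * b - b * a) * a * b + a * b * (a * b - b * a) + a * (a * b - b * a) * b +
        a * (a * b - b * a) * b) +
      ((a * c - c * a) * a * c + a * c * (a * c - c * a) + a * (a * c - c * a) * c +
        a * (a * c - c * a) * c) +
      ((b * c - c * b) * b * c + b * c * (b * c - c * b) + b * (b * c - c * b) * c +
        b * (b * c - c * b) * c)) := by
    unfold hF
    noncomm_ring
  rw [key, h3, zero_mul, zero_add]
  have h4 : (4 : R) = 1 := by
    have : (4 : R) = 3 + 1 := by norm_num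
    rw [this, h3, zero_add]
  have aux : ∀ {x y : R}, x ∈ I ^ 1 → y ∈ I ^ 1 → x * y - y * x ∈ I ^ 3 →
      (x * y - y * x) * x * y + x * y * (x * y - y * x) + x * (x * y - y * x) * y +
        x * (x * y - y * x) * y ∈ I ^ 5 := by
    intro x y hx hy hxy
    refine Submodule.add_mem _ (Submodule.add_mem _ (Submodule.add_mem _ ?_ ?_) ?_) ?_
    · exact fmul (fmul hxy hx) hy
    · exact fmul (fmul hx hy) hxy
    · exact fmul (fmul hx hxy) hy
    · exact fmul (fmul hx hxy) hy
  rw [h4, one_mul]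
  exact Submodule.add_mem _ (Submodule.add_mem _ (aux ha hb hab) (aux ha hc hac)) (aux hb hc hbc)

end

end Pool.Agent.Helper725_HQ
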