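import Pool.Agent.Helper725_HQ.AFil2

/-! Congruence subgroups of the quaternions modulo a power of three. -/

set_option autoImplicit false
set_option linter.unusedVariables false

namespace Pool.Agent.Helper725_HQ

open Quaternion

/-- quaternions modulo a power of three -/
abbrev Hn (N : ℕ) : Type := ℍ[ZMod (3 ^ N)]

/-- scalars modulo a power of three -/
abbrev Zn (N : ℕ) : Type := ZMod (3 ^ N)

section
variable {N : ℕ}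

theorem three_pow_zero {m : ℕ} (h : N ≤ m) : (3 : Zn N) ^ m = 0 := by
  have h1 : ((3 ^ m : ℕ) : Zn N) = 0 := by
    rw [ZMod.natCast_eq_zero_iff]
    exact pow_dvd_pow 3 h
  exact_mod_cast h1

theorem unit_three (z : Zn N) : IsUnit (1 + 3 * z) := by
  have h : IsNilpotent (3 * z) := ⟨N, by rw [mul_pow, three_pow_zero le_rfl, zero_mul]⟩
  exact h.isUnit_one_add

/-- `u` is a scalar times `1 + 3^m A + 3^(m+1) (...)` -/
def Rel (m : ℕ) (u : (Hn N)ˣ) (A : Hn N) : Prop :=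
  ∃ s : (Zn N)ˣ, ∃ ζ : Hn N, (u : Hn N) = (s : Zn N) • (1 + (3 : Zn N) ^ m • A +
    (3 : Zn N) ^ (m + 1) • ζ)

/-- the congruence subgroups, with scalars -/
def Kz (N m : ℕ) : Subgroup (Hn N)ˣ where
  carrier := {u | ∃ s : (Zn N)ˣ, ∃ η : Hn N, (u : Hn N) = (s : Zn N) • (1 + (3 : Zn N) ^ m • η)}
  one_mem' := ⟨1, 0, by simp⟩
  mul_mem' := by
    rintro u v ⟨s, η, hu⟩ ⟨s', η', hv⟩
    refine ⟨s * s', η + η' + (3 : Zn N) ^ m • (η * η'), ?_⟩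
    rw [Units.val_mul, hu, hv]
    simp only [Units.val_mul, smul_mul_assoc, mul_smul_comm, mul_add, add_mul, mul_one, one_mul,
      smul_add, smul_smul]
    module
  inv_mem' := by
    rintro u ⟨s, η, hu⟩
    refine ⟨s⁻¹, -(η * ((s : Zn N) • ((u⁻¹ : (Hn N)ˣ) : Hn N))), ?_⟩
    have h1 : (u : Hn N) * ((u⁻¹ : (Hn N)ˣ) : Hn N) = 1 := Units.mul_inv u
    rw [hu] at h1
    have h2 : (s : Zn N) • ((u⁻¹ : (Hn N)ˣ) : Hn N) = 1 - (3 : Zn N) ^ m • (η *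
        ((s : Zn N) • ((u⁻¹ : (Hn N)ˣ) : Hn N))) := by
      rw [eq_sub_iff_add_eq, ← h1]
      simp only [smul_mul_assoc, mul_smul_comm, add_mul, one_mul, smul_add, smul_smul]
      module
    have h3 : ((u⁻¹ : (Hn N)ˣ) : Hn N) = ((s⁻¹ : (Zn N)ˣ) : Zn N) •
        ((s : Zn N) • ((u⁻¹ : (Hn N)ˣ) : Hn N)) := by
      rw [smul_smul, Units.inv_mul, one_smul]
    calc ((u⁻¹ : (Hn N)ˣ) : Hn N) = ((s⁻¹ : (Zn N)ˣ) : Zn N) •
        ((s : Zn N) • ((u⁻¹ : (Hn N)ˣ) : Hn N)) := h3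
      _ = ((s⁻¹ : (Zn N)ˣ) : Zn N) • (1 - (3 : Zn N) ^ m • (η *
        ((s : Zn N) • ((u⁻¹ : (Hn N)ˣ) : Hn N)))) := congrArg _ h2
      _ = _ := by rw [smul_neg, ← sub_eq_add_neg]

theorem mem_Kz {m : ℕ} {u : (Hn N)ˣ} : u ∈ Kz N m ↔ ∃ s : (Zn N)ˣ, ∃ η : Hn N,
    (u : Hn N) = (s : Zn N) • (1 + (3 : Zn N) ^ m • η) := Iff.rfl

theorem Rel.mem {m : ℕ} {u : (Hn N)ˣ} {A : Hn N} (h : Rel m u A) : u ∈ Kz N m := by
  obtain ⟨s, ζ, hu⟩ := h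
  refine ⟨s, A + (3 : Zn N) • ζ, ?_⟩
  rw [hu]
  congr 1
  rw [smul_add, smul_smul, ← pow_succ, add_assoc]

theorem Rel.one (m : ℕ) : Rel m (1 : (Hn N)ˣ) 0 := ⟨1, 0, by simp⟩

theorem Rel.mul {m : ℕ} (hm : 1 ≤ m) {u v : (Hn N)ˣ} {A B : Hn N} (hu : Rel m u A)
    (hv : Rel m v B) : Rel m (u * v) (A + B) := by
  obtain ⟨s, ζ, hu⟩ := hu
  obtain ⟨s', ζ', hv⟩ := hv
  obtain ⟨j, rfl⟩ : ∃ j, m = j + 1 := ⟨m - 1, by omega⟩
  refine ⟨s * s', ζ + ζ' + (3 : Zn N) ^ j • (A * B) + (3 : Zn N) ^ (j + 1) • (A * ζ' + ζ * B) +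
    (3 : Zn N) ^ (j + 2) • (ζ * ζ'), ?_⟩
  rw [Units.val_mul, hu, hv]
  simp only [Units.val_mul, smul_mul_assoc, mul_smul_comm, mul_add, add_mul, mul_one, one_mul,
    smul_add, smul_smul]
  module

/-- two elements with the same leading term -/
theorem Rel.div {m : ℕ} {u v : (Hn N)ˣ} {A : Hn N} (hu : Rel m u A) (hv : Rel m v A) :
    u⁻¹ * v ∈ Kz N (m + 1) := by
  obtain ⟨s, ζ, hu⟩ := hu
  obtain ⟨s', ζ', hv⟩ := hv
  refine ⟨s⁻¹ * s', (s : Zn N) • (((u⁻¹ : (Hn N)ˣ) : Hn N) * (ζ' - ζ)), ?_⟩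
  have h2 : ((s⁻¹ * s' : (Zn N)ˣ) : Zn N) * s = s' := by
    rw [← Units.val_mul]; congr 1; rw [mul_comm, mul_inv_cancel_left]
  have h1 : (v : Hn N) = ((s⁻¹ * s' : (Zn N)ˣ) : Zn N) • ((u : Hn N) +
      ((s : Zn N) * (3 : Zn N) ^ (m + 1)) • (ζ' - ζ)) := by
    calc (v : Hn N) = (s' : Zn N) • (1 + (3 : Zn N) ^ m • A + (3 : Zn N) ^ (m + 1) • ζ') := hv
      _ = (((s⁻¹ * s' : (Zn N)ˣ) : Zn N) * s) • (1 + (3 : Zn N) ^ m • A +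
          (3 : Zn N) ^ (m + 1) • ζ') := by rw [h2]
      _ = ((s⁻¹ * s' : (Zn N)ˣ) : Zn N) • ((s : Zn N) • (1 + (3 : Zn N) ^ m • A +
          (3 : Zn N) ^ (m + 1) • ζ) + ((s : Zn N) * (3 : Zn N) ^ (m + 1)) • (ζ' - ζ)) := by
          module
      _ = _ := by rw [← hu]
  have h4 : ((u⁻¹ * v : (Hn N)ˣ) : Hn N) = ((u⁻¹ : (Hn N)ˣ) : Hn N) * (v : Hn N) := rfl
  rw [h4, h1, mul_smul_comm, mul_add, Units.inv_mul, mul_smul_comm]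
  module

theorem Rel.congr {m : ℕ} {u : (Hn N)ˣ} {A B : Hn N} (hu : Rel m u A)
    (h : ∃ X : Hn N, A = B + (3 : Zn N) • X) : Rel m u B := by
  obtain ⟨s, ζ, hu⟩ := hu
  obtain ⟨X, hX⟩ := h
  refine ⟨s, ζ + X, ?_⟩
  rw [hu, hX]
  module

/-- the scalar part of the leading term may be dropped -/
theorem Rel.scal {m : ℕ} (hm : 1 ≤ m) {u : (Hn N)ˣ} {A : Hn N} {z : Zn N}
    (hu : Rel m u (A + z • 1)) : Rel m u A := by
  obtain ⟨s, ζ, hu⟩ := hu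
  obtain ⟨j, rfl⟩ : ∃ j, m = j + 1 := ⟨m - 1, by omega⟩
  obtain ⟨t, ht⟩ := unit_three ((3 : Zn N) ^ j * z)
  refine ⟨s * t, ((t⁻¹ : (Zn N)ˣ) : Zn N) • (ζ - ((3 : Zn N) ^ j * z) • A), ?_⟩
  have h1 : (t : Zn N) * ((t⁻¹ : (Zn N)ˣ) : Zn N) = 1 := Units.mul_inv t
  rw [hu]
  calc (s : Zn N) • (1 + (3 : Zn N) ^ (j + 1) • (A + z • (1 : Hn N)) + (3 : Zn N) ^ (j + 1 + 1) • ζ)
      = (s : Zn N) • ((1 + 3 * ((3 : Zn N) ^ j * z)) • (1 : Hn N) + (3 : Zn N) ^ (j + 1) • A +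
        (3 : Zn N) ^ (j + 1 + 1) • ζ) := by module
    _ = (s : Zn N) • ((t : Zn N) • (1 : Hn N) + ((3 : Zn N) ^ (j + 1) *
        ((t : Zn N) - 3 * ((3 : Zn N) ^ j * z))) • A +
        (3 : Zn N) ^ (j + 1 + 1) • ζ) := by
        rw [ht]
        congr 3
        ring_nf
    _ = (s : Zn N) • ((t : Zn N) • (1 : Hn N) + ((3 : Zn N) ^ (j + 1) * t) • A +
        ((3 : Zn N) ^ (j + 1 + 1) * ((t : Zn N) * ((t⁻¹ : (Zn N)ˣ) : Zn N))) •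
          (ζ - ((3 : Zn N) ^ j * z) • A)) := by
        rw [h1]
        module
    _ = _ := by
        rw [Units.val_mul]
        module

theorem Rel.of_mem {m : ℕ} {u : (Hn N)ˣ} (h : u ∈ Kz N m) : ∃ A, Rel m u A := by
  obtain ⟨s, η, h1⟩ := h
  exact ⟨η, s, 0, by rw [h1, smul_zero, add_zero]⟩

theorem Rel.inv {m : ℕ} (hm : 1 ≤ m) {u : (Hn N)ˣ} {A : Hn N} (hu : Rel m u A) :
    Rel m u⁻¹ (-A) := by
  obtain ⟨s, η, h1⟩ := (Kz N m).inv_mem hu.mem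
  obtain ⟨s', ζ, h2⟩ := hu
  obtain ⟨j, rfl⟩ : ∃ j, m = j + 1 := ⟨m - 1, by omega⟩
  have hv : (s' : Zn N) • ((u⁻¹ : (Hn N)ˣ) : Hn N) = 1 - (3 : Zn N) ^ (j + 1) •
      ((A + (3 : Zn N) • ζ) * ((s' : Zn N) • ((u⁻¹ : (Hn N)ˣ) : Hn N))) := by
    have h3 : (u : Hn N) * ((u⁻¹ : (Hn N)ˣ) : Hn N) = 1 := Units.mul_inv u
    rw [h2] at h3
    rw [eq_sub_iff_add_eq, ← h3]
    simp only [smul_mul_assoc, mul_smul_comm, add_mul, one_mul, smul_add, smul_smul]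
    module
  -- the inverse is close to a scalar
  obtain ⟨t, ht⟩ : ∃ t : Zn N, t = s' * s := ⟨_, rfl⟩
  have h5 : (s' : Zn N) • ((u⁻¹ : (Hn N)ˣ) : Hn N) = t • (1 + (3 : Zn N) ^ (j + 1) • η) := by
    rw [h1, smul_smul, ← ht]
  obtain ⟨w, hw⟩ : ∃ w, w = (s' : Zn N) • ((u⁻¹ : (Hn N)ˣ) : Hn N) := ⟨_, rfl⟩
  rw [← hw] at hv h5
  refine ⟨s'⁻¹, -ζ * w + (3 : Zn N) ^ j • (A * ((A + (3 : Zn N) • ζ) * w)), ?_⟩
  have h6 : ((u⁻¹ : (Hn N)ˣ) : Hn N) = ((s'⁻¹ : (Zn N)ˣ) : Zn N) • w := by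
    rw [hw, smul_smul, Units.inv_mul, one_smul]
  rw [h6]
  congr 1
  calc w = 1 - (3 : Zn N) ^ (j + 1) • ((A + (3 : Zn N) • ζ) * w) := hv
    _ = 1 - (3 : Zn N) ^ (j + 1) • (A * w) - (3 : Zn N) ^ (j + 1 + 1) • (ζ * w) := by
        simp only [add_mul, smul_mul_assoc, smul_add, smul_smul]
        module
    _ = 1 - (3 : Zn N) ^ (j + 1) • (A * (1 - (3 : Zn N) ^ (j + 1) • ((A + (3 : Zn N) • ζ) * w))) -
          (3 : Zn N) ^ (j + 1 + 1) • (ζ * w) := by rw [← hv]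
    _ = _ := by
        simp only [mul_sub, mul_one, mul_smul_comm, neg_mul, smul_add, smul_neg, smul_sub,
          smul_smul]
        module

theorem Rel.pow {m : ℕ} (hm : 1 ≤ m) {u : (Hn N)ˣ} {A : Hn N} (hu : Rel m u A) (n : ℕ) :
    Rel m (u ^ n) (n • A) := by
  induction n with
  | zero => rw [pow_zero, zero_smul]; exact Rel.one m
  | succ n ih =>
    rw [pow_succ, succ_nsmul]
    exact ih.mul hm hu

theorem Rel.cube {m : ℕ} (hm : 1 ≤ m) {u : (Hn N)ˣ} {A : Hn N} (hu : Rel m u A) :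
    Rel (m + 1) (u ^ 3) A := by
  obtain ⟨s, ζ, hu⟩ := hu
  obtain ⟨j, rfl⟩ : ∃ j, m = j + 1 := ⟨m - 1, by omega⟩
  obtain ⟨B, hB⟩ : ∃ B, B = A + (3 : Zn N) • ζ := ⟨_, rfl⟩
  refine ⟨s ^ 3, ζ + (3 : Zn N) ^ j • (B * B) + (3 : Zn N) ^ (2 * j) • (B * B * B), ?_⟩
  have h1 : (u : Hn N) = (s : Zn N) • (1 + (3 : Zn N) ^ (j + 1) • B) := by
    rw [hu, hB]
    module
  rw [Units.val_pow_eq_pow_val, Units.val_pow_eq_pow_val, h1, smul_pow]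
  congr 1
  have h2 : (1 + (3 : Zn N) ^ (j + 1) • B) ^ 3 = 1 + (3 * (3 : Zn N) ^ (j + 1)) • B +
      (3 * ((3 : Zn N) ^ (j + 1) * (3 : Zn N) ^ (j + 1))) • (B * B) +
      ((3 : Zn N) ^ (j + 1) * (3 : Zn N) ^ (j + 1) * (3 : Zn N) ^ (j + 1)) • (B * B * B) := by
    rw [pow_three]
    simp only [mul_add, add_mul, mul_one, one_mul, smul_mul_assoc, mul_smul_comm, smul_add,
      smul_smul, ← mul_assoc]
    module
  rw [h2, hB]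
  have h3 : (3 : Zn N) ^ (j + 1) * (3 : Zn N) ^ (j + 1) * (3 : Zn N) ^ (j + 1) =
      (3 : Zn N) ^ (j + 1 + 1 + 1) * (3 : Zn N) ^ (2 * j) := by ring
  have h4 : 3 * ((3 : Zn N) ^ (j + 1) * (3 : Zn N) ^ (j + 1)) = (3 : Zn N) ^ (j + 1 + 1 + 1) *
      (3 : Zn N) ^ j := by ring
  rw [h3, h4]
  module

theorem Rel.cube_pow {u : (Hn N)ˣ} {A : Hn N} (hu : Rel 1 u A) (n : ℕ) :
    Rel (n + 1) (u ^ 3 ^ n) A := by
  induction n with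
  | zero => rw [pow_zero, pow_one]; exact hu
  | succ n ih =>
    rw [pow_succ, pow_mul]
    exact ih.cube (by omega)

/-- commutators -/
theorem Rel.comm {a b : ℕ} (ha : 1 ≤ a) (hb : 1 ≤ b) {g h : (Hn N)ˣ} {A B : Hn N}
    (hg : Rel a g A) (hh : Rel b h B) : Rel (a + b) ((h * g)⁻¹ * (g * h)) (A * B - B * A) := by
  obtain ⟨s, ζ, hg⟩ := hg
  obtain ⟨s', ζ', hh⟩ := hh
  obtain ⟨i, rfl⟩ : ∃ i, a = i + 1 := ⟨a - 1, by omega⟩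
  obtain ⟨j, rfl⟩ : ∃ j, b = j + 1 := ⟨b - 1, by omega⟩
  obtain ⟨A', hA'⟩ : ∃ A', A' = A + (3 : Zn N) • ζ := ⟨_, rfl⟩
  obtain ⟨B', hB'⟩ : ∃ B', B' = B + (3 : Zn N) • ζ' := ⟨_, rfl⟩
  have hg1 : (g : Hn N) = (s : Zn N) • (1 + (3 : Zn N) ^ (i + 1) • A') := by
    rw [hg, hA']; module
  have hh1 : (h : Hn N) = (s' : Zn N) • (1 + (3 : Zn N) ^ (j + 1) • B') := by
    rw [hh, hB']; module
  obtain ⟨v, hv⟩ : ∃ v, v = ((h * g)⁻¹ : (Hn N)ˣ) := ⟨_, rfl⟩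
  have e1 : (g : Hn N) * (h : Hn N) = (h : Hn N) * (g : Hn N) + ((s * s' : Zn N) *
      (3 : Zn N) ^ (i + 1 + (j + 1))) • (A' * B' - B' * A') := by
    rw [hg1, hh1]
    simp only [mul_add, add_mul, mul_one, one_mul, smul_mul_assoc, mul_smul_comm, smul_add,
      smul_smul, smul_sub]
    module
  have e2 : ((h : Hn N) * (g : Hn N)) = ((s : Zn N) * s') • (1 + (3 : Zn N) •
      ((3 : Zn N) ^ i • A' + (3 : Zn N) ^ j • B' +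
        (3 : Zn N) ^ (i + 1 + j) • (B' * A'))) := by
    rw [hg1, hh1]
    simp only [mul_add, add_mul, mul_one, one_mul, smul_mul_assoc, mul_smul_comm, smul_add,
      smul_smul]
    module
  obtain ⟨W, hW⟩ : ∃ W, W = ((3 : Zn N) ^ i • A' + (3 : Zn N) ^ j • B' +
        (3 : Zn N) ^ (i + 1 + j) • (B' * A')) := ⟨_, rfl⟩
  rw [← hW] at e2
  have e3 : (v : Hn N) * ((h : Hn N) * (g : Hn N)) = 1 := by
    rw [hv, ← Units.val_mul, Units.inv_mul]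
  have e4 : ((s : Zn N) * s') • (v : Hn N) = 1 - (3 : Zn N) • (((s : Zn N) * s') •
      ((v : Hn N) * W)) := by
    rw [eq_sub_iff_add_eq, ← e3, e2]
    simp only [mul_add, mul_one, mul_smul_comm, smul_add, smul_smul]
    module
  refine ⟨1, (A * ζ' + ζ * B' - (B * ζ + ζ' * A')) -
    (((s : Zn N) * s') • ((v : Hn N) * W)) * (A' * B' - B' * A'), ?_⟩
  have e5 : (((h * g)⁻¹ * (g * h) : (Hn N)ˣ) : Hn N) = (v : Hn N) * ((g : Hn N) * (h : Hn N)) := by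
    rw [hv]; rfl
  rw [e5, e1, mul_add, e3, mul_smul_comm]
  have e6 : ((s * s' : Zn N) * (3 : Zn N) ^ (i + 1 + (j + 1))) • ((v : Hn N) *
      (A' * B' - B' * A')) = (3 : Zn N) ^ (i + 1 + (j + 1)) • ((((s : Zn N) * s') • (v : Hn N)) *
      (A' * B' - B' * A')) := by
    simp only [smul_mul_assoc, smul_smul]
    congr 1
    ring
  rw [e6, e4, Units.val_one, one_smul]
  obtain ⟨Y, hY⟩ : ∃ Y, Y = ((s : Zn N) * s') • ((v : Hn N) * W) := ⟨_, rfl⟩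
  rw [← hY]
  have e7 : A' * B' - B' * A' = A * B - B * A + (3 : Zn N) • (A * ζ' + ζ * B' -
      (B * ζ + ζ' * A')) := by
    rw [hA', hB']
    simp only [mul_add, add_mul, smul_mul_assoc, mul_smul_comm, smul_add, smul_smul, smul_sub]
    module
  rw [sub_mul, one_mul, smul_mul_assoc]
  obtain ⟨Q, hQ⟩ : ∃ Q, Q = A' * B' - B' * A' := ⟨_, rfl⟩
  rw [← hQ] at e7 ⊢
  obtain ⟨Z, hZ⟩ : ∃ Z, Z = Y * Q := ⟨_, rfl⟩
  rw [← hZ, e7]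
  module

theorem Kz_anti {m n : ℕ} (h : m ≤ n) : Kz N n ≤ Kz N m := by
  rintro u ⟨s, η, hu⟩
  obtain ⟨j, rfl⟩ := Nat.exists_eq_add_of_le h
  refine ⟨s, (3 : Zn N) ^ j • η, ?_⟩
  rw [hu, smul_smul, ← pow_add]

end

end Pool.Agent.Helper725_HQ
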