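import Pool.Agent.Helper725_HQ.LForm

/-! Octahedral invariance. -/

set_option autoImplicit false
set_option linter.unusedSimpArgs false
set_option linter.unnecessarySeqFocus false

namespace Pool.Agent.Helper725_HQ

open Quaternion MvPolynomial

/-- sign change of the first coordinate -/
def flZ : Fin 3 → Fin 3 → ℤ := ![![-1, 0, 0], ![0, 1, 0], ![0, 0, 1]]
/-- cyclic permutation -/
def cyZ : Fin 3 → Fin 3 → ℤ := ![![0, 1, 0], ![0, 0, 1], ![1, 0, 0]]
/-- transposition -/
def swZ : Fin 3 → Fin 3 → ℤ := ![![1, 0, 0], ![0, 0, 1], ![0, 1, 0]]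

section
variable {R : Type*} [CommRing R]

/-- integral matrices over a ring -/
def mz (M : Fin 3 → Fin 3 → ℤ) : Fin 3 → Fin 3 → R := fun i j => ((M i j : ℤ) : R)

/-- octahedral symmetry -/
structure Sym (P : MvPolynomial (Fin 3) R) : Prop where
  fl : lsub (mz flZ) P = P
  cy : lsub (mz cyZ) P = P
  sw : lsub (mz swZ) P = P

theorem Sym.map {S : Type*} [CommRing S] {P : MvPolynomial (Fin 3) R} (h : Sym P) (φ : R →+* S) :
    Sym (map φ P) := by
  have key : ∀ M : Fin 3 → Fin 3 → ℤ, lsub (mz M) P = P →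
      lsub (mz M) (MvPolynomial.map φ P) = MvPolynomial.map φ P := by
    intro M hM
    conv_rhs => rw [← hM, map_lsub]
    congr 2
    funext i j
    exact (map_intCast φ (M i j)).symm
  exact ⟨key _ h.fl, key _ h.cy, key _ h.sw⟩

theorem Sym.of_map {S : Type*} [CommRing S] {P : MvPolynomial (Fin 3) R} {φ : R →+* S}
    (hφ : Function.Injective φ) (h : Sym (MvPolynomial.map φ P)) : Sym P := by
  have key : ∀ M : Fin 3 → Fin 3 → ℤ, lsub (mz M) (MvPolynomial.map φ P) = MvPolynomial.map φ P →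
      lsub (mz M) P = P := by
    intro M hM
    apply map_injective φ hφ
    rw [map_lsub]
    have : (fun i j => φ (mz M i j)) = mz M := by
      funext i j
      exact map_intCast φ (M i j)
    rw [this, hM]
  exact ⟨key _ h.fl, key _ h.cy, key _ h.sw⟩

variable {P : MvPolynomial (Fin 3) R}

theorem Sym.e_fl (h : Sym P) (x : Fin 3 → R) : eval ![-x 0, x 1, x 2] P = eval x P := by
  conv_rhs => rw [← h.fl, eval_lsub]
  congr 2
  funext i
  rw [Fin.sum_univ_three]
  fin_cases i <;> simp [mz, flZ]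

theorem Sym.e_cy (h : Sym P) (x : Fin 3 → R) : eval ![x 1, x 2, x 0] P = eval x P := by
  conv_rhs => rw [← h.cy, eval_lsub]
  congr 2
  funext i
  rw [Fin.sum_univ_three]
  fin_cases i <;> simp [mz, cyZ]

theorem Sym.e_sw (h : Sym P) (x : Fin 3 → R) : eval ![x 0, x 2, x 1] P = eval x P := by
  conv_rhs => rw [← h.sw, eval_lsub]
  congr 2
  funext i
  rw [Fin.sum_univ_three]
  fin_cases i <;> simp [mz, swZ]

theorem Sym.v_fl0 (h : Sym P) (a b c : R) : eval ![-a, b, c] P = eval ![a, b, c] P := by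
  simpa using h.e_fl ![a, b, c]

theorem Sym.v_cy (h : Sym P) (a b c : R) : eval ![b, c, a] P = eval ![a, b, c] P := by
  simpa using h.e_cy ![a, b, c]

theorem Sym.v_sw (h : Sym P) (a b c : R) : eval ![a, c, b] P = eval ![a, b, c] P := by
  simpa using h.e_sw ![a, b, c]

theorem Sym.v_fl1 (h : Sym P) (a b c : R) : eval ![a, -b, c] P = eval ![a, b, c] P := by
  rw [← h.v_cy a (-b) c, h.v_fl0, h.v_cy]

theorem Sym.v_fl2 (h : Sym P) (a b c : R) : eval ![a, b, -c] P = eval ![a, b, c] P := by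
  rw [← h.v_sw a b (-c), h.v_fl1, h.v_sw]

/-- the gradient at a fixed point of the cyclic permutation -/
theorem Sym.grad (h : Sym P) (t : R) (j : Fin 3) :
    eval ![t, t, t] (pderiv j P) = eval ![t, t, t] (pderiv 0 P) := by
  have key : ∀ j, eval ![t, t, t] (pderiv j P) =
      ∑ i, mz cyZ i j * eval ![t, t, t] (pderiv i P) := by
    intro j
    conv_lhs => rw [← h.cy, pderiv_lsub, map_sum]
    apply Finset.sum_congr rfl
    intro i _
    rw [map_mul, eval_C, eval_lsub]
    congr 2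
    apply congrArg
    funext l
    rw [Fin.sum_univ_three]
    fin_cases l <;> simp [mz, cyZ]
  have k1 := key 1
  have k2 := key 2
  rw [Fin.sum_univ_three] at k1 k2
  simp [mz, cyZ] at k1 k2
  fin_cases j
  · rfl
  · exact k1
  · exact k2.trans k1

/-- Euler's identity at a point -/
theorem euler_eval {k : ℕ} (hP : P.IsHomogeneous k) (x : Fin 3 → R) :
    ∑ j, x j * eval x (pderiv j P) = (k : R) * eval x P := by
  have h1 := hP.sum_X_mul_pderiv
  have h2 := congrArg (eval x) h1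
  rw [map_sum] at h2
  simp only [map_mul, eval_X, map_nsmul, nsmul_eq_mul, map_natCast] at h2
  exact h2

end

theorem sym_of_form {k : ℕ} (hk : Even k) {F : Fun1} (hF : Form1 k F) : Sym (F Oo) := by
  set P := F Oo with hP
  have hhom : P.IsHomogeneous k := hF.hom Oo
  have hneg : lsub (mz (fun i j => if i = j then (-1 : ℤ) else 0)) P = P := by
    have h1 := lsub_smul hhom (-1 : ℂ) (fun i j => if i = j then 1 else 0)
    rw [lsub_id, hk.neg_one_pow, C_1, one_mul] at h1
    refine (lsub_congr ?_ P).trans h1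
    intro i j
    simp only [mz]
    split_ifs <;> simp
  have hrot : ∀ (a b c d N : ℤ) (M : Fin 3 → Fin 3 → ℤ), a ^ 2 + b ^ 2 + c ^ 2 + d ^ 2 = N →
      N ≠ 0 → (∀ i j, rotZ a b c d i j = N * M i j) → lsub (rC (mk4 a b c d)) P = P →
      lsub (mz M) P = P := by
    intro a b c d N M h1 h2 h3 h4
    conv_rhs => rw [← h4]
    apply lsub_congr
    intro i j
    have h5 := rmat_rotZ h1 h2 i j
    rw [h3 i j] at h5
    push_cast at h5
    have h2' : (N : ℚ) ≠ 0 := by exact_mod_cast h2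
    have h6 := mul_left_cancel₀ h2' h5
    unfold rC mz
    rw [h6, Rat.cast_intCast]
  -- the quaternion i
  have hi : lsub (mz (![![1, 0, 0], ![0, -1, 0], ![0, 0, -1]])) P = P := by
    apply hrot 0 1 0 0 1 _ (by norm_num) (by norm_num) (by decide)
    apply form1_unit hF (int_mem 0 1 0 0)
    rw [normSq_def']; simp
  have hom : lsub (mz cyZ) P = P := by
    apply hrot 1 1 1 1 4 _ (by norm_num) (by norm_num) (by decide)
    have h1 : mk4 ((1 : ℤ) : ℚ) ((1 : ℤ) : ℚ) ((1 : ℤ) : ℚ) ((1 : ℤ) : ℚ) =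
        ((2 : ℚ) : ℍ[ℚ]) * mk4 (1 / 2) (1 / 2) (1 / 2) (1 / 2) := by
      rw [ratmul]
      apply ext4 <;> simp
    have hu : mk4 (1 / 2) (1 / 2) (1 / 2) (1 / 2) ∈ Hur :=
      ⟨1, 0, 0, 0, by simp, by simp, by simp, by simp⟩
    have hn : normSq (mk4 (1 / 2) (1 / 2) (1 / 2) (1 / 2)) = 1 := by
      rw [normSq_def']; simp; norm_num
    have hne : mk4 (1 / 2) (1 / 2) (1 / 2) (1 / 2) ≠ 0 := by
      rw [← normSq_ne_zero, hn]; norm_num
    have h2ne : ((2 : ℚ) : ℍ[ℚ]) ≠ 0 := (gam_rat (by norm_num)).ne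
    rw [h1, ← rC_mul h2ne hne, form1_unit hF hu hn, rC_coe (by norm_num)]
  have hep : lsub (mz (![![1, 0, 0], ![0, 0, 1], ![0, -1, 0]])) P = P := by
    apply hrot 1 1 0 0 2 _ (by norm_num) (by norm_num) (by decide)
    have := form1_ep hF
    unfold ep at this
    exact_mod_cast this
  have hcomp : ∀ (A B M : Fin 3 → Fin 3 → ℤ), lsub (mz A) P = P → lsub (mz B) P = P →
      (∀ i j, ∑ l, B i l * A l j = M i j) → lsub (mz M) P = P := by
    intro A B M hA hB hM
    have h1 : lsub (mz A) (lsub (mz B) P) = P := by rw [hB, hA]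
    rw [lsub_lsub] at h1
    refine (lsub_congr ?_ P).trans h1
    intro i j
    unfold mz
    rw [← hM i j]
    push_cast
    rfl
  have hfl : lsub (mz flZ) P = P := hcomp _ _ _ hi hneg (by decide)
  have hc2 : lsub (mz (![![0, 0, 1], ![1, 0, 0], ![0, 1, 0]])) P = P :=
    hcomp _ _ _ hom hom (by decide)
  have hd1 : lsub (mz (![![0, 0, 1], ![-1, 0, 0], ![0, 1, 0]])) P = P :=
    hcomp _ _ _ hfl hc2 (by decide)
  have hd2 : lsub (mz (![![1, 0, 0], ![0, -1, 0], ![0, 0, 1]])) P = P :=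
    hcomp _ _ _ hom hd1 (by decide)
  have hd3 : lsub (mz (![![0, 1, 0], ![0, 0, 1], ![-1, 0, 0]])) P = P :=
    hcomp _ _ _ hfl hom (by decide)
  have hd4 : lsub (mz (![![1, 0, 0], ![0, 1, 0], ![0, 0, -1]])) P = P :=
    hcomp _ _ _ hc2 hd3 (by decide)
  exact ⟨hfl, hom, hcomp _ _ _ hep hd4 (by decide)⟩

end Pool.Agent.Helper725_HQ
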