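import Pool.Agent.Helper725_HQ.APol
import Pool.Agent.Helper725_HQ.LInv

/-! The Hecke operators at five and seven in terms of elements close to one at three. -/

set_option autoImplicit false
set_option linter.unusedVariables false
set_option linter.unusedSimpArgs false

namespace Pool.Agent.Helper725_HQ

open Quaternion MvPolynomial

/-- a Hurwitz quaternion from its coordinates -/
def hq (a b c d : ℤ) : ℍ[ℚ] := mk4 (a / 2) (a / 2 + b) (a / 2 + c) (a / 2 + d)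

theorem hq_mem (a b c d : ℤ) : hq a b c d ∈ Hur := ⟨a, b, c, d, rfl, rfl, rfl, rfl⟩

theorem hq_norm (a b c d : ℤ) : normSq (hq a b c d) =
    ((a ^ 2 + a * b + a * c + a * d + b ^ 2 + c ^ 2 + d ^ 2 : ℤ) : ℚ) := by
  rw [normSq_def']
  simp [hq]
  ring

theorem exists_hq {x : ℍ[ℚ]} (hx : x ∈ Hur) : ∃ a b c d : ℤ, x = hq a b c d := by
  obtain ⟨a, b, c, d, h1, h2, h3, h4⟩ := hx
  exact ⟨a, b, c, d, ext4 h1 h2 h3 h4⟩

/-- the units -/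
def U24 : List (ℤ × ℤ × ℤ × ℤ) :=
  [(2, -1, -1, -1), (-2, 1, 1, 1), (0, 1, 0, 0), (0, -1, 0, 0), (0, 0, 1, 0), (0, 0, -1, 0),
   (0, 0, 0, 1), (0, 0, 0, -1),
   (1, 0, 0, 0), (1, -1, 0, 0), (1, 0, -1, 0), (1, 0, 0, -1), (1, -1, -1, 0), (1, -1, 0, -1),
   (1, 0, -1, -1), (1, -1, -1, -1),
   (-1, 0, 0, 0), (-1, 1, 0, 0), (-1, 0, 1, 0), (-1, 0, 0, 1), (-1, 1, 1, 0), (-1, 1, 0, 1),
   (-1, 0, 1, 1), (-1, 1, 1, 1)]

theorem U24_norm : ∀ t ∈ U24, t.1 ^ 2 + t.1 * t.2.1 + t.1 * t.2.2.1 + t.1 * t.2.2.2 +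
    t.2.1 ^ 2 + t.2.2.1 ^ 2 + t.2.2.2 ^ 2 = 1 := by decide

theorem U24_res : ∀ a b c d : Fin 3,
    ((a : ℕ) ^ 2 + (a : ℕ) * b + (a : ℕ) * c + (a : ℕ) * d + (b : ℕ) ^ 2 + (c : ℕ) ^ 2 +
      (d : ℕ) ^ 2) % 3 = 1 → ∃ t ∈ U24, (t.1 % 3 = (a : ℕ)) ∧ (t.2.1 % 3 = (b : ℕ)) ∧
        (t.2.2.1 % 3 = (c : ℕ)) ∧ (t.2.2.2 % 3 = (d : ℕ)) := by decide +kernel

theorem mod3 {x : ℍ[ℚ]} (hx : x ∈ Hur) {n : ℕ} (hn : normSq x = n) (h3 : n % 3 = 1) :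
    ∃ v ∈ Hur, normSq v = 1 ∧ ∃ z ∈ Hur, x * v = 1 + (3 : ℚ) • z := by
  obtain ⟨a, b, c, d, rfl⟩ := exists_hq hx
  rw [hq_norm] at hn
  have hn' : a ^ 2 + a * b + a * c + a * d + b ^ 2 + c ^ 2 + d ^ 2 = (n : ℤ) := by
    exact_mod_cast hn
  have red : ∀ t : ℤ, ∃ r : Fin 3, t % 3 = (r : ℕ) := by
    intro t
    refine ⟨⟨(t % 3).toNat, by omega⟩, ?_⟩
    show t % 3 = ((t % 3).toNat : ℤ)
    omega
  obtain ⟨a', ha⟩ := red a
  obtain ⟨b', hb⟩ := red b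
  obtain ⟨c', hc⟩ := red c
  obtain ⟨d', hd⟩ := red d
  obtain ⟨t, ht, h1, h2, h3', h4⟩ := U24_res a' b' c' d' (by
    have e : ((((a' : ℕ) ^ 2 + (a' : ℕ) * b' + (a' : ℕ) * c' + (a' : ℕ) * d' + (b' : ℕ) ^ 2 +
        (c' : ℕ) ^ 2 + (d' : ℕ) ^ 2) % 3 : ℕ) : ℤ) = 1 := by
      push_cast
      rw [← ha, ← hb, ← hc, ← hd]
      have e2 : (a ^ 2 + a * b + a * c + a * d + b ^ 2 + c ^ 2 + d ^ 2) % 3 = 1 := by
        rw [hn']; omega
      rw [← e2]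
      simp [Int.add_emod, Int.mul_emod, pow_two]
    exact_mod_cast e)
  obtain ⟨A, hA⟩ : ∃ A, a - t.1 = 3 * A := ⟨(a - t.1) / 3, by omega⟩
  obtain ⟨B, hB⟩ : ∃ A, b - t.2.1 = 3 * A := ⟨(b - t.2.1) / 3, by omega⟩
  obtain ⟨Cc, hC⟩ : ∃ A, c - t.2.2.1 = 3 * A := ⟨(c - t.2.2.1) / 3, by omega⟩
  obtain ⟨D, hD⟩ : ∃ A, d - t.2.2.2 = 3 * A := ⟨(d - t.2.2.2) / 3, by omega⟩
  obtain ⟨u, hu⟩ : ∃ u, u = hq t.1 t.2.1 t.2.2.1 t.2.2.2 := ⟨_, rfl⟩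
  have hu1 : normSq u = 1 := by
    rw [hu, hq_norm, U24_norm t ht]; norm_num
  have hum : u ∈ Hur := by rw [hu]; exact hq_mem _ _ _ _
  have hx2 : hq a b c d = u + (3 : ℚ) • hq A B Cc D := by
    have a1 : (a : ℚ) = t.1 + 3 * A := by exact_mod_cast (by omega : a = t.1 + 3 * A)
    have a2 : (b : ℚ) = t.2.1 + 3 * B := by exact_mod_cast (by omega : b = t.2.1 + 3 * B)
    have a3 : (c : ℚ) = t.2.2.1 + 3 * Cc := by exact_mod_cast (by omega : c = t.2.2.1 + 3 * Cc)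
    have a4 : (d : ℚ) = t.2.2.2 + 3 * D := by exact_mod_cast (by omega : d = t.2.2.2 + 3 * D)
    rw [hu]
    unfold hq
    apply ext4
    · simp; linear_combination a1 / 2
    · simp; linear_combination a1 / 2 + a2
    · simp; linear_combination a1 / 2 + a3
    · simp; linear_combination a1 / 2 + a4
  refine ⟨star u, star_mem hum, by rw [normSq_star, hu1], hq A B Cc D * star u,
    Hur.mul_mem (hq_mem _ _ _ _) (star_mem hum), ?_⟩
  rw [hx2, add_mul, self_mul_star, hu1, smul_mul_assoc]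
  rfl

/-- elements congruent to one -/
def qv (v : Fin 3 → ℤ) : ℍ[ℚ] := mk4 1 (3 * v 0) (3 * v 1) (3 * v 2)

theorem qv_norm (v : Fin 3 → ℤ) : normSq (qv v) = ((1 + 9 * (v 0 ^ 2 + v 1 ^ 2 + v 2 ^ 2) : ℤ) : ℚ) := by
  rw [normSq_def']
  simp [qv]
  ring

theorem qv_ne (v : Fin 3 → ℤ) : qv v ≠ 0 := by
  rw [← normSq_ne_zero, qv_norm]
  have h : (0 : ℤ) < 1 + 9 * (v 0 ^ 2 + v 1 ^ 2 + v 2 ^ 2) := by positivity
  exact_mod_cast h.ne'

theorem qv_sub (v w : Fin 3 → ℤ) : normSq (qv w - qv v) =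
    ((9 * ((w 0 - v 0) ^ 2 + (w 1 - v 1) ^ 2 + (w 2 - v 2) ^ 2) : ℤ) : ℚ) := by
  rw [normSq_def']
  simp [qv]
  ring

/-- vectors of norm one -/
def v5 : Fin 6 → Fin 3 → ℤ := ![![1, 0, 0], ![-1, 0, 0], ![0, 1, 0], ![0, -1, 0], ![0, 0, 1],
  ![0, 0, -1]]
/-- vectors of norm three -/
def v7 : Fin 8 → Fin 3 → ℤ := ![![1, 1, 1], ![-1, -1, -1], ![1, 1, -1], ![-1, -1, 1],
  ![1, -1, 1], ![-1, 1, -1], ![1, -1, -1], ![-1, 1, 1]]

theorem v5_norm : ∀ i, v5 i 0 ^ 2 + v5 i 1 ^ 2 + v5 i 2 ^ 2 = 1 := by decide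
theorem v7_norm : ∀ i, v7 i 0 ^ 2 + v7 i 1 ^ 2 + v7 i 2 ^ 2 = 3 := by decide
theorem v5_sep : ∀ i j, i ≠ j → ¬ (10 : ℤ) ∣ 9 * ((v5 j 0 - v5 i 0) ^ 2 + (v5 j 1 - v5 i 1) ^ 2 +
    (v5 j 2 - v5 i 2) ^ 2) := by decide
theorem v7_sep : ∀ i j, i ≠ j → ¬ (28 : ℤ) ∣ 9 * ((v7 j 0 - v7 i 0) ^ 2 + (v7 j 1 - v7 i 1) ^ 2 +
    (v7 j 2 - v7 i 2) ^ 2) := by decide

theorem v5_all {b c d : ℤ} (h : b ^ 2 + c ^ 2 + d ^ 2 = 1) : ∃ i, v5 i = ![b, c, d] := by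
  have hb := sq_nonneg b
  have hc := sq_nonneg c
  have hd := sq_nonneg d
  have b1 : -1 ≤ b := by nlinarith
  have b2 : b ≤ 1 := by nlinarith
  have c1 : -1 ≤ c := by nlinarith
  have c2 : c ≤ 1 := by nlinarith
  have d1 : -1 ≤ d := by nlinarith
  have d2 : d ≤ 1 := by nlinarith
  interval_cases b <;> interval_cases c <;> interval_cases d <;> first
    | (exfalso; norm_num at h; done)
    | exact ⟨0, rfl⟩
    | exact ⟨1, rfl⟩
    | exact ⟨2, rfl⟩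
    | exact ⟨3, rfl⟩
    | exact ⟨4, rfl⟩
    | exact ⟨5, rfl⟩

theorem sq1 {b : ℤ} (h : b ^ 2 = 1) : b = 1 ∨ b = -1 := by
  have h1 : (b - 1) * (b + 1) = 0 := by linear_combination h
  rcases mul_eq_zero.1 h1 with h2 | h2
  · left; omega
  · right; omega

theorem v7_all {b c d : ℤ} (hb : b ^ 2 = 1) (hc : c ^ 2 = 1) (hd : d ^ 2 = 1) :
    ∃ i, v7 i = ![b, c, d] := by
  rcases sq1 hb with rfl | rfl <;> rcases sq1 hc with rfl | rfl <;> rcases sq1 hd with rfl | rfl <;>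
    first
    | exact ⟨0, rfl⟩
    | exact ⟨1, rfl⟩
    | exact ⟨2, rfl⟩
    | exact ⟨3, rfl⟩
    | exact ⟨4, rfl⟩
    | exact ⟨5, rfl⟩
    | exact ⟨6, rfl⟩
    | exact ⟨7, rfl⟩

/-- one half -/
def hlf : ℍ[ℚ] := mk4 (1 / 2) 0 0 0

theorem one_add (a b c d : ℤ) : (1 : ℍ[ℚ]) + (3 : ℚ) • hq a b c d = mk4 ((2 + 3 * a) / 2)
    (3 * (a + 2 * b) / 2) (3 * (a + 2 * c) / 2) (3 * (a + 2 * d) / 2) := by
  unfold hq
  apply ext4
  · simp; ring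
  · simp; ring
  · simp; ring
  · simp; ring

theorem one_add_norm {a b c d : ℤ} {n : ℕ} (h : normSq ((1 : ℍ[ℚ]) + (3 : ℚ) • hq a b c d) = n) :
    (2 + 3 * a) ^ 2 + 9 * ((a + 2 * b) ^ 2 + (a + 2 * c) ^ 2 + (a + 2 * d) ^ 2) = 4 * (n : ℤ) := by
  rw [one_add, normSq_def'] at h
  simp only [mk4_re, mk4_imI, mk4_imJ, mk4_imK] at h
  have h1 : ((2 + 3 * a) ^ 2 + 9 * ((a + 2 * b) ^ 2 + (a + 2 * c) ^ 2 + (a + 2 * d) ^ 2) : ℚ) =
      4 * (n : ℚ) := by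
    linear_combination 4 * h
  exact_mod_cast h1

theorem unit_conj {u : ℍ[ℚ]} (hu : u ∈ Hur) (h1 : normSq u = 1) :
    ep * u * ep⁻¹ ∈ Hur ∧ normSq (ep * u * ep⁻¹) = 1 := by
  refine ⟨ep_conj hu, ?_⟩
  rw [map_mul, map_mul, h1, mul_one, ← map_mul, mul_inv_cancel₀ ep_ne, map_one]

theorem normSq_ep : normSq ep = 2 := by
  rw [normSq_def', ep_re, ep_imI, ep_imJ, ep_imK]; norm_num

theorem cls5 {J : AddSubgroup ℍ[ℚ]} (h : J ∈ Sp 5 Oo) : ∃ i, J = lm (qv (v5 i) * ep⁻¹) Oo := by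
  obtain ⟨β, hβ, hn, rfl⟩ := (mem_Sp_Oo (by norm_num)).1 h
  have hx : normSq (β * ep) = ((10 : ℕ) : ℚ) := by
    rw [map_mul, hn, normSq_ep]; norm_num
  obtain ⟨v, hv, hv1, z, hz, hxz⟩ := mod3 (Hur.mul_mem hβ ep_mem) hx (by norm_num)
  obtain ⟨a, b, c, d, rfl⟩ := exists_hq hz
  have hN : normSq ((1 : ℍ[ℚ]) + (3 : ℚ) • hq a b c d) = ((10 : ℕ) : ℚ) := by
    rw [← hxz, map_mul, hx, hv1, mul_one]
  have hN2 := one_add_norm hN
  have s1 := sq_nonneg (a + 2 * b)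
  have s2 := sq_nonneg (a + 2 * c)
  have s3 := sq_nonneg (a + 2 * d)
  have a1 : -2 ≤ a := by
    by_contra hcon
    have : (2 + 3 * a) ≤ -7 := by omega
    push_cast at hN2
    nlinarith
  have a2 : a ≤ 1 := by
    by_contra hcon
    have : 8 ≤ (2 + 3 * a) := by omega
    push_cast at hN2
    nlinarith
  have ha : a = 0 := by
    have h9 : (40 - (2 + 3 * a) ^ 2) % 9 = 0 := by
      push_cast at hN2
      omega
    interval_cases a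
    · norm_num at h9
    · norm_num at h9
    · rfl
    · norm_num at h9
  subst ha
  obtain ⟨i, hi⟩ := v5_all (b := b) (c := c) (d := d) (by
    have h36 : 36 * (b ^ 2 + c ^ 2 + d ^ 2) = 36 := by
      push_cast at hN2
      linear_combination hN2
    omega)
  refine ⟨i, ?_⟩
  have h0 : v5 i 0 = b := by rw [hi]; rfl
  have h1 : v5 i 1 = c := by rw [hi]; rfl
  have h2 : v5 i 2 = d := by rw [hi]; rfl
  have e1 : qv (v5 i) = β * ep * v := by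
    rw [hxz, one_add]
    unfold qv
    rw [h0, h1, h2]
    apply ext4
    · simp
    · simp; ring
    · simp; ring
    · simp; ring
  obtain ⟨g1, g2⟩ := unit_conj hv hv1
  have e2 : qv (v5 i) * ep⁻¹ = β * (ep * v * ep⁻¹) := by
    rw [e1]; simp only [mul_assoc]
  rw [e2, ← lm_lm, mem_of_unit g1 g2]

theorem cls7 {J : AddSubgroup ℍ[ℚ]} (h : J ∈ Sp 7 Oo) : ∃ i, J = lm (qv (v7 i) * hlf) Oo := by
  obtain ⟨β, hβ, hn, rfl⟩ := (mem_Sp_Oo (by norm_num)).1 h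
  obtain ⟨v, hv, hv1, z, hz, hxz⟩ := mod3 hβ hn (by norm_num)
  obtain ⟨a, b, c, d, rfl⟩ := exists_hq hz
  have hN : normSq ((1 : ℍ[ℚ]) + (3 : ℚ) • hq a b c d) = ((7 : ℕ) : ℚ) := by
    rw [← hxz, map_mul, hn, hv1, mul_one]
  have hN2 := one_add_norm hN
  have s1 := sq_nonneg (a + 2 * b)
  have s2 := sq_nonneg (a + 2 * c)
  have s3 := sq_nonneg (a + 2 * d)
  have a1 : -2 ≤ a := by
    by_contra hcon
    have : (2 + 3 * a) ≤ -7 := by omega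
    push_cast at hN2
    nlinarith
  have a2 : a ≤ 1 := by
    by_contra hcon
    have : 8 ≤ (2 + 3 * a) := by omega
    push_cast at hN2
    nlinarith
  have ha : a = -1 := by
    have h9 : (28 - (2 + 3 * a) ^ 2) % 9 = 0 := by
      push_cast at hN2
      omega
    interval_cases a
    · norm_num at h9
    · rfl
    · norm_num at h9
    · norm_num at h9
  subst ha
  have h3 : (-1 + 2 * b) ^ 2 + (-1 + 2 * c) ^ 2 + (-1 + 2 * d) ^ 2 = 3 := by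
    push_cast at hN2
    omega
  have pos : ∀ t : ℤ, 1 ≤ (-1 + 2 * t) ^ 2 := by
    intro t
    have h1 : t ≤ 0 ∨ 1 ≤ t := by omega
    rcases h1 with h1 | h1
    · nlinarith
    · nlinarith
  have p1 := pos b
  have p2 := pos c
  have p3 := pos d
  obtain ⟨i, hi⟩ := v7_all (b := -(-1 + 2 * b)) (c := -(-1 + 2 * c)) (d := -(-1 + 2 * d))
    (by rw [neg_sq]; omega) (by rw [neg_sq]; omega) (by rw [neg_sq]; omega)
  refine ⟨i, ?_⟩
  have h0 : v7 i 0 = -(-1 + 2 * b) := by rw [hi]; rfl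
  have h1 : v7 i 1 = -(-1 + 2 * c) := by rw [hi]; rfl
  have h2 : v7 i 2 = -(-1 + 2 * d) := by rw [hi]; rfl
  have e1 : qv (v7 i) * hlf = β * (-v) := by
    rw [mul_neg, hxz, one_add]
    unfold qv hlf
    rw [h0, h1, h2]
    apply ext4
    · simp [re_mul]; norm_num
    · simp [imI_mul]; ring
    · simp [imJ_mul]; ring
    · simp [imK_mul]; ring
  rw [e1, ← lm_lm, mem_of_unit (Hur.neg_mem hv) (by rw [normSq_neg, hv1])]

theorem inj5 {i j : Fin 6} (h : lm (qv (v5 i) * ep⁻¹) Oo = lm (qv (v5 j) * ep⁻¹) Oo) : i = j := by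
  by_contra hne
  obtain ⟨u, hu, hu1, he⟩ := unit_of_eq (mul_ne_zero (qv_ne _) (inv_ne_zero ep_ne)) h
  have hu2 : ep⁻¹ * u * ep ∈ Hur := ep_conj' hu
  have e1 : qv (v5 j) = qv (v5 i) * (ep⁻¹ * u * ep) := by
    have h1 := congrArg (fun x => x * ep) he
    simp only [mul_assoc, inv_mul_cancel₀ ep_ne, mul_one] at h1
    rw [h1]
    simp only [mul_assoc]
  have e2 : qv (v5 j) - qv (v5 i) = qv (v5 i) * (ep⁻¹ * u * ep - 1) := by
    rw [mul_sub, mul_one, ← e1]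
  obtain ⟨n, hn⟩ := normSq_nat (Hur.sub_mem hu2 Hur.one_mem)
  have e3 := congrArg normSq e2
  rw [qv_sub, map_mul, qv_norm, v5_norm, hn] at e3
  apply v5_sep i j hne
  refine ⟨n, ?_⟩
  exact_mod_cast e3

theorem inj7 {i j : Fin 8} (h : lm (qv (v7 i) * hlf) Oo = lm (qv (v7 j) * hlf) Oo) : i = j := by
  have hlf_ne : hlf ≠ 0 := by
    rw [← normSq_ne_zero, normSq_def']
    simp [hlf]
  have hcomm : ∀ x : ℍ[ℚ], x * hlf = hlf * x := by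
    intro x
    unfold hlf
    apply ext4
    · simp [re_mul]; ring
    · simp [imI_mul]; ring
    · simp [imJ_mul]; ring
    · simp [imK_mul]; ring
  by_contra hne
  obtain ⟨u, hu, hu1, he⟩ := unit_of_eq (mul_ne_zero (qv_ne _) hlf_ne) h
  have e1 : qv (v7 j) = qv (v7 i) * u := by
    apply mul_right_cancel₀ hlf_ne
    rw [he, mul_assoc, mul_assoc, hcomm u]
  have e2 : qv (v7 j) - qv (v7 i) = qv (v7 i) * (u - 1) := by
    rw [mul_sub, mul_one, ← e1]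
  obtain ⟨n, hn⟩ := normSq_nat (Hur.sub_mem hu Hur.one_mem)
  have e3 := congrArg normSq e2
  rw [qv_sub, map_mul, qv_norm, v7_norm, hn] at e3
  apply v7_sep i j hne
  refine ⟨n, ?_⟩
  exact_mod_cast e3

theorem v5_odd : ∀ i, (v5 i 0 + v5 i 1 + v5 i 2) % 2 = 1 := by decide
theorem v7_odd : ∀ i j, v7 i j % 2 = 1 := by decide

theorem mem5 (i : Fin 6) : qv (v5 i) * ep⁻¹ ∈ Hur := by
  have h := v5_odd i
  obtain ⟨m, hm⟩ : ∃ m, v5 i 0 = 2 * m + 1 - v5 i 1 - v5 i 2 :=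
    ⟨(v5 i 0 + v5 i 1 + v5 i 2) / 2, by omega⟩
  have hm' : (v5 i 0 : ℚ) = 2 * m + 1 - v5 i 1 - v5 i 2 := by exact_mod_cast hm
  have e : qv (v5 i) * ep⁻¹ = hq (1 + 3 * v5 i 0) (-1) (3 * v5 i 1 - 2 - 3 * m)
      (3 * v5 i 1 + 3 * v5 i 2 - 2 - 3 * m) := by
    rw [ep_inv]
    unfold qv hq
    apply ext4
    · simp [re_mul]; ring
    · simp [imI_mul]; ring
    · simp [imJ_mul]; rw [hm']; ring
    · simp [imK_mul]; rw [hm']; ring
  rw [e]; exact hq_mem _ _ _ _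

theorem mem7 (i : Fin 8) : qv (v7 i) * hlf ∈ Hur := by
  have od : ∀ j, ∃ m : ℤ, (v7 i j : ℚ) = 2 * m + 1 := by
    intro j
    have h := v7_odd i j
    refine ⟨v7 i j / 2, ?_⟩
    exact_mod_cast (by omega : v7 i j = 2 * (v7 i j / 2) + 1)
  obtain ⟨a, ha⟩ := od 0
  obtain ⟨b, hb⟩ := od 1
  obtain ⟨c, hc⟩ := od 2
  have e : qv (v7 i) * hlf = hq 1 (3 * a + 1) (3 * b + 1) (3 * c + 1) := by
    unfold qv hq hlf
    rw [ha, hb, hc]
    apply ext4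
    · simp [re_mul]
    · simp [imI_mul]; ring
    · simp [imJ_mul]; ring
    · simp [imK_mul]; ring
  rw [e]; exact hq_mem _ _ _ _

theorem Sp5_eq : Sp 5 Oo = Set.range (fun i => lm (qv (v5 i) * ep⁻¹) Oo) := by
  ext J
  constructor
  · intro h
    obtain ⟨i, hi⟩ := cls5 h
    exact ⟨i, hi.symm⟩
  · rintro ⟨i, rfl⟩
    refine (mem_Sp_Oo (by norm_num)).2 ⟨_, mem5 i, ?_, rfl⟩
    rw [map_mul, qv_norm, v5_norm, map_inv₀, normSq_ep]; norm_num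

theorem Sp7_eq : Sp 7 Oo = Set.range (fun i => lm (qv (v7 i) * hlf) Oo) := by
  ext J
  constructor
  · intro h
    obtain ⟨i, hi⟩ := cls7 h
    exact ⟨i, hi.symm⟩
  · rintro ⟨i, rfl⟩
    refine (mem_Sp_Oo (by norm_num)).2 ⟨_, mem7 i, ?_, rfl⟩
    have : normSq hlf = 1 / 4 := by
      rw [normSq_def']
      simp [hlf]; norm_num
    rw [map_mul, qv_norm, v7_norm, this]; norm_num

/-- the integral action -/
def act (v x : Fin 3 → ℤ) (i : Fin 3) : ℤ := ∑ j, rotZ 1 (3 * v 0) (3 * v 1) (3 * v 2) i j * x j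

theorem rot_lsub {v : Fin 3 → ℤ} {N : ℤ} (hN : 1 + 9 * (v 0 ^ 2 + v 1 ^ 2 + v 2 ^ 2) = N)
    (hN0 : N ≠ 0) {k : ℕ} {P : MvPolynomial (Fin 3) ℂ} (hP : P.IsHomogeneous k)
    (x : Fin 3 → ℤ) :
    (N : ℂ) ^ k * vl (lsub (rC (qv v)) P) x = vl P (act v x) := by
  have h1 : C ((N : ℂ) ^ k) * lsub (rC (qv v)) P =
      lsub (fun i j => ((rotZ 1 (3 * v 0) (3 * v 1) (3 * v 2) i j : ℤ) : ℂ)) P := by
    rw [← lsub_smul hP]
    apply lsub_congr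
    intro i j
    have h2 := rmat_rotZ (a := 1) (b := 3 * v 0) (c := 3 * v 1) (d := 3 * v 2) (N := N)
      (by rw [← hN]; ring) hN0 i j
    have h3 : ((rotZ 1 (3 * v 0) (3 * v 1) (3 * v 2) i j : ℤ) : ℂ) =
        (((rotZ 1 (3 * v 0) (3 * v 1) (3 * v 2) i j : ℤ) : ℚ) : ℂ) := by
      rw [Rat.cast_intCast]
    rw [h3, ← h2]
    unfold rC qv
    push_cast
    rfl
  have h2 := congrArg (eval (fun i => ((x i : ℤ) : ℂ))) h1
  rw [map_mul, eval_C] at h2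
  unfold vl
  rw [h2, eval_lsub]
  congr 1
  apply congrArg
  funext i
  unfold act
  push_cast
  rfl

theorem vl_sum {ι : Type*} (s : Finset ι) (f : ι → MvPolynomial (Fin 3) ℂ) (x : Fin 3 → ℤ) :
    vl (∑ i ∈ s, f i) x = ∑ i ∈ s, vl (f i) x := by
  unfold vl
  rw [map_sum]

/-- the Hecke operator at five -/
theorem hecke5 {k : ℕ} {F : Fun1} (hF : Form1 k F) (hp : Nat.Prime 5) {lam : ℂ}
    (he : TL1 5 hp F = lam • F) (x : Fin 3 → ℤ) :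
    ∑ i, vl (F Oo) (act (v5 i) x) = (10 : ℂ) ^ k * lam * vl (F Oo) x := by
  have h1 := congrFun he Oo
  rw [TL1_apply hp Oo_isRI, Sp5_eq, finsum_mem_range (fun i j h => inj5 h),
    finsum_eq_sum_of_fintype] at h1
  have h2 := congrArg (fun Q => vl Q x) h1
  simp only [vl_sum] at h2
  have h3 : ∀ i, (10 : ℂ) ^ k * vl (F (lm (qv (v5 i) * ep⁻¹) Oo)) x =
      vl (F Oo) (act (v5 i) x) := by
    intro i
    rw [hF.left _ (mul_ne_zero (qv_ne _) (inv_ne_zero ep_ne))]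
    have e : lsub (rC (qv (v5 i) * ep⁻¹)) (F Oo) = lsub (rC (qv (v5 i))) (F Oo) := by
      conv_lhs => rw [← form1_ep hF]
      rw [rC_mul (mul_ne_zero (qv_ne _) (inv_ne_zero ep_ne)) ep_ne, mul_assoc,
        inv_mul_cancel₀ ep_ne, mul_one]
    rw [e]
    have h4 := rot_lsub (v := v5 i) (N := 10) (by rw [v5_norm]; norm_num) (by norm_num)
      (hF.hom Oo) x
    exact_mod_cast h4
  rw [← Finset.sum_congr rfl (fun i _ => h3 i), ← Finset.mul_sum, h2, mul_assoc]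
  congr 1
  show vl ((lam • F) Oo) x = _
  rw [Pi.smul_apply]
  unfold vl
  rw [smul_eval]

/-- the Hecke operator at seven -/
theorem hecke7 {k : ℕ} {F : Fun1} (hF : Form1 k F) (hp : Nat.Prime 7) {lam : ℂ}
    (he : TL1 7 hp F = lam • F) (x : Fin 3 → ℤ) :
    ∑ i, vl (F Oo) (act (v7 i) x) = (28 : ℂ) ^ k * lam * vl (F Oo) x := by
  have h1 := congrFun he Oo
  rw [TL1_apply hp Oo_isRI, Sp7_eq, finsum_mem_range (fun i j h => inj7 h),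
    finsum_eq_sum_of_fintype] at h1
  have h2 := congrArg (fun Q => vl Q x) h1
  simp only [vl_sum] at h2
  have hlfe : hlf = ((1 / 2 : ℚ) : ℍ[ℚ]) := by
    apply ext4 <;> simp [hlf]
  have hlf_ne : hlf ≠ 0 := by
    rw [← normSq_ne_zero, normSq_def']
    simp [hlf]
  have h3 : ∀ i, (28 : ℂ) ^ k * vl (F (lm (qv (v7 i) * hlf) Oo)) x =
      vl (F Oo) (act (v7 i) x) := by
    intro i
    rw [hF.left _ (mul_ne_zero (qv_ne _) hlf_ne)]
    have e : lsub (rC (qv (v7 i) * hlf)) (F Oo) = lsub (rC (qv (v7 i))) (F Oo) := by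
      rw [← rC_mul (qv_ne _) hlf_ne, hlfe, rC_coe (by norm_num)]
    rw [e]
    have h4 := rot_lsub (v := v7 i) (N := 28) (by rw [v7_norm]; norm_num) (by norm_num)
      (hF.hom Oo) x
    exact_mod_cast h4
  rw [← Finset.sum_congr rfl (fun i _ => h3 i), ← Finset.mul_sum, h2, mul_assoc]
  congr 1
  show vl ((lam • F) Oo) x = _
  rw [Pi.smul_apply]
  unfold vl
  rw [smul_eval]

end Pool.Agent.Helper725_HQ
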