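import Pool.Agent.Helper725_HQ.AEl

/-! The two Hecke operators modulo a power of the augmentation ideal. -/

set_option autoImplicit false
set_option linter.unusedVariables false

namespace Pool.Agent.Helper725_HQ

open Quaternion

section
variable {N : ℕ}

/-- the error term for a product of three generators -/
theorem rel_err (b c : Zn N) : Rel 2 ((kp (im 1 0 0) * kp (im 0 b 0) * kp (im 0 0 c))⁻¹ *
    kp (im 1 b c)) (-(im (b * c) (-c) b)) := by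
  obtain ⟨P, hP⟩ : ∃ P, P = kp (im 1 0 0) * kp (im 0 b 0) * kp (im 0 0 c) := ⟨_, rfl⟩
  have hPv : (P : Hn N) = (1 + (3 : Zn N) • im 1 0 0) * (1 + (3 : Zn N) • im 0 b 0) *
      (1 + (3 : Zn N) • im 0 0 c) := by rw [hP]; rfl
  have h1 : ((kp (im 1 b c) : (Hn N)ˣ) : Hn N) = (P : Hn N) + (9 : Zn N) •
      (-(im (b * c) (-c) b)) + ((27 : Zn N) * (b * c)) • 1 := by
    rw [hPv, kap_val]
    apply Quaternion.ext
    · simp
      ring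
    · simp
      ring
    · simp
      ring
    · simp
      ring
  obtain ⟨Θ, hΘ⟩ : ∃ Θ : Hn N, (P : Hn N) = 1 + (3 : Zn N) • Θ := by
    refine ⟨im 1 0 0 + im 0 b 0 + im 0 0 c + (3 : Zn N) • (im 1 0 0 * im 0 b 0 + im 1 0 0 *
      im 0 0 c + im 0 b 0 * im 0 0 c) + (9 : Zn N) • (im 1 0 0 * im 0 b 0 * im 0 0 c), ?_⟩
    rw [hPv]
    simp only [mul_add, add_mul, mul_one, one_mul, smul_mul_assoc, mul_smul_comm, smul_add,
      smul_smul]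
    module
  obtain ⟨E, hE⟩ : ∃ E, E = -(im (b * c) (-c) b) := ⟨_, rfl⟩
  rw [← hP, ← hE]
  rw [← hE] at h1
  have h2 : ((P⁻¹ : (Hn N)ˣ) : Hn N) = 1 - (3 : Zn N) • (((P⁻¹ : (Hn N)ˣ) : Hn N) * Θ) := by
    rw [eq_sub_iff_add_eq, ← mul_smul_comm]
    have h3 : ((P⁻¹ : (Hn N)ˣ) : Hn N) * (P : Hn N) = 1 := Units.inv_mul P
    rw [hΘ, mul_add, mul_one] at h3
    exact h3
  refine ⟨1, -(((P⁻¹ : (Hn N)ˣ) : Hn N) * Θ * E) + (b * c) • ((P⁻¹ : (Hn N)ˣ) : Hn N), ?_⟩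
  rw [Units.val_mul, h1, mul_add, mul_add, Units.inv_mul, mul_smul_comm, mul_smul_comm, mul_one,
    Units.val_one, one_smul]
  have h4 : ((P⁻¹ : (Hn N)ˣ) : Hn N) * E = E - (3 : Zn N) • (((P⁻¹ : (Hn N)ˣ) : Hn N) * Θ * E) := by
    calc ((P⁻¹ : (Hn N)ˣ) : Hn N) * E = (1 - (3 : Zn N) • (((P⁻¹ : (Hn N)ˣ) : Hn N) * Θ)) * E := by
          rw [← h2]
      _ = _ := by rw [sub_mul, one_mul, smul_mul_assoc]
  rw [h4]
  have e9 : (9 : Zn N) = 3 ^ 2 := by norm_num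
  have e27 : (27 : Zn N) = 3 ^ 3 := by norm_num
  rw [e9, e27]
  module

theorem comm1 (b : Zn N) : im 1 0 0 * im 0 b 0 - im 0 b 0 * im 1 0 0 = im 0 0 (2 * b) := by
  apply Quaternion.ext <;> simp
  ring

theorem comm2 (c : Zn N) : im 1 0 0 * im 0 0 c - im 0 0 c * im 1 0 0 = im 0 (-(2 * c)) 0 := by
  apply Quaternion.ext <;> simp
  ring

theorem comm3 (b c : Zn N) : im 0 b 0 * im 0 0 c - im 0 0 c * im 0 b 0 =
    im (2 * (b * c)) 0 0 := by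
  apply Quaternion.ext <;> simp
  ring

end

section
variable {R : Type*} [Ring R]

theorem alg6 (a b c : R) : a * b * c - 1 - ((a - 1) + (b - 1) + (c - 1)) =
    (a - 1) * (b - 1) + (a * b - 1) * (c - 1) := by noncomm_ring

theorem alg7 (c d : R) : c * d - c = (d - 1) + (c - 1) * (d - 1) := by noncomm_ring

theorem alg8 {r r' : R} (h : r * r' = 1) : (r - 1) + (r' - 1) = -((r - 1) * (r' - 1)) := by
  have : (r - 1) * (r' - 1) = r * r' - 1 - (r - 1) - (r' - 1) := by noncomm_ring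
  rw [this, h]; abel

end

section
variable {N : ℕ} {k : Type*} [CommRing k] {R : Type*} [Ring R] [Algebra k R]
  {ρ : (Hn N)ˣ →* R}

/-- the representation factors through the scalars -/
def Sc (ρ : (Hn N)ˣ →* R) : Prop :=
  ∀ (u : (Hn N)ˣ) (s : (Zn N)ˣ), (u : Hn N) = (s : Zn N) • 1 → ρ u = 1

theorem kap_inv (hs : Sc ρ) (a b c : Zn N) :
    ρ (kp (im a b c)) * ρ (kp (im (-a) (-b) (-c))) = 1 := by
  rw [← map_mul]
  obtain ⟨s, hs'⟩ := unit_three (3 * (a ^ 2 + b ^ 2 + c ^ 2))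
  apply hs _ s
  rw [Units.val_mul, kap_val, kap_val, hs']
  apply Quaternion.ext
  · simp; ring
  · simp; ring
  · simp; ring
  · simp; ring

/-- the generators of the augmentation ideal -/
noncomputable def gX (ρ : (Hn N)ˣ →* R) : R := ρ (kp (im 1 0 0)) - 1
/-- the generators of the augmentation ideal -/
noncomputable def gY (ρ : (Hn N)ˣ →* R) : R := ρ (kp (im 0 1 0)) - 1
/-- the generators of the augmentation ideal -/
noncomputable def gZ (ρ : (Hn N)ˣ →* R) : R := ρ (kp (im 0 0 1)) - 1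

theorem gX_mem : gX ρ ∈ Ia k ρ ^ 1 := y_mem1' (kap_rel _).mem
theorem gY_mem : gY ρ ∈ Ia k ρ ^ 1 := y_mem1' (kap_rel _).mem
theorem gZ_mem : gZ ρ ∈ Ia k ρ ^ 1 := y_mem1' (kap_rel _).mem

/-- the sum over a pair of opposite generators -/
noncomputable def pr (ρ : (Hn N)ˣ →* R) (a b c : Zn N) : R :=
  (ρ (kp (im a b c)) - 1) + (ρ (kp (im (-a) (-b) (-c))) - 1)

theorem pr_lam (hs : Sc ρ) (h3 : (3 : R) = 0) (a b c : Zn N) :
    pr ρ a b c - lam (ρ (kp (im a b c))) * lam (ρ (kp (im a b c))) ∈ Ia k ρ ^ 5 :=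
  s_lam Ia_mul h3 (kap_inv hs a b c) (y_mem1 (kap_rel _).mem) (y_mem1 (kap_rel _).mem)

/-- the operator of level five -/
noncomputable def x5 (ρ : (Hn N)ˣ →* R) : R := pr ρ 1 0 0 + pr ρ 0 1 0 + pr ρ 0 0 1

/-- the operator of level seven -/
noncomputable def x7 (ρ : (Hn N)ˣ →* R) : R := pr ρ 1 1 1 + pr ρ 1 1 (-1) + pr ρ 1 (-1) 1 +
  pr ρ 1 (-1) (-1)

/-- the truncated logarithm of the product -/
theorem lam_xi (hs : Sc ρ) (h3 : (3 : R) = 0) (b c : Zn N) :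
    lam (ρ (kp (im 1 b c))) - (lam (ρ (kp (im 1 0 0))) + lam (ρ (kp (im 0 b 0))) +
      lam (ρ (kp (im 0 0 c))) - hF (ρ (kp (im 1 0 0)) - 1) (ρ (kp (im 0 b 0)) - 1)
      (ρ (kp (im 0 0 c)) - 1)) ∈ Ia k ρ ^ 4 := by
  obtain ⟨e, he⟩ : ∃ e, e = (kp (im 1 0 0) * kp (im 0 b 0) * kp (im 0 0 c))⁻¹ *
    kp (im 1 b c) := ⟨_, rfl⟩
  have hrel : Rel 2 e (-(im (b * c) (-c) b)) := by rw [he]; exact rel_err b c
  have hprod : ρ (kp (im 1 b c)) = ρ (kp (im 1 0 0)) * ρ (kp (im 0 b 0)) *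
      ρ (kp (im 0 0 c)) * ρ e := by
    rw [he, ← map_mul, ← map_mul, ← map_mul, mul_inv_cancel_left]
  have hr : ρ (kp (im 1 0 0)) - 1 ∈ Ia k ρ ^ 1 := y_mem1' (kap_rel _).mem
  have hb : ρ (kp (im 0 b 0)) - 1 ∈ Ia k ρ ^ 1 := y_mem1' (kap_rel _).mem
  have hc : ρ (kp (im 0 0 c)) - 1 ∈ Ia k ρ ^ 1 := y_mem1' (kap_rel _).mem
  have hee : ρ e - 1 ∈ Ia k ρ ^ 3 := y_mem hs h3 1 hrel.mem
  obtain ⟨c1, r1, m1, q1⟩ := y_comm (k := k) hs h3 (kap_rel (im 1 0 0)) (kap_rel (im 0 b 0))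
  obtain ⟨c2, r2, m2, q2⟩ := y_comm (k := k) hs h3 (kap_rel (im 1 0 0)) (kap_rel (im 0 0 c))
  obtain ⟨c3, r3, m3, q3⟩ := y_comm (k := k) hs h3 (kap_rel (im 0 b 0)) (kap_rel (im 0 0 c))
  rw [comm1] at r1
  rw [comm2] at r2
  rw [comm3] at r3
  have hcc : Rel 2 (c1 * c2 * c3) (-(im (b * c) (-c) b)) := by
    have h1 := ((r1.mul (by norm_num) r2).mul (by norm_num) r3)
    apply h1.congr
    refine ⟨im (b * c) (-c) b, ?_⟩
    apply Quaternion.ext <;> simp <;> ring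
  have hd := hcc.div hrel
  have hd' : ρ ((c1 * c2 * c3)⁻¹ * e) - 1 ∈ Ia k ρ ^ 9 := y_mem hs h3 2 hd
  have hd4 : ρ ((c1 * c2 * c3)⁻¹ * e) - 1 ∈ Ia k ρ ^ 4 := Ia_anti (by norm_num) (by norm_num) hd'
  have hccm : ρ (c1 * c2 * c3) - 1 ∈ Ia k ρ ^ 3 := y_mem hs h3 1 hcc.mem
  have hc12 : ρ (c1 * c2) - 1 ∈ Ia k ρ ^ 3 := y_mul_mem (by norm_num) m1 m2
  have hce : (ρ e - 1) - (((ρ (kp (im 1 0 0)) - 1) * (ρ (kp (im 0 b 0)) - 1) -
      (ρ (kp (im 0 b 0)) - 1) * (ρ (kp (im 1 0 0)) - 1)) +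
      ((ρ (kp (im 1 0 0)) - 1) * (ρ (kp (im 0 0 c)) - 1) -
        (ρ (kp (im 0 0 c)) - 1) * (ρ (kp (im 1 0 0)) - 1)) +
      ((ρ (kp (im 0 b 0)) - 1) * (ρ (kp (im 0 0 c)) - 1) -
        (ρ (kp (im 0 0 c)) - 1) * (ρ (kp (im 0 b 0)) - 1))) ∈ Ia k ρ ^ 4 := by
    obtain ⟨w1, hw1⟩ : ∃ w, w = ((ρ (kp (im 1 0 0)) - 1) * (ρ (kp (im 0 b 0)) - 1) -
      (ρ (kp (im 0 b 0)) - 1) * (ρ (kp (im 1 0 0)) - 1)) := ⟨_, rfl⟩
    obtain ⟨w2, hw2⟩ : ∃ w, w = ((ρ (kp (im 1 0 0)) - 1) * (ρ (kp (im 0 0 c)) - 1) -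
        (ρ (kp (im 0 0 c)) - 1) * (ρ (kp (im 1 0 0)) - 1)) := ⟨_, rfl⟩
    obtain ⟨w3, hw3⟩ : ∃ w, w = ((ρ (kp (im 0 b 0)) - 1) * (ρ (kp (im 0 0 c)) - 1) -
        (ρ (kp (im 0 0 c)) - 1) * (ρ (kp (im 0 b 0)) - 1)) := ⟨_, rfl⟩
    rw [← hw1, ← hw2, ← hw3]
    rw [← hw1] at q1
    rw [← hw2] at q2
    rw [← hw3] at q3
    have e1 : ρ e - ρ (c1 * c2 * c3) = (ρ ((c1 * c2 * c3)⁻¹ * e) - 1) +
        (ρ (c1 * c2 * c3) - 1) * (ρ ((c1 * c2 * c3)⁻¹ * e) - 1) := by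
      rw [← alg7, ← map_mul, mul_inv_cancel_left]
    have e2 : ρ (c1 * c2 * c3) - 1 - ((ρ c1 - 1) + (ρ c2 - 1) + (ρ c3 - 1)) =
        (ρ c1 - 1) * (ρ c2 - 1) + (ρ (c1 * c2) - 1) * (ρ c3 - 1) := by
      rw [map_mul, map_mul]; exact alg6 _ _ _
    have e3 : (ρ e - 1) - (w1 + w2 + w3) = (ρ e - ρ (c1 * c2 * c3)) +
        (ρ (c1 * c2 * c3) - 1 - ((ρ c1 - 1) + (ρ c2 - 1) + (ρ c3 - 1))) -
        (w1 - (ρ c1 - 1)) - (w2 - (ρ c2 - 1)) - (w3 - (ρ c3 - 1)) := by abel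
    rw [e3, e1, e2]
    refine Submodule.sub_mem _ (Submodule.sub_mem _ (Submodule.sub_mem _
      (Submodule.add_mem _ (Submodule.add_mem _ hd4 ?_) (Submodule.add_mem _ ?_ ?_)) q1) q2) q3
    · exact Ia_anti (b := 3 + 4) (by norm_num) (by norm_num) (fmul hccm hd4)
    · exact Ia_anti (b := 3 + 3) (by norm_num) (by norm_num) (fmul m1 m2)
    · exact Ia_anti (b := 3 + 3) (by norm_num) (by norm_num) (fmul hc12 m3)
  have key := lam_mul3 (k := k) (I := Ia k ρ) Ia_mul h3 hr hb hc hee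
    (y_comm3 hs h3 (kap_rel _).mem (kap_rel _).mem)
    (y_comm3 hs h3 (kap_rel _).mem (kap_rel _).mem)
    (y_comm3 hs h3 (kap_rel _).mem (kap_rel _).mem) hce
  rw [← hprod] at key
  have e4 : ∀ u v p q : R, u - (v - p - q) = u - (v - (p + q)) := by
    intro u v p q; abel
  rw [e4] at key
  exact key

end

end Pool.Agent.Helper725_HQ
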