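import Pool.Agent.Helper725_HQ.AHk

/-! The two Hecke operators modulo a power of the augmentation ideal, continued. -/

set_option autoImplicit false
set_option linter.unusedVariables false

namespace Pool.Agent.Helper725_HQ

open Quaternion

section
variable {N : ℕ} {k : Type*} [CommRing k] {R : Type*} [Ring R] [Algebra k R]
  {ρ : (Hn N)ˣ →* R}

theorem lam_sub {r : R} : lam r - (r - 1) = (r - 1) * (r - 1) := by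
  unfold lam; abel

theorem lam_mem {g : (Hn N)ˣ} (hg : g ∈ Kz N 1) : lam (ρ g) ∈ Ia k ρ ^ 1 := by
  unfold lam
  exact Submodule.add_mem _ (y_mem1' hg)
    (Ia_anti (b := 1 + 1) (by norm_num) (by norm_num) (fmul (y_mem1' hg) (y_mem1' hg)))

theorem xi_sq (hs : Sc ρ) (h3 : (3 : R) = 0) (b c : Zn N) {B C Y Z : R}
    (hB : lam (ρ (kp (im 0 b 0))) - B ∈ Ia k ρ ^ 4)
    (hC : lam (ρ (kp (im 0 0 c))) - C ∈ Ia k ρ ^ 4) (hB1 : B ∈ Ia k ρ ^ 1)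
    (hC1 : C ∈ Ia k ρ ^ 1)
    (hY : ρ (kp (im 0 b 0)) - 1 - Y ∈ Ia k ρ ^ 2) (hZ : ρ (kp (im 0 0 c)) - 1 - Z ∈ Ia k ρ ^ 2)
    (hY1 : Y ∈ Ia k ρ ^ 1) (hZ1 : Z ∈ Ia k ρ ^ 1) (hBY : B - Y ∈ Ia k ρ ^ 2)
    (hCZ : C - Z ∈ Ia k ρ ^ 2) :
    pr ρ 1 b c - ((lam (ρ (kp (im 1 0 0))) + B + C) * (lam (ρ (kp (im 1 0 0))) + B + C) -
      ((gX ρ + Y + Z) * hF (gX ρ) Y Z + hF (gX ρ) Y Z * (gX ρ + Y + Z))) ∈ Ia k ρ ^ 5 := by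
  have h1 := lam_xi (k := k) hs h3 b c
  have hm : ∀ g ∈ Kz N 1, ρ g - 1 ∈ Ia k ρ ^ 1 := fun g hg => y_mem1' hg
  have h2 := hF_congr (I := Ia k ρ) Ia_mul (hm _ (kap_rel (im 1 0 0)).mem)
    (hm _ (kap_rel (im 0 b 0)).mem) (hm _ (kap_rel (im 0 0 c)).mem) hY1 hZ1 hY hZ
  have hX1 : gX ρ ∈ Ia k ρ ^ 1 := gX_mem
  have hA1 : lam (ρ (kp (im 1 0 0))) ∈ Ia k ρ ^ 1 := lam_mem (kap_rel (im 1 0 0)).mem
  have hAX : lam (ρ (kp (im 1 0 0))) - gX ρ ∈ Ia k ρ ^ 2 := by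
    unfold gX
    rw [lam_sub]
    exact fmul (a := 1) (b := 1) gX_mem gX_mem
  obtain ⟨A, hA⟩ : ∃ A, A = lam (ρ (kp (im 1 0 0))) := ⟨_, rfl⟩
  rw [← hA] at h1 hA1 hAX ⊢
  have e0 : gX ρ = ρ (kp (im 1 0 0)) - 1 := rfl
  rw [← e0] at h1 h2
  obtain ⟨l, hl⟩ : ∃ l, l = lam (ρ (kp (im 1 b c))) := ⟨_, rfl⟩
  have h4 : l - ((A + B + C) - hF (gX ρ) Y Z) ∈ Ia k ρ ^ 4 := by
    have e : l - ((A + B + C) - hF (gX ρ) Y Z) =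
        (l - (A + lam (ρ (kp (im 0 b 0))) + lam (ρ (kp (im 0 0 c))) -
          hF (gX ρ) (ρ (kp (im 0 b 0)) - 1) (ρ (kp (im 0 0 c)) - 1))) +
        (lam (ρ (kp (im 0 b 0))) - B) + (lam (ρ (kp (im 0 0 c))) - C) -
        (hF (gX ρ) (ρ (kp (im 0 b 0)) - 1) (ρ (kp (im 0 0 c)) - 1) - hF (gX ρ) Y Z) := by
      abel
    rw [e]
    refine Submodule.sub_mem _ (Submodule.add_mem _ (Submodule.add_mem _ ?_ hB) hC) h2
    rw [hl]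
    exact h1
  have h5 := sq_step (I := Ia k ρ) Ia_mul h4 (Submodule.add_mem _ (Submodule.add_mem _ hA1 hB1) hC1)
    (u := gX ρ + Y + Z) (by
      have e : A + B + C - (gX ρ + Y + Z) = (A - gX ρ) + (B - Y) + (C - Z) := by abel
      rw [e]
      exact Submodule.add_mem _ (Submodule.add_mem _ hAX hBY) hCZ) (hF_mem Ia_mul hX1 hY1 hZ1)
  have h6 := pr_lam (k := k) hs h3 1 b c
  rw [← hl] at h6
  have e : ∀ p q r : R, p - r = (p - q) + (q - r) := by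
    intro p q r; abel
  rw [e _ (l * l)]
  exact Submodule.add_mem _ h6 h5

/-- the operator of level five -/
theorem x5_lam (hs : Sc ρ) (h3 : (3 : R) = 0) :
    x5 ρ - (lam (ρ (kp (im 1 0 0))) * lam (ρ (kp (im 1 0 0))) +
      lam (ρ (kp (im 0 1 0))) * lam (ρ (kp (im 0 1 0))) +
      lam (ρ (kp (im 0 0 1))) * lam (ρ (kp (im 0 0 1)))) ∈ Ia k ρ ^ 5 := by
  unfold x5
  have e : ∀ a b c p q r : R, a + b + c - (p + q + r) = (a - p) + (b - q) + (c - r) := by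
    intros; abel
  rw [e]
  exact Submodule.add_mem _ (Submodule.add_mem _ (pr_lam hs h3 _ _ _) (pr_lam hs h3 _ _ _))
    (pr_lam hs h3 _ _ _)

theorem lam_neg (hs : Sc ρ) (h3 : (3 : R) = 0) (a b c : Zn N) :
    lam (ρ (kp (im (-a) (-b) (-c)))) - -lam (ρ (kp (im a b c))) ∈ Ia k ρ ^ 4 := by
  rw [sub_neg_eq_add]
  exact lam_inv Ia_mul h3 (kap_inv hs a b c) (y_mem1 (kap_rel _).mem) (y_mem1 (kap_rel _).mem)

theorem y_neg (hs : Sc ρ) (a b c : Zn N) :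
    ρ (kp (im (-a) (-b) (-c))) - 1 - -(ρ (kp (im a b c)) - 1) ∈ Ia k ρ ^ 2 := by
  rw [sub_neg_eq_add, add_comm, alg8 (kap_inv hs a b c)]
  apply Submodule.neg_mem
  exact fmul (a := 1) (b := 1) (y_mem1' (kap_rel _).mem) (y_mem1' (kap_rel _).mem)

/-- the difference of the two operators -/
theorem x7_x5 (hs : Sc ρ) (h3 : (3 : R) = 0) :
    x7 ρ - x5 ρ + (gX ρ * gX ρ * gY ρ * gY ρ + gY ρ * gY ρ * gZ ρ * gZ ρ +
      gX ρ * gX ρ * gZ ρ * gZ ρ) ∈ Ia k ρ ^ 5 := by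
  have hX1 : gX ρ ∈ Ia k ρ ^ 1 := gX_mem
  have hY1 : gY ρ ∈ Ia k ρ ^ 1 := gY_mem
  have hZ1 : gZ ρ ∈ Ia k ρ ^ 1 := gZ_mem
  have hx5 := x5_lam (k := k) hs h3
  obtain ⟨A, hA⟩ : ∃ A, A = lam (ρ (kp (im 1 0 0))) := ⟨_, rfl⟩
  obtain ⟨B, hB⟩ : ∃ B, B = lam (ρ (kp (im 0 1 0))) := ⟨_, rfl⟩
  obtain ⟨C, hC⟩ : ∃ C, C = lam (ρ (kp (im 0 0 1))) := ⟨_, rfl⟩
  have hB1 : B ∈ Ia k ρ ^ 1 := by rw [hB]; exact lam_mem (kap_rel _).mem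
  have hC1 : C ∈ Ia k ρ ^ 1 := by rw [hC]; exact lam_mem (kap_rel _).mem
  have hBY : B - gY ρ ∈ Ia k ρ ^ 2 := by
    rw [hB]
    unfold gY
    rw [lam_sub]
    exact fmul (a := 1) (b := 1) hY1 hY1
  have hCZ : C - gZ ρ ∈ Ia k ρ ^ 2 := by
    rw [hC]
    unfold gZ
    rw [lam_sub]
    exact fmul (a := 1) (b := 1) hZ1 hZ1
  -- the sign data
  have dB : ∀ b : Zn N, ∀ B' Y' : R, ((b = 1 ∧ B' = B ∧ Y' = gY ρ) ∨ (b = -1 ∧ B' = -B ∧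
      Y' = -gY ρ)) → lam (ρ (kp (im 0 b 0))) - B' ∈ Ia k ρ ^ 4 ∧ B' ∈ Ia k ρ ^ 1 ∧
      ρ (kp (im 0 b 0)) - 1 - Y' ∈ Ia k ρ ^ 2 ∧ Y' ∈ Ia k ρ ^ 1 ∧ B' - Y' ∈ Ia k ρ ^ 2 := by
    rintro b B' Y' (⟨rfl, rfl, rfl⟩ | ⟨rfl, rfl, rfl⟩)
    · refine ⟨?_, hB1, ?_, hY1, hBY⟩
      · rw [hB, sub_self]; exact Submodule.zero_mem _
      · unfold gY; rw [sub_self]; exact Submodule.zero_mem _
    · refine ⟨?_, Submodule.neg_mem _ hB1, ?_, Submodule.neg_mem _ hY1, ?_⟩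
      · have h1 := lam_neg (k := k) hs h3 0 1 0
        rw [neg_zero] at h1
        rw [hB]; exact h1
      · have h1 := y_neg (k := k) hs 0 1 0
        rw [neg_zero] at h1
        exact h1
      · have : -B - -gY ρ = -(B - gY ρ) := by abel
        rw [this]
        exact Submodule.neg_mem _ hBY
  have dC : ∀ c : Zn N, ∀ C' Z' : R, ((c = 1 ∧ C' = C ∧ Z' = gZ ρ) ∨ (c = -1 ∧ C' = -C ∧
      Z' = -gZ ρ)) → lam (ρ (kp (im 0 0 c))) - C' ∈ Ia k ρ ^ 4 ∧ C' ∈ Ia k ρ ^ 1 ∧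
      ρ (kp (im 0 0 c)) - 1 - Z' ∈ Ia k ρ ^ 2 ∧ Z' ∈ Ia k ρ ^ 1 ∧ C' - Z' ∈ Ia k ρ ^ 2 := by
    rintro c C' Z' (⟨rfl, rfl, rfl⟩ | ⟨rfl, rfl, rfl⟩)
    · refine ⟨?_, hC1, ?_, hZ1, hCZ⟩
      · rw [hC, sub_self]; exact Submodule.zero_mem _
      · unfold gZ; rw [sub_self]; exact Submodule.zero_mem _
    · refine ⟨?_, Submodule.neg_mem _ hC1, ?_, Submodule.neg_mem _ hZ1, ?_⟩
      · have h1 := lam_neg (k := k) hs h3 0 0 1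
        rw [neg_zero] at h1
        rw [hC]; exact h1
      · have h1 := y_neg (k := k) hs 0 0 1
        rw [neg_zero] at h1
        exact h1
      · have : -C - -gZ ρ = -(C - gZ ρ) := by abel
        rw [this]
        exact Submodule.neg_mem _ hCZ
  have main : ∀ b c : Zn N, ∀ B' Y' C' Z' : R, ((b = 1 ∧ B' = B ∧ Y' = gY ρ) ∨ (b = -1 ∧
      B' = -B ∧ Y' = -gY ρ)) → ((c = 1 ∧ C' = C ∧ Z' = gZ ρ) ∨ (c = -1 ∧ C' = -C ∧ Z' = -gZ ρ)) →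
      pr ρ 1 b c - ((A + B' + C') * (A + B' + C') -
        ((gX ρ + Y' + Z') * hF (gX ρ) Y' Z' + hF (gX ρ) Y' Z' * (gX ρ + Y' + Z'))) ∈
        Ia k ρ ^ 5 := by
    intro b c B' Y' C' Z' h1 h2
    obtain ⟨b1, b2, b3, b4, b5⟩ := dB b B' Y' h1
    obtain ⟨c1, c2, c3, c4, c5⟩ := dC c C' Z' h2
    rw [hA]
    exact xi_sq hs h3 b c b1 c1 b2 c2 b3 c3 b4 c4 b5 c5
  have q1 := main 1 1 B (gY ρ) C (gZ ρ) (Or.inl ⟨rfl, rfl, rfl⟩) (Or.inl ⟨rfl, rfl, rfl⟩)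
  have q2 := main 1 (-1) B (gY ρ) (-C) (-gZ ρ) (Or.inl ⟨rfl, rfl, rfl⟩) (Or.inr ⟨rfl, rfl, rfl⟩)
  have q3 := main (-1) 1 (-B) (-gY ρ) C (gZ ρ) (Or.inr ⟨rfl, rfl, rfl⟩) (Or.inl ⟨rfl, rfl, rfl⟩)
  have qn4 := main (-1) (-1) (-B) (-gY ρ) (-C) (-gZ ρ) (Or.inr ⟨rfl, rfl, rfl⟩)
    (Or.inr ⟨rfl, rfl, rfl⟩)
  have hc : ∀ g ∈ Kz N 1, ∀ h ∈ Kz N 1, (ρ g - 1) * (ρ h - 1) - (ρ h - 1) * (ρ g - 1) ∈
      Ia k ρ ^ 3 := fun g hg h hh => y_comm3 hs h3 hg hh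
  have q5 := sign_sum (I := Ia k ρ) Ia_mul h3 (A := A) (B := B) (C := C) hX1 hY1 hZ1
    (hc _ (kap_rel _).mem _ (kap_rel _).mem) (hc _ (kap_rel _).mem _ (kap_rel _).mem)
    (hc _ (kap_rel _).mem _ (kap_rel _).mem)
  rw [← hA, ← hB, ← hC] at hx5
  unfold x7
  have e : ∀ p1 p2 p3 p4 w1 w2 w3 w4 x s m : R, p1 + p2 + p3 + p4 - x + m =
      (p1 - w1) + (p2 - w2) + (p3 - w3) + (p4 - w4) + ((w1 + w2 + w3 + w4) - (s - m)) -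
      (x - s) := by
    intros; abel
  rw [e _ _ _ _ _ _ _ _ _ (A * A + B * B + C * C)]
  exact Submodule.sub_mem _ (Submodule.add_mem _ (Submodule.add_mem _ (Submodule.add_mem _
    (Submodule.add_mem _ q1 q2) q3) qn4) q5) hx5

/-- the leading term of the operator of level five -/
theorem x5_lead (hs : Sc ρ) (h3 : (3 : R) = 0) :
    x5 ρ - (gX ρ * gX ρ + gY ρ * gY ρ + gZ ρ * gZ ρ) ∈ Ia k ρ ^ 3 := by
  have h1 := x5_lam (k := k) hs h3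
  have h2 : ∀ g ∈ Kz N 1, lam (ρ g) * lam (ρ g) - (ρ g - 1) * (ρ g - 1) ∈ Ia k ρ ^ 3 := by
    intro g hg
    have hy : ρ g - 1 ∈ Ia k ρ ^ 1 := y_mem1' hg
    have e : lam (ρ g) * lam (ρ g) - (ρ g - 1) * (ρ g - 1) = (ρ g - 1) * (ρ g - 1) * (ρ g - 1) +
        (ρ g - 1) * (ρ g - 1) * (ρ g - 1) + (ρ g - 1) * (ρ g - 1) * (ρ g - 1) * (ρ g - 1) := by
      unfold lam; noncomm_ring
    rw [e]
    refine Submodule.add_mem _ (Submodule.add_mem _ (fmul (fmul hy hy) hy) (fmul (fmul hy hy) hy)) ?_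
    exact Ia_anti (b := 1 + 1 + 1 + 1) (by norm_num) (by norm_num)
      (fmul (fmul (fmul hy hy) hy) hy)
  have e : ∀ x l1 l2 l3 a1 a2 a3 : R, x - (a1 + a2 + a3) = (x - (l1 + l2 + l3)) + (l1 - a1) +
      (l2 - a2) + (l3 - a3) := by
    intros; abel
  rw [e _ (lam (ρ (kp (im 1 0 0))) * lam (ρ (kp (im 1 0 0))))
    (lam (ρ (kp (im 0 1 0))) * lam (ρ (kp (im 0 1 0))))
    (lam (ρ (kp (im 0 0 1))) * lam (ρ (kp (im 0 0 1))))]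
  exact Submodule.add_mem _ (Submodule.add_mem _ (Submodule.add_mem _
    (Ia_anti (by norm_num) (by norm_num) h1) (h2 _ (kap_rel _).mem)) (h2 _ (kap_rel _).mem))
    (h2 _ (kap_rel _).mem)

end

end Pool.Agent.Helper725_HQ
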