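import Pool.Agent.Helper725_HQ.AHk2

/-! A functional killed by the two Hecke operators vanishes on the powers of the augmentation
ideal. -/

set_option autoImplicit false
set_option linter.unusedVariables false

namespace Pool.Agent.Helper725_HQ

open Quaternion

section
variable {N : ℕ} {k : Type*} [CommRing k] {R : Type*} [Ring R] [Algebra k R]
  {ρ : (Hn N)ˣ →* R}

theorem comm_one (hs : Sc ρ) (h3 : (3 : R) = 0) {u v : R} (hu : u ∈ Ia k ρ) (hv : v ∈ Ia k ρ) :
    u * v - v * u ∈ Ia k ρ ^ 3 := by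
  unfold Ia at hu hv
  induction hu, hv using Submodule.span_induction₂ with
  | mem_mem x y hx hy =>
    obtain ⟨g, hg, rfl⟩ := hx
    obtain ⟨h, hh, rfl⟩ := hy
    exact y_comm3 hs h3 hg hh
  | zero_left y hy => rw [zero_mul, mul_zero, sub_self]; exact Submodule.zero_mem _
  | zero_right x hx => rw [zero_mul, mul_zero, sub_self]; exact Submodule.zero_mem _
  | add_left x y z _ _ _ h1 h2 =>
    have : (x + y) * z - z * (x + y) = (x * z - z * x) + (y * z - z * y) := by noncomm_ring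
    rw [this]
    exact Submodule.add_mem _ h1 h2
  | add_right x y z _ _ _ h1 h2 =>
    have : x * (y + z) - (y + z) * x = (x * y - y * x) + (x * z - z * x) := by noncomm_ring
    rw [this]
    exact Submodule.add_mem _ h1 h2
  | smul_left r x y _ _ h1 =>
    rw [smul_mul_assoc, mul_smul_comm, ← smul_sub]
    exact Submodule.smul_mem _ _ h1
  | smul_right r x y _ _ h1 =>
    rw [smul_mul_assoc, mul_smul_comm, ← smul_sub]
    exact Submodule.smul_mem _ _ h1

theorem comm_pow (hs : Sc ρ) (h3 : (3 : R) = 0) (b : ℕ) {u v : R} (hu : u ∈ Ia k ρ ^ 1)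
    (hv : v ∈ Ia k ρ ^ b) : u * v - v * u ∈ Ia k ρ ^ (b + 2) := by
  induction b generalizing v with
  | zero =>
    rw [pow_zero, Submodule.mem_one] at hv
    obtain ⟨r, rfl⟩ := hv
    rw [Algebra.commutes, sub_self]
    exact Submodule.zero_mem _
  | succ b ih =>
    rw [pow_succ] at hv
    induction hv using Submodule.mul_induction_on' with
    | mem_mul_mem x hx y hy =>
      have e : u * (x * y) - x * y * u = (u * x - x * u) * y + x * (u * y - y * u) := by
        noncomm_ring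
      rw [e]
      refine Submodule.add_mem _ ?_ ?_
      · have h1 := fmul (ih hx) (show y ∈ Ia k ρ ^ 1 by rw [pow_one]; exact hy)
        have e2 : b + 1 + 2 = b + 2 + 1 := by ring
        rw [e2]
        exact h1
      · have h1 := fmul hx (comm_one hs h3 (show u ∈ Ia k ρ by rwa [pow_one] at hu) hy)
        exact h1
    | add x _ y _ h1 h2 =>
      have : u * (x + y) - (x + y) * u = (u * x - x * u) + (u * y - y * u) := by noncomm_ring
      rw [this]
      exact Submodule.add_mem _ h1 h2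

/-- monomials in two of the generators -/
noncomputable def mo (ρ : (Hn N)ˣ →* R) (j l : ℕ) : R := gY ρ ^ j * gZ ρ ^ l

theorem pow_memI {u : R} (hu : u ∈ Ia k ρ ^ 1) (n : ℕ) : u ^ n ∈ Ia k ρ ^ n := by
  rw [pow_one] at hu
  exact Submodule.pow_mem_pow _ hu n

theorem mo_mem (j l : ℕ) : mo ρ j l ∈ Ia k ρ ^ (j + l) :=
  fmul (pow_memI gY_mem j) (pow_memI gZ_mem l)

theorem mo_Z (j l : ℕ) : mo ρ j l * gZ ρ = mo ρ j (l + 1) := by
  unfold mo
  rw [mul_assoc, ← pow_succ]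

theorem mo_Y (hs : Sc ρ) (h3 : (3 : R) = 0) (j l : ℕ) :
    mo ρ (j + 1) l - mo ρ j l * gY ρ ∈ Ia k ρ ^ (j + l + 2) := by
  have e : mo ρ (j + 1) l - mo ρ j l * gY ρ = gY ρ ^ j * (gY ρ * gZ ρ ^ l - gZ ρ ^ l * gY ρ) := by
    unfold mo
    rw [pow_succ]
    noncomm_ring
  rw [e, add_assoc]
  exact fmul (pow_memI gY_mem j) (comm_pow hs h3 l gY_mem (pow_memI gZ_mem l))

theorem mo_YY (hs : Sc ρ) (h3 : (3 : R) = 0) (j l : ℕ) :
    mo ρ (j + 2) l - mo ρ j l * gY ρ * gY ρ ∈ Ia k ρ ^ (j + l + 3) := by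
  have h1 := mo_Y (k := k) hs h3 (j + 1) l
  have h2 := fmul (mo_Y (k := k) hs h3 j l) gY_mem
  have e : mo ρ (j + 2) l - mo ρ j l * gY ρ * gY ρ = (mo ρ (j + 1 + 1) l - mo ρ (j + 1) l * gY ρ) +
      (mo ρ (j + 1) l - mo ρ j l * gY ρ) * gY ρ := by noncomm_ring
  rw [e]
  refine Submodule.add_mem _ ?_ h2
  have e2 : j + l + 3 = j + 1 + l + 2 := by ring
  rw [e2]
  exact h1

theorem pow_congrI {u v : R} (hu : u ∈ Ia k ρ ^ 1) (hv : v ∈ Ia k ρ ^ 1)
    (h : u - v ∈ Ia k ρ ^ 2) (n : ℕ) : u ^ n - v ^ n ∈ Ia k ρ ^ (n + 1) := by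
  induction n with
  | zero => rw [pow_zero, pow_zero, sub_self]; exact Submodule.zero_mem _
  | succ n ih =>
    have e : u ^ (n + 1) - v ^ (n + 1) = u ^ n * (u - v) + (u ^ n - v ^ n) * v := by
      rw [pow_succ, pow_succ]; noncomm_ring
    rw [e]
    have h1 := fmul (pow_memI hu n) h
    have h2 := fmul ih hv
    exact Submodule.add_mem _ h1 h2

theorem mo_congr {u v u' v' : R} (hu : u ∈ Ia k ρ ^ 1) (hu' : u' ∈ Ia k ρ ^ 1)
    (hv : v ∈ Ia k ρ ^ 1) (hv' : v' ∈ Ia k ρ ^ 1) (h : u - u' ∈ Ia k ρ ^ 2)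
    (h' : v - v' ∈ Ia k ρ ^ 2) (j l : ℕ) :
    u ^ j * v ^ l - u' ^ j * v' ^ l ∈ Ia k ρ ^ (j + l + 1) := by
  have e : u ^ j * v ^ l - u' ^ j * v' ^ l = u ^ j * (v ^ l - v' ^ l) +
      (u ^ j - u' ^ j) * v' ^ l := by noncomm_ring
  rw [e]
  have h1 := fmul (pow_memI hu j) (pow_congrI hv hv' h' l)
  have h2 := fmul (pow_congrI hu hu' h j) (pow_memI hv' l)
  have e2 : j + 1 + l = j + l + 1 := by ring
  rw [e2] at h2
  exact Submodule.add_mem _ h1 h2

theorem neg_pow_mo (j l : ℕ) (u v : R) : (-u) ^ j * (-v) ^ l = (-1) ^ (j + l) * (u ^ j * v ^ l) := by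
  rw [neg_pow u, neg_pow v, pow_add]
  have h : u ^ j * (-1) ^ l = (-1) ^ l * u ^ j := by
    rcases Nat.even_or_odd l with hl | hl
    · rw [hl.neg_one_pow]; simp
    · rw [hl.neg_one_pow]; simp
  calc (-1) ^ j * u ^ j * ((-1) ^ l * v ^ l) = (-1) ^ j * (u ^ j * (-1) ^ l) * v ^ l := by
        noncomm_ring
    _ = _ := by rw [h]; noncomm_ring

/-- the augmentation ideal is spanned by the generators modulo its square -/
theorem gen_one (hs : Sc ρ) (h3 : (3 : R) = 0) {T : R} (hT : T ∈ Ia k ρ) :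
    ∃ a b c : k, T - (a • gX ρ + b • gY ρ + c • gZ ρ) ∈ Ia k ρ ^ 2 := by
  unfold Ia at hT
  induction hT using Submodule.span_induction with
  | mem x hx =>
    obtain ⟨g, hg, rfl⟩ := hx
    obtain ⟨a, b, c, r, hr, rfl⟩ := gen 0 hg
    rw [pow_zero, pow_one, pow_one, pow_one]
    have p1 : ∀ g ∈ Kz N 1, ∀ n : ℕ, ρ (g ^ n) - 1 - (n : k) • (ρ g - 1) ∈ Ia k ρ ^ 2 := by
      intro g hg n
      induction n with
      | zero => rw [pow_zero, map_one, sub_self, Nat.cast_zero, zero_smul, sub_zero]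
                exact Submodule.zero_mem _
      | succ n ih =>
        have e : ρ (g ^ (n + 1)) - 1 - ((n + 1 : ℕ) : k) • (ρ g - 1) =
            (ρ (g ^ n) - 1 - (n : k) • (ρ g - 1)) + (ρ (g ^ n) - 1) * (ρ g - 1) := by
          rw [pow_succ, map_mul, alg2, Nat.cast_succ, add_smul, one_smul]
          abel
        rw [e]
        refine Submodule.add_mem _ ih (fmul (a := 1) (b := 1) ?_ (y_mem1' hg))
        exact y_mem1' (Subgroup.pow_mem _ hg n)
    have p2 : ∀ g ∈ Kz N 1, ∀ h ∈ Kz N 1, ρ (g * h) - 1 - ((ρ g - 1) + (ρ h - 1)) ∈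
        Ia k ρ ^ 2 := by
      intro g hg h hh
      have e : ρ (g * h) - 1 - ((ρ g - 1) + (ρ h - 1)) = (ρ g - 1) * (ρ h - 1) := by
        rw [map_mul, alg2]; abel
      rw [e]
      exact fmul (a := 1) (b := 1) (y_mem1' hg) (y_mem1' hh)
    have ha : kp (im 1 0 0) ^ a ∈ Kz N 1 := Subgroup.pow_mem _ (kap_rel _).mem a
    have hb : kp (im 0 1 0) ^ b ∈ Kz N 1 := Subgroup.pow_mem _ (kap_rel _).mem b
    have hc : kp (im 0 0 1) ^ c ∈ Kz N 1 := Subgroup.pow_mem _ (kap_rel _).mem c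
    have hr1 : r ∈ Kz N 1 := Kz_anti (by norm_num) hr
    have hr3 : ρ r - 1 ∈ Ia k ρ ^ 2 :=
      Ia_anti (b := 3) (by norm_num) (by norm_num) (y_mem hs h3 1 hr)
    refine ⟨a, b, c, ?_⟩
    have q1 := p2 _ (Subgroup.mul_mem _ (Subgroup.mul_mem _ ha hb) hc) _ hr1
    have q2 := p2 _ (Subgroup.mul_mem _ ha hb) _ hc
    have q3 := p2 _ ha _ hb
    have qn4 := p1 _ (kap_rel (im 1 0 0)).mem a
    have q5 := p1 _ (kap_rel (im 0 1 0)).mem b
    have q6 := p1 _ (kap_rel (im 0 0 1)).mem c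
    have e : ∀ t ab a b c r abc A B C : R, t - (A + B + C) = (t - (abc + r)) + (abc - (ab + c)) +
        (ab - (a + b)) + (a - A) + (b - B) + (c - C) + r := by
      intros; abel
    unfold gX gY gZ
    rw [e _ _ _ _ _ _ _ _ _]
    refine Submodule.add_mem _ (Submodule.add_mem _ (Submodule.add_mem _ (Submodule.add_mem _
      (Submodule.add_mem _ (Submodule.add_mem _ q1 q2) q3) qn4) q5) q6) hr3
  | zero => exact ⟨0, 0, 0, by simp⟩
  | add x y _ _ h1 h2 =>
    obtain ⟨a, b, c, h1⟩ := h1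
    obtain ⟨a', b', c', h2⟩ := h2
    refine ⟨a + a', b + b', c + c', ?_⟩
    have e : x + y - ((a + a') • gX ρ + (b + b') • gY ρ + (c + c') • gZ ρ) =
        (x - (a • gX ρ + b • gY ρ + c • gZ ρ)) + (y - (a' • gX ρ + b' • gY ρ + c' • gZ ρ)) := by
      simp only [add_smul]; abel
    rw [e]
    exact Submodule.add_mem _ h1 h2
  | smul r x _ h1 =>
    obtain ⟨a, b, c, h1⟩ := h1
    refine ⟨r * a, r * b, r * c, ?_⟩
    have e : r • x - ((r * a) • gX ρ + (r * b) • gY ρ + (r * c) • gZ ρ) =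
        r • (x - (a • gX ρ + b • gY ρ + c • gZ ρ)) := by
      simp only [mul_smul, smul_sub, smul_add]
    rw [e]
    exact Submodule.smul_mem _ _ h1

/-- a functional which vanishes on the next power, on the right ideal generated by the first
generator and on the monomials in the others vanishes -/
theorem span_mo (hs : Sc ρ) (h3 : (3 : R) = 0) {M : Type*} [AddCommGroup M] [Module k M] (d : ℕ)
    (hd : 1 ≤ d) (Λ : R →ₗ[k] M)
    (P1 : ∀ T ∈ Ia k ρ ^ (d + 1), Λ T = 0) (P2 : ∀ T, Λ (gX ρ * T) = 0)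
    (P3 : ∀ j l, j + l = d → Λ (mo ρ j l) = 0) : ∀ T ∈ Ia k ρ ^ d, Λ T = 0 := by
  -- functionals on the lower powers
  have key : ∀ n : ℕ, ∀ j l : ℕ, j + l + n = d → ∀ T ∈ Ia k ρ ^ n, Λ (mo ρ j l * T) = 0 := by
    intro n
    induction n with
    | zero =>
      intro j l hjl T hT
      rw [pow_zero, Submodule.mem_one] at hT
      obtain ⟨r, rfl⟩ := hT
      rw [← Algebra.commutes, ← Algebra.smul_def, map_smul, P3 j l hjl, smul_zero]
    | succ n ih =>
      intro j l hjl T hT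
      rw [pow_succ'] at hT
      induction hT using Submodule.mul_induction_on' with
      | mem_mul_mem x hx y hy =>
        obtain ⟨a, b, c, habc⟩ := gen_one hs h3 hx
        obtain ⟨w, hw⟩ : ∃ w, w = x - (a • gX ρ + b • gY ρ + c • gZ ρ) := ⟨_, rfl⟩
        rw [← hw] at habc
        have hmo : mo ρ j l ∈ Ia k ρ ^ (j + l) := mo_mem j l
        have ex : mo ρ j l * (x * y) = a • (gX ρ * (mo ρ j l * y)) +
            a • ((mo ρ j l * gX ρ - gX ρ * mo ρ j l) * y) +
            b • (mo ρ (j + 1) l * y) - b • ((mo ρ (j + 1) l - mo ρ j l * gY ρ) * y) +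
            c • (mo ρ j (l + 1) * y) + mo ρ j l * w * y := by
          have ex' : x = a • gX ρ + b • gY ρ + c • gZ ρ + w := by rw [hw]; abel
          rw [ex', ← mo_Z]
          simp only [mul_add, add_mul, sub_mul, smul_mul_assoc, mul_smul_comm, smul_sub,
            ← mul_assoc]
          abel
        rw [ex, map_add, map_add, map_sub, map_add, map_add, map_smul, map_smul, map_smul,
          map_smul, map_smul, P2, ih (j + 1) l (by omega) y hy, ih j (l + 1) (by omega) y hy]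
        have z1 : Λ ((mo ρ j l * gX ρ - gX ρ * mo ρ j l) * y) = 0 := by
          apply P1
          have h1 : mo ρ j l * gX ρ - gX ρ * mo ρ j l ∈ Ia k ρ ^ (j + l + 2) := by
            rw [← neg_sub]
            exact Submodule.neg_mem _ (comm_pow hs h3 _ gX_mem hmo)
          have h2 := fmul h1 hy
          have e : d + 1 = j + l + 2 + n := by omega
          rw [e]
          exact h2
        have z2 : Λ ((mo ρ (j + 1) l - mo ρ j l * gY ρ) * y) = 0 := by
          apply P1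
          have h2 := fmul (mo_Y (k := k) hs h3 j l) hy
          have e : d + 1 = j + l + 2 + n := by omega
          rw [e]
          exact h2
        have z3 : Λ (mo ρ j l * w * y) = 0 := by
          apply P1
          have h2 := fmul (fmul hmo habc) hy
          have e : d + 1 = j + l + 2 + n := by omega
          rw [e]
          exact h2
        rw [z1, z2, z3]
        simp
      | add x _ y _ h1 h2 =>
        rw [mul_add, map_add, h1, h2, add_zero]
  intro T hT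
  have h1 := key d 0 0 (by omega) T hT
  have e : mo ρ 0 0 = 1 := by unfold mo; rw [pow_zero, pow_zero, one_mul]
  rwa [e, one_mul] at h1

/-- the main vanishing statement -/
theorem functional_zero (hs : Sc ρ) (h3 : (3 : R) = 0) {M : Type*} [AddCommGroup M] [Module k M]
    (h3M : ∀ x : M, x + x = 0 → x = 0) (d : ℕ) (hd : 1 ≤ d) (Λ : R →ₗ[k] M)
    (P1 : ∀ T ∈ Ia k ρ ^ (d + 1), Λ T = 0) (P2 : ∀ T, Λ (gX ρ * T) = 0)
    {wi wj wq : (Hn N)ˣ} (ci : ∀ a b c : Zn N, wi * kp (im a b c) * wi⁻¹ = kp (im a (-b) (-c)))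
    (cj : ∀ a b c : Zn N, wj * kp (im a b c) * wj⁻¹ = kp (im (-a) b (-c)))
    (cq : ∀ a b c : Zn N, wq * kp (im a b c) * wq⁻¹ = kp (im a (-c) b))
    (Pi : ∀ T ∈ Ia k ρ ^ d, Λ (ρ wi * T * ρ wi⁻¹) = Λ T)
    (Pj : ∀ T ∈ Ia k ρ ^ d, Λ (ρ wj * T * ρ wj⁻¹) = Λ T)
    (Pq : ∀ T ∈ Ia k ρ ^ d, Λ (ρ wq * T * ρ wq⁻¹) = Λ T) (P5 : ∀ T, Λ (T * x5 ρ) = 0)
    (P7 : ∀ T, Λ (T * x7 ρ) = 0) : ∀ T ∈ Ia k ρ ^ d, Λ T = 0 := by
  apply span_mo hs h3 d hd Λ P1 P2
  have hY1 : gY ρ ∈ Ia k ρ ^ 1 := gY_mem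
  have hZ1 : gZ ρ ∈ Ia k ρ ^ 1 := gZ_mem
  have hX1 : gX ρ ∈ Ia k ρ ^ 1 := gX_mem
  -- conjugation of the monomials
  have cw : ∀ (w : (Hn N)ˣ) (b c b' c' : Hn N), w * kp b * w⁻¹ = kp b' → w * kp c * w⁻¹ = kp c' →
      ∀ j l : ℕ, ρ w * ((ρ (kp b) - 1) ^ j * (ρ (kp c) - 1) ^ l) * ρ w⁻¹ =
        (ρ (kp b') - 1) ^ j * (ρ (kp c') - 1) ^ l := by
    intro w b c b' c' hb hc j l
    have hww : ρ w⁻¹ * ρ w = 1 := by rw [← map_mul, inv_mul_cancel, map_one]
    have hww' : ρ w * ρ w⁻¹ = 1 := by rw [← map_mul, mul_inv_cancel, map_one]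
    have one : ∀ (b b' : Hn N), w * kp b * w⁻¹ = kp b' → ∀ n : ℕ,
        ρ w * (ρ (kp b) - 1) ^ n = (ρ (kp b') - 1) ^ n * ρ w := by
      intro b b' hb n
      induction n with
      | zero => rw [pow_zero, pow_zero, one_mul, mul_one]
      | succ n ih =>
        have h1 : ρ w * (ρ (kp b) - 1) = (ρ (kp b') - 1) * ρ w := by
          rw [← hb, map_mul, map_mul, mul_sub, sub_mul, mul_assoc (ρ w * ρ (kp b)), hww, mul_one,
            mul_one, one_mul]
        rw [pow_succ, ← mul_assoc, ih, mul_assoc, h1, ← mul_assoc, ← pow_succ]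
    rw [← mul_assoc, one b b' hb j, mul_assoc ((ρ (kp b') - 1) ^ j), one c c' hc l, ← mul_assoc,
      mul_assoc _ (ρ w), hww', mul_one]
  have odd_l : ∀ j l, j + l = d → Odd l → Λ (mo ρ j l) = 0 := by
    intro j l hjl hl
    apply h3M
    have h1 := Pj (mo ρ j l) (by rw [← hjl]; exact mo_mem j l)
    unfold mo gY gZ at h1
    rw [cw wj _ _ (im 0 1 0) (im 0 0 (-1)) (by rw [cj, neg_zero])
      (by rw [cj, neg_zero])] at h1
    have h2 := y_neg (k := k) hs 0 0 1
    rw [neg_zero] at h2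
    have h3' := mo_congr (u := ρ (kp (im 0 1 0)) - 1) (u' := gY ρ) (v := ρ (kp (im 0 0 (-1))) - 1)
      (v' := -gZ ρ) hY1 hY1 (y_mem1' (kap_rel _).mem) (Submodule.neg_mem _ hZ1)
      (by unfold gY; rw [sub_self]; exact Submodule.zero_mem _) h2 j l
    have h4 := P1 _ (by rw [← hjl]; exact h3')
    rw [map_sub, h1, hl.neg_pow, mul_neg, map_neg, sub_neg_eq_add] at h4
    exact h4
  have odd_d : ∀ j l, j + l = d → Odd d → Λ (mo ρ j l) = 0 := by
    intro j l hjl hl
    apply h3M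
    have h1 := Pi (mo ρ j l) (by rw [← hjl]; exact mo_mem j l)
    unfold mo gY gZ at h1
    rw [cw wi _ _ (im 0 (-1) 0) (im 0 0 (-1)) (by rw [ci, neg_zero])
      (by rw [ci, neg_zero])] at h1
    have h2 := y_neg (k := k) hs 0 0 1
    have h2' := y_neg (k := k) hs 0 1 0
    rw [neg_zero] at h2 h2'
    have h3' := mo_congr (u := ρ (kp (im 0 (-1) 0)) - 1) (u' := -gY ρ)
      (v := ρ (kp (im 0 0 (-1))) - 1)
      (v' := -gZ ρ) (y_mem1' (kap_rel _).mem) (Submodule.neg_mem _ hY1) (y_mem1' (kap_rel _).mem)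
      (Submodule.neg_mem _ hZ1) h2' h2 j l
    have h4 := P1 _ (by rw [← hjl]; exact h3')
    rw [map_sub, h1, neg_pow_mo, hjl, hl.neg_one_pow, neg_mul, one_mul, map_neg,
      sub_neg_eq_add] at h4
    exact h4
  -- the relation given by the operator of level five
  have r5 : ∀ j l, j + l + 2 = d → Λ (mo ρ (j + 2) l) + Λ (mo ρ j (l + 2)) = 0 := by
    intro j l hjl
    have hmo : mo ρ j l ∈ Ia k ρ ^ (j + l) := mo_mem j l
    have h1 := P5 (mo ρ j l)
    have h2 : Λ (mo ρ j l * (x5 ρ - (gX ρ * gX ρ + gY ρ * gY ρ + gZ ρ * gZ ρ))) = 0 := by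
      apply P1
      have e : d + 1 = j + l + 3 := by omega
      rw [e]
      exact fmul hmo (x5_lead hs h3)
    have hX : Λ (mo ρ j l * (gX ρ * gX ρ)) = 0 := by
      have e : mo ρ j l * (gX ρ * gX ρ) = gX ρ * (mo ρ j l * gX ρ) -
          (gX ρ * mo ρ j l - mo ρ j l * gX ρ) * gX ρ := by noncomm_ring
      rw [e, map_sub, P2, zero_sub, neg_eq_zero]
      apply P1
      have e : d + 1 = j + l + 2 + 1 := by omega
      rw [e]
      exact fmul (comm_pow hs h3 _ hX1 hmo) hX1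
    have hY : Λ (mo ρ j l * (gY ρ * gY ρ)) = Λ (mo ρ (j + 2) l) := by
      have h3' := P1 (mo ρ (j + 2) l - mo ρ j l * gY ρ * gY ρ) (by
        have e : d + 1 = j + l + 3 := by omega
        rw [e]
        exact mo_YY hs h3 j l)
      rw [map_sub, sub_eq_zero] at h3'
      rw [h3', mul_assoc]
    have hZ : mo ρ j l * (gZ ρ * gZ ρ) = mo ρ j (l + 2) := by
      rw [← mul_assoc, mo_Z, mo_Z]
    rw [mul_sub, map_sub, h1, zero_sub, neg_eq_zero, mul_add, mul_add, map_add, map_add, hX, hY, hZ,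
      zero_add] at h2
    exact h2
  -- the relation given by the difference of the two operators
  have r7 : ∀ j l, j + l + 4 = d → Λ (mo ρ (j + 2) (l + 2)) = 0 := by
    intro j l hjl
    have hmo : mo ρ j l ∈ Ia k ρ ^ (j + l) := mo_mem j l
    have h2 : Λ (mo ρ j l * (x7 ρ - x5 ρ + (gX ρ * gX ρ * gY ρ * gY ρ +
        gY ρ * gY ρ * gZ ρ * gZ ρ + gX ρ * gX ρ * gZ ρ * gZ ρ))) = 0 := by
      apply P1
      have e : d + 1 = j + l + 5 := by omega
      rw [e]
      exact fmul hmo (x7_x5 hs h3)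
    have hX : ∀ u v : R, u ∈ Ia k ρ ^ 1 → v ∈ Ia k ρ ^ 1 →
        Λ (mo ρ j l * (gX ρ * gX ρ * u * v)) = 0 := by
      intro u v hu hv
      have e : mo ρ j l * (gX ρ * gX ρ * u * v) = gX ρ * (mo ρ j l * gX ρ * u * v) -
          (gX ρ * mo ρ j l - mo ρ j l * gX ρ) * gX ρ * u * v := by noncomm_ring
      rw [e, map_sub, P2, zero_sub, neg_eq_zero]
      apply P1
      have e : d + 1 = j + l + 2 + 1 + 1 + 1 := by omega
      rw [e]
      exact fmul (fmul (fmul (comm_pow hs h3 _ hX1 hmo) hX1) hu) hv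
    have hY : Λ (mo ρ j l * (gY ρ * gY ρ * gZ ρ * gZ ρ)) = Λ (mo ρ (j + 2) (l + 2)) := by
      have h3' := P1 ((mo ρ (j + 2) l - mo ρ j l * gY ρ * gY ρ) * gZ ρ * gZ ρ) (by
        have e : d + 1 = j + l + 3 + 1 + 1 := by omega
        rw [e]
        exact fmul (fmul (mo_YY hs h3 j l) hZ1) hZ1)
      rw [sub_mul, sub_mul, map_sub, sub_eq_zero, mo_Z, mo_Z] at h3'
      rw [h3']
      congr 1
      noncomm_ring
    rw [mul_add, map_add, mul_sub, map_sub, P7, P5, sub_zero, zero_add, mul_add, mul_add, map_add,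
      map_add, hX _ _ hY1 hY1, hX _ _ hZ1 hZ1, hY, zero_add, add_zero] at h2
    exact h2
  intro j l hjl
  rcases Nat.even_or_odd d with hde | hdo
  swap
  · exact odd_d j l hjl hdo
  rcases Nat.even_or_odd l with hle | hlo
  swap
  · exact odd_l j l hjl hlo
  have hje : Even j := by
    by_contra hj
    rw [Nat.not_even_iff_odd] at hj
    have := hj.add_even hle
    rw [hjl] at this
    exact (Nat.not_odd_iff_even.2 hde) this
  obtain ⟨j', rfl⟩ := hje
  obtain ⟨l', rfl⟩ := hle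
  by_cases hd2 : d = 2
  · -- degree two: use the swap
    have h1 := Pq (mo ρ 2 0) (by rw [hd2]; exact mo_mem 2 0)
    have h1' : Λ (mo ρ 0 2) = Λ (mo ρ 2 0) := by
      have e := cw wq (im 0 1 0) (im 0 1 0) (im 0 0 1) (im 0 0 1) (by rw [cq, neg_zero])
        (by rw [cq, neg_zero]) 2 0
      have e1 : mo ρ 2 0 = (ρ (kp (im 0 1 0)) - 1) ^ 2 * (ρ (kp (im 0 1 0)) - 1) ^ 0 := by
        unfold mo gY; rw [pow_zero, pow_zero]
      have e2 : mo ρ 0 2 = (ρ (kp (im 0 0 1)) - 1) ^ 2 * (ρ (kp (im 0 0 1)) - 1) ^ 0 := by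
        unfold mo gZ; rw [pow_zero, pow_zero, one_mul, mul_one]
      rw [e2, ← e, ← e1, h1]
    have h2 := r5 0 0 (by omega)
    rw [zero_add] at h2
    rw [h1'] at h2
    have h4 := h3M _ h2
    have : (j' = 0 ∧ l' = 1) ∨ (j' = 1 ∧ l' = 0) := by omega
    rcases this with ⟨rfl, rfl⟩ | ⟨rfl, rfl⟩
    · show Λ (mo ρ 0 2) = 0
      rw [h1', h4]
    · exact h4
  · rcases Nat.eq_zero_or_pos j' with hj0 | hjpos
    · subst hj0
      obtain ⟨m, rfl⟩ : ∃ m, l' = m + 2 := ⟨l' - 2, by omega⟩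
      have h2 := r5 0 (2 * m + 2) (by omega)
      have h4 := r7 0 (2 * m) (by omega)
      rw [h4, zero_add] at h2
      have e : m + 2 + (m + 2) = 2 * m + 2 + 2 := by ring
      rw [add_zero, e]
      exact h2
    · rcases Nat.eq_zero_or_pos l' with hl0 | hlpos
      · subst hl0
        obtain ⟨m, rfl⟩ : ∃ m, j' = m + 2 := ⟨j' - 2, by omega⟩
        have h2 := r5 (2 * m + 2) 0 (by omega)
        have h4 := r7 (2 * m) 0 (by omega)
        rw [zero_add] at h2 h4
        rw [h4, add_zero] at h2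
        have e : m + 2 + (m + 2) = 2 * m + 2 + 2 := by ring
        rw [add_zero, e]
        exact h2
      · obtain ⟨m, rfl⟩ : ∃ m, j' = m + 1 := ⟨j' - 1, by omega⟩
        obtain ⟨n, rfl⟩ : ∃ n, l' = n + 1 := ⟨l' - 1, by omega⟩
        have h4 := r7 (2 * m) (2 * n) (by omega)
        have e1 : m + 1 + (m + 1) = 2 * m + 2 := by ring
        have e2 : n + 1 + (n + 1) = 2 * n + 2 := by ring
        rw [e1, e2]
        exact h4

end

end Pool.Agent.Helper725_HQ
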