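import Pool.Agent.Helper725_HQ.AHecke
import Pool.Agent.Helper725_HQ.ACon

/-! The normalized values of an eigenform of level one on a residue disc have constant nonzero
reduction. -/

set_option autoImplicit false
set_option linter.unusedVariables false
set_option linter.unusedSimpArgs false

namespace Pool.Agent.Helper725_HQ

open Quaternion MvPolynomial

section
variable {N : ℕ}

/-- the reduction of an integral vector -/
def imz (N : ℕ) (x : Fin 3 → ℤ) : Hn N := im ((x 0 : ℤ) : Zn N) ((x 1 : ℤ) : Zn N)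
  ((x 2 : ℤ) : Zn N)

theorem not_three_dvd_unit {s : ℤ} (h : ¬ (3 : ℤ) ∣ s) : IsUnit ((s : ℤ) : Zn N) := by
  have h2 : IsUnit (2 : Zn N) := IsUnit.of_mul_eq_one _ two_hf
  have h1 : s % 3 = 1 ∨ s % 3 = 2 := by omega
  rcases h1 with h1 | h1
  · have e : (s : ℤ) = 1 + 3 * (s / 3) := by omega
    rw [e]
    push_cast
    exact unit_three _
  · have e : (s : ℤ) = -(1 + 3 * (-(s / 3) - 1)) := by omega
    rw [e]
    push_cast
    exact (unit_three _).neg

theorem Dc_imz {x : Fin 3 → ℤ} (hx : x ∈ XX) : Dc (imz N x) := by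
  obtain ⟨h0, ⟨b, hb⟩, ⟨c, hc⟩⟩ := hx
  obtain ⟨u, hu⟩ := not_three_dvd_unit (N := N) h0
  refine ⟨rfl, u, ((u⁻¹ : (Zn N)ˣ) : Zn N) • im 0 ((b : ℤ) : Zn N) ((c : ℤ) : Zn N), ?_⟩
  have h1 : (u : Zn N) * ((u⁻¹ : (Zn N)ˣ) : Zn N) = 1 := Units.mul_inv u
  unfold imz
  rw [hb, hc, ← hu]
  apply Quaternion.ext
  · simp
  · simp
  · simp
    linear_combination (-(3 * (b : Zn N))) * h1
  · simp
    linear_combination (-(3 * (c : Zn N))) * h1

theorem exists_imz (hN : 1 ≤ N) {y : Hn N} (hy : Dc y) : ∃ x ∈ XX, y = imz N x := by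
  obtain ⟨h0, s, η, h1⟩ := hy
  have h3 : (3 : ℤ) ∣ ((3 ^ N : ℕ) : ℤ) := by
    push_cast
    exact dvd_pow_self 3 (by omega)
  obtain ⟨s0, hs0⟩ := ZMod.intCast_surjective (s : Zn N)
  obtain ⟨a, ha⟩ := ZMod.intCast_surjective η.imI
  obtain ⟨b, hb⟩ := ZMod.intCast_surjective η.imJ
  obtain ⟨c, hc⟩ := ZMod.intCast_surjective η.imK
  refine ⟨![s0 * (1 + 3 * a), s0 * (3 * b), s0 * (3 * c)], ⟨?_, ?_, ?_⟩, ?_⟩
  · show ¬ (3 : ℤ) ∣ s0 * (1 + 3 * a)
    intro h
    rcases (Int.prime_three).dvd_or_dvd h with h | h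
    · have h4 : IsUnit ((s0 : ℤ) : Zn N) := by rw [hs0]; exact s.isUnit
      obtain ⟨t, ht⟩ := h
      rw [ht] at h4
      push_cast at h4
      have h5 : IsUnit (3 : Zn N) := isUnit_of_mul_isUnit_left h4
      have h6 : IsUnit ((3 : Zn N) ^ N) := h5.pow N
      rw [three_pow_zero le_rfl] at h6
      have h7 : (0 : Zn N) = 1 := (isUnit_zero_iff.1 h6)
      have h8 : ((1 : ℤ) : Zn N) = ((0 : ℤ) : Zn N) := by push_cast; exact h7.symm
      rw [ZMod.intCast_eq_intCast_iff_dvd_sub] at h8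
      have h9 := h3.trans h8
      omega
    · omega
  · exact ⟨s0 * b, by show s0 * (3 * b) = _; ring⟩
  · exact ⟨s0 * c, by show s0 * (3 * c) = _; ring⟩
  · apply Quaternion.ext
    · rw [h0]; rfl
    · show y.imI = ((s0 * (1 + 3 * a) : ℤ) : Zn N)
      push_cast
      rw [h1, hs0, ha]; simp; ring
    · show y.imJ = ((s0 * (3 * b) : ℤ) : Zn N)
      push_cast
      rw [h1, hs0, hb]; simp
    · show y.imK = ((s0 * (3 * c) : ℤ) : Zn N)
      push_cast
      rw [h1, hs0, hc]; simp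

theorem imz_inj {x y : Fin 3 → ℤ} (h : imz N x = imz N y) (i : Fin 3) :
    ((3 ^ N : ℕ) : ℤ) ∣ x i - y i := by
  have key : ∀ i, ((x i : ℤ) : Zn N) = ((y i : ℤ) : Zn N) := by
    intro i
    fin_cases i
    · exact congrArg QuaternionAlgebra.imI h
    · exact congrArg QuaternionAlgebra.imJ h
    · exact congrArg QuaternionAlgebra.imK h
  have h1 := key i
  rw [ZMod.intCast_eq_intCast_iff_dvd_sub, ← neg_sub, dvd_neg] at h1
  exact h1

theorem act_XX {v x : Fin 3 → ℤ} (hx : x ∈ XX) : act v x ∈ XX := by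
  obtain ⟨h0, ⟨b, hb⟩, ⟨c, hc⟩⟩ := hx
  refine ⟨?_, ?_, ?_⟩
  · intro h
    apply h0
    have e : act v x 0 = x 0 + 3 * (3 * ((v 0) ^ 2 - (v 1) ^ 2 - (v 2) ^ 2) * x 0 +
        2 * (3 * (v 0 * v 1) + v 2) * x 1 + 2 * (3 * (v 0 * v 2) - v 1) * x 2) := by
      unfold act
      rw [Fin.sum_univ_three]
      simp [rotZ]
      ring
    rw [e] at h
    exact (dvd_add_left (Dvd.intro _ rfl)).1 h
  · have e : act v x 1 = x 1 + 3 * (2 * (3 * (v 0 * v 1) - v 2) * x 0 +
        3 * (-(v 0) ^ 2 + (v 1) ^ 2 - (v 2) ^ 2) * x 1 + 2 * (3 * (v 1 * v 2) + v 0) * x 2) := by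
      unfold act
      rw [Fin.sum_univ_three]
      simp [rotZ]
      ring
    rw [e, hb]
    exact dvd_add (Dvd.intro _ rfl) (Dvd.intro _ rfl)
  · have e : act v x 2 = x 2 + 3 * (2 * (3 * (v 0 * v 2) + v 1) * x 0 +
        2 * (3 * (v 1 * v 2) - v 0) * x 1 + 3 * (-(v 0) ^ 2 - (v 1) ^ 2 + (v 2) ^ 2) * x 2) := by
      unfold act
      rw [Fin.sum_univ_three]
      simp [rotZ]
      ring
    rw [e, hc]
    exact dvd_add (Dvd.intro _ rfl) (Dvd.intro _ rfl)

/-- the action on reductions -/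
theorem kp_act (v x : Fin 3 → ℤ) : ∃ t : (Zn N)ˣ,
    (((kp (imz N v))⁻¹ : (Hn N)ˣ) : Hn N) * imz N x * ((kp (imz N v) : (Hn N)ˣ) : Hn N) =
      (t : Zn N) • imz N (act v x) := by
  obtain ⟨t, ht⟩ := unit_three (N := N) (3 * ((v 0 : Zn N) ^ 2 + (v 1 : Zn N) ^ 2 +
    (v 2 : Zn N) ^ 2))
  have hinv : (((kp (imz N v))⁻¹ : (Hn N)ˣ) : Hn N) = ((t⁻¹ : (Zn N)ˣ) : Zn N) •
      qn4 1 (-(3 * (v 0 : Zn N))) (-(3 * (v 1 : Zn N))) (-(3 * (v 2 : Zn N))) := by
    apply Units.inv_eq_of_mul_eq_one_right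
    rw [mul_smul_comm]
    have e : ((kp (imz N v) : (Hn N)ˣ) : Hn N) * qn4 1 (-(3 * (v 0 : Zn N)))
        (-(3 * (v 1 : Zn N))) (-(3 * (v 2 : Zn N))) = (t : Zn N) • 1 := by
      rw [kap_val, ht]
      unfold imz
      apply Quaternion.ext
      · simp; ring
      · simp; ring
      · simp; ring
      · simp; ring
    rw [e, smul_smul, Units.inv_mul, one_smul]
  refine ⟨t⁻¹, ?_⟩
  rw [hinv, smul_mul_assoc, smul_mul_assoc, kap_val]
  congr 1
  unfold imz act
  apply Quaternion.ext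
  · simp [Fin.sum_univ_three, rotZ]; ring
  · simp [Fin.sum_univ_three, rotZ]; ring
  · simp [Fin.sum_univ_three, rotZ]; ring
  · simp [Fin.sum_univ_three, rotZ]; ring

end

theorem int_rs {V : ValuationSubring ℂ} (hV : Thr V) {s : ℤ} (h : ¬ (3 : ℤ) ∣ s) {k : ℕ}
    (hk : Even k) : rs V ((s : V) ^ k) = 1 := by
  obtain ⟨m, rfl⟩ := hk
  have h2 : ∃ t : ℤ, s ^ 2 = 1 + 3 * t := by
    have h1 : s % 3 = 1 ∨ s % 3 = 2 := by omega
    rcases h1 with h1 | h1
    · exact ⟨(s / 3) * 2 + 3 * (s / 3) ^ 2, by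
        have e : s = 1 + 3 * (s / 3) := by omega
        generalize s / 3 = u at e ⊢
        rw [e]; ring⟩
    · exact ⟨1 + 4 * (s / 3) + 3 * (s / 3) ^ 2, by
        have e : s = 2 + 3 * (s / 3) := by omega
        generalize s / 3 = u at e ⊢
        rw [e]; ring⟩
  obtain ⟨t, ht⟩ := h2
  have h3 : rs V ((s : V) ^ 2) = 1 := by
    have e : (s : V) ^ 2 = 1 + 3 * (t : V) := by exact_mod_cast congrArg (Int.cast : ℤ → V) ht
    rw [e, map_add, map_one, map_mul]
    have h5 : rs V (3 : V) = 0 := by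
      rw [map_ofNat]; exact three_zero hV
    rw [h5, zero_mul, add_zero]
  rw [← two_mul, pow_mul, map_pow, h3, one_pow]

/-- constancy of the reductions -/
theorem red_const {V : ValuationSubring ℂ} (hV : Thr V) {k : ℕ} (hk : Even k)
    {P : MvPolynomial (Fin 3) ℂ} (hP : P.IsHomogeneous k) (hsym : Sym P) (hP0 : P ≠ 0)
    {L5 L7 : ℂ} (h5 : ∀ x, ∑ i, vl P (act (v5 i) x) = L5 * vl P x)
    (h7 : ∀ x, ∑ i, vl P (act (v7 i) x) = L7 * vl P x) :
    ∃ c : ℂ, ∃ r : kap V, r ≠ 0 ∧ ∀ x ∈ XX, ∃ v : V, c * vl P x = (v : ℂ) ∧ rs V v = r := by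
  classical
  obtain ⟨c, hcV, ⟨x₀, hx₀, v₀, hv₀, hv₀ne⟩, N', hper⟩ := per hV hP0
  obtain ⟨N, hN⟩ : ∃ N, N = N' + 1 := ⟨_, rfl⟩
  rw [← hN] at hper
  have hN1 : 1 ≤ N := by omega
  -- reductions of the values
  set g : (Fin 3 → ℤ) → kap V := fun x => if hx : x ∈ XX then rs V ⟨c * vl P x, hcV x hx⟩ else 0
    with hg
  have g_pos : ∀ x ∈ XX, ∀ v : V, (v : ℂ) = c * vl P x → g x = rs V v := by
    intro x hx v hv
    simp only [hg]
    rw [dif_pos hx]
    congr 1
    exact Subtype.ext hv.symm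
  have g_per : ∀ x ∈ XX, ∀ y ∈ XX, imz N x = imz N y → g x = g y := by
    intro x hx y hy hxy
    rw [g_pos x hx ⟨_, hcV x hx⟩ rfl, g_pos y hy ⟨_, hcV y hy⟩ rfl]
    exact hper x hx y hy (fun i => imz_inj hxy i) _ _ rfl rfl
  have g_eq : ∀ x ∈ XX, ∀ y ∈ XX, vl P x = vl P y → g x = g y := by
    intro x hx y hy hxy
    rw [g_pos x hx ⟨_, hcV x hx⟩ rfl, g_pos y hy ⟨_, hcV y hy⟩ rfl]
    congr 1
    apply Subtype.ext
    show c * vl P x = c * vl P y
    rw [hxy]
  -- the function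
  set φ : Fn N (kap V) := fun y => if h : ∃ x, x ∈ XX ∧ y = imz N x then g h.choose else 0 with hφ
  have φ_im : ∀ x ∈ XX, φ (imz N x) = g x := by
    intro x hx
    have h : ∃ z, z ∈ XX ∧ imz N x = imz N z := ⟨x, hx, rfl⟩
    simp only [hφ]
    rw [dif_pos h]
    exact g_per _ h.choose_spec.1 _ hx h.choose_spec.2.symm
  have φ_zero : ∀ y, ¬ Dc y → φ y = 0 := by
    intro y hy
    simp only [hφ]
    rw [dif_neg]
    rintro ⟨x, hx, rfl⟩
    exact hy (Dc_imz hx)
  have hgd : Gd φ := by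
    refine ⟨fun s y => ?_, φ_zero⟩
    by_cases hy : Dc y
    · obtain ⟨x, hx, rfl⟩ := exists_imz hN1 hy
      obtain ⟨s0, hs0⟩ := ZMod.intCast_surjective (s : Zn N)
      have h3s : ¬ (3 : ℤ) ∣ s0 := by
        intro h
        obtain ⟨z, hz, hz'⟩ := exists_imz hN1 (Dc_smul hy s)
        have e : imz N (fun i => s0 * x i) = imz N z := by
          rw [← hz']
          unfold imz
          apply Quaternion.ext
          · simp
          · simp [hs0]
          · simp [hs0]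
          · simp [hs0]
        have h1 := imz_inj e 0
        have h3 : (3 : ℤ) ∣ ((3 ^ N : ℕ) : ℤ) := by
          push_cast
          exact dvd_pow_self 3 (by omega)
        have h2 := h3.trans h1
        apply hz.1
        have h4 : (3 : ℤ) ∣ s0 * x 0 := dvd_mul_of_dvd_left h _
        have h5 := dvd_sub h4 h2
        simpa using h5
      have hsx : (fun i => s0 * x i) ∈ XX := by
        refine ⟨?_, dvd_mul_of_dvd_right hx.2.1 _, dvd_mul_of_dvd_right hx.2.2 _⟩
        intro h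
        rcases (Int.prime_three).dvd_or_dvd h with h | h
        · exact h3s h
        · exact hx.1 h
      have e : (s : Zn N) • imz N x = imz N (fun i => s0 * x i) := by
        unfold imz
        apply Quaternion.ext
        · simp
        · simp [hs0]
        · simp [hs0]
        · simp [hs0]
      rw [e, φ_im _ hsx, φ_im _ hx]
      obtain ⟨v, hv⟩ : ∃ v : V, (v : ℂ) = c * vl P x := ⟨⟨_, hcV x hx⟩, rfl⟩
      rw [g_pos x hx v hv]
      have h1 : (((s0 : V) ^ k * v : V) : ℂ) = c * vl P (fun i => s0 * x i) := by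
        have h2 : vl P (fun i => s0 * x i) = (s0 : ℂ) ^ k * vl P x := by
          unfold vl
          have h3 := congrArg (eval (fun i => ((x i : ℤ) : ℂ)))
            (lsub_smul hP (s0 : ℂ) (fun i j => if i = j then 1 else 0))
          rw [lsub_id, map_mul, eval_C, eval_lsub] at h3
          rw [← h3]
          congr 1
          apply congrArg
          funext i
          rw [Finset.sum_eq_single i]
          · push_cast
            rw [if_pos rfl, mul_one]
          · intro j _ hj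
            rw [if_neg (Ne.symm hj), mul_zero, zero_mul]
          · intro h
            exact absurd (Finset.mem_univ _) h
        rw [h2]
        show ((s0 : V) ^ k : V) * (v : ℂ) = _
        rw [hv]
        push_cast
        ring
      rw [g_pos _ hsx _ h1, map_mul, int_rs hV h3s hk, one_mul]
    · rw [φ_zero y hy, φ_zero]
      intro h
      apply hy
      have h1 := Dc_smul h s⁻¹
      rwa [smul_smul, Units.inv_mul, one_smul] at h1
  -- symmetries
  have vl3 : ∀ x, vl P x = eval ![((x 0 : ℤ) : ℂ), ((x 1 : ℤ) : ℂ), ((x 2 : ℤ) : ℂ)] P := by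
    intro x
    unfold vl
    congr 1
    apply congrArg
    funext i
    fin_cases i <;> rfl
  have Fgen : ∀ (τ : (Fin 3 → ℤ) → Fin 3 → ℤ) (σ : Hn N → Hn N), (∀ x ∈ XX, τ x ∈ XX) →
      (∀ x, vl P (τ x) = vl P x) → (∀ x, σ (imz N x) = imz N (τ x)) → ∀ y, Dc y →
      φ (σ y) = φ y := by
    intro τ σ h1 h2 h3 y hy
    obtain ⟨x, hx, rfl⟩ := exists_imz hN1 hy
    rw [h3, φ_im _ (h1 x hx), φ_im _ hx]
    exact g_eq _ (h1 x hx) _ hx (h2 x)
  have Fi : ∀ a b c : Zn N, φ (im a (-b) (-c)) = φ (im a b c) := by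
    have h1 : ∀ a b c : Zn N, Dc (im a b c) → φ (im a (-b) (-c)) = φ (im a b c) := by
      intro a b c h
      have := Fgen (fun x => ![x 0, -x 1, -x 2]) (fun y => im y.imI (-y.imJ) (-y.imK))
        (fun x hx => ⟨hx.1, (dvd_neg).2 hx.2.1, (dvd_neg).2 hx.2.2⟩)
        (fun x => by
          rw [vl3, vl3]
          simp only [Matrix.cons_val_zero, Matrix.cons_val_one, Matrix.cons_val]
          push_cast
          rw [hsym.v_fl1, hsym.v_fl2])
        (fun x => by
          unfold imz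
          simp)
        (im a b c) h
      simpa using this
    intro a b c
    by_cases h : Dc (im a b c)
    · exact h1 a b c h
    · by_cases h' : Dc (im a (-b) (-c))
      · have := h1 a (-b) (-c) h'
        rw [neg_neg, neg_neg] at this
        exact this.symm
      · rw [φ_zero _ h, φ_zero _ h']
  have Fj : ∀ a b c : Zn N, φ (im (-a) b (-c)) = φ (im a b c) := by
    have h1 : ∀ a b c : Zn N, Dc (im a b c) → φ (im (-a) b (-c)) = φ (im a b c) := by
      intro a b c h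
      have := Fgen (fun x => ![-x 0, x 1, -x 2]) (fun y => im (-y.imI) y.imJ (-y.imK))
        (fun x hx => ⟨fun h => hx.1 ((dvd_neg).1 h), hx.2.1, (dvd_neg).2 hx.2.2⟩)
        (fun x => by
          rw [vl3, vl3]
          simp only [Matrix.cons_val_zero, Matrix.cons_val_one, Matrix.cons_val]
          push_cast
          rw [hsym.v_fl0, hsym.v_fl2])
        (fun x => by
          unfold imz
          simp)
        (im a b c) h
      simpa using this
    intro a b c
    by_cases h : Dc (im a b c)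
    · exact h1 a b c h
    · by_cases h' : Dc (im (-a) b (-c))
      · have := h1 (-a) b (-c) h'
        rw [neg_neg, neg_neg] at this
        exact this.symm
      · rw [φ_zero _ h, φ_zero _ h']
  have Fq : ∀ a b c : Zn N, φ (im a c (-b)) = φ (im a b c) := by
    have h1 : ∀ a b c : Zn N, Dc (im a b c) → φ (im a c (-b)) = φ (im a b c) := by
      intro a b c h
      have := Fgen (fun x => ![x 0, x 2, -x 1]) (fun y => im y.imI y.imK (-y.imJ))
        (fun x hx => ⟨hx.1, hx.2.2, (dvd_neg).2 hx.2.1⟩)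
        (fun x => by
          rw [vl3, vl3]
          simp only [Matrix.cons_val_zero, Matrix.cons_val_one, Matrix.cons_val]
          push_cast
          rw [hsym.v_fl2, hsym.v_sw])
        (fun x => by
          unfold imz
          simp)
        (im a b c) h
      simpa using this
    have h2 : ∀ a b c : Zn N, Dc (im a b c) → φ (im a (-c) b) = φ (im a b c) := by
      intro a b c h
      have := Fgen (fun x => ![x 0, -x 2, x 1]) (fun y => im y.imI (-y.imK) y.imJ)
        (fun x hx => ⟨hx.1, (dvd_neg).2 hx.2.2, hx.2.1⟩)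
        (fun x => by
          rw [vl3, vl3]
          simp only [Matrix.cons_val_zero, Matrix.cons_val_one, Matrix.cons_val]
          push_cast
          rw [hsym.v_fl1, hsym.v_sw])
        (fun x => by
          unfold imz
          simp)
        (im a b c) h
      simpa using this
    intro a b c
    by_cases h : Dc (im a b c)
    · exact h1 a b c h
    · by_cases h' : Dc (im a c (-b))
      · have := h2 a c (-b) h'
        rw [neg_neg] at this
        exact this.symm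
      · rw [φ_zero _ h, φ_zero _ h']
  -- eigenvalues
  have eig : ∀ (m : ℕ) (w : Fin m → Fin 3 → ℤ) (L : ℂ),
      (∀ x, ∑ i, vl P (act (w i) x) = L * vl P x) →
      ∃ l : kap V, ∀ x ∈ XX, ∑ i, g (act (w i) x) = l * g x := by
    intro m w L hL
    have hsum : ∀ x (hx : x ∈ XX), ((∑ i, (⟨_, hcV (act (w i) x) (act_XX hx)⟩ : V) : V) : ℂ) =
        L * (c * vl P x) := by
      intro x hx
      have h1 : ((∑ i, (⟨_, hcV (act (w i) x) (act_XX hx)⟩ : V) : V) : ℂ) =
          ∑ i, c * vl P (act (w i) x) := by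
        have h3 : ((∑ i, (⟨_, hcV (act (w i) x) (act_XX hx)⟩ : V) : V) : ℂ) =
          V.subtype (∑ i, (⟨_, hcV (act (w i) x) (act_XX hx)⟩ : V)) := rfl
        rw [h3, map_sum]
        rfl
      rw [h1, ← Finset.mul_sum, hL]
      ring
    obtain ⟨u, hu⟩ := unit_of_rs hv₀ne
    obtain ⟨Lv, hLv⟩ : ∃ Lv : V, (Lv : ℂ) = L := by
      refine ⟨(∑ i, (⟨_, hcV (act (w i) x₀) (act_XX hx₀)⟩ : V)) * ((u⁻¹ : Vˣ) : V), ?_⟩
      have h1 := hsum x₀ hx₀
      rw [← hv₀, ← hu] at h1
      have h2 : (((u : Vˣ) : V) : ℂ) * ((((u⁻¹ : Vˣ) : V)) : ℂ) = 1 :=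
        congrArg Subtype.val (Units.mul_inv u)
      show ((∑ i, (⟨_, hcV (act (w i) x₀) (act_XX hx₀)⟩ : V) : V) : ℂ) *
        ((((u⁻¹ : Vˣ) : V)) : ℂ) = L
      rw [h1, mul_assoc, h2, mul_one]
    refine ⟨rs V Lv, ?_⟩
    intro x hx
    have h1 : (∑ i, (⟨_, hcV (act (w i) x) (act_XX hx)⟩ : V) : V) = Lv * ⟨_, hcV x hx⟩ := by
      apply Subtype.ext
      rw [hsum x hx, ← hLv]
      rfl
    have h2 := congrArg (rs V) h1
    rw [map_sum, map_mul] at h2
    rw [g_pos x hx ⟨_, hcV x hx⟩ rfl, ← h2]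
    apply Finset.sum_congr rfl
    intro i _
    exact g_pos _ (act_XX hx) _ rfl
  have gact : ∀ v x, x ∈ XX → rho (kap V) (kp (imz N v)) φ (imz N x) = g (act v x) := by
    intro v x hx
    rw [rho_apply]
    obtain ⟨t, ht⟩ := kp_act (N := N) v x
    rw [ht, hgd.1, φ_im _ (act_XX hx)]
  obtain ⟨l5, hl5⟩ := eig 6 v5 L5 h5
  obtain ⟨l7, hl7⟩ := eig 8 v7 L7 h7
  have q5 : ∀ y, Dc y → x5 (rho (kap V)) φ y = (l5 - 6) * φ y := by
    intro y hy
    obtain ⟨x, hx, rfl⟩ := exists_imz hN1 hy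
    have h1 := hl5 x hx
    rw [Fin.sum_univ_six, ← gact _ x hx, ← gact _ x hx, ← gact _ x hx, ← gact _ x hx,
      ← gact _ x hx, ← gact _ x hx, ← φ_im x hx] at h1
    have e0 : imz N (v5 0) = im 1 0 0 := by simp [imz, v5]
    have e1 : imz N (v5 1) = im (-1) (-0) (-0) := by simp [imz, v5]
    have e2 : imz N (v5 2) = im 0 1 0 := by simp [imz, v5]
    have e3 : imz N (v5 3) = im (-0) (-1) (-0) := by simp [imz, v5]
    have e4 : imz N (v5 4) = im 0 0 1 := by simp [imz, v5]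
    have e5 : imz N (v5 5) = im (-0) (-0) (-1) := by simp [imz, v5]
    rw [e0, e1, e2, e3, e4, e5] at h1
    show ((rho (kap V) (kp (im 1 0 0)) φ (imz N x) - φ (imz N x)) +
      (rho (kap V) (kp (im (-1) (-0) (-0))) φ (imz N x) - φ (imz N x))) +
      ((rho (kap V) (kp (im 0 1 0)) φ (imz N x) - φ (imz N x)) +
      (rho (kap V) (kp (im (-0) (-1) (-0))) φ (imz N x) - φ (imz N x))) +
      ((rho (kap V) (kp (im 0 0 1)) φ (imz N x) - φ (imz N x)) +
      (rho (kap V) (kp (im (-0) (-0) (-1))) φ (imz N x) - φ (imz N x))) = _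
    linear_combination h1
  have q7 : ∀ y, Dc y → x7 (rho (kap V)) φ y = (l7 - 8) * φ y := by
    intro y hy
    obtain ⟨x, hx, rfl⟩ := exists_imz hN1 hy
    have h1 := hl7 x hx
    rw [Fin.sum_univ_eight, ← gact _ x hx, ← gact _ x hx, ← gact _ x hx, ← gact _ x hx,
      ← gact _ x hx, ← gact _ x hx, ← gact _ x hx, ← gact _ x hx, ← φ_im x hx] at h1
    have e0 : imz N (v7 0) = im 1 1 1 := by simp [imz, v7]
    have e1 : imz N (v7 1) = im (-1) (-1) (-1) := by simp [imz, v7]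
    have e2 : imz N (v7 2) = im 1 1 (-1) := by simp [imz, v7]
    have e3 : imz N (v7 3) = im (-1) (-1) (- -1) := by simp [imz, v7]
    have e4 : imz N (v7 4) = im 1 (-1) 1 := by simp [imz, v7]
    have e5 : imz N (v7 5) = im (-1) (- -1) (-1) := by simp [imz, v7]
    have e6 : imz N (v7 6) = im 1 (-1) (-1) := by simp [imz, v7]
    have e7 : imz N (v7 7) = im (-1) (- -1) (- -1) := by simp [imz, v7]
    rw [e0, e1, e2, e3, e4, e5, e6, e7] at h1
    show ((rho (kap V) (kp (im 1 1 1)) φ (imz N x) - φ (imz N x)) +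
      (rho (kap V) (kp (im (-1) (-1) (-1))) φ (imz N x) - φ (imz N x))) +
      ((rho (kap V) (kp (im 1 1 (-1))) φ (imz N x) - φ (imz N x)) +
      (rho (kap V) (kp (im (-1) (-1) (- -1))) φ (imz N x) - φ (imz N x))) +
      ((rho (kap V) (kp (im 1 (-1) 1)) φ (imz N x) - φ (imz N x)) +
      (rho (kap V) (kp (im (-1) (- -1) (-1))) φ (imz N x) - φ (imz N x))) +
      ((rho (kap V) (kp (im 1 (-1) (-1))) φ (imz N x) - φ (imz N x)) +
      (rho (kap V) (kp (im (-1) (- -1) (- -1))) φ (imz N x) - φ (imz N x))) = _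
    linear_combination h1
  have hconst : ∀ y, Dc y → φ y = φ (im 1 0 0) := fun y hy =>
    const_main (three_zero hV) hgd Fi Fj Fq q5 q7 hy
  refine ⟨c, φ (im 1 0 0), ?_, ?_⟩
  · rw [← hconst _ (Dc_imz hx₀), φ_im _ hx₀, g_pos _ hx₀ _ hv₀]
    exact hv₀ne
  · intro x hx
    refine ⟨⟨_, hcV x hx⟩, rfl, ?_⟩
    rw [← g_pos x hx _ rfl, ← φ_im x hx]
    exact hconst _ (Dc_imz hx)

end Pool.Agent.Helper725_HQ
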