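import Pool.Agent.Helper725_HQ.AMono

/-! The operators of conjugation on functions on the quaternions modulo a power of three. -/

set_option autoImplicit false
set_option linter.unusedVariables false

namespace Pool.Agent.Helper725_HQ

open Quaternion

/-- functions on the quaternions modulo a power of three -/
abbrev Fn (N : ℕ) (κ : Type) : Type := Hn N → κ

section
variable {N : ℕ}

instance : Finite (Hn N) := Finite.of_equiv _ (Quaternion.equivProd _).symm

/-- the pro-three subgroup -/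
def K1 (N : ℕ) : Subgroup (Hn N)ˣ where
  carrier := {u | ∃ η : Hn N, (u : Hn N) = 1 + (3 : Zn N) • η}
  one_mem' := ⟨0, by simp⟩
  mul_mem' := by
    rintro u v ⟨η, hu⟩ ⟨η', hv⟩
    refine ⟨η + η' + (3 : Zn N) • (η * η'), ?_⟩
    rw [Units.val_mul, hu, hv]
    simp only [smul_mul_assoc, mul_smul_comm, mul_add, add_mul, mul_one, one_mul,
      smul_add, smul_smul]
    module
  inv_mem' := by
    rintro u ⟨η, hu⟩
    refine ⟨-(((u⁻¹ : (Hn N)ˣ) : Hn N) * η), ?_⟩
    have h1 : ((u⁻¹ : (Hn N)ˣ) : Hn N) * (u : Hn N) = 1 := Units.inv_mul u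
    rw [hu, mul_add, mul_one, mul_smul_comm] at h1
    rw [smul_neg, ← h1]
    abel

theorem K1_pow {u : (Hn N)ˣ} (h : u ∈ K1 N) (n : ℕ) : ∃ η : Hn N, ((u ^ 3 ^ n : (Hn N)ˣ) : Hn N) =
    1 + (3 : Zn N) ^ (n + 1) • η := by
  induction n with
  | zero =>
    obtain ⟨η, hη⟩ := h
    exact ⟨η, by rw [pow_zero, pow_one, hη, zero_add, pow_one]⟩
  | succ n ih =>
    obtain ⟨η, hη⟩ := ih
    refine ⟨η + (3 : Zn N) ^ (n + 1) • (η * η) + ((3 : Zn N) ^ (2 * n + 1)) • (η * η * η), ?_⟩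
    have e : u ^ 3 ^ (n + 1) = (u ^ 3 ^ n) ^ 3 := by rw [← pow_mul, pow_succ]
    rw [e, Units.val_pow_eq_pow_val, hη, pow_three]
    simp only [mul_add, add_mul, mul_one, one_mul, smul_mul_assoc, mul_smul_comm, smul_add,
      smul_smul, ← mul_assoc]
    have e1 : (3 : Zn N) ^ (n + 1) * (3 : Zn N) ^ (n + 1) * (3 : Zn N) ^ (n + 1) =
        (3 : Zn N) ^ (n + 1 + 1) * (3 : Zn N) ^ (2 * n + 1) := by ring
    rw [e1]
    module

theorem K1_pGroup : IsPGroup 3 (K1 N) := by
  intro g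
  obtain ⟨η, hη⟩ := K1_pow g.2 N
  refine ⟨N, ?_⟩
  apply Subtype.ext
  apply Units.ext
  show (((g : (Hn N)ˣ) ^ 3 ^ N : (Hn N)ˣ) : Hn N) = 1
  rw [hη, three_pow_zero (by omega), zero_smul, add_zero]

/-- the action on functions with values in an additive group -/
def rho0 (N : ℕ) : K1 N →* AddMonoid.End (Hn N → ZMod 3) where
  toFun u := {
    toFun := fun φ x => φ ((((u : (Hn N)ˣ)⁻¹ : (Hn N)ˣ) : Hn N) * x * ((u : (Hn N)ˣ) : Hn N))
    map_zero' := rfl
    map_add' := fun φ ψ => rfl }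
  map_one' := by
    apply AddMonoidHom.ext
    intro φ
    funext x
    show φ (((1⁻¹ : (Hn N)ˣ) : Hn N) * x * ((1 : (Hn N)ˣ) : Hn N)) = φ x
    rw [inv_one, Units.val_one, one_mul, mul_one]
  map_mul' u v := by
    apply AddMonoidHom.ext
    intro φ
    funext x
    show φ (((((u : (Hn N)ˣ) * v)⁻¹ : (Hn N)ˣ) : Hn N) * x * (((u : (Hn N)ˣ) * v : (Hn N)ˣ) : Hn N)) =
      φ (((((v : (Hn N)ˣ))⁻¹ : (Hn N)ˣ) : Hn N) * (((((u : (Hn N)ˣ))⁻¹ : (Hn N)ˣ) : Hn N) * x *
        ((u : (Hn N)ˣ) : Hn N)) * ((v : (Hn N)ˣ) : Hn N))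
    rw [mul_inv_rev, Units.val_mul, Units.val_mul]
    congr 1
    noncomm_ring

end

section
variable {N : ℕ} {κ : Type} [Field κ]

/-- conjugation -/
def rho (κ : Type) [Field κ] : (Hn N)ˣ →* Module.End κ (Fn N κ) where
  toFun u := {
    toFun := fun φ x => φ (((u⁻¹ : (Hn N)ˣ) : Hn N) * x * (u : Hn N))
    map_add' := fun φ ψ => rfl
    map_smul' := fun c φ => rfl }
  map_one' := by
    apply LinearMap.ext
    intro φ
    funext x
    show φ (((1⁻¹ : (Hn N)ˣ) : Hn N) * x * ((1 : (Hn N)ˣ) : Hn N)) = φ x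
    rw [inv_one, Units.val_one, one_mul, mul_one]
  map_mul' u v := by
    apply LinearMap.ext
    intro φ
    funext x
    show φ ((((u * v)⁻¹ : (Hn N)ˣ) : Hn N) * x * ((u * v : (Hn N)ˣ) : Hn N)) =
      φ (((v⁻¹ : (Hn N)ˣ) : Hn N) * (((u⁻¹ : (Hn N)ˣ) : Hn N) * x * (u : Hn N)) * (v : Hn N))
    rw [mul_inv_rev, Units.val_mul, Units.val_mul]
    congr 1
    noncomm_ring

theorem rho_apply (u : (Hn N)ˣ) (φ : Fn N κ) (x : Hn N) : rho κ u φ x =
    φ (((u⁻¹ : (Hn N)ˣ) : Hn N) * x * (u : Hn N)) := rfl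

theorem rho_Sc : Sc (N := N) (rho κ) := by
  intro u s h
  apply LinearMap.ext
  intro φ
  funext x
  rw [rho_apply]
  have h1 : ((u⁻¹ : (Hn N)ˣ) : Hn N) = ((s⁻¹ : (Zn N)ˣ) : Zn N) • 1 := by
    apply Units.inv_eq_of_mul_eq_one_right
    rw [h, smul_mul_assoc, mul_smul_comm, smul_smul, Units.mul_inv, one_mul, one_smul]
  rw [h1, h, smul_mul_assoc, smul_mul_assoc, mul_smul_comm, smul_smul, Units.inv_mul, one_smul,
    one_mul, mul_one]
  rfl

/-- nilpotency of the augmentation ideal -/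
theorem Ia_nil (h3 : (3 : κ) = 0) : ∃ D : ℕ, ∀ T ∈ Ia κ (rho (N := N) κ) ^ D, T = 0 := by
  classical
  have : CharP κ 3 := (CharP.charP_iff_prime_eq_zero (by norm_num)).2 (by exact_mod_cast h3)
  have : Finite (Hn N)ˣ := inferInstance
  have : Finite (Hn N → ZMod 3) := inferInstance
  obtain ⟨D, hD⟩ := nil_end (K1_pGroup (N := N)) _ (Hn N → ZMod 3) (by
    intro a
    funext x
    show 3 • a x = 0
    rw [nsmul_eq_mul]
    have : ((3 : ℕ) : ZMod 3) = 0 := by decide
    rw [this, zero_mul]) le_rfl (rho0 N)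
  refine ⟨D, ?_⟩
  -- transfer to functions with values in the field
  have tr : ∀ (L : List (K1 N)) (f : Hn N → ZMod 3),
      (L.map (fun g : K1 N => rho κ (g : (Hn N)ˣ) - 1)).prod (fun x => ZMod.castHom (dvd_refl 3) κ (f x)) =
      fun x => ZMod.castHom (dvd_refl 3) κ ((L.map (fun g => rho0 N g - 1)).prod f x) := by
    intro L
    induction L with
    | nil => intro f; rfl
    | cons g L ih =>
      intro f
      rw [List.map_cons, List.prod_cons, List.map_cons, List.prod_cons]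
      show (rho κ (g : (Hn N)ˣ) - 1) ((L.map (fun g : K1 N => rho κ (g : (Hn N)ˣ) - 1)).prod
        (fun x => ZMod.castHom (dvd_refl 3) κ (f x))) = _
      rw [ih]
      funext x
      show _ - _ = ZMod.castHom (dvd_refl 3) κ (_ - _)
      rw [map_sub]
      rfl
  have z1 : ∀ L : List (K1 N), L.length = D →
      (L.map (fun g : K1 N => rho κ (g : (Hn N)ˣ) - 1)).prod = 0 := by
    intro L hL
    apply LinearMap.pi_ext
    intro x a
    have e : (Pi.single x a : Fn N κ) = a • (fun y => ZMod.castHom (dvd_refl 3) κ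
        ((Pi.single x 1 : Hn N → ZMod 3) y)) := by
      funext y
      show (Pi.single x a : Fn N κ) y = a * ZMod.castHom (dvd_refl 3) κ
        ((Pi.single x 1 : Hn N → ZMod 3) y)
      by_cases hxy : y = x
      · subst hxy
        rw [Pi.single_eq_same, Pi.single_eq_same, map_one, mul_one]
      · rw [Pi.single_eq_of_ne hxy, Pi.single_eq_of_ne hxy, map_zero, mul_zero]
    rw [e, map_smul, tr, hD L hL]
    funext y
    show a • ZMod.castHom (dvd_refl 3) κ (0 : ZMod 3) = 0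
    rw [map_zero, smul_zero]
  intro T hT
  unfold Ia at hT
  rw [Submodule.span_pow] at hT
  induction hT using Submodule.span_induction with
  | mem x hx =>
    rw [Set.mem_pow] at hx
    obtain ⟨f, rfl⟩ := hx
    have hf : ∀ i : Fin D, ∃ g : K1 N, ((f i : _) : Module.End κ (Fn N κ)) =
        rho κ (g : (Hn N)ˣ) - 1 := by
      intro i
      obtain ⟨g, hg, hT⟩ := (f i).2
      obtain ⟨s, η, hg'⟩ := hg
      refine ⟨⟨kp η, ⟨η, kap_val η⟩⟩, ?_⟩
      rw [hT]
      congr 1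
      have h1 : rho κ (g * (kp η)⁻¹) = 1 := by
        apply rho_Sc _ s
        rw [Units.val_mul, hg', pow_one, ← kap_val, smul_mul_assoc, Units.mul_inv]
      rw [map_mul] at h1
      show rho κ g = rho κ (kp η)
      calc rho κ g = rho κ g * (rho κ (kp η)⁻¹ * rho κ (kp η)) := by
            rw [← map_mul (rho κ) (kp η)⁻¹, inv_mul_cancel, map_one, mul_one]
        _ = (rho κ g * rho κ (kp η)⁻¹) * rho κ (kp η) := by rw [mul_assoc]
        _ = _ := by rw [h1, one_mul]
    choose g hg using hf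
    have h1 := z1 (List.ofFn g) (List.length_ofFn)
    rw [List.map_ofFn] at h1
    rw [← h1]
    congr 2
    funext i
    rw [hg i]
    rfl
  | zero => rfl
  | add x y _ _ h1 h2 => rw [h1, h2, add_zero]
  | smul r x _ h1 => rw [h1, smul_zero]

end

end Pool.Agent.Helper725_HQ
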