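import Pool.Agent.Helper725_HQ.Defs

/-! Algebraic modular forms of level one on the Hamilton quaternions. -/

set_option autoImplicit false

namespace Pool.Agent.Helper725_HQ

open Quaternion MvPolynomial

/-- A form of level one and degree `k` on the right ideals of the Hurwitz order, invariant under
the normalizer of the local order at two. Its values are harmonic homogeneous polynomials of
degree `k` on the space of pure quaternions. -/
structure IsForm1 (k : ℕ) (G : AddSubgroup ℍ[ℚ] → MvPolynomial (Fin 3) ℂ) : Prop where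
  supp : ∀ I, ¬ IsRI I → G I = 0
  hom : ∀ I, (G I).IsHomogeneous k
  harm : ∀ I, ∑ i, pderiv i (pderiv i (G I)) = 0
  left : ∀ α : ℍ[ℚ], α ≠ 0 → ∀ I, IsRI I → ∀ x, ev (G (lm α I)) (α * x * α⁻¹) = ev (G I) x
  two : ∀ I, IsRI I → G (rm (mk4 1 1 0 0) I) = G I

/-- The Hecke operator at a prime `p ≠ 2` in level one: the sum over the right ideals `J` with
`p I ⊂ J ⊂ I`, both inclusions being strict. -/
noncomputable def hecke1 (p : ℕ) (G : AddSubgroup ℍ[ℚ] → MvPolynomial (Fin 3) ℂ)
    (I : AddSubgroup ℍ[ℚ]) : MvPolynomial (Fin 3) ℂ :=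
  ∑ᶠ J ∈ {J : AddSubgroup ℍ[ℚ] | IsRI J ∧ lm p I < J ∧ J < I}, G J

end Pool.Agent.Helper725_HQ
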