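import Pool.Agent.Helper725_HQ.LEx

/-! Existence of eigenforms of level one and slope one: the conclusion. -/

set_option autoImplicit false
set_option linter.unusedSimpArgs false
set_option linter.unnecessarySeqFocus false

namespace Pool.Agent.Helper725_HQ

open Quaternion MvPolynomial

/-- the value at the Hurwitz order -/
noncomputable def vO (k : ℕ) : ↥(W1 k) →ₗ[ℂ] ↥(homogeneousSubmodule (Fin 3) ℂ k) where
  toFun G := ⟨G.1 Oo, (mem_homogeneousSubmodule _ _).2 (G.2.hom Oo)⟩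
  map_add' _ _ := rfl
  map_smul' _ _ := rfl

theorem W1_fin (k : ℕ) : FiniteDimensional ℂ ↥(W1 k) := by
  have h1 : FiniteDimensional ℂ ↥(homogeneousSubmodule (Fin 3) ℂ k) :=
    Module.Finite.iff_fg.2 (homogeneousSubmodule_fg (Fin 3) ℂ k)
  apply FiniteDimensional.of_injective (vO k)
  intro F G h
  have h2 : F.1 Oo = G.1 Oo := congrArg Subtype.val h
  have h3 : F - G = 0 := by
    apply Subtype.ext
    apply form1_ext (k := k) (F - G).2
    show F.1 Oo - G.1 Oo = 0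
    rw [h2, sub_self]
  exact sub_eq_zero.1 h3

/-- the normalized Hecke operator at three -/
noncomputable def TW (k : ℕ) : ↥(W1 k) →ₗ[ℂ] ↥(W1 k) :=
  ((3 : ℂ) ^ k / 3) • (TL1 3 p3).restrict (fun _ h => TL1_form p3 h)

theorem TW_apply {k : ℕ} (G : ↥(W1 k)) : (TW k G).1 = ((3 : ℂ) ^ k / 3) • TL1 3 p3 G.1 := rfl

section
variable {V : ValuationSubring ℂ}

theorem inL_T {k : ℕ} (hk : Even k) (hk0 : k ≠ 0) {G : ↥(W1 k)} {f : MvPolynomial (Fin 3) V}
    (hf : map V.subtype f = G.1 Oo) {c : V} (hc : eval ![1, 1, 1] f = 3 * c) :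
    ∃ f₁ : MvPolynomial (Fin 3) V, map V.subtype f₁ = (TW k G).1 Oo ∧ ∃ h : V,
      eval ![1, 1, 1] f₁ = 3 * (3 ^ (k - 1) * c + c - 2 * k * c + 3 * h) := by
  have hsym : Sym f := Sym.of_map sub_inj (by rw [hf]; exact sym_of_form hk G.2)
  have hhom : f.IsHomogeneous k := IsHomogeneous.of_map sub_inj (by rw [hf]; exact G.2.hom Oo)
  obtain ⟨g, hg⟩ := TT_expand hhom (Nat.one_le_iff_ne_zero.2 hk0) hsym
  obtain ⟨f₁, hf₁⟩ : ∃ f₁ : MvPolynomial (Fin 3) V,
      f₁ = C (2 ^ (k - 1) * (2 - (k : V)) * c) * SS k + 3 * g := ⟨_, rfl⟩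
  have hT : TT f = 3 * f₁ := by
    rw [hg, hc, hf₁]
    have e10 : (2 ^ (k - 1) * (2 - (k : V)) * (3 * c)) = 3 * (2 ^ (k - 1) * (2 - (k : V)) * c) := by
      ring
    have e3 : (C (3 : V) : MvPolynomial (Fin 3) V) = 3 := rfl
    rw [e10, C_mul (a := (3 : V)), e3]
    ring
  refine ⟨f₁, ?_, ?_⟩
  · rw [TW_apply, Pi.smul_apply, smul_eq_C_mul]
    have h1 := T3_TT G.2
    rw [← hf, ← TT_map, hT, map_mul, map_ofNat] at h1
    have h3 : (C (3 : ℂ) : MvPolynomial (Fin 3) ℂ) ≠ 0 := by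
      rw [Ne, C_eq_zero]; norm_num
    apply mul_left_cancel₀ h3
    rw [← mul_assoc, ← C_mul]
    have e : (3 : ℂ) * (3 ^ k / 3) = 3 ^ k := by field_simp
    rw [e, h1]
    rfl
  · obtain ⟨h, hh⟩ := eval_TT hhom hsym
    refine ⟨h, ?_⟩
    rw [hT, map_mul, map_ofNat] at hh
    have hmu : eval ![1, 1, 1] (pderiv 0 f) = (k : V) * c := by
      have h1 := euler_eval hhom ![1, 1, 1]
      rw [Fin.sum_univ_three, hsym.grad 1 1, hsym.grad 1 2, hc] at h1
      apply mul_left_cancel₀ (three_ne (V := V))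
      have e3 : (3 : V) * ((k : V) * c) = (k : V) * (3 * c) := by ring
      rw [e3, ← h1]
      simp
      ring
    apply mul_left_cancel₀ (three_ne (V := V))
    rw [hh, hmu, hc]
    have e4 : (3 : V) ^ k = 3 ^ (k - 1) * 3 := by
      rw [← pow_succ, Nat.sub_add_cancel (Nat.one_le_iff_ne_zero.2 hk0)]
    rw [e4]
    ring

theorem exists_slope {k : ℕ} (hV : Thr V) (hk : Even k) (hk0 : k ≠ 0) (hk3 : k % 3 ≠ 2) :
    ∃ w : V, rs V w ≠ 0 ∧ ∃ G : Fun1, Form1 k G ∧ G ≠ 0 ∧ ∃ lam : ℂ, TL1 3 p3 G = lam • G ∧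
      (3 : ℂ) ^ k * lam = 3 * (w : ℂ) := by
  have hfd := W1_fin k
  have h3V : V.valuation 3 < 1 := val_of_thr hV
  have hk1 : 1 ≤ k - 1 := by
    obtain ⟨m, hm⟩ := hk
    omega
  obtain ⟨μ, hμ, w, hw0, hw⟩ := unit_eig (TW k) V {G | InL V (G.1 Oo)} (by
      rintro G ⟨f, hf, c, hc⟩
      obtain ⟨f₁, h1, h, h2⟩ := inL_T hk hk0 hf hc
      exact ⟨f₁, h1, _, h2⟩) (by
      intro G hG
      have hne : G.1 Oo ≠ 0 := by
        intro h
        exact hG (Subtype.ext (form1_ext G.2 h))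
      obtain ⟨c, hc, h1, h2⟩ := InL_scale (V := V) hne
      exact ⟨c, hc, h1, h2⟩)
    ((1 / 3 : ℂ) • ((aeval ![1, 1, 1] : MvPolynomial (Fin 3) ℂ →ₐ[ℂ] ℂ).toLinearMap ∘ₗ
      (homogeneousSubmodule (Fin 3) ℂ k).subtype ∘ₗ vO k))
    ((((1 - 2 * k : ℤ) : V)) : ℂ) (by
      apply val_one
      rw [map_intCast]
      exact rs_int_ne hV (by omega)) (by
      rintro G ⟨f, hf, c, hc⟩
      obtain ⟨f₁, h1, h, h2⟩ := inL_T hk hk0 hf hc
      have e1 : ∀ H : ↥(W1 k), ((1 / 3 : ℂ) • ((aeval ![1, 1, 1] :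
          MvPolynomial (Fin 3) ℂ →ₐ[ℂ] ℂ).toLinearMap ∘ₗ
          (homogeneousSubmodule (Fin 3) ℂ k).subtype ∘ₗ vO k)) H =
          (1 / 3) * eval ![1, 1, 1] (H.1 Oo) := fun _ => rfl
      rw [e1, e1, ← h1, ← hf, eval_sub, eval_sub, h2, hc]
      have e2 : (1 / 3 : ℂ) * ((3 * (3 ^ (k - 1) * c + c - 2 * k * c + 3 * h) : V) : ℂ) -
          (((1 - 2 * k : ℤ) : V) : ℂ) * ((1 / 3) * ((3 * c : V) : ℂ)) =
          ((3 * (3 ^ (k - 2) * c + h) : V) : ℂ) := by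
        have e3 : (3 : ℂ) ^ (k - 1) = 3 ^ (k - 2) * 3 := by
          rw [← pow_succ]; congr 1; omega
        push_cast
        have e4 : ((3 : V) : ℂ) = 3 := rfl
        have e6 : ((2 : V) : ℂ) = 2 := rfl
        rw [e4, e6, e3]
        ring
      rw [e2]
      apply val_lt
      rw [map_mul, three_zero' hV, zero_mul])
    ⟨GS k, GS_form k⟩ (by
      refine ⟨2 * SS k, ?_, 2 * (3 ^ (k - 1) + 1), ?_⟩
      · show _ = GS k Oo
        rw [GS_Oo hk, map_mul, SS_map, map_ofNat]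
      · rw [map_mul, eval_SS_one, map_ofNat]
        have e4 : (3 : V) ^ k = 3 ^ (k - 1) * 3 := by
          rw [← pow_succ, Nat.sub_add_cancel (Nat.one_le_iff_ne_zero.2 hk0)]
        rw [e4]
        ring) (by
      show V.valuation ((1 / 3 : ℂ) * eval ![1, 1, 1] (GS k Oo)) = 1
      have e1 : (1 / 3 : ℂ) * eval ![1, 1, 1] (GS k Oo) = ((2 * (3 ^ (k - 1) + 1) : V) : ℂ) := by
        rw [GS_Oo hk, map_mul, eval_SS_one, map_ofNat]
        have e4 : (3 : ℂ) ^ k = 3 ^ (k - 1) * 3 := by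
          rw [← pow_succ, Nat.sub_add_cancel (Nat.one_le_iff_ne_zero.2 hk0)]
        rw [e4]
        push_cast
        have e4 : ((3 : V) : ℂ) = 3 := rfl
        have e6 : ((2 : V) : ℂ) = 2 := rfl
        rw [e4, e6]
        ring
      rw [e1]
      apply val_one
      rw [map_mul, map_add, map_pow, three_zero' hV, zero_pow (by omega), zero_add, map_one,
        mul_one]
      have := rs_int_ne hV (n := 2) (by norm_num)
      rw [map_ofNat]
      exact_mod_cast this)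
  have hμV : μ ∈ V := (V.valuation_le_one_iff μ).1 hμ.le
  refine ⟨⟨μ, hμV⟩, ?_, w.1, w.2, ?_, (3 / 3 ^ k) * μ, ?_, ?_⟩
  · intro h
    have := val_lt h
    exact absurd hμ this.ne
  · intro h
    exact hw0 (Subtype.ext h)
  · have h1 : ((3 : ℂ) ^ k / 3) • TL1 3 p3 w.1 = μ • w.1 := congrArg Subtype.val hw
    have h2 : (3 : ℂ) / 3 ^ k * ((3 : ℂ) ^ k / 3) = 1 := by field_simp
    rw [mul_smul, ← h1, ← mul_smul, h2, one_smul]
  · show (3 : ℂ) ^ k * (3 / 3 ^ k * μ) = 3 * μ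
    field_simp

end

/-- the Laplacian of a form -/
noncomputable def LG (G : Fun1) : Fun1 := fun I => lap (G I)

theorem LG_form {k : ℕ} {G : Fun1} (hG : Form1 k G) : Form1 (k - 2) (LG G) := by
  refine ⟨fun I h => ?_, fun I => ?_, fun α hα I => ?_, fun I => ?_⟩
  · unfold LG
    rw [hG.supp I h, lap_zero]
  · unfold LG lap
    apply IsHomogeneous.sum
    intro i _
    have h1 := ((hG.hom I).pderiv (i := i)).pderiv (i := i)
    exact h1
  · unfold LG
    rw [hG.left α hα, lap_rC hα]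
  · unfold LG
    rw [hG.two]

theorem LG_TL {G : Fun1} : TL1 3 p3 (LG G) = LG (TL1 3 p3 G) := by
  funext I
  by_cases h : IsRI I
  · unfold LG
    rw [TL1_apply p3 h, TL1_apply p3 h, finsum_mem_eq_finite_toFinset_sum _ (Sp_finite p3 h),
      finsum_mem_eq_finite_toFinset_sum _ (Sp_finite p3 h), lap_sum]
  · unfold LG
    rw [TL1_apply' p3 h, TL1_apply' p3 h, lap_zero]

/-- eigenforms of slope one are harmonic -/
theorem harm_of_slope {V : ValuationSubring ℂ} (hV : Thr V) {k : ℕ} (hk : 2 ≤ k) {G : Fun1}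
    (hG : Form1 k G) {lam : ℂ} (he : TL1 3 p3 G = lam • G) {w : V} (hw : rs V w ≠ 0)
    (hlw : (3 : ℂ) ^ k * lam = 3 * (w : ℂ)) : LG G = 0 := by
  by_contra hne
  have hL := LG_form hG
  have he' : TL1 3 p3 (LG G) = lam • LG G := by
    rw [LG_TL, he]
    funext I
    unfold LG
    rw [Pi.smul_apply, Pi.smul_apply, smul_eq_C_mul, smul_eq_C_mul, lap_C_mul]
  have hP : LG G Oo ≠ 0 := fun h => hne (form1_ext hL h)
  obtain ⟨c, hc, f, hf, hf0⟩ := scale_poly (V := V) hP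
  have hL' : Form1 (k - 2) (c • LG G) := (W1 (k - 2)).smul_mem c hL
  have hfF : map V.subtype f = (c • LG G) Oo := by
    rw [hf, Pi.smul_apply, smul_eq_C_mul]
  have hlw2 : 3 * ((3 : ℂ) ^ (k - 2) * lam) = (w : ℂ) := by
    have e : (3 : ℂ) ^ k = 3 ^ (k - 2) * 9 := by
      have : (3 : ℂ) ^ k = 3 ^ (k - 2) * 3 ^ 2 := by
        rw [← pow_add]; congr 1; omega
      rw [this]; norm_num
    rw [e] at hlw
    linear_combination (1 / 3 : ℂ) * hlw
  have hTT : C (w : V) * f = 3 * TT f := by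
    apply map_injective V.subtype sub_inj
    rw [map_mul, map_mul, map_C, TT_map, hfF, ← T3_TT hL', map_smul, he', map_ofNat]
    have e1 : V.subtype w = 3 * (3 ^ (k - 2) * lam) := hlw2.symm
    rw [e1]
    simp only [Pi.smul_apply, smul_eq_C_mul, C_mul]
    have e3 : (C (3 : ℂ) : MvPolynomial (Fin 3) ℂ) = 3 := rfl
    rw [e3]
    ring
  have h1 := congrArg (map (rs V)) hTT
  have e3' : map (rs V) (3 : MvPolynomial (Fin 3) V) = 0 := by
    rw [map_ofNat]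
    have : (3 : MvPolynomial (Fin 3) (kap V)) = C (3 : kap V) := rfl
    rw [this, three_zero hV, C_0]
  rw [map_mul, map_mul, e3', zero_mul, map_C] at h1
  rcases mul_eq_zero.1 h1 with h2 | h2
  · rw [C_eq_zero] at h2
    exact hw h2
  · exact hf0 h2

/-- existence of eigenforms of slope one for all Hecke operators -/
theorem exists_eig {k : ℕ} (hk : Even k) (hk0 : k ≠ 0) (hk3 : k % 3 ≠ 2) :
    ∃ V : ValuationSubring ℂ, Thr V ∧ ∃ w : V, rs V w ≠ 0 ∧ ∃ G : Fun1, Form1 k G ∧ G ≠ 0 ∧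
      (∀ I, lap (G I) = 0) ∧
      (∀ (p : ℕ) (hp : p.Prime), p ≠ 2 → ∃ μ : ℂ, TL1 p hp G = μ • G) ∧
      ∃ lam : ℂ, TL1 3 p3 G = lam • G ∧ (3 : ℂ) ^ k * lam = 3 * (w : ℂ) := by
  obtain ⟨V, hV⟩ := exists_V
  obtain ⟨w, hw, G0, hG0, hG00, lam, he, hlw⟩ := exists_slope hV hk hk0 hk3
  refine ⟨V, hV, w, hw, ?_⟩
  set U : Submodule ℂ Fun1 := W1 k ⊓ LinearMap.ker (TL1 3 p3 - lam • LinearMap.id) with hU
  have hmem : ∀ G, G ∈ U ↔ Form1 k G ∧ TL1 3 p3 G = lam • G := by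
    intro G
    rw [hU, Submodule.mem_inf, mem_W1, LinearMap.mem_ker, LinearMap.sub_apply,
      LinearMap.smul_apply, LinearMap.id_apply, sub_eq_zero]
  have hfd := W1_fin k
  have hUfd : FiniteDimensional ℂ U := Submodule.finiteDimensional_of_le (inf_le_left)
  have hU0 : U ≠ ⊥ := by
    rw [Submodule.ne_bot_iff]
    exact ⟨G0, (hmem G0).2 ⟨hG0, he⟩, hG00⟩
  obtain ⟨G, hG, hG0', hall⟩ := common_eig (fun p : {p : ℕ // p.Prime} => TL1 p.1 p.2) _ U hUfd rfl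
    hU0 (by
      rintro ⟨p, hp⟩ u hu
      rw [hmem] at hu ⊢
      refine ⟨TL1_form hp hu.1, ?_⟩
      by_cases h : p = 3
      · subst h
        show TL1 3 p3 (TL1 3 p3 u) = lam • TL1 3 p3 u
        rw [hu.2, map_smul, hu.2]
      · rw [TL1_comm p3 hp (Ne.symm h), hu.2, map_smul]) (by
      rintro ⟨p, hp⟩ ⟨r, hr⟩ u hu
      by_cases h : p = r
      · subst h; rfl
      · exact TL1_comm hp hr h u)
  obtain ⟨h1, h2⟩ := (hmem G).1 hG
  have hk2 : 2 ≤ k := by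
    obtain ⟨m, hm⟩ := hk
    omega
  refine ⟨G, h1, hG0', ?_, fun p hp _ => hall ⟨p, hp⟩, lam, h2, hlw⟩
  intro I
  have := harm_of_slope hV hk2 h1 h2 hw hlw
  exact congrFun this I

end Pool.Agent.Helper725_HQ
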