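import Pool.Agent.Helper725_HQ.LPer
import Pool.Agent.Helper725_HQ.LDefs
import Pool.Agent.Helper725_HQ.LEx2

/-! Simultaneous nonvanishing of the periods of all eigenforms of level one and slope one. -/

set_option autoImplicit false
set_option linter.unusedSimpArgs false
set_option linter.unnecessarySeqFocus false

namespace Pool.Agent.Helper725_HQ

open Quaternion MvPolynomial NumberField
open scoped nonZeroDivisors

/-- a Hecke eigenform of degree `k` and level one which has slope one at some place above three -/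
structure SlopeOne (k : ℕ) (G : AddSubgroup ℍ[ℚ] → MvPolynomial (Fin 3) ℂ) : Prop where
  form : IsForm1 k G
  ne_zero : ∃ I, G I ≠ 0
  eigen : ∀ p : ℕ, p.Prime → p ≠ 2 → ∃ lam : ℂ, ∀ I, IsRI I → hecke1 p G I = lam • G I
  slope : ∃ V : ValuationSubring ℂ, V.valuation 3 < 1 ∧ ∃ lam : ℂ,
    (∀ I, IsRI I → hecke1 3 G I = lam • G I) ∧ V.valuation (3 ^ k * lam) = V.valuation 3

theorem form1_of_isForm1 {k : ℕ} {G : AddSubgroup ℍ[ℚ] → MvPolynomial (Fin 3) ℂ}
    (h : IsForm1 k G) : Form1 k G := by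
  refine ⟨h.supp, h.hom, fun α hα I => ?_, fun I => ?_⟩
  · by_cases hI : IsRI I
    · apply eq_of_ev
      intro x
      rw [ev_lsub hα]
      have h1 := h.left α hα I hI (α⁻¹ * x * α)
      have h2 : α * (α⁻¹ * x * α) * α⁻¹ = x := by
        rw [← mul_assoc, ← mul_assoc, mul_inv_cancel₀ hα, one_mul, mul_assoc, mul_inv_cancel₀ hα,
          mul_one]
      rw [h2] at h1
      exact h1
    · rw [h.supp I hI, h.supp _ (fun h' => hI ((lm_isRI_iff hα).1 h')), map_zero]
  · by_cases hI : IsRI I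
    · exact h.two I hI
    · rw [h.supp I hI, h.supp _ (fun h' => hI (rm_isRI_iff.1 h'))]

theorem TL1_of_hecke1 {p : ℕ} (hp : p.Prime) {k : ℕ} {G : AddSubgroup ℍ[ℚ] → MvPolynomial (Fin 3) ℂ}
    (h : IsForm1 k G) {lam : ℂ} (he : ∀ I, IsRI I → hecke1 p G I = lam • G I) :
    TL1 p hp G = lam • G := by
  funext I
  by_cases hI : IsRI I
  · rw [TL1_apply hp hI]
    exact he I hI
  · rw [TL1_apply' hp hI, Pi.smul_apply, h.supp I hI, smul_zero]

theorem unit_of_val {V : ValuationSubring ℂ} {a : ℂ} (h : V.valuation a = 1) :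
    ∃ w : V, (w : ℂ) = a ∧ rs V w ≠ 0 := by
  refine ⟨⟨a, (V.valuation_le_one_iff a).1 h.le⟩, rfl, ?_⟩
  intro h1
  have := val_lt h1
  exact absurd h this.ne

theorem exists_slopeOne {k : ℕ} (hk : Even k) (hk0 : k ≠ 0) (hk3 : k % 3 ≠ 2) :
    ∃ G, SlopeOne k G := by
  obtain ⟨V, hV, w, hw, G, hG, hG0, hharm, hhecke, lam, he, hlw⟩ := exists_eig hk hk0 hk3
  have key : ∀ (p : ℕ) (hp : p.Prime) (μ : ℂ), TL1 p hp G = μ • G →
      ∀ I, IsRI I → hecke1 p G I = μ • G I := by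
    intro p hp μ hμ I hI
    have h1 := congrFun hμ I
    rw [TL1_apply hp hI] at h1
    exact h1
  refine ⟨G, ⟨hG.supp, hG.hom, hharm, ?_, fun I _ => hG.two I⟩, ?_, ?_, V, val_of_thr hV, lam,
    key 3 p3 lam he, ?_⟩
  · intro α hα I _ x
    rw [hG.left α hα, ev_lsub hα, ← mul_assoc, ← mul_assoc, inv_mul_cancel₀ hα, one_mul,
      mul_assoc, inv_mul_cancel₀ hα, mul_one]
  · by_contra h
    apply hG0
    funext I
    by_contra h2
    exact h ⟨I, h2⟩
  · intro p hp hp2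
    obtain ⟨μ, hμ⟩ := hhecke p hp hp2
    exact ⟨μ, key p hp μ hμ⟩
  · rw [hlw, map_mul, val_one hw, mul_one]

/-- simultaneous nonvanishing -/
theorem many1U (T : Finset ℕ) (hT : ∀ p ∈ T, p.Prime)
    (δ : ∀ (p : ℕ) [Fact p.Prime], ℚ_[p]) (hδ0 : ∀ (p : ℕ) [Fact p.Prime], δ p ≠ 0)
    (hδ2 : ¬ IsSquare (δ 2)) :
    ∃ c : ℝ, 0 < c ∧ ∃ x₀ : ℝ, ∀ x : ℝ, x₀ ≤ x → ∃ S : Finset (IntermediateField ℚ ℂ),
      c * x ≤ (S.card : ℝ) ∧ ∀ E ∈ S, ∃ _ : NumberField E, Module.finrank ℚ E = 2 ∧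
        |(discr E : ℝ)| < x ∧ (∀ p ∈ T, ∀ [Fact p.Prime], Loc p (δ p) E) ∧
        ∀ k : ℕ, Even k → k ≠ 0 → k % 3 ≠ 2 → (3 ∈ T → k % 3 = 0 ∨ ¬ IsSquare (3 * δ 3)) →
          ∀ G, SlopeOne k G → NonvanPer1 G E := by
  classical
  obtain ⟨δ₃, h30, h31, h32⟩ : ∃ δ₃ : ℚ_[3], δ₃ ≠ 0 ∧ (3 ∉ T → δ₃ = 1) ∧
      (3 ∈ T → δ₃ = δ 3) := by
    by_cases h : 3 ∈ T
    · exact ⟨δ 3, hδ0 3, fun h' => absurd h h', fun _ => rfl⟩
    · exact ⟨1, one_ne_zero, fun _ => rfl, fun h' => absurd h' h⟩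
  obtain ⟨c', hc', x₀, hx₀⟩ := Pool.Agent.Helper725_DH.fields_manyU (hδ0 2) hδ2 h30
    (T.filter (fun p => 5 ≤ p)) (fun p hp => ⟨hT p (Finset.mem_filter.1 hp).1,
      (Finset.mem_filter.1 hp).2⟩) δ (fun p _ _ => hδ0 p)
  refine ⟨c', hc', x₀, ?_⟩
  intro x hx
  obtain ⟨S, hS, hSd⟩ := hx₀ x hx
  refine ⟨S.image Ed, ?_, ?_⟩
  · rw [Finset.card_image_of_injOn]
    · exact hS
    · intro d hd d' hd' h
      obtain ⟨a1, a2, _⟩ := hSd d hd
      obtain ⟨b1, b2, _⟩ := hSd d' hd'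
      exact Ed_inj a1 a2 b1 b2 h
  · intro E hE
    obtain ⟨d, hd, rfl⟩ := Finset.mem_image.1 hE
    obtain ⟨a1, a3, a4, a5, a6, a7, a8⟩ := hSd d hd
    have hd0 : 0 < d := by omega
    have hns : ¬ IsSquare (-(d : ℚ)) := by
      rintro ⟨q, hq⟩
      exact Pool.Agent.Helper725_DH.IQ.not_sq hd0 q (by rw [hq]; ring)
    have h9 : ¬ 9 ∣ d := by
      intro h
      have := a1 3 (by norm_num; exact h)
      rw [Nat.isUnit_iff] at this
      omega
    refine ⟨inferInstance, Ed_rank hd0, ?_, ?_, ?_⟩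
    · rw [Ed_discr a1 a3]
      split_ifs at a4 ⊢ with h
      · push_cast
        rw [abs_neg, abs_of_nonneg (by positivity)]
        exact a4
      · push_cast
        rw [abs_neg, abs_of_nonneg (by positivity)]
        exact a4
    · intro p hp hpf
      refine ⟨-(d : ℚ), xd d, ?_, hns, ?_⟩
      · rw [xd_sq]; push_cast; rfl
      · push_cast
        by_cases h5 : 5 ≤ p
        · exact a7 p (Finset.mem_filter.2 ⟨hp, h5⟩)
        · have h6 := (hT p hp).two_le
          have h7 : p ≠ 4 := by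
            rintro rfl
            exact absurd (hT 4 hp) (by norm_num)
          have h8 : p = 2 ∨ p = 3 := by omega
          rcases h8 with rfl | rfl
          · exact a5
          · rw [h32 hp] at a6
            exact a6
    · intro k hk hk0 hk3 hδ3 G hG
      obtain ⟨V, hV3, lam, hlam, hval⟩ := hG.slope
      have hV : Thr V := thr_of_val hV3
      have h3v : V.valuation (3 : ℂ) ≠ 0 := (Valuation.ne_zero_iff _).2 (by norm_num)
      obtain ⟨w, hw, hw'⟩ : ∃ w : V, (w : ℂ) = 3 ^ k * lam / 3 ∧ rs V w ≠ 0 := by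
        apply unit_of_val
        rw [map_div₀, hval, div_self h3v]
      have hlw : (3 : ℂ) ^ k * lam = 3 * (w : ℂ) := by
        rw [hw]; ring
      have hF := form1_of_isForm1 hG.form
      have hF0 : G ≠ 0 := by
        rintro rfl
        obtain ⟨I, hI⟩ := hG.ne_zero
        exact hI rfl
      have he := TL1_of_hecke1 p3 hG.form hlam
      have hsq : k % 3 = 0 ∨ ¬ IsSquare (3 * δ₃) := by
        by_cases h : 3 ∈ T
        · rw [h32 h]; exact hδ3 h
        · right; rw [h31 h]; exact not_sq_three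
      have hgood : d % 3 ≠ 0 ∨ d % 9 = 3 ∨ (d % 9 = 6 ∧ k % 3 = 0) := by
        by_cases h3 : d % 3 = 0
        · right
          by_cases h6 : d % 9 = 6
          · right
            refine ⟨h6, ?_⟩
            rcases hsq with h | h
            · exact h
            · exfalso
              apply h
              have h5 := (sq_six h6).mul a6
              have hdne : (d : ℚ_[3]) ≠ 0 := by exact_mod_cast hd0.ne'
              have h7 : IsSquare (((d : ℚ_[3])⁻¹) ^ 2) := ⟨(d : ℚ_[3])⁻¹, by ring⟩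
              have h8 := h5.mul h7
              have e : -(d : ℚ_[3]) * 3 * (-(d : ℚ_[3]) * δ₃) * ((d : ℚ_[3])⁻¹) ^ 2 = 3 * δ₃ := by
                field_simp
              rw [e] at h8
              exact h8
          · left
            omega
        · left
          exact h3
      obtain ⟨c, hc, r, hr, H⟩ := slope_val hV hk hk0 hk3 hF hF0 he hw' hlw h9 hgood
      exact nonvan_one1 hV hF hr H a1 a3 (Ed_rank hd0) (xd_sq d)
        (a8 (Ed d) (Ed_rank hd0) ⟨xd d, xd_sq d⟩)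

end Pool.Agent.Helper725_HQ
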