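import Pool.Agent.Helper725_HQ.Emb
import Pool.Agent.Helper725_DH.Fields

/-! Many nonvanishing periods. -/

set_option autoImplicit false
set_option linter.unusedSimpArgs false
set_option linter.unnecessarySeqFocus false

namespace Pool.Agent.Helper725_HQ

open Quaternion MvPolynomial NumberField
open scoped nonZeroDivisors

/-- The toric period as a sum over the class group: `rep` chooses an integral ideal in every
class, and the form is evaluated at the pairs `(ι(𝔞) I, ι(𝔞) I')` and at the vector `ι(s)`. -/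
noncomputable def torp {K : Type} [Field K] [NumberField K]
    (F : AddSubgroup ℍ[ℚ] → AddSubgroup ℍ[ℚ] → MvPolynomial (Fin 3) ℂ) (ι : K →+* ℍ[ℚ])
    (rep : ClassGroup (𝓞 K) → (Ideal (𝓞 K))⁰) (I I' : AddSubgroup ℍ[ℚ]) (s : K) : ℂ :=
  ∑ c, ev (F (idl ι (rep c : Ideal (𝓞 K)) I) (idl ι (rep c : Ideal (𝓞 K)) I')) (ι s)

/-- Some toric period of `F` along `K` does not vanish. -/
def NonvanPer (F : AddSubgroup ℍ[ℚ] → AddSubgroup ℍ[ℚ] → MvPolynomial (Fin 3) ℂ)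
    (K : Type) [Field K] [NumberField K] : Prop :=
  ∃ (ι : K →+* ℍ[ℚ]) (I I' : AddSubgroup ℍ[ℚ]), IsPair 17 I I' ∧
    (∀ a : 𝓞 K, ∀ y ∈ I, ι (a : K) * y ∈ I) ∧ (∀ a : 𝓞 K, ∀ y ∈ I', ι (a : K) * y ∈ I') ∧
    ∃ s : K, s ≠ 0 ∧ (ι s).re = 0 ∧
    ∀ rep : ClassGroup (𝓞 K) → (Ideal (𝓞 K))⁰, (∀ c, ClassGroup.mk0 (rep c) = c) →
      torp F ι rep I I' s ≠ 0

/-- The completion of the quadratic field `K` at `p` is `ℚ_p(√δ)`. -/
def Loc (p : ℕ) [Fact p.Prime] (δ : ℚ_[p]) (K : Type) [Field K] [CharZero K] : Prop :=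
  ∃ (r : ℚ) (s : K), s ^ 2 = (r : K) ∧ ¬ IsSquare r ∧ IsSquare ((r : ℚ_[p]) * δ)

theorem card_unit {V : ValuationSubring ℂ} (hV : Thr V) {n : ℕ} (h : ¬ 3 ∣ n) :
    ((n : ℕ) : kap V) ≠ 0 := by
  intro h0
  have hc : IsCoprime (3 : ℤ) (n : ℤ) := by
    have := (Nat.Prime.coprime_iff_not_dvd p3).2 h
    exact_mod_cast this.isCoprime
  obtain ⟨a, b, hab⟩ := hc
  have h1 := congrArg (fun u : ℤ => (u : kap V)) hab
  push_cast at h1
  rw [three_zero hV, h0, mul_zero, mul_zero, add_zero] at h1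
  exact zero_ne_one h1

/-- nonvanishing along one field -/
theorem nonvan_one {V : ValuationSubring ℂ} (hV : Thr V) {k : ℕ} {F : Fun3}
    (hF : Form0 17 k F) {c : ℂ} {r : kap V} (hr0 : r ≠ 0)
    (H : ∀ w : Fin 3 → ℤ, (w 0 ^ 2 + w 1 ^ 2 + w 2 ^ 2) % 3 = 1 →
      ∀ n, n = nA ∨ n = nB → ∃ v : V, c * ev (F Oo (lm (pq n) Oo)) (pq w) = (v : ℂ) ∧
        rs V v = r)
    {K : Type} [Field K] [NumberField K] {d : ℕ} (hd : Squarefree d) (hd3 : d % 3 = 1)
    (h8 : d % 8 = 3 ∨ d % 4 = 1 ∨ d % 4 = 2) (h2 : Module.finrank ℚ K = 2) {x : K}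
    (hx : x ^ 2 = -(d : K)) {t : ℤ} (ht : (17 : ℤ) ∣ t ^ 2 + d)
    (hcl : ¬ 3 ∣ Nat.card (ClassGroup (𝓞 K))) : NonvanPer F K := by
  obtain ⟨w, hw⟩ := three_sq h8
  have hd0 : 0 < d := by omega
  obtain ⟨ι, hι⟩ := exists_iota hd0 h2 hx hw
  have hs := stab_Oo hd h8 h2 hx hw hι
  have hd17 : ¬ ((17 : ℕ) : ℤ) ^ 2 ∣ (d : ℤ) := by
    intro h
    have h1 : 17 * 17 ∣ d := by
      have : ((17 * 17 : ℕ) : ℤ) ∣ (d : ℤ) := by
        rw [pow_two] at h; exact_mod_cast h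
      exact_mod_cast this
    have := hd 17 h1
    rw [Nat.isUnit_iff] at this
    omega
  have hp := Iq_pair p17 (by norm_num) hw hd17 (by exact_mod_cast ht)
  have hs' := stab_Iq (q := 17) (r := t) hι hs
  have hint : IsIntegral ℤ (x : K) := by
    refine ⟨Polynomial.X ^ 2 + Polynomial.C ((d : ℕ) : ℤ), ?_, ?_⟩
    · monicity!
    · rw [Polynomial.eval₂_add, Polynomial.eval₂_pow, Polynomial.eval₂_X,
        Polynomial.eval₂_C, hx]
      simp
  refine ⟨ι, Oo, Iq 17 w t, hp, hs, hs', x, ?_, ?_, ?_⟩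
  · rintro rfl
    rw [zero_pow two_ne_zero, zero_eq_neg, Nat.cast_eq_zero] at hx
    omega
  · rw [hι]; rfl
  · intro rep hrep h0
    obtain ⟨s0, hs0⟩ : ∃ s0 : 𝓞 K, (s0 : K) = x := ⟨⟨x, hint⟩, rfl⟩
    have hre : (ι (s0 : K)).re = 0 := by
      rw [hs0, hι]; rfl
    have hns : normSq (ι (s0 : K)) = ((d : ℤ) : ℚ) := by
      rw [hs0, hι, normSq_pq, hw]
    have key : ∀ cl : ClassGroup (𝓞 K), ∃ v : V,
        c * ev (F (idl ι (rep cl : Ideal (𝓞 K)) Oo) (idl ι (rep cl : Ideal (𝓞 K)) (Iq 17 w t)))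
          (ι x) = (v : ℂ) ∧ rs V v = r := by
      intro cl
      have hne : (rep cl : Ideal (𝓞 K)) ≠ ⊥ := nonZeroDivisors.coe_ne_zero _
      have := period_term hF H hne hs hs' hp hre hns (by omega)
      rw [hs0] at this
      exact this
    choose v hv1 hv2 using key
    have h1 : ((∑ cl, v cl : V) : ℂ) = 0 := by
      have : ((∑ cl, v cl : V) : ℂ) = c * torp F ι rep Oo (Iq 17 w t) x := by
        unfold torp
        rw [Finset.mul_sum]
        have h3 : ((∑ cl, v cl : V) : ℂ) = V.subtype (∑ cl, v cl) := rfl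
        rw [h3, map_sum]
        apply Finset.sum_congr rfl
        intro cl _
        exact (hv1 cl).symm
      rw [this, h0, mul_zero]
    have h2 : (∑ cl, v cl : V) = 0 := Subtype.ext h1
    have h3 := congrArg (rs V) h2
    rw [map_sum, map_zero, Finset.sum_congr rfl (fun cl _ => hv2 cl), Finset.sum_const,
      Finset.card_univ, nsmul_eq_mul] at h3
    rcases mul_eq_zero.1 h3 with h4 | h4
    · apply card_unit hV hcl
      rw [Nat.card_eq_fintype_card]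
      exact h4
    · exact hr0 h4

/-- the square root of `-d` -/
noncomputable def zd (d : ℕ) : ℂ := (Real.sqrt d : ℂ) * Complex.I

theorem zd_sq (d : ℕ) : zd d ^ 2 = -(d : ℂ) := by
  unfold zd
  rw [mul_pow, Complex.I_sq, ← Complex.ofReal_pow, Real.sq_sqrt (Nat.cast_nonneg d)]
  simp

/-- the field generated by the square root of `-d` -/
noncomputable def Ed (d : ℕ) : IntermediateField ℚ ℂ := IntermediateField.adjoin ℚ {zd d}

theorem zd_int (d : ℕ) : IsIntegral ℚ (zd d) := by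
  refine ⟨Polynomial.X ^ 2 + Polynomial.C ((d : ℕ) : ℚ), ?_, ?_⟩
  · monicity!
  · rw [Polynomial.eval₂_add, Polynomial.eval₂_pow, Polynomial.eval₂_X,
      Polynomial.eval₂_C, zd_sq]
    simp

noncomputable instance (d : ℕ) : NumberField (Ed d) where
  to_charZero := inferInstance
  to_finiteDimensional := IntermediateField.adjoin.finiteDimensional (zd_int d)

theorem zd_notMem {d : ℕ} (hd : 0 < d) : zd d ∉ (algebraMap ℚ ℂ).range := by
  rintro ⟨q, hq⟩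
  have h1 := zd_sq d
  rw [← hq] at h1
  have h2 : q ^ 2 = -(d : ℚ) := by
    have : ((q ^ 2 : ℚ) : ℂ) = ((-(d : ℚ) : ℚ) : ℂ) := by
      push_cast
      exact h1
    exact_mod_cast this
  exact Pool.Agent.Helper725_DH.IQ.not_sq hd q h2

theorem Ed_rank {d : ℕ} (hd : 0 < d) : Module.finrank ℚ (Ed d) = 2 := by
  unfold Ed
  rw [IntermediateField.adjoin.finrank (zd_int d)]
  apply le_antisymm
  · have h1 : (minpoly ℚ (zd d)).natDegree ≤
        (Polynomial.X ^ 2 + Polynomial.C ((d : ℕ) : ℚ)).natDegree := by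
      apply Polynomial.natDegree_le_natDegree
      apply minpoly.min
      · monicity!
      · rw [Polynomial.aeval_def, Polynomial.eval₂_add, Polynomial.eval₂_pow, Polynomial.eval₂_X,
          Polynomial.eval₂_C, zd_sq]
        simp
    have h2 : (Polynomial.X ^ 2 + Polynomial.C ((d : ℕ) : ℚ)).natDegree = 2 := by
      compute_degree!
    rwa [h2] at h1
  · exact (minpoly.two_le_natDegree_iff (zd_int d)).2 (zd_notMem hd)

/-- the generator -/
noncomputable def xd (d : ℕ) : Ed d := ⟨zd d, IntermediateField.mem_adjoin_simple_self ℚ _⟩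

theorem xd_sq (d : ℕ) : xd d ^ 2 = -((d : ℕ) : Ed d) := by
  apply Subtype.ext
  push_cast
  exact zd_sq d

theorem Ed_discr {d : ℕ} (hd : Squarefree d) (h8 : d % 8 = 3 ∨ d % 4 = 1 ∨ d % 4 = 2) :
    discr (Ed d) = if d % 4 = 3 then -(d : ℤ) else -(4 * (d : ℤ)) := by
  have hd0 : 0 < d := by omega
  split_ifs with h
  · exact (Pool.Agent.Helper725_DH.IQ.imq1 h hd (Ed_rank hd0) (xd_sq d)).1
  · exact (Pool.Agent.Helper725_DH.IQ.imq2 (by omega) hd (Ed_rank hd0) (xd_sq d)).1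

theorem Ed_inj {d d' : ℕ} (hd : Squarefree d) (h8 : d % 8 = 3 ∨ d % 4 = 1 ∨ d % 4 = 2)
    (hd' : Squarefree d') (h8' : d' % 8 = 3 ∨ d' % 4 = 1 ∨ d' % 4 = 2) (h : Ed d = Ed d') :
    d = d' := by
  have h1 : discr (Ed d) = discr (Ed d') := by
    have key : ∀ (E E' : IntermediateField ℚ ℂ) (i : NumberField E) (i' : NumberField E'),
        E = E' → @discr E _ i = @discr E' _ i' := by
      intro E E' i i' h
      subst h
      rfl
    exact key _ _ _ _ h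
  rw [Ed_discr hd h8, Ed_discr hd' h8'] at h1
  split_ifs at h1 <;> omega

/-- positive proportion of nonvanishing periods -/
theorem many {V : ValuationSubring ℂ} (hV : Thr V) {k : ℕ} (hk : Even k) (hk0 : k ≠ 0)
    {F : Fun3} (hF : Form0 17 k F) (hF0 : F ≠ 0) (hw : ww 17 F = F) {lam : ℂ}
    (he : TL 17 3 p3 F = lam • F) (hl : lam ≠ 0) (hu1 : (3 : ℂ) ^ k * lam ∈ V)
    (hu2 : ((3 : ℂ) ^ k * lam)⁻¹ ∈ V) [Fact (Nat.Prime 2)] [Fact (Nat.Prime 17)]
    {δ₂ : ℚ_[2]} (h20 : δ₂ ≠ 0) (h2 : ¬ IsSquare δ₂) {δ₁₇ : ℚ_[17]} (hq0 : δ₁₇ ≠ 0)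
    (hadm : IsSquare δ₁₇ ∨ Odd δ₁₇.valuation) :
    ∃ c : ℝ, 0 < c ∧ ∃ x₀ : ℝ, ∀ x : ℝ, x₀ ≤ x → ∃ S : Finset (IntermediateField ℚ ℂ),
      c * x ≤ (S.card : ℝ) ∧ ∀ E ∈ S, ∃ _ : NumberField E, Module.finrank ℚ E = 2 ∧
        |(discr E : ℝ)| < x ∧ Loc 2 δ₂ E ∧ Loc 17 δ₁₇ E ∧ NonvanPer F E := by
  classical
  obtain ⟨c, hc, r, hr, H⟩ := main_red hV hk hk0 hF hF0 hw he hl hu1 hu2
  obtain ⟨c', hc', x₀, hx₀⟩ := Pool.Agent.Helper725_DH.fields_many (q := 17) (by norm_num) h20 h2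
    hq0 hadm
  refine ⟨c', hc', x₀, ?_⟩
  intro x hx
  obtain ⟨S, hS, hSd⟩ := hx₀ x hx
  refine ⟨S.image Ed, ?_, ?_⟩
  · rw [Finset.card_image_of_injOn]
    · exact hS
    · intro d hd d' hd' h
      obtain ⟨a1, _, a2, _⟩ := hSd d hd
      obtain ⟨b1, _, b2, _⟩ := hSd d' hd'
      exact Ed_inj a1 a2 b1 b2 h
  · intro E hE
    obtain ⟨d, hd, rfl⟩ := Finset.mem_image.1 hE
    obtain ⟨a1, a2, a3, a4, a5, a6, ⟨t, ht⟩, a8⟩ := hSd d hd
    have hd0 : 0 < d := by omega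
    have hns : ¬ IsSquare (-(d : ℚ)) := by
      rintro ⟨q, hq⟩
      exact Pool.Agent.Helper725_DH.IQ.not_sq hd0 q (by rw [hq]; ring)
    refine ⟨inferInstance, Ed_rank hd0, ?_, ?_, ?_, ?_⟩
    · rw [Ed_discr a1 a3]
      split_ifs at a4 ⊢ with h
      · push_cast
        rw [abs_neg, abs_of_nonneg (by positivity)]
        exact a4
      · push_cast
        rw [abs_neg, abs_of_nonneg (by positivity)]
        exact a4
    · refine ⟨-(d : ℚ), xd d, ?_, hns, ?_⟩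
      · rw [xd_sq]; push_cast; rfl
      · push_cast; exact a5
    · refine ⟨-(d : ℚ), xd d, ?_, hns, ?_⟩
      · rw [xd_sq]; push_cast; rfl
      · push_cast; exact a6
    · exact nonvan_one hV hF hr H a1 a2 a3 (Ed_rank hd0) (xd_sq d) ht
        (a8 (Ed d) (Ed_rank hd0) ⟨xd d, xd_sq d⟩)

end Pool.Agent.Helper725_HQ
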