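import Pool.Agent.Helper725_HQ.QEx3
import Pool.Agent.Helper725_HQ.Per
import Pool.Agent.Helper725_DH.FieldsT

/-! Many nonvanishing periods in level 17 with conditions at finitely many primes. -/

set_option autoImplicit false
set_option linter.unusedSimpArgs false
set_option linter.unnecessarySeqFocus false

namespace Pool.Agent.Helper725_HQ

open Quaternion MvPolynomial NumberField
open scoped nonZeroDivisors

theorem sq_one_mod {d : ℕ} (h : d % 3 = 1) {δ : ℚ_[3]} (hδ : IsSquare (-δ)) :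
    IsSquare (-(d : ℚ_[3]) * δ) := by
  have h1 := Pool.Agent.Helper725_DH.isSquare_odd (p := 3) (by norm_num) (1 : ℤ_[3])
    ((((d / 3 : ℕ) : ℤ)) : ℤ_[3]) (by simp)
  have h3 := h1.mul hδ
  have e : (((1 : ℤ_[3]) ^ 2 + ((3 : ℕ) : ℤ_[3]) * ((((d / 3 : ℕ) : ℤ)) : ℤ_[3]) : ℤ_[3]) : ℚ_[3]) *
      (-δ) = -(d : ℚ_[3]) * δ := by
    have h5 : (d : ℚ_[3]) = 1 + 3 * ((d / 3 : ℕ) : ℚ_[3]) := by
      have : d = 1 + 3 * (d / 3) := by omega
      exact_mod_cast congrArg (Nat.cast : ℕ → ℚ_[3]) this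
    generalize ((d / 3 : ℕ)) = m at h5 ⊢
    rw [h5]
    push_cast
    have h6 : ((3 : ℤ_[3]) : ℚ_[3]) = 3 := rfl
    rw [h6]
    ring
  rw [e] at h3
  exact h3

/-- positive proportion of nonvanishing periods for ordinary eigenforms of level 17 -/
theorem many17 {V : ValuationSubring ℂ} (hV : Thr V) {k : ℕ} (hk : Even k) (hk0 : k ≠ 0)
    {F : Fun3} (hF : Form0 17 k F) (hF0 : F ≠ 0) (hw : ww 17 F = F) {lam : ℂ}
    (he : TL 17 3 p3 F = lam • F) {w : V} (hw1 : rs V w ≠ 0) (hlw : (3 : ℂ) ^ k * lam = (w : ℂ))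
    (T : Finset ℕ) (hT : ∀ p ∈ T, p.Prime) (δ : ∀ (p : ℕ) [Fact p.Prime], ℚ_[p])
    (hδ0 : ∀ (p : ℕ) [Fact p.Prime], δ p ≠ 0) (hδ2 : ¬ IsSquare (δ 2))
    (hδ3 : 3 ∈ T → IsSquare (-δ 3))
    (hδ17 : 17 ∈ T → ∀ [Fact (Nat.Prime 17)], IsSquare (δ 17) ∨ Odd (δ 17).valuation) :
    ∃ c : ℝ, 0 < c ∧ ∃ x₀ : ℝ, ∀ x : ℝ, x₀ ≤ x → ∃ S : Finset (IntermediateField ℚ ℂ),
      c * x ≤ (S.card : ℝ) ∧ ∀ E ∈ S, ∃ _ : NumberField E, Module.finrank ℚ E = 2 ∧
        |(discr E : ℝ)| < x ∧ (∀ p ∈ T, ∀ [Fact p.Prime], Loc p (δ p) E) ∧ NonvanPer F E := by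
  classical
  have hF17 : Fact (Nat.Prime 17) := ⟨p17⟩
  have hwu : IsUnit w := unit_of_rs hw1
  have hw0 : (w : ℂ) ≠ 0 := by
    intro h
    apply hw1
    have : w = 0 := Subtype.ext h
    rw [this, map_zero]
  have hl : lam ≠ 0 := by
    rintro rfl
    rw [mul_zero] at hlw
    exact hw0 hlw.symm
  have hu1 : (3 : ℂ) ^ k * lam ∈ V := by rw [hlw]; exact w.2
  have hu2 : ((3 : ℂ) ^ k * lam)⁻¹ ∈ V := by
    rw [hlw]
    obtain ⟨u, hu⟩ := hwu
    have h1 : ((u : V) : ℂ) * (((u⁻¹ : Vˣ) : V) : ℂ) = 1 := by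
      have := Units.mul_inv u
      exact congrArg Subtype.val this
    rw [hu] at h1
    rw [inv_eq_of_mul_eq_one_right h1]
    exact ((u⁻¹ : Vˣ) : V).2
  obtain ⟨c, hc, r, hr, H⟩ := main_red hV hk hk0 hF hF0 hw he hl hu1 hu2
  set δ' : ∀ (p : ℕ) [Fact p.Prime], ℚ_[p] := fun p _ => if p ∈ T then δ p else 1 with hδ'
  have hδ'0 : ∀ (p : ℕ) [Fact p.Prime], δ' p ≠ 0 := by
    intro p _
    simp only [hδ']
    split_ifs
    · exact hδ0 p
    · exact one_ne_zero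
  have hadm : IsSquare (δ' 17) ∨ Odd (δ' 17).valuation := by
    by_cases h : 17 ∈ T
    · simp only [hδ', if_pos h]
      exact hδ17 h
    · left
      simp only [hδ', if_neg h]
      exact ⟨1, by ring⟩
  obtain ⟨c', hc', x₀, hx₀⟩ := Pool.Agent.Helper725_DH.fields_manyT (hδ0 2) hδ2
    ((insert 17 T).filter (fun p => 5 ≤ p)) (fun p hp => by
      obtain ⟨h1, h2⟩ := Finset.mem_filter.1 hp
      refine ⟨?_, h2⟩
      rcases Finset.mem_insert.1 h1 with h | h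
      · rw [h]; exact p17
      · exact hT p h) δ' (fun p _ _ => hδ'0 p)
  refine ⟨c', hc', x₀, ?_⟩
  intro x hx
  obtain ⟨S, hS, hSd⟩ := hx₀ x hx
  refine ⟨S.image Ed, ?_, ?_⟩
  · rw [Finset.card_image_of_injOn]
    · exact hS
    · intro d hd d' hd' h
      obtain ⟨a1, _, a2, _⟩ := hSd d hd
      obtain ⟨b1, _, b2, _⟩ := hSd d' hd'
      exact Ed_inj a1 a2 b1 b2 h
  · intro E hE
    obtain ⟨d, hd, rfl⟩ := Finset.mem_image.1 hE
    obtain ⟨a1, a2, a3, a4, a5, a6, a8⟩ := hSd d hd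
    have hd0 : 0 < d := by omega
    have hns : ¬ IsSquare (-(d : ℚ)) := by
      rintro ⟨q, hq⟩
      exact Pool.Agent.Helper725_DH.IQ.not_sq hd0 q (by rw [hq]; ring)
    obtain ⟨t, ht⟩ := Pool.Agent.Helper725_DH.exists_root (q := 17) (hδ'0 17) hadm a1
      (a6 17 (Finset.mem_filter.2 ⟨Finset.mem_insert_self _ _, by norm_num⟩))
    refine ⟨inferInstance, Ed_rank hd0, ?_, ?_, ?_⟩
    · rw [Ed_discr a1 a3]
      split_ifs at a4 ⊢ with h
      · push_cast
        rw [abs_neg, abs_of_nonneg (by positivity)]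
        exact a4
      · push_cast
        rw [abs_neg, abs_of_nonneg (by positivity)]
        exact a4
    · intro p hp hpf
      refine ⟨-(d : ℚ), xd d, ?_, hns, ?_⟩
      · rw [xd_sq]; push_cast; rfl
      · push_cast
        by_cases h5 : 5 ≤ p
        · have := a6 p (Finset.mem_filter.2 ⟨Finset.mem_insert_of_mem hp, h5⟩)
          simp only [hδ', if_pos hp] at this
          exact this
        · have h6 := (hT p hp).two_le
          have h7 : p ≠ 4 := by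
            rintro rfl
            exact absurd (hT 4 hp) (by norm_num)
          have h8 : p = 2 ∨ p = 3 := by omega
          rcases h8 with rfl | rfl
          · exact a5
          · exact sq_one_mod a2 (hδ3 hp)
    · exact nonvan_one hV hF hr H a1 a2 a3 (Ed_rank hd0) (xd_sq d) ht
        (a8 (Ed d) (Ed_rank hd0) ⟨xd d, xd_sq d⟩)

end Pool.Agent.Helper725_HQ
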