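import Pool.Agent.Helper725_HQ.ARed
import Pool.Agent.Helper725_HQ.LUni
import Pool.Agent.Helper725_HQ.QPer

/-! Simultaneous nonvanishing of the periods of all eigenforms of level one. -/

set_option autoImplicit false
set_option linter.unusedSimpArgs false
set_option linter.unnecessarySeqFocus false

namespace Pool.Agent.Helper725_HQ

open Quaternion MvPolynomial NumberField
open scoped nonZeroDivisors

theorem ev_vl (P : MvPolynomial (Fin 3) ℂ) (x : Fin 3 → ℤ) : ev P (pq x) = vl P x := by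
  rw [ev_eq]
  unfold vl
  congr 1
  apply congrArg
  funext i
  rw [vec_pq, Rat.cast_intCast]

/-- the values at all integral vectors of a given norm congruent to one modulo three -/
theorem all_val {V : ValuationSubring ℂ} (hV : Thr V) {k : ℕ} (hk : Even k) {F : Fun1}
    (hF : Form1 k F) (hF0 : F ≠ 0) {l5 l7 : ℂ} (h5 : TL1 5 (by norm_num) F = l5 • F)
    (h7 : TL1 7 (by norm_num) F = l7 • F) : ∃ c : ℂ, ∃ r : kap V, r ≠ 0 ∧
      ∀ d : ℕ, d % 3 = 1 → ∀ x : Fin 3 → ℤ, x 0 ^ 2 + x 1 ^ 2 + x 2 ^ 2 = (d : ℤ) →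
        ∃ v : V, c * ev (F Oo) (pq x) = (v : ℂ) ∧ rs V v = r := by
  have hP0 : F Oo ≠ 0 := fun h => hF0 (form1_ext hF h)
  have hsym := sym_of_form hk hF
  obtain ⟨c, r, hr, H⟩ := red_const hV hk (hF.hom Oo) hsym hP0
    (fun x => hecke5 hF (by norm_num) h5 x) (fun x => hecke7 hF (by norm_num) h7 x)
  refine ⟨c, r, hr, ?_⟩
  intro d hd x hx
  have vl3 : ∀ x : Fin 3 → ℤ, vl (F Oo) x =
      eval ![((x 0 : ℤ) : ℂ), ((x 1 : ℤ) : ℂ), ((x 2 : ℤ) : ℂ)] (F Oo) := by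
    intro x
    unfold vl
    congr 1
    apply congrArg
    funext i
    fin_cases i <;> rfl
  rw [ev_vl]
  have s0 := sq_mod3 (x 0)
  have s1 := sq_mod3 (x 1)
  have s2 := sq_mod3 (x 2)
  have z : ∀ j, x j % 3 = 0 → x j ^ 2 % 3 = 0 := by
    intro j hj
    simp [pow_two, Int.mul_emod, hj]
  have n : ∀ j, x j ^ 2 % 3 = 1 → ¬ x j % 3 = 0 := by
    intro j hj h
    have := z j h
    omega
  have z0 := z 0
  have z1 := z 1
  have z2 := z 2
  have n0 := n 0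
  have n1 := n 1
  have n2 := n 2
  have hd' : (x 0 ^ 2 + x 1 ^ 2 + x 2 ^ 2) % 3 = 1 := by omega
  have hcase : (¬ x 0 % 3 = 0 ∧ x 1 % 3 = 0 ∧ x 2 % 3 = 0) ∨
      (x 0 % 3 = 0 ∧ ¬ x 1 % 3 = 0 ∧ x 2 % 3 = 0) ∨
      (x 0 % 3 = 0 ∧ x 1 % 3 = 0 ∧ ¬ x 2 % 3 = 0) := by
    rcases s0 with ⟨a0, -⟩ | ⟨a0, -⟩ <;> rcases s1 with ⟨a1, -⟩ | ⟨a1, -⟩ <;>
      rcases s2 with ⟨a2, -⟩ | ⟨a2, -⟩
    · have := z0 a0; have := z1 a1; have := z2 a2; omega
    · exact Or.inr (Or.inr ⟨a0, a1, n2 a2⟩)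
    · exact Or.inr (Or.inl ⟨a0, n1 a1, a2⟩)
    · have := z0 a0; omega
    · exact Or.inl ⟨n0 a0, a1, a2⟩
    · have := z1 a1; omega
    · have := z2 a2; omega
    · omega
  rcases hcase with ⟨a0, a1, a2⟩ | ⟨a0, a1, a2⟩ | ⟨a0, a1, a2⟩
  · exact H x ⟨by omega, by omega, by omega⟩
  · have h1 := H ![x 1, x 2, x 0] ⟨by show ¬ (3 : ℤ) ∣ x 1; omega, by show (3 : ℤ) ∣ x 2; omega,
      by show (3 : ℤ) ∣ x 0; omega⟩
    rw [vl3] at h1
    simp only [Matrix.cons_val_zero, Matrix.cons_val_one, Matrix.cons_val] at h1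
    rw [hsym.v_cy, ← vl3] at h1
    exact h1
  · have h1 := H ![x 2, x 0, x 1] ⟨by show ¬ (3 : ℤ) ∣ x 2; omega, by show (3 : ℤ) ∣ x 0; omega,
      by show (3 : ℤ) ∣ x 1; omega⟩
    rw [vl3] at h1
    simp only [Matrix.cons_val_zero, Matrix.cons_val_one, Matrix.cons_val] at h1
    rw [← hsym.v_cy, ← vl3] at h1
    exact h1

/-- simultaneous nonvanishing -/
theorem manyAll (T : Finset ℕ) (hT : ∀ p ∈ T, p.Prime)
    (δ : ∀ (p : ℕ) [Fact p.Prime], ℚ_[p]) (hδ0 : ∀ (p : ℕ) [Fact p.Prime], δ p ≠ 0)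
    (hδ2 : ¬ IsSquare (δ 2)) (hδ3 : 3 ∈ T → IsSquare (-δ 3)) :
    ∃ c : ℝ, 0 < c ∧ ∃ x₀ : ℝ, ∀ x : ℝ, x₀ ≤ x → ∃ S : Finset (IntermediateField ℚ ℂ),
      c * x ≤ (S.card : ℝ) ∧ ∀ E ∈ S, ∃ _ : NumberField E, Module.finrank ℚ E = 2 ∧
        |(discr E : ℝ)| < x ∧ (∀ p ∈ T, ∀ [Fact p.Prime], Loc p (δ p) E) ∧
        ∀ k : ℕ, Even k → k ≠ 0 → ∀ G : AddSubgroup ℍ[ℚ] → MvPolynomial (Fin 3) ℂ, IsForm1 k G →
          (∃ I, G I ≠ 0) → (∃ lam : ℂ, ∀ I, IsRI I → hecke1 5 G I = lam • G I) →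
          (∃ lam : ℂ, ∀ I, IsRI I → hecke1 7 G I = lam • G I) → NonvanPer1 G E := by
  classical
  obtain ⟨c', hc', x₀, hx₀⟩ := Pool.Agent.Helper725_DH.fields_manyT (hδ0 2) hδ2
    (T.filter (fun p => 5 ≤ p)) (fun p hp => ⟨hT p (Finset.mem_filter.1 hp).1,
      (Finset.mem_filter.1 hp).2⟩) δ (fun p _ _ => hδ0 p)
  refine ⟨c', hc', x₀, ?_⟩
  intro x hx
  obtain ⟨S, hS, hSd⟩ := hx₀ x hx
  refine ⟨S.image Ed, ?_, ?_⟩
  · rw [Finset.card_image_of_injOn]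
    · exact hS
    · intro d hd d' hd' h
      obtain ⟨a1, _, a2, _⟩ := hSd d hd
      obtain ⟨b1, _, b2, _⟩ := hSd d' hd'
      exact Ed_inj a1 a2 b1 b2 h
  · intro E hE
    obtain ⟨d, hd, rfl⟩ := Finset.mem_image.1 hE
    obtain ⟨a1, a2, a3, a4, a5, a6, a8⟩ := hSd d hd
    have hd0 : 0 < d := by omega
    have hns : ¬ IsSquare (-(d : ℚ)) := by
      rintro ⟨q, hq⟩
      exact Pool.Agent.Helper725_DH.IQ.not_sq hd0 q (by rw [hq]; ring)
    refine ⟨inferInstance, Ed_rank hd0, ?_, ?_, ?_⟩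
    · rw [Ed_discr a1 a3]
      split_ifs at a4 ⊢ with h
      · push_cast
        rw [abs_neg, abs_of_nonneg (by positivity)]
        exact a4
      · push_cast
        rw [abs_neg, abs_of_nonneg (by positivity)]
        exact a4
    · intro p hp hpf
      refine ⟨-(d : ℚ), xd d, ?_, hns, ?_⟩
      · rw [xd_sq]; push_cast; rfl
      · push_cast
        by_cases h5 : 5 ≤ p
        · exact a6 p (Finset.mem_filter.2 ⟨hp, h5⟩)
        · have h6 := (hT p hp).two_le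
          have h7 : p ≠ 4 := by
            rintro rfl
            exact absurd (hT 4 hp) (by norm_num)
          have h8 : p = 2 ∨ p = 3 := by omega
          rcases h8 with rfl | rfl
          · exact a5
          · exact sq_one_mod a2 (hδ3 hp)
    · intro k hk _ G hG hG0 h5 h7
      obtain ⟨l5, h5⟩ := h5
      obtain ⟨l7, h7⟩ := h7
      obtain ⟨V, hV⟩ := exists_V
      have hF := form1_of_isForm1 hG
      have hF0 : G ≠ 0 := by
        rintro rfl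
        obtain ⟨I, hI⟩ := hG0
        exact hI rfl
      have e5 := TL1_of_hecke1 (p := 5) (by norm_num) hG h5
      have e7 := TL1_of_hecke1 (p := 7) (by norm_num) hG h7
      obtain ⟨c, r, hr, H⟩ := all_val hV hk hF hF0 e5 e7
      exact nonvan_one1 hV hF hr (H d a2) a1 a3 (Ed_rank hd0) (xd_sq d)
        (a8 (Ed d) (Ed_rank hd0) ⟨xd d, xd_sq d⟩)

end Pool.Agent.Helper725_HQ
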