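import Pool.Agent.Helper725_HQ.BGv

/-! Forms with a level structure at three as functions on the generators. -/

set_option autoImplicit false
set_option linter.unusedVariables false
set_option linter.unusedSimpArgs false

namespace Pool.Agent.Helper725_HQ

open Quaternion MvPolynomial

theorem three_commH (α z : ℍ[ℚ]) : α * (3 * z) = 3 * (α * z) := by
  rw [three_smulH, three_smulH, mul_smul_comm]

theorem gen_lm {α : ℍ[ℚ]} (hα : α ≠ 0) {I : AddSubgroup ℍ[ℚ]} {u : ℍ[ℚ]} (h : Gen3 I u) :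
    Gen3 (lm α I) (α * u) := by
  obtain ⟨h1, h2⟩ := h
  refine ⟨mul_mem_lm h1, fun y hy => ?_⟩
  obtain ⟨y', hy', rfl⟩ := mem_lm.1 hy
  obtain ⟨o, ho, z, hz, rfl⟩ := h2 y' hy'
  exact ⟨o, ho, α * z, mul_mem_lm hz, by rw [mul_add, mul_assoc, three_commH]⟩

theorem gen_lm_iff {α : ℍ[ℚ]} (hα : α ≠ 0) {I : AddSubgroup ℍ[ℚ]} {u : ℍ[ℚ]} :
    Gen3 (lm α I) (α * u) ↔ Gen3 I u := by
  constructor
  · intro h
    have h1 := gen_lm (inv_ne_zero hα) h
    rwa [lm_inv_lm hα, ← mul_assoc, inv_mul_cancel₀ hα, one_mul] at h1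
  · exact gen_lm hα

section
variable {n k : ℕ} {F : AddSubgroup ℍ[ℚ] → ℍ[ℚ] → MvPolynomial (Fin 3) ℂ}

theorem formN_left (hF : IsFormN n k F) {α : ℍ[ℚ]} (hα : α ≠ 0) {I : AddSubgroup ℍ[ℚ]}
    (hI : IsRI I) {u : ℍ[ℚ]} (hu : Gen3 I u) : F (lm α I) (α * u) = lsub (rC α) (F I u) := by
  apply eq_of_ev
  intro x
  rw [ev_lsub hα]
  have h1 := hF.left α hα I u hI hu (α⁻¹ * x * α)
  have h2 : α * (α⁻¹ * x * α) * α⁻¹ = x := by
    rw [← mul_assoc, ← mul_assoc, mul_inv_cancel₀ hα, one_mul, mul_assoc, mul_inv_cancel₀ hα,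
      mul_one]
  rw [h2] at h1
  exact h1

theorem normSq_int (a b c d : ℤ) : normSq (mk4 a b c d) = ((a ^ 2 + b ^ 2 + c ^ 2 + d ^ 2 : ℤ) : ℚ) := by
  rw [normSq_def']; simp

theorem formN_fu (hF : IsFormN n k F) : Fu n k (F Oo) := by
  refine ⟨fun u => hF.hom _ _, ?_, ?_, ?_, ?_, ?_⟩
  · intro a b c d h u hu
    have hn : normSq (mk4 (a : ℚ) b c d) = 1 := by rw [normSq_int, h]; norm_num
    have hne : mk4 (a : ℚ) b c d ≠ 0 := by
      rw [← normSq_ne_zero, hn]; norm_num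
    have h1 := formN_left hF hne Oo_isRI (gen_iff.2 hu)
    rwa [mem_of_unit (int_mem a b c d) hn] at h1
  · intro u hu
    have h1 := formN_left hF ep_ne Oo_isRI (gen_iff.2 hu)
    rw [← h1]
    have h2 : Gen3 (rm ep Oo) (ep * u) := by
      rw [rm_ep_Oo]; exact gen_lm ep_ne (gen_iff.2 hu)
    have h3 := hF.two Oo (ep * u) Oo_isRI h2
    rw [← rm_ep_Oo]
    exact h3.symm
  · intro u u' hu hu' ⟨z, hz, h⟩
    apply hF.lvl Oo u u' Oo_isRI (gen_iff.2 hu) (gen_iff.2 hu')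
    rw [mem_lm]
    refine ⟨z, hz, ?_⟩
    rw [h, nat_smulH]
    push_cast
    abel
  · intro u hu a b hab
    exact hF.tor Oo u Oo_isRI (gen_iff.2 hu) a b hab
  · intro u hu
    exact hF.sgn Oo u Oo_isRI (gen_iff.2 hu)

theorem formN_ne (hF : IsFormN n k F) (h : ∃ I u, F I u ≠ 0) : ∃ u, GO u ∧ F Oo u ≠ 0 := by
  obtain ⟨I, u, h⟩ := h
  have h1 : IsRI I ∧ Gen3 I u := by
    by_contra h1
    exact h (hF.supp I u h1)
  obtain ⟨hI, hu⟩ := h1
  obtain ⟨α, hα, rfl⟩ := principal hI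
  have e : α * (α⁻¹ * u) = u := by rw [← mul_assoc, mul_inv_cancel₀ hα, one_mul]
  rw [← e] at hu h
  have hu' := (gen_lm_iff hα).1 hu
  refine ⟨α⁻¹ * u, gen_iff.1 hu', ?_⟩
  intro h0
  apply h
  rw [formN_left hF hα Oo_isRI hu', h0, map_zero]

theorem formN_om (hF : IsFormN n k F) {w : ℍ[ℚ]} (hw : w ∈ Hur) (h : normSq w = 1) {u : ℍ[ℚ]}
    (hu : GO u) : F Oo (w * u) = lsub (rC w) (F Oo u) := by
  have hne : w ≠ 0 := by
    rw [← normSq_ne_zero, h]; norm_num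
  have h1 := formN_left hF hne Oo_isRI (gen_iff.2 hu)
  rwa [mem_of_unit hw h] at h1

theorem GO_of_norm {α : ℍ[ℚ]} (hα : α ∈ Hur) {p : ℕ} (hn : normSq α = p) (hp3 : ¬ 3 ∣ p) : GO α :=
  ⟨hα, p, hn, hp3⟩

theorem hecke_term (hF : IsFormN n k F) {α : ℍ[ℚ]} (hα : α ∈ Hur) {p : ℕ} (hn : normSq α = p)
    (hp3 : ¬ 3 ∣ p) {u : ℍ[ℚ]} (hu : GO u) :
    F (lm α Oo) (p * u) = lsub (rC α) (F Oo (star α * u)) := by
  have hg := GO_of_norm hα hn hp3
  rw [← formN_left hF hg.ne Oo_isRI (gen_iff.2 (hg.star.mul hu)), ← mul_assoc, self_mul_star, hn]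
  rfl

/-- the relation at five -/
theorem heckeN5 (hF : IsFormN n k F) {lam : ℂ}
    (he : ∀ I u, IsRI I → Gen3 I u → heckeN 5 F I u = lam • F I u) {u : ℍ[ℚ]} (hu : GO u) :
    ∑ i, lsub (rC (qv (v5 i))) (F Oo (star (qv (v5 i)) * u)) = lam • F Oo u := by
  have h1 := he Oo u Oo_isRI (gen_iff.2 hu)
  unfold heckeN at h1
  have h2 : {J : AddSubgroup ℍ[ℚ] | IsRI J ∧ lm (5 : ℕ) Oo < J ∧ J < Oo} = Sp 5 Oo := rfl
  rw [h2, Sp5_eq, finsum_mem_range (fun i j h => inj5 h), finsum_eq_sum_of_fintype] at h1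
  rw [← h1]
  apply Finset.sum_congr rfl
  intro i _
  have hn : normSq (qv (v5 i) * ep⁻¹) = ((5 : ℕ) : ℚ) := by
    rw [map_mul, qv_norm, v5_norm, map_inv₀, normSq_ep]; norm_num
  rw [hecke_term hF (mem5 i) hn (by norm_num) hu]
  have hfu := formN_fu hF
  have hg := GO_of_norm (mem5 i) hn (by norm_num)
  have hw := hg.star.mul hu
  have e1 : ((2 : ℤ) : ℚ) • (star (qv (v5 i) * ep⁻¹) * u) = ep * (star (qv (v5 i)) * u) := by
    rw [star_mul, ep_inv]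
    have : ((2 : ℤ) : ℚ) • star (mk4 (1 / 2) (-(1 / 2)) 0 0) = ep := by
      unfold ep
      apply ext4 <;> simp
    rw [← smul_mul_assoc, ← smul_mul_assoc, this, mul_assoc]
  rw [← hfu.scal hw (a := 2) (by norm_num), e1, hfu.ep _ ((GO_qv _).star.mul hu),
    rC_mul hg.ne ep_ne, mul_assoc, inv_mul_cancel₀ ep_ne, mul_one]

/-- the relation at seven -/
theorem heckeN7 (hF : IsFormN n k F) {lam : ℂ}
    (he : ∀ I u, IsRI I → Gen3 I u → heckeN 7 F I u = lam • F I u) {u : ℍ[ℚ]} (hu : GO u) :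
    ∑ i, lsub (rC (qv (v7 i))) (F Oo (star (qv (v7 i)) * u)) = lam • F Oo u := by
  have h1 := he Oo u Oo_isRI (gen_iff.2 hu)
  unfold heckeN at h1
  have h2 : {J : AddSubgroup ℍ[ℚ] | IsRI J ∧ lm (7 : ℕ) Oo < J ∧ J < Oo} = Sp 7 Oo := rfl
  rw [h2, Sp7_eq, finsum_mem_range (fun i j h => inj7 h), finsum_eq_sum_of_fintype] at h1
  rw [← h1]
  apply Finset.sum_congr rfl
  intro i _
  have hlf2 : normSq hlf = 1 / 4 := by
    rw [normSq_def']
    simp [hlf]; norm_num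
  have hlf_ne : hlf ≠ 0 := by
    rw [← normSq_ne_zero, hlf2]; norm_num
  have hlfe : hlf = ((1 / 2 : ℚ) : ℍ[ℚ]) := by
    apply ext4 <;> simp [hlf]
  have hn : normSq (qv (v7 i) * hlf) = ((7 : ℕ) : ℚ) := by
    rw [map_mul, qv_norm, v7_norm, hlf2]; norm_num
  rw [hecke_term hF (mem7 i) hn (by norm_num) hu]
  have hfu := formN_fu hF
  have hg := GO_of_norm (mem7 i) hn (by norm_num)
  have hw := hg.star.mul hu
  have e1 : ((2 : ℤ) : ℚ) • (star (qv (v7 i) * hlf) * u) = star (qv (v7 i)) * u := by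
    rw [star_mul]
    have : ((2 : ℤ) : ℚ) • star hlf = 1 := by
      unfold hlf
      apply ext4 <;> simp
    rw [← smul_mul_assoc, ← smul_mul_assoc, this, one_mul]
  rw [← hfu.scal hw (a := 2) (by norm_num), e1, ← rC_mul (qv_ne _) hlf_ne, hlfe,
    rC_coe (by norm_num)]

end

end Pool.Agent.Helper725_HQ
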