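import Pool.Agent.Helper725_HQ.SForm

/-! Symmetries of the forms which are supercuspidal at two. -/

set_option autoImplicit false
set_option linter.unusedSimpArgs false
set_option linter.unnecessarySeqFocus false

namespace Pool.Agent.Helper725_HQ

open Quaternion MvPolynomial

/-- inverse of the cyclic permutation -/
def cy2 : Fin 3 → Fin 3 → ℤ := ![![0, 0, 1], ![1, 0, 0], ![0, 1, 0]]

section
variable {R : Type*} [CommRing R]

/-- the symmetries -/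
structure Sym4 (P : MvPolynomial (Fin 3) R) : Prop where
  f0 : lsub (mz (dg (-1) 1 1)) P = P
  f1 : lsub (mz (dg 1 (-1) 1)) P = P
  f2 : lsub (mz (dg 1 1 (-1))) P = P
  sw : lsub (mz swZ) P = P
  tr : P + (lsub (mz cyZ) P + lsub (mz cy2) P) = 0

theorem Sym4.of_map {S : Type*} [CommRing S] {P : MvPolynomial (Fin 3) R} {φ : R →+* S}
    (hφ : Function.Injective φ) (h : Sym4 (MvPolynomial.map φ P)) : Sym4 P := by
  have key0 : ∀ M : Fin 3 → Fin 3 → ℤ, MvPolynomial.map φ (lsub (mz M) P) =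
      lsub (mz M) (MvPolynomial.map φ P) := by
    intro M
    rw [map_lsub]
    congr 2
    funext i j
    exact map_intCast φ (M i j)
  have key : ∀ M : Fin 3 → Fin 3 → ℤ, lsub (mz M) (MvPolynomial.map φ P) = MvPolynomial.map φ P →
      lsub (mz M) P = P := by
    intro M hM
    apply map_injective φ hφ
    rw [key0, hM]
  refine ⟨key _ h.f0, key _ h.f1, key _ h.f2, key _ h.sw, ?_⟩
  apply map_injective φ hφ
  rw [map_add, map_add, key0, key0, map_zero]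
  exact h.tr

variable {P : MvPolynomial (Fin 3) R}

theorem v_dg {M : Fin 3 → Fin 3 → ℤ} (h : lsub (mz M) P = P) (x : Fin 3 → R) :
    eval (fun i => ∑ j, (M i j : R) * x j) P = eval x P := by
  conv_rhs => rw [← h, eval_lsub]
  rfl

theorem Sym4.v_fl0 (h : Sym4 P) (a b c : R) : eval ![-a, b, c] P = eval ![a, b, c] P := by
  rw [← v_dg h.f0 ![a, b, c]]
  congr 2
  funext i
  rw [Fin.sum_univ_three]
  fin_cases i <;> simp [dg]

theorem Sym4.v_fl1 (h : Sym4 P) (a b c : R) : eval ![a, -b, c] P = eval ![a, b, c] P := by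
  rw [← v_dg h.f1 ![a, b, c]]
  congr 2
  funext i
  rw [Fin.sum_univ_three]
  fin_cases i <;> simp [dg]

theorem Sym4.v_fl2 (h : Sym4 P) (a b c : R) : eval ![a, b, -c] P = eval ![a, b, c] P := by
  rw [← v_dg h.f2 ![a, b, c]]
  congr 2
  funext i
  rw [Fin.sum_univ_three]
  fin_cases i <;> simp [dg]

theorem Sym4.abs {f : MvPolynomial (Fin 3) R} (h : Sym4 f)
    {x y : Fin 3 → R} (hxy : ∀ j, x j = y j ∨ x j = -y j) : eval x f = eval y f := by
  have e : ∀ z : Fin 3 → R, z = ![z 0, z 1, z 2] := by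
    intro z
    funext j
    fin_cases j <;> rfl
  rw [e x, e y]
  have h0 : eval ![x 0, x 1, x 2] f = eval ![y 0, x 1, x 2] f := by
    rcases hxy 0 with h0 | h0
    · rw [h0]
    · rw [h0, h.v_fl0]
  have h1 : eval ![y 0, x 1, x 2] f = eval ![y 0, y 1, x 2] f := by
    rcases hxy 1 with h0 | h0
    · rw [h0]
    · rw [h0, h.v_fl1]
  have h2 : eval ![y 0, y 1, x 2] f = eval ![y 0, y 1, y 2] f := by
    rcases hxy 2 with h0 | h0
    · rw [h0]
    · rw [h0, h.v_fl2]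
  rw [h0, h1, h2]

theorem Sym4.three (h : Sym4 P) : 3 * eval ![1, 1, 1] P = 0 := by
  have h1 := congrArg (eval ![1, 1, 1]) h.tr
  rw [map_add, map_add, eval_lsub, eval_lsub, map_zero] at h1
  have e1 : (fun i => ∑ j, mz cyZ i j * (![1, 1, 1] : Fin 3 → R) j) = ![1, 1, 1] := by
    funext i
    rw [Fin.sum_univ_three]
    fin_cases i <;> simp [mz, cyZ]
  have e2 : (fun i => ∑ j, mz cy2 i j * (![1, 1, 1] : Fin 3 → R) j) = ![1, 1, 1] := by
    funext i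
    rw [Fin.sum_univ_three]
    fin_cases i <;> simp [mz, cy2]
  rw [e1, e2] at h1
  linear_combination h1

/-- the gradient at the fixed point -/
theorem Sym4.grad2 (h : Sym4 P) :
    eval ![1, 1, 1] (pderiv 2 P) = eval ![1, 1, 1] (pderiv 1 P) := by
  have h1 : eval ![1, 1, 1] (pderiv 2 P) =
      ∑ i, mz swZ i 2 * eval ![1, 1, 1] (pderiv i P) := by
    conv_lhs => rw [← h.sw, pderiv_lsub, map_sum]
    apply Finset.sum_congr rfl
    intro i _
    rw [map_mul, eval_C, eval_lsub]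
    congr 2
    apply congrArg
    funext l
    rw [Fin.sum_univ_three]
    fin_cases l <;> simp [mz, swZ]
  rw [h1, Fin.sum_univ_three]
  simp [mz, swZ]

theorem Sym4.grad0 [IsDomain R] (h3 : (3 : R) ≠ 0) (h : Sym4 P) {k : ℕ} (hP : P.IsHomogeneous k) :
    eval ![1, 1, 1] (pderiv 0 P) = -2 * eval ![1, 1, 1] (pderiv 1 P) := by
  have h1 := euler_eval hP ![1, 1, 1]
  have h0 : eval ![1, 1, 1] P = 0 := (mul_eq_zero.1 h.three).resolve_left h3
  rw [Fin.sum_univ_three, h.grad2, h0, mul_zero] at h1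
  simp only [Matrix.cons_val_zero, Matrix.cons_val_one, Matrix.cons_val_two, one_mul] at h1
  have h2 : Matrix.vecHead (Matrix.vecTail ![(1 : R), 1]) = 1 := rfl
  rw [h2] at h1
  linear_combination h1

end

theorem lm_i_Lip {a b c d : ℤ} (h : a ^ 2 + b ^ 2 + c ^ 2 + d ^ 2 = 1) :
    lm (mk4 a b c d) Lip = Lip := by
  have hne : mk4 (a : ℚ) b c d ≠ 0 := by
    rw [← normSq_ne_zero, normSq_def']
    simp only [mk4_re, mk4_imI, mk4_imJ, mk4_imK]
    have : (a : ℚ) ^ 2 + (b : ℚ) ^ 2 + (c : ℚ) ^ 2 + (d : ℚ) ^ 2 = 1 := by exact_mod_cast h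
    rw [this]
    norm_num
  have h1 : ∀ (a b c d : ℤ), lm (mk4 a b c d) Lip ≤ Lip := by
    intro a b c d x hx
    obtain ⟨y, hy, rfl⟩ := mem_lm.1 hx
    exact Lip_mul ⟨a, b, c, d, rfl⟩ hy
  apply le_antisymm (h1 a b c d)
  intro x hx
  rw [mem_lm' hne]
  have hinv : (mk4 (a : ℚ) b c d)⁻¹ = mk4 a (-b : ℤ) (-c : ℤ) (-d : ℤ) := by
    apply inv_eq_of_mul_eq_one_right
    have h' : (a : ℚ) ^ 2 + (b : ℚ) ^ 2 + (c : ℚ) ^ 2 + (d : ℚ) ^ 2 = 1 := by exact_mod_cast h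
    apply ext4
    · rw [re_mul]; simp; linear_combination h'
    · rw [imI_mul]; simp; ring
    · rw [imJ_mul]; simp; ring
    · rw [imK_mul]; simp; ring
  rw [hinv]
  exact Lip_mul ⟨a, -b, -c, -d, rfl⟩ hx

theorem lm_i_Oo {a b c d : ℤ} (h : a ^ 2 + b ^ 2 + c ^ 2 + d ^ 2 = 1) :
    lm (mk4 a b c d) Oo = Oo := by
  apply mem_of_unit (int_mem a b c d)
  rw [normSq_def']
  simp only [mk4_re, mk4_imI, mk4_imJ, mk4_imK]
  exact_mod_cast h

theorem Lip_ep : lm ep Lip = rm ep Lip := by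
  apply le_antisymm
  · intro x hx
    obtain ⟨y, ⟨a, b, c, d, rfl⟩, rfl⟩ := mem_lm.1 hx
    refine mem_rm.2 ⟨mk4 a b (-d : ℤ) c, ⟨a, b, -d, c, rfl⟩, ?_⟩
    apply ext4 <;> simp [re_mul, imI_mul, imJ_mul, imK_mul, ep_re, ep_imI, ep_imJ, ep_imK] <;> ring
  · intro x hx
    obtain ⟨y, ⟨a, b, c, d, rfl⟩, rfl⟩ := mem_rm.1 hx
    refine mem_lm.2 ⟨mk4 a b d (-c : ℤ), ⟨a, b, d, -c, rfl⟩, ?_⟩
    apply ext4 <;> simp [re_mul, imI_mul, imJ_mul, imK_mul, ep_re, ep_imI, ep_imJ, ep_imK] <;> ring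

theorem rot_mz {P : MvPolynomial (Fin 3) ℂ} {a b c d N : ℤ} {M : Fin 3 → Fin 3 → ℤ}
    (h1 : a ^ 2 + b ^ 2 + c ^ 2 + d ^ 2 = N) (h2 : N ≠ 0)
    (h3 : ∀ i j, rotZ a b c d i j = N * M i j) : lsub (mz M) P = lsub (rC (mk4 a b c d)) P := by
  apply lsub_congr
  intro i j
  have h5 := rmat_rotZ h1 h2 i j
  rw [h3 i j] at h5
  push_cast at h5
  have h2' : (N : ℚ) ≠ 0 := by exact_mod_cast h2
  have h6 := mul_left_cancel₀ h2' h5
  unfold rC mz
  rw [h6, Rat.cast_intCast]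

theorem rC_om {P : MvPolynomial (Fin 3) ℂ} : lsub (rC om) P = lsub (mz cyZ) P := by
  have h1 : mk4 ((1 : ℤ) : ℚ) ((1 : ℤ) : ℚ) ((1 : ℤ) : ℚ) ((1 : ℤ) : ℚ) = ((2 : ℚ) : ℍ[ℚ]) * om := by
    rw [ratmul]
    apply ext4 <;> simp [om]
  have h2ne : ((2 : ℚ) : ℍ[ℚ]) ≠ 0 := (gam_rat (by norm_num)).ne
  have h3 := rot_mz (P := P) (a := 1) (b := 1) (c := 1) (d := 1) (N := 4) (M := cyZ) (by norm_num)
    (by norm_num) (by decide)
  rw [h3, h1, ← rC_mul h2ne om_ne, rC_coe (by norm_num)]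

theorem rC_om2 {P : MvPolynomial (Fin 3) ℂ} : lsub (rC om2) P = lsub (mz cy2) P := by
  rw [← om_mul, ← rC_mul om_ne om_ne, rC_om, rC_om, lsub_lsub]
  apply lsub_congr
  intro i j
  have : ∀ i j, ∑ l, cyZ i l * cyZ l j = cy2 i j := by decide
  unfold mz
  rw [← this i j]
  push_cast
  rfl

theorem sym4_of {k : ℕ} (hk : Even k) {P : MvPolynomial (Fin 3) ℂ} (hhom : P.IsHomogeneous k)
    (hi : lsub (rC (mk4 (0 : ℤ) (1 : ℤ) (0 : ℤ) (0 : ℤ))) P = P)
    (hj : lsub (rC (mk4 (0 : ℤ) (0 : ℤ) (1 : ℤ) (0 : ℤ))) P = P)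
    (hep : lsub (rC (mk4 (1 : ℤ) (1 : ℤ) (0 : ℤ) (0 : ℤ))) P = P)
    (htr : P + (lsub (rC om) P + lsub (rC om2) P) = 0) : Sym4 P := by
  have hneg : lsub (mz (fun i j => if i = j then (-1 : ℤ) else 0)) P = P := by
    have h1 := lsub_smul hhom (-1 : ℂ) (fun i j => if i = j then 1 else 0)
    rw [lsub_id, hk.neg_one_pow, C_1, one_mul] at h1
    refine (lsub_congr ?_ P).trans h1
    intro i j
    simp only [mz]
    split_ifs <;> simp
  have h1 : lsub (mz (![![1, 0, 0], ![0, -1, 0], ![0, 0, -1]])) P = P := by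
    rw [rot_mz (a := 0) (b := 1) (c := 0) (d := 0) (N := 1) (by norm_num) (by norm_num)
      (by decide)]
    exact hi
  have h2 : lsub (mz (![![-1, 0, 0], ![0, 1, 0], ![0, 0, -1]])) P = P := by
    rw [rot_mz (a := 0) (b := 0) (c := 1) (d := 0) (N := 1) (by norm_num) (by norm_num)
      (by decide)]
    exact hj
  have h3 : lsub (mz (![![1, 0, 0], ![0, 0, 1], ![0, -1, 0]])) P = P := by
    rw [rot_mz (a := 1) (b := 1) (c := 0) (d := 0) (N := 2) (by norm_num) (by norm_num)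
      (by decide)]
    exact hep
  have hf0 : lsub (mz (dg (-1) 1 1)) P = P := Sym.comp h1 hneg (by decide)
  have hf1 : lsub (mz (dg 1 (-1) 1)) P = P := Sym.comp h2 hneg (by decide)
  have hf01 : lsub (mz (dg (-1) (-1) 1)) P = P := Sym.comp hf0 hf1 (by decide)
  have hf2 : lsub (mz (dg 1 1 (-1))) P = P := Sym.comp hf01 hneg (by decide)
  refine ⟨hf0, hf1, hf2, Sym.comp h3 hf2 (by decide), ?_⟩
  rw [← rC_om, ← rC_om2]
  exact htr

theorem sym4_form {k : ℕ} (hk : Even k) {F : Fun3} (hF : Form4 k F) : Sym4 (F Oo Lip) := by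
  have hu : ∀ a b c d : ℤ, a ^ 2 + b ^ 2 + c ^ 2 + d ^ 2 = 1 →
      lsub (rC (mk4 (a : ℚ) b c d)) (F Oo Lip) = F Oo Lip := by
    intro a b c d h
    have hne : mk4 (a : ℚ) b c d ≠ 0 := by
      rw [← normSq_ne_zero, normSq_def']
      simp only [mk4_re, mk4_imI, mk4_imJ, mk4_imK]
      have : (a : ℚ) ^ 2 + (b : ℚ) ^ 2 + (c : ℚ) ^ 2 + (d : ℚ) ^ 2 = 1 := by exact_mod_cast h
      rw [this]
      norm_num
    have h1 := hF.left _ hne Oo Lip
    rw [lm_i_Lip h, lm_i_Oo h] at h1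
    exact h1.symm
  refine sym4_of hk (hF.hom Oo Lip) (hu 0 1 0 0 (by norm_num)) (hu 0 0 1 0 (by norm_num)) ?_ ?_
  · have h1 := hF.left ep ep_ne Oo Lip
    rw [← rm_ep_Oo, Lip_ep, hF.two] at h1
    have e : mk4 ((1 : ℤ) : ℚ) ((1 : ℤ) : ℚ) ((0 : ℤ) : ℚ) ((0 : ℤ) : ℚ) = ep := by
      unfold ep; simp
    rw [e]
    exact h1.symm
  · rw [← tr_Oo hF.left]
    exact hF.tr Oo Oo_isRI

end Pool.Agent.Helper725_HQ
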