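import Pool.Agent.Helper725_HQ.BDefs
import Pool.Agent.Helper725_HQ.ARed
import Pool.Agent.Helper725_HQ.SInv

/-! Generators at three adapted to a vector. -/

set_option autoImplicit false
set_option linter.unusedVariables false
set_option linter.unusedSimpArgs false

namespace Pool.Agent.Helper725_HQ

open Quaternion MvPolynomial

/-- generators of the Hurwitz order at three -/
def GO (u : ℍ[ℚ]) : Prop := u ∈ Hur ∧ ∃ m : ℕ, normSq u = m ∧ ¬ 3 ∣ m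

theorem GO.ne {u : ℍ[ℚ]} (h : GO u) : u ≠ 0 := by
  obtain ⟨_, m, h1, h2⟩ := h
  rintro rfl
  rw [map_zero] at h1
  have : (m : ℚ) = 0 := h1.symm
  have : m = 0 := by exact_mod_cast this
  omega

theorem GO.mul {u v : ℍ[ℚ]} (hu : GO u) (hv : GO v) : GO (u * v) := by
  obtain ⟨a1, m, a2, a3⟩ := hu
  obtain ⟨b1, m', b2, b3⟩ := hv
  refine ⟨Hur.mul_mem a1 b1, m * m', by rw [map_mul, a2, b2]; push_cast; rfl, ?_⟩
  intro h
  rcases (Nat.Prime.dvd_mul p3).1 h with h | h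
  · exact a3 h
  · exact b3 h

theorem GO.star {u : ℍ[ℚ]} (hu : GO u) : GO (star u) := by
  obtain ⟨a1, m, a2, a3⟩ := hu
  exact ⟨star_mem a1, m, by rw [normSq_star, a2], a3⟩

theorem GO_int {a b c d : ℤ} (h : ¬ (3 : ℤ) ∣ a ^ 2 + b ^ 2 + c ^ 2 + d ^ 2) :
    GO (mk4 a b c d) := by
  refine ⟨int_mem a b c d, (a ^ 2 + b ^ 2 + c ^ 2 + d ^ 2).toNat, ?_, ?_⟩
  · rw [normSq_def']
    simp only [mk4_re, mk4_imI, mk4_imJ, mk4_imK]
    have h1 : (((a ^ 2 + b ^ 2 + c ^ 2 + d ^ 2).toNat : ℤ) : ℚ) =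
      ((a ^ 2 + b ^ 2 + c ^ 2 + d ^ 2 : ℤ) : ℚ) := by
      rw [Int.toNat_of_nonneg (by positivity)]
    rw [Int.cast_natCast] at h1
    rw [h1]
    push_cast
    rfl
  · intro h1
    apply h
    have h2 : (3 : ℤ) ∣ ((a ^ 2 + b ^ 2 + c ^ 2 + d ^ 2).toNat : ℤ) := by exact_mod_cast h1
    rwa [Int.toNat_of_nonneg (by positivity)] at h2

theorem three_smulH (z : ℍ[ℚ]) : (3 : ℍ[ℚ]) * z = (3 : ℚ) • z := by
  rw [← ratmul]
  congr 1

theorem nat_smulH (m : ℕ) (z : ℍ[ℚ]) : (m : ℍ[ℚ]) * z = (m : ℚ) • z := by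
  rw [← ratmul]
  congr 1

theorem gen_iff {u : ℍ[ℚ]} : Gen3 Oo u ↔ GO u := by
  constructor
  · rintro ⟨h1, h2⟩
    obtain ⟨o, ho, z, hz, h3⟩ := h2 1 Hur.one_mem
    have hu : u ∈ Hur := h1
    have hz' : z ∈ Hur := hz
    refine ⟨hu, ?_⟩
    obtain ⟨m, hm⟩ := normSq_nat hu
    obtain ⟨m', hm'⟩ := normSq_nat ho
    obtain ⟨n, hn⟩ := normSq_nat hz'
    refine ⟨m, hm, ?_⟩
    obtain ⟨a, b, c, d, hz1, _⟩ := hz'
    have h4 : u * o = 1 - 3 * z := by rw [h3]; abel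
    have h5 := congrArg normSq h4
    have h6 : normSq (1 - 3 * z) = 1 - 3 * (a : ℚ) + 9 * (n : ℚ) := by
      rw [three_smulH, ← hn, normSq_def', normSq_def']
      simp only [re_sub, imI_sub, imJ_sub, imK_sub, re_smul, imI_smul, imJ_smul, imK_smul,
        re_one, imI_one, imJ_one, imK_one, smul_eq_mul]
      rw [hz1]
      ring
    rw [map_mul, hm, hm', h6] at h5
    intro h7
    obtain ⟨t, rfl⟩ := h7
    have h8 : ((3 * t : ℕ) : ℤ) * (m' : ℤ) = 1 - 3 * a + 9 * (n : ℤ) := by exact_mod_cast h5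
    push_cast at h8
    have h9 : (3 : ℤ) * ((t : ℤ) * m') = 1 - 3 * a + 9 * (n : ℤ) := by rw [← h8]; ring
    omega
  · rintro ⟨h1, m, h2, h3⟩
    refine ⟨h1, fun y hy => ?_⟩
    have hc : IsCoprime (3 : ℤ) (m : ℤ) := by
      have := (Nat.Prime.coprime_iff_not_dvd p3).2 h3
      exact_mod_cast this.isCoprime
    obtain ⟨a, b, hab⟩ := hc
    refine ⟨(b : ℍ[ℚ]) * (star u * y), Hur.mul_mem (intCast_mem_Hur b)
      (Hur.mul_mem (star_mem h1) hy), (a : ℍ[ℚ]) * y, Hur.mul_mem (intCast_mem_Hur a) hy, ?_⟩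
    have e1 : u * ((b : ℍ[ℚ]) * (star u * y)) = (b : ℍ[ℚ]) * ((m : ℍ[ℚ]) * y) := by
      have e2 : u * star u = (m : ℍ[ℚ]) := by
        rw [self_mul_star, h2]; rfl
      rw [← mul_assoc, (Int.cast_commute b u).eq.symm, mul_assoc, ← mul_assoc u, e2]
    rw [e1]
    have e3 : (3 : ℍ[ℚ]) = ((3 : ℤ) : ℍ[ℚ]) := by norm_num
    have e4 : (m : ℍ[ℚ]) = ((m : ℤ) : ℍ[ℚ]) := by push_cast; rfl
    rw [e3, e4, ← mul_assoc, ← mul_assoc, ← add_mul, ← Int.cast_mul, ← Int.cast_mul,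
      ← Int.cast_add]
    have e5 : b * (m : ℤ) + 3 * a = 1 := by rw [← hab]; ring
    rw [e5, Int.cast_one, one_mul]

/-- functions on the generators of the Hurwitz order at three -/
structure Fu (n k : ℕ) (f : ℍ[ℚ] → MvPolynomial (Fin 3) ℂ) : Prop where
  hom : ∀ u, (f u).IsHomogeneous k
  un : ∀ a b c d : ℤ, a ^ 2 + b ^ 2 + c ^ 2 + d ^ 2 = 1 → ∀ u, GO u →
    f (mk4 a b c d * u) = lsub (rC (mk4 a b c d)) (f u)
  ep : ∀ u, GO u → f (ep * u) = lsub (rC ep) (f u)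
  lvl : ∀ u u', GO u → GO u' → (∃ z ∈ Hur, u' = u + (3 ^ n : ℚ) • z) → f u' = f u
  tor : ∀ u, GO u → ∀ a b : ℤ, ¬ (3 : ℤ) ∣ a ^ 2 + b ^ 2 → f (u * mk4 a b 0 0) = f u
  sgn : ∀ u, GO u → f (u * mk4 0 0 1 0) = (-1 : ℂ) ^ k • f u

/-- `u` conjugates the vector `x` to a multiple of `i` modulo `3 ^ n` -/
def Ad (n : ℕ) (x : Fin 3 → ℤ) (u : ℍ[ℚ]) : Prop :=
  GO u ∧ ∃ c : ℤ, c % 3 = 1 ∧ ∃ z ∈ Hur, pq x * u = u * mk4 0 c 0 0 + (3 ^ n : ℚ) • z

section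
variable {n k : ℕ} {f : ℍ[ℚ] → MvPolynomial (Fin 3) ℂ}

theorem Fu.scal (hf : Fu n k f) {u : ℍ[ℚ]} (hu : GO u) {a : ℤ} (ha : ¬ (3 : ℤ) ∣ a) :
    f ((a : ℚ) • u) = f u := by
  have h := hf.tor u hu a 0 (by
    intro h
    rw [zero_pow two_ne_zero, add_zero] at h
    exact ha (Int.prime_three.dvd_of_dvd_pow h))
  rw [← h]
  congr 1
  rw [Int.cast_zero]
  apply ext4 <;> simp [re_mul, imI_mul, imJ_mul, imK_mul, mul_comm]

theorem GO_smul {u : ℍ[ℚ]} (hu : GO u) {a : ℤ} (ha : ¬ (3 : ℤ) ∣ a) : GO ((a : ℚ) • u) := by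
  have h1 : GO (mk4 a (0 : ℤ) (0 : ℤ) (0 : ℤ)) := GO_int (by
    intro h
    apply ha
    apply Int.prime_three.dvd_of_dvd_pow (n := 2)
    simpa using h)
  have h2 := h1.mul hu
  have e : mk4 a (0 : ℤ) (0 : ℤ) (0 : ℤ) * u = (a : ℚ) • u := by
    apply ext4 <;> simp [re_mul, imI_mul, imJ_mul, imK_mul]
  rwa [e] at h2

theorem smul_Hur {z : ℍ[ℚ]} (hz : z ∈ Hur) (a : ℤ) : (a : ℚ) • z ∈ Hur := by
  have h := Hur.mul_mem (intCast_mem_Hur a) hz
  have e : (a : ℍ[ℚ]) * z = (a : ℚ) • z := by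
    rw [← ratmul]; congr 1
  rwa [e] at h

theorem half_Hur {z : ℍ[ℚ]} (hz : z ∈ Hur) : ∃ A B C D : ℤ, z.re = A / 2 ∧ z.imI = B / 2 ∧
    z.imJ = C / 2 ∧ z.imK = D / 2 := by
  obtain ⟨a, b, c, d, h1, h2, h3, h4⟩ := hz
  exact ⟨a, a + 2 * b, a + 2 * c, a + 2 * d, h1, by rw [h2]; push_cast; ring,
    by rw [h3]; push_cast; ring, by rw [h4]; push_cast; ring⟩

/-- the polynomial attached to an adapted generator is unique -/
theorem ad_unique (hf : Fu n k f) {x : Fin 3 → ℤ} {u u' : ℍ[ℚ]} (h : Ad n x u) (h' : Ad n x u') :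
    f u' = f u := by
  rcases Nat.eq_zero_or_pos n with hn | hn
  · subst hn
    exact hf.lvl u u' h.1 h'.1 ⟨u' - u, Hur.sub_mem h'.1.1 h.1.1, by
      rw [pow_zero, one_smul]; abel⟩
  obtain ⟨hu, c, hc, z, hz, hxu⟩ := h
  obtain ⟨hu', c', hc', z', hz', hxu'⟩ := h'
  have hu1 := hu.1
  have hu1' := hu'.1
  obtain ⟨q, hq⟩ : ∃ q : ℤ, q = 3 ^ n := ⟨_, rfl⟩
  have hqQ : (3 ^ n : ℚ) = (q : ℚ) := by rw [hq]; push_cast; rfl
  have hq3 : (3 : ℤ) ∣ q := by rw [hq]; exact dvd_pow_self 3 (by omega)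
  rw [hqQ] at hxu hxu'
  have hunit : ∀ m a : ℤ, ¬ (3 : ℤ) ∣ m → q ∣ m * a → q ∣ a := by
    intro m a hm h
    rw [hq] at h ⊢
    exact (IsCoprime.pow_left ((Prime.coprime_iff_not_dvd Int.prime_three).2 hm)).dvd_of_dvd_mul_left h
  -- congruence of the constants
  have key : ∀ (u z : ℍ[ℚ]) (c : ℤ), GO u → z ∈ Hur → pq x * u = u * mk4 0 c 0 0 + (q : ℚ) • z →
      q ∣ (x 0 ^ 2 + x 1 ^ 2 + x 2 ^ 2) - c ^ 2 := by
    intro u z c hu hz h
    obtain ⟨hu1, m, hm, hm3⟩ := hu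
    obtain ⟨w, hw⟩ : ∃ w, w = u * mk4 0 c 0 0 := ⟨_, rfl⟩
    have hw1 : w ∈ Hur := by
      rw [hw]
      have := int_mem 0 c 0 0
      rw [Int.cast_zero] at this
      exact Hur.mul_mem hu1 this
    have hwn : normSq w = (m : ℚ) * (c : ℚ) ^ 2 := by
      rw [hw, map_mul, hm, normSq_def']; simp
    have h1 := congrArg normSq h
    rw [map_mul, normSq_pq, hm, ← hw] at h1
    obtain ⟨t, ht⟩ : ∃ t : ℤ, 2 * (w * star z).re = t := by
      obtain ⟨A, B, C, D, h1, _⟩ := half_Hur (Hur.mul_mem hw1 (star_mem hz))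
      exact ⟨A, by rw [h1]; ring⟩
    obtain ⟨l, hl⟩ := normSq_nat hz
    have h2 : normSq (w + (q : ℚ) • z) = normSq w + (q : ℚ) * (2 * (w * star z).re) +
        (q : ℚ) ^ 2 * normSq z := by
      rw [normSq_def', normSq_def', normSq_def', re_mul]
      simp
      ring
    rw [h2, ht, hl, hwn] at h1
    have h3 : (x 0 ^ 2 + x 1 ^ 2 + x 2 ^ 2) * (m : ℤ) = (m : ℤ) * c ^ 2 + q * t + q ^ 2 * l := by
      exact_mod_cast h1
    apply hunit (m : ℤ) _ (by intro h; exact hm3 (by exact_mod_cast h))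
    exact ⟨t + q * l, by linear_combination h3⟩
  have k1 := key u z c hu hz hxu
  have k2 := key u' z' c' hu' hz' hxu'
  have k3 : q ∣ c' - c := by
    apply hunit (c' + c)
    · omega
    · have h1 := dvd_sub k1 k2
      have e : (x 0 ^ 2 + x 1 ^ 2 + x 2 ^ 2 - c ^ 2) - (x 0 ^ 2 + x 1 ^ 2 + x 2 ^ 2 - c' ^ 2) =
          (c' + c) * (c' - c) := by ring
      rwa [e] at h1
  obtain ⟨e, he⟩ := k3
  -- the commutator
  obtain ⟨m, hm, hm3⟩ := hu.2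
  obtain ⟨m', hm', hm3'⟩ := hu'.2
  obtain ⟨v, hv⟩ : ∃ v, v = star u * u' := ⟨_, rfl⟩
  have hvm : v ∈ Hur := by rw [hv]; exact Hur.mul_mem (star_mem hu1) hu1'
  have hvn : normSq v = (m : ℚ) * m' := by rw [hv, map_mul, normSq_star, hm, hm']
  have hst : star u * pq x = mk4 0 c 0 0 * star u - (q : ℚ) • star z := by
    have h1 := congrArg Star.star hxu
    rw [star_mul, star_add, star_mul] at h1
    have e1 : star (pq x) = -pq x := by
      unfold pq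
      apply ext4 <;> simp
    have e2 : star (mk4 0 c 0 0) = -mk4 0 (c : ℚ) 0 0 := by
      apply ext4 <;> simp
    have e3 : star ((q : ℚ) • z) = (q : ℚ) • star z := by
      apply ext4 <;> simp
    rw [e1, e2, e3] at h1
    rw [mul_neg, neg_mul] at h1
    have h2 := congrArg Neg.neg h1
    rw [neg_neg, neg_add, neg_neg] at h2
    rw [h2, sub_eq_add_neg]
  have hcomm : (c : ℚ) • (mk4 0 1 0 0 * v - v * mk4 0 1 0 0) = (q : ℚ) • ((e : ℚ) • (v * mk4 0 1 0 0) +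
      star z * u' + star u * z') := by
    have h1 : star u * (pq x * u') = (mk4 0 c 0 0 * star u - (q : ℚ) • star z) * u' := by
      rw [← mul_assoc, hst]
    rw [hxu', mul_add, ← mul_assoc, ← hv, sub_mul, mul_assoc, ← hv, mul_smul_comm,
      smul_mul_assoc] at h1
    have e1 : mk4 0 c 0 0 * v = (c : ℚ) • (mk4 0 1 0 0 * v) := by
      have : mk4 0 c 0 0 = (c : ℚ) • mk4 0 1 0 0 := by apply ext4 <;> simp
      rw [this, smul_mul_assoc]
    have e2 : v * mk4 0 c' 0 0 = (c : ℚ) • (v * mk4 0 1 0 0) + (q : ℚ) • ((e : ℚ) • (v * mk4 0 1 0 0)) := by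
      have h3 : (c' : ℚ) = c + q * e := by
        have : c' = c + q * e := by rw [← he]; ring
        exact_mod_cast this
      have : mk4 0 c' 0 0 = (c' : ℚ) • mk4 0 1 0 0 := by apply ext4 <;> simp
      rw [this, mul_smul_comm, h3, add_smul, mul_smul]
    rw [e1, e2] at h1
    rw [smul_sub, smul_add, smul_add, ← eq_sub_iff_add_eq.1 (eq_sub_of_add_eq rfl)]
    have h4 : (c : ℚ) • (mk4 0 1 0 0 * v) = (c : ℚ) • (v * mk4 0 1 0 0) +
      (q : ℚ) • ((e : ℚ) • (v * mk4 0 1 0 0)) + (q : ℚ) • (star u * z') + (q : ℚ) • (star z * u') := by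
      rw [h1]; abel
    rw [h4]; abel
  obtain ⟨w, hw, hww⟩ : ∃ w ∈ Hur, (c : ℚ) • (mk4 0 1 0 0 * v - v * mk4 0 1 0 0) = (q : ℚ) • w := by
    refine ⟨_, ?_, hcomm⟩
    have hi : mk4 0 1 0 0 ∈ Hur := by
      have := int_mem 0 1 0 0
      simpa using this
    exact Hur.add_mem (Hur.add_mem (smul_Hur (Hur.mul_mem hvm hi) e)
      (Hur.mul_mem (star_mem hz) hu1')) (Hur.mul_mem (star_mem hu1) hz')
  obtain ⟨A, B, C, D, v1, v2, v3, v4⟩ := half_Hur hvm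
  obtain ⟨A', B', C', D', w1, w2, w3, w4⟩ := half_Hur hw
  have hC : q ∣ C := by
    have h1 := congrArg QuaternionAlgebra.imK hww
    simp [imK_mul] at h1
    rw [v3, w4] at h1
    apply hunit (2 * c)
    · omega
    · refine ⟨D', ?_⟩
      have h2 : (2 : ℚ) * c * C = q * D' := by linear_combination 2 * h1
      exact_mod_cast h2
  have hD : q ∣ D := by
    have h1 := congrArg QuaternionAlgebra.imJ hww
    simp [imJ_mul] at h1
    rw [v4, w3] at h1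
    apply hunit (2 * c)
    · omega
    · refine ⟨-C', ?_⟩
      have h2 : (2 : ℚ) * c * D = q * (-C') := by linear_combination (-2) * h1
      exact_mod_cast h2
  obtain ⟨C1, hC1⟩ := hC
  obtain ⟨D1, hD1⟩ := hD
  have hAB : ¬ (3 : ℤ) ∣ A ^ 2 + B ^ 2 := by
    intro h3
    have h4 : A ^ 2 + B ^ 2 + C ^ 2 + D ^ 2 = 4 * ((m : ℤ) * m') := by
      have h5 : ((A : ℚ) ^ 2 + B ^ 2 + C ^ 2 + D ^ 2) = 4 * (m * m') := by
        rw [← hvn, normSq_def', v1, v2, v3, v4]; ring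
      exact_mod_cast h5
    obtain ⟨q', hq'⟩ := hq3
    have h5 : (3 : ℤ) ∣ C ^ 2 + D ^ 2 := ⟨q' * (C1 * C + D1 * D), by
      rw [pow_two, pow_two]
      nth_rewrite 1 [hC1]
      nth_rewrite 1 [hD1]
      rw [hq']; ring⟩
    have h6 : (3 : ℤ) ∣ 4 * ((m : ℤ) * m') := by
      rw [← h4]
      have := dvd_add h3 h5
      have e : A ^ 2 + B ^ 2 + (C ^ 2 + D ^ 2) = A ^ 2 + B ^ 2 + C ^ 2 + D ^ 2 := by ring
      rwa [e] at this
    rcases Int.prime_three.dvd_or_dvd h6 with h | h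
    · omega
    · rcases Int.prime_three.dvd_or_dvd h with h | h
      · exact hm3 (by exact_mod_cast h)
      · exact hm3' (by exact_mod_cast h)
  -- conclusion
  have s1 : f (u * mk4 A B 0 0) = f u := hf.tor u hu A B hAB
  have hgo : GO (u * mk4 A B 0 0) := by
    have := hu.mul (GO_int (a := A) (b := B) (c := 0) (d := 0) (by simpa using hAB))
    rwa [Int.cast_zero] at this
  have h2v : (2 : ℚ) • v = mk4 A B 0 0 + (q : ℚ) • mk4 0 0 C1 D1 := by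
    apply ext4
    · simp [v1]; ring
    · simp [v2]; ring
    · simp [v3]; rw [hC1]; push_cast; ring
    · simp [v4]; rw [hD1]; push_cast; ring
  have h2m : ¬ (3 : ℤ) ∣ 2 * (m : ℤ) := by
    intro h
    rcases Int.prime_three.dvd_or_dvd h with h | h
    · omega
    · exact hm3 (by exact_mod_cast h)
  have s2 : f (((2 * (m : ℤ) : ℤ) : ℚ) • u') = f u' := hf.scal hu' h2m
  have s3 : ((2 * (m : ℤ) : ℤ) : ℚ) • u' = u * mk4 A B 0 0 + (3 ^ n : ℚ) • (u * mk4 0 0 C1 D1) := by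
    have h1 : u * ((2 : ℚ) • v) = ((2 * (m : ℤ) : ℤ) : ℚ) • u' := by
      rw [hv, mul_smul_comm, ← mul_assoc, self_mul_star, hm, coe_mul_eq_smul, smul_smul]
      push_cast
      rfl
    rw [← h1, h2v, mul_add, mul_smul_comm, hqQ]
  have s4 := hf.lvl (u * mk4 A B 0 0) (((2 * (m : ℤ) : ℤ) : ℚ) • u') hgo (GO_smul hu' h2m)
    ⟨u * mk4 0 0 C1 D1, by
      have := Hur.mul_mem hu1 (int_mem 0 0 C1 D1)
      rwa [Int.cast_zero] at this, s3⟩
  rw [← s2, s4, s1]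

end

end Pool.Agent.Helper725_HQ
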