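import Pool.Agent.Helper725_HQ.BGen

/-! The values of a form at adapted generators. -/

set_option autoImplicit false
set_option linter.unusedVariables false
set_option linter.unusedSimpArgs false

namespace Pool.Agent.Helper725_HQ

open Quaternion MvPolynomial

theorem evvl (P : MvPolynomial (Fin 3) ℂ) (x : Fin 3 → ℤ) : ev P (pq x) = vl P x := by
  rw [ev_eq]
  unfold vl
  congr 1
  apply congrArg
  funext i
  rw [vec_pq, Rat.cast_intCast]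

theorem star_inv {α : ℍ[ℚ]} (hα : α ≠ 0) : (normSq α) • α⁻¹ = star α := by
  have h : normSq α ≠ 0 := normSq_ne_zero.2 hα
  have h2 : α⁻¹ = (normSq α)⁻¹ • star α := rfl
  rw [h2, smul_smul, mul_inv_cancel₀ h, one_smul]

section
variable {n k : ℕ} {f : ℍ[ℚ] → MvPolynomial (Fin 3) ℂ}

open Classical in
/-- the value at a vector -/
noncomputable def gv (n : ℕ) (f : ℍ[ℚ] → MvPolynomial (Fin 3) ℂ) (x : Fin 3 → ℤ) : ℂ :=
  if h : ∃ u, Ad n x u then vl (f h.choose) x else 0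

theorem gv_eq (hf : Fu n k f) {x : Fin 3 → ℤ} {u : ℍ[ℚ]} (h : Ad n x u) :
    gv n f x = vl (f u) x := by
  have h' : ∃ u, Ad n x u := ⟨u, h⟩
  unfold gv
  rw [dif_pos h', ad_unique hf h h'.choose_spec]

theorem Ad_loc {x y : Fin 3 → ℤ} {u : ℍ[ℚ]} (h : Ad n x u)
    (hxy : ∀ i, ((3 ^ n : ℕ) : ℤ) ∣ y i - x i) : Ad n y u := by
  obtain ⟨hu, c, hc, z, hz, h1⟩ := h
  choose w hw using hxy
  refine ⟨hu, c, hc, z + pq w * u, Hur.add_mem hz (Hur.mul_mem (pq_mem w) hu.1), ?_⟩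
  have e : pq y = pq x + (3 ^ n : ℚ) • pq w := by
    have h2 : ∀ i, (y i : ℚ) = x i + 3 ^ n * w i := by
      intro i
      have h3 : y i = x i + ((3 ^ n : ℕ) : ℤ) * w i := by rw [← hw i]; ring
      rw [h3]; push_cast; ring
    unfold pq
    apply ext4
    · simp
    · simp; rw [h2]
    · simp; rw [h2]
    · simp; rw [h2]
  rw [e, add_mul, h1, smul_mul_assoc, smul_add, add_assoc]

theorem pq_smul (s : ℤ) (x : Fin 3 → ℤ) : pq (fun i => s * x i) = (s : ℚ) • pq x := by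
  unfold pq
  apply ext4 <;> simp

theorem Ad_scal {x : Fin 3 → ℤ} {u : ℍ[ℚ]} (h : Ad n x u) {s : ℤ} (hs : s % 3 = 1) :
    Ad n (fun i => s * x i) u := by
  obtain ⟨hu, c, hc, z, hz, h1⟩ := h
  refine ⟨hu, s * c, by rw [Int.mul_emod, hs, hc]; rfl, (s : ℚ) • z, smul_Hur hz s, ?_⟩
  rw [pq_smul, smul_mul_assoc, h1, smul_add, smul_comm, ← mul_smul_comm]
  congr 2
  apply ext4 <;> simp

theorem GO_j : GO (mk4 0 0 1 0) := by
  have := GO_int (a := 0) (b := 0) (c := 1) (d := 0) (by norm_num)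
  simpa using this

theorem Ad_neg {x : Fin 3 → ℤ} {u : ℍ[ℚ]} (h : Ad n x u) :
    Ad n (fun i => -x i) (u * mk4 0 0 1 0) := by
  obtain ⟨hu, c, hc, z, hz, h1⟩ := h
  refine ⟨hu.mul GO_j, c, hc, -(z * mk4 0 0 1 0), Hur.neg_mem (Hur.mul_mem hz GO_j.1), ?_⟩
  have e : pq (fun i => -x i) = -pq x := by
    unfold pq
    apply ext4 <;> simp
  have e2 : mk4 0 c 0 0 * mk4 0 0 1 0 = -(mk4 0 0 1 0 * mk4 0 (c : ℚ) 0 0) := by
    apply ext4 <;> simp [re_mul, imI_mul, imJ_mul, imK_mul]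
  rw [e, neg_mul, ← mul_assoc, h1, add_mul, mul_assoc, e2, smul_mul_assoc, smul_neg, mul_neg,
    neg_add, neg_neg, mul_assoc]

theorem Ad_conj {x y : Fin 3 → ℤ} {u α : ℍ[ℚ]} (hα : GO α) {t : ℤ} (ht : t % 3 = 1)
    (hy : pq y = (t : ℚ) • (α⁻¹ * pq x * α)) (h : Ad n x u) : Ad n y (star α * u) := by
  obtain ⟨hu, c, hc, z, hz, h1⟩ := h
  refine ⟨hα.star.mul hu, t * c, by rw [Int.mul_emod, ht, hc]; rfl, (t : ℚ) • (star α * z),
    smul_Hur (Hur.mul_mem hα.star.1 hz) t, ?_⟩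
  have e1 : α⁻¹ * pq x * α * (star α * u) = star α * (pq x * u) := by
    rw [mul_assoc (α⁻¹ * pq x), ← mul_assoc α, self_mul_star, coe_mul_eq_smul, mul_smul_comm,
      ← star_inv hα.ne, mul_assoc, smul_mul_assoc]
  rw [hy, smul_mul_assoc, e1, h1, mul_add, mul_smul_comm, smul_add, smul_comm (t : ℚ), mul_assoc,
    ← mul_smul_comm, ← mul_smul_comm]
  congr 3
  apply ext4 <;> simp

/-- square roots of principal units -/
theorem sqrt_int (n : ℕ) {m : ℤ} (hm : m % 3 = 1) : ∃ c : ℤ, c % 3 = 1 ∧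
    ((3 ^ n : ℕ) : ℤ) ∣ c ^ 2 - m := by
  obtain ⟨w, hw⟩ := sqrt_unit (N := n) ((m / 3 : ℤ) : Zn n)
  obtain ⟨w0, hw0⟩ := ZMod.intCast_surjective w
  refine ⟨1 + 3 * w0, by omega, ?_⟩
  rw [← ZMod.intCast_eq_intCast_iff_dvd_sub]
  have e : m = 1 + 3 * (m / 3) := by omega
  rw [e]
  push_cast
  rw [hw0]
  exact hw.symm

theorem Ad_exists (n : ℕ) {x : Fin 3 → ℤ} (hx : x ∈ XX) : ∃ u, Ad n x u := by
  obtain ⟨h0, ⟨b, hb⟩, ⟨d, hd⟩⟩ := hx
  have hN : (x 0 ^ 2 + x 1 ^ 2 + x 2 ^ 2) % 3 = 1 := by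
    have h1 := sq_mod3 (x 0)
    have h2 : x 0 ^ 2 % 3 = 1 := by
      rcases h1 with h1 | h1
      · exact absurd (Int.dvd_of_emod_eq_zero h1.1) h0
      · exact h1.1
    have h3 : x 1 ^ 2 = 3 * (3 * b ^ 2) := by rw [hb]; ring
    have h4 : x 2 ^ 2 = 3 * (3 * d ^ 2) := by rw [hd]; ring
    omega
  obtain ⟨c, hc, e, he⟩ := sqrt_int n hN
  have heQ : (c : ℚ) ^ 2 - ((x 0 : ℚ) ^ 2 + (x 1 : ℚ) ^ 2 + (x 2 : ℚ) ^ 2) = 3 ^ n * e := by
    exact_mod_cast he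
  have h01 : x 0 % 3 = 1 ∨ x 0 % 3 = 2 := by omega
  have h3 : ∀ a : ℤ, a % 3 = 1 ∨ a % 3 = 2 → ∀ p q : ℤ, ¬ (3 : ℤ) ∣ a ^ 2 + (3 * p) ^ 2 + (3 * q) ^ 2 := by
    intro a ha p q
    have h1 := sq_mod3 a
    have h2 : a ^ 2 % 3 = 1 := by
      rcases h1 with h1 | h1
      · omega
      · exact h1.1
    have e1 : (3 * p) ^ 2 = 3 * (3 * p ^ 2) := by ring
    have e2 : (3 * q) ^ 2 = 3 * (3 * q ^ 2) := by ring
    omega
  rcases h01 with h01 | h01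
  · refine ⟨mk4 (-x 0 - c : ℤ) (0 : ℤ) (x 2 : ℤ) (-x 1 : ℤ), GO_int ?_, c, hc,
      mk4 0 (e : ℤ) (0 : ℤ) (0 : ℤ), ?_, ?_⟩
    · have := h3 (-x 0 - c) (by omega) d (-b)
      rw [hd, hb]
      intro h
      apply this
      have e1 : (-x 0 - c) ^ 2 + (3 * d) ^ 2 + (3 * -b) ^ 2 = (-x 0 - c) ^ 2 + 0 ^ 2 + (3 * d) ^ 2 +
        (-(3 * b)) ^ 2 := by ring
      rw [e1]
      exact h
    · have := int_mem 0 e 0 0
      simpa using this
    · unfold pq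
      apply ext4
      · simp [re_mul]; ring
      · simp [imI_mul]
        linear_combination heQ
      · simp [imJ_mul]; ring
      · simp [imK_mul]; ring
  · refine ⟨mk4 (x 2 : ℤ) (-x 1 : ℤ) (x 0 - c : ℤ) (0 : ℤ), GO_int ?_, c, hc,
      mk4 0 (0 : ℤ) (0 : ℤ) (-e : ℤ), ?_, ?_⟩
    · have := h3 (x 0 - c) (by omega) d (-b)
      rw [hd, hb]
      intro h
      apply this
      have e1 : (x 0 - c) ^ 2 + (3 * d) ^ 2 + (3 * -b) ^ 2 = (3 * d) ^ 2 + (-(3 * b)) ^ 2 +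
        (x 0 - c) ^ 2 + 0 ^ 2 := by ring
      rw [e1]
      exact h
    · have := int_mem 0 0 0 (-e)
      simpa using this
    · unfold pq
      apply ext4
      · simp [re_mul]; ring
      · simp [imI_mul]; ring
      · simp [imJ_mul]; ring
      · simp [imK_mul]
        linear_combination (-1 : ℚ) * heQ

theorem gv_rot (hf : Fu n k f) {α : ℍ[ℚ]} (hα : GO α)
    (hfα : ∀ u, GO u → f (α * u) = lsub (rC α) (f u)) {x y : Fin 3 → ℤ}
    (hy : pq y = α⁻¹ * pq x * α) (hx : ∃ u, Ad n x u) : gv n f y = gv n f x := by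
  obtain ⟨u, hu⟩ := hx
  have h1 := Ad_conj (t := 1) hα rfl (by rw [Int.cast_one, one_smul]; exact hy) hu
  rw [gv_eq hf h1, gv_eq hf hu]
  obtain ⟨m, hm, hm3⟩ := hα.2
  have h2 := hfα (star α * u) (hα.star.mul hu.1)
  rw [← mul_assoc, self_mul_star, coe_mul_eq_smul, hm] at h2
  have h3 := hf.scal hu.1 (a := (m : ℤ)) (by intro h; exact hm3 (by exact_mod_cast h))
  rw [Int.cast_natCast] at h3
  rw [← h3, h2, ← evvl, ← evvl, ev_lsub hα.ne, hy]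

theorem gv_scal (hf : Fu n k f) {x : Fin 3 → ℤ} (hx : ∃ u, Ad n x u) {s : ℤ} (hs : s % 3 = 1) :
    gv n f (fun i => s * x i) = (s : ℂ) ^ k * gv n f x := by
  obtain ⟨u, hu⟩ := hx
  rw [gv_eq hf (Ad_scal hu hs), gv_eq hf hu]
  unfold vl
  rw [← eval_hom (hf.hom u)]
  congr 1
  apply congrArg
  funext i
  push_cast
  rfl

theorem gv_neg (hf : Fu n k f) {x : Fin 3 → ℤ} (hx : ∃ u, Ad n x u) :
    gv n f (fun i => -x i) = gv n f x := by
  obtain ⟨u, hu⟩ := hx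
  rw [gv_eq hf (Ad_neg hu), gv_eq hf hu, hf.sgn u hu.1]
  unfold vl
  have h := eval_hom (hf.hom u) (-1) (fun i => ((x i : ℤ) : ℂ))
  have e : (fun j => (-1 : ℂ) * ((x j : ℤ) : ℂ)) = fun i => ((-x i : ℤ) : ℂ) := by
    funext i; push_cast; ring
  rw [e] at h
  rw [smul_eval, h, ← mul_assoc, ← mul_pow]
  norm_num

theorem gv_loc (hf : Fu n k f) {x y : Fin 3 → ℤ} {u : ℍ[ℚ]} (hu : Ad n x u)
    (hxy : ∀ i, ((3 ^ n : ℕ) : ℤ) ∣ y i - x i) : gv n f y = vl (f u) y :=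
  gv_eq hf (Ad_loc hu hxy)

theorem pq_act (v x : Fin 3 → ℤ) : pq (act v x) = star (qv v) * pq x * qv v := by
  unfold pq act qv
  apply ext4
  · simp [re_mul, imI_mul, imJ_mul, imK_mul]; ring
  · simp [re_mul, imI_mul, imJ_mul, imK_mul, Fin.sum_univ_three, rotZ]; ring
  · simp [re_mul, imI_mul, imJ_mul, imK_mul, Fin.sum_univ_three, rotZ]; ring
  · simp [re_mul, imI_mul, imJ_mul, imK_mul, Fin.sum_univ_three, rotZ]; ring

theorem GO_qv (v : Fin 3 → ℤ) : GO (qv v) := by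
  have := GO_int (a := 1) (b := 3 * v 0) (c := 3 * v 1) (d := 3 * v 2) (by
    have e : (1 : ℤ) ^ 2 + (3 * v 0) ^ 2 + (3 * v 1) ^ 2 + (3 * v 2) ^ 2 = 1 + 3 * (3 * (v 0 ^ 2 +
      v 1 ^ 2 + v 2 ^ 2)) := by ring
    rw [e]
    omega)
  unfold qv
  simpa using this

theorem Ad_act {x : Fin 3 → ℤ} {u : ℍ[ℚ]} (hu : Ad n x u) (v : Fin 3 → ℤ) :
    Ad n (act v x) (star (qv v) * u) := by
  apply Ad_conj (GO_qv v) (t := 1 + 9 * (v 0 ^ 2 + v 1 ^ 2 + v 2 ^ 2)) (by omega) _ hu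
  rw [pq_act, ← qv_norm, ← smul_mul_assoc, ← smul_mul_assoc, star_inv (qv_ne v)]

/-- one term of a Hecke operator -/
theorem gv_act (hf : Fu n k f) {x : Fin 3 → ℤ} {u : ℍ[ℚ]} (hu : Ad n x u) {v : Fin 3 → ℤ} {N : ℤ}
    (hN : 1 + 9 * (v 0 ^ 2 + v 1 ^ 2 + v 2 ^ 2) = N) (hN0 : N ≠ 0) :
    (N : ℂ) ^ k * vl (lsub (rC (qv v)) (f (star (qv v) * u))) x = gv n f (act v x) := by
  rw [rot_lsub hN hN0 (hf.hom _) x, gv_eq hf (Ad_act hu v)]

end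

end Pool.Agent.Helper725_HQ
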