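import Pool.Agent.Helper725_HQ.APol

/-! Periodicity of the normalized values of locally polynomial functions. -/

set_option autoImplicit false
set_option linter.unusedVariables false

namespace Pool.Agent.Helper725_HQ

open Quaternion MvPolynomial

/-- periodicity of the reductions of the normalized values -/
theorem per_gen {V : ValuationSubring ℂ} (hV : Thr V) {X : Set (Fin 3 → ℤ)} {g : (Fin 3 → ℤ) → ℂ} {n : ℕ}
    {M' : Submodule ℤ ℂ} (hN : IsNoetherian ℤ M') (hvM' : ∀ x ∈ X, g x ∈ M')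
    (hdiff : ∀ (J : ℕ), ∀ x ∈ X, ∀ y ∈ X, (∀ i, ((3 ^ (J + n) : ℕ) : ℤ) ∣ x i - y i) →
      ∃ m' ∈ M', g x - g y = ((3 ^ J : ℕ) : ℤ) • m')
    (hne0 : ∃ x ∈ X, g x ≠ 0) :
    ∃ c : ℂ, (∀ x ∈ X, c * g x ∈ V) ∧ (∃ x ∈ X, ∃ v : V, (v : ℂ) = c * g x ∧ rs V v ≠ 0) ∧
      ∃ N : ℕ, ∀ x ∈ X, ∀ y ∈ X, (∀ i, ((3 ^ (N + 1) : ℕ) : ℤ) ∣ x i - y i) →
        ∀ v w : V, (v : ℂ) = c * g x → (w : ℂ) = c * g y → rs V v = rs V w := by
  classical
  have hfg := isNoetherian_submodule.1 hN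
  obtain ⟨M, hM⟩ : ∃ M : Submodule ℤ ℂ, M = Submodule.span ℤ (g '' X) := ⟨_, rfl⟩
  have hMM' : M ≤ M' := by
    rw [hM, Submodule.span_le]
    rintro _ ⟨x, hx, rfl⟩
    exact hvM' x hx
  have hvM : ∀ x ∈ X, g x ∈ M := by
    intro x hx
    rw [hM]
    exact Submodule.subset_span ⟨x, hx, rfl⟩
  -- saturation
  obtain ⟨U, hU⟩ : ∃ U : Submodule ℤ ℂ, ∀ z, z ∈ U ↔ z ∈ M' ∧ ∃ j : ℕ, (3 ^ j : ℤ) • z ∈ M := by
    refine ⟨⟨⟨⟨{z | z ∈ M' ∧ ∃ j : ℕ, (3 ^ j : ℤ) • z ∈ M}, ?_⟩, ?_⟩, ?_⟩, fun z => Iff.rfl⟩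
    · rintro a b ⟨ha, i, hi⟩ ⟨hb, j, hj⟩
      refine ⟨Submodule.add_mem _ ha hb, i + j, ?_⟩
      have e : (3 ^ (i + j) : ℤ) • (a + b) = (3 ^ j : ℤ) • ((3 ^ i : ℤ) • a) +
          (3 ^ i : ℤ) • ((3 ^ j : ℤ) • b) := by
        rw [smul_smul, smul_smul, smul_add, pow_add, mul_comm ((3 : ℤ) ^ j)]
      rw [e]
      exact Submodule.add_mem _ (Submodule.smul_mem _ _ hi) (Submodule.smul_mem _ _ hj)
    · exact ⟨Submodule.zero_mem _, 0, by rw [smul_zero]; exact Submodule.zero_mem _⟩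
    · rintro r a ⟨ha, i, hi⟩
      refine ⟨Submodule.smul_mem _ _ ha, i, ?_⟩
      rw [smul_comm]
      exact Submodule.smul_mem _ _ hi
  obtain ⟨T, hT⟩ := hfg U (fun z hz => ((hU z).1 hz).1)
  have hTU : ∀ t ∈ T, ∃ j : ℕ, (3 ^ j : ℤ) • t ∈ M := by
    intro t ht
    have h1 : t ∈ U := by
      rw [← hT]; exact Submodule.subset_span ht
    exact ((hU t).1 h1).2
  choose! j hj using hTU
  obtain ⟨J, hJ⟩ : ∃ J, ∀ t ∈ T, j t ≤ J := ⟨T.sup j, fun t ht => Finset.le_sup ht⟩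
  have hUJ : ∀ u ∈ U, (3 ^ J : ℤ) • u ∈ M := by
    intro u hu
    rw [← hT] at hu
    induction hu using Submodule.span_induction with
    | mem t ht =>
      obtain ⟨i, hi⟩ := Nat.exists_eq_add_of_le (hJ t ht)
      rw [hi, pow_add, mul_comm, mul_smul]
      exact Submodule.smul_mem _ _ (hj t ht)
    | zero => rw [smul_zero]; exact Submodule.zero_mem _
    | add x y _ _ hx hy => rw [smul_add]; exact Submodule.add_mem _ hx hy
    | smul r x _ hx => rw [smul_comm]; exact Submodule.smul_mem _ _ hx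
  -- normalization
  obtain ⟨T2, hT2⟩ := hfg M hMM'
  have hne : ∃ t ∈ T2, t ≠ 0 := by
    by_contra h
    push Not at h
    obtain ⟨x, hx, hx0⟩ := hne0
    apply hx0
    have h1 := hvM x hx
    rw [← hT2] at h1
    obtain ⟨z, hz⟩ : ∃ z, z = g x := ⟨_, rfl⟩
    rw [← hz] at h1 ⊢
    clear hz
    induction h1 using Submodule.span_induction with
    | mem t ht => exact h t ht
    | zero => rfl
    | add a b _ _ ha hb => rw [ha, hb, add_zero]
    | smul r a _ ha => rw [ha, smul_zero]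
  obtain ⟨t₁, ht₁, ht₁0⟩ := hne
  obtain ⟨t₀, ht₀, hmax⟩ := Finset.exists_max_image T2 (fun t => V.valuation t) ⟨t₁, ht₁⟩
  have ht₀0 : t₀ ≠ 0 := by
    rintro rfl
    have h1 := hmax t₁ ht₁
    simp only [map_zero] at h1
    exact ht₁0 ((map_eq_zero _).1 (le_zero_iff.1 h1))
  have hv0 : V.valuation t₀ ≠ 0 := (Valuation.ne_zero_iff _).2 ht₀0
  have hcV : ∀ m ∈ M, t₀⁻¹ * m ∈ V := by
    intro m hm
    rw [← hT2] at hm
    induction hm using Submodule.span_induction with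
    | mem t ht =>
      rw [← V.valuation_le_one_iff, map_mul, map_inv₀, mul_comm]
      exact (div_le_one₀ (lt_of_le_of_ne zero_le (Ne.symm hv0))).2 (hmax t ht)
    | zero => rw [mul_zero]; exact V.zero_mem
    | add a b _ _ ha hb => rw [mul_add]; exact V.add_mem _ _ ha hb
    | smul r a _ ha =>
      rw [zsmul_eq_mul, mul_left_comm]
      exact V.mul_mem _ _ (intCast_mem V r) ha
  refine ⟨t₀⁻¹, fun x hx => hcV _ (hvM x hx), ?_, J + n, ?_⟩
  · by_contra h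
    push Not at h
    have h1 : ∀ m ∈ M, V.valuation (t₀⁻¹ * m) < 1 := by
      intro m hm
      rw [hM] at hm
      induction hm using Submodule.span_induction with
      | mem t ht =>
        obtain ⟨x, hx, rfl⟩ := ht
        have h2 := h x hx ⟨_, hcV _ (hvM x hx)⟩ rfl
        exact val_lt h2
      | zero => rw [mul_zero, map_zero]; exact zero_lt_one
      | add a b _ _ ha hb => rw [mul_add]; exact Valuation.map_add_lt _ ha hb
      | smul r a _ ha =>
        rw [zsmul_eq_mul, mul_left_comm, map_mul]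
        have h3 : V.valuation ((r : ℤ) : ℂ) ≤ 1 := (V.valuation_le_one_iff _).2 (intCast_mem V r)
        exact lt_of_le_of_lt (mul_le_of_le_one_left' h3) ha
    have h4 := h1 t₀ (by rw [← hT2]; exact Submodule.subset_span ht₀)
    rw [inv_mul_cancel₀ ht₀0, map_one] at h4
    exact lt_irrefl _ h4
  · intro x hx y hy hxy v w hv hw
    obtain ⟨m', hm', he⟩ := hdiff (J + 1) x hx y hy (by
      have e : J + 1 + n = J + n + 1 := by omega
      rw [e]; exact hxy)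
    have h1 : m' ∈ U := by
      rw [hU]
      refine ⟨hm', J + 1, ?_⟩
      have h2 : g x - g y ∈ M := Submodule.sub_mem _ (hvM x hx) (hvM y hy)
      rw [he] at h2
      exact_mod_cast h2
    have h2 := hUJ m' h1
    have h3 := hcV _ h2
    have h4 : v - w = 3 * ⟨_, h3⟩ := by
      apply Subtype.ext
      show (v : ℂ) - (w : ℂ) = 3 * (t₀⁻¹ * ((3 ^ J : ℤ) • m'))
      rw [hv, hw, ← mul_sub, he, zsmul_eq_mul, zsmul_eq_mul]
      push_cast
      ring
    rw [← sub_eq_zero, ← map_sub, h4, map_mul]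
    have h5 : rs V (3 : V) = 0 := by
      rw [map_ofNat]; exact three_zero hV
    rw [h5, zero_mul]

/-- the same for locally polynomial functions -/
theorem perg {V : ValuationSubring ℂ} (hV : Thr V) {X : Set (Fin 3 → ℤ)} {g : (Fin 3 → ℤ) → ℂ} {n : ℕ}
    {Q : (Fin 3 → ZMod (3 ^ n)) → MvPolynomial (Fin 3) ℂ}
    (hQ : ∀ x ∈ X, g x = vl (Q (fun i => ((x i : ℤ) : ZMod (3 ^ n)))) x)
    (hne0 : ∃ x ∈ X, g x ≠ 0) :
    ∃ c : ℂ, (∀ x ∈ X, c * g x ∈ V) ∧ (∃ x ∈ X, ∃ v : V, (v : ℂ) = c * g x ∧ rs V v ≠ 0) ∧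
      ∃ N : ℕ, ∀ x ∈ X, ∀ y ∈ X, (∀ i, ((3 ^ (N + 1) : ℕ) : ℤ) ∣ x i - y i) →
        ∀ v w : V, (v : ℂ) = c * g x → (w : ℂ) = c * g y → rs V v = rs V w := by
  classical
  have : NeZero (3 ^ n) := ⟨by positivity⟩
  obtain ⟨M', hM'⟩ : ∃ M' : Submodule ℤ ℂ, M' = Submodule.span ℤ
    (((Finset.univ : Finset (Fin 3 → ZMod (3 ^ n))).biUnion (fun r =>
      (Q r).support.image (fun m => coeff m (Q r))) : Finset ℂ) : Set ℂ) := ⟨_, rfl⟩
  have hN : IsNoetherian ℤ M' := by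
    rw [hM']; exact isNoetherian_span_of_finite ℤ (Finset.finite_toSet _)
  have hcoef : ∀ r, ∀ m ∈ (Q r).support, coeff m (Q r) ∈ M' := by
    intro r m hm
    rw [hM']
    apply Submodule.subset_span
    rw [Finset.mem_coe, Finset.mem_biUnion]
    exact ⟨r, Finset.mem_univ _, Finset.mem_image_of_mem _ hm⟩
  have hval : ∀ (P : MvPolynomial (Fin 3) ℂ) (x : Fin 3 → ℤ),
      vl P x = ∑ m ∈ P.support, (∏ i, x i ^ m i) • coeff m P := by
    intro P x
    unfold vl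
    rw [eval_eq']
    apply Finset.sum_congr rfl
    intro m _
    rw [zsmul_eq_mul, mul_comm]
    push_cast
    rfl
  have hdiff : ∀ (r : Fin 3 → ZMod (3 ^ n)) (x y : Fin 3 → ℤ) (n : ℕ),
      (∀ i, (n : ℤ) ∣ x i - y i) → ∃ m' ∈ M', vl (Q r) x - vl (Q r) y = (n : ℤ) • m' := by
    intro r x y n hxy
    have h1 : ∀ m : Fin 3 →₀ ℕ, ∃ t : ℤ, ∏ i, x i ^ m i - ∏ i, y i ^ m i = n * t := by
      intro m
      have h2 : ((∏ i, x i ^ m i : ℤ) : ZMod n) = ((∏ i, y i ^ m i : ℤ) : ZMod n) := by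
        push_cast
        apply Finset.prod_congr rfl
        intro i _
        have h3 : ((x i : ℤ) : ZMod n) = ((y i : ℤ) : ZMod n) := by
          rw [ZMod.intCast_eq_intCast_iff_dvd_sub, ← neg_sub, dvd_neg]
          exact hxy i
        rw [h3]
      rw [eq_comm, ZMod.intCast_eq_intCast_iff_dvd_sub] at h2
      exact h2
    choose t ht using h1
    refine ⟨∑ m ∈ (Q r).support, t m • coeff m (Q r), Submodule.sum_mem _ (fun m hm =>
      Submodule.smul_mem _ _ (hcoef r m hm)), ?_⟩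
    rw [hval, hval, ← Finset.sum_sub_distrib, Finset.smul_sum]
    apply Finset.sum_congr rfl
    intro m _
    rw [← sub_smul, ht, mul_smul]
  refine per_gen (n := n) hV hN ?_ ?_ hne0
  · intro x hx
    rw [hQ x hx, hval]
    exact Submodule.sum_mem _ (fun m hm => Submodule.smul_mem _ _ (hcoef _ m hm))
  · intro J x hx y hy hxy
    have e : (fun i => ((y i : ℤ) : ZMod (3 ^ n))) = fun i => ((x i : ℤ) : ZMod (3 ^ n)) := by
      funext i
      rw [ZMod.intCast_eq_intCast_iff_dvd_sub]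
      refine dvd_trans ?_ (hxy i)
      rw [pow_add]
      push_cast
      exact Dvd.intro_left _ rfl
    rw [hQ x hx, hQ y hy, e]
    obtain ⟨m', hm', h⟩ := hdiff (fun i => ((x i : ℤ) : ZMod (3 ^ n))) x y (3 ^ (J + n)) hxy
    refine ⟨((3 ^ n : ℕ) : ℤ) • m', Submodule.smul_mem _ _ hm', ?_⟩
    rw [h, smul_smul]
    congr 1
    push_cast
    rw [pow_add]

end Pool.Agent.Helper725_HQ
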