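import Pool.Agent.Helper725_HQ.BPer
import Pool.Agent.Helper725_HQ.ARed

/-! Functions on the residue disc from functions on integral vectors. -/

set_option autoImplicit false
set_option linter.unusedVariables false
set_option linter.unusedSimpArgs false

namespace Pool.Agent.Helper725_HQ

open Quaternion MvPolynomial

section
variable {N : ℕ} {κ : Type} [Field κ]

open Classical in
/-- the function on the disc modulo `3 ^ N` -/
noncomputable def toFn (N : ℕ) (h : (Fin 3 → ℤ) → κ) : Fn N κ :=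
  fun y => if hh : ∃ x, x ∈ XX ∧ y = imz N x then h hh.choose else 0

/-- periodicity -/
def Pe (N : ℕ) (h : (Fin 3 → ℤ) → κ) : Prop :=
  ∀ x ∈ XX, ∀ y ∈ XX, (∀ i, ((3 ^ N : ℕ) : ℤ) ∣ x i - y i) → h x = h y

theorem toFn_im {h : (Fin 3 → ℤ) → κ} (hp : Pe N h) {x : Fin 3 → ℤ} (hx : x ∈ XX) :
    toFn N h (imz N x) = h x := by
  have hh : ∃ z, z ∈ XX ∧ imz N x = imz N z := ⟨x, hx, rfl⟩
  unfold toFn
  rw [dif_pos hh]
  exact hp _ hh.choose_spec.1 _ hx (fun i => imz_inj hh.choose_spec.2.symm i)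

theorem toFn_zero {h : (Fin 3 → ℤ) → κ} {y : Hn N} (hy : ¬ Dc y) : toFn N h y = 0 := by
  unfold toFn
  rw [dif_neg]
  rintro ⟨x, hx, rfl⟩
  exact hy (Dc_imz hx)

theorem XX_smul {x : Fin 3 → ℤ} (hx : x ∈ XX) {s : ℤ} (hs : ¬ (3 : ℤ) ∣ s) :
    (fun i => s * x i) ∈ XX := by
  refine ⟨?_, dvd_mul_of_dvd_right hx.2.1 _, dvd_mul_of_dvd_right hx.2.2 _⟩
  intro h
  rcases (Int.prime_three).dvd_or_dvd h with h | h
  · exact hs h
  · exact hx.1 h

theorem toFn_Gd (hN : 1 ≤ N) {h : (Fin 3 → ℤ) → κ} (hp : Pe N h)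
    (hs : ∀ x ∈ XX, ∀ s : ℤ, ¬ (3 : ℤ) ∣ s → h (fun i => s * x i) = h x) : Gd (toFn N h) := by
  refine ⟨fun s y => ?_, fun y hy => toFn_zero hy⟩
  by_cases hy : Dc y
  · obtain ⟨x, hx, rfl⟩ := exists_imz hN hy
    obtain ⟨s0, hs0⟩ := ZMod.intCast_surjective (s : Zn N)
    have h30 : ¬ (3 : ℤ) ∣ s0 := by
      intro h
      obtain ⟨t, rfl⟩ := h
      have h4 : IsUnit (((3 * t : ℤ)) : Zn N) := by rw [hs0]; exact s.isUnit
      push_cast at h4
      have h5 : IsUnit (3 : Zn N) := isUnit_of_mul_isUnit_left h4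
      have h6 : IsUnit ((3 : Zn N) ^ N) := h5.pow N
      rw [three_pow_zero le_rfl] at h6
      have h7 : (0 : Zn N) = 1 := (isUnit_zero_iff.1 h6)
      have h8 : ((1 : ℤ) : Zn N) = ((0 : ℤ) : Zn N) := by push_cast; exact h7.symm
      rw [ZMod.intCast_eq_intCast_iff_dvd_sub] at h8
      have h3 : (3 : ℤ) ∣ ((3 ^ N : ℕ) : ℤ) := by
        push_cast
        exact dvd_pow_self 3 (by omega)
      have h9 := h3.trans h8
      omega
    have e : (s : Zn N) • imz N x = imz N (fun i => s0 * x i) := by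
      unfold imz
      apply Quaternion.ext
      · simp
      · simp [hs0]
      · simp [hs0]
      · simp [hs0]
    rw [e, toFn_im hp (XX_smul hx h30), toFn_im hp hx, hs x hx s0 h30]
  · rw [toFn_zero hy, toFn_zero]
    intro h
    apply hy
    have h1 := Dc_smul h s⁻¹
    rwa [smul_smul, Units.inv_mul, one_smul] at h1

theorem XX_i {x : Fin 3 → ℤ} (hx : x ∈ XX) : (![x 0, -x 1, -x 2] : Fin 3 → ℤ) ∈ XX :=
  ⟨hx.1, (dvd_neg).2 hx.2.1, (dvd_neg).2 hx.2.2⟩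
theorem XX_j {x : Fin 3 → ℤ} (hx : x ∈ XX) : (![-x 0, x 1, -x 2] : Fin 3 → ℤ) ∈ XX :=
  ⟨fun h => hx.1 ((dvd_neg).1 h), hx.2.1, (dvd_neg).2 hx.2.2⟩
theorem XX_q {x : Fin 3 → ℤ} (hx : x ∈ XX) : (![x 0, x 2, -x 1] : Fin 3 → ℤ) ∈ XX :=
  ⟨hx.1, hx.2.2, (dvd_neg).2 hx.2.1⟩

theorem toFn_i (hN : 1 ≤ N) {h : (Fin 3 → ℤ) → κ} (hp : Pe N h)
    (hi : ∀ x ∈ XX, h ![x 0, -x 1, -x 2] = h x) (a b c : Zn N) :
    toFn N h (im a (-b) (-c)) = toFn N h (im a b c) := by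
  have h1 : ∀ a b c : Zn N, Dc (im a b c) →
      toFn N h (im a (-b) (-c)) = toFn N h (im a b c) := by
    intro a b c hd
    obtain ⟨x, hx, hx2⟩ := exists_imz hN hd
    have e : im a (-b) (-c) = imz N ![x 0, -x 1, -x 2] := by
      unfold imz at hx2 ⊢
      have ha := congrArg QuaternionAlgebra.imI hx2
      have hb := congrArg QuaternionAlgebra.imJ hx2
      have hc := congrArg QuaternionAlgebra.imK hx2
      simp only [im_imI, im_imJ, im_imK] at ha hb hc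
      rw [ha, hb, hc]
      simp
    rw [e, hx2, toFn_im hp (XX_i hx), toFn_im hp hx, hi x hx]
  by_cases h2 : Dc (im a b c)
  · exact h1 a b c h2
  · by_cases h' : Dc (im a (-b) (-c))
    · have := h1 a (-b) (-c) h'
      rw [neg_neg, neg_neg] at this
      exact this.symm
    · rw [toFn_zero h2, toFn_zero h']

theorem toFn_j (hN : 1 ≤ N) {h : (Fin 3 → ℤ) → κ} (hp : Pe N h)
    (hi : ∀ x ∈ XX, h ![-x 0, x 1, -x 2] = h x) (a b c : Zn N) :
    toFn N h (im (-a) b (-c)) = toFn N h (im a b c) := by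
  have h1 : ∀ a b c : Zn N, Dc (im a b c) →
      toFn N h (im (-a) b (-c)) = toFn N h (im a b c) := by
    intro a b c hd
    obtain ⟨x, hx, hx2⟩ := exists_imz hN hd
    have e : im (-a) b (-c) = imz N ![-x 0, x 1, -x 2] := by
      unfold imz at hx2 ⊢
      have ha := congrArg QuaternionAlgebra.imI hx2
      have hb := congrArg QuaternionAlgebra.imJ hx2
      have hc := congrArg QuaternionAlgebra.imK hx2
      simp only [im_imI, im_imJ, im_imK] at ha hb hc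
      rw [ha, hb, hc]
      simp
    rw [e, hx2, toFn_im hp (XX_j hx), toFn_im hp hx, hi x hx]
  by_cases h2 : Dc (im a b c)
  · exact h1 a b c h2
  · by_cases h' : Dc (im (-a) b (-c))
    · have := h1 (-a) b (-c) h'
      rw [neg_neg, neg_neg] at this
      exact this.symm
    · rw [toFn_zero h2, toFn_zero h']

/-- the quarter turn, with a sign -/
theorem toFn_q (hN : 1 ≤ N) {h : (Fin 3 → ℤ) → κ} (hp : Pe N h) {h' : (Fin 3 → ℤ) → κ}
    (hp' : Pe N h') (hi : ∀ x ∈ XX, h ![x 0, x 2, -x 1] = h' x) (a b c : Zn N) :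
    toFn N h (im a c (-b)) = toFn N h' (im a b c) := by
  have key : ∀ a b c : Zn N, Dc (im a b c) → Dc (im a c (-b)) := by
    intro a b c hd
    obtain ⟨x, hx, hx2⟩ := exists_imz hN hd
    have e : im a c (-b) = imz N ![x 0, x 2, -x 1] := by
      unfold imz at hx2 ⊢
      have ha := congrArg QuaternionAlgebra.imI hx2
      have hb := congrArg QuaternionAlgebra.imJ hx2
      have hc := congrArg QuaternionAlgebra.imK hx2
      simp only [im_imI, im_imJ, im_imK] at ha hb hc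
      rw [ha, hb, hc]
      simp
    rw [e]
    exact Dc_imz (XX_q hx)
  by_cases h2 : Dc (im a b c)
  · obtain ⟨x, hx, hx2⟩ := exists_imz hN h2
    have e : im a c (-b) = imz N ![x 0, x 2, -x 1] := by
      unfold imz at hx2 ⊢
      have ha := congrArg QuaternionAlgebra.imI hx2
      have hb := congrArg QuaternionAlgebra.imJ hx2
      have hc := congrArg QuaternionAlgebra.imK hx2
      simp only [im_imI, im_imJ, im_imK] at ha hb hc
      rw [ha, hb, hc]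
      simp
    rw [e, hx2, toFn_im hp (XX_q hx), toFn_im hp' hx, hi x hx]
  · by_cases h3 : Dc (im a c (-b))
    · exfalso
      apply h2
      have e1 := key _ _ _ h3
      have e2 := key _ _ _ e1
      have e3 := key _ _ _ e2
      rw [neg_neg, neg_neg] at e3
      exact e3
    · rw [toFn_zero h2, toFn_zero h3]

theorem toFn_act {h : (Fin 3 → ℤ) → κ} (hp : Pe N h) (hg : Gd (toFn N h)) (v : Fin 3 → ℤ)
    {x : Fin 3 → ℤ} (hx : x ∈ XX) :
    rho κ (kp (imz N v)) (toFn N h) (imz N x) = h (act v x) := by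
  rw [rho_apply]
  obtain ⟨t, ht⟩ := kp_act (N := N) v x
  rw [ht, hg.1, toFn_im hp (act_XX hx)]

/-- the operator at five -/
theorem toFn_x5 (hN : 1 ≤ N) {h : (Fin 3 → ℤ) → κ} (hp : Pe N h) (hg : Gd (toFn N h))
    {x : Fin 3 → ℤ} (hx : x ∈ XX) :
    x5 (rho κ) (toFn N h) (imz N x) = ∑ i, h (act (v5 i) x) - 6 * h x := by
  rw [Fin.sum_univ_six, ← toFn_act hp hg _ hx, ← toFn_act hp hg _ hx, ← toFn_act hp hg _ hx,
    ← toFn_act hp hg _ hx, ← toFn_act hp hg _ hx, ← toFn_act hp hg _ hx, ← toFn_im hp hx]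
  have e0 : imz N (v5 0) = im 1 0 0 := by simp [imz, v5]
  have e1 : imz N (v5 1) = im (-1) (-0) (-0) := by simp [imz, v5]
  have e2 : imz N (v5 2) = im 0 1 0 := by simp [imz, v5]
  have e3 : imz N (v5 3) = im (-0) (-1) (-0) := by simp [imz, v5]
  have e4 : imz N (v5 4) = im 0 0 1 := by simp [imz, v5]
  have e5 : imz N (v5 5) = im (-0) (-0) (-1) := by simp [imz, v5]
  rw [e0, e1, e2, e3, e4, e5]
  generalize toFn N h = φ
  show ((rho κ (kp (im 1 0 0)) φ (imz N x) - φ (imz N x)) +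
    (rho κ (kp (im (-1) (-0) (-0))) φ (imz N x) - φ (imz N x))) +
    ((rho κ (kp (im 0 1 0)) φ (imz N x) - φ (imz N x)) +
    (rho κ (kp (im (-0) (-1) (-0))) φ (imz N x) - φ (imz N x))) +
    ((rho κ (kp (im 0 0 1)) φ (imz N x) - φ (imz N x)) +
    (rho κ (kp (im (-0) (-0) (-1))) φ (imz N x) - φ (imz N x))) = _
  ring

/-- the operator at seven -/
theorem toFn_x7 (hN : 1 ≤ N) {h : (Fin 3 → ℤ) → κ} (hp : Pe N h) (hg : Gd (toFn N h))
    {x : Fin 3 → ℤ} (hx : x ∈ XX) :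
    x7 (rho κ) (toFn N h) (imz N x) = ∑ i, h (act (v7 i) x) - 8 * h x := by
  rw [Fin.sum_univ_eight, ← toFn_act hp hg _ hx, ← toFn_act hp hg _ hx, ← toFn_act hp hg _ hx,
    ← toFn_act hp hg _ hx, ← toFn_act hp hg _ hx, ← toFn_act hp hg _ hx, ← toFn_act hp hg _ hx,
    ← toFn_act hp hg _ hx, ← toFn_im hp hx]
  have e0 : imz N (v7 0) = im 1 1 1 := by simp [imz, v7]
  have e1 : imz N (v7 1) = im (-1) (-1) (-1) := by simp [imz, v7]
  have e2 : imz N (v7 2) = im 1 1 (-1) := by simp [imz, v7]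
  have e3 : imz N (v7 3) = im (-1) (-1) (- -1) := by simp [imz, v7]
  have e4 : imz N (v7 4) = im 1 (-1) 1 := by simp [imz, v7]
  have e5 : imz N (v7 5) = im (-1) (- -1) (-1) := by simp [imz, v7]
  have e6 : imz N (v7 6) = im 1 (-1) (-1) := by simp [imz, v7]
  have e7 : imz N (v7 7) = im (-1) (- -1) (- -1) := by simp [imz, v7]
  rw [e0, e1, e2, e3, e4, e5, e6, e7]
  generalize toFn N h = φ
  show ((rho κ (kp (im 1 1 1)) φ (imz N x) - φ (imz N x)) +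
    (rho κ (kp (im (-1) (-1) (-1))) φ (imz N x) - φ (imz N x))) +
    ((rho κ (kp (im 1 1 (-1))) φ (imz N x) - φ (imz N x)) +
    (rho κ (kp (im (-1) (-1) (- -1))) φ (imz N x) - φ (imz N x))) +
    ((rho κ (kp (im 1 (-1) 1)) φ (imz N x) - φ (imz N x)) +
    (rho κ (kp (im (-1) (- -1) (-1))) φ (imz N x) - φ (imz N x))) +
    ((rho κ (kp (im 1 (-1) (-1))) φ (imz N x) - φ (imz N x)) +
    (rho κ (kp (im (-1) (- -1) (- -1))) φ (imz N x) - φ (imz N x))) = _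
  ring

end

theorem int_rs1 {V : ValuationSubring ℂ} (hV : Thr V) {s : ℤ} (h : s % 3 = 1) (k : ℕ) :
    rs V ((s : V) ^ k) = 1 := by
  have e : (s : V) = 1 + 3 * ((s / 3 : ℤ) : V) := by
    have h1 : s = 1 + 3 * (s / 3) := by omega
    exact_mod_cast congrArg (Int.cast : ℤ → V) h1
  rw [map_pow, e, map_add, map_one, map_mul]
  have h5 : rs V (3 : V) = 0 := by
    rw [map_ofNat]; exact three_zero hV
  rw [h5, zero_mul, add_zero, one_pow]

open Classical in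
/-- the reductions of the normalized values -/
noncomputable def gred (V : ValuationSubring ℂ) (c : ℂ) (g : (Fin 3 → ℤ) → ℂ)
    (x : Fin 3 → ℤ) : kap V := if hx : c * g x ∈ V then rs V ⟨c * g x, hx⟩ else 0

section
variable {V : ValuationSubring ℂ} {c : ℂ} {g : (Fin 3 → ℤ) → ℂ}

theorem gred_pos {x : Fin 3 → ℤ} {v : V} (hv : (v : ℂ) = c * g x) : gred V c g x = rs V v := by
  have hx : c * g x ∈ V := by rw [← hv]; exact v.2
  unfold gred
  rw [dif_pos hx]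
  congr 1
  exact Subtype.ext hv.symm

theorem gred_eq {x y : Fin 3 → ℤ} (h : g x = g y) : gred V c g x = gred V c g y := by
  unfold gred
  rw [h]

theorem gred_scal (hV : Thr V) {x : Fin 3 → ℤ} (hx : c * g x ∈ V) {s : ℤ} (hs : ¬ (3 : ℤ) ∣ s)
    {k : ℕ} (h1 : ∀ s : ℤ, s % 3 = 1 → g (fun i => s * x i) = (s : ℂ) ^ k * g x)
    (h2 : ∀ s : ℤ, s % 3 = 1 → g (fun i => -(s * x i)) = g (fun i => s * x i)) :
    gred V c g (fun i => s * x i) = gred V c g x := by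
  have key : ∀ s : ℤ, s % 3 = 1 → gred V c g (fun i => s * x i) = gred V c g x := by
    intro s hs
    rw [gred_pos (v := (s : V) ^ k * ⟨_, hx⟩), map_mul, int_rs1 hV hs, one_mul,
      gred_pos (v := ⟨_, hx⟩) rfl]
    rw [h1 s hs]
    push_cast
    ring
  have h01 : s % 3 = 1 ∨ (-s) % 3 = 1 := by omega
  rcases h01 with h | h
  · exact key s h
  · rw [← key (-s) h]
    apply gred_eq
    rw [← h2 (-s) h]
    congr 1
    funext i
    ring

theorem gred_sum {m : ℕ} {x : Fin 3 → ℤ} {z : Fin m → Fin 3 → ℤ} (hz : ∀ i, c * g (z i) ∈ V)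
    {L : ℂ} {Lv : V} (hL : (Lv : ℂ) = L) (hx : c * g x ∈ V) (h : ∑ i, g (z i) = L * g x) :
    ∑ i, gred V c g (z i) = rs V Lv * gred V c g x := by
  have h1 : (∑ i, (⟨_, hz i⟩ : V) : V) = Lv * ⟨_, hx⟩ := by
    apply Subtype.ext
    have h3 : ((∑ i, (⟨_, hz i⟩ : V) : V) : ℂ) = V.subtype (∑ i, (⟨_, hz i⟩ : V)) := rfl
    rw [h3, map_sum]
    show ∑ i, c * g (z i) = (Lv : ℂ) * (c * g x)
    rw [← Finset.mul_sum, h, hL]
    ring
  have h2 := congrArg (rs V) h1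
  rw [map_sum, map_mul] at h2
  rw [gred_pos (v := ⟨_, hx⟩) rfl, ← h2]
  apply Finset.sum_congr rfl
  intro i _
  exact gred_pos rfl

/-- integrality of the eigenvalues -/
theorem eig_int {m : ℕ} {x₀ : Fin 3 → ℤ} {z : Fin m → Fin 3 → ℤ} (hz : ∀ i, c * g (z i) ∈ V)
    {L : ℂ} {v₀ : V} (hv₀ : (v₀ : ℂ) = c * g x₀) (hne : rs V v₀ ≠ 0)
    (h : ∑ i, g (z i) = L * g x₀) : ∃ Lv : V, (Lv : ℂ) = L := by
  obtain ⟨u, hu⟩ := unit_of_rs hne
  refine ⟨(∑ i, (⟨_, hz i⟩ : V)) * ((u⁻¹ : Vˣ) : V), ?_⟩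
  have h3 : ((∑ i, (⟨_, hz i⟩ : V) : V) : ℂ) = V.subtype (∑ i, (⟨_, hz i⟩ : V)) := rfl
  have h1 : ((∑ i, (⟨_, hz i⟩ : V) : V) : ℂ) = L * (v₀ : ℂ) := by
    rw [h3, map_sum]
    show ∑ i, c * g (z i) = L * (v₀ : ℂ)
    rw [← Finset.mul_sum, h, hv₀]
    ring
  rw [← hu] at h1
  have h2 : (((u : Vˣ) : V) : ℂ) * ((((u⁻¹ : Vˣ) : V)) : ℂ) = 1 :=
    congrArg Subtype.val (Units.mul_inv u)
  show ((∑ i, (⟨_, hz i⟩ : V) : V) : ℂ) * ((((u⁻¹ : Vˣ) : V)) : ℂ) = L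
  rw [h1, mul_assoc, h2, mul_one]

end

/-- constancy of the reductions -/
theorem red_constg {V : ValuationSubring ℂ} (hV : Thr V) {k n : ℕ} {g : (Fin 3 → ℤ) → ℂ}
    {Q : (Fin 3 → ZMod (3 ^ n)) → MvPolynomial (Fin 3) ℂ}
    (hQ : ∀ x ∈ XX, g x = vl (Q (fun i => ((x i : ℤ) : ZMod (3 ^ n)))) x)
    (hne0 : ∃ x ∈ XX, g x ≠ 0)
    (hs : ∀ x ∈ XX, ∀ s : ℤ, s % 3 = 1 → g (fun i => s * x i) = (s : ℂ) ^ k * g x)
    (hm : ∀ x ∈ XX, g (fun i => -x i) = g x)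
    (Fi : ∀ x ∈ XX, g ![x 0, -x 1, -x 2] = g x) (Fj : ∀ x ∈ XX, g ![-x 0, x 1, -x 2] = g x)
    (Fq : ∀ x ∈ XX, g ![x 0, x 2, -x 1] = g x)
    {L5 L7 : ℂ} (h5 : ∀ x ∈ XX, ∑ i, g (act (v5 i) x) = L5 * g x)
    (h7 : ∀ x ∈ XX, ∑ i, g (act (v7 i) x) = L7 * g x) :
    ∃ c : ℂ, ∃ r : kap V, r ≠ 0 ∧ ∀ x ∈ XX, ∃ v : V, c * g x = (v : ℂ) ∧ rs V v = r := by
  obtain ⟨c, hcV, ⟨x₀, hx₀, v₀, hv₀, hv₀ne⟩, N', hper⟩ := perg hV hQ hne0
  obtain ⟨N, hN⟩ : ∃ N, N = N' + 1 := ⟨_, rfl⟩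
  rw [← hN] at hper
  have hN1 : 1 ≤ N := by omega
  obtain ⟨h, hh⟩ : ∃ h, h = gred V c g := ⟨_, rfl⟩
  have hp : Pe N h := by
    intro x hx y hy hxy
    rw [hh, gred_pos (v := ⟨_, hcV x hx⟩) rfl, gred_pos (v := ⟨_, hcV y hy⟩) rfl]
    exact hper x hx y hy hxy _ _ rfl rfl
  have hgd : Gd (toFn N h) := toFn_Gd hN1 hp (fun x hx s h3 => by
    rw [hh]
    refine gred_scal hV (hcV x hx) h3 (fun s hs' => hs x hx s hs') (fun s hs' => ?_)
    exact hm _ (XX_smul hx (by omega)))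
  obtain ⟨l5, hl5⟩ := eig_int (fun i => hcV _ (act_XX hx₀)) hv₀ hv₀ne (h5 x₀ hx₀)
  obtain ⟨l7, hl7⟩ := eig_int (fun i => hcV _ (act_XX hx₀)) hv₀ hv₀ne (h7 x₀ hx₀)
  have q5 : ∀ y, Dc y → x5 (rho (kap V)) (toFn N h) y = (rs V l5 - 6) * toFn N h y := by
    intro y hy
    obtain ⟨x, hx, rfl⟩ := exists_imz hN1 hy
    rw [toFn_x5 hN1 hp hgd hx, toFn_im hp hx, hh,
      gred_sum (fun i => hcV _ (act_XX hx)) hl5 (hcV x hx) (h5 x hx)]
    ring
  have q7 : ∀ y, Dc y → x7 (rho (kap V)) (toFn N h) y = (rs V l7 - 8) * toFn N h y := by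
    intro y hy
    obtain ⟨x, hx, rfl⟩ := exists_imz hN1 hy
    rw [toFn_x7 hN1 hp hgd hx, toFn_im hp hx, hh,
      gred_sum (fun i => hcV _ (act_XX hx)) hl7 (hcV x hx) (h7 x hx)]
    ring
  have hconst : ∀ y, Dc y → toFn N h y = toFn N h (im 1 0 0) := fun y hy =>
    const_main (three_zero hV) hgd
      (toFn_i hN1 hp (fun x hx => by rw [hh]; exact gred_eq (Fi x hx)))
      (toFn_j hN1 hp (fun x hx => by rw [hh]; exact gred_eq (Fj x hx)))
      (toFn_q hN1 hp hp (fun x hx => by rw [hh]; exact gred_eq (Fq x hx))) q5 q7 hy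
  refine ⟨c, toFn N h (im 1 0 0), ?_, ?_⟩
  · rw [← hconst _ (Dc_imz hx₀), toFn_im hp hx₀, hh, gred_pos hv₀]
    exact hv₀ne
  · intro x hx
    refine ⟨⟨_, hcV x hx⟩, rfl, ?_⟩
    rw [← hconst _ (Dc_imz hx), toFn_im hp hx, hh, gred_pos (v := ⟨_, hcV x hx⟩) rfl]

end Pool.Agent.Helper725_HQ
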