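import Pool.Agent.Helper725_HQ.BVal
import Pool.Agent.Helper725_HQ.AUni

/-! Simultaneous nonvanishing of the periods of all eigenforms with a level structure at three. -/

set_option autoImplicit false
set_option linter.unusedSimpArgs false
set_option linter.unnecessarySeqFocus false

namespace Pool.Agent.Helper725_HQ

open Quaternion MvPolynomial NumberField
open scoped nonZeroDivisors

section
variable {K : Type} [Field K] [NumberField K] {ι : K →+* ℍ[ℚ]} {𝔞 : Ideal (𝓞 K)}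

theorem norm_mul_mem {I : AddSubgroup ℍ[ℚ]} {z : ℍ[ℚ]} (hz : z ∈ I) :
    ((Ideal.absNorm 𝔞 : ℕ) : ℍ[ℚ]) * z ∈ idl ι 𝔞 I := by
  have h1 := mem_idl (ι := ι) (Ideal.absNorm_mem 𝔞) hz
  have e : ι (((Ideal.absNorm 𝔞 : ℕ) : 𝓞 K) : K) = ((Ideal.absNorm 𝔞 : ℕ) : ℍ[ℚ]) := by
    have e1 : (((Ideal.absNorm 𝔞 : ℕ) : 𝓞 K) : K) = ((Ideal.absNorm 𝔞 : ℕ) : K) := by
      simp
    rw [e1, map_natCast]
  rwa [e] at h1

theorem int_smulH (m : ℤ) (z : ℍ[ℚ]) : (m : ℍ[ℚ]) * z = (m : ℚ) • z := by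
  rw [← ratmul]
  congr 1

theorem gen_idl {I : AddSubgroup ℍ[ℚ]} (hs : Stab ι I) {u : ℍ[ℚ]} (hI : IsRI I)
    (hu : Gen3 I u) (h3 : ¬ 3 ∣ Ideal.absNorm 𝔞) :
    Gen3 (idl ι 𝔞 I) ((Ideal.absNorm 𝔞 : ℕ) * u) := by
  refine ⟨norm_mul_mem hu.1, fun y hy => ?_⟩
  obtain ⟨N, hN⟩ : ∃ N, N = Ideal.absNorm 𝔞 := ⟨_, rfl⟩
  have hc : IsCoprime (3 : ℤ) (N : ℤ) := by
    have := (Nat.Prime.coprime_iff_not_dvd p3).2 (hN ▸ h3)
    exact_mod_cast this.isCoprime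
  obtain ⟨a, b, hab⟩ := hc
  obtain ⟨o, ho, z, hz, h1⟩ := hu.2 y (idl_le_self hs hy)
  refine ⟨(b : ℍ[ℚ]) * o, Hur.mul_mem (intCast_mem_Hur b) ho,
    (b : ℍ[ℚ]) * ((N : ℍ[ℚ]) * z) + (a : ℍ[ℚ]) * y, ?_, ?_⟩
  · apply add_mem
    · have h2 : (N : ℍ[ℚ]) * z ∈ idl ι 𝔞 I := by rw [hN]; exact norm_mul_mem hz
      have h3 := (idl ι 𝔞 I).zsmul_mem h2 b
      rwa [zsmul_eq_mul] at h3
    · have h3 := (idl ι 𝔞 I).zsmul_mem hy a
      rwa [zsmul_eq_mul] at h3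
  · rw [← hN]
    have h2 : u * o = y - (3 : ℚ) • z := by
      rw [h1, three_smulH]; abel
    have h3 : (a : ℚ) * 3 + b * N = 1 := by exact_mod_cast hab
    rw [nat_smulH, int_smulH, int_smulH, int_smulH, nat_smulH, three_smulH, smul_mul_assoc,
      mul_smul_comm, h2]
    calc y = ((a : ℚ) * 3 + b * N) • y := by rw [h3, one_smul]
      _ = _ := by module

/-- one term of the toric period -/
theorem period_termN {V : ValuationSubring ℂ} {n k : ℕ}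
    {F : AddSubgroup ℍ[ℚ] → ℍ[ℚ] → MvPolynomial (Fin 3) ℂ} (hF : IsFormN n k F) {c : ℂ} {r : kap V}
    (H : ∀ x : Fin 3 → ℤ, (x 0 ^ 2 + x 1 ^ 2 + x 2 ^ 2) % 3 = 1 →
        ∃ v : V, c * gv n (F Oo) x = (v : ℂ) ∧ rs V v = r) {d : ℕ} (hd3 : d % 3 = 1)
    (h𝔞 : 𝔞 ≠ ⊥) (h𝔞3 : ¬ 3 ∣ Ideal.absNorm 𝔞) (hs : Stab ι Oo) {s : 𝓞 K} {w : Fin 3 → ℤ}
    (hw : ι (s : K) = pq w) (hd : w 0 ^ 2 + w 1 ^ 2 + w 2 ^ 2 = (d : ℤ)) {u : ℍ[ℚ]}
    (hu : Ad n w u) :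
    ∃ v : V, c * ev (F (idl ι 𝔞 Oo) ((Ideal.absNorm 𝔞 : ℕ) * u)) (ι (s : K)) = (v : ℂ) ∧
      rs V v = r := by
  have hp := isRI_idl h𝔞 hs Oo_isRI
  obtain ⟨α, hα, hαe⟩ := principal hp
  have hgen := gen_idl (𝔞 := 𝔞) hs Oo_isRI (gen_iff.2 hu.1) h𝔞3
  have hmul : ∀ z ∈ Hur, α⁻¹ * (((Ideal.absNorm 𝔞 : ℕ) : ℍ[ℚ]) * z) ∈ Hur := by
    intro z hz
    have h1 := norm_mul_mem (ι := ι) (𝔞 := 𝔞) (I := Oo) hz
    rw [hαe, mem_lm' hα] at h1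
    exact h1
  obtain ⟨N, hN⟩ : ∃ N, N = Ideal.absNorm 𝔞 := ⟨_, rfl⟩
  rw [← hN] at hgen hmul ⊢
  obtain ⟨u', hu'⟩ : ∃ u', u' = α⁻¹ * ((N : ℍ[ℚ]) * u) := ⟨_, rfl⟩
  have e1 : (N : ℍ[ℚ]) * u = α * u' := by
    rw [hu', ← mul_assoc, mul_inv_cancel₀ hα, one_mul]
  rw [hαe, e1] at hgen
  have hgen' := (gen_lm_iff hα).1 hgen
  have hst := stab_idl (ι := ι) (𝔞 := 𝔞) (I := Oo)
  rw [hαe] at hst
  have h2 : α⁻¹ * ι (s : K) * α ∈ Hur := by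
    have h3 := hst s α (mem_lm.2 ⟨1, Hur.one_mem, by rw [mul_one]⟩)
    rw [mem_lm' hα, ← mul_assoc] at h3
    exact h3
  have hα' : α⁻¹ ≠ 0 := inv_ne_zero hα
  have h4 : (α⁻¹ * ι (s : K) * α).re = 0 := by
    have e2 := re_conj hα' (ι (s : K))
    rw [inv_inv] at e2
    rw [e2, hw]; rfl
  have h5 : normSq (α⁻¹ * ι (s : K) * α) = (d : ℚ) := by
    rw [map_mul, map_mul, hw, normSq_pq, hd]
    have e2 : normSq α⁻¹ * normSq α = 1 := by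
      rw [← map_mul, inv_mul_cancel₀ hα, map_one]
    push_cast
    have e3 : normSq α⁻¹ * (d : ℚ) * normSq α = (normSq α⁻¹ * normSq α) * d := by ring
    rw [e3, e2, one_mul]
  obtain ⟨a, b, c', h6⟩ := pure_int h2 h4
  have h7 : α⁻¹ * ι (s : K) * α = pq ![a, b, c'] := by
    rw [h6]; rfl
  have h8 : (![a, b, c'] : Fin 3 → ℤ) 0 ^ 2 + (![a, b, c'] : Fin 3 → ℤ) 1 ^ 2 +
      (![a, b, c'] : Fin 3 → ℤ) 2 ^ 2 = (d : ℤ) := by
    rw [h7, normSq_pq] at h5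
    exact_mod_cast h5
  have had : Ad n ![a, b, c'] u' := by
    obtain ⟨_, t, ht, z, hz, h9⟩ := hu
    refine ⟨gen_iff.1 hgen', t, ht, α⁻¹ * ((N : ℍ[ℚ]) * z), hmul z hz, ?_⟩
    rw [← h7, hu', mul_assoc, ← mul_assoc α, mul_inv_cancel₀ hα, one_mul, mul_assoc,
      ← mul_assoc (ι (s : K)), (Nat.cast_commute N (ι (s : K))).eq.symm, mul_assoc (N : ℍ[ℚ]), hw,
      h9, mul_add, mul_add, mul_assoc α⁻¹, mul_assoc (N : ℍ[ℚ]), mul_smul_comm, mul_smul_comm]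
  have h10 : ev (F (idl ι 𝔞 Oo) ((N : ℍ[ℚ]) * u)) (ι (s : K)) = gv n (F Oo) ![a, b, c'] := by
    rw [hαe, e1, formN_left hF hα Oo_isRI hgen', ev_lsub hα, h7, evvl, gv_eq (formN_fu hF) had]
  rw [h10]
  apply H
  rw [h8]
  omega

/-- nonvanishing along one field -/
theorem nonvan_oneN {V : ValuationSubring ℂ} (hV : Thr V) {n k : ℕ}
    {F : AddSubgroup ℍ[ℚ] → ℍ[ℚ] → MvPolynomial (Fin 3) ℂ} (hF : IsFormN n k F) {c : ℂ} {r : kap V}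
    (hr0 : r ≠ 0) (H : ∀ x : Fin 3 → ℤ, (x 0 ^ 2 + x 1 ^ 2 + x 2 ^ 2) % 3 = 1 →
        ∃ v : V, c * gv n (F Oo) x = (v : ℂ) ∧ rs V v = r) {d : ℕ} (hd3 : d % 3 = 1)
    (hd : Squarefree d) (h8 : d % 8 = 3 ∨ d % 4 = 1 ∨ d % 4 = 2) (h2 : Module.finrank ℚ K = 2)
    {x : K} (hx : x ^ 2 = -(d : K)) (hcl : ¬ 3 ∣ Nat.card (ClassGroup (𝓞 K))) :
    NonvanPerN n F K := by
  obtain ⟨w, hw⟩ := three_sq h8
  have hd0 : 0 < d := by omega
  obtain ⟨ι, hι⟩ := exists_iota hd0 h2 hx hw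
  have hs := stab_Oo hd h8 h2 hx hw hι
  have hint : IsIntegral ℤ (x : K) := by
    refine ⟨Polynomial.X ^ 2 + Polynomial.C ((d : ℕ) : ℤ), ?_, ?_⟩
    · monicity!
    · rw [Polynomial.eval₂_add, Polynomial.eval₂_pow, Polynomial.eval₂_X,
        Polynomial.eval₂_C, hx]
      simp
  obtain ⟨u, hu⟩ := Ad_all n (x := w) (by rw [hw]; omega)
  refine ⟨ι, Oo, u, Oo_isRI, gen_iff.2 hu.1, hs, x, ?_, ?_, ?_, ?_⟩
  · rintro rfl
    rw [zero_pow two_ne_zero, zero_eq_neg, Nat.cast_eq_zero] at hx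
    omega
  · rw [hι]; rfl
  · obtain ⟨_, t, ht, z, hz, h9⟩ := hu
    refine ⟨t, by omega, ?_⟩
    rw [hι, h9, mem_lm]
    refine ⟨z, hz, ?_⟩
    rw [nat_smulH]
    push_cast
    abel
  · intro rep hrep hrep3 h0
    obtain ⟨s0, hs0⟩ : ∃ s0 : 𝓞 K, (s0 : K) = x := ⟨⟨x, hint⟩, rfl⟩
    have key : ∀ cl : ClassGroup (𝓞 K), ∃ v : V,
        c * ev (F (idl ι (rep cl : Ideal (𝓞 K)) Oo)
          ((Ideal.absNorm (rep cl : Ideal (𝓞 K)) : ℕ) * u)) (ι x) = (v : ℂ) ∧ rs V v = r := by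
      intro cl
      have hne : (rep cl : Ideal (𝓞 K)) ≠ ⊥ := nonZeroDivisors.coe_ne_zero _
      have := period_termN (s := s0) hF H hd3 hne (hrep3 cl) hs (w := w) (by rw [hs0]; exact hι)
        hw hu
      rw [hs0] at this
      exact this
    choose v hv1 hv2 using key
    have h1 : ((∑ cl, v cl : V) : ℂ) = 0 := by
      have : ((∑ cl, v cl : V) : ℂ) = c * torpN F ι rep Oo u x := by
        unfold torpN
        rw [Finset.mul_sum]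
        have h3 : ((∑ cl, v cl : V) : ℂ) = V.subtype (∑ cl, v cl) := rfl
        rw [h3, map_sum]
        apply Finset.sum_congr rfl
        intro cl _
        exact (hv1 cl).symm
      rw [this, h0, mul_zero]
    have h2 : (∑ cl, v cl : V) = 0 := Subtype.ext h1
    have h3 := congrArg (rs V) h2
    rw [map_sum, map_zero, Finset.sum_congr rfl (fun cl _ => hv2 cl), Finset.sum_const,
      Finset.card_univ, nsmul_eq_mul] at h3
    rcases mul_eq_zero.1 h3 with h4 | h4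
    · apply card_unit hV hcl
      rw [Nat.card_eq_fintype_card]
      exact h4
    · exact hr0 h4

end

/-- simultaneous nonvanishing -/
theorem manyN (T : Finset ℕ) (hT : ∀ p ∈ T, p.Prime)
    (δ : ∀ (p : ℕ) [Fact p.Prime], ℚ_[p]) (hδ0 : ∀ (p : ℕ) [Fact p.Prime], δ p ≠ 0)
    (hδ2 : ¬ IsSquare (δ 2)) (hδ3 : 3 ∈ T → IsSquare (-δ 3)) :
    ∃ c : ℝ, 0 < c ∧ ∃ x₀ : ℝ, ∀ x : ℝ, x₀ ≤ x → ∃ S : Finset (IntermediateField ℚ ℂ),
      c * x ≤ (S.card : ℝ) ∧ ∀ E ∈ S, ∃ _ : NumberField E, Module.finrank ℚ E = 2 ∧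
        |(discr E : ℝ)| < x ∧ (∀ p ∈ T, ∀ [Fact p.Prime], Loc p (δ p) E) ∧
        ∀ n k : ℕ, ∀ F : AddSubgroup ℍ[ℚ] → ℍ[ℚ] → MvPolynomial (Fin 3) ℂ, IsFormN n k F →
          (∃ I u, F I u ≠ 0) →
          (∃ lam : ℂ, ∀ I u, IsRI I → Gen3 I u → heckeN 5 F I u = lam • F I u) →
          (∃ lam : ℂ, ∀ I u, IsRI I → Gen3 I u → heckeN 7 F I u = lam • F I u) →
          NonvanPerN n F E := by
  classical
  obtain ⟨c', hc', x₀, hx₀⟩ := Pool.Agent.Helper725_DH.fields_manyT (hδ0 2) hδ2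
    (T.filter (fun p => 5 ≤ p)) (fun p hp => ⟨hT p (Finset.mem_filter.1 hp).1,
      (Finset.mem_filter.1 hp).2⟩) δ (fun p _ _ => hδ0 p)
  refine ⟨c', hc', x₀, ?_⟩
  intro x hx
  obtain ⟨S, hS, hSd⟩ := hx₀ x hx
  refine ⟨S.image Ed, ?_, ?_⟩
  · rw [Finset.card_image_of_injOn]
    · exact hS
    · intro d hd d' hd' h
      obtain ⟨a1, _, a2, _⟩ := hSd d hd
      obtain ⟨b1, _, b2, _⟩ := hSd d' hd'
      exact Ed_inj a1 a2 b1 b2 h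
  · intro E hE
    obtain ⟨d, hd, rfl⟩ := Finset.mem_image.1 hE
    obtain ⟨a1, a2, a3, a4, a5, a6, a8⟩ := hSd d hd
    have hd0 : 0 < d := by omega
    have hns : ¬ IsSquare (-(d : ℚ)) := by
      rintro ⟨q, hq⟩
      exact Pool.Agent.Helper725_DH.IQ.not_sq hd0 q (by rw [hq]; ring)
    refine ⟨inferInstance, Ed_rank hd0, ?_, ?_, ?_⟩
    · rw [Ed_discr a1 a3]
      split_ifs at a4 ⊢ with h
      · push_cast
        rw [abs_neg, abs_of_nonneg (by positivity)]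
        exact a4
      · push_cast
        rw [abs_neg, abs_of_nonneg (by positivity)]
        exact a4
    · intro p hp hpf
      refine ⟨-(d : ℚ), xd d, ?_, hns, ?_⟩
      · rw [xd_sq]; push_cast; rfl
      · push_cast
        by_cases h5 : 5 ≤ p
        · exact a6 p (Finset.mem_filter.2 ⟨hp, h5⟩)
        · have h6 := (hT p hp).two_le
          have h7 : p ≠ 4 := by
            rintro rfl
            exact absurd (hT 4 hp) (by norm_num)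
          have h8 : p = 2 ∨ p = 3 := by omega
          rcases h8 with rfl | rfl
          · exact a5
          · exact sq_one_mod a2 (hδ3 hp)
    · intro n k F hF hF0 h5 h7
      obtain ⟨l5, h5⟩ := h5
      obtain ⟨l7, h7⟩ := h7
      obtain ⟨V, hV⟩ := exists_V
      obtain ⟨c, r, hr, H⟩ := all_valN hV hF hF0 h5 h7
      exact nonvan_oneN hV hF hr H a2 a1 a3 (Ed_rank hd0) (xd_sq d)
        (a8 (Ed d) (Ed_rank hd0) ⟨xd d, xd_sq d⟩)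

end Pool.Agent.Helper725_HQ
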