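import Pool.Agent.Helper725_HQ.BForm
import Pool.Agent.Helper725_HQ.BRed

/-! Constancy of the reductions of the values of an eigenform. -/

set_option autoImplicit false
set_option linter.unusedVariables false
set_option linter.unusedSimpArgs false

namespace Pool.Agent.Helper725_HQ

open Quaternion MvPolynomial

theorem vl_coset {P : MvPolynomial (Fin 3) ℂ} (hP : P ≠ 0) (y₀ : Fin 3 → ℤ) (M : ℕ) :
    ∃ y : Fin 3 → ℤ, (∀ i, ((3 ^ M : ℕ) : ℤ) ∣ y i - y₀ i) ∧ vl P y ≠ 0 := by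
  by_contra h
  push Not at h
  apply hP
  apply MvPolynomial.funext_set (fun i : Fin 3 =>
    Set.range (fun n : ℕ => ((((3 ^ M : ℕ) : ℤ) * (n : ℤ) + y₀ i : ℤ) : ℂ)))
  · intro i
    apply Set.infinite_range_of_injective
    intro a b hab
    simp only at hab
    have h1 : (((3 ^ M : ℕ) : ℤ) * (a : ℤ) + y₀ i : ℤ) = ((3 ^ M : ℕ) : ℤ) * (b : ℤ) + y₀ i := by
      exact_mod_cast hab
    have h2 : ((3 ^ M : ℕ) : ℤ) ≠ 0 := by positivity
    have h3 := mul_left_cancel₀ h2 (add_right_cancel h1)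
    exact_mod_cast h3
  · intro x hx
    have hx' : ∀ i, ∃ a : ℕ, ((((3 ^ M : ℕ) : ℤ) * (a : ℤ) + y₀ i : ℤ) : ℂ) = x i :=
      fun i => hx i (Set.mem_univ _)
    choose a ha using hx'
    have h3 := h (fun i => ((3 ^ M : ℕ) : ℤ) * (a i : ℤ) + y₀ i) (fun i => ⟨a i, by ring⟩)
    rw [map_zero]
    unfold vl at h3
    rw [← h3]
    congr 1
    apply congrArg
    funext i
    exact (ha i).symm

section
variable {n k : ℕ} {f : ℍ[ℚ] → MvPolynomial (Fin 3) ℂ}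

open Classical in
/-- local polynomials -/
theorem gv_poly (hf : Fu n k f) : ∃ Q : (Fin 3 → ZMod (3 ^ n)) → MvPolynomial (Fin 3) ℂ,
    ∀ x, (∃ u, Ad n x u) → gv n f x = vl (Q (fun i => ((x i : ℤ) : ZMod (3 ^ n)))) x := by
  refine ⟨fun r => if h : ∃ u, ∃ x, Ad n x u ∧ r = fun i => ((x i : ℤ) : ZMod (3 ^ n)) then
    f h.choose else 0, ?_⟩
  rintro x ⟨u, hu⟩
  have h : ∃ u, ∃ y, Ad n y u ∧ (fun i => ((x i : ℤ) : ZMod (3 ^ n))) =
    fun i => ((y i : ℤ) : ZMod (3 ^ n)) := ⟨u, x, hu, rfl⟩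
  simp only
  rw [dif_pos h]
  obtain ⟨y, hy, hxy⟩ := h.choose_spec
  apply gv_loc hf hy
  intro i
  have h1 := congrFun hxy i
  rw [ZMod.intCast_eq_intCast_iff_dvd_sub, ← neg_sub, dvd_neg] at h1
  exact h1

/-- a vector conjugate to a multiple of `i` -/
theorem exists_vecu {u : ℍ[ℚ]} (hu : GO u) : ∃ y : Fin 3 → ℤ, Ad n y u ∧
    (y 0 ^ 2 + y 1 ^ 2 + y 2 ^ 2) % 3 = 1 := by
  obtain ⟨hu1, m, hm, hm3⟩ := hu
  have h1 : u * mk4 0 1 0 0 * star u ∈ Hur := by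
    have hi := int_mem 0 1 0 0
    have hi' : mk4 0 1 0 0 ∈ Hur := by simpa using hi
    exact Hur.mul_mem (Hur.mul_mem hu1 hi') (star_mem hu1)
  have h2 : (u * mk4 0 1 0 0 * star u).re = 0 := by
    simp [re_mul, imI_mul, imJ_mul, imK_mul]; ring
  obtain ⟨a, b, c, h3⟩ := pure_int h1 h2
  have h4 : (a ^ 2 + b ^ 2 + c ^ 2 : ℤ) = (m : ℤ) ^ 2 := by
    have h5 := congrArg normSq h3
    rw [map_mul, map_mul, normSq_star, hm] at h5
    rw [normSq_def', normSq_def'] at h5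
    simp at h5
    have : ((m : ℚ)) * m = a ^ 2 + b ^ 2 + c ^ 2 := h5
    have h6 : ((a ^ 2 + b ^ 2 + c ^ 2 : ℤ) : ℚ) = (((m : ℤ) ^ 2 : ℤ) : ℚ) := by
      push_cast
      rw [← this]; ring
    exact_mod_cast h6
  have hmm : (m : ℤ) % 3 = 1 ∨ (m : ℤ) % 3 = 2 := by omega
  have hm2 : ((m : ℤ) * m) % 3 = 1 := by
    rcases hmm with h | h <;> simp [Int.mul_emod, h]
  refine ⟨![m * a, m * b, m * c], ⟨⟨hu1, m, hm, hm3⟩, m * m, hm2, 0, Hur.zero_mem, ?_⟩, ?_⟩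
  · have e : pq ![(m : ℤ) * a, m * b, m * c] = (m : ℚ) • mk4 0 a b c := by
      unfold pq
      apply ext4 <;> simp
    rw [e, ← h3, smul_mul_assoc, mul_assoc, star_mul_self, hm, ← coe_commutes,
      coe_mul_eq_smul, smul_smul, smul_zero, add_zero, ← mul_smul_comm]
    congr 1
    apply ext4 <;> simp
  · show ((m : ℤ) * a) ^ 2 + (m * b) ^ 2 + (m * c) ^ 2 ≡ 1 [ZMOD 3]
    have e : ((m : ℤ) * a) ^ 2 + (m * b) ^ 2 + (m * c) ^ 2 = (m * m) * (m * m) := by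
      rw [show ((m : ℤ) * a) ^ 2 + (m * b) ^ 2 + (m * c) ^ 2 = m ^ 2 * (a ^ 2 + b ^ 2 + c ^ 2) by ring,
        h4]
      ring
    rw [e]
    have : (m : ℤ) * m ≡ 1 [ZMOD 3] := hm2
    exact (this.mul this).trans (by decide)

/-- the three residue directions -/
theorem three_cases {x : Fin 3 → ℤ} (h : (x 0 ^ 2 + x 1 ^ 2 + x 2 ^ 2) % 3 = 1) :
    x ∈ XX ∨ (![x 1, x 2, x 0] : Fin 3 → ℤ) ∈ XX ∨ (![x 2, x 0, x 1] : Fin 3 → ℤ) ∈ XX := by
  have s0 := sq_mod3 (x 0)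
  have s1 := sq_mod3 (x 1)
  have s2 := sq_mod3 (x 2)
  have z : ∀ j, x j % 3 = 0 → x j ^ 2 % 3 = 0 := by
    intro j hj
    simp [pow_two, Int.mul_emod, hj]
  have nn : ∀ j, x j ^ 2 % 3 = 1 → ¬ x j % 3 = 0 := by
    intro j hj h
    have := z j h
    omega
  have z0 := z 0
  have z1 := z 1
  have z2 := z 2
  have n0 := nn 0
  have n1 := nn 1
  have n2 := nn 2
  have hcase : (¬ x 0 % 3 = 0 ∧ x 1 % 3 = 0 ∧ x 2 % 3 = 0) ∨
      (x 0 % 3 = 0 ∧ ¬ x 1 % 3 = 0 ∧ x 2 % 3 = 0) ∨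
      (x 0 % 3 = 0 ∧ x 1 % 3 = 0 ∧ ¬ x 2 % 3 = 0) := by
    rcases s0 with ⟨a0, -⟩ | ⟨a0, -⟩ <;> rcases s1 with ⟨a1, -⟩ | ⟨a1, -⟩ <;>
      rcases s2 with ⟨a2, -⟩ | ⟨a2, -⟩
    · have := z0 a0; have := z1 a1; have := z2 a2; omega
    · exact Or.inr (Or.inr ⟨a0, a1, n2 a2⟩)
    · exact Or.inr (Or.inl ⟨a0, n1 a1, a2⟩)
    · have := z0 a0; omega
    · exact Or.inl ⟨n0 a0, a1, a2⟩
    · have := z1 a1; omega
    · have := z2 a2; omega
    · omega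
  rcases hcase with ⟨a0, a1, a2⟩ | ⟨a0, a1, a2⟩ | ⟨a0, a1, a2⟩
  · exact Or.inl ⟨by omega, by omega, by omega⟩
  · refine Or.inr (Or.inl ⟨?_, ?_, ?_⟩)
    · show ¬ (3 : ℤ) ∣ x 1; omega
    · show (3 : ℤ) ∣ x 2; omega
    · show (3 : ℤ) ∣ x 0; omega
  · refine Or.inr (Or.inr ⟨?_, ?_, ?_⟩)
    · show ¬ (3 : ℤ) ∣ x 2; omega
    · show (3 : ℤ) ∣ x 0; omega
    · show (3 : ℤ) ∣ x 1; omega

theorem om_inv : om⁻¹ = star om := inv_unit om_norm
theorem om2_inv : om2⁻¹ = star om2 := inv_unit om2_norm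

theorem pq_om (x : Fin 3 → ℤ) : pq ![x 1, x 2, x 0] = om⁻¹ * pq x * om := by
  rw [om_inv]
  unfold pq om
  apply ext4
  · simp [re_mul, imI_mul, imJ_mul, imK_mul]; ring
  · simp [re_mul, imI_mul, imJ_mul, imK_mul]; ring
  · simp [re_mul, imI_mul, imJ_mul, imK_mul]; ring
  · simp [re_mul, imI_mul, imJ_mul, imK_mul]; ring

theorem pq_om2 (x : Fin 3 → ℤ) : pq ![x 2, x 0, x 1] = om2⁻¹ * pq x * om2 := by
  rw [om2_inv]
  unfold pq om2
  apply ext4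
  · simp [re_mul, imI_mul, imJ_mul, imK_mul]; ring
  · simp [re_mul, imI_mul, imJ_mul, imK_mul]; ring
  · simp [re_mul, imI_mul, imJ_mul, imK_mul]; ring
  · simp [re_mul, imI_mul, imJ_mul, imK_mul]; ring

theorem GO_om : GO om := GO_of_norm om_mem (p := 1) (by rw [om_norm]; norm_num) (by norm_num)
theorem GO_om2 : GO om2 := GO_of_norm om2_mem (p := 1) (by rw [om2_norm]; norm_num) (by norm_num)

theorem back_om {x : Fin 3 → ℤ} : pq x = (star om)⁻¹ * pq ![x 1, x 2, x 0] * star om := by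
  rw [pq_om, ← om_inv, inv_inv, ← mul_assoc, ← mul_assoc, mul_inv_cancel₀ om_ne, one_mul,
    mul_assoc, mul_inv_cancel₀ om_ne, mul_one]

theorem back_om2 {x : Fin 3 → ℤ} : pq x = (star om2)⁻¹ * pq ![x 2, x 0, x 1] * star om2 := by
  rw [pq_om2, ← om2_inv, inv_inv, ← mul_assoc, ← mul_assoc, mul_inv_cancel₀ om2_ne, one_mul,
    mul_assoc, mul_inv_cancel₀ om2_ne, mul_one]

/-- adapted generators exist in all three directions -/
theorem Ad_all (n : ℕ) {x : Fin 3 → ℤ} (h : (x 0 ^ 2 + x 1 ^ 2 + x 2 ^ 2) % 3 = 1) :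
    ∃ u, Ad n x u := by
  rcases three_cases h with h | h | h
  · exact Ad_exists n h
  · obtain ⟨u, hu⟩ := Ad_exists n h
    exact ⟨_, Ad_conj (t := 1) GO_om.star rfl (by rw [Int.cast_one, one_smul]; exact back_om) hu⟩
  · obtain ⟨u, hu⟩ := Ad_exists n h
    exact ⟨_, Ad_conj (t := 1) GO_om2.star rfl (by rw [Int.cast_one, one_smul]; exact back_om2) hu⟩

theorem gv_i (hf : Fu n k f) {x : Fin 3 → ℤ} (hx : ∃ u, Ad n x u) :
    gv n f ![x 0, -x 1, -x 2] = gv n f x := by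
  have hg : GO (mk4 ((0 : ℤ) : ℚ) ((1 : ℤ) : ℚ) ((0 : ℤ) : ℚ) ((0 : ℤ) : ℚ)) := GO_int (by norm_num)
  apply gv_rot hf hg (hf.un 0 1 0 0 (by norm_num)) _ hx
  have e : (mk4 ((0 : ℤ) : ℚ) ((1 : ℤ) : ℚ) ((0 : ℤ) : ℚ) ((0 : ℤ) : ℚ))⁻¹ =
      mk4 0 (-1) 0 0 := by
    rw [inv_unit (by rw [normSq_int]; norm_num)]
    apply ext4 <;> simp
  rw [e]
  unfold pq
  apply ext4 <;> simp [re_mul, imI_mul, imJ_mul, imK_mul]

theorem gv_j (hf : Fu n k f) {x : Fin 3 → ℤ} (hx : ∃ u, Ad n x u) :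
    gv n f ![-x 0, x 1, -x 2] = gv n f x := by
  have hg : GO (mk4 ((0 : ℤ) : ℚ) ((0 : ℤ) : ℚ) ((1 : ℤ) : ℚ) ((0 : ℤ) : ℚ)) := GO_int (by norm_num)
  apply gv_rot hf hg (hf.un 0 0 1 0 (by norm_num)) _ hx
  have e : (mk4 ((0 : ℤ) : ℚ) ((0 : ℤ) : ℚ) ((1 : ℤ) : ℚ) ((0 : ℤ) : ℚ))⁻¹ =
      mk4 0 0 (-1) 0 := by
    rw [inv_unit (by rw [normSq_int]; norm_num)]
    apply ext4 <;> simp
  rw [e]
  unfold pq
  apply ext4 <;> simp [re_mul, imI_mul, imJ_mul, imK_mul]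

theorem GO_ep : GO ep := by
  refine GO_of_norm ep_mem (p := 2) ?_ (by norm_num)
  rw [normSq_ep]; norm_num

theorem gv_q (hf : Fu n k f) {x : Fin 3 → ℤ} (hx : ∃ u, Ad n x u) :
    gv n f ![x 0, x 2, -x 1] = gv n f x := by
  apply gv_rot hf GO_ep hf.ep _ hx
  rw [ep_inv]
  unfold pq ep
  apply ext4
  · simp [re_mul, imI_mul, imJ_mul, imK_mul]
  · simp [re_mul, imI_mul, imJ_mul, imK_mul]; ring
  · simp [re_mul, imI_mul, imJ_mul, imK_mul]; ring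
  · simp [re_mul, imI_mul, imJ_mul, imK_mul]; ring

end

section
variable {n k : ℕ} {F : AddSubgroup ℍ[ℚ] → ℍ[ℚ] → MvPolynomial (Fin 3) ℂ}

/-- constancy of the reductions of the values of an eigenform -/
theorem all_valN {V : ValuationSubring ℂ} (hV : Thr V) (hF : IsFormN n k F)
    (hF0 : ∃ I u, F I u ≠ 0) {l5 l7 : ℂ}
    (h5 : ∀ I u, IsRI I → Gen3 I u → heckeN 5 F I u = l5 • F I u)
    (h7 : ∀ I u, IsRI I → Gen3 I u → heckeN 7 F I u = l7 • F I u) : ∃ c : ℂ, ∃ r : kap V, r ≠ 0 ∧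
      ∀ x : Fin 3 → ℤ, (x 0 ^ 2 + x 1 ^ 2 + x 2 ^ 2) % 3 = 1 →
        ∃ v : V, c * gv n (F Oo) x = (v : ℂ) ∧ rs V v = r := by
  have hf := formN_fu hF
  obtain ⟨Q, hQ⟩ := gv_poly hf
  have cyc1 : ∀ x : Fin 3 → ℤ, (![x 1, x 2, x 0] : Fin 3 → ℤ) ∈ XX →
      gv n (F Oo) x = gv n (F Oo) ![x 1, x 2, x 0] := by
    intro x hx
    exact gv_rot hf GO_om.star (fun u hu => formN_om hF GO_om.star.1
      (by rw [normSq_star, om_norm]) hu) back_om (Ad_exists n hx)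
  have cyc2 : ∀ x : Fin 3 → ℤ, (![x 2, x 0, x 1] : Fin 3 → ℤ) ∈ XX →
      gv n (F Oo) x = gv n (F Oo) ![x 2, x 0, x 1] := by
    intro x hx
    exact gv_rot hf GO_om2.star (fun u hu => formN_om hF GO_om2.star.1
      (by rw [normSq_star, om2_norm]) hu) back_om2 (Ad_exists n hx)
  have hne : ∃ x ∈ XX, gv n (F Oo) x ≠ 0 := by
    obtain ⟨u, hu, hu0⟩ := formN_ne hF hF0
    obtain ⟨y, hy, hy3⟩ := exists_vecu (n := n) hu
    obtain ⟨z, hz, hz0⟩ := vl_coset hu0 y (n + 1)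
    have hz1 : gv n (F Oo) z ≠ 0 := by
      rw [gv_loc hf hy (fun i => dvd_trans (by
        rw [pow_succ]; push_cast; exact Dvd.intro _ rfl) (hz i))]
      exact hz0
    have hz3 : (z 0 ^ 2 + z 1 ^ 2 + z 2 ^ 2) % 3 = 1 := by
      have key : ∀ i, z i ^ 2 ≡ y i ^ 2 [ZMOD 3] := by
        intro i
        apply Int.ModEq.pow
        rw [Int.modEq_comm, Int.modEq_iff_dvd]
        exact dvd_trans (by push_cast; exact dvd_pow_self 3 (by omega)) (hz i)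
      have hy3' : y 0 ^ 2 + y 1 ^ 2 + y 2 ^ 2 ≡ 1 [ZMOD 3] := hy3
      exact (((key 0).add (key 1)).add (key 2)).trans hy3'
    rcases three_cases hz3 with h | h | h
    · exact ⟨z, h, hz1⟩
    · exact ⟨_, h, by rw [← cyc1 z h]; exact hz1⟩
    · exact ⟨_, h, by rw [← cyc2 z h]; exact hz1⟩
  obtain ⟨c, r, hr, H⟩ := red_constg (k := k) hV (fun x hx => hQ x (Ad_exists n hx)) hne
    (fun x hx s hs => gv_scal hf (Ad_exists n hx) hs) (fun x hx => gv_neg hf (Ad_exists n hx))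
    (fun x hx => gv_i hf (Ad_exists n hx)) (fun x hx => gv_j hf (Ad_exists n hx))
    (fun x hx => gv_q hf (Ad_exists n hx)) (L5 := (10 : ℂ) ^ k * l5) (L7 := (28 : ℂ) ^ k * l7)
    (by
      intro x hx
      obtain ⟨u, hu⟩ := Ad_exists n hx
      have h1 := congrArg (fun P => vl P x) (heckeN5 hF h5 hu.1)
      simp only [vl_sum] at h1
      have h2 : vl (l5 • F Oo u) x = l5 * vl (F Oo u) x := by
        unfold vl; rw [smul_eval]
      rw [h2, ← gv_eq hf hu] at h1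
      rw [mul_assoc, ← h1, Finset.mul_sum]
      apply Finset.sum_congr rfl
      intro i _
      have h4 := gv_act hf hu (v := v5 i) (N := 10) (by rw [v5_norm]; norm_num) (by norm_num)
      rw [← h4]
      norm_cast)
    (by
      intro x hx
      obtain ⟨u, hu⟩ := Ad_exists n hx
      have h1 := congrArg (fun P => vl P x) (heckeN7 hF h7 hu.1)
      simp only [vl_sum] at h1
      have h2 : vl (l7 • F Oo u) x = l7 * vl (F Oo u) x := by
        unfold vl; rw [smul_eval]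
      rw [h2, ← gv_eq hf hu] at h1
      rw [mul_assoc, ← h1, Finset.mul_sum]
      apply Finset.sum_congr rfl
      intro i _
      have h4 := gv_act hf hu (v := v7 i) (N := 28) (by rw [v7_norm]; norm_num) (by norm_num)
      rw [← h4]
      norm_cast)
  refine ⟨c, r, hr, fun x hx => ?_⟩
  rcases three_cases hx with h | h | h
  · exact H x h
  · rw [cyc1 x h]; exact H _ h
  · rw [cyc2 x h]; exact H _ h

end

end Pool.Agent.Helper725_HQ
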