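import Pool.Agent.Helper725_HQ.CMono

/-! Eigenfunctions of the three Hecke operators in conductor four are constant. -/

set_option autoImplicit false
set_option linter.unusedVariables false

namespace Pool.Agent.Helper725_HQ

open Quaternion

section
variable {N : ℕ} {κ : Type} [Field κ]

theorem three_End (h3 : (3 : κ) = 0) : (3 : Module.End κ (Fn N κ)) = 0 := by
  have : (3 : Module.End κ (Fn N κ)) = algebraMap κ _ 3 := by rw [map_ofNat]
  rw [this, h3, map_zero]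

/-- one step of the descent -/
theorem stepC (h3 : (3 : κ) = 0) {φ : Fn N κ} (h : Gd φ)
    (Fi : ∀ a b c : Zn N, φ (im a (-b) (-c)) = φ (im a b c))
    (Fj : ∀ a b c : Zn N, φ (im (-a) b (-c)) = φ (im a b c))
    (d : ℕ) (hd : 1 ≤ d) (hnext : ∀ T ∈ Ia κ (rho (N := N) κ) ^ (d + 1), T φ = 0)
    (P5 : ∀ j l, j + l + 2 = d → mo (rho (N := N) κ) j l (x5 (rho κ) φ) (im 1 0 0) = 0)
    (P5' : ∀ j l, j + l + 4 = d → mo (rho (N := N) κ) j l (x5 (rho κ) φ) (im 1 0 0) = 0)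
    (P7 : ∀ j l, j + l + 4 = d → mo (rho (N := N) κ) j l (x7 (rho κ) φ) (im 1 0 0) = 0)
    (Pq : d = 2 → mo (rho (N := N) κ) 0 2 φ (im 1 0 0) = mo (rho (N := N) κ) 2 0 φ (im 1 0 0)) :
    ∀ T ∈ Ia κ (rho (N := N) κ) ^ d, T φ = 0 := by
  have h3R := three_End (N := N) h3
  have h3M : ∀ x : κ, x + x = 0 → x = 0 := by
    intro x hx
    have : x = 3 * x - (x + x) := by ring
    rw [this, h3, hx]; ring
  -- invariance of the function
  have nd : ∀ x : Hn N, x.re ≠ 0 → φ x = 0 := fun x hx => h.2 x (fun h' => hx h'.1)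
  have ri : rho κ (wi N) φ = φ := by
    funext x
    by_cases hx : x.re = 0
    · obtain ⟨a, b, c, rfl⟩ : ∃ a b c, x = im a b c := ⟨_, _, _, pure_eq hx⟩
      rw [rho_apply, ← Fi a b c]
      congr 1
      show im (-1) 0 0 * im a b c * im 1 0 0 = _
      apply Quaternion.ext <;> simp
    · rw [rho_apply, nd x hx, nd _ (by rw [re_cj]; exact hx)]
  have rj : rho κ (wj N) φ = φ := by
    funext x
    by_cases hx : x.re = 0
    · obtain ⟨a, b, c, rfl⟩ : ∃ a b c, x = im a b c := ⟨_, _, _, pure_eq hx⟩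
      rw [rho_apply, ← Fj a b c]
      congr 1
      show im 0 (-1) 0 * im a b c * im 0 1 0 = _
      apply Quaternion.ext <;> simp
    · rw [rho_apply, nd x hx, nd _ (by rw [re_cj]; exact hx)]
  have rinv : ∀ w : (Hn N)ˣ, rho κ w φ = φ → rho κ w⁻¹ φ = φ := by
    intro w hw
    have h1 : (rho κ w⁻¹ * rho κ w) φ = φ := by
      rw [← map_mul, inv_mul_cancel, map_one]; rfl
    have h2 : (rho κ w⁻¹ * rho κ w) φ = rho κ w⁻¹ (rho κ w φ) := rfl
    rw [h2, hw] at h1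
    exact h1
  have gd : ∀ T ∈ Ia κ (rho (N := N) κ) ^ d, Gd (T φ) := by
    intro T hT
    have h1 := Ia_anti le_rfl hd hT
    rw [pow_one] at h1
    exact Gd_Ia h h1
  have z := functional_zeroC (ρ := rho (N := N) κ) rho_Sc h3R h3M d hd
    (⟨⟨fun T => T φ (im 1 0 0), fun _ _ => rfl⟩, fun _ _ => rfl⟩ :
      Module.End κ (Fn N κ) →ₗ[κ] κ)
    (by
      intro T hT
      show T φ (im 1 0 0) = 0
      rw [hnext T hT]; rfl)
    (by
      intro T
      show rho κ (kp (im 1 0 0)) (T φ) (im 1 0 0) - (T φ) (im 1 0 0) = 0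
      rw [rho_apply]
      have e : (((kp (im 1 0 0))⁻¹ : (Hn N)ˣ) : Hn N) * im 1 0 0 * ((kp (im 1 0 0) : (Hn N)ˣ) : Hn N) =
          im 1 0 0 := by
        have e1 : im 1 0 0 * ((kp (im 1 0 0) : (Hn N)ˣ) : Hn N) =
            ((kp (im 1 0 0) : (Hn N)ˣ) : Hn N) * im 1 0 0 := by
          rw [kap_val, mul_add, add_mul, mul_one, one_mul, mul_smul_comm, smul_mul_assoc]
        rw [mul_assoc, e1, ← mul_assoc, Units.inv_mul, one_mul]
      rw [e, sub_self])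
    (ci_i (N := N)) (cj_j (N := N))
    (by
      intro T hT
      show rho κ (wi N) (T (rho κ (wi N)⁻¹ φ)) (im 1 0 0) = T φ (im 1 0 0)
      rw [rinv _ ri, rho_apply]
      have e : (((wi N)⁻¹ : (Hn N)ˣ) : Hn N) * im 1 0 0 * ((wi N : (Hn N)ˣ) : Hn N) =
          im 1 0 0 := by
        show im (-1) 0 0 * im 1 0 0 * im 1 0 0 = (im 1 0 0 : Hn N)
        apply Quaternion.ext <;> simp
      rw [e])
    (by
      intro T hT
      show rho κ (wj N) (T (rho κ (wj N)⁻¹ φ)) (im 1 0 0) = T φ (im 1 0 0)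
      rw [rinv _ rj, rho_apply, ← (gd T hT).1 (-1) (im 1 0 0)]
      have e : (((wj N)⁻¹ : (Hn N)ˣ) : Hn N) * im 1 0 0 * ((wj N : (Hn N)ˣ) : Hn N) =
          (((-1 : (Zn N)ˣ) : Zn N) • im 1 0 0 : Hn N) := by
        show im 0 (-1) 0 * im 1 0 0 * im 0 1 0 = (((-1 : (Zn N)ˣ) : Zn N) • im 1 0 0 : Hn N)
        apply Quaternion.ext <;> simp
      rw [e])
    P5 P5' P7 Pq
  intro T hT
  have hfix : ∀ g ∈ Kz N 1, rho κ g (T φ) = T φ := by
    intro g hg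
    have h1 : (rho κ g - 1) * T ∈ Ia κ (rho (N := N) κ) ^ (d + 1) := by
      have h2 := fmul (y_mem1' (k := κ) (ρ := rho (N := N) κ) hg) hT
      rwa [add_comm] at h2
    have h2 := hnext _ h1
    have h3 : rho κ g (T φ) - T φ = 0 := h2
    rwa [sub_eq_zero] at h3
  funext x
  by_cases hx : Dc x
  · rw [fixed_const (gd T hT) hfix hx]
    exact z T hT
  · exact (gd T hT).2 x hx

/-- descent to a given degree -/
theorem descC (h3 : (3 : κ) = 0) {φ : Fn N κ} (m : ℕ) (hm : 1 ≤ m)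
    (step : ∀ d : ℕ, m ≤ d → (∀ T ∈ Ia κ (rho (N := N) κ) ^ (d + 1), T φ = 0) →
      ∀ T ∈ Ia κ (rho (N := N) κ) ^ d, T φ = 0) : ∀ T ∈ Ia κ (rho (N := N) κ) ^ m, T φ = 0 := by
  have desc : ∀ n : ℕ, (∀ T ∈ Ia κ (rho (N := N) κ) ^ (n + m), T φ = 0) →
      ∀ T ∈ Ia κ (rho (N := N) κ) ^ m, T φ = 0 := by
    intro n
    induction n with
    | zero => intro h1; rwa [zero_add] at h1
    | succ n ih =>
      intro h1
      apply ih
      apply step _ (by omega)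
      have e : n + m + 1 = n + 1 + m := by ring
      rw [e]
      exact h1
  obtain ⟨D, hD⟩ := Ia_nil (N := N) h3
  apply desc (D + 1)
  intro T hT
  rcases Nat.eq_zero_or_pos D with h0 | hpos
  · have h1 := hD 1 (by rw [h0, pow_zero]; exact Submodule.one_le.1 le_rfl)
    have : T = T * 1 := (mul_one T).symm
    rw [this, h1, mul_zero]; rfl
  · rw [hD T (Ia_anti hpos (by omega) hT)]; rfl

theorem Ia_zero {ψ : Fn N κ} {m n : ℕ} (hm : 1 ≤ m) (h : ∀ T ∈ Ia κ (rho (N := N) κ) ^ m, T ψ = 0)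
    (hmn : m ≤ n) {T : Module.End κ (Fn N κ)} (hT : T ∈ Ia κ (rho (N := N) κ) ^ n) : T ψ = 0 :=
  h T (Ia_anti hm hmn hT)

theorem x5_mem2 : x5 (rho (N := N) κ) ∈ Ia κ (rho (N := N) κ) ^ 2 :=
  Submodule.add_mem _ (Submodule.add_mem _ (pr_mem2 rho_Sc _ _ _) (pr_mem2 rho_Sc _ _ _))
    (pr_mem2 rho_Sc _ _ _)

theorem x7_mem2 : x7 (rho (N := N) κ) ∈ Ia κ (rho (N := N) κ) ^ 2 :=
  Submodule.add_mem _ (Submodule.add_mem _ (Submodule.add_mem _ (pr_mem2 rho_Sc _ _ _)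
    (pr_mem2 rho_Sc _ _ _)) (pr_mem2 rho_Sc _ _ _)) (pr_mem2 rho_Sc _ _ _)

theorem x13_mem2 : x13 (rho (N := N) κ) ∈ Ia κ (rho (N := N) κ) ^ 2 := by
  unfold x13
  exact Submodule.add_mem _ (Submodule.add_mem _ (Submodule.add_mem _ (pr_mem2 rho_Sc _ _ _)
    (pr_mem2 rho_Sc _ _ _)) (pr_mem2 rho_Sc _ _ _)) (Submodule.add_mem _ (Submodule.add_mem _
    (Submodule.add_mem _ (pr_mem2 rho_Sc _ _ _) (pr_mem2 rho_Sc _ _ _)) (pr_mem2 rho_Sc _ _ _))
    (pr_mem2 rho_Sc _ _ _))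

theorem d5_mem2 : d5 (rho (N := N) κ) ∈ Ia κ (rho (N := N) κ) ^ 2 :=
  Submodule.sub_mem _ (pr_mem2 rho_Sc _ _ _) (pr_mem2 rho_Sc _ _ _)

/-- equality on the disc is equality -/
theorem eq_disc {φ ψ : Fn N κ} (h : Gd φ) (h' : Gd ψ) (he : ∀ x, Dc x → φ x = ψ x) : φ = ψ := by
  funext x
  by_cases hx : Dc x
  · exact he x hx
  · rw [h.2 x hx, h'.2 x hx]

theorem Gd_add {φ ψ : Fn N κ} (h : Gd φ) (h' : Gd ψ) : Gd (φ + ψ) :=
  ⟨fun s x => by show φ _ + ψ _ = φ _ + ψ _; rw [h.1, h'.1],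
   fun x hx => by show φ _ + ψ _ = 0; rw [h.2 x hx, h'.2 x hx, add_zero]⟩

theorem Gd_smul {φ : Fn N κ} (c : κ) (h : Gd φ) : Gd (c • φ) :=
  ⟨fun s x => by show c * φ _ = c * φ _; rw [h.1],
   fun x hx => by show c * φ _ = 0; rw [h.2 x hx, mul_zero]⟩

theorem Gd_pow {φ : Fn N κ} (h : Gd φ) {n : ℕ} (hn : 1 ≤ n) {T : Module.End κ (Fn N κ)}
    (hT : T ∈ Ia κ (rho (N := N) κ) ^ n) : Gd (T φ) := by
  have h1 := Ia_anti le_rfl hn hT
  rw [pow_one] at h1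
  exact Gd_Ia h h1

/-- the anti-invariant function of a pair of eigenfunctions vanishes -/
theorem psi_zero (h3 : (3 : κ) = 0) {φ ψ : Fn N κ} (h : Gd φ) (h' : Gd ψ)
    (Fi : ∀ a b c : Zn N, φ (im a (-b) (-c)) = φ (im a b c))
    (Fj : ∀ a b c : Zn N, φ (im (-a) b (-c)) = φ (im a b c))
    (Fi' : ∀ a b c : Zn N, ψ (im a (-b) (-c)) = ψ (im a b c))
    (Fj' : ∀ a b c : Zn N, ψ (im (-a) b (-c)) = ψ (im a b c))
    (Fq' : ψ (im 1 0 0) = -ψ (im 1 0 0))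
    {c5 c7 c13 : κ} (h5 : ∀ x, Dc x → x5 (rho κ) ψ x = -c5 * ψ x)
    (h7 : ∀ x, Dc x → x7 (rho κ) ψ x = c7 * ψ x) (h13 : ∀ x, Dc x → x13 (rho κ) ψ x = c13 * ψ x)
    (k5 : ∀ x, Dc x → x5 (rho κ) φ x + d5 (rho κ) ψ x = c5 * φ x)
    (k7 : ∀ x, Dc x → x7 (rho κ) φ x + d7 (rho κ) ψ x = c7 * φ x)
    (k13 : ∀ x, Dc x → x13 (rho κ) φ x + d13 (rho κ) ψ x = c13 * φ x) : ψ = 0 := by
  by_contra hne
  have hR := three_End (N := N) h3
  have anti1 : ∀ {T : Module.End κ (Fn N κ)}, T ∈ Ia κ (rho (N := N) κ) ^ 2 →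
      T ∈ Ia κ (rho (N := N) κ) ^ 1 := fun hT => Ia_anti le_rfl (by norm_num) hT
  -- the eigenvalues vanish
  have ev : ∀ {T : Module.End κ (Fn N κ)} {c : κ}, T ∈ Ia κ (rho (N := N) κ) ^ 1 →
      (∀ x, Dc x → T ψ x = c * ψ x) → c = 0 ∧ T ψ = 0 := by
    intro T c hT hc
    have z := eig_zero h3 h' hT hc
    refine ⟨?_, z⟩
    by_contra hc0
    apply hne
    apply eq_disc h' ⟨fun _ _ => rfl, fun _ _ => rfl⟩
    intro x hx
    have h1 := hc x hx
    rw [z] at h1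
    exact (mul_eq_zero.1 h1.symm).resolve_left hc0
  obtain ⟨e5, z5⟩ := ev (anti1 x5_mem2) h5
  obtain ⟨e7, z7⟩ := ev (anti1 x7_mem2) h7
  obtain ⟨e13, z13⟩ := ev (anti1 x13_mem2) h13
  have e5' : c5 = 0 := by rwa [neg_eq_zero] at e5
  have gz : Gd (0 : Fn N κ) := ⟨fun _ _ => rfl, fun _ _ => rfl⟩
  have w5 : x5 (rho κ) φ + d5 (rho κ) ψ = 0 := by
    apply eq_disc (Gd_add (Gd_pow h (by norm_num) x5_mem2) (Gd_pow h' (by norm_num) d5_mem2)) gz
    intro x hx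
    have := k5 x hx
    rw [e5', zero_mul] at this
    exact this
  have w7 : x7 (rho κ) φ + d7 (rho κ) ψ = 0 := by
    apply eq_disc (Gd_add (Gd_pow h (by norm_num) x7_mem2)
      (Gd_pow h' (by norm_num) (d7_mem rho_Sc hR))) gz
    intro x hx
    have := k7 x hx
    rw [e7, zero_mul] at this
    exact this
  have w13 : x13 (rho κ) φ + d13 (rho κ) ψ = 0 := by
    apply eq_disc (Gd_add (Gd_pow h (by norm_num) x13_mem2)
      (Gd_pow h' (by norm_num) (d13_mem rho_Sc hR))) gz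
    intro x hx
    have := k13 x hx
    rw [e13, zero_mul] at this
    exact this
  -- the third power kills the second function
  have s3 : ∀ T ∈ Ia κ (rho (N := N) κ) ^ 3, T ψ = 0 := by
    apply descC h3 3 (by norm_num)
    intro d hd hnext
    apply stepC h3 h' Fi' Fj' d (by omega) hnext
    · intro j l hjl
      rw [z5, map_zero]; rfl
    · intro j l hjl
      rw [z5, map_zero]; rfl
    · intro j l hjl
      rw [z7, map_zero]; rfl
    · intro h2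
      omega
  -- the fifth power kills the first function
  have mj : ∀ j l : ℕ, ∀ {n : ℕ} {T : Module.End κ (Fn N κ)}, T ∈ Ia κ (rho (N := N) κ) ^ n →
      3 ≤ j + l + n → mo (rho (N := N) κ) j l (T ψ) = 0 := by
    intro j l n T hT hn
    have h1 := Ia_zero (by norm_num) s3 hn (fmul (mo_mem (k := κ) (ρ := rho (N := N) κ) j l) hT)
    exact h1
  have s5 : ∀ T ∈ Ia κ (rho (N := N) κ) ^ 5, T φ = 0 := by
    apply descC h3 5 (by norm_num)
    intro d hd hnext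
    have f5 : x5 (rho κ) φ = -(d5 (rho κ) ψ) := eq_neg_of_add_eq_zero_left w5
    have f7 : x7 (rho κ) φ = -(d7 (rho κ) ψ) := eq_neg_of_add_eq_zero_left w7
    apply stepC h3 h Fi Fj d (by omega) hnext
    · intro j l hjl
      rw [f5, map_neg, mj j l d5_mem2 (by omega), neg_zero]; rfl
    · intro j l hjl
      rw [f5, map_neg, mj j l d5_mem2 (by omega), neg_zero]; rfl
    · intro j l hjl
      rw [f7, map_neg, mj j l (d7_mem rho_Sc hR) (by omega), neg_zero]; rfl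
    · intro h2
      omega
  -- the relation at thirteen
  have dz : d5 (rho κ) ψ = 0 := by
    have h1 := s5 _ (x13_lead rho_Sc hR)
    have h2 : x13 (rho κ) φ - (x5 (rho κ) φ + x7 (rho κ) φ) = 0 := h1
    have h7z := s3 _ (d7_mem rho_Sc hR)
    have h13z := s3 _ (d13_mem rho_Sc hR)
    rw [h7z, add_zero] at w7
    rw [h13z, add_zero] at w13
    rw [w13, w7, add_zero, zero_sub, neg_eq_zero] at h2
    rwa [h2, zero_add] at w5
  have ZY : gZ (rho κ) (gZ (rho κ) ψ) = gY (rho κ) (gY (rho κ) ψ) := by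
    have h1 := s3 _ (d5_lead rho_Sc)
    have h2 : d5 (rho κ) ψ - (gZ (rho κ) (gZ (rho κ) ψ) - gY (rho κ) (gY (rho κ) ψ)) = 0 := h1
    rw [dz, zero_sub, neg_eq_zero, sub_eq_zero] at h2
    exact h2
  have s1 : ∀ T ∈ Ia κ (rho (N := N) κ) ^ 1, T ψ = 0 := by
    apply descC h3 1 (by norm_num)
    intro d hd hnext
    apply stepC h3 h' Fi' Fj' d hd hnext
    · intro j l hjl
      rw [z5, map_zero]; rfl
    · intro j l hjl
      rw [z5, map_zero]; rfl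
    · intro j l hjl
      rw [z7, map_zero]; rfl
    · intro h2
      have e1 : mo (rho (N := N) κ) 0 2 ψ = gZ (rho κ) (gZ (rho κ) ψ) := by
        unfold mo
        rw [pow_zero, one_mul, pow_two]; rfl
      have e2 : mo (rho (N := N) κ) 2 0 ψ = gY (rho κ) (gY (rho κ) ψ) := by
        unfold mo
        rw [pow_zero, mul_one, pow_two]; rfl
      rw [e1, e2, ZY]
  have hfix : ∀ g ∈ Kz N 1, rho κ g ψ = ψ := by
    intro g hg
    have h1 := s1 _ (y_mem1' (k := κ) (ρ := rho (N := N) κ) hg)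
    have h2 : rho κ g ψ - ψ = 0 := h1
    rwa [sub_eq_zero] at h2
  apply hne
  apply eq_disc h' gz
  intro x hx
  rw [fixed_const h' hfix hx]
  have h1 : ψ (im 1 0 0) + ψ (im 1 0 0) = 0 := by
    nth_rewrite 1 [Fq']
    rw [neg_add_cancel]
  show ψ (im 1 0 0) = 0
  have : ψ (im 1 0 0) = 3 * ψ (im 1 0 0) - (ψ (im 1 0 0) + ψ (im 1 0 0)) := by ring
  rw [this, h3, h1]; ring

/-- both functions of a pair of eigenfunctions are constant -/
theorem const_pair (h3 : (3 : κ) = 0) {φ ψ : Fn N κ} (h : Gd φ) (h' : Gd ψ)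
    (Fi : ∀ a b c : Zn N, φ (im a (-b) (-c)) = φ (im a b c))
    (Fj : ∀ a b c : Zn N, φ (im (-a) b (-c)) = φ (im a b c))
    (Fq : ∀ a b c : Zn N, φ (im a c (-b)) = φ (im a b c))
    (Fi' : ∀ a b c : Zn N, ψ (im a (-b) (-c)) = ψ (im a b c))
    (Fj' : ∀ a b c : Zn N, ψ (im (-a) b (-c)) = ψ (im a b c))
    (Fq' : ψ (im 1 0 0) = -ψ (im 1 0 0))
    {c5 c7 c13 : κ} (h5 : ∀ x, Dc x → x5 (rho κ) ψ x = -c5 * ψ x)
    (h7 : ∀ x, Dc x → x7 (rho κ) ψ x = c7 * ψ x) (h13 : ∀ x, Dc x → x13 (rho κ) ψ x = c13 * ψ x)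
    (k5 : ∀ x, Dc x → x5 (rho κ) φ x + d5 (rho κ) ψ x = c5 * φ x)
    (k7 : ∀ x, Dc x → x7 (rho κ) φ x + d7 (rho κ) ψ x = c7 * φ x)
    (k13 : ∀ x, Dc x → x13 (rho κ) φ x + d13 (rho κ) ψ x = c13 * φ x) :
    ψ = 0 ∧ ∀ x, Dc x → φ x = φ (im 1 0 0) := by
  have z := psi_zero h3 h h' Fi Fj Fi' Fj' Fq' h5 h7 h13 k5 k7 k13
  refine ⟨z, fun x hx => ?_⟩
  apply const_main (c5 := c5) (c7 := c7) h3 h Fi Fj Fq _ _ hx
  · intro x hx
    have := k5 x hx
    rw [z, map_zero] at this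
    rw [← this]
    show _ = _ + 0
    rw [add_zero]
  · intro x hx
    have := k7 x hx
    rw [z, map_zero] at this
    rw [← this]
    show _ = _ + 0
    rw [add_zero]

end

end Pool.Agent.Helper725_HQ
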