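import Pool.Agent.Helper725_HQ.Defs

/-! Algebraic modular forms on the Hamilton quaternions which are supercuspidal of conductor four
at two: definitions. -/

set_option autoImplicit false

namespace Pool.Agent.Helper725_HQ

open Quaternion MvPolynomial

/-- `I` is a right ideal of the Hurwitz order and `I'` is a group with `I (1 + i) ⊂ I' ⊂ I`, both
inclusions being strict. (The quotient of `I` by `I (1 + i)` has four elements, so there are three
such groups `I'`.) -/
structure IsPair4 (I I' : AddSubgroup ℍ[ℚ]) : Prop where
  fst : IsRI I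
  lt₁ : rm (mk4 1 1 0 0) I < I'
  lt₂ : I' < I

/-- A form of degree `k` whose component at two belongs to the two-dimensional representation of
the quotient (isomorphic to the symmetric group of degree three) of the multiplicative group of the
quaternion algebra over `ℚ₂` by its centre and its principal units: a function on the pairs
`(I, I')` invariant under right multiplication by `1 + i` whose sums over the three groups `I'`
vanish. Its values are harmonic homogeneous polynomials of degree `k`. -/
structure IsForm4 (k : ℕ)
    (F : AddSubgroup ℍ[ℚ] → AddSubgroup ℍ[ℚ] → MvPolynomial (Fin 3) ℂ) : Prop where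
  supp : ∀ I I', ¬ IsPair4 I I' → F I I' = 0
  hom : ∀ I I', (F I I').IsHomogeneous k
  harm : ∀ I I', ∑ i, pderiv i (pderiv i (F I I')) = 0
  left : ∀ α : ℍ[ℚ], α ≠ 0 → ∀ I I', IsPair4 I I' → ∀ x,
    ev (F (lm α I) (lm α I')) (α * x * α⁻¹) = ev (F I I') x
  two : ∀ I I', IsPair4 I I' → F (rm (mk4 1 1 0 0) I) (rm (mk4 1 1 0 0) I') = F I I'
  tr : ∀ I, IsRI I → ∑ᶠ I' ∈ {I' : AddSubgroup ℍ[ℚ] | IsPair4 I I'}, F I I' = 0

end Pool.Agent.Helper725_HQ
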