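import Pool.Agent.Helper725_HQ.BDefs
import Pool.Agent.Helper725_HQ.SDefs

/-! Algebraic modular forms on the Hamilton quaternions which are supercuspidal of conductor four
at two, with a level structure at three. -/

set_option autoImplicit false

namespace Pool.Agent.Helper725_HQ

open Quaternion MvPolynomial NumberField
open scoped nonZeroDivisors

/-- A form of degree `k` on the triples `(I, I', u)` of a right ideal `I` of the Hurwitz order, a
group `I'` with `I (1 + i) ⊂ I' ⊂ I` (strict inclusions) and a generator `u` of `I` at three, which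
only depends on `u` modulo `3 ^ n`. Its component at two belongs to the two-dimensional
representation of the quotient (isomorphic to the symmetric group of degree three) of the
multiplicative group of the quaternion algebra over `ℚ₂` by its centre and its principal units: it
is invariant under right multiplication by `1 + i` at two, and its sums over the three groups `I'`
vanish. It is invariant under right multiplication at three by the units of `ℤ₃[i]`, and the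
element `j`, which normalizes this torus, acts by `(-1) ^ k`. The values are harmonic homogeneous
polynomials of degree `k` on the space of pure quaternions. -/
structure IsForm4N (n k : ℕ)
    (F : AddSubgroup ℍ[ℚ] → AddSubgroup ℍ[ℚ] → ℍ[ℚ] → MvPolynomial (Fin 3) ℂ) : Prop where
  supp : ∀ I I' u, ¬ (IsPair4 I I' ∧ Gen3 I u) → F I I' u = 0
  hom : ∀ I I' u, (F I I' u).IsHomogeneous k
  harm : ∀ I I' u, ∑ i, pderiv i (pderiv i (F I I' u)) = 0
  left : ∀ α : ℍ[ℚ], α ≠ 0 → ∀ I I' u, IsPair4 I I' → Gen3 I u → ∀ x,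
    ev (F (lm α I) (lm α I') (α * u)) (α * x * α⁻¹) = ev (F I I' u) x
  two : ∀ I I' u, IsPair4 I I' → Gen3 (rm (mk4 1 1 0 0) I) u →
    F (rm (mk4 1 1 0 0) I) (rm (mk4 1 1 0 0) I') u = F I I' u
  lvl : ∀ I I' u u', IsPair4 I I' → Gen3 I u → Gen3 I u' →
    u' - u ∈ lm ((3 ^ n : ℕ) : ℍ[ℚ]) I → F I I' u' = F I I' u
  tor : ∀ I I' u, IsPair4 I I' → Gen3 I u → ∀ a b : ℤ, ¬ (3 : ℤ) ∣ a ^ 2 + b ^ 2 →
    F I I' (u * mk4 a b 0 0) = F I I' u
  sgn : ∀ I I' u, IsPair4 I I' → Gen3 I u → F I I' (u * mk4 0 0 1 0) = (-1 : ℂ) ^ k • F I I' u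
  tr : ∀ I u, IsRI I → ∑ᶠ I' ∈ {I' : AddSubgroup ℍ[ℚ] | IsPair4 I I'}, F I I' u = 0

/-- The Hecke operator at a prime `p` different from two and three: the sum over the right ideals
`J` with `p I ⊂ J ⊂ I`, both inclusions being strict. -/
noncomputable def hecke4N (p : ℕ)
    (F : AddSubgroup ℍ[ℚ] → AddSubgroup ℍ[ℚ] → ℍ[ℚ] → MvPolynomial (Fin 3) ℂ)
    (I I' : AddSubgroup ℍ[ℚ]) (u : ℍ[ℚ]) : MvPolynomial (Fin 3) ℂ :=
  ∑ᶠ J ∈ {J : AddSubgroup ℍ[ℚ] | IsRI J ∧ lm p I < J ∧ J < I}, F J (J ⊓ I') (p * u)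

/-- The toric period as a sum over the class group, `rep` choosing an integral ideal in every
class. -/
noncomputable def torp4N {K : Type} [Field K] [NumberField K]
    (F : AddSubgroup ℍ[ℚ] → AddSubgroup ℍ[ℚ] → ℍ[ℚ] → MvPolynomial (Fin 3) ℂ) (ι : K →+* ℍ[ℚ])
    (rep : ClassGroup (𝓞 K) → (Ideal (𝓞 K))⁰) (I I' : AddSubgroup ℍ[ℚ]) (u : ℍ[ℚ]) (s : K) : ℂ :=
  ∑ c, ev (F (idl ι (rep c : Ideal (𝓞 K)) I) (idl ι (rep c : Ideal (𝓞 K)) I')
    (Ideal.absNorm (rep c : Ideal (𝓞 K)) * u)) (ι s)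

/-- Some toric period of `F` along `K` does not vanish: the groups `I` and `I'` are stable under
the maximal order of `K`, and conjugation by `u` takes the pure element `s` of `K` to a multiple of
`i` modulo `3 ^ n`. The ideals representing the classes are prime to three. -/
def NonvanPer4N (n : ℕ)
    (F : AddSubgroup ℍ[ℚ] → AddSubgroup ℍ[ℚ] → ℍ[ℚ] → MvPolynomial (Fin 3) ℂ)
    (K : Type) [Field K] [NumberField K] : Prop :=
  ∃ (ι : K →+* ℍ[ℚ]) (I I' : AddSubgroup ℍ[ℚ]) (u : ℍ[ℚ]), IsPair4 I I' ∧ Gen3 I u ∧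
    (∀ a : 𝓞 K, ∀ y ∈ I, ι (a : K) * y ∈ I) ∧ (∀ a : 𝓞 K, ∀ y ∈ I', ι (a : K) * y ∈ I') ∧
    ∃ s : K, s ≠ 0 ∧ (ι s).re = 0 ∧
      (∃ c : ℤ, ¬ (3 : ℤ) ∣ c ∧ ι s * u - u * mk4 0 c 0 0 ∈ lm ((3 ^ n : ℕ) : ℍ[ℚ]) I) ∧
      ∀ rep : ClassGroup (𝓞 K) → (Ideal (𝓞 K))⁰, (∀ c, ClassGroup.mk0 (rep c) = c) →
        (∀ c, ¬ 3 ∣ Ideal.absNorm (rep c : Ideal (𝓞 K))) → torp4N F ι rep I I' u s ≠ 0

end Pool.Agent.Helper725_HQ
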