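import Pool.Agent.Helper725_HQ.CSp
import Pool.Agent.Helper725_HQ.CDefs

/-! Forms of conductor four with a level structure at three as functions on the vectors. -/

set_option autoImplicit false
set_option linter.unusedVariables false
set_option linter.unusedSimpArgs false

namespace Pool.Agent.Helper725_HQ

open Quaternion MvPolynomial

/-- representatives of the three groups -/
def oms : Fin 3 → ℍ[ℚ] := ![1, om, om2]

theorem oms_mem : ∀ s, oms s ∈ Hur := by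
  intro s
  fin_cases s
  · exact Hur.one_mem
  · exact om_mem
  · exact om2_mem

theorem oms_norm : ∀ s, normSq (oms s) = 1 := by
  intro s
  fin_cases s
  · exact map_one _
  · exact om_norm
  · exact om2_norm

theorem oms_ne (s : Fin 3) : oms s ≠ 0 := by
  rw [← normSq_ne_zero, oms_norm]; norm_num

theorem oms_Oo (s : Fin 3) : lm (oms s) Oo = Oo := mem_of_unit (oms_mem s) (oms_norm s)

theorem pair4_oms (s : Fin 3) : IsPair4 Oo (lm (oms s) Lip) := by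
  have := (pair4_lm (oms_ne s)).2 pair4_Lip
  rwa [oms_Oo] at this

/-- negation -/
def ng : Fin 3 → Fin 3 := ![0, 2, 1]

theorem ep_Lip : rm ep Lip = lm ep Lip := by
  ext x
  rw [mem_rm, mem_lm]
  constructor
  · rintro ⟨y, ⟨a, b, c, d, rfl⟩, rfl⟩
    refine ⟨mk4 a b d (-c), ⟨a, b, d, -c, by push_cast; rfl⟩, ?_⟩
    apply ext4 <;> simp [re_mul, imI_mul, imJ_mul, imK_mul, ep_re, ep_imI, ep_imJ, ep_imK] <;> ring
  · rintro ⟨y, ⟨a, b, c, d, rfl⟩, rfl⟩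
    refine ⟨mk4 a b (-d) c, ⟨a, b, -d, c, by push_cast; rfl⟩, ?_⟩
    apply ext4 <;> simp [re_mul, imI_mul, imJ_mul, imK_mul, ep_re, ep_imI, ep_imJ, ep_imK] <;> ring

theorem Lip_unit {u : ℍ[ℚ]} (hu : u ∈ Lip) (hu' : star u ∈ Lip) (hn : normSq u = 1) :
    lm u Lip = Lip := by
  apply le_antisymm
  · intro x hx
    obtain ⟨y, hy, rfl⟩ := mem_lm.1 hx
    exact Lip_mul hu hy
  · intro x hx
    refine mem_lm.2 ⟨star u * x, Lip_mul hu' hx, ?_⟩
    rw [← mul_assoc, self_mul_star, hn, Quaternion.coe_one, one_mul]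

theorem om_ep : om * ep = ep * om2 * mk4 0 0 (-1) 0 := by
  apply ext4 <;> simp [om, om2, re_mul, imI_mul, imJ_mul, imK_mul, ep_re, ep_imI, ep_imJ, ep_imK] <;>
    norm_num

theorem om2_ep : om2 * ep = ep * om * mk4 0 1 0 0 := by
  apply ext4 <;> simp [om, om2, re_mul, imI_mul, imJ_mul, imK_mul, ep_re, ep_imI, ep_imJ, ep_imK] <;>
    norm_num

theorem rm_oms (s : Fin 3) : rm ep (lm (oms s) Lip) = lm ep (lm (oms (ng s)) Lip) := by
  rw [← lm_rm, ep_Lip, lm_lm, lm_lm]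
  fin_cases s
  · show lm (1 * ep) Lip = lm (ep * 1) Lip
    rw [one_mul, mul_one]
  · show lm (om * ep) Lip = lm (ep * om2) Lip
    rw [om_ep, ← lm_lm, Lip_unit]
    · exact ⟨0, 0, -1, 0, by push_cast; rfl⟩
    · exact ⟨0, 0, 1, 0, by apply ext4 <;> simp⟩
    · rw [normSq_def']; simp
  · show lm (om2 * ep) Lip = lm (ep * om) Lip
    rw [om2_ep, ← lm_lm, Lip_unit]
    · exact ⟨0, 1, 0, 0, by push_cast; rfl⟩
    · exact ⟨0, -1, 0, 0, by apply ext4 <;> simp⟩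
    · rw [normSq_def']; simp

/-- the cyclic permutations -/
def cyi : Fin 3 → (Fin 3 → ℤ) → Fin 3 → ℤ := ![fun x => x, fun x => ![x 1, x 2, x 0],
  fun x => ![x 2, x 0, x 1]]

theorem pq_cyi (s : Fin 3) (x : Fin 3 → ℤ) : pq (cyi s x) = (oms s)⁻¹ * pq x * oms s := by
  fin_cases s
  · show pq x = (1 : ℍ[ℚ])⁻¹ * pq x * 1
    rw [inv_one, one_mul, mul_one]
  · exact pq_om x
  · exact pq_om2 x

theorem GO_oms (s : Fin 3) : GO (oms s) :=
  GO_of_norm (oms_mem s) (p := 1) (by rw [oms_norm]; norm_num) (by norm_num)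

/-- the action of an integral quaternion -/
def actc (c : Fin 4 → ℤ) (x : Fin 3 → ℤ) (i : Fin 3) : ℤ :=
  ∑ j, rotZ (c 0) (c 1) (c 2) (c 3) i j * x j

/-- an integral quaternion -/
def qc (c : Fin 4 → ℤ) : ℍ[ℚ] := mk4 (c 0) (c 1) (c 2) (c 3)

theorem qc_norm (c : Fin 4 → ℤ) : normSq (qc c) =
    ((c 0 ^ 2 + c 1 ^ 2 + c 2 ^ 2 + c 3 ^ 2 : ℤ) : ℚ) := by
  rw [normSq_def']
  simp [qc]

theorem pq_actc (c : Fin 4 → ℤ) (x : Fin 3 → ℤ) : pq (actc c x) = star (qc c) * pq x * qc c := by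
  unfold pq actc qc
  apply ext4
  · simp [re_mul, imI_mul, imJ_mul, imK_mul]; ring
  · simp [re_mul, imI_mul, imJ_mul, imK_mul, Fin.sum_univ_three, rotZ]; ring
  · simp [re_mul, imI_mul, imJ_mul, imK_mul, Fin.sum_univ_three, rotZ]; ring
  · simp [re_mul, imI_mul, imJ_mul, imK_mul, Fin.sum_univ_three, rotZ]; ring

theorem rot_lsubc {c : Fin 4 → ℤ} {N : ℤ} (hN : c 0 ^ 2 + c 1 ^ 2 + c 2 ^ 2 + c 3 ^ 2 = N)
    (hN0 : N ≠ 0) {k : ℕ} {P : MvPolynomial (Fin 3) ℂ} (hP : P.IsHomogeneous k)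
    (x : Fin 3 → ℤ) :
    (N : ℂ) ^ k * vl (lsub (rC (qc c)) P) x = vl P (actc c x) := by
  have h1 : C ((N : ℂ) ^ k) * lsub (rC (qc c)) P =
      lsub (fun i j => ((rotZ (c 0) (c 1) (c 2) (c 3) i j : ℤ) : ℂ)) P := by
    rw [← lsub_smul hP]
    apply lsub_congr
    intro i j
    have h2 := rmat_rotZ (a := c 0) (b := c 1) (c := c 2) (d := c 3) (N := N) hN hN0 i j
    have h3 : ((rotZ (c 0) (c 1) (c 2) (c 3) i j : ℤ) : ℂ) =
        (((rotZ (c 0) (c 1) (c 2) (c 3) i j : ℤ) : ℚ) : ℂ) := by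
      rw [Rat.cast_intCast]
    rw [h3, ← h2]
    unfold rC qc
    push_cast
    rfl
  have h2 := congrArg (eval (fun i => ((x i : ℤ) : ℂ))) h1
  rw [map_mul, eval_C] at h2
  unfold vl
  rw [h2, eval_lsub]
  congr 1
  apply congrArg
  funext i
  unfold actc
  push_cast
  rfl

theorem GO_qc {c : Fin 4 → ℤ} {N : ℤ} (hN : c 0 ^ 2 + c 1 ^ 2 + c 2 ^ 2 + c 3 ^ 2 = N)
    (hN3 : N % 3 = 1) : GO (qc c) := GO_int (by omega)

theorem Ad_actc {n : ℕ} {x : Fin 3 → ℤ} {u : ℍ[ℚ]} (hu : Ad n x u) {c : Fin 4 → ℤ} {N : ℤ}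
    (hN : c 0 ^ 2 + c 1 ^ 2 + c 2 ^ 2 + c 3 ^ 2 = N) (hN3 : N % 3 = 1) :
    Ad n (actc c x) (star (qc c) * u) := by
  have hg := GO_qc hN hN3
  apply Ad_conj hg (t := N) hN3 _ hu
  rw [pq_actc, ← hN, ← qc_norm, ← smul_mul_assoc, ← smul_mul_assoc, star_inv hg.ne]

section
variable {n k : ℕ} {F : AddSubgroup ℍ[ℚ] → AddSubgroup ℍ[ℚ] → ℍ[ℚ] → MvPolynomial (Fin 3) ℂ}

theorem form4N_left (hF : IsForm4N n k F) {α : ℍ[ℚ]} (hα : α ≠ 0) {I I' : AddSubgroup ℍ[ℚ]}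
    (hI : IsPair4 I I') {u : ℍ[ℚ]} (hu : Gen3 I u) :
    F (lm α I) (lm α I') (α * u) = lsub (rC α) (F I I' u) := by
  apply eq_of_ev
  intro x
  rw [ev_lsub hα]
  have h1 := hF.left α hα I I' u hI hu (α⁻¹ * x * α)
  have h2 : α * (α⁻¹ * x * α) * α⁻¹ = x := by
    rw [← mul_assoc, ← mul_assoc, mul_inv_cancel₀ hα, one_mul, mul_assoc, mul_inv_cancel₀ hα,
      mul_one]
  rw [h2] at h1
  exact h1

theorem form4N_ep (hF : IsForm4N n k F) (s : Fin 3) {u : ℍ[ℚ]} (hu : GO u) :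
    F Oo (lm (oms s) Lip) (ep * u) = lsub (rC ep) (F Oo (lm (oms (ng s)) Lip) u) := by
  rw [← form4N_left hF ep_ne (pair4_oms _) (gen_iff.2 hu)]
  have h2 : Gen3 (rm ep Oo) (ep * u) := by
    rw [rm_ep_Oo]; exact gen_lm ep_ne (gen_iff.2 hu)
  have h3 := hF.two Oo (lm (oms s) Lip) (ep * u) (pair4_oms s) h2
  rw [← rm_oms, ← rm_ep_Oo]
  exact h3.symm

theorem form4N_fu (hF : IsForm4N n k F) : Fu n k (F Oo Lip) := by
  have e0 : lm (oms 0) Lip = Lip := lm_one Lip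
  refine ⟨fun u => hF.hom _ _ _, ?_, ?_, ?_, ?_, ?_⟩
  · intro a b c d h u hu
    have hn : normSq (mk4 (a : ℚ) b c d) = 1 := by rw [normSq_int, h]; norm_num
    have hne : mk4 (a : ℚ) b c d ≠ 0 := by
      rw [← normSq_ne_zero, hn]; norm_num
    have h1 := form4N_left hF hne pair4_Lip (gen_iff.2 hu)
    rwa [mem_of_unit (int_mem a b c d) hn, Lip_unit ⟨a, b, c, d, rfl⟩
      ⟨a, -b, -c, -d, by apply ext4 <;> simp⟩ hn] at h1
  · intro u hu
    have h1 := form4N_ep hF 0 hu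
    rw [e0] at h1
    rw [h1]
    show lsub (rC ep) (F Oo (lm (oms 0) Lip) u) = _
    rw [e0]
  · intro u u' hu hu' ⟨z, hz, h⟩
    apply hF.lvl Oo Lip u u' pair4_Lip (gen_iff.2 hu) (gen_iff.2 hu')
    rw [mem_lm]
    refine ⟨z, hz, ?_⟩
    rw [h, nat_smulH]
    push_cast
    abel
  · intro u hu a b hab
    exact hF.tor Oo Lip u pair4_Lip (gen_iff.2 hu) a b hab
  · intro u hu
    exact hF.sgn Oo Lip u pair4_Lip (gen_iff.2 hu)

theorem form4N_scal (hF : IsForm4N n k F) (s : Fin 3) {u : ℍ[ℚ]} (hu : GO u) {a : ℤ}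
    (ha : ¬ (3 : ℤ) ∣ a) : F Oo (lm (oms s) Lip) ((a : ℚ) • u) = F Oo (lm (oms s) Lip) u := by
  have h := hF.tor Oo (lm (oms s) Lip) u (pair4_oms s) (gen_iff.2 hu) a 0 (by
    intro h
    rw [zero_pow two_ne_zero, add_zero] at h
    exact ha (Int.prime_three.dvd_of_dvd_pow h))
  rw [← h]
  congr 1
  rw [Int.cast_zero]
  apply ext4 <;> simp [re_mul, imI_mul, imJ_mul, imK_mul, mul_comm]

theorem form4N_oms (hF : IsForm4N n k F) (s : Fin 3) {u : ℍ[ℚ]} (hu : GO u) :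
    F Oo (lm (oms s) Lip) (oms s * u) = lsub (rC (oms s)) (F Oo Lip u) := by
  have h1 := form4N_left hF (oms_ne s) pair4_Lip (gen_iff.2 hu)
  rwa [oms_Oo] at h1

theorem vl_oms (hF : IsForm4N n k F) (s : Fin 3) {x : Fin 3 → ℤ} {u : ℍ[ℚ]} (hu : Ad n x u) :
    vl (F Oo (lm (oms s) Lip) u) x = gv n (F Oo Lip) (cyi s x) := by
  have h1 := Ad_conj (GO_oms s) (t := 1) rfl (y := cyi s x)
    (by rw [Int.cast_one, one_smul]; exact pq_cyi s x) hu
  rw [gv_eq (form4N_fu hF) h1]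
  have e : u = oms s * (star (oms s) * u) := by
    rw [← mul_assoc, self_mul_star, oms_norm, Quaternion.coe_one, one_mul]
  conv_lhs => rw [e, form4N_oms hF s h1.1]
  rw [← evvl, ← evvl, ev_lsub (oms_ne s), pq_cyi]

/-- the sum over the three groups -/
theorem gv_tr (hF : IsForm4N n k F) {x : Fin 3 → ℤ} (hx : ∃ u, Ad n x u) :
    gv n (F Oo Lip) x + gv n (F Oo Lip) (cyi 1 x) + gv n (F Oo Lip) (cyi 2 x) = 0 := by
  obtain ⟨u, hu⟩ := hx
  have h1 := hF.tr Oo u Oo_isRI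
  rw [pair4_set, finsum_mem_insert _ _ (Set.toFinite _), finsum_mem_pair Lip_ne3] at h1
  · have h2 := congrArg (fun P => vl P x) h1
    have ha : ∀ P Q : MvPolynomial (Fin 3) ℂ, vl (P + Q) x = vl P x + vl Q x := by
      intro P Q
      unfold vl
      rw [map_add]
    have hz : vl (0 : MvPolynomial (Fin 3) ℂ) x = 0 := by
      unfold vl
      rw [map_zero]
    simp only [ha, hz] at h2
    have e0 := vl_oms hF 0 hu
    have e1 := vl_oms hF 1 hu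
    have e2 := vl_oms hF 2 hu
    rw [show lm (oms 0) Lip = Lip from lm_one Lip] at e0
    change vl (F Oo (lm om Lip) u) x = _ at e1
    change vl (F Oo (lm om2 Lip) u) x = _ at e2
    rw [e0, e1, e2] at h2
    change gv n (F Oo Lip) x + _ = _ at h2
    rw [add_assoc]
    exact h2
  · rw [Set.mem_insert_iff, Set.mem_singleton_iff]
    rintro (h | h)
    · exact Lip_ne1 h
    · exact Lip_ne2 h

theorem hecke_term4 (hF : IsForm4N n k F) {α : ℍ[ℚ]} (hα : α ∈ Hur) {p : ℕ}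
    (hn : normSq α = p) (hp3 : ¬ 3 ∣ p) (hp2 : p.Coprime 2) (hJ : lm α Oo ∈ Sp p Oo) {s : Fin 3}
    (hs : α * oms s ∈ Lip) {u : ℍ[ℚ]} (hu : GO u) :
    F (lm α Oo) (lm α Oo ⊓ Lip) (p * u) =
      lsub (rC α) (F Oo (lm (oms s) Lip) (star α * u)) := by
  have hg := GO_of_norm hα hn hp3
  rw [← form4N_left hF hg.ne (pair4_oms s) (gen_iff.2 (hg.star.mul hu)), ← mul_assoc,
    self_mul_star, hn, inf_unit hp2 hg.ne hJ (oms_mem s) (oms_norm s) hs]
  rfl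

/-- evaluation of one term -/
theorem term_eval (hF : IsForm4N n k F) (s : Fin 3) {x : Fin 3 → ℤ} {u : ℍ[ℚ]} (hu : Ad n x u)
    {c : Fin 4 → ℤ} {N : ℤ} (hN : c 0 ^ 2 + c 1 ^ 2 + c 2 ^ 2 + c 3 ^ 2 = N) (hN3 : N % 3 = 1) :
    (N : ℂ) ^ k * vl (lsub (rC (qc c)) (F Oo (lm (oms s) Lip) (star (qc c) * u))) x =
      gv n (F Oo Lip) (cyi s (actc c x)) := by
  rw [rot_lsubc hN (by omega) (hF.hom _ _ _) x, vl_oms hF s (Ad_actc hu hN hN3)]

end

end Pool.Agent.Helper725_HQ
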