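import Pool.Agent.Helper725_HQ.CForm

/-! The Hecke relations in conductor four. -/

set_option autoImplicit false
set_option linter.unusedVariables false
set_option linter.unusedSimpArgs false

namespace Pool.Agent.Helper725_HQ

open Quaternion MvPolynomial

/-- half of an integral quaternion -/
def q2 (c : Fin 4 → ℤ) : ℍ[ℚ] := mk4 (c 0 / 2) (c 1 / 2) (c 2 / 2) (c 3 / 2)

theorem prodL {c o : Fin 4 → ℤ}
    (h0 : (c 0 * o 0 - c 1 * o 1 - c 2 * o 2 - c 3 * o 3) % 4 = 0)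
    (h1 : (c 0 * o 1 + c 1 * o 0 + c 2 * o 3 - c 3 * o 2) % 4 = 0)
    (h2 : (c 0 * o 2 - c 1 * o 3 + c 2 * o 0 + c 3 * o 1) % 4 = 0)
    (h3 : (c 0 * o 3 + c 1 * o 2 - c 2 * o 1 + c 3 * o 0) % 4 = 0) : q2 c * q2 o ∈ Lip := by
  obtain ⟨a, ha⟩ := Int.dvd_of_emod_eq_zero h0
  obtain ⟨b, hb⟩ := Int.dvd_of_emod_eq_zero h1
  obtain ⟨c', hc⟩ := Int.dvd_of_emod_eq_zero h2
  obtain ⟨d, hd⟩ := Int.dvd_of_emod_eq_zero h3
  have ha' : (c 0 : ℚ) * o 0 - c 1 * o 1 - c 2 * o 2 - c 3 * o 3 = 4 * a := by exact_mod_cast ha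
  have hb' : (c 0 : ℚ) * o 1 + c 1 * o 0 + c 2 * o 3 - c 3 * o 2 = 4 * b := by exact_mod_cast hb
  have hc' : (c 0 : ℚ) * o 2 - c 1 * o 3 + c 2 * o 0 + c 3 * o 1 = 4 * c' := by exact_mod_cast hc
  have hd' : (c 0 : ℚ) * o 3 + c 1 * o 2 - c 2 * o 1 + c 3 * o 0 = 4 * d := by exact_mod_cast hd
  refine ⟨a, b, c', d, ?_⟩
  unfold q2
  apply ext4
  · simp [re_mul]; linear_combination ha' / 4
  · simp [imI_mul]; linear_combination hb' / 4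
  · simp [imJ_mul]; linear_combination hc' / 4
  · simp [imK_mul]; linear_combination hd' / 4

/-- doubles of the representatives of the three groups -/
def oo : Fin 3 → Fin 4 → ℤ := ![![2, 0, 0, 0], ![1, 1, 1, 1], ![-1, 1, 1, 1]]

theorem oms_q2 (s : Fin 3) : oms s = q2 (oo s) := by
  fin_cases s
  · show (1 : ℍ[ℚ]) = _
    apply ext4 <;> simp [q2, oo]
  · show om = _
    apply ext4 <;> simp [om, q2, oo]
  · show om2 = _
    apply ext4 <;> simp [om2, q2, oo]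

/-- doubles of the generators of the ideals of norm five -/
def a5 : Fin 6 → Fin 4 → ℤ := ![![4, 2, 0, 0], ![-2, -4, 0, 0], ![1, -1, 3, 3], ![1, -1, -3, -3],
  ![1, -1, -3, 3], ![1, -1, 3, -3]]

/-- doubles of the generators of the ideals of norm seven -/
def a7 : Fin 8 → Fin 4 → ℤ := ![![1, 3, 3, 3], ![1, -3, -3, -3], ![1, 3, 3, -3], ![1, -3, -3, 3],
  ![1, 3, -3, 3], ![1, -3, 3, -3], ![1, 3, -3, -3], ![1, -3, 3, 3]]

/-- the shifts -/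
def s5 : Fin 6 → Fin 3 := ![0, 0, 2, 2, 1, 1]
/-- the shifts -/
def s7 : Fin 8 → Fin 3 := ![1, 2, 2, 1, 2, 1, 1, 2]
/-- the shifts -/
def s13 : Fin 14 → Fin 3 := ![0, 0, 0, 0, 0, 0, 1, 2, 2, 1, 2, 1, 1, 2]

theorem a5_q2 (i : Fin 6) : qv (v5 i) * ep⁻¹ = q2 (a5 i) := by
  rw [ep_inv]
  fin_cases i <;> (apply ext4 <;> simp [qv, v5, q2, a5, re_mul, imI_mul, imJ_mul, imK_mul] <;>
    norm_num)

theorem a7_q2 (i : Fin 8) : qv (v7 i) * hlf = q2 (a7 i) := by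
  unfold hlf
  fin_cases i <;> (apply ext4 <;> simp [qv, v7, q2, a7, re_mul, imI_mul, imJ_mul, imK_mul] <;>
    norm_num)

theorem mem_s5 (i : Fin 6) : qv (v5 i) * ep⁻¹ * oms (ng (s5 i)) ∈ Lip := by
  rw [a5_q2, oms_q2]
  revert i
  have h : ∀ i : Fin 6, (a5 i 0 * oo (ng (s5 i)) 0 - a5 i 1 * oo (ng (s5 i)) 1 -
      a5 i 2 * oo (ng (s5 i)) 2 - a5 i 3 * oo (ng (s5 i)) 3) % 4 = 0 ∧
      (a5 i 0 * oo (ng (s5 i)) 1 + a5 i 1 * oo (ng (s5 i)) 0 +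
      a5 i 2 * oo (ng (s5 i)) 3 - a5 i 3 * oo (ng (s5 i)) 2) % 4 = 0 ∧
      (a5 i 0 * oo (ng (s5 i)) 2 - a5 i 1 * oo (ng (s5 i)) 3 +
      a5 i 2 * oo (ng (s5 i)) 0 + a5 i 3 * oo (ng (s5 i)) 1) % 4 = 0 ∧
      (a5 i 0 * oo (ng (s5 i)) 3 + a5 i 1 * oo (ng (s5 i)) 2 -
      a5 i 2 * oo (ng (s5 i)) 1 + a5 i 3 * oo (ng (s5 i)) 0) % 4 = 0 := by decide
  intro i
  obtain ⟨h0, h1, h2, h3⟩ := h i
  exact prodL h0 h1 h2 h3

theorem mem_s7 (i : Fin 8) : qv (v7 i) * hlf * oms (s7 i) ∈ Lip := by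
  rw [a7_q2, oms_q2]
  revert i
  have h : ∀ i : Fin 8, (a7 i 0 * oo (s7 i) 0 - a7 i 1 * oo (s7 i) 1 -
      a7 i 2 * oo (s7 i) 2 - a7 i 3 * oo (s7 i) 3) % 4 = 0 ∧
      (a7 i 0 * oo (s7 i) 1 + a7 i 1 * oo (s7 i) 0 +
      a7 i 2 * oo (s7 i) 3 - a7 i 3 * oo (s7 i) 2) % 4 = 0 ∧
      (a7 i 0 * oo (s7 i) 2 - a7 i 1 * oo (s7 i) 3 +
      a7 i 2 * oo (s7 i) 0 + a7 i 3 * oo (s7 i) 1) % 4 = 0 ∧
      (a7 i 0 * oo (s7 i) 3 + a7 i 1 * oo (s7 i) 2 -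
      a7 i 2 * oo (s7 i) 1 + a7 i 3 * oo (s7 i) 0) % 4 = 0 := by decide
  intro i
  obtain ⟨h0, h1, h2, h3⟩ := h i
  exact prodL h0 h1 h2 h3

theorem mem_s13 (i : Fin 14) : q13 i * oms (s13 i) ∈ Lip := by
  rw [oms_q2]
  revert i
  have h : ∀ i : Fin 14, (c13 i 0 * oo (s13 i) 0 - c13 i 1 * oo (s13 i) 1 -
      c13 i 2 * oo (s13 i) 2 - c13 i 3 * oo (s13 i) 3) % 4 = 0 ∧
      (c13 i 0 * oo (s13 i) 1 + c13 i 1 * oo (s13 i) 0 +
      c13 i 2 * oo (s13 i) 3 - c13 i 3 * oo (s13 i) 2) % 4 = 0 ∧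
      (c13 i 0 * oo (s13 i) 2 - c13 i 1 * oo (s13 i) 3 +
      c13 i 2 * oo (s13 i) 0 + c13 i 3 * oo (s13 i) 1) % 4 = 0 ∧
      (c13 i 0 * oo (s13 i) 3 + c13 i 1 * oo (s13 i) 2 -
      c13 i 2 * oo (s13 i) 1 + c13 i 3 * oo (s13 i) 0) % 4 = 0 := by decide
  intro i
  obtain ⟨h0, h1, h2, h3⟩ := h i
  exact prodL h0 h1 h2 h3

/-- integral quaternions congruent to a scalar -/
def tc (a : ℤ) (v : Fin 3 → ℤ) : Fin 4 → ℤ := ![a, 3 * v 0, 3 * v 1, 3 * v 2]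

theorem qc_tc (v : Fin 3 → ℤ) : qc (tc 1 v) = qv v := by
  unfold qc tc qv
  apply ext4 <;> simp

theorem actc_tc (a : ℤ) (v x : Fin 3 → ℤ) : actc (tc a v) x = acta a v x := rfl

section
variable {n k : ℕ} {F : AddSubgroup ℍ[ℚ] → AddSubgroup ℍ[ℚ] → ℍ[ℚ] → MvPolynomial (Fin 3) ℂ}

theorem vl_smul (c : ℂ) (P : MvPolynomial (Fin 3) ℂ) (x : Fin 3 → ℤ) : vl (c • P) x = c * vl P x := by
  unfold vl
  rw [smul_eval]

/-- scaling by two -/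
theorem half_term (hF : IsForm4N n k F) (s : Fin 3) {α : ℍ[ℚ]} (hα : GO α) {u : ℍ[ℚ]}
    (hu : GO u) : lsub (rC α) (F Oo (lm (oms s) Lip) (star α * u)) =
      lsub (rC ((2 : ℚ) • α)) (F Oo (lm (oms s) Lip) (star ((2 : ℚ) • α) * u)) := by
  have e1 : star ((2 : ℚ) • α) * u = ((2 : ℤ) : ℚ) • (star α * u) := by
    rw [← smul_mul_assoc]
    congr 1
    apply ext4 <;> simp
  rw [e1, form4N_scal hF s (hα.star.mul hu) (by norm_num)]
  have h2 : ((2 : ℚ) : ℍ[ℚ]) ≠ 0 := by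
    intro h
    have h1 := ratmul 2 (1 : ℍ[ℚ])
    rw [h, zero_mul] at h1
    have h3 := congrArg QuaternionAlgebra.re h1
    rw [Quaternion.re_smul, Quaternion.re_one, Quaternion.re_zero] at h3
    norm_num at h3
  rw [← ratmul, ← rC_mul h2 hα.ne, rC_coe (by norm_num)]

/-- the relation at five -/
theorem hk5 (hF : IsForm4N n k F) {lam : ℂ}
    (he : ∀ I I' u, IsPair4 I I' → Gen3 I u → hecke4N 5 F I I' u = lam • F I I' u)
    {x : Fin 3 → ℤ} {u : ℍ[ℚ]} (hu : Ad n x u) :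
    ∑ i, gv n (F Oo Lip) (cyi (s5 i) (act (v5 i) x)) = (10 : ℂ) ^ k * lam * gv n (F Oo Lip) x := by
  have h1 := he Oo Lip u pair4_Lip (gen_iff.2 hu.1)
  unfold hecke4N at h1
  have h2 : {J : AddSubgroup ℍ[ℚ] | IsRI J ∧ lm (5 : ℕ) Oo < J ∧ J < Oo} = Sp 5 Oo := rfl
  rw [h2, Sp5_eq, finsum_mem_range (fun i j h => inj5 h), finsum_eq_sum_of_fintype] at h1
  have h3 := congrArg (fun P => vl P x) h1
  simp only [vl_sum, vl_smul] at h3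
  rw [gv_eq (form4N_fu hF) hu, mul_assoc, ← h3, Finset.mul_sum]
  apply Finset.sum_congr rfl
  intro i _
  have hn : normSq (qv (v5 i) * ep⁻¹) = ((5 : ℕ) : ℚ) := by
    rw [map_mul, qv_norm, v5_norm, map_inv₀, normSq_ep]; norm_num
  have hJ : lm (qv (v5 i) * ep⁻¹) Oo ∈ Sp 5 Oo := by rw [Sp5_eq]; exact ⟨i, rfl⟩
  rw [hecke_term4 hF (mem5 i) hn (by norm_num) (by norm_num) hJ (mem_s5 i) hu.1]
  have hg := GO_of_norm (mem5 i) hn (by norm_num)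
  have hw := hg.star.mul hu.1
  have e1 : ((2 : ℤ) : ℚ) • (star (qv (v5 i) * ep⁻¹) * u) = ep * (star (qv (v5 i)) * u) := by
    rw [star_mul, ep_inv]
    have : ((2 : ℤ) : ℚ) • star (mk4 (1 / 2) (-(1 / 2)) 0 0) = ep := by
      unfold ep
      apply ext4 <;> simp
    rw [← smul_mul_assoc, ← smul_mul_assoc, this, mul_assoc]
  have hng : ng (ng (s5 i)) = s5 i := by
    have : ∀ i : Fin 6, ng (ng (s5 i)) = s5 i := by decide
    exact this i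
  rw [← form4N_scal hF _ hw (a := 2) (by norm_num), e1, form4N_ep hF _ ((GO_qv _).star.mul hu.1),
    rC_mul hg.ne ep_ne, mul_assoc, inv_mul_cancel₀ ep_ne, mul_one, hng, ← qc_tc]
  have h4 := term_eval hF (s5 i) hu (c := tc 1 (v5 i)) (N := 10) (by
    have := v5_norm i
    show (1 : ℤ) ^ 2 + (3 * v5 i 0) ^ 2 + (3 * v5 i 1) ^ 2 + (3 * v5 i 2) ^ 2 = 10
    linear_combination 9 * this) (by norm_num)
  rw [actc_tc, acta_one] at h4
  rw [← h4]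
  norm_cast

/-- the relation at seven -/
theorem hk7 (hF : IsForm4N n k F) {lam : ℂ}
    (he : ∀ I I' u, IsPair4 I I' → Gen3 I u → hecke4N 7 F I I' u = lam • F I I' u)
    {x : Fin 3 → ℤ} {u : ℍ[ℚ]} (hu : Ad n x u) :
    ∑ i, gv n (F Oo Lip) (cyi (s7 i) (act (v7 i) x)) = (28 : ℂ) ^ k * lam * gv n (F Oo Lip) x := by
  have h1 := he Oo Lip u pair4_Lip (gen_iff.2 hu.1)
  unfold hecke4N at h1
  have h2 : {J : AddSubgroup ℍ[ℚ] | IsRI J ∧ lm (7 : ℕ) Oo < J ∧ J < Oo} = Sp 7 Oo := rfl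
  rw [h2, Sp7_eq, finsum_mem_range (fun i j h => inj7 h), finsum_eq_sum_of_fintype] at h1
  have h3 := congrArg (fun P => vl P x) h1
  simp only [vl_sum, vl_smul] at h3
  rw [gv_eq (form4N_fu hF) hu, mul_assoc, ← h3, Finset.mul_sum]
  apply Finset.sum_congr rfl
  intro i _
  have hlf2 : normSq hlf = 1 / 4 := by
    rw [normSq_def']
    simp [hlf]; norm_num
  have hn : normSq (qv (v7 i) * hlf) = ((7 : ℕ) : ℚ) := by
    rw [map_mul, qv_norm, v7_norm, hlf2]; norm_num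
  have hJ : lm (qv (v7 i) * hlf) Oo ∈ Sp 7 Oo := by rw [Sp7_eq]; exact ⟨i, rfl⟩
  rw [hecke_term4 hF (mem7 i) hn (by norm_num) (by norm_num) hJ (mem_s7 i) hu.1]
  have hg := GO_of_norm (mem7 i) hn (by norm_num)
  rw [half_term hF _ hg hu.1]
  have e : (2 : ℚ) • (qv (v7 i) * hlf) = qc (tc 1 (v7 i)) := by
    rw [qc_tc]
    unfold hlf
    apply ext4 <;> simp [re_mul, imI_mul, imJ_mul, imK_mul] <;> ring
  rw [e]
  have h4 := term_eval hF (s7 i) hu (c := tc 1 (v7 i)) (N := 28) (by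
    have := v7_norm i
    show (1 : ℤ) ^ 2 + (3 * v7 i 0) ^ 2 + (3 * v7 i 1) ^ 2 + (3 * v7 i 2) ^ 2 = 28
    linear_combination 9 * this) (by norm_num)
  rw [actc_tc, acta_one] at h4
  rw [← h4]
  norm_cast

/-- the relation at thirteen -/
theorem hk13 (hF : IsForm4N n k F) {lam : ℂ}
    (he : ∀ I I' u, IsPair4 I I' → Gen3 I u → hecke4N 13 F I I' u = lam • F I I' u)
    {x : Fin 3 → ℤ} {u : ℍ[ℚ]} (hu : Ad n x u) :
    ∑ i, gv n (F Oo Lip) (cyi (s13 i) (actc (c13 i) x)) =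
      (52 : ℂ) ^ k * lam * gv n (F Oo Lip) x := by
  have h1 := he Oo Lip u pair4_Lip (gen_iff.2 hu.1)
  unfold hecke4N at h1
  have h2 : {J : AddSubgroup ℍ[ℚ] | IsRI J ∧ lm (13 : ℕ) Oo < J ∧ J < Oo} = Sp 13 Oo := rfl
  rw [h2, Sp13_eq, finsum_mem_range (fun i j h => inj13 h), finsum_eq_sum_of_fintype] at h1
  have h3 := congrArg (fun P => vl P x) h1
  simp only [vl_sum, vl_smul] at h3
  rw [gv_eq (form4N_fu hF) hu, mul_assoc, ← h3, Finset.mul_sum]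
  apply Finset.sum_congr rfl
  intro i _
  have hJ : lm (q13 i) Oo ∈ Sp 13 Oo := by rw [Sp13_eq]; exact ⟨i, rfl⟩
  rw [hecke_term4 hF (q13_mem i) (q13_norm i) (by norm_num) (by norm_num) hJ (mem_s13 i) hu.1]
  have hg := GO_of_norm (q13_mem i) (q13_norm i) (by norm_num)
  rw [half_term hF _ hg hu.1]
  have e : (2 : ℚ) • q13 i = qc (c13 i) := by
    unfold q13 qc
    apply ext4 <;> simp <;> ring
  rw [e]
  have h4 := term_eval hF (s13 i) hu (c := c13 i) (N := 52) (c13_norm i) (by norm_num)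
  rw [← h4]
  norm_cast

end

end Pool.Agent.Helper725_HQ
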