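import Pool.Agent.Helper725_HQ.ACon

/-! The Hecke operators needed in conductor four modulo powers of the augmentation ideal. -/

set_option autoImplicit false
set_option linter.unusedVariables false

namespace Pool.Agent.Helper725_HQ

open Quaternion

section
variable {N : ℕ} {k : Type*} [CommRing k] {R : Type*} [Ring R] [Algebra k R]
  {ρ : (Hn N)ˣ →* R}

/-- the sum over a pair is the square modulo the cube of the ideal -/
theorem pr_sq {y y' : R} (h : y * y' = 1) (hy : y - 1 ∈ Ia k ρ ^ 1) (hy' : y' - 1 ∈ Ia k ρ ^ 1) :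
    (y - 1) + (y' - 1) - (y - 1) * (y - 1) ∈ Ia k ρ ^ 3 := by
  have e : (y - 1) + (y' - 1) - (y - 1) * (y - 1) = (y - 1) * (y - 1) * (y' - 1) := by
    have e1 : (y - 1) + (y' - 1) = -((y - 1) * (y' - 1)) := alg8 h
    have e2 : (y - 1) + (y' - 1) - (y - 1) * (y - 1) = -((y - 1) * ((y - 1) + (y' - 1))) := by
      rw [mul_add, neg_add, e1]; abel
    rw [e2, e1]; noncomm_ring
  rw [e]
  exact fmul (fmul hy hy) hy'

/-- the difference over a pair is minus the truncated logarithm modulo the cube of the ideal -/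
theorem qd_lam (h3 : (3 : R) = 0) {y y' : R} (h : y * y' = 1) (hy : y - 1 ∈ Ia k ρ ^ 1)
    (hy' : y' - 1 ∈ Ia k ρ ^ 1) : y - y' + lam y ∈ Ia k ρ ^ 3 := by
  have e : y - y' + lam y = 3 * (y - 1) - (y - 1) * (y - 1) * (y' - 1) := by
    have e1 : (y - 1) + (y' - 1) = -((y - 1) * (y' - 1)) := alg8 h
    have e2 : y - y' + lam y = 3 * (y - 1) + (y - 1) * (y - 1) - ((y - 1) + (y' - 1)) := by
      unfold lam; noncomm_ring
    have e3 : (y - 1) * (y - 1) + (y - 1) * (y' - 1) = (y - 1) * ((y - 1) + (y' - 1)) := by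
      rw [mul_add]
    rw [e2, e1, sub_neg_eq_add, add_assoc, e3, e1]; noncomm_ring
  rw [e, h3, zero_mul, zero_sub]
  exact Submodule.neg_mem _ (fmul (fmul hy hy) hy')

/-- squares of the elements of a pair -/
theorem sq_pair (h3 : (3 : R) = 0) {y y' : R} (h : y * y' = 1) (h' : y' * y = 1) :
    y ^ 2 - 1 + (y' ^ 2 - 1) = (y - 1 + (y' - 1)) + (y - 1 + (y' - 1)) * (y - 1 + (y' - 1)) := by
  have e : y ^ 2 - 1 + (y' ^ 2 - 1) = (y - 1 + (y' - 1)) + (y - 1 + (y' - 1)) * (y - 1 + (y' - 1)) +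
      3 * (y - 1 + (y' - 1)) - (y * y' - 1) - (y' * y - 1) := by noncomm_ring
  rw [e, h, h', h3]; noncomm_ring

/-- fifth powers of the elements of a pair -/
theorem fifth_pair (h3 : (3 : R) = 0) {y y' : R} (h : y * y' = 1) (h' : y' * y = 1)
    (hy : y - 1 ∈ Ia k ρ ^ 1) (hy' : y' - 1 ∈ Ia k ρ ^ 1) :
    y ^ 5 - 1 + (y' ^ 5 - 1) - ((y - 1 + (y' - 1)) - (y - 1 + (y' - 1)) * (y - 1 + (y' - 1))) ∈
      Ia k ρ ^ 5 := by
  obtain ⟨l, hl⟩ : ∃ l, l = y - 1 + (y' - 1) := ⟨_, rfl⟩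
  have hl2 : l ∈ Ia k ρ ^ 2 := by
    rw [hl, alg8 h]
    exact Submodule.neg_mem _ (fmul hy hy')
  have hs : y + y' = l + (1 + 1) := by rw [hl]; noncomm_ring
  have c2 : y ^ 2 + y' ^ 2 = (l + (1 + 1)) * (l + (1 + 1)) - (1 + 1) := by
    rw [← hs]
    have e : y ^ 2 + y' ^ 2 = (y + y') * (y + y') - y * y' - y' * y := by noncomm_ring
    rw [e, h, h']; noncomm_ring
  have c3 : y ^ 3 + y' ^ 3 = ((l + (1 + 1)) * (l + (1 + 1)) - (1 + 1)) * (l + (1 + 1)) - (l + (1 + 1)) := by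
    rw [← c2, ← hs]
    have e : y ^ 3 + y' ^ 3 = (y ^ 2 + y' ^ 2) * (y + y') - y * (y * y') - y' * (y' * y) := by
      noncomm_ring
    rw [e, h, h']; noncomm_ring
  have c5 : y ^ 5 + y' ^ 5 = (y ^ 3 + y' ^ 3) * (y ^ 2 + y' ^ 2) - (y + y') := by
    have e : (y ^ 3 + y' ^ 3) * (y ^ 2 + y' ^ 2) = y ^ 5 + y' ^ 5 + y * (y * (y * y') * y') +
        y' * (y' * (y' * y) * y) := by noncomm_ring
    rw [e, h, h', mul_one, mul_one, h, h', mul_one, mul_one]; noncomm_ring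
  have c5' : y ^ 5 - 1 + (y' ^ 5 - 1) = (l - l * l) + 3 * (8 * l + 17 * (l * l)) +
      (35 * (l * l * l) + 10 * (l * l * l * l) + l * l * l * l * l) := by
    have e : y ^ 5 - 1 + (y' ^ 5 - 1) = (y ^ 5 + y' ^ 5) - (1 + 1) := by noncomm_ring
    rw [e, c5, c3, c2, hs]; noncomm_ring
  rw [← hl, c5', h3, zero_mul, add_zero, add_sub_cancel_left]
  have hl6 : l * l * l ∈ Ia k ρ ^ 5 := Ia_anti (b := 2 + 2 + 2) (by norm_num) (by norm_num)
    (fmul (fmul hl2 hl2) hl2)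
  have hl8 : l * l * l * l ∈ Ia k ρ ^ 5 := Ia_anti (b := 2 + 2 + 2 + 2) (by norm_num) (by norm_num)
    (fmul (fmul (fmul hl2 hl2) hl2) hl2)
  have hl10 : l * l * l * l * l ∈ Ia k ρ ^ 5 := Ia_anti (b := 2 + 2 + 2 + 2 + 2) (by norm_num)
    (by norm_num) (fmul (fmul (fmul (fmul hl2 hl2) hl2) hl2) hl2)
  have nm : ∀ (m : ℕ) {u : R}, u ∈ Ia k ρ ^ 5 → (m : R) * u ∈ Ia k ρ ^ 5 := by
    intro m u hu
    have h1 := Submodule.smul_mem (Ia k ρ ^ 5) (m : k) hu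
    rwa [Algebra.smul_def, map_natCast] at h1
  refine Submodule.add_mem _ (Submodule.add_mem _ ?_ ?_) hl10
  · exact_mod_cast nm 35 hl6
  · exact_mod_cast nm 10 hl8

/-- one pair of generators in the sum of fourth powers -/
theorem two_four (h3 : (3 : R) = 0) {X Y : R} (hX : X ∈ Ia k ρ ^ 1) (hY : Y ∈ Ia k ρ ^ 1)
    (hD : X * Y - Y * X ∈ Ia k ρ ^ 3) :
    X * X * (Y * Y) + Y * Y * (X * X) + (X * Y + Y * X) * (X * Y + Y * X) ∈ Ia k ρ ^ 5 := by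
  obtain ⟨D, hD'⟩ : ∃ D, D = X * Y - Y * X := ⟨_, rfl⟩
  have e : X * X * (Y * Y) + Y * Y * (X * X) + (X * Y + Y * X) * (X * Y + Y * X) =
      3 * (2 * (X * X * (Y * Y))) - ((X * D * Y + X * D * Y + X * D * Y + X * D * Y + X * D * Y) +
        (X * Y * D + X * Y * D + X * Y * D) + D * X * Y + (D * Y * X + D * Y * X) + Y * D * X) := by
    rw [hD']; noncomm_ring
  rw [← hD'] at hD
  rw [e, h3, zero_mul, zero_sub]
  have a1 : X * D * Y ∈ Ia k ρ ^ 5 := fmul (fmul hX hD) hY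
  have a2 : X * Y * D ∈ Ia k ρ ^ 5 := fmul (fmul hX hY) hD
  have a3 : D * X * Y ∈ Ia k ρ ^ 5 := fmul (fmul hD hX) hY
  have a4 : D * Y * X ∈ Ia k ρ ^ 5 := fmul (fmul hD hY) hX
  have a5 : Y * D * X ∈ Ia k ρ ^ 5 := fmul (fmul hY hD) hX
  apply Submodule.neg_mem
  repeat' first
    | exact a1
    | exact a2
    | exact a3
    | exact a4
    | exact a5
    | apply Submodule.add_mem

/-- the sum of the fourth powers -/
theorem four_sum (h3 : (3 : R) = 0) {X Y Z : R} (hX : X ∈ Ia k ρ ^ 1) (hY : Y ∈ Ia k ρ ^ 1)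
    (hZ : Z ∈ Ia k ρ ^ 1) (h1 : X * Y - Y * X ∈ Ia k ρ ^ 3) (h2 : X * Z - Z * X ∈ Ia k ρ ^ 3)
    (h4 : Y * Z - Z * Y ∈ Ia k ρ ^ 3) :
    ((X + Y + Z) * (X + Y + Z)) * ((X + Y + Z) * (X + Y + Z)) +
      ((X + Y - Z) * (X + Y - Z)) * ((X + Y - Z) * (X + Y - Z)) +
      ((X - Y + Z) * (X - Y + Z)) * ((X - Y + Z) * (X - Y + Z)) +
      ((X - Y - Z) * (X - Y - Z)) * ((X - Y - Z) * (X - Y - Z)) -
      (X * X * (X * X) + Y * Y * (Y * Y) + Z * Z * (Z * Z)) ∈ Ia k ρ ^ 5 := by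
  obtain ⟨A, hA⟩ : ∃ A, A = X * X + Y * Y + Z * Z := ⟨_, rfl⟩
  obtain ⟨P, hP⟩ : ∃ P, P = X * Y + Y * X := ⟨_, rfl⟩
  obtain ⟨Q, hQ⟩ : ∃ Q, Q = X * Z + Z * X := ⟨_, rfl⟩
  obtain ⟨S, hS⟩ : ∃ S, S = Y * Z + Z * Y := ⟨_, rfl⟩
  have t1 : (X + Y + Z) * (X + Y + Z) = A + P + Q + S := by rw [hA, hP, hQ, hS]; noncomm_ring
  have t2 : (X + Y - Z) * (X + Y - Z) = A + P - Q - S := by rw [hA, hP, hQ, hS]; noncomm_ring
  have t3 : (X - Y + Z) * (X - Y + Z) = A - P + Q - S := by rw [hA, hP, hQ, hS]; noncomm_ring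
  have t4 : (X - Y - Z) * (X - Y - Z) = A - P - Q + S := by rw [hA, hP, hQ, hS]; noncomm_ring
  have e1 : (A + P + Q + S) * (A + P + Q + S) + (A + P - Q - S) * (A + P - Q - S) +
      (A - P + Q - S) * (A - P + Q - S) + (A - P - Q + S) * (A - P - Q + S) =
      3 * (A * A + P * P + Q * Q + S * S) + (A * A + P * P + Q * Q + S * S) := by noncomm_ring
  have e2 : A * A + P * P + Q * Q + S * S - (X * X * (X * X) + Y * Y * (Y * Y) +
      Z * Z * (Z * Z)) = (X * X * (Y * Y) + Y * Y * (X * X) + P * P) +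
      (X * X * (Z * Z) + Z * Z * (X * X) + Q * Q) + (Y * Y * (Z * Z) + Z * Z * (Y * Y) + S * S) := by
    rw [hA]; noncomm_ring
  rw [t1, t2, t3, t4, e1, h3, zero_mul, zero_add, e2, hP, hQ, hS]
  exact Submodule.add_mem _ (Submodule.add_mem _ (two_four h3 hX hY h1) (two_four h3 hX hZ h2))
    (two_four h3 hY hZ h4)

/-- the square modulo a power of the ideal -/
theorem sq_congr {l s : R} (hl : l ∈ Ia k ρ ^ 2) (hs : s ∈ Ia k ρ ^ 2) (h : l - s ∈ Ia k ρ ^ 3) :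
    l * l - s * s ∈ Ia k ρ ^ 5 := by
  have e : l * l - s * s = (l - s) * l + s * (l - s) := by noncomm_ring
  rw [e]
  exact Submodule.add_mem _ (fmul h hl) (fmul hs h)

theorem prod_congr1 {u v : R} (hu : u ∈ Ia k ρ ^ 1) (hv : v ∈ Ia k ρ ^ 1)
    (h : u - v ∈ Ia k ρ ^ 2) : u * u - v * v ∈ Ia k ρ ^ 3 := by
  have e : u * u - v * v = (u - v) * u + v * (u - v) := by noncomm_ring
  rw [e]
  exact Submodule.add_mem _ (fmul h hu) (fmul hv h)

end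

end Pool.Agent.Helper725_HQ
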