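import Pool.Agent.Helper725_HQ.CLog

/-! The Hecke operator at thirteen modulo a power of the augmentation ideal. -/

set_option autoImplicit false
set_option linter.unusedVariables false

namespace Pool.Agent.Helper725_HQ

open Quaternion

section
variable {N : ℕ}

theorem five_unit (N : ℕ) : IsUnit (5 : Zn N) := by
  have h := (unit_three (N := N) (-2)).neg
  have e : -(1 + 3 * (-2 : Zn N)) = 5 := by ring
  rwa [e] at h

/-- one fifth -/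
noncomputable def ff (N : ℕ) : Zn N := (((five_unit N).unit⁻¹ : (Zn N)ˣ) : Zn N)

theorem five_ff : (5 : Zn N) * ff N = 1 := by
  have h := Units.mul_inv (five_unit N).unit
  exact h

theorem im_sq (a b c : Zn N) : im a b c * im a b c = (-(a ^ 2 + b ^ 2 + c ^ 2)) • (1 : Hn N) := by
  apply Quaternion.ext
  · simp; ring
  · simp; ring
  · simp; ring
  · simp; ring

theorem im_smul (t a b c : Zn N) : im (t * a) (t * b) (t * c) = t • im a b c := by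
  apply Quaternion.ext <;> simp

theorem kp_fifth {a b c : Zn N} (h : a ^ 2 + b ^ 2 + c ^ 2 = 1) : ∃ r ∈ Kz N 3,
    kp (im (hf N * a) (hf N * b) (hf N * c)) = kp (im a b c) ^ 5 * r := by
  obtain ⟨g, hg⟩ : ∃ g, g = kp (im a b c) ^ 5 := ⟨_, rfl⟩
  obtain ⟨v, hv⟩ : ∃ v, v = im a b c := ⟨_, rfl⟩
  have hvv : v * v = -1 := by
    rw [hv, im_sq, h, neg_smul, one_smul]
  have hgv : (g : Hn N) = (316 : Zn N) • (1 : Hn N) - (12 : Zn N) • v := by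
    rw [hg, Units.val_pow_eq_pow_val, kap_val, ← hv]
    have e2 : (1 + (3 : Zn N) • v) ^ 2 = (-8 : Zn N) • (1 : Hn N) + (6 : Zn N) • v := by
      have : (1 + (3 : Zn N) • v) ^ 2 = (1 : Hn N) + (6 : Zn N) • v + (9 : Zn N) • (v * v) := by
        rw [pow_two, add_mul, mul_add, mul_add, one_mul, mul_one, one_mul, smul_mul_smul_comm]
        module
      rw [this, hvv]; module
    have e4 : (1 + (3 : Zn N) • v) ^ 4 = (28 : Zn N) • (1 : Hn N) + (-96 : Zn N) • v := by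
      have : (1 + (3 : Zn N) • v) ^ 4 = ((1 + (3 : Zn N) • v) ^ 2) * ((1 + (3 : Zn N) • v) ^ 2) := by
        rw [← pow_add]
      rw [this, e2, add_mul, mul_add, mul_add, smul_mul_smul_comm, smul_mul_smul_comm,
        smul_mul_smul_comm, smul_mul_smul_comm, hvv, one_mul, mul_one, one_mul]
      module
    have : (1 + (3 : Zn N) • v) ^ 5 = ((1 + (3 : Zn N) • v) ^ 4) * (1 + (3 : Zn N) • v) := by
      rw [pow_succ]
    rw [this, e4, add_mul, mul_add, mul_add, mul_one, mul_one, smul_mul_smul_comm,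
      smul_mul_smul_comm, hvv, one_mul]
    module
  obtain ⟨s, hs⟩ := unit_three (N := N) 105
  have hss : ((s⁻¹ : (Zn N)ˣ) : Zn N) * 316 = 1 := by
    have e : (316 : Zn N) = 1 + 3 * 105 := by ring
    rw [e, ← hs, Units.inv_mul]
  refine ⟨g⁻¹ * kp (im (hf N * a) (hf N * b) (hf N * c)), ?_, by rw [← hg, mul_inv_cancel_left]⟩
  refine ⟨s⁻¹, (18 : Zn N) • (((g⁻¹ : (Hn N)ˣ) : Hn N) * v), ?_⟩
  have h2 := two_hf (N := N)
  have key : (kp (im (hf N * a) (hf N * b) (hf N * c)) : Hn N) =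
      ((s⁻¹ : (Zn N)ˣ) : Zn N) • ((g : Hn N) + (486 : Zn N) • v) := by
    rw [kap_val, im_smul, ← hv, hgv]
    have e1 : (3 : Zn N) * hf N = ((s⁻¹ : (Zn N)ˣ) : Zn N) * 474 := by
      linear_combination (-(3 * hf N)) * hss + (474 * ((s⁻¹ : (Zn N)ˣ) : Zn N)) * h2
    calc (1 : Hn N) + (3 : Zn N) • hf N • v = (1 : Zn N) • (1 : Hn N) + (3 * hf N : Zn N) • v := by
          module
      _ = (((s⁻¹ : (Zn N)ˣ) : Zn N) * 316) • (1 : Hn N) + (((s⁻¹ : (Zn N)ˣ) : Zn N) * 474) • v := by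
          rw [hss, e1]
      _ = _ := by module
  rw [Units.val_mul, key, mul_smul_comm, mul_add, Units.inv_mul, mul_smul_comm]
  module

theorem kp_second {a b c : Zn N} (h : a ^ 2 + b ^ 2 + c ^ 2 = 3) : ∃ r ∈ Kz N 3,
    kp (im (ff N * a) (ff N * b) (ff N * c)) = kp (im a b c) ^ 2 * r := by
  obtain ⟨g, hg⟩ : ∃ g, g = kp (im a b c) ^ 2 := ⟨_, rfl⟩
  obtain ⟨v, hv⟩ : ∃ v, v = im a b c := ⟨_, rfl⟩
  have hvv : v * v = (-3 : Zn N) • (1 : Hn N) := by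
    rw [hv, im_sq, h]
  have hgv : (g : Hn N) = (-26 : Zn N) • (1 : Hn N) + (6 : Zn N) • v := by
    rw [hg, Units.val_pow_eq_pow_val, kap_val, ← hv]
    have : (1 + (3 : Zn N) • v) ^ 2 = (1 : Hn N) + (6 : Zn N) • v + (9 : Zn N) • (v * v) := by
      rw [pow_two, add_mul, mul_add, mul_add, one_mul, mul_one, one_mul, smul_mul_smul_comm]
      module
    rw [this, hvv]; module
  obtain ⟨s, hs⟩ := (unit_three (N := N) 43).neg
  have hss : ((s⁻¹ : (Zn N)ˣ) : Zn N) * (-130) = 1 := by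
    have e : (-130 : Zn N) = -(1 + 3 * 43) := by ring
    rw [e, ← hs, Units.inv_mul]
  obtain ⟨t, ht⟩ := five_unit N
  refine ⟨g⁻¹ * kp (im (ff N * a) (ff N * b) (ff N * c)), ?_, by rw [← hg, mul_inv_cancel_left]⟩
  refine ⟨s⁻¹ * t, (-(4 * ff N) : Zn N) • (((g⁻¹ : (Hn N)ˣ) : Hn N) * v), ?_⟩
  have h2 := five_ff (N := N)
  have key : (kp (im (ff N * a) (ff N * b) (ff N * c)) : Hn N) =
      ((s⁻¹ : (Zn N)ˣ) : Zn N) • ((5 : Zn N) • (g : Hn N) - (108 : Zn N) • v) := by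
    rw [kap_val, im_smul, ← hv, hgv]
    have e1 : (3 : Zn N) * ff N = ((s⁻¹ : (Zn N)ˣ) : Zn N) * (-78) := by
      linear_combination (-(3 * ff N)) * hss + (-78 * ((s⁻¹ : (Zn N)ˣ) : Zn N)) * h2
    calc (1 : Hn N) + (3 : Zn N) • ff N • v = (1 : Zn N) • (1 : Hn N) + (3 * ff N : Zn N) • v := by
          module
      _ = (((s⁻¹ : (Zn N)ˣ) : Zn N) * (-130)) • (1 : Hn N) +
          (((s⁻¹ : (Zn N)ˣ) : Zn N) * (-78)) • v := by
          rw [hss, e1]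
      _ = _ := by module
  rw [Units.val_mul, key, mul_smul_comm, mul_sub, mul_smul_comm, Units.inv_mul, mul_smul_comm,
    Units.val_mul, ht]
  have e5 : (108 : Zn N) • (((g⁻¹ : (Hn N)ˣ) : Hn N) * v) = ((5 * ff N) * 108 : Zn N) •
      (((g⁻¹ : (Hn N)ˣ) : Hn N) * v) := by rw [h2, one_mul]
  rw [e5]
  module

end

section
variable {N : ℕ} {k : Type*} [CommRing k] {R : Type*} [Ring R] [Algebra k R]
  {ρ : (Hn N)ˣ →* R}

/-- the difference over a pair -/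
noncomputable def qd (ρ : (Hn N)ˣ →* R) (a b c : Zn N) : R :=
  ρ (kp (im a b c)) - ρ (kp (im (-a) (-b) (-c)))

theorem kap_inv' (hs : Sc ρ) (a b c : Zn N) :
    ρ (kp (im (-a) (-b) (-c))) * ρ (kp (im a b c)) = 1 := by
  have h := kap_inv hs (-a) (-b) (-c)
  rwa [neg_neg, neg_neg, neg_neg] at h

theorem pow_r (hs : Sc ρ) (h3 : (3 : R) = 0) {g h r : (Hn N)ˣ} {m : ℕ} (hg : g ∈ Kz N 1)
    (hr : r ∈ Kz N 3) (e : h = g ^ m * r) : ρ h - ρ g ^ m ∈ Ia k ρ ^ 5 := by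
  have h1 : ρ r - 1 ∈ Ia k ρ ^ 5 := Ia_anti (b := 3 ^ 2) (by norm_num) (by norm_num)
    (y_mem hs h3 2 hr)
  have h2 : ρ (g ^ m) - 1 ∈ Ia k ρ ^ 1 := y_pow_mem le_rfl (y_mem1' hg) m
  have e2 : ρ h - ρ g ^ m = (ρ (g ^ m) - 1) * (ρ r - 1) + (ρ r - 1) := by
    rw [e, map_mul, ← map_pow]; noncomm_ring
  rw [e2]
  exact Submodule.add_mem _ (Ia_anti (b := 1 + 5) (by norm_num) (by norm_num) (fmul h2 h1)) h1

theorem pr_hf (hs : Sc ρ) (h3 : (3 : R) = 0) {a b c : Zn N} (h : a ^ 2 + b ^ 2 + c ^ 2 = 1) :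
    pr ρ (hf N * a) (hf N * b) (hf N * c) - (pr ρ a b c - pr ρ a b c * pr ρ a b c) ∈
      Ia k ρ ^ 5 := by
  obtain ⟨r, hr, e⟩ := kp_fifth h
  obtain ⟨r', hr', e'⟩ := kp_fifth (a := -a) (b := -b) (c := -c) (by rw [neg_sq, neg_sq, neg_sq, h])
  have h1 := pow_r (k := k) hs h3 (kap_rel _).mem hr e
  have h2 := pow_r (k := k) hs h3 (kap_rel _).mem hr' e'
  have h4 := fifth_pair (k := k) (ρ := ρ) h3 (kap_inv hs a b c) (kap_inv' hs a b c)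
    (y_mem1' (kap_rel _).mem) (y_mem1' (kap_rel _).mem)
  rw [mul_neg, mul_neg, mul_neg] at h2
  unfold pr
  have e3 : ∀ P P' q q' w : R, (P - 1 + (P' - 1)) - w = (P - q) + (P' - q') +
      (q - 1 + (q' - 1) - w) := by
    intros; abel
  rw [e3 _ _ (ρ (kp (im a b c)) ^ 5) (ρ (kp (im (-a) (-b) (-c))) ^ 5)]
  exact Submodule.add_mem _ (Submodule.add_mem _ h1 h2) h4

theorem pr_ff (hs : Sc ρ) (h3 : (3 : R) = 0) {a b c : Zn N} (h : a ^ 2 + b ^ 2 + c ^ 2 = 3) :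
    pr ρ (ff N * a) (ff N * b) (ff N * c) - (pr ρ a b c + pr ρ a b c * pr ρ a b c) ∈
      Ia k ρ ^ 5 := by
  obtain ⟨r, hr, e⟩ := kp_second h
  obtain ⟨r', hr', e'⟩ := kp_second (a := -a) (b := -b) (c := -c)
    (by rw [neg_sq, neg_sq, neg_sq, h])
  have h1 := pow_r (k := k) hs h3 (kap_rel _).mem hr e
  have h2 := pow_r (k := k) hs h3 (kap_rel _).mem hr' e'
  have h4 := sq_pair h3 (kap_inv hs a b c) (kap_inv' hs a b c)
  rw [mul_neg, mul_neg, mul_neg] at h2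
  unfold pr
  rw [← h4]
  have e3 : ∀ P P' q q' : R, (P - 1 + (P' - 1)) - (q - 1 + (q' - 1)) = (P - q) + (P' - q') := by
    intros; abel
  rw [e3]
  exact Submodule.add_mem _ h1 h2

theorem qd_mem (hs : Sc ρ) (h3 : (3 : R) = 0) (a b c : Zn N) :
    qd ρ a b c + lam (ρ (kp (im a b c))) ∈ Ia k ρ ^ 3 :=
  qd_lam h3 (kap_inv hs a b c) (y_mem1' (kap_rel _).mem) (y_mem1' (kap_rel _).mem)

theorem qd_ff (hs : Sc ρ) (h3 : (3 : R) = 0) {a b c : Zn N} (h : a ^ 2 + b ^ 2 + c ^ 2 = 3) :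
    qd ρ (ff N * a) (ff N * b) (ff N * c) - lam (ρ (kp (im a b c))) ∈ Ia k ρ ^ 3 := by
  obtain ⟨r, hr, e⟩ := kp_second h
  obtain ⟨r', hr', e'⟩ := kp_second (a := -a) (b := -b) (c := -c)
    (by rw [neg_sq, neg_sq, neg_sq, h])
  have h1 := Ia_anti (show 1 ≤ 3 by norm_num) (show 3 ≤ 5 by norm_num)
    (pow_r (k := k) hs h3 (kap_rel _).mem hr e)
  have h2 := Ia_anti (show 1 ≤ 3 by norm_num) (show 3 ≤ 5 by norm_num)
    (pow_r (k := k) hs h3 (kap_rel _).mem hr' e')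
  rw [mul_neg, mul_neg, mul_neg] at h2
  have h4 := qd_mem (k := k) hs h3 a b c
  have i1 := kap_inv hs a b c
  have i2 := kap_inv' hs a b c
  unfold qd at h4 ⊢
  have m1 : ρ (kp (im a b c)) - 1 ∈ Ia k ρ ^ 1 := y_mem1' (kap_rel _).mem
  have m2 : ρ (kp (im (-a) (-b) (-c))) - 1 ∈ Ia k ρ ^ 1 := y_mem1' (kap_rel _).mem
  obtain ⟨y, hy⟩ : ∃ y, y = ρ (kp (im a b c)) := ⟨_, rfl⟩
  obtain ⟨y', hy'⟩ : ∃ y, y = ρ (kp (im (-a) (-b) (-c))) := ⟨_, rfl⟩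
  rw [← hy, ← hy'] at i1 i2 h4
  rw [← hy] at h1 m1 ⊢
  rw [← hy'] at h2 m2
  have h5 : (y - y') * ((y - 1) + (y' - 1)) ∈ Ia k ρ ^ 3 := by
    rw [alg8 i1]
    have e1 : y - y' = (y - 1) - (y' - 1) := by abel
    rw [e1]
    exact fmul (a := 1) (b := 2) (Submodule.sub_mem _ m1 m2) (Submodule.neg_mem _ (fmul m1 m2))
  have e4 : y ^ 2 - y' ^ 2 - lam y = (y - y') * ((y - 1) + (y' - 1)) + ((y - y' + lam y) +
      (y - y' + lam y)) - 3 * lam y - (y * y' - 1) + (y' * y - 1) := by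
    noncomm_ring
  rw [i1, i2, h3, zero_mul, sub_zero, sub_self, sub_zero, add_zero] at e4
  have e3 : ∀ P P' q q' w : R, (P - P') - w = (P - q) - (P' - q') + (q - q' - w) := by
    intros; abel
  rw [e3 _ _ (y ^ 2) (y' ^ 2), e4]
  exact Submodule.add_mem _ (Submodule.sub_mem _ h1 h2)
    (Submodule.add_mem _ h5 (Submodule.add_mem _ h4 h4))

/-- additivity of the truncated logarithm -/
theorem lam_add (hs : Sc ρ) (h3 : (3 : R) = 0) : ∃ A B C : R,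
    lam (ρ (kp (im 1 1 1))) - (A + B + C) ∈ Ia k ρ ^ 3 ∧
    lam (ρ (kp (im 1 1 (-1)))) - (A + B - C) ∈ Ia k ρ ^ 3 ∧
    lam (ρ (kp (im 1 (-1) 1))) - (A - B + C) ∈ Ia k ρ ^ 3 ∧
    lam (ρ (kp (im 1 (-1) (-1)))) - (A - B - C) ∈ Ia k ρ ^ 3 := by
  refine ⟨lam (ρ (kp (im 1 0 0))), lam (ρ (kp (im 0 1 0))), lam (ρ (kp (im 0 0 1))), ?_⟩
  have key : ∀ b c : Zn N, ∀ B C : R, lam (ρ (kp (im 0 b 0))) - B ∈ Ia k ρ ^ 3 →
      lam (ρ (kp (im 0 0 c))) - C ∈ Ia k ρ ^ 3 →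
      lam (ρ (kp (im 1 b c))) - (lam (ρ (kp (im 1 0 0))) + B + C) ∈ Ia k ρ ^ 3 := by
    intro b c B C hB hC
    have h1 := Ia_anti (show 1 ≤ 3 by norm_num) (show 3 ≤ 4 by norm_num)
      (lam_xi (k := k) hs h3 b c)
    have h2 := hF_mem (k := k) (I := Ia k ρ) Ia_mul (y_mem1' (ρ := ρ) (k := k) (kap_rel (im 1 0 0)).mem)
      (y_mem1' (ρ := ρ) (k := k) (kap_rel (im 0 b 0)).mem)
      (y_mem1' (ρ := ρ) (k := k) (kap_rel (im 0 0 c)).mem)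
    have e : ∀ l A b' c' H : R, l - (A + B + C) = (l - (A + b' + c' - H)) + (b' - B) + (c' - C) - H := by
      intros; abel
    rw [e _ _ (lam (ρ (kp (im 0 b 0)))) (lam (ρ (kp (im 0 0 c))))
      (hF (ρ (kp (im 1 0 0)) - 1) (ρ (kp (im 0 b 0)) - 1) (ρ (kp (im 0 0 c)) - 1))]
    exact Submodule.sub_mem _ (Submodule.add_mem _ (Submodule.add_mem _ h1 hB) hC) h2
  have nB := Ia_anti (show 1 ≤ 3 by norm_num) (show 3 ≤ 4 by norm_num)
    (lam_neg (k := k) hs h3 0 1 0)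
  have nC := Ia_anti (show 1 ≤ 3 by norm_num) (show 3 ≤ 4 by norm_num)
    (lam_neg (k := k) hs h3 0 0 1)
  rw [neg_zero] at nB nC
  have z : ∀ l : R, l - l ∈ Ia k ρ ^ 3 := fun l => by rw [sub_self]; exact Submodule.zero_mem _
  refine ⟨key 1 1 _ _ (z _) (z _), ?_, ?_, ?_⟩
  · have := key 1 (-1) _ _ (z _) nC
    rwa [← sub_eq_add_neg] at this
  · have := key (-1) 1 _ _ nB (z _)
    rwa [← sub_eq_add_neg] at this
  · have := key (-1) (-1) _ _ nB nC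
    rwa [← sub_eq_add_neg, ← sub_eq_add_neg] at this

/-- the twisted operator at seven -/
noncomputable def d7 (ρ : (Hn N)ˣ →* R) : R :=
  qd ρ 1 1 1 - qd ρ 1 1 (-1) - qd ρ 1 (-1) 1 + qd ρ 1 (-1) (-1)

theorem d7_mem (hs : Sc ρ) (h3 : (3 : R) = 0) : d7 ρ ∈ Ia k ρ ^ 3 := by
  obtain ⟨A, B, C, h1, h2, h4, h5⟩ := lam_add (k := k) hs h3
  have e : d7 ρ = (qd ρ 1 1 1 + lam (ρ (kp (im 1 1 1)))) - (qd ρ 1 1 (-1) +
      lam (ρ (kp (im 1 1 (-1))))) - (qd ρ 1 (-1) 1 + lam (ρ (kp (im 1 (-1) 1)))) +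
      (qd ρ 1 (-1) (-1) + lam (ρ (kp (im 1 (-1) (-1))))) -
      (lam (ρ (kp (im 1 1 1))) - (A + B + C)) + (lam (ρ (kp (im 1 1 (-1)))) - (A + B - C)) +
      (lam (ρ (kp (im 1 (-1) 1))) - (A - B + C)) - (lam (ρ (kp (im 1 (-1) (-1)))) - (A - B - C)) := by
    unfold d7; abel
  rw [e]
  exact Submodule.sub_mem _ (Submodule.add_mem _ (Submodule.add_mem _ (Submodule.sub_mem _
    (Submodule.add_mem _ (Submodule.sub_mem _ (Submodule.sub_mem _ (qd_mem hs h3 _ _ _)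
    (qd_mem hs h3 _ _ _)) (qd_mem hs h3 _ _ _)) (qd_mem hs h3 _ _ _)) h1) h2) h4) h5

/-- the twisted operator at thirteen -/
noncomputable def d13 (ρ : (Hn N)ˣ →* R) : R :=
  qd ρ (ff N * 1) (ff N * 1) (ff N * 1) - qd ρ (ff N * 1) (ff N * 1) (ff N * (-1)) -
    qd ρ (ff N * 1) (ff N * (-1)) (ff N * 1) + qd ρ (ff N * 1) (ff N * (-1)) (ff N * (-1))

theorem d13_mem (hs : Sc ρ) (h3 : (3 : R) = 0) : d13 ρ ∈ Ia k ρ ^ 3 := by
  obtain ⟨A, B, C, h1, h2, h4, h5⟩ := lam_add (k := k) hs h3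
  have q : ∀ b c : Zn N, b ^ 2 = 1 → c ^ 2 = 1 →
      qd ρ (ff N * 1) (ff N * b) (ff N * c) - lam (ρ (kp (im 1 b c))) ∈ Ia k ρ ^ 3 :=
    fun b c hb hc => qd_ff hs h3 (by rw [hb, hc]; norm_num)
  have e : d13 ρ = (qd ρ (ff N * 1) (ff N * 1) (ff N * 1) - lam (ρ (kp (im 1 1 1)))) -
      (qd ρ (ff N * 1) (ff N * 1) (ff N * (-1)) - lam (ρ (kp (im 1 1 (-1))))) -
      (qd ρ (ff N * 1) (ff N * (-1)) (ff N * 1) - lam (ρ (kp (im 1 (-1) 1)))) +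
      (qd ρ (ff N * 1) (ff N * (-1)) (ff N * (-1)) - lam (ρ (kp (im 1 (-1) (-1))))) +
      (lam (ρ (kp (im 1 1 1))) - (A + B + C)) - (lam (ρ (kp (im 1 1 (-1)))) - (A + B - C)) -
      (lam (ρ (kp (im 1 (-1) 1))) - (A - B + C)) + (lam (ρ (kp (im 1 (-1) (-1)))) - (A - B - C)) := by
    unfold d13; abel
  rw [e]
  exact Submodule.add_mem _ (Submodule.sub_mem _ (Submodule.sub_mem _ (Submodule.add_mem _
    (Submodule.add_mem _ (Submodule.sub_mem _ (Submodule.sub_mem _ (q 1 1 (by norm_num)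
    (by norm_num)) (q 1 (-1) (by norm_num) (by norm_num))) (q (-1) 1 (by norm_num) (by norm_num)))
    (q (-1) (-1) (by norm_num) (by norm_num))) h1) h2) h4) h5

/-- the twisted operator at five -/
noncomputable def d5 (ρ : (Hn N)ˣ →* R) : R := pr ρ 0 0 1 - pr ρ 0 1 0

theorem pr_sq' (hs : Sc ρ) (a b c : Zn N) : pr ρ a b c - (ρ (kp (im a b c)) - 1) *
    (ρ (kp (im a b c)) - 1) ∈ Ia k ρ ^ 3 :=
  pr_sq (kap_inv hs a b c) (y_mem1' (kap_rel _).mem) (y_mem1' (kap_rel _).mem)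

theorem d5_lead (hs : Sc ρ) : d5 ρ - (gZ ρ * gZ ρ - gY ρ * gY ρ) ∈ Ia k ρ ^ 3 := by
  have e : d5 ρ - (gZ ρ * gZ ρ - gY ρ * gY ρ) = (pr ρ 0 0 1 - gZ ρ * gZ ρ) -
      (pr ρ 0 1 0 - gY ρ * gY ρ) := by
    unfold d5; abel
  rw [e]
  exact Submodule.sub_mem _ (pr_sq' hs _ _ _) (pr_sq' hs _ _ _)

/-- the operator at thirteen -/
noncomputable def x13 (ρ : (Hn N)ˣ →* R) : R :=
  (pr ρ (hf N * 1) (hf N * 0) (hf N * 0) + pr ρ (hf N * 0) (hf N * 1) (hf N * 0) +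
    pr ρ (hf N * 0) (hf N * 0) (hf N * 1)) +
  (pr ρ (ff N * 1) (ff N * 1) (ff N * 1) + pr ρ (ff N * 1) (ff N * 1) (ff N * (-1)) +
    pr ρ (ff N * 1) (ff N * (-1)) (ff N * 1) + pr ρ (ff N * 1) (ff N * (-1)) (ff N * (-1)))

theorem pr_mem2 (hs : Sc ρ) (a b c : Zn N) : pr ρ a b c ∈ Ia k ρ ^ 2 := by
  unfold pr
  rw [alg8 (kap_inv hs a b c)]
  exact Submodule.neg_mem _ (fmul (a := 1) (b := 1) (y_mem1' (kap_rel _).mem)
    (y_mem1' (kap_rel _).mem))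

theorem y_lin (hs : Sc ρ) (h3 : (3 : R) = 0) (b c : Zn N) {B C : R}
    (hB : ρ (kp (im 0 b 0)) - 1 - B ∈ Ia k ρ ^ 2) (hC : ρ (kp (im 0 0 c)) - 1 - C ∈ Ia k ρ ^ 2) :
    ρ (kp (im 1 b c)) - 1 - (gX ρ + B + C) ∈ Ia k ρ ^ 2 := by
  have h1 := Ia_anti (show 1 ≤ 2 by norm_num) (show 2 ≤ 4 by norm_num)
    (lam_xi (k := k) hs h3 b c)
  have h2 := Ia_anti (show 1 ≤ 2 by norm_num) (show 2 ≤ 3 by norm_num)
    (hF_mem (k := k) (I := Ia k ρ) Ia_mul (y_mem1' (ρ := ρ) (k := k) (kap_rel (im 1 0 0)).mem)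
    (y_mem1' (ρ := ρ) (k := k) (kap_rel (im 0 b 0)).mem)
    (y_mem1' (ρ := ρ) (k := k) (kap_rel (im 0 0 c)).mem))
  have h4 : ∀ g ∈ Kz N 1, lam (ρ g) - (ρ g - 1) ∈ Ia k ρ ^ 2 := by
    intro g hg
    rw [lam_sub]
    exact fmul (a := 1) (b := 1) (y_mem1' hg) (y_mem1' hg)
  have e : ∀ y l A b' c' u v H : R, y - (gX ρ + B + C) = -(l - y) + (l - (A + u + v - H)) +
      (A - gX ρ) + (u - b') + (v - c') + (b' - B) + (c' - C) - H := by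
    intros; abel
  rw [e _ (lam (ρ (kp (im 1 b c)))) (lam (ρ (kp (im 1 0 0)))) (ρ (kp (im 0 b 0)) - 1)
    (ρ (kp (im 0 0 c)) - 1) (lam (ρ (kp (im 0 b 0)))) (lam (ρ (kp (im 0 0 c))))
    (hF (ρ (kp (im 1 0 0)) - 1) (ρ (kp (im 0 b 0)) - 1) (ρ (kp (im 0 0 c)) - 1))]
  refine Submodule.sub_mem _ (Submodule.add_mem _ (Submodule.add_mem _ (Submodule.add_mem _
    (Submodule.add_mem _ (Submodule.add_mem _ (Submodule.add_mem _ (Submodule.neg_mem _ ?_) h1) ?_)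
    ?_) ?_) hB) hC) h2
  · exact h4 _ (kap_rel _).mem
  · exact h4 _ (kap_rel _).mem
  · exact h4 _ (kap_rel _).mem
  · exact h4 _ (kap_rel _).mem

/-- the operator at thirteen is the sum of the operators at five and at seven -/
theorem x13_lead (hs : Sc ρ) (h3 : (3 : R) = 0) : x13 ρ - (x5 ρ + x7 ρ) ∈ Ia k ρ ^ 5 := by
  have hX1 : gX ρ ∈ Ia k ρ ^ 1 := gX_mem
  have hY1 : gY ρ ∈ Ia k ρ ^ 1 := gY_mem
  have hZ1 : gZ ρ ∈ Ia k ρ ^ 1 := gZ_mem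
  -- squares of the pairs
  have sq3 : ∀ a b c : Zn N, ∀ U : R, U ∈ Ia k ρ ^ 1 → ρ (kp (im a b c)) - 1 - U ∈ Ia k ρ ^ 2 →
      pr ρ a b c * pr ρ a b c - (U * U) * (U * U) ∈ Ia k ρ ^ 5 := by
    intro a b c U hU h
    have h1 := pr_sq' (k := k) hs a b c
    have h2 : (ρ (kp (im a b c)) - 1) * (ρ (kp (im a b c)) - 1) - U * U ∈ Ia k ρ ^ 3 :=
      prod_congr1 (y_mem1' (kap_rel _).mem) hU h
    have h4 : pr ρ a b c - U * U ∈ Ia k ρ ^ 3 := by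
      have := Submodule.add_mem _ h1 h2
      rwa [sub_add_sub_cancel] at this
    exact sq_congr (pr_mem2 hs a b c) (fmul hU hU) h4
  have z : ∀ l : R, l - l ∈ Ia k ρ ^ 2 := fun l => by rw [sub_self]; exact Submodule.zero_mem _
  have nY := y_neg (k := k) hs 0 1 0
  have nZ := y_neg (k := k) hs 0 0 1
  rw [neg_zero] at nY nZ
  have s1 := sq3 1 0 0 (gX ρ) hX1 (z _)
  have s2 := sq3 0 1 0 (gY ρ) hY1 (z _)
  have s3 := sq3 0 0 1 (gZ ρ) hZ1 (z _)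
  have t1 := sq3 1 1 1 (gX ρ + gY ρ + gZ ρ) (Submodule.add_mem _ (Submodule.add_mem _ hX1 hY1) hZ1)
    (y_lin hs h3 1 1 (z _) (z _))
  have t2 := sq3 1 1 (-1) (gX ρ + gY ρ - gZ ρ)
    (Submodule.sub_mem _ (Submodule.add_mem _ hX1 hY1) hZ1) (by
      have := y_lin (k := k) hs h3 1 (-1) (z _) nZ
      rwa [← sub_eq_add_neg] at this)
  have t3 := sq3 1 (-1) 1 (gX ρ - gY ρ + gZ ρ)
    (Submodule.add_mem _ (Submodule.sub_mem _ hX1 hY1) hZ1) (by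
      have := y_lin (k := k) hs h3 (-1) 1 nY (z _)
      rwa [← sub_eq_add_neg] at this)
  have t4 := sq3 1 (-1) (-1) (gX ρ - gY ρ - gZ ρ)
    (Submodule.sub_mem _ (Submodule.sub_mem _ hX1 hY1) hZ1) (by
      have := y_lin (k := k) hs h3 (-1) (-1) nY nZ
      rwa [← sub_eq_add_neg, ← sub_eq_add_neg] at this)
  have hc : ∀ g ∈ Kz N 1, ∀ h ∈ Kz N 1, (ρ g - 1) * (ρ h - 1) - (ρ h - 1) * (ρ g - 1) ∈
      Ia k ρ ^ 3 := fun g hg h hh => y_comm3 hs h3 hg hh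
  have fs := four_sum (k := k) (ρ := ρ) h3 hX1 hY1 hZ1
    (hc _ (kap_rel _).mem _ (kap_rel _).mem) (hc _ (kap_rel _).mem _ (kap_rel _).mem)
    (hc _ (kap_rel _).mem _ (kap_rel _).mem)
  have p1 := pr_hf (k := k) hs h3 (a := (1 : Zn N)) (b := 0) (c := 0) (by norm_num)
  have p2 := pr_hf (k := k) hs h3 (a := (0 : Zn N)) (b := 1) (c := 0) (by norm_num)
  have p3 := pr_hf (k := k) hs h3 (a := (0 : Zn N)) (b := 0) (c := 1) (by norm_num)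
  have q1 := pr_ff (k := k) hs h3 (a := (1 : Zn N)) (b := 1) (c := 1) (by norm_num)
  have q2 := pr_ff (k := k) hs h3 (a := (1 : Zn N)) (b := 1) (c := -1) (by norm_num)
  have q3 := pr_ff (k := k) hs h3 (a := (1 : Zn N)) (b := -1) (c := 1) (by norm_num)
  have q4 := pr_ff (k := k) hs h3 (a := (1 : Zn N)) (b := -1) (c := -1) (by norm_num)
  unfold x13 x5 x7
  have e : ∀ P1 P2 P3 Q1 Q2 Q3 Q4 p1 p2 p3 q1 q2 q3 q4 X Y Z W1 W2 W3 W4 : R,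
      (P1 + P2 + P3) + (Q1 + Q2 + Q3 + Q4) - ((p1 + p2 + p3) + (q1 + q2 + q3 + q4)) =
      (P1 - (p1 - p1 * p1)) + (P2 - (p2 - p2 * p2)) + (P3 - (p3 - p3 * p3)) +
      (Q1 - (q1 + q1 * q1)) + (Q2 - (q2 + q2 * q2)) + (Q3 - (q3 + q3 * q3)) +
      (Q4 - (q4 + q4 * q4)) - (p1 * p1 - X) - (p2 * p2 - Y) - (p3 * p3 - Z) +
      (q1 * q1 - W1) + (q2 * q2 - W2) + (q3 * q3 - W3) + (q4 * q4 - W4) +
      (W1 + W2 + W3 + W4 - (X + Y + Z)) := by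
    intros; abel
  rw [e _ _ _ _ _ _ _ _ _ _ _ _ _ _ (gX ρ * gX ρ * (gX ρ * gX ρ)) (gY ρ * gY ρ * (gY ρ * gY ρ))
    (gZ ρ * gZ ρ * (gZ ρ * gZ ρ))
    (((gX ρ + gY ρ + gZ ρ) * (gX ρ + gY ρ + gZ ρ)) * ((gX ρ + gY ρ + gZ ρ) * (gX ρ + gY ρ + gZ ρ)))
    (((gX ρ + gY ρ - gZ ρ) * (gX ρ + gY ρ - gZ ρ)) * ((gX ρ + gY ρ - gZ ρ) * (gX ρ + gY ρ - gZ ρ)))
    (((gX ρ - gY ρ + gZ ρ) * (gX ρ - gY ρ + gZ ρ)) * ((gX ρ - gY ρ + gZ ρ) * (gX ρ - gY ρ + gZ ρ)))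
    (((gX ρ - gY ρ - gZ ρ) * (gX ρ - gY ρ - gZ ρ)) * ((gX ρ - gY ρ - gZ ρ) *
      (gX ρ - gY ρ - gZ ρ)))]
  refine Submodule.add_mem _ (Submodule.add_mem _ (Submodule.add_mem _ (Submodule.add_mem _
    (Submodule.add_mem _ (Submodule.sub_mem _ (Submodule.sub_mem _ (Submodule.sub_mem _
    (Submodule.add_mem _ (Submodule.add_mem _ (Submodule.add_mem _ (Submodule.add_mem _
    (Submodule.add_mem _ (Submodule.add_mem _ p1 p2) p3) q1) q2) q3) q4) s1) s2) s3) t1) t2) t3)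
    t4) fs

end

end Pool.Agent.Helper725_HQ
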