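import Pool.Agent.Helper725_HQ.CLog2

/-! A functional killed by the two Hecke operators in high degree. -/

set_option autoImplicit false
set_option linter.unusedVariables false

namespace Pool.Agent.Helper725_HQ

open Quaternion

section
variable {N : ℕ} {k : Type*} [CommRing k] {R : Type*} [Ring R] [Algebra k R]
  {ρ : (Hn N)ˣ →* R}

/-- the main vanishing statement -/
theorem functional_zeroC (hs : Sc ρ) (h3 : (3 : R) = 0) {M : Type*} [AddCommGroup M] [Module k M]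
    (h3M : ∀ x : M, x + x = 0 → x = 0) (d : ℕ) (hd : 1 ≤ d) (Λ : R →ₗ[k] M)
    (P1 : ∀ T ∈ Ia k ρ ^ (d + 1), Λ T = 0) (P2 : ∀ T, Λ (gX ρ * T) = 0)
    {wi wj : (Hn N)ˣ} (ci : ∀ a b c : Zn N, wi * kp (im a b c) * wi⁻¹ = kp (im a (-b) (-c)))
    (cj : ∀ a b c : Zn N, wj * kp (im a b c) * wj⁻¹ = kp (im (-a) b (-c)))
    (Pi : ∀ T ∈ Ia k ρ ^ d, Λ (ρ wi * T * ρ wi⁻¹) = Λ T)
    (Pj : ∀ T ∈ Ia k ρ ^ d, Λ (ρ wj * T * ρ wj⁻¹) = Λ T)
    (P5 : ∀ j l, j + l + 2 = d → Λ (mo ρ j l * x5 ρ) = 0)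
    (P5' : ∀ j l, j + l + 4 = d → Λ (mo ρ j l * x5 ρ) = 0)
    (P7 : ∀ j l, j + l + 4 = d → Λ (mo ρ j l * x7 ρ) = 0)
    (Pq : d = 2 → Λ (mo ρ 0 2) = Λ (mo ρ 2 0)) : ∀ T ∈ Ia k ρ ^ d, Λ T = 0 := by
  apply span_mo hs h3 d hd Λ P1 P2
  have hY1 : gY ρ ∈ Ia k ρ ^ 1 := gY_mem
  have hZ1 : gZ ρ ∈ Ia k ρ ^ 1 := gZ_mem
  have hX1 : gX ρ ∈ Ia k ρ ^ 1 := gX_mem
  -- conjugation of the monomials
  have cw : ∀ (w : (Hn N)ˣ) (b c b' c' : Hn N), w * kp b * w⁻¹ = kp b' → w * kp c * w⁻¹ = kp c' →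
      ∀ j l : ℕ, ρ w * ((ρ (kp b) - 1) ^ j * (ρ (kp c) - 1) ^ l) * ρ w⁻¹ =
        (ρ (kp b') - 1) ^ j * (ρ (kp c') - 1) ^ l := by
    intro w b c b' c' hb hc j l
    have hww : ρ w⁻¹ * ρ w = 1 := by rw [← map_mul, inv_mul_cancel, map_one]
    have hww' : ρ w * ρ w⁻¹ = 1 := by rw [← map_mul, mul_inv_cancel, map_one]
    have one : ∀ (b b' : Hn N), w * kp b * w⁻¹ = kp b' → ∀ n : ℕ,
        ρ w * (ρ (kp b) - 1) ^ n = (ρ (kp b') - 1) ^ n * ρ w := by
      intro b b' hb n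
      induction n with
      | zero => rw [pow_zero, pow_zero, one_mul, mul_one]
      | succ n ih =>
        have h1 : ρ w * (ρ (kp b) - 1) = (ρ (kp b') - 1) * ρ w := by
          rw [← hb, map_mul, map_mul, mul_sub, sub_mul, mul_assoc (ρ w * ρ (kp b)), hww, mul_one,
            mul_one, one_mul]
        rw [pow_succ, ← mul_assoc, ih, mul_assoc, h1, ← mul_assoc, ← pow_succ]
    rw [← mul_assoc, one b b' hb j, mul_assoc ((ρ (kp b') - 1) ^ j), one c c' hc l, ← mul_assoc,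
      mul_assoc _ (ρ w), hww', mul_one]
  have odd_l : ∀ j l, j + l = d → Odd l → Λ (mo ρ j l) = 0 := by
    intro j l hjl hl
    apply h3M
    have h1 := Pj (mo ρ j l) (by rw [← hjl]; exact mo_mem j l)
    unfold mo gY gZ at h1
    rw [cw wj _ _ (im 0 1 0) (im 0 0 (-1)) (by rw [cj, neg_zero])
      (by rw [cj, neg_zero])] at h1
    have h2 := y_neg (k := k) hs 0 0 1
    rw [neg_zero] at h2
    have h3' := mo_congr (u := ρ (kp (im 0 1 0)) - 1) (u' := gY ρ) (v := ρ (kp (im 0 0 (-1))) - 1)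
      (v' := -gZ ρ) hY1 hY1 (y_mem1' (kap_rel _).mem) (Submodule.neg_mem _ hZ1)
      (by unfold gY; rw [sub_self]; exact Submodule.zero_mem _) h2 j l
    have h4 := P1 _ (by rw [← hjl]; exact h3')
    rw [map_sub, h1, hl.neg_pow, mul_neg, map_neg, sub_neg_eq_add] at h4
    exact h4
  have odd_d : ∀ j l, j + l = d → Odd d → Λ (mo ρ j l) = 0 := by
    intro j l hjl hl
    apply h3M
    have h1 := Pi (mo ρ j l) (by rw [← hjl]; exact mo_mem j l)
    unfold mo gY gZ at h1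
    rw [cw wi _ _ (im 0 (-1) 0) (im 0 0 (-1)) (by rw [ci, neg_zero])
      (by rw [ci, neg_zero])] at h1
    have h2 := y_neg (k := k) hs 0 0 1
    have h2' := y_neg (k := k) hs 0 1 0
    rw [neg_zero] at h2 h2'
    have h3' := mo_congr (u := ρ (kp (im 0 (-1) 0)) - 1) (u' := -gY ρ)
      (v := ρ (kp (im 0 0 (-1))) - 1)
      (v' := -gZ ρ) (y_mem1' (kap_rel _).mem) (Submodule.neg_mem _ hY1) (y_mem1' (kap_rel _).mem)
      (Submodule.neg_mem _ hZ1) h2' h2 j l
    have h4 := P1 _ (by rw [← hjl]; exact h3')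
    rw [map_sub, h1, neg_pow_mo, hjl, hl.neg_one_pow, neg_mul, one_mul, map_neg,
      sub_neg_eq_add] at h4
    exact h4
  -- the relation given by the operator of level five
  have r5 : ∀ j l, j + l + 2 = d → Λ (mo ρ (j + 2) l) + Λ (mo ρ j (l + 2)) = 0 := by
    intro j l hjl
    have hmo : mo ρ j l ∈ Ia k ρ ^ (j + l) := mo_mem j l
    have h1 := P5 j l hjl
    have h2 : Λ (mo ρ j l * (x5 ρ - (gX ρ * gX ρ + gY ρ * gY ρ + gZ ρ * gZ ρ))) = 0 := by
      apply P1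
      have e : d + 1 = j + l + 3 := by omega
      rw [e]
      exact fmul hmo (x5_lead hs h3)
    have hX : Λ (mo ρ j l * (gX ρ * gX ρ)) = 0 := by
      have e : mo ρ j l * (gX ρ * gX ρ) = gX ρ * (mo ρ j l * gX ρ) -
          (gX ρ * mo ρ j l - mo ρ j l * gX ρ) * gX ρ := by noncomm_ring
      rw [e, map_sub, P2, zero_sub, neg_eq_zero]
      apply P1
      have e : d + 1 = j + l + 2 + 1 := by omega
      rw [e]
      exact fmul (comm_pow hs h3 _ hX1 hmo) hX1
    have hY : Λ (mo ρ j l * (gY ρ * gY ρ)) = Λ (mo ρ (j + 2) l) := by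
      have h3' := P1 (mo ρ (j + 2) l - mo ρ j l * gY ρ * gY ρ) (by
        have e : d + 1 = j + l + 3 := by omega
        rw [e]
        exact mo_YY hs h3 j l)
      rw [map_sub, sub_eq_zero] at h3'
      rw [h3', mul_assoc]
    have hZ : mo ρ j l * (gZ ρ * gZ ρ) = mo ρ j (l + 2) := by
      rw [← mul_assoc, mo_Z, mo_Z]
    rw [mul_sub, map_sub, h1, zero_sub, neg_eq_zero, mul_add, mul_add, map_add, map_add, hX, hY, hZ,
      zero_add] at h2
    exact h2
  -- the relation given by the difference of the two operators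
  have r7 : ∀ j l, j + l + 4 = d → Λ (mo ρ (j + 2) (l + 2)) = 0 := by
    intro j l hjl
    have hmo : mo ρ j l ∈ Ia k ρ ^ (j + l) := mo_mem j l
    have h2 : Λ (mo ρ j l * (x7 ρ - x5 ρ + (gX ρ * gX ρ * gY ρ * gY ρ +
        gY ρ * gY ρ * gZ ρ * gZ ρ + gX ρ * gX ρ * gZ ρ * gZ ρ))) = 0 := by
      apply P1
      have e : d + 1 = j + l + 5 := by omega
      rw [e]
      exact fmul hmo (x7_x5 hs h3)
    have hX : ∀ u v : R, u ∈ Ia k ρ ^ 1 → v ∈ Ia k ρ ^ 1 →
        Λ (mo ρ j l * (gX ρ * gX ρ * u * v)) = 0 := by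
      intro u v hu hv
      have e : mo ρ j l * (gX ρ * gX ρ * u * v) = gX ρ * (mo ρ j l * gX ρ * u * v) -
          (gX ρ * mo ρ j l - mo ρ j l * gX ρ) * gX ρ * u * v := by noncomm_ring
      rw [e, map_sub, P2, zero_sub, neg_eq_zero]
      apply P1
      have e : d + 1 = j + l + 2 + 1 + 1 + 1 := by omega
      rw [e]
      exact fmul (fmul (fmul (comm_pow hs h3 _ hX1 hmo) hX1) hu) hv
    have hY : Λ (mo ρ j l * (gY ρ * gY ρ * gZ ρ * gZ ρ)) = Λ (mo ρ (j + 2) (l + 2)) := by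
      have h3' := P1 ((mo ρ (j + 2) l - mo ρ j l * gY ρ * gY ρ) * gZ ρ * gZ ρ) (by
        have e : d + 1 = j + l + 3 + 1 + 1 := by omega
        rw [e]
        exact fmul (fmul (mo_YY hs h3 j l) hZ1) hZ1)
      rw [sub_mul, sub_mul, map_sub, sub_eq_zero, mo_Z, mo_Z] at h3'
      rw [h3']
      congr 1
      noncomm_ring
    rw [mul_add, map_add, mul_sub, map_sub, P7 j l hjl, P5' j l hjl, sub_zero, zero_add, mul_add, mul_add, map_add,
      map_add, hX _ _ hY1 hY1, hX _ _ hZ1 hZ1, hY, zero_add, add_zero] at h2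
    exact h2
  intro j l hjl
  rcases Nat.even_or_odd d with hde | hdo
  swap
  · exact odd_d j l hjl hdo
  rcases Nat.even_or_odd l with hle | hlo
  swap
  · exact odd_l j l hjl hlo
  have hje : Even j := by
    by_contra hj
    rw [Nat.not_even_iff_odd] at hj
    have := hj.add_even hle
    rw [hjl] at this
    exact (Nat.not_odd_iff_even.2 hde) this
  obtain ⟨j', rfl⟩ := hje
  obtain ⟨l', rfl⟩ := hle
  by_cases hd2 : d = 2
  · -- degree two: use the swap
    have h1' := Pq hd2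
    have h2 := r5 0 0 (by omega)
    rw [zero_add] at h2
    rw [h1'] at h2
    have h4 := h3M _ h2
    have : (j' = 0 ∧ l' = 1) ∨ (j' = 1 ∧ l' = 0) := by omega
    rcases this with ⟨rfl, rfl⟩ | ⟨rfl, rfl⟩
    · show Λ (mo ρ 0 2) = 0
      rw [h1', h4]
    · exact h4
  · rcases Nat.eq_zero_or_pos j' with hj0 | hjpos
    · subst hj0
      obtain ⟨m, rfl⟩ : ∃ m, l' = m + 2 := ⟨l' - 2, by omega⟩
      have h2 := r5 0 (2 * m + 2) (by omega)
      have h4 := r7 0 (2 * m) (by omega)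
      rw [h4, zero_add] at h2
      have e : m + 2 + (m + 2) = 2 * m + 2 + 2 := by ring
      rw [add_zero, e]
      exact h2
    · rcases Nat.eq_zero_or_pos l' with hl0 | hlpos
      · subst hl0
        obtain ⟨m, rfl⟩ : ∃ m, j' = m + 2 := ⟨j' - 2, by omega⟩
        have h2 := r5 (2 * m + 2) 0 (by omega)
        have h4 := r7 (2 * m) 0 (by omega)
        rw [zero_add] at h2 h4
        rw [h4, add_zero] at h2
        have e : m + 2 + (m + 2) = 2 * m + 2 + 2 := by ring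
        rw [add_zero, e]
        exact h2
      · obtain ⟨m, rfl⟩ : ∃ m, j' = m + 1 := ⟨j' - 1, by omega⟩
        obtain ⟨n, rfl⟩ : ∃ n, l' = n + 1 := ⟨l' - 1, by omega⟩
        have h4 := r7 (2 * m) (2 * n) (by omega)
        have e1 : m + 1 + (m + 1) = 2 * m + 2 := by ring
        have e2 : n + 1 + (n + 1) = 2 * n + 2 := by ring
        rw [e1, e2]
        exact h4

end

end Pool.Agent.Helper725_HQ
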