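import Pool.Agent.Helper725_HQ.CHk
import Pool.Agent.Helper725_HQ.CCon

/-! The operators on the functions on the residue disc. -/

set_option autoImplicit false
set_option linter.unusedVariables false
set_option linter.unusedSimpArgs false

namespace Pool.Agent.Helper725_HQ

open Quaternion MvPolynomial

theorem acta_XX {a : ℤ} (ha : ¬ (3 : ℤ) ∣ a) {v x : Fin 3 → ℤ} (hx : x ∈ XX) :
    acta a v x ∈ XX := by
  obtain ⟨h0, ⟨b, hb⟩, ⟨c, hc⟩⟩ := hx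
  refine ⟨?_, ?_, ?_⟩
  · intro h
    have e : acta a v x 0 = a * a * x 0 + 3 * (3 * ((v 0) ^ 2 - (v 1) ^ 2 - (v 2) ^ 2) * x 0 +
        2 * (3 * (v 0 * v 1) + a * v 2) * x 1 + 2 * (3 * (v 0 * v 2) - a * v 1) * x 2) := by
      unfold acta
      rw [Fin.sum_univ_three]
      simp [rotZ]
      ring
    rw [e] at h
    have h1 := (dvd_add_left (Dvd.intro _ rfl)).1 h
    rcases Int.prime_three.dvd_or_dvd h1 with h2 | h2
    · rcases Int.prime_three.dvd_or_dvd h2 with h3 | h3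
      · exact ha h3
      · exact ha h3
    · exact h0 h2
  · have e : acta a v x 1 = a * a * x 1 + 3 * (2 * (3 * (v 0 * v 1) - a * v 2) * x 0 +
        3 * (-(v 0) ^ 2 + (v 1) ^ 2 - (v 2) ^ 2) * x 1 + 2 * (3 * (v 1 * v 2) + a * v 0) * x 2) := by
      unfold acta
      rw [Fin.sum_univ_three]
      simp [rotZ]
      ring
    rw [e, hb]
    exact dvd_add (Dvd.dvd.mul_left (Dvd.intro _ rfl) _) (Dvd.intro _ rfl)
  · have e : acta a v x 2 = a * a * x 2 + 3 * (2 * (3 * (v 0 * v 2) + a * v 1) * x 0 +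
        2 * (3 * (v 1 * v 2) - a * v 0) * x 1 + 3 * (-(v 0) ^ 2 - (v 1) ^ 2 + (v 2) ^ 2) * x 2) := by
      unfold acta
      rw [Fin.sum_univ_three]
      simp [rotZ]
      ring
    rw [e, hc]
    exact dvd_add (Dvd.dvd.mul_left (Dvd.intro _ rfl) _) (Dvd.intro _ rfl)

section
variable {N : ℕ}

/-- the vector in the quaternions modulo a power of three -/
def imv (ai : Zn N) (v : Fin 3 → ℤ) : Hn N := im (ai * ((v 0 : ℤ) : Zn N))
  (ai * ((v 1 : ℤ) : Zn N)) (ai * ((v 2 : ℤ) : Zn N))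

/-- the action on reductions -/
theorem kp_acta {a : ℤ} {ai : Zn N} (ha : (a : Zn N) * ai = 1) (v x : Fin 3 → ℤ) :
    ∃ t : (Zn N)ˣ, (((kp (imv ai v))⁻¹ : (Hn N)ˣ) : Hn N) * imz N x *
      ((kp (imv ai v) : (Hn N)ˣ) : Hn N) = (t : Zn N) • imz N (acta a v x) := by
  obtain ⟨t, ht⟩ := unit_three (N := N) (3 * ai ^ 2 * ((v 0 : Zn N) ^ 2 + (v 1 : Zn N) ^ 2 +
    (v 2 : Zn N) ^ 2))
  obtain ⟨s, hs⟩ : ∃ s : (Zn N)ˣ, (s : Zn N) = ai :=
    ⟨⟨ai, (a : Zn N), by rw [mul_comm]; exact ha, ha⟩, rfl⟩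
  have hinv : (((kp (imv ai v))⁻¹ : (Hn N)ˣ) : Hn N) = ((t⁻¹ : (Zn N)ˣ) : Zn N) •
      (ai • qn4 (a : Zn N) (-(3 * (v 0 : Zn N))) (-(3 * (v 1 : Zn N))) (-(3 * (v 2 : Zn N)))) := by
    apply Units.inv_eq_of_mul_eq_one_right
    rw [mul_smul_comm]
    have e : ((kp (imv ai v) : (Hn N)ˣ) : Hn N) * (ai • qn4 (a : Zn N) (-(3 * (v 0 : Zn N)))
        (-(3 * (v 1 : Zn N))) (-(3 * (v 2 : Zn N)))) = (t : Zn N) • 1 := by
      rw [kap_val, ht]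
      unfold imv
      apply Quaternion.ext
      · simp
        linear_combination ha
      · simp
        linear_combination (3 * ai * (v 0 : Zn N)) * ha
      · simp
        linear_combination (3 * ai * (v 1 : Zn N)) * ha
      · simp
        linear_combination (3 * ai * (v 2 : Zn N)) * ha
    rw [e, smul_smul, Units.inv_mul, one_smul]
  have hkp : ((kp (imv ai v) : (Hn N)ˣ) : Hn N) = ai • qn4 (a : Zn N) (3 * (v 0 : Zn N))
      (3 * (v 1 : Zn N)) (3 * (v 2 : Zn N)) := by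
    rw [kap_val]
    unfold imv
    apply Quaternion.ext
    · simp
      linear_combination (-1 : Zn N) * ha
    · simp; ring
    · simp; ring
    · simp; ring
  refine ⟨t⁻¹ * (s * s), ?_⟩
  rw [hinv, hkp, Units.val_mul, Units.val_mul, hs, mul_smul, mul_smul, smul_mul_assoc,
    smul_mul_assoc]
  congr 1
  rw [smul_mul_assoc, smul_mul_assoc, mul_smul_comm]
  congr 2
  unfold imz acta
  apply Quaternion.ext
  · simp [Fin.sum_univ_three, rotZ]; ring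
  · simp [Fin.sum_univ_three, rotZ]; ring
  · simp [Fin.sum_univ_three, rotZ]; ring
  · simp [Fin.sum_univ_three, rotZ]; ring

end

section
variable {N : ℕ} {κ : Type} [Field κ] {h : (Fin 3 → ℤ) → κ}

theorem toFn_acta {a : ℤ} {ai : Zn N} (ha : (a : Zn N) * ai = 1) (ha3 : ¬ (3 : ℤ) ∣ a)
    (hp : Pe N h) (hg : Gd (toFn N h)) (v : Fin 3 → ℤ) {x : Fin 3 → ℤ} (hx : x ∈ XX) :
    rho κ (kp (imv ai v)) (toFn N h) (imz N x) = h (acta a v x) := by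
  rw [rho_apply]
  obtain ⟨t, ht⟩ := kp_acta (N := N) ha v x
  rw [ht, hg.1, toFn_im hp (acta_XX ha3 hx)]

theorem neg_imv (ai : Zn N) (v : Fin 3 → ℤ) : im (-(ai * ((v 0 : ℤ) : Zn N)))
    (-(ai * ((v 1 : ℤ) : Zn N))) (-(ai * ((v 2 : ℤ) : Zn N))) = imv ai (fun i => -v i) := by
  unfold imv
  push_cast
  rw [mul_neg, mul_neg, mul_neg]

theorem pr_eval {a : ℤ} {ai : Zn N} (ha : (a : Zn N) * ai = 1) (ha3 : ¬ (3 : ℤ) ∣ a)
    (hp : Pe N h) (hg : Gd (toFn N h)) (v : Fin 3 → ℤ) {x : Fin 3 → ℤ} (hx : x ∈ XX) :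
    pr (rho κ) (ai * ((v 0 : ℤ) : Zn N)) (ai * ((v 1 : ℤ) : Zn N)) (ai * ((v 2 : ℤ) : Zn N))
      (toFn N h) (imz N x) = h (acta a v x) + h (acta a (fun i => -v i) x) - 2 * h x := by
  unfold pr
  rw [neg_imv]
  show (rho κ (kp (imv ai v)) (toFn N h) (imz N x) - toFn N h (imz N x)) +
    (rho κ (kp (imv ai (fun i => -v i))) (toFn N h) (imz N x) - toFn N h (imz N x)) = _
  rw [toFn_acta ha ha3 hp hg v hx, toFn_acta ha ha3 hp hg _ hx, toFn_im hp hx]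
  ring

theorem qd_eval {a : ℤ} {ai : Zn N} (ha : (a : Zn N) * ai = 1) (ha3 : ¬ (3 : ℤ) ∣ a)
    (hp : Pe N h) (hg : Gd (toFn N h)) (v : Fin 3 → ℤ) {x : Fin 3 → ℤ} (hx : x ∈ XX) :
    qd (rho κ) (ai * ((v 0 : ℤ) : Zn N)) (ai * ((v 1 : ℤ) : Zn N)) (ai * ((v 2 : ℤ) : Zn N))
      (toFn N h) (imz N x) = h (acta a v x) - h (acta a (fun i => -v i) x) := by
  unfold qd
  rw [neg_imv]
  show rho κ (kp (imv ai v)) (toFn N h) (imz N x) -
    rho κ (kp (imv ai (fun i => -v i))) (toFn N h) (imz N x) = _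
  rw [toFn_acta ha ha3 hp hg v hx, toFn_acta ha ha3 hp hg _ hx]

theorem neg5 : (fun i => -v5 0 i) = v5 1 ∧ (fun i => -v5 2 i) = v5 3 ∧
    (fun i => -v5 4 i) = v5 5 := by decide
theorem neg7 : (fun i => -v7 0 i) = v7 1 ∧ (fun i => -v7 2 i) = v7 3 ∧
    (fun i => -v7 4 i) = v7 5 ∧ (fun i => -v7 6 i) = v7 7 := by decide

/-- the twisted operator at five -/
theorem toFn_d5 (hp : Pe N h) (hg : Gd (toFn N h)) {x : Fin 3 → ℤ} (hx : x ∈ XX) :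
    d5 (rho κ) (toFn N h) (imz N x) = h (act (v5 4) x) + h (act (v5 5) x) -
      (h (act (v5 2) x) + h (act (v5 3) x)) := by
  have h1 : ((1 : ℤ) : Zn N) * 1 = 1 := by push_cast; ring
  have e4 := pr_eval (κ := κ) h1 (by norm_num) hp hg (v5 4) hx
  have e2 := pr_eval (κ := κ) h1 (by norm_num) hp hg (v5 2) hx
  rw [neg5.2.1] at e2
  rw [neg5.2.2] at e4
  simp only [acta_one] at e2 e4
  have f4 : pr (rho (N := N) κ) (1 * ((v5 4 0 : ℤ) : Zn N)) (1 * ((v5 4 1 : ℤ) : Zn N))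
      (1 * ((v5 4 2 : ℤ) : Zn N)) = pr (rho κ) 0 0 1 := by simp [v5]
  have f2 : pr (rho (N := N) κ) (1 * ((v5 2 0 : ℤ) : Zn N)) (1 * ((v5 2 1 : ℤ) : Zn N))
      (1 * ((v5 2 2 : ℤ) : Zn N)) = pr (rho κ) 0 1 0 := by simp [v5]
  rw [f4] at e4
  rw [f2] at e2
  unfold d5
  show pr (rho κ) 0 0 1 (toFn N h) (imz N x) - pr (rho κ) 0 1 0 (toFn N h) (imz N x) = _
  rw [e4, e2]
  ring

/-- the twisted operator at seven -/
theorem toFn_d7 (hp : Pe N h) (hg : Gd (toFn N h)) {x : Fin 3 → ℤ} (hx : x ∈ XX) :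
    d7 (rho κ) (toFn N h) (imz N x) = (h (act (v7 0) x) - h (act (v7 1) x)) -
      (h (act (v7 2) x) - h (act (v7 3) x)) - (h (act (v7 4) x) - h (act (v7 5) x)) +
      (h (act (v7 6) x) - h (act (v7 7) x)) := by
  have h1 : ((1 : ℤ) : Zn N) * 1 = 1 := by push_cast; ring
  have e0 := qd_eval (κ := κ) h1 (by norm_num) hp hg (v7 0) hx
  have e2 := qd_eval (κ := κ) h1 (by norm_num) hp hg (v7 2) hx
  have e4 := qd_eval (κ := κ) h1 (by norm_num) hp hg (v7 4) hx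
  have e6 := qd_eval (κ := κ) h1 (by norm_num) hp hg (v7 6) hx
  obtain ⟨n0, n2, n4, n6⟩ := neg7
  rw [n0] at e0
  rw [n2] at e2
  rw [n4] at e4
  rw [n6] at e6
  simp only [acta_one] at e0 e2 e4 e6
  have f0 : qd (rho (N := N) κ) (1 * ((v7 0 0 : ℤ) : Zn N)) (1 * ((v7 0 1 : ℤ) : Zn N))
      (1 * ((v7 0 2 : ℤ) : Zn N)) = qd (rho κ) 1 1 1 := by simp [v7]
  have f2 : qd (rho (N := N) κ) (1 * ((v7 2 0 : ℤ) : Zn N)) (1 * ((v7 2 1 : ℤ) : Zn N))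
      (1 * ((v7 2 2 : ℤ) : Zn N)) = qd (rho κ) 1 1 (-1) := by simp [v7]
  have f4 : qd (rho (N := N) κ) (1 * ((v7 4 0 : ℤ) : Zn N)) (1 * ((v7 4 1 : ℤ) : Zn N))
      (1 * ((v7 4 2 : ℤ) : Zn N)) = qd (rho κ) 1 (-1) 1 := by simp [v7]
  have f6 : qd (rho (N := N) κ) (1 * ((v7 6 0 : ℤ) : Zn N)) (1 * ((v7 6 1 : ℤ) : Zn N))
      (1 * ((v7 6 2 : ℤ) : Zn N)) = qd (rho κ) 1 (-1) (-1) := by simp [v7]
  rw [f0] at e0
  rw [f2] at e2
  rw [f4] at e4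
  rw [f6] at e6
  unfold d7
  show qd (rho κ) 1 1 1 (toFn N h) (imz N x) - qd (rho κ) 1 1 (-1) (toFn N h) (imz N x) -
    qd (rho κ) 1 (-1) 1 (toFn N h) (imz N x) + qd (rho κ) 1 (-1) (-1) (toFn N h) (imz N x) = _
  rw [e0, e2, e4, e6]

theorem five_ff' : ((5 : ℤ) : Zn N) * ff N = 1 := by
  push_cast
  exact five_ff

theorem two_hf' : ((2 : ℤ) : Zn N) * hf N = 1 := by
  push_cast
  exact two_hf

/-- the twisted operator at thirteen -/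
theorem toFn_d13 (hp : Pe N h) (hg : Gd (toFn N h)) {x : Fin 3 → ℤ} (hx : x ∈ XX) :
    d13 (rho κ) (toFn N h) (imz N x) = (h (acta 5 (v7 0) x) - h (acta 5 (v7 1) x)) -
      (h (acta 5 (v7 2) x) - h (acta 5 (v7 3) x)) - (h (acta 5 (v7 4) x) - h (acta 5 (v7 5) x)) +
      (h (acta 5 (v7 6) x) - h (acta 5 (v7 7) x)) := by
  have e0 := qd_eval (κ := κ) five_ff' (by norm_num) hp hg (v7 0) hx
  have e2 := qd_eval (κ := κ) five_ff' (by norm_num) hp hg (v7 2) hx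
  have e4 := qd_eval (κ := κ) five_ff' (by norm_num) hp hg (v7 4) hx
  have e6 := qd_eval (κ := κ) five_ff' (by norm_num) hp hg (v7 6) hx
  obtain ⟨n0, n2, n4, n6⟩ := neg7
  rw [n0] at e0
  rw [n2] at e2
  rw [n4] at e4
  rw [n6] at e6
  have f0 : qd (rho (N := N) κ) (ff N * ((v7 0 0 : ℤ) : Zn N)) (ff N * ((v7 0 1 : ℤ) : Zn N))
      (ff N * ((v7 0 2 : ℤ) : Zn N)) = qd (rho κ) (ff N * 1) (ff N * 1) (ff N * 1) := by
    simp [v7]
  have f2 : qd (rho (N := N) κ) (ff N * ((v7 2 0 : ℤ) : Zn N)) (ff N * ((v7 2 1 : ℤ) : Zn N))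
      (ff N * ((v7 2 2 : ℤ) : Zn N)) = qd (rho κ) (ff N * 1) (ff N * 1) (ff N * (-1)) := by
    simp [v7]
  have f4 : qd (rho (N := N) κ) (ff N * ((v7 4 0 : ℤ) : Zn N)) (ff N * ((v7 4 1 : ℤ) : Zn N))
      (ff N * ((v7 4 2 : ℤ) : Zn N)) = qd (rho κ) (ff N * 1) (ff N * (-1)) (ff N * 1) := by
    simp [v7]
  have f6 : qd (rho (N := N) κ) (ff N * ((v7 6 0 : ℤ) : Zn N)) (ff N * ((v7 6 1 : ℤ) : Zn N))
      (ff N * ((v7 6 2 : ℤ) : Zn N)) = qd (rho κ) (ff N * 1) (ff N * (-1)) (ff N * (-1)) := by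
    simp [v7]
  rw [f0] at e0
  rw [f2] at e2
  rw [f4] at e4
  rw [f6] at e6
  unfold d13
  show qd (rho κ) (ff N * 1) (ff N * 1) (ff N * 1) (toFn N h) (imz N x) -
    qd (rho κ) (ff N * 1) (ff N * 1) (ff N * (-1)) (toFn N h) (imz N x) -
    qd (rho κ) (ff N * 1) (ff N * (-1)) (ff N * 1) (toFn N h) (imz N x) +
    qd (rho κ) (ff N * 1) (ff N * (-1)) (ff N * (-1)) (toFn N h) (imz N x) = _
  rw [e0, e2, e4, e6]

/-- the operator at thirteen -/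
theorem toFn_x13 (hp : Pe N h) (hg : Gd (toFn N h)) {x : Fin 3 → ℤ} (hx : x ∈ XX) :
    x13 (rho κ) (toFn N h) (imz N x) = ∑ i, h (acta 2 (v5 i) x) + ∑ i, h (acta 5 (v7 i) x) -
      14 * h x := by
  have e0 := pr_eval (κ := κ) five_ff' (by norm_num) hp hg (v7 0) hx
  have e2 := pr_eval (κ := κ) five_ff' (by norm_num) hp hg (v7 2) hx
  have e4 := pr_eval (κ := κ) five_ff' (by norm_num) hp hg (v7 4) hx
  have e6 := pr_eval (κ := κ) five_ff' (by norm_num) hp hg (v7 6) hx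
  have g0 := pr_eval (κ := κ) two_hf' (by norm_num) hp hg (v5 0) hx
  have g2 := pr_eval (κ := κ) two_hf' (by norm_num) hp hg (v5 2) hx
  have g4 := pr_eval (κ := κ) two_hf' (by norm_num) hp hg (v5 4) hx
  obtain ⟨n0, n2, n4, n6⟩ := neg7
  obtain ⟨m0, m2, m4⟩ := neg5
  rw [n0] at e0
  rw [n2] at e2
  rw [n4] at e4
  rw [n6] at e6
  rw [m0] at g0
  rw [m2] at g2
  rw [m4] at g4
  have f0 : pr (rho (N := N) κ) (ff N * ((v7 0 0 : ℤ) : Zn N)) (ff N * ((v7 0 1 : ℤ) : Zn N))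
      (ff N * ((v7 0 2 : ℤ) : Zn N)) = pr (rho κ) (ff N * 1) (ff N * 1) (ff N * 1) := by
    simp [v7]
  have f2 : pr (rho (N := N) κ) (ff N * ((v7 2 0 : ℤ) : Zn N)) (ff N * ((v7 2 1 : ℤ) : Zn N))
      (ff N * ((v7 2 2 : ℤ) : Zn N)) = pr (rho κ) (ff N * 1) (ff N * 1) (ff N * (-1)) := by
    simp [v7]
  have f4 : pr (rho (N := N) κ) (ff N * ((v7 4 0 : ℤ) : Zn N)) (ff N * ((v7 4 1 : ℤ) : Zn N))
      (ff N * ((v7 4 2 : ℤ) : Zn N)) = pr (rho κ) (ff N * 1) (ff N * (-1)) (ff N * 1) := by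
    simp [v7]
  have f6 : pr (rho (N := N) κ) (ff N * ((v7 6 0 : ℤ) : Zn N)) (ff N * ((v7 6 1 : ℤ) : Zn N))
      (ff N * ((v7 6 2 : ℤ) : Zn N)) = pr (rho κ) (ff N * 1) (ff N * (-1)) (ff N * (-1)) := by
    simp [v7]
  have k0 : pr (rho (N := N) κ) (hf N * ((v5 0 0 : ℤ) : Zn N)) (hf N * ((v5 0 1 : ℤ) : Zn N))
      (hf N * ((v5 0 2 : ℤ) : Zn N)) = pr (rho κ) (hf N * 1) (hf N * 0) (hf N * 0) := by
    simp [v5]
  have k2 : pr (rho (N := N) κ) (hf N * ((v5 2 0 : ℤ) : Zn N)) (hf N * ((v5 2 1 : ℤ) : Zn N))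
      (hf N * ((v5 2 2 : ℤ) : Zn N)) = pr (rho κ) (hf N * 0) (hf N * 1) (hf N * 0) := by
    simp [v5]
  have k4 : pr (rho (N := N) κ) (hf N * ((v5 4 0 : ℤ) : Zn N)) (hf N * ((v5 4 1 : ℤ) : Zn N))
      (hf N * ((v5 4 2 : ℤ) : Zn N)) = pr (rho κ) (hf N * 0) (hf N * 0) (hf N * 1) := by
    simp [v5]
  rw [f0] at e0
  rw [f2] at e2
  rw [f4] at e4
  rw [f6] at e6
  rw [k0] at g0
  rw [k2] at g2
  rw [k4] at g4
  rw [Fin.sum_univ_six, Fin.sum_univ_eight]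
  unfold x13
  show (pr (rho κ) (hf N * 1) (hf N * 0) (hf N * 0) (toFn N h) (imz N x) +
    pr (rho κ) (hf N * 0) (hf N * 1) (hf N * 0) (toFn N h) (imz N x) +
    pr (rho κ) (hf N * 0) (hf N * 0) (hf N * 1) (toFn N h) (imz N x)) +
    (pr (rho κ) (ff N * 1) (ff N * 1) (ff N * 1) (toFn N h) (imz N x) +
    pr (rho κ) (ff N * 1) (ff N * 1) (ff N * (-1)) (toFn N h) (imz N x) +
    pr (rho κ) (ff N * 1) (ff N * (-1)) (ff N * 1) (toFn N h) (imz N x) +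
    pr (rho κ) (ff N * 1) (ff N * (-1)) (ff N * (-1)) (toFn N h) (imz N x)) = _
  rw [e0, e2, e4, e6, g0, g2, g4]
  ring

end

end Pool.Agent.Helper725_HQ
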