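import Pool.Agent.Helper725_HQ.CRed

/-! Constancy of the reductions in conductor four. -/

set_option autoImplicit false
set_option linter.unusedVariables false
set_option linter.unusedSimpArgs false

namespace Pool.Agent.Helper725_HQ

open Quaternion MvPolynomial

/-- vectors of norm congruent to one modulo three -/
def X3 : Set (Fin 3 → ℤ) := {x | (x 0 ^ 2 + x 1 ^ 2 + x 2 ^ 2) % 3 = 1}

theorem XX_X3 {x : Fin 3 → ℤ} (hx : x ∈ XX) : x ∈ X3 := by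
  obtain ⟨h0, ⟨b, hb⟩, ⟨c, hc⟩⟩ := hx
  show (x 0 ^ 2 + x 1 ^ 2 + x 2 ^ 2) % 3 = 1
  have h1 := sq_mod3 (x 0)
  have h2 : x 0 ^ 2 % 3 = 1 := by
    rcases h1 with h1 | h1
    · exact absurd (Int.dvd_of_emod_eq_zero h1.1) h0
    · exact h1.1
  have h3 : x 1 ^ 2 = 3 * (3 * b ^ 2) := by rw [hb]; ring
  have h4 : x 2 ^ 2 = 3 * (3 * c ^ 2) := by rw [hc]; ring
  omega

theorem cyi_X3 (s : Fin 3) {x : Fin 3 → ℤ} (hx : x ∈ X3) : cyi s x ∈ X3 := by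
  have h : (x 0 ^ 2 + x 1 ^ 2 + x 2 ^ 2) % 3 = 1 := hx
  fin_cases s
  · exact h
  · show (x 1 ^ 2 + x 2 ^ 2 + x 0 ^ 2) % 3 = 1
    rw [← h]; congr 1; ring
  · show (x 2 ^ 2 + x 0 ^ 2 + x 1 ^ 2) % 3 = 1
    rw [← h]; congr 1; ring

theorem cyi_12 (x : Fin 3 → ℤ) : cyi 1 (cyi 2 x) = x := by
  funext i; fin_cases i <;> rfl
theorem cyi_21 (x : Fin 3 → ℤ) : cyi 2 (cyi 1 x) = x := by
  funext i; fin_cases i <;> rfl
theorem cyi_11 (x : Fin 3 → ℤ) : cyi 1 (cyi 1 x) = cyi 2 x := by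
  funext i; fin_cases i <;> rfl
theorem cyi_0 (x : Fin 3 → ℤ) : cyi 0 x = x := rfl

theorem acta_cyi (a : ℤ) (v x : Fin 3 → ℤ) : acta a v (cyi 1 x) = cyi 1 (acta a (cyi 2 v) x) := by
  funext i
  fin_cases i
  · show acta a v ![x 1, x 2, x 0] 0 = acta a ![v 2, v 0, v 1] x 1
    unfold acta
    rw [Fin.sum_univ_three, Fin.sum_univ_three]
    simp [rotZ]; ring
  · show acta a v ![x 1, x 2, x 0] 1 = acta a ![v 2, v 0, v 1] x 2
    unfold acta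
    rw [Fin.sum_univ_three, Fin.sum_univ_three]
    simp [rotZ]; ring
  · show acta a v ![x 1, x 2, x 0] 2 = acta a ![v 2, v 0, v 1] x 0
    unfold acta
    rw [Fin.sum_univ_three, Fin.sum_univ_three]
    simp [rotZ]; ring

theorem cy5 : cyi 2 (v5 0) = v5 2 ∧ cyi 2 (v5 1) = v5 3 ∧ cyi 2 (v5 2) = v5 4 ∧
    cyi 2 (v5 3) = v5 5 ∧ cyi 2 (v5 4) = v5 0 ∧ cyi 2 (v5 5) = v5 1 := by decide

theorem cy7 : cyi 2 (v7 0) = v7 0 ∧ cyi 2 (v7 1) = v7 1 ∧ cyi 2 (v7 2) = v7 7 ∧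
    cyi 2 (v7 3) = v7 6 ∧ cyi 2 (v7 4) = v7 2 ∧ cyi 2 (v7 5) = v7 3 ∧ cyi 2 (v7 6) = v7 5 ∧
    cyi 2 (v7 7) = v7 4 := by decide

theorem c13_five (i : Fin 6) : c13 (Fin.castAdd 8 i) = ![4, 6 * v5 i 0, 6 * v5 i 1, 6 * v5 i 2] := by
  revert i; decide

theorem c13_seven (i : Fin 8) : c13 (Fin.natAdd 6 i) = tc 5 (v7 i) := by
  revert i; decide

theorem s13_five (i : Fin 6) : s13 (Fin.castAdd 8 i) = 0 := by
  revert i; decide

theorem s13_seven (i : Fin 8) : s13 (Fin.natAdd 6 i) = s7 i := by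
  revert i; decide

theorem actc_five (i : Fin 6) (x : Fin 3 → ℤ) :
    actc (c13 (Fin.castAdd 8 i)) x = fun j => 4 * acta 2 (v5 i) x j := by
  rw [c13_five]
  funext j
  unfold actc acta
  rw [Fin.sum_univ_three, Fin.sum_univ_three]
  fin_cases j
  · simp [rotZ]; ring
  · simp [rotZ]; ring
  · simp [rotZ]; ring

theorem actc_seven (i : Fin 8) (x : Fin 3 → ℤ) :
    actc (c13 (Fin.natAdd 6 i)) x = acta 5 (v7 i) x := by
  rw [c13_seven]; rfl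

section
variable {κ : Type} [Field κ]

/-- the properties of the reductions -/
structure Hk (N : ℕ) (h : (Fin 3 → ℤ) → κ) (l5 l7 l13 : κ) : Prop where
  per : ∀ x ∈ X3, ∀ y ∈ X3, (∀ i, ((3 ^ N : ℕ) : ℤ) ∣ x i - y i) → h x = h y
  sc : ∀ x ∈ X3, ∀ s : ℤ, ¬ (3 : ℤ) ∣ s → h (fun i => s * x i) = h x
  fi : ∀ x ∈ X3, h ![x 0, -x 1, -x 2] = h x
  fj : ∀ x ∈ X3, h ![-x 0, x 1, -x 2] = h x
  fq : ∀ x ∈ X3, h ![x 0, x 2, -x 1] = h x
  tr : ∀ x ∈ X3, h x + h (cyi 1 x) + h (cyi 2 x) = 0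
  r5 : ∀ x ∈ X3, ∑ i, h (cyi (s5 i) (act (v5 i) x)) = l5 * h x
  r7 : ∀ x ∈ X3, ∑ i, h (cyi (s7 i) (act (v7 i) x)) = l7 * h x
  r13 : ∀ x ∈ X3, ∑ i, h (cyi (s13 i) (actc (c13 i) x)) = l13 * h x

variable {N : ℕ} {h : (Fin 3 → ℤ) → κ} {l5 l7 l13 : κ}

theorem sum14 (f : Fin 14 → κ) : ∑ i, f i = ∑ i : Fin 6, f (Fin.castAdd 8 i) +
    ∑ i : Fin 8, f (Fin.natAdd 6 i) := Fin.sum_univ_add (a := 6) (b := 8) f

theorem Hk.t13 (H : Hk N h l5 l7 l13) {x : Fin 3 → ℤ} (hx : x ∈ X3)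
    (hx2 : ∀ i, acta 2 (v5 i) x ∈ X3) :
    ∑ i, h (acta 2 (v5 i) x) + ∑ i, h (cyi (s7 i) (acta 5 (v7 i) x)) = l13 * h x := by
  have f1 : ∀ i : Fin 6, h (cyi (s13 (Fin.castAdd 8 i)) (actc (c13 (Fin.castAdd 8 i)) x)) =
      h (acta 2 (v5 i) x) := by
    intro i
    rw [s13_five, actc_five, cyi_0, H.sc _ (hx2 i) 4 (by norm_num)]
  have f2 : ∀ i : Fin 8, h (cyi (s13 (Fin.natAdd 6 i)) (actc (c13 (Fin.natAdd 6 i)) x)) =
      h (cyi (s7 i) (acta 5 (v7 i) x)) := by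
    intro i
    rw [s13_seven, actc_seven]
  rw [← H.r13 x hx, sum14, Finset.sum_congr rfl (fun i _ => f1 i),
    Finset.sum_congr rfl (fun i _ => f2 i)]

/-- constancy -/
theorem Hk.const (h3 : (3 : κ) = 0) (hN : 1 ≤ N) (H : Hk N h l5 l7 l13) :
    ∃ r, ∀ x ∈ X3, h x = r := by
  obtain ⟨ψ, hψ⟩ : ∃ ψ : (Fin 3 → ℤ) → κ, ∀ x, ψ x = h (cyi 1 x) - h x := ⟨_, fun _ => rfl⟩
  have hp : Pe N h := fun x hx y hy hxy => H.per x (XX_X3 hx) y (XX_X3 hy) hxy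
  have hp1 : ∀ x ∈ XX, ∀ y ∈ XX, (∀ i, ((3 ^ N : ℕ) : ℤ) ∣ x i - y i) →
      h (cyi 1 x) = h (cyi 1 y) := by
    intro x hx y hy hxy
    apply H.per _ (cyi_X3 1 (XX_X3 hx)) _ (cyi_X3 1 (XX_X3 hy))
    intro i
    fin_cases i
    · exact hxy 1
    · exact hxy 2
    · exact hxy 0
  have hpψ : Pe N ψ := by
    intro x hx y hy hxy
    rw [hψ, hψ, hp x hx y hy hxy, hp1 x hx y hy hxy]
  have hg : Gd (toFn N h) := toFn_Gd hN hp (fun x hx s hs => H.sc x (XX_X3 hx) s hs)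
  have cs : ∀ (x : Fin 3 → ℤ) (s : ℤ), cyi 1 (fun i => s * x i) = fun i => s * cyi 1 x i := by
    intro x s
    funext i
    fin_cases i <;> rfl
  have hgψ : Gd (toFn N ψ) := toFn_Gd hN hpψ (fun x hx s hs => by
    rw [hψ, hψ, H.sc x (XX_X3 hx) s hs, cs, H.sc _ (cyi_X3 1 (XX_X3 hx)) s hs])
  have e1 : (![1, 0, 0] : Fin 3 → ℤ) ∈ XX := ⟨by norm_num, dvd_zero _, dvd_zero _⟩
  have im1 : imz N ![1, 0, 0] = im 1 0 0 := by simp [imz]
  -- the value of the second function at the centre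
  have hc : ψ ![1, 0, 0] = 0 := by
    rw [hψ]
    have h1 := H.tr _ (XX_X3 e1)
    have h2 := H.fq (cyi 2 ![1, 0, 0]) (cyi_X3 2 (XX_X3 e1))
    have h4 := H.fi (cyi 1 ![1, 0, 0]) (cyi_X3 1 (XX_X3 e1))
    have e2 : (![cyi 2 ![1, 0, 0] 0, cyi 2 ![1, 0, 0] 2, -cyi 2 ![1, 0, 0] 1] : Fin 3 → ℤ) =
        ![cyi 1 ![1, 0, 0] 0, -cyi 1 ![1, 0, 0] 1, -cyi 1 ![1, 0, 0] 2] := by decide
    rw [e2, h4] at h2
    rw [← h2] at h1
    linear_combination (-1 : κ) * h1 + h (cyi 1 ![1, 0, 0]) * h3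
  -- the action
  have ax : ∀ v x : Fin 3 → ℤ, x ∈ XX → act v x ∈ X3 := fun v x hx => XX_X3 (act_XX hx)
  have tr2 : ∀ x ∈ X3, h (cyi 2 x) = -h x - h (cyi 1 x) := by
    intro x hx
    linear_combination H.tr x hx
  obtain ⟨q0, q1, q2', q3, q4, q5⟩ := cy5
  obtain ⟨p0, p1, p2, p3', p4, p5, p6, p7⟩ := cy7
  -- the relations at five
  have A5 : ∀ x ∈ XX, h (act (v5 0) x) + h (act (v5 1) x) + h (cyi 2 (act (v5 2) x)) +
      h (cyi 2 (act (v5 3) x)) + h (cyi 1 (act (v5 4) x)) + h (cyi 1 (act (v5 5) x)) =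
      l5 * h x := by
    intro x hx
    have := H.r5 x (XX_X3 hx)
    rw [Fin.sum_univ_six] at this
    exact this
  have B5 : ∀ x ∈ XX, h (cyi 1 (act (v5 2) x)) + h (cyi 1 (act (v5 3) x)) + h (act (v5 4) x) +
      h (act (v5 5) x) + h (cyi 2 (act (v5 0) x)) + h (cyi 2 (act (v5 1) x)) =
      l5 * h (cyi 1 x) := by
    intro x hx
    have := H.r5 (cyi 1 x) (cyi_X3 1 (XX_X3 hx))
    rw [Fin.sum_univ_six] at this
    simp only [← acta_one, acta_cyi, q0, q1, q2', q3, q4, q5] at this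
    change h (cyi 0 (cyi 1 _)) + h (cyi 0 (cyi 1 _)) + h (cyi 2 (cyi 1 _)) +
      h (cyi 2 (cyi 1 _)) + h (cyi 1 (cyi 1 _)) + h (cyi 1 (cyi 1 _)) = _ at this
    simp only [cyi_0, cyi_21, cyi_11, acta_one] at this
    exact this
  -- the relations at seven
  have A7 : ∀ x ∈ XX, h (cyi 1 (act (v7 0) x)) + h (cyi 2 (act (v7 1) x)) +
      h (cyi 2 (act (v7 2) x)) + h (cyi 1 (act (v7 3) x)) + h (cyi 2 (act (v7 4) x)) +
      h (cyi 1 (act (v7 5) x)) + h (cyi 1 (act (v7 6) x)) + h (cyi 2 (act (v7 7) x)) =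
      l7 * h x := by
    intro x hx
    have := H.r7 x (XX_X3 hx)
    rw [Fin.sum_univ_eight] at this
    exact this
  have B7 : ∀ x ∈ XX, h (cyi 2 (act (v7 0) x)) + h (act (v7 1) x) +
      h (act (v7 7) x) + h (cyi 2 (act (v7 6) x)) + h (act (v7 2) x) +
      h (cyi 2 (act (v7 3) x)) + h (cyi 2 (act (v7 5) x)) + h (act (v7 4) x) =
      l7 * h (cyi 1 x) := by
    intro x hx
    have := H.r7 (cyi 1 x) (cyi_X3 1 (XX_X3 hx))
    rw [Fin.sum_univ_eight] at this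
    simp only [← acta_one, acta_cyi, p0, p1, p2, p3', p4, p5, p6, p7] at this
    change h (cyi 1 (cyi 1 _)) + h (cyi 2 (cyi 1 _)) + h (cyi 2 (cyi 1 _)) +
      h (cyi 1 (cyi 1 _)) + h (cyi 2 (cyi 1 _)) + h (cyi 1 (cyi 1 _)) + h (cyi 1 (cyi 1 _)) +
      h (cyi 2 (cyi 1 _)) = _ at this
    simp only [cyi_0, cyi_21, cyi_11, acta_one] at this
    exact this
  -- the relations at thirteen
  have A13 : ∀ x ∈ XX, ∑ i, h (acta 2 (v5 i) x) + (h (cyi 1 (acta 5 (v7 0) x)) +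
      h (cyi 2 (acta 5 (v7 1) x)) +
      h (cyi 2 (acta 5 (v7 2) x)) + h (cyi 1 (acta 5 (v7 3) x)) + h (cyi 2 (acta 5 (v7 4) x)) +
      h (cyi 1 (acta 5 (v7 5) x)) + h (cyi 1 (acta 5 (v7 6) x)) + h (cyi 2 (acta 5 (v7 7) x))) =
      l13 * h x := by
    intro x hx
    have := H.t13 (XX_X3 hx) (fun i => XX_X3 (acta_XX (by norm_num) hx))
    rw [Fin.sum_univ_eight] at this
    exact this
  have B13 : ∀ x ∈ XX, ∑ i, h (cyi 1 (acta 2 (v5 i) x)) + (h (cyi 2 (acta 5 (v7 0) x)) +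
      h (acta 5 (v7 1) x) +
      h (acta 5 (v7 7) x) + h (cyi 2 (acta 5 (v7 6) x)) + h (acta 5 (v7 2) x) +
      h (cyi 2 (acta 5 (v7 3) x)) + h (cyi 2 (acta 5 (v7 5) x)) + h (acta 5 (v7 4) x)) =
      l13 * h (cyi 1 x) := by
    intro x hx
    have := H.t13 (cyi_X3 1 (XX_X3 hx)) (fun i => by
      rw [acta_cyi]
      exact cyi_X3 1 (XX_X3 (acta_XX (by norm_num) hx)))
    rw [Fin.sum_univ_eight, Fin.sum_univ_six] at this
    simp only [acta_cyi, p0, p1, p2, p3', p4, p5, p6, p7, q0, q1, q2', q3, q4, q5] at this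
    change _ + (h (cyi 1 (cyi 1 _)) + h (cyi 2 (cyi 1 _)) + h (cyi 2 (cyi 1 _)) +
      h (cyi 1 (cyi 1 _)) + h (cyi 2 (cyi 1 _)) + h (cyi 1 (cyi 1 _)) + h (cyi 1 (cyi 1 _)) +
      h (cyi 2 (cyi 1 _))) = _ at this
    simp only [cyi_0, cyi_21, cyi_11] at this
    rw [Fin.sum_univ_six, ← this]
    ring
  -- constancy of the two functions
  have ac : ∀ (a : ℤ) (v : Fin 3 → ℤ) {x : Fin 3 → ℤ}, ¬ (3 : ℤ) ∣ a → x ∈ XX →
      acta a v x ∈ X3 := fun a v x ha hx => XX_X3 (acta_XX ha hx)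
  have main := const_pair (N := N) (κ := κ) (φ := toFn N h) (ψ := toFn N ψ)
    (c5 := l5 - 6) (c7 := l7 - 8) (c13 := l13 - 14) h3 hg hgψ
    (toFn_i hN hp (fun x hx => H.fi x (XX_X3 hx)))
    (toFn_j hN hp (fun x hx => H.fj x (XX_X3 hx)))
    (toFn_q hN hp hp (fun x hx => H.fq x (XX_X3 hx)))
    (toFn_i hN hpψ (fun x hx => by
      rw [hψ, hψ, H.fi x (XX_X3 hx)]
      have h1 := H.fi (cyi 1 x) (cyi_X3 1 (XX_X3 hx))
      have h2 := H.fj ![x 1, -x 2, -x 0] (by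
        have := XX_X3 hx
        show ((x 1) ^ 2 + (-x 2) ^ 2 + (-x 0) ^ 2) % 3 = 1
        have h5 : (x 0 ^ 2 + x 1 ^ 2 + x 2 ^ 2) % 3 = 1 := this
        rw [← h5]; congr 1; ring)
      have e2 : cyi 1 ![x 0, -x 1, -x 2] = ![-x 1, -x 2, x 0] := rfl
      have e3 : (![-(![x 1, -x 2, -x 0] : Fin 3 → ℤ) 0, (![x 1, -x 2, -x 0] : Fin 3 → ℤ) 1,
        -(![x 1, -x 2, -x 0] : Fin 3 → ℤ) 2] : Fin 3 → ℤ) = ![-x 1, -x 2, x 0] := by
        funext i; fin_cases i <;> simp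
      rw [e3] at h2
      rw [e2, h2]
      congr 1))
    (toFn_j hN hpψ (fun x hx => by
      rw [hψ, hψ, H.fj x (XX_X3 hx)]
      have h1 := H.fi (cyi 1 x) (cyi_X3 1 (XX_X3 hx))
      congr 1))
    (by rw [← im1, toFn_im hpψ e1, hc, neg_zero])
    (by
      intro y hy
      obtain ⟨x, hx, rfl⟩ := exists_imz hN hy
      rw [toFn_x5 hN hpψ hgψ hx, toFn_im hpψ hx, Fin.sum_univ_six]
      simp only [hψ]
      have T := fun v => H.tr _ (ax v x hx)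
      linear_combination (-1 : κ) * (B5 x hx) + T (v5 0) + T (v5 1) + A5 x hx - T (v5 2) -
        T (v5 3) + (-h (act (v5 0) x) - h (act (v5 1) x) + h (cyi 1 (act (v5 2) x)) +
        h (cyi 1 (act (v5 3) x)) - 4 * (h (cyi 1 x) - h x)) * h3)
    (by
      intro y hy
      obtain ⟨x, hx, rfl⟩ := exists_imz hN hy
      rw [toFn_x7 hN hpψ hgψ hx, toFn_im hpψ hx, Fin.sum_univ_eight]
      simp only [hψ]
      have T := fun v => H.tr _ (ax v x hx)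
      linear_combination B7 x hx - T (v7 0) - T (v7 3) - T (v7 5) - T (v7 6) - A7 x hx +
        T (v7 1) + T (v7 2) + T (v7 4) + T (v7 7) + (h (cyi 1 (act (v7 0) x)) +
        h (cyi 1 (act (v7 3) x)) + h (cyi 1 (act (v7 5) x)) + h (cyi 1 (act (v7 6) x)) -
        h (act (v7 1) x) - h (act (v7 2) x) - h (act (v7 4) x) - h (act (v7 7) x)) * h3)
    (by
      intro y hy
      obtain ⟨x, hx, rfl⟩ := exists_imz hN hy
      rw [toFn_x13 hpψ hgψ hx, toFn_im hpψ hx, Fin.sum_univ_eight]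
      simp only [hψ]
      rw [Finset.sum_sub_distrib]
      have T := fun v => H.tr _ (ac 5 v (by norm_num) hx)
      linear_combination B13 x hx - T (v7 0) - T (v7 3) - T (v7 5) - T (v7 6) - A13 x hx +
        T (v7 1) + T (v7 2) + T (v7 4) + T (v7 7) + (h (cyi 1 (acta 5 (v7 0) x)) +
        h (cyi 1 (acta 5 (v7 3) x)) + h (cyi 1 (acta 5 (v7 5) x)) + h (cyi 1 (acta 5 (v7 6) x)) -
        h (acta 5 (v7 1) x) - h (acta 5 (v7 2) x) - h (acta 5 (v7 4) x) -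
        h (acta 5 (v7 7) x)) * h3)
    (by
      intro y hy
      obtain ⟨x, hx, rfl⟩ := exists_imz hN hy
      rw [toFn_x5 hN hp hg hx, toFn_im hp hx, Fin.sum_univ_six, toFn_d5 hpψ hgψ hx]
      simp only [hψ]
      have T := fun v => H.tr _ (ax v x hx)
      linear_combination A5 x hx - T (v5 2) - T (v5 3) +
        (h (act (v5 2) x) + h (act (v5 3) x)) * h3)
    (by
      intro y hy
      obtain ⟨x, hx, rfl⟩ := exists_imz hN hy
      rw [toFn_x7 hN hp hg hx, toFn_im hp hx, Fin.sum_univ_eight, toFn_d7 hpψ hgψ hx]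
      simp only [hψ]
      have T := fun v => H.tr _ (ax v x hx)
      linear_combination A7 x hx - T (v7 1) - T (v7 2) - T (v7 4) - T (v7 7) +
        (h (act (v7 1) x) + h (act (v7 2) x) + h (act (v7 4) x) + h (act (v7 7) x)) * h3)
    (by
      intro y hy
      obtain ⟨x, hx, rfl⟩ := exists_imz hN hy
      rw [toFn_x13 hp hg hx, toFn_im hp hx, Fin.sum_univ_eight, toFn_d13 hpψ hgψ hx]
      simp only [hψ]
      have T := fun v => H.tr _ (ac 5 v (by norm_num) hx)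
      linear_combination A13 x hx - T (v7 1) - T (v7 2) - T (v7 4) - T (v7 7) +
        (h (acta 5 (v7 1) x) + h (acta 5 (v7 2) x) + h (acta 5 (v7 4) x) +
        h (acta 5 (v7 7) x)) * h3)
  obtain ⟨m1, m2⟩ := main
  refine ⟨toFn N h (im 1 0 0), ?_⟩
  have c0 : ∀ x ∈ XX, h x = toFn N h (im 1 0 0) := by
    intro x hx
    rw [← toFn_im hp hx]
    exact m2 _ (Dc_imz hx)
  have c1 : ∀ x ∈ XX, h (cyi 1 x) = toFn N h (im 1 0 0) := by
    intro x hx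
    have h1 := toFn_im hpψ hx
    rw [m1, hψ, c0 x hx] at h1
    have h2 : (0 : κ) = h (cyi 1 x) - toFn N h (im 1 0 0) := h1
    linear_combination (-1 : κ) * h2
  have c2 : ∀ x ∈ XX, h (cyi 2 x) = toFn N h (im 1 0 0) := by
    intro x hx
    have h1 := H.tr x (XX_X3 hx)
    rw [c0 x hx, c1 x hx] at h1
    linear_combination h1 - toFn N h (im 1 0 0) * h3
  intro x hx
  rcases three_cases hx with hc | hc | hc
  · exact c0 x hc
  · have := c2 _ hc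
    rwa [show (![x 1, x 2, x 0] : Fin 3 → ℤ) = cyi 1 x from rfl, cyi_21] at this
  · have := c1 _ hc
    rwa [show (![x 2, x 0, x 1] : Fin 3 → ℤ) = cyi 2 x from rfl, cyi_12] at this

end

end Pool.Agent.Helper725_HQ
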