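import Pool.Agent.Helper725_HQ.Cls

/-! Classification of right ideals of norm 3 and 17, continued. -/

set_option autoImplicit false
set_option linter.unusedSimpArgs false
set_option linter.unnecessarySeqFocus false

namespace Pool.Agent.Helper725_HQ

open Quaternion MvPolynomial

theorem red_fin (p : ℕ) (hp : 0 < p) (a : ℤ) : ∃ x : Fin p, ∃ q : ℤ, a = x.val + p * q := by
  have h1 : 0 ≤ a % p := Int.emod_nonneg a (by exact_mod_cast hp.ne')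
  have h2 : a % p < p := Int.emod_lt_of_pos a (by exact_mod_cast hp)
  refine ⟨⟨(a % p).toNat, by omega⟩, a / p, ?_⟩
  have h3 : (((a % p).toNat : ℕ) : ℤ) = a % p := Int.toNat_of_nonneg h1
  show a = (((a % p).toNat : ℕ) : ℤ) + _
  rw [h3]
  exact (Int.emod_add_mul_ediv a p).symm

theorem iso_red {p : ℕ} {v : Fin 3 → ℤ} (hn : v 0 ^ 2 + v 1 ^ 2 + v 2 ^ 2 = (p : ℤ) ^ 2)
    {x y z : Fin p} {a b c : ℤ} (h0 : v 0 = x.val + p * a) (h1 : v 1 = y.val + p * b)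
    (h2 : v 2 = z.val + p * c) : (x.val * x.val + y.val * y.val + z.val * z.val) % p = 0 := by
  apply Nat.mod_eq_zero_of_dvd
  have : (p : ℤ) ∣ ((x.val * x.val + y.val * y.val + z.val * z.val : ℕ) : ℤ) := by
    rw [h0, h1, h2] at hn
    refine ⟨p - (2 * x.val * a + p * a ^ 2) - (2 * y.val * b + p * b ^ 2) -
      (2 * z.val * c + p * c ^ 2), ?_⟩
    push_cast
    linear_combination hn
  exact_mod_cast this

theorem nz_red {p : ℕ} {v : Fin 3 → ℤ} (hn : ¬ ∀ i, (p : ℤ) ∣ v i)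
    {x y z : Fin p} {a b c : ℤ} (h0 : v 0 = x.val + p * a) (h1 : v 1 = y.val + p * b)
    (h2 : v 2 = z.val + p * c) : x.val ≠ 0 ∨ y.val ≠ 0 ∨ z.val ≠ 0 := by
  by_contra h
  simp only [not_or, not_not] at h
  apply hn
  intro i
  fin_cases i
  · exact ⟨a, by simp [h0, h.1]⟩
  · exact ⟨b, by simp [h1, h.2.1]⟩
  · exact ⟨c, by simp [h2, h.2.2]⟩

theorem cls_fin {p : ℕ} (hp : p.Prime) {β : ℍ[ℚ]} (hβ : β ∈ Hur)
    (hn : normSq β = p) {v m : Fin 3 → ℤ} (hm : m 0 ^ 2 + m 1 ^ 2 + m 2 ^ 2 = (p : ℤ))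
    (h : ∃ h ∈ Hur, pq v * β = (p : ℍ[ℚ]) * h)
    {x y z d : Fin p} {a b c : ℤ} (h0 : v 0 = x.val + p * a) (h1 : v 1 = y.val + p * b)
    (h2 : v 2 = z.val + p * c) (hd : d.val ≠ 0) (k0 : ((x.val : ℤ) - d.val * m 0) % p = 0)
    (k1 : ((y.val : ℤ) - d.val * m 1) % p = 0) (k2 : ((z.val : ℤ) - d.val * m 2) % p = 0) :
    lm β Oo = lm (pq m) Oo := by
  obtain ⟨r0, e0⟩ := Int.dvd_of_emod_eq_zero k0
  obtain ⟨r1, e1⟩ := Int.dvd_of_emod_eq_zero k1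
  obtain ⟨r2, e2⟩ := Int.dvd_of_emod_eq_zero k2
  refine lm_eq_pq hp hβ hn (v := v) (m := m) (w := ![r0 + a, r1 + b, r2 + c]) (c := d.val) ?_ ?_
    hm h
  · intro hdv
    have h3 : p ∣ d.val := by exact_mod_cast hdv
    exact hd (Nat.eq_zero_of_dvd_of_lt h3 d.isLt)
  · intro i
    fin_cases i
    · show v 0 = d.val * m 0 + p * (r0 + a)
      linear_combination h0 + e0
    · show v 1 = d.val * m 1 + p * (r1 + b)
      linear_combination h1 + e1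
    · show v 2 = d.val * m 2 + p * (r2 + c)
      linear_combination h2 + e2

theorem p17 : Nat.Prime 17 := by norm_num
theorem p3 : Nat.Prime 3 := by norm_num

theorem cls17 {J : AddSubgroup ℍ[ℚ]} (hJ : J ∈ Sp 17 Oo) : ∃ t ∈ tab, J = lm (pq t.1) Oo := by
  obtain ⟨β, hβ, hn, rfl⟩ := (mem_Sp_Oo p17).1 hJ
  obtain ⟨v, v1, v2, v3⟩ := exists_vec p17 (by norm_num) hβ hn
  obtain ⟨x, a, ha⟩ := red_fin 17 (by norm_num) (v 0)
  obtain ⟨y, b, hb⟩ := red_fin 17 (by norm_num) (v 1)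
  obtain ⟨z, c, hc⟩ := red_fin 17 (by norm_num) (v 2)
  obtain ⟨t, ht, d, hd, k0, k1, k2⟩ := iso17 x y z (iso_red v1 ha hb hc) (nz_red v2 ha hb hc)
  exact ⟨t, ht, cls_fin p17 hβ hn (tab_norm t ht) v3 ha hb hc hd k0 k1 k2⟩

theorem cls3 {J : AddSubgroup ℍ[ℚ]} (hJ : J ∈ Sp 3 Oo) : ∃ i, J = lm (pq (aa i)) Oo := by
  obtain ⟨β, hβ, hn, rfl⟩ := (mem_Sp_Oo p3).1 hJ
  obtain ⟨v, v1, v2, v3⟩ := exists_vec p3 (by norm_num) hβ hn
  obtain ⟨x, a, ha⟩ := red_fin 3 (by norm_num) (v 0)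
  obtain ⟨y, b, hb⟩ := red_fin 3 (by norm_num) (v 1)
  obtain ⟨z, c, hc⟩ := red_fin 3 (by norm_num) (v 2)
  obtain ⟨i, d, hd, k0, k1, k2⟩ := iso3 x y z (iso_red v1 ha hb hc) (nz_red v2 ha hb hc)
  exact ⟨i, cls_fin p3 hβ hn (aa_norm i) v3 ha hb hc hd k0 k1 k2⟩

theorem pq_mem_Sp {m : Fin 3 → ℤ} {p : ℕ} (hp : p.Prime)
    (hm : m 0 ^ 2 + m 1 ^ 2 + m 2 ^ 2 = (p : ℤ)) : lm (pq m) Oo ∈ Sp p Oo :=
  (mem_Sp_Oo hp).2 ⟨pq m, pq_mem m, by rw [normSq_pq, hm]; rfl, rfl⟩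

theorem pair_pq {m : Fin 3 → ℤ} {p : ℕ} (hp : p.Prime)
    (hm : m 0 ^ 2 + m 1 ^ 2 + m 2 ^ 2 = (p : ℤ)) : IsPair p Oo (lm (pq m) Oo) :=
  isPair_iff.2 ⟨Oo_isRI, pq_mem_Sp hp hm⟩

/-- a form of level 17 is determined by two values -/
theorem form_ext {k : ℕ} {F : Fun3} (hF : Form0 17 k F) (hA : F Oo (lm (pq nA) Oo) = 0)
    (hB : F Oo (lm (pq nB) Oo) = 0) : F = 0 := by
  funext I I'
  by_cases h : IsPair 17 I I'
  · obtain ⟨α, hα, rfl⟩ := principal h.fst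
    have h1 := (isPair_iff.1 h).2
    rw [Sp_lm hα] at h1
    obtain ⟨J, hJ, rfl⟩ := h1
    obtain ⟨t, ht, rfl⟩ := cls17 hJ
    rw [hF.left α hα, edg_form (tab_ok t ht) hF]
    rcases tab_n t ht with h2 | h2
    · rw [h2, hA, map_zero, map_zero]; rfl
    · rw [h2, hB, map_zero, map_zero]; rfl
  · rw [hF.supp _ _ h]; rfl

theorem aa_ne : ∀ i j : Fin 4, i ≠ j → (2 * (aa i 0 * aa j 0 + aa i 1 * aa j 1 + aa i 2 * aa j 2)) % 3
    ≠ 0 := by decide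

theorem aa_inj {i j : Fin 4} (h : lm (pq (aa i)) Oo = lm (pq (aa j)) Oo) : i = j := by
  by_contra hne
  have h1 : pq (aa j) ∈ lm (pq (aa i)) Oo := by
    rw [h]
    exact mem_lm.2 ⟨1, Hur.one_mem, by rw [mul_one]⟩
  obtain ⟨y, hy, e⟩ := mem_lm.1 h1
  have h2 := pq_sq (aa i) (aa_norm i) y
  rw [e] at h2
  obtain ⟨A, B, C, D, g1, g2, g3, g4⟩ := doubled hy
  have h3 := congrArg QuaternionAlgebra.re h2
  have h4 : (((3 : ℕ) : ℍ[ℚ]) * y).re = 3 * y.re := by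
    have : ((3 : ℕ) : ℍ[ℚ]) * y = (3 : ℚ) • y := by
      rw [← ratmul]; norm_cast
    rw [this]; simp
  rw [re_neg, h4, g1, re_mul] at h3
  simp only [pq, mk4_re, mk4_imI, mk4_imJ, mk4_imK] at h3
  have h5 : (2 * (aa i 0 * aa j 0 + aa i 1 * aa j 1 + aa i 2 * aa j 2) : ℤ) = 3 * A := by
    have : (2 * ((aa i 0 : ℚ) * aa j 0 + aa i 1 * aa j 1 + aa i 2 * aa j 2)) = 3 * A := by
      linear_combination -2 * h3
    exact_mod_cast this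
  apply aa_ne i j hne
  rw [h5]
  exact Int.mul_emod_right 3 A

theorem Sp3_eq : Sp 3 Oo = Set.range (fun i => lm (pq (aa i)) Oo) := by
  ext J
  constructor
  · intro h
    obtain ⟨i, hi⟩ := cls3 h
    exact ⟨i, hi.symm⟩
  · rintro ⟨i, rfl⟩
    exact pq_mem_Sp p3 (aa_norm i)

/-- the Hecke operator at three at a pair `(Oo, n Oo)` -/
theorem T3_gen {k : ℕ} {F : Fun3} (hF : Form0 17 k F) {n : Fin 3 → ℤ}
    (hn : n 0 ^ 2 + n 1 ^ 2 + n 2 ^ 2 = ((17 : ℕ) : ℤ)) {t : Fin 4 → Fin 3 → ℤ}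
    (ht : ∀ i, t i 0 ^ 2 + t i 1 ^ 2 + t i 2 ^ 2 = ((17 : ℕ) : ℤ))
    (hr : ∀ i, ∃ h ∈ Hur, pq n * (pq (aa i) * pq (t i)) = ((17 : ℕ) : ℍ[ℚ]) * h) :
    TL 17 3 p3 F Oo (lm (pq n) Oo) =
      ∑ i, lsub (rC (pq (aa i))) (F Oo (lm (pq (t i)) Oo)) := by
  have hpair := pair_pq p17 hn
  rw [TL_apply p3 hpair, Sp3_eq, finsum_mem_range (fun i j h => aa_inj h), finsum_eq_sum_of_fintype]
  apply Finset.sum_congr rfl
  intro i _
  have hJ : lm (pq (aa i)) Oo ∈ Sp 3 Oo := pq_mem_Sp p3 (aa_norm i)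
  have hai := pq_ne (by norm_num) (aa_norm i)
  have h1 := pair_inf (by norm_num) (by norm_num) (by norm_num) hpair hJ
  have h2 := (isPair_iff.1 h1).2
  rw [Sp_lm hai] at h2
  obtain ⟨K, hK, e⟩ := h2
  obtain ⟨β, hβ, hnβ, rfl⟩ := (mem_Sp_Oo p17).1 hK
  have h3 : lm (pq (t i)) Oo = lm β Oo := by
    apply lm_eq_of_le
    · rw [← normSq_ne_zero, hnβ]; norm_num
    · rw [← lm_le hai, e]
      apply le_inf
      · rw [lm_le hai]
        intro x hx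
        obtain ⟨y, hy, rfl⟩ := mem_lm.1 hx
        exact Hur.mul_mem (pq_mem _) hy
      · intro x hx
        rw [lm_lm] at hx
        obtain ⟨y, hy, rfl⟩ := mem_lm.1 hx
        have := mem_of_mul (by norm_num) hn (hr i)
        exact hpair.snd.mul_mem _ this y hy
    · rw [hnβ, normSq_pq, ht i]; norm_num
  rw [← e, ← h3, hF.left _ hai]

end Pool.Agent.Helper725_HQ
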