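import Pool.Agent.Helper725_HQ.SDefs
import Pool.Agent.Helper725_HQ.Cls2

/-! Pairs for the supercuspidal level structure at two. -/

set_option autoImplicit false
set_option linter.unusedSimpArgs false
set_option linter.unnecessarySeqFocus false

namespace Pool.Agent.Helper725_HQ

open Quaternion MvPolynomial

/-- the conjugate of `1 + i` -/
def epc : ℍ[ℚ] := mk4 1 (-1) 0 0

theorem two_coe : ((2 : ℕ) : ℍ[ℚ]) = mk4 2 0 0 0 := by
  have h : ((2 : ℕ) : ℍ[ℚ]) = ((2 : ℚ) : ℍ[ℚ]) := by norm_cast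
  rw [h]
  rfl

theorem ep_epc : ep * epc = ((2 : ℕ) : ℍ[ℚ]) := by
  rw [two_coe]
  apply ext4
  · simp [ep, epc, re_mul, imI_mul, imJ_mul, imK_mul]; norm_num
  · simp [ep, epc, re_mul, imI_mul, imJ_mul, imK_mul]
  · simp [ep, epc, re_mul, imI_mul, imJ_mul, imK_mul]
  · simp [ep, epc, re_mul, imI_mul, imJ_mul, imK_mul]

theorem epc_ep : epc * ep = ((2 : ℕ) : ℍ[ℚ]) := by
  rw [two_coe]
  apply ext4
  · simp [ep, epc, re_mul, imI_mul, imJ_mul, imK_mul]; norm_num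
  · simp [ep, epc, re_mul, imI_mul, imJ_mul, imK_mul]
  · simp [ep, epc, re_mul, imI_mul, imJ_mul, imK_mul]
  · simp [ep, epc, re_mul, imI_mul, imJ_mul, imK_mul]

theorem epc_mem : epc ∈ Hur := by
  have := int_mem 1 (-1) 0 0
  simpa [epc] using this

section
variable {I I' J J' : AddSubgroup ℍ[ℚ]}

theorem two_mem (hI : IsRI I) {y : ℍ[ℚ]} (hy : y ∈ I) : ((2 : ℕ) : ℍ[ℚ]) * y ∈ rm ep I := by
  refine mem_rm.2 ⟨y * epc, hI.mul_mem y hy _ epc_mem, ?_⟩
  rw [mul_assoc, epc_ep, natCast_comm]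

theorem rm_ep_le (hI : IsRI I) : rm ep I ≤ I := by
  intro x hx
  obtain ⟨y, hy, rfl⟩ := mem_rm.1 hx
  exact hI.mul_mem y hy _ ep_mem

theorem rm_mono {β : ℍ[ℚ]} (h : I ≤ J) : rm β I ≤ rm β J := by
  intro x hx
  obtain ⟨y, hy, rfl⟩ := mem_rm.1 hx
  exact mem_rm.2 ⟨y, h hy, rfl⟩

theorem lt_of_mk (h : rm (mk4 1 1 0 0) I < I') : rm ep I < I' := h

theorem rm_ep_inf {p : ℕ} (hp : p.Coprime 2) (hJ : J ∈ Sp p I) :
    J ⊓ rm ep I = rm ep J := by
  obtain ⟨h1, h2, h3⟩ := hJ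
  apply le_antisymm
  · rintro x ⟨hx1, hx2⟩
    obtain ⟨y, hy, rfl⟩ := mem_rm.1 hx2
    refine mem_rm.2 ⟨y, ?_, rfl⟩
    refine cop_mem hp (h2.le (mul_mem_lm hy)) ?_
    have h4 := h1.mul_mem _ hx1 _ epc_mem
    rw [mul_assoc, ep_epc, ← natCast_comm] at h4
    exact h4
  · refine le_inf (rm_ep_le h1) (rm_mono h3.le)

theorem pair4_inf {p : ℕ} (hp : p.Coprime 2) (hI : IsPair4 I I') (hJ : J ∈ Sp p I) :
    IsPair4 J (J ⊓ I') := by
  have hri := hI.fst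
  have hl := hI.lt₁
  obtain ⟨h1, h2, h3⟩ := hJ
  refine ⟨h1, lt_of_le_not_ge (le_inf (rm_ep_le h1) ((rm_mono h3.le).trans hl.le)) ?_,
    lt_of_le_not_ge inf_le_left ?_⟩
  · intro hle
    apply hl.not_ge
    intro y hy
    have hyI := hI.lt₂.le hy
    refine cop_mem hp ?_ (two_mem hri hyI)
    have h4 : (p : ℍ[ℚ]) * y ∈ J ⊓ I' := by
      refine ⟨h2.le (mul_mem_lm hyI), ?_⟩
      rw [← nsmul_eq_mul]
      exact I'.nsmul_mem hy p
    exact rm_mono h3.le (hle h4)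
  · intro hle
    apply hI.lt₂.not_ge
    intro x hx
    exact cop_mem hp (hle (h2.le (mul_mem_lm hx))).2 (hl.le (two_mem hri hx))

theorem sup_inf4 {p : ℕ} (hp : p.Coprime 2) (hJ : J ∈ Sp p I)
    (hJ' : IsPair4 J J') : J ⊓ (J' ⊔ rm ep I) = J' := by
  apply le_antisymm
  · rintro x ⟨hx1, hx2⟩
    obtain ⟨a, ha, b, hb, rfl⟩ := AddSubgroup.mem_sup.1 hx2
    refine J'.add_mem ha ?_
    have h4 : b ∈ J := by
      have := J.sub_mem hx1 (hJ'.lt₂.le ha)
      rwa [add_sub_cancel_left] at this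
    have h5 : b ∈ J ⊓ rm ep I := ⟨h4, hb⟩
    rw [rm_ep_inf hp hJ] at h5
    exact hJ'.lt₁.le h5
  · exact le_inf hJ'.lt₂.le le_sup_left

theorem pair4_sup {p : ℕ} (hp : p.Coprime 2) (hI : IsRI I) (hJ : J ∈ Sp p I)
    (hJ' : IsPair4 J J') : IsPair4 I (J' ⊔ rm ep I) := by
  have hsi := sup_inf4 hp hJ hJ'
  refine ⟨hI, lt_of_le_not_ge le_sup_right ?_, lt_of_le_not_ge
    (sup_le (hJ'.lt₂.le.trans hJ.2.2.le) (rm_ep_le hI)) ?_⟩
  · intro hle
    have h4 : J' ⊔ rm ep I = rm ep I := le_antisymm hle le_sup_right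
    rw [h4, rm_ep_inf hp hJ] at hsi
    exact hJ'.lt₁.ne hsi
  · intro hle
    have h4 : J' ⊔ rm ep I = I :=
      le_antisymm (sup_le (hJ'.lt₂.le.trans hJ.2.2.le) (rm_ep_le hI)) hle
    rw [h4, inf_eq_left.2 hJ.2.2.le] at hsi
    exact hJ'.lt₂.ne hsi.symm

theorem inf_sup4 {p : ℕ} (hp : p.Coprime 2) (hI : IsPair4 I I') (hJ : J ∈ Sp p I) :
    (J ⊓ I') ⊔ rm ep I = I' := by
  apply le_antisymm
  · exact sup_le inf_le_right hI.lt₁.le
  · intro y hy
    obtain ⟨u, v, huv⟩ := bez hp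
    rw [← huv y]
    have hyI := hI.lt₂.le hy
    refine AddSubgroup.add_mem _ (AddSubgroup.mem_sup_left (AddSubgroup.zsmul_mem _ ?_ u))
      (AddSubgroup.mem_sup_right (AddSubgroup.zsmul_mem _ (two_mem hI.fst hyI) v))
    refine ⟨hJ.2.1.le (mul_mem_lm hyI), ?_⟩
    rw [← nsmul_eq_mul]
    exact I'.nsmul_mem hy p

theorem pair4_lm {α : ℍ[ℚ]} (hα : α ≠ 0) : IsPair4 (lm α I) (lm α I') ↔ IsPair4 I I' := by
  constructor
  · rintro ⟨h1, h2, h3⟩
    refine ⟨(lm_isRI_iff hα).1 h1, ?_, (lm_lt hα).1 h3⟩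
    rw [← lm_rm, lm_lt hα] at h2
    exact h2
  · rintro ⟨h1, h2, h3⟩
    refine ⟨(lm_isRI_iff hα).2 h1, ?_, (lm_lt hα).2 h3⟩
    rw [← lm_rm, lm_lt hα]
    exact h2

theorem pair4_rm : IsPair4 (rm ep I) (rm ep I') ↔ IsPair4 I I' := by
  constructor
  · rintro ⟨h1, h2, h3⟩
    exact ⟨rm_isRI_iff.1 h1, (rm_lt ep_ne).1 h2, (rm_lt ep_ne).1 h3⟩
  · rintro ⟨h1, h2, h3⟩
    exact ⟨rm_isRI_iff.2 h1, (rm_lt ep_ne).2 h2, (rm_lt ep_ne).2 h3⟩

end

/-- the quaternions with integral coordinates -/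
def Lip : AddSubgroup ℍ[ℚ] where
  carrier := {x | ∃ a b c d : ℤ, x = mk4 a b c d}
  zero_mem' := ⟨0, 0, 0, 0, by apply ext4 <;> simp⟩
  add_mem' := by
    rintro x y ⟨a, b, c, d, rfl⟩ ⟨a', b', c', d', rfl⟩
    refine ⟨a + a', b + b', c + c', d + d', ?_⟩
    apply ext4 <;> simp
  neg_mem' := by
    rintro x ⟨a, b, c, d, rfl⟩
    refine ⟨-a, -b, -c, -d, ?_⟩
    apply ext4 <;> simp

theorem mem_Lip {x : ℍ[ℚ]} : x ∈ Lip ↔ ∃ a b c d : ℤ, x = mk4 a b c d := Iff.rfl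

theorem Lip_mul {x y : ℍ[ℚ]} (hx : x ∈ Lip) (hy : y ∈ Lip) : x * y ∈ Lip := by
  obtain ⟨a, b, c, d, rfl⟩ := hx
  obtain ⟨a', b', c', d', rfl⟩ := hy
  refine ⟨a * a' - b * b' - c * c' - d * d', a * b' + b * a' + c * d' - d * c',
    a * c' - b * d' + c * a' + d * b', a * d' + b * c' - c * b' + d * a', ?_⟩
  apply ext4 <;> simp [re_mul, imI_mul, imJ_mul, imK_mul]

theorem one_Lip : (1 : ℍ[ℚ]) ∈ Lip := ⟨1, 0, 0, 0, by apply ext4 <;> simp⟩

theorem Lip_le : Lip ≤ Oo := by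
  rintro x ⟨a, b, c, d, rfl⟩
  exact int_mem a b c d

theorem pq_Lip (v : Fin 3 → ℤ) : pq v ∈ Lip := ⟨0, v 0, v 1, v 2, by
  apply ext4 <;> simp [pq]⟩

theorem mem_P {x : ℍ[ℚ]} : x ∈ rm ep Oo ↔ ∃ a b c d : ℤ, x = mk4 a b c d ∧
    (a + b + c + d) % 2 = 0 := by
  constructor
  · intro h
    obtain ⟨y, ⟨a, b, c, d, h1, h2, h3, h4⟩, rfl⟩ := mem_rm.1 h
    refine ⟨-b, a + b, a + c + d, d - c, ?_, by omega⟩
    apply ext4
    · rw [re_mul]; simp [ep_re, ep_imI, ep_imJ, ep_imK, h1, h2, h3, h4]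
    · rw [imI_mul]; simp [ep_re, ep_imI, ep_imJ, ep_imK, h1, h2, h3, h4]; ring
    · rw [imJ_mul]; simp [ep_re, ep_imI, ep_imJ, ep_imK, h1, h2, h3, h4]; ring
    · rw [imK_mul]; simp [ep_re, ep_imI, ep_imJ, ep_imK, h1, h2, h3, h4]; ring
  · rintro ⟨a, b, c, d, rfl, h⟩
    obtain ⟨m, hm⟩ : ∃ m : ℤ, a + b + c + d = 2 * m := ⟨(a + b + c + d) / 2, by omega⟩
    have hm' : (a : ℚ) + b + c + d = 2 * m := by exact_mod_cast hm
    refine mem_rm.2 ⟨mk4 ((a + b) / 2) ((b - a) / 2) ((c - d) / 2) ((d + c) / 2), ?_, ?_⟩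
    · refine ⟨a + b, -a, m - a - b - d, m - a - b, ?_, ?_, ?_, ?_⟩
      · simp
      · simp; ring
      · simp; linear_combination (1 / 2 : ℚ) * hm'
      · simp; linear_combination (1 / 2 : ℚ) * hm'
    · apply ext4 <;> simp [re_mul, imI_mul, imJ_mul, imK_mul, ep_re, ep_imI, ep_imJ, ep_imK] <;> ring

/-- a unit of order six -/
def om : ℍ[ℚ] := mk4 (1 / 2) (1 / 2) (1 / 2) (1 / 2)

/-- its square -/
def om2 : ℍ[ℚ] := mk4 (-1 / 2) (1 / 2) (1 / 2) (1 / 2)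

theorem om_mul : om * om = om2 := by
  apply ext4 <;> simp [om, om2, re_mul, imI_mul, imJ_mul, imK_mul] <;> norm_num

theorem om_mem : om ∈ Hur := ⟨1, 0, 0, 0, by simp [om], by simp [om], by simp [om], by simp [om]⟩

theorem om_norm : normSq om = 1 := by
  rw [normSq_def']; simp [om]; norm_num

theorem om2_mem : om2 ∈ Hur := by rw [← om_mul]; exact Hur.mul_mem om_mem om_mem

theorem om2_norm : normSq om2 = 1 := by rw [← om_mul, map_mul, om_norm, mul_one]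

theorem om_ne : om ≠ 0 := by
  rw [← normSq_ne_zero, om_norm]; norm_num

theorem om2_ne : om2 ≠ 0 := by
  rw [← normSq_ne_zero, om2_norm]; norm_num

theorem om2_eq : om2 = om - 1 := by
  apply ext4 <;> simp [om, om2]; norm_num

/-- the four classes modulo the prime above two -/
theorem hur_cases {x : ℍ[ℚ]} (hx : x ∈ Hur) : x ∈ rm ep Oo ∨ x - 1 ∈ rm ep Oo ∨
    x - om ∈ rm ep Oo ∨ x - om2 ∈ rm ep Oo := by
  obtain ⟨a, b, c, d, h1, h2, h3, h4⟩ := hx
  simp only [mem_P]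
  have ha : a % 2 = 0 ∨ a % 2 = 1 := by omega
  have hs : (b + c + d) % 2 = 0 ∨ (b + c + d) % 2 = 1 := by omega
  rcases ha with ha | ha
  · obtain ⟨m, rfl⟩ : ∃ m, a = 2 * m := ⟨a / 2, by omega⟩
    rcases hs with hs | hs
    · left
      refine ⟨m, m + b, m + c, m + d, ?_, by omega⟩
      apply ext4 <;> simp [h1, h2, h3, h4]
    · right; left
      refine ⟨m - 1, m + b, m + c, m + d, ?_, by omega⟩
      apply ext4 <;> simp [h1, h2, h3, h4]
  · obtain ⟨m, rfl⟩ : ∃ m, a = 2 * m + 1 := ⟨a / 2, by omega⟩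
    rcases hs with hs | hs
    · right; right; left
      refine ⟨m, m + b, m + c, m + d, ?_, by omega⟩
      apply ext4 <;> simp [h1, h2, h3, h4, om] <;> ring
    · right; right; right
      refine ⟨m + 1, m + b, m + c, m + d, ?_, by omega⟩
      apply ext4 <;> simp [h1, h2, h3, h4, om2] <;> ring

theorem one_notMem_P : (1 : ℍ[ℚ]) ∉ rm ep Oo := by
  intro h
  obtain ⟨a, b, c, d, e, h⟩ := mem_P.1 h
  have e1 := congrArg QuaternionAlgebra.re e
  have e2 := congrArg QuaternionAlgebra.imI e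
  have e3 := congrArg QuaternionAlgebra.imJ e
  have e4 := congrArg QuaternionAlgebra.imK e
  simp at e1 e2 e3 e4
  have f1 : a = 1 := by exact_mod_cast e1.symm
  have f2 : b = 0 := by exact_mod_cast e2.symm
  have f3 : c = 0 := by exact_mod_cast e3.symm
  have f4 : d = 0 := by exact_mod_cast e4.symm
  omega

theorem om_notMem : om ∉ Lip := by
  rintro ⟨a, b, c, d, e⟩
  have e1 := congrArg QuaternionAlgebra.re e
  simp [om] at e1
  have : (1 : ℤ) = 2 * a := by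
    have : (1 : ℚ) = 2 * a := by linear_combination 2 * e1
    exact_mod_cast this
  omega

theorem om2_notMem : om2 ∉ Lip := by
  rw [om2_eq]
  intro h
  apply om_notMem
  have := Lip.add_mem h one_Lip
  rwa [sub_add_cancel] at this

theorem P_le_Lip : rm ep Oo ≤ Lip := by
  intro x hx
  obtain ⟨a, b, c, d, e, _⟩ := mem_P.1 hx
  exact ⟨a, b, c, d, e⟩

theorem pair4_Lip : IsPair4 Oo Lip := by
  refine ⟨Oo_isRI, lt_of_le_not_ge P_le_Lip ?_, lt_of_le_not_ge Lip_le ?_⟩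
  · intro h
    exact one_notMem_P (h one_Lip)
  · intro h
    exact om_notMem (h om_mem)

theorem pair4_Oo {I' : AddSubgroup ℍ[ℚ]} (h : IsPair4 Oo I') (h1 : (1 : ℍ[ℚ]) ∈ I') : I' = Lip := by
  have hno : om ∉ I' := by
    intro h2
    apply h.lt₂.not_ge
    intro x hx
    have hP : ∀ y, y ∈ rm ep Oo → y ∈ I' := fun y hy => h.lt₁.le hy
    rcases hur_cases hx with h3 | h3 | h3 | h3
    · exact hP _ h3
    · have := I'.add_mem (hP _ h3) h1
      rwa [sub_add_cancel] at this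
    · have := I'.add_mem (hP _ h3) h2
      rwa [sub_add_cancel] at this
    · have h4 : om2 ∈ I' := by rw [om2_eq]; exact I'.sub_mem h2 h1
      have := I'.add_mem (hP _ h3) h4
      rwa [sub_add_cancel] at this
  apply le_antisymm
  · intro x hx
    have hxO : x ∈ Hur := h.lt₂.le hx
    have hP : ∀ y, y ∈ rm ep Oo → y ∈ I' := fun y hy => h.lt₁.le hy
    rcases hur_cases hxO with h3 | h3 | h3 | h3
    · exact P_le_Lip h3
    · have := Lip.add_mem (P_le_Lip h3) one_Lip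
      rwa [sub_add_cancel] at this
    · exfalso
      apply hno
      have := I'.sub_mem hx (hP _ h3)
      rwa [sub_sub_cancel] at this
    · exfalso
      apply hno
      have h4 := I'.sub_mem hx (hP _ h3)
      rw [sub_sub_cancel, om2_eq] at h4
      have := I'.add_mem h4 h1
      rwa [sub_add_cancel] at this
  · intro x hx
    have hP : ∀ y, y ∈ rm ep Oo → y ∈ I' := fun y hy => h.lt₁.le hy
    obtain ⟨a, b, c, d, rfl⟩ := hx
    have hs : (a + b + c + d) % 2 = 0 ∨ (a + b + c + d) % 2 = 1 := by omega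
    rcases hs with hs | hs
    · exact hP _ (mem_P.2 ⟨a, b, c, d, rfl, hs⟩)
    · have h3 : mk4 a b c d - 1 ∈ rm ep Oo := by
        refine mem_P.2 ⟨a - 1, b, c, d, ?_, by omega⟩
        apply ext4 <;> simp
      have := I'.add_mem (hP _ h3) h1
      rwa [sub_add_cancel] at this

/-- the classification of the pairs of the order -/
theorem pair4_three {I' : AddSubgroup ℍ[ℚ]} (h : IsPair4 Oo I') :
    I' = Lip ∨ I' = lm om Lip ∨ I' = lm om2 Lip := by
  have hP : ∀ y, y ∈ rm ep Oo → y ∈ I' := fun y hy => h.lt₁.le hy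
  obtain ⟨x, hx, hxP⟩ := Set.exists_of_ssubset h.lt₁
  have hxO : x ∈ Hur := h.lt₂.le hx
  have key : ∀ u : ℍ[ℚ], u ∈ Hur → normSq u = 1 → u ≠ 0 → u ∈ I' → I' = lm u Lip := by
    intro u hu hn hu0 hm
    have h2 : IsPair4 Oo (lm u⁻¹ I') := by
      have : lm u⁻¹ Oo = Oo := by
        rw [inv_unit hn]
        exact mem_of_unit (star_mem hu) (by rw [normSq_star, hn])
      rw [← this]
      exact (pair4_lm (inv_ne_zero hu0)).2 h
    have h3 := pair4_Oo h2 (mem_lm.2 ⟨u, hm, inv_mul_cancel₀ hu0⟩)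
    rw [← h3, lm_lm_inv hu0]
  rcases hur_cases hxO with h3 | h3 | h3 | h3
  · exact absurd h3 hxP
  · left
    apply pair4_Oo h
    have := I'.sub_mem hx (hP _ h3)
    rwa [sub_sub_cancel] at this
  · right; left
    apply key om om_mem om_norm om_ne
    have := I'.sub_mem hx (hP _ h3)
    rwa [sub_sub_cancel] at this
  · right; right
    apply key om2 om2_mem om2_norm om2_ne
    have := I'.sub_mem hx (hP _ h3)
    rwa [sub_sub_cancel] at this

/-- every pair is equivalent to the standard one -/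
theorem pair4_class {I I' : AddSubgroup ℍ[ℚ]} (h : IsPair4 I I') :
    ∃ β : ℍ[ℚ], β ≠ 0 ∧ I = lm β Oo ∧ I' = lm β Lip := by
  obtain ⟨α, hα, rfl⟩ := principal h.fst
  have h1 : IsPair4 Oo (lm α⁻¹ I') := by
    rw [← pair4_lm hα, lm_lm_inv hα]
    exact h
  have h2 : I' = lm α (lm α⁻¹ I') := (lm_lm_inv hα I').symm
  rcases pair4_three h1 with h3 | h3 | h3
  · exact ⟨α, hα, rfl, by rw [h2, h3]⟩
  · refine ⟨α * om, mul_ne_zero hα om_ne, ?_, ?_⟩
    · rw [← lm_lm, mem_of_unit om_mem om_norm]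
    · rw [h2, h3, lm_lm]
  · refine ⟨α * om2, mul_ne_zero hα om2_ne, ?_, ?_⟩
    · rw [← lm_lm, mem_of_unit om2_mem om2_norm]
    · rw [h2, h3, lm_lm]

theorem pair4_set : {I' : AddSubgroup ℍ[ℚ] | IsPair4 Oo I'} = {Lip, lm om Lip, lm om2 Lip} := by
  ext I'
  constructor
  · intro h
    exact pair4_three h
  · rintro (rfl | rfl | rfl)
    · exact pair4_Lip
    · have := (pair4_lm om_ne).2 pair4_Lip
      rwa [mem_of_unit om_mem om_norm] at this
    · have := (pair4_lm om2_ne).2 pair4_Lip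
      rwa [mem_of_unit om2_mem om2_norm] at this

theorem Lip_ne1 : Lip ≠ lm om Lip := by
  intro h
  apply om_notMem
  rw [h]
  exact mem_lm.2 ⟨1, one_Lip, mul_one _⟩

theorem Lip_ne2 : Lip ≠ lm om2 Lip := by
  intro h
  apply om2_notMem
  rw [h]
  exact mem_lm.2 ⟨1, one_Lip, mul_one _⟩

theorem Lip_ne3 : lm om Lip ≠ lm om2 Lip := by
  rw [← om_mul, ← lm_lm]
  intro h
  exact Lip_ne1 (lm_injective om_ne h)

theorem pairs4_finite {I : AddSubgroup ℍ[ℚ]} (hI : IsRI I) :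
    {I' : AddSubgroup ℍ[ℚ] | IsPair4 I I'}.Finite := by
  obtain ⟨α, hα, rfl⟩ := principal hI
  have : {I' : AddSubgroup ℍ[ℚ] | IsPair4 (lm α Oo) I'} = lm α '' {I' | IsPair4 Oo I'} := by
    ext I'
    constructor
    · intro h
      refine ⟨lm α⁻¹ I', ?_, lm_lm_inv hα I'⟩
      show IsPair4 Oo (lm α⁻¹ I')
      rw [← pair4_lm hα, lm_lm_inv hα]
      exact h
    · rintro ⟨J, hJ, rfl⟩
      exact (pair4_lm hα).2 hJ
  rw [this, pair4_set]
  exact (Set.toFinite _).image _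

/-- the stabilizer of the standard pair -/
theorem stab_Lip {α β : ℍ[ℚ]} (hα : α ≠ 0) (h : lm α Oo = lm β Oo) (h' : lm α Lip = lm β Lip) :
    ∃ a b c d : ℤ, a ^ 2 + b ^ 2 + c ^ 2 + d ^ 2 = 1 ∧ β = α * mk4 a b c d := by
  obtain ⟨u, hu, hn, rfl⟩ := unit_of_eq hα h
  have h1 : α * u ∈ lm α Lip := by
    rw [h']
    exact mem_lm.2 ⟨1, one_Lip, by rw [mul_one]⟩
  obtain ⟨v, ⟨a, b, c, d, rfl⟩, e⟩ := mem_lm.1 h1
  have h2 := mul_left_cancel₀ hα e
  refine ⟨a, b, c, d, ?_, by rw [h2]⟩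
  rw [← h2, normSq_def'] at hn
  simp only [mk4_re, mk4_imI, mk4_imJ, mk4_imK] at hn
  exact_mod_cast hn

end Pool.Agent.Helper725_HQ
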