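import Pool.Agent.Helper725_HQ.BVal
import Pool.Agent.Helper725_HQ.SPair

/-! The right ideals of norm thirteen. -/

set_option autoImplicit false
set_option linter.unusedVariables false
set_option linter.unusedSimpArgs false

namespace Pool.Agent.Helper725_HQ

open Quaternion MvPolynomial

/-- elements congruent to a scalar -/
def qa (a : ℤ) (v : Fin 3 → ℤ) : ℍ[ℚ] := mk4 a (3 * v 0) (3 * v 1) (3 * v 2)

theorem qa_norm (a : ℤ) (v : Fin 3 → ℤ) : normSq (qa a v) =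
    ((a ^ 2 + 9 * (v 0 ^ 2 + v 1 ^ 2 + v 2 ^ 2) : ℤ) : ℚ) := by
  rw [normSq_def']
  simp [qa]
  ring

theorem qa_one (v : Fin 3 → ℤ) : qa 1 v = qv v := by
  unfold qa qv
  rw [Int.cast_one]

theorem GO_qa {a : ℤ} (ha : ¬ (3 : ℤ) ∣ a) (v : Fin 3 → ℤ) : GO (qa a v) := by
  have := GO_int (a := a) (b := 3 * v 0) (c := 3 * v 1) (d := 3 * v 2) (by
    have e : a ^ 2 + (3 * v 0) ^ 2 + (3 * v 1) ^ 2 + (3 * v 2) ^ 2 = a ^ 2 + 3 * (3 * (v 0 ^ 2 +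
      v 1 ^ 2 + v 2 ^ 2)) := by ring
    rw [e]
    intro h
    apply ha
    apply Int.prime_three.dvd_of_dvd_pow (n := 2)
    exact (dvd_add_left (Dvd.intro _ rfl)).1 h)
  unfold qa
  push_cast at this
  exact this

/-- the integral action -/
def acta (a : ℤ) (v x : Fin 3 → ℤ) (i : Fin 3) : ℤ :=
  ∑ j, rotZ a (3 * v 0) (3 * v 1) (3 * v 2) i j * x j

theorem acta_one (v x : Fin 3 → ℤ) : acta 1 v x = act v x := rfl

theorem pq_acta (a : ℤ) (v x : Fin 3 → ℤ) : pq (acta a v x) = star (qa a v) * pq x * qa a v := by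
  unfold pq acta qa
  apply ext4
  · simp [re_mul, imI_mul, imJ_mul, imK_mul]; ring
  · simp [re_mul, imI_mul, imJ_mul, imK_mul, Fin.sum_univ_three, rotZ]; ring
  · simp [re_mul, imI_mul, imJ_mul, imK_mul, Fin.sum_univ_three, rotZ]; ring
  · simp [re_mul, imI_mul, imJ_mul, imK_mul, Fin.sum_univ_three, rotZ]; ring

theorem rot_lsuba {a : ℤ} {v : Fin 3 → ℤ} {N : ℤ}
    (hN : a ^ 2 + 9 * (v 0 ^ 2 + v 1 ^ 2 + v 2 ^ 2) = N)
    (hN0 : N ≠ 0) {k : ℕ} {P : MvPolynomial (Fin 3) ℂ} (hP : P.IsHomogeneous k)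
    (x : Fin 3 → ℤ) :
    (N : ℂ) ^ k * vl (lsub (rC (qa a v)) P) x = vl P (acta a v x) := by
  have h1 : C ((N : ℂ) ^ k) * lsub (rC (qa a v)) P =
      lsub (fun i j => ((rotZ a (3 * v 0) (3 * v 1) (3 * v 2) i j : ℤ) : ℂ)) P := by
    rw [← lsub_smul hP]
    apply lsub_congr
    intro i j
    have h2 := rmat_rotZ (a := a) (b := 3 * v 0) (c := 3 * v 1) (d := 3 * v 2) (N := N)
      (by rw [← hN]; ring) hN0 i j
    have h3 : ((rotZ a (3 * v 0) (3 * v 1) (3 * v 2) i j : ℤ) : ℂ) =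
        (((rotZ a (3 * v 0) (3 * v 1) (3 * v 2) i j : ℤ) : ℚ) : ℂ) := by
      rw [Rat.cast_intCast]
    rw [h3, ← h2]
    unfold rC qa
    push_cast
    rfl
  have h2 := congrArg (eval (fun i => ((x i : ℤ) : ℂ))) h1
  rw [map_mul, eval_C] at h2
  unfold vl
  rw [h2, eval_lsub]
  congr 1
  apply congrArg
  funext i
  unfold acta
  push_cast
  rfl

/-- the doubles of the generators of the ideals of norm thirteen -/
def c13 : Fin 14 → Fin 4 → ℤ := ![![4, 6, 0, 0], ![4, -6, 0, 0], ![4, 0, 6, 0], ![4, 0, -6, 0],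
  ![4, 0, 0, 6], ![4, 0, 0, -6], ![5, 3, 3, 3], ![5, -3, -3, -3], ![5, 3, 3, -3], ![5, -3, -3, 3],
  ![5, 3, -3, 3], ![5, -3, 3, -3], ![5, 3, -3, -3], ![5, -3, 3, 3]]

/-- the generators of the ideals of norm thirteen -/
def q13 (i : Fin 14) : ℍ[ℚ] := mk4 (c13 i 0 / 2) (c13 i 1 / 2) (c13 i 2 / 2) (c13 i 3 / 2)

theorem c13_norm : ∀ i, c13 i 0 ^ 2 + c13 i 1 ^ 2 + c13 i 2 ^ 2 + c13 i 3 ^ 2 = 52 := by decide

theorem c13_sep : ∀ i j, i ≠ j → ¬ (52 : ℤ) ∣ (c13 j 0 - c13 i 0) ^ 2 + (c13 j 1 - c13 i 1) ^ 2 +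
    (c13 j 2 - c13 i 2) ^ 2 + (c13 j 3 - c13 i 3) ^ 2 := by decide

theorem c13_par : ∀ i, (c13 i 1 - c13 i 0) % 2 = 0 ∧ (c13 i 2 - c13 i 0) % 2 = 0 ∧
    (c13 i 3 - c13 i 0) % 2 = 0 := by decide

theorem q13_norm (i : Fin 14) : normSq (q13 i) = ((13 : ℕ) : ℚ) := by
  have h : ((c13 i 0 ^ 2 + c13 i 1 ^ 2 + c13 i 2 ^ 2 + c13 i 3 ^ 2 : ℤ) : ℚ) = ((52 : ℤ) : ℚ) := by
    rw [c13_norm]
  push_cast at h
  rw [normSq_def']
  simp only [q13, mk4_re, mk4_imI, mk4_imJ, mk4_imK]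
  push_cast
  linear_combination h / 4

theorem q13_ne (i : Fin 14) : q13 i ≠ 0 := by
  rw [← normSq_ne_zero, q13_norm]; norm_num

theorem q13_mem (i : Fin 14) : q13 i ∈ Hur := by
  obtain ⟨h1, h2, h3⟩ := c13_par i
  obtain ⟨b, hb⟩ : ∃ b, c13 i 1 = c13 i 0 + 2 * b := ⟨(c13 i 1 - c13 i 0) / 2, by omega⟩
  obtain ⟨c, hc⟩ : ∃ b, c13 i 2 = c13 i 0 + 2 * b := ⟨(c13 i 2 - c13 i 0) / 2, by omega⟩
  obtain ⟨d, hd⟩ : ∃ b, c13 i 3 = c13 i 0 + 2 * b := ⟨(c13 i 3 - c13 i 0) / 2, by omega⟩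
  refine ⟨c13 i 0, b, c, d, ?_, ?_, ?_, ?_⟩
  · simp [q13]
  · simp [q13, hb]; ring
  · simp [q13, hc]; ring
  · simp [q13, hd]; ring

theorem c5_all {b c d : ℤ} (h : b ^ 2 + c ^ 2 + d ^ 2 = 1) :
    ∃ i, c13 i = ![4, 6 * b, 6 * c, 6 * d] := by
  have hb := sq_nonneg b
  have hc := sq_nonneg c
  have hd := sq_nonneg d
  have b1 : -1 ≤ b := by nlinarith
  have b2 : b ≤ 1 := by nlinarith
  have c1 : -1 ≤ c := by nlinarith
  have c2 : c ≤ 1 := by nlinarith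
  have d1 : -1 ≤ d := by nlinarith
  have d2 : d ≤ 1 := by nlinarith
  interval_cases b <;> interval_cases c <;> interval_cases d <;> first
    | (exfalso; norm_num at h; done)
    | exact ⟨0, rfl⟩
    | exact ⟨1, rfl⟩
    | exact ⟨2, rfl⟩
    | exact ⟨3, rfl⟩
    | exact ⟨4, rfl⟩
    | exact ⟨5, rfl⟩

theorem c7_all {b c d : ℤ} (hb : b ^ 2 = 1) (hc : c ^ 2 = 1) (hd : d ^ 2 = 1) :
    ∃ i, c13 i = ![5, 3 * b, 3 * c, 3 * d] := by
  rcases sq1 hb with rfl | rfl <;> rcases sq1 hc with rfl | rfl <;> rcases sq1 hd with rfl | rfl <;>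
    first
    | exact ⟨6, rfl⟩
    | exact ⟨7, rfl⟩
    | exact ⟨8, rfl⟩
    | exact ⟨9, rfl⟩
    | exact ⟨10, rfl⟩
    | exact ⟨11, rfl⟩
    | exact ⟨12, rfl⟩
    | exact ⟨13, rfl⟩

theorem cls13 {J : AddSubgroup ℍ[ℚ]} (h : J ∈ Sp 13 Oo) : ∃ i, J = lm (q13 i) Oo := by
  obtain ⟨β, hβ, hn, rfl⟩ := (mem_Sp_Oo (by norm_num)).1 h
  obtain ⟨v, hv, hv1, z, hz, hxz⟩ := mod3 hβ hn (by norm_num)
  obtain ⟨a, b, c, d, rfl⟩ := exists_hq hz
  have hN : normSq ((1 : ℍ[ℚ]) + (3 : ℚ) • hq a b c d) = ((13 : ℕ) : ℚ) := by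
    rw [← hxz, map_mul, hn, hv1, mul_one]
  have hN2 := one_add_norm hN
  have s1 := sq_nonneg (a + 2 * b)
  have s2 := sq_nonneg (a + 2 * c)
  have s3 := sq_nonneg (a + 2 * d)
  have a1 : -3 ≤ a := by
    by_contra hcon
    have : (2 + 3 * a) ≤ -10 := by omega
    push_cast at hN2
    nlinarith
  have a2 : a ≤ 1 := by
    by_contra hcon
    have : 8 ≤ (2 + 3 * a) := by omega
    push_cast at hN2
    nlinarith
  have ha : a = -2 ∨ a = 1 := by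
    have h9 : (52 - (2 + 3 * a) ^ 2) % 9 = 0 := by
      push_cast at hN2
      omega
    interval_cases a
    · norm_num at h9
    · left; rfl
    · norm_num at h9
    · norm_num at h9
    · right; rfl
  rcases ha with rfl | rfl
  · have h3 : (-(b - 1)) ^ 2 + (-(c - 1)) ^ 2 + (-(d - 1)) ^ 2 = 1 := by
      have h36 : 36 * ((-(b - 1)) ^ 2 + (-(c - 1)) ^ 2 + (-(d - 1)) ^ 2) = 36 := by
        push_cast at hN2
        linear_combination hN2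
      omega
    obtain ⟨i, hi⟩ := c5_all h3
    refine ⟨i, ?_⟩
    have e1 : q13 i = β * (-v) := by
      rw [mul_neg, hxz, one_add]
      unfold q13
      rw [hi]
      apply ext4
      · simp; norm_num
      · simp; ring
      · simp; ring
      · simp; ring
    rw [e1, ← lm_lm, mem_of_unit (Hur.neg_mem hv) (by rw [normSq_neg, hv1])]
  · have h3 : (1 + 2 * b) ^ 2 + (1 + 2 * c) ^ 2 + (1 + 2 * d) ^ 2 = 3 := by
      push_cast at hN2
      omega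
    have pos : ∀ t : ℤ, 1 ≤ (1 + 2 * t) ^ 2 := by
      intro t
      have h1 : t ≤ -1 ∨ 0 ≤ t := by omega
      rcases h1 with h1 | h1
      · nlinarith
      · nlinarith
    have p1 := pos b
    have p2 := pos c
    have p3 := pos d
    obtain ⟨i, hi⟩ := c7_all (b := 1 + 2 * b) (c := 1 + 2 * c) (d := 1 + 2 * d)
      (by omega) (by omega) (by omega)
    refine ⟨i, ?_⟩
    have e1 : q13 i = β * v := by
      rw [hxz, one_add]
      unfold q13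
      rw [hi]
      apply ext4
      · simp; norm_num
      · simp
      · simp
      · simp
    rw [e1, ← lm_lm, mem_of_unit hv hv1]

theorem inj13 {i j : Fin 14} (h : lm (q13 i) Oo = lm (q13 j) Oo) : i = j := by
  by_contra hne
  obtain ⟨u, hu, hu1, he⟩ := unit_of_eq (q13_ne i) h
  have e2 : q13 j - q13 i = q13 i * (u - 1) := by
    rw [mul_sub, mul_one, ← he]
  obtain ⟨n, hn⟩ := normSq_nat (Hur.sub_mem hu Hur.one_mem)
  have e3 := congrArg normSq e2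
  rw [map_mul, q13_norm, hn, normSq_def'] at e3
  simp only [q13, re_sub, imI_sub, imJ_sub, imK_sub, mk4_re, mk4_imI, mk4_imJ, mk4_imK] at e3
  apply c13_sep i j hne
  refine ⟨n, ?_⟩
  have e4 : ((c13 j 0 - c13 i 0) ^ 2 + (c13 j 1 - c13 i 1) ^ 2 +
    (c13 j 2 - c13 i 2) ^ 2 + (c13 j 3 - c13 i 3) ^ 2 : ℚ) = 52 * n := by
    push_cast at e3
    linear_combination 4 * e3
  exact_mod_cast e4

theorem Sp13_eq : Sp 13 Oo = Set.range (fun i => lm (q13 i) Oo) := by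
  ext J
  constructor
  · intro h
    obtain ⟨i, hi⟩ := cls13 h
    exact ⟨i, hi.symm⟩
  · rintro ⟨i, rfl⟩
    exact (mem_Sp_Oo (by norm_num)).2 ⟨_, q13_mem i, q13_norm i, rfl⟩

/-- the three groups -/
theorem pair4_unit {I' : AddSubgroup ℍ[ℚ]} (h : IsPair4 Oo I') {u : ℍ[ℚ]} (hu : u ∈ Hur)
    (hn : normSq u = 1) (hm : u ∈ I') : I' = lm u Lip := by
  have hu0 : u ≠ 0 := by
    rw [← normSq_ne_zero, hn]; norm_num
  have h2 : IsPair4 Oo (lm u⁻¹ I') := by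
    have : lm u⁻¹ Oo = Oo := by
      rw [inv_unit hn]
      exact mem_of_unit (star_mem hu) (by rw [normSq_star, hn])
    rw [← this]
    exact (pair4_lm (inv_ne_zero hu0)).2 h
  have h3 := pair4_Oo h2 (mem_lm.2 ⟨u, hm, inv_mul_cancel₀ hu0⟩)
  rw [← h3, lm_lm_inv hu0]

theorem inf_unit {p : ℕ} (hp : p.Coprime 2) {α : ℍ[ℚ]} (hα : α ≠ 0) (hJ : lm α Oo ∈ Sp p Oo)
    {w : ℍ[ℚ]} (hw : w ∈ Hur) (hn : normSq w = 1) (h : α * w ∈ Lip) :
    lm α Oo ⊓ Lip = lm α (lm w Lip) := by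
  have h1 := pair4_inf hp pair4_Lip hJ
  have h2 : IsPair4 Oo (lm α⁻¹ (lm α Oo ⊓ Lip)) := by
    rw [← pair4_lm hα, lm_lm_inv hα]
    exact h1
  have h3 : w ∈ lm α⁻¹ (lm α Oo ⊓ Lip) :=
    mem_lm.2 ⟨α * w, ⟨mul_mem_lm hw, h⟩, by rw [← mul_assoc, inv_mul_cancel₀ hα, one_mul]⟩
  rw [← pair4_unit h2 hw hn h3, lm_lm_inv hα]

end Pool.Agent.Helper725_HQ
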