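import Pool.Agent.Helper725_HQ.SPer

/-! Simultaneous nonvanishing of the periods of all eigenforms of slope one which are
supercuspidal of conductor four at two. -/

set_option autoImplicit false
set_option linter.unusedSimpArgs false
set_option linter.unnecessarySeqFocus false

namespace Pool.Agent.Helper725_HQ

open Quaternion MvPolynomial NumberField
open scoped nonZeroDivisors

theorem form4_of_isForm4 {k : ℕ} {F : AddSubgroup ℍ[ℚ] → AddSubgroup ℍ[ℚ] → MvPolynomial (Fin 3) ℂ}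
    (h : IsForm4 k F) : Form4 k F := by
  refine ⟨h.supp, h.hom, fun α hα I I' => ?_, fun I I' => ?_, h.tr⟩
  · by_cases hI : IsPair4 I I'
    · apply eq_of_ev
      intro x
      rw [ev_lsub hα]
      have h1 := h.left α hα I I' hI (α⁻¹ * x * α)
      have h2 : α * (α⁻¹ * x * α) * α⁻¹ = x := by
        rw [← mul_assoc, ← mul_assoc, mul_inv_cancel₀ hα, one_mul, mul_assoc, mul_inv_cancel₀ hα,
          mul_one]
      rw [h2] at h1
      exact h1
    · rw [h.supp I I' hI, h.supp _ _ (fun h' => hI ((pair4_lm hα).1 h')), map_zero]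
  · by_cases hI : IsPair4 I I'
    · exact h.two I I' hI
    · rw [h.supp I I' hI, h.supp _ _ (fun h' => hI (pair4_rm.1 h'))]

theorem TL4_of_hecke {p : ℕ} (hp : p.Prime) {k : ℕ}
    {F : AddSubgroup ℍ[ℚ] → AddSubgroup ℍ[ℚ] → MvPolynomial (Fin 3) ℂ} (h : IsForm4 k F) {lam : ℂ}
    (he : ∀ I I', IsPair4 I I' → hecke p F I I' = lam • F I I') : TL4 p hp F = lam • F := by
  funext I I'
  by_cases hI : IsPair4 I I'
  · rw [TL4_apply hp hI]
    exact he I I' hI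
  · rw [TL4_apply' hp hI, Pi.smul_apply, Pi.smul_apply, h.supp I I' hI, smul_zero]

theorem exists_slopeOne4 {k : ℕ} (hk : Even k) (hk3 : k % 3 ≠ 0) : ∃ F, SlopeOne4 k F := by
  have hk0 : k ≠ 0 := by
    rintro rfl
    exact hk3 rfl
  obtain ⟨V, hV, w, hw, G, hG, hG0, hharm, hhecke, lam, he, hlw⟩ := exists_eig4 hk hk0 hk3
  have key : ∀ (p : ℕ) (hp : p.Prime) (μ : ℂ), TL4 p hp G = μ • G →
      ∀ I I', IsPair4 I I' → hecke p G I I' = μ • G I I' := by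
    intro p hp μ hμ I I' hI
    have h1 := congrFun (congrFun hμ I) I'
    rw [TL4_apply hp hI] at h1
    exact h1
  refine ⟨G, ⟨hG.supp, hG.hom, hharm, ?_, fun I I' _ => hG.two I I', hG.tr⟩, ?_, ?_, V,
    val_of_thr hV, lam, key 3 p3 lam he, ?_⟩
  · intro α hα I I' _ x
    rw [hG.left α hα, ev_lsub hα, ← mul_assoc, ← mul_assoc, inv_mul_cancel₀ hα, one_mul,
      mul_assoc, inv_mul_cancel₀ hα, mul_one]
  · by_contra h
    apply hG0
    funext I I'
    by_contra h2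
    exact h ⟨I, I', h2⟩
  · intro p hp hp2
    obtain ⟨μ, hμ⟩ := hhecke p hp hp2
    exact ⟨μ, key p hp μ hμ⟩
  · rw [hlw, map_mul, val_one hw, mul_one]

theorem sq_three_m {d : ℕ} (h : d % 9 = 3) : IsSquare (-(d : ℚ_[3]) * (-3)) := by
  have h1 := Pool.Agent.Helper725_DH.isSquare_odd (p := 3) (by norm_num) (1 : ℤ_[3])
    ((((d / 9 : ℕ) : ℤ)) : ℤ_[3]) (by simp)
  have h2 : IsSquare (((3 : ℚ_[3])) ^ 2) := ⟨3, by ring⟩
  have h3 := h1.mul h2
  have e : (((1 : ℤ_[3]) ^ 2 + ((3 : ℕ) : ℤ_[3]) * ((((d / 9 : ℕ) : ℤ)) : ℤ_[3]) : ℤ_[3]) : ℚ_[3]) *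
      (3 : ℚ_[3]) ^ 2 = -(d : ℚ_[3]) * (-3) := by
    have h5 : (d : ℚ_[3]) = 3 + 9 * ((d / 9 : ℕ) : ℚ_[3]) := by
      have : d = 3 + 9 * (d / 9) := by omega
      exact_mod_cast congrArg (Nat.cast : ℕ → ℚ_[3]) this
    generalize ((d / 9 : ℕ)) = m at h5 ⊢
    rw [h5]
    push_cast
    have h6 : ((3 : ℤ_[3]) : ℚ_[3]) = 3 := rfl
    rw [h6]
    ring
  rw [e] at h3
  exact h3

theorem sq_two_m {d : ℕ} (h : d % 8 = 3) : IsSquare (-(d : ℚ_[2]) * (-3)) := by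
  have h1 := Pool.Agent.Helper725_DH.isSquare_two ((1 + 3 * (d / 8 : ℕ) : ℕ) : ℤ_[2])
  have e : ((1 + 8 * ((1 + 3 * (d / 8 : ℕ) : ℕ) : ℤ_[2]) : ℤ_[2]) : ℚ_[2]) = -(d : ℚ_[2]) * (-3) := by
    have h5 : (d : ℚ_[2]) = 3 + 8 * ((d / 8 : ℕ) : ℚ_[2]) := by
      have : d = 3 + 8 * (d / 8) := by omega
      exact_mod_cast congrArg (Nat.cast : ℕ → ℚ_[2]) this
    generalize ((d / 8 : ℕ)) = m at h5 ⊢
    rw [h5]
    push_cast
    have h6 : ((8 : ℤ_[2]) : ℚ_[2]) = 8 := rfl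
    have h7 : ((3 : ℤ_[2]) : ℚ_[2]) = 3 := rfl
    rw [h6, h7]
    ring
  rw [e] at h1
  exact h1

theorem not_sq_three_m : ¬ IsSquare ((-3 : ℚ_[3]) * 1) := by
  rintro ⟨t, ht⟩
  rw [mul_one] at ht
  have h3 : (3 : ℚ_[3]) = ((3 : ℕ) : ℚ_[3]) := by norm_num
  have ht0 : t ≠ 0 := by
    rintro rfl
    rw [mul_zero, neg_eq_zero, h3] at ht
    have : ((3 : ℕ) : ℚ_[3]) ≠ 0 := by norm_num
    exact this ht
  have hm : Padic.valuation (-1 : ℚ_[3]) = 0 := by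
    have h5 : (-1 : ℚ_[3]) ≠ 0 := by norm_num
    have h6 := Padic.valuation_mul h5 h5
    rw [neg_mul_neg, one_mul, Padic.valuation_one] at h6
    omega
  have h1 := congrArg Padic.valuation ht
  have h4 : (-3 : ℚ_[3]) = (-1) * ((3 : ℕ) : ℚ_[3]) := by norm_num
  rw [Padic.valuation_mul ht0 ht0, h4, Padic.valuation_mul (by norm_num) (by norm_num), hm,
    Padic.valuation_p] at h1
  omega

/-- transfer of squares -/
theorem sq_transfer {L : Type*} [Field L] {D a b : L} (hD : D ≠ 0) (h1 : IsSquare (D * a))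
    (h2 : IsSquare (D * b)) : IsSquare (a * b) := by
  have h7 : IsSquare ((D⁻¹) ^ 2) := ⟨D⁻¹, by ring⟩
  have h8 := (h1.mul h2).mul h7
  have e : D * a * (D * b) * (D⁻¹) ^ 2 = a * b := by
    field_simp
  rwa [e] at h8

/-- simultaneous nonvanishing -/
theorem many4U (T : Finset ℕ) (hT : ∀ p ∈ T, p.Prime)
    (δ : ∀ (p : ℕ) [Fact p.Prime], ℚ_[p]) (hδ0 : ∀ (p : ℕ) [Fact p.Prime], δ p ≠ 0)
    (hδ2 : ¬ IsSquare (δ 2)) (hδ2' : ¬ IsSquare (-3 * δ 2)) (hδ3 : 3 ∈ T → ¬ IsSquare (-3 * δ 3)) :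
    ∃ c : ℝ, 0 < c ∧ ∃ x₀ : ℝ, ∀ x : ℝ, x₀ ≤ x → ∃ S : Finset (IntermediateField ℚ ℂ),
      c * x ≤ (S.card : ℝ) ∧ ∀ E ∈ S, ∃ _ : NumberField E, Module.finrank ℚ E = 2 ∧
        |(discr E : ℝ)| < x ∧ (∀ p ∈ T, ∀ [Fact p.Prime], Loc p (δ p) E) ∧
        ∀ k : ℕ, Even k → k ≠ 0 → ∀ F, SlopeOne4 k F → NonvanPer4 F E := by
  classical
  obtain ⟨δ₃, h30, h31, h32⟩ : ∃ δ₃ : ℚ_[3], δ₃ ≠ 0 ∧ ¬ IsSquare (-3 * δ₃) ∧
      (3 ∈ T → δ₃ = δ 3) := by
    by_cases h : 3 ∈ T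
    · exact ⟨δ 3, hδ0 3, hδ3 h, fun _ => rfl⟩
    · exact ⟨1, one_ne_zero, not_sq_three_m, fun h' => absurd h' h⟩
  obtain ⟨c', hc', x₀, hx₀⟩ := Pool.Agent.Helper725_DH.fields_manyU (hδ0 2) hδ2 h30
    (T.filter (fun p => 5 ≤ p)) (fun p hp => ⟨hT p (Finset.mem_filter.1 hp).1,
      (Finset.mem_filter.1 hp).2⟩) δ (fun p _ _ => hδ0 p)
  refine ⟨c', hc', x₀, ?_⟩
  intro x hx
  obtain ⟨S, hS, hSd⟩ := hx₀ x hx
  refine ⟨S.image Ed, ?_, ?_⟩
  · rw [Finset.card_image_of_injOn]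
    · exact hS
    · intro d hd d' hd' h
      obtain ⟨a1, a2, _⟩ := hSd d hd
      obtain ⟨b1, b2, _⟩ := hSd d' hd'
      exact Ed_inj a1 a2 b1 b2 h
  · intro E hE
    obtain ⟨d, hd, rfl⟩ := Finset.mem_image.1 hE
    obtain ⟨a1, a3, a4, a5, a6, a7, a8⟩ := hSd d hd
    have hd0 : 0 < d := by omega
    have hns : ¬ IsSquare (-(d : ℚ)) := by
      rintro ⟨q, hq⟩
      exact Pool.Agent.Helper725_DH.IQ.not_sq hd0 q (by rw [hq]; ring)
    have h9 : ¬ 9 ∣ d := by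
      intro h
      have := a1 3 (by norm_num; exact h)
      rw [Nat.isUnit_iff] at this
      omega
    have hd2 : -(d : ℚ_[2]) ≠ 0 := by
      rw [neg_ne_zero]; exact_mod_cast hd0.ne'
    have hd3 : -(d : ℚ_[3]) ≠ 0 := by
      rw [neg_ne_zero]; exact_mod_cast hd0.ne'
    have h8 : d % 4 = 1 ∨ d % 4 = 2 := by
      rcases a3 with h | h
      · exact absurd (sq_transfer hd2 (sq_two_m h) a5) hδ2'
      · exact h
    have hgood : d % 3 ≠ 0 ∨ d % 9 = 6 := by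
      by_cases h3 : d % 3 = 0
      · right
        by_cases h6 : d % 9 = 3
        · exact absurd (sq_transfer hd3 (sq_three_m h6) a6) h31
        · omega
      · exact Or.inl h3
    refine ⟨inferInstance, Ed_rank hd0, ?_, ?_, ?_⟩
    · rw [Ed_discr a1 a3]
      split_ifs at a4 ⊢ with h
      · push_cast
        rw [abs_neg, abs_of_nonneg (by positivity)]
        exact a4
      · push_cast
        rw [abs_neg, abs_of_nonneg (by positivity)]
        exact a4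
    · intro p hp hpf
      refine ⟨-(d : ℚ), xd d, ?_, hns, ?_⟩
      · rw [xd_sq]; push_cast; rfl
      · push_cast
        by_cases h5 : 5 ≤ p
        · exact a7 p (Finset.mem_filter.2 ⟨hp, h5⟩)
        · have h6 := (hT p hp).two_le
          have h7 : p ≠ 4 := by
            rintro rfl
            exact absurd (hT 4 hp) (by norm_num)
          have h8 : p = 2 ∨ p = 3 := by omega
          rcases h8 with rfl | rfl
          · exact a5
          · rw [h32 hp] at a6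
            exact a6
    · intro k hk hk0 G hG
      obtain ⟨V, hV3, lam, hlam, hval⟩ := hG.slope
      have hV := thr_of_val hV3
      have h3v : V.valuation 3 ≠ 0 := by
        rw [Valuation.ne_zero_iff]; norm_num
      obtain ⟨w, hw, hw'⟩ : ∃ w : V, (w : ℂ) = 3 ^ k * lam / 3 ∧ rs V w ≠ 0 := by
        apply unit_of_val
        rw [map_div₀, hval, div_self h3v]
      have hlw : (3 : ℂ) ^ k * lam = 3 * (w : ℂ) := by
        rw [hw]; ring
      have hF := form4_of_isForm4 hG.form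
      have hF0 : G ≠ 0 := by
        rintro rfl
        obtain ⟨I, I', hI⟩ := hG.ne_zero
        exact hI rfl
      have he := TL4_of_hecke p3 hG.form hlam
      obtain ⟨c, hc, r, hr, H⟩ := slope_val4 hV hk hk0 hF hF0 he hw' hlw h9 hgood
      exact nonvan_one4 hV hF hr H a1 h8 (Ed_rank hd0) (xd_sq d)
        (a8 (Ed d) (Ed_rank hd0) ⟨xd d, xd_sq d⟩)

end Pool.Agent.Helper725_HQ
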