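import Pool.Agent.Helper725_HQ.CRed2

/-! Constancy of the reductions of the values of an eigenform of conductor four. -/

set_option autoImplicit false
set_option linter.unusedVariables false
set_option linter.unusedSimpArgs false

namespace Pool.Agent.Helper725_HQ

open Quaternion MvPolynomial

theorem actc_X3 {c : Fin 4 → ℤ} {N : ℤ} (hN : c 0 ^ 2 + c 1 ^ 2 + c 2 ^ 2 + c 3 ^ 2 = N)
    (hN3 : N % 3 = 1) {x : Fin 3 → ℤ} (hx : x ∈ X3) : actc c x ∈ X3 := by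
  have h1 := congrArg normSq (pq_actc c x)
  rw [map_mul, map_mul, normSq_star, qc_norm, normSq_pq, normSq_pq, hN] at h1
  have h2 : actc c x 0 ^ 2 + actc c x 1 ^ 2 + actc c x 2 ^ 2 =
      N * (x 0 ^ 2 + x 1 ^ 2 + x 2 ^ 2) * N := by exact_mod_cast h1
  show actc c x 0 ^ 2 + actc c x 1 ^ 2 + actc c x 2 ^ 2 ≡ 1 [ZMOD 3]
  rw [h2]
  have h3 : N ≡ 1 [ZMOD 3] := hN3
  have h4 : x 0 ^ 2 + x 1 ^ 2 + x 2 ^ 2 ≡ 1 [ZMOD 3] := hx
  exact ((h3.mul h4).mul h3).trans (by decide)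

theorem act_X3 (v : Fin 3 → ℤ) {x : Fin 3 → ℤ} (hx : x ∈ X3) : act v x ∈ X3 := by
  have h := actc_X3 (c := tc 1 v) (N := 1 + 9 * (v 0 ^ 2 + v 1 ^ 2 + v 2 ^ 2)) (by
    show (1 : ℤ) ^ 2 + (3 * v 0) ^ 2 + (3 * v 1) ^ 2 + (3 * v 2) ^ 2 = _
    ring) (by omega) hx
  exact h

section
variable {n k : ℕ} {F : AddSubgroup ℍ[ℚ] → AddSubgroup ℍ[ℚ] → ℍ[ℚ] → MvPolynomial (Fin 3) ℂ}

theorem form4N_ne (hF : IsForm4N n k F) (h : ∃ I I' u, F I I' u ≠ 0) :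
    ∃ u, GO u ∧ F Oo Lip u ≠ 0 := by
  obtain ⟨I, I', u, h⟩ := h
  have h1 : IsPair4 I I' ∧ Gen3 I u := by
    by_contra h1
    exact h (hF.supp I I' u h1)
  obtain ⟨hI, hu⟩ := h1
  obtain ⟨α, hα, rfl, rfl⟩ := pair4_class hI
  have e : α * (α⁻¹ * u) = u := by rw [← mul_assoc, mul_inv_cancel₀ hα, one_mul]
  rw [← e] at hu h
  have hu' := (gen_lm_iff hα).1 hu
  refine ⟨α⁻¹ * u, gen_iff.1 hu', ?_⟩
  intro h0
  apply h
  rw [form4N_left hF hα pair4_Lip hu', h0, map_zero]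

/-- constancy of the reductions of the values of an eigenform -/
theorem all_val4N {V : ValuationSubring ℂ} (hV : Thr V) (hF : IsForm4N n k F)
    (hF0 : ∃ I I' u, F I I' u ≠ 0) {l5 l7 l13 : ℂ}
    (h5 : ∀ I I' u, IsPair4 I I' → Gen3 I u → hecke4N 5 F I I' u = l5 • F I I' u)
    (h7 : ∀ I I' u, IsPair4 I I' → Gen3 I u → hecke4N 7 F I I' u = l7 • F I I' u)
    (h13 : ∀ I I' u, IsPair4 I I' → Gen3 I u → hecke4N 13 F I I' u = l13 • F I I' u) :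
    ∃ c : ℂ, ∃ r : kap V, r ≠ 0 ∧
      ∀ x : Fin 3 → ℤ, (x 0 ^ 2 + x 1 ^ 2 + x 2 ^ 2) % 3 = 1 →
        ∃ v : V, c * gv n (F Oo Lip) x = (v : ℂ) ∧ rs V v = r := by
  have hf := form4N_fu hF
  obtain ⟨Q, hQ⟩ := gv_poly hf
  have ad : ∀ x ∈ X3, ∃ u, Ad n x u := fun x hx => Ad_all n hx
  have hne : ∃ x ∈ X3, gv n (F Oo Lip) x ≠ 0 := by
    obtain ⟨u, hu, hu0⟩ := form4N_ne hF hF0
    obtain ⟨y, hy, hy3⟩ := exists_vecu (n := n) hu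
    obtain ⟨z, hz, hz0⟩ := vl_coset hu0 y (n + 1)
    have hz1 : gv n (F Oo Lip) z ≠ 0 := by
      rw [gv_loc hf hy (fun i => dvd_trans (by
        rw [pow_succ]; push_cast; exact Dvd.intro _ rfl) (hz i))]
      exact hz0
    have hz3 : (z 0 ^ 2 + z 1 ^ 2 + z 2 ^ 2) % 3 = 1 := by
      have key : ∀ i, z i ^ 2 ≡ y i ^ 2 [ZMOD 3] := by
        intro i
        apply Int.ModEq.pow
        rw [Int.modEq_comm, Int.modEq_iff_dvd]
        exact dvd_trans (by push_cast; exact dvd_pow_self 3 (by omega)) (hz i)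
      have hy3' : y 0 ^ 2 + y 1 ^ 2 + y 2 ^ 2 ≡ 1 [ZMOD 3] := hy3
      exact (((key 0).add (key 1)).add (key 2)).trans hy3'
    exact ⟨z, hz3, hz1⟩
  obtain ⟨g, hg⟩ : ∃ g, g = gv n (F Oo Lip) := ⟨_, rfl⟩
  rw [← hg]
  obtain ⟨c, hcV, ⟨x₀, hx₀, v₀, hv₀, hv₀ne⟩, N', hper⟩ :=
    perg (X := X3) (g := g) hV (fun x hx => by rw [hg]; exact hQ x (ad x hx)) (by rw [hg]; exact hne)
  obtain ⟨N, hN⟩ : ∃ N, N = N' + 1 := ⟨_, rfl⟩
  rw [← hN] at hper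
  have hN1 : 1 ≤ N := by omega
  have R5 : ∀ x ∈ X3, ∑ i, g (cyi (s5 i) (act (v5 i) x)) = (10 : ℂ) ^ k * l5 * g x := by
    intro x hx
    obtain ⟨u, hu⟩ := ad x hx
    rw [hg]
    exact hk5 hF h5 hu
  have R7 : ∀ x ∈ X3, ∑ i, g (cyi (s7 i) (act (v7 i) x)) = (28 : ℂ) ^ k * l7 * g x := by
    intro x hx
    obtain ⟨u, hu⟩ := ad x hx
    rw [hg]
    exact hk7 hF h7 hu
  have R13 : ∀ x ∈ X3, ∑ i, g (cyi (s13 i) (actc (c13 i) x)) = (52 : ℂ) ^ k * l13 * g x := by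
    intro x hx
    obtain ⟨u, hu⟩ := ad x hx
    rw [hg]
    exact hk13 hF h13 hu
  have z5 : ∀ x ∈ X3, ∀ i, c * g (cyi (s5 i) (act (v5 i) x)) ∈ V := fun x hx i =>
    hcV _ (cyi_X3 _ (act_X3 _ hx))
  have z7 : ∀ x ∈ X3, ∀ i, c * g (cyi (s7 i) (act (v7 i) x)) ∈ V := fun x hx i =>
    hcV _ (cyi_X3 _ (act_X3 _ hx))
  have z13 : ∀ x ∈ X3, ∀ i, c * g (cyi (s13 i) (actc (c13 i) x)) ∈ V := fun x hx i =>
    hcV _ (cyi_X3 _ (actc_X3 (c13_norm i) (by norm_num) hx))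
  obtain ⟨m5, hm5⟩ := eig_int (z5 x₀ hx₀) hv₀ hv₀ne (R5 x₀ hx₀)
  obtain ⟨m7, hm7⟩ := eig_int (z7 x₀ hx₀) hv₀ hv₀ne (R7 x₀ hx₀)
  obtain ⟨m13, hm13⟩ := eig_int (z13 x₀ hx₀) hv₀ hv₀ne (R13 x₀ hx₀)
  have H : Hk N (gred V c g) (rs V m5) (rs V m7) (rs V m13) := by
    refine ⟨?_, ?_, ?_, ?_, ?_, ?_, ?_, ?_, ?_⟩
    · intro x hx y hy hxy
      rw [gred_pos (v := ⟨_, hcV x hx⟩) rfl, gred_pos (v := ⟨_, hcV y hy⟩) rfl]
      exact hper x hx y hy hxy _ _ rfl rfl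
    · intro x hx s hs
      refine gred_scal (k := k) hV (hcV x hx) hs (fun s hs' => ?_) (fun s hs' => ?_)
      · rw [hg]; exact gv_scal hf (ad x hx) hs'
      · rw [hg]
        obtain ⟨u, hu⟩ := ad x hx
        exact gv_neg hf ⟨u, Ad_scal hu hs'⟩
    · intro x hx
      apply gred_eq
      rw [hg]; exact gv_i hf (ad x hx)
    · intro x hx
      apply gred_eq
      rw [hg]; exact gv_j hf (ad x hx)
    · intro x hx
      apply gred_eq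
      rw [hg]; exact gv_q hf (ad x hx)
    · intro x hx
      rw [gred_pos (v := ⟨_, hcV x hx⟩) rfl, gred_pos (v := ⟨_, hcV _ (cyi_X3 1 hx)⟩) rfl,
        gred_pos (v := ⟨_, hcV _ (cyi_X3 2 hx)⟩) rfl, ← map_add, ← map_add, ← map_zero (rs V)]
      congr 1
      apply Subtype.ext
      show c * g x + c * g (cyi 1 x) + c * g (cyi 2 x) = 0
      have := gv_tr hF (ad x hx)
      rw [← hg] at this
      rw [← mul_add, ← mul_add, this, mul_zero]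
    · intro x hx
      exact gred_sum (z5 x hx) hm5 (hcV x hx) (R5 x hx)
    · intro x hx
      exact gred_sum (z7 x hx) hm7 (hcV x hx) (R7 x hx)
    · intro x hx
      exact gred_sum (z13 x hx) hm13 (hcV x hx) (R13 x hx)
  obtain ⟨r, hr⟩ := H.const (three_zero hV) hN1
  refine ⟨c, r, ?_, ?_⟩
  · rw [← hr x₀ hx₀, gred_pos hv₀]
    exact hv₀ne
  · intro x hx
    refine ⟨⟨_, hcV x hx⟩, rfl, ?_⟩
    rw [← hr x hx, gred_pos (v := ⟨_, hcV x hx⟩) rfl]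

end

end Pool.Agent.Helper725_HQ
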