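import Pool.Agent.Helper725_HQ.Vec

/-! Classification of right ideals of norm 3 and 17. -/

set_option autoImplicit false
set_option linter.unusedSimpArgs false
set_option linter.unnecessarySeqFocus false

namespace Pool.Agent.Helper725_HQ

open Quaternion MvPolynomial

/-- the first vector of norm 17 -/
def nA : Fin 3 → ℤ := ![1, 4, 0]

/-- the second vector of norm 17 -/
def nB : Fin 3 → ℤ := ![2, 2, 3]

/-- the four vectors of norm 3 -/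
def aa : Fin 4 → Fin 3 → ℤ := ![![1, 1, 1], ![-1, 1, 1], ![1, -1, 1], ![1, 1, -1]]

theorem nA_norm : nA 0 ^ 2 + nA 1 ^ 2 + nA 2 ^ 2 = ((17 : ℕ) : ℤ) := by decide
theorem nB_norm : nB 0 ^ 2 + nB 1 ^ 2 + nB 2 ^ 2 = ((17 : ℕ) : ℤ) := by decide
theorem aa_norm : ∀ i, aa i 0 ^ 2 + aa i 1 ^ 2 + aa i 2 ^ 2 = ((3 : ℕ) : ℤ) := by decide

/-- integral conditions for a quaternion to normalize the order -/
def good (a b c d : ℤ) : Prop := (a ^ 2 + b ^ 2 + c ^ 2 + d ^ 2 = 1) ∨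
    (a ^ 2 + b ^ 2 + c ^ 2 + d ^ 2 = 2 ∧ (a + b + c + d) % 2 = 0) ∨
    (a ^ 2 + b ^ 2 + c ^ 2 + d ^ 2 = 4 ∧ a % 2 = 1 ∧ b % 2 = 1 ∧ c % 2 = 1 ∧ d % 2 = 1)

instance (a b c d : ℤ) : Decidable (good a b c d) := by unfold good; infer_instance

/-- integral conditions for `m = s γ n γ⁻¹` -/
def edg (a b c d : ℤ) (s : ℤ) (m n : Fin 3 → ℤ) : Prop :=
  good a b c d ∧ (s = 1 ∨ s = -1) ∧
  m 0 * b + m 1 * c + m 2 * d = s * (b * n 0 + c * n 1 + d * n 2) ∧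
  a * m 0 + (m 1 * d - m 2 * c) = s * (a * n 0 + (c * n 2 - d * n 1)) ∧
  a * m 1 + (m 2 * b - m 0 * d) = s * (a * n 1 + (d * n 0 - b * n 2)) ∧
  a * m 2 + (m 0 * c - m 1 * b) = s * (a * n 2 + (b * n 1 - c * n 0))

instance (a b c d : ℤ) (s : ℤ) (m n : Fin 3 → ℤ) : Decidable (edg a b c d s m n) := by
  unfold edg; infer_instance

theorem edg_lm {a b c d s : ℤ} {m n : Fin 3 → ℤ} (h : edg a b c d s m n) :
    lm (pq m) Oo = lm (mk4 a b c d * pq n * (mk4 a b c d)⁻¹) Oo := by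
  obtain ⟨h0, h1, h2, h3, h4, h5⟩ := h
  have hg := gam_int a b c d h0
  have e : pq m = (s : ℚ) • (mk4 a b c d * pq n * (mk4 a b c d)⁻¹) := by
    have e1 : pq m * mk4 a b c d = (s : ℚ) • (mk4 a b c d * pq n) := by
      have q2 : (m 0 : ℚ) * b + m 1 * c + m 2 * d = s * (b * n 0 + c * n 1 + d * n 2) := by
        exact_mod_cast h2
      have q3 : (a : ℚ) * m 0 + (m 1 * d - m 2 * c) = s * (a * n 0 + (c * n 2 - d * n 1)) := by
        exact_mod_cast h3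
      have q4 : (a : ℚ) * m 1 + (m 2 * b - m 0 * d) = s * (a * n 1 + (d * n 0 - b * n 2)) := by
        exact_mod_cast h4
      have q5 : (a : ℚ) * m 2 + (m 0 * c - m 1 * b) = s * (a * n 2 + (b * n 1 - c * n 0)) := by
        exact_mod_cast h5
      apply ext4
      · simp [re_mul, pq]; linear_combination -q2
      · simp [imI_mul, pq]; linear_combination q3
      · simp [imJ_mul, pq]; linear_combination q4
      · simp [imK_mul, pq]; linear_combination q5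
    rw [← smul_mul_assoc, ← e1, mul_assoc, mul_inv_cancel₀ hg.ne, mul_one]
  rcases h1 with rfl | rfl
  · rw [e]; simp
  · rw [e]
    have : ((-1 : ℤ) : ℚ) • (mk4 a b c d * pq n * (mk4 a b c d)⁻¹) =
        -(mk4 a b c d * pq n * (mk4 a b c d)⁻¹) := by simp
    rw [this, lm_neg_Oo]

theorem edg_form {a b c d s : ℤ} {m n : Fin 3 → ℤ} (h : edg a b c d s m n) {q k : ℕ} {F : Fun3}
    (hF : Form0 q k F) : F Oo (lm (pq m) Oo) = lsub (rC (mk4 a b c d)) (F Oo (lm (pq n) Oo)) := by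
  rw [edg_lm h]
  exact (gam_int a b c d h.1).eqv hF _

/-- the table of isotropic lines modulo 17 -/
def tab : List ((Fin 3 → ℤ) × (Fin 4 → ℤ) × ℤ × (Fin 3 → ℤ)) := [
  (![-4, -1, 0], ![0, 1, -1, 0], 1, nA),
  (![-4, 0, -1], ![1, -1, -1, -1], -1, nA),
  (![-4, 0, 1], ![1, 1, -1, 1], 1, nA),
  (![-4, 1, 0], ![1, 0, 0, -1], -1, nA),
  (![-3, -2, -2], ![0, 1, 0, -1], 1, nB),
  (![-3, -2, 2], ![1, 0, 1, 0], -1, nB),
  (![-3, 2, -2], ![0, 1, 0, 1], -1, nB),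
  (![-3, 2, 2], ![1, -1, 1, -1], -1, nB),
  (![-2, -3, -2], ![0, 0, 1, -1], 1, nB),
  (![-2, -3, 2], ![1, -1, 0, 0], -1, nB),
  (![-2, -2, -3], ![0, 1, -1, 0], 1, nB),
  (![-2, -2, 3], ![0, 0, 0, 1], 1, nB),
  (![-2, 2, -3], ![0, 0, 1, 0], 1, nB),
  (![-2, 2, 3], ![0, 1, 0, 0], -1, nB),
  (![-2, 3, -2], ![1, -1, 1, 1], 1, nB),
  (![-2, 3, 2], ![0, 0, 1, 1], 1, nB),
  (![0, -4, -1], ![0, 1, 0, -1], 1, nA),
  (![0, -4, 1], ![0, 1, 0, 1], 1, nA)]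

theorem tab_ok : ∀ t ∈ tab, edg (t.2.1 0) (t.2.1 1) (t.2.1 2) (t.2.1 3) t.2.2.1 t.1 t.2.2.2 := by
  decide +kernel

theorem tab_norm : ∀ t ∈ tab, t.1 0 ^ 2 + t.1 1 ^ 2 + t.1 2 ^ 2 = ((17 : ℕ) : ℤ) := by
  decide +kernel

theorem tab_n : ∀ t ∈ tab, t.2.2.2 = nA ∨ t.2.2.2 = nB := by
  decide +kernel

set_option maxRecDepth 100000 in
theorem iso17 : ∀ x y z : Fin 17, (x.val * x.val + y.val * y.val + z.val * z.val) % 17 = 0 →
    (x.val ≠ 0 ∨ y.val ≠ 0 ∨ z.val ≠ 0) →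
    ∃ t ∈ tab, ∃ c : Fin 17, c.val ≠ 0 ∧ ((x.val : ℤ) - c.val * t.1 0) % 17 = 0 ∧
      ((y.val : ℤ) - c.val * t.1 1) % 17 = 0 ∧ ((z.val : ℤ) - c.val * t.1 2) % 17 = 0 := by
  decide +kernel

theorem iso3 : ∀ x y z : Fin 3, (x.val * x.val + y.val * y.val + z.val * z.val) % 3 = 0 →
    (x.val ≠ 0 ∨ y.val ≠ 0 ∨ z.val ≠ 0) →
    ∃ i : Fin 4, ∃ c : Fin 3, c.val ≠ 0 ∧ ((x.val : ℤ) - c.val * aa i 0) % 3 = 0 ∧
      ((y.val : ℤ) - c.val * aa i 1) % 3 = 0 ∧ ((z.val : ℤ) - c.val * aa i 2) % 3 = 0 := by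
  decide +kernel

end Pool.Agent.Helper725_HQ
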