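import Pool.Agent.Helper725_HQ.DDefs
import Pool.Agent.Helper725_HQ.CUni

/-! Simultaneous nonvanishing of the periods of all eigenforms of conductor two or four with a
level structure at three. -/

set_option autoImplicit false
set_option linter.unusedSimpArgs false
set_option linter.unnecessarySeqFocus false

namespace Pool.Agent.Helper725_HQ

open Quaternion MvPolynomial NumberField
open scoped nonZeroDivisors

theorem genAt3_iff {I : AddSubgroup ℍ[ℚ]} {u : ℍ[ℚ]} : GenAt3 I u ↔ Gen3 I u := Iff.rfl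

theorem pairC_two {I I' : AddSubgroup ℍ[ℚ]} : PairC 2 I I' ↔ IsRI I ∧ I' = I := by
  unfold PairC
  constructor
  · rintro ⟨h1, h2 | h2⟩
    · exact ⟨h1, h2.2⟩
    · omega
  · rintro ⟨h1, h2⟩
    exact ⟨h1, Or.inl ⟨rfl, h2⟩⟩

theorem pairC_four {I I' : AddSubgroup ℍ[ℚ]} : PairC 4 I I' ↔ IsPair4 I I' := by
  unfold PairC
  constructor
  · rintro ⟨h1, h2 | h2⟩
    · omega
    · exact ⟨h1, h2.2.1, h2.2.2⟩
  · rintro ⟨h1, h2, h3⟩
    exact ⟨h1, Or.inr ⟨rfl, h2, h3⟩⟩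

section
variable {n k : ℕ} {F : AddSubgroup ℍ[ℚ] → AddSubgroup ℍ[ℚ] → ℍ[ℚ] → MvPolynomial (Fin 3) ℂ}

theorem formC_two (hF : IsFormC 2 n k F) : IsFormN n k (fun I u => F I I u) := by
  have pr : ∀ {I : AddSubgroup ℍ[ℚ]}, IsRI I → PairC 2 I I := fun hI => pairC_two.2 ⟨hI, rfl⟩
  refine ⟨?_, fun I u => hF.hom _ _ _, fun I u => hF.harm _ _ _, ?_, ?_, ?_, ?_, ?_⟩
  · intro I u h
    apply hF.supp
    rintro ⟨h1, h2⟩
    exact h ⟨h1.1, h2⟩
  · intro α hα I u hI hu x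
    exact hF.left α hα I I u (pr hI) hu x
  · intro I u hI hu
    exact hF.two I I u (pr hI) hu
  · intro I u u' hI hu hu' h
    exact hF.lvl I I u u' (pr hI) hu hu' h
  · intro I u hI hu
    exact hF.tor I I u (pr hI) hu
  · intro I u hI hu
    exact hF.sgn I I u (pr hI) hu

theorem heckeC_two (p : ℕ) {I : AddSubgroup ℍ[ℚ]} {u : ℍ[ℚ]} :
    heckeN p (fun I u => F I I u) I u = heckeC p F I I u := by
  unfold heckeN heckeC
  apply finsum_mem_congr rfl
  intro J hJ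
  rw [inf_eq_left.2 hJ.2.2.le]

theorem formC_four (hF : IsFormC 4 n k F) : IsForm4N n k F := by
  refine ⟨?_, hF.hom, hF.harm, ?_, ?_, ?_, ?_, ?_, ?_⟩
  · intro I I' u h
    apply hF.supp
    rintro ⟨h1, h2⟩
    exact h ⟨pairC_four.1 h1, h2⟩
  · intro α hα I I' u hI hu x
    exact hF.left α hα I I' u (pairC_four.2 hI) hu x
  · intro I I' u hI hu
    exact hF.two I I' u (pairC_four.2 hI) hu
  · intro I I' u u' hI hu hu' h
    exact hF.lvl I I' u u' (pairC_four.2 hI) hu hu' h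
  · intro I I' u hI hu
    exact hF.tor I I' u (pairC_four.2 hI) hu
  · intro I I' u hI hu
    exact hF.sgn I I' u (pairC_four.2 hI) hu
  · intro I u hI
    have h := hF.tr rfl I u hI
    have e : {I' : AddSubgroup ℍ[ℚ] | PairC 4 I I'} = {I' | IsPair4 I I'} := by
      ext I'
      exact pairC_four
    rwa [e] at h

end

/-- simultaneous nonvanishing -/
theorem manyC (T : Finset ℕ) (hT : ∀ p ∈ T, p.Prime)
    (δ : ∀ (p : ℕ) [Fact p.Prime], ℚ_[p]) (hδ0 : ∀ (p : ℕ) [Fact p.Prime], δ p ≠ 0)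
    (hδ2 : ¬ IsSquare (δ 2)) (hδ3 : 3 ∈ T → IsSquare (-δ 3)) :
    ∃ c : ℝ, 0 < c ∧ ∃ x₀ : ℝ, ∀ x : ℝ, x₀ ≤ x → ∃ S : Finset (IntermediateField ℚ ℂ),
      c * x ≤ (S.card : ℝ) ∧ ∀ E ∈ S, ∃ _ : NumberField E, Module.finrank ℚ E = 2 ∧
        |(discr E : ℝ)| < x ∧ (∀ p ∈ T, ∀ [Fact p.Prime], Loc p (δ p) E) ∧
        ∀ c n k : ℕ, (c = 2 ∨ c = 4 ∧ ¬ IsSquare (-3 * δ 2)) →
          ∀ F : AddSubgroup ℍ[ℚ] → AddSubgroup ℍ[ℚ] → ℍ[ℚ] → MvPolynomial (Fin 3) ℂ,
          IsFormC c n k F → (∃ I I' u, F I I' u ≠ 0) →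
          (∀ p : ℕ, p = 5 ∨ p = 7 ∨ p = 13 → ∃ lam : ℂ, ∀ I I' u, PairC c I I' → GenAt3 I u →
            heckeC p F I I' u = lam • F I I' u) →
          NonvanPerC c n F E := by
  classical
  obtain ⟨c', hc', x₀, hx₀⟩ := Pool.Agent.Helper725_DH.fields_manyT (hδ0 2) hδ2
    (T.filter (fun p => 5 ≤ p)) (fun p hp => ⟨hT p (Finset.mem_filter.1 hp).1,
      (Finset.mem_filter.1 hp).2⟩) δ (fun p _ _ => hδ0 p)
  refine ⟨c', hc', x₀, ?_⟩
  intro x hx
  obtain ⟨S, hS, hSd⟩ := hx₀ x hx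
  refine ⟨S.image Ed, ?_, ?_⟩
  · rw [Finset.card_image_of_injOn]
    · exact hS
    · intro d hd d' hd' h
      obtain ⟨a1, _, a2, _⟩ := hSd d hd
      obtain ⟨b1, _, b2, _⟩ := hSd d' hd'
      exact Ed_inj a1 a2 b1 b2 h
  · intro E hE
    obtain ⟨d, hd, rfl⟩ := Finset.mem_image.1 hE
    obtain ⟨a1, a2, a3, a4, a5, a6, a8⟩ := hSd d hd
    have hd0 : 0 < d := by omega
    have hns : ¬ IsSquare (-(d : ℚ)) := by
      rintro ⟨q, hq⟩
      exact Pool.Agent.Helper725_DH.IQ.not_sq hd0 q (by rw [hq]; ring)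
    have hd2 : -(d : ℚ_[2]) ≠ 0 := by
      rw [neg_ne_zero]; exact_mod_cast hd0.ne'
    refine ⟨inferInstance, Ed_rank hd0, ?_, ?_, ?_⟩
    · rw [Ed_discr a1 a3]
      split_ifs at a4 ⊢ with h
      · push_cast
        rw [abs_neg, abs_of_nonneg (by positivity)]
        exact a4
      · push_cast
        rw [abs_neg, abs_of_nonneg (by positivity)]
        exact a4
    · intro p hp hpf
      refine ⟨-(d : ℚ), xd d, ?_, hns, ?_⟩
      · rw [xd_sq]; push_cast; rfl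
      · push_cast
        by_cases h5 : 5 ≤ p
        · exact a6 p (Finset.mem_filter.2 ⟨hp, h5⟩)
        · have h6 := (hT p hp).two_le
          have h7 : p ≠ 4 := by
            rintro rfl
            exact absurd (hT 4 hp) (by norm_num)
          have h8 : p = 2 ∨ p = 3 := by omega
          rcases h8 with rfl | rfl
          · exact a5
          · exact sq_one_mod a2 (hδ3 hp)
    · intro c n k hc F hF hF0 he
      obtain ⟨V, hV⟩ := exists_V
      obtain ⟨l5, h5⟩ := he 5 (Or.inl rfl)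
      obtain ⟨l7, h7⟩ := he 7 (Or.inr (Or.inl rfl))
      obtain ⟨l13, h13⟩ := he 13 (Or.inr (Or.inr rfl))
      rcases hc with rfl | ⟨rfl, hδ2'⟩
      · have hF' := formC_two hF
        have hF0' : ∃ I u, F I I u ≠ 0 := by
          obtain ⟨I, I', u, h⟩ := hF0
          have h1 : PairC 2 I I' ∧ GenAt3 I u := by
            by_contra h1
            exact h (hF.supp I I' u h1)
          rw [(pairC_two.1 h1.1).2] at h
          exact ⟨I, u, h⟩
        obtain ⟨c, r, hr, H⟩ := all_valN hV hF' hF0'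
          (fun I u hI hu => by
            rw [heckeC_two]
            exact h5 I I u (pairC_two.2 ⟨hI, rfl⟩) hu)
          (fun I u hI hu => by
            rw [heckeC_two]
            exact h7 I I u (pairC_two.2 ⟨hI, rfl⟩) hu)
        obtain ⟨ι, I, u, b1, b2, b3, s, b4, b5, b6, b7⟩ := nonvan_oneN hV hF' hr H a2 a1 a3
          (Ed_rank hd0) (xd_sq d) (a8 (Ed d) (Ed_rank hd0) ⟨xd d, xd_sq d⟩)
        exact ⟨ι, I, I, u, pairC_two.2 ⟨b1, rfl⟩, b2, b3, b3, s, b4, b5, b6, b7⟩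
      · have h8 : d % 4 = 1 ∨ d % 4 = 2 := by
          rcases a3 with h | h
          · exact absurd (sq_transfer hd2 (sq_two_m h) a5) hδ2'
          · exact h
        have hF' := formC_four hF
        obtain ⟨c, r, hr, H⟩ := all_val4N hV hF' hF0
          (fun I I' u hI hu => h5 I I' u (pairC_four.2 hI) hu)
          (fun I I' u hI hu => h7 I I' u (pairC_four.2 hI) hu)
          (fun I I' u hI hu => h13 I I' u (pairC_four.2 hI) hu)
        obtain ⟨ι, I, I', u, b1, b2, b3, b3', s, b4, b5, b6, b7⟩ := nonvan_one4N hV hF' hr H a2 a1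
          h8 (Ed_rank hd0) (xd_sq d) (a8 (Ed d) (Ed_rank hd0) ⟨xd d, xd_sq d⟩)
        exact ⟨ι, I, I', u, pairC_four.2 b1, b2, b3, b3', s, b4, b5, b6, b7⟩

end Pool.Agent.Helper725_HQ
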