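import Mathlib

/-! Algebraic modular forms on the Hamilton quaternions: definitions. -/

set_option autoImplicit false

namespace Pool.Agent.Helper725_HQ

open Quaternion NumberField MvPolynomial
open scoped nonZeroDivisors

/-- The Hurwitz order: the quaternions all of whose coordinates are integers or all of whose
coordinates are halves of odd integers. -/
def Hur : Subring ℍ[ℚ] where
  carrier := {x | ∃ a b c d : ℤ, x.re = a / 2 ∧ x.imI = a / 2 + b ∧ x.imJ = a / 2 + c ∧
    x.imK = a / 2 + d}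
  mul_mem' := by
    rintro x y ⟨a, b, c, d, h1, h2, h3, h4⟩ ⟨a', b', c', d', h1', h2', h3', h4'⟩
    refine ⟨-(a * a') - a * b' - a' * b - 2 * b * b' - a * c' - a' * c - 2 * c * c' - a * d' -
      a' * d - 2 * d * d', a * a' + a * b' + b * a' + b * b' + a * d' + c * a' + c * d' + c * c' +
      d * d' - d * c' , a * a' + a * c' + c * a' + a * b' + d * a' + d * b' + b * b' + c * c' +
      d * d' - b * d', a * a' + a * d' + d * a' + a * c' + b * a' + b * c' + b * b' + c * c' +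
      d * d' - c * b', ?_, ?_, ?_, ?_⟩
    · rw [re_mul, h1, h2, h3, h4, h1', h2', h3', h4']; push_cast; ring
    · rw [imI_mul, h1, h2, h3, h4, h1', h2', h3', h4']; push_cast; ring
    · rw [imJ_mul, h1, h2, h3, h4, h1', h2', h3', h4']; push_cast; ring
    · rw [imK_mul, h1, h2, h3, h4, h1', h2', h3', h4']; push_cast; ring
  one_mem' := ⟨2, -1, -1, -1, by norm_num, by norm_num, by norm_num, by norm_num⟩
  add_mem' := by
    rintro x y ⟨a, b, c, d, h1, h2, h3, h4⟩ ⟨a', b', c', d', h1', h2', h3', h4'⟩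
    refine ⟨a + a', b + b', c + c', d + d', ?_, ?_, ?_, ?_⟩
    · rw [re_add, h1, h1']; push_cast; ring
    · rw [imI_add, h2, h2']; push_cast; ring
    · rw [imJ_add, h3, h3']; push_cast; ring
    · rw [imK_add, h4, h4']; push_cast; ring
  zero_mem' := ⟨0, 0, 0, 0, by norm_num, by norm_num, by norm_num, by norm_num⟩
  neg_mem' := by
    rintro x ⟨a, b, c, d, h1, h2, h3, h4⟩
    refine ⟨-a, -b, -c, -d, ?_, ?_, ?_, ?_⟩
    · rw [re_neg, h1]; push_cast; ring
    · rw [imI_neg, h2]; push_cast; ring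
    · rw [imJ_neg, h3]; push_cast; ring
    · rw [imK_neg, h4]; push_cast; ring

/-- The quaternion `a + b i + c j + d k`. -/
def mk4 (a b c d : ℚ) : ℍ[ℚ] := ⟨a, b, c, d⟩

/-- The additive group `α I`. -/
def lm (α : ℍ[ℚ]) (I : AddSubgroup ℍ[ℚ]) : AddSubgroup ℍ[ℚ] := I.map (AddMonoidHom.mulLeft α)

/-- The additive group `I β`. -/
def rm (β : ℍ[ℚ]) (I : AddSubgroup ℍ[ℚ]) : AddSubgroup ℍ[ℚ] := I.map (AddMonoidHom.mulRight β)

/-- `I` is a nonzero (fractional) right ideal of the Hurwitz order. -/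
structure IsRI (I : AddSubgroup ℍ[ℚ]) : Prop where
  ne_zero : ∃ x ∈ I, x ≠ 0
  mul_mem : ∀ x ∈ I, ∀ h ∈ Hur, x * h ∈ I
  den : ∃ n : ℕ, 0 < n ∧ ∀ x ∈ I, (n : ℍ[ℚ]) * x ∈ Hur

/-- `(I, I')` is a pair of right ideals of the Hurwitz order with `q I ⊂ I' ⊂ I` (both inclusions
being strict): for a prime `q ≠ 2` this is a right ideal class datum for an Eichler order of
level `q`. -/
structure IsPair (q : ℕ) (I I' : AddSubgroup ℍ[ℚ]) : Prop where
  fst : IsRI I
  snd : IsRI I'
  lt₁ : lm q I < I'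
  lt₂ : I' < I

/-- The value of a polynomial in three variables at the vector part of a quaternion. -/
noncomputable def ev (P : MvPolynomial (Fin 3) ℂ) (x : ℍ[ℚ]) : ℂ :=
  eval ![(x.imI : ℂ), (x.imJ : ℂ), (x.imK : ℂ)] P

/-- A form of level `q` and degree `k`, invariant under the normalizers of the local orders at two
and at `q`. Its values are harmonic homogeneous polynomials of degree `k`. -/
structure IsForm (q k : ℕ)
    (F : AddSubgroup ℍ[ℚ] → AddSubgroup ℍ[ℚ] → MvPolynomial (Fin 3) ℂ) : Prop where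
  supp : ∀ I I', ¬ IsPair q I I' → F I I' = 0
  hom : ∀ I I', (F I I').IsHomogeneous k
  harm : ∀ I I', ∑ i, pderiv i (pderiv i (F I I')) = 0
  left : ∀ α : ℍ[ℚ], α ≠ 0 → ∀ I I', IsPair q I I' → ∀ x,
    ev (F (lm α I) (lm α I')) (α * x * α⁻¹) = ev (F I I') x
  two : ∀ I I', IsPair q I I' → F (rm (mk4 1 1 0 0) I) (rm (mk4 1 1 0 0) I') = F I I'
  lvl : ∀ I I', IsPair q I I' → F I' (lm q I) = F I I'

/-- The Hecke operator at a prime `p` prime to the level: the sum over the right ideals `J` with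
`p I ⊂ J ⊂ I`, both inclusions being strict. -/
noncomputable def hecke (p : ℕ)
    (F : AddSubgroup ℍ[ℚ] → AddSubgroup ℍ[ℚ] → MvPolynomial (Fin 3) ℂ)
    (I I' : AddSubgroup ℍ[ℚ]) : MvPolynomial (Fin 3) ℂ :=
  ∑ᶠ J ∈ {J : AddSubgroup ℍ[ℚ] | IsRI J ∧ lm p I < J ∧ J < I}, F J (J ⊓ I')

end Pool.Agent.Helper725_HQ
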