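import Pool.Agent.Helper725_HQ.EH

/-! The coefficients of the Hecke relations modulo a power of the augmentation ideal. -/

set_option autoImplicit false
set_option linter.unusedVariables false
set_option linter.unusedSimpArgs false

namespace Pool.Agent.Helper725_HQ.E5

open Quaternion

section
variable {N : ℕ} {k : Type*} [CommRing k] {R : Type*} [Ring R] [Algebra k R]
  {ρ : (Hn N)ˣ →* R}

/-- coefficients -/
noncomputable def a7_0 (ρ : (Hn N)ˣ →* R) : R :=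
  yz ρ (mq ![1, 3, 3, 3] (Mv 0)) +
  yz ρ (mq ![1, 3, 3, -3] (Mv 0)) +
  yz ρ (mq ![1, 3, -3, 3] (Mv 0)) +
  yz ρ (mq ![1, 3, -3, -3] (Mv 0))

theorem a7_0_app (hs : Sc ρ) (h3 : (3 : R) = 0) :
    yz ρ ev * a7_0 ρ * yz ρ (Hv 0) - (yz ρ ![1, 0, 3, 3] +
      yz ρ ![1, 0, 3, -3] +
      yz ρ ![1, 0, -3, 3] +
      yz ρ ![1, 0, -3, -3]) ∈ Ia k ρ ^ 5 := by
  have e : ∀ E H x0 x1 x2 x3 g0 g1 g2 g3 : R, E * (x0 + x1 + x2 + x3) * H - (g0 + g1 + g2 + g3) =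
      (E * x0 * H - g0) + (E * x1 * H - g1) + (E * x2 * H - g2) + (E * x3 * H - g3) := by
    intros; simp only [mul_add, add_mul]; abel
  have t0 := term_app (k := k) hs h3 (-8) (c := (mq ![1, 3, 3, 3] (Mv 0))) (H := Hv 0) (G := ![1, 0, 3, 3]) (by decide) (by decide)
    (by decide) (by decide)
  have t1 := term_app (k := k) hs h3 (-8) (c := (mq ![1, 3, 3, -3] (Mv 0))) (H := Hv 0) (G := ![1, 0, 3, -3]) (by decide) (by decide)
    (by decide) (by decide)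
  have t2 := term_app (k := k) hs h3 (-8) (c := (mq ![1, 3, -3, 3] (Mv 0))) (H := Hv 0) (G := ![1, 0, -3, 3]) (by decide) (by decide)
    (by decide) (by decide)
  have t3 := term_app (k := k) hs h3 (-8) (c := (mq ![1, 3, -3, -3] (Mv 0))) (H := Hv 0) (G := ![1, 0, -3, -3]) (by decide) (by decide)
    (by decide) (by decide)
  unfold a7_0
  rw [e]
  exact Submodule.add_mem _ (Submodule.add_mem _ (Submodule.add_mem _ (t0) t1) t2) t3

/-- coefficients -/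
noncomputable def a7_1 (ρ : (Hn N)ˣ →* R) : R :=
  yz ρ ![1, -3, 3, -3] +
  yz ρ (mq ![1, -3, -3, 3] (Mv 1))

theorem a7_1_app (hs : Sc ρ) (h3 : (3 : R) = 0) :
    yz ρ ev * a7_1 ρ * yz ρ (Hv 1) - (yz ρ ![1, 0, 0, 3] * yz ρ ![1, 0, 0, 3] +
      yz ρ ![1, 0, 0, -3] * yz ρ ![1, 0, 0, -3]) ∈ Ia k ρ ^ 5 := by
  have e : ∀ E H x0 x1 g0 g1 : R, E * (x0 + x1) * H - (g0 + g1) =
      (E * x0 * H - g0) + (E * x1 * H - g1) := by
    intros; simp only [mul_add, add_mul]; abel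
  have t0 := term_app (k := k) hs h3 (1) (c := ![1, -3, 3, -3]) (H := Hv 1) (G := (mq ![1, 0, 0, 3] ![1, 0, 0, 3])) (by decide) (by decide)
    (by decide) (by decide)
  rw [yz_mul (c := ![1, 0, 0, 3]) (d := ![1, 0, 0, 3]) (by decide) (by decide)] at t0
  have t1 := term_app (k := k) hs h3 (-8) (c := (mq ![1, -3, -3, 3] (Mv 1))) (H := Hv 1) (G := (mq ![1, 0, 0, -3] ![1, 0, 0, -3])) (by decide) (by decide)
    (by decide) (by decide)
  rw [yz_mul (c := ![1, 0, 0, -3]) (d := ![1, 0, 0, -3]) (by decide) (by decide)] at t1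
  unfold a7_1
  rw [e]
  exact Submodule.add_mem _ (t0) t1

/-- coefficients -/
noncomputable def a7_2 (ρ : (Hn N)ˣ →* R) : R :=
  yz ρ ![1, -3, 3, 3] +
  yz ρ (mq ![1, -3, -3, -3] (Mv 2))

theorem a7_2_app (hs : Sc ρ) (h3 : (3 : R) = 0) :
    yz ρ ev * a7_2 ρ * yz ρ (Hv 2) - (yz ρ ![1, 0, -3, 0] * yz ρ ![1, 0, -3, 0] +
      yz ρ ![1, 0, 3, 0] * yz ρ ![1, 0, 3, 0]) ∈ Ia k ρ ^ 5 := by
  have e : ∀ E H x0 x1 g0 g1 : R, E * (x0 + x1) * H - (g0 + g1) =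
      (E * x0 * H - g0) + (E * x1 * H - g1) := by
    intros; simp only [mul_add, add_mul]; abel
  have t0 := term_app (k := k) hs h3 (1) (c := ![1, -3, 3, 3]) (H := Hv 2) (G := (mq ![1, 0, -3, 0] ![1, 0, -3, 0])) (by decide) (by decide)
    (by decide) (by decide)
  rw [yz_mul (c := ![1, 0, -3, 0]) (d := ![1, 0, -3, 0]) (by decide) (by decide)] at t0
  have t1 := term_app (k := k) hs h3 (-8) (c := (mq ![1, -3, -3, -3] (Mv 2))) (H := Hv 2) (G := (mq ![1, 0, 3, 0] ![1, 0, 3, 0])) (by decide) (by decide)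
    (by decide) (by decide)
  rw [yz_mul (c := ![1, 0, 3, 0]) (d := ![1, 0, 3, 0]) (by decide) (by decide)] at t1
  unfold a7_2
  rw [e]
  exact Submodule.add_mem _ (t0) t1

/-- coefficients -/
noncomputable def a11_1 (ρ : (Hn N)ˣ →* R) : R :=
  yz ρ (mq ![2, 3, 3, 0] (Mv 1)) +
  yz ρ ![2, 3, -3, 0] +
  yz ρ ![2, 0, 3, -3] +
  yz ρ (mq ![2, 0, -3, 3] (Mv 1)) +
  yz ρ (mq ![2, -3, 0, 3] (Mv 1)) +
  yz ρ ![2, -3, 0, -3]

theorem a11_1_app (hs : Sc ρ) (h3 : (3 : R) = 0) :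
    yz ρ ev * a11_1 ρ * yz ρ (Hv 1) - (yz ρ ![1, 0, 0, -9] +
      yz ρ ![1, 0, 0, 9] +
      yz ρ ![1, -3, -3, -3] * yz ρ ![1, -3, -3, -3] +
      yz ρ ![1, -3, 3, 3] * yz ρ ![1, -3, 3, 3] +
      yz ρ ![1, 3, -3, 3] * yz ρ ![1, 3, -3, 3] +
      yz ρ ![1, 3, 3, -3] * yz ρ ![1, 3, 3, -3]) ∈ Ia k ρ ^ 5 := by
  have e : ∀ E H x0 x1 x2 x3 x4 x5 g0 g1 g2 g3 g4 g5 : R, E * (x0 + x1 + x2 + x3 + x4 + x5) * H - (g0 + g1 + g2 + g3 + g4 + g5) =
      (E * x0 * H - g0) + (E * x1 * H - g1) + (E * x2 * H - g2) + (E * x3 * H - g3) + (E * x4 * H - g4) + (E * x5 * H - g5) := by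
    intros; simp only [mul_add, add_mul]; abel
  have t0 := term_app (k := k) hs h3 (-7) (c := (mq ![2, 3, 3, 0] (Mv 1))) (H := Hv 1) (G := ![1, 0, 0, -9]) (by decide) (by decide)
    (by decide) (by decide)
  have t1 := term_app (k := k) hs h3 (11) (c := ![2, 3, -3, 0]) (H := Hv 1) (G := ![1, 0, 0, 9]) (by decide) (by decide)
    (by decide) (by decide)
  have t2 := term_app (k := k) hs h3 (11) (c := ![2, 0, 3, -3]) (H := Hv 1) (G := (mq ![1, -3, -3, -3] ![1, -3, -3, -3])) (by decide) (by decide)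
    (by decide) (by decide)
  rw [yz_mul (c := ![1, -3, -3, -3]) (d := ![1, -3, -3, -3]) (by decide) (by decide)] at t2
  have t3 := term_app (k := k) hs h3 (-7) (c := (mq ![2, 0, -3, 3] (Mv 1))) (H := Hv 1) (G := (mq ![1, -3, 3, 3] ![1, -3, 3, 3])) (by decide) (by decide)
    (by decide) (by decide)
  rw [yz_mul (c := ![1, -3, 3, 3]) (d := ![1, -3, 3, 3]) (by decide) (by decide)] at t3
  have t4 := term_app (k := k) hs h3 (-7) (c := (mq ![2, -3, 0, 3] (Mv 1))) (H := Hv 1) (G := (mq ![1, 3, -3, 3] ![1, 3, -3, 3])) (by decide) (by decide)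
    (by decide) (by decide)
  rw [yz_mul (c := ![1, 3, -3, 3]) (d := ![1, 3, -3, 3]) (by decide) (by decide)] at t4
  have t5 := term_app (k := k) hs h3 (11) (c := ![2, -3, 0, -3]) (H := Hv 1) (G := (mq ![1, 3, 3, -3] ![1, 3, 3, -3])) (by decide) (by decide)
    (by decide) (by decide)
  rw [yz_mul (c := ![1, 3, 3, -3]) (d := ![1, 3, 3, -3]) (by decide) (by decide)] at t5
  unfold a11_1
  rw [e]
  exact Submodule.add_mem _ (Submodule.add_mem _ (Submodule.add_mem _ (Submodule.add_mem _ (Submodule.add_mem _ (t0) t1) t2) t3) t4) t5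

/-- coefficients -/
noncomputable def a11_2 (ρ : (Hn N)ˣ →* R) : R :=
  yz ρ (mq ![2, 3, 0, 3] (Mv 2)) +
  yz ρ ![2, 3, 0, -3] +
  yz ρ ![2, 0, 3, 3] +
  yz ρ (mq ![2, 0, -3, -3] (Mv 2)) +
  yz ρ ![2, -3, 3, 0] +
  yz ρ (mq ![2, -3, -3, 0] (Mv 2))

theorem a11_2_app (hs : Sc ρ) (h3 : (3 : R) = 0) :
    yz ρ ev * a11_2 ρ * yz ρ (Hv 2) - (yz ρ ![1, 0, 9, 0] +
      yz ρ ![1, 0, -9, 0] +
      yz ρ ![1, -3, 3, -3] * yz ρ ![1, -3, 3, -3] +
      yz ρ ![1, -3, -3, 3] * yz ρ ![1, -3, -3, 3] +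
      yz ρ ![1, 3, 3, 3] * yz ρ ![1, 3, 3, 3] +
      yz ρ ![1, 3, -3, -3] * yz ρ ![1, 3, -3, -3]) ∈ Ia k ρ ^ 5 := by
  have e : ∀ E H x0 x1 x2 x3 x4 x5 g0 g1 g2 g3 g4 g5 : R, E * (x0 + x1 + x2 + x3 + x4 + x5) * H - (g0 + g1 + g2 + g3 + g4 + g5) =
      (E * x0 * H - g0) + (E * x1 * H - g1) + (E * x2 * H - g2) + (E * x3 * H - g3) + (E * x4 * H - g4) + (E * x5 * H - g5) := by
    intros; simp only [mul_add, add_mul]; abel
  have t0 := term_app (k := k) hs h3 (-7) (c := (mq ![2, 3, 0, 3] (Mv 2))) (H := Hv 2) (G := ![1, 0, 9, 0]) (by decide) (by decide)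
    (by decide) (by decide)
  have t1 := term_app (k := k) hs h3 (11) (c := ![2, 3, 0, -3]) (H := Hv 2) (G := ![1, 0, -9, 0]) (by decide) (by decide)
    (by decide) (by decide)
  have t2 := term_app (k := k) hs h3 (11) (c := ![2, 0, 3, 3]) (H := Hv 2) (G := (mq ![1, -3, 3, -3] ![1, -3, 3, -3])) (by decide) (by decide)
    (by decide) (by decide)
  rw [yz_mul (c := ![1, -3, 3, -3]) (d := ![1, -3, 3, -3]) (by decide) (by decide)] at t2
  have t3 := term_app (k := k) hs h3 (-7) (c := (mq ![2, 0, -3, -3] (Mv 2))) (H := Hv 2) (G := (mq ![1, -3, -3, 3] ![1, -3, -3, 3])) (by decide) (by decide)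
    (by decide) (by decide)
  rw [yz_mul (c := ![1, -3, -3, 3]) (d := ![1, -3, -3, 3]) (by decide) (by decide)] at t3
  have t4 := term_app (k := k) hs h3 (11) (c := ![2, -3, 3, 0]) (H := Hv 2) (G := (mq ![1, 3, 3, 3] ![1, 3, 3, 3])) (by decide) (by decide)
    (by decide) (by decide)
  rw [yz_mul (c := ![1, 3, 3, 3]) (d := ![1, 3, 3, 3]) (by decide) (by decide)] at t4
  have t5 := term_app (k := k) hs h3 (-7) (c := (mq ![2, -3, -3, 0] (Mv 2))) (H := Hv 2) (G := (mq ![1, 3, -3, -3] ![1, 3, -3, -3])) (by decide) (by decide)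
    (by decide) (by decide)
  rw [yz_mul (c := ![1, 3, -3, -3]) (d := ![1, 3, -3, -3]) (by decide) (by decide)] at t5
  unfold a11_2
  rw [e]
  exact Submodule.add_mem _ (Submodule.add_mem _ (Submodule.add_mem _ (Submodule.add_mem _ (Submodule.add_mem _ (t0) t1) t2) t3) t4) t5

/-- coefficients -/
noncomputable def a13_0 (ρ : (Hn N)ˣ →* R) : R :=
  yz ρ ![2, 3, 0, 0] +
  yz ρ ![2, -3, 0, 0]

theorem a13_0_app (hs : Sc ρ) (h3 : (3 : R) = 0) :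
    yz ρ ev * a13_0 ρ * yz ρ (Hv 0) - ((yz ρ ![1, -3, 0, 0] * yz ρ ![1, -3, 0, 0]) * (yz ρ ![1, -3, 0, 0] * yz ρ ![1, -3, 0, 0]) +
      (yz ρ ![1, 3, 0, 0] * yz ρ ![1, 3, 0, 0]) * (yz ρ ![1, 3, 0, 0] * yz ρ ![1, 3, 0, 0])) ∈ Ia k ρ ^ 5 := by
  have e : ∀ E H x0 x1 g0 g1 : R, E * (x0 + x1) * H - (g0 + g1) =
      (E * x0 * H - g0) + (E * x1 * H - g1) := by
    intros; simp only [mul_add, add_mul]; abel
  have t0 := term_app (k := k) hs h3 (-7) (c := ![2, 3, 0, 0]) (H := Hv 0) (G := (mq (mq ![1, -3, 0, 0] ![1, -3, 0, 0]) (mq ![1, -3, 0, 0] ![1, -3, 0, 0]))) (by decide) (by decide)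
    (by decide) (by decide)
  rw [yz_mul (c := mq ![1, -3, 0, 0] ![1, -3, 0, 0]) (d := mq ![1, -3, 0, 0] ![1, -3, 0, 0]) (by decide) (by decide), yz_mul (c := ![1, -3, 0, 0]) (d := ![1, -3, 0, 0]) (by decide) (by decide)] at t0
  have t1 := term_app (k := k) hs h3 (-7) (c := ![2, -3, 0, 0]) (H := Hv 0) (G := (mq (mq ![1, 3, 0, 0] ![1, 3, 0, 0]) (mq ![1, 3, 0, 0] ![1, 3, 0, 0]))) (by decide) (by decide)
    (by decide) (by decide)
  rw [yz_mul (c := mq ![1, 3, 0, 0] ![1, 3, 0, 0]) (d := mq ![1, 3, 0, 0] ![1, 3, 0, 0]) (by decide) (by decide), yz_mul (c := ![1, 3, 0, 0]) (d := ![1, 3, 0, 0]) (by decide) (by decide)] at t1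
  unfold a13_0
  rw [e]
  exact Submodule.add_mem _ (t0) t1

/-- coefficients -/
noncomputable def a13_1 (ρ : (Hn N)ˣ →* R) : R :=
  yz ρ ![2, 0, 0, 3] +
  yz ρ (mq ![2, 0, 0, -3] (Mv 1)) +
  yz ρ (mq ![5, 3, 3, 3] (Mv 1)) +
  yz ρ ![5, 3, -3, -3] +
  yz ρ ![5, -3, 3, 3] +
  yz ρ (mq ![5, -3, -3, -3] (Mv 1))

theorem a13_1_app (hs : Sc ρ) (h3 : (3 : R) = 0) :
    yz ρ ev * a13_1 ρ * yz ρ (Hv 1) - (yz ρ ![1, 3, -3, -3] * yz ρ ![1, 0, 0, 9] +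
      yz ρ ![1, 3, 3, 3] * yz ρ ![1, 0, 0, -9] +
      yz ρ ![1, 0, 0, -3] +
      yz ρ ![1, 0, 0, 3] +
      yz ρ ![1, -3, 3, -3] * yz ρ ![1, 0, 0, 9] +
      yz ρ ![1, -3, -3, 3] * yz ρ ![1, 0, 0, -9]) ∈ Ia k ρ ^ 5 := by
  have e : ∀ E H x0 x1 x2 x3 x4 x5 g0 g1 g2 g3 g4 g5 : R, E * (x0 + x1 + x2 + x3 + x4 + x5) * H - (g0 + g1 + g2 + g3 + g4 + g5) =
      (E * x0 * H - g0) + (E * x1 * H - g1) + (E * x2 * H - g2) + (E * x3 * H - g3) + (E * x4 * H - g4) + (E * x5 * H - g5) := by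
    intros; simp only [mul_add, add_mul]; abel
  have t0 := term_app (k := k) hs h3 (2) (c := ![2, 0, 0, 3]) (H := Hv 1) (G := (mq ![1, 3, -3, -3] ![1, 0, 0, 9])) (by decide) (by decide)
    (by decide) (by decide)
  rw [yz_mul (c := ![1, 3, -3, -3]) (d := ![1, 0, 0, 9]) (by decide) (by decide)] at t0
  have t1 := term_app (k := k) hs h3 (11) (c := (mq ![2, 0, 0, -3] (Mv 1))) (H := Hv 1) (G := (mq ![1, 3, 3, 3] ![1, 0, 0, -9])) (by decide) (by decide)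
    (by decide) (by decide)
  rw [yz_mul (c := ![1, 3, 3, 3]) (d := ![1, 0, 0, -9]) (by decide) (by decide)] at t1
  have t2 := term_app (k := k) hs h3 (-4) (c := (mq ![5, 3, 3, 3] (Mv 1))) (H := Hv 1) (G := ![1, 0, 0, -3]) (by decide) (by decide)
    (by decide) (by decide)
  have t3 := term_app (k := k) hs h3 (-13) (c := ![5, 3, -3, -3]) (H := Hv 1) (G := ![1, 0, 0, 3]) (by decide) (by decide)
    (by decide) (by decide)
  have t4 := term_app (k := k) hs h3 (-4) (c := ![5, -3, 3, 3]) (H := Hv 1) (G := (mq ![1, -3, 3, -3] ![1, 0, 0, 9])) (by decide) (by decide)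
    (by decide) (by decide)
  rw [yz_mul (c := ![1, -3, 3, -3]) (d := ![1, 0, 0, 9]) (by decide) (by decide)] at t4
  have t5 := term_app (k := k) hs h3 (5) (c := (mq ![5, -3, -3, -3] (Mv 1))) (H := Hv 1) (G := (mq ![1, -3, -3, 3] ![1, 0, 0, -9])) (by decide) (by decide)
    (by decide) (by decide)
  rw [yz_mul (c := ![1, -3, -3, 3]) (d := ![1, 0, 0, -9]) (by decide) (by decide)] at t5
  unfold a13_1
  rw [e]
  exact Submodule.add_mem _ (Submodule.add_mem _ (Submodule.add_mem _ (Submodule.add_mem _ (Submodule.add_mem _ (t0) t1) t2) t3) t4) t5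

/-- coefficients -/
noncomputable def a13_2 (ρ : (Hn N)ˣ →* R) : R :=
  yz ρ (mq ![2, 0, 3, 0] (Mv 2)) +
  yz ρ ![2, 0, -3, 0] +
  yz ρ ![5, 3, 3, -3] +
  yz ρ (mq ![5, 3, -3, 3] (Mv 2)) +
  yz ρ (mq ![5, -3, 3, -3] (Mv 2)) +
  yz ρ ![5, -3, -3, 3]

theorem a13_2_app (hs : Sc ρ) (h3 : (3 : R) = 0) :
    yz ρ ev * a13_2 ρ * yz ρ (Hv 2) - (yz ρ ![1, 3, -3, 3] * yz ρ ![1, 0, 9, 0] +
      yz ρ ![1, 3, 3, -3] * yz ρ ![1, 0, -9, 0] +
      yz ρ ![1, 0, -3, 0] +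
      yz ρ ![1, 0, 3, 0] +
      yz ρ ![1, -3, -3, -3] * yz ρ ![1, 0, 9, 0] +
      yz ρ ![1, -3, 3, 3] * yz ρ ![1, 0, -9, 0]) ∈ Ia k ρ ^ 5 := by
  have e : ∀ E H x0 x1 x2 x3 x4 x5 g0 g1 g2 g3 g4 g5 : R, E * (x0 + x1 + x2 + x3 + x4 + x5) * H - (g0 + g1 + g2 + g3 + g4 + g5) =
      (E * x0 * H - g0) + (E * x1 * H - g1) + (E * x2 * H - g2) + (E * x3 * H - g3) + (E * x4 * H - g4) + (E * x5 * H - g5) := by
    intros; simp only [mul_add, add_mul]; abel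
  have t0 := term_app (k := k) hs h3 (11) (c := (mq ![2, 0, 3, 0] (Mv 2))) (H := Hv 2) (G := (mq ![1, 3, -3, 3] ![1, 0, 9, 0])) (by decide) (by decide)
    (by decide) (by decide)
  rw [yz_mul (c := ![1, 3, -3, 3]) (d := ![1, 0, 9, 0]) (by decide) (by decide)] at t0
  have t1 := term_app (k := k) hs h3 (2) (c := ![2, 0, -3, 0]) (H := Hv 2) (G := (mq ![1, 3, 3, -3] ![1, 0, -9, 0])) (by decide) (by decide)
    (by decide) (by decide)
  rw [yz_mul (c := ![1, 3, 3, -3]) (d := ![1, 0, -9, 0]) (by decide) (by decide)] at t1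
  have t2 := term_app (k := k) hs h3 (-13) (c := ![5, 3, 3, -3]) (H := Hv 2) (G := ![1, 0, -3, 0]) (by decide) (by decide)
    (by decide) (by decide)
  have t3 := term_app (k := k) hs h3 (-4) (c := (mq ![5, 3, -3, 3] (Mv 2))) (H := Hv 2) (G := ![1, 0, 3, 0]) (by decide) (by decide)
    (by decide) (by decide)
  have t4 := term_app (k := k) hs h3 (5) (c := (mq ![5, -3, 3, -3] (Mv 2))) (H := Hv 2) (G := (mq ![1, -3, -3, -3] ![1, 0, 9, 0])) (by decide) (by decide)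
    (by decide) (by decide)
  rw [yz_mul (c := ![1, -3, -3, -3]) (d := ![1, 0, 9, 0]) (by decide) (by decide)] at t4
  have t5 := term_app (k := k) hs h3 (-4) (c := ![5, -3, -3, 3]) (H := Hv 2) (G := (mq ![1, -3, 3, 3] ![1, 0, -9, 0])) (by decide) (by decide)
    (by decide) (by decide)
  rw [yz_mul (c := ![1, -3, 3, 3]) (d := ![1, 0, -9, 0]) (by decide) (by decide)] at t5
  unfold a13_2
  rw [e]
  exact Submodule.add_mem _ (Submodule.add_mem _ (Submodule.add_mem _ (Submodule.add_mem _ (Submodule.add_mem _ (t0) t1) t2) t3) t4) t5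


end

end Pool.Agent.Helper725_HQ.E5
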