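import Pool.Agent.Helper725_HQ.EZ

/-! Expansions of the operators given by integral quaternions. -/

set_option autoImplicit false
set_option linter.unusedVariables false
set_option linter.unusedSimpArgs false

namespace Pool.Agent.Helper725_HQ.E5

open Quaternion

section
variable {N : ℕ}

/-- the unit `1 + i + j + k` -/
def wo (N : ℕ) : (Hn N)ˣ := ⟨qn4 1 1 1 1, qn4 (hf N * hf N) (-(hf N * hf N)) (-(hf N * hf N))
    (-(hf N * hf N)), by
    have h := two_hf (N := N)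
    have h4 : 4 * (hf N * hf N) = 1 := by linear_combination (2 * hf N + 1) * h
    apply Quaternion.ext
    · simp; linear_combination h4
    · simp
    · simp
    · simp, by
    have h := two_hf (N := N)
    have h4 : 4 * (hf N * hf N) = 1 := by linear_combination (2 * hf N + 1) * h
    apply Quaternion.ext
    · simp; linear_combination h4
    · simp
    · simp
    · simp⟩

theorem wo_conj (a b c d : Zn N) : (wo N : Hn N) * qn4 a b c d * (((wo N)⁻¹ : (Hn N)ˣ) : Hn N) =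
    qn4 a d b c := by
  have h := two_hf (N := N)
  have h4 : 4 * (hf N * hf N) = 1 := by linear_combination (2 * hf N + 1) * h
  show qn4 1 1 1 1 * qn4 a b c d * qn4 (hf N * hf N) (-(hf N * hf N)) (-(hf N * hf N))
    (-(hf N * hf N)) = _
  apply Quaternion.ext
  · simp; linear_combination a * h4
  · simp; linear_combination d * h4
  · simp; linear_combination b * h4
  · simp; linear_combination c * h4

theorem Kz_conj (w : (Hn N)ˣ) {m : ℕ} {g : (Hn N)ˣ} (h : g ∈ Kz N m) : w * g * w⁻¹ ∈ Kz N m := by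
  obtain ⟨s, η, h⟩ := h
  refine ⟨s, (w : Hn N) * η * ((w⁻¹ : (Hn N)ˣ) : Hn N), ?_⟩
  rw [Units.val_mul, Units.val_mul, h, mul_smul_comm, smul_mul_assoc, mul_add, add_mul, mul_one,
    Units.mul_inv, mul_smul_comm, smul_mul_assoc]

/-- the cyclic permutation -/
def cq (c : Fin 4 → ℤ) : Fin 4 → ℤ := ![c 0, c 3, c 1, c 2]

theorem Go_cq {c : Fin 4 → ℤ} (h : Go c) : Go (cq c) := ⟨h.1, h.2.2.2, h.2.1, h.2.2.1⟩

theorem uz_cq {c : Fin 4 → ℤ} (h : Go c) : wo N * uz N c * (wo N)⁻¹ = uz N (cq c) := by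
  apply Units.ext
  rw [Units.val_mul, Units.val_mul, uz_val h, uz_val (Go_cq h)]
  exact wo_conj _ _ _ _

end

section
variable {N : ℕ} {k : Type*} [CommRing k] {R : Type*} [Ring R] [Algebra k R]

/-- conjugation of a representation -/
def rc (ρ : (Hn N)ˣ →* R) : (Hn N)ˣ →* R := ρ.comp (MulAut.conj (wo N)).toMonoidHom

theorem rc_apply (ρ : (Hn N)ˣ →* R) (g : (Hn N)ˣ) : rc ρ g = ρ (wo N * g * (wo N)⁻¹) := rfl

variable {ρ : (Hn N)ˣ →* R}

theorem rc_Sc (hs : Sc ρ) : Sc (rc ρ) := by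
  intro u s h
  rw [rc_apply]
  apply hs _ s
  rw [Units.val_mul, Units.val_mul, h, mul_smul_comm, smul_mul_assoc, mul_one, Units.mul_inv]

theorem rc_Ia : Ia k (rc ρ) = Ia k ρ := by
  unfold Ia
  congr 1
  ext T
  constructor
  · rintro ⟨g, hg, rfl⟩
    exact ⟨_, Kz_conj (wo N) hg, rfl⟩
  · rintro ⟨g, hg, rfl⟩
    refine ⟨(wo N)⁻¹ * g * wo N, ?_, ?_⟩
    · have := Kz_conj (wo N)⁻¹ hg
      rwa [inv_inv] at this
    · rw [rc_apply]
      congr 2
      group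

theorem rc_yz {c : Fin 4 → ℤ} (h : Go c) : yz (rc ρ) c = yz ρ (cq c) := by
  unfold yz
  rw [rc_apply, uz_cq h]

/-- basic vectors -/
def ev : Fin 4 → ℤ := ![1, 12, 0, 0]
/-- basic vectors -/
def Hv : Fin 3 → Fin 4 → ℤ := ![![1, -12, 0, 0], ![1, 0, -12, 0], ![1, 0, 0, -12]]
/-- basic vectors -/
def Mv : Fin 3 → Fin 4 → ℤ := ![![1, -3, 0, 0], ![1, 0, -3, 0], ![1, 0, 0, -3]]

theorem term_app (hs : Sc ρ) (h3 : (3 : R) = 0) {c H G : Fin 4 → ℤ} (s : ℤ) (hc : Go c)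
    (hH : Go H) (hG : Go G) (h : Cg s (mq (mq ev c) H) G) :
    yz ρ ev * yz ρ c * yz ρ H - yz ρ G ∈ Ia k ρ ^ 5 := by
  have he : Go ev := by decide
  rw [← yz_mul he hc, ← yz_mul (he.mul hc) hH]
  exact yz_congr hs h3 ((he.mul hc).mul hH) hG h

/-- opposite vectors -/
theorem yz_opp (hs : Sc ρ) (a b c : ℤ) : yz ρ ![1, 3 * a, 3 * b, 3 * c] *
    yz ρ ![1, 3 * (-a), 3 * (-b), 3 * (-c)] = 1 := by
  rw [yz_kp, yz_kp]
  have := kap_inv hs (a : Zn N) b c
  push_cast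
  exact this

theorem opp (hs : Sc ρ) {c d : Fin 4 → ℤ} (a : ℤ) (ha : a % 3 ≠ 0) (hc : Go c) (hd : Go d)
    (h : mq c d = fun i => a * (![1, 0, 0, 0] : Fin 4 → ℤ) i) : yz ρ c * yz ρ d = 1 := by
  rw [← yz_mul hc hd, h, yz_scal hs ha (by decide)]
  have h1 := yz_kp (ρ := ρ) (a := 0) (b := 0) (c := 0)
  simp only [mul_zero] at h1
  rw [h1]
  apply hs _ 1
  rw [kap_val]
  apply Quaternion.ext <;> simp

end

section
variable {N : ℕ} {k : Type*} [CommRing k] {R : Type*} [Ring R] [Algebra k R]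
  {ρ : (Hn N)ˣ →* R}

/-- the sum over a pair -/
noncomputable def sg (ρ : (Hn N)ˣ →* R) (c d : Fin 4 → ℤ) : R := (yz ρ c - 1) + (yz ρ d - 1)

/-- pairs in the three directions -/
noncomputable def t1 (ρ : (Hn N)ˣ →* R) : R := sg ρ ![1, 3, 0, 0] ![1, -3, 0, 0]
/-- pairs in the three directions -/
noncomputable def t2 (ρ : (Hn N)ˣ →* R) : R := sg ρ ![1, 0, 3, 0] ![1, 0, -3, 0]
/-- pairs in the three directions -/
noncomputable def t3 (ρ : (Hn N)ˣ →* R) : R := sg ρ ![1, 0, 0, 3] ![1, 0, 0, -3]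

theorem t1_pr : t1 ρ = pr ρ 1 0 0 := by
  unfold t1 sg pr
  have h1 := yz_kp (ρ := ρ) (a := 1) (b := 0) (c := 0)
  have h2 := yz_kp (ρ := ρ) (a := -1) (b := 0) (c := 0)
  norm_num at h1 h2
  rw [h1, h2, neg_zero]

theorem t2_pr : t2 ρ = pr ρ 0 1 0 := by
  unfold t2 sg pr
  have h1 := yz_kp (ρ := ρ) (a := 0) (b := 1) (c := 0)
  have h2 := yz_kp (ρ := ρ) (a := 0) (b := -1) (c := 0)
  norm_num at h1 h2
  rw [h1, h2, neg_zero]

theorem t3_pr : t3 ρ = pr ρ 0 0 1 := by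
  unfold t3 sg pr
  have h1 := yz_kp (ρ := ρ) (a := 0) (b := 0) (c := 1)
  have h2 := yz_kp (ρ := ρ) (a := 0) (b := 0) (c := -1)
  norm_num at h1 h2
  rw [h1, h2, neg_zero]

theorem gX_yz : gX ρ = yz ρ ![1, 3, 0, 0] - 1 := by
  unfold gX
  have h1 := yz_kp (ρ := ρ) (a := 1) (b := 0) (c := 0)
  norm_num at h1
  rw [h1]
theorem gY_yz : gY ρ = yz ρ ![1, 0, 3, 0] - 1 := by
  unfold gY
  have h1 := yz_kp (ρ := ρ) (a := 0) (b := 1) (c := 0)
  norm_num at h1
  rw [h1]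
theorem gZ_yz : gZ ρ = yz ρ ![1, 0, 0, 3] - 1 := by
  unfold gZ
  have h1 := yz_kp (ρ := ρ) (a := 0) (b := 0) (c := 1)
  norm_num at h1
  rw [h1]

/-- squares of a pair -/
theorem pair_two (h3 : (3 : R) = 0) {y y' : R} (h : y * y' = 1) (h' : y' * y = 1) :
    y * y + y' * y' = 2 + (((y - 1) + (y' - 1)) + ((y - 1) + (y' - 1)) * ((y - 1) + (y' - 1))) := by
  have h1 := sq_pair h3 h h'
  have e : y * y + y' * y' = 2 + (y ^ 2 - 1 + (y' ^ 2 - 1)) := by
    rw [show (2 : R) = 1 + 1 by norm_num]; noncomm_ring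
  rw [e, h1]

/-- fourth powers of a pair -/
theorem pair_four (h3 : (3 : R) = 0) {y y' : R} (h : y * y' = 1) (h' : y' * y = 1)
    (hy : y - 1 ∈ Ia k ρ ^ 1) (hy' : y' - 1 ∈ Ia k ρ ^ 1) :
    (y * y) * (y * y) + (y' * y') * (y' * y') - (2 + (((y - 1) + (y' - 1)) -
      ((y - 1) + (y' - 1)) * ((y - 1) + (y' - 1)))) ∈ Ia k ρ ^ 5 := by
  have g1 : (y * y) * (y' * y') = 1 := by
    have e : (y * y) * (y' * y') = y * (y * y') * y' := by noncomm_ring
    rw [e, h, mul_one, h]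
  have g2 : (y' * y') * (y * y) = 1 := by
    have e : (y' * y') * (y * y) = y' * (y' * y) * y := by noncomm_ring
    rw [e, h', mul_one, h']
  have h1 := pair_two h3 g1 g2
  have h2 := pair_two h3 h h'
  obtain ⟨l, hl⟩ : ∃ l, l = (y - 1) + (y' - 1) := ⟨_, rfl⟩
  have hl2 : l ∈ Ia k ρ ^ 2 := by
    rw [hl, alg8 h]
    exact Submodule.neg_mem _ (fmul (a := 1) (b := 1) hy hy')
  rw [← hl] at h2 ⊢
  have e1 : (y * y - 1) + (y' * y' - 1) = l + l * l := by
    have : (y * y - 1) + (y' * y' - 1) = (y * y + y' * y') - 2 := by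
      rw [show (2 : R) = 1 + 1 by norm_num]; noncomm_ring
    rw [this, h2]; abel
  rw [e1] at h1
  rw [h1]
  have e : 2 + ((l + l * l) + (l + l * l) * (l + l * l)) - (2 + (l - l * l)) = 3 * (l * l) +
      (l * l * l + l * l * l + l * l * l * l) := by noncomm_ring
  rw [e, h3, zero_mul, zero_add]
  have hl3 : l * l * l ∈ Ia k ρ ^ 5 := Ia_anti (b := 2 + 2 + 2) (by norm_num) (by norm_num)
    (fmul (fmul hl2 hl2) hl2)
  exact Submodule.add_mem _ (Submodule.add_mem _ hl3 hl3)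
    (Ia_anti (b := 5 + 2) (by norm_num) (by norm_num) (fmul hl3 hl2))

/-- summation over two signs -/
theorem sign_two (hI : Ia k ρ * Ia k ρ ≤ Ia k ρ) (h3 : (3 : R) = 0) {A B a b : R}
    (ha : a ∈ Ia k ρ ^ 1) (hb : b ∈ Ia k ρ ^ 1) (hab : a * b - b * a ∈ Ia k ρ ^ 3) :
    (((A + B + 0) * (A + B + 0) - ((a + b + 0) * hF a b 0 + hF a b 0 * (a + b + 0))) +
     ((A + -B + 0) * (A + -B + 0) - ((a + -b + 0) * hF a (-b) 0 + hF a (-b) 0 * (a + -b + 0)))) -
    (A * A + A * A + (B * B + B * B) + a * a * (b * b)) ∈ Ia k ρ ^ 5 := by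
  obtain ⟨D, hD⟩ : ∃ D, D = a * b - b * a := ⟨_, rfl⟩
  have key : (((A + B + 0) * (A + B + 0) - ((a + b + 0) * hF a b 0 + hF a b 0 * (a + b + 0))) +
     ((A + -B + 0) * (A + -B + 0) - ((a + -b + 0) * hF a (-b) 0 + hF a (-b) 0 * (a + -b + 0)))) -
    (A * A + A * A + (B * B + B * B) + a * a * (b * b)) =
    3 * (-(3 * (a * a * (b * b)))) + ((a * D * b + a * D * b + a * D * b + a * D * b) +
      (D * a * b + D * a * b) + (a * b * D + a * b * D)) := by
    rw [hD]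
    unfold hF
    noncomm_ring
  rw [key, h3, zero_mul, zero_add]
  rw [← hD] at hab
  have x1 : a * D * b ∈ Ia k ρ ^ 5 := fmul (fmul ha hab) hb
  have x2 : D * a * b ∈ Ia k ρ ^ 5 := fmul (fmul hab ha) hb
  have x3 : a * b * D ∈ Ia k ρ ^ 5 := fmul (fmul ha hb) hab
  repeat' first
    | exact x1
    | exact x2
    | exact x3
    | apply Submodule.add_mem

end

end Pool.Agent.Helper725_HQ.E5
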