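import Pool.Agent.Helper725_HQ.EM

/-! The Hecke relations in level five and their consequences. -/

set_option autoImplicit false
set_option linter.unusedVariables false
set_option linter.unusedSimpArgs false

namespace Pool.Agent.Helper725_HQ.E5

open Quaternion

section
variable {N : ℕ} {k : Type*} [CommRing k] {R : Type*} [Ring R] [Algebra k R]
  {ρ : (Hn N)ˣ →* R}

/-- the coefficients of the trace relation -/
noncomputable def tau (ρ : (Hn N)ˣ →* R) (i : Fin 3) : R := yz ρ (Hv i) + yz ρ (mq (Mv i) (Hv i))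

theorem fifth_yz (hs : Sc ρ) (h3 : (3 : R) = 0) {c c' y y' : Fin 4 → ℤ} (s s' : ℤ) (hc : Go c)
    (hc' : Go c') (hy : Go y) (hy' : Go y') (h : Cg s c (mq (mq (mq y y) (mq y y)) y))
    (h' : Cg s' c' (mq (mq (mq y' y') (mq y' y')) y')) (o : yz ρ y * yz ρ y' = 1)
    (o' : yz ρ y' * yz ρ y = 1) :
    yz ρ c + yz ρ c' - (2 + (((yz ρ y - 1) + (yz ρ y' - 1)) -
      ((yz ρ y - 1) + (yz ρ y' - 1)) * ((yz ρ y - 1) + (yz ρ y' - 1)))) ∈ Ia k ρ ^ 5 := by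
  have h1 := yz_congr (k := k) hs h3 hc (((hy.mul hy).mul (hy.mul hy)).mul hy) h
  have h2 := yz_congr (k := k) hs h3 hc' (((hy'.mul hy').mul (hy'.mul hy')).mul hy') h'
  rw [yz_mul ((hy.mul hy).mul (hy.mul hy)) hy, yz_mul (hy.mul hy) (hy.mul hy), yz_mul hy hy] at h1
  rw [yz_mul ((hy'.mul hy').mul (hy'.mul hy')) hy', yz_mul (hy'.mul hy') (hy'.mul hy'),
    yz_mul hy' hy'] at h2
  have h4 := fifth_pair (k := k) (ρ := ρ) h3 o o' (yz_mem hy) (yz_mem hy')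
  obtain ⟨l, hl⟩ : ∃ l, l = (yz ρ y - 1) + (yz ρ y' - 1) := ⟨_, rfl⟩
  rw [← hl] at h4 ⊢
  have e : yz ρ c + yz ρ c' - (2 + (l - l * l)) =
      (yz ρ c - (yz ρ y * yz ρ y) * (yz ρ y * yz ρ y) * yz ρ y) +
      (yz ρ c' - (yz ρ y' * yz ρ y') * (yz ρ y' * yz ρ y') * yz ρ y') +
      (yz ρ y ^ 5 - 1 + (yz ρ y' ^ 5 - 1) - (l - l * l)) := by
    rw [show (2 : R) = 1 + 1 by norm_num]
    noncomm_ring
  rw [e]
  exact Submodule.add_mem _ (Submodule.add_mem _ h1 h2) h4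

theorem tau0 (hs : Sc ρ) (h3 : (3 : R) = 0) :
    tau ρ 0 - (2 + (t1 ρ - t1 ρ * t1 ρ)) ∈ Ia k ρ ^ 5 :=
  fifth_yz hs h3 10 1 (by decide) (by decide) (by decide) (by decide) (by decide) (by decide)
    (opp1 hs) (opp1' hs)
theorem tau1 (hs : Sc ρ) (h3 : (3 : R) = 0) :
    tau ρ 1 - (2 + (t2 ρ - t2 ρ * t2 ρ)) ∈ Ia k ρ ^ 5 :=
  fifth_yz hs h3 10 1 (by decide) (by decide) (by decide) (by decide) (by decide) (by decide)
    (opp2 hs) (opp2' hs)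
theorem tau2 (hs : Sc ρ) (h3 : (3 : R) = 0) :
    tau ρ 2 - (2 + (t3 ρ - t3 ρ * t3 ρ)) ∈ Ia k ρ ^ 5 :=
  fifth_yz hs h3 10 1 (by decide) (by decide) (by decide) (by decide) (by decide) (by decide)
    (opp3 hs) (opp3' hs)

/-- the symmetrized coefficients at seven -/
noncomputable def C7 (ρ : (Hn N)ˣ →* R) (i : Fin 3) : R :=
  yz ρ ev * (![a7_0 ρ, a7_1 ρ, a7_2 ρ] : Fin 3 → R) i * yz ρ (Hv i)
/-- the symmetrized coefficients at eleven -/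
noncomputable def C11 (ρ : (Hn N)ˣ →* R) (i : Fin 3) : R :=
  yz ρ ev * (![0, a11_1 ρ, a11_2 ρ] : Fin 3 → R) i * yz ρ (Hv i)
/-- the symmetrized coefficients at thirteen -/
noncomputable def C13 (ρ : (Hn N)ˣ →* R) (i : Fin 3) : R :=
  yz ρ ev * (![a13_0 ρ, a13_1 ρ, a13_2 ρ] : Fin 3 → R) i * yz ρ (Hv i)

/-- the sum of the three pairs -/
noncomputable def q2' (ρ : (Hn N)ˣ →* R) : R := t1 ρ + t2 ρ + t3 ρ
/-- the quartic operator -/
noncomputable def q4' (ρ : (Hn N)ˣ →* R) : R := t1 ρ * t1 ρ + t2 ρ * t2 ρ + t3 ρ * t3 ρ +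
  (t1 ρ * t2 ρ + t2 ρ * t3 ρ + t1 ρ * t3 ρ)
/-- the multiplier of the trace relation -/
noncomputable def pP (ρ : (Hn N)ˣ →* R) : R := 1 + (t2 ρ + t3 ρ +
  (t2 ρ * t3 ρ - (t1 ρ * t1 ρ + t2 ρ * t2 ρ + t3 ρ * t3 ρ)))

/-- commutators of elements of the square -/
theorem comm_two (hs : Sc ρ) (h3 : (3 : R) = 0) {u v : R} (hu : u ∈ Ia k ρ ^ 2)
    (hv : v ∈ Ia k ρ ^ 2) : u * v - v * u ∈ Ia k ρ ^ 5 := by
  have e2 : Ia k ρ ^ 2 = Ia k ρ ^ 1 * Ia k ρ ^ 1 := by rw [← pow_add]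
  rw [e2] at hu
  induction hu using Submodule.mul_induction_on' with
  | mem_mul_mem x hx y hy =>
    have e : x * y * v - v * (x * y) = x * (y * v - v * y) + (x * v - v * x) * y := by
      noncomm_ring
    rw [e]
    exact Submodule.add_mem _ (fmul hx (comm_pow hs h3 2 hy hv))
      (fmul (comm_pow hs h3 2 hx hv) hy)
  | add x _ y _ h1 h2 =>
    have : (x + y) * v - v * (x + y) = (x * v - v * x) + (y * v - v * y) := by noncomm_ring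
    rw [this]
    exact Submodule.add_mem _ h1 h2

/-- approximations modulo the fifth power multiply -/
theorem mul5 {p x x' : R} (hp : p - 1 ∈ Ia k ρ ^ 1) (h : x - x' ∈ Ia k ρ ^ 5) :
    p * x - p * x' ∈ Ia k ρ ^ 5 := by
  have e : p * x - p * x' = (p - 1) * (x - x') + (x - x') := by noncomm_ring
  rw [e]
  exact Submodule.add_mem _ (Ia_anti (b := 1 + 5) (by norm_num) (by norm_num) (fmul hp h)) h

theorem pP_mem (hs : Sc ρ) (h3 : (3 : R) = 0) : pP ρ - 1 ∈ Ia k ρ ^ 1 := by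
  have m1 : t1 ρ ∈ Ia k ρ ^ 2 := t1_mem hs
  have m2 : t2 ρ ∈ Ia k ρ ^ 2 := t2_mem hs
  have m3 : t3 ρ ∈ Ia k ρ ^ 2 := t3_mem hs
  unfold pP
  rw [add_sub_cancel_left]
  have l2 : ∀ {x : R}, x ∈ Ia k ρ ^ 2 → x ∈ Ia k ρ ^ 1 := fun h => Ia_anti (by norm_num)
    (by norm_num) h
  have l4 : ∀ {x y : R}, x ∈ Ia k ρ ^ 2 → y ∈ Ia k ρ ^ 2 → x * y ∈ Ia k ρ ^ 1 := fun h h' =>
    Ia_anti (b := 2 + 2) (by norm_num) (by norm_num) (fmul h h')
  exact Submodule.add_mem _ (Submodule.add_mem _ (l2 m2) (l2 m3)) (Submodule.sub_mem _ (l4 m2 m3)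
    (Submodule.add_mem _ (Submodule.add_mem _ (l4 m1 m1) (l4 m2 m2)) (l4 m3 m3)))

theorem comb0_aux {a b c P Q S : R} (h3 : (3 : R) = 0) (m1 : a ∈ Ia k ρ ^ 2)
    (m2 : b ∈ Ia k ρ ^ 2) (m3 : c ∈ Ia k ρ ^ 2)
    (x7 : P - (4 + (b + b + (c + c) + b * c)) ∈ Ia k ρ ^ 5)
    (x13 : Q - (2 + (a - a * a)) ∈ Ia k ρ ^ 5)
    (xt : (1 + (b + c + (b * c - (a * a + b * b + c * c)))) * S -
        (1 + (b + c + (b * c - (a * a + b * b + c * c)))) * (2 + (a - a * a)) ∈ Ia k ρ ^ 5)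
    (k1 : a * b - b * a ∈ Ia k ρ ^ 5) (k2 : a * c - c * a ∈ Ia k ρ ^ 5) :
    P + Q - 10 - (1 + (b + c + (b * c - (a * a + b * b + c * c)))) * S +
      (a * a + b * b + c * c + (a * b + b * c + a * c)) ∈ Ia k ρ ^ 5 := by
  have e : P + Q - 10 - (1 + (b + c + (b * c - (a * a + b * b + c * c)))) * S +
      (a * a + b * b + c * c + (a * b + b * c + a * c)) =
      (P - (4 + (b + b + (c + c) + b * c))) + (Q - (2 + (a - a * a))) -
      ((1 + (b + c + (b * c - (a * a + b * b + c * c)))) * S -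
        (1 + (b + c + (b * c - (a * a + b * b + c * c)))) * (2 + (a - a * a))) +
      (a * b - b * a) + (a * c - c * a) +
      3 * (a * a + b * b + c * c - 1 - 1) +
      ((b + c) * (a * a) - (b * c - (a * a + b * b + c * c)) * a +
        (b * c - (a * a + b * b + c * c)) * (a * a)) := by
    rw [show (10 : R) = 1 + 1 + 1 + 1 + 1 + 1 + 1 + 1 + 1 + 1 by norm_num,
      show (4 : R) = 1 + 1 + 1 + 1 by norm_num, show (2 : R) = 1 + 1 by norm_num,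
      show (3 : R) = 1 + 1 + 1 by norm_num]
    noncomm_ring
  rw [e, h3, zero_mul, add_zero]
  have l4 : ∀ {x y : R}, x ∈ Ia k ρ ^ 2 → y ∈ Ia k ρ ^ 2 → x * y ∈ Ia k ρ ^ 4 := fun h h' =>
    fmul h h'
  have l6 : ∀ {x y : R}, x ∈ Ia k ρ ^ 4 → y ∈ Ia k ρ ^ 2 → x * y ∈ Ia k ρ ^ 5 := fun h h' =>
    Ia_anti (b := 4 + 2) (by norm_num) (by norm_num) (fmul h h')
  have l6' : ∀ {x y : R}, x ∈ Ia k ρ ^ 2 → y ∈ Ia k ρ ^ 4 → x * y ∈ Ia k ρ ^ 5 := fun h h' =>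
    Ia_anti (b := 2 + 4) (by norm_num) (by norm_num) (fmul h h')
  have g4 : b * c - (a * a + b * b + c * c) ∈ Ia k ρ ^ 4 := Submodule.sub_mem _ (l4 m2 m3)
    (Submodule.add_mem _ (Submodule.add_mem _ (l4 m1 m1) (l4 m2 m2)) (l4 m3 m3))
  refine Submodule.add_mem _ (Submodule.add_mem _ (Submodule.add_mem _ (Submodule.sub_mem _
    (Submodule.add_mem _ x7 x13) xt) k1) k2) ?_
  exact Submodule.add_mem _ (Submodule.sub_mem _ (l6' (Submodule.add_mem _ m2 m3) (l4 m1 m1))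
    (l6 g4 m1)) (Ia_anti (b := 4 + 4) (by norm_num) (by norm_num) (fmul g4 (l4 m1 m1)))

theorem comb0 (hs : Sc ρ) (h3 : (3 : R) = 0) :
    C7 ρ 0 - C11 ρ 0 + C13 ρ 0 - 10 - pP ρ * tau ρ 0 + q4' ρ ∈ Ia k ρ ^ 5 := by
  have e0 : C11 ρ 0 = 0 := by
    unfold C11
    show yz ρ ev * 0 * yz ρ (Hv 0) = 0
    rw [mul_zero, zero_mul]
  rw [e0, sub_zero]
  exact comb0_aux h3 (t1_mem hs) (t2_mem hs) (t3_mem hs) (c7_0 (k := k) hs h3)
    (c13_0 (k := k) hs h3) (mul5 (pP_mem (k := k) hs h3) (tau0 (k := k) hs h3))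
    (comm_two hs h3 (t1_mem hs) (t2_mem hs)) (comm_two hs h3 (t1_mem hs) (t3_mem hs))

theorem comb1_aux {a b c P O Q S U V W : R} (h3 : (3 : R) = 0) (m1 : a ∈ Ia k ρ ^ 2)
    (m2 : b ∈ Ia k ρ ^ 2) (m3 : c ∈ Ia k ρ ^ 2) (x7 : P - (2 + (c + c * c)) ∈ Ia k ρ ^ 5)
    (x11 : O - (2 + U) ∈ Ia k ρ ^ 5) (x13 : Q - (V + W) ∈ Ia k ρ ^ 5)
    (xv : V - U - (a * a + b * b) ∈ Ia k ρ ^ 5) (ey : W = c + 2)
    (xt : (1 + (b + c + (b * c - (a * a + b * b + c * c)))) * S -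
        (1 + (b + c + (b * c - (a * a + b * b + c * c)))) * (2 + (b - b * b)) ∈ Ia k ρ ^ 5)
    (k1 : b * c - c * b ∈ Ia k ρ ^ 5) :
    P - O + Q - (1 + (b + c + (b * c - (a * a + b * b + c * c)))) * S ∈ Ia k ρ ^ 5 := by
  have e : P - O + Q - (1 + (b + c + (b * c - (a * a + b * b + c * c)))) * S =
      (P - (2 + (c + c * c))) - (O - (2 + U)) + (Q - (V + W)) +
      (V - U - (a * a + b * b)) + (W - (c + 2)) -
      ((1 + (b + c + (b * c - (a * a + b * b + c * c)))) * S -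
        (1 + (b + c + (b * c - (a * a + b * b + c * c)))) * (2 + (b - b * b))) +
      (b * c - c * b) +
      3 * (a * a + b * b + c * c - b * c - b) +
      ((b + c) * (b * b) - (b * c - (a * a + b * b + c * c)) * b +
        (b * c - (a * a + b * b + c * c)) * (b * b)) := by
    rw [show (2 : R) = 1 + 1 by norm_num, show (3 : R) = 1 + 1 + 1 by norm_num]
    noncomm_ring
  rw [e, h3, zero_mul, add_zero, ey, sub_self, add_zero]
  rw [ey] at x13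
  have l4 : ∀ {x y : R}, x ∈ Ia k ρ ^ 2 → y ∈ Ia k ρ ^ 2 → x * y ∈ Ia k ρ ^ 4 := fun h h' =>
    fmul h h'
  have l6 : ∀ {x y : R}, x ∈ Ia k ρ ^ 4 → y ∈ Ia k ρ ^ 2 → x * y ∈ Ia k ρ ^ 5 := fun h h' =>
    Ia_anti (b := 4 + 2) (by norm_num) (by norm_num) (fmul h h')
  have l6' : ∀ {x y : R}, x ∈ Ia k ρ ^ 2 → y ∈ Ia k ρ ^ 4 → x * y ∈ Ia k ρ ^ 5 := fun h h' =>
    Ia_anti (b := 2 + 4) (by norm_num) (by norm_num) (fmul h h')
  have g4 : b * c - (a * a + b * b + c * c) ∈ Ia k ρ ^ 4 := Submodule.sub_mem _ (l4 m2 m3)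
    (Submodule.add_mem _ (Submodule.add_mem _ (l4 m1 m1) (l4 m2 m2)) (l4 m3 m3))
  refine Submodule.add_mem _ (Submodule.add_mem _ (Submodule.sub_mem _ (Submodule.add_mem _
    (Submodule.add_mem _ (Submodule.sub_mem _ x7 x11) x13) xv) xt) k1) ?_
  exact Submodule.add_mem _ (Submodule.sub_mem _ (l6' (Submodule.add_mem _ m2 m3) (l4 m2 m2))
    (l6 g4 m2)) (Ia_anti (b := 4 + 4) (by norm_num) (by norm_num) (fmul g4 (l4 m2 m2)))

theorem comb1 (hs : Sc ρ) (h3 : (3 : R) = 0) :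
    C7 ρ 1 - C11 ρ 1 + C13 ρ 1 - pP ρ * tau ρ 1 ∈ Ia k ρ ^ 5 := by
  have x13 := a13_1_app (k := k) hs h3
  have xv := vplus (k := k) hs h3
  have e : ∀ v1 v2 y' y v3 v4 : R, v1 + v2 + y' + y + v3 + v4 = (v1 + v2 + v3 + v4) + (y' + y) := by
    intros; abel
  rw [e] at x13
  refine comb1_aux h3 (t1_mem hs) (t2_mem hs) (t3_mem hs) (c7_1 (k := k) hs h3)
    (c11_1 (k := k) hs h3) x13 xv ?_ (mul5 (pP_mem (k := k) hs h3) (tau1 (k := k) hs h3))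
    (comm_two hs h3 (t2_mem hs) (t3_mem hs))
  unfold t3 sg
  rw [show (2 : R) = 1 + 1 by norm_num]
  abel

theorem comb2_aux {a b c P O Q S U V W : R} (h3 : (3 : R) = 0) (m1 : a ∈ Ia k ρ ^ 2)
    (m2 : b ∈ Ia k ρ ^ 2) (m3 : c ∈ Ia k ρ ^ 2) (x7 : P - (2 + (b + b * b)) ∈ Ia k ρ ^ 5)
    (x11 : O - (2 + U) ∈ Ia k ρ ^ 5) (x13 : Q - (V + W) ∈ Ia k ρ ^ 5)
    (xv : V - U - (a * a + c * c) ∈ Ia k ρ ^ 5) (ey : W = b + 2)
    (xt : (1 + (b + c + (b * c - (a * a + b * b + c * c)))) * S -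
        (1 + (b + c + (b * c - (a * a + b * b + c * c)))) * (2 + (c - c * c)) ∈ Ia k ρ ^ 5) :
    P - O + Q - (1 + (b + c + (b * c - (a * a + b * b + c * c)))) * S ∈ Ia k ρ ^ 5 := by
  have e : P - O + Q - (1 + (b + c + (b * c - (a * a + b * b + c * c)))) * S =
      (P - (2 + (b + b * b))) - (O - (2 + U)) + (Q - (V + W)) +
      (V - U - (a * a + c * c)) + (W - (b + 2)) -
      ((1 + (b + c + (b * c - (a * a + b * b + c * c)))) * S -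
        (1 + (b + c + (b * c - (a * a + b * b + c * c)))) * (2 + (c - c * c))) +
      3 * (a * a + b * b + c * c - b * c - c) +
      ((b + c) * (c * c) - (b * c - (a * a + b * b + c * c)) * c +
        (b * c - (a * a + b * b + c * c)) * (c * c)) := by
    rw [show (2 : R) = 1 + 1 by norm_num, show (3 : R) = 1 + 1 + 1 by norm_num]
    noncomm_ring
  rw [e, h3, zero_mul, add_zero, ey, sub_self, add_zero]
  rw [ey] at x13
  have l4 : ∀ {x y : R}, x ∈ Ia k ρ ^ 2 → y ∈ Ia k ρ ^ 2 → x * y ∈ Ia k ρ ^ 4 := fun h h' =>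
    fmul h h'
  have l6 : ∀ {x y : R}, x ∈ Ia k ρ ^ 4 → y ∈ Ia k ρ ^ 2 → x * y ∈ Ia k ρ ^ 5 := fun h h' =>
    Ia_anti (b := 4 + 2) (by norm_num) (by norm_num) (fmul h h')
  have l6' : ∀ {x y : R}, x ∈ Ia k ρ ^ 2 → y ∈ Ia k ρ ^ 4 → x * y ∈ Ia k ρ ^ 5 := fun h h' =>
    Ia_anti (b := 2 + 4) (by norm_num) (by norm_num) (fmul h h')
  have g4 : b * c - (a * a + b * b + c * c) ∈ Ia k ρ ^ 4 := Submodule.sub_mem _ (l4 m2 m3)
    (Submodule.add_mem _ (Submodule.add_mem _ (l4 m1 m1) (l4 m2 m2)) (l4 m3 m3))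
  refine Submodule.add_mem _ (Submodule.sub_mem _ (Submodule.add_mem _
    (Submodule.add_mem _ (Submodule.sub_mem _ x7 x11) x13) xv) xt) ?_
  exact Submodule.add_mem _ (Submodule.sub_mem _ (l6' (Submodule.add_mem _ m2 m3) (l4 m3 m3))
    (l6 g4 m3)) (Ia_anti (b := 4 + 4) (by norm_num) (by norm_num) (fmul g4 (l4 m3 m3)))

theorem comb2 (hs : Sc ρ) (h3 : (3 : R) = 0) :
    C7 ρ 2 - C11 ρ 2 + C13 ρ 2 - pP ρ * tau ρ 2 ∈ Ia k ρ ^ 5 := by
  have x13 := a13_2_app (k := k) hs h3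
  have xv := vminus (k := k) hs h3
  have e : ∀ v1 v2 y' y v3 v4 : R, v1 + v2 + y' + y + v3 + v4 = (v1 + v2 + v3 + v4) + (y' + y) := by
    intros; abel
  rw [e] at x13
  refine comb2_aux h3 (t1_mem hs) (t2_mem hs) (t3_mem hs) (c7_2 (k := k) hs h3)
    (c11_2 (k := k) hs h3) x13 xv ?_ (mul5 (pP_mem (k := k) hs h3) (tau2 (k := k) hs h3))
  unfold t2 sg
  rw [show (2 : R) = 1 + 1 by norm_num]
  abel

end

end Pool.Agent.Helper725_HQ.E5
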