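import Pool.Agent.Helper725_HQ.EQ

/-! Low order expansions of the Hecke relations in level five. -/

set_option autoImplicit false
set_option linter.unusedVariables false
set_option linter.unusedSimpArgs false

namespace Pool.Agent.Helper725_HQ.E5

open Quaternion

section
variable {N : ℕ}

/-- congruent modulo nine up to a scalar -/
def Cn (s : ℤ) (c d : Fin 4 → ℤ) : Prop := s % 3 ≠ 0 ∧ ∀ i, (c i - s * d i) % 9 = 0

instance (s : ℤ) (c d : Fin 4 → ℤ) : Decidable (Cn s c d) := by unfold Cn; infer_instance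

theorem uz_congr9 {c d : Fin 4 → ℤ} (hc : Go c) (hd : Go d) {s : ℤ} (h : Cn s c d) :
    (uz N d)⁻¹ * uz N c ∈ Kz N 2 := by
  obtain ⟨h1, h2⟩ := h
  obtain ⟨t, ht⟩ := int_unit (N := N) h1
  have h3 : ∀ i, ∃ m : ℤ, c i = s * d i + 9 * m := by
    intro i
    obtain ⟨m, hm⟩ := Int.dvd_of_emod_eq_zero (h2 i)
    exact ⟨m, by linear_combination hm⟩
  choose m hm using h3
  refine ⟨t, ((t⁻¹ : (Zn N)ˣ) : Zn N) • (((uz N d)⁻¹ : (Hn N)ˣ) * zq N m), ?_⟩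
  rw [Units.val_mul, uz_val hc]
  have e : zq N c = (t : Zn N) • zq N d + (9 : Zn N) • zq N m := by
    unfold zq
    rw [ht]
    apply Quaternion.ext
    · simp [hm]
    · simp [hm]
    · simp [hm]
    · simp [hm]
  have e2 : (((uz N d)⁻¹ : (Hn N)ˣ) : Hn N) * zq N d = 1 := by
    rw [← uz_val hd, Units.inv_mul]
  rw [e, mul_add, mul_smul_comm, mul_smul_comm, e2, smul_add, smul_smul, smul_smul]
  have e3 : (t : Zn N) * (3 : Zn N) ^ 2 * ((t⁻¹ : (Zn N)ˣ) : Zn N) = 9 := by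
    have : (t : Zn N) * ((t⁻¹ : (Zn N)ˣ) : Zn N) = 1 := Units.mul_inv t
    linear_combination 9 * this
  rw [e3]

end

section
variable {N : ℕ} {k : Type*} [CommRing k] {R : Type*} [Ring R] [Algebra k R]
  {ρ : (Hn N)ˣ →* R}

theorem yz_congr9 (hs : Sc ρ) (h3 : (3 : R) = 0) {c d : Fin 4 → ℤ} (hc : Go c) (hd : Go d) {s : ℤ}
    (h : Cn s c d) : yz ρ c - yz ρ d ∈ Ia k ρ ^ 3 := by
  have h1 := uz_congr9 (N := N) hc hd h
  have h2 : ρ ((uz N d)⁻¹ * uz N c) - 1 ∈ Ia k ρ ^ 3 := y_mem hs h3 1 h1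
  have h4 : yz ρ c - yz ρ d = (yz ρ d - 1) * (ρ ((uz N d)⁻¹ * uz N c) - 1) +
      (ρ ((uz N d)⁻¹ * uz N c) - 1) := by
    unfold yz
    have : ρ (uz N c) = ρ (uz N d) * ρ ((uz N d)⁻¹ * uz N c) := by
      rw [← map_mul, mul_inv_cancel_left]
    rw [this]; noncomm_ring
  rw [h4]
  refine Submodule.add_mem _ ?_ (Ia_anti (by norm_num) (by norm_num) h2)
  exact Ia_anti (b := 1 + 3) (by norm_num) (by norm_num) (fmul (yz_mem hd) h2)

/-- the square of a diagonal vector modulo the cube of the ideal -/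
theorem sq_three (hs : Sc ρ) (h3 : (3 : R) = 0) {w a b c : Fin 4 → ℤ} (hw : Go w) (ha : Go a)
    (hb : Go b) (hc : Go c) (h : Cn 1 (mq w w) (mq (mq a b) c)) :
    yz ρ w * yz ρ w - yz ρ a * yz ρ b * yz ρ c ∈ Ia k ρ ^ 3 := by
  rw [← yz_mul hw hw, ← yz_mul ha hb, ← yz_mul (ha.mul hb) hc]
  exact yz_congr9 hs h3 (hw.mul hw) ((ha.mul hb).mul hc) h

/-- a sum of four products -/
theorem four_prod {x x' y y' z z' : R} (hx : x - 1 ∈ Ia k ρ ^ 1) (hx' : x' - 1 ∈ Ia k ρ ^ 1)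
    (hy : y - 1 ∈ Ia k ρ ^ 1) (hy' : y' - 1 ∈ Ia k ρ ^ 1) (hz : z - 1 ∈ Ia k ρ ^ 1)
    (hz' : z' - 1 ∈ Ia k ρ ^ 1) (tx : (x - 1) + (x' - 1) ∈ Ia k ρ ^ 2)
    (ty : (y - 1) + (y' - 1) ∈ Ia k ρ ^ 2) (tz : (z - 1) + (z' - 1) ∈ Ia k ρ ^ 2) :
    (x * y * z + x * y' * z' + x' * y * z' + x' * y' * z) - (4 + 2 * (((x - 1) + (x' - 1)) +
      ((y - 1) + (y' - 1)) + ((z - 1) + (z' - 1)))) ∈ Ia k ρ ^ 3 := by
  obtain ⟨u, rfl⟩ : ∃ u, x = 1 + u := ⟨x - 1, by abel⟩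
  obtain ⟨v, rfl⟩ : ∃ u, y = 1 + u := ⟨y - 1, by abel⟩
  obtain ⟨w, rfl⟩ : ∃ u, z = 1 + u := ⟨z - 1, by abel⟩
  obtain ⟨a, ha⟩ : ∃ a, a = (1 + u - 1) + (x' - 1) := ⟨_, rfl⟩
  obtain ⟨b, hb⟩ : ∃ a, a = (1 + v - 1) + (y' - 1) := ⟨_, rfl⟩
  obtain ⟨c, hc⟩ : ∃ a, a = (1 + w - 1) + (z' - 1) := ⟨_, rfl⟩
  rw [← ha] at tx ⊢
  rw [← hb] at ty ⊢
  rw [← hc] at tz ⊢
  obtain rfl : x' = 1 + (a - u) := by rw [ha]; abel
  obtain rfl : y' = 1 + (b - v) := by rw [hb]; abel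
  obtain rfl : z' = 1 + (c - w) := by rw [hc]; abel
  rw [add_sub_cancel_left] at hx hx' hy hy' hz hz'
  have e : ((1 + u) * (1 + v) * (1 + w) + (1 + u) * (1 + (b - v)) * (1 + (c - w)) +
      (1 + (a - u)) * (1 + v) * (1 + (c - w)) + (1 + (a - u)) * (1 + (b - v)) * (1 + w)) -
      (4 + 2 * (a + b + c)) =
      (a * b + a * c + b * c) +
      (u * v * w + u * (b - v) * (c - w) + (a - u) * v * (c - w) + (a - u) * (b - v) * w) := by
    rw [show (4 : R) = 1 + 1 + 1 + 1 by norm_num, show (2 : R) = 1 + 1 by norm_num]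
    noncomm_ring
  rw [e]
  have q : ∀ {x y : R}, x ∈ Ia k ρ ^ 2 → y ∈ Ia k ρ ^ 2 → x * y ∈ Ia k ρ ^ 3 := fun h h' =>
    Ia_anti (b := 2 + 2) (by norm_num) (by norm_num) (fmul h h')
  exact Submodule.add_mem _ (Submodule.add_mem _ (Submodule.add_mem _ (q tx ty) (q tx tz))
    (q ty tz)) (Submodule.add_mem _ (Submodule.add_mem _ (Submodule.add_mem _
      (fmul (fmul hx hy) hz) (fmul (fmul hx hy') hz')) (fmul (fmul hx' hy) hz'))
      (fmul (fmul hx' hy') hz))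

theorem eleven_aux (h3 : (3 : R) = 0) {O a b c d a' b' c' d' q : R}
    (h1 : O - (2 + (a + b + c + d)) ∈ Ia k ρ ^ 5) (w1 : a - a' ∈ Ia k ρ ^ 3)
    (w2 : b - b' ∈ Ia k ρ ^ 3) (w3 : c - c' ∈ Ia k ρ ^ 3) (w4 : d - d' ∈ Ia k ρ ^ 3)
    (f : (a' + b' + c' + d') - (4 + 2 * q) ∈ Ia k ρ ^ 3) : O + q ∈ Ia k ρ ^ 3 := by
  have e : O + q = (O - (2 + (a + b + c + d))) + (a - a') + (b - b') + (c - c') + (d - d') +
      ((a' + b' + c' + d') - (4 + 2 * q)) + 3 * (q + 1 + 1) := by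
    rw [show (4 : R) = 1 + 1 + 1 + 1 by norm_num, show (2 : R) = 1 + 1 by norm_num,
      show (3 : R) = 1 + 1 + 1 by norm_num]
    noncomm_ring
  rw [e, h3, zero_mul, add_zero]
  exact Submodule.add_mem _ (Submodule.add_mem _ (Submodule.add_mem _ (Submodule.add_mem _
    (Submodule.add_mem _ (Ia_anti (by norm_num) (by norm_num) h1) w1) w2) w3) w4) f

/-- the operator at eleven to second order -/
theorem eleven_1 (hs : Sc ρ) (h3 : (3 : R) = 0) : C11 ρ 1 + q2' ρ ∈ Ia k ρ ^ 3 := by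
  have h1 : C11 ρ 1 - _ ∈ Ia k ρ ^ 5 := c11_1 (k := k) hs h3
  have w1 := sq_three (k := k) hs h3 (w := ![1, -3, -3, -3]) (a := ![1, 3, 0, 0])
    (b := ![1, 0, 3, 0]) (c := ![1, 0, 0, 3]) (by decide) (by decide) (by decide) (by decide)
    (by decide)
  have w2 := sq_three (k := k) hs h3 (w := ![1, -3, 3, 3]) (a := ![1, 3, 0, 0])
    (b := ![1, 0, -3, 0]) (c := ![1, 0, 0, -3]) (by decide) (by decide) (by decide) (by decide)
    (by decide)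
  have w3 := sq_three (k := k) hs h3 (w := ![1, 3, -3, 3]) (a := ![1, -3, 0, 0])
    (b := ![1, 0, 3, 0]) (c := ![1, 0, 0, -3]) (by decide) (by decide) (by decide) (by decide)
    (by decide)
  have w4 := sq_three (k := k) hs h3 (w := ![1, 3, 3, -3]) (a := ![1, -3, 0, 0])
    (b := ![1, 0, -3, 0]) (c := ![1, 0, 0, 3]) (by decide) (by decide) (by decide) (by decide)
    (by decide)
  have f := four_prod (k := k) (ρ := ρ) (yz_mem (c := ![1, 3, 0, 0]) (by decide))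
    (yz_mem (c := ![1, -3, 0, 0]) (by decide)) (yz_mem (c := ![1, 0, 3, 0]) (by decide))
    (yz_mem (c := ![1, 0, -3, 0]) (by decide)) (yz_mem (c := ![1, 0, 0, 3]) (by decide))
    (yz_mem (c := ![1, 0, 0, -3]) (by decide)) (t1_mem hs) (t2_mem hs) (t3_mem hs)
  exact eleven_aux h3 h1 w1 w2 w3 w4 f

theorem eleven_2 (hs : Sc ρ) (h3 : (3 : R) = 0) : C11 ρ 2 + q2' ρ ∈ Ia k ρ ^ 3 := by
  have h1 : C11 ρ 2 - _ ∈ Ia k ρ ^ 5 := c11_2 (k := k) hs h3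
  have w1 := sq_three (k := k) hs h3 (w := ![1, -3, 3, -3]) (a := ![1, 3, 0, 0])
    (b := ![1, 0, -3, 0]) (c := ![1, 0, 0, 3]) (by decide) (by decide) (by decide) (by decide)
    (by decide)
  have w2 := sq_three (k := k) hs h3 (w := ![1, -3, -3, 3]) (a := ![1, 3, 0, 0])
    (b := ![1, 0, 3, 0]) (c := ![1, 0, 0, -3]) (by decide) (by decide) (by decide) (by decide)
    (by decide)
  have w3 := sq_three (k := k) hs h3 (w := ![1, 3, 3, 3]) (a := ![1, -3, 0, 0])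
    (b := ![1, 0, -3, 0]) (c := ![1, 0, 0, -3]) (by decide) (by decide) (by decide) (by decide)
    (by decide)
  have w4 := sq_three (k := k) hs h3 (w := ![1, 3, -3, -3]) (a := ![1, -3, 0, 0])
    (b := ![1, 0, 3, 0]) (c := ![1, 0, 0, 3]) (by decide) (by decide) (by decide) (by decide)
    (by decide)
  have f := four_prod (k := k) (ρ := ρ) (yz_mem (c := ![1, 3, 0, 0]) (by decide))
    (yz_mem (c := ![1, -3, 0, 0]) (by decide)) (yz_mem (c := ![1, 0, -3, 0]) (by decide))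
    (yz_mem (c := ![1, 0, 3, 0]) (by decide)) (yz_mem (c := ![1, 0, 0, 3]) (by decide))
    (yz_mem (c := ![1, 0, 0, -3]) (by decide)) (t1_mem hs) (by
      have := t2_mem (k := k) hs
      unfold t2 sg at this
      rwa [add_comm] at this) (t3_mem hs)
  have e : (yz ρ ![1, 0, -3, 0] - 1) + (yz ρ ![1, 0, 3, 0] - 1) =
      (yz ρ ![1, 0, 3, 0] - 1) + (yz ρ ![1, 0, -3, 0] - 1) := add_comm _ _
  rw [e] at f
  exact eleven_aux h3 h1 w1 w2 w3 w4 f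

end

end Pool.Agent.Helper725_HQ.E5
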