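import Pool.Agent.Helper725_HQ.ER

/-! Consequences of the relations for triples of functions. -/

set_option autoImplicit false
set_option linter.unusedVariables false
set_option linter.unusedSimpArgs false

namespace Pool.Agent.Helper725_HQ.E5

open Quaternion

section
variable {N : ℕ} {k : Type*} [CommRing k] {M : Type*} [AddCommGroup M] [Module k M]
  {ρ : (Hn N)ˣ →* Module.End k M}

/-- the inverses of the vectors `Hv` -/
def Iv : Fin 3 → Fin 4 → ℤ := ![![1, 12, 0, 0], ![1, 0, 12, 0], ![1, 0, 0, 12]]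

theorem Iv_inv (hs : Sc ρ) (i : Fin 3) : yz ρ (Hv i) * yz ρ (Iv i) = 1 := by
  fin_cases i
  · exact opp hs 145 (by decide) (by decide) (by decide) (by decide)
  · exact opp hs 145 (by decide) (by decide) (by decide) (by decide)
  · exact opp hs 145 (by decide) (by decide) (by decide) (by decide)

theorem Iv_Go (i : Fin 3) : Go (Iv i) := by
  fin_cases i <;> decide
theorem Hv_Go (i : Fin 3) : Go (Hv i) := by
  fin_cases i <;> decide
theorem Mv_Go (i : Fin 3) : Go (Mv i) := by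
  fin_cases i <;> decide

/-- the relations satisfied by a triple -/
structure Rl (ρ : (Hn N)ˣ →* Module.End k M) (G : Fin 3 → M) (c7 c11 c13 : k) : Prop where
  tr : (G 0 + yz ρ (Mv 0) (G 0)) + (G 1 + yz ρ (Mv 1) (G 1)) + (G 2 + yz ρ (Mv 2) (G 2)) = 0
  r7 : a7_0 ρ (G 0) + a7_1 ρ (G 1) + a7_2 ρ (G 2) = c7 • G 0
  r11 : a11_1 ρ (G 1) + a11_2 ρ (G 2) = c11 • G 0
  r13 : a13_0 ρ (G 0) + a13_1 ρ (G 1) + a13_2 ρ (G 2) = c13 • G 0

/-- the symmetrized functions -/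
noncomputable def ph (ρ : (Hn N)ˣ →* Module.End k M) (G : Fin 3 → M) (i : Fin 3) : M :=
  yz ρ (Iv i) (G i)

theorem ph_inv (hs : Sc ρ) (G : Fin 3 → M) (i : Fin 3) : yz ρ (Hv i) (ph ρ G i) = G i := by
  unfold ph
  rw [← Module.End.mul_apply, Iv_inv hs]
  rfl

theorem sym_rel (hs : Sc ρ) {G : Fin 3 → M} {A0 A1 A2 : Module.End k M} {c : k}
    (h : A0 (G 0) + A1 (G 1) + A2 (G 2) = c • G 0) :
    (yz ρ ev * A0 * yz ρ (Hv 0)) (ph ρ G 0) + (yz ρ ev * A1 * yz ρ (Hv 1)) (ph ρ G 1) +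
      (yz ρ ev * A2 * yz ρ (Hv 2)) (ph ρ G 2) = c • ph ρ G 0 := by
  have e : ∀ (A : Module.End k M) (i : Fin 3), (yz ρ ev * A * yz ρ (Hv i)) (ph ρ G i) =
      yz ρ ev (A (G i)) := by
    intro A i
    rw [Module.End.mul_apply, ph_inv hs, Module.End.mul_apply]
  rw [e, e, e, ← map_add, ← map_add, h, map_smul]
  rfl

theorem Rl.s7 (hs : Sc ρ) {G : Fin 3 → M} {c7 c11 c13 : k} (h : Rl ρ G c7 c11 c13) :
    C7 ρ 0 (ph ρ G 0) + C7 ρ 1 (ph ρ G 1) + C7 ρ 2 (ph ρ G 2) = c7 • ph ρ G 0 := sym_rel hs h.r7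
theorem Rl.s11 (hs : Sc ρ) {G : Fin 3 → M} {c7 c11 c13 : k} (h : Rl ρ G c7 c11 c13) :
    C11 ρ 0 (ph ρ G 0) + C11 ρ 1 (ph ρ G 1) + C11 ρ 2 (ph ρ G 2) = c11 • ph ρ G 0 := by
  have := sym_rel (A0 := 0) (A1 := a11_1 ρ) (A2 := a11_2 ρ) (c := c11) hs (G := G) (by
    rw [LinearMap.zero_apply, zero_add]; exact h.r11)
  exact this
theorem Rl.s13 (hs : Sc ρ) {G : Fin 3 → M} {c7 c11 c13 : k} (h : Rl ρ G c7 c11 c13) :
    C13 ρ 0 (ph ρ G 0) + C13 ρ 1 (ph ρ G 1) + C13 ρ 2 (ph ρ G 2) = c13 • ph ρ G 0 :=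
  sym_rel hs h.r13
theorem Rl.st (hs : Sc ρ) {G : Fin 3 → M} {c7 c11 c13 : k} (h : Rl ρ G c7 c11 c13) :
    tau ρ 0 (ph ρ G 0) + tau ρ 1 (ph ρ G 1) + tau ρ 2 (ph ρ G 2) = 0 := by
  have e : ∀ i : Fin 3, tau ρ i (ph ρ G i) = G i + yz ρ (Mv i) (G i) := by
    intro i
    unfold tau
    rw [yz_mul (Mv_Go i) (Hv_Go i), LinearMap.add_apply, Module.End.mul_apply, ph_inv hs]
  rw [e, e, e]
  exact h.tr

/-- combinations of the three functions with coefficients in a power of the ideal -/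
def InW (ρ : (Hn N)ˣ →* Module.End k M) (G : Fin 3 → M) (n : ℕ) (x : M) : Prop :=
  ∃ T0 T1 T2 : Module.End k M, T0 ∈ Ia k ρ ^ n ∧ T1 ∈ Ia k ρ ^ n ∧ T2 ∈ Ia k ρ ^ n ∧
    x = T0 (G 0) + T1 (G 1) + T2 (G 2)

theorem InW.add {G : Fin 3 → M} {n : ℕ} {x y : M} (h : InW ρ G n x) (h' : InW ρ G n y) :
    InW ρ G n (x + y) := by
  obtain ⟨a, b, c, ha, hb, hc, rfl⟩ := h
  obtain ⟨a', b', c', ha', hb', hc', rfl⟩ := h'
  refine ⟨a + a', b + b', c + c', Submodule.add_mem _ ha ha', Submodule.add_mem _ hb hb',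
    Submodule.add_mem _ hc hc', ?_⟩
  simp only [LinearMap.add_apply]
  abel

theorem InW.neg {G : Fin 3 → M} {n : ℕ} {x : M} (h : InW ρ G n x) : InW ρ G n (-x) := by
  obtain ⟨a, b, c, ha, hb, hc, rfl⟩ := h
  refine ⟨-a, -b, -c, Submodule.neg_mem _ ha, Submodule.neg_mem _ hb, Submodule.neg_mem _ hc, ?_⟩
  simp only [LinearMap.neg_apply]
  abel

theorem InW.sub {G : Fin 3 → M} {n : ℕ} {x y : M} (h : InW ρ G n x) (h' : InW ρ G n y) :
    InW ρ G n (x - y) := by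
  rw [sub_eq_add_neg]; exact h.add h'.neg

theorem InW.act {G : Fin 3 → M} {m n : ℕ} {x : M} {T : Module.End k M} (hT : T ∈ Ia k ρ ^ m)
    (h : InW ρ G n x) : InW ρ G (m + n) (T x) := by
  obtain ⟨a, b, c, ha, hb, hc, rfl⟩ := h
  refine ⟨T * a, T * b, T * c, fmul hT ha, fmul hT hb, fmul hT hc, ?_⟩
  simp only [map_add, Module.End.mul_apply]

theorem InW.anti {G : Fin 3 → M} {m n : ℕ} (hm : 1 ≤ m) (hmn : m ≤ n) {x : M}
    (h : InW ρ G n x) : InW ρ G m x := by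
  obtain ⟨a, b, c, ha, hb, hc, rfl⟩ := h
  exact ⟨a, b, c, Ia_anti hm hmn ha, Ia_anti hm hmn hb, Ia_anti hm hmn hc, rfl⟩

theorem InW.of {G : Fin 3 → M} {n : ℕ} {T : Module.End k M} (hT : T ∈ Ia k ρ ^ n) (i : Fin 3) :
    InW ρ G n (T (G i)) := by
  have z : (0 : Module.End k M) ∈ Ia k ρ ^ n := Submodule.zero_mem _
  fin_cases i
  · exact ⟨T, 0, 0, hT, z, z, by simp⟩
  · exact ⟨0, T, 0, z, hT, z, by simp⟩
  · exact ⟨0, 0, T, z, z, hT, by simp⟩

theorem InW.ofph {G : Fin 3 → M} {n : ℕ} {x : M} (hn : 1 ≤ n) (h : InW ρ (ph ρ G) n x) :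
    InW ρ G n x := by
  have key : ∀ {T : Module.End k M}, T ∈ Ia k ρ ^ n → ∀ i : Fin 3, InW ρ G n (T (ph ρ G i)) := by
    intro T hT i
    have e : T (ph ρ G i) = T (G i) + (T * (yz ρ (Iv i) - 1)) (G i) := by
      unfold ph
      rw [Module.End.mul_apply, LinearMap.sub_apply, map_sub]
      show _ = _ + (_ - T (G i))
      abel
    rw [e]
    exact (InW.of hT i).add ((InW.of (fmul hT (yz_mem (Iv_Go i))) i).anti hn (by omega))
  obtain ⟨a, b, c, ha, hb, hc, rfl⟩ := h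
  exact ((key ha 0).add (key hb 1)).add (key hc 2)

theorem InW.ofrc {G : Fin 3 → M} {n : ℕ} {x : M} (h : InW (rc ρ) ![G 1, G 2, G 0] n x) :
    InW ρ G n x := by
  obtain ⟨a, b, c, ha, hb, hc, rfl⟩ := h
  rw [rc_Ia] at ha hb hc
  refine ⟨c, a, b, hc, ha, hb, ?_⟩
  show a (G 1) + b (G 2) + c (G 0) = _
  abel

/-- the first consequence -/
theorem Rl.w1 (hs : Sc ρ) (h3 : (3 : k) = 0) {G : Fin 3 → M} {c7 c13 : k}
    (h : Rl ρ G c7 0 c13) : InW ρ G 3 (q2' ρ (G 0)) := by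
  have h3R : (3 : Module.End k M) = 0 := by
    have : (3 : Module.End k M) = algebraMap k _ 3 := by rw [map_ofNat]
    rw [this, h3, map_zero]
  have q2m : q2' ρ ∈ Ia k ρ ^ 2 := Submodule.add_mem _ (Submodule.add_mem _ (t1_mem hs)
    (t2_mem hs)) (t3_mem hs)
  have d1 := eleven_1 (k := k) hs h3R
  have d2 := eleven_2 (k := k) hs h3R
  have e0 : C11 ρ 0 = 0 := by
    unfold C11
    show yz ρ ev * 0 * yz ρ (Hv 0) = 0
    rw [mul_zero, zero_mul]
  have h1 := h.s11 hs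
  rw [e0, LinearMap.zero_apply, zero_add, zero_smul] at h1
  have h2 := h.st hs
  have tm : ∀ {a b : Module.End k M}, a ∈ Ia k ρ ^ 2 → b - (2 + (a - a * a)) ∈ Ia k ρ ^ 5 →
      q2' ρ * (b - 2) ∈ Ia k ρ ^ 3 := by
    intro a b ha hb
    have e : b - 2 = (b - (2 + (a - a * a))) + a - a * a := by abel
    rw [e]
    refine Ia_anti (b := 2 + 2) (by norm_num) (by norm_num) (fmul q2m ?_)
    exact Submodule.sub_mem _ (Submodule.add_mem _ (Ia_anti (by norm_num) (by norm_num) hb) ha)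
      (Ia_anti (b := 2 + 2) (by norm_num) (by norm_num) (fmul ha ha))
  have m0 := tm (t1_mem hs) (tau0 (k := k) hs h3R)
  have m1 := tm (t2_mem hs) (tau1 (k := k) hs h3R)
  have m2 := tm (t3_mem hs) (tau2 (k := k) hs h3R)
  -- the expression of the first function
  have w : InW ρ (ph ρ G) 3 (q2' ρ (ph ρ G 0)) := by
    refine ⟨q2' ρ * (tau ρ 0 - 2), q2' ρ * (tau ρ 1 - 2) - (C11 ρ 1 + q2' ρ),
      q2' ρ * (tau ρ 2 - 2) - (C11 ρ 2 + q2' ρ), m0, Submodule.sub_mem _ m1 d1,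
      Submodule.sub_mem _ m2 d2, ?_⟩
    have e2 : ∀ (x : M), (2 : Module.End k M) x = x + x := by
      intro x
      rw [show (2 : Module.End k M) = 1 + 1 by norm_num]; rfl
    have e3 : ∀ (x : M), x + x + x = 0 := by
      intro x
      have : (3 : k) • x = x + x + x := by
        rw [show (3 : k) = 1 + 1 + 1 by norm_num, add_smul, add_smul, one_smul]
      rw [← this, h3, zero_smul]
    have h2' : (q2' ρ : Module.End k M) (tau ρ 0 (ph ρ G 0) + tau ρ 1 (ph ρ G 1) +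
        tau ρ 2 (ph ρ G 2)) = 0 := by rw [h2, map_zero]
    rw [map_add, map_add] at h2'
    simp only [LinearMap.sub_apply, Module.End.mul_apply, LinearMap.add_apply, map_sub, e2,
      map_add]
    have E : ∀ a b c A B C x y : M, A + B + C = 0 → x + y = 0 → a + a + a = 0 → b + b + b = 0 →
        c + c + c = 0 → a = (A - (a + a)) + ((B - (b + b)) - (x + b)) +
          ((C - (c + c)) - (y + c)) := by
      intro a b c A B C x y h1 h2 ha hb hc
      have : (A - (a + a)) + ((B - (b + b)) - (x + b)) + ((C - (c + c)) - (y + c)) =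
          (A + B + C) - (x + y) - (a + a + a) - (b + b + b) - (c + c + c) + a := by abel
      rw [this, h1, h2, ha, hb, hc]
      simp
    exact E _ _ _ _ _ _ _ _ h2' h1 (e3 _) (e3 _) (e3 _)
  have w2 := w.ofph (by norm_num)
  have e : q2' ρ (G 0) = q2' ρ (ph ρ G 0) - (q2' ρ * (yz ρ (Iv 0) - 1)) (G 0) := by
    unfold ph
    rw [Module.End.mul_apply, LinearMap.sub_apply, map_sub]
    show _ = _ - (_ - q2' ρ (G 0))
    abel
  rw [e]
  exact w2.sub (InW.of (fmul q2m (yz_mem (Iv_Go 0))) 0)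

end

end Pool.Agent.Helper725_HQ.E5
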