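import Pool.Agent.Helper725_HQ.ES

/-! The second and the third consequence of the relations. -/

set_option autoImplicit false
set_option linter.unusedVariables false
set_option linter.unusedSimpArgs false

namespace Pool.Agent.Helper725_HQ.E5

open Quaternion

section
variable {N : ℕ} {k : Type*} [CommRing k] {M : Type*} [AddCommGroup M] [Module k M]
  {ρ : (Hn N)ˣ →* Module.End k M}

theorem three_R (h3 : (3 : k) = 0) : (3 : Module.End k M) = 0 := by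
  have : (3 : Module.End k M) = algebraMap k _ 3 := by rw [map_ofNat]
  rw [this, h3, map_zero]

theorem three_M (h3 : (3 : k) = 0) (x : M) : x + x + x = 0 := by
  have : (3 : k) • x = x + x + x := by
    rw [show (3 : k) = 1 + 1 + 1 by norm_num, add_smul, add_smul, one_smul]
  rw [← this, h3, zero_smul]

theorem q2_mem (hs : Sc ρ) : q2' ρ ∈ Ia k ρ ^ 2 :=
  Submodule.add_mem _ (Submodule.add_mem _ (t1_mem hs) (t2_mem hs)) (t3_mem hs)

theorem q4_mem (hs : Sc ρ) : q4' ρ ∈ Ia k ρ ^ 4 := by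
  have m1 : t1 ρ ∈ Ia k ρ ^ 2 := t1_mem hs
  have m2 : t2 ρ ∈ Ia k ρ ^ 2 := t2_mem hs
  have m3 : t3 ρ ∈ Ia k ρ ^ 2 := t3_mem hs
  exact Submodule.add_mem _ (Submodule.add_mem _ (Submodule.add_mem _ (fmul m1 m1) (fmul m2 m2))
    (fmul m3 m3)) (Submodule.add_mem _ (Submodule.add_mem _ (fmul m1 m2) (fmul m2 m3))
    (fmul m1 m3))

/-- replacing the symmetrized function by the function -/
theorem ph_rep {G : Fin 3 → M} {n : ℕ} {T : Module.End k M} (hT : T ∈ Ia k ρ ^ n) (i : Fin 3) :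
    InW ρ G (n + 1) (T (ph ρ G i) - T (G i)) := by
  have e : T (ph ρ G i) - T (G i) = (T * (yz ρ (Iv i) - 1)) (G i) := by
    unfold ph
    rw [Module.End.mul_apply, LinearMap.sub_apply, map_sub]
    rfl
  rw [e]
  exact InW.of (fmul hT (yz_mem (Iv_Go i))) i

/-- the second consequence -/
theorem Rl.w2 (hs : Sc ρ) (h3 : (3 : k) = 0) {G : Fin 3 → M}
    (h : Rl ρ G 2 0 2) : InW ρ G 5 (q4' ρ (G 0)) := by
  have h3R := three_R (M := M) h3
  have k0 := comb0 (k := k) hs h3R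
  have k1 := comb1 (k := k) hs h3R
  have k2 := comb2 (k := k) hs h3R
  have h7 := h.s7 hs
  have h11 := h.s11 hs
  have h13 := h.s13 hs
  rw [zero_smul] at h11
  rw [two_smul] at h7 h13
  have ht : (pP ρ : Module.End k M) (tau ρ 0 (ph ρ G 0) + tau ρ 1 (ph ρ G 1) +
      tau ρ 2 (ph ρ G 2)) = 0 := by rw [h.st hs, map_zero]
  rw [map_add, map_add] at ht
  have w : InW ρ (ph ρ G) 5 (q4' ρ (ph ρ G 0)) := by
    refine ⟨_, _, _, k0, k1, k2, ?_⟩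
    have e10 : ∀ (x : M), (10 : Module.End k M) x = x + x + x + (x + x + x) + (x + x + x) + x := by
      intro x
      rw [show (10 : Module.End k M) = 1 + 1 + 1 + (1 + 1 + 1) + (1 + 1 + 1) + 1 by norm_num]; rfl
    simp only [LinearMap.sub_apply, Module.End.mul_apply, LinearMap.add_apply, e10]
    have E : ∀ u q A0 A1 A2 B0 B1 B2 D0 D1 D2 P0 P1 P2 : M, A0 + A1 + A2 = u + u →
        B0 + B1 + B2 = 0 → D0 + D1 + D2 = u + u → P0 + P1 + P2 = 0 → u + u + u = 0 →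
        q = (A0 - B0 + D0 - (u + u + u + (u + u + u) + (u + u + u) + u) - P0 + q) +
          (A1 - B1 + D1 - P1) + (A2 - B2 + D2 - P2) := by
      intro u q A0 A1 A2 B0 B1 B2 D0 D1 D2 P0 P1 P2 hA hB hD hP hu
      have : (A0 - B0 + D0 - (u + u + u + (u + u + u) + (u + u + u) + u) - P0 + q) +
          (A1 - B1 + D1 - P1) + (A2 - B2 + D2 - P2) = (A0 + A1 + A2) - (B0 + B1 + B2) +
          (D0 + D1 + D2) - (P0 + P1 + P2) - (u + u + u + (u + u + u) + (u + u + u) + u) + q := by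
        abel
      rw [this, hA, hB, hD, hP, hu]
      have : u + u - 0 + (u + u) - 0 - (0 + 0 + 0 + u) + q = (u + u + u) + q := by abel
      rw [this, hu, zero_add]
    exact E _ _ _ _ _ _ _ _ _ _ _ _ _ _ h7 h11 h13 ht (three_M h3 _)
  have w2 := w.ofph (by norm_num)
  have e : q4' ρ (G 0) = q4' ρ (ph ρ G 0) - (q4' ρ (ph ρ G 0) - q4' ρ (G 0)) := by abel
  rw [e]
  exact w2.sub (ph_rep (q4_mem hs) 0)

/-- the third consequence -/
theorem Rl.w3 (hs : Sc ρ) (h3 : (3 : k) = 0) {G : Fin 3 → M} {c13 : k}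
    (h : Rl ρ G 2 0 c13) : InW ρ G 3 ((t3 ρ - t2 ρ) (G 1 - G 2)) := by
  have h3R := three_R (M := M) h3
  have m1 : t1 ρ ∈ Ia k ρ ^ 2 := t1_mem hs
  have m2 : t2 ρ ∈ Ia k ρ ^ 2 := t2_mem hs
  have m3 : t3 ρ ∈ Ia k ρ ^ 2 := t3_mem hs
  have q : ∀ {x y : Module.End k M}, x ∈ Ia k ρ ^ 2 → y ∈ Ia k ρ ^ 2 → x * y ∈ Ia k ρ ^ 3 :=
    fun h h' => Ia_anti (b := 2 + 2) (by norm_num) (by norm_num) (fmul h h')
  have a3 : ∀ {x : Module.End k M}, x ∈ Ia k ρ ^ 5 → x ∈ Ia k ρ ^ 3 :=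
    fun h => Ia_anti (by norm_num) (by norm_num) h
  have d0 : C7 ρ 0 - (4 + (t2 ρ + t2 ρ + (t3 ρ + t3 ρ))) ∈ Ia k ρ ^ 3 := by
    have h1 : C7 ρ 0 - _ ∈ Ia k ρ ^ 5 := c7_0 (k := k) hs h3R
    have e : C7 ρ 0 - (4 + (t2 ρ + t2 ρ + (t3 ρ + t3 ρ))) =
      (C7 ρ 0 - (4 + (t2 ρ + t2 ρ + (t3 ρ + t3 ρ) + t2 ρ * t3 ρ))) + t2 ρ * t3 ρ := by abel
    rw [e]
    exact Submodule.add_mem _ (a3 h1) (q m2 m3)
  have d1 : C7 ρ 1 - (2 + t3 ρ) ∈ Ia k ρ ^ 3 := by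
    have h1 : C7 ρ 1 - _ ∈ Ia k ρ ^ 5 := c7_1 (k := k) hs h3R
    have e : C7 ρ 1 - (2 + t3 ρ) = (C7 ρ 1 - (2 + (t3 ρ + t3 ρ * t3 ρ))) + t3 ρ * t3 ρ := by abel
    rw [e]
    exact Submodule.add_mem _ (a3 h1) (q m3 m3)
  have d2 : C7 ρ 2 - (2 + t2 ρ) ∈ Ia k ρ ^ 3 := by
    have h1 : C7 ρ 2 - _ ∈ Ia k ρ ^ 5 := c7_2 (k := k) hs h3R
    have e : C7 ρ 2 - (2 + t2 ρ) = (C7 ρ 2 - (2 + (t2 ρ + t2 ρ * t2 ρ))) + t2 ρ * t2 ρ := by abel
    rw [e]
    exact Submodule.add_mem _ (a3 h1) (q m2 m2)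
  have et : ∀ {a b : Module.End k M}, a ∈ Ia k ρ ^ 2 → b - (2 + (a - a * a)) ∈ Ia k ρ ^ 5 →
      b - (2 + a) ∈ Ia k ρ ^ 3 := by
    intro a b ha hb
    have e : b - (2 + a) = (b - (2 + (a - a * a))) - a * a := by abel
    rw [e]
    exact Submodule.sub_mem _ (a3 hb) (q ha ha)
  have e0 := et m1 (tau0 (k := k) hs h3R)
  have e1 := et m2 (tau1 (k := k) hs h3R)
  have e2 := et m3 (tau2 (k := k) hs h3R)
  have h7 := h.s7 hs
  rw [two_smul] at h7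
  have ht := h.st hs
  have w : InW ρ (ph ρ G) 3 (q2' ρ (ph ρ G 0) - (t3 ρ - t2 ρ) (ph ρ G 1 - ph ρ G 2)) := by
    refine ⟨_, _, _, Submodule.sub_mem _ d0 e0, Submodule.sub_mem _ d1 e1,
      Submodule.sub_mem _ d2 e2, ?_⟩
    have f4 : ∀ (x : M), (4 : Module.End k M) x = x + x + x + x := by
      intro x
      rw [show (4 : Module.End k M) = 1 + 1 + 1 + 1 by norm_num]; rfl
    have f2 : ∀ (x : M), (2 : Module.End k M) x = x + x := by
      intro x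
      rw [show (2 : Module.End k M) = 1 + 1 by norm_num]; rfl
    unfold q2'
    simp only [LinearMap.sub_apply, LinearMap.add_apply, f4, f2, map_sub]
    have E : ∀ u v w C0 C1 C2 S0 S1 S2 x1 x2 x3 y2 y3 z2 z3 : M, C0 + C1 + C2 = u + u →
        S0 + S1 + S2 = 0 → x2 + x2 + x2 = 0 → x3 + x3 + x3 = 0 →
        (x1 + x2 + x3) - (y3 - y2 - (z3 - z2)) =
        (C0 - (u + u + u + u + (x2 + x2 + (x3 + x3))) - (S0 - (u + u + x1))) +
        (C1 - (v + v + y3) - (S1 - (v + v + y2))) +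
        (C2 - (w + w + z2) - (S2 - (w + w + z3))) := by
      intro u v w C0 C1 C2 S0 S1 S2 x1 x2 x3 y2 y3 z2 z3 hC hS h2 h3
      have : (C0 - (u + u + u + u + (x2 + x2 + (x3 + x3))) - (S0 - (u + u + x1))) +
        (C1 - (v + v + y3) - (S1 - (v + v + y2))) +
        (C2 - (w + w + z2) - (S2 - (w + w + z3))) = (C0 + C1 + C2) - (u + u) - (S0 + S1 + S2) -
        (x2 + x2 + x2) - (x3 + x3 + x3) + ((x1 + x2 + x3) - (y3 - y2 - (z3 - z2))) := by abel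
      rw [this, hC, hS, h2, h3]
      abel
    exact E _ _ _ _ _ _ _ _ _ _ _ _ _ _ _ _ h7 ht (three_M h3 _) (three_M h3 _)
  have w2 := w.ofph (by norm_num)
  have w1 := Rl.w1 hs h3 h
  have p0 := ph_rep (G := G) (q2_mem hs) 0
  have p1 := ph_rep (G := G) (Submodule.sub_mem _ m3 m2) 1
  have p2 := ph_rep (G := G) (Submodule.sub_mem _ m3 m2) 2
  have e : (t3 ρ - t2 ρ) (G 1 - G 2) = ((q2' ρ (ph ρ G 0) - q2' ρ (G 0)) + q2' ρ (G 0)) -
      (q2' ρ (ph ρ G 0) - (t3 ρ - t2 ρ) (ph ρ G 1 - ph ρ G 2)) -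
      ((t3 ρ - t2 ρ) (ph ρ G 1) - (t3 ρ - t2 ρ) (G 1)) +
      ((t3 ρ - t2 ρ) (ph ρ G 2) - (t3 ρ - t2 ρ) (G 2)) := by
    rw [map_sub, map_sub]; abel
  rw [e]
  exact (((p0.add w1).sub w2).sub p1).add p2

end

end Pool.Agent.Helper725_HQ.E5
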