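import Pool.Agent.Helper725_HQ.ET
import Pool.Agent.Helper725_HQ.CCon

/-! Eigenfunctions of the three Hecke operators in level five are constant. -/

set_option autoImplicit false
set_option linter.unusedVariables false
set_option linter.unusedSimpArgs false

namespace Pool.Agent.Helper725_HQ.E5

open Quaternion

section
variable {N : ℕ} {κ : Type} [Field κ]

/-- one step of the descent -/
theorem stepE (h3 : (3 : κ) = 0) {φ : Fn N κ} (h : Gd φ)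
    {yi yj : Module.End κ (Fn N κ)} (hyi : yi - 1 ∈ Ia κ (rho (N := N) κ) ^ 1)
    (hyj : yj - 1 ∈ Ia κ (rho (N := N) κ) ^ 1) (Fi : rho κ (wi N)⁻¹ φ = yi φ)
    (Fj : rho κ (wj N)⁻¹ φ = yj φ)
    (d : ℕ) (hd : 1 ≤ d) (hnext : ∀ T ∈ Ia κ (rho (N := N) κ) ^ (d + 1), T φ = 0)
    (P5 : ∀ j l, j + l + 2 = d → mo (rho (N := N) κ) j l (x5 (rho κ) φ) (im 1 0 0) = 0)
    (P7 : ∀ j l, j + l + 4 = d → mo (rho (N := N) κ) j l ((gX (rho κ) * gX (rho κ) * gY (rho κ) *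
      gY (rho κ) + gY (rho κ) * gY (rho κ) * gZ (rho κ) * gZ (rho κ) +
      gX (rho κ) * gX (rho κ) * gZ (rho κ) * gZ (rho κ) : Module.End κ (Fn N κ)) φ) (im 1 0 0) = 0)
    (Pq : d = 2 → mo (rho (N := N) κ) 0 2 φ (im 1 0 0) = mo (rho (N := N) κ) 2 0 φ (im 1 0 0)) :
    ∀ T ∈ Ia κ (rho (N := N) κ) ^ d, T φ = 0 := by
  have h3R := three_End (N := N) h3
  have h3M : ∀ x : κ, x + x = 0 → x = 0 := by
    intro x hx
    have : x = 3 * x - (x + x) := by ring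
    rw [this, h3, hx]; ring
  have gd : ∀ T ∈ Ia κ (rho (N := N) κ) ^ d, Gd (T φ) := fun T hT => Gd_pow h hd hT
  have mv : ∀ {y : Module.End κ (Fn N κ)}, y - 1 ∈ Ia κ (rho (N := N) κ) ^ 1 →
      ∀ T ∈ Ia κ (rho (N := N) κ) ^ d, T (y φ) = T φ := by
    intro y hy T hT
    have h1 := hnext _ (fmul hT hy)
    rw [Module.End.mul_apply, LinearMap.sub_apply, map_sub, sub_eq_zero] at h1
    exact h1
  have z := functional_zeroE (ρ := rho (N := N) κ) rho_Sc h3R h3M d hd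
    (⟨⟨fun T => T φ (im 1 0 0), fun _ _ => rfl⟩, fun _ _ => rfl⟩ :
      Module.End κ (Fn N κ) →ₗ[κ] κ)
    (by
      intro T hT
      show T φ (im 1 0 0) = 0
      rw [hnext T hT]; rfl)
    (by
      intro T
      show rho κ (kp (im 1 0 0)) (T φ) (im 1 0 0) - (T φ) (im 1 0 0) = 0
      rw [rho_apply]
      have e : (((kp (im 1 0 0))⁻¹ : (Hn N)ˣ) : Hn N) * im 1 0 0 * ((kp (im 1 0 0) : (Hn N)ˣ) : Hn N) =
          im 1 0 0 := by
        have e1 : im 1 0 0 * ((kp (im 1 0 0) : (Hn N)ˣ) : Hn N) =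
            ((kp (im 1 0 0) : (Hn N)ˣ) : Hn N) * im 1 0 0 := by
          rw [kap_val, mul_add, add_mul, mul_one, one_mul, mul_smul_comm, smul_mul_assoc]
        rw [mul_assoc, e1, ← mul_assoc, Units.inv_mul, one_mul]
      rw [e, sub_self])
    (ci_i (N := N)) (cj_j (N := N))
    (by
      intro T hT
      show rho κ (wi N) (T (rho κ (wi N)⁻¹ φ)) (im 1 0 0) = T φ (im 1 0 0)
      rw [Fi, mv hyi T hT, rho_apply]
      have e : (((wi N)⁻¹ : (Hn N)ˣ) : Hn N) * im 1 0 0 * ((wi N : (Hn N)ˣ) : Hn N) =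
          im 1 0 0 := by
        show im (-1) 0 0 * im 1 0 0 * im 1 0 0 = (im 1 0 0 : Hn N)
        apply Quaternion.ext <;> simp
      rw [e])
    (by
      intro T hT
      show rho κ (wj N) (T (rho κ (wj N)⁻¹ φ)) (im 1 0 0) = T φ (im 1 0 0)
      rw [Fj, mv hyj T hT, rho_apply, ← (gd T hT).1 (-1) (im 1 0 0)]
      have e : (((wj N)⁻¹ : (Hn N)ˣ) : Hn N) * im 1 0 0 * ((wj N : (Hn N)ˣ) : Hn N) =
          (((-1 : (Zn N)ˣ) : Zn N) • im 1 0 0 : Hn N) := by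
        show im 0 (-1) 0 * im 1 0 0 * im 0 1 0 = (((-1 : (Zn N)ˣ) : Zn N) • im 1 0 0 : Hn N)
        apply Quaternion.ext <;> simp
      rw [e])
    P5 P7 Pq
  intro T hT
  have hfix : ∀ g ∈ Kz N 1, rho κ g (T φ) = T φ := by
    intro g hg
    have h1 : (rho κ g - 1) * T ∈ Ia κ (rho (N := N) κ) ^ (d + 1) := by
      have h2 := fmul (y_mem1' (k := κ) (ρ := rho (N := N) κ) hg) hT
      rwa [add_comm] at h2
    have h2 := hnext _ h1
    have h3 : rho κ g (T φ) - T φ = 0 := h2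
    rwa [sub_eq_zero] at h3
  funext x
  by_cases hx : Dc x
  · rw [fixed_const (gd T hT) hfix hx]
    exact z T hT
  · exact (gd T hT).2 x hx

end

section
variable {N : ℕ} {κ : Type} [Field κ] {M : Type*} [AddCommGroup M] [Module κ M]
  {ρ : (Hn N)ˣ →* Module.End κ M}

/-- the power `m` of the ideal kills the three functions -/
def Kl (ρ : (Hn N)ˣ →* Module.End κ M) (G : Fin 3 → M) (m : ℕ) : Prop :=
  ∀ i, ∀ T ∈ Ia κ ρ ^ m, T (G i) = 0

theorem Kl.zero {G : Fin 3 → M} {m n : ℕ} (h : Kl ρ G m) (hm : 1 ≤ m) (hmn : m ≤ n)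
    {x : M} (hx : InW ρ G n x) : x = 0 := by
  obtain ⟨a, b, c, ha, hb, hc, rfl⟩ := hx
  rw [h 0 a (Ia_anti hm hmn ha), h 1 b (Ia_anti hm hmn hb), h 2 c (Ia_anti hm hmn hc), add_zero,
    add_zero]

/-- the leading term of a symmetrized relation -/
theorem lead1 {G : Fin 3 → M} {m : ℕ} (hK : Kl ρ G (m + 1)) {T : Module.End κ M}
    (hT : T ∈ Ia κ ρ ^ m) {A : Module.End κ M} {s : κ}
    (hA : A - algebraMap κ _ s ∈ Ia κ ρ ^ 1) (i : Fin 3) :
    T (A (ph ρ G i)) = s • T (G i) := by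
  have h1 : A * yz ρ (Iv i) - algebraMap κ _ s ∈ Ia κ ρ ^ 1 := by
    have e : A * yz ρ (Iv i) - algebraMap κ _ s =
        (A - algebraMap κ _ s) * (yz ρ (Iv i) - 1) + (A - algebraMap κ _ s) +
        s • (yz ρ (Iv i) - 1) := by
      rw [Algebra.smul_def]
      simp only [sub_mul, mul_sub, mul_one]
      abel
    rw [e]
    exact Submodule.add_mem _ (Submodule.add_mem _ (Ia_anti (b := 1 + 1) (by norm_num)
      (by norm_num) (fmul hA (yz_mem (Iv_Go i)))) hA) (Submodule.smul_mem _ _ (yz_mem (Iv_Go i)))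
  have h2 := hK i _ (fmul hT h1)
  rw [Module.End.mul_apply, LinearMap.sub_apply, map_sub, sub_eq_zero] at h2
  have h4 : T ((algebraMap κ (Module.End κ M) s) (G i)) = s • T (G i) := by
    rw [Module.algebraMap_end_apply, map_smul]
  rw [h4] at h2
  exact h2

theorem Kl_rc {G : Fin 3 → M} {m : ℕ} (h : Kl ρ G m) : Kl (rc ρ) ![G 1, G 2, G 0] m := by
  intro i T hT
  rw [rc_Ia] at hT
  fin_cases i
  · exact h 1 T hT
  · exact h 2 T hT
  · exact h 0 T hT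

/-- the eigenvalues -/
theorem Rl.eig (hs : Sc ρ) (h3 : (3 : κ) = 0) {G : Fin 3 → M} {c7 c11 c13 : κ}
    (h : Rl ρ G c7 c11 c13) {m : ℕ} (hK : Kl ρ G (m + 1)) {T : Module.End κ M}
    (hT : T ∈ Ia κ ρ ^ m) (hne : ¬ (c7 = 2 ∧ c11 = 0 ∧ c13 = 2)) : T (G 0) = 0 := by
  have h3R := three_R (M := M) h3
  have m1 : t1 ρ ∈ Ia κ ρ ^ 2 := t1_mem hs
  have m2 : t2 ρ ∈ Ia κ ρ ^ 2 := t2_mem hs
  have m3 : t3 ρ ∈ Ia κ ρ ^ 2 := t3_mem hs
  have q : ∀ {x y : Module.End κ M}, x ∈ Ia κ ρ ^ 2 → y ∈ Ia κ ρ ^ 2 → x * y ∈ Ia κ ρ ^ 1 :=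
    fun h h' => Ia_anti (b := 2 + 2) (by norm_num) (by norm_num) (fmul h h')
  have a5 : ∀ {x : Module.End κ M}, x ∈ Ia κ ρ ^ 5 → x ∈ Ia κ ρ ^ 1 :=
    fun h => Ia_anti (by norm_num) (by norm_num) h
  have a2 : ∀ {x : Module.End κ M}, x ∈ Ia κ ρ ^ 2 → x ∈ Ia κ ρ ^ 1 :=
    fun h => Ia_anti (by norm_num) (by norm_num) h
  have l4 : algebraMap κ (Module.End κ M) 4 = 4 := map_ofNat _ 4
  have l2 : algebraMap κ (Module.End κ M) 2 = 2 := map_ofNat _ 2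
  have l0 : algebraMap κ (Module.End κ M) 0 = 0 := map_zero _
  have d0 : C7 ρ 0 - algebraMap κ _ 4 ∈ Ia κ ρ ^ 1 := by
    have h1 : C7 ρ 0 - _ ∈ Ia κ ρ ^ 5 := c7_0 (k := κ) hs h3R
    have e : C7 ρ 0 - algebraMap κ _ 4 =
      (C7 ρ 0 - (4 + (t2 ρ + t2 ρ + (t3 ρ + t3 ρ) + t2 ρ * t3 ρ))) +
        (t2 ρ + t2 ρ + (t3 ρ + t3 ρ) + t2 ρ * t3 ρ) := by rw [l4]; abel
    rw [e]
    exact Submodule.add_mem _ (a5 h1) (Submodule.add_mem _ (a2 (Submodule.add_mem _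
      (Submodule.add_mem _ m2 m2) (Submodule.add_mem _ m3 m3))) (q m2 m3))
  have d1 : C7 ρ 1 - algebraMap κ _ 2 ∈ Ia κ ρ ^ 1 := by
    have h1 : C7 ρ 1 - _ ∈ Ia κ ρ ^ 5 := c7_1 (k := κ) hs h3R
    have e : C7 ρ 1 - algebraMap κ _ 2 = (C7 ρ 1 - (2 + (t3 ρ + t3 ρ * t3 ρ))) +
      (t3 ρ + t3 ρ * t3 ρ) := by rw [l2]; abel
    rw [e]
    exact Submodule.add_mem _ (a5 h1) (Submodule.add_mem _ (a2 m3) (q m3 m3))
  have d2 : C7 ρ 2 - algebraMap κ _ 2 ∈ Ia κ ρ ^ 1 := by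
    have h1 : C7 ρ 2 - _ ∈ Ia κ ρ ^ 5 := c7_2 (k := κ) hs h3R
    have e : C7 ρ 2 - algebraMap κ _ 2 = (C7 ρ 2 - (2 + (t2 ρ + t2 ρ * t2 ρ))) +
      (t2 ρ + t2 ρ * t2 ρ) := by rw [l2]; abel
    rw [e]
    exact Submodule.add_mem _ (a5 h1) (Submodule.add_mem _ (a2 m2) (q m2 m2))
  have et : ∀ {a b : Module.End κ M}, a ∈ Ia κ ρ ^ 2 → b - (2 + (a - a * a)) ∈ Ia κ ρ ^ 5 →
      b - algebraMap κ _ 2 ∈ Ia κ ρ ^ 1 := by
    intro a b ha hb
    have e : b - algebraMap κ _ 2 = (b - (2 + (a - a * a))) + (a - a * a) := by rw [l2]; abel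
    rw [e]
    exact Submodule.add_mem _ (a5 hb) (Submodule.sub_mem _ (a2 ha) (q ha ha))
  have e0 := et m1 (tau0 (k := κ) hs h3R)
  have e1 := et m2 (tau1 (k := κ) hs h3R)
  have e2 := et m3 (tau2 (k := κ) hs h3R)
  have g0 : C11 ρ 0 - algebraMap κ _ 0 ∈ Ia κ ρ ^ 1 := by
    have e0 : C11 ρ 0 = 0 := by
      unfold C11
      show yz ρ ev * 0 * yz ρ (Hv 0) = 0
      rw [mul_zero, zero_mul]
    rw [e0, l0, sub_zero]
    exact Submodule.zero_mem _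
  have gg : ∀ {b : Module.End κ M}, b + q2' ρ ∈ Ia κ ρ ^ 3 → b - algebraMap κ _ 0 ∈
      Ia κ ρ ^ 1 := by
    intro b hb
    have e : b - algebraMap κ _ 0 = (b + q2' ρ) - q2' ρ := by rw [l0]; abel
    rw [e]
    exact Submodule.sub_mem _ (Ia_anti (by norm_num) (by norm_num) hb) (a2 (q2_mem hs))
  have g1 := gg (eleven_1 (k := κ) hs h3R)
  have g2 := gg (eleven_2 (k := κ) hs h3R)
  have f0 : C13 ρ 0 - algebraMap κ _ 2 ∈ Ia κ ρ ^ 1 := et m1 (c13_0 (k := κ) hs h3R)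
  have ff : ∀ {a b c d : Module.End κ M}, a - b + c - pP ρ * d ∈ Ia κ ρ ^ 5 →
      a - algebraMap κ _ 2 ∈ Ia κ ρ ^ 1 → b - algebraMap κ _ 0 ∈ Ia κ ρ ^ 1 →
      d - algebraMap κ _ 2 ∈ Ia κ ρ ^ 1 → c - algebraMap κ _ 0 ∈ Ia κ ρ ^ 1 := by
    intro a b c d h ha hb hd
    rw [l0] at hb ⊢
    rw [l2] at ha hd
    have hp := pP_mem (k := κ) hs h3R
    have e : c - 0 = (a - b + c - pP ρ * d) - (a - 2) + (b - 0) + ((pP ρ - 1) * (d - 2) +
        (d - 2) + ((pP ρ - 1) + (pP ρ - 1))) := by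
      rw [show (2 : Module.End κ M) = 1 + 1 by norm_num]
      simp only [sub_mul, mul_sub, mul_one, one_mul, mul_add]
      abel
    rw [e]
    exact Submodule.add_mem _ (Submodule.add_mem _ (Submodule.sub_mem _ (a5 h) ha) hb)
      (Submodule.add_mem _ (Submodule.add_mem _ (Ia_anti (b := 1 + 1) (by norm_num) (by norm_num)
        (fmul hp hd)) hd) (Submodule.add_mem _ hp hp))
  have f1 := ff (comb1 (k := κ) hs h3R) d1 g1 e1
  have f2 := ff (comb2 (k := κ) hs h3R) d2 g2 e2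
  have h7 : T (C7 ρ 0 (ph ρ G 0) + C7 ρ 1 (ph ρ G 1) + C7 ρ 2 (ph ρ G 2)) = c7 • T (G 0) := by
    rw [h.s7 hs, map_smul]
    congr 1
    have := lead1 (T := T) (A := 1) (s := 1) hK hT (by
      rw [map_one, sub_self]; exact Submodule.zero_mem _) 0
    rw [one_smul] at this
    exact this
  have h11 : T (C11 ρ 0 (ph ρ G 0) + C11 ρ 1 (ph ρ G 1) + C11 ρ 2 (ph ρ G 2)) = c11 • T (G 0) := by
    rw [h.s11 hs, map_smul]
    congr 1
    have := lead1 (T := T) (A := 1) (s := 1) hK hT (by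
      rw [map_one, sub_self]; exact Submodule.zero_mem _) 0
    rw [one_smul] at this
    exact this
  have h13 : T (C13 ρ 0 (ph ρ G 0) + C13 ρ 1 (ph ρ G 1) + C13 ρ 2 (ph ρ G 2)) = c13 • T (G 0) := by
    rw [h.s13 hs, map_smul]
    congr 1
    have := lead1 (T := T) (A := 1) (s := 1) hK hT (by
      rw [map_one, sub_self]; exact Submodule.zero_mem _) 0
    rw [one_smul] at this
    exact this
  have ht : T (tau ρ 0 (ph ρ G 0) + tau ρ 1 (ph ρ G 1) + tau ρ 2 (ph ρ G 2)) = 0 := by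
    rw [h.st hs, map_zero]
  rw [map_add, map_add, lead1 hK hT d0, lead1 hK hT d1, lead1 hK hT d2] at h7
  rw [map_add, map_add, lead1 hK hT g0, lead1 hK hT g1, lead1 hK hT g2] at h11
  rw [map_add, map_add, lead1 hK hT f0, lead1 hK hT f1, lead1 hK hT f2] at h13
  rw [map_add, map_add, lead1 hK hT e0, lead1 hK hT e1, lead1 hK hT e2] at ht
  rw [zero_smul, zero_smul, zero_smul, add_zero, add_zero] at h11
  rw [zero_smul, zero_smul, add_zero, add_zero] at h13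
  have z7 : (c7 - 2) • T (G 0) = 0 := by
    have : (c7 - 2) • T (G 0) = c7 • T (G 0) - ((4 : κ) • T (G 0) + (2 : κ) • T (G 1) +
      (2 : κ) • T (G 2)) + ((2 : κ) • T (G 0) + (2 : κ) • T (G 1) + (2 : κ) • T (G 2)) := by
      module
    rw [this, h7, ht, sub_self, zero_add]
  have z13 : (c13 - 2) • T (G 0) = 0 := by
    rw [sub_smul, ← h13, sub_self]
  by_contra hT0
  apply hne
  refine ⟨?_, ?_, ?_⟩
  · exact sub_eq_zero.1 ((smul_eq_zero.1 z7).resolve_right hT0)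
  · exact (smul_eq_zero.1 h11.symm).resolve_right hT0
  · exact sub_eq_zero.1 ((smul_eq_zero.1 z13).resolve_right hT0)

end

end Pool.Agent.Helper725_HQ.E5
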