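import Pool.Agent.Helper725_HQ.EC

/-! The coefficients of the Hecke relations in terms of the basic pairs. -/

set_option autoImplicit false
set_option linter.unusedVariables false
set_option linter.unusedSimpArgs false

namespace Pool.Agent.Helper725_HQ.E5

open Quaternion

section
variable {N : ℕ} {k : Type*} [CommRing k] {R : Type*} [Ring R] [Algebra k R]
  {ρ : (Hn N)ˣ →* R}

theorem yz_rel {a b c : ℤ} {A B C : Zn N} (hA : (a : Zn N) = A) (hB : (b : Zn N) = B)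
    (hC : (c : Zn N) = C) : yz ρ ![1, 3 * a, 3 * b, 3 * c] = ρ (kp (im A B C)) := by
  rw [yz_kp, hA, hB, hC]

theorem opp1 (hs : Sc ρ) : yz ρ ![1, 3, 0, 0] * yz ρ ![1, -3, 0, 0] = 1 :=
  opp hs 10 (by decide) (by decide) (by decide) (by decide)
theorem opp1' (hs : Sc ρ) : yz ρ ![1, -3, 0, 0] * yz ρ ![1, 3, 0, 0] = 1 :=
  opp hs 10 (by decide) (by decide) (by decide) (by decide)
theorem opp2 (hs : Sc ρ) : yz ρ ![1, 0, 3, 0] * yz ρ ![1, 0, -3, 0] = 1 :=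
  opp hs 10 (by decide) (by decide) (by decide) (by decide)
theorem opp2' (hs : Sc ρ) : yz ρ ![1, 0, -3, 0] * yz ρ ![1, 0, 3, 0] = 1 :=
  opp hs 10 (by decide) (by decide) (by decide) (by decide)
theorem opp3 (hs : Sc ρ) : yz ρ ![1, 0, 0, 3] * yz ρ ![1, 0, 0, -3] = 1 :=
  opp hs 10 (by decide) (by decide) (by decide) (by decide)
theorem opp3' (hs : Sc ρ) : yz ρ ![1, 0, 0, -3] * yz ρ ![1, 0, 0, 3] = 1 :=
  opp hs 10 (by decide) (by decide) (by decide) (by decide)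

theorem t1_mem (hs : Sc ρ) : t1 ρ ∈ Ia k ρ ^ 2 := by rw [t1_pr]; exact pr_mem2 hs _ _ _
theorem t2_mem (hs : Sc ρ) : t2 ρ ∈ Ia k ρ ^ 2 := by rw [t2_pr]; exact pr_mem2 hs _ _ _
theorem t3_mem (hs : Sc ρ) : t3 ρ ∈ Ia k ρ ^ 2 := by rw [t3_pr]; exact pr_mem2 hs _ _ _

theorem t1_lead (hs : Sc ρ) : t1 ρ - gX ρ * gX ρ ∈ Ia k ρ ^ 3 := by
  rw [t1_pr]; exact pr_sq' hs _ _ _
theorem t2_lead (hs : Sc ρ) : t2 ρ - gY ρ * gY ρ ∈ Ia k ρ ^ 3 := by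
  rw [t2_pr]; exact pr_sq' hs _ _ _
theorem t3_lead (hs : Sc ρ) : t3 ρ - gZ ρ * gZ ρ ∈ Ia k ρ ^ 3 := by
  rw [t3_pr]; exact pr_sq' hs _ _ _

/-- pairs in a coordinate plane -/
theorem two_dim (hs : Sc ρ) (h3 : (3 : R) = 0) :
    (yz ρ ![1, 3, 3, 0] + yz ρ ![1, 3, -3, 0] + yz ρ ![1, -3, 3, 0] + yz ρ ![1, -3, -3, 0]) -
      (4 + (t1 ρ + t1 ρ + (t2 ρ + t2 ρ) + t1 ρ * t2 ρ)) ∈ Ia k ρ ^ 5 := by
  have hX1 : gX ρ ∈ Ia k ρ ^ 1 := gX_mem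
  have hY1 : gY ρ ∈ Ia k ρ ^ 1 := gY_mem
  obtain ⟨A, hA⟩ : ∃ A, A = lam (ρ (kp (im 1 0 0))) := ⟨_, rfl⟩
  obtain ⟨B, hB⟩ : ∃ B, B = lam (ρ (kp (im 0 1 0))) := ⟨_, rfl⟩
  have hB1 : B ∈ Ia k ρ ^ 1 := by rw [hB]; exact lam_mem (kap_rel _).mem
  have hBY : B - gY ρ ∈ Ia k ρ ^ 2 := by
    rw [hB]
    unfold gY
    rw [lam_sub]
    exact fmul (a := 1) (b := 1) hY1 hY1
  have z0 : ρ (kp (im 0 0 0)) = 1 := by
    have : kp (im (0 : Zn N) 0 0) = 1 := by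
      apply Units.ext
      rw [kap_val]
      apply Quaternion.ext <;> simp
    rw [this, map_one]
  have zl : lam (ρ (kp (im 0 0 0))) - 0 ∈ Ia k ρ ^ 4 := by
    rw [z0]
    unfold lam
    simp
  have zy : ρ (kp (im 0 0 0)) - 1 - 0 ∈ Ia k ρ ^ 2 := by
    rw [z0]; simp
  have zz : ∀ n, (0 : R) ∈ Ia k ρ ^ n := fun n => Submodule.zero_mem _
  have q1 := xi_sq (k := k) hs h3 (1 : Zn N) 0 (B := B) (C := 0) (Y := gY ρ) (Z := 0)
    (by rw [hB, sub_self]; exact zz _) zl hB1 (zz _)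
    (by unfold gY; rw [sub_self]; exact zz _) zy hY1 (zz _) hBY (by rw [sub_self]; exact zz _)
  have nB := lam_neg (k := k) hs h3 0 1 0
  have nY := y_neg (k := k) hs 0 1 0
  rw [neg_zero] at nB nY
  have q2 := xi_sq (k := k) hs h3 (-1 : Zn N) 0 (B := -B) (C := 0) (Y := -gY ρ) (Z := 0)
    (by rw [hB]; exact nB) zl (Submodule.neg_mem _ hB1) (zz _) nY zy (Submodule.neg_mem _ hY1)
    (zz _) (by
      have e : -B - -gY ρ = -(B - gY ρ) := by abel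
      rw [e]; exact Submodule.neg_mem _ hBY) (by rw [sub_self]; exact zz _)
  rw [← hA] at q1 q2
  have hc : gX ρ * gY ρ - gY ρ * gX ρ ∈ Ia k ρ ^ 3 := y_comm3 hs h3 (kap_rel _).mem (kap_rel _).mem
  have q3 := sign_two (A := A) (B := B) (k := k) (ρ := ρ) Ia_mul h3 hX1 hY1 hc
  have p1 := pr_lam (k := k) hs h3 1 0 0
  have p2 := pr_lam (k := k) hs h3 0 1 0
  rw [← t1_pr, ← hA] at p1
  rw [← t2_pr, ← hB] at p2
  have p3 : t1 ρ * t2 ρ - gX ρ * gX ρ * (gY ρ * gY ρ) ∈ Ia k ρ ^ 5 := by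
    have e : t1 ρ * t2 ρ - gX ρ * gX ρ * (gY ρ * gY ρ) = (t1 ρ - gX ρ * gX ρ) * t2 ρ +
        gX ρ * gX ρ * (t2 ρ - gY ρ * gY ρ) := by noncomm_ring
    rw [e]
    exact Submodule.add_mem _ (fmul (t1_lead hs) (t2_mem hs)) (fmul (fmul hX1 hX1) (t2_lead hs))
  -- the four elements
  have r1 : yz ρ ![1, 3, 3, 0] = ρ (kp (im 1 1 0)) := by
    have := yz_rel (ρ := ρ) (a := 1) (b := 1) (c := 0) (A := 1) (B := 1) (C := 0) (by simp) (by simp) (by simp)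
    simpa using this
  have r2 : yz ρ ![1, 3, -3, 0] = ρ (kp (im 1 (-1) 0)) := by
    have := yz_rel (ρ := ρ) (a := 1) (b := -1) (c := 0) (A := 1) (B := -1) (C := 0) (by simp) (by simp) (by simp)
    simpa using this
  have r3 : yz ρ ![1, -3, 3, 0] = ρ (kp (im (-1) (- -1) (-0))) := by
    have := yz_rel (ρ := ρ) (a := -1) (b := 1) (c := 0) (A := -1) (B := - -1) (C := -0) (by simp) (by simp) (by simp)
    simpa using this
  have r4 : yz ρ ![1, -3, -3, 0] = ρ (kp (im (-1) (-1) (-0))) := by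
    have := yz_rel (ρ := ρ) (a := -1) (b := -1) (c := 0) (A := -1) (B := -1) (C := -0) (by simp) (by simp) (by simp)
    simpa using this
  have e1 : (yz ρ ![1, 3, 3, 0] + yz ρ ![1, 3, -3, 0] + yz ρ ![1, -3, 3, 0] +
      yz ρ ![1, -3, -3, 0]) = 4 + (pr ρ 1 1 0 + pr ρ 1 (-1) 0) := by
    rw [r1, r2, r3, r4]
    unfold pr
    rw [show (4 : R) = 1 + 1 + 1 + 1 by norm_num]
    abel
  rw [e1]
  have e2 : ∀ P Q w1 w2 T1 T2 T3 a2 b2 m : R, 4 + (P + Q) - (4 + (T1 + T1 + (T2 + T2) + T3)) =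
      (P - w1) + (Q - w2) + (w1 + w2 - (a2 + a2 + (b2 + b2) + m)) - (T1 - a2) - (T1 - a2) -
      (T2 - b2) - (T2 - b2) - (T3 - m) := by
    intros; abel
  rw [e2 _ _ _ _ _ _ _ (A * A) (B * B) (gX ρ * gX ρ * (gY ρ * gY ρ))]
  exact Submodule.sub_mem _ (Submodule.sub_mem _ (Submodule.sub_mem _ (Submodule.sub_mem _
    (Submodule.sub_mem _ (Submodule.add_mem _ (Submodule.add_mem _ q1 q2) q3) p1) p1) p2) p2) p3

theorem rc_t1 : t1 (rc ρ) = t2 ρ := by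
  unfold t1 t2 sg
  rw [rc_yz (by decide), rc_yz (by decide)]
  rfl
theorem rc_t2 : t2 (rc ρ) = t3 ρ := by
  unfold t2 t3 sg
  rw [rc_yz (by decide), rc_yz (by decide)]
  rfl
theorem rc_t3 : t3 (rc ρ) = t1 ρ := by
  unfold t1 t3 sg
  rw [rc_yz (by decide), rc_yz (by decide)]
  rfl

theorem c7_0 (hs : Sc ρ) (h3 : (3 : R) = 0) : yz ρ ev * a7_0 ρ * yz ρ (Hv 0) -
    (4 + (t2 ρ + t2 ρ + (t3 ρ + t3 ρ) + t2 ρ * t3 ρ)) ∈ Ia k ρ ^ 5 := by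
  have h1 := two_dim (k := k) (rc_Sc hs) h3
  rw [rc_Ia, rc_t1, rc_t2, rc_yz (by decide), rc_yz (by decide), rc_yz (by decide),
    rc_yz (by decide)] at h1
  have h2 := a7_0_app (k := k) hs h3
  have h4 := Submodule.add_mem _ h2 h1
  have e : ∀ a b c d : R, a - b + (b - d) = a - d := by intros; abel
  rw [← e _ (yz ρ ![1, 0, 3, 3] + yz ρ ![1, 0, 3, -3] + yz ρ ![1, 0, -3, 3] +
    yz ρ ![1, 0, -3, -3]) 0]
  exact h4

theorem c7_1 (hs : Sc ρ) (h3 : (3 : R) = 0) : yz ρ ev * a7_1 ρ * yz ρ (Hv 1) -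
    (2 + (t3 ρ + t3 ρ * t3 ρ)) ∈ Ia k ρ ^ 5 := by
  have h1 := a7_1_app (k := k) hs h3
  rw [pair_two h3 (opp3 hs) (opp3' hs)] at h1
  exact h1

theorem c7_2 (hs : Sc ρ) (h3 : (3 : R) = 0) : yz ρ ev * a7_2 ρ * yz ρ (Hv 2) -
    (2 + (t2 ρ + t2 ρ * t2 ρ)) ∈ Ia k ρ ^ 5 := by
  have h1 := a7_2_app (k := k) hs h3
  rw [add_comm (yz ρ ![1, 0, -3, 0] * _), pair_two h3 (opp2 hs) (opp2' hs)] at h1
  exact h1

theorem c13_0 (hs : Sc ρ) (h3 : (3 : R) = 0) : yz ρ ev * a13_0 ρ * yz ρ (Hv 0) -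
    (2 + (t1 ρ - t1 ρ * t1 ρ)) ∈ Ia k ρ ^ 5 := by
  have h1 := a13_0_app (k := k) hs h3
  have h2 := pair_four (k := k) (ρ := ρ) h3 (opp1 hs) (opp1' hs) (yz_mem (by decide))
    (yz_mem (by decide))
  have h4 := Submodule.add_mem _ h1 h2
  have e : ∀ a b c d : R, a - (c + b) + (b + c - d) = a - d := by intros; abel
  rw [e] at h4
  exact h4

/-- cubes in the second congruence subgroup -/
theorem pair_nine (hs : Sc ρ) (h3 : (3 : R) = 0) {y y' c c' : R} (h : c * c' = 1)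
    (hy : y - 1 ∈ Ia k ρ ^ 1) (hy' : y' - 1 ∈ Ia k ρ ^ 1)
    (hc : c - y * y * y ∈ Ia k ρ ^ 5) (hc' : c' - y' * y' * y' ∈ Ia k ρ ^ 5) :
    c + c' - 2 ∈ Ia k ρ ^ 5 := by
  have cub : ∀ {u v : R}, u - 1 ∈ Ia k ρ ^ 1 → v - u * u * u ∈ Ia k ρ ^ 5 →
      v - 1 ∈ Ia k ρ ^ 3 := by
    intro u v hu hv
    have e : v - 1 = (v - u * u * u) + ((u - 1) * (u - 1) * (u - 1) +
        3 * ((u - 1) * (u - 1) + (u - 1))) := by noncomm_ring
    rw [e, h3, zero_mul, add_zero]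
    exact Submodule.add_mem _ (Ia_anti (by norm_num) (by norm_num) hv) (fmul (fmul hu hu) hu)
  have e : c + c' - 2 = -((c - 1) * (c' - 1)) := by
    rw [← alg8 h, show (2 : R) = 1 + 1 by norm_num]; abel
  rw [e]
  exact Submodule.neg_mem _ (Ia_anti (b := 3 + 3) (by norm_num) (by norm_num)
    (fmul (cub hy hc) (cub hy' hc')))

theorem cub_congr (hs : Sc ρ) (h3 : (3 : R) = 0) {c y : Fin 4 → ℤ} (hc : Go c) (hy : Go y)
    (h : Cg 1 c (mq (mq y y) y)) : yz ρ c - yz ρ y * yz ρ y * yz ρ y ∈ Ia k ρ ^ 5 := by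
  rw [← yz_mul hy hy, ← yz_mul (hy.mul hy) hy]
  exact yz_congr hs h3 hc ((hy.mul hy).mul hy) h

theorem c11_1 (hs : Sc ρ) (h3 : (3 : R) = 0) : yz ρ ev * a11_1 ρ * yz ρ (Hv 1) -
    (2 + (yz ρ ![1, -3, -3, -3] * yz ρ ![1, -3, -3, -3] +
      yz ρ ![1, -3, 3, 3] * yz ρ ![1, -3, 3, 3] + yz ρ ![1, 3, -3, 3] * yz ρ ![1, 3, -3, 3] +
      yz ρ ![1, 3, 3, -3] * yz ρ ![1, 3, 3, -3])) ∈ Ia k ρ ^ 5 := by
  have h1 := a11_1_app (k := k) hs h3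
  have h2 := pair_nine (k := k) hs h3 (y := yz ρ ![1, 0, 0, 3]) (y' := yz ρ ![1, 0, 0, -3])
    (c := yz ρ ![1, 0, 0, 9]) (c' := yz ρ ![1, 0, 0, -9])
    (opp hs 82 (by decide) (by decide) (by decide) (by decide)) (yz_mem (by decide))
    (yz_mem (by decide)) (cub_congr hs h3 (by decide) (by decide) (by decide))
    (cub_congr hs h3 (by decide) (by decide) (by decide))
  have h4 := Submodule.add_mem _ h1 h2
  have e : ∀ a c c' p q r s : R, a - (c' + c + p + q + r + s) + (c + c' - 2) =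
      a - (2 + (p + q + r + s)) := by intros; abel
  rw [e] at h4
  exact h4

theorem c11_2 (hs : Sc ρ) (h3 : (3 : R) = 0) : yz ρ ev * a11_2 ρ * yz ρ (Hv 2) -
    (2 + (yz ρ ![1, -3, 3, -3] * yz ρ ![1, -3, 3, -3] +
      yz ρ ![1, -3, -3, 3] * yz ρ ![1, -3, -3, 3] + yz ρ ![1, 3, 3, 3] * yz ρ ![1, 3, 3, 3] +
      yz ρ ![1, 3, -3, -3] * yz ρ ![1, 3, -3, -3])) ∈ Ia k ρ ^ 5 := by
  have h1 := a11_2_app (k := k) hs h3
  have h2 := pair_nine (k := k) hs h3 (y := yz ρ ![1, 0, 3, 0]) (y' := yz ρ ![1, 0, -3, 0])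
    (c := yz ρ ![1, 0, 9, 0]) (c' := yz ρ ![1, 0, -9, 0])
    (opp hs 82 (by decide) (by decide) (by decide) (by decide)) (yz_mem (by decide))
    (yz_mem (by decide)) (cub_congr hs h3 (by decide) (by decide) (by decide))
    (cub_congr hs h3 (by decide) (by decide) (by decide))
  have h4 := Submodule.add_mem _ h1 h2
  have e : ∀ a c c' p q r s : R, a - (c + c' + p + q + r + s) + (c + c' - 2) =
      a - (2 + (p + q + r + s)) := by intros; abel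
  rw [e] at h4
  exact h4

end

end Pool.Agent.Helper725_HQ.E5
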