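import Pool.Agent.Helper725_HQ.EV

/-! The contributions of the eight diagonal directions. -/

set_option autoImplicit false
set_option linter.unusedVariables false
set_option linter.unusedSimpArgs false

namespace Pool.Agent.Helper725_HQ.E5

open Quaternion

section
variable {N : ℕ} {k : Type*} [CommRing k] {R : Type*} [Ring R] [Algebra k R]
  {ρ : (Hn N)ˣ →* R}

/-- one diagonal direction -/
theorem diag_one (h3 : (3 : R) = 0) {y z l κ : R} (h : z * y = 1) (hy : y - 1 ∈ Ia k ρ ^ 1)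
    (hz : z - 1 ∈ Ia k ρ ^ 1) (hκ : κ ∈ Ia k ρ ^ 3) (hl : y - 1 - l ∈ Ia k ρ ^ 2)
    (hc : y * y * y - (1 + κ) ∈ Ia k ρ ^ 5) : y - z * z - (1 + l) * κ ∈ Ia k ρ ^ 5 := by
  have hz2 : z * z - 1 ∈ Ia k ρ ^ 1 := by
    have e : z * z - 1 = (z - 1) * (z - 1) + (z - 1) + (z - 1) := by noncomm_ring
    rw [e]
    exact Submodule.add_mem _ (Submodule.add_mem _ (Ia_anti (b := 1 + 1) (by norm_num)
      (by norm_num) (fmul hz hz)) hz) hz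
  have hzl : z * z - (1 + l) ∈ Ia k ρ ^ 2 := by
    have e1 : (z - 1) + (y - 1) = -((z - 1) * (y - 1)) := alg8 h
    have e : z * z - (1 + l) = 3 * (z - 1) + (z - 1) * (z - 1) - ((z - 1) + (y - 1)) +
        (y - 1 - l) := by noncomm_ring
    rw [e, h3, zero_mul, zero_add, e1, sub_neg_eq_add]
    exact Submodule.add_mem _ (Submodule.add_mem _ (fmul (a := 1) (b := 1) hz hz)
      (fmul (a := 1) (b := 1) hz hy)) hl
  have e2 : z * z * (y * y * y) = y := by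
    have : z * z * (y * y * y) = z * (z * y) * y * y := by noncomm_ring
    rw [this, h, mul_one, h, one_mul]
  have e : y - z * z - (1 + l) * κ = (z * z - 1) * (y * y * y - (1 + κ)) +
      (y * y * y - (1 + κ)) + (z * z - (1 + l)) * κ := by
    have : (z * z - 1) * (y * y * y - (1 + κ)) + (y * y * y - (1 + κ)) + (z * z - (1 + l)) * κ =
        z * z * (y * y * y) - z * z - (1 + l) * κ := by noncomm_ring
    rw [this, e2]
  rw [e]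
  exact Submodule.add_mem _ (Submodule.add_mem _ (Ia_anti (b := 1 + 5) (by norm_num)
    (by norm_num) (fmul hz2 hc)) hc) (fmul hzl hκ)

/-- multiplication by a cube -/
theorem cub_one {y l c κ : R} (hy : y - 1 - l ∈ Ia k ρ ^ 2) (hκ : κ ∈ Ia k ρ ^ 3)
    (hy1 : y - 1 ∈ Ia k ρ ^ 1) (hc : c - (1 + κ) ∈ Ia k ρ ^ 5) :
    y * c - (y + (1 + l) * κ) ∈ Ia k ρ ^ 5 := by
  have e : y * c - (y + (1 + l) * κ) = (y - 1) * (c - (1 + κ)) + (c - (1 + κ)) +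
      (y - 1 - l) * κ := by noncomm_ring
  rw [e]
  exact Submodule.add_mem _ (Submodule.add_mem _ (Ia_anti (b := 1 + 5) (by norm_num)
    (by norm_num) (fmul hy1 hc)) hc) (fmul hy hκ)

theorem nine_mem (hs : Sc ρ) (h3 : (3 : R) = 0) {c y : Fin 4 → ℤ} (hc : Go c) (hy : Go y)
    (h : Cg 1 c (mq (mq y y) y)) : yz ρ c - 1 ∈ Ia k ρ ^ 3 := by
  have h1 := cub_congr (k := k) hs h3 hc hy h
  have hu : yz ρ y - 1 ∈ Ia k ρ ^ 1 := yz_mem hy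
  have e : yz ρ c - 1 = (yz ρ c - yz ρ y * yz ρ y * yz ρ y) + ((yz ρ y - 1) * (yz ρ y - 1) *
      (yz ρ y - 1) + 3 * ((yz ρ y - 1) * (yz ρ y - 1) + (yz ρ y - 1))) := by noncomm_ring
  rw [e, h3, zero_mul, add_zero]
  exact Submodule.add_mem _ (Ia_anti (by norm_num) (by norm_num) h1) (fmul (fmul hu hu) hu)

/-- the opposite cube -/
theorem nine_neg {c c' : R} (h : c * c' = 1) (hc : c - 1 ∈ Ia k ρ ^ 3)
    (hc' : c' - 1 ∈ Ia k ρ ^ 3) : c' - (1 + -(c - 1)) ∈ Ia k ρ ^ 5 := by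
  have e : c' - (1 + -(c - 1)) = (c - 1) + (c' - 1) := by abel
  rw [e, alg8 h]
  exact Submodule.neg_mem _ (Ia_anti (b := 3 + 3) (by norm_num) (by norm_num) (fmul hc hc'))

/-- the cubes of the diagonal directions -/
theorem diag_cube (hs : Sc ρ) (h3 : (3 : R) = 0) {w c1 c2 c3 : Fin 4 → ℤ} (hw : Go w)
    (g1 : Go c1) (g2 : Go c2) (g3 : Go c3) (h : Cg 1 (mq (mq w w) w) (mq (mq c1 c2) c3))
    {k1 k2 k3 : R} (m1 : k1 ∈ Ia k ρ ^ 3) (m2 : k2 ∈ Ia k ρ ^ 3) (m3 : k3 ∈ Ia k ρ ^ 3)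
    (q1 : yz ρ c1 - (1 + k1) ∈ Ia k ρ ^ 5) (q2 : yz ρ c2 - (1 + k2) ∈ Ia k ρ ^ 5)
    (q3 : yz ρ c3 - (1 + k3) ∈ Ia k ρ ^ 5) :
    yz ρ w * yz ρ w * yz ρ w - (1 + (k1 + k2 + k3)) ∈ Ia k ρ ^ 5 := by
  have h1 := yz_congr (k := k) hs h3 ((hw.mul hw).mul hw) ((g1.mul g2).mul g3) h
  rw [yz_mul (hw.mul hw) hw, yz_mul hw hw, yz_mul (g1.mul g2) g3, yz_mul g1 g2] at h1
  obtain ⟨a, ha⟩ : ∃ a, a = yz ρ c1 - (1 + k1) := ⟨_, rfl⟩
  obtain ⟨b, hb⟩ : ∃ a, a = yz ρ c2 - (1 + k2) := ⟨_, rfl⟩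
  obtain ⟨c, hc⟩ : ∃ a, a = yz ρ c3 - (1 + k3) := ⟨_, rfl⟩
  have ea : yz ρ c1 = 1 + (k1 + a) := by rw [ha]; abel
  have eb : yz ρ c2 = 1 + (k2 + b) := by rw [hb]; abel
  have ec : yz ρ c3 = 1 + (k3 + c) := by rw [hc]; abel
  rw [← ha] at q1
  rw [← hb] at q2
  rw [← hc] at q3
  have l3 : ∀ {x : R}, x ∈ Ia k ρ ^ 5 → x ∈ Ia k ρ ^ 3 := fun h => Ia_anti (by norm_num)
    (by norm_num) h
  have u1 : k1 + a ∈ Ia k ρ ^ 3 := Submodule.add_mem _ m1 (l3 q1)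
  have u2 : k2 + b ∈ Ia k ρ ^ 3 := Submodule.add_mem _ m2 (l3 q2)
  have u3 : k3 + c ∈ Ia k ρ ^ 3 := Submodule.add_mem _ m3 (l3 q3)
  rw [ea, eb, ec] at h1
  obtain ⟨W, hW⟩ : ∃ W, W = yz ρ w * yz ρ w * yz ρ w := ⟨_, rfl⟩
  rw [← hW] at h1 ⊢
  have e : W - (1 + (k1 + k2 + k3)) = (W - (1 + (k1 + a)) * (1 + (k2 + b)) * (1 + (k3 + c))) +
      (a + b + c) + ((k1 + a) * (k2 + b) + (k1 + a) * (k3 + c) + (k2 + b) * (k3 + c) +
      (k1 + a) * (k2 + b) * (k3 + c)) := by noncomm_ring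
  rw [e]
  have l5 : ∀ {x y : R}, x ∈ Ia k ρ ^ 3 → y ∈ Ia k ρ ^ 3 → x * y ∈ Ia k ρ ^ 5 := fun h h' =>
    Ia_anti (b := 3 + 3) (by norm_num) (by norm_num) (fmul h h')
  exact Submodule.add_mem _ (Submodule.add_mem _ h1 (Submodule.add_mem _ (Submodule.add_mem _
    q1 q2) q3)) (Submodule.add_mem _ (Submodule.add_mem _ (Submodule.add_mem _ (l5 u1 u2)
    (l5 u1 u3)) (l5 u2 u3)) (l5 (l3 (l5 u1 u2)) u3))

/-- the linear parts of the diagonal directions -/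
theorem lin_diag (hs : Sc ρ) (h3 : (3 : R) = 0) :
    (yz ρ ![1, 3, 3, 3] - 1 - (gX ρ + gY ρ + gZ ρ) ∈ Ia k ρ ^ 2 ∧
    yz ρ ![1, 3, 3, -3] - 1 - (gX ρ + gY ρ - gZ ρ) ∈ Ia k ρ ^ 2 ∧
    yz ρ ![1, 3, -3, 3] - 1 - (gX ρ - gY ρ + gZ ρ) ∈ Ia k ρ ^ 2 ∧
    yz ρ ![1, 3, -3, -3] - 1 - (gX ρ - gY ρ - gZ ρ) ∈ Ia k ρ ^ 2) ∧
    (yz ρ ![1, -3, -3, -3] - 1 - (-gX ρ - gY ρ - gZ ρ) ∈ Ia k ρ ^ 2 ∧
    yz ρ ![1, -3, -3, 3] - 1 - (-gX ρ - gY ρ + gZ ρ) ∈ Ia k ρ ^ 2 ∧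
    yz ρ ![1, -3, 3, -3] - 1 - (-gX ρ + gY ρ - gZ ρ) ∈ Ia k ρ ^ 2 ∧
    yz ρ ![1, -3, 3, 3] - 1 - (-gX ρ + gY ρ + gZ ρ) ∈ Ia k ρ ^ 2) := by
  have z : ∀ l : R, l - l ∈ Ia k ρ ^ 2 := fun l => by rw [sub_self]; exact Submodule.zero_mem _
  have nY := y_neg (k := k) hs 0 1 0
  have nZ := y_neg (k := k) hs 0 0 1
  rw [neg_zero] at nY nZ
  have p1 := y_lin (k := k) hs h3 1 1 (z _) (z _)
  have p2 := y_lin (k := k) hs h3 1 (-1) (z _) nZ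
  have p3 := y_lin (k := k) hs h3 (-1) 1 nY (z _)
  have p4 := y_lin (k := k) hs h3 (-1) (-1) nY nZ
  change ρ (kp (im 1 1 1)) - 1 - (gX ρ + gY ρ + gZ ρ) ∈ _ at p1
  change ρ (kp (im 1 1 (-1))) - 1 - (gX ρ + gY ρ + -gZ ρ) ∈ _ at p2
  change ρ (kp (im 1 (-1) 1)) - 1 - (gX ρ + -gY ρ + gZ ρ) ∈ _ at p3
  change ρ (kp (im 1 (-1) (-1))) - 1 - (gX ρ + -gY ρ + -gZ ρ) ∈ _ at p4
  have r : ∀ (b c : ℤ), yz ρ ![1, 3, 3 * b, 3 * c] = ρ (kp (im 1 (b : Zn N) c)) := by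
    intro b c
    have := yz_rel (ρ := ρ) (a := 1) (b := b) (c := c) (A := 1) (B := b) (C := c) (by simp) rfl rfl
    simpa using this
  have r1 := r 1 1
  have r2 := r 1 (-1)
  have r3 := r (-1) 1
  have r4 := r (-1) (-1)
  norm_num at r1 r2 r3 r4
  rw [← r1] at p1
  rw [← r2] at p2
  rw [← r3] at p3
  rw [← r4] at p4
  have ng : ∀ {c d : Fin 4 → ℤ} {l : R}, Go c → Go d → yz ρ c * yz ρ d = 1 →
      yz ρ c - 1 - l ∈ Ia k ρ ^ 2 → yz ρ d - 1 - (-l) ∈ Ia k ρ ^ 2 := by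
    intro c d l hc hd h hl
    have e : yz ρ d - 1 - (-l) = ((yz ρ c - 1) + (yz ρ d - 1)) - (yz ρ c - 1 - l) := by abel
    rw [e, alg8 h]
    exact Submodule.sub_mem _ (Submodule.neg_mem _ (fmul (a := 1) (b := 1) (yz_mem hc)
      (yz_mem hd))) hl
  refine ⟨⟨p1, ?_, ?_, ?_⟩, ?_, ?_, ?_, ?_⟩
  · rw [sub_eq_add_neg (gX ρ + gY ρ)]; exact p2
  · rw [sub_eq_add_neg (gX ρ) (gY ρ)]; exact p3
  · rw [sub_eq_add_neg (gX ρ - gY ρ), sub_eq_add_neg (gX ρ)]; exact p4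
  · have := ng (c := ![1, 3, 3, 3]) (d := ![1, -3, -3, -3]) (by decide) (by decide)
      (opp hs 28 (by decide) (by decide) (by decide) (by decide)) p1
    have e : -gX ρ - gY ρ - gZ ρ = -(gX ρ + gY ρ + gZ ρ) := by abel
    rw [e]; exact this
  · have := ng (c := ![1, 3, 3, -3]) (d := ![1, -3, -3, 3]) (by decide) (by decide)
      (opp hs 28 (by decide) (by decide) (by decide) (by decide)) p2
    have e : -gX ρ - gY ρ + gZ ρ = -(gX ρ + gY ρ + -gZ ρ) := by abel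
    rw [e]; exact this
  · have := ng (c := ![1, 3, -3, 3]) (d := ![1, -3, 3, -3]) (by decide) (by decide)
      (opp hs 28 (by decide) (by decide) (by decide) (by decide)) p3
    have e : -gX ρ + gY ρ - gZ ρ = -(gX ρ + -gY ρ + gZ ρ) := by abel
    rw [e]; exact this
  · have := ng (c := ![1, 3, -3, -3]) (d := ![1, -3, 3, 3]) (by decide) (by decide)
      (opp hs 28 (by decide) (by decide) (by decide) (by decide)) p4
    have e : -gX ρ + gY ρ + gZ ρ = -(gX ρ + -gY ρ + -gZ ρ) := by abel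
    rw [e]; exact this

theorem quart (h3 : (3 : R) = 0) {x c t : R} (hx : x - 1 ∈ Ia k ρ ^ 1)
    (hc : c - x * x * x ∈ Ia k ρ ^ 5) (ht : t ∈ Ia k ρ ^ 2)
    (htl : t - (x - 1) * (x - 1) ∈ Ia k ρ ^ 3) :
    (x - 1) * (c - 1) - t * t ∈ Ia k ρ ^ 5 := by
  have e : (x - 1) * (c - 1) - t * t = (x - 1) * (c - x * x * x) +
      3 * ((x - 1) * ((x - 1) * (x - 1) + (x - 1))) -
      (t * t - (x - 1) * (x - 1) * ((x - 1) * (x - 1))) := by noncomm_ring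
  rw [e, h3, zero_mul, add_zero]
  exact Submodule.sub_mem _ (Ia_anti (b := 1 + 5) (by norm_num) (by norm_num) (fmul hx hc))
    (sq_congr ht (fmul hx hx) htl)

end

end Pool.Agent.Helper725_HQ.E5
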