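import Pool.Agent.Helper725_HQ.EW

/-! The combination of the three Hecke relations modulo the fifth power. -/

set_option autoImplicit false
set_option linter.unusedVariables false
set_option linter.unusedSimpArgs false

namespace Pool.Agent.Helper725_HQ.E5

open Quaternion

section
variable {N : ℕ} {k : Type*} [CommRing k] {R : Type*} [Ring R] [Algebra k R]
  {ρ : (Hn N)ˣ →* R}

theorem dw (hs : Sc ρ) (h3 : (3 : R) = 0) {w z c c1 c2 c3 : Fin 4 → ℤ} (hw : Go w) (hz : Go z)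
    (hc : Go c) (g1 : Go c1) (g2 : Go c2) (g3 : Go c3)
    (h : Cg 1 (mq (mq w w) w) (mq (mq c1 c2) c3)) (hzw : yz ρ z * yz ρ w = 1)
    {k1 k2 k3 κ l : R} (m1 : k1 ∈ Ia k ρ ^ 3) (m2 : k2 ∈ Ia k ρ ^ 3) (m3 : k3 ∈ Ia k ρ ^ 3)
    (m : κ ∈ Ia k ρ ^ 3) (q1 : yz ρ c1 - (1 + k1) ∈ Ia k ρ ^ 5)
    (q2 : yz ρ c2 - (1 + k2) ∈ Ia k ρ ^ 5) (q3 : yz ρ c3 - (1 + k3) ∈ Ia k ρ ^ 5)
    (q : yz ρ c - (1 + κ) ∈ Ia k ρ ^ 5) (hl : yz ρ w - 1 - l ∈ Ia k ρ ^ 2) :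
    yz ρ w * yz ρ c - yz ρ z * yz ρ z - ((1 + l) * (k1 + k2 + k3) + (1 + l) * κ) ∈
      Ia k ρ ^ 5 := by
  have h1 := diag_one (k := k) (ρ := ρ) h3 hzw (yz_mem hw) (yz_mem hz)
    (Submodule.add_mem _ (Submodule.add_mem _ m1 m2) m3) hl
    (diag_cube hs h3 hw g1 g2 g3 h m1 m2 m3 q1 q2 q3)
  have h2 := cub_one (k := k) (ρ := ρ) hl m (yz_mem hw) q
  have h4 := Submodule.add_mem _ h1 h2
  have e : ∀ y z a b p : R, y - z - a + (p - (y + b)) = p - z - (a + b) := by intros; abel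
  rw [e] at h4
  exact h4

theorem vplus (hs : Sc ρ) (h3 : (3 : R) = 0) :
    (yz ρ ![1, 3, -3, -3] * yz ρ ![1, 0, 0, 9] + yz ρ ![1, 3, 3, 3] * yz ρ ![1, 0, 0, -9] +
      yz ρ ![1, -3, 3, -3] * yz ρ ![1, 0, 0, 9] + yz ρ ![1, -3, -3, 3] * yz ρ ![1, 0, 0, -9]) -
    (yz ρ ![1, -3, -3, -3] * yz ρ ![1, -3, -3, -3] +
      yz ρ ![1, -3, 3, 3] * yz ρ ![1, -3, 3, 3] + yz ρ ![1, 3, -3, 3] * yz ρ ![1, 3, -3, 3] +
      yz ρ ![1, 3, 3, -3] * yz ρ ![1, 3, 3, -3]) - (t1 ρ * t1 ρ + t2 ρ * t2 ρ) ∈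
      Ia k ρ ^ 5 := by
  obtain ⟨⟨l1, l2, l3, l4⟩, l5, l6, l7, l8⟩ := lin_diag (k := k) hs h3
  have n1 := nine_mem (k := k) hs h3 (c := ![1, 9, 0, 0]) (y := ![1, 3, 0, 0]) (by decide)
    (by decide) (by decide)
  have n2 := nine_mem (k := k) hs h3 (c := ![1, 0, 9, 0]) (y := ![1, 0, 3, 0]) (by decide)
    (by decide) (by decide)
  have n3 := nine_mem (k := k) hs h3 (c := ![1, 0, 0, 9]) (y := ![1, 0, 0, 3]) (by decide)
    (by decide) (by decide)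
  have n1' := nine_mem (k := k) hs h3 (c := ![1, -9, 0, 0]) (y := ![1, -3, 0, 0]) (by decide)
    (by decide) (by decide)
  have n2' := nine_mem (k := k) hs h3 (c := ![1, 0, -9, 0]) (y := ![1, 0, -3, 0]) (by decide)
    (by decide) (by decide)
  have n3' := nine_mem (k := k) hs h3 (c := ![1, 0, 0, -9]) (y := ![1, 0, 0, -3]) (by decide)
    (by decide) (by decide)
  have z1 := nine_neg (k := k) (ρ := ρ) (opp hs 82 (c := ![1, 9, 0, 0]) (d := ![1, -9, 0, 0])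
    (by decide) (by decide) (by decide) (by decide)) n1 n1'
  have z2 := nine_neg (k := k) (ρ := ρ) (opp hs 82 (c := ![1, 0, 9, 0]) (d := ![1, 0, -9, 0])
    (by decide) (by decide) (by decide) (by decide)) n2 n2'
  have z3 := nine_neg (k := k) (ρ := ρ) (opp hs 82 (c := ![1, 0, 0, 9]) (d := ![1, 0, 0, -9])
    (by decide) (by decide) (by decide) (by decide)) n3 n3'
  have o1 : yz ρ ![1, 9, 0, 0] - (1 + (yz ρ ![1, 9, 0, 0] - 1)) ∈ Ia k ρ ^ 5 := by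
    have : yz ρ ![1, 9, 0, 0] - (1 + (yz ρ ![1, 9, 0, 0] - 1)) = 0 := by abel
    rw [this]; exact Submodule.zero_mem _
  have o2 : yz ρ ![1, 0, 9, 0] - (1 + (yz ρ ![1, 0, 9, 0] - 1)) ∈ Ia k ρ ^ 5 := by
    have : yz ρ ![1, 0, 9, 0] - (1 + (yz ρ ![1, 0, 9, 0] - 1)) = 0 := by abel
    rw [this]; exact Submodule.zero_mem _
  have o3 : yz ρ ![1, 0, 0, 9] - (1 + (yz ρ ![1, 0, 0, 9] - 1)) ∈ Ia k ρ ^ 5 := by
    have : yz ρ ![1, 0, 0, 9] - (1 + (yz ρ ![1, 0, 0, 9] - 1)) = 0 := by abel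
    rw [this]; exact Submodule.zero_mem _
  have m1 : -(yz ρ ![1, 9, 0, 0] - 1) ∈ Ia k ρ ^ 3 := Submodule.neg_mem _ n1
  have m2 : -(yz ρ ![1, 0, 9, 0] - 1) ∈ Ia k ρ ^ 3 := Submodule.neg_mem _ n2
  have m3 : -(yz ρ ![1, 0, 0, 9] - 1) ∈ Ia k ρ ^ 3 := Submodule.neg_mem _ n3
  have d1 := dw (k := k) hs h3 (w := ![1, 3, -3, -3]) (z := ![1, -3, 3, 3]) (c := ![1, 0, 0, 9])
    (c1 := ![1, 9, 0, 0]) (c2 := ![1, 0, -9, 0]) (c3 := ![1, 0, 0, -9]) (by decide) (by decide)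
    (by decide) (by decide) (by decide) (by decide) (by decide)
    (opp hs 28 (by decide) (by decide) (by decide) (by decide)) n1 m2 m3 n3 o1 z2 z3 o3 l4
  have d2 := dw (k := k) hs h3 (w := ![1, 3, 3, 3]) (z := ![1, -3, -3, -3]) (c := ![1, 0, 0, -9])
    (c1 := ![1, 9, 0, 0]) (c2 := ![1, 0, 9, 0]) (c3 := ![1, 0, 0, 9]) (by decide) (by decide)
    (by decide) (by decide) (by decide) (by decide) (by decide)
    (opp hs 28 (by decide) (by decide) (by decide) (by decide)) n1 n2 n3 m3 o1 o2 o3 z3 l1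
  have d3 := dw (k := k) hs h3 (w := ![1, -3, 3, -3]) (z := ![1, 3, -3, 3]) (c := ![1, 0, 0, 9])
    (c1 := ![1, -9, 0, 0]) (c2 := ![1, 0, 9, 0]) (c3 := ![1, 0, 0, -9]) (by decide) (by decide)
    (by decide) (by decide) (by decide) (by decide) (by decide)
    (opp hs 28 (by decide) (by decide) (by decide) (by decide)) m1 n2 m3 n3 z1 o2 z3 o3 l7
  have d4 := dw (k := k) hs h3 (w := ![1, -3, -3, 3]) (z := ![1, 3, 3, -3]) (c := ![1, 0, 0, -9])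
    (c1 := ![1, -9, 0, 0]) (c2 := ![1, 0, -9, 0]) (c3 := ![1, 0, 0, 9]) (by decide) (by decide)
    (by decide) (by decide) (by decide) (by decide) (by decide)
    (opp hs 28 (by decide) (by decide) (by decide) (by decide)) m1 m2 n3 m3 z1 z2 o3 z3 l6
  have r1 := quart (k := k) (ρ := ρ) h3 (x := yz ρ ![1, 3, 0, 0]) (c := yz ρ ![1, 9, 0, 0])
    (yz_mem (by decide)) (cub_congr hs h3 (by decide) (by decide) (by decide)) (t1_mem hs)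
    (by have := t1_lead (k := k) hs; rwa [gX_yz] at this)
  have r2 := quart (k := k) (ρ := ρ) h3 (x := yz ρ ![1, 0, 3, 0]) (c := yz ρ ![1, 0, 9, 0])
    (yz_mem (by decide)) (cub_congr hs h3 (by decide) (by decide) (by decide)) (t2_mem hs)
    (by have := t2_lead (k := k) hs; rwa [gY_yz] at this)
  rw [← gX_yz] at r1
  rw [← gY_yz] at r2
  obtain ⟨K1, hK1⟩ : ∃ K, K = yz ρ ![1, 9, 0, 0] - 1 := ⟨_, rfl⟩
  obtain ⟨K2, hK2⟩ : ∃ K, K = yz ρ ![1, 0, 9, 0] - 1 := ⟨_, rfl⟩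
  obtain ⟨K3, hK3⟩ : ∃ K, K = yz ρ ![1, 0, 0, 9] - 1 := ⟨_, rfl⟩
  rw [← hK1, ← hK2, ← hK3] at d1 d2 d3 d4
  rw [← hK1] at r1
  rw [← hK2] at r2
  obtain ⟨X, hX⟩ : ∃ K, K = gX ρ := ⟨_, rfl⟩
  obtain ⟨Y, hY⟩ : ∃ K, K = gY ρ := ⟨_, rfl⟩
  obtain ⟨Z, hZ⟩ : ∃ K, K = gZ ρ := ⟨_, rfl⟩
  rw [← hX, ← hY, ← hZ] at d1 d2 d3 d4
  rw [← hX] at r1
  rw [← hY] at r2
  have s := Submodule.add_mem _ (Submodule.add_mem _ (Submodule.add_mem _ (Submodule.add_mem _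
    (Submodule.add_mem _ d1 d2) d3) d4) r1) r2
  have e : ∀ p1 p2 p3 p4 z1 z2 z3 z4 T1 T2 : R,
      (p1 - z1 - ((1 + (X - Y - Z)) * (K1 + -K2 + -K3) + (1 + (X - Y - Z)) * K3)) +
      (p2 - z2 - ((1 + (X + Y + Z)) * (K1 + K2 + K3) + (1 + (X + Y + Z)) * -K3)) +
      (p3 - z3 - ((1 + (-X + Y - Z)) * (-K1 + K2 + -K3) + (1 + (-X + Y - Z)) * K3)) +
      (p4 - z4 - ((1 + (-X - Y + Z)) * (-K1 + -K2 + K3) + (1 + (-X - Y + Z)) * -K3)) +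
      (X * K1 - T1) + (Y * K2 - T2) = ((p1 + p2 + p3 + p4) - (z2 + z1 + z3 + z4) - (T1 + T2)) -
      3 * (X * K1 + Y * K2) := by
    intros; noncomm_ring
  rw [e, h3, zero_mul, sub_zero] at s
  exact s

theorem vminus (hs : Sc ρ) (h3 : (3 : R) = 0) :
    (yz ρ ![1, 3, -3, 3] * yz ρ ![1, 0, 9, 0] + yz ρ ![1, 3, 3, -3] * yz ρ ![1, 0, -9, 0] +
      yz ρ ![1, -3, -3, -3] * yz ρ ![1, 0, 9, 0] + yz ρ ![1, -3, 3, 3] * yz ρ ![1, 0, -9, 0]) -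
    (yz ρ ![1, -3, 3, -3] * yz ρ ![1, -3, 3, -3] +
      yz ρ ![1, -3, -3, 3] * yz ρ ![1, -3, -3, 3] + yz ρ ![1, 3, 3, 3] * yz ρ ![1, 3, 3, 3] +
      yz ρ ![1, 3, -3, -3] * yz ρ ![1, 3, -3, -3]) - (t1 ρ * t1 ρ + t3 ρ * t3 ρ) ∈
      Ia k ρ ^ 5 := by
  obtain ⟨⟨l1, l2, l3, l4⟩, l5, l6, l7, l8⟩ := lin_diag (k := k) hs h3
  have n1 := nine_mem (k := k) hs h3 (c := ![1, 9, 0, 0]) (y := ![1, 3, 0, 0]) (by decide)
    (by decide) (by decide)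
  have n2 := nine_mem (k := k) hs h3 (c := ![1, 0, 9, 0]) (y := ![1, 0, 3, 0]) (by decide)
    (by decide) (by decide)
  have n3 := nine_mem (k := k) hs h3 (c := ![1, 0, 0, 9]) (y := ![1, 0, 0, 3]) (by decide)
    (by decide) (by decide)
  have n1' := nine_mem (k := k) hs h3 (c := ![1, -9, 0, 0]) (y := ![1, -3, 0, 0]) (by decide)
    (by decide) (by decide)
  have n2' := nine_mem (k := k) hs h3 (c := ![1, 0, -9, 0]) (y := ![1, 0, -3, 0]) (by decide)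
    (by decide) (by decide)
  have n3' := nine_mem (k := k) hs h3 (c := ![1, 0, 0, -9]) (y := ![1, 0, 0, -3]) (by decide)
    (by decide) (by decide)
  have z1 := nine_neg (k := k) (ρ := ρ) (opp hs 82 (c := ![1, 9, 0, 0]) (d := ![1, -9, 0, 0])
    (by decide) (by decide) (by decide) (by decide)) n1 n1'
  have z2 := nine_neg (k := k) (ρ := ρ) (opp hs 82 (c := ![1, 0, 9, 0]) (d := ![1, 0, -9, 0])
    (by decide) (by decide) (by decide) (by decide)) n2 n2'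
  have z3 := nine_neg (k := k) (ρ := ρ) (opp hs 82 (c := ![1, 0, 0, 9]) (d := ![1, 0, 0, -9])
    (by decide) (by decide) (by decide) (by decide)) n3 n3'
  have o1 : yz ρ ![1, 9, 0, 0] - (1 + (yz ρ ![1, 9, 0, 0] - 1)) ∈ Ia k ρ ^ 5 := by
    have : yz ρ ![1, 9, 0, 0] - (1 + (yz ρ ![1, 9, 0, 0] - 1)) = 0 := by abel
    rw [this]; exact Submodule.zero_mem _
  have o2 : yz ρ ![1, 0, 9, 0] - (1 + (yz ρ ![1, 0, 9, 0] - 1)) ∈ Ia k ρ ^ 5 := by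
    have : yz ρ ![1, 0, 9, 0] - (1 + (yz ρ ![1, 0, 9, 0] - 1)) = 0 := by abel
    rw [this]; exact Submodule.zero_mem _
  have o3 : yz ρ ![1, 0, 0, 9] - (1 + (yz ρ ![1, 0, 0, 9] - 1)) ∈ Ia k ρ ^ 5 := by
    have : yz ρ ![1, 0, 0, 9] - (1 + (yz ρ ![1, 0, 0, 9] - 1)) = 0 := by abel
    rw [this]; exact Submodule.zero_mem _
  have m1 : -(yz ρ ![1, 9, 0, 0] - 1) ∈ Ia k ρ ^ 3 := Submodule.neg_mem _ n1
  have m2 : -(yz ρ ![1, 0, 9, 0] - 1) ∈ Ia k ρ ^ 3 := Submodule.neg_mem _ n2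
  have m3 : -(yz ρ ![1, 0, 0, 9] - 1) ∈ Ia k ρ ^ 3 := Submodule.neg_mem _ n3
  have d1 := dw (k := k) hs h3 (w := ![1, 3, -3, 3]) (z := ![1, -3, 3, -3]) (c := ![1, 0, 9, 0])
    (c1 := ![1, 9, 0, 0]) (c2 := ![1, 0, -9, 0]) (c3 := ![1, 0, 0, 9]) (by decide) (by decide)
    (by decide) (by decide) (by decide) (by decide) (by decide)
    (opp hs 28 (by decide) (by decide) (by decide) (by decide)) n1 m2 n3 n2 o1 z2 o3 o2 l3
  have d2 := dw (k := k) hs h3 (w := ![1, 3, 3, -3]) (z := ![1, -3, -3, 3]) (c := ![1, 0, -9, 0])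
    (c1 := ![1, 9, 0, 0]) (c2 := ![1, 0, 9, 0]) (c3 := ![1, 0, 0, -9]) (by decide) (by decide)
    (by decide) (by decide) (by decide) (by decide) (by decide)
    (opp hs 28 (by decide) (by decide) (by decide) (by decide)) n1 n2 m3 m2 o1 o2 z3 z2 l2
  have d3 := dw (k := k) hs h3 (w := ![1, -3, -3, -3]) (z := ![1, 3, 3, 3]) (c := ![1, 0, 9, 0])
    (c1 := ![1, -9, 0, 0]) (c2 := ![1, 0, -9, 0]) (c3 := ![1, 0, 0, -9]) (by decide) (by decide)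
    (by decide) (by decide) (by decide) (by decide) (by decide)
    (opp hs 28 (by decide) (by decide) (by decide) (by decide)) m1 m2 m3 n2 z1 z2 z3 o2 l5
  have d4 := dw (k := k) hs h3 (w := ![1, -3, 3, 3]) (z := ![1, 3, -3, -3]) (c := ![1, 0, -9, 0])
    (c1 := ![1, -9, 0, 0]) (c2 := ![1, 0, 9, 0]) (c3 := ![1, 0, 0, 9]) (by decide) (by decide)
    (by decide) (by decide) (by decide) (by decide) (by decide)
    (opp hs 28 (by decide) (by decide) (by decide) (by decide)) m1 n2 n3 m2 z1 o2 o3 z2 l8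
  have r1 := quart (k := k) (ρ := ρ) h3 (x := yz ρ ![1, 3, 0, 0]) (c := yz ρ ![1, 9, 0, 0])
    (yz_mem (by decide)) (cub_congr hs h3 (by decide) (by decide) (by decide)) (t1_mem hs)
    (by have := t1_lead (k := k) hs; rwa [gX_yz] at this)
  have r2 := quart (k := k) (ρ := ρ) h3 (x := yz ρ ![1, 0, 0, 3]) (c := yz ρ ![1, 0, 0, 9])
    (yz_mem (by decide)) (cub_congr hs h3 (by decide) (by decide) (by decide)) (t3_mem hs)
    (by have := t3_lead (k := k) hs; rwa [gZ_yz] at this)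
  rw [← gX_yz] at r1
  rw [← gZ_yz] at r2
  obtain ⟨K1, hK1⟩ : ∃ K, K = yz ρ ![1, 9, 0, 0] - 1 := ⟨_, rfl⟩
  obtain ⟨K2, hK2⟩ : ∃ K, K = yz ρ ![1, 0, 9, 0] - 1 := ⟨_, rfl⟩
  obtain ⟨K3, hK3⟩ : ∃ K, K = yz ρ ![1, 0, 0, 9] - 1 := ⟨_, rfl⟩
  rw [← hK1, ← hK2, ← hK3] at d1 d2 d3 d4
  rw [← hK1] at r1
  rw [← hK3] at r2
  obtain ⟨X, hX⟩ : ∃ K, K = gX ρ := ⟨_, rfl⟩
  obtain ⟨Y, hY⟩ : ∃ K, K = gY ρ := ⟨_, rfl⟩
  obtain ⟨Z, hZ⟩ : ∃ K, K = gZ ρ := ⟨_, rfl⟩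
  rw [← hX, ← hY, ← hZ] at d1 d2 d3 d4
  rw [← hX] at r1
  rw [← hZ] at r2
  have s := Submodule.add_mem _ (Submodule.add_mem _ (Submodule.add_mem _ (Submodule.add_mem _
    (Submodule.add_mem _ d1 d2) d3) d4) r1) r2
  have e : ∀ p1 p2 p3 p4 z1 z2 z3 z4 T1 T2 : R,
      (p1 - z1 - ((1 + (X - Y + Z)) * (K1 + -K2 + K3) + (1 + (X - Y + Z)) * K2)) +
      (p2 - z2 - ((1 + (X + Y - Z)) * (K1 + K2 + -K3) + (1 + (X + Y - Z)) * -K2)) +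
      (p3 - z3 - ((1 + (-X - Y - Z)) * (-K1 + -K2 + -K3) + (1 + (-X - Y - Z)) * K2)) +
      (p4 - z4 - ((1 + (-X + Y + Z)) * (-K1 + K2 + K3) + (1 + (-X + Y + Z)) * -K2)) +
      (X * K1 - T1) + (Z * K3 - T2) = ((p1 + p2 + p3 + p4) - (z1 + z2 + z3 + z4) - (T1 + T2)) -
      3 * (X * K1 + Z * K3) := by
    intros; noncomm_ring
  rw [e, h3, zero_mul, sub_zero] at s
  exact s

end

end Pool.Agent.Helper725_HQ.E5
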