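import Pool.Agent.Helper725_HQ.EU

/-! The three functions of an eigenform in level five are constant and equal. -/

set_option autoImplicit false
set_option linter.unusedVariables false
set_option linter.unusedSimpArgs false

namespace Pool.Agent.Helper725_HQ.E5

open Quaternion

section
variable {N : ℕ} {k : Type*} [CommRing k] {R : Type*} [Ring R] [Algebra k R]
  {ρ : (Hn N)ˣ →* R}

theorem x5_q2 : x5 ρ = q2' ρ := by
  unfold x5 q2'
  rw [t1_pr, t2_pr, t3_pr]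

theorem q2_rc : q2' (rc ρ) = q2' ρ := by
  unfold q2'
  rw [rc_t1, rc_t2, rc_t3]
  abel

theorem q4_rc (hs : Sc ρ) (h3 : (3 : R) = 0) : q4' ρ - q4' (rc ρ) ∈ Ia k ρ ^ 5 := by
  have m1 : t1 ρ ∈ Ia k ρ ^ 2 := t1_mem hs
  have m2 : t2 ρ ∈ Ia k ρ ^ 2 := t2_mem hs
  have m3 : t3 ρ ∈ Ia k ρ ^ 2 := t3_mem hs
  have k1 := comm_two hs h3 m1 m2
  have k2 := comm_two hs h3 m1 m3
  have e : q4' ρ - q4' (rc ρ) = (t1 ρ * t2 ρ - t2 ρ * t1 ρ) + (t1 ρ * t3 ρ - t3 ρ * t1 ρ) := by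
    unfold q4'
    rw [rc_t1, rc_t2, rc_t3]
    abel
  rw [e]
  exact Submodule.add_mem _ k1 k2

/-- the quartic operator of the descent -/
noncomputable def Qd (ρ : (Hn N)ˣ →* R) : R := gX ρ * gX ρ * gY ρ * gY ρ +
  gY ρ * gY ρ * gZ ρ * gZ ρ + gX ρ * gX ρ * gZ ρ * gZ ρ

theorem Qd_eq (hs : Sc ρ) (h3 : (3 : R) = 0) : Qd ρ - (q2' ρ * q2' ρ - q4' ρ) ∈ Ia k ρ ^ 5 := by
  have m1 : t1 ρ ∈ Ia k ρ ^ 2 := t1_mem hs
  have m2 : t2 ρ ∈ Ia k ρ ^ 2 := t2_mem hs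
  have m3 : t3 ρ ∈ Ia k ρ ^ 2 := t3_mem hs
  have l1 := t1_lead (k := k) hs
  have l2 := t2_lead (k := k) hs
  have l3 := t3_lead (k := k) hs
  have hX : gX ρ * gX ρ ∈ Ia k ρ ^ 2 := fmul gX_mem gX_mem
  have hY : gY ρ * gY ρ ∈ Ia k ρ ^ 2 := fmul gY_mem gY_mem
  have hZ : gZ ρ * gZ ρ ∈ Ia k ρ ^ 2 := fmul gZ_mem gZ_mem
  have key : ∀ {a b A B : R}, a ∈ Ia k ρ ^ 2 → b ∈ Ia k ρ ^ 2 → A ∈ Ia k ρ ^ 2 →
      B ∈ Ia k ρ ^ 2 → a - A ∈ Ia k ρ ^ 3 → b - B ∈ Ia k ρ ^ 3 → A * B - b * a ∈ Ia k ρ ^ 5 := by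
    intro a b A B ha hb hA hB h1 h2
    have e : A * B - b * a = (A * B - B * A) - B * (a - A) - (b - B) * a := by noncomm_ring
    rw [e]
    exact Submodule.sub_mem _ (Submodule.sub_mem _ (comm_two hs h3 hA hB) (fmul hB h1))
      (fmul h2 ha)
  have k1 := key m1 m2 hX hY l1 l2
  have k2 := key m2 m3 hY hZ l2 l3
  have k3 := key m1 m3 hX hZ l1 l3
  have e : Qd ρ - (q2' ρ * q2' ρ - q4' ρ) = (gX ρ * gX ρ * (gY ρ * gY ρ) - t2 ρ * t1 ρ) +
      (gY ρ * gY ρ * (gZ ρ * gZ ρ) - t3 ρ * t2 ρ) +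
      (gX ρ * gX ρ * (gZ ρ * gZ ρ) - t3 ρ * t1 ρ) := by
    unfold Qd q2' q4'
    noncomm_ring
  rw [e]
  exact Submodule.add_mem _ (Submodule.add_mem _ k1 k2) k3

end

section
variable {N : ℕ} {κ : Type} [Field κ]

theorem wq_fix (f : Fn N κ) : rho κ (wq N) f (im 1 0 0) = f (im 1 0 0) := by
  rw [rho_apply]
  have e : (((wq N)⁻¹ : (Hn N)ˣ) : Hn N) * im 1 0 0 * ((wq N : (Hn N)ˣ) : Hn N) =
      im 1 0 0 := by
    show qn4 (hf N) (-hf N) 0 0 * im 1 0 0 * qn4 1 1 0 0 = im 1 0 0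
    have h := two_hf (N := N)
    apply Quaternion.ext
    · simp
    · simp; linear_combination h
    · simp
    · simp
  rw [e]

theorem t1_ev (f : Fn N κ) : (t1 (rho (N := N) κ)) f (im 1 0 0) = 0 := by
  have key : ∀ a : Zn N, rho κ (kp (im a 0 0)) f (im 1 0 0) = f (im 1 0 0) := by
    intro a
    rw [rho_apply]
    have e : (((kp (im a 0 0))⁻¹ : (Hn N)ˣ) : Hn N) * im 1 0 0 * ((kp (im a 0 0) : (Hn N)ˣ) : Hn N) =
        im 1 0 0 := by
      have e1 : im 1 0 0 * ((kp (im a 0 0) : (Hn N)ˣ) : Hn N) =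
          ((kp (im a 0 0) : (Hn N)ˣ) : Hn N) * im 1 0 0 := by
        rw [kap_val, mul_add, add_mul, mul_one, one_mul, mul_smul_comm, smul_mul_assoc]
        congr 2
        apply Quaternion.ext <;> simp
      rw [mul_assoc, e1, ← mul_assoc, Units.inv_mul, one_mul]
    rw [e]
  rw [t1_pr]
  unfold pr
  show (rho κ (kp (im 1 0 0)) f (im 1 0 0) - f (im 1 0 0)) +
    (rho κ (kp (im (-1) (-0) (-0))) f (im 1 0 0) - f (im 1 0 0)) = 0
  rw [neg_zero, key, key, sub_self, add_zero]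

theorem t3_wq (f : Fn N κ) : (t3 (rho (N := N) κ)) (rho κ (wq N) f) =
    rho κ (wq N) ((t2 (rho (N := N) κ)) f) := by
  have key : ∀ b : Zn N, rho κ (kp (im 0 0 b)) (rho κ (wq N) f) =
      rho κ (wq N) (rho κ (kp (im 0 b 0)) f) := by
    intro b
    have h1 := cq_q (N := N) 0 b 0
    rw [neg_zero] at h1
    rw [← Module.End.mul_apply, ← Module.End.mul_apply, ← map_mul, ← map_mul, ← h1,
      inv_mul_cancel_right]
  rw [t3_pr, t2_pr]
  unfold pr
  simp only [neg_zero, LinearMap.add_apply, LinearMap.sub_apply, map_add, map_sub, key]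
  rfl

theorem Kl_desc (h3 : (3 : κ) = 0) {G : Fin 3 → Fn N κ} (m : ℕ)
    (step : ∀ d : ℕ, m ≤ d → Kl (rho κ) G (d + 1) → Kl (rho κ) G d) : Kl (rho κ) G m := by
  have desc : ∀ n : ℕ, Kl (rho κ) G (n + m) → Kl (rho κ) G m := by
    intro n
    induction n with
    | zero => intro h1; rwa [zero_add] at h1
    | succ n ih =>
      intro h1
      apply ih
      apply step _ (by omega)
      have e : n + m + 1 = n + 1 + m := by ring
      rw [e]
      exact h1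
  obtain ⟨D, hD⟩ := Ia_nil (N := N) h3
  apply desc (D + 1)
  intro i T hT
  rcases Nat.eq_zero_or_pos D with h0 | hpos
  · have h1 := hD 1 (by rw [h0, pow_zero]; exact Submodule.one_le.1 le_rfl)
    have : T = T * 1 := (mul_one T).symm
    rw [this, h1, mul_zero]; rfl
  · rw [hD T (Ia_anti hpos (by omega) hT)]; rfl

/-- the three functions are constant -/
theorem constE (h3 : (3 : κ) = 0) {G : Fin 3 → Fn N κ} (h : ∀ i, Gd (G i)) {c7 c11 c13 : κ}
    (R0 : Rl (rho κ) G c7 c11 c13) (R1 : Rl (rc (rho κ)) ![G 1, G 2, G 0] c7 c11 c13)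
    (R2 : Rl (rc (rc (rho κ))) ![G 2, G 0, G 1] c7 c11 c13)
    (Fi : rho κ (wi N)⁻¹ (G 0) = G 0) (Fi1 : rho κ (wi N)⁻¹ (G 1) = yz (rho κ) (Mv 1) (G 1))
    (Fi2 : rho κ (wi N)⁻¹ (G 2) = yz (rho κ) (Mv 2) (G 2))
    (Fj : rho κ (wj N)⁻¹ (G 0) = yz (rho κ) (Mv 0) (G 0)) (Fj1 : rho κ (wj N)⁻¹ (G 1) = G 1)
    (Fj2 : rho κ (wj N)⁻¹ (G 2) = yz (rho κ) (Mv 2) (G 2))
    (Fq : rho κ (wq N) (G 1) = G 2) : ∀ i x, Dc x → G i x = G 0 (im 1 0 0) := by
  have hR := three_End (N := N) h3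
  have hs : Sc (N := N) (rho κ) := rho_Sc
  have hs1 : Sc (N := N) (rc (rho κ)) := rc_Sc hs
  have hs2 : Sc (N := N) (rc (rc (rho κ))) := rc_Sc hs1
  have I2 : Ia κ (rc (rc (rho (N := N) κ))) = Ia κ (rho κ) := by rw [rc_Ia, rc_Ia]
  have K1 : ∀ {m : ℕ}, Kl (rho κ) G m → Kl (rc (rho κ)) ![G 1, G 2, G 0] m := fun hK => Kl_rc hK
  have K2 : ∀ {m : ℕ}, Kl (rho κ) G m → Kl (rc (rc (rho κ))) ![G 2, G 0, G 1] m :=
    fun hK => Kl_rc (Kl_rc hK)
  by_cases hne : ¬ (c7 = 2 ∧ c11 = 0 ∧ c13 = 2)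
  · -- all functions vanish
    have z : Kl (rho κ) G 0 := by
      apply Kl_desc h3 0
      intro d _ hK i T hT
      fin_cases i
      · exact R0.eig hs h3 hK hT hne
      · exact R1.eig hs1 h3 (K1 hK) (by rw [rc_Ia]; exact hT) hne
      · exact R2.eig hs2 h3 (K2 hK) (by rw [I2]; exact hT) hne
    have z' : ∀ i, G i = 0 := fun i => z i 1 (by rw [pow_zero]; exact Submodule.one_le.1 le_rfl)
    intro i x _
    rw [z' i, z' 0]
    rfl
  rw [not_not] at hne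
  obtain ⟨rfl, rfl, rfl⟩ := hne
  have h3M : ∀ x : κ, x + x = 0 → x = 0 := by
    intro x hx
    have : x = 3 * x - (x + x) := by ring
    rw [this, h3, hx]; ring
  -- the first consequence
  have A : ∀ i, InW (rho κ) G 3 (x5 (rho κ) (G i)) := by
    intro i
    rw [x5_q2]
    fin_cases i
    · exact R0.w1 hs h3
    · have := (R1.w1 hs1 h3).ofrc
      rw [q2_rc] at this
      exact this
    · have := InW.ofrc (G := ![G 1, G 2, G 0]) (R2.w1 hs2 h3)
      have := this.ofrc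
      rw [q2_rc, q2_rc] at this
      exact this
  have B : ∀ i, InW (rho κ) G 5 (q4' (rho κ) (G i)) := by
    have sp : ∀ (S T : Module.End κ (Fn N κ)) (x : Fn N κ), S x = (S - T) x + T x := by
      intro S T x
      rw [LinearMap.sub_apply]; abel
    have d1 : q4' (rho κ) - q4' (rc (rho κ)) ∈ Ia κ (rho (N := N) κ) ^ 5 := q4_rc hs hR
    have d2 : q4' (rho κ) - q4' (rc (rc (rho κ))) ∈ Ia κ (rho (N := N) κ) ^ 5 := by
      have := q4_rc (k := κ) hs1 hR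
      rw [rc_Ia] at this
      have e : q4' (rho κ) - q4' (rc (rc (rho (N := N) κ))) = (q4' (rho κ) - q4' (rc (rho κ))) +
        (q4' (rc (rho κ)) - q4' (rc (rc (rho κ)))) := by abel
      rw [e]
      exact Submodule.add_mem _ d1 this
    intro i
    fin_cases i
    · exact R0.w2 hs h3
    · have := (R1.w2 hs1 h3).ofrc
      show InW (rho κ) G 5 (q4' (rho κ) (G 1))
      rw [sp _ (q4' (rc (rho κ)))]
      exact (InW.of d1 1).add this
    · have := InW.ofrc (G := ![G 1, G 2, G 0]) (R2.w2 hs2 h3)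
      have := this.ofrc
      show InW (rho κ) G 5 (q4' (rho κ) (G 2))
      rw [sp _ (q4' (rc (rc (rho κ))))]
      exact (InW.of d2 2).add this
  have C : ∀ i, InW (rho κ) G 5 (Qd (rho κ) (G i)) := by
    intro i
    have e : Qd (rho κ) (G i) = (Qd (rho κ) - (q2' (rho κ) * q2' (rho κ) - q4' (rho κ)) :
        Module.End κ (Fn N κ)) (G i) +
        (q2' (rho κ) (q2' (rho κ) (G i)) - q4' (rho κ) (G i)) := by
      simp only [LinearMap.sub_apply, Module.End.mul_apply]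
      abel
    rw [e]
    have h1 := A i
    rw [x5_q2] at h1
    exact (InW.of (Qd_eq hs hR) i).add ((InW.act (m := 2) (n := 3) (q2_mem hs) h1).sub (B i))
  -- the third consequence
  have E0 := R0.w3 hs h3
  have E1 : InW (rho κ) G 3 ((t1 (rho κ) - t3 (rho κ) : Module.End κ (Fn N κ)) (G 2 - G 0)) := by
    have := (R1.w3 hs1 h3).ofrc
    rw [rc_t3, rc_t2] at this
    exact this
  have E2 : InW (rho κ) G 3 ((t2 (rho κ) - t1 (rho κ) : Module.End κ (Fn N κ)) (G 0 - G 1)) := by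
    have := InW.ofrc (G := ![G 1, G 2, G 0]) (R2.w3 hs2 h3)
    have := this.ofrc
    rw [rc_t3, rc_t2, rc_t1, rc_t3] at this
    exact this
  have y1 : (1 : Module.End κ (Fn N κ)) - 1 ∈ Ia κ (rho (N := N) κ) ^ 1 := by
    rw [sub_self]; exact Submodule.zero_mem _
  have ym : ∀ i : Fin 3, yz (rho κ) (Mv i) - 1 ∈ Ia κ (rho (N := N) κ) ^ 1 :=
    fun i => yz_mem (Mv_Go i)
  -- degree two
  have deg2 : Kl (rho κ) G 3 → ∀ i, mo (rho (N := N) κ) 0 2 (G i) (im 1 0 0) = 0 ∧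
      mo (rho (N := N) κ) 2 0 (G i) (im 1 0 0) = 0 := by
    intro hK
    have z : ∀ {x : Fn N κ}, InW (rho (N := N) κ) G 3 x → x = 0 :=
      fun hx => hK.zero (by norm_num) le_rfl hx
    have s1 : ∀ i, (t2 (rho κ)) (G i) (im 1 0 0) + (t3 (rho κ)) (G i) (im 1 0 0) = 0 := by
      intro i
      have h1 := z (A i)
      rw [x5_q2] at h1
      have h2 := congrFun h1 (im 1 0 0)
      unfold q2' at h2
      have h4 : (t1 (rho κ)) (G i) (im 1 0 0) + (t2 (rho κ)) (G i) (im 1 0 0) +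
        (t3 (rho κ)) (G i) (im 1 0 0) = 0 := h2
      rw [t1_ev, zero_add] at h4
      exact h4
    have s2 : (t3 (rho κ)) (G 1) (im 1 0 0) - (t3 (rho κ)) (G 2) (im 1 0 0) -
        ((t2 (rho κ)) (G 1) (im 1 0 0) - (t2 (rho κ)) (G 2) (im 1 0 0)) = 0 := by
      have h2 := congrFun (z E0) (im 1 0 0)
      rw [LinearMap.sub_apply, map_sub, map_sub] at h2
      exact h2
    have s3 : (t3 (rho κ)) (G 2) (im 1 0 0) - (t3 (rho κ)) (G 0) (im 1 0 0) = 0 := by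
      have h2 := congrFun (z E1) (im 1 0 0)
      rw [LinearMap.sub_apply, map_sub, map_sub] at h2
      have h4 : (t1 (rho κ)) (G 2) (im 1 0 0) - (t1 (rho κ)) (G 0) (im 1 0 0) -
        ((t3 (rho κ)) (G 2) (im 1 0 0) - (t3 (rho κ)) (G 0) (im 1 0 0)) = 0 := h2
      rw [t1_ev, t1_ev, sub_self, zero_sub, neg_eq_zero] at h4
      exact h4
    have s4 : (t2 (rho κ)) (G 0) (im 1 0 0) - (t2 (rho κ)) (G 1) (im 1 0 0) = 0 := by
      have h2 := congrFun (z E2) (im 1 0 0)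
      rw [LinearMap.sub_apply, map_sub, map_sub] at h2
      have h4 : (t2 (rho κ)) (G 0) (im 1 0 0) - (t2 (rho κ)) (G 1) (im 1 0 0) -
        ((t1 (rho κ)) (G 0) (im 1 0 0) - (t1 (rho κ)) (G 1) (im 1 0 0)) = 0 := h2
      rw [t1_ev, t1_ev, sub_self, sub_zero] at h4
      exact h4
    have s5 : (t3 (rho κ)) (G 2) (im 1 0 0) = (t2 (rho κ)) (G 1) (im 1 0 0) := by
      rw [← Fq, t3_wq, wq_fix]
    obtain ⟨a0, ha0⟩ : ∃ a, a = (t2 (rho κ)) (G 0) (im 1 0 0) := ⟨_, rfl⟩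
    obtain ⟨a1, ha1⟩ : ∃ a, a = (t2 (rho κ)) (G 1) (im 1 0 0) := ⟨_, rfl⟩
    obtain ⟨a2, ha2⟩ : ∃ a, a = (t2 (rho κ)) (G 2) (im 1 0 0) := ⟨_, rfl⟩
    obtain ⟨b0, hb0⟩ : ∃ a, a = (t3 (rho κ)) (G 0) (im 1 0 0) := ⟨_, rfl⟩
    obtain ⟨b1, hb1⟩ : ∃ a, a = (t3 (rho κ)) (G 1) (im 1 0 0) := ⟨_, rfl⟩
    obtain ⟨b2, hb2⟩ : ∃ a, a = (t3 (rho κ)) (G 2) (im 1 0 0) := ⟨_, rfl⟩
    have r0 := s1 0
    have r1 := s1 1
    have r2 := s1 2
    rw [← ha0, ← hb0] at r0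
    rw [← ha1, ← hb1] at r1
    rw [← ha2, ← hb2] at r2
    rw [← hb1, ← hb2, ← ha1, ← ha2] at s2
    rw [← hb2, ← hb0] at s3
    rw [← ha0, ← ha1] at s4
    rw [← hb2, ← ha1] at s5
    have zb2 : b2 = 0 := by
      have e1 : b1 - b2 = 0 := by
        apply h3M
        linear_combination s2 + r1 - r2
      apply h3M
      linear_combination s5 + r1 - e1
    have zb1 : b1 = 0 := by
      have e1 : b1 - b2 = 0 := by
        apply h3M
        linear_combination s2 + r1 - r2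
      rw [zb2, sub_zero] at e1
      exact e1
    have zb0 : b0 = 0 := by linear_combination zb2 - s3
    have za1 : a1 = 0 := by linear_combination r1 - zb1
    have za0 : a0 = 0 := by linear_combination s4 + za1
    have za2 : a2 = 0 := by linear_combination r2 - zb2
    have fin : ∀ i, (t2 (rho κ)) (G i) (im 1 0 0) = 0 ∧ (t3 (rho κ)) (G i) (im 1 0 0) = 0 := by
      intro i
      fin_cases i
      · exact ⟨ha0.symm.trans za0, hb0.symm.trans zb0⟩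
      · exact ⟨ha1.symm.trans za1, hb1.symm.trans zb1⟩
      · exact ⟨ha2.symm.trans za2, hb2.symm.trans zb2⟩
    intro i
    have lz := congrFun (hK i _ (t3_lead (k := κ) (ρ := rho (N := N) κ) hs)) (im 1 0 0)
    have ly := congrFun (hK i _ (t2_lead (k := κ) (ρ := rho (N := N) κ) hs)) (im 1 0 0)
    have lz' : (t3 (rho κ)) (G i) (im 1 0 0) - (gZ (rho κ) * gZ (rho κ) : Module.End κ (Fn N κ)) (G i) (im 1 0 0) = 0 := lz
    have ly' : (t2 (rho κ)) (G i) (im 1 0 0) - (gY (rho κ) * gY (rho κ) : Module.End κ (Fn N κ)) (G i) (im 1 0 0) = 0 := ly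
    rw [(fin i).2, zero_sub, neg_eq_zero] at lz'
    rw [(fin i).1, zero_sub, neg_eq_zero] at ly'
    unfold mo
    constructor
    · rw [pow_zero, one_mul, pow_two]; exact lz'
    · rw [pow_zero, mul_one, pow_two]; exact ly'
  -- the descent
  have s1 : Kl (rho κ) G 1 := by
    apply Kl_desc h3 1
    intro d hd hK
    have P5 : ∀ i j l, j + l + 2 = d → mo (rho (N := N) κ) j l (x5 (rho κ) (G i)) (im 1 0 0) = 0 := by
      intro i j l hjl
      rw [hK.zero (by omega) (n := j + l + 3) (by omega) (InW.act (mo_mem j l) (A i))]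
      rfl
    have P7 : ∀ i j l, j + l + 4 = d → mo (rho (N := N) κ) j l (Qd (rho κ) (G i)) (im 1 0 0) = 0 := by
      intro i j l hjl
      rw [hK.zero (by omega) (n := j + l + 5) (by omega) (InW.act (mo_mem j l) (C i))]
      rfl
    have Pq : ∀ i, d = 2 → mo (rho (N := N) κ) 0 2 (G i) (im 1 0 0) =
        mo (rho (N := N) κ) 2 0 (G i) (im 1 0 0) := by
      intro i hd2
      subst hd2
      rw [(deg2 hK i).1, (deg2 hK i).2]
    intro i
    fin_cases i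
    · exact stepE h3 (h 0) (yi := 1) y1 (ym 0) Fi Fj d hd (hK 0) (P5 0) (P7 0) (Pq 0)
    · exact stepE h3 (h 1) (yj := 1) (ym 1) y1 Fi1 Fj1 d hd (hK 1) (P5 1) (P7 1) (Pq 1)
    · exact stepE h3 (h 2) (ym 2) (ym 2) Fi2 Fj2 d hd (hK 2) (P5 2) (P7 2) (Pq 2)
  have hfix : ∀ i, ∀ g ∈ Kz N 1, rho κ g (G i) = G i := by
    intro i g hg
    have h1 := s1 i _ (y_mem1' (k := κ) (ρ := rho (N := N) κ) hg)
    have h2 : rho κ g (G i) - G i = 0 := h1
    rwa [sub_eq_zero] at h2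
  have yfix : ∀ i, yz (rho κ) (Mv i) (G i) = G i := fun i => hfix i _ (uz_mem (Mv_Go i))
  have v21 : G 2 (im 1 0 0) = G 1 (im 1 0 0) := by
    rw [← Fq, wq_fix]
  have v0 : (G 0 (im 1 0 0) + G 0 (im 1 0 0)) + (G 1 (im 1 0 0) + G 1 (im 1 0 0)) +
      (G 2 (im 1 0 0) + G 2 (im 1 0 0)) = 0 := by
    have h1 := congrFun R0.tr (im 1 0 0)
    rw [yfix, yfix, yfix] at h1
    exact h1
  have v10 : G 1 (im 1 0 0) = G 0 (im 1 0 0) := by
    rw [v21] at v0
    have h1 : (G 0 (im 1 0 0) - G 1 (im 1 0 0)) + (G 0 (im 1 0 0) - G 1 (im 1 0 0)) = 0 := by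
      linear_combination v0 - 2 * G 1 (im 1 0 0) * h3
    exact (sub_eq_zero.1 (h3M _ h1)).symm
  intro i x hx
  rw [fixed_const (h i) (hfix i) hx]
  fin_cases i
  · rfl
  · exact v10
  · exact v21.trans v10

end

end Pool.Agent.Helper725_HQ.E5
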