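import Pool.Agent.Helper725_HQ.CRed

/-! Integral quaternions congruent to scalars as elements of the congruence subgroup. -/

set_option autoImplicit false
set_option linter.unusedVariables false
set_option linter.unusedSimpArgs false

namespace Pool.Agent.Helper725_HQ

open Quaternion

/-- the product of integral quaternions -/
def mq (c d : Fin 4 → ℤ) : Fin 4 → ℤ := ![c 0 * d 0 - c 1 * d 1 - c 2 * d 2 - c 3 * d 3,
  c 0 * d 1 + c 1 * d 0 + c 2 * d 3 - c 3 * d 2, c 0 * d 2 - c 1 * d 3 + c 2 * d 0 + c 3 * d 1,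
  c 0 * d 3 + c 1 * d 2 - c 2 * d 1 + c 3 * d 0]

/-- congruent to a scalar modulo three -/
def Go (c : Fin 4 → ℤ) : Prop := c 0 % 3 ≠ 0 ∧ c 1 % 3 = 0 ∧ c 2 % 3 = 0 ∧ c 3 % 3 = 0

instance (c : Fin 4 → ℤ) : Decidable (Go c) := by unfold Go; infer_instance

theorem Go.mul {c d : Fin 4 → ℤ} (hc : Go c) (hd : Go d) : Go (mq c d) := by
  obtain ⟨c0, c1, c2, c3⟩ := hc
  obtain ⟨d0, d1, d2, d3⟩ := hd
  obtain ⟨a1, ha1⟩ := Int.dvd_of_emod_eq_zero c1
  obtain ⟨a2, ha2⟩ := Int.dvd_of_emod_eq_zero c2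
  obtain ⟨a3, ha3⟩ := Int.dvd_of_emod_eq_zero c3
  obtain ⟨b1, hb1⟩ := Int.dvd_of_emod_eq_zero d1
  obtain ⟨b2, hb2⟩ := Int.dvd_of_emod_eq_zero d2
  obtain ⟨b3, hb3⟩ := Int.dvd_of_emod_eq_zero d3
  refine ⟨?_, ?_, ?_, ?_⟩
  · show (c 0 * d 0 - c 1 * d 1 - c 2 * d 2 - c 3 * d 3) % 3 ≠ 0
    intro h
    have h1 := Int.dvd_of_emod_eq_zero h
    have e : c 0 * d 0 - c 1 * d 1 - c 2 * d 2 - c 3 * d 3 = c 0 * d 0 +
        3 * (-(3 * (a1 * b1 + a2 * b2 + a3 * b3))) := by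
      rw [ha1, ha2, ha3, hb1, hb2, hb3]; ring
    rw [e] at h1
    rcases Int.prime_three.dvd_or_dvd ((dvd_add_left (Dvd.intro _ rfl)).1 h1) with h2 | h2
    · exact c0 (Int.emod_eq_zero_of_dvd h2)
    · exact d0 (Int.emod_eq_zero_of_dvd h2)
  · show (c 0 * d 1 + c 1 * d 0 + c 2 * d 3 - c 3 * d 2) % 3 = 0
    apply Int.emod_eq_zero_of_dvd
    exact ⟨c 0 * b1 + a1 * d 0 + a2 * d 3 - a3 * d 2, by rw [ha1, ha2, ha3, hb1]; ring⟩
  · show (c 0 * d 2 - c 1 * d 3 + c 2 * d 0 + c 3 * d 1) % 3 = 0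
    apply Int.emod_eq_zero_of_dvd
    exact ⟨c 0 * b2 - a1 * d 3 + a2 * d 0 + a3 * d 1, by rw [ha1, ha2, ha3, hb2]; ring⟩
  · show (c 0 * d 3 + c 1 * d 2 - c 2 * d 1 + c 3 * d 0) % 3 = 0
    apply Int.emod_eq_zero_of_dvd
    exact ⟨c 0 * b3 + a1 * d 2 - a2 * d 1 + a3 * d 0, by rw [ha1, ha2, ha3, hb3]; ring⟩

section
variable {N : ℕ}

/-- reduction of an integral quaternion -/
def zq (N : ℕ) (c : Fin 4 → ℤ) : Hn N := qn4 (c 0) (c 1) (c 2) (c 3)

theorem zq_mul (c d : Fin 4 → ℤ) : zq N (mq c d) = zq N c * zq N d := by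
  unfold zq mq
  apply Quaternion.ext
  · simp
  · simp
  · simp
  · simp

theorem int_unit {a : ℤ} (ha : a % 3 ≠ 0) : IsUnit ((a : ℤ) : Zn N) := by
  rcases Nat.eq_zero_or_pos N with h | h
  · subst h
    have : Subsingleton (Zn 0) := by
      show Subsingleton (ZMod (3 ^ 0))
      rw [pow_zero]; infer_instance
    exact ⟨1, Subsingleton.elim _ _⟩
  · have h1 := unit_three (N := N) ((a / 3 : ℤ) : Zn N)
    have h2 : a % 3 = 1 ∨ a % 3 = 2 := by omega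
    rcases h2 with h2 | h2
    · have e : (a : Zn N) = 1 + 3 * ((a / 3 : ℤ) : Zn N) := by
        have : a = 1 + 3 * (a / 3) := by omega
        conv_lhs => rw [this]
        push_cast; ring
      rw [e]; exact h1
    · have e : (a : Zn N) = -(1 + 3 * ((-(a / 3) - 1 : ℤ) : Zn N)) := by
        have : a = -(1 + 3 * (-(a / 3) - 1)) := by omega
        conv_lhs => rw [this]
        push_cast; ring
      rw [e]; exact (unit_three _).neg

theorem zq_unit {c : Fin 4 → ℤ} (hc : Go c) : IsUnit (zq N c) := by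
  have h1 : (c 0 * c 0 + c 1 * c 1 + c 2 * c 2 + c 3 * c 3) % 3 ≠ 0 := by
    intro h
    obtain ⟨c0, c1, c2, c3⟩ := hc
    obtain ⟨a1, ha1⟩ := Int.dvd_of_emod_eq_zero c1
    obtain ⟨a2, ha2⟩ := Int.dvd_of_emod_eq_zero c2
    obtain ⟨a3, ha3⟩ := Int.dvd_of_emod_eq_zero c3
    have h1 := Int.dvd_of_emod_eq_zero h
    have e : c 0 * c 0 + c 1 * c 1 + c 2 * c 2 + c 3 * c 3 = c 0 * c 0 +
        3 * (3 * (a1 * a1 + a2 * a2 + a3 * a3)) := by
      rw [ha1, ha2, ha3]; ring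
    rw [e] at h1
    rcases Int.prime_three.dvd_or_dvd ((dvd_add_left (Dvd.intro _ rfl)).1 h1) with h2 | h2
    · exact c0 (Int.emod_eq_zero_of_dvd h2)
    · exact c0 (Int.emod_eq_zero_of_dvd h2)
  obtain ⟨s, hs⟩ := int_unit (N := N) h1
  push_cast at hs
  refine ⟨⟨zq N c, ((s⁻¹ : (Zn N)ˣ) : Zn N) • qn4 (c 0) (-(c 1)) (-(c 2)) (-(c 3)), ?_, ?_⟩, rfl⟩
  · rw [mul_smul_comm]
    have e : zq N c * qn4 (c 0 : Zn N) (-(c 1)) (-(c 2)) (-(c 3)) = (s : Zn N) • (1 : Hn N) := by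
      rw [hs]
      unfold zq
      apply Quaternion.ext
      · simp
      · simp; ring
      · simp; ring
      · simp; ring
    rw [e, smul_smul, Units.inv_mul, one_smul]
  · rw [smul_mul_assoc]
    have e : qn4 (c 0 : Zn N) (-(c 1)) (-(c 2)) (-(c 3)) * zq N c = (s : Zn N) • (1 : Hn N) := by
      rw [hs]
      unfold zq
      apply Quaternion.ext
      · simp
      · simp; ring
      · simp; ring
      · simp; ring
    rw [e, smul_smul, Units.inv_mul, one_smul]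

open Classical in
/-- the unit given by an integral quaternion -/
noncomputable def uz (N : ℕ) (c : Fin 4 → ℤ) : (Hn N)ˣ :=
  if h : IsUnit (zq N c) then h.unit else 1

theorem uz_val {c : Fin 4 → ℤ} (hc : Go c) : (uz N c : Hn N) = zq N c := by
  unfold uz
  rw [dif_pos (zq_unit hc)]
  rfl

theorem uz_mul {c d : Fin 4 → ℤ} (hc : Go c) (hd : Go d) : uz N (mq c d) = uz N c * uz N d := by
  apply Units.ext
  rw [Units.val_mul, uz_val hc, uz_val hd, uz_val (hc.mul hd), zq_mul]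

theorem uz_mem {c : Fin 4 → ℤ} (hc : Go c) : uz N c ∈ Kz N 1 := by
  obtain ⟨s, hs⟩ := int_unit (N := N) hc.1
  obtain ⟨c0, c1, c2, c3⟩ := hc
  have hc : Go c := ⟨c0, c1, c2, c3⟩
  obtain ⟨a1, ha1⟩ := Int.dvd_of_emod_eq_zero c1
  obtain ⟨a2, ha2⟩ := Int.dvd_of_emod_eq_zero c2
  obtain ⟨a3, ha3⟩ := Int.dvd_of_emod_eq_zero c3
  refine ⟨s, ((s⁻¹ : (Zn N)ˣ) : Zn N) • im a1 a2 a3, ?_⟩
  rw [uz_val hc, smul_add, smul_smul, smul_smul]
  have e : (s : Zn N) * (3 : Zn N) ^ 1 * ((s⁻¹ : (Zn N)ˣ) : Zn N) = 3 := by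
    have : (s : Zn N) * ((s⁻¹ : (Zn N)ˣ) : Zn N) = 1 := Units.mul_inv s
    linear_combination 3 * this
  rw [e, hs]
  unfold zq
  rw [ha1, ha2, ha3]
  apply Quaternion.ext
  · simp
  · simp
  · simp
  · simp

/-- congruent modulo twenty-seven up to a scalar -/
def Cg (s : ℤ) (c d : Fin 4 → ℤ) : Prop := s % 3 ≠ 0 ∧ ∀ i, (c i - s * d i) % 27 = 0

instance (s : ℤ) (c d : Fin 4 → ℤ) : Decidable (Cg s c d) := by unfold Cg; infer_instance

theorem uz_congr {c d : Fin 4 → ℤ} (hc : Go c) (hd : Go d) {s : ℤ} (h : Cg s c d) :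
    (uz N d)⁻¹ * uz N c ∈ Kz N 3 := by
  obtain ⟨h1, h2⟩ := h
  obtain ⟨t, ht⟩ := int_unit (N := N) h1
  have h3 : ∀ i, ∃ m : ℤ, c i = s * d i + 27 * m := by
    intro i
    obtain ⟨m, hm⟩ := Int.dvd_of_emod_eq_zero (h2 i)
    exact ⟨m, by linear_combination hm⟩
  choose m hm using h3
  refine ⟨t, ((t⁻¹ : (Zn N)ˣ) : Zn N) • (((uz N d)⁻¹ : (Hn N)ˣ) * zq N m), ?_⟩
  rw [Units.val_mul, uz_val hc]
  have e : zq N c = (t : Zn N) • zq N d + (27 : Zn N) • zq N m := by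
    unfold zq
    rw [ht]
    apply Quaternion.ext
    · simp [hm]
    · simp [hm]
    · simp [hm]
    · simp [hm]
  have e2 : (((uz N d)⁻¹ : (Hn N)ˣ) : Hn N) * zq N d = 1 := by
    rw [← uz_val hd, Units.inv_mul]
  rw [e, mul_add, mul_smul_comm, mul_smul_comm, e2, smul_add, smul_smul, smul_smul]
  have e3 : (t : Zn N) * (3 : Zn N) ^ 3 * ((t⁻¹ : (Zn N)ˣ) : Zn N) = 27 := by
    have : (t : Zn N) * ((t⁻¹ : (Zn N)ˣ) : Zn N) = 1 := Units.mul_inv t
    linear_combination 27 * this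
  rw [e3]

end

section
variable {N : ℕ} {k : Type*} [CommRing k] {R : Type*} [Ring R] [Algebra k R]
  {ρ : (Hn N)ˣ →* R}

/-- the operator given by an integral quaternion -/
noncomputable def yz (ρ : (Hn N)ˣ →* R) (c : Fin 4 → ℤ) : R := ρ (uz N c)

theorem yz_mul {c d : Fin 4 → ℤ} (hc : Go c) (hd : Go d) :
    yz ρ (mq c d) = yz ρ c * yz ρ d := by
  unfold yz
  rw [uz_mul hc hd, map_mul]

theorem yz_mem {c : Fin 4 → ℤ} (hc : Go c) : yz ρ c - 1 ∈ Ia k ρ ^ 1 := y_mem1' (uz_mem hc)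

theorem yz_congr (hs : Sc ρ) (h3 : (3 : R) = 0) {c d : Fin 4 → ℤ} (hc : Go c) (hd : Go d) {s : ℤ}
    (h : Cg s c d) : yz ρ c - yz ρ d ∈ Ia k ρ ^ 5 := by
  have h1 := uz_congr (N := N) hc hd h
  have h2 : ρ ((uz N d)⁻¹ * uz N c) - 1 ∈ Ia k ρ ^ 9 := y_mem hs h3 2 h1
  have h4 : yz ρ c - yz ρ d = (yz ρ d - 1) * (ρ ((uz N d)⁻¹ * uz N c) - 1) +
      (ρ ((uz N d)⁻¹ * uz N c) - 1) := by
    unfold yz
    have : ρ (uz N c) = ρ (uz N d) * ρ ((uz N d)⁻¹ * uz N c) := by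
      rw [← map_mul, mul_inv_cancel_left]
    rw [this]; noncomm_ring
  rw [h4]
  refine Submodule.add_mem _ ?_ (Ia_anti (by norm_num) (by norm_num) h2)
  exact Ia_anti (b := 1 + 9) (by norm_num) (by norm_num) (fmul (yz_mem hd) h2)

theorem yz_scal (hs : Sc ρ) {a : ℤ} (ha : a % 3 ≠ 0) {c : Fin 4 → ℤ} (hc : Go c) :
    yz ρ (fun i => a * c i) = yz ρ c := by
  obtain ⟨s, hs'⟩ := int_unit (N := N) ha
  obtain ⟨c0, c1, c2, c3⟩ := hc
  have hc : Go c := ⟨c0, c1, c2, c3⟩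
  have hg : Go (fun i => a * c i) := by
    refine ⟨?_, ?_, ?_, ?_⟩
    · intro h
      rcases Int.prime_three.dvd_or_dvd (Int.dvd_of_emod_eq_zero h) with h2 | h2
      · exact ha (Int.emod_eq_zero_of_dvd h2)
      · exact c0 (Int.emod_eq_zero_of_dvd h2)
    · exact Int.emod_eq_zero_of_dvd (Dvd.dvd.mul_left (Int.dvd_of_emod_eq_zero c1) _)
    · exact Int.emod_eq_zero_of_dvd (Dvd.dvd.mul_left (Int.dvd_of_emod_eq_zero c2) _)
    · exact Int.emod_eq_zero_of_dvd (Dvd.dvd.mul_left (Int.dvd_of_emod_eq_zero c3) _)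
  unfold yz
  have h1 : ρ ((uz N c)⁻¹ * uz N (fun i => a * c i)) = 1 := by
    apply hs _ s
    rw [Units.val_mul, uz_val hg]
    have e : zq N (fun i => a * c i) = (s : Zn N) • zq N c := by
      unfold zq
      rw [hs']
      apply Quaternion.ext <;> simp
    have e2 : (((uz N c)⁻¹ : (Hn N)ˣ) : Hn N) * zq N c = 1 := by
      rw [← uz_val hc, Units.inv_mul]
    rw [e, mul_smul_comm, e2]
  have : ρ (uz N (fun i => a * c i)) = ρ (uz N c) * ρ ((uz N c)⁻¹ * uz N (fun i => a * c i)) := by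
    rw [← map_mul, mul_inv_cancel_left]
  rw [this, h1, mul_one]

theorem yz_kp {a b c : ℤ} : yz ρ ![1, 3 * a, 3 * b, 3 * c] = ρ (kp (im a b c)) := by
  unfold yz
  congr 1
  apply Units.ext
  have hg : Go ![1, 3 * a, 3 * b, 3 * c] := by
    refine ⟨?_, ?_, ?_, ?_⟩
    · show (1 : ℤ) % 3 ≠ 0
      norm_num
    · show (3 * a) % 3 = 0
      omega
    · show (3 * b) % 3 = 0
      omega
    · show (3 * c) % 3 = 0
      omega
  rw [uz_val hg, kap_val]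
  unfold zq
  apply Quaternion.ext
  · simp
  · simp
  · simp
  · simp

end

end Pool.Agent.Helper725_HQ
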