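import Pool.Agent.Helper725_HQ.Red

/-! Reductions of ordinary eigenforms. -/

set_option autoImplicit false
set_option linter.unusedSimpArgs false
set_option linter.unnecessarySeqFocus false

namespace Pool.Agent.Helper725_HQ

open Quaternion MvPolynomial

/-- the inner product of integral vectors -/
def dotz (v w : Fin 3 → ℤ) : ℤ := v 0 * w 0 + v 1 * w 1 + v 2 * w 2

section
variable {V : ValuationSubring ℂ}

theorem evz_Lp (v w : Fin 3 → ℤ) : evz (Lp V v) w = ((dotz v w : ℤ) : kap V) := by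
  unfold evz Lp dotz
  rw [map_sum, Fin.sum_univ_three]
  simp only [map_mul, eval_C, eval_X]
  push_cast
  ring

theorem evz_term (c : kap V) (v w : Fin 3 → ℤ) (k : ℕ) :
    evz (C c * (Lp V v) ^ k) w = c * ((dotz v w : ℤ) : kap V) ^ k := by
  rw [← evz_Lp]
  unfold evz
  rw [map_mul, map_pow, eval_C]

theorem evz_sum {ι : Type*} (S : Finset ι) (g : ι → MvPolynomial (Fin 3) (kap V))
    (w : Fin 3 → ℤ) : evz (∑ i ∈ S, g i) w = ∑ i ∈ S, evz (g i) w := by
  unfold evz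
  rw [map_sum]

theorem evz_C_mul (c : kap V) (g : MvPolynomial (Fin 3) (kap V)) (w : Fin 3 → ℤ) :
    evz (C c * g) w = c * evz g w := by
  unfold evz
  rw [map_mul, eval_C]

theorem evz_neg {g : MvPolynomial (Fin 3) (kap V)} {k : ℕ} (hg : g.IsHomogeneous k)
    (hk : Even k) (w : Fin 3 → ℤ) : evz g (-w) = evz g w := by
  unfold evz
  have h1 : ∀ x : Fin 3 → kap V, eval (fun j => (-1) * x j) g = (-1) ^ k * eval x g := by
    intro x
    have h2 := lsub_smul hg (-1) (fun i j => if i = j then 1 else 0)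
    rw [lsub_id] at h2
    have h3 := congrArg (eval x) h2
    rw [eval_lsub, map_mul, eval_C] at h3
    rw [← h3]
    congr 2
    funext i
    simp
  have h2 := h1 (fun j => ((w j : ℤ) : kap V))
  rw [hk.neg_one_pow, one_mul] at h2
  rw [← h2]
  congr 2
  funext j
  simp

theorem cast_mod (hV : Thr V) {a b : ℤ} (h : a % 3 = b % 3) : ((a : ℤ) : kap V) = (b : kap V) := by
  obtain ⟨w, hw⟩ : (3 : ℤ) ∣ a - b := Int.ModEq.dvd (Eq.symm h)
  have : a = b + 3 * w := by linear_combination hw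
  rw [this]
  push_cast
  rw [three_zero hV, zero_mul, add_zero]

theorem dd_res : ∀ i : Fin 4, ∀ x y z : ZMod 3, x ^ 2 + y ^ 2 + z ^ 2 = 1 →
    ((aa i 0 : ZMod 3) * x + aa i 1 * y + aa i 2 * z) ^ 2 = 1 := by decide

theorem dd_int (i : Fin 4) (w : Fin 3 → ℤ) (h : (w 0 ^ 2 + w 1 ^ 2 + w 2 ^ 2) % 3 = 1) :
    (dotz (aa i) w) ^ 2 % 3 = 1 % 3 := by
  have h1 : ((w 0 ^ 2 + w 1 ^ 2 + w 2 ^ 2 : ℤ) : ZMod 3) = ((1 : ℤ) : ZMod 3) :=
    (ZMod.intCast_eq_intCast_iff _ _ 3).2 h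
  have h2 := dd_res i (w 0) (w 1) (w 2) (by push_cast at h1; exact h1)
  have h3 : (((dotz (aa i) w) ^ 2 : ℤ) : ZMod 3) = ((1 : ℤ) : ZMod 3) := by
    unfold dotz
    push_cast
    exact h2
  exact (ZMod.intCast_eq_intCast_iff _ _ 3).1 h3

theorem pow_shell (hV : Thr V) {k : ℕ} (hk : Even k) (i : Fin 4) (w : Fin 3 → ℤ)
    (h : (w 0 ^ 2 + w 1 ^ 2 + w 2 ^ 2) % 3 = 1) : ((dotz (aa i) w : ℤ) : kap V) ^ k = 1 := by
  obtain ⟨m, rfl⟩ := hk
  have h1 := cast_mod hV (dd_int i w h)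
  push_cast at h1
  rw [← two_mul, pow_mul, h1, one_pow]

theorem pow_aa (hV : Thr V) {k : ℕ} (hk : Even k) (hk0 : k ≠ 0) (i j : Fin 4) :
    ((dotz (aa i) (aa j) : ℤ) : kap V) ^ k = if i = j then 0 else 1 := by
  obtain ⟨m, rfl⟩ := hk
  have h1 : ∀ i j : Fin 4, (dotz (aa i) (aa j)) ^ 2 % 3 = (if i = j then 0 else 1) % 3 := by decide
  have h2 := cast_mod hV (h1 i j)
  push_cast at h2
  rw [← two_mul, pow_mul, h2]
  have hm : m ≠ 0 := by
    rintro rfl
    exact hk0 rfl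
  split_ifs
  · rw [zero_pow hm]
  · rw [one_pow]

theorem TbA_val {k : ℕ} (hk : Even k) {g : MvPolynomial (Fin 3) (kap V)}
    (hg : g.IsHomogeneous k) (w : Fin 3 → ℤ) : evz (TbA V k g) w =
    evz g (aa 1) * ((dotz (aa 0) w : ℤ) : kap V) ^ k + evz g (aa 2) *
      (((dotz (aa 1) w : ℤ) : kap V) ^ k + ((dotz (aa 2) w : ℤ) : kap V) ^ k +
      ((dotz (aa 3) w : ℤ) : kap V) ^ k) := by
  unfold TbA
  rw [evz_sum, Fin.sum_univ_four, evz_term, evz_term, evz_term, evz_term,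
    evz_neg hg hk, evz_neg hg hk, evz_neg hg hk, evz_neg hg hk]
  have h0 : uA 0 = aa 1 := by decide
  have h1 : uA 1 = -aa 2 := by decide
  have h2 : uA 2 = -aa 2 := by decide
  have h3 : uA 3 = aa 2 := by decide
  rw [h0, h1, h2, h3, evz_neg hg hk]
  ring

theorem TbB_val {k : ℕ} (hk : Even k) {gA g : MvPolynomial (Fin 3) (kap V)}
    (hgA : gA.IsHomogeneous k) (hg : g.IsHomogeneous k) (w : Fin 3 → ℤ) : evz (TbB V k gA g) w =
    evz g (aa 3) * ((dotz (aa 0) w : ℤ) : kap V) ^ k + evz gA (aa 2) *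
      (((dotz (aa 1) w : ℤ) : kap V) ^ k + ((dotz (aa 2) w : ℤ) : kap V) ^ k) +
      evz g (aa 0) * ((dotz (aa 3) w : ℤ) : kap V) ^ k := by
  unfold TbB
  rw [evz_sum, Fin.sum_univ_four, evz_term, evz_term, evz_term, evz_term]
  have b0 : bB 0 = nB := by decide
  have b1 : ¬ bB 1 = nB := by decide
  have b2 : ¬ bB 2 = nB := by decide
  have b3 : bB 3 = nB := by decide
  rw [if_pos b0, if_neg b1, if_neg b2, if_pos b3,
    evz_neg hg hk, evz_neg hgA hk, evz_neg hgA hk, evz_neg hg hk]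
  have h0 : uB 0 = -aa 3 := by decide
  have h1 : uB 1 = aa 2 := by decide
  have h2 : uB 2 = -aa 2 := by decide
  have h3 : uB 3 = -aa 0 := by decide
  rw [h0, h1, h2, h3, evz_neg hg hk, evz_neg hgA hk, evz_neg hg hk]
  ring

theorem seventeen (hV : Thr V) {k : ℕ} (hk : Even k) : ((17 : ℕ) : kap V) ^ k = 1 := by
  have h : ((17 : ℤ) : kap V) = ((-1 : ℤ) : kap V) := cast_mod hV (by norm_num)
  push_cast at h ⊢
  rw [h, hk.neg_one_pow]

theorem sym_B (hV : Thr V) {k : ℕ} (hk : Even k) {g : MvPolynomial (Fin 3) (kap V)}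
    (hg : g.IsHomogeneous k)
    (h : lsub (fun i j => ((wM nB i j : ℤ) : kap V)) g = C (((17 : ℕ) : kap V) ^ k) * g) :
    evz g (aa 0) = evz g (aa 3) := by
  rw [seventeen hV hk, C_1, one_mul] at h
  have h1 : evz g (aa 0) = evz (lsub (fun i j => ((wM nB i j : ℤ) : kap V)) g) (aa 0) := by
    rw [h]
  rw [h1]
  have h2 : evz (lsub (fun i j => ((wM nB i j : ℤ) : kap V)) g) (aa 0) = evz g (-aa 3) := by
    unfold evz
    rw [eval_lsub]
    congr 2
    funext i
    have h3 : ∀ i, (∑ j, wM nB i j * aa 0 j) % 3 = ((-aa 3) i) % 3 := by decide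
    have h4 := cast_mod hV (h3 i)
    push_cast at h4
    exact h4
  rw [h2, evz_neg hg hk]

end

/-- the reduction of an ordinary eigenform is constant on the relevant vectors -/
theorem ord_const {V : ValuationSubring ℂ} (hV : Thr V) {k : ℕ} (hk : Even k) (hk0 : k ≠ 0)
    {gA gB : MvPolynomial (Fin 3) (kap V)} (hA : gA.IsHomogeneous k) (hB : gB.IsHomogeneous k)
    {l : kap V} (hl : l ≠ 0) (hne : ¬ (gA = 0 ∧ gB = 0)) (h1 : C l * gA = TbA V k gB)
    (h2 : C l * gB = TbB V k gA gB)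
    (h3 : lsub (fun i j => ((wM nB i j : ℤ) : kap V)) gB = C (((17 : ℕ) : kap V) ^ k) * gB) :
    ∃ c : kap V, c ≠ 0 ∧ ∀ w : Fin 3 → ℤ, (w 0 ^ 2 + w 1 ^ 2 + w 2 ^ 2) % 3 = 1 →
      evz gA w = c ∧ evz gB w = c := by
  have t0 := three_zero hV
  have eA : ∀ w, l * evz gA w = evz (TbA V k gB) w := by
    intro w; rw [← h1, evz_C_mul]
  have eB : ∀ w, l * evz gB w = evz (TbB V k gA gB) w := by
    intro w; rw [← h2, evz_C_mul]
  have s0 := sym_B hV hk hB h3
  have r1 := eA (aa 2)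
  have r2 := eB (aa 1)
  have r3 := eB (aa 2)
  have r4 := eB (aa 0)
  rw [TbA_val hk hB, pow_aa hV hk hk0, pow_aa hV hk hk0, pow_aa hV hk hk0, pow_aa hV hk hk0] at r1
  rw [TbB_val hk hA hB, pow_aa hV hk hk0, pow_aa hV hk hk0, pow_aa hV hk hk0,
    pow_aa hV hk hk0] at r2 r3 r4
  simp only [Fin.reduceEq, if_true, if_false, ↓reduceIte, mul_one, mul_zero, zero_add, add_zero]
    at r1 r2 r3 r4
  set g0 := evz gA (aa 2) with hg0
  set p := evz gB (aa 1) with hp
  set p' := evz gB (aa 2) with hp'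
  set s := evz gB (aa 0) with hs
  rw [← s0] at r2 r3
  have q1 : p = p' := by
    apply mul_left_cancel₀ hl
    rw [r2, r3]
  have q2 : g0 = 0 := by
    have : l * g0 = 0 := by
      rw [r1, q1]
      linear_combination p' * t0
    rcases mul_eq_zero.1 this with h | h
    · exact absurd h hl
    · exact h
  rw [q2] at r4 r2
  have q3 : l * s = s := by
    rw [r4]; ring
  have q4 : l * p = 2 * s := by
    rw [r2]; ring
  have hs0 : s ≠ 0 := by
    intro h
    rw [h, mul_zero] at q4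
    have hp0 : p = 0 := by
      rcases mul_eq_zero.1 q4 with h | h
      · exact absurd h hl
      · exact h
    have hp0' : p' = 0 := by rw [← q1, hp0]
    have hCl : (C l : MvPolynomial (Fin 3) (kap V)) ≠ 0 := by
      rw [Ne, C_eq_zero]; exact hl
    apply hne
    constructor
    · have : C l * gA = 0 := by
        rw [h1]
        unfold TbA
        apply Finset.sum_eq_zero
        intro i _
        have hz : evz gB (-(uA i)) = 0 := by
          rw [evz_neg hB hk]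
          have hc : ∀ i, uA i = aa 1 ∨ uA i = -aa 2 ∨ uA i = aa 2 := by decide
          rcases hc i with h | h | h
          · rw [h]; exact hp0
          · rw [h, evz_neg hB hk]; exact hp0'
          · rw [h]; exact hp0'
        rw [hz, C_0, zero_mul]
      exact (mul_eq_zero.1 this).resolve_left hCl
    · have : C l * gB = 0 := by
        rw [h2]
        unfold TbB
        apply Finset.sum_eq_zero
        intro i _
        have hz : evz (if bB i = nB then gB else gA) (-(uB i)) = 0 := by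
          have hc : ∀ i, (bB i = nB ∧ uB i = -aa 3) ∨ (bB i = nB ∧ uB i = -aa 0) ∨
            (¬ bB i = nB ∧ uB i = aa 2) ∨ (¬ bB i = nB ∧ uB i = -aa 2) := by decide
          rcases hc i with ⟨h', h''⟩ | ⟨h', h''⟩ | ⟨h', h''⟩ | ⟨h', h''⟩
          · rw [if_pos h', h'', neg_neg, ← s0]; exact h
          · rw [if_pos h', h'', neg_neg]; exact h
          · rw [if_neg h', h'', evz_neg hA hk]; exact q2
          · rw [if_neg h', h'', neg_neg]; exact q2
        rw [hz, C_0, zero_mul]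
      exact (mul_eq_zero.1 this).resolve_left hCl
  have hl1 : l = 1 := by
    apply mul_right_cancel₀ hs0
    rw [q3, one_mul]
  rw [hl1, one_mul] at q4
  refine ⟨p, ?_, ?_⟩
  · rw [q4]
    intro h
    apply hs0
    linear_combination s * t0 - h
  · intro w hw
    have a1 := eA w
    have a2 := eB w
    rw [TbA_val hk hB, pow_shell hV hk _ w hw, pow_shell hV hk _ w hw, pow_shell hV hk _ w hw,
      pow_shell hV hk _ w hw, hl1, one_mul] at a1
    rw [TbB_val hk hA hB, pow_shell hV hk _ w hw, pow_shell hV hk _ w hw, pow_shell hV hk _ w hw,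
      pow_shell hV hk _ w hw, hl1, one_mul, ← s0] at a2
    constructor
    · rw [a1, ← hp, ← hp', ← q1]
      linear_combination p * t0
    · rw [a2, ← hg0, q2, ← hs, q4]
      ring

theorem eval2_hom {R S : Type*} [CommRing R] [CommRing S] (φ : R →+* S)
    (f : MvPolynomial (Fin 3) R) (x : Fin 3 → R) :
    eval₂ φ (fun j => φ (x j)) f = φ (eval x f) := by
  have h : (fun j => φ (x j)) = φ ∘ x := rfl
  rw [← eval_map, h, ← map_eval φ x f]

theorem evz_map {V : ValuationSubring ℂ} (f : MvPolynomial (Fin 3) V) (w : Fin 3 → ℤ) :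
    evz (map (rs V) f) w = rs V (eval (fun j => ((w j : ℤ) : V)) f) := by
  unfold evz
  rw [eval_map, ← eval2_hom]
  congr 1

theorem ev_map {V : ValuationSubring ℂ} (f : MvPolynomial (Fin 3) V) (w : Fin 3 → ℤ) :
    ev (map V.subtype f) (pq w) = ((eval (fun j => ((w j : ℤ) : V)) f : V) : ℂ) := by
  rw [ev_eq, eval_map]
  show _ = V.subtype (eval (fun j => ((w j : ℤ) : V)) f)
  rw [← eval2_hom]
  congr 1
  funext j
  rw [vec_pq, map_intCast]
  push_cast
  rfl

theorem ev_smul (c : ℂ) (P : MvPolynomial (Fin 3) ℂ) (x : ℍ[ℚ]) : ev (c • P) x = c * ev P x := by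
  rw [ev_eq, ev_eq, smul_eval]

/-- an ordinary eigenform has constant reduction after scaling -/
theorem main_red {V : ValuationSubring ℂ} (hV : Thr V) {k : ℕ} (hk : Even k) (hk0 : k ≠ 0)
    {F : Fun3} (hF : Form0 17 k F) (hF0 : F ≠ 0) (hw : ww 17 F = F) {lam : ℂ}
    (he : TL 17 3 p3 F = lam • F) (hl : lam ≠ 0) (hu1 : (3 : ℂ) ^ k * lam ∈ V)
    (hu2 : ((3 : ℂ) ^ k * lam)⁻¹ ∈ V) :
    ∃ c : ℂ, c ≠ 0 ∧ ∃ r : kap V, r ≠ 0 ∧ ∀ w : Fin 3 → ℤ, (w 0 ^ 2 + w 1 ^ 2 + w 2 ^ 2) % 3 = 1 →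
      ∀ n, n = nA ∨ n = nB → ∃ v : V, c * ev (F Oo (lm (pq n) Oo)) (pq w) = (v : ℂ) ∧
        rs V v = r := by
  obtain ⟨c, hc, gA, gB, hR, hne⟩ := exists_scale (V := V) hF hF0
  have hF' : Form0 17 k (c • F) := (W0 17 k).smul_mem c hF
  have hhom := hR.hom hF'
  have hT := hR.T3 hV hF'
  have e1 : (3 : ℂ) ^ k • TL 17 3 p3 (c • F) = (((⟨_, hu1⟩ : V) : V) : ℂ) • (c • F) := by
    rw [map_smul, he, smul_smul, smul_smul, smul_smul]
    congr 1
    ring
  rw [e1] at hT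
  have hS := hR.smul (⟨_, hu1⟩ : V)
  obtain ⟨u1, u2⟩ := hS.unique hT
  have hW := hR.ww hF'
  have e2 : (17 : ℂ) ^ k • ww 17 (c • F) = (((((17 : ℕ) : V) ^ k : V)) : ℂ) • (c • F) := by
    rw [map_smul, hw]
    congr 1
  rw [e2] at hW
  have hS2 := hR.smul (((17 : ℕ) : V) ^ k : V)
  obtain ⟨_, u3⟩ := hW.unique hS2
  have hrs : rs V (((17 : ℕ) : V) ^ k : V) = ((17 : ℕ) : kap V) ^ k := by
    rw [map_pow, map_natCast]
  rw [hrs] at u3
  have hl0 : rs V (⟨_, hu1⟩ : V) ≠ 0 := by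
    rw [Ne, rs_eq_zero, not_not]
    have hne' : (3 : ℂ) ^ k * lam ≠ 0 := mul_ne_zero (pow_ne_zero _ (by norm_num)) hl
    refine IsUnit.of_mul_eq_one (⟨_, hu2⟩ : V) ?_
    apply Subtype.ext
    exact mul_inv_cancel₀ hne'
  obtain ⟨r, hr, hall⟩ := ord_const hV hk hk0 hhom.1 hhom.2 hl0 hne u1 u2 u3
  refine ⟨c, hc, r, hr, ?_⟩
  obtain ⟨fA, fB, m1, m2, rfl, rfl⟩ := hR
  intro w hw n hn
  obtain ⟨v1, v2⟩ := hall w hw
  rw [evz_map] at v1 v2
  rcases hn with rfl | rfl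
  · refine ⟨_, ?_, v1⟩
    rw [← ev_map, m1]
    exact (ev_smul c _ _).symm
  · refine ⟨_, ?_, v2⟩
    rw [← ev_map, m2]
    exact (ev_smul c _ _).symm

end Pool.Agent.Helper725_HQ
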