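import Pool.Agent.Helper725_HQ.Idl
import Pool.Agent.Helper725_DH.Imq
import Pool.Agent.H141R2.FS.Three
import Pool.Agent.H565R2.NS.Tsq
import Pool.Agent.H591R2.ThreeSq

/-! Embeddings of imaginary quadratic fields. -/

set_option autoImplicit false
set_option linter.unusedSimpArgs false
set_option linter.unnecessarySeqFocus false

namespace Pool.Agent.Helper725_HQ

open Quaternion MvPolynomial NumberField

theorem three_sq {d : ℕ} (h : d % 8 = 3 ∨ d % 4 = 1 ∨ d % 4 = 2) :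
    ∃ w : Fin 3 → ℤ, w 0 ^ 2 + w 1 ^ 2 + w 2 ^ 2 = (d : ℤ) := by
  have : ∃ x y z : ℤ, x ^ 2 + y ^ 2 + z ^ 2 = (d : ℤ) := by
    rcases h with h | h | h
    · exact Pool.Agent.H591R2.three_squares h
    · exact Pool.Agent.H141R2.FS.three_squares_one h
    · exact Pool.Agent.H565R2.NS.three_squares_two h
  obtain ⟨x, y, z, h⟩ := this
  exact ⟨![x, y, z], h⟩

theorem sq8 (x : ℤ) : (x % 2 = 1 ∧ x ^ 2 % 8 = 1) ∨ (x % 2 = 0 ∧ (x ^ 2 % 8 = 0 ∨ x ^ 2 % 8 = 4)) := by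
  have h : x % 8 = 0 ∨ x % 8 = 1 ∨ x % 8 = 2 ∨ x % 8 = 3 ∨ x % 8 = 4 ∨ x % 8 = 5 ∨ x % 8 = 6 ∨
    x % 8 = 7 := by omega
  rcases h with h | h | h | h | h | h | h | h
  all_goals
    have h2 : x ^ 2 % 8 = (x % 8) * (x % 8) % 8 := by rw [pow_two, Int.mul_emod]
    rw [h] at h2
    omega

theorem half_mem {w : Fin 3 → ℤ} (h : (w 0 ^ 2 + w 1 ^ 2 + w 2 ^ 2) % 8 = 3) :
    (1 / 2 : ℚ) • (1 + pq w) ∈ Hur := by
  have h0 := sq8 (w 0)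
  have h1 := sq8 (w 1)
  have h2 := sq8 (w 2)
  obtain ⟨a, ha⟩ : ∃ a, w 0 = 2 * a + 1 := ⟨w 0 / 2, by omega⟩
  obtain ⟨b, hb⟩ : ∃ b, w 1 = 2 * b + 1 := ⟨w 1 / 2, by omega⟩
  obtain ⟨c, hc⟩ : ∃ c, w 2 = 2 * c + 1 := ⟨w 2 / 2, by omega⟩
  refine ⟨1, a, b, c, ?_, ?_, ?_, ?_⟩
  · simp [pq]
  · simp [pq, ha]; ring
  · simp [pq, hb]; ring
  · simp [pq, hc]; ring

section
variable {K : Type} [Field K] [NumberField K]

theorem exists_iota {d : ℕ} (hd : 0 < d) (h2 : Module.finrank ℚ K = 2) {x : K}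
    (hx : x ^ 2 = -(d : K)) {w : Fin 3 → ℤ} (hw : w 0 ^ 2 + w 1 ^ 2 + w 2 ^ 2 = (d : ℤ)) :
    ∃ ι : K →+* ℍ[ℚ], ι x = pq w := by
  obtain ⟨b, h0, h1⟩ := Pool.Agent.Helper725_DH.IQ.exists_basis hd h2 x hx
  set f : K →ₗ[ℚ] ℍ[ℚ] := b.constr ℚ ![1, pq w] with hf
  have f0 : f 1 = 1 := by
    have := b.constr_basis ℚ (![1, pq w] : Fin 2 → ℍ[ℚ]) 0
    rw [h0] at this
    exact this
  have f1 : f x = pq w := by
    have := b.constr_basis ℚ (![1, pq w] : Fin 2 → ℍ[ℚ]) 1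
    rw [h1] at this
    exact this
  have hpq : pq w * pq w = -((d : ℕ) : ℍ[ℚ]) := by
    have := pq_sq w hw 1
    rwa [mul_one, mul_one] at this
  have key : (LinearMap.mul ℚ K).compr₂ f = (LinearMap.mul ℚ ℍ[ℚ]).compl₁₂ f f := by
    apply LinearMap.ext_basis b b
    intro i j
    simp only [LinearMap.compr₂_apply, LinearMap.compl₁₂_apply, LinearMap.mul_apply']
    fin_cases i <;> fin_cases j
    · show f (b 0 * b 0) = f (b 0) * f (b 0)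
      rw [h0, mul_one, f0, mul_one]
    · show f (b 0 * b 1) = f (b 0) * f (b 1)
      rw [h0, h1, one_mul, f0, one_mul]
    · show f (b 1 * b 0) = f (b 1) * f (b 0)
      rw [h0, h1, mul_one, f0, mul_one]
    · show f (b 1 * b 1) = f (b 1) * f (b 1)
      rw [h1, f1, hpq, ← pow_two, hx]
      have : (-(d : K)) = (-(d : ℚ)) • (1 : K) := by
        rw [neg_smul, Rat.smul_def, mul_one]; simp
      rw [this, map_smul, f0, neg_smul, Rat.smul_def, mul_one]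
      simp
  refine ⟨(AlgHom.ofLinearMap f f0 ?_).toRingHom, f1⟩
  intro y z
  exact congrArg (fun g : K →ₗ[ℚ] K →ₗ[ℚ] ℍ[ℚ] => g y z) key

theorem stab_Oo {d : ℕ} (hd : Squarefree d) (h8 : d % 8 = 3 ∨ d % 4 = 1 ∨ d % 4 = 2)
    (h2 : Module.finrank ℚ K = 2) {x : K} (hx : x ^ 2 = -(d : K)) {w : Fin 3 → ℤ}
    (hw : w 0 ^ 2 + w 1 ^ 2 + w 2 ^ 2 = (d : ℤ)) {ι : K →+* ℍ[ℚ]} (hι : ι x = pq w) :
    Stab ι Oo := by
  have key : ∀ a : 𝓞 K, ι (a : K) ∈ Hur := by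
    intro a
    by_cases h3 : d % 4 = 3
    · obtain ⟨m, n, h⟩ := (Pool.Agent.Helper725_DH.IQ.imq1 h3 hd h2 hx).2 a
      have hh : (w 0 ^ 2 + w 1 ^ 2 + w 2 ^ 2) % 8 = 3 := by rw [hw]; omega
      have h4 : ι ((1 + x) / 2) = (1 / 2 : ℚ) • (1 + pq w) := by
        have e : (1 + x) / 2 = ((1 / 2 : ℚ) : K) * (1 + x) := by push_cast; ring
        rw [e, map_mul, map_ratCast, map_add, map_one, hι, Rat.smul_def]
      rw [h, map_add, map_mul, map_intCast, map_intCast, h4]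
      exact Hur.add_mem (intCast_mem_Hur m) (Hur.mul_mem (intCast_mem_Hur n) (half_mem hh))
    · obtain ⟨m, n, h⟩ := (Pool.Agent.Helper725_DH.IQ.imq2 (by omega) hd h2 hx).2 a
      rw [h, map_add, map_mul, map_intCast, map_intCast, hι]
      exact Hur.add_mem (intCast_mem_Hur m) (Hur.mul_mem (intCast_mem_Hur n) (pq_mem w))
  intro a y hy
  exact Hur.mul_mem (key a) hy

end

/-- the second member of the pair -/
def Iq (q : ℕ) (w : Fin 3 → ℤ) (r : ℤ) : AddSubgroup ℍ[ℚ] :=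
  Oo ⊓ (lm (q : ℍ[ℚ]) Oo).comap (AddMonoidHom.mulLeft (pq w - (r : ℍ[ℚ])))

theorem mem_Iq {q : ℕ} {w : Fin 3 → ℤ} {r : ℤ} {y : ℍ[ℚ]} :
    y ∈ Iq q w r ↔ y ∈ Hur ∧ (pq w - (r : ℍ[ℚ])) * y ∈ lm (q : ℍ[ℚ]) Oo := Iff.rfl

theorem not_mem_lm {q : ℕ} (hq : q.Prime) (hq2 : q ≠ 2) {w : Fin 3 → ℤ} {r d : ℤ}
    (hw : w 0 ^ 2 + w 1 ^ 2 + w 2 ^ 2 = d) (hd : ¬ (q : ℤ) ^ 2 ∣ d) :
    pq w + (r : ℍ[ℚ]) ∉ lm (q : ℍ[ℚ]) Oo := by
  intro h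
  obtain ⟨y, hy, e⟩ := mem_lm.1 h
  obtain ⟨A, B, C, D, g1, g2, g3, g4⟩ := doubled hy
  have e' : (q : ℍ[ℚ]) * y = (q : ℚ) • y := by
    rw [← ratmul]; norm_cast
  rw [e'] at e
  have b1 := congrArg QuaternionAlgebra.imI e
  have b2 := congrArg QuaternionAlgebra.imJ e
  have b3 := congrArg QuaternionAlgebra.imK e
  simp [pq, g2, g3, g4] at b1 b2 b3
  have hqz : Prime (q : ℤ) := Nat.prime_iff_prime_int.1 hq
  have h2 : ¬ (q : ℤ) ∣ 2 := by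
    intro h
    exact hq2 ((Nat.prime_dvd_prime_iff_eq hq Nat.prime_two).1 (by exact_mod_cast h))
  have key : ∀ X Y : ℤ, (q : ℚ) * ((X : ℚ) / 2) = Y → (q : ℤ) ∣ Y := by
    intro X Y h
    have h3 : (q : ℤ) * X = 2 * Y := by
      have : (q : ℚ) * X = 2 * Y := by linear_combination 2 * h
      exact_mod_cast this
    have h4 : (q : ℤ) ∣ 2 * Y := ⟨X, h3.symm⟩
    exact (hqz.dvd_or_dvd h4).resolve_left h2
  obtain ⟨x1, k1⟩ := key B _ b1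
  obtain ⟨x2, k2⟩ := key C _ b2
  obtain ⟨x3, k3⟩ := key D _ b3
  apply hd
  exact ⟨x1 ^ 2 + x2 ^ 2 + x3 ^ 2, by rw [← hw, k1, k2, k3]; ring⟩

theorem Iq_pair {q : ℕ} (hq : q.Prime) (hq2 : q ≠ 2) {w : Fin 3 → ℤ} {r : ℤ} {d : ℕ}
    (hw : w 0 ^ 2 + w 1 ^ 2 + w 2 ^ 2 = (d : ℤ)) (hd : ¬ (q : ℤ) ^ 2 ∣ (d : ℤ))
    (hr : (q : ℤ) ∣ r ^ 2 + d) : IsPair q Oo (Iq q w r) := by
  have hle : lm (q : ℍ[ℚ]) Oo ≤ Iq q w r := by
    intro x hx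
    obtain ⟨y, hy, rfl⟩ := mem_lm.1 hx
    refine mem_Iq.2 ⟨Hur.mul_mem (natCast_mem_Hur q) hy, ?_⟩
    rw [← mul_assoc, ← natCast_comm, mul_assoc]
    exact mul_mem_lm (Hur.mul_mem (Hur.sub_mem (pq_mem w) (intCast_mem_Hur r)) hy)
  refine ⟨Oo_isRI, ⟨?_, ?_, 1, one_pos, ?_⟩, lt_of_le_not_ge hle ?_, lt_of_le_not_ge inf_le_left ?_⟩
  · exact ⟨(q : ℍ[ℚ]) * 1, hle (mul_mem_lm Hur.one_mem), by
      rw [mul_one]; exact natH_ne hq.ne_zero⟩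
  · intro x hx h hh
    obtain ⟨h1, h2⟩ := mem_Iq.1 hx
    refine mem_Iq.2 ⟨Hur.mul_mem h1 hh, ?_⟩
    obtain ⟨y, hy, e⟩ := mem_lm.1 h2
    rw [← mul_assoc, ← e, mul_assoc]
    exact mul_mem_lm (Hur.mul_mem hy hh)
  · intro x hx
    rw [Nat.cast_one, one_mul]
    exact (mem_Iq.1 hx).1
  · intro h
    apply not_mem_lm hq hq2 (r := r) hw hd
    apply h
    refine mem_Iq.2 ⟨Hur.add_mem (pq_mem w) (intCast_mem_Hur r), ?_⟩
    obtain ⟨t, ht⟩ := hr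
    refine mem_lm.2 ⟨-(t : ℍ[ℚ]), Hur.neg_mem (intCast_mem_Hur t), ?_⟩
    have hpq : pq w * pq w = -((d : ℕ) : ℍ[ℚ]) := by
      have := pq_sq w hw 1
      rwa [mul_one, mul_one] at this
    have hc : pq w * (r : ℍ[ℚ]) = (r : ℍ[ℚ]) * pq w := ((Int.cast_commute r (pq w)).eq).symm
    rw [sub_mul, mul_add, mul_add, hpq, hc]
    have ht' : ((r : ℍ[ℚ]) * r + (d : ℍ[ℚ])) = (q : ℍ[ℚ]) * t := by
      have : ((r ^ 2 + d : ℤ) : ℍ[ℚ]) = ((q * t : ℤ) : ℍ[ℚ]) := by rw [ht]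
      push_cast at this
      rw [← this, pow_two]
    rw [mul_neg, ← ht']
    abel
  · intro h
    have h1 := (mem_Iq.1 (h (Hur.one_mem : (1 : ℍ[ℚ]) ∈ Oo))).2
    rw [mul_one] at h1
    apply not_mem_lm hq hq2 (r := -r) hw hd
    have : pq w + ((-r : ℤ) : ℍ[ℚ]) = pq w - (r : ℍ[ℚ]) := by push_cast; rw [sub_eq_add_neg]
    rw [this]
    exact h1

theorem stab_Iq {K : Type} [Field K] [NumberField K] {q : ℕ} {w : Fin 3 → ℤ} {r : ℤ} {x : K}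
    {ι : K →+* ℍ[ℚ]} (hι : ι x = pq w) (hs : Stab ι Oo) : Stab ι (Iq q w r) := by
  intro a y hy
  obtain ⟨h1, h2⟩ := mem_Iq.1 hy
  refine mem_Iq.2 ⟨hs a y h1, ?_⟩
  obtain ⟨z, hz, e⟩ := mem_lm.1 h2
  have h3 : (pq w - (r : ℍ[ℚ])) * ι (a : K) = ι (a : K) * (pq w - (r : ℍ[ℚ])) := by
    rw [← hι]
    have : ι x - (r : ℍ[ℚ]) = ι (x - r) := by rw [map_sub, map_intCast]
    rw [this, ← map_mul, ← map_mul, mul_comm]
  rw [← mul_assoc, h3, mul_assoc, ← e, ← mul_assoc, ← natCast_comm, mul_assoc]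
  exact mul_mem_lm (hs a z hz)

end Pool.Agent.Helper725_HQ
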