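import Pool.Agent.Helper725_HQ.Nb

/-! The Hurwitz order is right Euclidean. -/

set_option autoImplicit false
set_option linter.unusedSimpArgs false
set_option linter.unnecessarySeqFocus false

namespace Pool.Agent.Helper725_HQ

open Quaternion

/-- the Hurwitz order as an additive group -/
def Oo : AddSubgroup ℍ[ℚ] := Hur.toAddSubgroup

theorem mem_Oo {x : ℍ[ℚ]} : x ∈ Oo ↔ x ∈ Hur := Iff.rfl

theorem star_mem {x : ℍ[ℚ]} (hx : x ∈ Hur) : star x ∈ Hur := by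
  obtain ⟨a, b, c, d, h1, h2, h3, h4⟩ := hx
  refine ⟨a, -a - b, -a - c, -a - d, ?_, ?_, ?_, ?_⟩
  · rw [re_star, h1]
  · rw [imI_star, h2]; push_cast; ring
  · rw [imJ_star, h3]; push_cast; ring
  · rw [imK_star, h4]; push_cast; ring

theorem normSq_nat {x : ℍ[ℚ]} (hx : x ∈ Hur) : ∃ n : ℕ, normSq x = n := by
  obtain ⟨a, b, c, d, h1, h2, h3, h4⟩ := hx
  have h : normSq x = ((a ^ 2 + a * b + a * c + a * d + b ^ 2 + c ^ 2 + d ^ 2 : ℤ) : ℚ) := by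
    rw [normSq_def', h1, h2, h3, h4]; push_cast; ring
  have h0 : 0 ≤ a ^ 2 + a * b + a * c + a * d + b ^ 2 + c ^ 2 + d ^ 2 := by
    have := normSq_nonneg (a := x)
    rw [h] at this
    exact_mod_cast this
  obtain ⟨n, hn⟩ := Int.eq_ofNat_of_zero_le h0
  refine ⟨n, ?_⟩
  rw [h, hn]
  simp

theorem int_mem (a b c d : ℤ) : mk4 a b c d ∈ Hur :=
  ⟨2 * a, b - a, c - a, d - a, by simp, by simp, by simp, by simp⟩

theorem pure_int {x : ℍ[ℚ]} (hx : x ∈ Hur) (h : x.re = 0) : ∃ a b c : ℤ, x = mk4 0 a b c := by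
  obtain ⟨a, b, c, d, h1, h2, h3, h4⟩ := hx
  rw [h] at h1
  have ha : (a : ℚ) / 2 = 0 := h1.symm
  rw [ha, zero_add] at h2 h3 h4
  exact ⟨b, c, d, ext4 h h2 h3 h4⟩

theorem half_of {x : ℚ} (h : ¬ (x - round x) ^ 2 < 1 / 4) : ∃ n : ℤ, x = n - 1 / 2 := by
  have h1 := abs_sub_round x
  rw [not_lt] at h
  have h2 : |x - round x| = 1 / 2 := by
    apply le_antisymm h1
    by_contra h3
    rw [not_le] at h3
    have : (x - round x) ^ 2 < (1 / 2) ^ 2 := by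
      rw [← sq_abs]
      gcongr
    norm_num at this h
    linarith
  rcases abs_eq (by norm_num : (0 : ℚ) ≤ 1 / 2) |>.1 h2 with h3 | h3
  · exact ⟨round x + 1, by push_cast; linarith⟩
  · exact ⟨round x, by linarith⟩

theorem euclid (x : ℍ[ℚ]) : ∃ h ∈ Hur, normSq (x - h) < 1 := by
  have b : ∀ y : ℚ, (y - round y) ^ 2 ≤ 1 / 4 := by
    intro y
    have h1 := abs_sub_round y
    have : (y - round y) ^ 2 ≤ (1 / 2) ^ 2 := by
      rw [← sq_abs]
      gcongr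
    norm_num at this ⊢
    exact this
  by_cases hlt : (x.re - round x.re) ^ 2 < 1 / 4 ∨ (x.imI - round x.imI) ^ 2 < 1 / 4 ∨
      (x.imJ - round x.imJ) ^ 2 < 1 / 4 ∨ (x.imK - round x.imK) ^ 2 < 1 / 4
  · refine ⟨mk4 (round x.re) (round x.imI) (round x.imJ) (round x.imK), int_mem _ _ _ _, ?_⟩
    rw [normSq_def', re_sub, imI_sub, imJ_sub, imK_sub, mk4_re, mk4_imI, mk4_imJ, mk4_imK]
    have b1 := b x.re
    have b2 := b x.imI
    have b3 := b x.imJ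
    have b4 := b x.imK
    rcases hlt with h | h | h | h <;> linarith
  · rw [not_or, not_or, not_or] at hlt
    obtain ⟨n1, h1⟩ := half_of hlt.1
    obtain ⟨n2, h2⟩ := half_of hlt.2.1
    obtain ⟨n3, h3⟩ := half_of hlt.2.2.1
    obtain ⟨n4, h4⟩ := half_of hlt.2.2.2
    refine ⟨x, ⟨2 * n1 - 1, n2 - n1, n3 - n1, n4 - n1, ?_, ?_, ?_, ?_⟩, ?_⟩
    · rw [h1]; push_cast; ring
    · rw [h2]; push_cast; ring
    · rw [h3]; push_cast; ring
    · rw [h4]; push_cast; ring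
    · rw [sub_self, map_zero]; norm_num

theorem principal {I : AddSubgroup ℍ[ℚ]} (hI : IsRI I) : ∃ α : ℍ[ℚ], α ≠ 0 ∧ I = lm α Oo := by
  classical
  obtain ⟨n, hn, hnI⟩ := hI.den
  obtain ⟨x, hx, hx0⟩ := hI.ne_zero
  have hex : ∃ m : ℕ, ∃ x ∈ I, x ≠ 0 ∧ normSq ((n : ℍ[ℚ]) * x) = m := by
    obtain ⟨m, hm⟩ := normSq_nat (hnI x hx)
    exact ⟨m, x, hx, hx0, hm⟩
  obtain ⟨α, hα, hα0, hm⟩ := Nat.find_spec hex
  have hmin : ∀ y ∈ I, y ≠ 0 → (Nat.find hex : ℚ) ≤ normSq ((n : ℍ[ℚ]) * y) := by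
    intro y hy hy0
    obtain ⟨m, hm'⟩ := normSq_nat (hnI y hy)
    rw [hm']
    exact_mod_cast Nat.find_min' hex ⟨y, hy, hy0, hm'⟩
  refine ⟨α, hα0, le_antisymm ?_ ?_⟩
  · intro y hy
    obtain ⟨h, hh, hlt⟩ := euclid (α⁻¹ * y)
    by_cases hz : y - α * h = 0
    · rw [sub_eq_zero] at hz
      rw [hz]
      exact mul_mem_lm hh
    · exfalso
      have h1 := hmin (y - α * h) (I.sub_mem hy (hI.mul_mem α hα h hh)) hz
      have h2 : y - α * h = α * (α⁻¹ * y - h) := by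
        rw [mul_sub, ← mul_assoc, mul_inv_cancel₀ hα0, one_mul]
      rw [h2, ← mul_assoc, map_mul, hm] at h1
      have h3 : (0 : ℚ) < Nat.find hex := by
        rw [← hm, map_mul]
        have k1 : 0 < normSq α := lt_of_le_of_ne normSq_nonneg (Ne.symm (normSq_ne_zero.2 hα0))
        have k2 : 0 < normSq (n : ℍ[ℚ]) := by
          rw [normSq_natCast]; positivity
        positivity
      nlinarith
  · intro y hy
    obtain ⟨h, hh, rfl⟩ := mem_lm.1 hy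
    exact hI.mul_mem α hα h hh

theorem Oo_isRI : IsRI Oo := by
  refine ⟨⟨1, Hur.one_mem, one_ne_zero⟩, fun x hx h hh => Hur.mul_mem hx hh, 1, one_pos, ?_⟩
  intro x hx
  have h1 : ((1 : ℕ) : ℍ[ℚ]) * x = x := by simp
  rw [h1]
  exact hx

theorem mem_of_unit {u : ℍ[ℚ]} (hu : u ∈ Hur) (h : normSq u = 1) : lm u Oo = Oo := by
  have h1 : u * star u = 1 := by rw [self_mul_star, h, coe_one]
  apply le_antisymm
  · intro x hx
    obtain ⟨y, hy, rfl⟩ := mem_lm.1 hx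
    exact Hur.mul_mem hu hy
  · intro x hx
    rw [mem_lm]
    exact ⟨star u * x, Hur.mul_mem (star_mem hu) hx, by rw [← mul_assoc, h1, one_mul]⟩

theorem unit_of_eq {α β : ℍ[ℚ]} (hα : α ≠ 0) (h : lm α Oo = lm β Oo) :
    ∃ u ∈ Hur, normSq u = 1 ∧ β = α * u := by
  have h1 : β ∈ lm α Oo := by
    rw [h]
    exact mem_lm.2 ⟨1, Hur.one_mem, by rw [mul_one]⟩
  have h2 : α ∈ lm β Oo := by
    rw [← h]
    exact mem_lm.2 ⟨1, Hur.one_mem, by rw [mul_one]⟩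
  obtain ⟨u, hu, rfl⟩ := mem_lm.1 h1
  obtain ⟨v, hv, huv⟩ := mem_lm.1 h2
  refine ⟨u, hu, ?_, rfl⟩
  have h3 : u * v = 1 := by
    apply mul_left_cancel₀ hα
    rw [← mul_assoc, huv, mul_one]
  obtain ⟨n, hn⟩ := normSq_nat (mem_Oo.1 hu)
  obtain ⟨m, hm⟩ := normSq_nat (mem_Oo.1 hv)
  have h4 : normSq u * normSq v = 1 := by rw [← map_mul, h3, map_one]
  rw [hn, hm] at h4
  have h5 : n * m = 1 := by exact_mod_cast h4
  rw [hn, Nat.eq_one_of_mul_eq_one_right h5]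
  simp

/-- the neighbours of the order -/
theorem mem_Sp_Oo {p : ℕ} (hp : p.Prime) {J : AddSubgroup ℍ[ℚ]} :
    J ∈ Sp p Oo ↔ ∃ β ∈ Hur, normSq β = p ∧ J = lm β Oo := by
  constructor
  · rintro ⟨h1, h2, h3⟩
    obtain ⟨β, hβ, rfl⟩ := principal h1
    have hβ1 : β ∈ Hur := h3.le (mem_lm.2 ⟨1, Hur.one_mem, by rw [mul_one]⟩)
    refine ⟨β, hβ1, ?_, rfl⟩
    have hpm : (p : ℍ[ℚ]) ∈ lm β Oo := h2.le (mem_lm.2 ⟨1, Hur.one_mem, by rw [mul_one]⟩)
    obtain ⟨γ, hγ, hβγ⟩ := mem_lm.1 hpm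
    obtain ⟨n, hn⟩ := normSq_nat hβ1
    obtain ⟨m, hm⟩ := normSq_nat (mem_Oo.1 hγ)
    have h4 : normSq β * normSq γ = (p : ℚ) ^ 2 := by
      rw [← map_mul, hβγ, normSq_natCast]
    rw [hn, hm] at h4
    have h5 : n * m = p ^ 2 := by exact_mod_cast h4
    have h6 : n ∣ p ^ 2 := Dvd.intro _ h5
    rw [Nat.dvd_prime_pow hp] at h6
    obtain ⟨k, hk, rfl⟩ := h6
    interval_cases k
    · exfalso
      apply h3.ne
      apply mem_of_unit hβ1
      rw [hn]; simp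
    · rw [hn, pow_one]
    · exfalso
      have h7 : m = 1 := by
        have : 0 < p ^ 2 := by have := hp.pos; positivity
        exact Nat.eq_of_mul_eq_mul_left this (by rw [h5, mul_one])
      have h8 : normSq γ = 1 := by rw [hm, h7]; simp
      apply h2.ne
      rw [← hβγ, ← lm_lm, mem_of_unit hγ h8]
  · rintro ⟨β, hβ, hn, rfl⟩
    have hp0 : (p : ℚ) ≠ 0 := by exact_mod_cast hp.ne_zero
    have hβ0 : β ≠ 0 := by
      rw [← normSq_ne_zero, hn]; exact hp0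
    refine ⟨isRI_lm Oo_isRI hβ0, lt_of_le_not_ge ?_ ?_, lt_of_le_not_ge ?_ ?_⟩
    · intro x hx
      obtain ⟨y, hy, rfl⟩ := mem_lm.1 hx
      refine mem_lm.2 ⟨star β * y, Hur.mul_mem (star_mem hβ) hy, ?_⟩
      rw [← mul_assoc, self_mul_star, hn]
      rfl
    · intro hle
      obtain ⟨y, hy, hyβ⟩ := mem_lm.1 (hle (mem_lm.2 ⟨1, Hur.one_mem, by rw [mul_one]⟩ : β ∈ lm β Oo))
      obtain ⟨m, hm⟩ := normSq_nat (mem_Oo.1 hy)
      have h1 : (p : ℚ) ^ 2 * m = p := by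
        have h9 : normSq ((p : ℍ[ℚ]) * y) = p := by rw [hyβ, hn]
        rwa [map_mul, normSq_natCast, hm] at h9
      have h2 : p * (p * m) = p * 1 := by
        have : p ^ 2 * m = p := by exact_mod_cast h1
        rw [mul_one, ← mul_assoc, ← pow_two]; exact this
      have h3 := Nat.eq_of_mul_eq_mul_left hp.pos h2
      have h4 := Nat.eq_one_of_mul_eq_one_right h3
      exact hp.one_lt.ne' h4
    · intro x hx
      obtain ⟨y, hy, rfl⟩ := mem_lm.1 hx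
      exact Hur.mul_mem hβ hy
    · intro hle
      obtain ⟨y, hy, hyβ⟩ := mem_lm.1 (hle Hur.one_mem)
      obtain ⟨m, hm⟩ := normSq_nat (mem_Oo.1 hy)
      have h1 : (p : ℚ) * m = 1 := by
        rw [← hn, ← hm, ← map_mul, hyβ, map_one]
      have h2 : p * m = 1 := by exact_mod_cast h1
      exact hp.one_lt.ne' (Nat.eq_one_of_mul_eq_one_right h2)

theorem finite_norm (p : ℕ) : {x : ℍ[ℚ] | x ∈ Hur ∧ normSq x = p}.Finite := by
  have h : {x : ℍ[ℚ] | x ∈ Hur ∧ normSq x = p} ⊆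
      (fun v : ℤ × ℤ × ℤ × ℤ => mk4 (v.1 / 2) (v.2.1 / 2) (v.2.2.1 / 2) (v.2.2.2 / 2)) ''
      (Set.Icc (-(2 * p : ℤ)) (2 * p) ×ˢ (Set.Icc (-(2 * p : ℤ)) (2 * p) ×ˢ
        (Set.Icc (-(2 * p : ℤ)) (2 * p) ×ˢ Set.Icc (-(2 * p : ℤ)) (2 * p)))) := by
    rintro x ⟨⟨a, b, c, d, h1, h2, h3, h4⟩, hn⟩
    refine ⟨(a, a + 2 * b, a + 2 * c, a + 2 * d), ?_, ?_⟩
    · rw [normSq_def', h1, h2, h3, h4] at hn
      have hn' : (a : ℚ) ^ 2 + (a + 2 * b) ^ 2 + (a + 2 * c) ^ 2 + (a + 2 * d) ^ 2 = 4 * p := by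
        linear_combination 4 * hn
      have hn2 : a ^ 2 + (a + 2 * b) ^ 2 + (a + 2 * c) ^ 2 + (a + 2 * d) ^ 2 = 4 * (p : ℤ) := by
        exact_mod_cast hn'
      have key : ∀ z : ℤ, z ^ 2 ≤ 4 * p → z ∈ Set.Icc (-(2 * p : ℤ)) (2 * p) := by
        intro z hz
        have hp0 : (0 : ℤ) ≤ p := by positivity
        constructor
        · by_contra hc
          rw [not_le] at hc
          have : (2 * (p : ℤ) + 1) ^ 2 ≤ z ^ 2 := by nlinarith
          nlinarith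
        · by_contra hc
          rw [not_le] at hc
          have : (2 * (p : ℤ) + 1) ^ 2 ≤ z ^ 2 := by nlinarith
          nlinarith
      have s1 := sq_nonneg a
      have s2 := sq_nonneg (a + 2 * b)
      have s3 := sq_nonneg (a + 2 * c)
      have s4 := sq_nonneg (a + 2 * d)
      exact ⟨key _ (by linarith), key _ (by linarith), key _ (by linarith), key _ (by linarith)⟩
    · apply ext4
      · rw [mk4_re, h1]
      · rw [mk4_imI, h2]; push_cast; ring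
      · rw [mk4_imJ, h3]; push_cast; ring
      · rw [mk4_imK, h4]; push_cast; ring
  refine Set.Finite.subset (Set.Finite.image _ ?_) h
  exact (Set.finite_Icc _ _).prod ((Set.finite_Icc _ _).prod
    ((Set.finite_Icc _ _).prod (Set.finite_Icc _ _)))

theorem Sp_finite {p : ℕ} (hp : p.Prime) {I : AddSubgroup ℍ[ℚ]} (hI : IsRI I) :
    (Sp p I).Finite := by
  obtain ⟨α, hα, rfl⟩ := principal hI
  rw [Sp_lm hα]
  apply Set.Finite.image
  refine Set.Finite.subset ((finite_norm p).image (fun β => lm β Oo)) ?_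
  intro J hJ
  obtain ⟨β, hβ, hn, rfl⟩ := (mem_Sp_Oo hp).1 hJ
  exact ⟨β, ⟨hβ, hn⟩, rfl⟩

theorem isPair_iff {q : ℕ} {I I' : AddSubgroup ℍ[ℚ]} : IsPair q I I' ↔ IsRI I ∧ I' ∈ Sp q I :=
  ⟨fun h => ⟨h.fst, h.snd, h.lt₁, h.lt₂⟩, fun h => ⟨h.1, h.2.1, h.2.2.1, h.2.2.2⟩⟩

end Pool.Agent.Helper725_HQ
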