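import Pool.Agent.Helper725_HQ.FRel

/-! Constancy of the reductions in level five. -/

set_option autoImplicit false
set_option linter.unusedVariables false
set_option linter.unusedSimpArgs false

namespace Pool.Agent.Helper725_HQ.E5

open Quaternion MvPolynomial

theorem actc_cyi (c : Fin 4 → ℤ) (x : Fin 3 → ℤ) : actc c (cyi 1 x) = cyi 1 (actc (cq c) x) := by
  funext i
  fin_cases i
  · show actc c ![x 1, x 2, x 0] 0 = actc ![c 0, c 3, c 1, c 2] x 1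
    unfold actc
    rw [Fin.sum_univ_three, Fin.sum_univ_three]
    simp [rotZ]; ring
  · show actc c ![x 1, x 2, x 0] 1 = actc ![c 0, c 3, c 1, c 2] x 2
    unfold actc
    rw [Fin.sum_univ_three, Fin.sum_univ_three]
    simp [rotZ]; ring
  · show actc c ![x 1, x 2, x 0] 2 = actc ![c 0, c 3, c 1, c 2] x 0
    unfold actc
    rw [Fin.sum_univ_three, Fin.sum_univ_three]
    simp [rotZ]; ring

section
variable {κ : Type} [Field κ] {N : ℕ} {h : (Fin 3 → ℤ) → κ} {l7 l11 l13 : κ}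

/-- the evaluation property -/
structure EE (h : (Fin 3 → ℤ) → κ) (ρ : (Hn N)ˣ →* Module.End κ (Fn N κ)) (G : Fin 3 → Fn N κ)
    (τ : (Fin 3 → ℤ) → Fin 3 → ℤ) : Prop where
  hτ : ∀ x ∈ XX, τ x ∈ X3
  gd : ∀ c, Go c → ∀ k, Gd (yz ρ c (G k))
  gd0 : ∀ k, Gd (G k)
  E : ∀ c, Go c → ∀ k, ∀ x ∈ XX, (yz ρ c (G k)) (imz N x) = h (cyi k (actc c (τ x)))
  E0 : ∀ k, ∀ x ∈ XX, G k (imz N x) = h (cyi k (τ x))

theorem EE.rel (H : H5 N h l7 l11 l13) (hN : 1 ≤ N) {ρ : (Hn N)ˣ →* Module.End κ (Fn N κ)}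
    {G : Fin 3 → Fn N κ} {τ : (Fin 3 → ℤ) → Fin 3 → ℤ} (e : EE h ρ G τ) : Rl ρ G l7 l11 l13 :=
  Rl_of H hN e.hτ e.gd e.gd0 e.E e.E0

theorem EE.rc {ρ : (Hn N)ˣ →* Module.End κ (Fn N κ)}
    {G : Fin 3 → Fn N κ} {τ : (Fin 3 → ℤ) → Fin 3 → ℤ} (e : EE h ρ G τ) :
    EE h (rc ρ) ![G 1, G 2, G 0] (fun x => cyi 1 (τ x)) := by
  refine ⟨fun x hx => cyi_X3 1 (e.hτ x hx), ?_, ?_, ?_, ?_⟩
  · intro c hc k
    rw [rc_yz hc]
    fin_cases k
    · exact e.gd _ (Go_cq hc) 1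
    · exact e.gd _ (Go_cq hc) 2
    · exact e.gd _ (Go_cq hc) 0
  · intro k
    fin_cases k
    · exact e.gd0 1
    · exact e.gd0 2
    · exact e.gd0 0
  · intro c hc k x hx
    rw [rc_yz hc, actc_cyi]
    fin_cases k
    · exact e.E _ (Go_cq hc) 1 x hx
    · have := e.E _ (Go_cq hc) 2 x hx
      rw [← cyi_11] at this
      exact this
    · have := e.E _ (Go_cq hc) 0 x hx
      show _ = h (cyi 2 (cyi 1 _))
      rw [cyi_21]
      exact this
  · intro k x hx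
    fin_cases k
    · exact e.E0 1 x hx
    · have := e.E0 2 x hx
      rw [← cyi_11] at this
      exact this
    · have := e.E0 0 x hx
      show _ = h (cyi 2 (cyi 1 _))
      rw [cyi_21]
      exact this

theorem wi_imz (x : Fin 3 → ℤ) : ((((wi N)⁻¹)⁻¹ : (Hn N)ˣ) : Hn N) * imz N x *
    (((wi N)⁻¹ : (Hn N)ˣ) : Hn N) = imz N ![x 0, -x 1, -x 2] := by
  show im 1 0 0 * imz N x * im (-1) 0 0 = _
  unfold imz
  apply Quaternion.ext <;> simp

theorem wj_imz (x : Fin 3 → ℤ) : ((((wj N)⁻¹)⁻¹ : (Hn N)ˣ) : Hn N) * imz N x *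
    (((wj N)⁻¹ : (Hn N)ˣ) : Hn N) = imz N ![-x 0, x 1, -x 2] := by
  show im 0 1 0 * imz N x * im 0 (-1) 0 = _
  unfold imz
  apply Quaternion.ext <;> simp

theorem wq_imz (x : Fin 3 → ℤ) : (((wq N)⁻¹ : (Hn N)ˣ) : Hn N) * imz N x *
    ((wq N : (Hn N)ˣ) : Hn N) = imz N ![x 0, x 2, -x 1] := by
  show qn4 (hf N) (-hf N) 0 0 * imz N x * qn4 1 1 0 0 = _
  have h := two_hf (N := N)
  unfold imz
  apply Quaternion.ext
  · simp
  · simp; linear_combination (x 0 : Zn N) * h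
  · simp; linear_combination (x 2 : Zn N) * h
  · simp; linear_combination (-(x 1 : Zn N)) * h

/-- constancy -/
theorem H5.const (h3 : (3 : κ) = 0) (hN : 1 ≤ N) (H : H5 N h l7 l11 l13) :
    ∃ r, ∀ x ∈ X3, h x = r := by
  obtain ⟨G, hG⟩ : ∃ G : Fin 3 → Fn N κ, ∀ k, G k = toFn N (fun x => h (cyi k x)) :=
    ⟨_, fun _ => rfl⟩
  have hp : ∀ k, Pe N (fun x => h (cyi k x)) := by
    intro k x hx y hy hxy
    apply H.per _ (cyi_X3 k (XX_X3 hx)) _ (cyi_X3 k (XX_X3 hy))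
    intro i
    fin_cases k
    · exact hxy i
    · fin_cases i
      · exact hxy 1
      · exact hxy 2
      · exact hxy 0
    · fin_cases i
      · exact hxy 2
      · exact hxy 0
      · exact hxy 1
  have hg : ∀ k, Gd (G k) := by
    intro k
    rw [hG]
    apply toFn_Gd hN (hp k)
    intro x hx s hs
    rw [cyi_smul]
    exact H.sc _ (cyi_X3 k (XX_X3 hx)) s hs
  have hE0 : ∀ k, ∀ x ∈ XX, G k (imz N x) = h (cyi k x) := by
    intro k x hx
    rw [hG, toFn_im (hp k) hx]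
  have e0 : EE h (rho κ) G (fun x => x) := by
    refine ⟨fun x hx => XX_X3 hx, fun c hc k => yz_Gd hc (hg k), hg, ?_, hE0⟩
    intro c hc k x hx
    have h1 := hg k
    rw [hG] at h1 ⊢
    exact yz_eval hc (hp k) h1 hx
  have e1 := e0.rc
  have e2 : EE h (rc (rc (rho κ))) ![G 2, G 0, G 1] (fun x => cyi 1 (cyi 1 x)) := e1.rc
  have X3i : ∀ {z : Fin 3 → ℤ}, z ∈ X3 → (![z 0, -z 1, -z 2] : Fin 3 → ℤ) ∈ X3 := by
    intro z hz
    show ((z 0) ^ 2 + (-z 1) ^ 2 + (-z 2) ^ 2) % 3 = 1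
    have h : (z 0 ^ 2 + z 1 ^ 2 + z 2 ^ 2) % 3 = 1 := hz
    rw [← h]; congr 1; ring
  have X3q : ∀ {z : Fin 3 → ℤ}, z ∈ X3 → (![z 0, z 2, -z 1] : Fin 3 → ℤ) ∈ X3 := by
    intro z hz
    show ((z 0) ^ 2 + (z 2) ^ 2 + (-z 1) ^ 2) % 3 = 1
    have h : (z 0 ^ 2 + z 1 ^ 2 + z 2 ^ 2) % 3 = 1 := hz
    rw [← h]; congr 1; ring
  have fi : ∀ z ∈ X3, h ![z 0, -z 1, -z 2] = h z := by
    intro z hz
    rw [← H.fq z hz, ← H.fq _ (X3q hz)]
    rfl
  have fk : ∀ z ∈ X3, h ![-z 0, -z 1, z 2] = h (rj z) := by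
    intro z hz
    rw [← fi _ (rj_X3 hz)]
    congr 1
    funext i
    fin_cases i
    · rfl
    · rfl
    · show z 2 = - -z 2
      rw [neg_neg]
  have od : ∀ k, ∀ x ∈ XX, yz (rho κ) (Mv k) (G k) (imz N x) = h (rj (cyi k x)) := by
    intro k x hx
    have h1 := e0.E _ (Mv_Go k) k x hx
    rw [h1, H.fw _ (cyi_X3 k (XX_X3 hx)), act_Mv, cyi_actc]
  have Gi : ∀ k, ∀ x ∈ XX, rho κ (wi N)⁻¹ (G k) (imz N x) = h (cyi k ![x 0, -x 1, -x 2]) := by
    intro k x hx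
    rw [rho_apply, wi_imz, hE0 k _ (XX_i hx)]
  have Gj : ∀ k, ∀ x ∈ XX, rho κ (wj N)⁻¹ (G k) (imz N x) = h (cyi k ![-x 0, x 1, -x 2]) := by
    intro k x hx
    rw [rho_apply, wj_imz, hE0 k _ (XX_j hx)]
  have outi : ∀ k, ∀ y, ¬ Dc y → rho κ (wi N)⁻¹ (G k) y = 0 := by
    intro k y hy
    rw [rho_apply]
    apply (hg k).2
    intro hd
    apply hy
    obtain ⟨x, hx, hx2⟩ := exists_imz hN hd
    have e : y = imz N ![x 0, -x 1, -x 2] := by
      have e1 : y = (((wi N)⁻¹ : (Hn N)ˣ) : Hn N) * (((((wi N)⁻¹)⁻¹ : (Hn N)ˣ) : Hn N) * y *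
          (((wi N)⁻¹ : (Hn N)ˣ) : Hn N)) * ((wi N : (Hn N)ˣ) : Hn N) := by
        rw [inv_inv]
        simp only [mul_assoc, Units.inv_mul, mul_one]
        rw [Units.inv_mul_cancel_left]
      rw [e1, hx2]
      show im (-1) 0 0 * imz N x * im 1 0 0 = _
      unfold imz
      apply Quaternion.ext <;> simp
    rw [e]
    exact Dc_imz (XX_i hx)
  have outj : ∀ k, ∀ y, ¬ Dc y → rho κ (wj N)⁻¹ (G k) y = 0 := by
    intro k y hy
    rw [rho_apply]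
    apply (hg k).2
    intro hd
    apply hy
    obtain ⟨x, hx, hx2⟩ := exists_imz hN hd
    have e : y = imz N ![-x 0, x 1, -x 2] := by
      have e1 : y = (((wj N)⁻¹ : (Hn N)ˣ) : Hn N) * (((((wj N)⁻¹)⁻¹ : (Hn N)ˣ) : Hn N) * y *
          (((wj N)⁻¹ : (Hn N)ˣ) : Hn N)) * ((wj N : (Hn N)ˣ) : Hn N) := by
        rw [inv_inv]
        simp only [mul_assoc, Units.inv_mul, mul_one]
        rw [Units.inv_mul_cancel_left]
      rw [e1, hx2]
      show im 0 (-1) 0 * imz N x * im 0 1 0 = _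
      unfold imz
      apply Quaternion.ext <;> simp
    rw [e]
    exact Dc_imz (XX_j hx)
  have outq : ∀ k, ∀ y, ¬ Dc y → rho κ (wq N) (G k) y = 0 := by
    intro k y hy
    rw [rho_apply]
    apply (hg k).2
    intro hd
    apply hy
    obtain ⟨x, hx, hx2⟩ := exists_imz hN hd
    have e : y = imz N ![x 0, -x 2, x 1] := by
      have e1 : y = ((wq N : (Hn N)ˣ) : Hn N) * ((((wq N)⁻¹ : (Hn N)ˣ) : Hn N) * y *
          ((wq N : (Hn N)ˣ) : Hn N)) * (((wq N)⁻¹ : (Hn N)ˣ) : Hn N) := by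
        simp only [mul_assoc, Units.mul_inv, mul_one]
        rw [Units.mul_inv_cancel_left]
      rw [e1, hx2]
      show qn4 1 1 0 0 * imz N x * qn4 (hf N) (-hf N) 0 0 = _
      have h := two_hf (N := N)
      unfold imz
      apply Quaternion.ext
      · simp
      · simp; linear_combination (x 0 : Zn N) * h
      · simp; linear_combination (-(x 2 : Zn N)) * h
      · simp; linear_combination (x 1 : Zn N) * h
    rw [e]
    exact Dc_imz ⟨hx.1, (dvd_neg).2 hx.2.2, hx.2.1⟩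
  have ext0 : ∀ {φ ψ : Fn N κ}, (∀ y, ¬ Dc y → φ y = 0) → Gd ψ →
      (∀ x ∈ XX, φ (imz N x) = ψ (imz N x)) → φ = ψ := by
    intro φ ψ h1 h2 h3
    funext y
    by_cases hy : Dc y
    · obtain ⟨x, hx, rfl⟩ := exists_imz hN hy
      exact h3 x hx
    · rw [h1 y hy, h2.2 y hy]
  have main := constE h3 hg (e0.rel H hN) (e1.rel H hN) (e2.rel H hN)
    (ext0 (outi 0) (hg 0) (fun x hx => by
      rw [Gi 0 x hx, hE0 0 x hx]
      exact fi x (XX_X3 hx)))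
    (ext0 (outi 1) (yz_Gd (Mv_Go 1) (hg 1)) (fun x hx => by
      rw [Gi 1 x hx, od 1 x hx]
      exact fk _ (cyi_X3 1 (XX_X3 hx))))
    (ext0 (outi 2) (yz_Gd (Mv_Go 2) (hg 2)) (fun x hx => by
      rw [Gi 2 x hx, od 2 x hx]
      rfl))
    (ext0 (outj 0) (yz_Gd (Mv_Go 0) (hg 0)) (fun x hx => by
      rw [Gj 0 x hx, od 0 x hx]
      rfl))
    (ext0 (outj 1) (hg 1) (fun x hx => by
      rw [Gj 1 x hx, hE0 1 x hx]
      exact fi _ (cyi_X3 1 (XX_X3 hx))))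
    (ext0 (outj 2) (yz_Gd (Mv_Go 2) (hg 2)) (fun x hx => by
      rw [Gj 2 x hx, od 2 x hx]
      exact fk _ (cyi_X3 2 (XX_X3 hx))))
    (ext0 (outq 1) (hg 2) (fun x hx => by
      rw [rho_apply, wq_imz, hE0 1 _ (XX_q hx), hE0 2 x hx]
      have h1 := H.fq ![x 2, -x 1, x 0] (by
        show ((x 2) ^ 2 + (-x 1) ^ 2 + (x 0) ^ 2) % 3 = 1
        have h : (x 0 ^ 2 + x 1 ^ 2 + x 2 ^ 2) % 3 = 1 := XX_X3 hx
        rw [← h]; congr 1; ring)
      show h ![x 2, -x 1, x 0] = h ![x 2, x 0, x 1]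
      rw [← h1]
      congr 1
      funext i
      fin_cases i
      · rfl
      · rfl
      · show - -x 1 = x 1
        rw [neg_neg]))
  refine ⟨G 0 (im 1 0 0), ?_⟩
  have c0 : ∀ k, ∀ x ∈ XX, h (cyi k x) = G 0 (im 1 0 0) := by
    intro k x hx
    rw [← hE0 k x hx]
    exact main k _ (Dc_imz hx)
  intro x hx
  rcases three_cases hx with hc | hc | hc
  · exact c0 0 x hc
  · have := c0 2 _ hc
    rwa [show (![x 1, x 2, x 0] : Fin 3 → ℤ) = cyi 1 x from rfl, cyi_21] at this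
  · have := c0 1 _ hc
    rwa [show (![x 2, x 0, x 1] : Fin 3 → ℤ) = cyi 2 x from rfl, cyi_12] at this

end

end Pool.Agent.Helper725_HQ.E5
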