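import Pool.Agent.Helper725_HQ.DDefs

/-! Algebraic modular forms on the Hamilton quaternions which are new of level five, with a level
structure at three. -/

set_option autoImplicit false

namespace Pool.Agent.Helper725_HQ

open Quaternion MvPolynomial NumberField
open scoped nonZeroDivisors

/-- A form of degree `k` on the triples `(I, I', u)`, where `I` and `I'` are right ideals of the
Hurwitz order with `5 I ⊂ I' ⊂ I` (strict inclusions) and `u` is a generator of `I` at three; it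
only depends on `u` modulo `3 ^ n`. It is invariant under right multiplication by `1 + i` at two and
under the involution `(I, I') ↦ (I', 5 I)` at five, and its sums over the six ideals `I'` vanish:
its component at two is trivial, and its component at five is the unramified twist of the Steinberg
representation on which this involution is trivial. It is invariant under right multiplication at
three by the units of `ℤ₃[i]`, and the element `j`, which normalizes this torus, acts by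
`(-1) ^ k`. The values are harmonic homogeneous polynomials of degree `k` on the space of pure
quaternions. -/
structure IsForm5 (n k : ℕ)
    (F : AddSubgroup ℍ[ℚ] → AddSubgroup ℍ[ℚ] → ℍ[ℚ] → MvPolynomial (Fin 3) ℂ) : Prop where
  supp : ∀ I I' u, ¬ (IsPair 5 I I' ∧ GenAt3 I u) → F I I' u = 0
  hom : ∀ I I' u, (F I I' u).IsHomogeneous k
  harm : ∀ I I' u, ∑ i, pderiv i (pderiv i (F I I' u)) = 0
  left : ∀ α : ℍ[ℚ], α ≠ 0 → ∀ I I' u, IsPair 5 I I' → GenAt3 I u → ∀ x,
    ev (F (lm α I) (lm α I') (α * u)) (α * x * α⁻¹) = ev (F I I' u) x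
  two : ∀ I I' u, IsPair 5 I I' → GenAt3 (rm (mk4 1 1 0 0) I) u →
    F (rm (mk4 1 1 0 0) I) (rm (mk4 1 1 0 0) I') u = F I I' u
  five : ∀ I I' u, IsPair 5 I I' → GenAt3 I u → F I' (lm 5 I) (5 * u) = F I I' u
  lvl : ∀ I I' u u', IsPair 5 I I' → GenAt3 I u → GenAt3 I u' →
    u' - u ∈ lm ((3 ^ n : ℕ) : ℍ[ℚ]) I → F I I' u' = F I I' u
  tor : ∀ I I' u, IsPair 5 I I' → GenAt3 I u → ∀ a b : ℤ, ¬ (3 : ℤ) ∣ a ^ 2 + b ^ 2 →
    F I I' (u * mk4 a b 0 0) = F I I' u
  sgn : ∀ I I' u, IsPair 5 I I' → GenAt3 I u → F I I' (u * mk4 0 0 1 0) = (-1 : ℂ) ^ k • F I I' u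
  tr : ∀ I u, IsRI I → ∑ᶠ I' ∈ {I' : AddSubgroup ℍ[ℚ] | IsPair 5 I I'}, F I I' u = 0

/-- Some toric period of `F` along `K` does not vanish: the ideals `I` and `I'` are stable under
the maximal order of `K`, and conjugation by `u` takes the pure element `s` of `K` to a multiple of
`i` modulo `3 ^ n`. The ideals representing the classes are prime to three. -/
def NonvanPer5 (n : ℕ)
    (F : AddSubgroup ℍ[ℚ] → AddSubgroup ℍ[ℚ] → ℍ[ℚ] → MvPolynomial (Fin 3) ℂ)
    (K : Type) [Field K] [NumberField K] : Prop :=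
  ∃ (ι : K →+* ℍ[ℚ]) (I I' : AddSubgroup ℍ[ℚ]) (u : ℍ[ℚ]), IsPair 5 I I' ∧ GenAt3 I u ∧
    (∀ a : 𝓞 K, ∀ y ∈ I, ι (a : K) * y ∈ I) ∧ (∀ a : 𝓞 K, ∀ y ∈ I', ι (a : K) * y ∈ I') ∧
    ∃ s : K, s ≠ 0 ∧ (ι s).re = 0 ∧
      (∃ b : ℤ, ¬ (3 : ℤ) ∣ b ∧ ι s * u - u * mk4 0 b 0 0 ∈ lm ((3 ^ n : ℕ) : ℍ[ℚ]) I) ∧
      ∀ rep : ClassGroup (𝓞 K) → (Ideal (𝓞 K))⁰, (∀ c, ClassGroup.mk0 (rep c) = c) →
        (∀ c, ¬ 3 ∣ Ideal.absNorm (rep c : Ideal (𝓞 K))) → torpC F ι rep I I' u s ≠ 0

end Pool.Agent.Helper725_HQ
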