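import Pool.Agent.Helper725_HQ.FGv

/-! Forms of level five as functions on the vectors. -/

set_option autoImplicit false
set_option linter.unusedVariables false
set_option linter.unusedSimpArgs false

namespace Pool.Agent.Helper725_HQ.E5

open Quaternion MvPolynomial

/-- the six ideals of norm five -/
noncomputable def Jv (v : Fin 3 → ℤ) : AddSubgroup ℍ[ℚ] := lm (qv v * ep⁻¹) Oo

theorem Jv_Sp (i : Fin 6) : Jv (v5 i) ∈ Sp 5 Oo := by rw [Sp5_eq]; exact ⟨i, rfl⟩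

theorem pair_Jv (i : Fin 6) : IsPair 5 Oo (Jv (v5 i)) := isPair_iff.2 ⟨Oo_isRI, Jv_Sp i⟩

theorem pair5_lm {α : ℍ[ℚ]} (hα : α ≠ 0) {I I' : AddSubgroup ℍ[ℚ]} (h : IsPair 5 I I') :
    IsPair 5 (lm α I) (lm α I') := (pair_lm hα).2 h

section
variable {n k : ℕ} {F : AddSubgroup ℍ[ℚ] → AddSubgroup ℍ[ℚ] → ℍ[ℚ] → MvPolynomial (Fin 3) ℂ}

theorem form5_left (hF : IsForm5 n k F) {α : ℍ[ℚ]} (hα : α ≠ 0) {I I' : AddSubgroup ℍ[ℚ]}
    (hI : IsPair 5 I I') {u : ℍ[ℚ]} (hu : Gen3 I u) :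
    F (lm α I) (lm α I') (α * u) = lsub (rC α) (F I I' u) := by
  apply eq_of_ev
  intro x
  rw [ev_lsub hα]
  have h1 := hF.left α hα I I' u hI hu (α⁻¹ * x * α)
  have h2 : α * (α⁻¹ * x * α) * α⁻¹ = x := by
    rw [← mul_assoc, ← mul_assoc, mul_inv_cancel₀ hα, one_mul, mul_assoc, mul_inv_cancel₀ hα,
      mul_one]
  rw [h2] at h1
  exact h1

theorem form5_fu (hF : IsForm5 n k F) {I' : AddSubgroup ℍ[ℚ]} (hp : IsPair 5 Oo I') :
    Fu n k (F Oo I') := by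
  refine ⟨fun u => hF.hom _ _ _, ?_, ?_, ?_⟩
  · intro u u' hu hu' ⟨z, hz, h⟩
    apply hF.lvl Oo I' u u' hp (gen_iff.2 hu) (gen_iff.2 hu')
    rw [mem_lm]
    refine ⟨z, hz, ?_⟩
    rw [h, nat_smulH]
    push_cast
    abel
  · intro u hu a b hab
    exact hF.tor Oo I' u hp (gen_iff.2 hu) a b hab
  · intro u hu
    exact hF.sgn Oo I' u hp (gen_iff.2 hu)

/-- units -/
theorem gv_unit (hF : IsForm5 n k F) {I' : AddSubgroup ℍ[ℚ]} (hp : IsPair 5 Oo I') {w : ℍ[ℚ]}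
    (hw : w ∈ Hur) (hn : normSq w = 1) {x y : Fin 3 → ℤ} (hy : pq y = w⁻¹ * pq x * w)
    (hx : ∃ u, Ad n x u) : gv n (F Oo (lm w I')) x = gv n (F Oo I') y := by
  obtain ⟨u, hu⟩ := hx
  have hw0 : w ≠ 0 := by rw [← normSq_ne_zero, hn]; norm_num
  have hg : GO w := GO_of_norm hw (p := 1) (by rw [hn]; norm_num) (by norm_num)
  have h1 := Ad_conj hg (t := 1) rfl (y := y) (by rw [Int.cast_one, one_smul]; exact hy) hu
  have hp' := pair5_lm hw0 hp
  rw [mem_of_unit hw hn] at hp'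
  rw [gv_eq (form5_fu hF hp) h1, gv_eq (form5_fu hF hp') hu]
  have e : u = w * (star w * u) := by
    rw [← mul_assoc, self_mul_star, hn, Quaternion.coe_one, one_mul]
  have h2 := form5_left hF hw0 hp (gen_iff.2 h1.1)
  rw [mem_of_unit hw hn, ← e] at h2
  rw [h2, ← evvl, ← evvl, ev_lsub hw0, hy]

theorem form5_ep (hF : IsForm5 n k F) {I' I'' : AddSubgroup ℍ[ℚ]} (hp : IsPair 5 Oo I')
    (hp' : IsPair 5 Oo I'') (he : rm ep I' = lm ep I'') {u : ℍ[ℚ]} (hu : GO u) :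
    F Oo I' (ep * u) = lsub (rC ep) (F Oo I'' u) := by
  rw [← form5_left hF ep_ne hp' (gen_iff.2 hu)]
  have h2 : Gen3 (rm ep Oo) (ep * u) := by
    rw [rm_ep_Oo]; exact gen_lm ep_ne (gen_iff.2 hu)
  have h3 := hF.two Oo I' (ep * u) hp h2
  rw [← he, ← rm_ep_Oo]
  exact h3.symm

/-- the normalizer at two -/
theorem gv_ep (hF : IsForm5 n k F) {I' I'' : AddSubgroup ℍ[ℚ]} (hp : IsPair 5 Oo I')
    (hp' : IsPair 5 Oo I'') (he : rm ep I' = lm ep I'') {x y : Fin 3 → ℤ}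
    (hy : pq y = ep⁻¹ * pq x * ep) (hx : ∃ u, Ad n x u) :
    gv n (F Oo I') x = gv n (F Oo I'') y := by
  obtain ⟨u, hu⟩ := hx
  have h1 := Ad_conj GO_ep (t := 1) rfl (y := y) (by rw [Int.cast_one, one_smul]; exact hy) hu
  rw [gv_eq (form5_fu hF hp') h1, gv_eq (form5_fu hF hp) hu]
  have h2 := form5_ep hF hp hp' he h1.1
  have e : ep * (star ep * u) = ((2 : ℤ) : ℚ) • u := by
    rw [← mul_assoc, self_mul_star, coe_mul_eq_smul, normSq_ep]; norm_num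
  rw [e, (form5_fu hF hp).scal hu.1 (a := 2) (by norm_num)] at h2
  rw [h2, ← evvl, ← evvl, ev_lsub ep_ne, hy]

end

theorem rm_ep_Jv {v v' : Fin 3 → ℤ} (h : pq v = ep * pq v' * ep⁻¹) :
    rm ep (Jv v) = lm ep (Jv v') := by
  unfold Jv
  rw [← lm_rm, rm_ep_Oo, lm_lm, lm_lm]
  congr 1
  rw [mul_assoc, inv_mul_cancel₀ ep_ne, mul_one, ← mul_assoc]
  have e : ∀ v : Fin 3 → ℤ, qv v = 1 + (3 : ℚ) • pq v := by
    intro v
    unfold qv pq
    apply ext4 <;> simp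
  rw [e, e, h, mul_add, add_mul, mul_one, mul_inv_cancel₀ ep_ne, mul_smul_comm, smul_mul_assoc]

theorem qv_pq (v : Fin 3 → ℤ) : qv v = 1 + (3 : ℚ) • pq v := by
  unfold qv pq
  apply ext4 <;> simp

theorem lm_unit_Jv {v v' : Fin 3 → ℤ} {w : ℍ[ℚ]} (hw : w ∈ Hur) (hn : normSq w = 1)
    (h : pq v' = w * pq v * w⁻¹) : lm w (Jv v) = Jv v' := by
  have hw0 : w ≠ 0 := by rw [← normSq_ne_zero, hn]; norm_num
  unfold Jv
  obtain ⟨g1, g2⟩ := unit_conj hw hn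
  have e : w * (qv v * ep⁻¹) = qv v' * ep⁻¹ * (ep * w * ep⁻¹) := by
    rw [qv_pq, qv_pq, h]
    simp only [mul_assoc, inv_mul_cancel_left₀ ep_ne]
    rw [← mul_assoc w, ← mul_assoc _ w]
    congr 1
    rw [mul_add, mul_one, add_mul, one_mul, mul_smul_comm, smul_mul_assoc]
    simp only [mul_assoc, inv_mul_cancel₀ hw0, mul_one]
  rw [lm_lm, e, ← lm_lm, mem_of_unit g1 g2]

theorem neg_qv (v : Fin 3 → ℤ) : star (qv v) = qv (fun i => -v i) := by
  unfold qv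
  apply ext4 <;> simp

/-- the ideal exchanged with an ideal of norm five -/
theorem rm_ep_star (v : Fin 3 → ℤ) : rm ep (lm (star (qv v * ep⁻¹)) Oo) =
    lm ep (Jv (fun i => -v i)) := by
  unfold Jv
  rw [← lm_rm, rm_ep_Oo, lm_lm, lm_lm, star_mul, neg_qv]
  have h1 : star ep⁻¹ = (1 / 2 : ℚ) • ep := by
    rw [ep_inv]
    unfold ep
    apply ext4 <;> simp
  have h2 : (1 / 2 : ℚ) • ep = ep⁻¹ * mk4 0 1 0 0 := by
    rw [ep_inv]
    unfold ep
    apply ext4 <;> simp [re_mul, imI_mul, imJ_mul, imK_mul]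
  have hi : mk4 0 1 0 0 ∈ Hur := by
    have := int_mem 0 1 0 0
    simpa using this
  have hn : normSq (mk4 0 1 0 0) = 1 := by
    rw [normSq_def']; simp
  have e : star ep⁻¹ * qv (fun i => -v i) * ep = ep * (qv (fun i => -v i) * ep⁻¹) *
      mk4 0 1 0 0 := by
    rw [h1, mul_assoc ep, mul_assoc (qv _), ← h2, smul_mul_assoc, smul_mul_assoc, mul_smul_comm,
      mul_smul_comm, mul_assoc]
  rw [e, ← lm_lm, mem_of_unit hi hn]

section
variable {n k : ℕ} {F : AddSubgroup ℍ[ℚ] → AddSubgroup ℍ[ℚ] → ℍ[ℚ] → MvPolynomial (Fin 3) ℂ}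

theorem al_norm (i : Fin 6) : normSq (qv (v5 i) * ep⁻¹) = ((5 : ℕ) : ℚ) := by
  rw [map_mul, qv_norm, v5_norm, map_inv₀, normSq_ep]; norm_num

/-- the involution at five -/
theorem gv_five (hF : IsForm5 n k F) {i j : Fin 6} (hij : (fun l => -v5 i l) = v5 j)
    {x : Fin 3 → ℤ} (hx : ∃ u, Ad n x u) :
    gv n (F Oo (Jv (v5 j))) (act (v5 i) x) = (10 : ℂ) ^ k * gv n (F Oo (Jv (v5 i))) x := by
  obtain ⟨u, hu⟩ := hx
  obtain ⟨α, hα⟩ : ∃ α, α = qv (v5 i) * ep⁻¹ := ⟨_, rfl⟩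
  have hαn : normSq α = ((5 : ℕ) : ℚ) := by rw [hα]; exact al_norm i
  have hαm : α ∈ Hur := by rw [hα]; exact mem5 i
  have hg : GO α := GO_of_norm hαm hαn (by norm_num)
  have hJ : Jv (v5 i) = lm α Oo := by rw [hα]; rfl
  -- the pair exchanged with the given one
  have hp := pair_Jv i
  have e5 : lm 5 Oo = lm α (lm (star α) Oo) := by
    rw [lm_lm, self_mul_star, hαn]
    rfl
  have hp5 : IsPair 5 (Jv (v5 i)) (lm 5 Oo) := by
    have := (pair_swap (by norm_num)).2 hp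
    exact_mod_cast this
  have hps : IsPair 5 Oo (lm (star α) Oo) := by
    rw [hJ, e5] at hp5
    exact (pair_lm hg.ne).1 hp5
  have h1 := hF.five Oo (Jv (v5 i)) u hp (gen_iff.2 hu.1)
  have hw := hg.star.mul hu.1
  have e6 : (5 : ℍ[ℚ]) * u = α * (star α * u) := by
    rw [← mul_assoc, self_mul_star, hαn]
    rfl
  rw [hJ, e5, e6, form5_left hF hg.ne hps (gen_iff.2 hw), ← hJ] at h1
  -- removal of the factor at two
  have e1 : ((2 : ℤ) : ℚ) • (star α * u) = ep * (star (qv (v5 i)) * u) := by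
    rw [hα, star_mul, ep_inv]
    have : ((2 : ℤ) : ℚ) • star (mk4 (1 / 2) (-(1 / 2)) 0 0) = ep := by
      unfold ep
      apply ext4 <;> simp
    rw [← smul_mul_assoc, ← smul_mul_assoc, this, mul_assoc]
  have he := rm_ep_star (v5 i)
  rw [← hα, hij] at he
  rw [← (form5_fu hF hps).scal hw (a := 2) (by norm_num), e1,
    form5_ep hF hps (pair_Jv j) he ((GO_qv _).star.mul hu.1), rC_mul hg.ne ep_ne, hα, mul_assoc,
    inv_mul_cancel₀ ep_ne, mul_one] at h1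
  rw [gv_eq (form5_fu hF hp) hu, ← h1, gv_eq (form5_fu hF (pair_Jv j)) (Ad_act hu (v5 i))]
  have := rot_lsub (v := v5 i) (N := 10) (by rw [v5_norm]; norm_num) (by norm_num)
    (hF.hom Oo (Jv (v5 j)) (star (qv (v5 i)) * u)) x
  rw [← this]
  norm_cast

end

end Pool.Agent.Helper725_HQ.E5
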