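import Pool.Agent.Helper725_HQ.FForm

/-! The Hecke relations in level five. -/

set_option autoImplicit false
set_option linter.unusedVariables false
set_option linter.unusedSimpArgs false

namespace Pool.Agent.Helper725_HQ.E5

open Quaternion MvPolynomial

/-- the conjugate -/
def cj4 (a : Fin 4 → ℤ) : Fin 4 → ℤ := ![a 0, -a 1, -a 2, -a 3]

/-- divisibility of a product of three halves -/
def Okk (a b c : Fin 4 → ℤ) : Prop := (∀ l, mq (mq (cj4 a) b) c l % 20 = 0) ∧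
  (mq (mq (cj4 a) b) c 1 / 20 - mq (mq (cj4 a) b) c 0 / 20) % 2 = 0 ∧
  (mq (mq (cj4 a) b) c 2 / 20 - mq (mq (cj4 a) b) c 0 / 20) % 2 = 0 ∧
  (mq (mq (cj4 a) b) c 3 / 20 - mq (mq (cj4 a) b) c 0 / 20) % 2 = 0

instance (a b c : Fin 4 → ℤ) : Decidable (Okk a b c) := by unfold Okk; infer_instance

theorem q2_qc (c : Fin 4 → ℤ) : q2 c = (1 / 2 : ℚ) • qc c := by
  unfold q2 qc
  apply ext4 <;> simp <;> ring

theorem star_qc (c : Fin 4 → ℤ) : star (qc c) = qc (cj4 c) := by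
  unfold qc cj4
  apply ext4 <;> simp

theorem trip {a b c : Fin 4 → ℤ} (h : Okk a b c) (hn : normSq (q2 a) = ((5 : ℕ) : ℚ)) :
    (q2 a)⁻¹ * q2 b * q2 c ∈ Hur := by
  obtain ⟨h0, h1, h2, h3⟩ := h
  have hY : ∀ l, mq (mq (cj4 a) b) c l = 20 * (mq (mq (cj4 a) b) c l / 20) := by
    intro l
    have := h0 l
    omega
  have e : (q2 a)⁻¹ * q2 b * q2 c = q2 (fun l => mq (mq (cj4 a) b) c l / 20) := by
    have hinv : (q2 a)⁻¹ = (1 / 5 : ℚ) • star (q2 a) := by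
      have : (q2 a)⁻¹ = (normSq (q2 a))⁻¹ • star (q2 a) := rfl
      rw [this, hn]; norm_num
    rw [hinv, q2_qc a, q2_qc b, q2_qc c]
    have e2 : star ((1 / 2 : ℚ) • qc a) = (1 / 2 : ℚ) • qc (cj4 a) := by
      rw [← star_qc]
      apply ext4 <;> simp
    rw [e2]
    simp only [smul_mul_assoc, mul_smul_comm, qc_mul, smul_smul]
    rw [q2_qc]
    have e3 : qc (mq (mq (cj4 a) b) c) = (20 : ℚ) • qc (fun l => mq (mq (cj4 a) b) c l / 20) := by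
      obtain ⟨X, hX⟩ : ∃ X, X = mq (mq (cj4 a) b) c := ⟨_, rfl⟩
      rw [← hX] at hY ⊢
      unfold qc
      have hq : ∀ l, (X l : ℚ) = 20 * ((X l / 20 : ℤ) : ℚ) := by
        intro l
        exact_mod_cast hY l
      apply ext4
      · simp only [mk4_re, Quaternion.re_smul, smul_eq_mul]; exact hq 0
      · simp only [mk4_imI, Quaternion.imI_smul, smul_eq_mul]; exact hq 1
      · simp only [mk4_imJ, Quaternion.imJ_smul, smul_eq_mul]; exact hq 2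
      · simp only [mk4_imK, Quaternion.imK_smul, smul_eq_mul]; exact hq 3
    rw [e3, smul_smul]
    norm_num
  rw [e]
  exact q2_Hur h1 h2 h3

theorem Jv_le_eq {i j : Fin 6} (h : Jv (v5 j) ≤ Jv (v5 i)) : Jv (v5 j) = Jv (v5 i) := by
  have hα : qv (v5 i) * ep⁻¹ ≠ 0 := mul_ne_zero (qv_ne _) (inv_ne_zero ep_ne)
  have h1 : qv (v5 j) * ep⁻¹ ∈ Jv (v5 i) := h (mem_lm.2 ⟨1, Hur.one_mem, by rw [mul_one]⟩)
  obtain ⟨z, hz, he⟩ := mem_lm.1 h1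
  have h2 := congrArg normSq he
  rw [map_mul, al_norm, al_norm] at h2
  have hn : normSq z = 1 := by
    have h3 : ((5 : ℕ) : ℚ) ≠ 0 := by norm_num
    apply mul_left_cancel₀ h3
    rw [h2, mul_one]
  unfold Jv
  rw [← he, ← lm_lm, mem_of_unit hz hn]

/-- the neighbours of a pair -/
theorem inf_Jv {p : ℕ} (hp : p.Coprime 5) (hp0 : p ≠ 0) {β : ℍ[ℚ]} (hβ : β ≠ 0)
    (hJ : lm β Oo ∈ Sp p Oo) {i j : Fin 6}
    (h : (qv (v5 i) * ep⁻¹)⁻¹ * β * (qv (v5 j) * ep⁻¹) ∈ Hur) :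
    lm β Oo ⊓ Jv (v5 i) = lm β (Jv (v5 j)) := by
  have h1 := pair_inf hp hp0 (by norm_num) (pair_Jv i) hJ
  have h2 : IsPair 5 Oo (lm β⁻¹ (lm β Oo ⊓ Jv (v5 i))) := by
    rw [← pair_lm hβ, lm_lm_inv hβ]
    exact h1
  obtain ⟨l, hl⟩ := cls5 (isPair_iff.1 h2).2
  have hα : qv (v5 i) * ep⁻¹ ≠ 0 := mul_ne_zero (qv_ne _) (inv_ne_zero ep_ne)
  have h3 : lm β (Jv (v5 j)) ≤ lm β Oo ⊓ Jv (v5 i) := by
    intro x hx
    obtain ⟨y, hy, rfl⟩ := mem_lm.1 hx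
    have hy' : y ∈ Oo := (pair_Jv j).lt₂.le hy
    obtain ⟨z, hz, rfl⟩ := mem_lm.1 hy
    refine ⟨mul_mem_lm hy', ?_⟩
    refine mem_lm.2 ⟨(qv (v5 i) * ep⁻¹)⁻¹ * β * (qv (v5 j) * ep⁻¹) * z, Hur.mul_mem h hz, ?_⟩
    obtain ⟨a, ha⟩ : ∃ a, a = qv (v5 i) * ep⁻¹ := ⟨_, rfl⟩
    obtain ⟨b, hb⟩ : ∃ a, a = qv (v5 j) * ep⁻¹ := ⟨_, rfl⟩
    rw [← ha] at hα ⊢
    rw [← hb]
    simp only [mul_assoc, mul_inv_cancel_left₀ hα]
  have h4 : Jv (v5 j) ≤ lm β⁻¹ (lm β Oo ⊓ Jv (v5 i)) := by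
    rw [← lm_le hβ, lm_lm_inv hβ]
    exact h3
  rw [hl] at h4
  have h5 := Jv_le_eq (i := l) (j := j) h4
  rw [h5]
  show _ = lm β (lm (qv (v5 l) * ep⁻¹) Oo)
  rw [← hl, lm_lm_inv hβ]

/-- the indices at seven -/
def t7 : Fin 8 → Fin 6 := ![1, 5, 1, 3, 1, 2, 1, 4]
/-- the indices at thirteen -/
def t13 : Fin 14 → Fin 6 := ![0, 0, 5, 4, 2, 3, 3, 3, 4, 4, 5, 5, 2, 2]
/-- the indices at eleven -/
def t11 : Fin 12 → Fin 6 := ![3, 2, 2, 3, 3, 2, 5, 4, 4, 5, 4, 5]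
/-- the indices at eleven before conjugation -/
def u11 : Fin 12 → Fin 6 := ![5, 4, 4, 5, 5, 4, 2, 3, 3, 2, 3, 2]

theorem ok7 : ∀ i : Fin 8, Okk (a5 0) (a7 i) (a5 (t7 i)) := by decide
theorem ok13 : ∀ i : Fin 14, Okk (a5 0) (c13 i) (a5 (t13 i)) := by decide
theorem ok11 : ∀ i : Fin 12, Okk (a5 0) (mq (h11 i) ![1, -1, 0, 0]) (a5 (u11 i)) := by decide
theorem tu11 : ∀ i : Fin 12, v5 (t11 i) = ![v5 (u11 i) 0, v5 (u11 i) 2, -v5 (u11 i) 1] := by decide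

section
variable {n k : ℕ} {F : AddSubgroup ℍ[ℚ] → AddSubgroup ℍ[ℚ] → ℍ[ℚ] → MvPolynomial (Fin 3) ℂ}

theorem hecke_term5 (hF : IsForm5 n k F) {β : ℍ[ℚ]} (hβ : β ∈ Hur) {p : ℕ}
    (hn : normSq β = p) (hp3 : ¬ 3 ∣ p) (hp : p.Coprime 5) (hp0 : p ≠ 0) (hJ : lm β Oo ∈ Sp p Oo)
    {b : Fin 4 → ℤ} (hb : β = q2 b) {j : Fin 6} (hok : Okk (a5 0) b (a5 j)) {u : ℍ[ℚ]}
    (hu : GO u) : F (lm β Oo) (lm β Oo ⊓ Jv (v5 0)) (p * u) =
      lsub (rC β) (F Oo (Jv (v5 j)) (star β * u)) := by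
  have hg := GO_of_norm hβ hn hp3
  have h1 : (qv (v5 0) * ep⁻¹)⁻¹ * β * (qv (v5 j) * ep⁻¹) ∈ Hur := by
    rw [a5_q2, a5_q2, hb]
    exact trip hok (by rw [← a5_q2]; exact al_norm 0)
  rw [inf_Jv hp hp0 hg.ne hJ h1, ← form5_left hF hg.ne (pair_Jv j) (gen_iff.2 (hg.star.mul hu)),
    ← mul_assoc, self_mul_star, hn]
  rfl

/-- scaling by two -/
theorem half_term (hF : IsForm5 n k F) (j : Fin 6) {α : ℍ[ℚ]} (hα : GO α) {u : ℍ[ℚ]}
    (hu : GO u) : lsub (rC α) (F Oo (Jv (v5 j)) (star α * u)) =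
      lsub (rC ((2 : ℚ) • α)) (F Oo (Jv (v5 j)) (star ((2 : ℚ) • α) * u)) := by
  have e1 : star ((2 : ℚ) • α) * u = ((2 : ℤ) : ℚ) • (star α * u) := by
    rw [← smul_mul_assoc]
    congr 1
    apply ext4 <;> simp
  rw [e1, (form5_fu hF (pair_Jv j)).scal (hα.star.mul hu) (by norm_num)]
  have h2 : ((2 : ℚ) : ℍ[ℚ]) ≠ 0 := by
    intro h
    have h1 := ratmul 2 (1 : ℍ[ℚ])
    rw [h, zero_mul] at h1
    have h3 := congrArg QuaternionAlgebra.re h1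
    rw [Quaternion.re_smul, Quaternion.re_one, Quaternion.re_zero] at h3
    norm_num at h3
  rw [← ratmul, ← rC_mul h2 hα.ne, rC_coe (by norm_num)]

/-- evaluation of one term -/
theorem term_eval (hF : IsForm5 n k F) (j : Fin 6) {x : Fin 3 → ℤ} {u : ℍ[ℚ]} (hu : Ad n x u)
    {c : Fin 4 → ℤ} {N : ℤ} (hN : c 0 ^ 2 + c 1 ^ 2 + c 2 ^ 2 + c 3 ^ 2 = N) (hN3 : N % 3 = 1) :
    (N : ℂ) ^ k * vl (lsub (rC (qc c)) (F Oo (Jv (v5 j)) (star (qc c) * u))) x =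
      gv n (F Oo (Jv (v5 j))) (actc c x) := by
  rw [rot_lsubc hN (by omega) (hF.hom _ _ _) x,
    gv_eq (form5_fu hF (pair_Jv j)) (Ad_actc hu hN hN3)]

/-- the relation at seven -/
theorem hk7 (hF : IsForm5 n k F) {lam : ℂ}
    (he : ∀ I I' u, IsPair 5 I I' → GenAt3 I u → heckeC 7 F I I' u = lam • F I I' u)
    {x : Fin 3 → ℤ} {u : ℍ[ℚ]} (hu : Ad n x u) :
    ∑ i, gv n (F Oo (Jv (v5 (t7 i)))) (actc (tc 1 (v7 i)) x) =
      (28 : ℂ) ^ k * lam * gv n (F Oo (Jv (v5 0))) x := by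
  have h1 := he Oo (Jv (v5 0)) u (pair_Jv 0) (gen_iff.2 hu.1)
  unfold heckeC at h1
  have h2 : {J : AddSubgroup ℍ[ℚ] | IsRI J ∧ lm (7 : ℕ) Oo < J ∧ J < Oo} = Sp 7 Oo := rfl
  rw [h2, Sp7_eq, finsum_mem_range (fun i j h => inj7 h), finsum_eq_sum_of_fintype] at h1
  have h3 := congrArg (fun P => vl P x) h1
  simp only [vl_sum, vl_smul] at h3
  rw [gv_eq (form5_fu hF (pair_Jv 0)) hu, mul_assoc, ← h3, Finset.mul_sum]
  apply Finset.sum_congr rfl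
  intro i _
  have hlf2 : normSq hlf = 1 / 4 := by
    rw [normSq_def']
    simp [hlf]; norm_num
  have hn : normSq (qv (v7 i) * hlf) = ((7 : ℕ) : ℚ) := by
    rw [map_mul, qv_norm, v7_norm, hlf2]; norm_num
  have hJ : lm (qv (v7 i) * hlf) Oo ∈ Sp 7 Oo := by rw [Sp7_eq]; exact ⟨i, rfl⟩
  rw [hecke_term5 hF (mem7 i) hn (by norm_num) (by norm_num) (by norm_num) hJ (a7_q2 i) (ok7 i)
    hu.1]
  have hg := GO_of_norm (mem7 i) hn (by norm_num)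
  rw [half_term hF _ hg hu.1]
  have e : (2 : ℚ) • (qv (v7 i) * hlf) = qc (tc 1 (v7 i)) := by
    rw [qc_tc]
    unfold hlf
    apply ext4 <;> simp [re_mul, imI_mul, imJ_mul, imK_mul] <;> ring
  rw [e]
  have h4 := term_eval hF (t7 i) hu (c := tc 1 (v7 i)) (N := 28) (by
    have := v7_norm i
    show (1 : ℤ) ^ 2 + (3 * v7 i 0) ^ 2 + (3 * v7 i 1) ^ 2 + (3 * v7 i 2) ^ 2 = 28
    linear_combination 9 * this) (by norm_num)
  rw [← h4]
  norm_cast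

/-- the relation at thirteen -/
theorem hk13 (hF : IsForm5 n k F) {lam : ℂ}
    (he : ∀ I I' u, IsPair 5 I I' → GenAt3 I u → heckeC 13 F I I' u = lam • F I I' u)
    {x : Fin 3 → ℤ} {u : ℍ[ℚ]} (hu : Ad n x u) :
    ∑ i, gv n (F Oo (Jv (v5 (t13 i)))) (actc (c13 i) x) =
      (52 : ℂ) ^ k * lam * gv n (F Oo (Jv (v5 0))) x := by
  have h1 := he Oo (Jv (v5 0)) u (pair_Jv 0) (gen_iff.2 hu.1)
  unfold heckeC at h1
  have h2 : {J : AddSubgroup ℍ[ℚ] | IsRI J ∧ lm (13 : ℕ) Oo < J ∧ J < Oo} = Sp 13 Oo := rfl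
  rw [h2, Sp13_eq, finsum_mem_range (fun i j h => inj13 h), finsum_eq_sum_of_fintype] at h1
  have h3 := congrArg (fun P => vl P x) h1
  simp only [vl_sum, vl_smul] at h3
  rw [gv_eq (form5_fu hF (pair_Jv 0)) hu, mul_assoc, ← h3, Finset.mul_sum]
  apply Finset.sum_congr rfl
  intro i _
  have hJ : lm (q13 i) Oo ∈ Sp 13 Oo := by rw [Sp13_eq]; exact ⟨i, rfl⟩
  rw [hecke_term5 hF (q13_mem i) (q13_norm i) (by norm_num) (by norm_num) (by norm_num) hJ rfl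
    (ok13 i) hu.1]
  have hg := GO_of_norm (q13_mem i) (q13_norm i) (by norm_num)
  rw [half_term hF _ hg hu.1]
  have e : (2 : ℚ) • q13 i = qc (c13 i) := by
    unfold q13 qc
    apply ext4 <;> simp <;> ring
  rw [e]
  have h4 := term_eval hF (t13 i) hu (c := c13 i) (N := 52) (c13_norm i) (by norm_num)
  rw [← h4]
  norm_cast

/-- the relation at eleven -/
theorem hk11 (hF : IsForm5 n k F) {lam : ℂ}
    (he : ∀ I I' u, IsPair 5 I I' → GenAt3 I u → heckeC 11 F I I' u = lam • F I I' u)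
    {x : Fin 3 → ℤ} {u : ℍ[ℚ]} (hu : Ad n x u) :
    ∑ i, gv n (F Oo (Jv (v5 (t11 i)))) (actc (h11 i) x) =
      (22 : ℂ) ^ k * lam * gv n (F Oo (Jv (v5 0))) x := by
  have h1 := he Oo (Jv (v5 0)) u (pair_Jv 0) (gen_iff.2 hu.1)
  unfold heckeC at h1
  have h2 : {J : AddSubgroup ℍ[ℚ] | IsRI J ∧ lm (11 : ℕ) Oo < J ∧ J < Oo} = Sp 11 Oo := rfl
  rw [h2, Sp11_eq, finsum_mem_range (fun i j h => inj11 h), finsum_eq_sum_of_fintype] at h1
  have h3 := congrArg (fun P => vl P x) h1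
  simp only [vl_sum, vl_smul] at h3
  rw [gv_eq (form5_fu hF (pair_Jv 0)) hu, mul_assoc, ← h3, Finset.mul_sum]
  apply Finset.sum_congr rfl
  intro i _
  have hJ : lm (q11 i) Oo ∈ Sp 11 Oo := by rw [Sp11_eq]; exact ⟨i, rfl⟩
  rw [hecke_term5 hF (q11_mem i) (q11_norm i) (by norm_num) (by norm_num) (by norm_num) hJ
    (q11_q2 i) (ok11 i) hu.1]
  have hg := GO_of_norm (q11_mem i) (q11_norm i) (by norm_num)
  have hw := hg.star.mul hu.1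
  have hh : GO (qc (h11 i)) := GO_int (by rw [h11_norm]; norm_num)
  have e1 : ((2 : ℤ) : ℚ) • (star (q11 i) * u) = ep * (star (qc (h11 i)) * u) := by
    unfold q11
    rw [star_mul, ep_inv]
    have : ((2 : ℤ) : ℚ) • star (mk4 (1 / 2) (-(1 / 2)) 0 0) = ep := by
      unfold ep
      apply ext4 <;> simp
    rw [← smul_mul_assoc, ← smul_mul_assoc, this, mul_assoc]
  have e2 : rm ep (Jv (v5 (u11 i))) = lm ep (Jv (v5 (t11 i))) := by
    apply rm_ep_Jv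
    rw [tu11]
    rw [ep_inv]
    unfold pq ep
    apply ext4
    · simp [re_mul, imI_mul, imJ_mul, imK_mul]
    · simp [re_mul, imI_mul, imJ_mul, imK_mul]; ring
    · simp [re_mul, imI_mul, imJ_mul, imK_mul]; ring
    · simp [re_mul, imI_mul, imJ_mul, imK_mul]; ring
  rw [← (form5_fu hF (pair_Jv (u11 i))).scal hw (a := 2) (by norm_num), e1,
    form5_ep hF (pair_Jv _) (pair_Jv _) e2 (hh.star.mul hu.1), rC_mul hg.ne ep_ne]
  have e3 : q11 i * ep = qc (h11 i) := by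
    unfold q11
    rw [mul_assoc, inv_mul_cancel₀ ep_ne, mul_one]
  rw [e3]
  have h4 := term_eval hF (t11 i) hu (c := h11 i) (N := 22) (h11_norm i) (by norm_num)
  rw [← h4]
  norm_cast

/-- the sum over the six ideals -/
theorem gv_tr (hF : IsForm5 n k F) {x : Fin 3 → ℤ} (hx : ∃ u, Ad n x u) :
    ∑ i, gv n (F Oo (Jv (v5 i))) x = 0 := by
  obtain ⟨u, hu⟩ := hx
  have h1 := hF.tr Oo u Oo_isRI
  have h2 : {I' : AddSubgroup ℍ[ℚ] | IsPair 5 Oo I'} = Sp 5 Oo := by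
    ext I'
    exact ⟨fun h => (isPair_iff.1 h).2, fun h => isPair_iff.2 ⟨Oo_isRI, h⟩⟩
  rw [h2, Sp5_eq, finsum_mem_range (fun i j h => inj5 h), finsum_eq_sum_of_fintype] at h1
  have h3 := congrArg (fun P => vl P x) h1
  simp only [vl_sum] at h3
  have hz : vl (0 : MvPolynomial (Fin 3) ℂ) x = 0 := by
    unfold vl
    rw [map_zero]
  rw [hz] at h3
  rw [← h3]
  apply Finset.sum_congr rfl
  intro i _
  rw [gv_eq (form5_fu hF (pair_Jv i)) hu]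
  rfl

end

end Pool.Agent.Helper725_HQ.E5
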