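import Pool.Agent.Helper725_HQ.FHk
import Pool.Agent.Helper725_HQ.CVal
import Pool.Agent.Helper725_HQ.EY

/-! The operators in level five on the functions on the residue disc. -/

set_option autoImplicit false
set_option linter.unusedVariables false
set_option linter.unusedSimpArgs false

namespace Pool.Agent.Helper725_HQ.E5

open Quaternion MvPolynomial

theorem pq_inj {x y : Fin 3 → ℤ} (h : pq x = pq y) : x = y := by
  have h1 := congrArg QuaternionAlgebra.imI h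
  have h2 := congrArg QuaternionAlgebra.imJ h
  have h3 := congrArg QuaternionAlgebra.imK h
  simp only [pq, mk4_imI, mk4_imJ, mk4_imK] at h1 h2 h3
  funext i
  fin_cases i
  · exact_mod_cast h1
  · exact_mod_cast h2
  · exact_mod_cast h3

theorem actc_mq (c d : Fin 4 → ℤ) (x : Fin 3 → ℤ) : actc (mq c d) x = actc d (actc c x) := by
  apply pq_inj
  rw [pq_actc, pq_actc, pq_actc, ← qc_mul, star_mul]
  simp only [mul_assoc]

theorem Go_tc {c : Fin 4 → ℤ} (h : Go c) : ∃ v : Fin 3 → ℤ, c = tc (c 0) v ∧ ¬ (3 : ℤ) ∣ c 0 := by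
  obtain ⟨h0, h1, h2, h3⟩ := h
  obtain ⟨a, ha⟩ := Int.dvd_of_emod_eq_zero h1
  obtain ⟨b, hb⟩ := Int.dvd_of_emod_eq_zero h2
  obtain ⟨d, hd⟩ := Int.dvd_of_emod_eq_zero h3
  refine ⟨![a, b, d], ?_, fun h => h0 (Int.emod_eq_zero_of_dvd h)⟩
  funext i
  fin_cases i
  · rfl
  · exact ha
  · exact hb
  · exact hd

theorem actc_XX {c : Fin 4 → ℤ} (h : Go c) {x : Fin 3 → ℤ} (hx : x ∈ XX) : actc c x ∈ XX := by
  obtain ⟨v, hv, h3⟩ := Go_tc h
  rw [hv, actc_tc]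
  exact acta_XX h3 hx

theorem actc_smul2 (c : Fin 4 → ℤ) (s : ℤ) (x : Fin 3 → ℤ) :
    actc (fun i => s * c i) x = fun i => s * s * actc c x i := by
  funext i
  unfold actc
  rw [Fin.sum_univ_three, Fin.sum_univ_three]
  fin_cases i <;> (simp [rotZ]; ring)

theorem actc_smul (c : Fin 4 → ℤ) (s : ℤ) (x : Fin 3 → ℤ) :
    actc c (fun i => s * x i) = fun i => s * actc c x i := by
  funext i
  unfold actc
  rw [Fin.sum_univ_three, Fin.sum_univ_three]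
  ring

section
variable {N : ℕ}

theorem zq_conj (c : Fin 4 → ℤ) (x : Fin 3 → ℤ) :
    zq N (cj4 c) * imz N x * zq N c = imz N (actc c x) := by
  unfold zq imz actc cj4
  apply Quaternion.ext
  · simp [Fin.sum_univ_three, rotZ]; ring
  · simp [Fin.sum_univ_three, rotZ]; ring
  · simp [Fin.sum_univ_three, rotZ]; ring
  · simp [Fin.sum_univ_three, rotZ]; ring

theorem zq_cj (c : Fin 4 → ℤ) : zq N c * zq N (cj4 c) =
    ((c 0 * c 0 + c 1 * c 1 + c 2 * c 2 + c 3 * c 3 : ℤ) : Zn N) • 1 := by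
  unfold zq cj4
  apply Quaternion.ext
  · simp
  · simp; ring
  · simp; ring
  · simp; ring

theorem uz_conj {c : Fin 4 → ℤ} (h : Go c) (x : Fin 3 → ℤ) :
    ∃ t : (Zn N)ˣ, (((uz N c)⁻¹ : (Hn N)ˣ) : Hn N) * imz N x * ((uz N c : (Hn N)ˣ) : Hn N) =
      (t : Zn N) • imz N (actc c x) := by
  have hn : (c 0 * c 0 + c 1 * c 1 + c 2 * c 2 + c 3 * c 3) % 3 ≠ 0 := by
    obtain ⟨h0, h1, h2, h3⟩ := h
    have e0 : c 0 % 3 = 1 ∨ c 0 % 3 = 2 := by omega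
    rw [Int.add_emod, Int.add_emod (c 0 * c 0 + c 1 * c 1), Int.add_emod (c 0 * c 0),
      Int.mul_emod, Int.mul_emod (c 1), Int.mul_emod (c 2), Int.mul_emod (c 3), h1, h2, h3]
    rcases e0 with e0 | e0 <;> rw [e0] <;> norm_num
  obtain ⟨t, ht⟩ := int_unit (N := N) hn
  have hinv : (((uz N c)⁻¹ : (Hn N)ˣ) : Hn N) = ((t⁻¹ : (Zn N)ˣ) : Zn N) • zq N (cj4 c) := by
    apply Units.inv_eq_of_mul_eq_one_right
    rw [mul_smul_comm, uz_val h, zq_cj, ← ht, smul_smul, Units.inv_mul, one_smul]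
  refine ⟨t⁻¹, ?_⟩
  rw [hinv, smul_mul_assoc, smul_mul_assoc, uz_val h, zq_conj]

end

section
variable {N : ℕ} {κ : Type} [Field κ] {g : (Fin 3 → ℤ) → κ}

theorem yz_eval {c : Fin 4 → ℤ} (h : Go c) (hp : Pe N g) (hg : Gd (toFn N g)) {x : Fin 3 → ℤ}
    (hx : x ∈ XX) : (yz (rho (N := N) κ) c) (toFn N g) (imz N x) = g (actc c x) := by
  unfold yz
  rw [rho_apply]
  obtain ⟨t, ht⟩ := uz_conj (N := N) h x
  rw [ht, hg.1, toFn_im hp (actc_XX h hx)]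

theorem yz_Gd {c : Fin 4 → ℤ} (h : Go c) {φ : Fn N κ} (hφ : Gd φ) : Gd (yz (rho (N := N) κ) c φ) :=
  Gd_rho hφ (uz_mem h)

end

/-- the rotation about `j` -/
def rj (x : Fin 3 → ℤ) : Fin 3 → ℤ := ![-x 0, x 1, -x 2]

section
variable {κ : Type}

/-- the six functions -/
def gg (h : (Fin 3 → ℤ) → κ) : Fin 6 → (Fin 3 → ℤ) → κ := ![fun x => h x, fun x => h (rj x),
  fun x => h (cyi 1 x), fun x => h (rj (cyi 1 x)), fun x => h (cyi 2 x), fun x => h (rj (cyi 2 x))]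

variable [Field κ]

/-- the properties of the reductions -/
structure H5 (N : ℕ) (h : (Fin 3 → ℤ) → κ) (l7 l11 l13 : κ) : Prop where
  per : ∀ x ∈ X3, ∀ y ∈ X3, (∀ i, ((3 ^ N : ℕ) : ℤ) ∣ x i - y i) → h x = h y
  sc : ∀ x ∈ X3, ∀ s : ℤ, ¬ (3 : ℤ) ∣ s → h (fun i => s * x i) = h x
  fq : ∀ x ∈ X3, h ![x 0, x 2, -x 1] = h x
  fw : ∀ x ∈ X3, h (rj x) = h (act (v5 1) x)
  tr : ∀ x ∈ X3, ∑ i, gg h i x = 0
  r7 : ∀ x ∈ X3, ∑ i, gg h (t7 i) (actc (tc 1 (v7 i)) x) = l7 * h x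
  r11 : ∀ x ∈ X3, ∑ i, gg h (t11 i) (actc (h11 i) x) = l11 * h x
  r13 : ∀ x ∈ X3, ∑ i, gg h (t13 i) (actc (c13 i) x) = l13 * h x

variable {N : ℕ} {h : (Fin 3 → ℤ) → κ} {l7 l11 l13 : κ}

theorem cyi_smul (k : Fin 3) (s : ℤ) (x : Fin 3 → ℤ) :
    cyi k (fun i => s * x i) = fun i => s * cyi k x i := by
  fin_cases k <;> (funext i; fin_cases i <;> rfl)

theorem rj_smul (s : ℤ) (x : Fin 3 → ℤ) : rj (fun i => s * x i) = fun i => s * rj x i := by
  funext i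
  fin_cases i
  · show -(s * x 0) = s * -x 0; ring
  · rfl
  · show -(s * x 2) = s * -x 2; ring

theorem rj_X3 {x : Fin 3 → ℤ} (hx : x ∈ X3) : rj x ∈ X3 := by
  show ((-x 0) ^ 2 + (x 1) ^ 2 + (-x 2) ^ 2) % 3 = 1
  have h : (x 0 ^ 2 + x 1 ^ 2 + x 2 ^ 2) % 3 = 1 := hx
  rw [← h]; congr 1; ring

theorem gg_sc (H : H5 N h l7 l11 l13) (j : Fin 6) {x : Fin 3 → ℤ} (hx : x ∈ X3) {s : ℤ}
    (hs : ¬ (3 : ℤ) ∣ s) : gg h j (fun i => s * x i) = gg h j x := by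
  fin_cases j
  · exact H.sc x hx s hs
  · show h (rj _) = h (rj x)
    rw [rj_smul]; exact H.sc _ (rj_X3 hx) s hs
  · show h (cyi 1 _) = h (cyi 1 x)
    rw [cyi_smul]; exact H.sc _ (cyi_X3 1 hx) s hs
  · show h (rj (cyi 1 _)) = h (rj (cyi 1 x))
    rw [cyi_smul, rj_smul]; exact H.sc _ (rj_X3 (cyi_X3 1 hx)) s hs
  · show h (cyi 2 _) = h (cyi 2 x)
    rw [cyi_smul]; exact H.sc _ (cyi_X3 2 hx) s hs
  · show h (rj (cyi 2 _)) = h (rj (cyi 2 x))
    rw [cyi_smul, rj_smul]; exact H.sc _ (rj_X3 (cyi_X3 2 hx)) s hs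

/-- the indices with a positive sign -/
def ev6 : Fin 3 → Fin 6 := ![0, 2, 4]
/-- the indices with a negative sign -/
def od6 : Fin 3 → Fin 6 := ![1, 3, 5]

theorem cyi_actc (k : Fin 3) (x : Fin 3 → ℤ) :
    actc (Mv 0) (cyi k x) = cyi k (actc (Mv k) x) := by
  fin_cases k
  · rfl
  · funext i
    show actc (Mv 0) (cyi 1 x) i = cyi 1 (actc (Mv 1) x) i
    fin_cases i
    · show actc (Mv 0) ![x 1, x 2, x 0] 0 = actc (Mv 1) x 1
      unfold actc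
      rw [Fin.sum_univ_three, Fin.sum_univ_three]
      simp [rotZ, Mv]
    · show actc (Mv 0) ![x 1, x 2, x 0] 1 = actc (Mv 1) x 2
      unfold actc
      rw [Fin.sum_univ_three, Fin.sum_univ_three]
      simp [rotZ, Mv]; ring
    · show actc (Mv 0) ![x 1, x 2, x 0] 2 = actc (Mv 1) x 0
      unfold actc
      rw [Fin.sum_univ_three, Fin.sum_univ_three]
      simp [rotZ, Mv]; ring
  · funext i
    show actc (Mv 0) (cyi 2 x) i = cyi 2 (actc (Mv 2) x) i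
    fin_cases i
    · show actc (Mv 0) ![x 2, x 0, x 1] 0 = actc (Mv 2) x 2
      unfold actc
      rw [Fin.sum_univ_three, Fin.sum_univ_three]
      simp [rotZ, Mv]
    · show actc (Mv 0) ![x 2, x 0, x 1] 1 = actc (Mv 2) x 0
      unfold actc
      rw [Fin.sum_univ_three, Fin.sum_univ_three]
      simp [rotZ, Mv]
    · show actc (Mv 0) ![x 2, x 0, x 1] 2 = actc (Mv 2) x 1
      unfold actc
      rw [Fin.sum_univ_three, Fin.sum_univ_three]
      simp [rotZ, Mv]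

theorem act_Mv (x : Fin 3 → ℤ) : act (v5 1) x = actc (Mv 0) x := by
  have e : tc 1 (v5 1) = Mv 0 := by decide
  rw [← e]; rfl

theorem gg_ev (k : Fin 3) (x : Fin 3 → ℤ) : gg h (ev6 k) x = h (cyi k x) := by
  fin_cases k <;> rfl

theorem gg_od (H : H5 N h l7 l11 l13) (k : Fin 3) {x : Fin 3 → ℤ} (hx : x ∈ X3) :
    gg h (od6 k) x = h (cyi k (actc (Mv k) x)) := by
  have e : gg h (od6 k) x = h (rj (cyi k x)) := by fin_cases k <;> rfl
  rw [e, H.fw _ (cyi_X3 k hx), act_Mv, cyi_actc]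

theorem gg_odc (H : H5 N h l7 l11 l13) (k : Fin 3) {c : Fin 4 → ℤ} {x : Fin 3 → ℤ}
    (hc : actc c x ∈ X3) : gg h (od6 k) (actc c x) = h (cyi k (actc (mq c (Mv k)) x)) := by
  rw [gg_od H k hc, actc_mq]

end

end Pool.Agent.Helper725_HQ.E5
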