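import Pool.Agent.Helper725_HQ.FRed

/-! The relations between the three functions in level five. -/

set_option autoImplicit false
set_option linter.unusedVariables false
set_option linter.unusedSimpArgs false

namespace Pool.Agent.Helper725_HQ.E5

open Quaternion MvPolynomial

theorem sum12 {M : Type*} [AddCommMonoid M] (f : Fin 12 → M) : ∑ i, f i = f 0 + f 1 + f 2 + f 3 +
    f 4 + f 5 + f 6 + f 7 + f 8 + f 9 + f 10 + f 11 := by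
  rw [Fin.sum_univ_castSucc, Fin.sum_univ_castSucc, Fin.sum_univ_castSucc, Fin.sum_univ_castSucc,
    Fin.sum_univ_eight]
  rfl

theorem sum14' {M : Type*} [AddCommMonoid M] (f : Fin 14 → M) : ∑ i, f i = f 0 + f 1 + f 2 + f 3 +
    f 4 + f 5 + f 6 + f 7 + f 8 + f 9 + f 10 + f 11 + f 12 + f 13 := by
  rw [Fin.sum_univ_castSucc, Fin.sum_univ_castSucc, Fin.sum_univ_castSucc, Fin.sum_univ_castSucc,
    Fin.sum_univ_castSucc, Fin.sum_univ_castSucc, Fin.sum_univ_eight]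
  rfl

section
variable {κ : Type} [Field κ] {N : ℕ} {h : (Fin 3 → ℤ) → κ} {l7 l11 l13 : κ}

theorem aX3 {c : Fin 4 → ℤ} (hc : (c 0 ^ 2 + c 1 ^ 2 + c 2 ^ 2 + c 3 ^ 2) % 3 = 1) {y : Fin 3 → ℤ}
    (hy : y ∈ X3) : actc c y ∈ X3 := actc_X3 rfl hc hy

theorem sc4 (H : H5 N h l7 l11 l13) (j : Fin 6) {c : Fin 4 → ℤ}
    (hc : (c 0 ^ 2 + c 1 ^ 2 + c 2 ^ 2 + c 3 ^ 2) % 3 = 1) {y : Fin 3 → ℤ} (hy : y ∈ X3) :
    gg h j (actc (fun l => 2 * c l) y) = gg h j (actc c y) := by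
  rw [actc_smul2, gg_sc H j (aX3 hc hy) (by norm_num)]

theorem rel7 (H : H5 N h l7 l11 l13) {y : Fin 3 → ℤ} (hy : y ∈ X3) :
    (h (cyi 0 (actc (mq ![1, 3, 3, 3] (Mv 0)) y)) + h (cyi 0 (actc (mq ![1, 3, 3, -3] (Mv 0)) y)) + h (cyi 0 (actc (mq ![1, 3, -3, 3] (Mv 0)) y)) + h (cyi 0 (actc (mq ![1, 3, -3, -3] (Mv 0)) y))) +
      (h (cyi 1 (actc ![1, -3, 3, -3] y)) + h (cyi 1 (actc (mq ![1, -3, -3, 3] (Mv 1)) y))) +
      (h (cyi 2 (actc ![1, -3, 3, 3] y)) + h (cyi 2 (actc (mq ![1, -3, -3, -3] (Mv 2)) y))) = l7 * h y := by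
  have H0 := H.r7 y hy
  rw [Fin.sum_univ_eight] at H0
  have f0 : gg h (t7 0) (actc (tc 1 (v7 0)) y) = h (cyi 0 (actc (mq ![1, 3, 3, 3] (Mv 0)) y)) := by
    have e : tc 1 (v7 0) = ![1, 3, 3, 3] := by decide
    rw [e]
    exact gg_odc H 0 (c := ![1, 3, 3, 3]) (aX3 (by decide) hy)
  have f1 : gg h (t7 1) (actc (tc 1 (v7 1)) y) = h (cyi 2 (actc (mq ![1, -3, -3, -3] (Mv 2)) y)) := by
    have e : tc 1 (v7 1) = ![1, -3, -3, -3] := by decide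
    rw [e]
    exact gg_odc H 2 (c := ![1, -3, -3, -3]) (aX3 (by decide) hy)
  have f2 : gg h (t7 2) (actc (tc 1 (v7 2)) y) = h (cyi 0 (actc (mq ![1, 3, 3, -3] (Mv 0)) y)) := by
    have e : tc 1 (v7 2) = ![1, 3, 3, -3] := by decide
    rw [e]
    exact gg_odc H 0 (c := ![1, 3, 3, -3]) (aX3 (by decide) hy)
  have f3 : gg h (t7 3) (actc (tc 1 (v7 3)) y) = h (cyi 1 (actc (mq ![1, -3, -3, 3] (Mv 1)) y)) := by
    have e : tc 1 (v7 3) = ![1, -3, -3, 3] := by decide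
    rw [e]
    exact gg_odc H 1 (c := ![1, -3, -3, 3]) (aX3 (by decide) hy)
  have f4 : gg h (t7 4) (actc (tc 1 (v7 4)) y) = h (cyi 0 (actc (mq ![1, 3, -3, 3] (Mv 0)) y)) := by
    have e : tc 1 (v7 4) = ![1, 3, -3, 3] := by decide
    rw [e]
    exact gg_odc H 0 (c := ![1, 3, -3, 3]) (aX3 (by decide) hy)
  have f5 : gg h (t7 5) (actc (tc 1 (v7 5)) y) = h (cyi 1 (actc ![1, -3, 3, -3] y)) := by
    have e : tc 1 (v7 5) = ![1, -3, 3, -3] := by decide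
    rw [e]
    exact gg_ev 1 _
  have f6 : gg h (t7 6) (actc (tc 1 (v7 6)) y) = h (cyi 0 (actc (mq ![1, 3, -3, -3] (Mv 0)) y)) := by
    have e : tc 1 (v7 6) = ![1, 3, -3, -3] := by decide
    rw [e]
    exact gg_odc H 0 (c := ![1, 3, -3, -3]) (aX3 (by decide) hy)
  have f7 : gg h (t7 7) (actc (tc 1 (v7 7)) y) = h (cyi 2 (actc ![1, -3, 3, 3] y)) := by
    have e : tc 1 (v7 7) = ![1, -3, 3, 3] := by decide
    rw [e]
    exact gg_ev 2 _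
  rw [f0, f1, f2, f3, f4, f5, f6, f7] at H0
  rw [← H0]
  ring

theorem rel11 (H : H5 N h l7 l11 l13) {y : Fin 3 → ℤ} (hy : y ∈ X3) :
    (h (cyi 1 (actc (mq ![2, 3, 3, 0] (Mv 1)) y)) + h (cyi 1 (actc ![2, 3, -3, 0] y)) + h (cyi 1 (actc ![2, 0, 3, -3] y)) + h (cyi 1 (actc (mq ![2, 0, -3, 3] (Mv 1)) y)) + h (cyi 1 (actc (mq ![2, -3, 0, 3] (Mv 1)) y)) + h (cyi 1 (actc ![2, -3, 0, -3] y))) +
      (h (cyi 2 (actc (mq ![2, 3, 0, 3] (Mv 2)) y)) + h (cyi 2 (actc ![2, 3, 0, -3] y)) + h (cyi 2 (actc ![2, 0, 3, 3] y)) + h (cyi 2 (actc (mq ![2, 0, -3, -3] (Mv 2)) y)) + h (cyi 2 (actc ![2, -3, 3, 0] y)) + h (cyi 2 (actc (mq ![2, -3, -3, 0] (Mv 2)) y))) = l11 * h y := by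
  have H0 := H.r11 y hy
  rw [sum12] at H0
  have f0 : gg h (t11 0) (actc (h11 0) y) = h (cyi 1 (actc (mq ![2, 3, 3, 0] (Mv 1)) y)) := by
    exact gg_odc H 1 (c := ![2, 3, 3, 0]) (aX3 (by decide) hy)
  have f1 : gg h (t11 1) (actc (h11 1) y) = h (cyi 1 (actc ![2, 3, -3, 0] y)) := by
    exact gg_ev 1 _
  have f2 : gg h (t11 2) (actc (h11 2) y) = h (cyi 1 (actc ![2, 0, 3, -3] y)) := by
    exact gg_ev 1 _
  have f3 : gg h (t11 3) (actc (h11 3) y) = h (cyi 1 (actc (mq ![2, 0, -3, 3] (Mv 1)) y)) := by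
    exact gg_odc H 1 (c := ![2, 0, -3, 3]) (aX3 (by decide) hy)
  have f4 : gg h (t11 4) (actc (h11 4) y) = h (cyi 1 (actc (mq ![2, -3, 0, 3] (Mv 1)) y)) := by
    exact gg_odc H 1 (c := ![2, -3, 0, 3]) (aX3 (by decide) hy)
  have f5 : gg h (t11 5) (actc (h11 5) y) = h (cyi 1 (actc ![2, -3, 0, -3] y)) := by
    exact gg_ev 1 _
  have f6 : gg h (t11 6) (actc (h11 6) y) = h (cyi 2 (actc (mq ![2, 3, 0, 3] (Mv 2)) y)) := by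
    exact gg_odc H 2 (c := ![2, 3, 0, 3]) (aX3 (by decide) hy)
  have f7 : gg h (t11 7) (actc (h11 7) y) = h (cyi 2 (actc ![2, 3, 0, -3] y)) := by
    exact gg_ev 2 _
  have f8 : gg h (t11 8) (actc (h11 8) y) = h (cyi 2 (actc ![2, 0, 3, 3] y)) := by
    exact gg_ev 2 _
  have f9 : gg h (t11 9) (actc (h11 9) y) = h (cyi 2 (actc (mq ![2, 0, -3, -3] (Mv 2)) y)) := by
    exact gg_odc H 2 (c := ![2, 0, -3, -3]) (aX3 (by decide) hy)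
  have f10 : gg h (t11 10) (actc (h11 10) y) = h (cyi 2 (actc ![2, -3, 3, 0] y)) := by
    exact gg_ev 2 _
  have f11 : gg h (t11 11) (actc (h11 11) y) = h (cyi 2 (actc (mq ![2, -3, -3, 0] (Mv 2)) y)) := by
    exact gg_odc H 2 (c := ![2, -3, -3, 0]) (aX3 (by decide) hy)
  rw [f0, f1, f2, f3, f4, f5, f6, f7, f8, f9, f10, f11] at H0
  rw [← H0]
  ring

theorem rel13 (H : H5 N h l7 l11 l13) {y : Fin 3 → ℤ} (hy : y ∈ X3) :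
    (h (cyi 0 (actc ![2, 3, 0, 0] y)) + h (cyi 0 (actc ![2, -3, 0, 0] y))) +
      (h (cyi 1 (actc ![2, 0, 0, 3] y)) + h (cyi 1 (actc (mq ![2, 0, 0, -3] (Mv 1)) y)) + h (cyi 1 (actc (mq ![5, 3, 3, 3] (Mv 1)) y)) + h (cyi 1 (actc ![5, 3, -3, -3] y)) + h (cyi 1 (actc ![5, -3, 3, 3] y)) + h (cyi 1 (actc (mq ![5, -3, -3, -3] (Mv 1)) y))) +
      (h (cyi 2 (actc (mq ![2, 0, 3, 0] (Mv 2)) y)) + h (cyi 2 (actc ![2, 0, -3, 0] y)) + h (cyi 2 (actc ![5, 3, 3, -3] y)) + h (cyi 2 (actc (mq ![5, 3, -3, 3] (Mv 2)) y)) + h (cyi 2 (actc (mq ![5, -3, 3, -3] (Mv 2)) y)) + h (cyi 2 (actc ![5, -3, -3, 3] y))) = l13 * h y := by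
  have H0 := H.r13 y hy
  rw [sum14'] at H0
  have f0 : gg h (t13 0) (actc (c13 0) y) = h (cyi 0 (actc ![2, 3, 0, 0] y)) := by
    have e : c13 0 = fun l => 2 * (![2, 3, 0, 0] : Fin 4 → ℤ) l := by decide
    rw [e, sc4 H _ (by decide) hy]
    exact gg_ev 0 _
  have f1 : gg h (t13 1) (actc (c13 1) y) = h (cyi 0 (actc ![2, -3, 0, 0] y)) := by
    have e : c13 1 = fun l => 2 * (![2, -3, 0, 0] : Fin 4 → ℤ) l := by decide
    rw [e, sc4 H _ (by decide) hy]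
    exact gg_ev 0 _
  have f2 : gg h (t13 2) (actc (c13 2) y) = h (cyi 2 (actc (mq ![2, 0, 3, 0] (Mv 2)) y)) := by
    have e : c13 2 = fun l => 2 * (![2, 0, 3, 0] : Fin 4 → ℤ) l := by decide
    rw [e, sc4 H _ (by decide) hy]
    exact gg_odc H 2 (c := ![2, 0, 3, 0]) (aX3 (by decide) hy)
  have f3 : gg h (t13 3) (actc (c13 3) y) = h (cyi 2 (actc ![2, 0, -3, 0] y)) := by
    have e : c13 3 = fun l => 2 * (![2, 0, -3, 0] : Fin 4 → ℤ) l := by decide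
    rw [e, sc4 H _ (by decide) hy]
    exact gg_ev 2 _
  have f4 : gg h (t13 4) (actc (c13 4) y) = h (cyi 1 (actc ![2, 0, 0, 3] y)) := by
    have e : c13 4 = fun l => 2 * (![2, 0, 0, 3] : Fin 4 → ℤ) l := by decide
    rw [e, sc4 H _ (by decide) hy]
    exact gg_ev 1 _
  have f5 : gg h (t13 5) (actc (c13 5) y) = h (cyi 1 (actc (mq ![2, 0, 0, -3] (Mv 1)) y)) := by
    have e : c13 5 = fun l => 2 * (![2, 0, 0, -3] : Fin 4 → ℤ) l := by decide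
    rw [e, sc4 H _ (by decide) hy]
    exact gg_odc H 1 (c := ![2, 0, 0, -3]) (aX3 (by decide) hy)
  have f6 : gg h (t13 6) (actc (c13 6) y) = h (cyi 1 (actc (mq ![5, 3, 3, 3] (Mv 1)) y)) := by
    exact gg_odc H 1 (c := ![5, 3, 3, 3]) (aX3 (by decide) hy)
  have f7 : gg h (t13 7) (actc (c13 7) y) = h (cyi 1 (actc (mq ![5, -3, -3, -3] (Mv 1)) y)) := by
    exact gg_odc H 1 (c := ![5, -3, -3, -3]) (aX3 (by decide) hy)
  have f8 : gg h (t13 8) (actc (c13 8) y) = h (cyi 2 (actc ![5, 3, 3, -3] y)) := by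
    exact gg_ev 2 _
  have f9 : gg h (t13 9) (actc (c13 9) y) = h (cyi 2 (actc ![5, -3, -3, 3] y)) := by
    exact gg_ev 2 _
  have f10 : gg h (t13 10) (actc (c13 10) y) = h (cyi 2 (actc (mq ![5, 3, -3, 3] (Mv 2)) y)) := by
    exact gg_odc H 2 (c := ![5, 3, -3, 3]) (aX3 (by decide) hy)
  have f11 : gg h (t13 11) (actc (c13 11) y) = h (cyi 2 (actc (mq ![5, -3, 3, -3] (Mv 2)) y)) := by
    exact gg_odc H 2 (c := ![5, -3, 3, -3]) (aX3 (by decide) hy)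
  have f12 : gg h (t13 12) (actc (c13 12) y) = h (cyi 1 (actc ![5, 3, -3, -3] y)) := by
    exact gg_ev 1 _
  have f13 : gg h (t13 13) (actc (c13 13) y) = h (cyi 1 (actc ![5, -3, 3, 3] y)) := by
    exact gg_ev 1 _
  rw [f0, f1, f2, f3, f4, f5, f6, f7, f8, f9, f10, f11, f12, f13] at H0
  rw [← H0]
  ring

theorem relt (H : H5 N h l7 l11 l13) {y : Fin 3 → ℤ} (hy : y ∈ X3) :
    (h (cyi 0 y) + h (cyi 0 (actc (Mv 0) y))) + (h (cyi 1 y) + h (cyi 1 (actc (Mv 1) y))) +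
      (h (cyi 2 y) + h (cyi 2 (actc (Mv 2) y))) = 0 := by
  have H0 := H.tr y hy
  rw [Fin.sum_univ_six] at H0
  have e1 : gg h 1 y = _ := gg_od H 0 hy
  have e3 : gg h 3 y = _ := gg_od H 1 hy
  have e5 : gg h 5 y = _ := gg_od H 2 hy
  have e0 : gg h 0 y = h (cyi 0 y) := rfl
  have e2 : gg h 2 y = h (cyi 1 y) := rfl
  have e4 : gg h 4 y = h (cyi 2 y) := rfl
  rw [e0, e1, e2, e3, e4, e5] at H0
  rw [← H0]
  ring

/-- the relations for the operators -/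
theorem Rl_of (H : H5 N h l7 l11 l13) (hN : 1 ≤ N) {ρ : (Hn N)ˣ →* Module.End κ (Fn N κ)}
    {G : Fin 3 → Fn N κ} {τ : (Fin 3 → ℤ) → Fin 3 → ℤ} (hτ : ∀ x ∈ XX, τ x ∈ X3)
    (gd : ∀ c, Go c → ∀ k, Gd (yz ρ c (G k))) (gd0 : ∀ k, Gd (G k))
    (E : ∀ c, Go c → ∀ k, ∀ x ∈ XX, (yz ρ c (G k)) (imz N x) = h (cyi k (actc c (τ x))))
    (E0 : ∀ k, ∀ x ∈ XX, G k (imz N x) = h (cyi k (τ x))) : Rl ρ G l7 l11 l13 := by
  have gz : Gd (0 : Fn N κ) := ⟨fun _ _ => rfl, fun _ _ => rfl⟩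
  refine ⟨?_, ?_, ?_, ?_⟩
  · apply eq_disc (Gd_add (Gd_add (Gd_add (gd0 0) (gd _ (Mv_Go 0) 0))
      (Gd_add (gd0 1) (gd _ (Mv_Go 1) 1))) (Gd_add (gd0 2) (gd _ (Mv_Go 2) 2))) gz
    intro y hy
    obtain ⟨x, hx, rfl⟩ := exists_imz hN hy
    show (G 0 (imz N x) + yz ρ (Mv 0) (G 0) (imz N x)) + (G 1 (imz N x) +
      yz ρ (Mv 1) (G 1) (imz N x)) + (G 2 (imz N x) + yz ρ (Mv 2) (G 2) (imz N x)) = 0
    rw [E0 0 x hx, E0 1 x hx, E0 2 x hx, E _ (Mv_Go 0) 0 x hx, E _ (Mv_Go 1) 1 x hx,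
      E _ (Mv_Go 2) 2 x hx]
    exact relt H (hτ x hx)
  · have gl : Gd (a7_0 ρ (G 0) + a7_1 ρ (G 1) + a7_2 ρ (G 2)) :=
      (Gd_add (Gd_add (Gd_add (Gd_add (Gd_add (gd (mq ![1, 3, 3, 3] (Mv 0)) (by decide) 0) (gd (mq ![1, 3, 3, -3] (Mv 0)) (by decide) 0)) (gd (mq ![1, 3, -3, 3] (Mv 0)) (by decide) 0)) (gd (mq ![1, 3, -3, -3] (Mv 0)) (by decide) 0)) (Gd_add (gd ![1, -3, 3, -3] (by decide) 1) (gd (mq ![1, -3, -3, 3] (Mv 1)) (by decide) 1))) (Gd_add (gd ![1, -3, 3, 3] (by decide) 2) (gd (mq ![1, -3, -3, -3] (Mv 2)) (by decide) 2)))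
    apply eq_disc gl (Gd_smul l7 (gd0 0))
    intro y hy
    obtain ⟨x, hx, rfl⟩ := exists_imz hN hy
    have g0 := E (mq ![1, 3, 3, 3] (Mv 0)) (by decide) 0 x hx
    have g1 := E (mq ![1, 3, 3, -3] (Mv 0)) (by decide) 0 x hx
    have g2 := E (mq ![1, 3, -3, 3] (Mv 0)) (by decide) 0 x hx
    have g3 := E (mq ![1, 3, -3, -3] (Mv 0)) (by decide) 0 x hx
    have g4 := E ![1, -3, 3, -3] (by decide) 1 x hx
    have g5 := E (mq ![1, -3, -3, 3] (Mv 1)) (by decide) 1 x hx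
    have g6 := E ![1, -3, 3, 3] (by decide) 2 x hx
    have g7 := E (mq ![1, -3, -3, -3] (Mv 2)) (by decide) 2 x hx
    show (yz ρ (mq ![1, 3, 3, 3] (Mv 0)) (G 0) (imz N x) + yz ρ (mq ![1, 3, 3, -3] (Mv 0)) (G 0) (imz N x) + yz ρ (mq ![1, 3, -3, 3] (Mv 0)) (G 0) (imz N x) + yz ρ (mq ![1, 3, -3, -3] (Mv 0)) (G 0) (imz N x)) + (yz ρ ![1, -3, 3, -3] (G 1) (imz N x) + yz ρ (mq ![1, -3, -3, 3] (Mv 1)) (G 1) (imz N x)) + (yz ρ ![1, -3, 3, 3] (G 2) (imz N x) + yz ρ (mq ![1, -3, -3, -3] (Mv 2)) (G 2) (imz N x)) = l7 * G 0 (imz N x)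
    rw [g0, g1, g2, g3, g4, g5, g6, g7, E0 0 x hx]
    exact rel7 H (hτ x hx)
  · have gl : Gd (a11_1 ρ (G 1) + a11_2 ρ (G 2)) :=
      (Gd_add (Gd_add (Gd_add (Gd_add (Gd_add (Gd_add (gd (mq ![2, 3, 3, 0] (Mv 1)) (by decide) 1) (gd ![2, 3, -3, 0] (by decide) 1)) (gd ![2, 0, 3, -3] (by decide) 1)) (gd (mq ![2, 0, -3, 3] (Mv 1)) (by decide) 1)) (gd (mq ![2, -3, 0, 3] (Mv 1)) (by decide) 1)) (gd ![2, -3, 0, -3] (by decide) 1)) (Gd_add (Gd_add (Gd_add (Gd_add (Gd_add (gd (mq ![2, 3, 0, 3] (Mv 2)) (by decide) 2) (gd ![2, 3, 0, -3] (by decide) 2)) (gd ![2, 0, 3, 3] (by decide) 2)) (gd (mq ![2, 0, -3, -3] (Mv 2)) (by decide) 2)) (gd ![2, -3, 3, 0] (by decide) 2)) (gd (mq ![2, -3, -3, 0] (Mv 2)) (by decide) 2)))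
    apply eq_disc gl (Gd_smul l11 (gd0 0))
    intro y hy
    obtain ⟨x, hx, rfl⟩ := exists_imz hN hy
    have g0 := E (mq ![2, 3, 3, 0] (Mv 1)) (by decide) 1 x hx
    have g1 := E ![2, 3, -3, 0] (by decide) 1 x hx
    have g2 := E ![2, 0, 3, -3] (by decide) 1 x hx
    have g3 := E (mq ![2, 0, -3, 3] (Mv 1)) (by decide) 1 x hx
    have g4 := E (mq ![2, -3, 0, 3] (Mv 1)) (by decide) 1 x hx
    have g5 := E ![2, -3, 0, -3] (by decide) 1 x hx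
    have g6 := E (mq ![2, 3, 0, 3] (Mv 2)) (by decide) 2 x hx
    have g7 := E ![2, 3, 0, -3] (by decide) 2 x hx
    have g8 := E ![2, 0, 3, 3] (by decide) 2 x hx
    have g9 := E (mq ![2, 0, -3, -3] (Mv 2)) (by decide) 2 x hx
    have g10 := E ![2, -3, 3, 0] (by decide) 2 x hx
    have g11 := E (mq ![2, -3, -3, 0] (Mv 2)) (by decide) 2 x hx
    show (yz ρ (mq ![2, 3, 3, 0] (Mv 1)) (G 1) (imz N x) + yz ρ ![2, 3, -3, 0] (G 1) (imz N x) + yz ρ ![2, 0, 3, -3] (G 1) (imz N x) + yz ρ (mq ![2, 0, -3, 3] (Mv 1)) (G 1) (imz N x) + yz ρ (mq ![2, -3, 0, 3] (Mv 1)) (G 1) (imz N x) + yz ρ ![2, -3, 0, -3] (G 1) (imz N x)) + (yz ρ (mq ![2, 3, 0, 3] (Mv 2)) (G 2) (imz N x) + yz ρ ![2, 3, 0, -3] (G 2) (imz N x) + yz ρ ![2, 0, 3, 3] (G 2) (imz N x) + yz ρ (mq ![2, 0, -3, -3] (Mv 2)) (G 2) (imz N x) + yz ρ ![2, -3, 3, 0] (G 2) (imz N x) + yz ρ (mq ![2, -3,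 -3, 0] (Mv 2)) (G 2) (imz N x)) = l11 * G 0 (imz N x)
    rw [g0, g1, g2, g3, g4, g5, g6, g7, g8, g9, g10, g11, E0 0 x hx]
    exact rel11 H (hτ x hx)
  · have gl : Gd (a13_0 ρ (G 0) + a13_1 ρ (G 1) + a13_2 ρ (G 2)) :=
      (Gd_add (Gd_add (Gd_add (gd ![2, 3, 0, 0] (by decide) 0) (gd ![2, -3, 0, 0] (by decide) 0)) (Gd_add (Gd_add (Gd_add (Gd_add (Gd_add (gd ![2, 0, 0, 3] (by decide) 1) (gd (mq ![2, 0, 0, -3] (Mv 1)) (by decide) 1)) (gd (mq ![5, 3, 3, 3] (Mv 1)) (by decide) 1)) (gd ![5, 3, -3, -3] (by decide) 1)) (gd ![5, -3, 3, 3] (by decide) 1)) (gd (mq ![5, -3, -3, -3] (Mv 1)) (by decide) 1))) (Gd_add (Gd_add (Gd_add (Gd_add (Gd_add (gd (mq ![2, 0, 3, 0] (Mv 2)) (by decide) 2) (gd ![2, 0, -3, 0] (by decide) 2)) (gd ![5, 3, 3, -3] (by decide) 2)) (gd (mq ![5, 3, -3, 3] (Mv 2)) (by decide) 2)) (gd (mq ![5, -3, 3, -3] (Mv 2)) (by decide)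 2)) (gd ![5, -3, -3, 3] (by decide) 2)))
    apply eq_disc gl (Gd_smul l13 (gd0 0))
    intro y hy
    obtain ⟨x, hx, rfl⟩ := exists_imz hN hy
    have g0 := E ![2, 3, 0, 0] (by decide) 0 x hx
    have g1 := E ![2, -3, 0, 0] (by decide) 0 x hx
    have g2 := E ![2, 0, 0, 3] (by decide) 1 x hx
    have g3 := E (mq ![2, 0, 0, -3] (Mv 1)) (by decide) 1 x hx
    have g4 := E (mq ![5, 3, 3, 3] (Mv 1)) (by decide) 1 x hx
    have g5 := E ![5, 3, -3, -3] (by decide) 1 x hx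
    have g6 := E ![5, -3, 3, 3] (by decide) 1 x hx
    have g7 := E (mq ![5, -3, -3, -3] (Mv 1)) (by decide) 1 x hx
    have g8 := E (mq ![2, 0, 3, 0] (Mv 2)) (by decide) 2 x hx
    have g9 := E ![2, 0, -3, 0] (by decide) 2 x hx
    have g10 := E ![5, 3, 3, -3] (by decide) 2 x hx
    have g11 := E (mq ![5, 3, -3, 3] (Mv 2)) (by decide) 2 x hx
    have g12 := E (mq ![5, -3, 3, -3] (Mv 2)) (by decide) 2 x hx
    have g13 := E ![5, -3, -3, 3] (by decide) 2 x hx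
    show (yz ρ ![2, 3, 0, 0] (G 0) (imz N x) + yz ρ ![2, -3, 0, 0] (G 0) (imz N x)) + (yz ρ ![2, 0, 0, 3] (G 1) (imz N x) + yz ρ (mq ![2, 0, 0, -3] (Mv 1)) (G 1) (imz N x) + yz ρ (mq ![5, 3, 3, 3] (Mv 1)) (G 1) (imz N x) + yz ρ ![5, 3, -3, -3] (G 1) (imz N x) + yz ρ ![5, -3, 3, 3] (G 1) (imz N x) + yz ρ (mq ![5, -3, -3, -3] (Mv 1)) (G 1) (imz N x)) + (yz ρ (mq ![2, 0, 3, 0] (Mv 2)) (G 2) (imz N x) + yz ρ ![2, 0, -3, 0] (G 2) (imz N x) + yz ρ ![5, 3, 3, -3] (G 2) (imz N x) + yz ρ (mq ![5, 3, -3, 3] (Mv 2)) (G 2) (imz N x) + yz ρ (mq ![5, -3, 3, -3] (Mv 2)) (G 2) (imz N x) + yz ρ ![5, -3, -3, 3] (G 2) (imz N x)) = l13 * G 0 (imz N x)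
    rw [g0, g1, g2, g3, g4, g5, g6, g7, g8, g9, g10, g11, g12, g13, E0 0 x hx]
    exact rel13 H (hτ x hx)

end

end Pool.Agent.Helper725_HQ.E5
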