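import Pool.Agent.Helper725_HQ.CHk
import Pool.Agent.Helper725_HQ.EZ

/-! The right ideals of norm eleven. -/

set_option autoImplicit false
set_option linter.unusedVariables false
set_option linter.unusedSimpArgs false

namespace Pool.Agent.Helper725_HQ.E5

open Quaternion MvPolynomial

/-- the elements of norm twenty-two -/
def h11 : Fin 12 → Fin 4 → ℤ := ![![2, 3, 3, 0], ![2, 3, -3, 0], ![2, 0, 3, -3], ![2, 0, -3, 3],
  ![2, -3, 0, 3], ![2, -3, 0, -3], ![2, 3, 0, 3], ![2, 3, 0, -3], ![2, 0, 3, 3], ![2, 0, -3, -3],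
  ![2, -3, 3, 0], ![2, -3, -3, 0]]

/-- the generators of the ideals of norm eleven -/
noncomputable def q11 (i : Fin 12) : ℍ[ℚ] := qc (h11 i) * ep⁻¹

theorem h11_norm : ∀ i, h11 i 0 ^ 2 + h11 i 1 ^ 2 + h11 i 2 ^ 2 + h11 i 3 ^ 2 = 22 := by decide

theorem h11_sep : ∀ i j, i ≠ j → ¬ (22 : ℤ) ∣ (h11 j 0 - h11 i 0) ^ 2 + (h11 j 1 - h11 i 1) ^ 2 +
    (h11 j 2 - h11 i 2) ^ 2 + (h11 j 3 - h11 i 3) ^ 2 := by decide

theorem qc_h11_norm (i : Fin 12) : normSq (qc (h11 i)) = 22 := by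
  rw [qc_norm, h11_norm]; norm_num

theorem q11_norm (i : Fin 12) : normSq (q11 i) = ((11 : ℕ) : ℚ) := by
  unfold q11
  rw [map_mul, qc_h11_norm, map_inv₀, normSq_ep]; norm_num

theorem qc_h11_ne (i : Fin 12) : qc (h11 i) ≠ 0 := by
  rw [← normSq_ne_zero, qc_h11_norm]; norm_num

/-- products of integral quaternions -/
theorem qc_mul (c d : Fin 4 → ℤ) : qc c * qc d = qc (mq c d) := by
  unfold qc mq
  apply ext4
  · simp [re_mul]
  · simp [imI_mul]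
  · simp [imJ_mul]
  · simp [imK_mul]

theorem ep_inv_qc : ep⁻¹ = (1 / 2 : ℚ) • qc ![1, -1, 0, 0] := by
  rw [ep_inv]
  unfold qc
  apply ext4 <;> simp

theorem q11_q2 (i : Fin 12) : q11 i = q2 (mq (h11 i) ![1, -1, 0, 0]) := by
  unfold q11
  rw [ep_inv_qc, mul_smul_comm, qc_mul]
  unfold qc q2
  apply ext4 <;> simp <;> ring

theorem q2_Hur {c : Fin 4 → ℤ} (h1 : (c 1 - c 0) % 2 = 0) (h2 : (c 2 - c 0) % 2 = 0)
    (h3 : (c 3 - c 0) % 2 = 0) : q2 c ∈ Hur := by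
  obtain ⟨x, hx⟩ : ∃ b, c 1 = c 0 + 2 * b := ⟨(c 1 - c 0) / 2, by omega⟩
  obtain ⟨y, hy⟩ : ∃ b, c 2 = c 0 + 2 * b := ⟨(c 2 - c 0) / 2, by omega⟩
  obtain ⟨z, hz⟩ : ∃ b, c 3 = c 0 + 2 * b := ⟨(c 3 - c 0) / 2, by omega⟩
  refine ⟨c 0, x, y, z, ?_, ?_, ?_, ?_⟩
  · simp [q2]
  · simp [q2, hx]; ring
  · simp [q2, hy]; ring
  · simp [q2, hz]; ring

theorem b11_par : ∀ i, (mq (h11 i) ![1, -1, 0, 0] 1 - mq (h11 i) ![1, -1, 0, 0] 0) % 2 = 0 ∧
    (mq (h11 i) ![1, -1, 0, 0] 2 - mq (h11 i) ![1, -1, 0, 0] 0) % 2 = 0 ∧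
    (mq (h11 i) ![1, -1, 0, 0] 3 - mq (h11 i) ![1, -1, 0, 0] 0) % 2 = 0 := by decide

theorem q11_mem (i : Fin 12) : q11 i ∈ Hur := by
  rw [q11_q2]
  obtain ⟨h1, h2, h3⟩ := b11_par i
  exact q2_Hur h1 h2 h3

theorem h11_all {b c d : ℤ} (h : b ^ 2 + c ^ 2 + d ^ 2 = 2) :
    ∃ i, h11 i = ![2, 3 * b, 3 * c, 3 * d] := by
  have hb := sq_nonneg b
  have hc := sq_nonneg c
  have hd := sq_nonneg d
  have b1 : -1 ≤ b := by nlinarith
  have b2 : b ≤ 1 := by nlinarith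
  have c1 : -1 ≤ c := by nlinarith
  have c2 : c ≤ 1 := by nlinarith
  have d1 : -1 ≤ d := by nlinarith
  have d2 : d ≤ 1 := by nlinarith
  interval_cases b <;> interval_cases c <;> interval_cases d <;> first
    | (exfalso; norm_num at h; done)
    | exact ⟨0, rfl⟩
    | exact ⟨1, rfl⟩
    | exact ⟨2, rfl⟩
    | exact ⟨3, rfl⟩
    | exact ⟨4, rfl⟩
    | exact ⟨5, rfl⟩
    | exact ⟨6, rfl⟩
    | exact ⟨7, rfl⟩
    | exact ⟨8, rfl⟩
    | exact ⟨9, rfl⟩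
    | exact ⟨10, rfl⟩
    | exact ⟨11, rfl⟩

theorem cls11 {J : AddSubgroup ℍ[ℚ]} (h : J ∈ Sp 11 Oo) : ∃ i, J = lm (q11 i) Oo := by
  obtain ⟨β, hβ, hn, rfl⟩ := (mem_Sp_Oo (by norm_num)).1 h
  have hx : normSq (β * ep) = ((22 : ℕ) : ℚ) := by
    rw [map_mul, hn, normSq_ep]; norm_num
  obtain ⟨v, hv, hv1, z, hz, hxz⟩ := mod3 (Hur.mul_mem hβ ep_mem) hx (by norm_num)
  obtain ⟨a, b, c, d, rfl⟩ := exists_hq hz
  have hN : normSq ((1 : ℍ[ℚ]) + (3 : ℚ) • hq a b c d) = ((22 : ℕ) : ℚ) := by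
    rw [← hxz, map_mul, hx, hv1, mul_one]
  have hN2 := one_add_norm hN
  have s1 := sq_nonneg (a + 2 * b)
  have s2 := sq_nonneg (a + 2 * c)
  have s3 := sq_nonneg (a + 2 * d)
  have a1 : -3 ≤ a := by
    by_contra hcon
    have : (2 + 3 * a) ≤ -10 := by omega
    push_cast at hN2
    nlinarith
  have a2 : a ≤ 2 := by
    by_contra hcon
    have : 11 ≤ (2 + 3 * a) := by omega
    push_cast at hN2
    nlinarith
  have ha : a = -2 ∨ a = 1 := by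
    have h9 : (88 - (2 + 3 * a) ^ 2) % 9 = 0 := by
      push_cast at hN2
      omega
    interval_cases a
    · norm_num at h9
    · left; rfl
    · norm_num at h9
    · norm_num at h9
    · right; rfl
    · norm_num at h9
  rcases ha with rfl | rfl
  · have h3 : (-(b - 1)) ^ 2 + (-(c - 1)) ^ 2 + (-(d - 1)) ^ 2 = 2 := by
      have h36 : 36 * ((-(b - 1)) ^ 2 + (-(c - 1)) ^ 2 + (-(d - 1)) ^ 2) = 72 := by
        push_cast at hN2
        linear_combination hN2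
      omega
    obtain ⟨i, hi⟩ := h11_all h3
    refine ⟨i, ?_⟩
    have e1 : qc (h11 i) = β * ep * (-v) := by
      rw [mul_neg, hxz, one_add]
      unfold qc
      rw [hi]
      apply ext4
      · simp; norm_num
      · simp; ring
      · simp; ring
      · simp; ring
    obtain ⟨g1, g2⟩ := unit_conj (Hur.neg_mem hv) (by rw [normSq_neg, hv1])
    have e2 : q11 i = β * (ep * (-v) * ep⁻¹) := by
      unfold q11
      rw [e1]; simp only [mul_assoc]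
    rw [e2, ← lm_lm, mem_of_unit g1 g2]
  · exfalso
    have pos : ∀ t : ℤ, (1 + 2 * t) ^ 2 % 8 = 1 := by
      intro t
      obtain ⟨m, hm⟩ := Int.even_mul_succ_self t
      have e : (1 + 2 * t) ^ 2 = 1 + 4 * (t * (t + 1)) := by ring
      rw [e, hm]
      omega
    have p1 := pos b
    have p2 := pos c
    have p3 := pos d
    push_cast at hN2
    have e : (1 + 2 * b) ^ 2 + (1 + 2 * c) ^ 2 + (1 + 2 * d) ^ 2 = 7 := by omega
    omega

theorem inj11 {i j : Fin 12} (h : lm (q11 i) Oo = lm (q11 j) Oo) : i = j := by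
  by_contra hne
  obtain ⟨u, hu, hu1, he⟩ := unit_of_eq (mul_ne_zero (qc_h11_ne _) (inv_ne_zero ep_ne)) h
  have hu2 : ep⁻¹ * u * ep ∈ Hur := ep_conj' hu
  have e1 : qc (h11 j) = qc (h11 i) * (ep⁻¹ * u * ep) := by
    have h1 := congrArg (fun x => x * ep) he
    unfold q11 at h1
    simp only [mul_assoc, inv_mul_cancel₀ ep_ne, mul_one] at h1
    rw [h1]
    simp only [mul_assoc]
  have e2 : qc (h11 j) - qc (h11 i) = qc (h11 i) * (ep⁻¹ * u * ep - 1) := by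
    rw [mul_sub, mul_one, ← e1]
  obtain ⟨n, hn⟩ := normSq_nat (Hur.sub_mem hu2 Hur.one_mem)
  have e3 := congrArg normSq e2
  have e5 : normSq (qc (h11 j) - qc (h11 i)) = (((h11 j 0 - h11 i 0) ^ 2 +
      (h11 j 1 - h11 i 1) ^ 2 + (h11 j 2 - h11 i 2) ^ 2 + (h11 j 3 - h11 i 3) ^ 2 : ℤ) : ℚ) := by
    rw [normSq_def']
    simp [qc]
  rw [e5, map_mul, qc_h11_norm, hn] at e3
  apply h11_sep i j hne
  refine ⟨n, ?_⟩
  exact_mod_cast e3

theorem Sp11_eq : Sp 11 Oo = Set.range (fun i => lm (q11 i) Oo) := by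
  ext J
  constructor
  · intro h
    obtain ⟨i, hi⟩ := cls11 h
    exact ⟨i, hi.symm⟩
  · rintro ⟨i, rfl⟩
    exact (mem_Sp_Oo (by norm_num)).2 ⟨_, q11_mem i, q11_norm i, rfl⟩

end Pool.Agent.Helper725_HQ.E5
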