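import Pool.Agent.Helper725_HQ.QPer
import Pool.Agent.Helper725_HQ.LUni

/-! Simultaneous nonvanishing of the periods of all ordinary newforms of level 17. -/

set_option autoImplicit false
set_option linter.unusedSimpArgs false
set_option linter.unnecessarySeqFocus false

namespace Pool.Agent.Helper725_HQ

open Quaternion MvPolynomial NumberField
open scoped nonZeroDivisors

/-- a Hecke eigenform of degree `k`, new of level 17, which is ordinary at some place above three -/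
structure OrdNew (k : ℕ) (F : AddSubgroup ℍ[ℚ] → AddSubgroup ℍ[ℚ] → MvPolynomial (Fin 3) ℂ) :
    Prop where
  form : IsForm 17 k F
  ne_zero : ∃ I I', F I I' ≠ 0
  new : ∀ I, IsRI I → ∑ᶠ I' ∈ {I' : AddSubgroup ℍ[ℚ] | IsPair 17 I I'}, F I I' = 0
  eigen : ∀ p : ℕ, p.Prime → p ≠ 2 → p ≠ 17 → ∃ lam : ℂ, ∀ I I', IsPair 17 I I' →
    hecke p F I I' = lam • F I I'
  ord : ∃ V : ValuationSubring ℂ, V.valuation 3 < 1 ∧ ∃ lam : ℂ,
    (∀ I I', IsPair 17 I I' → hecke 3 F I I' = lam • F I I') ∧ V.valuation (3 ^ k * lam) = 1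

theorem form0_of_isForm {k : ℕ} {F : AddSubgroup ℍ[ℚ] → AddSubgroup ℍ[ℚ] → MvPolynomial (Fin 3) ℂ}
    (h : IsForm 17 k F) : Form0 17 k F ∧ ww 17 F = F := by
  refine ⟨⟨h.supp, h.hom, fun α hα I I' => ?_, fun I I' => ?_⟩, ?_⟩
  · by_cases hI : IsPair 17 I I'
    · apply eq_of_ev
      intro x
      rw [ev_lsub hα]
      have h1 := h.left α hα I I' hI (α⁻¹ * x * α)
      have h2 : α * (α⁻¹ * x * α) * α⁻¹ = x := by
        rw [← mul_assoc, ← mul_assoc, mul_inv_cancel₀ hα, one_mul, mul_assoc, mul_inv_cancel₀ hα,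
          mul_one]
      rw [h2] at h1
      exact h1
    · rw [h.supp I I' hI, h.supp _ _ (fun h' => hI ((pair_lm hα).1 h')), map_zero]
  · by_cases hI : IsPair 17 I I'
    · exact h.two I I' hI
    · rw [h.supp I I' hI, h.supp _ _ (fun h' => hI (pair_rm.1 h'))]
  · funext I I'
    rw [ww_apply]
    by_cases hI : IsPair 17 I I'
    · exact h.lvl I I' hI
    · rw [h.supp I I' hI, h.supp _ _ (fun h' => hI ((pair_swap (by norm_num)).1 h'))]

theorem TL_of_hecke {p : ℕ} (hp : p.Prime) {k : ℕ}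
    {F : AddSubgroup ℍ[ℚ] → AddSubgroup ℍ[ℚ] → MvPolynomial (Fin 3) ℂ}
    (h : IsForm 17 k F) {lam : ℂ} (he : ∀ I I', IsPair 17 I I' → hecke p F I I' = lam • F I I') :
    TL 17 p hp F = lam • F := by
  funext I I'
  by_cases hI : IsPair 17 I I'
  · rw [TL_apply hp hI]
    exact he I I' hI
  · rw [TL_apply' hp hI, Pi.smul_apply, Pi.smul_apply, h.supp I I' hI, smul_zero]

theorem exists_ordNew {k : ℕ} (hk : Even k) (hk0 : k ≠ 0) : ∃ F, OrdNew k F := by
  obtain ⟨V, hV, w, hw, F, hF, hww, hF0, hharm, htr, hhecke, lam, he, hlw⟩ := exists_eig17 hk hk0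
  have key : ∀ (p : ℕ) (hp : p.Prime) (μ : ℂ), TL 17 p hp F = μ • F →
      ∀ I I', IsPair 17 I I' → hecke p F I I' = μ • F I I' := by
    intro p hp μ hμ I I' hI
    have h1 := congrFun (congrFun hμ I) I'
    rw [TL_apply hp hI] at h1
    exact h1
  refine ⟨F, ⟨hF.supp, hF.hom, hharm, ?_, fun I I' _ => hF.two I I', ?_⟩, ?_, ?_, ?_,
    V, val_of_thr hV, lam, key 3 p3 lam he, ?_⟩
  · intro α hα I I' _ x
    rw [hF.left α hα, ev_lsub hα, ← mul_assoc, ← mul_assoc, inv_mul_cancel₀ hα, one_mul,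
      mul_assoc, inv_mul_cancel₀ hα, mul_one]
  · intro I I' _
    exact congrFun (congrFun hww I) I'
  · by_contra h
    apply hF0
    funext I I'
    by_contra h2
    exact h ⟨I, I', h2⟩
  · intro I hI
    have h1 := congrFun htr I
    rw [Tr_pos hI] at h1
    have h2 : {I' : AddSubgroup ℍ[ℚ] | IsPair 17 I I'} = Sp 17 I := by
      ext I'
      exact ⟨fun h => (isPair_iff.1 h).2, fun h => isPair_iff.2 ⟨hI, h⟩⟩
    rw [h2]
    exact h1
  · intro p hp hp2 hp17
    obtain ⟨μ, hμ⟩ := hhecke p hp hp2 hp17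
    exact ⟨μ, key p hp μ hμ⟩
  · rw [hlw, val_one hw]

/-- simultaneous nonvanishing -/
theorem many17U (T : Finset ℕ) (hT : ∀ p ∈ T, p.Prime) (δ : ∀ (p : ℕ) [Fact p.Prime], ℚ_[p])
    (hδ0 : ∀ (p : ℕ) [Fact p.Prime], δ p ≠ 0) (hδ2 : ¬ IsSquare (δ 2))
    (hδ3 : 3 ∈ T → IsSquare (-δ 3))
    (hδ17 : 17 ∈ T → ∀ [Fact (Nat.Prime 17)], IsSquare (δ 17) ∨ Odd (δ 17).valuation) :
    ∃ c : ℝ, 0 < c ∧ ∃ x₀ : ℝ, ∀ x : ℝ, x₀ ≤ x → ∃ S : Finset (IntermediateField ℚ ℂ),
      c * x ≤ (S.card : ℝ) ∧ ∀ E ∈ S, ∃ _ : NumberField E, Module.finrank ℚ E = 2 ∧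
        |(discr E : ℝ)| < x ∧ (∀ p ∈ T, ∀ [Fact p.Prime], Loc p (δ p) E) ∧
        ∀ k : ℕ, Even k → k ≠ 0 → ∀ F, OrdNew k F → NonvanPer F E := by
  classical
  have hF17 : Fact (Nat.Prime 17) := ⟨p17⟩
  set δ' : ∀ (p : ℕ) [Fact p.Prime], ℚ_[p] := fun p _ => if p ∈ T then δ p else 1 with hδ'
  have hδ'0 : ∀ (p : ℕ) [Fact p.Prime], δ' p ≠ 0 := by
    intro p _
    simp only [hδ']
    split_ifs
    · exact hδ0 p
    · exact one_ne_zero
  have hadm : IsSquare (δ' 17) ∨ Odd (δ' 17).valuation := by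
    by_cases h : 17 ∈ T
    · simp only [hδ', if_pos h]
      exact hδ17 h
    · left
      simp only [hδ', if_neg h]
      exact ⟨1, by ring⟩
  obtain ⟨c', hc', x₀, hx₀⟩ := Pool.Agent.Helper725_DH.fields_manyT (hδ0 2) hδ2
    ((insert 17 T).filter (fun p => 5 ≤ p)) (fun p hp => by
      obtain ⟨h1, h2⟩ := Finset.mem_filter.1 hp
      refine ⟨?_, h2⟩
      rcases Finset.mem_insert.1 h1 with h | h
      · rw [h]; exact p17
      · exact hT p h) δ' (fun p _ _ => hδ'0 p)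
  refine ⟨c', hc', x₀, ?_⟩
  intro x hx
  obtain ⟨S, hS, hSd⟩ := hx₀ x hx
  refine ⟨S.image Ed, ?_, ?_⟩
  · rw [Finset.card_image_of_injOn]
    · exact hS
    · intro d hd d' hd' h
      obtain ⟨a1, _, a2, _⟩ := hSd d hd
      obtain ⟨b1, _, b2, _⟩ := hSd d' hd'
      exact Ed_inj a1 a2 b1 b2 h
  · intro E hE
    obtain ⟨d, hd, rfl⟩ := Finset.mem_image.1 hE
    obtain ⟨a1, a2, a3, a4, a5, a6, a8⟩ := hSd d hd
    have hd0 : 0 < d := by omega
    have hns : ¬ IsSquare (-(d : ℚ)) := by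
      rintro ⟨q, hq⟩
      exact Pool.Agent.Helper725_DH.IQ.not_sq hd0 q (by rw [hq]; ring)
    obtain ⟨t, ht⟩ := Pool.Agent.Helper725_DH.exists_root (q := 17) (hδ'0 17) hadm a1
      (a6 17 (Finset.mem_filter.2 ⟨Finset.mem_insert_self _ _, by norm_num⟩))
    refine ⟨inferInstance, Ed_rank hd0, ?_, ?_, ?_⟩
    · rw [Ed_discr a1 a3]
      split_ifs at a4 ⊢ with h
      · push_cast
        rw [abs_neg, abs_of_nonneg (by positivity)]
        exact a4
      · push_cast
        rw [abs_neg, abs_of_nonneg (by positivity)]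
        exact a4
    · intro p hp hpf
      refine ⟨-(d : ℚ), xd d, ?_, hns, ?_⟩
      · rw [xd_sq]; push_cast; rfl
      · push_cast
        by_cases h5 : 5 ≤ p
        · have := a6 p (Finset.mem_filter.2 ⟨Finset.mem_insert_of_mem hp, h5⟩)
          simp only [hδ', if_pos hp] at this
          exact this
        · have h6 := (hT p hp).two_le
          have h7 : p ≠ 4 := by
            rintro rfl
            exact absurd (hT 4 hp) (by norm_num)
          have h8 : p = 2 ∨ p = 3 := by omega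
          rcases h8 with rfl | rfl
          · exact a5
          · exact sq_one_mod a2 (hδ3 hp)
    · intro k hk hk0 F hord
      obtain ⟨V, hV3, lam, hlam, hval⟩ := hord.ord
      have hV : Thr V := thr_of_val hV3
      obtain ⟨hF, hww⟩ := form0_of_isForm hord.form
      have hF0 : F ≠ 0 := by
        rintro rfl
        obtain ⟨I, I', hI⟩ := hord.ne_zero
        exact hI rfl
      have he := TL_of_hecke p3 hord.form hlam
      have hu : (3 : ℂ) ^ k * lam ≠ 0 := by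
        intro h
        rw [h, map_zero] at hval
        exact zero_ne_one hval
      have hl : lam ≠ 0 := fun h => hu (by rw [h, mul_zero])
      have hu1 : (3 : ℂ) ^ k * lam ∈ V := (V.valuation_le_one_iff _).1 hval.le
      have hu2 : ((3 : ℂ) ^ k * lam)⁻¹ ∈ V := by
        apply (V.valuation_le_one_iff _).1
        rw [map_inv₀, hval, inv_one]
      obtain ⟨c, hc, r, hr, H⟩ := main_red hV hk hk0 hF hF0 hww he hl hu1 hu2
      exact nonvan_one hV hF hr H a1 a2 a3 (Ed_rank hd0) (xd_sq d) ht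
        (a8 (Ed d) (Ed_rank hd0) ⟨xd d, xd_sq d⟩)

end Pool.Agent.Helper725_HQ
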