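import Pool.Agent.Helper725_HQ.FCon

/-! Constancy of the reductions of the values of an eigenform of level five. -/

set_option autoImplicit false
set_option linter.unusedVariables false
set_option linter.unusedSimpArgs false

namespace Pool.Agent.Helper725_HQ.E5

open Quaternion MvPolynomial

/-- the six substitutions -/
def zz : Fin 6 → (Fin 3 → ℤ) → Fin 3 → ℤ := ![fun x => x, fun x => rj x,
  fun x => cyi 1 x, fun x => rj (cyi 1 x), fun x => cyi 2 x, fun x => rj (cyi 2 x)]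

theorem gg_zz {κ : Type} (h : (Fin 3 → ℤ) → κ) (i : Fin 6) (x : Fin 3 → ℤ) :
    gg h i x = h (zz i x) := by
  fin_cases i <;> rfl

theorem zz_X3 (i : Fin 6) {x : Fin 3 → ℤ} (hx : x ∈ X3) : zz i x ∈ X3 := by
  fin_cases i
  · exact hx
  · exact rj_X3 hx
  · exact cyi_X3 1 hx
  · exact rj_X3 (cyi_X3 1 hx)
  · exact cyi_X3 2 hx
  · exact rj_X3 (cyi_X3 2 hx)

theorem pq_rj (x : Fin 3 → ℤ) : pq (rj x) = (mk4 0 0 1 0)⁻¹ * pq x * mk4 0 0 1 0 := by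
  have e : (mk4 0 0 1 0)⁻¹ = mk4 0 0 (-1) 0 := by
    rw [inv_unit (by rw [normSq_def']; simp)]
    apply ext4 <;> simp
  rw [e]
  unfold pq rj
  apply ext4 <;> simp [re_mul, imI_mul, imJ_mul, imK_mul]

theorem back_conj {w p q : ℍ[ℚ]} (hw : w ≠ 0) (h : p = w⁻¹ * q * w) : q = w * p * w⁻¹ := by
  rw [h]
  simp only [mul_assoc, mul_inv_cancel₀ hw, mul_one, mul_inv_cancel_left₀ hw]

theorem j_mem : mk4 0 0 1 0 ∈ Hur := by
  have := int_mem 0 0 1 0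
  simpa using this

theorem j_norm : normSq (mk4 0 0 1 0) = 1 := by
  rw [normSq_def']; simp

theorem j_ne : mk4 0 0 1 0 ≠ 0 := by
  rw [← normSq_ne_zero, j_norm]; norm_num

section
variable {n k : ℕ} {F : AddSubgroup ℍ[ℚ] → AddSubgroup ℍ[ℚ] → ℍ[ℚ] → MvPolynomial (Fin 3) ℂ}

/-- the six functions are given by one of them -/
theorem gv_zz (hF : IsForm5 n k F) (i : Fin 6) {x : Fin 3 → ℤ} (hx : x ∈ X3) :
    gv n (F Oo (Jv (v5 i))) x = gv n (F Oo (Jv (v5 0))) (zz i x) := by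
  have ad : ∀ x ∈ X3, ∃ u, Ad n x u := fun x hx => Ad_all n hx
  have s1 : ∀ x ∈ X3, gv n (F Oo (Jv (v5 1))) x = gv n (F Oo (Jv (v5 0))) (rj x) := by
    intro x hx
    have e : lm (mk4 0 0 1 0) (Jv (v5 0)) = Jv (v5 1) := by
      apply lm_unit_Jv j_mem j_norm
      apply back_conj j_ne
      rw [← pq_rj]
      congr 1
    rw [← e]
    exact gv_unit hF (pair_Jv 0) j_mem j_norm (pq_rj x) (ad x hx)
  have o : ∀ a b : Fin 6, cyi 1 (v5 b) = v5 a → ∀ x ∈ X3,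
      gv n (F Oo (Jv (v5 b))) x = gv n (F Oo (Jv (v5 a))) (cyi 1 x) := by
    intro a b hab x hx
    have e : lm om (Jv (v5 a)) = Jv (v5 b) := by
      apply lm_unit_Jv om_mem om_norm
      apply back_conj om_ne
      rw [← hab]
      exact pq_om _
    rw [← e]
    exact gv_unit hF (pair_Jv a) om_mem om_norm (pq_om x) (ad x hx)
  have o2 : ∀ a b : Fin 6, cyi 2 (v5 b) = v5 a → ∀ x ∈ X3,
      gv n (F Oo (Jv (v5 b))) x = gv n (F Oo (Jv (v5 a))) (cyi 2 x) := by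
    intro a b hab x hx
    have e : lm om2 (Jv (v5 a)) = Jv (v5 b) := by
      apply lm_unit_Jv om2_mem om2_norm
      apply back_conj om2_ne
      rw [← hab]
      exact pq_om2 _
    rw [← e]
    exact gv_unit hF (pair_Jv a) om2_mem om2_norm (pq_om2 x) (ad x hx)
  fin_cases i
  · rfl
  · exact s1 x hx
  · exact o 0 2 (by decide) x hx
  · show _ = gv n (F Oo (Jv (v5 0))) (rj (cyi 1 x))
    rw [← s1 _ (cyi_X3 1 hx)]
    exact o 1 3 (by decide) x hx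
  · exact o2 0 4 (by decide) x hx
  · show _ = gv n (F Oo (Jv (v5 0))) (rj (cyi 2 x))
    rw [← s1 _ (cyi_X3 2 hx)]
    exact o2 1 5 (by decide) x hx

/-- the rotation by a right angle -/
theorem gv_fq (hF : IsForm5 n k F) {x : Fin 3 → ℤ} (hx : ∃ u, Ad n x u) :
    gv n (F Oo (Jv (v5 0))) ![x 0, x 2, -x 1] = gv n (F Oo (Jv (v5 0))) x := by
  symm
  apply gv_ep hF (pair_Jv 0) (pair_Jv 0) _ _ hx
  · apply rm_ep_Jv
    rw [ep_inv]
    unfold pq ep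
    apply ext4
    · simp [re_mul, imI_mul, imJ_mul, imK_mul, v5]
    · simp [re_mul, imI_mul, imJ_mul, imK_mul, v5]; norm_num
    · simp [re_mul, imI_mul, imJ_mul, imK_mul, v5]
    · simp [re_mul, imI_mul, imJ_mul, imK_mul, v5]
  · rw [ep_inv]
    unfold pq ep
    apply ext4
    · simp [re_mul, imI_mul, imJ_mul, imK_mul]
    · simp [re_mul, imI_mul, imJ_mul, imK_mul]; ring
    · simp [re_mul, imI_mul, imJ_mul, imK_mul]; ring
    · simp [re_mul, imI_mul, imJ_mul, imK_mul]; ring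

/-- the pairs of level five -/
theorem pair5_class {I I' : AddSubgroup ℍ[ℚ]} (h : IsPair 5 I I') :
    ∃ α : ℍ[ℚ], α ≠ 0 ∧ ∃ i : Fin 6, I = lm α Oo ∧ I' = lm α (Jv (v5 i)) := by
  obtain ⟨α, hα, rfl⟩ := principal h.fst
  have h1 := (isPair_iff.1 h).2
  rw [Sp_lm hα] at h1
  obtain ⟨J, hJ, rfl⟩ := h1
  obtain ⟨i, rfl⟩ := cls5 hJ
  exact ⟨α, hα, i, rfl, rfl⟩

theorem form5_ne (hF : IsForm5 n k F) (h : ∃ I I' u, F I I' u ≠ 0) :
    ∃ i : Fin 6, ∃ u, GO u ∧ F Oo (Jv (v5 i)) u ≠ 0 := by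
  obtain ⟨I, I', u, h⟩ := h
  have h1 : IsPair 5 I I' ∧ Gen3 I u := by
    by_contra h1
    exact h (hF.supp I I' u h1)
  obtain ⟨hI, hu⟩ := h1
  obtain ⟨α, hα, i, rfl, rfl⟩ := pair5_class hI
  have e : α * (α⁻¹ * u) = u := by rw [← mul_assoc, mul_inv_cancel₀ hα, one_mul]
  rw [← e] at hu h
  have hu' := (gen_lm_iff hα).1 hu
  refine ⟨i, α⁻¹ * u, gen_iff.1 hu', ?_⟩
  intro h0
  apply h
  rw [form5_left hF hα (pair_Jv i) hu', h0, map_zero]

/-- constancy of the reductions of the values of an eigenform -/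
theorem all_val5 {V : ValuationSubring ℂ} (hV : Thr V) (hF : IsForm5 n k F)
    (hF0 : ∃ I I' u, F I I' u ≠ 0) {l7 l11 l13 : ℂ}
    (h7 : ∀ I I' u, IsPair 5 I I' → GenAt3 I u → heckeC 7 F I I' u = l7 • F I I' u)
    (h11' : ∀ I I' u, IsPair 5 I I' → GenAt3 I u → heckeC 11 F I I' u = l11 • F I I' u)
    (h13 : ∀ I I' u, IsPair 5 I I' → GenAt3 I u → heckeC 13 F I I' u = l13 • F I I' u) :
    ∃ c : ℂ, ∃ r : kap V, r ≠ 0 ∧ ∀ i : Fin 6,
      ∀ x : Fin 3 → ℤ, (x 0 ^ 2 + x 1 ^ 2 + x 2 ^ 2) % 3 = 1 →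
        ∃ v : V, c * gv n (F Oo (Jv (v5 i))) x = (v : ℂ) ∧ rs V v = r := by
  have hf := form5_fu hF (pair_Jv 0)
  obtain ⟨Q, hQ⟩ := gv_poly hf
  have ad : ∀ x ∈ X3, ∃ u, Ad n x u := fun x hx => Ad_all n hx
  have hne : ∃ x ∈ X3, gv n (F Oo (Jv (v5 0))) x ≠ 0 := by
    obtain ⟨i, u, hu, hu0⟩ := form5_ne hF hF0
    have hfi := form5_fu hF (pair_Jv i)
    obtain ⟨y, hy, hy3⟩ := exists_vecu (n := n) hu
    obtain ⟨z, hz, hz0⟩ := vl_coset hu0 y (n + 1)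
    have hz1 : gv n (F Oo (Jv (v5 i))) z ≠ 0 := by
      rw [gv_loc hfi hy (fun i => dvd_trans (by
        rw [pow_succ]; push_cast; exact Dvd.intro _ rfl) (hz i))]
      exact hz0
    have hz3 : (z 0 ^ 2 + z 1 ^ 2 + z 2 ^ 2) % 3 = 1 := by
      have key : ∀ i, z i ^ 2 ≡ y i ^ 2 [ZMOD 3] := by
        intro i
        apply Int.ModEq.pow
        rw [Int.modEq_comm, Int.modEq_iff_dvd]
        exact dvd_trans (by push_cast; exact dvd_pow_self 3 (by omega)) (hz i)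
      have hy3' : y 0 ^ 2 + y 1 ^ 2 + y 2 ^ 2 ≡ 1 [ZMOD 3] := hy3
      exact (((key 0).add (key 1)).add (key 2)).trans hy3'
    exact ⟨zz i z, zz_X3 i hz3, by rw [← gv_zz hF i hz3]; exact hz1⟩
  obtain ⟨g, hg⟩ : ∃ g, g = gv n (F Oo (Jv (v5 0))) := ⟨_, rfl⟩
  have gz : ∀ i, ∀ x ∈ X3, gv n (F Oo (Jv (v5 i))) x = g (zz i x) := by
    intro i x hx
    rw [hg]; exact gv_zz hF i hx
  obtain ⟨c, hcV, ⟨x₀, hx₀, v₀, hv₀, hv₀ne⟩, N', hper⟩ :=
    perg (X := X3) (g := g) hV (fun x hx => by rw [hg]; exact hQ x (ad x hx)) (by rw [hg]; exact hne)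
  obtain ⟨N, hN⟩ : ∃ N, N = N' + 1 := ⟨_, rfl⟩
  rw [← hN] at hper
  have hN1 : 1 ≤ N := by omega
  have X7 : ∀ (i : Fin 8) {x : Fin 3 → ℤ}, x ∈ X3 → actc (tc 1 (v7 i)) x ∈ X3 := by
    intro i x hx
    exact actc_X3 (c := tc 1 (v7 i)) (N := 28) (by
      have := v7_norm i
      show (1 : ℤ) ^ 2 + (3 * v7 i 0) ^ 2 + (3 * v7 i 1) ^ 2 + (3 * v7 i 2) ^ 2 = 28
      linear_combination 9 * this) (by norm_num) hx
  have X11 : ∀ (i : Fin 12) {x : Fin 3 → ℤ}, x ∈ X3 → actc (h11 i) x ∈ X3 := by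
    intro i x hx
    exact actc_X3 (h11_norm i) (by norm_num) hx
  have X13 : ∀ (i : Fin 14) {x : Fin 3 → ℤ}, x ∈ X3 → actc (c13 i) x ∈ X3 := by
    intro i x hx
    exact actc_X3 (c13_norm i) (by norm_num) hx
  have R7 : ∀ x ∈ X3, ∑ i, g (zz (t7 i) (actc (tc 1 (v7 i)) x)) = (28 : ℂ) ^ k * l7 * g x := by
    intro x hx
    obtain ⟨u, hu⟩ := ad x hx
    rw [hg, ← hk7 hF h7 hu]
    apply Finset.sum_congr rfl
    intro i _
    rw [gv_zz hF _ (X7 i hx)]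
  have R11 : ∀ x ∈ X3, ∑ i, g (zz (t11 i) (actc (h11 i) x)) = (22 : ℂ) ^ k * l11 * g x := by
    intro x hx
    obtain ⟨u, hu⟩ := ad x hx
    rw [hg, ← hk11 hF h11' hu]
    apply Finset.sum_congr rfl
    intro i _
    rw [gv_zz hF _ (X11 i hx)]
  have R13 : ∀ x ∈ X3, ∑ i, g (zz (t13 i) (actc (c13 i) x)) = (52 : ℂ) ^ k * l13 * g x := by
    intro x hx
    obtain ⟨u, hu⟩ := ad x hx
    rw [hg, ← hk13 hF h13 hu]
    apply Finset.sum_congr rfl
    intro i _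
    rw [gv_zz hF _ (X13 i hx)]
  have RT : ∀ x ∈ X3, ∑ i, g (zz i x) = 0 * g x := by
    intro x hx
    rw [zero_mul, hg, ← gv_tr hF (ad x hx)]
    apply Finset.sum_congr rfl
    intro i _
    rw [gv_zz hF _ hx]
  have z7 : ∀ x ∈ X3, ∀ i, c * g (zz (t7 i) (actc (tc 1 (v7 i)) x)) ∈ V := fun x hx i =>
    hcV _ (zz_X3 _ (X7 i hx))
  have z11 : ∀ x ∈ X3, ∀ i, c * g (zz (t11 i) (actc (h11 i) x)) ∈ V := fun x hx i =>
    hcV _ (zz_X3 _ (X11 i hx))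
  have z13 : ∀ x ∈ X3, ∀ i, c * g (zz (t13 i) (actc (c13 i) x)) ∈ V := fun x hx i =>
    hcV _ (zz_X3 _ (X13 i hx))
  have zT : ∀ x ∈ X3, ∀ i : Fin 6, c * g (zz i x) ∈ V := fun x hx i => hcV _ (zz_X3 _ hx)
  obtain ⟨m7, hm7⟩ := eig_int (z7 x₀ hx₀) hv₀ hv₀ne (R7 x₀ hx₀)
  obtain ⟨m11, hm11⟩ := eig_int (z11 x₀ hx₀) hv₀ hv₀ne (R11 x₀ hx₀)
  obtain ⟨m13, hm13⟩ := eig_int (z13 x₀ hx₀) hv₀ hv₀ne (R13 x₀ hx₀)
  have H : H5 N (gred V c g) (rs V m7) (rs V m11) (rs V m13) := by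
    refine ⟨?_, ?_, ?_, ?_, ?_, ?_, ?_, ?_⟩
    · intro x hx y hy hxy
      rw [gred_pos (v := ⟨_, hcV x hx⟩) rfl, gred_pos (v := ⟨_, hcV y hy⟩) rfl]
      exact hper x hx y hy hxy _ _ rfl rfl
    · intro x hx s hs
      refine gred_scal (k := k) hV (hcV x hx) hs (fun s hs' => ?_) (fun s hs' => ?_)
      · rw [hg]; exact gv_scal hf (ad x hx) hs'
      · rw [hg]
        obtain ⟨u, hu⟩ := ad x hx
        exact gv_neg hf ⟨u, Ad_scal hu hs'⟩
    · intro x hx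
      apply gred_eq
      rw [hg]; exact gv_fq hF (ad x hx)
    · intro x hx
      have h1 := gv_five hF (i := 1) (j := 0) (by decide) (ad x hx)
      rw [gv_zz hF 1 hx, ← hg] at h1
      have h2 : gred V c g (act (v5 1) x) = rs V (((10 : ℤ) : V) ^ k * ⟨_, hcV _ (rj_X3 hx)⟩) := by
        apply gred_pos
        rw [h1]
        have e10 : ((((10 : ℤ) : V) : V) : ℂ) = 10 := by norm_cast
        show ((((10 : ℤ) : V) : V) : ℂ) ^ k * (c * g (rj x)) = c * ((10 : ℂ) ^ k * g (rj x))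
        rw [e10]
        ring
      rw [h2, map_mul, int_rs1 hV (by norm_num), one_mul, gred_pos (v := ⟨_, hcV _ (rj_X3 hx)⟩) rfl]
    · intro x hx
      have h1 := gred_sum (V := V) (c := c) (g := g) (zT x hx) (L := 0) (Lv := 0) rfl (hcV x hx)
        (RT x hx)
      rw [map_zero, zero_mul] at h1
      rw [← h1]
      apply Finset.sum_congr rfl
      intro i _
      exact gg_zz _ _ _
    · intro x hx
      rw [← gred_sum (z7 x hx) hm7 (hcV x hx) (R7 x hx)]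
      apply Finset.sum_congr rfl
      intro i _
      exact gg_zz _ _ _
    · intro x hx
      rw [← gred_sum (z11 x hx) hm11 (hcV x hx) (R11 x hx)]
      apply Finset.sum_congr rfl
      intro i _
      exact gg_zz _ _ _
    · intro x hx
      rw [← gred_sum (z13 x hx) hm13 (hcV x hx) (R13 x hx)]
      apply Finset.sum_congr rfl
      intro i _
      exact gg_zz _ _ _
  obtain ⟨r, hr⟩ := H.const (three_zero hV) hN1
  refine ⟨c, r, ?_, ?_⟩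
  · rw [← hr x₀ hx₀, gred_pos hv₀]
    exact hv₀ne
  · intro i x hx
    have hx' : x ∈ X3 := hx
    refine ⟨⟨_, hcV _ (zz_X3 i hx')⟩, ?_, ?_⟩
    · rw [gz i x hx']
    · rw [← hr _ (zz_X3 i hx'), gred_pos (v := ⟨_, hcV _ (zz_X3 i hx')⟩) rfl]

end

end Pool.Agent.Helper725_HQ.E5
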