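import Mathlib

/-! Linear substitutions in polynomials in three variables. -/

set_option autoImplicit false

namespace Pool.Agent.Helper725_HQ

open MvPolynomial

section
variable {R : Type*} [CommRing R]

/-- linear substitution -/
noncomputable def lsub (A : Fin 3 → Fin 3 → R) : MvPolynomial (Fin 3) R →ₐ[R] MvPolynomial (Fin 3) R :=
  aeval (fun i => ∑ j, C (A i j) * X j)

theorem lsub_X (A : Fin 3 → Fin 3 → R) (i : Fin 3) : lsub A (X i) = ∑ j, C (A i j) * X j := by
  simp [lsub]

theorem lsub_C (A : Fin 3 → Fin 3 → R) (r : R) : lsub A (C r) = C r := by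
  simp [lsub]

theorem eval_lsub (A : Fin 3 → Fin 3 → R) (x : Fin 3 → R) (P : MvPolynomial (Fin 3) R) :
    eval x (lsub A P) = eval (fun i => ∑ j, A i j * x j) P := by
  induction P using MvPolynomial.induction_on with
  | C a => rw [lsub_C, eval_C, eval_C]
  | add p q hp hq => rw [map_add, map_add, map_add, hp, hq]
  | mul_X p i hp => rw [map_mul, map_mul, map_mul, hp, lsub_X, eval_X]; simp

theorem lsub_hom (A : Fin 3 → Fin 3 → R) {P : MvPolynomial (Fin 3) R} {k : ℕ}
    (h : P.IsHomogeneous k) : (lsub A P).IsHomogeneous k := by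
  have h1 := h.aeval (n := 1) (fun i => ∑ j, C (A i j) * X j) (by
    intro i
    apply IsHomogeneous.sum
    intro j _
    exact isHomogeneous_C_mul_X _ _)
  rwa [one_mul] at h1

theorem pderiv_lsub (A : Fin 3 → Fin 3 → R) (P : MvPolynomial (Fin 3) R) (j : Fin 3) :
    pderiv j (lsub A P) = ∑ i, C (A i j) * lsub A (pderiv i P) := by
  induction P using MvPolynomial.induction_on with
  | C a => simp
  | add p q hp hq =>
    simp only [map_add, hp, hq, mul_add, Finset.sum_add_distrib]
  | mul_X p i hp =>
    rw [map_mul, lsub_X, pderiv_mul, hp]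
    have h1 : pderiv j (∑ l, C (A i l) * X l : MvPolynomial (Fin 3) R) = C (A i j) := by
      rw [map_sum, Finset.sum_eq_single j]
      · rw [pderiv_C_mul, pderiv_X_self, mul_one]
      · intro l _ hl
        rw [pderiv_C_mul, pderiv_X_of_ne hl, mul_zero]
      · intro h; exact absurd (Finset.mem_univ j) h
    rw [h1]
    have h2 : ∀ l : Fin 3, lsub A (pderiv l (p * X i)) = lsub A (pderiv l p) * lsub A (X i) +
        lsub A p * (if l = i then 1 else 0) := by
      intro l
      rw [pderiv_mul, map_add, map_mul, map_mul]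
      split_ifs with h
      · rw [h, pderiv_X_self, map_one]
      · rw [pderiv_X_of_ne (Ne.symm h), map_zero]
    simp only [h2, mul_add, Finset.sum_add_distrib]
    rw [lsub_X, Finset.sum_mul]
    congr 1
    · apply Finset.sum_congr rfl
      intro l _
      ring
    · rw [Finset.sum_eq_single i]
      · simp; ring
      · intro l _ hl
        simp [hl]
      · intro h; exact absurd (Finset.mem_univ i) h

/-- the Laplacian -/
noncomputable def lap (P : MvPolynomial (Fin 3) R) : MvPolynomial (Fin 3) R :=
  ∑ i, pderiv i (pderiv i P)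

theorem lap_lsub (A : Fin 3 → Fin 3 → R) (c : R)
    (h : ∀ i i', ∑ j, A i j * A i' j = if i = i' then c else 0) (P : MvPolynomial (Fin 3) R) :
    lap (lsub A P) = C c * lsub A (lap P) := by
  unfold lap
  have h1 : ∀ j : Fin 3, pderiv j (pderiv j (lsub A P)) =
      ∑ i, ∑ i', C (A i j * A i' j) * lsub A (pderiv i' (pderiv i P)) := by
    intro j
    rw [pderiv_lsub, map_sum]
    apply Finset.sum_congr rfl
    intro i _
    rw [pderiv_C_mul, pderiv_lsub, Finset.mul_sum]
    apply Finset.sum_congr rfl
    intro i' _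
    rw [← mul_assoc, ← C_mul]
  simp only [h1]
  rw [Finset.sum_comm]
  rw [map_sum, Finset.mul_sum]
  apply Finset.sum_congr rfl
  intro i _
  rw [Finset.sum_comm]
  rw [Finset.sum_eq_single i]
  · rw [← Finset.sum_mul, ← map_sum, h i i, if_pos rfl]
  · intro i' _ hi
    rw [← Finset.sum_mul, ← map_sum, h i i', if_neg (Ne.symm hi), map_zero, zero_mul]
  · intro h; exact absurd (Finset.mem_univ i) h

theorem map_lsub {S : Type*} [CommRing S] (φ : R →+* S) (A : Fin 3 → Fin 3 → R)
    (P : MvPolynomial (Fin 3) R) :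
    map φ (lsub A P) = lsub (fun i j => φ (A i j)) (map φ P) := by
  induction P using MvPolynomial.induction_on with
  | C a => rw [lsub_C, map_C, lsub_C]
  | add p q hp hq => rw [map_add, map_add, map_add, map_add, hp, hq]
  | mul_X p i hp =>
    rw [map_mul, map_mul, map_mul, map_mul, hp, lsub_X, map_X, lsub_X, map_sum]
    congr 1
    apply Finset.sum_congr rfl
    intro j _
    rw [map_mul, map_C, map_X]

theorem lsub_rank_one {P : MvPolynomial (Fin 3) R} {k : ℕ} (h : P.IsHomogeneous k)
    (u v : Fin 3 → R) :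
    lsub (fun i j => u i * v j) P = C (eval u P) * (∑ j, C (v j) * X j) ^ k := by
  set L : MvPolynomial (Fin 3) R := ∑ j, C (v j) * X j with hL
  have h1 : lsub (fun i j => u i * v j) = aeval (fun i => C (u i) * L) := by
    unfold lsub
    congr 1
    funext i
    rw [hL, Finset.mul_sum]
    apply Finset.sum_congr rfl
    intro j _
    rw [C_mul, mul_assoc]
  rw [h1, aeval_def, eval₂_eq, eval_eq, map_sum, Finset.sum_mul]
  apply Finset.sum_congr rfl
  intro d hd
  have h2 : d.degree = k := by
    by_contra hne
    exact (mem_support_iff.1 hd) (h.coeff_eq_zero hne)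
  have h3 : ∏ i ∈ d.support, (C (u i) * L) ^ d i = C (∏ i ∈ d.support, u i ^ d i) * L ^ k := by
    rw [← h2, Finsupp.degree_apply, ← Finset.prod_pow_eq_pow_sum, map_prod,
      ← Finset.prod_mul_distrib]
    apply Finset.prod_congr rfl
    intro i _
    rw [mul_pow, C_pow]
  rw [h3, C_mul, mul_assoc]
  rfl

theorem lsub_smul {P : MvPolynomial (Fin 3) R} {k : ℕ} (h : P.IsHomogeneous k)
    (c : R) (A : Fin 3 → Fin 3 → R) :
    lsub (fun i j => c * A i j) P = C (c ^ k) * lsub A P := by
  have h1 : lsub (fun i j => c * A i j) = aeval (fun i => C c * ∑ j, C (A i j) * X j) := by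
    unfold lsub
    congr 1
    funext i
    rw [Finset.mul_sum]
    apply Finset.sum_congr rfl
    intro j _
    rw [C_mul, mul_assoc]
  rw [h1]
  unfold lsub
  rw [aeval_def, aeval_def, eval₂_eq, eval₂_eq, Finset.mul_sum]
  apply Finset.sum_congr rfl
  intro d hd
  have h2 : d.degree = k := by
    by_contra hne
    exact (mem_support_iff.1 hd) (h.coeff_eq_zero hne)
  have h3 : ∏ i ∈ d.support, (C c * ∑ j, C (A i j) * X j : MvPolynomial (Fin 3) R) ^ d i =
      C (c ^ k) * ∏ i ∈ d.support, (∑ j, C (A i j) * X j) ^ d i := by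
    rw [← h2, Finsupp.degree_apply, C_pow, ← Finset.prod_pow_eq_pow_sum,
      ← Finset.prod_mul_distrib]
    apply Finset.prod_congr rfl
    intro i _
    rw [mul_pow]
  rw [h3]
  ring

theorem lsub_id (P : MvPolynomial (Fin 3) R) :
    lsub (fun i j => if i = j then 1 else 0) P = P := by
  have : lsub (fun i j => if i = j then (1 : R) else 0) = AlgHom.id R _ := by
    apply MvPolynomial.algHom_ext
    intro i
    rw [lsub_X]
    simp
  rw [this]; rfl

theorem lsub_lsub (A B : Fin 3 → Fin 3 → R) (P : MvPolynomial (Fin 3) R) :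
    lsub A (lsub B P) = lsub (fun i j => ∑ l, B i l * A l j) P := by
  have : (lsub A).comp (lsub B) = lsub (fun i j => ∑ l, B i l * A l j) := by
    apply MvPolynomial.algHom_ext
    intro i
    rw [AlgHom.comp_apply, lsub_X, lsub_X, map_sum]
    simp only [map_mul, lsub_C, lsub_X, Finset.mul_sum, map_sum, Finset.sum_mul]
    rw [Finset.sum_comm]
    apply Finset.sum_congr rfl
    intro j _
    apply Finset.sum_congr rfl
    intro l _
    ring
  rw [← this]; rfl

theorem lap_add (P Q : MvPolynomial (Fin 3) R) : lap (P + Q) = lap P + lap Q := by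
  unfold lap
  simp only [map_add, Finset.sum_add_distrib]

theorem lap_C_mul (c : R) (P : MvPolynomial (Fin 3) R) : lap (C c * P) = C c * lap P := by
  unfold lap
  simp only [pderiv_C_mul, Finset.mul_sum]

theorem lap_sum {ι : Type*} (s : Finset ι) (f : ι → MvPolynomial (Fin 3) R) :
    lap (∑ i ∈ s, f i) = ∑ i ∈ s, lap (f i) := by
  unfold lap
  simp only [map_sum]
  rw [Finset.sum_comm]

theorem lap_zero : lap (0 : MvPolynomial (Fin 3) R) = 0 := by
  unfold lap; simp

theorem map_lap {S : Type*} [CommRing S] (φ : R →+* S) (P : MvPolynomial (Fin 3) R) :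
    map φ (lap P) = lap (map φ P) := by
  unfold lap
  rw [map_sum]
  simp only [pderiv_map]

end

/-- polynomials over `ℂ` with the same values at rational points are equal -/
theorem eq_of_rat {P Q : MvPolynomial (Fin 3) ℂ}
    (h : ∀ x : Fin 3 → ℚ, eval (fun i => (x i : ℂ)) P = eval (fun i => (x i : ℂ)) Q) : P = Q := by
  apply funext_set (fun _ => Set.range (fun q : ℚ => (q : ℂ)))
  · intro i
    exact Set.infinite_range_of_injective Rat.cast_injective
  · intro x hx
    rw [Set.mem_univ_pi] at hx
    choose y hy using hx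
    have : x = fun i => (y i : ℂ) := by
      funext i; exact (hy i).symm
    rw [this]
    exact h y

end Pool.Agent.Helper725_HQ
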