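import Pool.Agent.Helper725_HQ.Ri
import Pool.Agent.Helper725_HQ.Pl

/-! Rotations. -/

set_option autoImplicit false
set_option linter.unusedSimpArgs false
set_option linter.unnecessarySeqFocus false

namespace Pool.Agent.Helper725_HQ

open Quaternion MvPolynomial

/-- the vector part -/
def vec (x : ℍ[ℚ]) : Fin 3 → ℚ := ![x.imI, x.imJ, x.imK]

/-- the basis -/
def bas : Fin 3 → ℍ[ℚ] := ![mk4 0 1 0 0, mk4 0 0 1 0, mk4 0 0 0 1]

theorem vec_add (x y : ℍ[ℚ]) (i : Fin 3) : vec (x + y) i = vec x i + vec y i := by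
  fin_cases i <;> simp [vec]

theorem vec_smul (r : ℚ) (x : ℍ[ℚ]) (i : Fin 3) : vec (r • x) i = r * vec x i := by
  fin_cases i <;> simp [vec]

theorem vec_coe (r : ℚ) (i : Fin 3) : vec (r : ℍ[ℚ]) i = 0 := by
  fin_cases i <;> simp [vec]

theorem decomp (x : ℍ[ℚ]) : x = (x.re : ℍ[ℚ]) + (vec x 0 • bas 0 + vec x 1 • bas 1 +
    vec x 2 • bas 2) := by
  apply ext4 <;> simp [vec, bas]

/-- the matrix of `x ↦ α⁻¹ x α` -/
noncomputable def rmat (α : ℍ[ℚ]) (i j : Fin 3) : ℚ := vec (α⁻¹ * bas j * α) i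

theorem vec_conj {α : ℍ[ℚ]} (hα : α ≠ 0) (x : ℍ[ℚ]) (i : Fin 3) :
    vec (α⁻¹ * x * α) i = ∑ j, rmat α i j * vec x j := by
  have h1 : α⁻¹ * x * α = (x.re : ℍ[ℚ]) + (vec x 0 • (α⁻¹ * bas 0 * α) +
      vec x 1 • (α⁻¹ * bas 1 * α) + vec x 2 • (α⁻¹ * bas 2 * α)) := by
    conv_lhs => rw [decomp x]
    rw [mul_add, add_mul]
    congr 1
    · have : α⁻¹ * (x.re : ℍ[ℚ]) = (x.re : ℍ[ℚ]) * α⁻¹ := (Quaternion.coe_commutes _ _).symm
      rw [this, mul_assoc, inv_mul_cancel₀ hα, mul_one]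
    · simp only [mul_add, add_mul, mul_smul_comm, smul_mul_assoc]
  rw [h1, vec_add, vec_coe, vec_add, vec_add, vec_smul, vec_smul, vec_smul, Fin.sum_univ_three]
  unfold rmat
  ring

/-- the inner product -/
def dot (x y : ℍ[ℚ]) : ℚ := ∑ i, vec x i * vec y i

theorem dot_eq (x y : ℍ[ℚ]) : dot x y = x.re * y.re - (x * y).re := by
  unfold dot
  rw [Fin.sum_univ_three, re_mul]
  simp [vec]
  ring

theorem re_conj {α : ℍ[ℚ]} (hα : α ≠ 0) (x : ℍ[ℚ]) : (α * x * α⁻¹).re = x.re := by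
  have h : ∀ a b : ℍ[ℚ], (a * b).re = (b * a).re := by
    intro a b; rw [re_mul, re_mul]; ring
  rw [h, ← mul_assoc, inv_mul_cancel₀ hα, one_mul]

theorem dot_conj {α : ℍ[ℚ]} (hα : α ≠ 0) (x y : ℍ[ℚ]) :
    dot (α * x * α⁻¹) (α * y * α⁻¹) = dot x y := by
  rw [dot_eq, dot_eq, re_conj hα, re_conj hα]
  have : α * x * α⁻¹ * (α * y * α⁻¹) = α * (x * y) * α⁻¹ := by
    rw [mul_assoc (α * x), ← mul_assoc α⁻¹, ← mul_assoc α⁻¹, inv_mul_cancel₀ hα, one_mul]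
    simp only [mul_assoc]
  rw [this, re_conj hα]

theorem dot_bas (i j : Fin 3) : dot (bas i) (bas j) = if i = j then 1 else 0 := by
  unfold dot
  rw [Fin.sum_univ_three]
  fin_cases i <;> fin_cases j <;> simp [vec, bas]

theorem vec_eq_dot (x : ℍ[ℚ]) (i : Fin 3) : vec x i = dot x (bas i) := by
  unfold dot
  rw [Fin.sum_univ_three]
  fin_cases i <;> simp [vec, bas]

theorem rmat_eq {α : ℍ[ℚ]} (hα : α ≠ 0) (i j : Fin 3) :
    rmat α i j = vec (α * bas i * α⁻¹) j := by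
  unfold rmat
  rw [vec_eq_dot, vec_eq_dot, ← dot_conj hα (α⁻¹ * bas j * α) (bas i)]
  have : α * (α⁻¹ * bas j * α) * α⁻¹ = bas j := by
    rw [← mul_assoc, ← mul_assoc, mul_inv_cancel₀ hα, one_mul, mul_assoc, mul_inv_cancel₀ hα,
      mul_one]
  rw [this]
  unfold dot
  apply Finset.sum_congr rfl
  intro l _
  ring

theorem rmat_orth {α : ℍ[ℚ]} (hα : α ≠ 0) (i i' : Fin 3) :
    ∑ j, rmat α i j * rmat α i' j = if i = i' then 1 else 0 := by
  rw [← dot_bas, ← dot_conj hα (bas i) (bas i')]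
  unfold dot
  apply Finset.sum_congr rfl
  intro j _
  rw [rmat_eq hα, rmat_eq hα]

/-- the complex matrix -/
noncomputable def rC (α : ℍ[ℚ]) : Fin 3 → Fin 3 → ℂ := fun i j => ((rmat α i j : ℚ) : ℂ)

theorem ev_eq (P : MvPolynomial (Fin 3) ℂ) (x : ℍ[ℚ]) :
    ev P x = eval (fun i => ((vec x i : ℚ) : ℂ)) P := by
  unfold ev
  congr 1
  apply congrArg
  funext i
  fin_cases i <;> rfl

theorem ev_lsub {α : ℍ[ℚ]} (hα : α ≠ 0) (P : MvPolynomial (Fin 3) ℂ) (x : ℍ[ℚ]) :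
    ev (lsub (rC α) P) x = ev P (α⁻¹ * x * α) := by
  rw [ev_eq, ev_eq, eval_lsub]
  congr 1
  apply congrArg
  funext i
  rw [vec_conj hα]
  push_cast
  rfl

theorem eq_of_ev {P Q : MvPolynomial (Fin 3) ℂ} (h : ∀ x : ℍ[ℚ], ev P x = ev Q x) : P = Q := by
  apply eq_of_rat
  intro y
  have := h (mk4 0 (y 0) (y 1) (y 2))
  rw [ev_eq, ev_eq] at this
  have e : (fun i => ((vec (mk4 0 (y 0) (y 1) (y 2)) i : ℚ) : ℂ)) = fun i => (y i : ℂ) := by
    funext i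
    fin_cases i <;> rfl
  rwa [e] at this

theorem rC_mul {α β : ℍ[ℚ]} (hα : α ≠ 0) (hβ : β ≠ 0) (P : MvPolynomial (Fin 3) ℂ) :
    lsub (rC α) (lsub (rC β) P) = lsub (rC (α * β)) P := by
  apply eq_of_ev
  intro x
  rw [ev_lsub hα, ev_lsub hβ, ev_lsub (mul_ne_zero hα hβ), mul_inv_rev]
  congr 1
  simp only [mul_assoc]

theorem lap_rC {α : ℍ[ℚ]} (hα : α ≠ 0) (P : MvPolynomial (Fin 3) ℂ) :
    lap (lsub (rC α) P) = lsub (rC α) (lap P) := by
  rw [lap_lsub (rC α) 1]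
  · rw [C_1, one_mul]
  · intro i i'
    have := rmat_orth hα i i'
    unfold rC
    rw [← Finset.sum_congr rfl (fun j _ => Rat.cast_mul (α := ℂ) (rmat α i j) (rmat α i' j)),
      ← Rat.cast_sum, this]
    split_ifs <;> simp

theorem rC_coe {r : ℚ} (hr : r ≠ 0) (P : MvPolynomial (Fin 3) ℂ) :
    lsub (rC (r : ℍ[ℚ])) P = P := by
  apply eq_of_ev
  intro x
  have h0 : (r : ℍ[ℚ]) ≠ 0 := by
    intro h
    apply hr
    have := congrArg QuaternionAlgebra.re h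
    simpa using this
  rw [ev_lsub h0]
  congr 1
  have : (r : ℍ[ℚ])⁻¹ * x = x * (r : ℍ[ℚ])⁻¹ := ((Rat.cast_commute r x).inv_left₀).eq
  rw [this, mul_assoc, inv_mul_cancel₀ h0, mul_one]

/-- pure quaternion from an integer vector -/
def pq (v : Fin 3 → ℤ) : ℍ[ℚ] := mk4 0 (v 0) (v 1) (v 2)

theorem pq_mem (v : Fin 3 → ℤ) : pq v ∈ Hur := by
  unfold pq
  refine ⟨0, v 0, v 1, v 2, by simp, by simp, by simp, by simp⟩

theorem vec_pq (v : Fin 3 → ℤ) (i : Fin 3) : vec (pq v) i = v i := by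
  fin_cases i <;> simp [vec, pq]

theorem normSq_pq (v : Fin 3 → ℤ) : normSq (pq v) = ((v 0 ^ 2 + v 1 ^ 2 + v 2 ^ 2 : ℤ) : ℚ) := by
  rw [normSq_def']; simp [pq]

/-- the matrix of a pure quaternion -/
theorem rmat_pq {v : Fin 3 → ℤ} {N : ℤ} (hN : v 0 ^ 2 + v 1 ^ 2 + v 2 ^ 2 = N) (hN0 : N ≠ 0)
    (i j : Fin 3) : (N : ℚ) * rmat (pq v) i j = 2 * v i * v j - if i = j then (N : ℚ) else 0 := by
  have hNq : (N : ℚ) ≠ 0 := by exact_mod_cast hN0
  have hinv : (pq v)⁻¹ = (-(N : ℚ)⁻¹) • pq v := by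
    apply inv_eq_of_mul_eq_one_right
    rw [mul_smul_comm]
    have h1 : pq v * pq v = (-N : ℚ) • (1 : ℍ[ℚ]) := by
      have hN' : (v 0 : ℚ) ^ 2 + (v 1 : ℚ) ^ 2 + (v 2 : ℚ) ^ 2 = N := by exact_mod_cast hN
      apply ext4
      · rw [re_mul]; simp [pq]; linear_combination -hN'
      · rw [imI_mul]; simp [pq]; ring
      · rw [imJ_mul]; simp [pq]; ring
      · rw [imK_mul]; simp [pq]; ring
    rw [h1, smul_smul]
    have : -(N : ℚ)⁻¹ * (-N : ℚ) = 1 := by field_simp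
    rw [this, one_smul]
  have hN' : (v 0 : ℚ) ^ 2 + (v 1 : ℚ) ^ 2 + (v 2 : ℚ) ^ 2 = N := by exact_mod_cast hN
  unfold rmat
  rw [hinv, smul_mul_assoc, smul_mul_assoc, vec_smul]
  have e : (N : ℚ) * (-(N : ℚ)⁻¹ * vec (pq v * bas j * pq v) i) = -vec (pq v * bas j * pq v) i := by
    field_simp
  rw [e]
  fin_cases i <;> fin_cases j <;>
    simp [vec, bas, pq, re_mul, imI_mul, imJ_mul, imK_mul] <;>
    first
    | ring1
    | linear_combination -hN'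

end Pool.Agent.Helper725_HQ
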