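import Pool.Agent.Helper725_HQ.Eucl
import Pool.Agent.Helper725_HQ.Rot

/-! Forms and Hecke operators. -/

set_option autoImplicit false

namespace Pool.Agent.Helper725_HQ

open Quaternion MvPolynomial

/-- functions on pairs of additive groups -/
abbrev Fun3 := AddSubgroup ℍ[ℚ] → AddSubgroup ℍ[ℚ] → MvPolynomial (Fin 3) ℂ

/-- forms without the harmonicity condition and the condition at `q` -/
structure Form0 (q k : ℕ) (F : Fun3) : Prop where
  supp : ∀ I I', ¬ IsPair q I I' → F I I' = 0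
  hom : ∀ I I', (F I I').IsHomogeneous k
  left : ∀ α : ℍ[ℚ], α ≠ 0 → ∀ I I', F (lm α I) (lm α I') = lsub (rC α) (F I I')
  two : ∀ I I', F (rm ep I) (rm ep I') = F I I'

theorem pair_lm {q : ℕ} {α : ℍ[ℚ]} (hα : α ≠ 0) {I I' : AddSubgroup ℍ[ℚ]} :
    IsPair q (lm α I) (lm α I') ↔ IsPair q I I' := by
  constructor
  · rintro ⟨h1, h2, h3, h4⟩
    refine ⟨(lm_isRI_iff hα).1 h1, (lm_isRI_iff hα).1 h2, ?_, (lm_lt hα).1 h4⟩
    rw [lm_nat_lm, lm_lt hα] at h3
    exact h3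
  · rintro ⟨h1, h2, h3, h4⟩
    refine ⟨(lm_isRI_iff hα).2 h1, (lm_isRI_iff hα).2 h2, ?_, (lm_lt hα).2 h4⟩
    rw [lm_nat_lm, lm_lt hα]
    exact h3

theorem pair_rm {q : ℕ} {I I' : AddSubgroup ℍ[ℚ]} :
    IsPair q (rm ep I) (rm ep I') ↔ IsPair q I I' := by
  constructor
  · rintro ⟨h1, h2, h3, h4⟩
    refine ⟨rm_isRI_iff.1 h1, rm_isRI_iff.1 h2, ?_, (rm_lt ep_ne).1 h4⟩
    rw [lm_rm, rm_lt ep_ne] at h3
    exact h3
  · rintro ⟨h1, h2, h3, h4⟩
    refine ⟨rm_isRI_iff.2 h1, rm_isRI_iff.2 h2, ?_, (rm_lt ep_ne).2 h4⟩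
    rw [lm_rm, rm_lt ep_ne]
    exact h3

theorem pair_swap {q : ℕ} (hq : q ≠ 0) {I I' : AddSubgroup ℍ[ℚ]} :
    IsPair q I' (lm q I) ↔ IsPair q I I' := by
  have hq' : (q : ℍ[ℚ]) ≠ 0 := natH_ne hq
  constructor
  · rintro ⟨h1, h2, h3, h4⟩
    exact ⟨(lm_isRI_iff hq').1 h2, h1, h4, (lm_lt hq').1 h3⟩
  · rintro ⟨h1, h2, h3, h4⟩
    exact ⟨h2, (lm_isRI_iff hq').2 h1, (lm_lt hq').2 h4, h3⟩

/-- the space of forms -/
def W0 (q k : ℕ) : Submodule ℂ Fun3 where
  carrier := {F | Form0 q k F}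
  add_mem' := by
    intro F G hF hG
    refine ⟨fun I I' h => ?_, fun I I' => ?_, fun α hα I I' => ?_, fun I I' => ?_⟩
    · show F I I' + G I I' = 0
      rw [hF.supp I I' h, hG.supp I I' h, add_zero]
    · exact (hF.hom I I').add (hG.hom I I')
    · show F _ _ + G _ _ = lsub (rC α) (F I I' + G I I')
      rw [hF.left α hα, hG.left α hα, map_add]
    · show F _ _ + G _ _ = F I I' + G I I'
      rw [hF.two, hG.two]
  zero_mem' := by
    refine ⟨fun I I' _ => rfl, fun I I' => isHomogeneous_zero _ _ _, fun α hα I I' => ?_,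
      fun I I' => rfl⟩
    show (0 : MvPolynomial (Fin 3) ℂ) = lsub (rC α) 0
    rw [map_zero]
  smul_mem' := by
    intro c F hF
    refine ⟨fun I I' h => ?_, fun I I' => ?_, fun α hα I I' => ?_, fun I I' => ?_⟩
    · show c • F I I' = 0
      rw [hF.supp I I' h, smul_zero]
    · show (c • F I I').IsHomogeneous k
      rw [smul_eq_C_mul]
      exact (hF.hom I I').C_mul c
    · show c • F _ _ = lsub (rC α) (c • F I I')
      rw [hF.left α hα, map_smul]
    · show c • F _ _ = c • F I I'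
      rw [hF.two]

theorem mem_W0 {q k : ℕ} {F : Fun3} : F ∈ W0 q k ↔ Form0 q k F := Iff.rfl

/-- the involution at `q` -/
def ww (q : ℕ) : Fun3 →ₗ[ℂ] Fun3 where
  toFun F := fun I I' => F I' (lm q I)
  map_add' _ _ := rfl
  map_smul' _ _ := rfl

theorem ww_apply (q : ℕ) (F : Fun3) (I I' : AddSubgroup ℍ[ℚ]) : ww q F I I' = F I' (lm q I) := rfl

theorem ww_form {q k : ℕ} (hq : q ≠ 0) {F : Fun3} (hF : Form0 q k F) : Form0 q k (ww q F) := by
  refine ⟨fun I I' h => ?_, fun I I' => hF.hom _ _, fun α hα I I' => ?_, fun I I' => ?_⟩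
  · rw [ww_apply]
    exact hF.supp _ _ (fun h' => h ((pair_swap hq).1 h'))
  · rw [ww_apply, ww_apply, lm_nat_lm, hF.left α hα]
  · rw [ww_apply, ww_apply, lm_rm, hF.two]

theorem ww_ww {q k : ℕ} (hq : q ≠ 0) {F : Fun3} (hF : Form0 q k F) : ww q (ww q F) = F := by
  funext I I'
  rw [ww_apply, ww_apply, hF.left _ (natH_ne hq)]
  have : (q : ℍ[ℚ]) = ((q : ℚ) : ℍ[ℚ]) := by
    rw [Rat.cast_natCast]
  rw [this, rC_coe (by exact_mod_cast hq)]

open Classical in
/-- the Hecke operator as a function -/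
noncomputable def T0 (q p : ℕ) (F : Fun3) : Fun3 := fun I I' =>
  if IsPair q I I' then ∑ᶠ J ∈ Sp p I, F J (J ⊓ I') else 0

theorem T0_pos {q p : ℕ} {F : Fun3} {I I' : AddSubgroup ℍ[ℚ]} (h : IsPair q I I') :
    T0 q p F I I' = ∑ᶠ J ∈ Sp p I, F J (J ⊓ I') := by
  unfold T0
  rw [if_pos h]

theorem T0_neg {q p : ℕ} {F : Fun3} {I I' : AddSubgroup ℍ[ℚ]} (h : ¬ IsPair q I I') :
    T0 q p F I I' = 0 := by
  unfold T0
  rw [if_neg h]

/-- the Hecke operator -/
noncomputable def TL (q p : ℕ) (hp : p.Prime) : Fun3 →ₗ[ℂ] Fun3 where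
  toFun := T0 q p
  map_add' F G := by
    funext I I'
    rw [Pi.add_apply, Pi.add_apply]
    by_cases h : IsPair q I I'
    · rw [T0_pos h, T0_pos h, T0_pos h, ← finsum_mem_add_distrib (Sp_finite hp h.fst)]
      rfl
    · rw [T0_neg h, T0_neg h, T0_neg h, add_zero]
  map_smul' c F := by
    funext I I'
    rw [Pi.smul_apply, Pi.smul_apply]
    by_cases h : IsPair q I I'
    · rw [T0_pos h, T0_pos h, RingHom.id_apply, smul_finsum_mem (Sp_finite hp h.fst)]
      rfl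
    · rw [T0_neg h, T0_neg h, smul_zero]

section
variable {q p : ℕ} (hp : p.Prime)

theorem TL_apply {F : Fun3} {I I' : AddSubgroup ℍ[ℚ]} (h : IsPair q I I') :
    TL q p hp F I I' = ∑ᶠ J ∈ Sp p I, F J (J ⊓ I') := T0_pos h

theorem TL_apply' {F : Fun3} {I I' : AddSubgroup ℍ[ℚ]} (h : ¬ IsPair q I I') :
    TL q p hp F I I' = 0 := T0_neg h

theorem TL_form {k : ℕ} {F : Fun3} (hF : Form0 q k F) : Form0 q k (TL q p hp F) := by
  refine ⟨fun I I' h => TL_apply' hp h, fun I I' => ?_, fun α hα I I' => ?_, fun I I' => ?_⟩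
  · by_cases h : IsPair q I I'
    · rw [TL_apply hp h, finsum_mem_eq_finite_toFinset_sum _ (Sp_finite hp h.fst)]
      exact IsHomogeneous.sum _ _ _ (fun J _ => hF.hom _ _)
    · rw [TL_apply' hp h]
      exact isHomogeneous_zero _ _ _
  · by_cases h : IsPair q I I'
    · rw [TL_apply hp h, TL_apply hp ((pair_lm hα).2 h), Sp_lm hα,
        finsum_mem_image ((lm_injective hα).injOn)]
      have e : ∀ J ∈ Sp p I, F (lm α J) (lm α J ⊓ lm α I') = lsub (rC α) (F J (J ⊓ I')) := by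
        intro J _
        rw [← lm_inf hα, hF.left α hα]
      rw [finsum_mem_congr rfl e]
      exact ((lsub (rC α) : MvPolynomial (Fin 3) ℂ →+ MvPolynomial (Fin 3) ℂ).map_finsum_mem _
        (Sp_finite hp h.fst)).symm
    · rw [TL_apply' hp h, TL_apply' hp (fun h' => h ((pair_lm hα).1 h')), map_zero]
  · by_cases h : IsPair q I I'
    · rw [TL_apply hp h, TL_apply hp (pair_rm.2 h), Sp_rm,
        finsum_mem_image ((rm_injective ep_ne).injOn)]
      apply finsum_mem_congr rfl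
      intro J _
      rw [← rm_inf ep_ne, hF.two]
    · rw [TL_apply' hp h, TL_apply' hp (fun h' => h (pair_rm.1 h'))]

theorem TL_ww (hpq : p.Coprime q) (hq : q ≠ 0) (F : Fun3) :
    TL q p hp (ww q F) = ww q (TL q p hp F) := by
  funext I I'
  rw [ww_apply]
  by_cases h : IsPair q I I'
  · rw [TL_apply hp h, TL_apply hp ((pair_swap hq).2 h)]
    apply finsum_mem_eq_of_bijOn (fun J => J ⊓ I')
    · refine ⟨fun J hJ => inf_mem_Sp hpq hp.ne_zero hq h hJ, ?_, ?_⟩
      · intro J hJ K hK hJK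
        rw [← inf_sup hpq h hJ, ← inf_sup hpq h hK]
        have : J ⊓ I' = K ⊓ I' := hJK
        rw [this]
      · intro J' hJ'
        exact ⟨J' ⊔ lm p I, sup_mem_Sp hpq hp.ne_zero h hJ', sup_inf hpq h hJ'⟩
    · intro J hJ
      show F (J ⊓ I') (lm q J) = F (J ⊓ I') ((J ⊓ I') ⊓ lm q I)
      congr 1
      rw [inf_assoc, inf_eq_right.2 h.lt₁.le, inf_lm hpq hJ]
  · rw [TL_apply' hp h, TL_apply' hp (fun h' => h ((pair_swap hq).1 h'))]

theorem TL_comm {r : ℕ} (hr : r.Prime) (hpr : p ≠ r) (hpq : p.Coprime q) (hrq : r.Coprime q)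
    (hq : q ≠ 0) (F : Fun3) :
    TL q p hp (TL q r hr F) = TL q r hr (TL q p hp F) := by
  have key : ∀ (p r : ℕ) (hp : p.Prime) (hr : r.Prime), p ≠ r → p.Coprime q → r.Coprime q →
      ∀ I I', IsPair q I I' → TL q p hp (TL q r hr F) I I' =
      ∑ᶠ K ∈ ⋃ J ∈ Sp p I, Sp r J, F K (K ⊓ I') := by
    intro p r hp hr hpr hpq hrq I I' h
    have hco : p.Coprime r := (Nat.coprime_primes hp hr).2 hpr
    rw [TL_apply hp h, finsum_mem_biUnion]
    · apply finsum_mem_congr rfl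
      intro J hJ
      rw [TL_apply hr (pair_inf hpq hp.ne_zero hq h hJ)]
      apply finsum_mem_congr rfl
      intro K hK
      rw [← inf_assoc, inf_eq_left.2 hK.2.2.le]
    · intro J hJ J' hJ' hne
      rw [Function.onFun, Set.disjoint_left]
      intro K hK hK'
      apply hne
      rw [← sup_two hco hJ hK, sup_two hco hJ' hK']
    · exact Sp_finite hp h.fst
    · intro J hJ
      exact Sp_finite hr hJ.1
  funext I I'
  by_cases h : IsPair q I I'
  · rw [key p r hp hr hpr hpq hrq I I' h, key r p hr hp (Ne.symm hpr) hrq hpq I I' h,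
      biUnion_swap ((Nat.coprime_primes hp hr).2 hpr) hp.ne_zero hr.ne_zero h.fst]
  · rw [TL_apply' hp h, TL_apply' hr h]

end

end Pool.Agent.Helper725_HQ
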