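import Pool.Agent.Helper725_HQ.DDefs

/-! Algebraic modular forms on the Hamilton quaternions of conductor two or four which have slope
one at three. -/

set_option autoImplicit false

namespace Pool.Agent.Helper725_HQ

open Quaternion MvPolynomial NumberField
open scoped nonZeroDivisors

/-- A form of degree `k` on the pairs `(I, I')` of `PairC c`. It is invariant under right
multiplication by `1 + i`, and for `c = 4` its sums over the three groups `I'` vanish: its
component at two is trivial if `c = 2`, and it belongs to the two-dimensional representation of the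
quotient (isomorphic to the symmetric group of degree three) of the multiplicative group of the
quaternion algebra over `ℚ₂` by its centre and its principal units if `c = 4`. Its values are
harmonic homogeneous polynomials of degree `k` on the space of pure quaternions. -/
structure IsFormS (c k : ℕ)
    (F : AddSubgroup ℍ[ℚ] → AddSubgroup ℍ[ℚ] → MvPolynomial (Fin 3) ℂ) : Prop where
  supp : ∀ I I', ¬ PairC c I I' → F I I' = 0
  hom : ∀ I I', (F I I').IsHomogeneous k
  harm : ∀ I I', ∑ i, pderiv i (pderiv i (F I I')) = 0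
  left : ∀ α : ℍ[ℚ], α ≠ 0 → ∀ I I', PairC c I I' → ∀ x,
    ev (F (lm α I) (lm α I')) (α * x * α⁻¹) = ev (F I I') x
  two : ∀ I I', PairC c I I' → F (rm (mk4 1 1 0 0) I) (rm (mk4 1 1 0 0) I') = F I I'
  tr : c = 4 → ∀ I, IsRI I → ∑ᶠ I' ∈ {I' : AddSubgroup ℍ[ℚ] | PairC c I I'}, F I I' = 0

/-- a Hecke eigenform which has slope one at some place above three -/
structure SlopeC (c k : ℕ)
    (F : AddSubgroup ℍ[ℚ] → AddSubgroup ℍ[ℚ] → MvPolynomial (Fin 3) ℂ) : Prop where
  form : IsFormS c k F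
  ne_zero : ∃ I I', F I I' ≠ 0
  eigen : ∀ p : ℕ, p.Prime → p ≠ 2 → ∃ lam : ℂ, ∀ I I', PairC c I I' →
    hecke p F I I' = lam • F I I'
  slope : ∃ V : ValuationSubring ℂ, V.valuation 3 < 1 ∧ ∃ lam : ℂ,
    (∀ I I', PairC c I I' → hecke 3 F I I' = lam • F I I') ∧
    V.valuation (3 ^ k * lam) = V.valuation 3

/-- Some toric period of `F` along `K` does not vanish. -/
def NonvanPerS (c : ℕ) (F : AddSubgroup ℍ[ℚ] → AddSubgroup ℍ[ℚ] → MvPolynomial (Fin 3) ℂ)
    (K : Type) [Field K] [NumberField K] : Prop :=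
  ∃ (ι : K →+* ℍ[ℚ]) (I I' : AddSubgroup ℍ[ℚ]), PairC c I I' ∧
    (∀ a : 𝓞 K, ∀ y ∈ I, ι (a : K) * y ∈ I) ∧ (∀ a : 𝓞 K, ∀ y ∈ I', ι (a : K) * y ∈ I') ∧
    ∃ s : K, s ≠ 0 ∧ (ι s).re = 0 ∧
    ∀ rep : ClassGroup (𝓞 K) → (Ideal (𝓞 K))⁰, (∀ c, ClassGroup.mk0 (rep c) = c) →
      torp F ι rep I I' s ≠ 0

end Pool.Agent.Helper725_HQ
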