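import Pool.Agent.Helper725_HQ.GDefs
import Pool.Agent.Helper725_HQ.DUni
import Pool.Agent.Helper725_HQ.LUni
import Pool.Agent.Helper725_HQ.SUni

/-! Simultaneous nonvanishing of the periods of all eigenforms of conductor two or four which have
slope one at three. -/

set_option autoImplicit false
set_option linter.unusedSimpArgs false
set_option linter.unnecessarySeqFocus false

namespace Pool.Agent.Helper725_HQ

open Quaternion MvPolynomial NumberField
open scoped nonZeroDivisors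

section
variable {k : ℕ} {F : AddSubgroup ℍ[ℚ] → AddSubgroup ℍ[ℚ] → MvPolynomial (Fin 3) ℂ}

theorem hecke_diag (p : ℕ) (I : AddSubgroup ℍ[ℚ]) :
    hecke1 p (fun I => F I I) I = hecke p F I I := by
  unfold hecke1 hecke
  apply finsum_mem_congr rfl
  intro J hJ
  rw [inf_eq_left.2 hJ.2.2.le]

/-- the form of level one attached to a form of type two -/
theorem slopeC_two (h : SlopeC 2 k F) : SlopeOne k (fun I => F I I) := by
  have pr : ∀ {I : AddSubgroup ℍ[ℚ]}, IsRI I → PairC 2 I I := fun hI => pairC_two.2 ⟨hI, rfl⟩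
  refine ⟨⟨?_, fun I => h.form.hom _ _, fun I => h.form.harm _ _, ?_, ?_⟩, ?_, ?_, ?_⟩
  · intro I hI
    apply h.form.supp
    intro h1
    exact hI (pairC_two.1 h1).1
  · intro α hα I hI x
    exact h.form.left α hα I I (pr hI) x
  · intro I hI
    exact h.form.two I I (pr hI)
  · obtain ⟨I, I', h1⟩ := h.ne_zero
    have h2 : PairC 2 I I' := by
      by_contra h2
      exact h1 (h.form.supp I I' h2)
    refine ⟨I, ?_⟩
    rw [(pairC_two.1 h2).2] at h1
    exact h1
  · intro p hp hp2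
    obtain ⟨lam, hl⟩ := h.eigen p hp hp2
    exact ⟨lam, fun I hI => by rw [hecke_diag]; exact hl I I (pr hI)⟩
  · obtain ⟨V, hV, lam, hl, hv⟩ := h.slope
    exact ⟨V, hV, lam, fun I hI => by rw [hecke_diag]; exact hl I I (pr hI), hv⟩

theorem slopeC_four (h : SlopeC 4 k F) : SlopeOne4 k F := by
  refine ⟨⟨?_, h.form.hom, h.form.harm, ?_, ?_, ?_⟩, h.ne_zero, ?_, ?_⟩
  · intro I I' hI
    apply h.form.supp
    intro h1
    exact hI (pairC_four.1 h1)
  · intro α hα I I' hI x
    exact h.form.left α hα I I' (pairC_four.2 hI) x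
  · intro I I' hI
    exact h.form.two I I' (pairC_four.2 hI)
  · intro I hI
    have h1 := h.form.tr rfl I hI
    have e : {I' : AddSubgroup ℍ[ℚ] | PairC 4 I I'} = {I' | IsPair4 I I'} := by
      ext I'
      exact pairC_four
    rwa [e] at h1
  · intro p hp hp2
    obtain ⟨lam, hl⟩ := h.eigen p hp hp2
    exact ⟨lam, fun I I' hI => hl I I' (pairC_four.2 hI)⟩
  · obtain ⟨V, hV, lam, hl, hv⟩ := h.slope
    exact ⟨V, hV, lam, fun I I' hI => hl I I' (pairC_four.2 hI), hv⟩

theorem slopeC_of_four (h : SlopeOne4 k F) : SlopeC 4 k F := by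
  refine ⟨⟨?_, h.form.hom, h.form.harm, ?_, ?_, ?_⟩, h.ne_zero, ?_, ?_⟩
  · intro I I' hI
    apply h.form.supp
    intro h1
    exact hI (pairC_four.2 h1)
  · intro α hα I I' hI x
    exact h.form.left α hα I I' (pairC_four.1 hI) x
  · intro I I' hI
    exact h.form.two I I' (pairC_four.1 hI)
  · intro _ I hI
    have h1 := h.form.tr I hI
    have e : {I' : AddSubgroup ℍ[ℚ] | PairC 4 I I'} = {I' | IsPair4 I I'} := by
      ext I'
      exact pairC_four
    rw [e]
    exact h1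
  · intro p hp hp2
    obtain ⟨lam, hl⟩ := h.eigen p hp hp2
    exact ⟨lam, fun I I' hI => hl I I' (pairC_four.1 hI)⟩
  · obtain ⟨V, hV, lam, hl, hv⟩ := h.slope
    exact ⟨V, hV, lam, fun I I' hI => hl I I' (pairC_four.1 hI), hv⟩

open Classical in
theorem slopeC_of_two {G : AddSubgroup ℍ[ℚ] → MvPolynomial (Fin 3) ℂ} (h : SlopeOne k G) :
    SlopeC 2 k (fun I I' => if I' = I then G I else 0) := by
  obtain ⟨F, hF⟩ : ∃ F : AddSubgroup ℍ[ℚ] → AddSubgroup ℍ[ℚ] → MvPolynomial (Fin 3) ℂ,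
    F = fun I I' => if I' = I then G I else 0 := ⟨_, rfl⟩
  rw [← hF]
  have hd : ∀ I, F I I = G I := by
    intro I
    rw [hF]
    exact if_pos rfl
  have hd' : (fun I => F I I) = G := funext hd
  refine ⟨⟨?_, ?_, ?_, ?_, ?_, ?_⟩, ?_, ?_, ?_⟩
  · intro I I' hI
    rw [hF]
    show (if I' = I then G I else 0) = 0
    split_ifs with h1
    · apply h.form.supp
      intro h2
      exact hI (pairC_two.2 ⟨h2, h1⟩)
    · rfl
  · intro I I'
    rw [hF]
    show (if I' = I then G I else 0).IsHomogeneous k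
    split_ifs with h1
    · exact h.form.hom I
    · exact isHomogeneous_zero _ _ _
  · intro I I'
    rw [hF]
    show ∑ i, pderiv i (pderiv i (if I' = I then G I else 0)) = 0
    split_ifs with h1
    · exact h.form.harm I
    · simp
  · intro α hα I I' hI x
    obtain ⟨h1, rfl⟩ := pairC_two.1 hI
    rw [hd, hd]
    exact h.form.left α hα _ h1 x
  · intro I I' hI
    obtain ⟨h1, rfl⟩ := pairC_two.1 hI
    rw [hd, hd]
    exact h.form.two _ h1
  · intro h2
    omega
  · obtain ⟨I, hI⟩ := h.ne_zero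
    exact ⟨I, I, by rw [hd]; exact hI⟩
  · intro p hp hp2
    obtain ⟨lam, hl⟩ := h.eigen p hp hp2
    refine ⟨lam, fun I I' hI => ?_⟩
    obtain ⟨h1, rfl⟩ := pairC_two.1 hI
    rw [← hecke_diag, hd', hd]
    exact hl _ h1
  · obtain ⟨V, hV, lam, hl, hv⟩ := h.slope
    refine ⟨V, hV, lam, fun I I' hI => ?_, hv⟩
    obtain ⟨h1, rfl⟩ := pairC_two.1 hI
    rw [← hecke_diag, hd', hd]
    exact hl _ h1

theorem exists_slopeC {c : ℕ} (hk : Even k)
    (h : c = 2 ∧ k ≠ 0 ∧ k % 3 ≠ 2 ∨ c = 4 ∧ k % 3 ≠ 0) : ∃ F, SlopeC c k F := by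
  rcases h with ⟨rfl, h1, h2⟩ | ⟨rfl, h1⟩
  · obtain ⟨G, hG⟩ := exists_slopeOne hk h1 h2
    exact ⟨_, slopeC_of_two hG⟩
  · obtain ⟨F, hF⟩ := exists_slopeOne4 hk h1
    exact ⟨F, slopeC_of_four hF⟩

theorem nonvanPerS_two {K : Type} [Field K] [NumberField K] (h : NonvanPer1 (fun I => F I I) K) :
    NonvanPerS 2 F K := by
  obtain ⟨ι, I, b1, b2, s, b3, b4, b5⟩ := h
  exact ⟨ι, I, I, pairC_two.2 ⟨b1, rfl⟩, b2, b2, s, b3, b4, b5⟩

theorem nonvanPerS_four {K : Type} [Field K] [NumberField K] (h : NonvanPer4 F K) :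
    NonvanPerS 4 F K := by
  obtain ⟨ι, I, I', b1, b2, b3, s, b4, b5, b6⟩ := h
  exact ⟨ι, I, I', pairC_four.2 b1, b2, b3, s, b4, b5, b6⟩

end

/-- simultaneous nonvanishing -/
theorem manySlope (T : Finset ℕ) (hT : ∀ p ∈ T, p.Prime)
    (δ : ∀ (p : ℕ) [Fact p.Prime], ℚ_[p]) (hδ0 : ∀ (p : ℕ) [Fact p.Prime], δ p ≠ 0)
    (hδ2 : ¬ IsSquare (δ 2)) :
    ∃ c : ℝ, 0 < c ∧ ∃ x₀ : ℝ, ∀ x : ℝ, x₀ ≤ x → ∃ S : Finset (IntermediateField ℚ ℂ),
      c * x ≤ (S.card : ℝ) ∧ ∀ E ∈ S, ∃ _ : NumberField E, Module.finrank ℚ E = 2 ∧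
        |(discr E : ℝ)| < x ∧ (∀ p ∈ T, ∀ [Fact p.Prime], Loc p (δ p) E) ∧
        ∀ c k : ℕ, Even k → k ≠ 0 →
          (c = 2 ∧ k % 3 ≠ 2 ∧ (3 ∈ T → k % 3 = 0 ∨ ¬ IsSquare (3 * δ 3)) ∨
            c = 4 ∧ ¬ IsSquare (-3 * δ 2) ∧ (3 ∈ T → ¬ IsSquare (-3 * δ 3))) →
          ∀ F, SlopeC c k F → NonvanPerS c F E := by
  classical
  obtain ⟨δ₃, h30, h31, h32⟩ : ∃ δ₃ : ℚ_[3], δ₃ ≠ 0 ∧ (3 ∉ T → δ₃ = 1) ∧
      (3 ∈ T → δ₃ = δ 3) := by
    by_cases h : 3 ∈ T
    · exact ⟨δ 3, hδ0 3, fun h' => absurd h h', fun _ => rfl⟩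
    · exact ⟨1, one_ne_zero, fun _ => rfl, fun h' => absurd h' h⟩
  obtain ⟨c', hc', x₀, hx₀⟩ := Pool.Agent.Helper725_DH.fields_manyU (hδ0 2) hδ2 h30
    (T.filter (fun p => 5 ≤ p)) (fun p hp => ⟨hT p (Finset.mem_filter.1 hp).1,
      (Finset.mem_filter.1 hp).2⟩) δ (fun p _ _ => hδ0 p)
  refine ⟨c', hc', x₀, ?_⟩
  intro x hx
  obtain ⟨S, hS, hSd⟩ := hx₀ x hx
  refine ⟨S.image Ed, ?_, ?_⟩
  · rw [Finset.card_image_of_injOn]
    · exact hS
    · intro d hd d' hd' h
      obtain ⟨a1, a2, _⟩ := hSd d hd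
      obtain ⟨b1, b2, _⟩ := hSd d' hd'
      exact Ed_inj a1 a2 b1 b2 h
  · intro E hE
    obtain ⟨d, hd, rfl⟩ := Finset.mem_image.1 hE
    obtain ⟨a1, a3, a4, a5, a6, a7, a8⟩ := hSd d hd
    have hd0 : 0 < d := by omega
    have hns : ¬ IsSquare (-(d : ℚ)) := by
      rintro ⟨q, hq⟩
      exact Pool.Agent.Helper725_DH.IQ.not_sq hd0 q (by rw [hq]; ring)
    have h9 : ¬ 9 ∣ d := by
      intro h
      have := a1 3 (by norm_num; exact h)
      rw [Nat.isUnit_iff] at this
      omega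
    have hd2 : -(d : ℚ_[2]) ≠ 0 := by
      rw [neg_ne_zero]; exact_mod_cast hd0.ne'
    have hd3 : -(d : ℚ_[3]) ≠ 0 := by
      rw [neg_ne_zero]; exact_mod_cast hd0.ne'
    refine ⟨inferInstance, Ed_rank hd0, ?_, ?_, ?_⟩
    · rw [Ed_discr a1 a3]
      split_ifs at a4 ⊢ with h
      · push_cast
        rw [abs_neg, abs_of_nonneg (by positivity)]
        exact a4
      · push_cast
        rw [abs_neg, abs_of_nonneg (by positivity)]
        exact a4
    · intro p hp hpf
      refine ⟨-(d : ℚ), xd d, ?_, hns, ?_⟩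
      · rw [xd_sq]; push_cast; rfl
      · push_cast
        by_cases h5 : 5 ≤ p
        · exact a7 p (Finset.mem_filter.2 ⟨hp, h5⟩)
        · have h6 := (hT p hp).two_le
          have h7 : p ≠ 4 := by
            rintro rfl
            exact absurd (hT 4 hp) (by norm_num)
          have h8 : p = 2 ∨ p = 3 := by omega
          rcases h8 with rfl | rfl
          · exact a5
          · rw [h32 hp] at a6
            exact a6
    · intro c k hk hk0 hc F hF
      rcases hc with ⟨rfl, hk3, hδ3⟩ | ⟨rfl, hδ2', hδ3⟩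
      · apply nonvanPerS_two
        have hG := slopeC_two hF
        obtain ⟨G, hGe⟩ : ∃ G : AddSubgroup ℍ[ℚ] → MvPolynomial (Fin 3) ℂ, G = fun I => F I I :=
          ⟨_, rfl⟩
        rw [← hGe] at hG ⊢
        obtain ⟨V, hV3, lam, hlam, hval⟩ := hG.slope
        have hV : Thr V := thr_of_val hV3
        have h3v : V.valuation (3 : ℂ) ≠ 0 := (Valuation.ne_zero_iff _).2 (by norm_num)
        obtain ⟨w, hw, hw'⟩ : ∃ w : V, (w : ℂ) = 3 ^ k * lam / 3 ∧ rs V w ≠ 0 := by
          apply unit_of_val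
          rw [map_div₀, hval, div_self h3v]
        have hlw : (3 : ℂ) ^ k * lam = 3 * (w : ℂ) := by
          rw [hw]; ring
        have hF := form1_of_isForm1 hG.form
        have hF0 : G ≠ 0 := by
          rintro h0
          obtain ⟨I, hI⟩ := hG.ne_zero
          rw [h0] at hI
          exact hI rfl
        have he := TL1_of_hecke1 p3 hG.form hlam
        have hsq : k % 3 = 0 ∨ ¬ IsSquare (3 * δ₃) := by
          by_cases h : 3 ∈ T
          · rw [h32 h]; exact hδ3 h
          · right; rw [h31 h]; exact not_sq_three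
        have hgood : d % 3 ≠ 0 ∨ d % 9 = 3 ∨ (d % 9 = 6 ∧ k % 3 = 0) := by
          by_cases h3 : d % 3 = 0
          · right
            by_cases h6 : d % 9 = 6
            · right
              refine ⟨h6, ?_⟩
              rcases hsq with h | h
              · exact h
              · exfalso
                apply h
                have h5 := (sq_six h6).mul a6
                have hdne : (d : ℚ_[3]) ≠ 0 := by exact_mod_cast hd0.ne'
                have h7 : IsSquare (((d : ℚ_[3])⁻¹) ^ 2) := ⟨(d : ℚ_[3])⁻¹, by ring⟩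
                have h8 := h5.mul h7
                have e : -(d : ℚ_[3]) * 3 * (-(d : ℚ_[3]) * δ₃) * ((d : ℚ_[3])⁻¹) ^ 2 = 3 * δ₃ := by
                  field_simp
                rw [e] at h8
                exact h8
            · left
              omega
          · left
            exact h3
        obtain ⟨c, hc, r, hr, H⟩ := slope_val hV hk hk0 hk3 hF hF0 he hw' hlw h9 hgood
        exact nonvan_one1 hV hF hr H a1 a3 (Ed_rank hd0) (xd_sq d)
          (a8 (Ed d) (Ed_rank hd0) ⟨xd d, xd_sq d⟩)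
      · apply nonvanPerS_four
        have hG := slopeC_four hF
        have h8 : d % 4 = 1 ∨ d % 4 = 2 := by
          rcases a3 with h | h
          · exact absurd (sq_transfer hd2 (sq_two_m h) a5) hδ2'
          · exact h
        have h31' : ¬ IsSquare (-3 * δ₃) := by
          by_cases h : 3 ∈ T
          · rw [h32 h]; exact hδ3 h
          · rw [h31 h]; exact not_sq_three_m
        have hgood : d % 3 ≠ 0 ∨ d % 9 = 6 := by
          by_cases h3 : d % 3 = 0
          · right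
            by_cases h6 : d % 9 = 3
            · exact absurd (sq_transfer hd3 (sq_three_m h6) a6) h31'
            · omega
          · exact Or.inl h3
        obtain ⟨V, hV3, lam, hlam, hval⟩ := hG.slope
        have hV := thr_of_val hV3
        have h3v : V.valuation 3 ≠ 0 := by
          rw [Valuation.ne_zero_iff]; norm_num
        obtain ⟨w, hw, hw'⟩ : ∃ w : V, (w : ℂ) = 3 ^ k * lam / 3 ∧ rs V w ≠ 0 := by
          apply unit_of_val
          rw [map_div₀, hval, div_self h3v]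
        have hlw : (3 : ℂ) ^ k * lam = 3 * (w : ℂ) := by
          rw [hw]; ring
        have hF' := form4_of_isForm4 hG.form
        have hF0 : F ≠ 0 := by
          rintro h0
          obtain ⟨I, I', hI⟩ := hG.ne_zero
          rw [h0] at hI
          exact hI rfl
        have he := TL4_of_hecke p3 hG.form hlam
        obtain ⟨c, hc, r, hr, H⟩ := slope_val4 hV hk hk0 hF' hF0 he hw' hlw h9 hgood
        exact nonvan_one4 hV hF' hr H a1 h8 (Ed_rank hd0) (xd_sq d)
          (a8 (Ed d) (Ed_rank hd0) ⟨xd d, xd_sq d⟩)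

end Pool.Agent.Helper725_HQ
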