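import Pool.Agent.Helper725_HQ.Form

/-! The normalizer of the Hurwitz order acts. -/

set_option autoImplicit false
set_option linter.unusedSimpArgs false
set_option linter.unnecessarySeqFocus false

namespace Pool.Agent.Helper725_HQ

open Quaternion MvPolynomial

/-- elements normalizing the Hurwitz order, together with their action on forms -/
structure Gam (γ : ℍ[ℚ]) : Prop where
  ne : γ ≠ 0
  eqv : ∀ {q k : ℕ} {F : Fun3}, Form0 q k F → ∀ x : ℍ[ℚ],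
    F Oo (lm (γ * x * γ⁻¹) Oo) = lsub (rC γ) (F Oo (lm x Oo))
  conj : ∀ x ∈ Hur, γ⁻¹ * x * γ ∈ Hur
  conj' : ∀ x ∈ Hur, γ * x * γ⁻¹ ∈ Hur

theorem inv_unit {u : ℍ[ℚ]} (h : normSq u = 1) : u⁻¹ = star u := by
  apply inv_eq_of_mul_eq_one_right
  rw [self_mul_star, h, Quaternion.coe_one]

theorem gam_unit {u : ℍ[ℚ]} (hu : u ∈ Hur) (h : normSq u = 1) : Gam u := by
  have hne : u ≠ 0 := by
    rw [← normSq_ne_zero, h]; norm_num
  have hs : star u ∈ Hur := star_mem hu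
  refine ⟨hne, ?_, ?_, ?_⟩
  · intro q k F hF x
    have h1 : lm u⁻¹ Oo = Oo := by
      rw [inv_unit h]
      exact mem_of_unit hs (by rw [normSq_star, h])
    rw [← lm_lm, h1, ← lm_lm]
    conv_lhs => rw [← mem_of_unit hu h, lm_lm u x, lm_lm]
    rw [mem_of_unit hu h]
    have h2 := hF.left u hne Oo (lm x Oo)
    rw [mem_of_unit hu h, lm_lm] at h2
    rw [← h2]
    rw [← lm_lm (u * x) u, mem_of_unit hu h]
  · intro x hx
    rw [inv_unit h]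
    exact Hur.mul_mem (Hur.mul_mem hs hx) hu
  · intro x hx
    rw [inv_unit h]
    exact Hur.mul_mem (Hur.mul_mem hu hx) hs

theorem rm_ep_Oo : rm ep Oo = lm ep Oo := by
  ext x
  rw [mem_rm, mem_lm]
  constructor
  · rintro ⟨y, hy, rfl⟩
    refine ⟨ep⁻¹ * y * ep, ep_conj' hy, ?_⟩
    rw [← mul_assoc, ← mul_assoc, mul_inv_cancel₀ ep_ne, one_mul]
  · rintro ⟨y, hy, rfl⟩
    refine ⟨ep * y * ep⁻¹, ep_conj hy, ?_⟩
    rw [mul_assoc, inv_mul_cancel₀ ep_ne, mul_one]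

theorem gam_ep : Gam ep := by
  refine ⟨ep_ne, ?_, fun x hx => ep_conj' hx, fun x hx => ep_conj hx⟩
  intro q k F hF x
  have h1 := hF.two Oo (lm (ep * x * ep⁻¹) Oo)
  have h2 : rm ep (lm (ep * x * ep⁻¹) Oo) = lm ep (lm x Oo) := by
    rw [← lm_rm, rm_ep_Oo, lm_lm, lm_lm, mul_assoc, inv_mul_cancel₀ ep_ne, mul_one]
  rw [← h1, rm_ep_Oo, h2, hF.left ep ep_ne]

theorem gam_mul {γ δ : ℍ[ℚ]} (hγ : Gam γ) (hδ : Gam δ) : Gam (γ * δ) := by
  refine ⟨mul_ne_zero hγ.ne hδ.ne, ?_, ?_, ?_⟩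
  · intro q k F hF x
    have e : γ * δ * x * (γ * δ)⁻¹ = γ * (δ * x * δ⁻¹) * γ⁻¹ := by
      rw [mul_inv_rev]; simp only [mul_assoc]
    rw [e, hγ.eqv hF, hδ.eqv hF, rC_mul hγ.ne hδ.ne]
  · intro x hx
    have e : (γ * δ)⁻¹ * x * (γ * δ) = δ⁻¹ * (γ⁻¹ * x * γ) * δ := by
      rw [mul_inv_rev]; simp only [mul_assoc]
    rw [e]
    exact hδ.conj _ (hγ.conj x hx)
  · intro x hx
    have e : γ * δ * x * (γ * δ)⁻¹ = γ * (δ * x * δ⁻¹) * γ⁻¹ := by
      rw [mul_inv_rev]; simp only [mul_assoc]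
    rw [e]
    exact hγ.conj' _ (hδ.conj' x hx)

theorem gam_rat {c : ℚ} (hc : c ≠ 0) : Gam (c : ℍ[ℚ]) := by
  have h0 : (c : ℍ[ℚ]) ≠ 0 := by
    intro h
    apply hc
    have := congrArg QuaternionAlgebra.re h
    simpa using this
  have h1 : ∀ x : ℍ[ℚ], (c : ℍ[ℚ]) * x * (c : ℍ[ℚ])⁻¹ = x := by
    intro x
    rw [(Rat.cast_commute c x).eq, mul_assoc, mul_inv_cancel₀ h0, mul_one]
  have h2 : ∀ x : ℍ[ℚ], (c : ℍ[ℚ])⁻¹ * x * (c : ℍ[ℚ]) = x := by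
    intro x
    rw [mul_assoc, ← (Rat.cast_commute c x).eq, ← mul_assoc, inv_mul_cancel₀ h0, one_mul]
  refine ⟨h0, ?_, ?_, ?_⟩
  · intro q k F hF x
    rw [h1, rC_coe hc]
  · intro x hx; rwa [h2]
  · intro x hx; rwa [h1]

theorem ratmul (c : ℚ) (x : ℍ[ℚ]) : (c : ℍ[ℚ]) * x = c • x := by
  rw [← Rat.smul_def]

theorem gam_int (a b c d : ℤ) (h : (a ^ 2 + b ^ 2 + c ^ 2 + d ^ 2 = 1) ∨
    (a ^ 2 + b ^ 2 + c ^ 2 + d ^ 2 = 2 ∧ (a + b + c + d) % 2 = 0) ∨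
    (a ^ 2 + b ^ 2 + c ^ 2 + d ^ 2 = 4 ∧ a % 2 = 1 ∧ b % 2 = 1 ∧ c % 2 = 1 ∧ d % 2 = 1)) :
    Gam (mk4 a b c d) := by
  rcases h with h | ⟨h, h'⟩ | ⟨h, h1, h2, h3, h4⟩
  · apply gam_unit (int_mem a b c d)
    rw [normSq_def']
    simp only [mk4_re, mk4_imI, mk4_imJ, mk4_imK]
    exact_mod_cast h
  · have e : mk4 a b c d = mk4 ((a + b) / 2) ((b - a) / 2) ((c - d) / 2) ((d + c) / 2) * ep := by
      apply ext4 <;> simp [re_mul, imI_mul, imJ_mul, imK_mul, ep_re, ep_imI, ep_imJ, ep_imK] <;> ring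
    rw [e]
    apply gam_mul _ gam_ep
    apply gam_unit
    · obtain ⟨m, hm⟩ : ∃ m : ℤ, a + b + c + d = 2 * m := ⟨(a + b + c + d) / 2, by omega⟩
      have hm' : (a : ℚ) + b + c + d = 2 * m := by exact_mod_cast hm
      refine ⟨a + b, -a, m - a - b - d, m - a - b, ?_, ?_, ?_, ?_⟩
      · simp
      · simp; ring
      · simp; linear_combination (1 / 2 : ℚ) * hm'
      · simp; linear_combination (1 / 2 : ℚ) * hm'
    · rw [normSq_def']
      simp only [mk4_re, mk4_imI, mk4_imJ, mk4_imK]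
      have h' : (a : ℚ) ^ 2 + b ^ 2 + c ^ 2 + d ^ 2 = 2 := by exact_mod_cast h
      linear_combination (1 / 2 : ℚ) * h'
  · have e : mk4 a b c d = ((2 : ℚ) : ℍ[ℚ]) * mk4 (a / 2) (b / 2) (c / 2) (d / 2) := by
      rw [ratmul]
      apply ext4 <;> simp <;> ring1
    rw [e]
    apply gam_mul (gam_rat (by norm_num))
    apply gam_unit
    · refine ⟨a, (b - a) / 2, (c - a) / 2, (d - a) / 2, ?_, ?_, ?_, ?_⟩
      · simp
      · have : b = a + 2 * ((b - a) / 2) := by omega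
        simp
        have h5 : (b : ℚ) = a + 2 * (((b - a) / 2 : ℤ) : ℚ) := by exact_mod_cast this
        linear_combination (1 / 2 : ℚ) * h5
      · have : c = a + 2 * ((c - a) / 2) := by omega
        simp
        have h5 : (c : ℚ) = a + 2 * (((c - a) / 2 : ℤ) : ℚ) := by exact_mod_cast this
        linear_combination (1 / 2 : ℚ) * h5
      · have : d = a + 2 * ((d - a) / 2) := by omega
        simp
        have h5 : (d : ℚ) = a + 2 * (((d - a) / 2 : ℤ) : ℚ) := by exact_mod_cast this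
        linear_combination (1 / 2 : ℚ) * h5
    · rw [normSq_def']
      simp only [mk4_re, mk4_imI, mk4_imJ, mk4_imK]
      have h' : (a : ℚ) ^ 2 + b ^ 2 + c ^ 2 + d ^ 2 = 4 := by exact_mod_cast h
      linear_combination (1 / 4 : ℚ) * h'

theorem lm_neg_Oo (x : ℍ[ℚ]) : lm (-x) Oo = lm x Oo := by
  have h : -x = x * (-1) := by simp
  rw [h, ← lm_lm, mem_of_unit (Hur.neg_mem Hur.one_mem) (by simp)]

theorem lm_eq_of_le {α β : ℍ[ℚ]} (hβ : β ≠ 0) (h : lm α Oo ≤ lm β Oo) (hn : normSq α = normSq β) :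
    lm α Oo = lm β Oo := by
  obtain ⟨u, hu, rfl⟩ := mem_lm.1 (h (mem_lm.2 ⟨1, Hur.one_mem, by rw [mul_one]⟩ : α ∈ lm α Oo))
  have h1 : normSq β ≠ 0 := normSq_ne_zero.2 hβ
  have h2 : normSq u = 1 := by
    rw [map_mul] at hn
    exact mul_left_cancel₀ h1 (by rw [hn, mul_one])
  rw [← lm_lm, mem_of_unit hu h2]

end Pool.Agent.Helper725_HQ
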