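import Pool.Agent.Helper725_HQ.Eig

/-! Multiplication by ideals of a quadratic field. -/

set_option autoImplicit false
set_option linter.unusedSimpArgs false
set_option linter.unnecessarySeqFocus false

namespace Pool.Agent.Helper725_HQ

open Quaternion MvPolynomial NumberField

variable {K : Type*} [Field K]

/-- The additive group generated by the products of an element of `ι(𝔞)` and an element of `I`. -/
def idl (ι : K →+* ℍ[ℚ]) (𝔞 : Ideal (𝓞 K)) (I : AddSubgroup ℍ[ℚ]) : AddSubgroup ℍ[ℚ] :=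
  AddSubgroup.closure {z | ∃ a ∈ 𝔞, ∃ y ∈ I, z = ι (a : K) * y}

/-- stability under the ring of integers -/
def Stab (ι : K →+* ℍ[ℚ]) (I : AddSubgroup ℍ[ℚ]) : Prop :=
  ∀ a : 𝓞 K, ∀ y ∈ I, ι (a : K) * y ∈ I

section
variable {ι : K →+* ℍ[ℚ]} {𝔞 𝔟 : Ideal (𝓞 K)} {I I' : AddSubgroup ℍ[ℚ]}

theorem mem_idl {a : 𝓞 K} (ha : a ∈ 𝔞) {y : ℍ[ℚ]} (hy : y ∈ I) : ι (a : K) * y ∈ idl ι 𝔞 I :=
  AddSubgroup.subset_closure ⟨a, ha, y, hy, rfl⟩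

theorem idl_le {J : AddSubgroup ℍ[ℚ]} (h : ∀ a ∈ 𝔞, ∀ y ∈ I, ι ((a : 𝓞 K) : K) * y ∈ J) :
    idl ι 𝔞 I ≤ J := by
  unfold idl
  rw [AddSubgroup.closure_le]
  rintro z ⟨a, ha, y, hy, rfl⟩
  exact h a ha y hy

theorem idl_mono (h : I ≤ I') : idl ι 𝔞 I ≤ idl ι 𝔞 I' :=
  idl_le (fun _ ha _ hy => mem_idl ha (h hy))

theorem lmul_idl {x : ℍ[ℚ]} {J : AddSubgroup ℍ[ℚ]}
    (h : ∀ a ∈ 𝔞, ∀ y ∈ I, x * (ι ((a : 𝓞 K) : K) * y) ∈ J) {z : ℍ[ℚ]} (hz : z ∈ idl ι 𝔞 I) :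
    x * z ∈ J := by
  have : idl ι 𝔞 I ≤ J.comap (AddMonoidHom.mulLeft x) := idl_le h
  exact this hz

theorem rmul_idl {x : ℍ[ℚ]} {J : AddSubgroup ℍ[ℚ]}
    (h : ∀ a ∈ 𝔞, ∀ y ∈ I, (ι ((a : 𝓞 K) : K) * y) * x ∈ J) {z : ℍ[ℚ]} (hz : z ∈ idl ι 𝔞 I) :
    z * x ∈ J := by
  have : idl ι 𝔞 I ≤ J.comap (AddMonoidHom.mulRight x) := idl_le h
  exact this hz

theorem idl_idl : idl ι 𝔟 (idl ι 𝔞 I) = idl ι (𝔟 * 𝔞) I := by
  apply le_antisymm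
  · apply idl_le
    intro b hb y hy
    refine lmul_idl ?_ hy
    intro a ha z hz
    rw [← mul_assoc, ← map_mul]
    exact mem_idl (a := b * a) (Ideal.mul_mem_mul hb ha) hz
  · apply idl_le
    intro c hc y hy
    refine Submodule.mul_induction_on hc ?_ ?_
    · intro b hb a ha
      have : ι (((b * a : 𝓞 K)) : K) * y = ι (b : K) * (ι (a : K) * y) := by
        rw [← mul_assoc, ← map_mul]; rfl
      rw [this]
      exact mem_idl hb (mem_idl ha hy)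
    · intro c c' h h'
      have : ι (((c + c' : 𝓞 K)) : K) * y = ι (c : K) * y + ι (c' : K) * y := by
        rw [← add_mul, ← map_add]; rfl
      rw [this]
      exact AddSubgroup.add_mem _ h h'

theorem idl_le_self (hs : Stab ι I) : idl ι 𝔞 I ≤ I := idl_le (fun a _ y hy => hs a y hy)

theorem idl_span (hs : Stab ι I) (n : 𝓞 K) : idl ι (Ideal.span {n}) I = lm (ι (n : K)) I := by
  apply le_antisymm
  · apply idl_le
    intro a ha y hy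
    obtain ⟨b, rfl⟩ := Ideal.mem_span_singleton'.1 ha
    have : ι (((b * n : 𝓞 K)) : K) * y = ι (n : K) * (ι (b : K) * y) := by
      rw [← mul_assoc, ← map_mul, mul_comm (n : K)]; rfl
    rw [this]
    exact mul_mem_lm (hs b y hy)
  · intro z hz
    obtain ⟨y, hy, rfl⟩ := mem_lm.1 hz
    exact mem_idl (Ideal.mem_span_singleton_self n) hy

theorem stab_idl : Stab ι (idl ι 𝔞 I) := by
  intro a z hz
  refine lmul_idl ?_ hz
  intro b hb y hy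
  rw [← mul_assoc, ← map_mul]
  exact mem_idl (a := a * b) (𝔞.mul_mem_left a hb) hy

theorem idl_lm_nat (n : ℕ) : idl ι 𝔞 (lm (n : ℍ[ℚ]) I) = lm (n : ℍ[ℚ]) (idl ι 𝔞 I) := by
  apply le_antisymm
  · apply idl_le
    intro a ha y hy
    obtain ⟨z, hz, rfl⟩ := mem_lm.1 hy
    have : ι (a : K) * ((n : ℍ[ℚ]) * z) = (n : ℍ[ℚ]) * (ι (a : K) * z) := by
      rw [← mul_assoc, ← natCast_comm, mul_assoc]
    rw [this]
    exact mul_mem_lm (mem_idl ha hz)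
  · intro z hz
    obtain ⟨y, hy, rfl⟩ := mem_lm.1 hz
    refine lmul_idl ?_ hy
    intro a ha w hw
    have : (n : ℍ[ℚ]) * (ι (a : K) * w) = ι (a : K) * ((n : ℍ[ℚ]) * w) := by
      rw [← mul_assoc, natCast_comm, mul_assoc]
    rw [this]
    exact mem_idl ha (mul_mem_lm hw)

variable [NumberField K]

theorem exists_inv (h : 𝔞 ≠ ⊥) : ∃ 𝔟 : Ideal (𝓞 K), ∃ n : 𝓞 K, n ≠ 0 ∧ 𝔟 * 𝔞 = Ideal.span {n} := by
  obtain ⟨n, hn, hn0⟩ := Submodule.exists_mem_ne_zero_of_ne_bot h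
  have : 𝔞 ∣ Ideal.span {n} := by
    rw [Ideal.dvd_iff_le, Ideal.span_singleton_le_iff_mem]
    exact hn
  obtain ⟨𝔟, hb⟩ := this
  exact ⟨𝔟, n, hn0, by rw [hb, mul_comm]⟩

omit [NumberField K] in
theorem iota_ne {n : 𝓞 K} (hn : n ≠ 0) : ι (n : K) ≠ 0 := by
  rw [Ne, map_eq_zero_iff ι ι.injective]
  intro h
  exact hn (RingOfIntegers.ext h)

theorem le_of_idl_le (h : 𝔞 ≠ ⊥) (hs : Stab ι I) (hs' : Stab ι I')
    (hle : idl ι 𝔞 I ≤ idl ι 𝔞 I') : I ≤ I' := by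
  obtain ⟨𝔟, n, hn, hb⟩ := exists_inv h
  have h1 := idl_mono (ι := ι) (𝔞 := 𝔟) hle
  rw [idl_idl, idl_idl, hb, idl_span hs, idl_span hs', lm_le (iota_ne hn)] at h1
  exact h1

omit [NumberField K] in
theorem isRI_idl (h : 𝔞 ≠ ⊥) (hs : Stab ι I) (hI : IsRI I) : IsRI (idl ι 𝔞 I) := by
  obtain ⟨n, hn, hn0⟩ := Submodule.exists_mem_ne_zero_of_ne_bot h
  obtain ⟨x, hx, hx0⟩ := hI.ne_zero
  obtain ⟨m, hm, hmI⟩ := hI.den
  refine ⟨⟨ι (n : K) * x, mem_idl hn hx, mul_ne_zero (iota_ne hn0) hx0⟩, ?_, m, hm, ?_⟩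
  · intro z hz t ht
    refine rmul_idl ?_ hz
    intro a ha y hy
    rw [mul_assoc]
    exact mem_idl ha (hI.mul_mem y hy t ht)
  · intro z hz
    exact hmI z (idl_le_self hs hz)

omit [NumberField K] in
theorem stab_nat (hs : Stab ι I) (n : ℕ) : Stab ι (lm (n : ℍ[ℚ]) I) := by
  intro a z hz
  obtain ⟨y, hy, rfl⟩ := mem_lm.1 hz
  have : ι (a : K) * ((n : ℍ[ℚ]) * y) = (n : ℍ[ℚ]) * (ι (a : K) * y) := by
    rw [← mul_assoc, ← natCast_comm, mul_assoc]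
  rw [this]
  exact mul_mem_lm (hs a y hy)

theorem pair_idl {q : ℕ} (h : 𝔞 ≠ ⊥) (hs : Stab ι I) (hs' : Stab ι I') (hI : IsPair q I I') :
    IsPair q (idl ι 𝔞 I) (idl ι 𝔞 I') := by
  refine ⟨isRI_idl h hs hI.fst, isRI_idl h hs' hI.snd, ?_, ?_⟩
  · rw [← idl_lm_nat]
    refine lt_of_le_not_ge (idl_mono hI.lt₁.le) ?_
    intro h1
    exact not_le_of_gt hI.lt₁ (le_of_idl_le h hs' (stab_nat hs q) h1)
  · refine lt_of_le_not_ge (idl_mono hI.lt₂.le) ?_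
    intro h1
    exact not_le_of_gt hI.lt₂ (le_of_idl_le h hs hs' h1)

end

/-- one term of the toric period -/
theorem period_term [NumberField K] {V : ValuationSubring ℂ} {k : ℕ} {F : Fun3}
    (hF : Form0 17 k F) {c : ℂ} {r : kap V}
    (H : ∀ w : Fin 3 → ℤ, (w 0 ^ 2 + w 1 ^ 2 + w 2 ^ 2) % 3 = 1 →
      ∀ n, n = nA ∨ n = nB → ∃ v : V, c * ev (F Oo (lm (pq n) Oo)) (pq w) = (v : ℂ) ∧
        rs V v = r)
    {ι : K →+* ℍ[ℚ]} {𝔞 : Ideal (𝓞 K)} (h𝔞 : 𝔞 ≠ ⊥) {I' : AddSubgroup ℍ[ℚ]}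
    (hs : Stab ι Oo) (hs' : Stab ι I') (hI : IsPair 17 Oo I') {s : 𝓞 K}
    (hre : (ι (s : K)).re = 0) {d : ℤ} (hd : normSq (ι (s : K)) = d) (hd3 : d % 3 = 1) :
    ∃ v : V, c * ev (F (idl ι 𝔞 Oo) (idl ι 𝔞 I')) (ι (s : K)) = (v : ℂ) ∧ rs V v = r := by
  have hp := pair_idl h𝔞 hs hs' hI
  obtain ⟨α, hα, hαe⟩ := principal hp.fst
  have h1 := (isPair_iff.1 hp).2
  have hst := stab_idl (ι := ι) (𝔞 := 𝔞) (I := Oo)
  rw [hαe] at h1 hst ⊢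
  rw [Sp_lm hα] at h1
  obtain ⟨J, hJ, hJe⟩ := h1
  rw [← hJe]
  obtain ⟨t, ht, rfl⟩ := cls17 hJ
  have hg := gam_int _ _ _ _ (tab_ok t ht).1
  rw [hF.left α hα, edg_form (tab_ok t ht) hF, ev_lsub hα, ev_lsub hg.ne]
  set γ := mk4 (t.2.1 0) (t.2.1 1) (t.2.1 2) (t.2.1 3) with hγ
  have h2 : α⁻¹ * ι (s : K) * α ∈ Hur := by
    have h3 := hst s α (mem_lm.2 ⟨1, Hur.one_mem, by rw [mul_one]⟩)
    rw [mem_lm' hα, ← mul_assoc] at h3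
    exact h3
  have h3 := hg.conj _ h2
  have hα' : α⁻¹ ≠ 0 := inv_ne_zero hα
  have hγ' : γ⁻¹ ≠ 0 := inv_ne_zero hg.ne
  have h4 : (γ⁻¹ * (α⁻¹ * ι (s : K) * α) * γ).re = 0 := by
    have e1 := re_conj hγ' (α⁻¹ * ι (s : K) * α)
    have e2 := re_conj hα' (ι (s : K))
    rw [inv_inv] at e1 e2
    rw [e1, e2, hre]
  have h5 : normSq (γ⁻¹ * (α⁻¹ * ι (s : K) * α) * γ) = d := by
    rw [map_mul, map_mul, map_mul, map_mul, hd]
    have e1 : normSq γ⁻¹ * normSq γ = 1 := by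
      rw [← map_mul, inv_mul_cancel₀ hg.ne, map_one]
    have e2 : normSq α⁻¹ * normSq α = 1 := by
      rw [← map_mul, inv_mul_cancel₀ hα, map_one]
    have e3 : normSq γ⁻¹ * (normSq α⁻¹ * (d : ℚ) * normSq α) * normSq γ =
        (normSq γ⁻¹ * normSq γ) * (normSq α⁻¹ * normSq α) * d := by ring
    rw [e3, e1, e2, one_mul, one_mul]
  obtain ⟨a, b, c', h6⟩ := pure_int h3 h4
  have h7 : γ⁻¹ * (α⁻¹ * ι (s : K) * α) * γ = pq ![a, b, c'] := by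
    rw [h6]; rfl
  rw [h7, normSq_pq] at h5
  have h8 : (![a, b, c'] : Fin 3 → ℤ) 0 ^ 2 + (![a, b, c'] : Fin 3 → ℤ) 1 ^ 2 +
      (![a, b, c'] : Fin 3 → ℤ) 2 ^ 2 = d := by exact_mod_cast h5
  rw [h7]
  exact H _ (by rw [h8]; exact hd3) _ (tab_n t ht)

end Pool.Agent.Helper725_HQ
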