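import Pool.Agent.Helper725_HQ.KVal

/-! Values of eigenforms of level one at the vectors of the ramified torus. -/

set_option autoImplicit false
set_option linter.unusedVariables false
set_option linter.unusedSimpArgs false

namespace Pool.Agent.Helper725_HQ.RR

open Quaternion MvPolynomial

section
variable {k : ℕ} {G : Fun1}

theorem vl_smulc (c : ℂ) (P : MvPolynomial (Fin 3) ℂ) (x : Fin 3 → ℤ) :
    vl (c • P) x = c * vl P x := by
  unfold vl
  rw [smul_eval]

theorem k5 (hG : Form1 k G) {lam : ℂ} (he : ∀ I, IsRI I → hecke1 5 G I = lam • G I)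
    (x : Fin 3 → ℤ) : ∑ i, vl (G Oo) (act (v5 i) x) = (10 : ℂ) ^ k * lam * vl (G Oo) x := by
  have h1 := he Oo Oo_isRI
  unfold hecke1 at h1
  have h2 : {J : AddSubgroup ℍ[ℚ] | IsRI J ∧ lm (5 : ℕ) Oo < J ∧ J < Oo} = Sp 5 Oo := rfl
  rw [h2, Sp5_eq, finsum_mem_range (fun i j h => inj5 h), finsum_eq_sum_of_fintype] at h1
  have h3 := congrArg (fun P => vl P x) h1
  simp only [vl_sum, vl_smulc] at h3
  rw [mul_assoc, ← h3, Finset.mul_sum]
  apply Finset.sum_congr rfl
  intro i _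
  have hq := qv_ne (v5 i)
  have hei : ep⁻¹ ≠ 0 := inv_ne_zero ep_ne
  have e1 : lsub (rC ep⁻¹) (G Oo) = G Oo := by
    conv_lhs => rw [← form1_ep hG]
    rw [rC_mul hei ep_ne, inv_mul_cancel₀ ep_ne]
    exact rC_coe (r := 1) one_ne_zero _
  rw [hG.left _ (mul_ne_zero hq hei), ← rC_mul hq hei, e1]
  have h4 := rot_lsub (v := v5 i) (N := 10) (by rw [v5_norm]; norm_num) (by norm_num)
    (hG.hom Oo) x
  rw [← h4]
  norm_cast

theorem k7 (hG : Form1 k G) {lam : ℂ} (he : ∀ I, IsRI I → hecke1 7 G I = lam • G I)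
    (x : Fin 3 → ℤ) : ∑ i, vl (G Oo) (act (v7 i) x) = (28 : ℂ) ^ k * lam * vl (G Oo) x := by
  have h1 := he Oo Oo_isRI
  unfold hecke1 at h1
  have h2 : {J : AddSubgroup ℍ[ℚ] | IsRI J ∧ lm (7 : ℕ) Oo < J ∧ J < Oo} = Sp 7 Oo := rfl
  rw [h2, Sp7_eq, finsum_mem_range (fun i j h => inj7 h), finsum_eq_sum_of_fintype] at h1
  have h3 := congrArg (fun P => vl P x) h1
  simp only [vl_sum, vl_smulc] at h3
  rw [mul_assoc, ← h3, Finset.mul_sum]
  apply Finset.sum_congr rfl
  intro i _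
  have hq := qv_ne (v7 i)
  have hlfe : hlf = ((1 / 2 : ℚ) : ℍ[ℚ]) := by
    apply ext4 <;> simp [hlf]
  have hlf_ne : hlf ≠ 0 := by
    have hlf2 : normSq hlf = 1 / 4 := by
      rw [normSq_def']
      simp [hlf]; norm_num
    rw [← normSq_ne_zero, hlf2]; norm_num
  have e1 : lsub (rC hlf) (G Oo) = G Oo := by
    rw [hlfe]
    exact rC_coe (by norm_num) _
  rw [hG.left _ (mul_ne_zero hq hlf_ne), ← rC_mul hq hlf_ne, e1]
  have h4 := rot_lsub (v := v7 i) (N := 28) (by rw [v7_norm]; norm_num) (by norm_num)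
    (hG.hom Oo) x
  rw [← h4]
  norm_cast

theorem aa_sq (i : Fin 4) (j : Fin 3) : aa i j = 1 ∨ aa i j = -1 := by
  revert i j; decide

/-- the symmetrized polynomial is not zero for an eigenform of slope one -/
theorem sym_ne (hk : Even k) {V : ValuationSubring ℂ} (hV : Thr V) (hk2 : 2 ≤ k) (hG : Form1 k G)
    (hG0 : G ≠ 0) {lam : ℂ} (he : TL1 3 Pool.Agent.Helper725_HQ.p3 G = lam • G) {w : V} (hw : rs V w ≠ 0)
    (hlw : (3 : ℂ) ^ k * lam = 3 * (w : ℂ)) : G Oo + lsub LX (G Oo) ≠ 0 := by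
  intro h0
  have hs := sym_of_form hk hG
  obtain ⟨P, hP⟩ : ∃ P, P = G Oo := ⟨_, rfl⟩
  have hP0 : P ≠ 0 := by
    intro h
    apply hG0
    exact form1_ext hG (by rw [← hP]; exact h)
  have h1 := T3_TT hG
  rw [he, Pi.smul_apply, ← hP] at h1
  rw [← hP] at h0 hs
  have hom := hG.hom Oo
  rw [← hP] at hom
  obtain ⟨x, hx⟩ : ∃ x : Fin 3 → ℂ, eval x P ≠ 0 := by
    by_contra h
    push Not at h
    apply hP0
    apply MvPolynomial.funext
    intro x
    rw [h x, map_zero]
  have key : ∀ i : Fin 4, eval x (lsub (mz (MM i)) P) = -(3 : ℂ) ^ k * eval x P := by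
    intro i
    obtain ⟨y, hy⟩ : ∃ y : Fin 3 → ℂ, y = fun j => ((aa i j : ℤ) : ℂ) * x j := ⟨_, rfl⟩
    have e1 : eval y P = eval x P := by
      apply hs.abs
      intro j
      rw [hy]
      rcases aa_sq i j with h | h
      · left; simp only [h]; push_cast; ring
      · right; simp only [h]; push_cast; ring
    have e2 : eval y (P + lsub LX P) = 0 := by rw [h0, map_zero]
    rw [map_add, eval_lsub, e1] at e2
    have e3 : eval x (lsub (mz (MM i)) P) = eval (fun j => (-3 : ℂ) * ∑ l, LX j l * y l) P := by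
      rw [eval_lsub]
      apply hs.abs
      intro j
      have sq : ∀ l, ((aa i l : ℤ) : ℂ) * ((aa i l : ℤ) : ℂ) = 1 := by
        intro l
        rcases aa_sq i l with h | h <;> rw [h] <;> push_cast <;> ring
      have e4 : (∑ l, mz (MM i) j l * x l : ℂ) =
          ((aa i j : ℤ) : ℂ) * ((-3 : ℂ) * ∑ l, LX j l * y l) := by
        rw [Fin.sum_univ_three, Fin.sum_univ_three, hy]
        unfold mz MM LX
        fin_cases j
        · simp
          linear_combination (3 * x 0) * sq 0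
        · simp
          linear_combination (3 * x 1) * sq 1
        · simp
          linear_combination (3 * x 2) * sq 2
      rw [e4]
      rcases aa_sq i j with h | h
      · left; rw [h]; push_cast; ring
      · right; rw [h]; push_cast; ring
    rw [e3, eval_hom hom, hk.neg_pow]
    linear_combination (3 : ℂ) ^ k * e2
  have h2 := congrArg (eval x) h1
  unfold TT at h2
  rw [map_mul, eval_C, smul_eval, map_sum, Finset.sum_congr rfl (fun i _ => key i),
    Finset.sum_const, Finset.card_univ, Fintype.card_fin] at h2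
  have h3 : (3 : ℂ) ^ k * lam = -4 * 3 ^ k := by
    apply mul_right_cancel₀ hx
    rw [mul_assoc, h2]
    simp
    ring
  obtain ⟨m, rfl⟩ : ∃ m, k = m + 2 := ⟨k - 2, by omega⟩
  rw [h3] at hlw
  apply hw
  have h4 : w = 3 * (3 ^ m * (-4)) := by
    apply Subtype.ext
    have h5 : ((3 * (3 ^ m * (-4)) : V) : ℂ) = 3 * (3 ^ m * (-4)) := rfl
    rw [h5]
    have h6 : (3 : ℂ) * (w : ℂ) = 3 * (3 * (3 ^ m * (-4))) := by
      rw [← hlw]; ring
    exact mul_left_cancel₀ (by norm_num) h6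
  rw [h4, map_mul, three_zero' hV, zero_mul]

end

end Pool.Agent.Helper725_HQ.RR
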