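import Pool.Agent.Helper725_HQ.LVal
import Pool.Agent.Helper725_HQ.Per
import Pool.Agent.Helper725_DH.FieldsU

/-! Periods of forms of level one. -/

set_option autoImplicit false
set_option linter.unusedSimpArgs false
set_option linter.unnecessarySeqFocus false

namespace Pool.Agent.Helper725_HQ

open Quaternion MvPolynomial NumberField
open scoped nonZeroDivisors

/-- The toric period of a form of level one as a sum over the class group. -/
noncomputable def torp1 {K : Type} [Field K] [NumberField K]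
    (G : AddSubgroup ℍ[ℚ] → MvPolynomial (Fin 3) ℂ) (ι : K →+* ℍ[ℚ])
    (rep : ClassGroup (𝓞 K) → (Ideal (𝓞 K))⁰) (I : AddSubgroup ℍ[ℚ]) (s : K) : ℂ :=
  ∑ c, ev (G (idl ι (rep c : Ideal (𝓞 K)) I)) (ι s)

/-- Some toric period of `G` along `K` does not vanish. -/
def NonvanPer1 (G : AddSubgroup ℍ[ℚ] → MvPolynomial (Fin 3) ℂ)
    (K : Type) [Field K] [NumberField K] : Prop :=
  ∃ (ι : K →+* ℍ[ℚ]) (I : AddSubgroup ℍ[ℚ]), IsRI I ∧
    (∀ a : 𝓞 K, ∀ y ∈ I, ι (a : K) * y ∈ I) ∧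
    ∃ s : K, s ≠ 0 ∧ (ι s).re = 0 ∧
    ∀ rep : ClassGroup (𝓞 K) → (Ideal (𝓞 K))⁰, (∀ c, ClassGroup.mk0 (rep c) = c) →
      torp1 G ι rep I s ≠ 0

/-- one term of the toric period -/
theorem period_term1 {K : Type} [Field K] [NumberField K] {V : ValuationSubring ℂ} {k : ℕ}
    {F : Fun1} (hF : Form1 k F) {c : ℂ} {r : kap V} {d : ℕ}
    (H : ∀ x : Fin 3 → ℤ, x 0 ^ 2 + x 1 ^ 2 + x 2 ^ 2 = (d : ℤ) →
      ∃ v : V, c * ev (F Oo) (pq x) = (v : ℂ) ∧ rs V v = r)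
    {ι : K →+* ℍ[ℚ]} {𝔞 : Ideal (𝓞 K)} (h𝔞 : 𝔞 ≠ ⊥)
    (hs : Stab ι Oo) {s : 𝓞 K}
    (hre : (ι (s : K)).re = 0) (hd : normSq (ι (s : K)) = (d : ℚ)) :
    ∃ v : V, c * ev (F (idl ι 𝔞 Oo)) (ι (s : K)) = (v : ℂ) ∧ rs V v = r := by
  have hp := isRI_idl h𝔞 hs Oo_isRI
  obtain ⟨α, hα, hαe⟩ := principal hp
  have hst := stab_idl (ι := ι) (𝔞 := 𝔞) (I := Oo)
  rw [hαe] at hst ⊢
  rw [hF.left α hα, ev_lsub hα]
  have h2 : α⁻¹ * ι (s : K) * α ∈ Hur := by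
    have h3 := hst s α (mem_lm.2 ⟨1, Hur.one_mem, by rw [mul_one]⟩)
    rw [mem_lm' hα, ← mul_assoc] at h3
    exact h3
  have hα' : α⁻¹ ≠ 0 := inv_ne_zero hα
  have h4 : (α⁻¹ * ι (s : K) * α).re = 0 := by
    have e2 := re_conj hα' (ι (s : K))
    rw [inv_inv] at e2
    rw [e2, hre]
  have h5 : normSq (α⁻¹ * ι (s : K) * α) = (d : ℚ) := by
    rw [map_mul, map_mul, hd]
    have e2 : normSq α⁻¹ * normSq α = 1 := by
      rw [← map_mul, inv_mul_cancel₀ hα, map_one]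
    have e3 : normSq α⁻¹ * (d : ℚ) * normSq α = (normSq α⁻¹ * normSq α) * d := by ring
    rw [e3, e2, one_mul]
  obtain ⟨a, b, c', h6⟩ := pure_int h2 h4
  have h7 : α⁻¹ * ι (s : K) * α = pq ![a, b, c'] := by
    rw [h6]; rfl
  rw [h7, normSq_pq] at h5
  have h8 : (![a, b, c'] : Fin 3 → ℤ) 0 ^ 2 + (![a, b, c'] : Fin 3 → ℤ) 1 ^ 2 +
      (![a, b, c'] : Fin 3 → ℤ) 2 ^ 2 = (d : ℤ) := by exact_mod_cast h5
  rw [h7]
  exact H _ h8

/-- nonvanishing along one field -/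
theorem nonvan_one1 {V : ValuationSubring ℂ} (hV : Thr V) {k : ℕ} {F : Fun1}
    (hF : Form1 k F) {c : ℂ} {r : kap V} (hr0 : r ≠ 0) {d : ℕ}
    (H : ∀ x : Fin 3 → ℤ, x 0 ^ 2 + x 1 ^ 2 + x 2 ^ 2 = (d : ℤ) →
      ∃ v : V, c * ev (F Oo) (pq x) = (v : ℂ) ∧ rs V v = r)
    {K : Type} [Field K] [NumberField K] (hd : Squarefree d)
    (h8 : d % 8 = 3 ∨ d % 4 = 1 ∨ d % 4 = 2) (h2 : Module.finrank ℚ K = 2) {x : K}
    (hx : x ^ 2 = -(d : K))
    (hcl : ¬ 3 ∣ Nat.card (ClassGroup (𝓞 K))) : NonvanPer1 F K := by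
  obtain ⟨w, hw⟩ := three_sq h8
  have hd0 : 0 < d := by omega
  obtain ⟨ι, hι⟩ := exists_iota hd0 h2 hx hw
  have hs := stab_Oo hd h8 h2 hx hw hι
  have hint : IsIntegral ℤ (x : K) := by
    refine ⟨Polynomial.X ^ 2 + Polynomial.C ((d : ℕ) : ℤ), ?_, ?_⟩
    · monicity!
    · rw [Polynomial.eval₂_add, Polynomial.eval₂_pow, Polynomial.eval₂_X,
        Polynomial.eval₂_C, hx]
      simp
  refine ⟨ι, Oo, Oo_isRI, hs, x, ?_, ?_, ?_⟩
  · rintro rfl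
    rw [zero_pow two_ne_zero, zero_eq_neg, Nat.cast_eq_zero] at hx
    omega
  · rw [hι]; rfl
  · intro rep hrep h0
    obtain ⟨s0, hs0⟩ : ∃ s0 : 𝓞 K, (s0 : K) = x := ⟨⟨x, hint⟩, rfl⟩
    have hre : (ι (s0 : K)).re = 0 := by
      rw [hs0, hι]; rfl
    have hns : normSq (ι (s0 : K)) = (d : ℚ) := by
      rw [hs0, hι, normSq_pq, hw]; rfl
    have key : ∀ cl : ClassGroup (𝓞 K), ∃ v : V,
        c * ev (F (idl ι (rep cl : Ideal (𝓞 K)) Oo)) (ι x) = (v : ℂ) ∧ rs V v = r := by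
      intro cl
      have hne : (rep cl : Ideal (𝓞 K)) ≠ ⊥ := nonZeroDivisors.coe_ne_zero _
      have := period_term1 hF H hne hs hre hns
      rw [hs0] at this
      exact this
    choose v hv1 hv2 using key
    have h1 : ((∑ cl, v cl : V) : ℂ) = 0 := by
      have : ((∑ cl, v cl : V) : ℂ) = c * torp1 F ι rep Oo x := by
        unfold torp1
        rw [Finset.mul_sum]
        have h3 : ((∑ cl, v cl : V) : ℂ) = V.subtype (∑ cl, v cl) := rfl
        rw [h3, map_sum]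
        apply Finset.sum_congr rfl
        intro cl _
        exact (hv1 cl).symm
      rw [this, h0, mul_zero]
    have h2 : (∑ cl, v cl : V) = 0 := Subtype.ext h1
    have h3 := congrArg (rs V) h2
    rw [map_sum, map_zero, Finset.sum_congr rfl (fun cl _ => hv2 cl), Finset.sum_const,
      Finset.card_univ, nsmul_eq_mul] at h3
    rcases mul_eq_zero.1 h3 with h4 | h4
    · apply card_unit hV hcl
      rw [Nat.card_eq_fintype_card]
      exact h4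
    · exact hr0 h4

theorem sq_six {d : ℕ} (h : d % 9 = 6) : IsSquare (-(d : ℚ_[3]) * 3) := by
  have h1 := Pool.Agent.Helper725_DH.isSquare_odd (p := 3) (by norm_num) (1 : ℤ_[3])
    (((-1 - (d / 9 : ℕ) : ℤ)) : ℤ_[3]) (by simp)
  have h2 : IsSquare (((3 : ℚ_[3])) ^ 2) := ⟨3, by ring⟩
  have h3 := h1.mul h2
  have e : (((1 : ℤ_[3]) ^ 2 + ((3 : ℕ) : ℤ_[3]) * (((-1 - (d / 9 : ℕ) : ℤ)) : ℤ_[3]) : ℤ_[3]) : ℚ_[3]) *
      (3 : ℚ_[3]) ^ 2 = -(d : ℚ_[3]) * 3 := by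
    have h5 : (d : ℚ_[3]) = 6 + 9 * ((d / 9 : ℕ) : ℚ_[3]) := by
      have : d = 6 + 9 * (d / 9) := by omega
      exact_mod_cast congrArg (Nat.cast : ℕ → ℚ_[3]) this
    generalize ((d / 9 : ℕ)) = m at h5 ⊢
    rw [h5]
    push_cast
    have h6 : ((3 : ℤ_[3]) : ℚ_[3]) = 3 := rfl
    rw [h6]
    ring
  rw [e] at h3
  exact h3

theorem not_sq_three : ¬ IsSquare ((3 : ℚ_[3]) * 1) := by
  rintro ⟨t, ht⟩
  rw [mul_one] at ht
  have h3 : (3 : ℚ_[3]) = ((3 : ℕ) : ℚ_[3]) := by norm_num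
  have ht0 : t ≠ 0 := by
    rintro rfl
    rw [mul_zero, h3] at ht
    have : ((3 : ℕ) : ℚ_[3]) ≠ 0 := by norm_num
    exact this ht
  have h1 := congrArg Padic.valuation ht
  rw [Padic.valuation_mul ht0 ht0, h3, Padic.valuation_p] at h1
  omega

/-- positive proportion of nonvanishing periods for eigenforms of slope one -/
theorem many1 {V : ValuationSubring ℂ} (hV : Thr V) {k : ℕ} (hk : Even k) (hk0 : k ≠ 0)
    (hk3 : k % 3 ≠ 2) {F : Fun1} (hF : Form1 k F) (hF0 : F ≠ 0) {lam : ℂ}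
    (he : TL1 3 p3 F = lam • F) {w : V} (hw : rs V w ≠ 0)
    (hlw : (3 : ℂ) ^ k * lam = 3 * (w : ℂ)) (T : Finset ℕ) (hT : ∀ p ∈ T, p.Prime)
    (δ : ∀ (p : ℕ) [Fact p.Prime], ℚ_[p]) (hδ0 : ∀ (p : ℕ) [Fact p.Prime], δ p ≠ 0)
    (hδ2 : ¬ IsSquare (δ 2)) (hδ3 : 3 ∈ T → k % 3 = 0 ∨ ¬ IsSquare (3 * δ 3)) :
    ∃ c : ℝ, 0 < c ∧ ∃ x₀ : ℝ, ∀ x : ℝ, x₀ ≤ x → ∃ S : Finset (IntermediateField ℚ ℂ),
      c * x ≤ (S.card : ℝ) ∧ ∀ E ∈ S, ∃ _ : NumberField E, Module.finrank ℚ E = 2 ∧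
        |(discr E : ℝ)| < x ∧ (∀ p ∈ T, ∀ [Fact p.Prime], Loc p (δ p) E) ∧ NonvanPer1 F E := by
  classical
  obtain ⟨δ₃, h30, h31, h32⟩ : ∃ δ₃ : ℚ_[3], δ₃ ≠ 0 ∧ (k % 3 = 0 ∨ ¬ IsSquare (3 * δ₃)) ∧
      (3 ∈ T → δ₃ = δ 3) := by
    by_cases h : 3 ∈ T
    · exact ⟨δ 3, hδ0 3, hδ3 h, fun _ => rfl⟩
    · exact ⟨1, one_ne_zero, Or.inr not_sq_three, fun h' => absurd h' h⟩
  obtain ⟨c', hc', x₀, hx₀⟩ := Pool.Agent.Helper725_DH.fields_manyU (hδ0 2) hδ2 h30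
    (T.filter (fun p => 5 ≤ p)) (fun p hp => ⟨hT p (Finset.mem_filter.1 hp).1,
      (Finset.mem_filter.1 hp).2⟩) δ (fun p _ _ => hδ0 p)
  refine ⟨c', hc', x₀, ?_⟩
  intro x hx
  obtain ⟨S, hS, hSd⟩ := hx₀ x hx
  refine ⟨S.image Ed, ?_, ?_⟩
  · rw [Finset.card_image_of_injOn]
    · exact hS
    · intro d hd d' hd' h
      obtain ⟨a1, a2, _⟩ := hSd d hd
      obtain ⟨b1, b2, _⟩ := hSd d' hd'
      exact Ed_inj a1 a2 b1 b2 h
  · intro E hE
    obtain ⟨d, hd, rfl⟩ := Finset.mem_image.1 hE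
    obtain ⟨a1, a3, a4, a5, a6, a7, a8⟩ := hSd d hd
    have hd0 : 0 < d := by omega
    have hns : ¬ IsSquare (-(d : ℚ)) := by
      rintro ⟨q, hq⟩
      exact Pool.Agent.Helper725_DH.IQ.not_sq hd0 q (by rw [hq]; ring)
    have h9 : ¬ 9 ∣ d := by
      intro h
      have := a1 3 (by norm_num; exact h)
      rw [Nat.isUnit_iff] at this
      omega
    have hgood : d % 3 ≠ 0 ∨ d % 9 = 3 ∨ (d % 9 = 6 ∧ k % 3 = 0) := by
      by_cases h3 : d % 3 = 0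
      · right
        by_cases h6 : d % 9 = 6
        · right
          refine ⟨h6, ?_⟩
          rcases h31 with h | h
          · exact h
          · exfalso
            apply h
            have h5 := (sq_six h6).mul a6
            have hdne : (d : ℚ_[3]) ≠ 0 := by exact_mod_cast hd0.ne'
            have h7 : IsSquare (((d : ℚ_[3])⁻¹) ^ 2) := ⟨(d : ℚ_[3])⁻¹, by ring⟩
            have h8 := h5.mul h7
            have e : -(d : ℚ_[3]) * 3 * (-(d : ℚ_[3]) * δ₃) * ((d : ℚ_[3])⁻¹) ^ 2 = 3 * δ₃ := by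
              field_simp
            rw [e] at h8
            exact h8
        · left
          omega
      · left
        exact h3
    obtain ⟨c, hc, r, hr, H⟩ := slope_val hV hk hk0 hk3 hF hF0 he hw hlw h9 hgood
    refine ⟨inferInstance, Ed_rank hd0, ?_, ?_, ?_⟩
    · rw [Ed_discr a1 a3]
      split_ifs at a4 ⊢ with h
      · push_cast
        rw [abs_neg, abs_of_nonneg (by positivity)]
        exact a4
      · push_cast
        rw [abs_neg, abs_of_nonneg (by positivity)]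
        exact a4
    · intro p hp hpf
      refine ⟨-(d : ℚ), xd d, ?_, hns, ?_⟩
      · rw [xd_sq]; push_cast; rfl
      · push_cast
        by_cases h5 : 5 ≤ p
        · exact a7 p (Finset.mem_filter.2 ⟨hp, h5⟩)
        · have h6 := (hT p hp).two_le
          have h7 : p ≠ 4 := by
            rintro rfl
            exact absurd (hT 4 hp) (by norm_num)
          have h8 : p = 2 ∨ p = 3 := by omega
          rcases h8 with rfl | rfl
          · exact a5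
          · rw [h32 hp] at a6
            exact a6
    · exact nonvan_one1 hV hF hr H a1 a3 (Ed_rank hd0) (xd_sq d)
        (a8 (Ed d) (Ed_rank hd0) ⟨xd d, xd_sq d⟩)

end Pool.Agent.Helper725_HQ
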