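import Pool.Agent.Helper725_HQ.RForm

/-! Constancy of the reductions of the values of an eigenform invariant under the ramified torus. -/

set_option autoImplicit false
set_option linter.unusedVariables false
set_option linter.unusedSimpArgs false

namespace Pool.Agent.Helper725_HQ.RR

open Quaternion MvPolynomial

section
variable {n k : ℕ} {F : AddSubgroup ℍ[ℚ] → ℍ[ℚ] → MvPolynomial (Fin 3) ℂ}

/-- adapted generators and values are transported by a rotation -/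
theorem rot_both (hF : IsFormR n k F) {α : ℍ[ℚ]} (hα : GO α)
    (hfα : ∀ u, GO u → F Oo (α * u) = lsub (rC α) (F Oo u)) {x y : Fin 3 → ℤ}
    (hy : pq y = α⁻¹ * pq x * α) (hx : ∃ u, Ad n x u) :
    (∃ u, Ad n y u) ∧ gv n (F Oo) y = gv n (F Oo) x := by
  refine ⟨?_, gv_rot (formR_fr hF) hα hfα hy hx⟩
  obtain ⟨u, hu⟩ := hx
  exact ⟨_, Ad_conj (t := 1) hα rfl (by rw [Int.cast_one, one_smul]; exact hy) hu⟩

theorem b_om (hF : IsFormR n k F) {x : Fin 3 → ℤ} (hx : ∃ u, Ad n x u) :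
    (∃ u, Ad n ![x 1, x 2, x 0] u) ∧ gv n (F Oo) ![x 1, x 2, x 0] = gv n (F Oo) x :=
  rot_both hF GO_om (fun u hu => formR_om hF GO_om.1 om_norm hu) (pq_om x) hx

theorem b_om2 (hF : IsFormR n k F) {x : Fin 3 → ℤ} (hx : ∃ u, Ad n x u) :
    (∃ u, Ad n ![x 2, x 0, x 1] u) ∧ gv n (F Oo) ![x 2, x 0, x 1] = gv n (F Oo) x :=
  rot_both hF GO_om2 (fun u hu => formR_om hF GO_om2.1 om2_norm hu) (pq_om2 x) hx

theorem b_i (hF : IsFormR n k F) {x : Fin 3 → ℤ} (hx : ∃ u, Ad n x u) :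
    (∃ u, Ad n ![x 0, -x 1, -x 2] u) ∧ gv n (F Oo) ![x 0, -x 1, -x 2] = gv n (F Oo) x := by
  have hg : GO (mk4 ((0 : ℤ) : ℚ) ((1 : ℤ) : ℚ) ((0 : ℤ) : ℚ) ((0 : ℤ) : ℚ)) := GO_int (by norm_num)
  refine rot_both hF hg ((formR_fr hF).un 0 1 0 0 (by norm_num)) ?_ hx
  have e : (mk4 ((0 : ℤ) : ℚ) ((1 : ℤ) : ℚ) ((0 : ℤ) : ℚ) ((0 : ℤ) : ℚ))⁻¹ =
      mk4 0 (-1) 0 0 := by
    rw [inv_unit (by rw [normSq_int]; norm_num)]
    apply ext4 <;> simp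
  rw [e]
  unfold pq
  apply ext4 <;> simp [re_mul, imI_mul, imJ_mul, imK_mul]

theorem b_j (hF : IsFormR n k F) {x : Fin 3 → ℤ} (hx : ∃ u, Ad n x u) :
    (∃ u, Ad n ![-x 0, x 1, -x 2] u) ∧ gv n (F Oo) ![-x 0, x 1, -x 2] = gv n (F Oo) x := by
  have hg : GO (mk4 ((0 : ℤ) : ℚ) ((0 : ℤ) : ℚ) ((1 : ℤ) : ℚ) ((0 : ℤ) : ℚ)) := GO_int (by norm_num)
  refine rot_both hF hg ((formR_fr hF).un 0 0 1 0 (by norm_num)) ?_ hx
  have e : (mk4 ((0 : ℤ) : ℚ) ((0 : ℤ) : ℚ) ((1 : ℤ) : ℚ) ((0 : ℤ) : ℚ))⁻¹ =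
      mk4 0 0 (-1) 0 := by
    rw [inv_unit (by rw [normSq_int]; norm_num)]
    apply ext4 <;> simp
  rw [e]
  unfold pq
  apply ext4 <;> simp [re_mul, imI_mul, imJ_mul, imK_mul]

theorem b_q (hF : IsFormR n k F) {x : Fin 3 → ℤ} (hx : ∃ u, Ad n x u) :
    (∃ u, Ad n ![x 0, x 2, -x 1] u) ∧ gv n (F Oo) ![x 0, x 2, -x 1] = gv n (F Oo) x := by
  refine rot_both hF GO_ep (formR_fr hF).ep ?_ hx
  rw [ep_inv]
  unfold pq ep
  apply ext4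
  · simp [re_mul, imI_mul, imJ_mul, imK_mul]
  · simp [re_mul, imI_mul, imJ_mul, imK_mul]; ring
  · simp [re_mul, imI_mul, imJ_mul, imK_mul]; ring
  · simp [re_mul, imI_mul, imJ_mul, imK_mul]; ring

theorem b_neg (hF : IsFormR n k F) {x : Fin 3 → ℤ} (hx : ∃ u, Ad n x u) :
    (∃ u, Ad n (fun i => -x i) u) ∧ gv n (F Oo) (fun i => -x i) = gv n (F Oo) x := by
  refine ⟨?_, gv_neg (formR_fr hF) hx⟩
  obtain ⟨u, hu⟩ := hx
  exact ⟨_, Ad_neg hu⟩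

/-- the transposition of the first two coordinates -/
theorem b_sw (hF : IsFormR n k F) {x : Fin 3 → ℤ} (hx : ∃ u, Ad n x u) :
    gv n (F Oo) ![x 1, x 0, x 2] = gv n (F Oo) x := by
  obtain ⟨a1, g1⟩ := b_om2 hF hx
  obtain ⟨a2, g2⟩ := b_q hF a1
  obtain ⟨a3, g3⟩ := b_om hF a2
  obtain ⟨a4, g4⟩ := b_j hF a3
  obtain ⟨a5, g5⟩ := b_neg hF a4
  rw [← g1, ← g2, ← g3, ← g4, ← g5]
  congr 1
  funext i
  fin_cases i <;> simp

/-- the transition to the disc -/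
def PP (n : ℕ) (F : AddSubgroup ℍ[ℚ] → ℍ[ℚ] → MvPolynomial (Fin 3) ℂ) (x : Fin 3 → ℤ) : Prop :=
  (∃ u, Ad n x u) ∧ ∃ y ∈ XR, gv n (F Oo) x = gv n (F Oo) y

theorem P_of {x y : Fin 3 → ℤ} (h : (∃ u, Ad n x u) ∧ gv n (F Oo) x = gv n (F Oo) y)
    (hy : PP n F y) : PP n F x := by
  obtain ⟨_, z, hz, h1⟩ := hy
  exact ⟨h.1, z, hz, h.2.trans h1⟩

theorem P_XR {x : Fin 3 → ℤ} (hx : x ∈ XR) : PP n F x := ⟨Ad_exists n hx, x, hx, rfl⟩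

theorem P_om (hF : IsFormR n k F) {x : Fin 3 → ℤ} (h : PP n F ![x 1, x 2, x 0]) : PP n F x := by
  have h1 := b_om2 hF h.1
  have e : (![(![x 1, x 2, x 0] : Fin 3 → ℤ) 2, (![x 1, x 2, x 0] : Fin 3 → ℤ) 0,
      (![x 1, x 2, x 0] : Fin 3 → ℤ) 1] : Fin 3 → ℤ) = x := by
    funext i
    fin_cases i <;> simp
  rw [e] at h1
  exact P_of h1 h

theorem P_om2 (hF : IsFormR n k F) {x : Fin 3 → ℤ} (h : PP n F ![x 2, x 0, x 1]) : PP n F x := by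
  have h1 := b_om hF h.1
  have e : (![(![x 2, x 0, x 1] : Fin 3 → ℤ) 1, (![x 2, x 0, x 1] : Fin 3 → ℤ) 2,
      (![x 2, x 0, x 1] : Fin 3 → ℤ) 0] : Fin 3 → ℤ) = x := by
    funext i
    fin_cases i <;> simp
  rw [e] at h1
  exact P_of h1 h

theorem P_i (hF : IsFormR n k F) {x : Fin 3 → ℤ} (h : PP n F ![x 0, -x 1, -x 2]) : PP n F x := by
  have h1 := b_i hF h.1
  have e : (![(![x 0, -x 1, -x 2] : Fin 3 → ℤ) 0, -(![x 0, -x 1, -x 2] : Fin 3 → ℤ) 1,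
      -(![x 0, -x 1, -x 2] : Fin 3 → ℤ) 2] : Fin 3 → ℤ) = x := by
    funext i
    fin_cases i <;> simp
  rw [e] at h1
  exact P_of h1 h

theorem P_j (hF : IsFormR n k F) {x : Fin 3 → ℤ} (h : PP n F ![-x 0, x 1, -x 2]) : PP n F x := by
  have h1 := b_j hF h.1
  have e : (![-(![-x 0, x 1, -x 2] : Fin 3 → ℤ) 0, (![-x 0, x 1, -x 2] : Fin 3 → ℤ) 1,
      -(![-x 0, x 1, -x 2] : Fin 3 → ℤ) 2] : Fin 3 → ℤ) = x := by
    funext i
    fin_cases i <;> simp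
  rw [e] at h1
  exact P_of h1 h

theorem P_neg (hF : IsFormR n k F) {x : Fin 3 → ℤ} (h : PP n F (fun i => -x i)) : PP n F x := by
  have h1 := b_neg hF h.1
  rw [neg_neg_vec] at h1
  exact P_of h1 h

theorem sq9 {a : ℤ} (h : a % 3 = 1) : (a % 9 = 1 ∧ a ^ 2 % 9 = 1) ∨ (a % 9 = 4 ∧ a ^ 2 % 9 = 7) ∨
    (a % 9 = 7 ∧ a ^ 2 % 9 = 4) := by
  have h1 : a % 9 = 1 ∨ a % 9 = 4 ∨ a % 9 = 7 := by omega
  rcases h1 with h1 | h1 | h1
  · exact Or.inl ⟨h1, by rw [pow_two, Int.mul_emod, h1]; rfl⟩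
  · exact Or.inr (Or.inl ⟨h1, by rw [pow_two, Int.mul_emod, h1]; rfl⟩)
  · exact Or.inr (Or.inr ⟨h1, by rw [pow_two, Int.mul_emod, h1]; rfl⟩)

theorem P_one (hF : IsFormR n k F) {x : Fin 3 → ℤ} (h0 : x 0 % 3 = 1) (h1 : x 1 % 3 = 1)
    (h2 : x 2 % 3 = 1) (h : (x 0 ^ 2 + x 1 ^ 2 + x 2 ^ 2) % 9 = 6) : PP n F x := by
  have hc : (9 ∣ x 1 - x 0 ∧ 9 ∣ x 2 + 2 * x 0) ∨ (9 ∣ x 2 - x 1 ∧ 9 ∣ x 0 + 2 * x 1) ∨
      (9 ∣ x 0 - x 2 ∧ 9 ∣ x 1 + 2 * x 2) := by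
    rcases sq9 h0 with ⟨a0, b0⟩ | ⟨a0, b0⟩ | ⟨a0, b0⟩ <;>
    rcases sq9 h1 with ⟨a1, b1⟩ | ⟨a1, b1⟩ | ⟨a1, b1⟩ <;>
    rcases sq9 h2 with ⟨a2, b2⟩ | ⟨a2, b2⟩ | ⟨a2, b2⟩ <;>
    omega
  rcases hc with ⟨c1, c2⟩ | ⟨c1, c2⟩ | ⟨c1, c2⟩
  · exact P_XR ⟨by omega, c1, c2⟩
  · apply P_om hF
    apply P_XR
    refine ⟨?_, ?_, ?_⟩
    · show ¬ (3 : ℤ) ∣ x 1
      omega
    · exact c1
    · exact c2
  · apply P_om2 hF
    apply P_XR
    refine ⟨?_, ?_, ?_⟩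
    · show ¬ (3 : ℤ) ∣ x 2
      omega
    · exact c1
    · exact c2

theorem P_all (hF : IsFormR n k F) {x : Fin 3 → ℤ}
    (h : (x 0 ^ 2 + x 1 ^ 2 + x 2 ^ 2) % 9 = 6) : PP n F x := by
  have hz : ∀ a : ℤ, a % 3 = 0 → a ^ 2 % 9 = 0 := by
    intro a ha
    obtain ⟨b, rfl⟩ := Int.dvd_of_emod_eq_zero ha
    have e : (3 * b) ^ 2 = 9 * b ^ 2 := by ring
    omega
  have hu : ∀ a : ℤ, a % 3 = 1 ∨ a % 3 = 2 → a ^ 2 % 3 = 1 := by
    intro a ha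
    rcases ha with ha | ha <;> · rw [pow_two, Int.mul_emod, ha]; rfl
  have hne : x 0 % 3 ≠ 0 ∧ x 1 % 3 ≠ 0 ∧ x 2 % 3 ≠ 0 := by
    have z0 := hz (x 0)
    have z1 := hz (x 1)
    have z2 := hz (x 2)
    have u0 := hu (x 0)
    have u1 := hu (x 1)
    have u2 := hu (x 2)
    have r0 : x 0 % 3 = 0 ∨ (x 0 % 3 = 1 ∨ x 0 % 3 = 2) := by omega
    have r1 : x 1 % 3 = 0 ∨ (x 1 % 3 = 1 ∨ x 1 % 3 = 2) := by omega
    have r2 : x 2 % 3 = 0 ∨ (x 2 % 3 = 1 ∨ x 2 % 3 = 2) := by omega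
    rcases r0 with r0 | r0 <;> rcases r1 with r1 | r1 <;> rcases r2 with r2 | r2
    · have := z0 r0; have := z1 r1; have := z2 r2; omega
    · have := z0 r0; have := z1 r1; have := u2 r2; omega
    · have := z0 r0; have := u1 r1; have := z2 r2; omega
    · have := z0 r0; have := u1 r1; have := u2 r2; omega
    · have := u0 r0; have := z1 r1; have := z2 r2; omega
    · have := u0 r0; have := z1 r1; have := u2 r2; omega
    · have := u0 r0; have := u1 r1; have := z2 r2; omega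
    · omega
  obtain ⟨n0, n1, n2⟩ := hne
  have key : ∀ x : Fin 3 → ℤ, (x 0 ^ 2 + x 1 ^ 2 + x 2 ^ 2) % 9 = 6 → x 0 % 3 = 1 → x 1 % 3 ≠ 0 →
      x 2 % 3 ≠ 0 → (x 1 % 3 = 1 → x 2 % 3 = 1) → (x 2 % 3 = 1 → x 1 % 3 = 1) → PP n F x := by
    intro x h h0 h1 h2 h3 h4
    have h5 : (x 1 % 3 = 1 ∧ x 2 % 3 = 1) ∨ ((-x 1) % 3 = 1 ∧ (-x 2) % 3 = 1) := by omega
    rcases h5 with ⟨h5, h6⟩ | ⟨h5, h6⟩
    · exact P_one hF h0 h5 h6 h
    · apply P_i hF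
      refine P_one hF h0 h5 h6 ?_
      show (x 0 ^ 2 + (-x 1) ^ 2 + (-x 2) ^ 2) % 9 = 6
      rw [neg_sq, neg_sq]
      exact h
  have key2 : ∀ x : Fin 3 → ℤ, (x 0 ^ 2 + x 1 ^ 2 + x 2 ^ 2) % 9 = 6 → x 0 % 3 ≠ 0 → x 1 % 3 ≠ 0 →
      x 2 % 3 ≠ 0 → (x 0 % 3 + x 1 % 3 + x 2 % 3) % 2 = 1 → PP n F x := by
    intro x h h0 h1 h2 h3
    have h5 : (x 0 % 3 = 1) ∨ ((-x 0) % 3 = 1) := by omega
    rcases h5 with h5 | h5
    · exact key x h h5 h1 h2 (by omega) (by omega)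
    · apply P_j hF
      refine key _ ?_ h5 h1 ?_ ?_ ?_
      · show ((-x 0) ^ 2 + x 1 ^ 2 + (-x 2) ^ 2) % 9 = 6
        rw [neg_sq, neg_sq]
        exact h
      · show (-x 2) % 3 ≠ 0
        omega
      · show x 1 % 3 = 1 → (-x 2) % 3 = 1
        omega
      · show (-x 2) % 3 = 1 → x 1 % 3 = 1
        omega
  by_cases hp : (x 0 % 3 + x 1 % 3 + x 2 % 3) % 2 = 1
  · exact key2 x h n0 n1 n2 hp
  · apply P_neg hF
    refine key2 _ ?_ ?_ ?_ ?_ ?_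
    · show ((-x 0) ^ 2 + (-x 1) ^ 2 + (-x 2) ^ 2) % 9 = 6
      rw [neg_sq, neg_sq, neg_sq]
      exact h
    · show (-x 0) % 3 ≠ 0
      omega
    · show (-x 1) % 3 ≠ 0
      omega
    · show (-x 2) % 3 ≠ 0
      omega
    · show ((-x 0) % 3 + (-x 1) % 3 + (-x 2) % 3) % 2 = 1
      omega

theorem nn_conj {x0 p r : ℤ} : pq (fun i => -(XV (x0 - 6 * (p + r)) p (-(2 * p) - r) i)) =
    nn⁻¹ * pq (XV x0 p r) * nn := by
  have h1 : nn * pq (fun i => -(XV (x0 - 6 * (p + r)) p (-(2 * p) - r) i)) =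
      pq (XV x0 p r) * nn := by
    have a0 : ((XV x0 p r 0 : ℤ) : ℚ) = x0 := rfl
    have a1 : ((XV x0 p r 1 : ℤ) : ℚ) = x0 + 9 * p := by
      show ((x0 + 9 * p : ℤ) : ℚ) = _
      push_cast; ring
    have a2 : ((XV x0 p r 2 : ℤ) : ℚ) = -2 * x0 + 9 * r := by
      show ((-2 * x0 + 9 * r : ℤ) : ℚ) = _
      push_cast; ring
    have b0 : ((-(XV (x0 - 6 * (p + r)) p (-(2 * p) - r) 0) : ℤ) : ℚ) = -x0 + 6 * (p + r) := by
      show ((-(x0 - 6 * (p + r)) : ℤ) : ℚ) = _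
      push_cast; ring
    have b1 : ((-(XV (x0 - 6 * (p + r)) p (-(2 * p) - r) 1) : ℤ) : ℚ) =
        -x0 + 6 * (p + r) - 9 * p := by
      show ((-(x0 - 6 * (p + r) + 9 * p) : ℤ) : ℚ) = _
      push_cast; ring
    have b2 : ((-(XV (x0 - 6 * (p + r)) p (-(2 * p) - r) 2) : ℤ) : ℚ) =
        2 * x0 - 12 * (p + r) + 9 * (2 * p + r) := by
      show ((-(-2 * (x0 - 6 * (p + r)) + 9 * (-(2 * p) - r)) : ℤ) : ℚ) = _
      push_cast; ring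
    unfold pq nn
    rw [a0, a1, a2, b0, b1, b2]
    apply ext4
    · simp [re_mul]; ring
    · simp [imI_mul]; ring
    · simp [imJ_mul]; ring
    · simp [imK_mul]
  rw [mul_assoc, ← h1, ← mul_assoc, inv_mul_cancel₀ nn_ne, one_mul]

/-- the symmetry of the disc coming from the uniformizer -/
theorem gvR_n (hF : IsFormR n k F) {x0 p r : ℤ} (hx : ¬ (3 : ℤ) ∣ x0) :
    gv n (F Oo) (XV (x0 - 6 * (p + r)) p (-(2 * p) - r)) = gv n (F Oo) (XV x0 p r) := by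
  have h1 : ¬ (3 : ℤ) ∣ x0 - 6 * (p + r) := by omega
  rw [← (b_neg hF (Ad_exists n (XV_mem (p := p) (r := -(2 * p) - r) h1))).2]
  apply gvR_flip hF _ nn_conj (Ad_exists (n + 1) (XV_mem hx))
  refine ⟨x0, ![0, 3 * p, -x0 + 3 * r], ?_⟩
  intro i
  fin_cases i
  · show x0 = x0 + 3 * 0
    ring
  · show x0 + 9 * p = x0 + 3 * (3 * p)
    ring
  · show -2 * x0 + 9 * r = x0 + 3 * (-x0 + 3 * r)
    ring

/-- the symmetry of the disc coming from the transposition -/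
theorem gvR_e (hF : IsFormR n k F) {x0 p r : ℤ} (hx : ¬ (3 : ℤ) ∣ x0) :
    gv n (F Oo) (XV (x0 + 9 * p) (-p) (r + 2 * p)) = gv n (F Oo) (XV x0 p r) := by
  rw [← b_sw hF (Ad_exists n (XV_mem (p := p) (r := r) hx))]
  congr 1
  funext i
  fin_cases i
  · show x0 + 9 * p = x0 + 9 * p
    rfl
  · show x0 + 9 * p + 9 * -p = x0
    ring
  · show -2 * (x0 + 9 * p) + 9 * (r + 2 * p) = -2 * x0 + 9 * r
    ring

theorem gvR_cy1 (hF : IsFormR n k F) {x : Fin 3 → ℤ} (hx : ∃ u, Ad n x u) :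
    gv n (F Oo) (cy1 x) = gv n (F Oo) x := (b_om hF hx).2

theorem gvR_cy2 (hF : IsFormR n k F) {x : Fin 3 → ℤ} (hx : ∃ u, Ad n x u) :
    gv n (F Oo) (cy2 x) = gv n (F Oo) x := (b_om2 hF hx).2

/-- constancy of the reductions of the values of an eigenform -/
theorem all_valR {V : ValuationSubring ℂ} (hV : Thr V) (hF : IsFormR n k F)
    (hF0 : ∃ I u, F I u ≠ 0) {l5 l7 : ℂ}
    (h5 : ∀ I u, IsRI I → Gen3 I u → heckeN 5 F I u = l5 • F I u)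
    (h7 : ∀ I u, IsRI I → Gen3 I u → heckeN 7 F I u = l7 • F I u) : ∃ c : ℂ, ∃ r : kap V, r ≠ 0 ∧
      ∀ x : Fin 3 → ℤ, (x 0 ^ 2 + x 1 ^ 2 + x 2 ^ 2) % 9 = 6 →
        ∃ v : V, c * gv n (F Oo) x = (v : ℂ) ∧ rs V v = r := by
  have hf := formR_fr hF
  obtain ⟨Q, hQ⟩ := gv_poly hf
  have hne : ∃ x ∈ XR, gv n (F Oo) x ≠ 0 := by
    obtain ⟨u, hu, hu0⟩ := formR_ne hF hF0
    obtain ⟨y, hy, hy3⟩ := exists_vecu (n := n) hu
    obtain ⟨z, hz, hz0⟩ := vl_coset hu0 y (n + 2)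
    have hz1 : gv n (F Oo) z ≠ 0 := by
      rw [gv_loc hf hy (fun i => dvd_trans (by
        rw [pow_succ 3 (n + 1)]; push_cast; exact Dvd.intro _ rfl) (hz i))]
      exact hz0
    have hz3 : (z 0 ^ 2 + z 1 ^ 2 + z 2 ^ 2) % 9 = 6 := by
      have key : ∀ i, z i ^ 2 ≡ y i ^ 2 [ZMOD 9] := by
        intro i
        apply Int.ModEq.pow
        rw [Int.modEq_comm, Int.modEq_iff_dvd]
        refine dvd_trans ?_ (hz i)
        have e : ((3 ^ (n + 2) : ℕ) : ℤ) = 9 * 3 ^ n := by push_cast; ring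
        rw [e]
        exact Dvd.intro _ rfl
      have hy3' : y 0 ^ 2 + y 1 ^ 2 + y 2 ^ 2 ≡ 6 [ZMOD 9] := hy3
      exact (((key 0).add (key 1)).add (key 2)).trans hy3'
    obtain ⟨_, w, hw, hw1⟩ := P_all hF hz3
    exact ⟨w, hw, by rw [← hw1]; exact hz1⟩
  obtain ⟨c, r, hr, H⟩ := red_constR (k := k) hV (fun x hx => hQ x (Ad_exists n hx)) hne
    (fun x hx s hs => gv_scal hf (Ad_exists n hx) hs) (fun x hx => gv_neg hf (Ad_exists n hx))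
    (fun x0 p r hx => gvR_n hF hx) (fun x0 p r hx => gvR_e hF hx)
    (L5 := (10 : ℂ) ^ k * l5) (L7 := (28 : ℂ) ^ k * l7)
    (by
      intro x hx
      obtain ⟨u, hu⟩ := Ad_exists n hx
      have h1 := congrArg (fun P => vl P x) (heckeR5 hF h5 hu.1)
      simp only [vl_sum] at h1
      have h2 : vl (l5 • F Oo u) x = l5 * vl (F Oo u) x := by
        unfold vl; rw [smul_eval]
      rw [h2, ← gv_eq hf hu] at h1
      have h3 : ∑ i, gv n (F Oo) (act (v5 i) x) = (10 : ℂ) ^ k * l5 * gv n (F Oo) x := by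
        rw [mul_assoc, ← h1, Finset.mul_sum]
        apply Finset.sum_congr rfl
        intro i _
        have h4 := gv_act hf hu (v := v5 i) (N := 10) (by rw [v5_norm]; norm_num) (by norm_num)
        rw [← h4]
        norm_cast
      rw [← h3, Fin.sum_univ_six, Fin.sum_univ_six]
      have A : ∀ i, ∃ u, Ad n (act (v5 i) x) u := fun i => ⟨_, Ad_act hu (v5 i)⟩
      rw [← gvR_cy2 hF (A 0), ← gvR_cy1 hF (A 1), ← gvR_cy2 hF (A 2), ← gvR_cy1 hF (A 3),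
        ← gvR_cy2 hF (A 4), ← gvR_cy1 hF (A 5)]
      rfl)
    (by
      intro x hx
      obtain ⟨u, hu⟩ := Ad_exists n hx
      have h1 := congrArg (fun P => vl P x) (heckeR7 hF h7 hu.1)
      simp only [vl_sum] at h1
      have h2 : vl (l7 • F Oo u) x = l7 * vl (F Oo u) x := by
        unfold vl; rw [smul_eval]
      rw [h2, ← gv_eq hf hu] at h1
      have h3 : ∑ i, gv n (F Oo) (act (v7 i) x) = (28 : ℂ) ^ k * l7 * gv n (F Oo) x := by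
        rw [mul_assoc, ← h1, Finset.mul_sum]
        apply Finset.sum_congr rfl
        intro i _
        have h4 := gv_act hf hu (v := v7 i) (N := 28) (by rw [v7_norm]; norm_num) (by norm_num)
        rw [← h4]
        norm_cast
      rw [← h3, Fin.sum_univ_eight, Fin.sum_univ_eight]
      have A : ∀ i, ∃ u, Ad n (act (v7 i) x) u := fun i => ⟨_, Ad_act hu (v7 i)⟩
      rw [← gvR_cy2 hF (A 2), ← gvR_cy1 hF (A 3), ← gvR_cy2 hF (A 4), ← gvR_cy1 hF (A 5),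
        ← gvR_cy1 hF (A 6), ← gvR_cy2 hF (A 7)]
      rfl)
  refine ⟨c, r, hr, fun x hx => ?_⟩
  obtain ⟨_, y, hy, hxy⟩ := P_all hF hx
  rw [hxy]
  exact H y hy

end

end Pool.Agent.Helper725_HQ.RR
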