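import Pool.Agent.Helper725_HQ.RCx
import Pool.Agent.Helper725_HQ.CVal
import Pool.Agent.Helper725_HQ.RVal

/-! Constancy of the reductions in conductor four, for the ramified torus. -/

set_option autoImplicit false
set_option linter.unusedVariables false
set_option linter.unusedSimpArgs false

namespace Pool.Agent.Helper725_HQ.RR

open Quaternion MvPolynomial

/-- vectors of norm congruent to six modulo nine -/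
def X9 : Set (Fin 3 → ℤ) := {x | (x 0 ^ 2 + x 1 ^ 2 + x 2 ^ 2) % 9 = 6}

theorem XR_X9 {x : Fin 3 → ℤ} (hx : x ∈ XR) : x ∈ X9 := by
  obtain ⟨x0, p, r, hx0, rfl⟩ := XR_ex hx
  show (x0 ^ 2 + (x0 + 9 * p) ^ 2 + (-2 * x0 + 9 * r) ^ 2) % 9 = 6
  have h1 : x0 ^ 2 % 3 = 1 := by
    have h01 : x0 % 3 = 1 ∨ x0 % 3 = 2 := by omega
    rcases h01 with h | h <;> · rw [pow_two, Int.mul_emod, h]; rfl
  have e : x0 ^ 2 + (x0 + 9 * p) ^ 2 + (-2 * x0 + 9 * r) ^ 2 = 6 * x0 ^ 2 +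
      9 * (2 * x0 * p + 9 * p ^ 2 - 4 * x0 * r + 9 * r ^ 2) := by ring
  rw [e]
  omega

theorem cyi_X9 (s : Fin 3) {x : Fin 3 → ℤ} (hx : x ∈ X9) : cyi s x ∈ X9 := by
  have h : (x 0 ^ 2 + x 1 ^ 2 + x 2 ^ 2) % 9 = 6 := hx
  fin_cases s
  · exact h
  · show (x 1 ^ 2 + x 2 ^ 2 + x 0 ^ 2) % 9 = 6
    rw [← h]; congr 1; ring
  · show (x 2 ^ 2 + x 0 ^ 2 + x 1 ^ 2) % 9 = 6
    rw [← h]; congr 1; ring

theorem actc_X9 {c : Fin 4 → ℤ} {N : ℤ} (hN : c 0 ^ 2 + c 1 ^ 2 + c 2 ^ 2 + c 3 ^ 2 = N)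
    (hN3 : N % 3 = 1) {x : Fin 3 → ℤ} (hx : x ∈ X9) : actc c x ∈ X9 := by
  have h1 := congrArg normSq (pq_actc c x)
  rw [map_mul, map_mul, normSq_star, qc_norm, normSq_pq, normSq_pq, hN] at h1
  have h2 : actc c x 0 ^ 2 + actc c x 1 ^ 2 + actc c x 2 ^ 2 =
      N * (x 0 ^ 2 + x 1 ^ 2 + x 2 ^ 2) * N := by exact_mod_cast h1
  show (actc c x 0 ^ 2 + actc c x 1 ^ 2 + actc c x 2 ^ 2) % 9 = 6
  rw [h2]
  obtain ⟨S, hS⟩ : ∃ S, S = x 0 ^ 2 + x 1 ^ 2 + x 2 ^ 2 := ⟨_, rfl⟩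
  have h3 : S % 9 = 6 := by rw [hS]; exact hx
  rw [← hS]
  obtain ⟨a, ha⟩ : ∃ a, N = 1 + 3 * a := ⟨N / 3, by omega⟩
  obtain ⟨b, hb⟩ : ∃ b, S = 6 + 9 * b := ⟨S / 9, by omega⟩
  rw [ha, hb]
  have e : (1 + 3 * a) * (6 + 9 * b) * (1 + 3 * a) = 6 + 9 * (b * (1 + 3 * a) ^ 2 +
      4 * a + 6 * a ^ 2) := by ring
  rw [e]
  omega

theorem act_X9 (v : Fin 3 → ℤ) {x : Fin 3 → ℤ} (hx : x ∈ X9) : act v x ∈ X9 := by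
  have h := actc_X9 (c := tc 1 v) (N := 1 + 9 * (v 0 ^ 2 + v 1 ^ 2 + v 2 ^ 2)) (by
    show (1 : ℤ) ^ 2 + (3 * v 0) ^ 2 + (3 * v 1) ^ 2 + (3 * v 2) ^ 2 = _
    ring) (by omega) hx
  exact h

section
variable {N : ℕ} {κ : Type} [Field κ]

/-- eigenfunctions with a symmetry are constant -/
theorem const_XRs (h3 : (3 : κ) = 0) (hN : 1 ≤ N) {h : (Fin 3 → ℤ) → κ} (hp : Pe N h)
    (hs : ∀ x ∈ XR, ∀ s : ℤ, ¬ (3 : ℤ) ∣ s → h (fun i => s * x i) = h x)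
    (hfl : ∀ x0 p r : ℤ, ¬ (3 : ℤ) ∣ x0 → h (XV (x0 - 6 * (p + r)) p (-(2 * p) - r)) =
      h (XV x0 p r))
    (hsw : ∀ x0 p r : ℤ, ¬ (3 : ℤ) ∣ x0 → h (XV (x0 + 9 * p) (-p) (r + 2 * p)) = h (XV x0 p r))
    {m5 m7 : κ} (h5 : ∀ x ∈ XR, ∑ i, h (Z5 x i) = m5 * h x)
    (h7 : ∀ x ∈ XR, ∑ i, h (Z7 x i) = m7 * h x) :
    ∃ d, ∀ x ∈ XR, h x = d := by
  have hgd : Gd (toFn N h) := toFn_Gd hN hp hs
  refine ⟨toFn N h (kk N), fun x hx => ?_⟩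
  have h9 := const_R h3 hgd (toFn_n hN hp hfl) (toFn_e hN hp hsw) (op5 hN hp hgd h5)
    (op7 hN hp hgd h7) (Dc_encv hx)
  rw [toFn_im hp hx] at h9
  exact h9

/-- the properties of the reductions -/
structure HkR (N : ℕ) (h : (Fin 3 → ℤ) → κ) (l5 l7 l13 : κ) : Prop where
  per : ∀ x ∈ X9, ∀ y ∈ X9, (∀ i, ((3 ^ N : ℕ) : ℤ) ∣ x i - y i) → h x = h y
  sc : ∀ x ∈ X9, ∀ s : ℤ, ¬ (3 : ℤ) ∣ s → h (fun i => s * x i) = h x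
  fi : ∀ x ∈ X9, h ![x 0, -x 1, -x 2] = h x
  fj : ∀ x ∈ X9, h ![-x 0, x 1, -x 2] = h x
  fq : ∀ x ∈ X9, h ![x 0, x 2, -x 1] = h x
  fl : ∀ s : Fin 3, ∀ x0 p r : ℤ, ¬ (3 : ℤ) ∣ x0 →
    h (cyi s (XV (x0 - 6 * (p + r)) p (-(2 * p) - r))) = h (cyi s (XV x0 p r))
  tr : ∀ x ∈ X9, h x + h (cyi 1 x) + h (cyi 2 x) = 0
  r5 : ∀ x ∈ X9, ∑ i, h (cyi (s5 i) (act (v5 i) x)) = l5 * h x
  r7 : ∀ x ∈ X9, ∑ i, h (cyi (s7 i) (act (v7 i) x)) = l7 * h x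
  r13 : ∀ x ∈ X9, ∑ i, h (cyi (s13 i) (actc (c13 i) x)) = l13 * h x

variable {h : (Fin 3 → ℤ) → κ} {l5 l7 l13 : κ}

theorem HkR.up (H : HkR N h l5 l7 l13) : HkR (N + 3) h l5 l7 l13 := by
  refine ⟨fun x hx y hy hxy => H.per x hx y hy (fun i => dvd_trans ?_ (hxy i)), H.sc, H.fi, H.fj,
    H.fq, H.fl, H.tr, H.r5, H.r7, H.r13⟩
  rw [pow_add]
  push_cast
  exact Dvd.intro _ rfl

theorem neg0_X9 {x : Fin 3 → ℤ} (hx : x ∈ X9) (a b c : ℤ) (ha : a ^ 2 = x 0 ^ 2)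
    (hb : b ^ 2 = x 1 ^ 2) (hc : c ^ 2 = x 2 ^ 2) : (![a, b, c] : Fin 3 → ℤ) ∈ X9 := by
  show (a ^ 2 + b ^ 2 + c ^ 2) % 9 = 6
  rw [ha, hb, hc]
  exact hx

theorem HkR.sg2 (H : HkR N h l5 l7 l13) {x : Fin 3 → ℤ} (hx : x ∈ X9) :
    h ![x 0, x 1, -x 2] = h x := by
  have m1 := neg0_X9 hx (x 0) (-x 1) (-x 2) rfl (by ring) (by ring)
  have m2 := neg0_X9 hx (-x 0) (-x 1) (x 2) (by ring) (by ring) rfl
  have h1 := H.fi x hx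
  have h2 := H.fj _ m1
  have e2 : (![-(![x 0, -x 1, -x 2] : Fin 3 → ℤ) 0, (![x 0, -x 1, -x 2] : Fin 3 → ℤ) 1,
      -(![x 0, -x 1, -x 2] : Fin 3 → ℤ) 2] : Fin 3 → ℤ) = ![-x 0, -x 1, x 2] := by
    funext i; fin_cases i <;> simp
  rw [e2] at h2
  have h4 := H.sc _ m2 (-1) (by norm_num)
  have e3 : (fun i => (-1 : ℤ) * (![-x 0, -x 1, x 2] : Fin 3 → ℤ) i) = ![x 0, x 1, -x 2] := by
    funext i; fin_cases i <;> simp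
  rw [e3] at h4
  rw [h4, h2, h1]

theorem HkR.sg1 (H : HkR N h l5 l7 l13) {x : Fin 3 → ℤ} (hx : x ∈ X9) :
    h ![x 0, -x 1, x 2] = h x := by
  have m1 := neg0_X9 hx (x 0) (-x 1) (x 2) rfl (by ring) rfl
  have h1 := H.sg2 m1
  have e1 : (![(![x 0, -x 1, x 2] : Fin 3 → ℤ) 0, (![x 0, -x 1, x 2] : Fin 3 → ℤ) 1,
      -(![x 0, -x 1, x 2] : Fin 3 → ℤ) 2] : Fin 3 → ℤ) = ![x 0, -x 1, -x 2] := by
    funext i; fin_cases i <;> simp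
  rw [e1, H.fi x hx] at h1
  exact h1.symm

theorem HkR.sg0 (H : HkR N h l5 l7 l13) {x : Fin 3 → ℤ} (hx : x ∈ X9) :
    h ![-x 0, x 1, x 2] = h x := by
  have m1 := neg0_X9 hx (-x 0) (x 1) (x 2) (by ring) rfl rfl
  have h1 := H.sg2 m1
  have e1 : (![(![-x 0, x 1, x 2] : Fin 3 → ℤ) 0, (![-x 0, x 1, x 2] : Fin 3 → ℤ) 1,
      -(![-x 0, x 1, x 2] : Fin 3 → ℤ) 2] : Fin 3 → ℤ) = ![-x 0, x 1, -x 2] := by
    funext i; fin_cases i <;> simp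
  rw [e1, H.fj x hx] at h1
  exact h1.symm

/-- the transposition of the last two coordinates -/
theorem HkR.sw (H : HkR N h l5 l7 l13) {x : Fin 3 → ℤ} (hx : x ∈ X9) :
    h ![x 0, x 2, x 1] = h x := by
  have m1 : (![x 0, x 2, -x 1] : Fin 3 → ℤ) ∈ X9 := by
    show (x 0 ^ 2 + x 2 ^ 2 + (-x 1) ^ 2) % 9 = 6
    have h : (x 0 ^ 2 + x 1 ^ 2 + x 2 ^ 2) % 9 = 6 := hx
    rw [← h]; congr 1; ring
  have h1 := H.sg2 m1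
  have e1 : (![(![x 0, x 2, -x 1] : Fin 3 → ℤ) 0, (![x 0, x 2, -x 1] : Fin 3 → ℤ) 1,
      -(![x 0, x 2, -x 1] : Fin 3 → ℤ) 2] : Fin 3 → ℤ) = ![x 0, x 2, x 1] := by
    funext i; fin_cases i <;> simp
  rw [e1, H.fq x hx] at h1
  exact h1

/-- the sign which makes an integer congruent to one -/
def nz (a : ℤ) : ℤ := if a % 3 = 1 then a else -a

theorem nz_cases (a : ℤ) : nz a = a ∨ nz a = -a := by
  unfold nz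
  split_ifs
  · exact Or.inl rfl
  · exact Or.inr rfl

theorem nz_one {a : ℤ} (ha : ¬ (3 : ℤ) ∣ a) : nz a % 3 = 1 := by
  unfold nz
  split_ifs with h
  · exact h
  · omega

/-- normalized vectors -/
def nv (x : Fin 3 → ℤ) : Fin 3 → ℤ := ![nz (x 0), nz (x 1), nz (x 2)]

theorem HkR.nv (H : HkR N h l5 l7 l13) {x : Fin 3 → ℤ} (hx : x ∈ X9) :
    RR.nv x ∈ X9 ∧ h (RR.nv x) = h x := by
  have s0 : h ![nz (x 0), x 1, x 2] = h x ∧ (![nz (x 0), x 1, x 2] : Fin 3 → ℤ) ∈ X9 := by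
    rcases nz_cases (x 0) with e | e <;> rw [e]
    · have e1 : (![x 0, x 1, x 2] : Fin 3 → ℤ) = x := by funext i; fin_cases i <;> rfl
      rw [e1]
      exact ⟨rfl, hx⟩
    · exact ⟨H.sg0 hx, neg0_X9 hx _ _ _ (by ring) rfl rfl⟩
  have s1 : h ![nz (x 0), nz (x 1), x 2] = h x ∧
      (![nz (x 0), nz (x 1), x 2] : Fin 3 → ℤ) ∈ X9 := by
    rcases nz_cases (x 1) with e | e <;> rw [e]
    · exact s0
    · refine ⟨?_, neg0_X9 s0.2 _ _ _ rfl (by show (-x 1) ^ 2 = x 1 ^ 2; ring) rfl⟩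
      have h1 := H.sg1 s0.2
      rw [s0.1] at h1
      exact h1
  rcases nz_cases (x 2) with e | e
  · have e1 : RR.nv x = ![nz (x 0), nz (x 1), x 2] := by unfold RR.nv; rw [e]
    rw [e1]
    exact ⟨s1.2, s1.1⟩
  · have e1 : RR.nv x = ![nz (x 0), nz (x 1), -x 2] := by unfold RR.nv; rw [e]
    rw [e1]
    refine ⟨neg0_X9 s1.2 _ _ _ rfl rfl (by show (-x 2) ^ 2 = x 2 ^ 2; ring), ?_⟩
    have h1 := H.sg2 s1.2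
    rw [s1.1] at h1
    exact h1

theorem ne_X9 {x : Fin 3 → ℤ} (h : x ∈ X9) :
    ¬ (3 : ℤ) ∣ x 0 ∧ ¬ (3 : ℤ) ∣ x 1 ∧ ¬ (3 : ℤ) ∣ x 2 := by
  have h' : (x 0 ^ 2 + x 1 ^ 2 + x 2 ^ 2) % 9 = 6 := h
  have hz : ∀ a : ℤ, a % 3 = 0 → a ^ 2 % 9 = 0 := by
    intro a ha
    obtain ⟨b, rfl⟩ := Int.dvd_of_emod_eq_zero ha
    have e : (3 * b) ^ 2 = 9 * b ^ 2 := by ring
    omega
  have hu : ∀ a : ℤ, a % 3 = 1 ∨ a % 3 = 2 → a ^ 2 % 3 = 1 := by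
    intro a ha
    rcases ha with ha | ha <;> · rw [pow_two, Int.mul_emod, ha]; rfl
  have z0 := hz (x 0)
  have z1 := hz (x 1)
  have z2 := hz (x 2)
  have u0 := hu (x 0)
  have u1 := hu (x 1)
  have u2 := hu (x 2)
  have r0 : x 0 % 3 = 0 ∨ (x 0 % 3 = 1 ∨ x 0 % 3 = 2) := by omega
  have r1 : x 1 % 3 = 0 ∨ (x 1 % 3 = 1 ∨ x 1 % 3 = 2) := by omega
  have r2 : x 2 % 3 = 0 ∨ (x 2 % 3 = 1 ∨ x 2 % 3 = 2) := by omega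
  rcases r0 with r0 | r0 <;> rcases r1 with r1 | r1 <;> rcases r2 with r2 | r2
  · have := z0 r0; have := z1 r1; have := z2 r2; omega
  · have := z0 r0; have := z1 r1; have := u2 r2; omega
  · have := z0 r0; have := u1 r1; have := z2 r2; omega
  · have := z0 r0; have := u1 r1; have := u2 r2; omega
  · have := u0 r0; have := z1 r1; have := z2 r2; omega
  · have := u0 r0; have := z1 r1; have := u2 r2; omega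
  · have := u0 r0; have := u1 r1; have := z2 r2; omega
  · omega

/-- the three cases for a normalized vector -/
theorem nv_cases {x : Fin 3 → ℤ} (hx : x ∈ X9) (hn : nv x ∈ X9) :
    nv x ∈ XR ∨ ((nv x 1 - nv x 0) % 9 ≠ 0 ∧ cyi 1 (nv x) ∈ XR) ∨
      ((nv x 1 - nv x 0) % 9 ≠ 0 ∧ (nv x 2 - nv x 1) % 9 ≠ 0 ∧ cyi 2 (nv x) ∈ XR) := by
  obtain ⟨m0, m1, m2⟩ := ne_X9 hx
  have h0 : nv x 0 % 3 = 1 := nz_one m0
  have h1 : nv x 1 % 3 = 1 := nz_one m1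
  have h2 : nv x 2 % 3 = 1 := nz_one m2
  have h : (nv x 0 ^ 2 + nv x 1 ^ 2 + nv x 2 ^ 2) % 9 = 6 := hn
  generalize hy : nv x = y at h0 h1 h2 h
  have hc : (9 ∣ y 1 - y 0 ∧ 9 ∣ y 2 + 2 * y 0) ∨ ((y 1 - y 0) % 9 ≠ 0 ∧ 9 ∣ y 2 - y 1 ∧
      9 ∣ y 0 + 2 * y 1) ∨ ((y 1 - y 0) % 9 ≠ 0 ∧ (y 2 - y 1) % 9 ≠ 0 ∧ 9 ∣ y 0 - y 2 ∧
      9 ∣ y 1 + 2 * y 2) := by
    rcases sq9 h0 with ⟨a0, b0⟩ | ⟨a0, b0⟩ | ⟨a0, b0⟩ <;>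
    rcases sq9 h1 with ⟨a1, b1⟩ | ⟨a1, b1⟩ | ⟨a1, b1⟩ <;>
    rcases sq9 h2 with ⟨a2, b2⟩ | ⟨a2, b2⟩ | ⟨a2, b2⟩ <;>
    omega
  rcases hc with ⟨c1, c2⟩ | ⟨c0, c1, c2⟩ | ⟨c0, c0', c1, c2⟩
  · exact Or.inl ⟨by omega, c1, c2⟩
  · refine Or.inr (Or.inl ⟨c0, ?_, ?_, ?_⟩)
    · show ¬ (3 : ℤ) ∣ y 1
      omega
    · exact c1
    · exact c2
  · refine Or.inr (Or.inr ⟨c0, c0', ?_, ?_, ?_⟩)
    · show ¬ (3 : ℤ) ∣ y 2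
      omega
    · exact c1
    · exact c2

/-- a function of the coordinates modulo three -/
def zg (f : ZMod 3 → ZMod 3 → ZMod 3 → ZMod 3) (x : Fin 3 → ℤ) : ZMod 3 :=
  f ((x 0 : ℤ) : ZMod 3) (((x 1 - x 0) / 9 : ℤ) : ZMod 3) (((x 2 + 2 * x 0) / 9 : ℤ) : ZMod 3)

/-- the exceptional eigenfunction -/
def f0z (x : Fin 3 → ℤ) : ZMod 3 :=
  if (nv x 1 - nv x 0) % 9 = 0 then zg uz (nv x) - zg wz (nv x)
  else if (nv x 2 - nv x 1) % 9 = 0 then zg uz (cyi 1 (nv x))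
  else zg uz (cyi 2 (nv x)) + zg wz (cyi 2 (nv x))

theorem cyi_22 (x : Fin 3 → ℤ) : cyi 2 (cyi 2 x) = cyi 1 x := by
  funext i; fin_cases i <;> rfl

/-- the function from its restriction to the disc -/
theorem HkR.val (H : HkR N h l5 l7 l13) {φ : ZMod 3 →+* κ} {c d : κ}
    (hU : ∀ x ∈ XR, h (cyi 2 x) = c * φ (zg uz x) + d)
    (hh : ∀ x ∈ XR, h x = c * φ (zg uz x - zg wz x) + d)
    (hh1 : ∀ x ∈ XR, h (cyi 1 x) = c * φ (zg uz x + zg wz x) + d) {x : Fin 3 → ℤ} (hx : x ∈ X9) :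
    h x = c * φ (f0z x) + d := by
  obtain ⟨n1, n2⟩ := H.nv hx
  rw [← n2]
  unfold f0z
  rcases nv_cases hx n1 with m | ⟨m0, m⟩ | ⟨m0, m1, m⟩
  · have e : (RR.nv x 1 - RR.nv x 0) % 9 = 0 := Int.emod_eq_zero_of_dvd m.2.1
    rw [if_pos e, hh _ m]
  · have e : (RR.nv x 2 - RR.nv x 1) % 9 = 0 := Int.emod_eq_zero_of_dvd m.2.1
    rw [if_neg m0, if_pos e, ← hU _ m, cyi_21]
  · rw [if_neg m0, if_neg m1, ← hh1 _ m, cyi_12]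

end

end Pool.Agent.Helper725_HQ.RR
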