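import Pool.Agent.Helper725_HQ.KPer
import Pool.Agent.Helper725_HQ.LPer
import Pool.Agent.Helper725_HQ.RCh

/-! Periods of eigenforms of level one along the fields which are ramified at three. -/

set_option autoImplicit false
set_option linter.unusedVariables false
set_option linter.unusedSimpArgs false

namespace Pool.Agent.Helper725_HQ.RR

open Quaternion MvPolynomial NumberField
open scoped nonZeroDivisors

theorem sg_ex {t : ℤ} (h : ¬ (3 : ℤ) ∣ t) : ∃ a : ℤ, (a = 1 ∨ a = -1) ∧ (a * t) % 3 = 1 := by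
  have h1 : t % 3 = 1 ∨ t % 3 = 2 := by omega
  rcases h1 with h1 | h1
  · exact ⟨1, Or.inl rfl, by omega⟩
  · exact ⟨-1, Or.inr rfl, by omega⟩

/-- the sum of two terms of the period -/
theorem pair_term {K : Type} [Field K] [NumberField K] {V : ValuationSubring ℂ} {k : ℕ}
    {G : Fun1} (hG : Form1 k G) (hk : Even k) {c : ℂ} {r : kap V} {d : ℕ} (hd6 : d % 9 = 6)
    (H : ∀ x ∈ XR, ∃ v : V, c * gP (G Oo) x = (v : ℂ) ∧ rs V v = r)
    {ι : K →+* ℍ[ℚ]} {𝔞 : Ideal (𝓞 K)} (h𝔞 : 𝔞 ≠ ⊥)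
    (hs : Stab ι Oo) {s : 𝓞 K}
    (hre : (ι (s : K)).re = 0) (hd : normSq (ι (s : K)) = (d : ℚ)) :
    ∃ v : V, c * (ev (G (idl ι 𝔞 Oo)) (ι (s : K)) +
      ev (G (idl ι (Ideal.span {3, s} * 𝔞) Oo)) (ι (s : K))) = (v : ℂ) ∧ rs V v = r := by
  have hp := isRI_idl h𝔞 hs Oo_isRI
  obtain ⟨α, hα, hαe⟩ := principal hp
  have hst := stab_idl (ι := ι) (𝔞 := 𝔞) (I := Oo)
  rw [← idl_idl]
  rw [hαe] at hst ⊢
  have h2 : α⁻¹ * ι (s : K) * α ∈ Hur := by
    have h3 := hst s α (mem_lm.2 ⟨1, Hur.one_mem, by rw [mul_one]⟩)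
    rw [mem_lm' hα, ← mul_assoc] at h3
    exact h3
  have hα' : α⁻¹ ≠ 0 := inv_ne_zero hα
  have h4 : (α⁻¹ * ι (s : K) * α).re = 0 := by
    have e2 := re_conj hα' (ι (s : K))
    rw [inv_inv] at e2
    rw [e2, hre]
  have h5 : normSq (α⁻¹ * ι (s : K) * α) = (d : ℚ) := by
    rw [map_mul, map_mul, hd]
    have e2 : normSq α⁻¹ * normSq α = 1 := by
      rw [← map_mul, inv_mul_cancel₀ hα, map_one]
    have e3 : normSq α⁻¹ * (d : ℚ) * normSq α = (normSq α⁻¹ * normSq α) * d := by ring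
    rw [e3, e2, one_mul]
  obtain ⟨a', b', c', h6⟩ := pure_int h2 h4
  obtain ⟨x, hx⟩ : ∃ x : Fin 3 → ℤ, x = ![a', b', c'] := ⟨_, rfl⟩
  have h7 : α⁻¹ * ι (s : K) * α = pq x := by
    rw [h6, hx]; rfl
  rw [h7, normSq_pq] at h5
  have h8 : x 0 ^ 2 + x 1 ^ 2 + x 2 ^ 2 = (d : ℤ) := by exact_mod_cast h5
  have hx9 : x ∈ X9 := by
    show (x 0 ^ 2 + x 1 ^ 2 + x 2 ^ 2) % 9 = 6
    omega
  obtain ⟨n0, n1, n2⟩ := ne_X9 hx9
  have hn : ∀ j, ¬ (3 : ℤ) ∣ x j := by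
    intro j
    fin_cases j
    · exact n0
    · exact n1
    · exact n2
  have hsx : ∀ j, ∃ a : ℤ, (a = 1 ∨ a = -1) ∧ (a * x j) % 3 = 1 := fun j => sg_ex (hn j)
  choose a ha hax using hsx
  have hz' : ∀ j, ∃ z, x j = a j + 3 * z := by
    intro j
    have h1 := hax j
    rcases ha j with h | h <;> rw [h] at h1 ⊢
    · exact ⟨(x j - 1) / 3, by omega⟩
    · exact ⟨(x j + 1) / 3, by omega⟩
  choose z hz using hz'
  have hxι : ι (s : K) * α = α * pq x := by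
    rw [← h7, ← mul_assoc, ← mul_assoc, mul_inv_cancel₀ hα, one_mul]
  rw [idl_three hα hst hxι ha hz]
  have ha2 : ∀ j, a j * a j = 1 := by
    intro j
    rcases ha j with h | h <;> rw [h] <;> norm_num
  have haq : ∀ j, ((a j : ℤ) : ℚ) * a j = 1 := by
    intro j
    exact_mod_cast ha2 j
  have hpa : pq a ≠ 0 := by
    rw [← normSq_ne_zero, normSq_pq]
    have : (a 0 ^ 2 + a 1 ^ 2 + a 2 ^ 2 : ℤ) = 3 := by
      linear_combination ha2 0 + ha2 1 + ha2 2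
    rw [this]
    norm_num
  obtain ⟨m, hm⟩ : ∃ m, a 0 * x 0 + a 1 * x 1 + a 2 * x 2 = 3 * m := by
    have h0 := hax 0
    have h1 := hax 1
    have h2 := hax 2
    exact ⟨(a 0 * x 0 + a 1 * x 1 + a 2 * x 2) / 3, by omega⟩
  obtain ⟨x'', hx''⟩ : ∃ x'' : Fin 3 → ℤ, x'' = fun j => 2 * m * a j - x j := ⟨_, rfl⟩
  have hmq : (a 0 : ℚ) * x 0 + a 1 * x 1 + a 2 * x 2 = 3 * m := by exact_mod_cast hm
  have hrot : pq x * pq a = pq a * pq x'' := by
    rw [hx'']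
    unfold pq
    apply ext4
    · simp [re_mul]
      linear_combination (2 * (m : ℚ)) * (haq 0 + haq 1 + haq 2) - 2 * hmq
    · simp [imI_mul]; ring
    · simp [imJ_mul]; ring
    · simp [imK_mul]; ring
  have hrot' : (pq a)⁻¹ * pq x * pq a = pq x'' := by
    rw [mul_assoc, hrot, ← mul_assoc, inv_mul_cancel₀ hpa, one_mul]
  rw [hG.left α hα, ev_lsub hα, hG.left α hα, ev_lsub hα, h7, hG.left _ hpa, ev_lsub hpa, hrot',
    ev_vl, ev_vl]
  have hsym := sym_of_form hk hG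
  obtain ⟨y, hy⟩ : ∃ y : Fin 3 → ℤ, y = fun j => a j * x j := ⟨_, rfl⟩
  have e1 : vl (G Oo) x = vl (G Oo) y := by
    apply vs_abs hsym
    intro j
    rw [hy]
    rcases ha j with h | h
    · left; simp only [h]; ring
    · right; simp only [h]; ring
  have e2 : vl (G Oo) x'' = vl (G Oo) (flx y) := by
    apply vs_abs hsym
    intro j
    have e3 : flx y j = a j * x j - 2 * m := by
      unfold flx
      have e4 : y 0 + y 1 + y 2 = 3 * m := by rw [hy]; exact hm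
      rw [e4, Int.mul_ediv_cancel_left _ (by norm_num), hy]
    rw [e3, hx'']
    rcases ha j with h | h
    · right; simp only [h]; ring
    · left; simp only [h]; ring
  rw [e1, e2]
  have hyn : y 0 ^ 2 + y 1 ^ 2 + y 2 ^ 2 = (d : ℤ) := by
    rw [hy, ← h8]
    show (a 0 * x 0) ^ 2 + (a 1 * x 1) ^ 2 + (a 2 * x 2) ^ 2 = _
    linear_combination (x 0) ^ 2 * ha2 0 + (x 1) ^ 2 * ha2 1 + (x 2) ^ 2 * ha2 2
  have h10 := gP_norm hsym H (y := y) (by rw [hy]; exact hax 0) (by rw [hy]; exact hax 1)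
    (by rw [hy]; exact hax 2) (by omega)
  exact h10

theorem nonvan_six {V : ValuationSubring ℂ} (hV : Thr V) {k : ℕ} (hk : Even k) {G : Fun1}
    (hG : Form1 k G) {c : ℂ} {r : kap V} (hr0 : r ≠ 0) {d : ℕ} (hd6 : d % 9 = 6)
    (H : ∀ x ∈ XR, ∃ v : V, c * gP (G Oo) x = (v : ℂ) ∧ rs V v = r)
    {K : Type} [Field K] [NumberField K] (hd : Squarefree d)
    (h8 : d % 8 = 3 ∨ d % 4 = 1 ∨ d % 4 = 2) (h2 : Module.finrank ℚ K = 2) {x : K}
    (hx : x ^ 2 = -(d : K))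
    (hcl : ¬ 3 ∣ Nat.card (ClassGroup (𝓞 K))) : NonvanPer1 G K := by
  obtain ⟨w, hw⟩ := three_sq h8
  have hd0 : 0 < d := by omega
  obtain ⟨ι, hι⟩ := exists_iota hd0 h2 hx hw
  have hs := stab_Oo hd h8 h2 hx hw hι
  have hint : IsIntegral ℤ (x : K) := by
    refine ⟨Polynomial.X ^ 2 + Polynomial.C ((d : ℕ) : ℤ), ?_, ?_⟩
    · monicity!
    · rw [Polynomial.eval₂_add, Polynomial.eval₂_pow, Polynomial.eval₂_X,
        Polynomial.eval₂_C, hx]
      simp
  refine ⟨ι, Oo, Oo_isRI, hs, x, ?_, ?_, ?_⟩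
  · rintro rfl
    rw [zero_pow two_ne_zero, zero_eq_neg, Nat.cast_eq_zero] at hx
    omega
  · rw [hι]; rfl
  · intro rep hrep h0
    obtain ⟨s0, hs0⟩ : ∃ s0 : 𝓞 K, (s0 : K) = x := ⟨⟨x, hint⟩, rfl⟩
    have hre : (ι (s0 : K)).re = 0 := by
      rw [hs0, hι]; rfl
    have hns : normSq (ι (s0 : K)) = (d : ℚ) := by
      rw [hs0, hι, normSq_pq, hw]; rfl
    have h𝔭 : (Ideal.span {3, s0} : Ideal (𝓞 K)) ≠ ⊥ := by
      intro h
      have h1 : (3 : 𝓞 K) ∈ (Ideal.span {3, s0} : Ideal (𝓞 K)) := Ideal.subset_span (by simp)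
      rw [h, Ideal.mem_bot] at h1
      have h2 : ((3 : 𝓞 K) : K) = 0 := by rw [h1]; rfl
      have h3 : ((3 : 𝓞 K) : K) = 3 := by norm_cast
      rw [h3] at h2
      exact three_ne_zero h2
    have key : ∀ cl : ClassGroup (𝓞 K), ∃ v : V,
        c * (ev (G (idl ι (rep cl : Ideal (𝓞 K)) Oo)) (ι x) +
          ev (G (idl ι (Ideal.span {3, s0} * (rep cl : Ideal (𝓞 K))) Oo)) (ι x)) = (v : ℂ) ∧
          rs V v = r := by
      intro cl
      have hne : (rep cl : Ideal (𝓞 K)) ≠ ⊥ := nonZeroDivisors.coe_ne_zero _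
      have := pair_term hG hk hd6 H hne hs hre hns
      rw [hs0] at this
      exact this
    choose v hv1 hv2 using key
    have h1 : ((∑ cl, v cl : V) : ℂ) = 0 := by
      have : ((∑ cl, v cl : V) : ℂ) = c * (torp1 G ι rep Oo x + torp1 G ι rep Oo x) := by
        have h4 := f_sum (ι := ι) hG hrep h𝔭 x
        have h5 : torp1 G ι rep Oo x + torp1 G ι rep Oo x =
            ∑ cl, (ev (G (idl ι (rep cl : Ideal (𝓞 K)) Oo)) (ι x) +
              ev (G (idl ι (Ideal.span {3, s0} * (rep cl : Ideal (𝓞 K))) Oo)) (ι x)) := by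
          rw [Finset.sum_add_distrib, h4]
          rfl
        rw [h5, Finset.mul_sum]
        have h3 : ((∑ cl, v cl : V) : ℂ) = V.subtype (∑ cl, v cl) := rfl
        rw [h3, map_sum]
        apply Finset.sum_congr rfl
        intro cl _
        exact (hv1 cl).symm
      rw [this, h0, add_zero, mul_zero]
    have h2 : (∑ cl, v cl : V) = 0 := Subtype.ext h1
    have h3 := congrArg (rs V) h2
    rw [map_sum, map_zero, Finset.sum_congr rfl (fun cl _ => hv2 cl), Finset.sum_const,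
      Finset.card_univ, nsmul_eq_mul] at h3
    rcases mul_eq_zero.1 h3 with h4 | h4
    · apply card_unit hV hcl
      rw [Nat.card_eq_fintype_card]
      exact h4
    · exact hr0 h4

end Pool.Agent.Helper725_HQ.RR
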