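import Pool.Agent.Helper725_HQ.KEig

/-! Periods of eigenforms of level one along the fields which are ramified at three. -/

set_option autoImplicit false
set_option linter.unusedVariables false
set_option linter.unusedSimpArgs false

namespace Pool.Agent.Helper725_HQ.RR

open Quaternion MvPolynomial NumberField
open scoped nonZeroDivisors

theorem flx_cy1 (y : Fin 3 → ℤ) : flx (cy1 y) = cy1 (flx y) := by
  have e : y 1 + y 2 + y 0 = y 0 + y 1 + y 2 := by ring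
  funext i
  fin_cases i
  · show y 1 - 2 * ((y 1 + y 2 + y 0) / 3) = y 1 - 2 * ((y 0 + y 1 + y 2) / 3)
    rw [e]
  · show y 2 - 2 * ((y 1 + y 2 + y 0) / 3) = y 2 - 2 * ((y 0 + y 1 + y 2) / 3)
    rw [e]
  · show y 0 - 2 * ((y 1 + y 2 + y 0) / 3) = y 0 - 2 * ((y 0 + y 1 + y 2) / 3)
    rw [e]

theorem flx_cy2 (y : Fin 3 → ℤ) : flx (cy2 y) = cy2 (flx y) := by
  have e : y 2 + y 0 + y 1 = y 0 + y 1 + y 2 := by ring
  funext i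
  fin_cases i
  · show y 2 - 2 * ((y 2 + y 0 + y 1) / 3) = y 2 - 2 * ((y 0 + y 1 + y 2) / 3)
    rw [e]
  · show y 0 - 2 * ((y 2 + y 0 + y 1) / 3) = y 0 - 2 * ((y 0 + y 1 + y 2) / 3)
    rw [e]
  · show y 1 - 2 * ((y 2 + y 0 + y 1) / 3) = y 1 - 2 * ((y 0 + y 1 + y 2) / 3)
    rw [e]

section
variable {P : MvPolynomial (Fin 3) ℂ}

theorem gP_cy1 (hs : Sym P) (y : Fin 3 → ℤ) : gP P (cy1 y) = gP P y := by
  unfold gP
  rw [flx_cy1, vs_cy1 hs, vs_cy1 hs]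

theorem gP_cy2 (hs : Sym P) (y : Fin 3 → ℤ) : gP P (cy2 y) = gP P y := by
  unfold gP
  rw [flx_cy2, vs_cy2 hs, vs_cy2 hs]

/-- normalized vectors -/
theorem gP_norm (hs : Sym P) {V : ValuationSubring ℂ} {c : ℂ} {r : kap V}
    (H : ∀ x ∈ XR, ∃ v : V, c * gP P x = (v : ℂ) ∧ rs V v = r) {y : Fin 3 → ℤ}
    (h0 : y 0 % 3 = 1) (h1 : y 1 % 3 = 1) (h2 : y 2 % 3 = 1)
    (h : (y 0 ^ 2 + y 1 ^ 2 + y 2 ^ 2) % 9 = 6) :
    ∃ v : V, c * gP P y = (v : ℂ) ∧ rs V v = r := by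
  have hc : (9 ∣ y 1 - y 0 ∧ 9 ∣ y 2 + 2 * y 0) ∨ (9 ∣ y 2 - y 1 ∧ 9 ∣ y 0 + 2 * y 1) ∨
      (9 ∣ y 0 - y 2 ∧ 9 ∣ y 1 + 2 * y 2) := by
    rcases sq9 h0 with ⟨a0, b0⟩ | ⟨a0, b0⟩ | ⟨a0, b0⟩ <;>
    rcases sq9 h1 with ⟨a1, b1⟩ | ⟨a1, b1⟩ | ⟨a1, b1⟩ <;>
    rcases sq9 h2 with ⟨a2, b2⟩ | ⟨a2, b2⟩ | ⟨a2, b2⟩ <;>
    omega
  rcases hc with ⟨c1, c2⟩ | ⟨c1, c2⟩ | ⟨c1, c2⟩
  · exact H y ⟨by omega, c1, c2⟩
  · rw [← gP_cy1 hs]
    refine H _ ⟨?_, ?_, ?_⟩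
    · show ¬ (3 : ℤ) ∣ y 1
      omega
    · exact c1
    · exact c2
  · rw [← gP_cy2 hs]
    refine H _ ⟨?_, ?_, ?_⟩
    · show ¬ (3 : ℤ) ∣ y 2
      omega
    · exact c1
    · exact c2

end

section
variable {K : Type} [Field K] [NumberField K] {ι : K →+* ℍ[ℚ]} {𝔞 𝔟 : Ideal (𝓞 K)} {k : ℕ}
  {G : Fun1}

theorem f_span (hG : Form1 k G) {x : 𝓞 K} (hx : x ≠ 0) (s : K) :
    ev (G (idl ι (Ideal.span {x} * 𝔞) Oo)) (ι s) = ev (G (idl ι 𝔞 Oo)) (ι s) := by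
  rw [← idl_idl, idl_span stab_idl, hG.left _ (iota_ne hx), ev_lsub (iota_ne hx)]
  congr 1
  have hx' : (x : K) ≠ 0 := by
    intro h
    exact hx (by exact_mod_cast h)
  rw [← map_inv₀, ← map_mul, ← map_mul]
  congr 1
  field_simp

theorem f_class (hG : Form1 k G) {I J : (Ideal (𝓞 K))⁰}
    (h : ClassGroup.mk0 I = ClassGroup.mk0 J) (s : K) :
    ev (G (idl ι (I : Ideal (𝓞 K)) Oo)) (ι s) = ev (G (idl ι (J : Ideal (𝓞 K)) Oo)) (ι s) := by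
  obtain ⟨x, y, hx, hy, hxy⟩ := ClassGroup.mk0_eq_mk0_iff.1 h
  rw [← f_span hG hx, hxy, f_span hG hy]

theorem f_sum (hG : Form1 k G) {rep : ClassGroup (𝓞 K) → (Ideal (𝓞 K))⁰}
    (hrep : ∀ c, ClassGroup.mk0 (rep c) = c) {𝔭 : Ideal (𝓞 K)} (h𝔭 : 𝔭 ≠ ⊥) (s : K) :
    ∑ c, ev (G (idl ι (𝔭 * (rep c : Ideal (𝓞 K))) Oo)) (ι s) =
      ∑ c, ev (G (idl ι (rep c : Ideal (𝓞 K)) Oo)) (ι s) := by
  obtain ⟨Q, hQ⟩ : ∃ Q : (Ideal (𝓞 K))⁰, (Q : Ideal (𝓞 K)) = 𝔭 :=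
    ⟨⟨𝔭, mem_nonZeroDivisors_of_ne_zero h𝔭⟩, rfl⟩
  rw [← Equiv.sum_comp (Equiv.mulLeft (ClassGroup.mk0 Q))
    (fun c => ev (G (idl ι (rep c : Ideal (𝓞 K)) Oo)) (ι s))]
  apply Finset.sum_congr rfl
  intro c _
  have h1 : ClassGroup.mk0 (Q * rep c) = ClassGroup.mk0 (rep (ClassGroup.mk0 Q * c)) := by
    rw [hrep, map_mul, hrep]
  have h2 := f_class (ι := ι) hG h1 s
  rw [← hQ]
  exact h2

/-- the ideal above three -/
theorem idl_three {α : ℍ[ℚ]} (hα : α ≠ 0) (hst : Stab ι (lm α Oo)) {s : 𝓞 K} {x a z : Fin 3 → ℤ}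
    (hx : ι (s : K) * α = α * pq x) (ha : ∀ j, a j = 1 ∨ a j = -1) (hz : ∀ j, x j = a j + 3 * z j) :
    idl ι (Ideal.span {3, s}) (lm α Oo) = lm α (lm (pq a) Oo) := by
  have ha2 : ∀ j, ((a j : ℤ) : ℚ) * a j = 1 := by
    intro j
    rcases ha j with h | h <;> rw [h] <;> norm_num
  have hsq : (3 : ℍ[ℚ]) = -(pq a * pq a) := by
    have h3 : (3 : ℍ[ℚ]) = mk4 3 0 0 0 := by
      apply ext4 <;> rfl
    rw [h3]
    unfold pq
    apply ext4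
    · simp [re_mul]
      linear_combination (-1 : ℚ) * ha2 0 - ha2 1 - ha2 2
    · simp [imI_mul]; ring
    · simp [imJ_mul]; ring
    · simp [imK_mul]; ring
  have hxz : pq x = pq a + 3 * pq z := by
    have e : (3 : ℍ[ℚ]) * pq z = (3 : ℚ) • pq z := by
      rw [← ratmul]; norm_cast
    rw [e]
    unfold pq
    apply ext4
    · simp
    · simp [hz]
    · simp [hz]
    · simp [hz]
  have h3i : ι ((3 : 𝓞 K) : K) = 3 := by
    have : ((3 : 𝓞 K) : K) = 3 := by norm_cast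
    rw [this, map_ofNat]
  apply le_antisymm
  · apply idl_le
    intro t ht y hy
    obtain ⟨u, v, rfl⟩ := Ideal.mem_span_pair.1 ht
    obtain ⟨o1, ho1, h1⟩ := mem_lm.1 (hst u y hy)
    obtain ⟨o2, ho2, h2⟩ := mem_lm.1 (hst v y hy)
    have e1 : ι (((u * 3 + v * s : 𝓞 K)) : K) * y = α * (pq a * (-(pq a * o1) + o2 -
        pq a * (pq z * o2))) := by
      have e2 : ι (((u * 3 + v * s : 𝓞 K)) : K) = 3 * ι (u : K) + ι (s : K) * ι (v : K) := by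
        have : (((u * 3 + v * s : 𝓞 K)) : K) = ((3 : 𝓞 K) : K) * (u : K) + (s : K) * (v : K) := by
          push_cast
          ring
        rw [this, map_add, map_mul, map_mul, h3i]
      rw [e2, add_mul, mul_assoc, mul_assoc, ← h1, ← h2, ← mul_assoc (ι (s : K)), hx, mul_assoc,
        hxz]
      have e3 : (3 : ℍ[ℚ]) * (α * o1) = α * (3 * o1) := by
        rw [← mul_assoc 3 α, (Commute.ofNat_left 3 α).eq, mul_assoc]
      rw [e3, ← mul_add]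
      congr 1
      rw [add_mul, mul_assoc 3, hsq]
      noncomm_ring
    rw [e1]
    exact mem_lm.2 ⟨_, mem_lm.2 ⟨_, Hur.sub_mem (Hur.add_mem (Hur.neg_mem (Hur.mul_mem (pq_mem a) ho1)) ho2)
      (Hur.mul_mem (pq_mem a) (Hur.mul_mem (pq_mem z) ho2)), rfl⟩, rfl⟩
  · intro y hy
    obtain ⟨w, hw, rfl⟩ := mem_lm.1 hy
    obtain ⟨o, ho, rfl⟩ := mem_lm.1 hw
    have m1 : ι (s : K) * (α * o) ∈ idl ι (Ideal.span {3, s}) (lm α Oo) :=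
      mem_idl (Ideal.subset_span (by simp)) (mem_lm.2 ⟨o, ho, rfl⟩)
    have m2 : ι ((3 : 𝓞 K) : K) * (α * (pq z * o)) ∈ idl ι (Ideal.span {3, s}) (lm α Oo) :=
      mem_idl (Ideal.subset_span (by simp)) (mem_lm.2 ⟨pq z * o, Hur.mul_mem (pq_mem z) ho, rfl⟩)
    have e1 : α * (pq a * o) = ι (s : K) * (α * o) - ι ((3 : 𝓞 K) : K) * (α * (pq z * o)) := by
      rw [h3i, ← mul_assoc (ι (s : K)), hx, hxz]
      have e3 : (3 : ℍ[ℚ]) * (α * (pq z * o)) = α * (3 * (pq z * o)) := by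
        rw [← mul_assoc 3 α, (Commute.ofNat_left 3 α).eq, mul_assoc]
      rw [e3]
      noncomm_ring
    rw [e1]
    exact AddSubgroup.sub_mem _ m1 m2

end

end Pool.Agent.Helper725_HQ.RR
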