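import Pool.Agent.Helper725_HQ.GUni
import Pool.Agent.Helper725_HQ.KNon

/-! Simultaneous nonvanishing of the periods of all eigenforms of conductor two or four which have
slope one at three. -/

set_option autoImplicit false
set_option linter.unusedSimpArgs false
set_option linter.unnecessarySeqFocus false

namespace Pool.Agent.Helper725_HQ

open Quaternion MvPolynomial NumberField
open scoped nonZeroDivisors

/-- simultaneous nonvanishing -/
theorem manySlopeA (T : Finset ℕ) (hT : ∀ p ∈ T, p.Prime)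
    (δ : ∀ (p : ℕ) [Fact p.Prime], ℚ_[p]) (hδ0 : ∀ (p : ℕ) [Fact p.Prime], δ p ≠ 0)
    (hδ2 : ¬ IsSquare (δ 2)) :
    ∃ c : ℝ, 0 < c ∧ ∃ x₀ : ℝ, ∀ x : ℝ, x₀ ≤ x → ∃ S : Finset (IntermediateField ℚ ℂ),
      c * x ≤ (S.card : ℝ) ∧ ∀ E ∈ S, ∃ _ : NumberField E, Module.finrank ℚ E = 2 ∧
        |(discr E : ℝ)| < x ∧ (∀ p ∈ T, ∀ [Fact p.Prime], Loc p (δ p) E) ∧
        ∀ c k : ℕ, Even k → k ≠ 0 →
          (c = 2 ∧ k % 3 ≠ 2 ∨
            c = 4 ∧ ¬ IsSquare (-3 * δ 2) ∧ (3 ∈ T → ¬ IsSquare (-3 * δ 3))) →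
          ∀ F, SlopeC c k F → NonvanPerS c F E := by
  classical
  obtain ⟨δ₃, h30, h31, h32⟩ : ∃ δ₃ : ℚ_[3], δ₃ ≠ 0 ∧ (3 ∉ T → δ₃ = 1) ∧
      (3 ∈ T → δ₃ = δ 3) := by
    by_cases h : 3 ∈ T
    · exact ⟨δ 3, hδ0 3, fun h' => absurd h h', fun _ => rfl⟩
    · exact ⟨1, one_ne_zero, fun _ => rfl, fun h' => absurd h' h⟩
  obtain ⟨c', hc', x₀, hx₀⟩ := Pool.Agent.Helper725_DH.fields_manyU (hδ0 2) hδ2 h30
    (T.filter (fun p => 5 ≤ p)) (fun p hp => ⟨hT p (Finset.mem_filter.1 hp).1,
      (Finset.mem_filter.1 hp).2⟩) δ (fun p _ _ => hδ0 p)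
  refine ⟨c', hc', x₀, ?_⟩
  intro x hx
  obtain ⟨S, hS, hSd⟩ := hx₀ x hx
  refine ⟨S.image Ed, ?_, ?_⟩
  · rw [Finset.card_image_of_injOn]
    · exact hS
    · intro d hd d' hd' h
      obtain ⟨a1, a2, _⟩ := hSd d hd
      obtain ⟨b1, b2, _⟩ := hSd d' hd'
      exact Ed_inj a1 a2 b1 b2 h
  · intro E hE
    obtain ⟨d, hd, rfl⟩ := Finset.mem_image.1 hE
    obtain ⟨a1, a3, a4, a5, a6, a7, a8⟩ := hSd d hd
    have hd0 : 0 < d := by omega
    have hns : ¬ IsSquare (-(d : ℚ)) := by
      rintro ⟨q, hq⟩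
      exact Pool.Agent.Helper725_DH.IQ.not_sq hd0 q (by rw [hq]; ring)
    have h9 : ¬ 9 ∣ d := by
      intro h
      have := a1 3 (by norm_num; exact h)
      rw [Nat.isUnit_iff] at this
      omega
    have hd2 : -(d : ℚ_[2]) ≠ 0 := by
      rw [neg_ne_zero]; exact_mod_cast hd0.ne'
    have hd3 : -(d : ℚ_[3]) ≠ 0 := by
      rw [neg_ne_zero]; exact_mod_cast hd0.ne'
    refine ⟨inferInstance, Ed_rank hd0, ?_, ?_, ?_⟩
    · rw [Ed_discr a1 a3]
      split_ifs at a4 ⊢ with h
      · push_cast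
        rw [abs_neg, abs_of_nonneg (by positivity)]
        exact a4
      · push_cast
        rw [abs_neg, abs_of_nonneg (by positivity)]
        exact a4
    · intro p hp hpf
      refine ⟨-(d : ℚ), xd d, ?_, hns, ?_⟩
      · rw [xd_sq]; push_cast; rfl
      · push_cast
        by_cases h5 : 5 ≤ p
        · exact a7 p (Finset.mem_filter.2 ⟨hp, h5⟩)
        · have h6 := (hT p hp).two_le
          have h7 : p ≠ 4 := by
            rintro rfl
            exact absurd (hT 4 hp) (by norm_num)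
          have h8 : p = 2 ∨ p = 3 := by omega
          rcases h8 with rfl | rfl
          · exact a5
          · rw [h32 hp] at a6
            exact a6
    · intro c k hk hk0 hc F hF
      rcases hc with ⟨rfl, hk3⟩ | ⟨rfl, hδ2', hδ3⟩
      · apply nonvanPerS_two
        have hG := slopeC_two hF
        obtain ⟨G, hGe⟩ : ∃ G : AddSubgroup ℍ[ℚ] → MvPolynomial (Fin 3) ℂ, G = fun I => F I I :=
          ⟨_, rfl⟩
        rw [← hGe] at hG ⊢
        obtain ⟨V, hV3, lam, hlam, hval⟩ := hG.slope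
        have hV : Thr V := thr_of_val hV3
        have h3v : V.valuation (3 : ℂ) ≠ 0 := (Valuation.ne_zero_iff _).2 (by norm_num)
        obtain ⟨w, hw, hw'⟩ : ∃ w : V, (w : ℂ) = 3 ^ k * lam / 3 ∧ rs V w ≠ 0 := by
          apply unit_of_val
          rw [map_div₀, hval, div_self h3v]
        have hlw : (3 : ℂ) ^ k * lam = 3 * (w : ℂ) := by
          rw [hw]; ring
        have hF := form1_of_isForm1 hG.form
        have hF0 : G ≠ 0 := by
          rintro h0
          obtain ⟨I, hI⟩ := hG.ne_zero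
          rw [h0] at hI
          exact hI rfl
        have he := TL1_of_hecke1 p3 hG.form hlam
        by_cases h6 : d % 9 = 6
        · obtain ⟨l5, hl5⟩ := hG.eigen 5 (by norm_num) (by norm_num)
          obtain ⟨l7, hl7⟩ := hG.eigen 7 (by norm_num) (by norm_num)
          have hk2 : 2 ≤ k := by
            obtain ⟨m, rfl⟩ := hk
            omega
          obtain ⟨c, r, hr, H⟩ := RR.gP_const hV (hF.hom Oo) (sym_of_form hk hF)
            (RR.sym_ne hk hV hk2 hF hF0 he hw' hlw) (RR.k5 hF hl5) (RR.k7 hF hl7)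
          exact RR.nonvan_six hV hk hF hr h6 H a1 a3 (Ed_rank hd0) (xd_sq d)
            (a8 (Ed d) (Ed_rank hd0) ⟨xd d, xd_sq d⟩)
        · have hgood : d % 3 ≠ 0 ∨ d % 9 = 3 ∨ (d % 9 = 6 ∧ k % 3 = 0) := by
            by_cases h3 : d % 3 = 0
            · right
              left
              omega
            · left
              exact h3
          obtain ⟨c, hc, r, hr, H⟩ := slope_val hV hk hk0 hk3 hF hF0 he hw' hlw h9 hgood
          exact nonvan_one1 hV hF hr H a1 a3 (Ed_rank hd0) (xd_sq d)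
            (a8 (Ed d) (Ed_rank hd0) ⟨xd d, xd_sq d⟩)
      · apply nonvanPerS_four
        have hG := slopeC_four hF
        have h8 : d % 4 = 1 ∨ d % 4 = 2 := by
          rcases a3 with h | h
          · exact absurd (sq_transfer hd2 (sq_two_m h) a5) hδ2'
          · exact h
        have h31' : ¬ IsSquare (-3 * δ₃) := by
          by_cases h : 3 ∈ T
          · rw [h32 h]; exact hδ3 h
          · rw [h31 h]; exact not_sq_three_m
        have hgood : d % 3 ≠ 0 ∨ d % 9 = 6 := by
          by_cases h3 : d % 3 = 0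
          · right
            by_cases h6 : d % 9 = 3
            · exact absurd (sq_transfer hd3 (sq_three_m h6) a6) h31'
            · omega
          · exact Or.inl h3
        obtain ⟨V, hV3, lam, hlam, hval⟩ := hG.slope
        have hV := thr_of_val hV3
        have h3v : V.valuation 3 ≠ 0 := by
          rw [Valuation.ne_zero_iff]; norm_num
        obtain ⟨w, hw, hw'⟩ : ∃ w : V, (w : ℂ) = 3 ^ k * lam / 3 ∧ rs V w ≠ 0 := by
          apply unit_of_val
          rw [map_div₀, hval, div_self h3v]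
        have hlw : (3 : ℂ) ^ k * lam = 3 * (w : ℂ) := by
          rw [hw]; ring
        have hF' := form4_of_isForm4 hG.form
        have hF0 : F ≠ 0 := by
          rintro h0
          obtain ⟨I, I', hI⟩ := hG.ne_zero
          rw [h0] at hI
          exact hI rfl
        have he := TL4_of_hecke p3 hG.form hlam
        obtain ⟨c, hc, r, hr, H⟩ := slope_val4 hV hk hk0 hF' hF0 he hw' hlw h9 hgood
        exact nonvan_one4 hV hF' hr H a1 h8 (Ed_rank hd0) (xd_sq d)
          (a8 (Ed d) (Ed_rank hd0) ⟨xd d, xd_sq d⟩)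

end Pool.Agent.Helper725_HQ
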