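import Pool.Agent.Helper725_HQ.RUni
import Pool.Agent.Helper725_HQ.GUni

/-! Values of eigenforms of level one at the vectors of the ramified torus. -/

set_option autoImplicit false
set_option linter.unusedVariables false
set_option linter.unusedSimpArgs false

namespace Pool.Agent.Helper725_HQ.RR

open Quaternion MvPolynomial

/-- the flip -/
def flx (x : Fin 3 → ℤ) (i : Fin 3) : ℤ := x i - 2 * ((x 0 + x 1 + x 2) / 3)

theorem flx_XV (x0 p r : ℤ) : flx (XV x0 p r) = XV (x0 - 6 * (p + r)) p (-(2 * p) - r) := by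
  have h : XV x0 p r 0 + XV x0 p r 1 + XV x0 p r 2 = 3 * (3 * (p + r)) := by
    show x0 + (x0 + 9 * p) + (-2 * x0 + 9 * r) = _
    ring
  funext i
  unfold flx
  rw [h, Int.mul_ediv_cancel_left _ (by norm_num)]
  fin_cases i
  · show x0 - 2 * (3 * (p + r)) = x0 - 6 * (p + r)
    ring
  · show x0 + 9 * p - 2 * (3 * (p + r)) = x0 - 6 * (p + r) + 9 * p
    ring
  · show -2 * x0 + 9 * r - 2 * (3 * (p + r)) = -2 * (x0 - 6 * (p + r)) + 9 * (-(2 * p) - r)
    ring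

theorem XV_congr {a b c a' b' c' : ℤ} (ha : a = a') (hb : b = b') (hc : c = c') :
    XV a b c = XV a' b' c' := by rw [ha, hb, hc]

theorem flx_XR {x : Fin 3 → ℤ} (hx : x ∈ XR) : flx x ∈ XR := by
  obtain ⟨x0, p, r, hx0, rfl⟩ := XR_ex hx
  rw [flx_XV]
  exact XV_mem (by omega)

/-- the permutations -/
def fs5 : Equiv.Perm (Fin 6) := ⟨![3, 4, 5, 0, 1, 2], ![3, 4, 5, 0, 1, 2], by decide, by decide⟩
/-- the permutations -/
def fs7 : Equiv.Perm (Fin 8) := ⟨![0, 1, 6, 4, 3, 7, 2, 5], ![0, 1, 6, 4, 3, 7, 2, 5],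
  by decide, by decide⟩

theorem flx_Z5 {x : Fin 3 → ℤ} (hx : x ∈ XR) (i : Fin 6) : flx (Z5 x i) = Z5 (flx x) (fs5 i) := by
  obtain ⟨x0, p, r, hx0, rfl⟩ := XR_ex hx
  rw [flx_XV]
  fin_cases i
  · show flx (Z5 (XV x0 p r) 0) = Z5 _ 3
    rw [Z5_0, Z5_3, flx_XV]
    exact XV_congr (by ring) (by ring) (by ring)
  · show flx (Z5 (XV x0 p r) 1) = Z5 _ 4
    rw [Z5_1, Z5_4, flx_XV]
    exact XV_congr (by ring) (by ring) (by ring)
  · show flx (Z5 (XV x0 p r) 2) = Z5 _ 5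
    rw [Z5_2, Z5_5, flx_XV]
    exact XV_congr (by ring) (by ring) (by ring)
  · show flx (Z5 (XV x0 p r) 3) = Z5 _ 0
    rw [Z5_3, Z5_0, flx_XV]
    exact XV_congr (by ring) (by ring) (by ring)
  · show flx (Z5 (XV x0 p r) 4) = Z5 _ 1
    rw [Z5_4, Z5_1, flx_XV]
    exact XV_congr (by ring) (by ring) (by ring)
  · show flx (Z5 (XV x0 p r) 5) = Z5 _ 2
    rw [Z5_5, Z5_2, flx_XV]
    exact XV_congr (by ring) (by ring) (by ring)

theorem flx_Z7 {x : Fin 3 → ℤ} (hx : x ∈ XR) (i : Fin 8) : flx (Z7 x i) = Z7 (flx x) (fs7 i) := by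
  obtain ⟨x0, p, r, hx0, rfl⟩ := XR_ex hx
  rw [flx_XV]
  fin_cases i
  · show flx (Z7 (XV x0 p r) 0) = Z7 _ 0
    rw [Z7_0, Z7_0, flx_XV]
    exact XV_congr (by ring) (by ring) (by ring)
  · show flx (Z7 (XV x0 p r) 1) = Z7 _ 1
    rw [Z7_1, Z7_1, flx_XV]
    exact XV_congr (by ring) (by ring) (by ring)
  · show flx (Z7 (XV x0 p r) 2) = Z7 _ 6
    rw [Z7_2, Z7_6, flx_XV]
    exact XV_congr (by ring) (by ring) (by ring)
  · show flx (Z7 (XV x0 p r) 3) = Z7 _ 4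
    rw [Z7_3, Z7_4, flx_XV]
    exact XV_congr (by ring) (by ring) (by ring)
  · show flx (Z7 (XV x0 p r) 4) = Z7 _ 3
    rw [Z7_4, Z7_3, flx_XV]
    exact XV_congr (by ring) (by ring) (by ring)
  · show flx (Z7 (XV x0 p r) 5) = Z7 _ 7
    rw [Z7_5, Z7_7, flx_XV]
    exact XV_congr (by ring) (by ring) (by ring)
  · show flx (Z7 (XV x0 p r) 6) = Z7 _ 2
    rw [Z7_6, Z7_2, flx_XV]
    exact XV_congr (by ring) (by ring) (by ring)
  · show flx (Z7 (XV x0 p r) 7) = Z7 _ 5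
    rw [Z7_7, Z7_5, flx_XV]
    exact XV_congr (by ring) (by ring) (by ring)

/-- the matrix of the flip -/
noncomputable def LX (i j : Fin 3) : ℂ := (if i = j then 1 else 0) - 2 / 3

section
variable {k : ℕ} {P : MvPolynomial (Fin 3) ℂ}

theorem LX_eval (P : MvPolynomial (Fin 3) ℂ) {x : Fin 3 → ℤ} (h : (3 : ℤ) ∣ x 0 + x 1 + x 2) :
    vl (lsub LX P) x = vl P (flx x) := by
  unfold vl
  rw [eval_lsub]
  congr 1
  apply congrArg
  obtain ⟨m, hm⟩ := h
  have hm' : ((x 0 : ℤ) : ℂ) + x 1 + x 2 = 3 * m := by exact_mod_cast hm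
  funext i
  unfold flx
  rw [hm, Int.mul_ediv_cancel_left _ (by norm_num), Fin.sum_univ_three]
  fin_cases i
  · simp [LX]
    linear_combination (-2 / 3 : ℂ) * hm'
  · simp [LX]
    linear_combination (-2 / 3 : ℂ) * hm'
  · simp [LX]
    linear_combination (-2 / 3 : ℂ) * hm'

theorem vs_abs (h : Sym P) {x y : Fin 3 → ℤ} (hxy : ∀ j, x j = y j ∨ x j = -y j) :
    vl P x = vl P y := by
  apply h.abs
  intro j
  rcases hxy j with h | h
  · left; rw [h]
  · right; rw [h]; push_cast; rfl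

theorem vs_cy1 (h : Sym P) (x : Fin 3 → ℤ) : vl P (cy1 x) = vl P x := by
  have h1 := h.e_cy (fun i => ((x i : ℤ) : ℂ))
  unfold vl
  rw [← h1]
  congr 1
  apply congrArg
  funext i
  fin_cases i <;> rfl

theorem vs_cy2 (h : Sym P) (x : Fin 3 → ℤ) : vl P (cy2 x) = vl P x := by
  rw [← vs_cy1 h (cy2 x)]
  congr 1
  funext i
  fin_cases i <;> rfl

theorem vs_sw (h : Sym P) (x : Fin 3 → ℤ) : vl P ![x 1, x 0, x 2] = vl P x := by
  have h1 := h.e_sw (fun i => ((cy2 x i : ℤ) : ℂ))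
  have h2 : vl P ![cy2 x 0, cy2 x 2, cy2 x 1] = vl P (cy2 x) := by
    unfold vl
    rw [← h1]
    congr 1
    apply congrArg
    funext i
    fin_cases i <;> rfl
  rw [← vs_cy2 h x, ← h2, ← vs_cy1 h ![cy2 x 0, cy2 x 2, cy2 x 1]]
  congr 1

/-- the symmetrized values -/
noncomputable def gP (P : MvPolynomial (Fin 3) ℂ) (x : Fin 3 → ℤ) : ℂ := vl P x + vl P (flx x)

theorem XR_sum {x : Fin 3 → ℤ} (hx : x ∈ XR) : (3 : ℤ) ∣ x 0 + x 1 + x 2 := by
  obtain ⟨h1, h2, h3⟩ := hx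
  omega

theorem vl_smulx (hP : P.IsHomogeneous k) (s : ℤ) (x : Fin 3 → ℤ) :
    vl P (fun i => s * x i) = (s : ℂ) ^ k * vl P x := by
  unfold vl
  rw [← eval_hom hP]
  congr 1
  apply congrArg
  funext i
  push_cast
  rfl

theorem flx_smul {x : Fin 3 → ℤ} (hx : x ∈ XR) (s : ℤ) :
    flx (fun i => s * x i) = fun i => s * flx x i := by
  obtain ⟨m, hm⟩ := XR_sum hx
  funext i
  unfold flx
  have e : s * x 0 + s * x 1 + s * x 2 = 3 * (s * m) := by
    linear_combination s * hm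
  rw [e, hm, Int.mul_ediv_cancel_left _ (by norm_num), Int.mul_ediv_cancel_left _ (by norm_num)]
  ring

theorem flx_flx {x : Fin 3 → ℤ} (hx : x ∈ XR) : flx (flx x) = x := by
  obtain ⟨x0, p, r, hx0, rfl⟩ := XR_ex hx
  rw [flx_XV, flx_XV]
  exact XV_congr (by ring) (by ring) (by ring)

theorem vl_add (P Q : MvPolynomial (Fin 3) ℂ) (x : Fin 3 → ℤ) : vl (P + Q) x = vl P x + vl Q x := by
  unfold vl
  rw [map_add]

/-- constancy of the symmetrized values -/
theorem gP_const {V : ValuationSubring ℂ} (hV : Thr V) (hP : P.IsHomogeneous k) (hs : Sym P)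
    (hne : P + lsub LX P ≠ 0) {L5 L7 : ℂ} (h5 : ∀ x : Fin 3 → ℤ, ∑ i, vl P (act (v5 i) x) = L5 * vl P x)
    (h7 : ∀ x : Fin 3 → ℤ, ∑ i, vl P (act (v7 i) x) = L7 * vl P x) :
    ∃ c : ℂ, ∃ r : kap V, r ≠ 0 ∧ ∀ x ∈ XR, ∃ v : V, c * gP P x = (v : ℂ) ∧ rs V v = r := by
  have h5' : ∀ x : Fin 3 → ℤ, ∑ i, vl P (Z5 x i) = L5 * vl P x := by
    intro x
    rw [← h5 x]
    apply Finset.sum_congr rfl
    intro i _
    fin_cases i
    · exact vs_cy2 hs _
    · exact vs_cy1 hs _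
    · exact vs_cy2 hs _
    · exact vs_cy1 hs _
    · exact vs_cy2 hs _
    · exact vs_cy1 hs _
  have h7' : ∀ x : Fin 3 → ℤ, ∑ i, vl P (Z7 x i) = L7 * vl P x := by
    intro x
    rw [← h7 x]
    apply Finset.sum_congr rfl
    intro i _
    fin_cases i
    · rfl
    · rfl
    · exact vs_cy2 hs _
    · exact vs_cy1 hs _
    · exact vs_cy2 hs _
    · exact vs_cy1 hs _
    · exact vs_cy1 hs _
    · exact vs_cy2 hs _
  have hg : ∀ x ∈ XR, gP P x = vl (P + lsub LX P) x := by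
    intro x hx
    rw [vl_add, LX_eval P (XR_sum hx)]
    rfl
  refine red_constR (k := k) (n := 0) (g := gP P) (Q := fun _ => P + lsub LX P) hV hg ?_ ?_ ?_ ?_ ?_
    (L5 := L5) (L7 := L7) ?_ ?_
  · obtain ⟨z, hz, hz0⟩ := vl_coset hne ![1, 1, -2] 2
    have c0 : (9 : ℤ) ∣ z 0 - 1 := hz 0
    have c1 : (9 : ℤ) ∣ z 1 - 1 := hz 1
    have c2 : (9 : ℤ) ∣ z 2 - (-2) := hz 2
    have hzX : z ∈ XR := ⟨by omega, by omega, by omega⟩
    exact ⟨z, hzX, by rw [hg z hzX]; exact hz0⟩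
  · intro x hx s hs1
    unfold gP
    rw [flx_smul hx, vl_smulx hP, vl_smulx hP]
    ring
  · intro x hx
    unfold gP
    have e : (fun i => -x i) = fun i => (-1 : ℤ) * x i := by
      funext i; ring
    have e1 : vl P (fun i => (-1 : ℤ) * x i) = vl P x := vs_abs hs (fun j => Or.inr (by ring))
    have e2 : vl P (fun i => (-1 : ℤ) * flx x i) = vl P (flx x) :=
      vs_abs hs (fun j => Or.inr (by ring))
    rw [e, flx_smul hx, e1, e2]
  · intro x0 p r hx0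
    have hm := XV_mem (p := p) (r := r) hx0
    have h1 := flx_flx hm
    unfold gP
    rw [← flx_XV, h1, add_comm]
  · intro x0 p r hx0
    unfold gP
    rw [flx_XV, flx_XV]
    congr 1
    · rw [← vs_sw hs (XV x0 p r)]
      congr 1
      funext i
      fin_cases i
      · rfl
      · show x0 + 9 * p + 9 * -p = x0
        ring
      · show -2 * (x0 + 9 * p) + 9 * (r + 2 * p) = -2 * x0 + 9 * r
        ring
    · rw [← vs_sw hs (XV (x0 - 6 * (p + r)) p (-(2 * p) - r))]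
      congr 1
      funext i
      fin_cases i
      · show x0 + 9 * p - 6 * (-p + (r + 2 * p)) = x0 - 6 * (p + r) + 9 * p
        ring
      · show x0 + 9 * p - 6 * (-p + (r + 2 * p)) + 9 * -p = x0 - 6 * (p + r)
        ring
      · show -2 * (x0 + 9 * p - 6 * (-p + (r + 2 * p))) + 9 * (-(2 * -p) - (r + 2 * p)) =
          -2 * (x0 - 6 * (p + r)) + 9 * (-(2 * p) - r)
        ring
  · intro x hx
    unfold gP
    rw [Finset.sum_add_distrib, h5', mul_add]
    congr 1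
    rw [← h5' (flx x), ← Equiv.sum_comp fs5 (fun i => vl P (Z5 (flx x) i))]
    apply Finset.sum_congr rfl
    intro i _
    rw [flx_Z5 hx]
  · intro x hx
    unfold gP
    rw [Finset.sum_add_distrib, h7', mul_add]
    congr 1
    rw [← h7' (flx x), ← Equiv.sum_comp fs7 (fun i => vl P (Z7 (flx x) i))]
    apply Finset.sum_congr rfl
    intro i _
    rw [flx_Z7 hx]

end

end Pool.Agent.Helper725_HQ.RR
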