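import Pool.Agent.Helper725_HQ.LTay
import Pool.Agent.Helper725_HQ.Eig

/-! Eigenforms of level one and slope one at three. -/

set_option autoImplicit false
set_option linter.unusedSimpArgs false
set_option linter.unnecessarySeqFocus false

namespace Pool.Agent.Helper725_HQ

open Quaternion MvPolynomial

theorem TT_map {R S : Type*} [CommRing R] [CommRing S] (φ : R →+* S)
    (f : MvPolynomial (Fin 3) R) : map φ (TT f) = TT (map φ f) := by
  unfold TT
  rw [map_sum]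
  apply Finset.sum_congr rfl
  intro i _
  rw [map_lsub]
  congr 2
  funext j l
  exact map_intCast φ _

theorem T3_TT {k : ℕ} {F : Fun1} (hF : Form1 k F) :
    C ((3 : ℂ) ^ k) * TL1 3 p3 F Oo = TT (F Oo) := by
  rw [T3_one hF]
  rfl

theorem SS_map {R S : Type*} [CommRing R] [CommRing S] (φ : R →+* S) (k : ℕ) :
    map φ (SS k : MvPolynomial (Fin 3) R) = SS k := by
  unfold SS lf
  rw [map_sum]
  apply Finset.sum_congr rfl
  intro i _
  rw [map_pow, map_sum]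
  congr 1
  apply Finset.sum_congr rfl
  intro j _
  rw [map_mul, map_C, map_X, map_intCast]

theorem eval_lf {R : Type*} [CommRing R] (v : Fin 3 → ℤ) (x : Fin 3 → R) :
    eval x (lf v) = (v 0 : R) * x 0 + (v 1 : R) * x 1 + (v 2 : R) * x 2 := by
  unfold lf
  rw [map_sum, Fin.sum_univ_three]
  simp only [map_mul, eval_C, eval_X]

theorem eval_SS_e1 {R : Type*} [CommRing R] {k : ℕ} (hk : Even k) :
    eval ![1, 0, 0] (SS k : MvPolynomial (Fin 3) R) = 4 := by
  unfold SS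
  rw [map_sum, Fin.sum_univ_four]
  simp only [map_pow, eval_lf]
  have h0 : ((aa 0 0 : ℤ) : R) = 1 := by simp [aa]
  have h1 : ((aa 1 0 : ℤ) : R) = -1 := by simp [aa]
  have h2 : ((aa 2 0 : ℤ) : R) = 1 := by simp [aa]
  have h3 : ((aa 3 0 : ℤ) : R) = 1 := by simp [aa]
  rw [h0, h1, h2, h3]
  simp [hk.neg_one_pow]
  norm_num

section
variable {V : ValuationSubring ℂ}

theorem sq_pow (hV : Thr V) {k : ℕ} (hk : Even k) (hk0 : k ≠ 0) (a : ℤ) :
    ((a : ℤ) : kap V) ^ k = ((a ^ 2 : ℤ) : kap V) := by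
  obtain ⟨m, rfl⟩ := hk
  have hm : m ≠ 0 := by rintro rfl; exact hk0 rfl
  have h : a ^ 2 % 3 = 0 % 3 ∨ a ^ 2 % 3 = 1 % 3 := by
    have : a % 3 = 0 ∨ a % 3 = 1 ∨ a % 3 = 2 := by omega
    rcases this with h | h | h <;> simp [pow_two, Int.mul_emod, h]
  rw [← two_mul, pow_mul]
  rcases h with h | h
  · have h1 := cast_mod hV h
    push_cast at h1 ⊢
    rw [h1, zero_pow hm]
  · have h1 := cast_mod hV h
    push_cast at h1 ⊢
    rw [h1, one_pow]

theorem evz_SS (hV : Thr V) {k : ℕ} (hk : Even k) (hk0 : k ≠ 0) (x : Fin 3 → ℤ) :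
    evz (SS k : MvPolynomial (Fin 3) (kap V)) x =
      ((x 0 ^ 2 + x 1 ^ 2 + x 2 ^ 2 : ℤ) : kap V) := by
  have h1 : ∀ i, evz ((lf (aa i)) ^ k : MvPolynomial (Fin 3) (kap V)) x =
      (((dotz (aa i) x) ^ 2 : ℤ) : kap V) := by
    intro i
    rw [← sq_pow hV hk hk0]
    unfold evz dotz
    rw [map_pow, eval_lf]
    push_cast
    rfl
  unfold SS
  rw [evz_sum, Finset.sum_congr rfl (fun i _ => h1 i), ← Int.cast_sum]
  apply cast_mod hV
  rw [Fin.sum_univ_four]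
  have : dotz (aa 0) x ^ 2 + dotz (aa 1) x ^ 2 + dotz (aa 2) x ^ 2 + dotz (aa 3) x ^ 2 =
      (x 0 ^ 2 + x 1 ^ 2 + x 2 ^ 2) + 3 * (x 0 ^ 2 + x 1 ^ 2 + x 2 ^ 2) := by
    simp [dotz, aa]
    ring
  rw [this]
  omega

theorem scale_poly {P : MvPolynomial (Fin 3) ℂ} (hP : P ≠ 0) : ∃ c : ℂ, c ≠ 0 ∧
    ∃ f : MvPolynomial (Fin 3) V, map V.subtype f = C c * P ∧ map (rs V) f ≠ 0 := by
  classical
  set S : Finset ℂ := P.support.image (fun m => coeff m P) with hS
  have hne : S.Nonempty := by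
    rw [hS, Finset.image_nonempty]
    exact support_nonempty.2 hP
  have hnz : ∀ c ∈ S, c ≠ 0 := by
    intro c hc
    rw [hS, Finset.mem_image] at hc
    obtain ⟨m, hm, rfl⟩ := hc
    exact mem_support_iff.1 hm
  obtain ⟨c0, hc0, hmax⟩ := Finset.exists_max_image S V.valuation hne
  have hc00 := hnz c0 hc0
  have key : ∀ c ∈ S, c0⁻¹ * c ∈ V := by
    intro c hc
    rw [← ValuationSubring.valuation_le_one_iff, map_mul, map_inv₀]
    have h1 := hmax c hc
    have h2 : V.valuation c0 ≠ 0 := (Valuation.ne_zero_iff _).2 hc00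
    rw [inv_mul_le_iff₀ (zero_lt_iff.2 h2), mul_one]
    exact h1
  have hA : ∀ m, coeff m (C c0⁻¹ * P) ∈ V := by
    intro m
    rw [coeff_C_mul]
    by_cases hm : m ∈ P.support
    · exact key _ (Finset.mem_image_of_mem _ hm)
    · rw [notMem_support_iff.1 hm, mul_zero]; exact V.zero_mem
  obtain ⟨f, hf⟩ := lift_poly hA
  refine ⟨c0⁻¹, inv_ne_zero hc00, f, hf, ?_⟩
  intro hg
  rw [hS, Finset.mem_image] at hc0
  obtain ⟨m, hm, e⟩ := hc0
  have h1 := congrArg (coeff m) hf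
  rw [coeff_map, coeff_C_mul, e, inv_mul_cancel₀ hc00] at h1
  have h2 : coeff m f = 1 := sub_inj (by rw [h1, map_one])
  have h3 := congrArg (coeff m) hg
  rw [coeff_map, h2, map_one, coeff_zero] at h3
  exact one_ne_zero h3

theorem rs_int_ne (hV : Thr V) {n : ℤ} (h : ¬ (3 : ℤ) ∣ n) : ((n : ℤ) : kap V) ≠ 0 := by
  intro h0
  have hc : IsCoprime (3 : ℤ) n := (Int.prime_three.coprime_iff_not_dvd).2 h
  obtain ⟨a, b, hab⟩ := hc
  have h1 := congrArg (fun u : ℤ => (u : kap V)) hab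
  push_cast at h1
  rw [three_zero hV, h0, mul_zero, mul_zero, add_zero] at h1
  exact zero_ne_one h1

theorem unit_of_rs {a : V} (h : rs V a ≠ 0) : IsUnit a := by
  by_contra h1
  exact h (rs_eq_zero.2 h1)

theorem three_ne : (3 : V) ≠ 0 := by
  intro h
  have : ((3 : V) : ℂ) = 0 := by rw [h]; rfl
  have h2 : ((3 : V) : ℂ) = 3 := rfl
  rw [h2] at this
  norm_num at this

/-- reduction of an eigenform of slope one -/
theorem slope_one {k : ℕ} (hV : Thr V) (hk : Even k) (hk0 : k ≠ 0) (hk3 : k % 3 ≠ 2) {F : Fun1}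
    (hF : Form1 k F) (hF0 : F ≠ 0) {lam : ℂ} (he : TL1 3 p3 F = lam • F) {w : V}
    (hw : rs V w ≠ 0) (hlw : (3 : ℂ) ^ k * lam = 3 * (w : ℂ)) :
    ∃ c : ℂ, c ≠ 0 ∧ ∃ f : MvPolynomial (Fin 3) V, map V.subtype f = C c * F Oo ∧ Sym f ∧
      f.IsHomogeneous k ∧ ∃ c'' : V, rs V c'' ≠ 0 ∧ eval ![1, 1, 1] f = 3 * c'' ∧
      ∃ ρ : kap V, ρ ≠ 0 ∧ map (rs V) f = C ρ * SS k := by
  have hP : F Oo ≠ 0 := fun h => hF0 (form1_ext hF h)
  obtain ⟨c, hc, f, hf, hf0⟩ := scale_poly (V := V) hP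
  have hF' : Form1 k (c • F) := (W1 k).smul_mem c hF
  have hfF : map V.subtype f = (c • F) Oo := by
    rw [hf, Pi.smul_apply, smul_eq_C_mul]
  have hsym : Sym f := Sym.of_map sub_inj (by rw [hfF]; exact sym_of_form hk hF')
  have hhom : f.IsHomogeneous k := IsHomogeneous.of_map sub_inj (by rw [hfF]; exact hF'.hom Oo)
  have hTT : TT f = C (3 * w) * f := by
    apply map_injective V.subtype sub_inj
    rw [TT_map, hfF, ← T3_TT hF', map_mul, map_C, map_smul, he, hfF]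
    have e1 : V.subtype (3 * w) = 3 ^ k * lam := hlw.symm
    rw [e1]
    simp only [Pi.smul_apply, smul_eq_C_mul, C_mul]
    ring
  obtain ⟨g, hg⟩ := TT_expand hhom (Nat.one_le_iff_ne_zero.2 hk0) hsym
  rw [hTT] at hg
  have hev := congrArg (eval ![1, 0, 0]) hg
  rw [map_mul, eval_C, map_add, map_mul, eval_C, map_mul, eval_SS_e1 hk] at hev
  have e9 : eval ![1, 0, 0] (9 : MvPolynomial (Fin 3) V) = 9 := map_ofNat _ 9
  rw [e9] at hev
  -- the unit
  have hun : IsUnit (2 ^ (k - 1) * (2 - (k : V)) : V) := by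
    apply unit_of_rs
    have : rs V (2 ^ (k - 1) * (2 - (k : V)) : V) = (((2 ^ (k - 1) * (2 - k) : ℤ)) : kap V) := by
      push_cast
      rw [map_mul, map_pow, map_sub, map_ofNat, map_natCast]
    rw [this]
    apply rs_int_ne hV
    intro h
    rcases Int.prime_three.dvd_or_dvd h with h | h
    · have := Int.prime_three.dvd_of_dvd_pow h
      omega
    · omega
  have h4 : IsUnit (4 : V) := by
    apply unit_of_rs
    have : rs V (4 : V) = ((4 : ℤ) : kap V) := by rw [map_ofNat]; norm_num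
    rw [this]
    exact rs_int_ne hV (by norm_num)
  obtain ⟨c'', hc''⟩ : ∃ c'' : V, eval ![1, 1, 1] f = 3 * c'' := by
    obtain ⟨t, ht⟩ := hun
    obtain ⟨s, hs⟩ := h4
    refine ⟨(t⁻¹ : Vˣ) * ((s⁻¹ : Vˣ) * (w * eval ![1, 0, 0] f - 3 * eval ![1, 0, 0] g)), ?_⟩
    rw [← ht, ← hs] at hev
    have h5 : (t : V) * ((t⁻¹ : Vˣ) : V) = 1 := Units.mul_inv t
    have h6 : (s : V) * ((s⁻¹ : Vˣ) : V) = 1 := Units.mul_inv s
    have h7 : eval ![1, 1, 1] f = ((t⁻¹ : Vˣ) : V) * ((s⁻¹ : Vˣ) : V) *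
        (t * eval ![1, 1, 1] f * s) := by
      have h9 : ((t⁻¹ : Vˣ) : V) * ((s⁻¹ : Vˣ) : V) * (t * eval ![1, 1, 1] f * s) =
          eval ![1, 1, 1] f * (t * ((t⁻¹ : Vˣ) : V)) * (s * ((s⁻¹ : Vˣ) : V)) := by ring
      rw [h9, h5, h6, mul_one, mul_one]
    rw [h7]
    have h8 : (t : V) * eval ![1, 1, 1] f * s = 3 * (w * eval ![1, 0, 0] f - 3 * eval ![1, 0, 0] g) := by
      linear_combination -hev
    rw [h8]
    ring
  have hcancel : C w * f = C (2 ^ (k - 1) * (2 - (k : V)) * c'') * SS k + 3 * g := by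
    have h3 : (C (3 : V) : MvPolynomial (Fin 3) V) ≠ 0 := by
      rw [Ne, C_eq_zero]; exact three_ne
    apply mul_left_cancel₀ h3
    rw [hc''] at hg
    have e3 : (C (3 : V) : MvPolynomial (Fin 3) V) = 3 := rfl
    have e10 : (2 ^ (k - 1) * (2 - (k : V)) * (3 * c'')) = 3 * (2 ^ (k - 1) * (2 - (k : V)) * c'') := by
      ring
    rw [e10, C_mul (a := (3 : V)), C_mul (a := (3 : V)), e3] at hg
    rw [e3]
    linear_combination hg
  obtain ⟨A, hA⟩ : ∃ A : V, A = 2 ^ (k - 1) * (2 - (k : V)) * c'' := ⟨_, rfl⟩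
  rw [← hA] at hcancel
  have hres := congrArg (map (rs V)) hcancel
  have e3' : map (rs V) (3 : MvPolynomial (Fin 3) V) = 0 := by
    rw [map_ofNat]
    have : (3 : MvPolynomial (Fin 3) (kap V)) = C (3 : kap V) := rfl
    rw [this, three_zero hV, C_0]
  rw [map_mul, map_C, map_add, map_mul, map_C, map_mul, SS_map, e3', zero_mul, add_zero] at hres
  have hwne : (C (rs V w) : MvPolynomial (Fin 3) (kap V)) ≠ 0 := by
    rw [Ne, C_eq_zero]; exact hw
  have hne : rs V A ≠ 0 := by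
    intro h0
    rw [h0, C_0, zero_mul] at hres
    exact hf0 ((mul_eq_zero.1 hres).resolve_left hwne)
  have hc''ne : rs V c'' ≠ 0 := by
    intro h0
    apply hne
    rw [hA, map_mul, h0, mul_zero]
  refine ⟨c, hc, f, hf, hsym, hhom, c'', hc''ne, hc'', (rs V w)⁻¹ * rs V A,
    mul_ne_zero (inv_ne_zero hw) hne, ?_⟩
  apply mul_left_cancel₀ hwne
  rw [hres, ← mul_assoc, ← C_mul, ← mul_assoc, mul_inv_cancel₀ hw, one_mul]

end

end Pool.Agent.Helper725_HQ
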