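import Pool.Agent.Helper725_HQ.LLat

/-! Existence of eigenforms of level one and slope one. -/

set_option autoImplicit false
set_option linter.unusedSimpArgs false
set_option linter.unnecessarySeqFocus false

namespace Pool.Agent.Helper725_HQ

open Quaternion MvPolynomial

theorem exists_V : ∃ V : ValuationSubring ℂ, Thr V := by
  set A : Subring ℂ := (Int.castRingHom ℂ).range with hA
  have h3A : (3 : ℂ) ∈ A := ⟨3, by simp⟩
  set t : A := ⟨3, h3A⟩ with ht
  have hne : Ideal.span {t} ≠ ⊤ := by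
    intro h
    have h1 : (1 : A) ∈ Ideal.span {t} := by rw [h]; exact Submodule.mem_top
    obtain ⟨a, ha⟩ := Ideal.mem_span_singleton'.1 h1
    obtain ⟨n, hn⟩ := a.2
    have h2 := congrArg Subtype.val ha
    have h3 : (n : ℂ) * 3 = 1 := by
      have h4 : ((a * t : A) : ℂ) = (a : ℂ) * 3 := rfl
      rw [h4, ← hn] at h2
      exact h2
    have h5 : n * 3 = 1 := by exact_mod_cast h3
    omega
  obtain ⟨V, hV1, hV2⟩ := Ideal.image_subset_nonunits_valuationSubring _ hne
  refine ⟨V, ?_⟩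
  have h1 : (3 : ℂ) ∈ V.nonunits := hV2 ⟨t, Ideal.mem_span_singleton_self t, rfl⟩
  apply thr_of_val
  exact (ValuationSubring.mem_nonunits_iff V).1 h1

/-- the pure quaternions of norm three preserving a right ideal -/
def A3 (I : AddSubgroup ℍ[ℚ]) : Set ℍ[ℚ] := {y | y.re = 0 ∧ normSq y = 3 ∧ ∀ x ∈ I, y * x ∈ I}

/-- the linear form attached to a quaternion -/
noncomputable def lq (y : ℍ[ℚ]) : MvPolynomial (Fin 3) ℂ := ∑ j, C ((vec y j : ℚ) : ℂ) * X j

theorem lq_hom (y : ℍ[ℚ]) : (lq y).IsHomogeneous 1 := by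
  unfold lq
  apply IsHomogeneous.sum
  intro j _
  exact isHomogeneous_C_mul_X _ _

theorem ev_lq (y x : ℍ[ℚ]) : ev (lq y) x = ((dot y x : ℚ) : ℂ) := by
  rw [ev_eq]
  unfold lq dot
  rw [map_sum, Rat.cast_sum]
  apply Finset.sum_congr rfl
  intro j _
  rw [map_mul, eval_C, eval_X]
  push_cast
  rfl

theorem lq_conj {α : ℍ[ℚ]} (hα : α ≠ 0) (y : ℍ[ℚ]) :
    lq (α * y * α⁻¹) = lsub (rC α) (lq y) := by
  apply eq_of_ev
  intro x
  rw [ev_lsub hα, ev_lq, ev_lq]
  congr 1
  have h1 := dot_conj hα y (α⁻¹ * x * α)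
  have h2 : α * (α⁻¹ * x * α) * α⁻¹ = x := by
    rw [← mul_assoc, ← mul_assoc, mul_inv_cancel₀ hα, one_mul, mul_assoc, mul_inv_cancel₀ hα,
      mul_one]
  rw [h2] at h1
  exact h1

theorem A3_lm {α : ℍ[ℚ]} (hα : α ≠ 0) (I : AddSubgroup ℍ[ℚ]) :
    A3 (lm α I) = (fun y => α * y * α⁻¹) '' A3 I := by
  have hα' : α⁻¹ ≠ 0 := inv_ne_zero hα
  have hnn : normSq α * normSq α⁻¹ = 1 := by
    rw [← map_mul, mul_inv_cancel₀ hα, map_one]
  ext y
  constructor
  · rintro ⟨h1, h2, h3⟩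
    refine ⟨α⁻¹ * y * α, ⟨?_, ?_, ?_⟩, ?_⟩
    · have := re_conj hα' y
      rw [inv_inv] at this
      rw [this, h1]
    · rw [map_mul, map_mul, h2]
      linear_combination 3 * hnn
    · intro x hx
      have h4 := h3 _ (mul_mem_lm (α := α) hx)
      rw [mem_lm' hα] at h4
      rw [mul_assoc, mul_assoc]
      rwa [← mul_assoc y, ← mul_assoc] at h4 ⊢
    · show α * (α⁻¹ * y * α) * α⁻¹ = y
      rw [← mul_assoc, ← mul_assoc, mul_inv_cancel₀ hα, one_mul, mul_assoc, mul_inv_cancel₀ hα,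
        mul_one]
  · rintro ⟨z, ⟨h1, h2, h3⟩, rfl⟩
    refine ⟨?_, ?_, ?_⟩
    · show (α * z * α⁻¹).re = 0
      rw [re_conj hα, h1]
    · show normSq (α * z * α⁻¹) = 3
      rw [map_mul, map_mul, h2]
      linear_combination 3 * hnn
    · intro x hx
      obtain ⟨w, hw, rfl⟩ := mem_lm.1 hx
      show α * z * α⁻¹ * (α * w) ∈ lm α I
      have e : α * z * α⁻¹ * (α * w) = α * (z * w) := by
        rw [mul_assoc (α * z), ← mul_assoc α⁻¹, inv_mul_cancel₀ hα, one_mul, mul_assoc]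
      rw [e]
      exact mul_mem_lm (h3 w hw)

theorem A3_rm (I : AddSubgroup ℍ[ℚ]) : A3 (rm ep I) = A3 I := by
  ext y
  constructor
  · rintro ⟨h1, h2, h3⟩
    refine ⟨h1, h2, ?_⟩
    intro x hx
    have h4 := h3 _ (mem_rm.2 ⟨x, hx, rfl⟩ : x * ep ∈ rm ep I)
    rw [mem_rm' ep_ne, ← mul_assoc, mul_assoc, mul_inv_cancel₀ ep_ne, mul_one] at h4
    exact h4
  · rintro ⟨h1, h2, h3⟩
    refine ⟨h1, h2, ?_⟩
    intro x hx
    obtain ⟨w, hw, rfl⟩ := mem_rm.1 hx
    exact mem_rm.2 ⟨y * w, h3 w hw, by rw [mul_assoc]⟩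

/-- signs -/
def sg : Fin 2 → ℤ := ![1, -1]

theorem A3_Oo : A3 Oo = Set.range (fun p : Fin 4 × Fin 2 => pq (sg p.2 • aa p.1)) := by
  ext y
  constructor
  · rintro ⟨h1, h2, h3⟩
    have h4 : y ∈ Hur := by
      have := h3 1 Hur.one_mem
      rwa [mul_one] at this
    obtain ⟨a, b, c, rfl⟩ := pure_int h4 h1
    rw [normSq_def'] at h2
    simp only [mk4_re, mk4_imI, mk4_imJ, mk4_imK] at h2
    have h5 : a ^ 2 + b ^ 2 + c ^ 2 = 3 := by
      have : (a : ℚ) ^ 2 + b ^ 2 + c ^ 2 = 3 := by linear_combination h2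
      exact_mod_cast this
    have ha : a = -1 ∨ a = 0 ∨ a = 1 := by
      have : -1 ≤ a := by nlinarith [sq_nonneg b, sq_nonneg c]
      have : a ≤ 1 := by nlinarith [sq_nonneg b, sq_nonneg c]
      omega
    have hb : b = -1 ∨ b = 0 ∨ b = 1 := by
      have : -1 ≤ b := by nlinarith [sq_nonneg a, sq_nonneg c]
      have : b ≤ 1 := by nlinarith [sq_nonneg a, sq_nonneg c]
      omega
    have hc : c = -1 ∨ c = 0 ∨ c = 1 := by
      have : -1 ≤ c := by nlinarith [sq_nonneg b, sq_nonneg a]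
      have : c ≤ 1 := by nlinarith [sq_nonneg b, sq_nonneg a]
      omega
    have key : ∀ i : Fin 4, ∀ s : Fin 2, (sg s • aa i) = ![a, b, c] →
        mk4 0 a b c ∈ Set.range (fun p : Fin 4 × Fin 2 => pq (sg p.2 • aa p.1)) := by
      intro i s h
      refine ⟨(i, s), ?_⟩
      show pq (sg s • aa i) = _
      rw [h]
      rfl
    rcases ha with rfl | rfl | rfl <;> rcases hb with rfl | rfl | rfl <;>
      rcases hc with rfl | rfl | rfl <;> first
      | exact key 0 0 (by decide)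
      | exact key 0 1 (by decide)
      | exact key 1 0 (by decide)
      | exact key 1 1 (by decide)
      | exact key 2 0 (by decide)
      | exact key 2 1 (by decide)
      | exact key 3 0 (by decide)
      | exact key 3 1 (by decide)
      | exact absurd h5 (by norm_num)
  · rintro ⟨⟨i, s⟩, rfl⟩
    refine ⟨rfl, ?_, ?_⟩
    · show normSq (pq (sg s • aa i)) = 3
      rw [normSq_pq]
      have : ∀ i s, (sg s • aa i) 0 ^ 2 + (sg s • aa i) 1 ^ 2 + (sg s • aa i) 2 ^ 2 = 3 := by decide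
      rw [this]
      norm_num
    · intro x hx
      exact Hur.mul_mem (pq_mem _) hx

theorem A3_inj : Function.Injective (fun p : Fin 4 × Fin 2 => pq (sg p.2 • aa p.1)) := by
  intro p p' h
  have h1 : ∀ j, (sg p.2 • aa p.1) j = (sg p'.2 • aa p'.1) j := by
    intro j
    have h2 := congrArg (fun y => vec y j) h
    simp only [vec_pq] at h2
    exact_mod_cast h2
  have key : ∀ p p' : Fin 4 × Fin 2, (∀ j, (sg p.2 • aa p.1) j = (sg p'.2 • aa p'.1) j) → p = p' := by
    decide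
  exact key p p' h1

theorem A3_finite {I : AddSubgroup ℍ[ℚ]} (hI : IsRI I) : (A3 I).Finite := by
  obtain ⟨α, hα, rfl⟩ := principal hI
  rw [A3_lm hα, A3_Oo]
  exact (Set.finite_range _).image _

open Classical in
/-- the form whose value at the Hurwitz order is twice the sum of the powers of the linear forms -/
noncomputable def GS (k : ℕ) : Fun1 := fun I => if IsRI I then ∑ᶠ y ∈ A3 I, (lq y) ^ k else 0

theorem GS_form (k : ℕ) : Form1 k (GS k) := by
  have hpos : ∀ I, IsRI I → GS k I = ∑ᶠ y ∈ A3 I, (lq y) ^ k := by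
    intro I h; unfold GS; rw [if_pos h]
  have hneg : ∀ I, ¬ IsRI I → GS k I = 0 := by
    intro I h; unfold GS; rw [if_neg h]
  refine ⟨hneg, fun I => ?_, fun α hα I => ?_, fun I => ?_⟩
  · by_cases h : IsRI I
    · rw [hpos I h, finsum_mem_eq_finite_toFinset_sum _ (A3_finite h)]
      apply IsHomogeneous.sum
      intro y _
      have := (lq_hom y).pow k
      rwa [one_mul] at this
    · rw [hneg I h]
      exact isHomogeneous_zero _ _ _
  · by_cases h : IsRI I
    · rw [hpos I h, hpos _ ((lm_isRI_iff hα).2 h), A3_lm hα, finsum_mem_image]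
      · have e : ∀ y ∈ A3 I, (lq (α * y * α⁻¹)) ^ k = lsub (rC α) ((lq y) ^ k) := by
          intro y _
          rw [lq_conj hα, map_pow]
        rw [finsum_mem_congr rfl e]
        exact ((lsub (rC α) : MvPolynomial (Fin 3) ℂ →+ MvPolynomial (Fin 3) ℂ).map_finsum_mem _
          (A3_finite h)).symm
      · intro x _ y _ hxy
        have h1 : α * x * α⁻¹ = α * y * α⁻¹ := hxy
        have h2 := mul_right_cancel₀ (inv_ne_zero hα) h1
        exact mul_left_cancel₀ hα h2
    · rw [hneg I h, hneg _ (fun h' => h ((lm_isRI_iff hα).1 h')), map_zero]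
  · by_cases h : IsRI I
    · rw [hpos I h, hpos _ (rm_isRI_iff.2 h), A3_rm]
    · rw [hneg I h, hneg _ (fun h' => h (rm_isRI_iff.1 h'))]

theorem GS_Oo {k : ℕ} (hk : Even k) : GS k Oo = 2 * SS k := by
  unfold GS
  rw [if_pos Oo_isRI, A3_Oo, finsum_mem_range A3_inj, finsum_eq_sum_of_fintype,
    Fintype.sum_prod_type]
  have e : ∀ (i : Fin 4) (s : Fin 2), (lq (pq (sg s • aa i))) ^ k = (lf (aa i)) ^ k := by
    intro i s
    have h1 : lq (pq (sg s • aa i)) = C ((sg s : ℤ) : ℂ) * lf (aa i) := by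
      unfold lq lf
      rw [Finset.mul_sum]
      apply Finset.sum_congr rfl
      intro j _
      rw [vec_pq, ← mul_assoc, ← C_mul]
      congr 2
      simp
    rw [h1, mul_pow]
    have h2 : (C ((sg s : ℤ) : ℂ) : MvPolynomial (Fin 3) ℂ) ^ k = 1 := by
      rw [← C_pow, ← C_1]
      congr 1
      fin_cases s
      · simp [sg]
      · simp [sg, hk.neg_one_pow]
    rw [h2, one_mul]
  rw [Finset.sum_congr rfl (fun i _ => Finset.sum_congr rfl (fun s _ => e i s))]
  unfold SS
  rw [Finset.mul_sum]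
  apply Finset.sum_congr rfl
  intro i _
  rw [Fin.sum_univ_two, two_mul]

end Pool.Agent.Helper725_HQ
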