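import Pool.Agent.Helper725_HQ.T3

/-! Forms of level one. -/

set_option autoImplicit false
set_option linter.unusedSimpArgs false
set_option linter.unnecessarySeqFocus false

namespace Pool.Agent.Helper725_HQ

open Quaternion MvPolynomial

/-- functions on additive groups -/
abbrev Fun1 := AddSubgroup ℍ[ℚ] → MvPolynomial (Fin 3) ℂ

/-- forms of level one without the harmonicity condition -/
structure Form1 (k : ℕ) (G : Fun1) : Prop where
  supp : ∀ I, ¬ IsRI I → G I = 0
  hom : ∀ I, (G I).IsHomogeneous k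
  left : ∀ α : ℍ[ℚ], α ≠ 0 → ∀ I, G (lm α I) = lsub (rC α) (G I)
  two : ∀ I, G (rm ep I) = G I

/-- the space of forms -/
def W1 (k : ℕ) : Submodule ℂ Fun1 where
  carrier := {G | Form1 k G}
  add_mem' := by
    intro F G hF hG
    refine ⟨fun I h => ?_, fun I => ?_, fun α hα I => ?_, fun I => ?_⟩
    · show F I + G I = 0
      rw [hF.supp I h, hG.supp I h, add_zero]
    · exact (hF.hom I).add (hG.hom I)
    · show F _ + G _ = lsub (rC α) (F I + G I)
      rw [hF.left α hα, hG.left α hα, map_add]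
    · show F _ + G _ = F I + G I
      rw [hF.two, hG.two]
  zero_mem' := by
    refine ⟨fun I _ => rfl, fun I => isHomogeneous_zero _ _ _, fun α hα I => ?_, fun I => rfl⟩
    show (0 : MvPolynomial (Fin 3) ℂ) = lsub (rC α) 0
    rw [map_zero]
  smul_mem' := by
    intro c F hF
    refine ⟨fun I h => ?_, fun I => ?_, fun α hα I => ?_, fun I => ?_⟩
    · show c • F I = 0
      rw [hF.supp I h, smul_zero]
    · show (c • F I).IsHomogeneous k
      rw [smul_eq_C_mul]
      exact (hF.hom I).C_mul c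
    · show c • F _ = lsub (rC α) (c • F I)
      rw [hF.left α hα, map_smul]
    · show c • F _ = c • F I
      rw [hF.two]

theorem mem_W1 {k : ℕ} {F : Fun1} : F ∈ W1 k ↔ Form1 k F := Iff.rfl

open Classical in
/-- the Hecke operator as a function -/
noncomputable def T1 (p : ℕ) (F : Fun1) : Fun1 := fun I =>
  if IsRI I then ∑ᶠ J ∈ Sp p I, F J else 0

theorem T1_pos {p : ℕ} {F : Fun1} {I : AddSubgroup ℍ[ℚ]} (h : IsRI I) :
    T1 p F I = ∑ᶠ J ∈ Sp p I, F J := by
  unfold T1
  rw [if_pos h]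

theorem T1_neg {p : ℕ} {F : Fun1} {I : AddSubgroup ℍ[ℚ]} (h : ¬ IsRI I) :
    T1 p F I = 0 := by
  unfold T1
  rw [if_neg h]

/-- the Hecke operator -/
noncomputable def TL1 (p : ℕ) (hp : p.Prime) : Fun1 →ₗ[ℂ] Fun1 where
  toFun := T1 p
  map_add' F G := by
    funext I
    rw [Pi.add_apply]
    by_cases h : IsRI I
    · rw [T1_pos h, T1_pos h, T1_pos h, ← finsum_mem_add_distrib (Sp_finite hp h)]
      rfl
    · rw [T1_neg h, T1_neg h, T1_neg h, add_zero]
  map_smul' c F := by
    funext I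
    rw [Pi.smul_apply]
    by_cases h : IsRI I
    · rw [T1_pos h, T1_pos h, RingHom.id_apply, smul_finsum_mem (Sp_finite hp h)]
      rfl
    · rw [T1_neg h, T1_neg h, smul_zero]

section
variable {p : ℕ} (hp : p.Prime)

theorem TL1_apply {F : Fun1} {I : AddSubgroup ℍ[ℚ]} (h : IsRI I) :
    TL1 p hp F I = ∑ᶠ J ∈ Sp p I, F J := T1_pos h

theorem TL1_apply' {F : Fun1} {I : AddSubgroup ℍ[ℚ]} (h : ¬ IsRI I) :
    TL1 p hp F I = 0 := T1_neg h

theorem TL1_form {k : ℕ} {F : Fun1} (hF : Form1 k F) : Form1 k (TL1 p hp F) := by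
  refine ⟨fun I h => TL1_apply' hp h, fun I => ?_, fun α hα I => ?_, fun I => ?_⟩
  · by_cases h : IsRI I
    · rw [TL1_apply hp h, finsum_mem_eq_finite_toFinset_sum _ (Sp_finite hp h)]
      exact IsHomogeneous.sum _ _ _ (fun J _ => hF.hom _)
    · rw [TL1_apply' hp h]
      exact isHomogeneous_zero _ _ _
  · by_cases h : IsRI I
    · rw [TL1_apply hp h, TL1_apply hp ((lm_isRI_iff hα).2 h), Sp_lm hα,
        finsum_mem_image ((lm_injective hα).injOn)]
      have e : ∀ J ∈ Sp p I, F (lm α J) = lsub (rC α) (F J) := by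
        intro J _
        rw [hF.left α hα]
      rw [finsum_mem_congr rfl e]
      exact ((lsub (rC α) : MvPolynomial (Fin 3) ℂ →+ MvPolynomial (Fin 3) ℂ).map_finsum_mem _
        (Sp_finite hp h)).symm
    · rw [TL1_apply' hp h, TL1_apply' hp (fun h' => h ((lm_isRI_iff hα).1 h')), map_zero]
  · by_cases h : IsRI I
    · rw [TL1_apply hp h, TL1_apply hp (rm_isRI_iff.2 h), Sp_rm,
        finsum_mem_image ((rm_injective ep_ne).injOn)]
      apply finsum_mem_congr rfl
      intro J _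
      rw [hF.two]
    · rw [TL1_apply' hp h, TL1_apply' hp (fun h' => h (rm_isRI_iff.1 h'))]

theorem TL1_comm {r : ℕ} (hr : r.Prime) (hpr : p ≠ r) (F : Fun1) :
    TL1 p hp (TL1 r hr F) = TL1 r hr (TL1 p hp F) := by
  have key : ∀ (p r : ℕ) (hp : p.Prime) (hr : r.Prime), p ≠ r →
      ∀ I, IsRI I → TL1 p hp (TL1 r hr F) I = ∑ᶠ K ∈ ⋃ J ∈ Sp p I, Sp r J, F K := by
    intro p r hp hr hpr I h
    have hco : p.Coprime r := (Nat.coprime_primes hp hr).2 hpr
    rw [TL1_apply hp h, finsum_mem_biUnion]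
    · apply finsum_mem_congr rfl
      intro J hJ
      rw [TL1_apply hr hJ.1]
    · intro J hJ J' hJ' hne
      rw [Function.onFun, Set.disjoint_left]
      intro K hK hK'
      apply hne
      rw [← sup_two hco hJ hK, sup_two hco hJ' hK']
    · exact Sp_finite hp h
    · intro J hJ
      exact Sp_finite hr hJ.1
  funext I
  by_cases h : IsRI I
  · rw [key p r hp hr hpr I h, key r p hr hp (Ne.symm hpr) I h,
      biUnion_swap ((Nat.coprime_primes hp hr).2 hpr) hp.ne_zero hr.ne_zero h]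
  · rw [TL1_apply' hp h, TL1_apply' hr h]

end

theorem form1_ext {k : ℕ} {F : Fun1} (hF : Form1 k F) (h0 : F Oo = 0) : F = 0 := by
  funext I
  by_cases h : IsRI I
  · obtain ⟨α, hα, rfl⟩ := principal h
    rw [hF.left α hα, h0, map_zero]
    rfl
  · rw [hF.supp _ h]
    rfl

/-- invariance of the value at the Hurwitz order under its units -/
theorem form1_unit {k : ℕ} {F : Fun1} (hF : Form1 k F) {u : ℍ[ℚ]} (hu : u ∈ Hur)
    (h : normSq u = 1) : lsub (rC u) (F Oo) = F Oo := by
  have hne : u ≠ 0 := by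
    rw [← normSq_ne_zero, h]; norm_num
  have h1 := hF.left u hne Oo
  rw [mem_of_unit hu h] at h1
  exact h1.symm

theorem form1_ep {k : ℕ} {F : Fun1} (hF : Form1 k F) : lsub (rC ep) (F Oo) = F Oo := by
  have h1 := hF.left ep ep_ne Oo
  rw [← rm_ep_Oo, hF.two] at h1
  exact h1.symm

/-- the Hecke operator at three -/
theorem T3_one {k : ℕ} {F : Fun1} (hF : Form1 k F) :
    C ((3 : ℂ) ^ k) * TL1 3 p3 F Oo = ∑ i, lsub (fun j l => ((2 * aa i j * aa i l -
      (if j = l then 3 else 0) : ℤ) : ℂ)) (F Oo) := by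
  rw [TL1_apply p3 Oo_isRI, Sp3_eq, finsum_mem_range (fun i j h => aa_inj h),
    finsum_eq_sum_of_fintype, Finset.mul_sum]
  apply Finset.sum_congr rfl
  intro i _
  have hai := pq_ne (by norm_num) (aa_norm i)
  rw [hF.left _ hai]
  have h3 := nM_lsub (N := 3) (by exact_mod_cast aa_norm i) (by norm_num) (hF.hom Oo)
  exact_mod_cast h3

end Pool.Agent.Helper725_HQ
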