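import Mathlib

/-! Linear algebra: common eigenvectors and unit eigenvalues. -/

set_option autoImplicit false

namespace Pool.Agent.Helper725_HQ

open Module

/-- a commuting family of endomorphisms of a nonzero finite dimensional complex vector space has a
common eigenvector -/
theorem common_eig {W : Type*} [AddCommGroup W] [Module ℂ W] {ι : Type*} (S : ι → (W →ₗ[ℂ] W))
    (n : ℕ) : ∀ (U : Submodule ℂ W), FiniteDimensional ℂ U → finrank ℂ U = n → U ≠ ⊥ →
    (∀ i, ∀ u ∈ U, S i u ∈ U) → (∀ i j, ∀ u ∈ U, S i (S j u) = S j (S i u)) →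
    ∃ w ∈ U, w ≠ 0 ∧ ∀ i, ∃ μ : ℂ, S i w = μ • w := by
  induction n using Nat.strong_induction_on with
  | _ n ih =>
    intro U hfd hn hU hst hco
    by_cases hsc : ∀ i, ∃ μ : ℂ, ∀ u ∈ U, S i u = μ • u
    · obtain ⟨w, hw, hw0⟩ := (Submodule.ne_bot_iff U).1 hU
      refine ⟨w, hw, hw0, fun i => ?_⟩
      obtain ⟨μ, hμ⟩ := hsc i
      exact ⟨μ, hμ w hw⟩
    · simp only [not_forall, not_exists] at hsc
      obtain ⟨i, hi⟩ := hsc
      have hnt : Nontrivial U := Submodule.nontrivial_iff_ne_bot.2 hU
      set R : U →ₗ[ℂ] U := (S i).restrict (hst i) with hR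
      obtain ⟨μ, hμ⟩ := Module.End.exists_eigenvalue R
      obtain ⟨v, hv⟩ := hμ.exists_hasEigenvector
      have hv1 : S i (v : W) = μ • (v : W) := by
        have := hv.apply_eq_smul
        exact congrArg Subtype.val this
      set E : Submodule ℂ W := U ⊓ LinearMap.ker (S i - μ • LinearMap.id) with hE
      have hmemE : ∀ u, u ∈ E ↔ u ∈ U ∧ S i u = μ • u := by
        intro u
        rw [hE, Submodule.mem_inf, LinearMap.mem_ker, LinearMap.sub_apply, LinearMap.smul_apply,
          LinearMap.id_apply, sub_eq_zero]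
      have hEU : E ≤ U := inf_le_left
      have hEne : E ≠ U := by
        intro h
        obtain ⟨u, hu⟩ := hi μ
        simp only [exists_prop] at hu
        apply hu.2
        have := hu.1
        rw [← h, hmemE] at this
        exact this.2
      have hlt : finrank ℂ E < n := by
        rw [← hn]
        exact Submodule.finrank_lt_finrank_of_lt (lt_of_le_of_ne hEU hEne)
      have hEfd : FiniteDimensional ℂ E := Submodule.finiteDimensional_of_le hEU
      have hE0 : E ≠ ⊥ := by
        rw [Submodule.ne_bot_iff]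
        refine ⟨v, (hmemE v).2 ⟨v.2, hv1⟩, ?_⟩
        intro h
        exact hv.2 (Subtype.ext h)
      obtain ⟨w, hw, hw0, hall⟩ := ih _ hlt E hEfd rfl hE0 (by
          intro j u hu
          rw [hmemE] at hu ⊢
          refine ⟨hst j u hu.1, ?_⟩
          rw [hco i j u hu.1, hu.2, map_smul]) (fun i j u hu => hco i j u (hEU hu))
      exact ⟨w, hEU hw, hw0, hall⟩

/-- existence of a unit eigenvalue -/
theorem unit_eig {W : Type*} [AddCommGroup W] [Module ℂ W] [FiniteDimensional ℂ W]
    (T : W →ₗ[ℂ] W) (V : ValuationSubring ℂ) (L : Set W) (hLT : ∀ w ∈ L, T w ∈ L)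
    (hbd : ∀ w : W, w ≠ 0 → ∃ c : ℂ, c ≠ 0 ∧ c • w ∈ L ∧ ∀ a : ℂ, a • (c • w) ∈ L → a ∈ V)
    (ψ : W →ₗ[ℂ] ℂ) (a : ℂ) (ha : V.valuation a = 1)
    (hψT : ∀ w ∈ L, V.valuation (ψ (T w) - a * ψ w) < 1) (w0 : W) (hw0 : w0 ∈ L)
    (hw1 : V.valuation (ψ w0) = 1) : ∃ μ : ℂ, V.valuation μ = 1 ∧ ∃ w : W, w ≠ 0 ∧ T w = μ • w := by
  by_contra hcon
  have hroot : ∀ μ : ℂ, (minpoly ℂ T).IsRoot μ → V.valuation μ < 1 := by
    intro μ hμ
    obtain ⟨w, hw⟩ := (Module.End.hasEigenvalue_of_isRoot hμ).exists_hasEigenvector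
    have h1 : T w = μ • w := hw.apply_eq_smul
    obtain ⟨c, hc, hcw, hca⟩ := hbd w hw.2
    have h2 : μ ∈ V := by
      apply hca
      have := hLT _ hcw
      rw [map_smul, h1, smul_comm] at this
      exact this
    have h3 : V.valuation μ ≤ 1 := (V.valuation_le_one_iff μ).2 h2
    refine lt_of_le_of_ne h3 ?_
    intro h4
    exact hcon ⟨μ, h4, w, hw.2, h1⟩
  -- the coefficients of the minimal polynomial
  have hmonic : (minpoly ℂ T).Monic := minpoly.monic (Algebra.IsIntegral.isIntegral T)
  have hcoef : ∀ (s : Multiset ℂ), (∀ μ ∈ s, V.valuation μ < 1) → ∀ i < s.card,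
      V.valuation (((s.map (fun μ => Polynomial.X - Polynomial.C μ)).prod).coeff i) < 1 := by
    intro s
    induction s using Multiset.induction_on with
    | empty => intro _ i hi; exact absurd hi (by simp)
    | cons μ s ih =>
      intro hs i hi
      have hs' : ∀ ν ∈ s, V.valuation ν < 1 := fun ν hν => hs ν (Multiset.mem_cons_of_mem hν)
      have ih' := ih hs'
      have hle : ∀ i, V.valuation (((s.map (fun μ => Polynomial.X - Polynomial.C μ)).prod).coeff i)
          ≤ 1 := by
        intro i
        rcases lt_trichotomy i s.card with h | h | h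
        · exact (ih' i h).le
        · rw [h]
          have hm : (s.map (fun μ => Polynomial.X - Polynomial.C μ)).prod.Monic :=
            Polynomial.monic_multiset_prod_of_monic _ _ (fun _ _ => Polynomial.monic_X_sub_C _)
          have hdeg : (s.map (fun μ => Polynomial.X - Polynomial.C μ)).prod.natDegree = s.card :=
            Polynomial.natDegree_multiset_prod_X_sub_C_eq_card s
          rw [← hdeg, hm.coeff_natDegree, map_one]
        · rw [Polynomial.coeff_eq_zero_of_natDegree_lt (by
            rw [Polynomial.natDegree_multiset_prod_X_sub_C_eq_card]; exact h), map_zero]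
          exact zero_le_one
      rw [Multiset.map_cons, Multiset.prod_cons, sub_mul, Polynomial.coeff_sub,
        Polynomial.coeff_C_mul]
      have hμ : V.valuation (μ * ((s.map (fun μ => Polynomial.X - Polynomial.C μ)).prod).coeff i)
          < 1 := by
        rw [map_mul]
        exact mul_lt_one_of_lt_of_le (hs μ (Multiset.mem_cons_self μ s)) (hle i)
      refine lt_of_le_of_lt (V.valuation.map_sub _ _) (max_lt ?_ hμ)
      rcases i with _ | i
      · rw [Polynomial.coeff_X_mul_zero, map_zero]
        exact zero_lt_one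
      · rw [Polynomial.coeff_X_mul]
        apply ih'
        rw [Multiset.card_cons] at hi
        omega
  have hsplit : (minpoly ℂ T).Splits := IsAlgClosed.splits _
  have hprod : minpoly ℂ T =
      ((minpoly ℂ T).roots.map (fun μ => Polynomial.X - Polynomial.C μ)).prod := by
    exact hsplit.eq_prod_roots_of_monic hmonic
  have hcard : (minpoly ℂ T).roots.card = (minpoly ℂ T).natDegree :=
    hsplit.natDegree_eq_card_roots.symm
  have hco : ∀ i < (minpoly ℂ T).natDegree, V.valuation ((minpoly ℂ T).coeff i) < 1 := by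
    intro i hi
    rw [hprod]
    apply hcoef
    · intro μ hμ
      exact hroot μ ((Polynomial.mem_roots hmonic.ne_zero).1 hμ)
    · rw [hcard]; exact hi
  -- powers of `T`
  have hpow : ∀ i : ℕ, (T ^ i) w0 ∈ L := by
    intro i
    induction i with
    | zero => simpa using hw0
    | succ i ih =>
      rw [pow_succ']
      exact hLT _ ih
  have hψpow : ∀ i : ℕ, V.valuation (ψ ((T ^ i) w0)) = 1 := by
    intro i
    induction i with
    | zero => simpa using hw1
    | succ i ih =>
      have h1 := hψT _ (hpow i)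
      have h2 : ψ ((T ^ (i + 1)) w0) = (ψ (T ((T ^ i) w0)) - a * ψ ((T ^ i) w0)) +
          a * ψ ((T ^ i) w0) := by
        rw [sub_add_cancel, pow_succ']
        rfl
      have h3 : V.valuation (a * ψ ((T ^ i) w0)) = 1 := by rw [map_mul, ha, ih, one_mul]
      rw [h2, Valuation.map_add_eq_of_lt_right _ (by rw [h3]; exact h1), h3]
  have h0 : Polynomial.aeval T (minpoly ℂ T) = 0 := minpoly.aeval ℂ T
  have h1 : ψ (Polynomial.aeval T (minpoly ℂ T) w0) = ψ ((0 : W →ₗ[ℂ] W) w0) := by rw [h0]
  rw [Polynomial.aeval_eq_sum_range] at h1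
  rw [Finset.sum_range_succ, hmonic.coeff_natDegree, one_smul, LinearMap.add_apply,
    LinearMap.sum_apply, map_add, map_sum, LinearMap.zero_apply, map_zero] at h1
  have h2 : V.valuation (∑ x ∈ Finset.range (minpoly ℂ T).natDegree,
      ψ (((minpoly ℂ T).coeff x • T ^ x) w0)) < 1 := by
    apply Valuation.map_sum_lt
    · exact one_ne_zero
    · intro i hi
      rw [LinearMap.smul_apply, map_smul, smul_eq_mul, map_mul, hψpow i, mul_one]
      exact hco i (Finset.mem_range.1 hi)
  have h3 : ψ ((T ^ (minpoly ℂ T).natDegree) w0) = -∑ x ∈ Finset.range (minpoly ℂ T).natDegree,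
      ψ (((minpoly ℂ T).coeff x • T ^ x) w0) := by
    rw [eq_neg_iff_add_eq_zero, add_comm]
    exact h1
  have h4 := hψpow (minpoly ℂ T).natDegree
  rw [h3, Valuation.map_neg] at h4
  exact absurd h4 h2.ne

end Pool.Agent.Helper725_HQ
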