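import Pool.Agent.Helper725_HQ.LVal
import Pool.Agent.Helper725_HQ.Lin

/-! The lattice used for the existence of an eigenform of slope one. -/

set_option autoImplicit false
set_option linter.unusedSimpArgs false
set_option linter.unnecessarySeqFocus false

namespace Pool.Agent.Helper725_HQ

open Quaternion MvPolynomial

section
variable {R : Type*} [CommRing R] {f : MvPolynomial (Fin 3) R} {k : ℕ}

theorem eval_hom (hf : f.IsHomogeneous k) (c : R) (x : Fin 3 → R) :
    eval (fun j => c * x j) f = c ^ k * eval x f := by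
  have h1 := lsub_smul hf c (fun i j => if i = j then 1 else 0)
  rw [lsub_id] at h1
  have h2 := congrArg (eval x) h1
  rw [eval_lsub, map_mul, eval_C] at h2
  rw [← h2]
  congr 2
  funext i
  simp

theorem eval_TT (hf : f.IsHomogeneous k) (hs : Sym f) : ∃ h : R,
    eval ![1, 1, 1] (TT f) = 3 ^ k * eval ![1, 1, 1] f + 3 * (eval ![1, 1, 1] f -
      6 * eval ![1, 1, 1] (pderiv 0 f) + 9 * h) := by
  obtain ⟨h, hh⟩ := taylor_eval f ![1, 1, 1] ![-2, 0, 0]
  have e0 : eval ![1, 1, 1] (lsub (mz (MM 0)) f) = 3 ^ k * eval ![1, 1, 1] f := by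
    rw [eval_lsub, ← eval_hom hf 3 ![1, 1, 1]]
    congr 2
    funext i
    rw [Fin.sum_univ_three]
    fin_cases i <;> simp [mz, MM, aa] <;> norm_num
  have e : ∀ i : Fin 4, i ≠ 0 → eval ![1, 1, 1] (lsub (mz (MM i)) f) = eval ![-5, 1, 1] f := by
    intro i hi
    rw [eval_lsub]
    fin_cases i
    · exact absurd rfl hi
    · apply hs.abs
      intro j
      rw [Fin.sum_univ_three]
      fin_cases j <;> simp [mz, MM, aa] <;> norm_num
    · rw [← hs.v_cy, ← hs.v_cy]
      apply hs.abs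
      intro j
      rw [Fin.sum_univ_three]
      fin_cases j <;> simp [mz, MM, aa] <;> norm_num
    · rw [← hs.v_cy]
      apply hs.abs
      intro j
      rw [Fin.sum_univ_three]
      fin_cases j <;> simp [mz, MM, aa] <;> norm_num
  refine ⟨h, ?_⟩
  unfold TT
  rw [map_sum, Fin.sum_univ_four, e0, e 1 (by decide), e 2 (by decide), e 3 (by decide)]
  have e5 : eval ![-5, 1, 1] f = eval (fun j => (![1, 1, 1] : Fin 3 → R) j +
      3 * (![-2, 0, 0] : Fin 3 → R) j) f := by
    congr 2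
    funext j
    fin_cases j <;> simp <;> norm_num
  rw [e5, hh, Fin.sum_univ_three]
  simp
  ring

theorem eval_SS_one : eval ![1, 1, 1] (SS k : MvPolynomial (Fin 3) R) = 3 ^ k + 3 := by
  unfold SS
  rw [map_sum, Fin.sum_univ_four]
  simp only [map_pow, eval_lf]
  simp [aa]
  norm_num
  ring

end

section
variable {V : ValuationSubring ℂ}

theorem val_le (a : V) : V.valuation (a : ℂ) ≤ 1 := (V.valuation_le_one_iff _).2 a.2

theorem val_lt {a : V} (h : rs V a = 0) : V.valuation (a : ℂ) < 1 := by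
  have h1 := rs_eq_zero.1 h
  exact (V.valuation_lt_one_iff a).1 ((IsLocalRing.mem_maximalIdeal a).2 h1)

theorem val_one {a : V} (h : rs V a ≠ 0) : V.valuation (a : ℂ) = 1 := by
  have h1 := unit_of_rs h
  exact (V.valuation_eq_one_iff a).1 h1

theorem thr_of_val (h : V.valuation 3 < 1) : Thr V :=
  (V.valuation_lt_one_iff 3).2 h

theorem val_of_thr (h : Thr V) : V.valuation 3 < 1 :=
  (V.valuation_lt_one_iff 3).1 h

/-- scaling a finite family of numbers -/
theorem scale_fin {J : Type*} (S : Finset J) (φ : J → ℂ) (h : ∃ j ∈ S, φ j ≠ 0) :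
    ∃ c : ℂ, c ≠ 0 ∧ (∀ j ∈ S, c * φ j ∈ V) ∧ ∃ j ∈ S, c * φ j = 1 := by
  obtain ⟨j1, hj1, hj1'⟩ := h
  obtain ⟨j0, hj0, hmax⟩ := Finset.exists_max_image S (fun j => V.valuation (φ j)) ⟨j1, hj1⟩
  have h00 : φ j0 ≠ 0 := by
    intro h0
    have h1 := hmax j1 hj1
    simp only [h0, map_zero] at h1
    have h2 : V.valuation (φ j1) ≠ 0 := (Valuation.ne_zero_iff _).2 hj1'
    exact h2 (le_zero_iff.1 h1)
  refine ⟨(φ j0)⁻¹, inv_ne_zero h00, ?_, j0, hj0, inv_mul_cancel₀ h00⟩
  intro j hj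
  rw [← ValuationSubring.valuation_le_one_iff, map_mul, map_inv₀]
  have h1 := hmax j hj
  have h2 : V.valuation (φ j0) ≠ 0 := (Valuation.ne_zero_iff _).2 h00
  rw [inv_mul_le_iff₀ (zero_lt_iff.2 h2), mul_one]
  exact h1

/-- the condition defining the lattice -/
def InL (V : ValuationSubring ℂ) (P : MvPolynomial (Fin 3) ℂ) : Prop :=
  ∃ f : MvPolynomial (Fin 3) V, map V.subtype f = P ∧ ∃ c : V, eval ![1, 1, 1] f = 3 * c

theorem eval_sub (f : MvPolynomial (Fin 3) V) :
    eval ![1, 1, 1] (map V.subtype f) = ((eval ![1, 1, 1] f : V) : ℂ) := by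
  have h := map_eval V.subtype ![1, 1, 1] f
  have e : (V.subtype : V → ℂ) ∘ ![1, 1, 1] = ![1, 1, 1] := by
    funext j
    fin_cases j <;> rfl
  rw [e] at h
  exact h.symm

theorem InL_scale {P : MvPolynomial (Fin 3) ℂ} (hP : P ≠ 0) :
    ∃ c : ℂ, c ≠ 0 ∧ InL V (c • P) ∧ ∀ a : ℂ, InL V (a • (c • P)) → a ∈ V := by
  classical
  set φ : Option (Fin 3 →₀ ℕ) → ℂ := fun j => j.elim (eval ![1, 1, 1] P / 3) (fun m => coeff m P)
    with hφ
  obtain ⟨m, hm⟩ := support_nonempty.2 hP
  obtain ⟨c, hc, h1, j, hj, h2⟩ := scale_fin (V := V) (Finset.insertNone P.support) φ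
    ⟨some m, by simpa using hm, by simpa [hφ] using hm⟩
  have hcoef : ∀ m, c * coeff m P ∈ V := by
    intro m
    by_cases hm : m ∈ P.support
    · exact h1 (some m) (by simpa using hm)
    · rw [notMem_support_iff.1 hm, mul_zero]; exact V.zero_mem
  have hev : c * (eval ![1, 1, 1] P / 3) ∈ V := h1 none (by simp)
  obtain ⟨f, hf⟩ := lift_poly (V := V) (P := c • P) (by
    intro m
    rw [coeff_smul, smul_eq_mul]
    exact hcoef m)
  refine ⟨c, hc, ⟨f, hf, ⟨_, hev⟩, ?_⟩, ?_⟩
  · apply sub_inj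
    show ((eval ![1, 1, 1] f : V) : ℂ) = 3 * (c * (eval ![1, 1, 1] P / 3))
    rw [← eval_sub, hf, smul_eval]
    ring
  · rintro a ⟨g, hg, e, he⟩
    rcases j with _ | m
    · have h3 : a * (c * (eval ![1, 1, 1] P / 3)) = (e : ℂ) := by
        have h4 : ((eval ![1, 1, 1] g : V) : ℂ) = 3 * (e : ℂ) := by rw [he]; rfl
        rw [← eval_sub, hg, smul_eval, smul_eval] at h4
        linear_combination (1 / 3 : ℂ) * h4
      have h5 : c * (eval ![1, 1, 1] P / 3) = 1 := h2
      rw [h5, mul_one] at h3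
      rw [h3]
      exact e.2
    · have h3 : a * (c * coeff m P) = ((coeff m g : V) : ℂ) := by
        have h4 := congrArg (coeff m) hg
        rw [coeff_map, coeff_smul, coeff_smul, smul_eq_mul, smul_eq_mul] at h4
        exact h4.symm
      have h5 : c * coeff m P = 1 := h2
      rw [h5, mul_one] at h3
      rw [h3]
      exact (coeff m g).2

end

end Pool.Agent.Helper725_HQ
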