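import Pool.Agent.Helper725_HQ.LInv

/-! Taylor expansion of the Hecke operator at three. -/

set_option autoImplicit false
set_option linter.unusedSimpArgs false
set_option linter.unnecessarySeqFocus false

namespace Pool.Agent.Helper725_HQ

open MvPolynomial

section
variable {R : Type*} [CommRing R] {S : Type*} [CommRing S] [Algebra R S]

theorem taylor (f : MvPolynomial (Fin 3) R) (u v : Fin 3 → S) :
    ∃ g : S, aeval (fun j => u j - 3 * v j) f = aeval u f -
      3 * ∑ j, v j * aeval u (pderiv j f) + 9 * g := by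
  induction f using MvPolynomial.induction_on with
  | C a => exact ⟨0, by simp⟩
  | add p q hp hq =>
    obtain ⟨g, hg⟩ := hp
    obtain ⟨g', hg'⟩ := hq
    refine ⟨g + g', ?_⟩
    simp only [map_add, hg, hg', mul_add, Finset.sum_add_distrib]
    ring
  | mul_X p i hp =>
    obtain ⟨g, hg⟩ := hp
    refine ⟨g * (u i - 3 * v i) + (∑ j, v j * aeval u (pderiv j p)) * v i, ?_⟩
    have h1 : ∑ j, v j * aeval u (pderiv j (p * X i)) =
        (∑ j, v j * aeval u (pderiv j p)) * u i + aeval u p * v i := by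
      have : ∀ j, v j * aeval u (pderiv j (p * X i)) =
          v j * aeval u (pderiv j p) * u i + (if j = i then aeval u p * v i else 0) := by
        intro j
        rw [Derivation.leibniz, pderiv_X, smul_eq_mul, smul_eq_mul, map_add, map_mul, map_mul,
          aeval_X]
        by_cases h : j = i
        · subst h
          simp only [Pi.single_eq_same, map_one, if_true]
          ring
        · rw [if_neg h, Pi.single_eq_of_ne' h, map_zero]
          ring
      rw [Finset.sum_congr rfl (fun j _ => this j), Finset.sum_add_distrib, Finset.sum_ite_eq',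
        if_pos (Finset.mem_univ _), ← Finset.sum_mul]
    rw [map_mul, hg, h1, map_mul, aeval_X, aeval_X]
    ring

theorem taylor_eval (f : MvPolynomial (Fin 3) R) (x y : Fin 3 → R) :
    ∃ g : R, eval (fun j => x j + 3 * y j) f = eval x f +
      3 * ∑ j, y j * eval x (pderiv j f) + 9 * g := by
  obtain ⟨g, hg⟩ := taylor (S := R) f x (fun j => -y j)
  refine ⟨g, ?_⟩
  have e : ∀ z : Fin 3 → R, ∀ q : MvPolynomial (Fin 3) R, aeval z q = eval z q := by
    intro z q
    rfl
  rw [e, e] at hg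
  have h1 : (fun j => x j - 3 * (fun j => -y j) j) = fun j => x j + 3 * y j := by
    funext j
    ring
  rw [h1] at hg
  rw [hg]
  simp only [e, neg_mul, Finset.sum_neg_distrib]
  ring

/-- the linear form attached to an integral vector -/
noncomputable def lf (v : Fin 3 → ℤ) : MvPolynomial (Fin 3) R := ∑ j, C ((v j : ℤ) : R) * X j

/-- the reflection-like matrices -/
def MM (i : Fin 4) (j l : Fin 3) : ℤ := 2 * aa i j * aa i l - (if j = l then 3 else 0)

/-- the Hecke operator on polynomials -/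
noncomputable def TT (f : MvPolynomial (Fin 3) R) : MvPolynomial (Fin 3) R :=
  ∑ i, lsub (mz (MM i)) f

/-- the sum of the powers of the four linear forms -/
noncomputable def SS (k : ℕ) : MvPolynomial (Fin 3) R := ∑ i, (lf (aa i)) ^ k

theorem Sym.comp {P : MvPolynomial (Fin 3) R} {A B M : Fin 3 → Fin 3 → ℤ}
    (hA : lsub (mz A) P = P) (hB : lsub (mz B) P = P) (hM : ∀ i j, ∑ l, B i l * A l j = M i j) :
    lsub (mz M) P = P := by
  have h1 : lsub (mz A) (lsub (mz B) P) = P := by rw [hB, hA]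
  rw [lsub_lsub] at h1
  refine Eq.trans ?_ h1
  have : (mz M : Fin 3 → Fin 3 → R) = fun i j => ∑ l, mz B i l * mz A l j := by
    funext i j
    unfold mz
    rw [← hM i j]
    push_cast
    rfl
  rw [this]

/-- sign changes -/
def dg (a b c : ℤ) : Fin 3 → Fin 3 → ℤ := ![![a, 0, 0], ![0, b, 0], ![0, 0, c]]

theorem Sym.flips {P : MvPolynomial (Fin 3) R} (h : Sym P) :
    lsub (mz (dg (-1) 1 1)) P = P ∧ lsub (mz (dg 1 (-1) 1)) P = P ∧
      lsub (mz (dg 1 1 (-1))) P = P := by
  have hc2 : lsub (mz (![![0, 0, 1], ![1, 0, 0], ![0, 1, 0]])) P = P :=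
    Sym.comp h.cy h.cy (by decide)
  have hd1 : lsub (mz (![![0, 0, 1], ![-1, 0, 0], ![0, 1, 0]])) P = P :=
    Sym.comp h.fl hc2 (by decide)
  have hd3 : lsub (mz (![![0, 1, 0], ![0, 0, 1], ![-1, 0, 0]])) P = P :=
    Sym.comp h.fl h.cy (by decide)
  exact ⟨h.fl, Sym.comp h.cy hd1 (by decide), Sym.comp hc2 hd3 (by decide)⟩

variable {f : MvPolynomial (Fin 3) R} {k : ℕ}

/-- cast of an integral vector -/
def cz (v : Fin 3 → ℤ) : Fin 3 → R := fun j => ((v j : ℤ) : R)

theorem Sym.val_aa (h : Sym f) (i : Fin 4) : eval (cz (aa i)) f = eval ![1, 1, 1] f := by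
  have e : ∀ v : Fin 3 → ℤ, (cz v : Fin 3 → R) = ![((v 0 : ℤ) : R), ((v 1 : ℤ) : R), ((v 2 : ℤ) : R)] := by
    intro v
    funext j
    fin_cases j <;> rfl
  rw [e]
  fin_cases i
  · show eval ![((1 : ℤ) : R), ((1 : ℤ) : R), ((1 : ℤ) : R)] f = _
    rw [Int.cast_one]
  · have := h.v_fl0 1 1 1
    simpa [aa] using this
  · have := h.v_fl1 1 1 1
    simpa [aa] using this
  · have := h.v_fl2 1 1 1
    simpa [aa] using this

theorem Sym.grad_aa (h : Sym f) (i : Fin 4) (j : Fin 3) :
    eval (cz (aa i)) (pderiv j f) = ((aa i j : ℤ) : R) * eval ![1, 1, 1] (pderiv 0 f) := by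
  obtain ⟨f0, f1, f2⟩ := h.flips
  have key : ∀ a b c : ℤ, lsub (mz (dg a b c)) f = f →
      ∀ j, eval (![(a : R), (b : R), (c : R)]) (pderiv j f) * 1 =
        (dg a b c j j : R) * eval (![(a * a : R), (b * b : R), (c * c : R)]) (pderiv j f) := by
    intro a b c habc j
    have h1 : eval (![(a : R), (b : R), (c : R)]) (pderiv j (lsub (mz (dg a b c)) f)) =
        eval (![(a : R), (b : R), (c : R)]) (pderiv j f) := by rw [habc]
    rw [mul_one, ← h1, pderiv_lsub, map_sum]
    have h2 : ∀ i, eval (![(a : R), (b : R), (c : R)]) (C (mz (dg a b c) i j) *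
        lsub (mz (dg a b c)) (pderiv i f)) = if i = j then (dg a b c j j : R) *
          eval (![(a * a : R), (b * b : R), (c * c : R)]) (pderiv j f) else 0 := by
      intro i
      rw [map_mul, eval_C, eval_lsub]
      have h3 : (fun l => ∑ m, mz (dg a b c) l m * (![(a : R), (b : R), (c : R)] : Fin 3 → R) m) =
          ![(a * a : R), (b * b : R), (c * c : R)] := by
        funext l
        rw [Fin.sum_univ_three]
        fin_cases l <;> simp [mz, dg]
      rw [h3]
      split_ifs with hij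
      · subst hij; rfl
      · have : mz (dg a b c) i j = (0 : R) := by
          fin_cases i <;> fin_cases j <;> first | exact absurd rfl hij | simp [mz, dg]
        rw [this, zero_mul]
    rw [Finset.sum_congr rfl (fun i _ => h2 i), Finset.sum_ite_eq', if_pos (Finset.mem_univ _)]
  have hg := h.grad 1
  have e : ∀ v : Fin 3 → ℤ, (cz v : Fin 3 → R) = ![((v 0 : ℤ) : R), ((v 1 : ℤ) : R), ((v 2 : ℤ) : R)] := by
    intro v
    funext j
    fin_cases j <;> rfl
  rw [e]
  fin_cases i
  · have : ((aa 0 j : ℤ) : R) = 1 := by fin_cases j <;> simp [aa]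
    show eval ![((aa 0 0 : ℤ) : R), ((aa 0 1 : ℤ) : R), ((aa 0 2 : ℤ) : R)] (pderiv j f) =
      ((aa 0 j : ℤ) : R) * eval ![1, 1, 1] (pderiv 0 f)
    rw [this, one_mul, ← hg j]
    simp [aa]
  · have h1 := key (-1) 1 1 f0 j
    show eval ![((aa 1 0 : ℤ) : R), ((aa 1 1 : ℤ) : R), ((aa 1 2 : ℤ) : R)] (pderiv j f) =
      ((aa 1 j : ℤ) : R) * eval ![1, 1, 1] (pderiv 0 f)
    rw [← hg j]
    have h2 : dg (-1) 1 1 j j = aa 1 j := by fin_cases j <;> rfl
    rw [h2] at h1
    simpa [aa] using h1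
  · have h1 := key 1 (-1) 1 f1 j
    show eval ![((aa 2 0 : ℤ) : R), ((aa 2 1 : ℤ) : R), ((aa 2 2 : ℤ) : R)] (pderiv j f) =
      ((aa 2 j : ℤ) : R) * eval ![1, 1, 1] (pderiv 0 f)
    rw [← hg j]
    have h2 : dg 1 (-1) 1 j j = aa 2 j := by fin_cases j <;> rfl
    rw [h2] at h1
    simpa [aa] using h1
  · have h1 := key 1 1 (-1) f2 j
    show eval ![((aa 3 0 : ℤ) : R), ((aa 3 1 : ℤ) : R), ((aa 3 2 : ℤ) : R)] (pderiv j f) =
      ((aa 3 j : ℤ) : R) * eval ![1, 1, 1] (pderiv 0 f)
    rw [← hg j]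
    have h2 : dg 1 1 (-1) j j = aa 3 j := by fin_cases j <;> rfl
    rw [h2] at h1
    simpa [aa] using h1

theorem eval_two (hf : f.IsHomogeneous k) (x : Fin 3 → R) :
    eval (fun j => 2 * x j) f = 2 ^ k * eval x f := by
  have h1 := lsub_smul hf 2 (fun i j => if i = j then 1 else 0)
  rw [lsub_id] at h1
  have h2 := congrArg (eval x) h1
  rw [eval_lsub, map_mul, eval_C] at h2
  rw [← h2]
  congr 2
  funext i
  simp

/-- the expansion of the Hecke operator at three modulo nine -/
theorem TT_expand (hf : f.IsHomogeneous k) (hk : 1 ≤ k) (h : Sym f) :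
    ∃ g : MvPolynomial (Fin 3) R, TT f = C (2 ^ (k - 1) * (2 - (k : R)) * eval ![1, 1, 1] f) *
      SS k + 9 * g := by
  set c' := eval ![1, 1, 1] f with hc'
  set μ := eval ![1, 1, 1] (pderiv 0 f) with hμ
  have hmu : 3 * μ = (k : R) * c' := by
    have h1 := euler_eval hf ![1, 1, 1]
    rw [Fin.sum_univ_three, h.grad 1 1, h.grad 1 2] at h1
    simp only [Matrix.cons_val_zero, Matrix.cons_val_one, Matrix.cons_val_two, one_mul] at h1
    rw [← h1]
    simp
    ring
  have key : ∀ i : Fin 4, ∃ g : MvPolynomial (Fin 3) R, lsub (mz (MM i)) f =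
      C (2 ^ (k - 1) * (2 - (k : R)) * c') * (lf (aa i)) ^ k + 9 * g := by
    intro i
    obtain ⟨g, hg⟩ := taylor (S := MvPolynomial (Fin 3) R) f
      (fun j => ∑ l, C (2 * ((aa i j : ℤ) : R) * ((aa i l : ℤ) : R)) * X l) (fun j => X j)
    refine ⟨g, ?_⟩
    have e1 : lsub (mz (MM i)) f = aeval (fun j =>
        (∑ l, C (2 * ((aa i j : ℤ) : R) * ((aa i l : ℤ) : R)) * X l) - 3 * X j) f := by
      unfold lsub
      congr 1
      congr 1
      funext j
      have : ∀ l, C (mz (MM i) j l) * (X l : MvPolynomial (Fin 3) R) =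
          C (2 * ((aa i j : ℤ) : R) * ((aa i l : ℤ) : R)) * X l - (if j = l then 3 * X j else 0) := by
        intro l
        unfold mz MM
        split_ifs with hjl
        · subst hjl
          push_cast
          rw [C_sub, sub_mul]
          congr 1
        · simp
      rw [Finset.sum_congr rfl (fun l _ => this l), Finset.sum_sub_distrib, Finset.sum_ite_eq,
        if_pos (Finset.mem_univ _)]
    rw [e1, hg]
    have e2 : ∀ (q : MvPolynomial (Fin 3) R) (m : ℕ), q.IsHomogeneous m →
        aeval (fun j => ∑ l, C (2 * ((aa i j : ℤ) : R) * ((aa i l : ℤ) : R)) *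
          (X l : MvPolynomial (Fin 3) R)) q = C (2 ^ m * eval (cz (aa i)) q) * (lf (aa i)) ^ m := by
      intro q m hq
      have := lsub_rank_one hq (fun j => 2 * ((aa i j : ℤ) : R)) (fun l => ((aa i l : ℤ) : R))
      unfold lsub at this
      rw [this]
      congr 2
      exact eval_two hq (cz (aa i))
    rw [e2 f k hf, h.val_aa i]
    have e3 : ∀ j : Fin 3, X j * aeval (fun j => ∑ l, C (2 * ((aa i j : ℤ) : R) *
        ((aa i l : ℤ) : R)) * (X l : MvPolynomial (Fin 3) R)) (pderiv j f) =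
        C (2 ^ (k - 1) * μ) * (lf (aa i)) ^ (k - 1) * (C ((aa i j : ℤ) : R) * X j) := by
      intro j
      rw [e2 _ (k - 1) hf.pderiv, h.grad_aa i j, ← hμ]
      have : (2 ^ (k - 1) * (((aa i j : ℤ) : R) * μ)) = 2 ^ (k - 1) * μ * ((aa i j : ℤ) : R) := by
        ring
      rw [this, C_mul]
      ring
    rw [Finset.sum_congr rfl (fun j _ => e3 j), ← Finset.mul_sum]
    have e4 : (∑ j, C ((aa i j : ℤ) : R) * (X j : MvPolynomial (Fin 3) R)) = lf (aa i) := rfl
    rw [e4, mul_assoc (C (2 ^ (k - 1) * μ)), ← pow_succ, Nat.sub_add_cancel hk]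
    have e5 : (2 : R) ^ k = 2 ^ (k - 1) * 2 := by
      rw [← pow_succ, Nat.sub_add_cancel hk]
    have e6 : (2 ^ (k - 1) * (2 - (k : R)) * c') = 2 ^ k * c' - 3 * (2 ^ (k - 1) * μ) := by
      rw [e5]
      linear_combination ((2 : R) ^ (k - 1)) * hmu
    rw [e6, C_sub, C_mul (a := (3 : R))]
    have e7 : (C (3 : R) : MvPolynomial (Fin 3) R) = 3 := rfl
    rw [e7]
    ring
  choose g hg using key
  refine ⟨∑ i, g i, ?_⟩
  unfold TT SS
  rw [Finset.sum_congr rfl (fun i _ => hg i), Finset.sum_add_distrib, ← Finset.mul_sum,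
    ← Finset.mul_sum]

end

end Pool.Agent.Helper725_HQ
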