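import Pool.Agent.Helper725_HQ.LEig

/-! Values of eigenforms of slope one at special vectors. -/

set_option autoImplicit false
set_option linter.unusedSimpArgs false
set_option linter.unnecessarySeqFocus false

namespace Pool.Agent.Helper725_HQ

open Quaternion MvPolynomial

section
variable {V : ValuationSubring ℂ}

theorem Sym.abs {R : Type*} [CommRing R] {f : MvPolynomial (Fin 3) R} (h : Sym f)
    {x y : Fin 3 → R} (hxy : ∀ j, x j = y j ∨ x j = -y j) : eval x f = eval y f := by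
  have e : ∀ z : Fin 3 → R, z = ![z 0, z 1, z 2] := by
    intro z
    funext j
    fin_cases j <;> rfl
  rw [e x, e y]
  have h0 : eval ![x 0, x 1, x 2] f = eval ![y 0, x 1, x 2] f := by
    rcases hxy 0 with h0 | h0
    · rw [h0]
    · rw [h0, h.v_fl0]
  have h1 : eval ![y 0, x 1, x 2] f = eval ![y 0, y 1, x 2] f := by
    rcases hxy 1 with h0 | h0
    · rw [h0]
    · rw [h0, h.v_fl1]
  have h2 : eval ![y 0, y 1, x 2] f = eval ![y 0, y 1, y 2] f := by
    rcases hxy 2 with h0 | h0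
    · rw [h0]
    · rw [h0, h.v_fl2]
  rw [h0, h1, h2]

theorem sq_mod3 (x : ℤ) : (x % 3 = 0 ∧ ∃ y, x = 3 * y) ∨
    (x ^ 2 % 3 = 1 ∧ ∃ y, x = 1 + 3 * y ∨ x = -(1 + 3 * y)) := by
  have h : x % 3 = 0 ∨ x % 3 = 1 ∨ x % 3 = 2 := by omega
  rcases h with h | h | h
  · left
    exact ⟨h, x / 3, by omega⟩
  · right
    exact ⟨by simp [pow_two, Int.mul_emod, h], x / 3, Or.inl (by omega)⟩
  · right
    exact ⟨by simp [pow_two, Int.mul_emod, h], -(x / 3) - 1, Or.inr (by omega)⟩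

theorem ram_form {x : Fin 3 → ℤ} {d : ℕ} (hx : x 0 ^ 2 + x 1 ^ 2 + x 2 ^ 2 = (d : ℤ))
    (h3 : d % 3 = 0) (h9 : ¬ 9 ∣ d) : ∃ y : Fin 3 → ℤ, ∀ j, x j = 1 + 3 * y j ∨
      x j = -(1 + 3 * y j) := by
  have key : ∀ j, x j ^ 2 % 3 = 1 ∧ ∃ y, x j = 1 + 3 * y ∨ x j = -(1 + 3 * y) := by
    have c0 := sq_mod3 (x 0)
    have c1 := sq_mod3 (x 1)
    have c2 := sq_mod3 (x 2)
    have z : ∀ j, x j % 3 = 0 → x j ^ 2 % 3 = 0 := by
      intro j hj
      simp [pow_two, Int.mul_emod, hj]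
    have hall : ¬ (x 0 % 3 = 0 ∧ x 1 % 3 = 0 ∧ x 2 % 3 = 0) := by
      rintro ⟨a0, a1, a2⟩
      obtain ⟨b0, hb0⟩ := Int.dvd_of_emod_eq_zero a0
      obtain ⟨b1, hb1⟩ := Int.dvd_of_emod_eq_zero a1
      obtain ⟨b2, hb2⟩ := Int.dvd_of_emod_eq_zero a2
      rw [hb0, hb1, hb2] at hx
      have h5 : (9 : ℤ) ∣ (d : ℤ) := ⟨b0 ^ 2 + b1 ^ 2 + b2 ^ 2, by linear_combination -hx⟩
      exact h9 (by exact_mod_cast h5)
    have z0 := z 0
    have z1 := z 1
    have z2 := z 2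
    have hd3 : (d : ℤ) % 3 = 0 := by omega
    intro j
    fin_cases j
    · rcases c0 with ⟨c0, _⟩ | c0
      · exfalso
        rcases c1 with ⟨c1, _⟩ | ⟨c1, _⟩ <;> rcases c2 with ⟨c2, _⟩ | ⟨c2, _⟩
        · exact hall ⟨c0, c1, c2⟩
        · have := z0 c0; have := z1 c1; omega
        · have := z0 c0; have := z2 c2; omega
        · have := z0 c0; omega
      · exact c0
    · rcases c1 with ⟨c1, _⟩ | c1
      · exfalso
        rcases c0 with ⟨c0, _⟩ | ⟨c0, _⟩ <;> rcases c2 with ⟨c2, _⟩ | ⟨c2, _⟩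
        · exact hall ⟨c0, c1, c2⟩
        · have := z0 c0; have := z1 c1; omega
        · have := z1 c1; have := z2 c2; omega
        · have := z1 c1; omega
      · exact c1
    · rcases c2 with ⟨c2, _⟩ | c2
      · exfalso
        rcases c0 with ⟨c0, _⟩ | ⟨c0, _⟩ <;> rcases c1 with ⟨c1, _⟩ | ⟨c1, _⟩
        · exact hall ⟨c0, c1, c2⟩
        · have := z0 c0; have := z2 c2; omega
        · have := z1 c1; have := z2 c2; omega
        · have := z2 c2; omega
      · exact c2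
  choose _ y hy using key
  exact ⟨y, hy⟩

theorem three_zero' (hV : Thr V) : rs V (3 : V) = 0 := by
  rw [map_ofNat]; exact three_zero hV

theorem slope_val {k : ℕ} (hV : Thr V) (hk : Even k) (hk0 : k ≠ 0) (hk3 : k % 3 ≠ 2) {F : Fun1}
    (hF : Form1 k F) (hF0 : F ≠ 0) {lam : ℂ} (he : TL1 3 p3 F = lam • F) {w : V}
    (hw : rs V w ≠ 0) (hlw : (3 : ℂ) ^ k * lam = 3 * (w : ℂ)) {d : ℕ} (h9 : ¬ 9 ∣ d)
    (hgood : d % 3 ≠ 0 ∨ d % 9 = 3 ∨ (d % 9 = 6 ∧ k % 3 = 0)) :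
    ∃ c : ℂ, c ≠ 0 ∧ ∃ r : kap V, r ≠ 0 ∧ ∀ x : Fin 3 → ℤ,
      x 0 ^ 2 + x 1 ^ 2 + x 2 ^ 2 = (d : ℤ) → ∃ v : V, c * ev (F Oo) (pq x) = (v : ℂ) ∧
        rs V v = r := by
  obtain ⟨c, hc, f, hf, hsym, hhom, c'', hc''ne, hc'', ρ, hρ, hres⟩ :=
    slope_one hV hk hk0 hk3 hF hF0 he hw hlw
  have hval : ∀ x : Fin 3 → ℤ, c * ev (F Oo) (pq x) =
      ((eval (fun j => ((x j : ℤ) : V)) f : V) : ℂ) := by
    intro x
    rw [← ev_map, hf, ← smul_eq_C_mul, ev_smul]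
  by_cases h3 : d % 3 = 0
  · have hg' : d % 9 = 3 ∨ (d % 9 = 6 ∧ k % 3 = 0) := by
      rcases hgood with h | h
      · exact absurd h3 h
      · exact h
    refine ⟨c * (3 : ℂ)⁻¹, mul_ne_zero hc (by norm_num), rs V c'', hc''ne, ?_⟩
    intro x hx
    obtain ⟨y, hy⟩ := ram_form hx h3 h9
    obtain ⟨g, hg⟩ := taylor_eval f ![1, 1, 1] (fun j => ((y j : ℤ) : V))
    have e1 : eval (fun j => ((x j : ℤ) : V)) f =
        eval (fun j => (![1, 1, 1] : Fin 3 → V) j + 3 * ((y j : ℤ) : V)) f := by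
      apply hsym.abs
      intro j
      have e2 : (![1, 1, 1] : Fin 3 → V) j = 1 := by fin_cases j <;> rfl
      rw [e2]
      rcases hy j with h | h
      · left; rw [h]; push_cast; rfl
      · right; rw [h]; push_cast; rfl
    have hmu : eval ![1, 1, 1] (pderiv 0 f) = (k : V) * c'' := by
      have h1 := euler_eval hhom ![1, 1, 1]
      rw [Fin.sum_univ_three, hsym.grad 1 1, hsym.grad 1 2, hc''] at h1
      apply mul_left_cancel₀ (three_ne (V := V))
      have e3 : (3 : V) * ((k : V) * c'') = (k : V) * (3 * c'') := by ring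
      rw [e3, ← h1]
      simp
      ring
    have e4 : ∑ j, ((y j : ℤ) : V) * eval ![1, 1, 1] (pderiv j f) =
        ((y 0 + y 1 + y 2 : ℤ) : V) * ((k : V) * c'') := by
      rw [Fin.sum_univ_three, hsym.grad 1 1, hsym.grad 1 2, hmu]
      push_cast
      ring
    rw [← e1, e4, hc''] at hg
    refine ⟨c'' * (1 + ((y 0 + y 1 + y 2 : ℤ) : V) * (k : V)) + 3 * g, ?_, ?_⟩
    · have e5 : c * (3 : ℂ)⁻¹ * ev (F Oo) (pq x) = (3 : ℂ)⁻¹ * (c * ev (F Oo) (pq x)) := by ring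
      rw [e5, hval, hg]
      have e6 : ((3 * c'' + 3 * (((y 0 + y 1 + y 2 : ℤ) : V) * ((k : V) * c'')) + 9 * g : V) : ℂ) =
          3 * ((c'' * (1 + ((y 0 + y 1 + y 2 : ℤ) : V) * (k : V)) + 3 * g : V) : ℂ) := by
        have e7 : (3 * c'' + 3 * (((y 0 + y 1 + y 2 : ℤ) : V) * ((k : V) * c'')) + 9 * g : V) =
            3 * (c'' * (1 + ((y 0 + y 1 + y 2 : ℤ) : V) * (k : V)) + 3 * g) := by ring
        rw [e7]
        rfl
      rw [e6, ← mul_assoc, inv_mul_cancel₀ (by norm_num), one_mul]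
    · rw [map_add, map_mul, map_mul, three_zero' hV, zero_mul, add_zero, map_add, map_one, map_mul,
        map_intCast, map_natCast]
      have hs : (x 0 ^ 2 + x 1 ^ 2 + x 2 ^ 2 : ℤ) = 3 + 6 * (y 0 + y 1 + y 2) +
          9 * (y 0 ^ 2 + y 1 ^ 2 + y 2 ^ 2) := by
        have q : ∀ j, x j ^ 2 = (1 + 3 * y j) ^ 2 := by
          intro j
          rcases hy j with h | h
          · rw [h]
          · rw [h, neg_sq]
        rw [q 0, q 1, q 2]
        ring
      rw [hx] at hs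
      rcases hg' with h | ⟨h, hk'⟩
      · have h5 : (y 0 + y 1 + y 2) % 3 = 0 % 3 := by
          have : (d : ℤ) % 9 = 3 := by omega
          omega
        rw [cast_mod hV h5]
        simp
      · have h6 : ((k : ℕ) : kap V) = 0 := by
          have h7 : (k : ℤ) % 3 = 0 % 3 := by omega
          have := cast_mod hV h7
          push_cast at this
          exact this
        rw [h6, mul_zero, add_zero, mul_one]
  · refine ⟨c, hc, ρ * ((d : ℤ) : kap V), mul_ne_zero hρ (rs_int_ne hV (by omega)), ?_⟩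
    intro x hx
    refine ⟨_, hval x, ?_⟩
    rw [← evz_map, hres, evz_C_mul, evz_SS hV hk hk0, hx]

end

end Pool.Agent.Helper725_HQ
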