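import Pool.Agent.Helper725_HQ.GDefs

/-! Algebraic modular forms on the Hamilton quaternions of conductor two or four which have small
slope at three. -/

set_option autoImplicit false

namespace Pool.Agent.Helper725_HQ

open Quaternion MvPolynomial NumberField

/-- a Hecke eigenform which at some place above three has slope one, or slope less than three if
`c = 2` -/
structure SlopeD (c k : ℕ)
    (F : AddSubgroup ℍ[ℚ] → AddSubgroup ℍ[ℚ] → MvPolynomial (Fin 3) ℂ) : Prop where
  form : IsFormS c k F
  ne_zero : ∃ I I', F I I' ≠ 0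
  eigen : ∀ p : ℕ, p.Prime → p ≠ 2 → ∃ lam : ℂ, ∀ I I', PairC c I I' →
    hecke p F I I' = lam • F I I'
  slope : ∃ V : ValuationSubring ℂ, V.valuation 3 < 1 ∧ ∃ lam : ℂ,
    (∀ I I', PairC c I I' → hecke 3 F I I' = lam • F I I') ∧
    (V.valuation (3 ^ k * lam) = V.valuation 3 ∨
      c = 2 ∧ V.valuation 27 < V.valuation (3 ^ k * lam))

end Pool.Agent.Helper725_HQ
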