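import Pool.Agent.Helper725_HQ.MTay

/-! Eigenforms of level one and slope less than three at three. -/

set_option autoImplicit false
set_option linter.unusedSimpArgs false
set_option linter.unusedVariables false

namespace Pool.Agent.Helper725_HQ.RR

open Quaternion MvPolynomial

/-- squared norm -/
def nqq (x : Fin 3 → ℤ) : ℤ := x 0 ^ 2 + x 1 ^ 2 + x 2 ^ 2

instance {V : ValuationSubring ℂ} : CharZero V := ⟨fun a b h => by
  have h1 : ((a : V) : ℂ) = ((b : V) : ℂ) := by rw [h]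
  exact_mod_cast h1⟩

/-- reduction of an eigenform of slope less than three -/
theorem slope_gen {V : ValuationSubring ℂ} (hV : Thr V) {n : ℕ} (hn : Even n) (hn0 : n ≠ 0)
    {F : Fun1} (hF : Form1 (n + 2) F) (hh : ∑ i, pderiv i (pderiv i (F Oo)) = 0) (hF0 : F ≠ 0)
    {lam : ℂ} (he : TL1 3 p3 F = lam • F) {t : V} (ht : rs V t = 0)
    (hlt : (3 : ℂ) ^ (n + 2) * lam * (t : ℂ) = 27) {e A B : ℤ}
    (hA : 16 - 8 * ((n : ℤ) + 2) + 3 * ((n : ℤ) + 2) * ((n : ℤ) + 1) = e * A)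
    (hB : 3 * ((n : ℤ) + 2) * ((n : ℤ) + 1) = e * B)
    (hx : ∃ x : Fin 3 → ℤ, ¬ (3 : ℤ) ∣ A * nqq x - B * (nqq x) ^ 2) :
    ∃ c : ℂ, c ≠ 0 ∧ ∃ f : MvPolynomial (Fin 3) V, map V.subtype f = C c * F Oo ∧ Sym f ∧
      f.IsHomogeneous (n + 2) ∧ (∑ i, pderiv i (pderiv i f) = 0) ∧ ∃ c'' : V, rs V c'' ≠ 0 ∧
      (e : V) * eval ![1, 1, 1] f * t = 27 * c'' ∧
      ∀ x : Fin 3 → ℤ, 4 * rs V (eval (fun j => ((x j : ℤ) : V)) f) =
        2 ^ n * rs V c'' * ((A * nqq x - B * (nqq x) ^ 2 : ℤ) : kap V) := by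
  have hP : F Oo ≠ 0 := fun h => hF0 (form1_ext hF h)
  obtain ⟨c, hc, f, hf, hf0⟩ := scale_poly (V := V) hP
  have hk : Even (n + 2) := hn.add even_two
  have hF' : Form1 (n + 2) (c • F) := (W1 (n + 2)).smul_mem c hF
  have hfF : map V.subtype f = (c • F) Oo := by
    rw [hf, Pi.smul_apply, smul_eq_C_mul]
  have hsym : Sym f := Sym.of_map sub_inj (by rw [hfF]; exact sym_of_form hk hF')
  have hhom : f.IsHomogeneous (n + 2) :=
    IsHomogeneous.of_map sub_inj (by rw [hfF]; exact hF'.hom Oo)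
  have hhf : ∑ i, pderiv i (pderiv i f) = 0 := by
    apply map_injective V.subtype sub_inj
    rw [map_sum, map_zero]
    have h1 : ∀ i, map V.subtype (pderiv i (pderiv i f)) = C c * pderiv i (pderiv i (F Oo)) := by
      intro i
      rw [← pderiv_map, ← pderiv_map, hf, pderiv_C_mul, pderiv_C_mul]
    rw [Finset.sum_congr rfl (fun i _ => h1 i), ← Finset.mul_sum, hh, mul_zero]
  have hTT : C t * TT f = 27 * f := by
    apply map_injective V.subtype sub_inj
    have e1 : C (t : ℂ) * (C ((3 : ℂ) ^ (n + 2)) * C lam) = (27 : MvPolynomial (Fin 3) ℂ) := by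
      rw [← C_mul, ← C_mul]
      have : (t : ℂ) * ((3 : ℂ) ^ (n + 2) * lam) = 27 := by rw [← hlt]; ring
      rw [this, map_ofNat]
    have e2 : map V.subtype (C t : MvPolynomial (Fin 3) V) = C (t : ℂ) := by rw [map_C]; rfl
    rw [map_mul, TT_map, hfF, ← T3_TT hF', map_mul, map_ofNat, map_smul, he, hfF, e2]
    simp only [Pi.smul_apply, smul_eq_C_mul]
    linear_combination (C c * F Oo) * e1
  obtain ⟨g, hg⟩ := TT_expand2 hhom hsym hhf
  obtain ⟨p0, hp0⟩ : ∃ p0, p0 = eval ![1, 1, 1] f := ⟨_, rfl⟩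
  obtain ⟨Q, hQ⟩ : ∃ Q : MvPolynomial (Fin 3) V, Q = C (A : V) * SS (n + 2) -
    C (B : V) * (NN * SS n) := ⟨_, rfl⟩
  rw [← hp0] at hg
  have hA' : (C (16 - 8 * ((n : V) + 2) + 3 * ((n : V) + 2) * ((n : V) + 1)) :
      MvPolynomial (Fin 3) V) = C (e : V) * C (A : V) := by
    rw [← C_mul]
    congr 1
    exact_mod_cast congrArg (Int.cast : ℤ → V) hA
  have hB' : (C (3 * ((n : V) + 2) * ((n : V) + 1)) :
      MvPolynomial (Fin 3) V) = C (e : V) * C (B : V) := by
    rw [← C_mul]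
    congr 1
    exact_mod_cast congrArg (Int.cast : ℤ → V) hB
  rw [hA', hB'] at hg
  have h108 : 108 * f = C (2 ^ n * ((e : V) * p0 * t)) * Q + 54 * (C t * g) := by
    rw [hQ]
    simp only [C_mul, C_pow, map_ofNat] at hg ⊢
    linear_combination (-4 : MvPolynomial (Fin 3) V) * hTT + C t * hg
  obtain ⟨xs, hxs⟩ := hx
  have hQr : ∀ x : Fin 3 → ℤ, rs V (eval (fun j => ((x j : ℤ) : V)) Q) =
      ((A * nqq x - B * (nqq x) ^ 2 : ℤ) : kap V) := by
    intro x
    have e1 := evz_SS hV hk (by omega) x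
    have e2 := evz_SS hV hn hn0 x
    rw [← SS_map (rs V), evz_map] at e1 e2
    have e3 : eval (fun j => ((x j : ℤ) : V)) (NN : MvPolynomial (Fin 3) V) = ((nqq x : ℤ) : V) := by
      unfold NN nqq
      rw [map_sum, Fin.sum_univ_three]
      simp
    rw [hQ, map_sub, map_mul, map_mul, map_mul, eval_C, eval_C, map_sub, map_mul, map_mul, map_mul,
      e1, e2, e3, map_intCast, map_intCast, map_intCast]
    unfold nqq
    push_cast
    ring
  have hu : IsUnit (2 ^ n * eval (fun j => ((xs j : ℤ) : V)) Q : V) := by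
    apply IsUnit.mul
    · apply IsUnit.pow
      apply unit_of_rs
      have : rs V (2 : V) = ((2 : ℤ) : kap V) := by rw [map_ofNat]; norm_num
      rw [this]
      exact rs_int_ne hV (by norm_num)
    · apply unit_of_rs
      rw [hQr]
      exact rs_int_ne hV hxs
  have hev := congrArg (eval (fun j => ((xs j : ℤ) : V))) h108
  simp only [map_add, map_mul, eval_C, map_ofNat, map_pow] at hev
  obtain ⟨c'', hc''⟩ : ∃ c'' : V, (e : V) * p0 * t = 27 * c'' := by
    obtain ⟨u, hu'⟩ := hu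
    have h6 : (u : V) * ((u⁻¹ : Vˣ) : V) = 1 := Units.mul_inv u
    refine ⟨((u⁻¹ : Vˣ) : V) * (4 * eval (fun j => ((xs j : ℤ) : V)) f -
      2 * (t * eval (fun j => ((xs j : ℤ) : V)) g)), ?_⟩
    have h7 : (e : V) * p0 * t = ((u⁻¹ : Vˣ) : V) * ((u : V) * ((e : V) * p0 * t)) := by
      linear_combination (-((e : V) * p0 * t)) * h6
    rw [h7, hu']
    linear_combination (-((u⁻¹ : Vˣ) : V)) * hev
  rw [hc''] at h108
  have h4 : 4 * f = C (2 ^ n * c'') * Q + 2 * (C t * g) := by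
    have h27 : (27 : MvPolynomial (Fin 3) V) ≠ 0 := by
      have : (27 : MvPolynomial (Fin 3) V) = C 27 := by rw [map_ofNat]
      rw [this, Ne, C_eq_zero]
      norm_num
    apply mul_left_cancel₀ h27
    simp only [C_mul, C_pow, map_ofNat] at h108 ⊢
    linear_combination h108
  have hval : ∀ x : Fin 3 → ℤ, 4 * rs V (eval (fun j => ((x j : ℤ) : V)) f) =
      2 ^ n * rs V c'' * ((A * nqq x - B * (nqq x) ^ 2 : ℤ) : kap V) := by
    intro x
    have h5 := congrArg (fun q => rs V (eval (fun j => ((x j : ℤ) : V)) q)) h4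
    simp only [map_add, map_mul, eval_C, map_ofNat, map_pow, ht, zero_mul, mul_zero, add_zero,
      hQr] at h5
    exact h5
  refine ⟨c, hc, f, hf, hsym, hhom, hhf, c'', ?_, by rw [← hp0]; exact hc'', hval⟩
  intro h0
  apply hf0
  have h5 := congrArg (map (rs V)) h4
  simp only [map_add, map_mul, map_C, map_ofNat, map_pow, ht, h0, C_0, zero_mul, mul_zero,
    add_zero] at h5
  have h6 : (4 : MvPolynomial (Fin 3) (kap V)) = 1 := by
    have h7 : (3 : MvPolynomial (Fin 3) (kap V)) = 0 := by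
      have : (3 : MvPolynomial (Fin 3) (kap V)) = C (3 : kap V) := by rw [map_ofNat]
      rw [this, three_zero hV, C_0]
    linear_combination h7
  rw [h6, one_mul] at h5
  exact h5

end Pool.Agent.Helper725_HQ.RR
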