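import Pool.Agent.Helper725_HQ.KEig

/-! The symmetrized polynomial of an eigenform. -/

set_option autoImplicit false
set_option linter.unusedVariables false
set_option linter.unusedSimpArgs false

namespace Pool.Agent.Helper725_HQ.RR

open Quaternion MvPolynomial

section
variable {k : ℕ} {G : Fun1}

/-- the eigenvalue at three if the symmetrized polynomial is zero -/
theorem lam_of_sym (hk : Even k) (hG : Form1 k G) (hG0 : G ≠ 0) {lam : ℂ}
    (he : TL1 3 Pool.Agent.Helper725_HQ.p3 G = lam • G) (h0 : G Oo + lsub LX (G Oo) = 0) :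
    (3 : ℂ) ^ k * lam = -4 * 3 ^ k := by
  have hs := sym_of_form hk hG
  obtain ⟨P, hP⟩ : ∃ P, P = G Oo := ⟨_, rfl⟩
  have hP0 : P ≠ 0 := by
    intro h
    apply hG0
    exact form1_ext hG (by rw [← hP]; exact h)
  have h1 := T3_TT hG
  rw [he, Pi.smul_apply, ← hP] at h1
  rw [← hP] at h0 hs
  have hom := hG.hom Oo
  rw [← hP] at hom
  obtain ⟨x, hx⟩ : ∃ x : Fin 3 → ℂ, eval x P ≠ 0 := by
    by_contra h
    push Not at h
    apply hP0
    apply MvPolynomial.funext
    intro x
    rw [h x, map_zero]
  have key : ∀ i : Fin 4, eval x (lsub (mz (MM i)) P) = -(3 : ℂ) ^ k * eval x P := by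
    intro i
    obtain ⟨y, hy⟩ : ∃ y : Fin 3 → ℂ, y = fun j => ((aa i j : ℤ) : ℂ) * x j := ⟨_, rfl⟩
    have e1 : eval y P = eval x P := by
      apply hs.abs
      intro j
      rw [hy]
      rcases aa_sq i j with h | h
      · left; simp only [h]; push_cast; ring
      · right; simp only [h]; push_cast; ring
    have e2 : eval y (P + lsub LX P) = 0 := by rw [h0, map_zero]
    rw [map_add, eval_lsub, e1] at e2
    have e3 : eval x (lsub (mz (MM i)) P) = eval (fun j => (-3 : ℂ) * ∑ l, LX j l * y l) P := by
      rw [eval_lsub]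
      apply hs.abs
      intro j
      have sq : ∀ l, ((aa i l : ℤ) : ℂ) * ((aa i l : ℤ) : ℂ) = 1 := by
        intro l
        rcases aa_sq i l with h | h <;> rw [h] <;> push_cast <;> ring
      have e4 : (∑ l, mz (MM i) j l * x l : ℂ) =
          ((aa i j : ℤ) : ℂ) * ((-3 : ℂ) * ∑ l, LX j l * y l) := by
        rw [Fin.sum_univ_three, Fin.sum_univ_three, hy]
        unfold mz MM LX
        fin_cases j
        · simp
          linear_combination (3 * x 0) * sq 0
        · simp
          linear_combination (3 * x 1) * sq 1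
        · simp
          linear_combination (3 * x 2) * sq 2
      rw [e4]
      rcases aa_sq i j with h | h
      · left; rw [h]; push_cast; ring
      · right; rw [h]; push_cast; ring
    rw [e3, eval_hom hom, hk.neg_pow]
    linear_combination (3 : ℂ) ^ k * e2
  have h2 := congrArg (eval x) h1
  unfold TT at h2
  rw [map_mul, eval_C, smul_eval, map_sum, Finset.sum_congr rfl (fun i _ => key i),
    Finset.sum_const, Finset.card_univ, Fintype.card_fin] at h2
  have h3 : (3 : ℂ) ^ k * lam = -4 * 3 ^ k := by
    apply mul_right_cancel₀ hx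
    rw [mul_assoc, h2]
    simp
    ring
  exact h3

end

end Pool.Agent.Helper725_HQ.RR
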