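import Pool.Agent.Helper725_HQ.LVal

/-! Second order Taylor expansion of the Hecke operator at three. -/

set_option autoImplicit false
set_option linter.unusedSimpArgs false
set_option linter.unusedVariables false

namespace Pool.Agent.Helper725_HQ.RR

open MvPolynomial

section
variable {R : Type*} [CommRing R] {S : Type*} [CommRing S] [Algebra R S]

/-- first differential -/
noncomputable def D1 (f : MvPolynomial (Fin 3) R) (u v : Fin 3 → S) : S :=
  ∑ j, v j * aeval u (pderiv j f)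

/-- second differential -/
noncomputable def D2 (f : MvPolynomial (Fin 3) R) (u v : Fin 3 → S) : S :=
  ∑ l, v l * D1 (pderiv l f) u v

theorem D1_add (p q : MvPolynomial (Fin 3) R) (u v : Fin 3 → S) :
    D1 (p + q) u v = D1 p u v + D1 q u v := by
  unfold D1
  simp only [map_add, mul_add, Finset.sum_add_distrib]

theorem D1_mulX (p : MvPolynomial (Fin 3) R) (i : Fin 3) (u v : Fin 3 → S) :
    D1 (p * X i) u v = D1 p u v * u i + aeval u p * v i := by
  unfold D1
  have : ∀ j, v j * aeval u (pderiv j (p * X i)) =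
      v j * aeval u (pderiv j p) * u i + (if j = i then aeval u p * v i else 0) := by
    intro j
    rw [Derivation.leibniz, pderiv_X, smul_eq_mul, smul_eq_mul, map_add, map_mul, map_mul,
      aeval_X]
    by_cases h : j = i
    · subst h
      simp only [Pi.single_eq_same, map_one, if_true]
      ring
    · rw [if_neg h, Pi.single_eq_of_ne' h, map_zero]
      ring
  rw [Finset.sum_congr rfl (fun j _ => this j), Finset.sum_add_distrib, Finset.sum_ite_eq',
    if_pos (Finset.mem_univ _), ← Finset.sum_mul]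

theorem D2_mulX (p : MvPolynomial (Fin 3) R) (i : Fin 3) (u v : Fin 3 → S) :
    D2 (p * X i) u v = D2 p u v * u i + 2 * (D1 p u v * v i) := by
  have h1 : ∀ l, v l * D1 (pderiv l (p * X i)) u v =
      v l * D1 (pderiv l p) u v * u i + v l * aeval u (pderiv l p) * v i +
        (if l = i then v i * D1 p u v else 0) := by
    intro l
    rw [Derivation.leibniz, pderiv_X, smul_eq_mul, smul_eq_mul, mul_comm (X i), D1_add, D1_mulX]
    by_cases h : l = i
    · subst h
      simp only [Pi.single_eq_same, mul_one, if_true]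
      ring
    · rw [if_neg h, Pi.single_eq_of_ne' h, mul_zero]
      have : D1 (0 : MvPolynomial (Fin 3) R) u v = 0 := by
        unfold D1
        simp
      rw [this]
      ring
  unfold D2
  rw [Finset.sum_congr rfl (fun l _ => h1 l), Finset.sum_add_distrib, Finset.sum_add_distrib,
    Finset.sum_ite_eq', if_pos (Finset.mem_univ _), ← Finset.sum_mul, ← Finset.sum_mul]
  unfold D1
  ring

theorem taylor2 (f : MvPolynomial (Fin 3) R) (u v : Fin 3 → S) :
    ∃ g : S, 2 * aeval (fun j => u j - 3 * v j) f = 2 * aeval u f -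
      6 * D1 f u v + 9 * D2 f u v + 27 * g := by
  induction f using MvPolynomial.induction_on with
  | C a => exact ⟨0, by simp [D1, D2]⟩
  | add p q hp hq =>
    obtain ⟨g, hg⟩ := hp
    obtain ⟨g', hg'⟩ := hq
    refine ⟨g + g', ?_⟩
    have h2 : D2 (p + q) u v = D2 p u v + D2 q u v := by
      unfold D2
      simp only [map_add, D1_add, mul_add, Finset.sum_add_distrib]
    rw [map_add, map_add, D1_add, h2]
    linear_combination hg + hg'
  | mul_X p i hp =>
    obtain ⟨g, hg⟩ := hp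
    refine ⟨g * (u i - 3 * v i) - D2 p u v * v i, ?_⟩
    rw [map_mul, map_mul, D1_mulX, D2_mulX, aeval_X, aeval_X]
    linear_combination (u i - 3 * v i) * hg

end

section
variable {R : Type*} [CommRing R] {f : MvPolynomial (Fin 3) R} {n : ℕ}

theorem hess_cy (h : Sym f) (j l : Fin 3) :
    eval ![1, 1, 1] (pderiv (j + 1) (pderiv (l + 1) f)) = eval ![1, 1, 1] (pderiv j (pderiv l f)) := by
  have h2 : (fun l : Fin 3 => ∑ m, mz cyZ l m * (![1, 1, 1] : Fin 3 → R) m) = ![1, 1, 1] := by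
    funext l
    rw [Fin.sum_univ_three]
    fin_cases l <;> simp [mz, cyZ]
  have h3 : ∀ q : MvPolynomial (Fin 3) R, eval ![1, 1, 1] (lsub (mz cyZ) q) = eval ![1, 1, 1] q := by
    intro q
    rw [eval_lsub, h2]
  have h4 : ∀ (q : MvPolynomial (Fin 3) R) (l : Fin 3), pderiv (l + 1) (lsub (mz cyZ) q) =
      lsub (mz cyZ) (pderiv l q) := by
    intro q l
    rw [pderiv_lsub, Fin.sum_univ_three]
    fin_cases l <;> simp [mz, cyZ]
  conv_lhs => rw [← h.cy]
  rw [h4, h4, h3]

theorem pd_comm (f : MvPolynomial (Fin 3) R) (j l : Fin 3) :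
    pderiv j (pderiv l f) = pderiv l (pderiv j f) := by
  induction f using MvPolynomial.induction_on with
  | C a => simp
  | add p q hp hq => simp only [map_add, hp, hq]
  | mul_X p i hp =>
    simp only [Derivation.leibniz, pderiv_X, smul_eq_mul, map_add, hp]
    have e : ∀ a b : Fin 3, pderiv a ((Pi.single b 1 : Fin 3 → MvPolynomial (Fin 3) R) i) = 0 := by
      intro a b
      by_cases h : i = b
      · subst h; simp
      · rw [Pi.single_eq_of_ne h, map_zero]
    rw [e, e]
    ring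

/-- the Hessian of a harmonic polynomial at the diagonal vector -/
theorem hess [IsDomain R] [CharZero R] (h : Sym f) (hh : ∑ i, pderiv i (pderiv i f) = 0)
    (j l : Fin 3) : eval ![1, 1, 1] (pderiv j (pderiv l f)) =
      if j = l then 0 else eval ![1, 1, 1] (pderiv 1 (pderiv 0 f)) := by
  have a1 := hess_cy h 0 0
  have a2 := hess_cy h 1 1
  have b1 := hess_cy h 1 0
  have b2 := hess_cy h 2 1
  have c1 := congrArg (eval ![1, 1, 1]) (pd_comm f 1 0)
  have c2 := congrArg (eval ![1, 1, 1]) (pd_comm f 2 1)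
  have c3 := congrArg (eval ![1, 1, 1]) (pd_comm f 0 2)
  have d1 := congrArg (eval ![1, 1, 1]) hh
  rw [map_sum, Fin.sum_univ_three, map_zero] at d1
  have e1 : (0 : Fin 3) + 1 = 1 := rfl
  have e2 : (1 : Fin 3) + 1 = 2 := rfl
  have e3 : (2 : Fin 3) + 1 = 0 := rfl
  rw [e1] at a1
  rw [e2] at a2
  rw [e2, e1] at b1
  rw [e3, e2] at b2
  have d2 : eval ![1, 1, 1] (pderiv 0 (pderiv 0 f)) = 0 := by
    have h3 : (3 : R) * eval ![1, 1, 1] (pderiv 0 (pderiv 0 f)) = 0 := by
      linear_combination d1 - 2 * a1 - a2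
    exact (mul_eq_zero.1 h3).resolve_left (by norm_num)
  fin_cases j <;> fin_cases l
  · exact d2
  · exact c1.symm
  · exact b2.trans b1
  · rfl
  · exact a1.trans d2
  · exact c2.symm.trans b1
  · exact c3.symm.trans (b2.trans b1)
  · exact b1
  · exact a2.trans (a1.trans d2)

/-- the two relations between the derivatives at the diagonal vector -/
theorem rel_mu (hf : f.IsHomogeneous (n + 2)) (h : Sym f) :
    3 * eval ![1, 1, 1] (pderiv 0 f) = ((n : R) + 2) * eval ![1, 1, 1] f := by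
  have h1 := euler_eval hf ![1, 1, 1]
  rw [Fin.sum_univ_three, h.grad 1 1, h.grad 1 2] at h1
  push_cast at h1
  rw [← h1]
  simp
  ring

theorem rel_be [IsDomain R] [CharZero R] (hf : f.IsHomogeneous (n + 2)) (h : Sym f)
    (hh : ∑ i, pderiv i (pderiv i f) = 0) :
    2 * eval ![1, 1, 1] (pderiv 1 (pderiv 0 f)) = ((n : R) + 1) * eval ![1, 1, 1] (pderiv 0 f) := by
  have h0 : (pderiv 0 f).IsHomogeneous (n + 1) := hf.pderiv
  have h1 := euler_eval h0 ![1, 1, 1]
  rw [Fin.sum_univ_three, hess h hh 0 0, hess h hh 2 0, if_pos rfl, if_neg (by decide)] at h1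
  push_cast at h1
  rw [← h1]
  simp
  ring

theorem alg0 {A : Type*} [CommRing A] {M s N p μ β g a : A} {n : ℕ}
    (hg : 2 * M = 2 * (2 ^ (n + 2) * p * s ^ (n + 2)) - 6 * (2 ^ (n + 1) * μ * s ^ (n + 2)) +
      9 * (2 ^ n * β * s ^ n * (s ^ 2 - N)) + 27 * g)
    (h1 : 3 * μ = (a + 2) * p) (h2 : 2 * β = (a + 1) * μ) :
    4 * M = 2 ^ n * p * ((16 - 8 * (a + 2) + 3 * (a + 2) * (a + 1)) * s ^ (n + 2) -
      3 * (a + 2) * (a + 1) * (N * s ^ n)) + 54 * g := by
  rw [pow_add s n 2, pow_add (2 : A) n 2, pow_add (2 : A) n 1] at hg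
  rw [pow_add s n 2]
  generalize (2 : A) ^ n = t at hg ⊢
  generalize s ^ n = u at hg ⊢
  linear_combination 2 * hg - (8 * t * (u * s ^ 2)) * h1 + (9 * t * u * (s ^ 2 - N)) * h2 +
    (3 * t * u * (s ^ 2 - N) * (a + 1)) * h1

/-- squared norm -/
noncomputable def NN : MvPolynomial (Fin 3) R := ∑ j, X j ^ 2

theorem sum_off : ∑ l : Fin 3, (X l : MvPolynomial (Fin 3) R) * ∑ j : Fin 3, (if j = l then 0 else X j) =
    (X 0 + X 1 + X 2) ^ 2 - NN := by
  have e : ∀ l : Fin 3, (X l : MvPolynomial (Fin 3) R) * ∑ j : Fin 3, (if j = l then 0 else X j) =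
      X l * ((X 0 + X 1 + X 2) - X l) := by
    intro l
    rw [Fin.sum_univ_three]
    fin_cases l <;> simp <;> ring
  rw [Finset.sum_congr rfl (fun l _ => e l)]
  unfold NN
  rw [Fin.sum_univ_three, Fin.sum_univ_three]
  ring

theorem TT_expand0 [IsDomain R] [CharZero R] (hf : f.IsHomogeneous (n + 2)) (h : Sym f)
    (hh : ∑ i, pderiv i (pderiv i f) = 0) :
    ∃ g : MvPolynomial (Fin 3) R, 4 * lsub (mz (MM 0)) f =
      C (2 ^ n * eval ![1, 1, 1] f) *
        (C (16 - 8 * ((n : R) + 2) + 3 * ((n : R) + 2) * ((n : R) + 1)) * (lf (aa 0)) ^ (n + 2) -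
          C (3 * ((n : R) + 2) * ((n : R) + 1)) * (NN * (lf (aa 0)) ^ n)) + 54 * g := by
  have hmu := rel_mu hf h
  have hbe := rel_be hf h hh
  obtain ⟨p0, hp0⟩ : ∃ p0, p0 = eval ![1, 1, 1] f := ⟨_, rfl⟩
  obtain ⟨μ, hμ⟩ : ∃ μ, μ = eval ![1, 1, 1] (pderiv 0 f) := ⟨_, rfl⟩
  obtain ⟨β, hβ⟩ : ∃ β, β = eval ![1, 1, 1] (pderiv 1 (pderiv 0 f)) := ⟨_, rfl⟩
  rw [← hμ, ← hp0] at hmu
  rw [← hμ, ← hβ] at hbe
  obtain ⟨g, hg⟩ := taylor2 (S := MvPolynomial (Fin 3) R) f
    (fun j => ∑ l, C (2 * ((aa 0 j : ℤ) : R) * ((aa 0 l : ℤ) : R)) * X l) (fun j => X j)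
  refine ⟨g, ?_⟩
  have e1 : lsub (mz (MM 0)) f = aeval (fun j =>
      (∑ l, C (2 * ((aa 0 j : ℤ) : R) * ((aa 0 l : ℤ) : R)) * X l) - 3 * X j) f := by
    unfold lsub
    congr 1
    congr 1
    funext j
    have : ∀ l, C (mz (MM 0) j l) * (X l : MvPolynomial (Fin 3) R) =
        C (2 * ((aa 0 j : ℤ) : R) * ((aa 0 l : ℤ) : R)) * X l - (if j = l then 3 * X j else 0) := by
      intro l
      unfold mz MM
      split_ifs with hjl
      · subst hjl
        push_cast
        rw [C_sub, sub_mul]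
        congr 1
      · simp
    rw [Finset.sum_congr rfl (fun l _ => this l), Finset.sum_sub_distrib, Finset.sum_ite_eq,
      if_pos (Finset.mem_univ _)]
  have e2 : ∀ (q : MvPolynomial (Fin 3) R) (m : ℕ), q.IsHomogeneous m →
      aeval (fun j => ∑ l, C (2 * ((aa 0 j : ℤ) : R) * ((aa 0 l : ℤ) : R)) *
        (X l : MvPolynomial (Fin 3) R)) q = C (2 ^ m * eval ![1, 1, 1] q) * (lf (aa 0)) ^ m := by
    intro q m hq
    have := lsub_rank_one hq (fun j => 2 * ((aa 0 j : ℤ) : R)) (fun l => ((aa 0 l : ℤ) : R))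
    unfold lsub at this
    rw [this]
    have e3 : eval (fun j => 2 * ((aa 0 j : ℤ) : R)) q = 2 ^ m * eval ![1, 1, 1] q := by
      rw [← eval_two hq]
      congr 2
      funext j
      fin_cases j <;> simp [aa]
    rw [e3]
    rfl
  have hs : lf (aa 0) = (X 0 + X 1 + X 2 : MvPolynomial (Fin 3) R) := by
    unfold lf
    rw [Fin.sum_univ_three]
    simp [aa]
  have hd1 : D1 f (fun j => ∑ l, C (2 * ((aa 0 j : ℤ) : R) * ((aa 0 l : ℤ) : R)) *
      (X l : MvPolynomial (Fin 3) R)) (fun j => X j) = C (2 ^ (n + 1) * μ) * (lf (aa 0)) ^ (n + 2) := by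
    unfold D1
    have e4 : ∀ j : Fin 3, X j * aeval (fun j => ∑ l, C (2 * ((aa 0 j : ℤ) : R) *
        ((aa 0 l : ℤ) : R)) * (X l : MvPolynomial (Fin 3) R)) (pderiv j f) =
        C (2 ^ (n + 1) * μ) * (lf (aa 0)) ^ (n + 1) * X j := by
      intro j
      have hj : (pderiv j f).IsHomogeneous (n + 1) := hf.pderiv
      rw [e2 _ (n + 1) hj, h.grad 1 j, ← hμ]
      ring
    rw [Finset.sum_congr rfl (fun j _ => e4 j), ← Finset.mul_sum, Fin.sum_univ_three, ← hs]
    ring
  have hd2 : D2 f (fun j => ∑ l, C (2 * ((aa 0 j : ℤ) : R) * ((aa 0 l : ℤ) : R)) *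
      (X l : MvPolynomial (Fin 3) R)) (fun j => X j) =
      C (2 ^ n * β) * (lf (aa 0)) ^ n * ((lf (aa 0)) ^ 2 - NN) := by
    unfold D2 D1
    have e4 : ∀ l j : Fin 3, X j * aeval (fun j => ∑ l, C (2 * ((aa 0 j : ℤ) : R) *
        ((aa 0 l : ℤ) : R)) * (X l : MvPolynomial (Fin 3) R)) (pderiv j (pderiv l f)) =
        C (2 ^ n * β) * (lf (aa 0)) ^ n * (if j = l then 0 else X j) := by
      intro l j
      have hj : (pderiv j (pderiv l f)).IsHomogeneous n := by
        have h1 : (pderiv l f).IsHomogeneous (n + 1) := hf.pderiv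
        exact h1.pderiv
      rw [e2 _ n hj, hess h hh j l]
      split_ifs with h1
      · simp
      · rw [← hβ]
        ring
    have e5 : ∀ l : Fin 3, (X l : MvPolynomial (Fin 3) R) * ∑ j, X j * aeval (fun j => ∑ l, C (2 * ((aa 0 j : ℤ) : R) *
        ((aa 0 l : ℤ) : R)) * (X l : MvPolynomial (Fin 3) R)) (pderiv j (pderiv l f)) =
        C (2 ^ n * β) * (lf (aa 0)) ^ n * (X l * ∑ j, (if j = l then 0 else X j)) := by
      intro l
      rw [Finset.sum_congr rfl (fun j _ => e4 l j), ← Finset.mul_sum]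
      ring
    rw [Finset.sum_congr rfl (fun l _ => e5 l), ← Finset.mul_sum]
    rw [hs, sum_off]
  rw [hd1, hd2, e2 f (n + 2) hf, ← hp0, ← e1] at hg
  rw [← hp0]
  have hmuC : (3 : MvPolynomial (Fin 3) R) * C μ = ((n : MvPolynomial (Fin 3) R) + 2) * C p0 := by
    have h1 := congrArg (C : R → MvPolynomial (Fin 3) R) hmu
    simp only [C_mul, C_add, map_ofNat, map_natCast, map_one] at h1
    exact h1
  have hbeC : (2 : MvPolynomial (Fin 3) R) * C β = ((n : MvPolynomial (Fin 3) R) + 1) * C μ := by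
    have h1 := congrArg (C : R → MvPolynomial (Fin 3) R) hbe
    simp only [C_mul, C_add, map_ofNat, map_natCast, map_one] at h1
    exact h1
  simp only [C_mul, C_pow, C_sub, C_add, map_ofNat, map_natCast, map_one] at hg ⊢
  exact alg0 hg hmuC hbeC

/-- composition of integral substitutions -/
theorem mz_comp {A B M : Fin 3 → Fin 3 → ℤ} (P : MvPolynomial (Fin 3) R)
    (hM : ∀ i j, ∑ l, B i l * A l j = M i j) :
    lsub (mz A) (lsub (mz B) P) = lsub (mz M) P := by
  rw [lsub_lsub]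
  have : (mz M : Fin 3 → Fin 3 → R) = fun i j => ∑ l, mz B i l * mz A l j := by
    funext i j
    unfold mz
    rw [← hM i j]
    push_cast
    rfl
  rw [this]

/-- the diagonal matrices -/
def DD (i : Fin 4) : Fin 3 → Fin 3 → ℤ := dg (aa i 0) (aa i 1) (aa i 2)

theorem DD_fix (h : Sym f) (i : Fin 4) : lsub (mz (DD i)) f = f := by
  obtain ⟨f0, f1, f2⟩ := h.flips
  fin_cases i
  · show lsub (mz (dg 1 1 1)) f = f
    rw [← lsub_id f]
    have e : (mz (dg 1 1 1) : Fin 3 → Fin 3 → R) = fun i j => if i = j then 1 else 0 := by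
      funext i j
      fin_cases i <;> fin_cases j <;> simp [mz, dg]
    rw [e, lsub_id, lsub_id]
  · exact f0
  · exact f1
  · exact f2

theorem TT_expand2 [IsDomain R] [CharZero R] (hf : f.IsHomogeneous (n + 2)) (h : Sym f)
    (hh : ∑ i, pderiv i (pderiv i f) = 0) :
    ∃ g : MvPolynomial (Fin 3) R, 4 * TT f =
      C (2 ^ n * eval ![1, 1, 1] f) *
        (C (16 - 8 * ((n : R) + 2) + 3 * ((n : R) + 2) * ((n : R) + 1)) * SS (n + 2) -
          C (3 * ((n : R) + 2) * ((n : R) + 1)) * (NN * SS n)) + 54 * g := by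
  obtain ⟨g, hg⟩ := TT_expand0 hf h hh
  refine ⟨∑ i, lsub (mz (DD i)) g, ?_⟩
  have key : ∀ i : Fin 4, 4 * lsub (mz (MM i)) f = C (2 ^ n * eval ![1, 1, 1] f) *
        (C (16 - 8 * ((n : R) + 2) + 3 * ((n : R) + 2) * ((n : R) + 1)) * (lf (aa i)) ^ (n + 2) -
          C (3 * ((n : R) + 2) * ((n : R) + 1)) * (NN * (lf (aa i)) ^ n)) +
            54 * lsub (mz (DD i)) g := by
    intro i
    have e1 : lsub (mz (MM i)) f = lsub (mz (DD i)) (lsub (mz (MM 0)) f) := by
      conv_rhs => rw [← DD_fix h i]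
      rw [mz_comp (M := fun a b => ∑ l, DD i a l * MM 0 l b) f (fun _ _ => rfl),
        mz_comp (M := MM i) f (by revert i; decide)]
    have e2 : lsub (mz (DD i)) (lf (aa 0)) = (lf (aa i) : MvPolynomial (Fin 3) R) := by
      unfold lf
      rw [map_sum]
      simp only [map_mul, lsub_C, lsub_X]
      rw [Fin.sum_univ_three, Fin.sum_univ_three, Fin.sum_univ_three, Fin.sum_univ_three,
        Fin.sum_univ_three]
      fin_cases i <;> simp [mz, DD, dg, aa]
    have e3 : lsub (mz (DD i)) NN = (NN : MvPolynomial (Fin 3) R) := by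
      unfold NN
      rw [map_sum]
      simp only [map_pow, lsub_X]
      rw [Fin.sum_univ_three, Fin.sum_univ_three, Fin.sum_univ_three, Fin.sum_univ_three,
        Fin.sum_univ_three]
      fin_cases i <;> simp [mz, DD, dg, aa]
    have h1 := congrArg (lsub (mz (DD i))) hg
    simp only [map_mul, map_add, map_sub, map_pow, lsub_C, e2, e3, map_ofNat] at h1
    rw [e1, h1]
    simp only [map_mul, map_add, map_sub, map_pow, map_ofNat]
  unfold TT SS
  rw [Finset.mul_sum, Finset.sum_congr rfl (fun i _ => key i), Finset.sum_add_distrib,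
    ← Finset.mul_sum, ← Finset.mul_sum, Finset.sum_sub_distrib, ← Finset.mul_sum,
    ← Finset.mul_sum, ← Finset.mul_sum]

end

end Pool.Agent.Helper725_HQ.RR
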