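import Pool.Agent.Helper725_HQ.MSlo

/-! Values of eigenforms of slope less than three. -/

set_option autoImplicit false
set_option linter.unusedSimpArgs false
set_option linter.unusedVariables false

namespace Pool.Agent.Helper725_HQ.RR

open Quaternion MvPolynomial

theorem taylor2_diag {R : Type*} [CommRing R] [IsDomain R] [CharZero R]
    {f : MvPolynomial (Fin 3) R} {n : ℕ} (hf : f.IsHomogeneous (n + 2)) (h : Sym f)
    (hh : ∑ i, pderiv i (pderiv i f) = 0) (y : Fin 3 → R) :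
    ∃ g : R, 4 * eval (fun j => 1 + 3 * y j) f = eval ![1, 1, 1] f *
      (4 + 4 * ((n : R) + 2) * (y 0 + y 1 + y 2) + 3 * ((n : R) + 2) * ((n : R) + 1) *
        ((y 0 + y 1 + y 2) ^ 2 - (y 0 ^ 2 + y 1 ^ 2 + y 2 ^ 2))) + 54 * g := by
  have hmu := rel_mu hf h
  have hbe := rel_be hf h hh
  obtain ⟨g, hg⟩ := taylor2 (S := R) f ![1, 1, 1] (fun j => -y j)
  refine ⟨g, ?_⟩
  have e : ∀ z : Fin 3 → R, ∀ q : MvPolynomial (Fin 3) R, aeval z q = eval z q := by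
    intro z q
    rfl
  have h1 : (fun j => (![1, 1, 1] : Fin 3 → R) j - 3 * (fun j => -y j) j) =
      fun j => 1 + 3 * y j := by
    funext j
    fin_cases j <;> simp
  have hd1 : D1 f (![1, 1, 1] : Fin 3 → R) (fun j => -y j) =
      -(y 0 + y 1 + y 2) * eval ![1, 1, 1] (pderiv 0 f) := by
    unfold D1
    simp only [e]
    rw [Fin.sum_univ_three, h.grad 1 1, h.grad 1 2]
    ring
  have hd2 : D2 f (![1, 1, 1] : Fin 3 → R) (fun j => -y j) =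
      ((y 0 + y 1 + y 2) ^ 2 - (y 0 ^ 2 + y 1 ^ 2 + y 2 ^ 2)) *
        eval ![1, 1, 1] (pderiv 1 (pderiv 0 f)) := by
    have h2 := fun j l => hess h hh j l
    generalize eval ![1, 1, 1] (pderiv 1 (pderiv 0 f)) = β at h2 ⊢
    unfold D2 D1
    have h3 : ∀ j l : Fin 3, aeval (![1, 1, 1] : Fin 3 → R) (pderiv j (pderiv l f)) =
        if j = l then 0 else β := h2
    simp only [h3]
    rw [Fin.sum_univ_three, Fin.sum_univ_three, Fin.sum_univ_three, Fin.sum_univ_three]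
    simp
    ring
  rw [h1, e, e, hd1, hd2] at hg
  linear_combination 2 * hg + (4 * (y 0 + y 1 + y 2)) * hmu +
    (9 * ((y 0 + y 1 + y 2) ^ 2 - (y 0 ^ 2 + y 1 ^ 2 + y 2 ^ 2))) * hbe +
    (3 * ((y 0 + y 1 + y 2) ^ 2 - (y 0 ^ 2 + y 1 ^ 2 + y 2 ^ 2)) * ((n : R) + 1)) * hmu

theorem nd3 {X : ℤ} (h : ((X : ℤ) : ZMod 3) ≠ 0) : ¬ (3 : ℤ) ∣ X := by
  intro h1
  exact h ((ZMod.intCast_zmod_eq_zero_iff_dvd X 3).2 (by exact_mod_cast h1))

theorem z3 {m : ℕ} {r : ℕ} (h : m % 3 = r) : ((m : ℕ) : ZMod 3) = ((r : ℕ) : ZMod 3) := by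
  rw [← h, ZMod.natCast_mod]

/-- the coefficients -/
theorem coefs {n : ℕ} : ∃ e A B : ℤ, e ≠ 0 ∧
    16 - 8 * ((n : ℤ) + 2) + 3 * ((n : ℤ) + 2) * ((n : ℤ) + 1) = e * A ∧
    3 * ((n : ℤ) + 2) * ((n : ℤ) + 1) = e * B ∧
    (∃ x : Fin 3 → ℤ, ¬ (3 : ℤ) ∣ A * nqq x - B * (nqq x) ^ 2) ∧
    (∀ d : ℕ, d % 3 = 1 → (n + 2) % 9 ≠ 2 → ¬ (3 : ℤ) ∣ A * d - B * (d : ℤ) ^ 2) ∧
    (∀ d : ℕ, d % 3 = 2 → (n + 2) % 9 ≠ 8 → ¬ (3 : ℤ) ∣ A * d - B * (d : ℤ) ^ 2) := by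
  have n1 : nqq ![1, 0, 0] = 1 := rfl
  have n2 : nqq ![1, 1, 0] = 2 := rfl
  by_cases h3 : n % 3 = 0
  · obtain ⟨m, rfl⟩ : ∃ m, n = 3 * m := ⟨n / 3, by omega⟩
    refine ⟨3, 2 + m + 9 * (m : ℤ) ^ 2, (2 + 3 * m) * (1 + 3 * m), by norm_num, by push_cast; ring,
      by push_cast; ring, ?_, ?_, ?_⟩
    · by_cases hm : m % 3 = 0
      · refine ⟨![1, 1, 0], nd3 ?_⟩
        rw [n2]
        push_cast
        rw [z3 hm]
        decide
      · refine ⟨![1, 0, 0], nd3 ?_⟩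
        rw [n1]
        push_cast
        have hm' : m % 3 = 1 ∨ m % 3 = 2 := by omega
        rcases hm' with hm | hm <;> rw [z3 hm] <;> decide
    · intro d hd h9
      apply nd3
      push_cast
      have hm' : m % 3 = 1 ∨ m % 3 = 2 := by omega
      rw [z3 hd]
      rcases hm' with hm | hm <;> rw [z3 hm] <;> decide
    · intro d hd h9
      apply nd3
      push_cast
      have hm' : m % 3 = 0 ∨ m % 3 = 1 := by omega
      rw [z3 hd]
      rcases hm' with hm | hm <;> rw [z3 hm] <;> decide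
  · have hm' : n % 3 = 1 ∨ n % 3 = 2 := by omega
    refine ⟨1, _, _, one_ne_zero, (one_mul _).symm, (one_mul _).symm, ?_, ?_, ?_⟩
    · refine ⟨![1, 0, 0], nd3 ?_⟩
      rw [n1]
      push_cast
      rcases hm' with hm | hm <;> rw [z3 hm] <;> decide
    · intro d hd h9
      apply nd3
      push_cast
      rw [z3 hd]
      rcases hm' with hm | hm <;> rw [z3 hm] <;> decide
    · intro d hd h9
      apply nd3
      push_cast
      rw [z3 hd]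
      rcases hm' with hm | hm <;> rw [z3 hm] <;> decide

theorem slope_val2 {V : ValuationSubring ℂ} (hV : Thr V) {k : ℕ} (hk : Even k) (hk4 : 4 ≤ k)
    {F : Fun1} (hF : Form1 k F) (hh : ∑ i, pderiv i (pderiv i (F Oo)) = 0) (hF0 : F ≠ 0) {lam : ℂ}
    (he : TL1 3 p3 F = lam • F) {t : V} (ht : rs V t = 0)
    (hlt : (3 : ℂ) ^ k * lam * (t : ℂ) = 27) {d : ℕ}
    (hgood : d % 3 = 1 ∧ k % 9 ≠ 2 ∨ d % 3 = 2 ∧ k % 9 ≠ 8 ∨ d % 9 = 3) :
    ∃ c : ℂ, ∃ r : kap V, r ≠ 0 ∧ ∀ x : Fin 3 → ℤ, x 0 ^ 2 + x 1 ^ 2 + x 2 ^ 2 = (d : ℤ) →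
      ∃ v : V, c * ev (F Oo) (pq x) = (v : ℂ) ∧ rs V v = r := by
  obtain ⟨n, rfl⟩ : ∃ n, k = n + 2 := ⟨k - 2, by omega⟩
  have hn : Even n := by
    obtain ⟨m, hm⟩ := hk
    exact ⟨m - 1, by omega⟩
  obtain ⟨e, A, B, he0, hA, hB, hx, hd1, hd2⟩ := coefs (n := n)
  obtain ⟨c, hc, f, hf, hsym, hhom, hhf, c'', hc'', hp, hval⟩ :=
    slope_gen hV hn (by omega) hF hh hF0 he ht hlt hA hB hx
  have hev : ∀ x : Fin 3 → ℤ, c * ev (F Oo) (pq x) =
      ((eval (fun j => ((x j : ℤ) : V)) f : V) : ℂ) := by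
    intro x
    rw [← ev_map, hf, ← smul_eq_C_mul, ev_smul]
  by_cases h3 : d % 9 = 3
  · obtain ⟨c0, hc0⟩ : ∃ c0 : ℂ, c0 = 4 * (e : ℂ) * t / 27 := ⟨_, rfl⟩
    refine ⟨c0 * c, rs V c'' * ((4 : ℤ) : kap V), mul_ne_zero hc'' (rs_int_ne hV (by norm_num)), ?_⟩
    intro x hx
    have h9 : ¬ 9 ∣ d := by omega
    obtain ⟨y, hy⟩ := ram_form hx (by omega) h9
    obtain ⟨g, hg⟩ := taylor2_diag hhom hsym hhf (fun j => ((y j : ℤ) : V))
    have e1 : eval (fun j => ((x j : ℤ) : V)) f = eval (fun j => 1 + 3 * ((y j : ℤ) : V)) f := by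
      apply hsym.abs
      intro j
      rcases hy j with h | h
      · left; rw [h]; push_cast; rfl
      · right; rw [h]; push_cast; rfl
    rw [← e1] at hg
    obtain ⟨w, hw⟩ : ∃ w : V, w = c'' * (4 + 4 * ((n : V) + 2) * (((y 0 : ℤ) : V) + ((y 1 : ℤ) : V) +
      ((y 2 : ℤ) : V)) + 3 * ((n : V) + 2) * ((n : V) + 1) * ((((y 0 : ℤ) : V) + ((y 1 : ℤ) : V) +
      ((y 2 : ℤ) : V)) ^ 2 - (((y 0 : ℤ) : V) ^ 2 + ((y 1 : ℤ) : V) ^ 2 + ((y 2 : ℤ) : V) ^ 2))) +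
      2 * ((e : V) * t * g) := ⟨_, rfl⟩
    have h27 : 27 * w = 4 * (e : V) * t * eval (fun j => ((x j : ℤ) : V)) f := by
      rw [hw]
      linear_combination (-((e : V) * t)) * hg - (4 + 4 * ((n : V) + 2) * (((y 0 : ℤ) : V) + ((y 1 : ℤ) : V) +
        ((y 2 : ℤ) : V)) + 3 * ((n : V) + 2) * ((n : V) + 1) * ((((y 0 : ℤ) : V) + ((y 1 : ℤ) : V) +
        ((y 2 : ℤ) : V)) ^ 2 - (((y 0 : ℤ) : V) ^ 2 + ((y 1 : ℤ) : V) ^ 2 + ((y 2 : ℤ) : V) ^ 2))) * hp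
    refine ⟨w, ?_, ?_⟩
    · rw [mul_assoc, hev, hc0]
      have h28 := congrArg V.subtype h27
      rw [map_mul, map_mul, map_mul, map_mul, map_ofNat, map_ofNat, map_intCast] at h28
      have h29 : (27 : ℂ) * (w : ℂ) = 4 * (e : ℂ) * t *
        ((eval (fun j => ((x j : ℤ) : V)) f : V) : ℂ) := h28
      rw [div_mul_eq_mul_div, ← h29]
      field_simp
    · have hs : (x 0 ^ 2 + x 1 ^ 2 + x 2 ^ 2 : ℤ) = 3 + 6 * (y 0 + y 1 + y 2) +
          9 * (y 0 ^ 2 + y 1 ^ 2 + y 2 ^ 2) := by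
        have q : ∀ j, x j ^ 2 = (1 + 3 * y j) ^ 2 := by
          intro j
          rcases hy j with h | h
          · rw [h]
          · rw [h, neg_sq]
        rw [q 0, q 1, q 2]
        ring
      rw [hx] at hs
      have h5 : (y 0 + y 1 + y 2) % 3 = 0 % 3 := by
        have : (d : ℤ) % 9 = 3 := by omega
        omega
      have h6 := cast_mod hV h5
      push_cast at h6
      rw [hw]
      simp only [map_add, map_mul, map_sub, map_pow, map_ofNat, map_natCast, map_intCast, map_one,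
        ht, h6, three_zero hV]
      push_cast
      ring
  · have h3' : ¬ (3 : ℤ) ∣ A * d - B * (d : ℤ) ^ 2 := by
      rcases hgood with ⟨h1, h2⟩ | ⟨h1, h2⟩ | h
      · exact hd1 d h1 h2
      · exact hd2 d h1 h2
      · exact absurd h h3
    refine ⟨4 * c, 2 ^ n * rs V c'' * ((A * d - B * (d : ℤ) ^ 2 : ℤ) : kap V), ?_, ?_⟩
    · apply mul_ne_zero (mul_ne_zero (pow_ne_zero _ ?_) hc'') (rs_int_ne hV h3')
      have := rs_int_ne hV (n := 2) (by norm_num)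
      exact_mod_cast this
    · intro x hx
      refine ⟨4 * eval (fun j => ((x j : ℤ) : V)) f, ?_, ?_⟩
      · rw [mul_assoc, hev]
        rfl
      · rw [map_mul, map_ofNat, hval]
        have : nqq x = (d : ℤ) := hx
        rw [this]

end Pool.Agent.Helper725_HQ.RR
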