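import Pool.Agent.Helper725_HQ.KUni
import Pool.Agent.Helper725_HQ.MVal
import Pool.Agent.Helper725_HQ.MDefs
import Pool.Agent.Helper725_HQ.MSym

/-! Simultaneous nonvanishing of the periods of all eigenforms of conductor two of slope less than
three and of conductor four of slope one at three. -/

set_option autoImplicit false
set_option linter.unusedSimpArgs false
set_option linter.unnecessarySeqFocus false

namespace Pool.Agent.Helper725_HQ

open Quaternion MvPolynomial NumberField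
open scoped nonZeroDivisors

section
variable {k : ℕ} {F : AddSubgroup ℍ[ℚ] → AddSubgroup ℍ[ℚ] → MvPolynomial (Fin 3) ℂ}

theorem formS_two (h : IsFormS 2 k F) : IsForm1 k (fun I => F I I) := by
  have pr : ∀ {I : AddSubgroup ℍ[ℚ]}, IsRI I → PairC 2 I I := fun hI => pairC_two.2 ⟨hI, rfl⟩
  refine ⟨?_, fun I => h.hom _ _, fun I => h.harm _ _, ?_, ?_⟩
  · intro I hI
    apply h.supp
    intro h1
    exact hI (pairC_two.1 h1).1
  · intro α hα I hI x
    exact h.left α hα I I (pr hI) x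
  · intro I hI
    exact h.two I I (pr hI)

theorem slopeD_of (c : ℕ) (h : SlopeC c k F) : SlopeD c k F := by
  obtain ⟨V, hV, lam, hl, hv⟩ := h.slope
  exact ⟨h.form, h.ne_zero, h.eigen, V, hV, lam, hl, Or.inl hv⟩

theorem slopeD_four (h : SlopeD 4 k F) : SlopeC 4 k F := by
  obtain ⟨V, hV, lam, hl, hv⟩ := h.slope
  refine ⟨h.form, h.ne_zero, h.eigen, V, hV, lam, hl, ?_⟩
  rcases hv with hv | ⟨h1, _⟩
  · exact hv
  · omega

end

theorem sq_one_m {d : ℕ} (h : d % 3 = 1) : IsSquare (-(d : ℚ_[3]) * (-1)) := by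
  have h1 := Pool.Agent.Helper725_DH.isSquare_odd (p := 3) (by norm_num) (1 : ℤ_[3])
    ((((d / 3 : ℕ) : ℤ)) : ℤ_[3]) (by simp)
  have e : (((1 : ℤ_[3]) ^ 2 + ((3 : ℕ) : ℤ_[3]) * ((((d / 3 : ℕ) : ℤ)) : ℤ_[3]) : ℤ_[3]) : ℚ_[3]) =
      -(d : ℚ_[3]) * (-1) := by
    have h5 : (d : ℚ_[3]) = 1 + 3 * ((d / 3 : ℕ) : ℚ_[3]) := by
      have : d = 1 + 3 * (d / 3) := by omega
      exact_mod_cast congrArg (Nat.cast : ℕ → ℚ_[3]) this
    generalize ((d / 3 : ℕ)) = m at h5 ⊢
    rw [h5]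
    push_cast
    have h6 : ((3 : ℤ_[3]) : ℚ_[3]) = 3 := rfl
    rw [h6]
    ring
  rw [e] at h1
  exact h1

theorem sq_two_p {d : ℕ} (h : d % 3 = 2) : IsSquare (-(d : ℚ_[3]) * 1) := by
  have h1 := Pool.Agent.Helper725_DH.isSquare_odd (p := 3) (by norm_num) (1 : ℤ_[3])
    (((-1 - (d / 3 : ℕ) : ℤ)) : ℤ_[3]) (by simp)
  have e : (((1 : ℤ_[3]) ^ 2 + ((3 : ℕ) : ℤ_[3]) * (((-1 - (d / 3 : ℕ) : ℤ)) : ℤ_[3]) : ℤ_[3]) : ℚ_[3]) =
      -(d : ℚ_[3]) * 1 := by
    have h5 : (d : ℚ_[3]) = 2 + 3 * ((d / 3 : ℕ) : ℚ_[3]) := by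
      have : d = 2 + 3 * (d / 3) := by omega
      exact_mod_cast congrArg (Nat.cast : ℕ → ℚ_[3]) this
    generalize ((d / 3 : ℕ)) = m at h5 ⊢
    rw [h5]
    push_cast
    have h6 : ((3 : ℤ_[3]) : ℚ_[3]) = 3 := rfl
    rw [h6]
    ring
  rw [e] at h1
  exact h1

theorem small_of_val {V : ValuationSubring ℂ} {a : ℂ} (h : V.valuation a < 1) :
    ∃ t : V, (t : ℂ) = a ∧ rs V t = 0 := by
  have h1 : a ∈ V := (ValuationSubring.valuation_le_one_iff V a).1 h.le
  refine ⟨⟨a, h1⟩, rfl, ?_⟩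
  rw [rs_eq_zero]
  intro h2
  have h3 : (⟨a, h1⟩ : V) ∈ IsLocalRing.maximalIdeal V :=
    (ValuationSubring.valuation_lt_one_iff V ⟨a, h1⟩).2 h
  exact (IsLocalRing.mem_maximalIdeal _).1 h3 h2

/-- the symmetrized polynomial is not zero for an eigenform of slope less than three -/
theorem sym_ne2 {k : ℕ} {G : Fun1} (hk : Even k) {V : ValuationSubring ℂ} (hV : Thr V) (hk4 : 4 ≤ k)
    (hG : Form1 k G) (hG0 : G ≠ 0) {lam : ℂ} (he : TL1 3 p3 G = lam • G) {t : V}
    (ht : rs V t = 0) (hlt : (3 : ℂ) ^ k * lam * (t : ℂ) = 27) :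
    G Oo + lsub RR.LX (G Oo) ≠ 0 := by
  intro h0
  have h3 := RR.lam_of_sym hk hG hG0 he h0
  obtain ⟨m, rfl⟩ : ∃ m, k = m + 3 := ⟨k - 3, by omega⟩
  rw [h3] at hlt
  have h4 : ((-4 : V) * 3 ^ m * t) = 1 := by
    apply Subtype.ext
    have h5 : (((-4 : V) * 3 ^ m * t : V) : ℂ) = (-4) * 3 ^ m * (t : ℂ) := rfl
    rw [h5]
    have h6 : (27 : ℂ) * ((-4) * 3 ^ m * (t : ℂ)) = 27 * 1 := by
      rw [pow_add] at hlt
      linear_combination hlt
    exact mul_left_cancel₀ (by norm_num) h6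
  have h5 := congrArg (rs V) h4
  rw [map_mul, ht, mul_zero, map_one] at h5
  exact zero_ne_one h5

/-- simultaneous nonvanishing -/
theorem manySlopeB (T : Finset ℕ) (hT : ∀ p ∈ T, p.Prime)
    (δ : ∀ (p : ℕ) [Fact p.Prime], ℚ_[p]) (hδ0 : ∀ (p : ℕ) [Fact p.Prime], δ p ≠ 0)
    (hδ2 : ¬ IsSquare (δ 2)) :
    ∃ c : ℝ, 0 < c ∧ ∃ x₀ : ℝ, ∀ x : ℝ, x₀ ≤ x → ∃ S : Finset (IntermediateField ℚ ℂ),
      c * x ≤ (S.card : ℝ) ∧ ∀ E ∈ S, ∃ _ : NumberField E, Module.finrank ℚ E = 2 ∧
        |(discr E : ℝ)| < x ∧ (∀ p ∈ T, ∀ [Fact p.Prime], Loc p (δ p) E) ∧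
        ∀ c k : ℕ, Even k →
          (c = 2 ∧ 4 ≤ k ∧ (3 ∈ T → k % 9 = 8 → ¬ IsSquare (δ 3)) ∨
            c = 4 ∧ k ≠ 0 ∧ ¬ IsSquare (-3 * δ 2) ∧ (3 ∈ T → ¬ IsSquare (-3 * δ 3))) →
          ∀ F, SlopeD c k F → NonvanPerS c F E := by
  classical
  obtain ⟨δ₃, h30, h31, h32⟩ : ∃ δ₃ : ℚ_[3], δ₃ ≠ 0 ∧ (3 ∉ T → δ₃ = 3) ∧
      (3 ∈ T → δ₃ = δ 3) := by
    by_cases h : 3 ∈ T
    · exact ⟨δ 3, hδ0 3, fun h' => absurd h h', fun _ => rfl⟩
    · exact ⟨3, by norm_num, fun _ => rfl, fun h' => absurd h' h⟩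
  obtain ⟨c', hc', x₀, hx₀⟩ := Pool.Agent.Helper725_DH.fields_manyU (hδ0 2) hδ2 h30
    (T.filter (fun p => 5 ≤ p)) (fun p hp => ⟨hT p (Finset.mem_filter.1 hp).1,
      (Finset.mem_filter.1 hp).2⟩) δ (fun p _ _ => hδ0 p)
  refine ⟨c', hc', x₀, ?_⟩
  intro x hx
  obtain ⟨S, hS, hSd⟩ := hx₀ x hx
  refine ⟨S.image Ed, ?_, ?_⟩
  · rw [Finset.card_image_of_injOn]
    · exact hS
    · intro d hd d' hd' h
      obtain ⟨a1, a2, _⟩ := hSd d hd
      obtain ⟨b1, b2, _⟩ := hSd d' hd'
      exact Ed_inj a1 a2 b1 b2 h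
  · intro E hE
    obtain ⟨d, hd, rfl⟩ := Finset.mem_image.1 hE
    obtain ⟨a1, a3, a4, a5, a6, a7, a8⟩ := hSd d hd
    have hd0 : 0 < d := by omega
    have hns : ¬ IsSquare (-(d : ℚ)) := by
      rintro ⟨q, hq⟩
      exact Pool.Agent.Helper725_DH.IQ.not_sq hd0 q (by rw [hq]; ring)
    have h9 : ¬ 9 ∣ d := by
      intro h
      have := a1 3 (by norm_num; exact h)
      rw [Nat.isUnit_iff] at this
      omega
    have hd2 : -(d : ℚ_[2]) ≠ 0 := by
      rw [neg_ne_zero]; exact_mod_cast hd0.ne'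
    have hd3 : -(d : ℚ_[3]) ≠ 0 := by
      rw [neg_ne_zero]; exact_mod_cast hd0.ne'
    refine ⟨inferInstance, Ed_rank hd0, ?_, ?_, ?_⟩
    · rw [Ed_discr a1 a3]
      split_ifs at a4 ⊢ with h
      · push_cast
        rw [abs_neg, abs_of_nonneg (by positivity)]
        exact a4
      · push_cast
        rw [abs_neg, abs_of_nonneg (by positivity)]
        exact a4
    · intro p hp hpf
      refine ⟨-(d : ℚ), xd d, ?_, hns, ?_⟩
      · rw [xd_sq]; push_cast; rfl
      · push_cast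
        by_cases h5 : 5 ≤ p
        · exact a7 p (Finset.mem_filter.2 ⟨hp, h5⟩)
        · have h6 := (hT p hp).two_le
          have h7 : p ≠ 4 := by
            rintro rfl
            exact absurd (hT 4 hp) (by norm_num)
          have h8 : p = 2 ∨ p = 3 := by omega
          rcases h8 with rfl | rfl
          · exact a5
          · rw [h32 hp] at a6
            exact a6
    · intro c k hk hc F hF
      have h6T : 3 ∉ T → d % 9 = 6 := by
        intro h
        rw [h31 h] at a6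
        exact RR.six_of_sq hd0 h9 a6
      rcases hc with ⟨rfl, hk4, hδ3⟩ | ⟨rfl, hk0, hδ2', hδ3⟩
      · apply nonvanPerS_two
        have hform := formS_two hF.form
        obtain ⟨V, hV3, lam, hlam, hval⟩ := hF.slope
        have hV : Thr V := thr_of_val hV3
        have h3v : V.valuation (3 : ℂ) ≠ 0 := (Valuation.ne_zero_iff _).2 (by norm_num)
        have hval' : V.valuation 27 < V.valuation (3 ^ k * lam) := by
          rcases hval with h | ⟨_, h⟩
          · rw [h]
            have e27 : (27 : ℂ) = 3 * (3 * 3) := by norm_num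
            rw [e27, map_mul, map_mul]
            have h0 : V.valuation (3 : ℂ) * V.valuation (3 : ℂ) < V.valuation (3 : ℂ) * 1 :=
              (mul_lt_mul_iff_right₀ (zero_lt_iff.2 h3v)).2 hV3
            have h1 : V.valuation (3 : ℂ) * V.valuation (3 : ℂ) < 1 := by
              rw [mul_one] at h0
              exact h0.trans hV3
            calc V.valuation (3 : ℂ) * (V.valuation (3 : ℂ) * V.valuation (3 : ℂ))
                < V.valuation (3 : ℂ) * 1 := by
                  exact (mul_lt_mul_iff_right₀ (zero_lt_iff.2 h3v)).2 h1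
              _ = V.valuation (3 : ℂ) := mul_one _
          · exact h
        have hLv : V.valuation ((3 : ℂ) ^ k * lam) ≠ 0 := (lt_of_le_of_lt zero_le hval').ne'
        have hL0 : (3 : ℂ) ^ k * lam ≠ 0 := (Valuation.ne_zero_iff _).1 hLv
        obtain ⟨t, ht1, ht⟩ : ∃ t : V, (t : ℂ) = 27 / (3 ^ k * lam) ∧ rs V t = 0 := by
          apply small_of_val
          rw [map_div₀]
          exact (div_lt_one₀ (zero_lt_iff.2 hLv)).2 hval'
        have hlt : (3 : ℂ) ^ k * lam * (t : ℂ) = 27 := by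
          rw [ht1, mul_div_cancel₀ _ hL0]
        obtain ⟨G, hGe⟩ : ∃ G : AddSubgroup ℍ[ℚ] → MvPolynomial (Fin 3) ℂ, G = fun I => F I I :=
          ⟨_, rfl⟩
        have pr : ∀ {I : AddSubgroup ℍ[ℚ]}, IsRI I → PairC 2 I I :=
          fun hI => pairC_two.2 ⟨hI, rfl⟩
        have heig : ∀ p : ℕ, p.Prime → p ≠ 2 → ∃ lam : ℂ, ∀ I, IsRI I →
            hecke1 p G I = lam • G I := by
          intro p hp hp2
          obtain ⟨l, hl⟩ := hF.eigen p hp hp2
          exact ⟨l, fun I hI => by rw [hGe, hecke_diag]; exact hl I I (pr hI)⟩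
        have hlam' : ∀ I, IsRI I → hecke1 3 G I = lam • G I := by
          intro I hI
          rw [hGe, hecke_diag]
          exact hlam I I (pr hI)
        have hG0 : G ≠ 0 := by
          obtain ⟨I, I', h1⟩ := hF.ne_zero
          have h2 : PairC 2 I I' := by
            by_contra h2
            exact h1 (hF.form.supp I I' h2)
          rw [(pairC_two.1 h2).2] at h1
          rintro h0
          apply h1
          have h3 := congrFun h0 I
          rw [hGe] at h3
          exact h3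
        rw [← hGe] at hform ⊢
        have hF1 := form1_of_isForm1 hform
        have he := TL1_of_hecke1 p3 hform hlam'
        obtain ⟨l5, hl5⟩ := heig 5 (by norm_num) (by norm_num)
        obtain ⟨l7, hl7⟩ := heig 7 (by norm_num) (by norm_num)
        by_cases h6 : d % 9 = 6
        · obtain ⟨c, r, hr, H⟩ := RR.gP_const hV (hF1.hom Oo) (sym_of_form hk hF1)
            (sym_ne2 hk hV hk4 hF1 hG0 he ht hlt) (RR.k5 hF1 hl5) (RR.k7 hF1 hl7)
          exact RR.nonvan_six hV hk hF1 hr h6 H a1 a3 (Ed_rank hd0) (xd_sq d)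
            (a8 (Ed d) (Ed_rank hd0) ⟨xd d, xd_sq d⟩)
        · by_cases h1 : d % 3 = 1
          · have e5 := TL1_of_hecke1 (p := 5) (by norm_num) hform hl5
            have e7 := TL1_of_hecke1 (p := 7) (by norm_num) hform hl7
            obtain ⟨c, r, hr, H⟩ := all_val hV hk hF1 hG0 e5 e7
            exact nonvan_one1 hV hF1 hr (H d h1) a1 a3 (Ed_rank hd0) (xd_sq d)
              (a8 (Ed d) (Ed_rank hd0) ⟨xd d, xd_sq d⟩)
          · have h3T : 3 ∈ T := by
              by_contra h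
              exact h6 (h6T h)
            have hcond := hδ3 h3T
            rw [← h32 h3T] at hcond
            have hgood : d % 3 = 1 ∧ k % 9 ≠ 2 ∨ d % 3 = 2 ∧ k % 9 ≠ 8 ∨ d % 9 = 3 := by
              have h3 : d % 3 = 0 ∨ d % 3 = 2 := by omega
              rcases h3 with h3 | h3
              · right; right; omega
              · right; left
                refine ⟨h3, fun h => ?_⟩
                apply hcond h
                have h4 := sq_transfer hd3 (sq_two_p h3) a6
                rw [one_mul] at h4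
                exact h4
            obtain ⟨c, r, hr, H⟩ := RR.slope_val2 hV hk hk4 hF1 (hform.harm Oo) hG0 he ht hlt hgood
            exact nonvan_one1 hV hF1 hr H a1 a3 (Ed_rank hd0) (xd_sq d)
              (a8 (Ed d) (Ed_rank hd0) ⟨xd d, xd_sq d⟩)
      · apply nonvanPerS_four
        have hG := slopeC_four (slopeD_four hF)
        have h8 : d % 4 = 1 ∨ d % 4 = 2 := by
          rcases a3 with h | h
          · exact absurd (sq_transfer hd2 (sq_two_m h) a5) hδ2'
          · exact h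
        have hgood : d % 3 ≠ 0 ∨ d % 9 = 6 := by
          by_cases h3 : d % 3 = 0
          · right
            by_cases hT3 : 3 ∈ T
            · by_cases h6 : d % 9 = 3
              · have h7 := hδ3 hT3
                rw [← h32 hT3] at h7
                exact absurd (sq_transfer hd3 (sq_three_m h6) a6) h7
              · omega
            · exact h6T hT3
          · exact Or.inl h3
        obtain ⟨V, hV3, lam, hlam, hval⟩ := hG.slope
        have hV := thr_of_val hV3
        have h3v : V.valuation 3 ≠ 0 := by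
          rw [Valuation.ne_zero_iff]; norm_num
        obtain ⟨w, hw, hw'⟩ : ∃ w : V, (w : ℂ) = 3 ^ k * lam / 3 ∧ rs V w ≠ 0 := by
          apply unit_of_val
          rw [map_div₀, hval, div_self h3v]
        have hlw : (3 : ℂ) ^ k * lam = 3 * (w : ℂ) := by
          rw [hw]; ring
        have hF' := form4_of_isForm4 hG.form
        have hF0 : F ≠ 0 := by
          rintro h0
          obtain ⟨I, I', hI⟩ := hG.ne_zero
          rw [h0] at hI
          exact hI rfl
        have he := TL4_of_hecke p3 hG.form hlam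
        obtain ⟨c, hc, r, hr, H⟩ := slope_val4 hV hk hk0 hF' hF0 he hw' hlw h9 hgood
        exact nonvan_one4 hV hF' hr H a1 h8 (Ed_rank hd0) (xd_sq d)
          (a8 (Ed d) (Ed_rank hd0) ⟨xd d, xd_sq d⟩)

end Pool.Agent.Helper725_HQ
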