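import Pool.Agent.Helper725_HQ.Ri

/-! Neighbours of right ideals. -/

set_option autoImplicit false

namespace Pool.Agent.Helper725_HQ

open Quaternion

/-- the neighbours -/
def Sp (p : ℕ) (I : AddSubgroup ℍ[ℚ]) : Set (AddSubgroup ℍ[ℚ]) :=
  {J | IsRI J ∧ lm p I < J ∧ J < I}

theorem Sp_lm {p : ℕ} {I : AddSubgroup ℍ[ℚ]} {α : ℍ[ℚ]} (hα : α ≠ 0) :
    Sp p (lm α I) = lm α '' Sp p I := by
  ext J
  constructor
  · rintro ⟨h1, h2, h3⟩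
    refine ⟨lm α⁻¹ J, ⟨isRI_lm h1 (inv_ne_zero hα), ?_, ?_⟩, lm_lm_inv hα J⟩
    · rw [← lm_lt hα, lm_lm_inv hα, ← lm_nat_lm]
      exact h2
    · rw [← lm_lt hα, lm_lm_inv hα]
      exact h3
  · rintro ⟨J, ⟨h1, h2, h3⟩, rfl⟩
    refine ⟨isRI_lm h1 hα, ?_, ?_⟩
    · rw [lm_nat_lm, lm_lt hα]; exact h2
    · rw [lm_lt hα]; exact h3

theorem Sp_rm {p : ℕ} {I : AddSubgroup ℍ[ℚ]} : Sp p (rm ep I) = rm ep '' Sp p I := by
  ext J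
  constructor
  · rintro ⟨h1, h2, h3⟩
    refine ⟨rm ep⁻¹ J, ⟨isRI_rm_inv h1, ?_, ?_⟩, rm_inv_rm J⟩
    · rw [← rm_lt ep_ne, rm_inv_rm, ← lm_rm]
      exact h2
    · rw [← rm_lt ep_ne, rm_inv_rm]
      exact h3
  · rintro ⟨J, ⟨h1, h2, h3⟩, rfl⟩
    refine ⟨isRI_rm h1, ?_, ?_⟩
    · rw [lm_rm, rm_lt ep_ne]; exact h2
    · rw [rm_lt ep_ne]; exact h3

theorem bez {p q : ℕ} (h : p.Coprime q) : ∃ u v : ℤ, ∀ x : ℍ[ℚ],
    u • ((p : ℍ[ℚ]) * x) + v • ((q : ℍ[ℚ]) * x) = x := by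
  obtain ⟨u, v, huv⟩ := Nat.isCoprime_iff_coprime.2 h
  refine ⟨u, v, fun x => ?_⟩
  rw [zsmul_eq_mul, zsmul_eq_mul, ← mul_assoc, ← mul_assoc, ← add_mul]
  have : ((u : ℍ[ℚ]) * p + v * q) = ((u * p + v * q : ℤ) : ℍ[ℚ]) := by push_cast; rfl
  rw [this, huv]
  simp

/-- membership by coprimality -/
theorem cop_mem {p q : ℕ} (h : p.Coprime q) {A : AddSubgroup ℍ[ℚ]} {x : ℍ[ℚ]}
    (h1 : (p : ℍ[ℚ]) * x ∈ A) (h2 : (q : ℍ[ℚ]) * x ∈ A) : x ∈ A := by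
  obtain ⟨u, v, huv⟩ := bez h
  rw [← huv x]
  exact A.add_mem (A.zsmul_mem h1 u) (A.zsmul_mem h2 v)

section
variable {p q : ℕ} {I I' J : AddSubgroup ℍ[ℚ]}

theorem inf_lm (hpq : p.Coprime q) (hJ : J ∈ Sp p I) : J ⊓ lm q I = lm q J := by
  obtain ⟨h1, h2, h3⟩ := hJ
  apply le_antisymm
  · rintro x ⟨hx1, hx2⟩
    obtain ⟨z, hz, rfl⟩ := mem_lm.1 hx2
    exact mul_mem_lm (cop_mem hpq (h2.le (mul_mem_lm hz)) hx1)
  · intro x hx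
    obtain ⟨z, hz, rfl⟩ := mem_lm.1 hx
    exact ⟨h1.nat_mul q hz, mul_mem_lm (h3.le hz)⟩

theorem isRI_inf (hp : p ≠ 0) (hq : q ≠ 0) (hI : IsPair q I I') (hJ : J ∈ Sp p I) :
    IsRI (J ⊓ I') := by
  obtain ⟨h1, h2, h3⟩ := hJ
  obtain ⟨x, hx, hx0⟩ := hI.fst.ne_zero
  refine h1.inf hI.snd (x := (q : ℍ[ℚ]) * ((p : ℍ[ℚ]) * x)) ?_ ?_ ?_
  · exact mul_ne_zero (natH_ne hq) (mul_ne_zero (natH_ne hp) hx0)
  · exact h1.nat_mul q (h2.le (mul_mem_lm hx))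
  · exact hI.lt₁.le (mul_mem_lm (hI.fst.nat_mul p hx))

theorem pair_inf (hpq : p.Coprime q) (hp : p ≠ 0) (hq : q ≠ 0) (hI : IsPair q I I')
    (hJ : J ∈ Sp p I) : IsPair q J (J ⊓ I') := by
  have hri := isRI_inf hp hq hI hJ
  obtain ⟨h1, h2, h3⟩ := hJ
  refine ⟨h1, hri, lt_of_le_not_ge ?_ ?_, lt_of_le_not_ge inf_le_left ?_⟩
  · intro x hx
    obtain ⟨z, hz, rfl⟩ := mem_lm.1 hx
    exact ⟨h1.nat_mul q hz, hI.lt₁.le (mul_mem_lm (h3.le hz))⟩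
  · intro hle
    apply hI.lt₁.not_ge
    intro x hx
    have h4 := hle ⟨h2.le (mul_mem_lm (hI.lt₂.le hx)), hI.snd.nat_mul p hx⟩
    obtain ⟨z, hz, hzx⟩ := mem_lm.1 h4
    refine cop_mem hpq ?_ (mul_mem_lm (hI.lt₂.le hx))
    rw [← hzx]
    exact mul_mem_lm (h3.le hz)
  · intro hle
    apply hI.lt₂.not_ge
    intro x hx
    exact cop_mem hpq (hle (h2.le (mul_mem_lm hx))).2 (hI.lt₁.le (mul_mem_lm hx))

theorem inf_mem_Sp (hpq : p.Coprime q) (hp : p ≠ 0) (hq : q ≠ 0) (hI : IsPair q I I')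
    (hJ : J ∈ Sp p I) : J ⊓ I' ∈ Sp p I' := by
  have hri := isRI_inf hp hq hI hJ
  obtain ⟨h1, h2, h3⟩ := hJ
  refine ⟨hri, lt_of_le_not_ge ?_ ?_, lt_of_le_not_ge inf_le_right ?_⟩
  · intro x hx
    obtain ⟨z, hz, rfl⟩ := mem_lm.1 hx
    exact ⟨h2.le (mul_mem_lm (hI.lt₂.le hz)), hI.snd.nat_mul p hz⟩
  · intro hle
    apply h2.not_ge
    intro y hy
    have h4 := hle ⟨h1.nat_mul q hy, hI.lt₁.le (mul_mem_lm (h3.le hy))⟩
    obtain ⟨z, hz, hzx⟩ := mem_lm.1 h4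
    refine cop_mem hpq (mul_mem_lm (h3.le hy)) ?_
    rw [← hzx]
    exact mul_mem_lm (hI.lt₂.le hz)
  · intro hle
    apply h3.not_ge
    intro x hx
    exact cop_mem hpq (h2.le (mul_mem_lm hx)) (hle (hI.lt₁.le (mul_mem_lm hx))).1

theorem inf_sup (hpq : p.Coprime q) (hI : IsPair q I I') (hJ : J ∈ Sp p I) :
    (J ⊓ I') ⊔ lm p I = J := by
  obtain ⟨h1, h2, h3⟩ := hJ
  apply le_antisymm
  · exact sup_le inf_le_left h2.le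
  · intro y hy
    obtain ⟨u, v, huv⟩ := bez hpq
    rw [← huv y]
    refine AddSubgroup.add_mem _ (AddSubgroup.mem_sup_right (AddSubgroup.zsmul_mem _
      (mul_mem_lm (h3.le hy)) u)) (AddSubgroup.mem_sup_left (AddSubgroup.zsmul_mem _ ?_ v))
    exact ⟨h1.nat_mul q hy, hI.lt₁.le (mul_mem_lm (h3.le hy))⟩

theorem sup_inf (hpq : p.Coprime q) (hI : IsPair q I I') {J' : AddSubgroup ℍ[ℚ]}
    (hJ : J' ∈ Sp p I') : (J' ⊔ lm p I) ⊓ I' = J' := by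
  obtain ⟨h1, h2, h3⟩ := hJ
  apply le_antisymm
  · rintro x ⟨hx1, hx2⟩
    obtain ⟨j, hj, y, hy, rfl⟩ := AddSubgroup.mem_sup.1 hx1
    obtain ⟨t, ht, rfl⟩ := mem_lm.1 hy
    refine J'.add_mem hj ?_
    have h4 : (p : ℍ[ℚ]) * t ∈ I' := by
      have := I'.sub_mem hx2 (h3.le hj)
      rwa [add_sub_cancel_left] at this
    exact h2.le (mul_mem_lm (cop_mem hpq h4 (hI.lt₁.le (mul_mem_lm ht))))
  · exact le_inf le_sup_left h3.le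

theorem sup_mem_Sp (hpq : p.Coprime q) (hp : p ≠ 0) (hI : IsPair q I I') {J' : AddSubgroup ℍ[ℚ]}
    (hJ : J' ∈ Sp p I') : J' ⊔ lm p I ∈ Sp p I := by
  have hsi := sup_inf hpq hI hJ
  obtain ⟨h1, h2, h3⟩ := hJ
  refine ⟨h1.sup (isRI_lm hI.fst (natH_ne hp)), lt_of_le_not_ge le_sup_right ?_,
    lt_of_le_not_ge (sup_le (h3.le.trans hI.lt₂.le) ?_) ?_⟩
  · intro hle
    apply h2.not_ge
    intro z hz
    obtain ⟨t, ht, rfl⟩ := mem_lm.1 (hle (AddSubgroup.mem_sup_left hz))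
    exact mul_mem_lm (cop_mem hpq (h3.le hz) (hI.lt₁.le (mul_mem_lm ht)))
  · intro x hx
    obtain ⟨t, ht, rfl⟩ := mem_lm.1 hx
    exact hI.fst.nat_mul p ht
  · intro hle
    apply h3.not_ge
    have h4 : J' ⊔ lm p I = I := le_antisymm (sup_le (h3.le.trans hI.lt₂.le) (by
      intro x hx
      obtain ⟨t, ht, rfl⟩ := mem_lm.1 hx
      exact hI.fst.nat_mul p ht)) hle
    rw [h4] at hsi
    rw [← hsi]
    exact le_inf hI.lt₂.le le_rfl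

end

section
variable {p r : ℕ} {I J K : AddSubgroup ℍ[ℚ]}

theorem sup_two (hpr : p.Coprime r) (hJ : J ∈ Sp p I) (hK : K ∈ Sp r J) : K ⊔ lm p I = J := by
  obtain ⟨h1, h2, h3⟩ := hJ
  obtain ⟨k1, k2, k3⟩ := hK
  apply le_antisymm
  · exact sup_le k3.le h2.le
  · intro y hy
    obtain ⟨u, v, huv⟩ := bez hpr
    rw [← huv y]
    exact AddSubgroup.add_mem _ (AddSubgroup.mem_sup_right (AddSubgroup.zsmul_mem _
      (mul_mem_lm (h3.le hy)) u)) (AddSubgroup.mem_sup_left (AddSubgroup.zsmul_mem _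
      (k2.le (mul_mem_lm hy)) v))

theorem swap_two (hpr : p.Coprime r) (hr : r ≠ 0) (hI : IsRI I) (hJ : J ∈ Sp p I)
    (hK : K ∈ Sp r J) : K ⊔ lm r I ∈ Sp r I ∧ K ∈ Sp p (K ⊔ lm r I) := by
  obtain ⟨h1, h2, h3⟩ := hJ
  obtain ⟨k1, k2, k3⟩ := hK
  have hle : K ⊔ lm r I ≤ I := by
    refine sup_le (k3.le.trans h3.le) ?_
    intro x hx
    obtain ⟨t, ht, rfl⟩ := mem_lm.1 hx
    exact hI.nat_mul r ht
  refine ⟨⟨k1.sup (isRI_lm hI (natH_ne hr)), lt_of_le_not_ge le_sup_right ?_,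
    lt_of_le_not_ge hle ?_⟩, k1, lt_of_le_not_ge ?_ ?_, lt_of_le_not_ge le_sup_left ?_⟩
  · intro h
    apply k2.not_ge
    intro k hk
    obtain ⟨t, ht, rfl⟩ := mem_lm.1 (h (AddSubgroup.mem_sup_left hk))
    exact mul_mem_lm (cop_mem hpr (h2.le (mul_mem_lm ht)) (k3.le hk))
  · intro h
    apply k3.not_ge
    intro y hy
    obtain ⟨k, hk, z, hz, hkz⟩ := AddSubgroup.mem_sup.1 (h (h3.le hy))
    obtain ⟨t, ht, rfl⟩ := mem_lm.1 hz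
    rw [← hkz]
    refine K.add_mem hk ?_
    have h4 : (r : ℍ[ℚ]) * t ∈ J := by
      have := J.sub_mem hy (k3.le hk)
      rwa [← hkz, add_sub_cancel_left] at this
    exact k2.le (mul_mem_lm (cop_mem hpr (h2.le (mul_mem_lm ht)) h4))
  · intro x hx
    obtain ⟨z, hz, rfl⟩ := mem_lm.1 hx
    obtain ⟨k, hk, y, hy, rfl⟩ := AddSubgroup.mem_sup.1 hz
    obtain ⟨t, ht, rfl⟩ := mem_lm.1 hy
    rw [mul_add]
    refine K.add_mem (k1.nat_mul p hk) ?_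
    have e : (p : ℍ[ℚ]) * ((r : ℍ[ℚ]) * t) = (r : ℍ[ℚ]) * ((p : ℍ[ℚ]) * t) := by
      rw [← mul_assoc, natCast_comm p, mul_assoc]
    rw [e]
    exact k2.le (mul_mem_lm (h2.le (mul_mem_lm ht)))
  · intro h
    apply h2.not_ge
    intro y hy
    obtain ⟨z, hz, hzy⟩ := mem_lm.1 (h (k2.le (mul_mem_lm hy)))
    refine cop_mem hpr (mul_mem_lm (h3.le hy)) ?_
    rw [← hzy]
    exact mul_mem_lm (hle hz)
  · intro h
    apply h3.not_ge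
    intro x hx
    exact cop_mem hpr (h2.le (mul_mem_lm hx)) (k3.le (h (AddSubgroup.mem_sup_right (mul_mem_lm hx))))

/-- the grandchildren do not depend on the order -/
theorem biUnion_swap (hpr : p.Coprime r) (hp : p ≠ 0) (hr : r ≠ 0) (hI : IsRI I) :
    ⋃ J ∈ Sp p I, Sp r J = ⋃ J ∈ Sp r I, Sp p J := by
  apply Set.Subset.antisymm
  · intro K hK
    rw [Set.mem_iUnion₂] at hK ⊢
    obtain ⟨J, hJ, hK⟩ := hK
    obtain ⟨h1, h2⟩ := swap_two hpr hr hI hJ hK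
    exact ⟨_, h1, h2⟩
  · intro K hK
    rw [Set.mem_iUnion₂] at hK ⊢
    obtain ⟨J, hJ, hK⟩ := hK
    obtain ⟨h1, h2⟩ := swap_two hpr.symm hp hI hJ hK
    exact ⟨_, h1, h2⟩

end

end Pool.Agent.Helper725_HQ
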