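import Pool.Agent.Helper725_HQ.LEx2

/-! Existence of ordinary eigenforms of level 17. -/

set_option autoImplicit false
set_option linter.unusedSimpArgs false
set_option linter.unnecessarySeqFocus false

namespace Pool.Agent.Helper725_HQ

open Quaternion MvPolynomial

/-- the pure quaternions of norm one preserving two groups -/
def A1 (I I' : AddSubgroup ℍ[ℚ]) : Set ℍ[ℚ] :=
  {y | y.re = 0 ∧ normSq y = 1 ∧ (∀ x ∈ I, y * x ∈ I) ∧ ∀ x ∈ I', y * x ∈ I'}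

theorem pres_lm {α y : ℍ[ℚ]} (hα : α ≠ 0) {I : AddSubgroup ℍ[ℚ]} (h : ∀ x ∈ lm α I, y * x ∈ lm α I) :
    ∀ x ∈ I, α⁻¹ * y * α * x ∈ I := by
  intro x hx
  have h4 := h _ (mul_mem_lm (α := α) hx)
  rw [mem_lm' hα] at h4
  rw [mul_assoc, mul_assoc]
  exact h4

theorem pres_lm' {α z : ℍ[ℚ]} (hα : α ≠ 0) {I : AddSubgroup ℍ[ℚ]} (h : ∀ x ∈ I, z * x ∈ I) :
    ∀ x ∈ lm α I, α * z * α⁻¹ * x ∈ lm α I := by
  intro x hx
  obtain ⟨w, hw, rfl⟩ := mem_lm.1 hx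
  have e : α * z * α⁻¹ * (α * w) = α * (z * w) := by
    rw [mul_assoc (α * z), ← mul_assoc α⁻¹, inv_mul_cancel₀ hα, one_mul, mul_assoc]
  rw [e]
  exact mul_mem_lm (h w hw)

theorem A1_lm {α : ℍ[ℚ]} (hα : α ≠ 0) (I I' : AddSubgroup ℍ[ℚ]) :
    A1 (lm α I) (lm α I') = (fun y => α * y * α⁻¹) '' A1 I I' := by
  have hα' : α⁻¹ ≠ 0 := inv_ne_zero hα
  have hnn : normSq α * normSq α⁻¹ = 1 := by
    rw [← map_mul, mul_inv_cancel₀ hα, map_one]
  ext y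
  constructor
  · rintro ⟨h1, h2, h3, h4⟩
    refine ⟨α⁻¹ * y * α, ⟨?_, ?_, pres_lm hα h3, pres_lm hα h4⟩, ?_⟩
    · have := re_conj hα' y
      rw [inv_inv] at this
      rw [this, h1]
    · rw [map_mul, map_mul, h2]
      linear_combination hnn
    · show α * (α⁻¹ * y * α) * α⁻¹ = y
      rw [← mul_assoc, ← mul_assoc, mul_inv_cancel₀ hα, one_mul, mul_assoc, mul_inv_cancel₀ hα,
        mul_one]
  · rintro ⟨z, ⟨h1, h2, h3, h4⟩, rfl⟩
    refine ⟨?_, ?_, pres_lm' hα h3, pres_lm' hα h4⟩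
    · show (α * z * α⁻¹).re = 0
      rw [re_conj hα, h1]
    · show normSq (α * z * α⁻¹) = 1
      rw [map_mul, map_mul, h2]
      linear_combination hnn

theorem pres_rm {y : ℍ[ℚ]} {I : AddSubgroup ℍ[ℚ]} :
    (∀ x ∈ rm ep I, y * x ∈ rm ep I) ↔ ∀ x ∈ I, y * x ∈ I := by
  constructor
  · intro h3 x hx
    have h4 := h3 _ (mem_rm.2 ⟨x, hx, rfl⟩ : x * ep ∈ rm ep I)
    rw [mem_rm' ep_ne, ← mul_assoc, mul_assoc, mul_inv_cancel₀ ep_ne, mul_one] at h4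
    exact h4
  · intro h3 x hx
    obtain ⟨w, hw, rfl⟩ := mem_rm.1 hx
    exact mem_rm.2 ⟨y * w, h3 w hw, by rw [mul_assoc]⟩

theorem A1_rm (I I' : AddSubgroup ℍ[ℚ]) : A1 (rm ep I) (rm ep I') = A1 I I' := by
  ext y
  unfold A1
  simp only [Set.mem_ofPred_eq, pres_rm]

theorem A1_swap {q : ℕ} (hq : q ≠ 0) (I I' : AddSubgroup ℍ[ℚ]) : A1 I' (lm q I) = A1 I I' := by
  have hq' : (q : ℍ[ℚ]) ≠ 0 := natH_ne hq
  have key : ∀ y : ℍ[ℚ], (∀ x ∈ lm (q : ℍ[ℚ]) I, y * x ∈ lm (q : ℍ[ℚ]) I) ↔ ∀ x ∈ I, y * x ∈ I := by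
    intro y
    constructor
    · intro h x hx
      have h1 := h _ (mul_mem_lm (α := (q : ℍ[ℚ])) hx)
      rw [mem_lm' hq', ← mul_assoc y, ← natCast_comm, mul_assoc, ← mul_assoc,
        inv_mul_cancel₀ hq', one_mul] at h1
      exact h1
    · intro h x hx
      obtain ⟨w, hw, rfl⟩ := mem_lm.1 hx
      rw [← mul_assoc, ← natCast_comm, mul_assoc]
      exact mul_mem_lm (h w hw)
  ext y
  unfold A1
  simp only [Set.mem_ofPred_eq, key]
  tauto

theorem A1_finite {q : ℕ} {I I' : AddSubgroup ℍ[ℚ]} (h : IsPair q I I') : (A1 I I').Finite := by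
  obtain ⟨α, hα, rfl⟩ := principal h.fst
  have hsub : A1 (lm α Oo) I' ⊆ (fun y => α * y * α⁻¹) '' {x : ℍ[ℚ] | x ∈ Hur ∧ normSq x = (1 : ℕ)} := by
    rintro y ⟨h1, h2, h3, _⟩
    have hnn : normSq α * normSq α⁻¹ = 1 := by
      rw [← map_mul, mul_inv_cancel₀ hα, map_one]
    refine ⟨α⁻¹ * y * α, ⟨?_, ?_⟩, ?_⟩
    · have := pres_lm hα h3 1 Hur.one_mem
      rwa [mul_one] at this
    · rw [map_mul, map_mul, h2]
      push_cast
      linear_combination hnn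
    · show α * (α⁻¹ * y * α) * α⁻¹ = y
      rw [← mul_assoc, ← mul_assoc, mul_inv_cancel₀ hα, one_mul, mul_assoc, mul_inv_cancel₀ hα,
        mul_one]
  exact ((finite_norm 1).image _).subset hsub

open Classical in
/-- the form used to start with -/
noncomputable def GF (k : ℕ) : Fun3 := fun I I' =>
  if IsPair 17 I I' then ∑ᶠ y ∈ A1 I I', (lq y) ^ k else 0

theorem GF_pos {k : ℕ} {I I' : AddSubgroup ℍ[ℚ]} (h : IsPair 17 I I') :
    GF k I I' = ∑ᶠ y ∈ A1 I I', (lq y) ^ k := by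
  unfold GF; rw [if_pos h]

theorem GF_neg {k : ℕ} {I I' : AddSubgroup ℍ[ℚ]} (h : ¬ IsPair 17 I I') : GF k I I' = 0 := by
  unfold GF; rw [if_neg h]

theorem GF_form (k : ℕ) : Form0 17 k (GF k) := by
  refine ⟨fun I I' h => GF_neg h, fun I I' => ?_, fun α hα I I' => ?_, fun I I' => ?_⟩
  · by_cases h : IsPair 17 I I'
    · rw [GF_pos h, finsum_mem_eq_finite_toFinset_sum _ (A1_finite h)]
      apply IsHomogeneous.sum
      intro y _
      have := (lq_hom y).pow k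
      rwa [one_mul] at this
    · rw [GF_neg h]
      exact isHomogeneous_zero _ _ _
  · by_cases h : IsPair 17 I I'
    · rw [GF_pos h, GF_pos ((pair_lm hα).2 h), A1_lm hα, finsum_mem_image]
      · have e : ∀ y ∈ A1 I I', (lq (α * y * α⁻¹)) ^ k = lsub (rC α) ((lq y) ^ k) := by
          intro y _
          rw [lq_conj hα, map_pow]
        rw [finsum_mem_congr rfl e]
        exact ((lsub (rC α) : MvPolynomial (Fin 3) ℂ →+ MvPolynomial (Fin 3) ℂ).map_finsum_mem _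
          (A1_finite h)).symm
      · intro x _ y _ hxy
        have h1 : α * x * α⁻¹ = α * y * α⁻¹ := hxy
        have h2 := mul_right_cancel₀ (inv_ne_zero hα) h1
        exact mul_left_cancel₀ hα h2
    · rw [GF_neg h, GF_neg (fun h' => h ((pair_lm hα).1 h')), map_zero]
  · by_cases h : IsPair 17 I I'
    · rw [GF_pos h, GF_pos (pair_rm.2 h), A1_rm]
    · rw [GF_neg h, GF_neg (fun h' => h (pair_rm.1 h'))]

theorem GF_ww (k : ℕ) : ww 17 (GF k) = GF k := by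
  funext I I'
  rw [ww_apply]
  by_cases h : IsPair 17 I I'
  · rw [GF_pos h, GF_pos ((pair_swap (by norm_num)).2 h), A1_swap (by norm_num)]
  · rw [GF_neg h, GF_neg (fun h' => h ((pair_swap (by norm_num)).1 h'))]

/-- the six vectors of norm one -/
theorem one_vec {a b c : ℤ} (h : a ^ 2 + b ^ 2 + c ^ 2 = 1) :
    (a, b, c) ∈ ([(1, 0, 0), (-1, 0, 0), (0, 1, 0), (0, -1, 0), (0, 0, 1), (0, 0, -1)] :
      List (ℤ × ℤ × ℤ)) := by
  have ha : a = -1 ∨ a = 0 ∨ a = 1 := by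
    have : -1 ≤ a := by nlinarith [sq_nonneg b, sq_nonneg c]
    have : a ≤ 1 := by nlinarith [sq_nonneg b, sq_nonneg c]
    omega
  have hb : b = -1 ∨ b = 0 ∨ b = 1 := by
    have : -1 ≤ b := by nlinarith [sq_nonneg a, sq_nonneg c]
    have : b ≤ 1 := by nlinarith [sq_nonneg a, sq_nonneg c]
    omega
  have hc : c = -1 ∨ c = 0 ∨ c = 1 := by
    have : -1 ≤ c := by nlinarith [sq_nonneg b, sq_nonneg a]
    have : c ≤ 1 := by nlinarith [sq_nonneg b, sq_nonneg a]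
    omega
  rcases ha with rfl | rfl | rfl <;> rcases hb with rfl | rfl | rfl <;>
    rcases hc with rfl | rfl | rfl <;> first
    | decide
    | (exfalso; revert h; norm_num; done)

theorem comm_rel (n v : Fin 3 → ℤ) : pq n * (pq v * pq n) =
    -((2 * (n 0 * v 0 + n 1 * v 1 + n 2 * v 2) : ℤ) : ℍ[ℚ]) * pq n +
      ((n 0 ^ 2 + n 1 ^ 2 + n 2 ^ 2 : ℤ) : ℍ[ℚ]) * pq v := by
  have e : ∀ (z : ℤ) (x : ℍ[ℚ]), (z : ℍ[ℚ]) * x = (z : ℚ) • x := by
    intro z x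
    rw [← ratmul]
    norm_cast
  rw [neg_mul, e, e]
  apply ext4
  · simp [re_mul, imI_mul, imJ_mul, imK_mul, pq]
    ring
  · simp [re_mul, imI_mul, imJ_mul, imK_mul, pq]
    ring
  · simp [re_mul, imI_mul, imJ_mul, imK_mul, pq]
    ring
  · simp [re_mul, imI_mul, imJ_mul, imK_mul, pq]
    ring

/-- the condition for preserving the second ideal -/
theorem pres_iff {n v : Fin 3 → ℤ} (hn : n 0 ^ 2 + n 1 ^ 2 + n 2 ^ 2 = ((17 : ℕ) : ℤ))
    (hp : ∃ i, ¬ (17 : ℤ) ∣ 4 * n i) :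
    (∀ x ∈ lm (pq n) Oo, pq v * x ∈ lm (pq n) Oo) ↔ (17 : ℤ) ∣ n 0 * v 0 + n 1 * v 1 + n 2 * v 2 := by
  have h17 : ((17 : ℕ) : ℍ[ℚ]) ≠ 0 := natH_ne (by norm_num)
  have hrel := comm_rel n v
  rw [hn] at hrel
  constructor
  · intro h
    have h1 := h (pq n) (mem_lm.2 ⟨1, Hur.one_mem, by rw [mul_one]⟩)
    obtain ⟨y, hy, e⟩ := mem_lm.1 h1
    rw [← e, ← mul_assoc] at hrel
    have hsq : pq n * pq n = -((17 : ℕ) : ℍ[ℚ]) := by
      have := pq_sq n hn 1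
      rwa [mul_one, mul_one] at this
    rw [hsq, neg_mul] at hrel
    obtain ⟨A, B, C', D, g1, g2, g3, g4⟩ := doubled hy
    have e17 : ∀ x : ℍ[ℚ], ((17 : ℕ) : ℍ[ℚ]) * x = (17 : ℚ) • x := by
      intro x
      rw [← ratmul]
      norm_cast
    have e17' : ∀ x : ℍ[ℚ], (((17 : ℕ) : ℤ) : ℍ[ℚ]) * x = (17 : ℚ) • x := by
      intro x
      rw [← ratmul]
      norm_cast
    have ez : ∀ (z : ℤ) (x : ℍ[ℚ]), (z : ℍ[ℚ]) * x = (z : ℚ) • x := by
      intro z x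
      rw [← ratmul]
      norm_cast
    rw [neg_mul, e17, e17', ez] at hrel
    have k1 := congrArg QuaternionAlgebra.imI hrel
    have k2 := congrArg QuaternionAlgebra.imJ hrel
    have k3 := congrArg QuaternionAlgebra.imK hrel
    simp [pq, g2, g3, g4] at k1 k2 k3
    have p17z : Prime (17 : ℤ) := Nat.prime_iff_prime_int.1 p17
    have q1 : (17 : ℤ) ∣ 4 * n 0 * (n 0 * v 0 + n 1 * v 1 + n 2 * v 2) := by
      refine ⟨B + 2 * v 0, ?_⟩
      have : ((4 * n 0 * (n 0 * v 0 + n 1 * v 1 + n 2 * v 2) : ℤ) : ℚ) = ((17 * (B + 2 * v 0) : ℤ) : ℚ) := by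
        push_cast
        linear_combination 2 * k1
      exact_mod_cast this
    have q2 : (17 : ℤ) ∣ 4 * n 1 * (n 0 * v 0 + n 1 * v 1 + n 2 * v 2) := by
      refine ⟨C' + 2 * v 1, ?_⟩
      have : ((4 * n 1 * (n 0 * v 0 + n 1 * v 1 + n 2 * v 2) : ℤ) : ℚ) = ((17 * (C' + 2 * v 1) : ℤ) : ℚ) := by
        push_cast
        linear_combination 2 * k2
      exact_mod_cast this
    have q3 : (17 : ℤ) ∣ 4 * n 2 * (n 0 * v 0 + n 1 * v 1 + n 2 * v 2) := by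
      refine ⟨D + 2 * v 2, ?_⟩
      have : ((4 * n 2 * (n 0 * v 0 + n 1 * v 1 + n 2 * v 2) : ℤ) : ℚ) = ((17 * (D + 2 * v 2) : ℤ) : ℚ) := by
        push_cast
        linear_combination 2 * k3
      exact_mod_cast this
    obtain ⟨i, hi⟩ := hp
    fin_cases i
    · exact (p17z.dvd_or_dvd q1).resolve_left hi
    · exact (p17z.dvd_or_dvd q2).resolve_left hi
    · exact (p17z.dvd_or_dvd q3).resolve_left hi
  · rintro ⟨t, ht⟩ x hx
    obtain ⟨y, hy, rfl⟩ := mem_lm.1 hx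
    rw [← mul_assoc]
    have h1 : pq v * pq n ∈ lm (pq n) Oo := by
      apply mem_of_mul (by norm_num) hn
      refine ⟨-((2 * t : ℤ) : ℍ[ℚ]) * pq n + pq v, ?_, ?_⟩
      · exact Hur.add_mem (Hur.mul_mem (Hur.neg_mem (intCast_mem_Hur _)) (pq_mem n)) (pq_mem v)
      · have e1 : ((2 * (17 * t) : ℤ) : ℍ[ℚ]) = ((17 : ℕ) : ℍ[ℚ]) * ((2 * t : ℤ) : ℍ[ℚ]) := by
          rw [← Int.cast_natCast, ← Int.cast_mul]
          congr 1
          push_cast
          ring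
        have e2 : (((17 : ℕ) : ℤ) : ℍ[ℚ]) = ((17 : ℕ) : ℍ[ℚ]) := Int.cast_natCast 17
        rw [hrel, ht, mul_add, e1, e2, neg_mul, neg_mul, mul_neg, mul_assoc]
    obtain ⟨z, hz, e⟩ := mem_lm.1 h1
    rw [← e, mul_assoc]
    exact mul_mem_lm (Hur.mul_mem hz hy)

end Pool.Agent.Helper725_HQ
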