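import Pool.Agent.Helper725_HQ.QEx

/-! Existence of ordinary eigenforms of level 17: the lattice and the functional. -/

set_option autoImplicit false
set_option linter.unusedSimpArgs false
set_option linter.unnecessarySeqFocus false

namespace Pool.Agent.Helper725_HQ

open Quaternion MvPolynomial

theorem lq_pq (v : Fin 3 → ℤ) : lq (pq v) = lf v := by
  unfold lq lf
  apply Finset.sum_congr rfl
  intro j _
  rw [vec_pq, Rat.cast_intCast]

theorem lf_neg {R : Type*} [CommRing R] (v : Fin 3 → ℤ) :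
    (lf (-v) : MvPolynomial (Fin 3) R) = -lf v := by
  unfold lf
  rw [← Finset.sum_neg_distrib]
  apply Finset.sum_congr rfl
  intro j _
  rw [Pi.neg_apply, Int.cast_neg, C_neg, neg_mul]

theorem A1_mem {n v : Fin 3 → ℤ} (hn : n 0 ^ 2 + n 1 ^ 2 + n 2 ^ 2 = ((17 : ℕ) : ℤ))
    (hp : ∃ i, ¬ (17 : ℤ) ∣ 4 * n i) (hv : v 0 ^ 2 + v 1 ^ 2 + v 2 ^ 2 = 1) :
    pq v ∈ A1 Oo (lm (pq n) Oo) ↔ (17 : ℤ) ∣ n 0 * v 0 + n 1 * v 1 + n 2 * v 2 := by
  rw [← pres_iff hn hp]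
  constructor
  · rintro ⟨_, _, _, h⟩
    exact h
  · intro h
    refine ⟨rfl, ?_, ?_, h⟩
    · rw [normSq_pq, hv]; rfl
    · intro x hx
      exact Hur.mul_mem (pq_mem _) hx

theorem A1_form {I' : AddSubgroup ℍ[ℚ]} {y : ℍ[ℚ]} (h : y ∈ A1 Oo I') :
    ∃ v : Fin 3 → ℤ, y = pq v ∧ v 0 ^ 2 + v 1 ^ 2 + v 2 ^ 2 = 1 ∧
      (v = ![1, 0, 0] ∨ v = ![-1, 0, 0] ∨ v = ![0, 1, 0] ∨ v = ![0, -1, 0] ∨ v = ![0, 0, 1] ∨
        v = ![0, 0, -1]) := by
  obtain ⟨h1, h2, h3, _⟩ := h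
  have h4 : y ∈ Hur := by
    have := h3 1 Hur.one_mem
    rwa [mul_one] at this
  obtain ⟨a, b, c, rfl⟩ := pure_int h4 h1
  rw [normSq_def'] at h2
  simp only [mk4_re, mk4_imI, mk4_imJ, mk4_imK] at h2
  have h5 : a ^ 2 + b ^ 2 + c ^ 2 = 1 := by
    have : (a : ℚ) ^ 2 + b ^ 2 + c ^ 2 = 1 := by linear_combination h2
    exact_mod_cast this
  refine ⟨![a, b, c], rfl, h5, ?_⟩
  have h6 := one_vec h5
  simp only [List.mem_cons, Prod.mk.injEq, List.not_mem_nil, or_false] at h6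
  rcases h6 with ⟨rfl, rfl, rfl⟩ | ⟨rfl, rfl, rfl⟩ | ⟨rfl, rfl, rfl⟩ | ⟨rfl, rfl, rfl⟩ |
    ⟨rfl, rfl, rfl⟩ | ⟨rfl, rfl, rfl⟩
  · left; rfl
  · right; left; rfl
  · right; right; left; rfl
  · right; right; right; left; rfl
  · right; right; right; right; left; rfl
  · right; right; right; right; right; rfl

theorem A1_A : A1 Oo (lm (pq nA) Oo) = {pq ![0, 0, 1], pq ![0, 0, -1]} := by
  have hp : ∃ i, ¬ (17 : ℤ) ∣ 4 * nA i := ⟨0, by decide⟩
  ext y
  rw [Set.mem_insert_iff, Set.mem_singleton_iff]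
  constructor
  · intro h
    obtain ⟨v, rfl, hv, h6⟩ := A1_form h
    rw [A1_mem nA_norm hp hv] at h
    rcases h6 with rfl | rfl | rfl | rfl | rfl | rfl
    · exact absurd h (by decide)
    · exact absurd h (by decide)
    · exact absurd h (by decide)
    · exact absurd h (by decide)
    · exact Or.inl rfl
    · exact Or.inr rfl
  · rintro (rfl | rfl)
    · rw [A1_mem nA_norm hp (by decide)]; decide
    · rw [A1_mem nA_norm hp (by decide)]; decide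

theorem A1_B : A1 Oo (lm (pq nB) Oo) = ∅ := by
  have hp : ∃ i, ¬ (17 : ℤ) ∣ 4 * nB i := ⟨0, by decide⟩
  ext y
  rw [Set.mem_empty_iff_false, iff_false]
  intro h
  obtain ⟨v, rfl, hv, h6⟩ := A1_form h
  rw [A1_mem nB_norm hp hv] at h
  rcases h6 with rfl | rfl | rfl | rfl | rfl | rfl
  · exact absurd h (by decide)
  · exact absurd h (by decide)
  · exact absurd h (by decide)
  · exact absurd h (by decide)
  · exact absurd h (by decide)
  · exact absurd h (by decide)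

theorem GF_A {k : ℕ} (hk : Even k) : GF k Oo (lm (pq nA) Oo) = 2 * (lf ![0, 0, 1]) ^ k := by
  rw [GF_pos (pair_pq p17 nA_norm), A1_A, finsum_mem_pair]
  · rw [lq_pq, lq_pq]
    have : (![0, 0, -1] : Fin 3 → ℤ) = -![0, 0, 1] := by
      funext j; fin_cases j <;> rfl
    rw [this, lf_neg, hk.neg_pow, two_mul]
  · intro h
    have h1 := congrArg QuaternionAlgebra.imK h
    simp [pq] at h1
    norm_num at h1

theorem GF_B {k : ℕ} : GF k Oo (lm (pq nB) Oo) = 0 := by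
  rw [GF_pos (pair_pq p17 nB_norm), A1_B, finsum_mem_empty]

/-- the space of forms of level 17 invariant under the involution -/
noncomputable def Wp (k : ℕ) : Submodule ℂ Fun3 :=
  W0 17 k ⊓ LinearMap.ker (ww 17 - LinearMap.id)

theorem mem_Wp {k : ℕ} {F : Fun3} : F ∈ Wp k ↔ Form0 17 k F ∧ ww 17 F = F := by
  unfold Wp
  rw [Submodule.mem_inf, mem_W0, LinearMap.mem_ker, LinearMap.sub_apply, LinearMap.id_apply,
    sub_eq_zero]

/-- the two values -/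
noncomputable def vAB (k : ℕ) : ↥(Wp k) →ₗ[ℂ] ↥(homogeneousSubmodule (Fin 3) ℂ k) ×
    ↥(homogeneousSubmodule (Fin 3) ℂ k) where
  toFun F := (⟨F.1 Oo (lm (pq nA) Oo), (mem_homogeneousSubmodule _ _).2
    ((mem_Wp.1 F.2).1.hom _ _)⟩, ⟨F.1 Oo (lm (pq nB) Oo), (mem_homogeneousSubmodule _ _).2
    ((mem_Wp.1 F.2).1.hom _ _)⟩)
  map_add' _ _ := rfl
  map_smul' _ _ := rfl

theorem Wp_fin (k : ℕ) : FiniteDimensional ℂ ↥(Wp k) := by
  have h1 : FiniteDimensional ℂ ↥(homogeneousSubmodule (Fin 3) ℂ k) :=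
    Module.Finite.iff_fg.2 (homogeneousSubmodule_fg (Fin 3) ℂ k)
  apply FiniteDimensional.of_injective (vAB k)
  intro F G h
  have h2 : F.1 Oo (lm (pq nA) Oo) = G.1 Oo (lm (pq nA) Oo) :=
    congrArg (fun z => (z.1 : MvPolynomial (Fin 3) ℂ)) h
  have h2' : F.1 Oo (lm (pq nB) Oo) = G.1 Oo (lm (pq nB) Oo) :=
    congrArg (fun z => (z.2 : MvPolynomial (Fin 3) ℂ)) h
  have h3 : F - G = 0 := by
    apply Subtype.ext
    apply form_ext (k := k) (mem_Wp.1 (F - G).2).1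
    · show F.1 _ _ - G.1 _ _ = 0
      rw [h2, sub_self]
    · show F.1 _ _ - G.1 _ _ = 0
      rw [h2', sub_self]
  exact sub_eq_zero.1 h3

theorem TL_Wp {k p : ℕ} (hp : p.Prime) (hpq : p.Coprime 17) {F : Fun3} (hF : F ∈ Wp k) :
    TL 17 p hp F ∈ Wp k := by
  rw [mem_Wp] at hF ⊢
  refine ⟨TL_form hp hF.1, ?_⟩
  rw [← TL_ww hp hpq (by norm_num), hF.2]

/-- the normalized Hecke operator at three -/
noncomputable def TQ (k : ℕ) : ↥(Wp k) →ₗ[ℂ] ↥(Wp k) :=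
  ((3 : ℂ) ^ k) • (TL 17 3 p3).restrict (fun _ h => TL_Wp p3 (by norm_num) h)

theorem TQ_apply {k : ℕ} (F : ↥(Wp k)) : (TQ k F).1 = (3 : ℂ) ^ k • TL 17 3 p3 F.1 := rfl

section
variable {V : ValuationSubring ℂ}

/-- integrality of the two values -/
def InR (V : ValuationSubring ℂ) (F : Fun3) : Prop := ∃ gA gB, Red V F gA gB

theorem InR_T (hV : Thr V) {k : ℕ} {F : ↥(Wp k)} (h : InR V F.1) : InR V (TQ k F).1 := by
  obtain ⟨gA, gB, h1⟩ := h
  rw [TQ_apply]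
  exact ⟨_, _, h1.T3 hV (mem_Wp.1 F.2).1⟩

theorem InR_scale {k : ℕ} {F : Fun3} (hF : Form0 17 k F) (h0 : F ≠ 0) :
    ∃ c : ℂ, c ≠ 0 ∧ InR V (c • F) ∧ ∀ a : ℂ, InR V (a • (c • F)) → a ∈ V := by
  classical
  set PA := F Oo (lm (pq nA) Oo) with hPA
  set PB := F Oo (lm (pq nB) Oo) with hPB
  set φ : (Fin 3 →₀ ℕ) ⊕ (Fin 3 →₀ ℕ) → ℂ := Sum.elim (fun m => coeff m PA) (fun m => coeff m PB)
    with hφ
  have hne : ∃ j ∈ PA.support.disjSum PB.support, φ j ≠ 0 := by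
    by_cases hA : PA = 0
    · have hB : PB ≠ 0 := fun hB => h0 (form_ext hF hA hB)
      obtain ⟨m, hm⟩ := support_nonempty.2 hB
      exact ⟨Sum.inr m, by simpa using hm, by simpa [hφ] using hm⟩
    · obtain ⟨m, hm⟩ := support_nonempty.2 hA
      exact ⟨Sum.inl m, by simpa using hm, by simpa [hφ] using hm⟩
  obtain ⟨c, hc, h1, j, hj, h2⟩ := scale_fin (V := V) _ φ hne
  have hcA : ∀ m, coeff m (c • PA) ∈ V := by
    intro m
    rw [coeff_smul, smul_eq_mul]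
    by_cases hm : m ∈ PA.support
    · exact h1 (Sum.inl m) (by simpa using hm)
    · rw [notMem_support_iff.1 hm, mul_zero]; exact V.zero_mem
  have hcB : ∀ m, coeff m (c • PB) ∈ V := by
    intro m
    rw [coeff_smul, smul_eq_mul]
    by_cases hm : m ∈ PB.support
    · exact h1 (Sum.inr m) (by simpa using hm)
    · rw [notMem_support_iff.1 hm, mul_zero]; exact V.zero_mem
  obtain ⟨fA, hfA⟩ := lift_poly hcA
  obtain ⟨fB, hfB⟩ := lift_poly hcB
  refine ⟨c, hc, ⟨_, _, fA, fB, hfA, hfB, rfl, rfl⟩, ?_⟩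
  rintro a ⟨_, _, gA, gB, hgA, hgB, _, _⟩
  rcases j with m | m
  · have h3 : a * (c * coeff m PA) = ((coeff m gA : V) : ℂ) := by
      have h4 := congrArg (coeff m) hgA
      rw [coeff_map] at h4
      have h5 : coeff m ((a • c • F) Oo (lm (pq nA) Oo)) = a * (c * coeff m PA) := by
        show coeff m (a • c • PA) = _
        rw [coeff_smul, coeff_smul, smul_eq_mul, smul_eq_mul]
      rw [h5] at h4
      exact h4.symm
    have h5 : c * coeff m PA = 1 := h2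
    rw [h5, mul_one] at h3
    rw [h3]
    exact (coeff m gA).2
  · have h3 : a * (c * coeff m PB) = ((coeff m gB : V) : ℂ) := by
      have h4 := congrArg (coeff m) hgB
      rw [coeff_map] at h4
      have h5 : coeff m ((a • c • F) Oo (lm (pq nB) Oo)) = a * (c * coeff m PB) := by
        show coeff m (a • c • PB) = _
        rw [coeff_smul, coeff_smul, smul_eq_mul, smul_eq_mul]
      rw [h5] at h4
      exact h4.symm
    have h5 : c * coeff m PB = 1 := h2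
    rw [h5, mul_one] at h3
    rw [h3]
    exact (coeff m gB).2

/-- evaluation at an integral vector as a linear map -/
noncomputable def evl (v : Fin 3 → ℤ) : MvPolynomial (Fin 3) ℂ →ₗ[ℂ] ℂ :=
  (aeval (fun j => ((v j : ℤ) : ℂ)) : MvPolynomial (Fin 3) ℂ →ₐ[ℂ] ℂ).toLinearMap

theorem evl_apply (v : Fin 3 → ℤ) (P : MvPolynomial (Fin 3) ℂ) :
    evl v P = eval (fun j => ((v j : ℤ) : ℂ)) P := rfl

/-- the functional -/
noncomputable def psi (k : ℕ) : ↥(Wp k) →ₗ[ℂ] ℂ where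
  toFun F := evl (aa 0) (F.1 Oo (lm (pq nB) Oo)) + 2 * evl (aa 2) (F.1 Oo (lm (pq nA) Oo)) +
    2 * evl (aa 1) (F.1 Oo (lm (pq nB) Oo)) + evl (aa 2) (F.1 Oo (lm (pq nB) Oo))
  map_add' F G := by
    show evl _ (F.1 _ _ + G.1 _ _) + 2 * evl _ (F.1 _ _ + G.1 _ _) +
      2 * evl _ (F.1 _ _ + G.1 _ _) + evl _ (F.1 _ _ + G.1 _ _) = _
    simp only [map_add]
    ring
  map_smul' c F := by
    show evl _ (c • F.1 _ _) + 2 * evl _ (c • F.1 _ _) +
      2 * evl _ (c • F.1 _ _) + evl _ (c • F.1 _ _) = c * _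
    simp only [map_smul, smul_eq_mul]
    ring

theorem evl_map {f : MvPolynomial (Fin 3) V} (v : Fin 3 → ℤ) :
    evl v (map V.subtype f) = ((eval (fun j => ((v j : ℤ) : V)) f : V) : ℂ) := by
  rw [evl_apply, eval_map]
  show _ = V.subtype (eval (fun j => ((v j : ℤ) : V)) f)
  rw [← eval2_hom]
  congr 1

/-- the reduction of the functional -/
theorem psi_red {k : ℕ} {F : ↥(Wp k)} {gA gB : MvPolynomial (Fin 3) (kap V)}
    (h : Red V F.1 gA gB) : ∃ v : V, psi k F = (v : ℂ) ∧ rs V v =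
      evz gB (aa 0) + 2 * evz gA (aa 2) + 2 * evz gB (aa 1) + evz gB (aa 2) := by
  obtain ⟨fA, fB, h1, h2, rfl, rfl⟩ := h
  refine ⟨eval (fun j => ((aa 0 j : ℤ) : V)) fB + 2 * eval (fun j => ((aa 2 j : ℤ) : V)) fA +
    2 * eval (fun j => ((aa 1 j : ℤ) : V)) fB + eval (fun j => ((aa 2 j : ℤ) : V)) fB, ?_, ?_⟩
  · show evl (aa 0) (F.1 Oo (lm (pq nB) Oo)) + 2 * evl (aa 2) (F.1 Oo (lm (pq nA) Oo)) +
      2 * evl (aa 1) (F.1 Oo (lm (pq nB) Oo)) + evl (aa 2) (F.1 Oo (lm (pq nB) Oo)) = _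
    rw [← h1, ← h2, evl_map, evl_map, evl_map, evl_map]
    push_cast
    have e6 : ((2 : V) : ℂ) = 2 := rfl
    rw [e6]
  · rw [evz_map, evz_map, evz_map, evz_map]
    simp only [map_add, map_mul, map_ofNat]

/-- the functional is an eigenfunctional of the Hecke operator modulo three -/
theorem psi_T (hV : Thr V) {k : ℕ} (hk : Even k) (hk0 : k ≠ 0) {F : ↥(Wp k)} (h : InR V F.1) :
    V.valuation (psi k (TQ k F) - 1 * psi k F) < 1 := by
  obtain ⟨gA, gB, hR⟩ := h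
  obtain ⟨hF, hw⟩ := mem_Wp.1 F.2
  have hhom := hR.hom hF
  have hT := hR.T3 hV hF
  rw [← TQ_apply] at hT
  obtain ⟨v, hv1, hv2⟩ := psi_red hR
  obtain ⟨v', hv1', hv2'⟩ := psi_red hT
  have hW := hR.ww hF
  have e2 : (17 : ℂ) ^ k • ww 17 F.1 = (((((17 : ℕ) : V) ^ k : V)) : ℂ) • F.1 := by
    rw [hw]
    congr 1
  rw [e2] at hW
  have hS2 := hR.smul (((17 : ℕ) : V) ^ k : V)
  obtain ⟨_, u3⟩ := hW.unique hS2
  have hrs : rs V (((17 : ℕ) : V) ^ k : V) = ((17 : ℕ) : kap V) ^ k := by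
    rw [map_pow, map_natCast]
  rw [hrs] at u3
  have s0 := sym_B hV hk hhom.2 u3
  rw [hv1, hv1', one_mul]
  have e3 : ((v' : V) : ℂ) - (v : ℂ) = ((v' - v : V) : ℂ) := rfl
  rw [e3]
  apply val_lt
  rw [map_sub, hv2, hv2', TbB_val hk hhom.1 hhom.2, TbA_val hk hhom.2,
    TbB_val hk hhom.1 hhom.2, TbB_val hk hhom.1 hhom.2]
  simp only [pow_aa hV hk hk0]
  simp only [Fin.reduceEq, if_true, if_false, ↓reduceIte, mul_one, mul_zero, zero_add, add_zero]
  rw [← s0]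
  have t0 := three_zero hV
  linear_combination (2 * evz gB (aa 0) + evz gA (aa 2) + evz gB (aa 2)) * t0

theorem psi_GF {k : ℕ} (hk : Even k) : psi k ⟨GF k, mem_Wp.2 ⟨GF_form k, GF_ww k⟩⟩ = 4 := by
  show evl (aa 0) (GF k Oo (lm (pq nB) Oo)) + 2 * evl (aa 2) (GF k Oo (lm (pq nA) Oo)) +
      2 * evl (aa 1) (GF k Oo (lm (pq nB) Oo)) + evl (aa 2) (GF k Oo (lm (pq nB) Oo)) = 4
  rw [GF_A hk, GF_B, map_zero, map_zero, map_zero, evl_apply, map_mul, map_pow, eval_lf]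
  simp [aa]
  norm_num

theorem exists_ord {k : ℕ} (hV : Thr V) (hk : Even k) (hk0 : k ≠ 0) :
    ∃ w : V, rs V w ≠ 0 ∧ ∃ F : Fun3, F ∈ Wp k ∧ F ≠ 0 ∧ ∃ lam : ℂ, TL 17 3 p3 F = lam • F ∧
      (3 : ℂ) ^ k * lam = (w : ℂ) := by
  have hfd := Wp_fin k
  obtain ⟨μ, hμ, w, hw0, hw⟩ := unit_eig (TQ k) V {F | InR V F.1} (fun F hF => InR_T hV hF)
    (by
      intro F hF
      have hne : F.1 ≠ 0 := fun h => hF (Subtype.ext h)
      obtain ⟨c, hc, h1, h2⟩ := InR_scale (V := V) (mem_Wp.1 F.2).1 hne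
      exact ⟨c, hc, h1, h2⟩) (psi k) 1 (map_one _) (fun F hF => psi_T hV hk hk0 hF)
    ⟨GF k, mem_Wp.2 ⟨GF_form k, GF_ww k⟩⟩ (by
      refine ⟨_, _, 2 * (lf ![0, 0, 1]) ^ k, 0, ?_, ?_, rfl, rfl⟩
      · show _ = GF k Oo (lm (pq nA) Oo)
        rw [GF_A hk, map_mul, map_ofNat, map_pow]
        congr 2
        unfold lf
        rw [map_sum]
        apply Finset.sum_congr rfl
        intro j _
        rw [map_mul, map_C, map_X, map_intCast]
      · show _ = GF k Oo (lm (pq nB) Oo)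
        rw [GF_B, map_zero]) (by
      rw [psi_GF hk]
      have h1 := rs_int_ne hV (n := 4) (by norm_num)
      have h2 : rs V (4 : V) ≠ 0 := by
        rw [map_ofNat]
        exact_mod_cast h1
      exact val_one h2)
  have hμV : μ ∈ V := (V.valuation_le_one_iff μ).1 hμ.le
  refine ⟨⟨μ, hμV⟩, ?_, w.1, w.2, ?_, (1 / 3 ^ k) * μ, ?_, ?_⟩
  · intro h
    have := val_lt h
    exact absurd hμ this.ne
  · intro h
    exact hw0 (Subtype.ext h)
  · have h1 : ((3 : ℂ) ^ k) • TL 17 3 p3 w.1 = μ • w.1 := congrArg Subtype.val hw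
    have h2 : (1 : ℂ) / 3 ^ k * ((3 : ℂ) ^ k) = 1 := by field_simp
    rw [mul_smul, ← h1, ← mul_smul, h2, one_smul]
  · show (3 : ℂ) ^ k * (1 / 3 ^ k * μ) = μ
    field_simp

end

end Pool.Agent.Helper725_HQ
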