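import Pool.Agent.Helper725_HQ.QEx2

/-! Ordinary eigenforms of level 17 are harmonic and new. -/

set_option autoImplicit false
set_option linter.unusedSimpArgs false
set_option linter.unnecessarySeqFocus false

namespace Pool.Agent.Helper725_HQ

open Quaternion MvPolynomial

/-- the Laplacian of a form of level 17 -/
noncomputable def LQ (F : Fun3) : Fun3 := fun I I' => lap (F I I')

theorem LQ_form {k : ℕ} {F : Fun3} (hF : Form0 17 k F) : Form0 17 (k - 2) (LQ F) := by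
  refine ⟨fun I I' h => ?_, fun I I' => ?_, fun α hα I I' => ?_, fun I I' => ?_⟩
  · unfold LQ
    rw [hF.supp I I' h, lap_zero]
  · unfold LQ lap
    apply IsHomogeneous.sum
    intro i _
    exact ((hF.hom I I').pderiv (i := i)).pderiv (i := i)
  · unfold LQ
    rw [hF.left α hα, lap_rC hα]
  · unfold LQ
    rw [hF.two]

theorem LQ_TL {F : Fun3} : TL 17 3 p3 (LQ F) = LQ (TL 17 3 p3 F) := by
  funext I I'
  by_cases h : IsPair 17 I I'
  · unfold LQ
    rw [TL_apply p3 h, TL_apply p3 h, finsum_mem_eq_finite_toFinset_sum _ (Sp_finite p3 h.fst),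
      finsum_mem_eq_finite_toFinset_sum _ (Sp_finite p3 h.fst), lap_sum]
  · unfold LQ
    rw [TL_apply' p3 h, TL_apply' p3 h, lap_zero]

/-- ordinary eigenforms are harmonic -/
theorem harm_of_ord {V : ValuationSubring ℂ} (hV : Thr V) {k : ℕ} (hk : 2 ≤ k) {F : Fun3}
    (hF : Form0 17 k F) {lam : ℂ} (he : TL 17 3 p3 F = lam • F) {w : V} (hw : rs V w ≠ 0)
    (hlw : (3 : ℂ) ^ k * lam = (w : ℂ)) : LQ F = 0 := by
  by_contra hne
  have hL := LQ_form hF
  have he' : TL 17 3 p3 (LQ F) = lam • LQ F := by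
    rw [LQ_TL, he]
    funext I I'
    unfold LQ
    rw [Pi.smul_apply, Pi.smul_apply, Pi.smul_apply, Pi.smul_apply, smul_eq_C_mul, smul_eq_C_mul,
      lap_C_mul]
  obtain ⟨c, hc, gA, gB, hR, hne2⟩ := exists_scale (V := V) hL hne
  have hL' : Form0 17 (k - 2) (c • LQ F) := (W0 17 (k - 2)).smul_mem c hL
  have hT := hR.T3 hV hL'
  have h9 := hT.smul (9 : V)
  have hS := hR.smul w
  have e : ((9 : V) : ℂ) • ((3 : ℂ) ^ (k - 2) • TL 17 3 p3 (c • LQ F)) = (w : ℂ) • (c • LQ F) := by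
    rw [map_smul, he', ← hlw]
    have e9 : ((9 : V) : ℂ) = 9 := rfl
    have e3 : (3 : ℂ) ^ k = 9 * 3 ^ (k - 2) := by
      have : (3 : ℂ) ^ k = 3 ^ 2 * 3 ^ (k - 2) := by
        rw [← pow_add]; congr 1; omega
      rw [this]; norm_num
    rw [e9, e3, smul_smul, smul_smul, smul_smul, smul_smul]
    congr 1
    ring
  rw [e] at h9
  obtain ⟨u1, u2⟩ := hS.unique h9
  have e9 : rs V (9 : V) = 0 := by
    have : (9 : V) = 3 * 3 := by norm_num
    rw [this, map_mul, three_zero' hV, mul_zero]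
  rw [e9, C_0, zero_mul] at u1 u2
  have hC : (C (rs V w) : MvPolynomial (Fin 3) (kap V)) ≠ 0 := by
    rw [Ne, C_eq_zero]; exact hw
  exact hne2 ⟨(mul_eq_zero.1 u1).resolve_left hC, (mul_eq_zero.1 u2).resolve_left hC⟩

/-- there are no ordinary eigenforms of level one -/
theorem no_ord_one {V : ValuationSubring ℂ} (hV : Thr V) {k : ℕ} (hk : Even k) (hk0 : k ≠ 0)
    {G : Fun1} (hG : Form1 k G) {lam : ℂ} (he : TL1 3 p3 G = lam • G) {w : V}
    (hw : rs V w ≠ 0) (hlw : (3 : ℂ) ^ k * lam = (w : ℂ)) : G = 0 := by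
  by_contra hne
  have hP : G Oo ≠ 0 := fun h => hne (form1_ext hG h)
  obtain ⟨c, hc, f, hf, hf0⟩ := scale_poly (V := V) hP
  have hG' : Form1 k (c • G) := (W1 k).smul_mem c hG
  have hfF : map V.subtype f = (c • G) Oo := by
    rw [hf, Pi.smul_apply, smul_eq_C_mul]
  have hsym : Sym f := Sym.of_map sub_inj (by rw [hfF]; exact sym_of_form hk hG')
  have hhom : f.IsHomogeneous k := IsHomogeneous.of_map sub_inj (by rw [hfF]; exact hG'.hom Oo)
  have hTT : TT f = C w * f := by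
    apply map_injective V.subtype sub_inj
    rw [TT_map, hfF, ← T3_TT hG', map_mul, map_C, map_smul, he, hfF]
    have e1 : V.subtype w = 3 ^ k * lam := hlw.symm
    rw [e1]
    simp only [Pi.smul_apply, smul_eq_C_mul, C_mul]
    ring
  obtain ⟨g, hg⟩ := TT_expand hhom (Nat.one_le_iff_ne_zero.2 hk0) hsym
  rw [hTT] at hg
  have h9 : rs V (9 : V) = 0 := by
    have : (9 : V) = 3 * 3 := by norm_num
    rw [this, map_mul, three_zero' hV, mul_zero]
  have hev := congrArg (eval ![1, 1, 1]) hg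
  rw [map_mul, eval_C, map_add, map_mul, eval_C, map_mul, eval_SS_one, map_ofNat] at hev
  have hev2 := congrArg (rs V) hev
  rw [map_mul, map_add, map_mul (rs V) (9 : V), h9, zero_mul, add_zero, map_mul, map_add, map_pow,
    three_zero' hV, zero_pow hk0, add_zero, mul_zero] at hev2
  have hc' : rs V (eval ![1, 1, 1] f) = 0 := (mul_eq_zero.1 hev2).resolve_left hw
  have h1 := congrArg (map (rs V)) hg
  have e3' : map (rs V) (9 : MvPolynomial (Fin 3) V) = 0 := by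
    have : (9 : MvPolynomial (Fin 3) V) = C (9 : V) := rfl
    rw [this, map_C, h9, C_0]
  obtain ⟨A, hA⟩ : ∃ A : V, A = 2 ^ (k - 1) * (2 - (k : V)) * eval ![1, 1, 1] f := ⟨_, rfl⟩
  have hA0 : rs V A = 0 := by rw [hA, map_mul, hc', mul_zero]
  rw [← hA, map_mul, map_add, map_mul, map_C, map_C, hA0, C_0, zero_mul, zero_add, map_mul, e3',
    zero_mul] at h1
  rcases mul_eq_zero.1 h1 with h2 | h2
  · rw [C_eq_zero] at h2
    exact hw h2
  · exact hf0 h2

open Classical in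
/-- the trace to level one -/
noncomputable def Tr (F : Fun3) : Fun1 := fun I => if IsRI I then ∑ᶠ I' ∈ Sp 17 I, F I I' else 0

theorem Tr_pos {F : Fun3} {I : AddSubgroup ℍ[ℚ]} (h : IsRI I) : Tr F I = ∑ᶠ I' ∈ Sp 17 I, F I I' := by
  unfold Tr; rw [if_pos h]

theorem Tr_neg {F : Fun3} {I : AddSubgroup ℍ[ℚ]} (h : ¬ IsRI I) : Tr F I = 0 := by
  unfold Tr; rw [if_neg h]

theorem Tr_form {k : ℕ} {F : Fun3} (hF : Form0 17 k F) : Form1 k (Tr F) := by
  refine ⟨fun I h => Tr_neg h, fun I => ?_, fun α hα I => ?_, fun I => ?_⟩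
  · by_cases h : IsRI I
    · rw [Tr_pos h, finsum_mem_eq_finite_toFinset_sum _ (Sp_finite p17 h)]
      exact IsHomogeneous.sum _ _ _ (fun J _ => hF.hom _ _)
    · rw [Tr_neg h]
      exact isHomogeneous_zero _ _ _
  · by_cases h : IsRI I
    · rw [Tr_pos h, Tr_pos ((lm_isRI_iff hα).2 h), Sp_lm hα,
        finsum_mem_image ((lm_injective hα).injOn)]
      have e : ∀ J ∈ Sp 17 I, F (lm α I) (lm α J) = lsub (rC α) (F I J) := by
        intro J _
        rw [hF.left α hα]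
      rw [finsum_mem_congr rfl e]
      exact ((lsub (rC α) : MvPolynomial (Fin 3) ℂ →+ MvPolynomial (Fin 3) ℂ).map_finsum_mem _
        (Sp_finite p17 h)).symm
    · rw [Tr_neg h, Tr_neg (fun h' => h ((lm_isRI_iff hα).1 h')), map_zero]
  · by_cases h : IsRI I
    · rw [Tr_pos h, Tr_pos (rm_isRI_iff.2 h), Sp_rm,
        finsum_mem_image ((rm_injective ep_ne).injOn)]
      apply finsum_mem_congr rfl
      intro J _
      rw [hF.two]
    · rw [Tr_neg h, Tr_neg (fun h' => h (rm_isRI_iff.1 h'))]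

theorem Tr_TL {F : Fun3} : TL1 3 p3 (Tr F) = Tr (TL 17 3 p3 F) := by
  funext I
  by_cases h : IsRI I
  · rw [TL1_apply p3 h, Tr_pos h]
    have e1 : ∀ I' ∈ Sp 17 I, TL 17 3 p3 F I I' = ∑ᶠ J ∈ Sp 3 I, F J (J ⊓ I') := by
      intro I' hI'
      exact TL_apply p3 (isPair_iff.2 ⟨h, hI'⟩)
    rw [finsum_mem_congr rfl e1, finsum_mem_comm _ (Sp_finite p17 h) (Sp_finite p3 h)]
    apply finsum_mem_congr rfl
    intro J hJ
    rw [Tr_pos hJ.1]
    have hp : IsPair 3 I J := isPair_iff.2 ⟨h, hJ⟩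
    symm
    apply finsum_mem_eq_of_bijOn (fun I' => J ⊓ I')
    · refine ⟨fun I' hI' => ?_, ?_, ?_⟩
      · show J ⊓ I' ∈ _
        rw [inf_comm]
        exact inf_mem_Sp (by norm_num) (by norm_num) (by norm_num) hp hI'
      · intro A hA B hB hAB
        have : J ⊓ A = J ⊓ B := hAB
        rw [← inf_sup (p := 17) (q := 3) (by norm_num) hp hA,
          ← inf_sup (p := 17) (q := 3) (by norm_num) hp hB, inf_comm A, inf_comm B, this]
      · intro J' hJ'
        refine ⟨J' ⊔ lm (17 : ℕ) I, sup_mem_Sp (by norm_num) (by norm_num) hp hJ', ?_⟩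
        show J ⊓ _ = J'
        rw [inf_comm]
        exact sup_inf (by norm_num) hp hJ'
    · intro I' _
      rfl
  · rw [TL1_apply' p3 h, Tr_neg h]

/-- existence of ordinary new eigenforms of level 17 -/
theorem exists_eig17 {k : ℕ} (hk : Even k) (hk0 : k ≠ 0) :
    ∃ V : ValuationSubring ℂ, Thr V ∧ ∃ w : V, rs V w ≠ 0 ∧ ∃ F : Fun3, Form0 17 k F ∧
      ww 17 F = F ∧ F ≠ 0 ∧ (∀ I I', lap (F I I') = 0) ∧ Tr F = 0 ∧
      (∀ (p : ℕ) (hp : p.Prime), p ≠ 2 → p ≠ 17 → ∃ μ : ℂ, TL 17 p hp F = μ • F) ∧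
      ∃ lam : ℂ, TL 17 3 p3 F = lam • F ∧ (3 : ℂ) ^ k * lam = (w : ℂ) := by
  obtain ⟨V, hV⟩ := exists_V
  obtain ⟨w, hw, F0, hF0, hF00, lam, he, hlw⟩ := exists_ord hV hk hk0
  refine ⟨V, hV, w, hw, ?_⟩
  set U : Submodule ℂ Fun3 := Wp k ⊓ LinearMap.ker (TL 17 3 p3 - lam • LinearMap.id) with hU
  have hmem : ∀ F, F ∈ U ↔ F ∈ Wp k ∧ TL 17 3 p3 F = lam • F := by
    intro F
    rw [hU, Submodule.mem_inf, LinearMap.mem_ker, LinearMap.sub_apply,
      LinearMap.smul_apply, LinearMap.id_apply, sub_eq_zero]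
  have hfd := Wp_fin k
  have hUfd : FiniteDimensional ℂ U := Submodule.finiteDimensional_of_le (inf_le_left)
  have hU0 : U ≠ ⊥ := by
    rw [Submodule.ne_bot_iff]
    exact ⟨F0, (hmem F0).2 ⟨hF0, he⟩, hF00⟩
  have cop : ∀ {p : ℕ}, p.Prime → p ≠ 17 → p.Coprime 17 := by
    intro p hp h
    exact (Nat.coprime_primes hp p17).2 h
  obtain ⟨F, hF, hF0', hall⟩ := common_eig (fun p : {p : ℕ // p.Prime ∧ p ≠ 17} =>
    TL 17 p.1 p.2.1) _ U hUfd rfl
    hU0 (by
      rintro ⟨p, hp, hp17⟩ u hu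
      rw [hmem] at hu ⊢
      refine ⟨TL_Wp hp (cop hp hp17) hu.1, ?_⟩
      by_cases h : p = 3
      · subst h
        show TL 17 3 p3 (TL 17 3 p3 u) = lam • TL 17 3 p3 u
        rw [hu.2, map_smul, hu.2]
      · rw [TL_comm p3 hp (Ne.symm h) (by norm_num) (cop hp hp17) (by norm_num), hu.2, map_smul])
    (by
      rintro ⟨p, hp, hp17⟩ ⟨r, hr, hr17⟩ u hu
      by_cases h : p = r
      · subst h; rfl
      · exact TL_comm hp hr h (cop hp hp17) (cop hr hr17) (by norm_num) u)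
  obtain ⟨h1, h2⟩ := (hmem F).1 hF
  obtain ⟨h3, h4⟩ := mem_Wp.1 h1
  have hk2 : 2 ≤ k := by
    obtain ⟨m, hm⟩ := hk
    omega
  refine ⟨F, h3, h4, hF0', ?_, ?_, fun p hp _ hp17 => hall ⟨p, hp, hp17⟩, lam, h2, hlw⟩
  · intro I I'
    have := harm_of_ord hV hk2 h3 h2 hw hlw
    exact congrFun (congrFun this I) I'
  · apply no_ord_one hV hk hk0 (Tr_form h3) (lam := lam) _ hw hlw
    rw [Tr_TL, h2]
    funext I
    by_cases h : IsRI I
    · rw [Pi.smul_apply, Tr_pos h, Tr_pos h, smul_finsum_mem (Sp_finite p17 h)]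
      rfl
    · rw [Pi.smul_apply, Tr_neg h, Tr_neg h, smul_zero]

end Pool.Agent.Helper725_HQ
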