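import Pool.Agent.Helper725_HQ.DDefs

/-! Algebraic modular forms on the Hamilton quaternions of conductor two or four at two, which are
invariant under a ramified torus at three. -/

set_option autoImplicit false

namespace Pool.Agent.Helper725_HQ

open Quaternion MvPolynomial NumberField
open scoped nonZeroDivisors

/-- A form of degree `k` on the triples `(I, I', u)`, where `PairC c I I'` and `u` is a generator
of `I` at three, which only depends on `u` modulo `3 ^ n`. It is invariant under right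
multiplication by `1 + i` at two, and for `c = 4` its sums over the three groups `I'` vanish: its
component at two is the trivial representation if `c = 2`, and it belongs to the two-dimensional
representation of the quotient (isomorphic to the symmetric group of degree three) of the
multiplicative group of the quaternion algebra over `ℚ₂` by its centre and its principal units if
`c = 4`. It is invariant under right multiplication at three by the multiplicative group of the
ramified quadratic field `ℚ₃(t)`, where `t = i + j - 2 k` and `t ^ 2 = -6`; the element `i - j`,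
which normalizes this torus, acts by `(-1) ^ k`. The values are harmonic homogeneous polynomials
of degree `k` on the space of pure quaternions. -/
structure IsFormRC (c n k : ℕ)
    (F : AddSubgroup ℍ[ℚ] → AddSubgroup ℍ[ℚ] → ℍ[ℚ] → MvPolynomial (Fin 3) ℂ) : Prop where
  supp : ∀ I I' u, ¬ (PairC c I I' ∧ GenAt3 I u) → F I I' u = 0
  hom : ∀ I I' u, (F I I' u).IsHomogeneous k
  harm : ∀ I I' u, ∑ i, pderiv i (pderiv i (F I I' u)) = 0
  left : ∀ α : ℍ[ℚ], α ≠ 0 → ∀ I I' u, PairC c I I' → GenAt3 I u → ∀ x,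
    ev (F (lm α I) (lm α I') (α * u)) (α * x * α⁻¹) = ev (F I I' u) x
  two : ∀ I I' u, PairC c I I' → GenAt3 (rm (mk4 1 1 0 0) I) u →
    F (rm (mk4 1 1 0 0) I) (rm (mk4 1 1 0 0) I') u = F I I' u
  lvl : ∀ I I' u u', PairC c I I' → GenAt3 I u → GenAt3 I u' →
    u' - u ∈ lm ((3 ^ n : ℕ) : ℍ[ℚ]) I → F I I' u' = F I I' u
  tor : ∀ I I' u, PairC c I I' → GenAt3 I u → ∀ a b : ℤ, ¬ (3 : ℤ) ∣ a →
    F I I' (u * mk4 a b b (-2 * b)) = F I I' u
  unif : ∀ I I' J u, PairC c I I' → IsRI J → GenAt3 I u → GenAt3 J (u * mk4 0 1 1 (-2)) →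
    lm 3 I ≤ J → J ≤ I → F J (J ⊓ I') (u * mk4 0 1 1 (-2)) = F I I' u
  sgn : ∀ I I' u, PairC c I I' → GenAt3 I u →
    F I I' (u * mk4 0 1 (-1) 0) = (-1 : ℂ) ^ k • F I I' u
  tr : c = 4 → ∀ I u, IsRI I → ∑ᶠ I' ∈ {I' : AddSubgroup ℍ[ℚ] | PairC c I I'}, F I I' u = 0

/-- Some toric period of `F` along `K` does not vanish: the groups `I` and `I'` are stable under
the maximal order of `K`, and conjugation by `u` takes the pure element `s` of `K` to a multiple of
`t = i + j - 2 k` modulo `3 ^ (n + 1)`. The ideals representing the classes are prime to three. -/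
def NonvanPerRC (c n : ℕ)
    (F : AddSubgroup ℍ[ℚ] → AddSubgroup ℍ[ℚ] → ℍ[ℚ] → MvPolynomial (Fin 3) ℂ)
    (K : Type) [Field K] [NumberField K] : Prop :=
  ∃ (ι : K →+* ℍ[ℚ]) (I I' : AddSubgroup ℍ[ℚ]) (u : ℍ[ℚ]), PairC c I I' ∧ GenAt3 I u ∧
    (∀ a : 𝓞 K, ∀ y ∈ I, ι (a : K) * y ∈ I) ∧ (∀ a : 𝓞 K, ∀ y ∈ I', ι (a : K) * y ∈ I') ∧
    ∃ s : K, s ≠ 0 ∧ (ι s).re = 0 ∧
      (∃ b : ℤ, ¬ (3 : ℤ) ∣ b ∧
        ι s * u - u * mk4 0 b b (-2 * b) ∈ lm ((3 ^ (n + 1) : ℕ) : ℍ[ℚ]) I) ∧
      ∀ rep : ClassGroup (𝓞 K) → (Ideal (𝓞 K))⁰, (∀ c, ClassGroup.mk0 (rep c) = c) →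
        (∀ c, ¬ 3 ∣ Ideal.absNorm (rep c : Ideal (𝓞 K))) → torpC F ι rep I I' u s ≠ 0

end Pool.Agent.Helper725_HQ
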