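import Pool.Agent.Helper725_HQ.RCHk

/-! The uniformizer of the ramified torus in conductor four. -/

set_option autoImplicit false
set_option linter.unusedVariables false
set_option linter.unusedSimpArgs false

namespace Pool.Agent.Helper725_HQ.RR

open Quaternion MvPolynomial

theorem form_zero (n k : ℕ) : IsFormR n k (fun _ _ => 0) := by
  refine ⟨fun _ _ _ => rfl, fun _ _ => isHomogeneous_zero _ _ _, fun _ _ => ?_, ?_, ?_, ?_, ?_, ?_, ?_⟩
  · simp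
  · intro α hα I u hI hu x
    simp [ev]
  · intro I u hI hu
    rfl
  · intro I u u' hI hu hu' h
    rfl
  · intro I u hI hu a b ha
    rfl
  · intro I J u hI hJ hu hu' h1 h2
    rfl
  · intro I u hI hu
    simp

/-- existence of adapted generators -/
theorem Ad_X9 (n : ℕ) {x : Fin 3 → ℤ} (hx : x ∈ X9) : ∃ u, Ad n x u :=
  (P_all (form_zero n 0) hx).1

theorem nn_Sp : lm nn Oo ∈ Sp 3 Oo :=
  (mem_Sp_Oo Nat.prime_three).2 ⟨nn, nn_mem, by rw [nn_norm]; norm_num, rfl⟩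

theorem nn_Lip : nn ∈ Lip := ⟨0, 1, 1, 1, by unfold nn; apply ext4 <;> simp⟩

theorem nn_inf : lm nn Oo ⊓ Lip = lm nn Lip := by
  have h := inf_unit (by norm_num) nn_ne nn_Sp Hur.one_mem (map_one _) (by
    rw [mul_one]; exact nn_Lip)
  rwa [lm_one] at h

theorem nn_oms (s : Fin 3) : nn * oms s = oms s * nn := by
  fin_cases s
  · show nn * 1 = 1 * nn
    rw [one_mul, mul_one]
  · show nn * om = om * nn
    unfold nn om
    apply ext4 <;> simp [re_mul, imI_mul, imJ_mul, imK_mul]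
  · show nn * om2 = om2 * nn
    unfold nn om2
    apply ext4 <;> simp [re_mul, imI_mul, imJ_mul, imK_mul]

/-- the new generator -/
theorem flip_ad {n : ℕ} {x y : Fin 3 → ℤ} {u : ℍ[ℚ]}
    (hx : ∃ x0 : ℤ, ∃ w : Fin 3 → ℤ, ∀ i, x i = x0 + 3 * w i) (hy : pq y = nn⁻¹ * pq x * nn)
    (hu : Ad (n + 1) x u) : ∃ v, nn * v = u * mk4 0 1 1 (-2) ∧ Ad n y v := by
  obtain ⟨hg, c, hc, z, hz, h1⟩ := hu
  obtain ⟨x0, w, hw⟩ := hx
  -- the new generator
  obtain ⟨v, hv⟩ : ∃ v, v = nn⁻¹ * (u * mk4 0 1 1 (-2)) := ⟨_, rfl⟩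
  have hnv : nn * v = u * mk4 0 1 1 (-2) := by
    rw [hv, ← mul_assoc, mul_inv_cancel₀ nn_ne, one_mul]
  have hxe : nn⁻¹ * pq x = (x0 : ℍ[ℚ]) + (-nn) * pq w := by
    have e1 : pq x = (x0 : ℚ) • nn + (3 : ℚ) • pq w := by
      unfold pq nn
      apply ext4
      · simp
      · simp [hw]
      · simp [hw]
      · simp [hw]
    rw [e1, mul_add, mul_smul_comm, inv_mul_cancel₀ nn_ne, mul_smul_comm, ← smul_mul_assoc,
      nn_inv3]
    congr 1
    rw [← ratmul, mul_one]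
    rfl
  have hz3 : nn⁻¹ * ((3 ^ (n + 2) : ℚ) • z) = (3 ^ (n + 1) : ℚ) • (-nn * z) := by
    rw [mul_smul_comm, pow_succ, mul_smul, ← smul_mul_assoc (3 : ℚ), nn_inv3]
  have hcv : (c : ℚ) • v ∈ Hur := by
    have e1 : (c : ℚ) • v = nn⁻¹ * pq x * u - nn⁻¹ * ((3 ^ (n + 2) : ℚ) • z) := by
      rw [mul_assoc, h1, mul_add, ← ctau_one c, mul_smul_comm, mul_smul_comm, ← hv]
      abel
    rw [e1, hxe, hz3]
    refine Hur.sub_mem (Hur.mul_mem (Hur.add_mem (intCast_mem_Hur x0)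
      (Hur.mul_mem (Hur.neg_mem nn_mem) (pq_mem w))) hg.1) ?_
    have := smul_Hur (Hur.mul_mem (Hur.neg_mem nn_mem) hz) (3 ^ (n + 1))
    push_cast at this
    exact this
  have h3v : (3 : ℚ) • v ∈ Hur := by
    rw [hv, ← smul_mul_assoc, nn_inv3]
    exact Hur.mul_mem (Hur.neg_mem nn_mem) (Hur.mul_mem hg.1 tau_mem)
  have hvm : v ∈ Hur := by
    have e1 : v = (c : ℚ) • v - ((c / 3 : ℤ) : ℚ) • ((3 : ℚ) • v) := by
      rw [smul_smul, ← sub_smul]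
      have e2 : (c : ℚ) - ((c / 3 : ℤ) : ℚ) * 3 = 1 := by
        have : c - (c / 3) * 3 = 1 := by omega
        exact_mod_cast this
      rw [e2, one_smul]
    rw [e1]
    exact Hur.sub_mem hcv (smul_Hur h3v _)
  obtain ⟨m, hm, hm3⟩ := hg.2
  have hvn : normSq v = ((2 * m : ℕ) : ℚ) := by
    have h2 := congrArg normSq hnv
    rw [map_mul, map_mul, nn_norm, hm, normSq_def'] at h2
    rw [normSq_def'] 
    rw [normSq_def'] at h2
    simp at h2 ⊢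
    linear_combination (1 / 3) * h2
  have hGv : GO v := ⟨hvm, 2 * m, hvn, by omega⟩
  refine ⟨v, hnv, hGv, c, hc, -nn * (z * mk4 0 1 1 (-2)), Hur.mul_mem (Hur.neg_mem nn_mem)
      (Hur.mul_mem hz tau_mem), ?_⟩
  rw [hy, mul_assoc, hnv, mul_assoc, ← mul_assoc (pq x), h1, add_mul, mul_add, smul_mul_assoc]
  congr 1
  · rw [hv, ← ctau_one c, mul_smul_comm, mul_smul_comm, smul_mul_assoc, mul_smul_comm]
    simp only [mul_assoc]
  · rw [mul_smul_comm, pow_succ, mul_smul, ← smul_mul_assoc (3 : ℚ), nn_inv3]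

section
variable {n k : ℕ} {F : AddSubgroup ℍ[ℚ] → AddSubgroup ℍ[ℚ] → ℍ[ℚ] → MvPolynomial (Fin 3) ℂ}

/-- the invariance under the uniformizer of the torus -/
theorem gv4_flip (hF : IsForm4R n k F) {x y : Fin 3 → ℤ}
    (hx : ∃ x0 : ℤ, ∃ w : Fin 3 → ℤ, ∀ i, x i = x0 + 3 * w i) (hy : pq y = nn⁻¹ * pq x * nn)
    (hu : ∃ u, Ad (n + 1) x u) : gv n (F Oo Lip) y = gv n (F Oo Lip) x := by
  obtain ⟨u, hu⟩ := hu
  have hf := form4R_fr hF
  obtain ⟨v, hnv, had⟩ := flip_ad hx hy hu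
  rw [gv_eq hf (Ad_down hu), gv_eq hf had]
  have hJ : Gen3 (lm nn Oo) (u * mk4 0 1 1 (-2)) := by
    rw [← hnv]
    exact gen_lm nn_ne (gen_iff.2 had.1)
  have h5 := hF.unif Oo Lip (lm nn Oo) u pair4_Lip (isRI_lm Oo_isRI nn_ne) (gen_iff.2 hu.1) hJ
    three_le_nn nn_le
  rw [← hnv, nn_inf, form4R_left hF nn_ne pair4_Lip (gen_iff.2 had.1)] at h5
  rw [← h5, ← evvl, ← evvl, ev_lsub nn_ne, hy]

/-- the symmetry coming from the uniformizer -/
theorem gv4_n (hF : IsForm4R n k F) (s : Fin 3) {x0 p r : ℤ} (hx : ¬ (3 : ℤ) ∣ x0) :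
    gv n (F Oo Lip) (cyi s (XV (x0 - 6 * (p + r)) p (-(2 * p) - r))) =
      gv n (F Oo Lip) (cyi s (XV x0 p r)) := by
  have h1 : ¬ (3 : ℤ) ∣ x0 - 6 * (p + r) := by omega
  rw [← gv_neg (form4R_fr hF) (Ad_X9 n (cyi_X9 s (XR_X9 (XV_mem (p := p) (r := -(2 * p) - r) h1))))]
  apply gv4_flip hF _ _ (Ad_X9 (n + 1) (cyi_X9 s (XR_X9 (XV_mem hx))))
  · have h2 : ∀ i, ∃ w : ℤ, cyi s (XV x0 p r) i = x0 + 3 * w := by
      intro i
      fin_cases s <;> fin_cases i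
      · exact ⟨0, by show x0 = x0 + 3 * 0; ring⟩
      · exact ⟨3 * p, by show x0 + 9 * p = x0 + 3 * (3 * p); ring⟩
      · exact ⟨-x0 + 3 * r, by show -2 * x0 + 9 * r = x0 + 3 * (-x0 + 3 * r); ring⟩
      · exact ⟨3 * p, by show x0 + 9 * p = x0 + 3 * (3 * p); ring⟩
      · exact ⟨-x0 + 3 * r, by show -2 * x0 + 9 * r = x0 + 3 * (-x0 + 3 * r); ring⟩
      · exact ⟨0, by show x0 = x0 + 3 * 0; ring⟩
      · exact ⟨-x0 + 3 * r, by show -2 * x0 + 9 * r = x0 + 3 * (-x0 + 3 * r); ring⟩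
      · exact ⟨0, by show x0 = x0 + 3 * 0; ring⟩
      · exact ⟨3 * p, by show x0 + 9 * p = x0 + 3 * (3 * p); ring⟩
    choose w hw using h2
    exact ⟨x0, w, hw⟩
  · have e : (fun i => -cyi s (XV (x0 - 6 * (p + r)) p (-(2 * p) - r)) i) =
        cyi s (fun i => -(XV (x0 - 6 * (p + r)) p (-(2 * p) - r) i)) := by
      fin_cases s <;> (funext i; fin_cases i <;> rfl)
    rw [e, pq_cyi, pq_cyi, nn_conj]
    have h3 : nn * oms s = oms s * nn := nn_oms s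
    have h4 : (oms s)⁻¹ * nn⁻¹ = nn⁻¹ * (oms s)⁻¹ := by
      rw [← mul_inv_rev, ← mul_inv_rev, h3]
    calc (oms s)⁻¹ * (nn⁻¹ * pq (XV x0 p r) * nn) * oms s
        = ((oms s)⁻¹ * nn⁻¹) * pq (XV x0 p r) * (nn * oms s) := by simp only [mul_assoc]
      _ = (nn⁻¹ * (oms s)⁻¹) * pq (XV x0 p r) * (oms s * nn) := by rw [h3, h4]
      _ = nn⁻¹ * ((oms s)⁻¹ * pq (XV x0 p r) * oms s) * nn := by simp only [mul_assoc]

end

end Pool.Agent.Helper725_HQ.RR
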