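import Pool.Agent.Helper725_HQ.RCh

/-! Constancy of the reductions in conductor four, for the ramified torus. -/

set_option autoImplicit false
set_option linter.unusedVariables false
set_option linter.unusedSimpArgs false

namespace Pool.Agent.Helper725_HQ.RR

open Quaternion MvPolynomial

theorem cyi_smul (s : Fin 3) (x : Fin 3 → ℤ) (t : ℤ) :
    cyi s (fun i => t * x i) = fun i => t * cyi s x i := by
  fin_cases s <;> (funext i; fin_cases i <;> rfl)

theorem XV_zero : XV 1 0 0 = ![1, 1, -2] := by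
  funext i; fin_cases i <;> simp [XV]

theorem f0z_a : f0z ![1, 1, -2] = 0 ∧
    ∑ i, f0z (cyi (s13 i) (actc (c13 i) ![1, 1, -2])) = 1 := by decide +kernel

theorem f0z_b : f0z ![1, 1, 7] = 1 ∧
    ∑ i, f0z (cyi (s13 i) (actc (c13 i) ![1, 1, 7])) = 0 := by decide +kernel

theorem cyi_cc (s t : Fin 3) (x : Fin 3 → ℤ) : cyi s (cyi t x) = cyi (s + t) x := by
  fin_cases s <;> fin_cases t <;> (funext i; fin_cases i <;> rfl)

section
variable {N : ℕ} {κ : Type} [Field κ] {h : (Fin 3 → ℤ) → κ} {l5 l7 l13 : κ}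

/-- constancy for large precision -/
theorem HkR.const3 (h3 : (3 : κ) = 0) (hN : 3 ≤ N) (H : HkR N h l5 l7 l13) :
    ∃ r, ∀ x ∈ X9, h x = r := by
  have hN1 : 1 ≤ N := by omega
  have hch : CharP κ 3 := (CharP.charP_iff_prime_eq_zero Nat.prime_three).2 (by exact_mod_cast h3)
  obtain ⟨φ, -⟩ : ∃ φ : ZMod 3 →+* κ, True := ⟨ZMod.castHom (dvd_refl 3) κ, trivial⟩
  obtain ⟨U, hU⟩ : ∃ U : (Fin 3 → ℤ) → κ, ∀ x, U x = h (cyi 2 x) := ⟨_, fun _ => rfl⟩
  obtain ⟨W, hW⟩ : ∃ W : (Fin 3 → ℤ) → κ, ∀ x, W x = h x - h (cyi 1 x) := ⟨_, fun _ => rfl⟩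
  have T : ∀ x ∈ XR, h x + h (cyi 1 x) + h (cyi 2 x) = 0 := fun x hx => H.tr x (XR_X9 hx)
  have mU : ∀ x ∈ XR, h x = U x - W x := by
    intro x hx
    rw [hU, hW]
    linear_combination (-1 : κ) * T x hx + h x * h3
  have mU1 : ∀ x ∈ XR, h (cyi 1 x) = U x + W x := by
    intro x hx
    rw [hU, hW]
    linear_combination (-1 : κ) * T x hx + h (cyi 1 x) * h3
  -- periodicity
  have per : ∀ s : Fin 3, Pe N (fun x => h (cyi s x)) := by
    intro s x hx y hy hxy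
    apply H.per _ (cyi_X9 s (XR_X9 hx)) _ (cyi_X9 s (XR_X9 hy))
    intro i
    fin_cases s
    · exact hxy i
    · fin_cases i
      · exact hxy 1
      · exact hxy 2
      · exact hxy 0
    · fin_cases i
      · exact hxy 2
      · exact hxy 0
      · exact hxy 1
  have pU : Pe N U := by
    intro x hx y hy hxy
    rw [hU, hU]
    exact per 2 x hx y hy hxy
  have pW : Pe N W := by
    intro x hx y hy hxy
    rw [hW, hW]
    have h0 := per 0 x hx y hy hxy
    have h1 : h (cyi 1 x) = h (cyi 1 y) := per 1 x hx y hy hxy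
    simp only [cyi_0] at h0
    rw [h0, h1]
  have sc : ∀ t : Fin 3, ∀ x ∈ XR, ∀ s : ℤ, ¬ (3 : ℤ) ∣ s →
      h (cyi t (fun i => s * x i)) = h (cyi t x) := by
    intro t x hx s hs
    rw [cyi_smul]
    exact H.sc _ (cyi_X9 t (XR_X9 hx)) s hs
  have sU : ∀ x ∈ XR, ∀ s : ℤ, ¬ (3 : ℤ) ∣ s → U (fun i => s * x i) = U x := by
    intro x hx s hs
    rw [hU, hU, sc 2 x hx s hs]
  have sW : ∀ x ∈ XR, ∀ s : ℤ, ¬ (3 : ℤ) ∣ s → W (fun i => s * x i) = W x := by
    intro x hx s hs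
    have h0 := sc 0 x hx s hs
    simp only [cyi_0] at h0
    rw [hW, hW, h0, sc 1 x hx s hs]
  have fU : ∀ x0 p r : ℤ, ¬ (3 : ℤ) ∣ x0 → U (XV (x0 - 6 * (p + r)) p (-(2 * p) - r)) =
      U (XV x0 p r) := by
    intro x0 p r hx0
    rw [hU, hU, H.fl 2 x0 p r hx0]
  have fW : ∀ x0 p r : ℤ, ¬ (3 : ℤ) ∣ x0 → W (XV (x0 - 6 * (p + r)) p (-(2 * p) - r)) =
      W (XV x0 p r) := by
    intro x0 p r hx0
    have h0 := H.fl 0 x0 p r hx0
    simp only [cyi_0] at h0
    rw [hW, hW, h0, H.fl 1 x0 p r hx0]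
  have wU : ∀ x0 p r : ℤ, ¬ (3 : ℤ) ∣ x0 → U (XV (x0 + 9 * p) (-p) (r + 2 * p)) =
      U (XV x0 p r) := by
    intro x0 p r hx0
    rw [hU, hU]
    have h0 := H.sw (cyi_X9 2 (XR_X9 (XV_mem (p := p) (r := r) hx0)))
    rw [← h0]
    congr 1
    funext i
    fin_cases i
    · show -2 * (x0 + 9 * p) + 9 * (r + 2 * p) = -2 * x0 + 9 * r
      ring
    · rfl
    · show x0 + 9 * p + 9 * -p = x0
      ring
  -- the relations
  obtain ⟨q0, q1, q2', q3, q4, q5⟩ := cy5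
  obtain ⟨p0, p1, p2, p3', p4, p5, p6, p7⟩ := cy7
  have A5 : ∀ x ∈ XR, h (cyi 1 (Z5 x 0)) + h (cyi 2 (Z5 x 1)) + h (Z5 x 2) +
      h (cyi 1 (Z5 x 3)) + h (cyi 2 (Z5 x 4)) + h (Z5 x 5) = l5 * h x := by
    intro x hx
    have := H.r5 x (XR_X9 hx)
    rw [Fin.sum_univ_six] at this
    change h (act (v5 0) x) + h (act (v5 1) x) + h (cyi 2 (act (v5 2) x)) +
      h (cyi 2 (act (v5 3) x)) + h (cyi 1 (act (v5 4) x)) + h (cyi 1 (act (v5 5) x)) = _ at this
    rw [← this]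
    have e0 : cyi 1 (Z5 x 0) = act (v5 0) x := by funext i; fin_cases i <;> rfl
    have e1 : cyi 2 (Z5 x 1) = act (v5 1) x := by funext i; fin_cases i <;> rfl
    have e2 : Z5 x 2 = cyi 2 (act (v5 2) x) := rfl
    have e3 : cyi 1 (Z5 x 3) = cyi 2 (act (v5 3) x) := rfl
    have e4 : cyi 2 (Z5 x 4) = cyi 1 (act (v5 4) x) := rfl
    have e5 : Z5 x 5 = cyi 1 (act (v5 5) x) := rfl
    rw [e0, e1, e2, e3, e4, e5]
  have B5 : ∀ x ∈ XR, h (Z5 x 0) + h (cyi 1 (Z5 x 1)) + h (cyi 2 (Z5 x 2)) +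
      h (Z5 x 3) + h (cyi 1 (Z5 x 4)) + h (cyi 2 (Z5 x 5)) = l5 * h (cyi 1 x) := by
    intro x hx
    have := H.r5 (cyi 1 x) (cyi_X9 1 (XR_X9 hx))
    rw [Fin.sum_univ_six] at this
    simp only [← acta_one, acta_cyi, q0, q1, q2', q3, q4, q5] at this
    change h (cyi 0 (cyi 1 _)) + h (cyi 0 (cyi 1 _)) + h (cyi 2 (cyi 1 _)) +
      h (cyi 2 (cyi 1 _)) + h (cyi 1 (cyi 1 _)) + h (cyi 1 (cyi 1 _)) = _ at this
    simp only [cyi_0, cyi_21, cyi_11, acta_one] at this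
    change h (cyi 1 (act (v5 2) x)) + h (cyi 1 (act (v5 3) x)) + h (act (v5 4) x) +
      h (act (v5 5) x) + h (cyi 2 (act (v5 0) x)) + h (cyi 2 (act (v5 1) x)) = _ at this
    rw [← this]
    have e0 : Z5 x 0 = cyi 2 (act (v5 0) x) := rfl
    have e1 : cyi 1 (Z5 x 1) = cyi 2 (act (v5 1) x) := rfl
    have e2 : cyi 2 (Z5 x 2) = cyi 1 (act (v5 2) x) := rfl
    have e3 : Z5 x 3 = cyi 1 (act (v5 3) x) := rfl
    have e4 : cyi 1 (Z5 x 4) = act (v5 4) x := by
      funext i; fin_cases i <;> rfl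
    have e5 : cyi 2 (Z5 x 5) = act (v5 5) x := by
      funext i; fin_cases i <;> rfl
    rw [e0, e1, e2, e3, e4, e5]
    ring
  have A7 : ∀ x ∈ XR, h (cyi 1 (Z7 x 0)) + h (cyi 2 (Z7 x 1)) + h (Z7 x 2) +
      h (Z7 x 3) + h (Z7 x 4) + h (Z7 x 5) + h (Z7 x 6) + h (Z7 x 7) = l7 * h x := by
    intro x hx
    have := H.r7 x (XR_X9 hx)
    rw [Fin.sum_univ_eight] at this
    exact this
  have B7 : ∀ x ∈ XR, h (cyi 2 (Z7 x 0)) + h (Z7 x 1) + h (cyi 1 (Z7 x 2)) +
      h (cyi 1 (Z7 x 3)) + h (cyi 1 (Z7 x 4)) + h (cyi 1 (Z7 x 5)) + h (cyi 1 (Z7 x 6)) +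
      h (cyi 1 (Z7 x 7)) = l7 * h (cyi 1 x) := by
    intro x hx
    have := H.r7 (cyi 1 x) (cyi_X9 1 (XR_X9 hx))
    rw [Fin.sum_univ_eight] at this
    simp only [← acta_one, acta_cyi, p0, p1, p2, p3', p4, p5, p6, p7] at this
    change h (cyi 1 (cyi 1 _)) + h (cyi 2 (cyi 1 _)) + h (cyi 2 (cyi 1 _)) +
      h (cyi 1 (cyi 1 _)) + h (cyi 2 (cyi 1 _)) + h (cyi 1 (cyi 1 _)) + h (cyi 1 (cyi 1 _)) +
      h (cyi 2 (cyi 1 _)) = _ at this
    simp only [cyi_0, cyi_21, cyi_11, acta_one] at this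
    change h (cyi 2 (act (v7 0) x)) + h (act (v7 1) x) + h (act (v7 7) x) +
      h (cyi 2 (act (v7 6) x)) + h (act (v7 2) x) + h (cyi 2 (act (v7 3) x)) +
      h (cyi 2 (act (v7 5) x)) + h (act (v7 4) x) = _ at this
    rw [← this]
    have e0 : cyi 2 (Z7 x 0) = cyi 2 (act (v7 0) x) := rfl
    have e1 : Z7 x 1 = act (v7 1) x := rfl
    have e2 : cyi 1 (Z7 x 2) = act (v7 2) x := by funext i; fin_cases i <;> rfl
    have e3 : cyi 1 (Z7 x 3) = cyi 2 (act (v7 3) x) := rfl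
    have e4 : cyi 1 (Z7 x 4) = act (v7 4) x := by funext i; fin_cases i <;> rfl
    have e5 : cyi 1 (Z7 x 5) = cyi 2 (act (v7 5) x) := rfl
    have e6 : cyi 1 (Z7 x 6) = cyi 2 (act (v7 6) x) := rfl
    have e7 : cyi 1 (Z7 x 7) = act (v7 7) x := by funext i; fin_cases i <;> rfl
    rw [e0, e1, e2, e3, e4, e5, e6, e7]
    ring
  have W5 : ∀ x ∈ XR, ∑ i, W (Z5 x i) = -l5 * W x := by
    intro x hx
    have T5 := fun i => T _ (Z5_mem hx i)
    rw [Fin.sum_univ_six]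
    simp only [hW]
    linear_combination B5 x hx - A5 x hx + T5 1 - T5 2 + T5 4 - T5 5 +
      (-h (cyi 1 (Z5 x 1)) + h (Z5 x 2) - h (cyi 1 (Z5 x 4)) + h (Z5 x 5)) * h3
  have U5 : ∀ x ∈ XR, ∑ i, U (Z5 x i) = l5 * U x + W (Z5 x 1) - W (Z5 x 2) + W (Z5 x 4) -
      W (Z5 x 5) := by
    intro x hx
    have T5 := fun i => T _ (Z5_mem hx i)
    rw [Fin.sum_univ_six]
    simp only [hW, hU]
    linear_combination -A5 x hx - B5 x hx + T5 0 + 2 * T5 1 + 2 * T5 2 + T5 3 + 2 * T5 4 +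
      2 * T5 5 - l5 * T x hx + (-h (Z5 x 1) - h (cyi 1 (Z5 x 2)) - h (Z5 x 4) -
      h (cyi 1 (Z5 x 5))) * h3
  have W7 : ∀ x ∈ XR, ∑ i, W (Z7 x i) = l7 * W x := by
    intro x hx
    have T7 := fun i => T _ (Z7_mem hx i)
    rw [Fin.sum_univ_eight]
    simp only [hW]
    linear_combination A7 x hx - B7 x hx + T7 0 - T7 1 +
      (-h (cyi 1 (Z7 x 0)) + h (Z7 x 1)) * h3
  have U7 : ∀ x ∈ XR, ∑ i, U (Z7 x i) = l7 * U x + W (Z7 x 0) - W (Z7 x 1) := by
    intro x hx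
    have T7 := fun i => T _ (Z7_mem hx i)
    rw [Fin.sum_univ_eight]
    simp only [hW, hU]
    linear_combination -A7 x hx - B7 x hx + 2 * T7 0 + 2 * T7 1 + T7 2 + T7 3 + T7 4 + T7 5 +
      T7 6 + T7 7 - l7 * T x hx + (-h (Z7 x 0) - h (cyi 1 (Z7 x 1))) * h3
  by_cases hW0 : ∀ x ∈ XR, W x = 0
  · obtain ⟨d, hd⟩ := const_XRs h3 hN1 pU sU fU wU (m5 := l5) (m7 := l7)
      (fun x hx => by
        rw [U5 x hx, hW0 _ (Z5_mem hx 1), hW0 _ (Z5_mem hx 2), hW0 _ (Z5_mem hx 4),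
          hW0 _ (Z5_mem hx 5)]
        ring)
      (fun x hx => by
        rw [U7 x hx, hW0 _ (Z7_mem hx 0), hW0 _ (Z7_mem hx 1)]
        ring)
    refine ⟨d, fun x hx => ?_⟩
    have h9 := H.val (φ := φ) (c := 0) (d := d) (fun x hx => by rw [← hU, hd x hx]; ring)
      (fun x hx => by rw [mU x hx, hd x hx, hW0 x hx]; ring)
      (fun x hx => by rw [mU1 x hx, hd x hx, hW0 x hx]; ring) hx
    rw [h9]
    ring
  · push Not at hW0
    obtain ⟨x1, hx1, hne⟩ := hW0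
    obtain ⟨e5, e7⟩ := eig_XR h3 hN1 pW sW W5 W7 hx1 hne
    have e5' : l5 = 0 := neg_eq_zero.1 e5
    obtain ⟨c, hc⟩ : ∃ c, c = -W (XV (-8) (-4) 4) := ⟨_, rfl⟩
    have w1 : W (XV 1 0 0) = 0 := by
      rw [hW]
      have h0 := H.sw (XR_X9 (XV_mem (x0 := 1) (p := 0) (r := 0) (by norm_num)))
      have e : (![XV 1 0 0 0, XV 1 0 0 2, XV 1 0 0 1] : Fin 3 → ℤ) = ![1, -2, 1] := by
        funext i; fin_cases i <;> simp [XV]
      have e' : cyi 1 (XV 1 0 0) = ![1, -2, 1] := by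
        funext i; fin_cases i <;> simp [XV, cyi]
      rw [e] at h0
      rw [e', h0, sub_self]
    have z1 : zf φ wz (XV 1 0 0) = 0 := by
      rw [zf_XV]
      have : wz ((1 : ℤ) : ZMod 3) ((0 : ℤ) : ZMod 3) ((0 : ℤ) : ZMod 3) = 0 := by decide
      rw [this, map_zero]
    have z2 : zf φ wz (XV (-8) (-4) 4) = 2 := by
      rw [zf_XV]
      have : wz ((-8 : ℤ) : ZMod 3) ((-4 : ℤ) : ZMod 3) ((4 : ℤ) : ZMod 3) = 2 := by decide
      rw [this, map_ofNat]
    have cW : ∀ x ∈ XR, W x = c * zf φ wz x := by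
      intro x hx
      have h9 := const_XR (h := fun x => W x - c * zf φ wz x) h3 hN1
        (fun x hx y hy hxy => by
          show W x - c * zf φ wz x = W y - c * zf φ wz y
          rw [pW x hx y hy hxy, zf_per hN x hx y hy hxy])
        (fun x hx s hs => by
          show W (fun i => s * x i) - c * zf φ wz (fun i => s * x i) = W x - c * zf φ wz x
          rw [sW x hx s hs, zf_sc wz_sc hx hs])
        (fun x0 p r hx0 => by
          show W _ - c * zf φ wz _ = W _ - c * zf φ wz _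
          rw [fW x0 p r hx0, zf_fl wz_fl])
        (by
          show W (XV (-8) (-4) 4) - c * zf φ wz (XV (-8) (-4) 4) =
            W (XV 1 0 0) - c * zf φ wz (XV 1 0 0)
          rw [w1, z1, z2, hc]
          linear_combination W (XV (-8) (-4) 4) * h3)
        (m5 := 0) (m7 := 2)
        (fun x hx => by
          show ∑ i, (W (Z5 x i) - c * zf φ wz (Z5 x i)) = 0 * (W x - c * zf φ wz x)
          rw [Finset.sum_sub_distrib, ← Finset.mul_sum, zf_w5 hx, W5 x hx, e5]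
          ring)
        (fun x hx => by
          show ∑ i, (W (Z7 x i) - c * zf φ wz (Z7 x i)) = 2 * (W x - c * zf φ wz x)
          rw [Finset.sum_sub_distrib, ← Finset.mul_sum, zf_w7 hx, W7 x hx, e7]
          ring) hx
      change W x - c * zf φ wz x = W (XV 1 0 0) - c * zf φ wz (XV 1 0 0) at h9
      rw [w1, z1] at h9
      linear_combination h9
    obtain ⟨d, hd⟩ := const_XRs (h := fun x => U x - c * zf φ uz x) h3 hN1
        (fun x hx y hy hxy => by
          show U x - c * zf φ uz x = U y - c * zf φ uz y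
          rw [pU x hx y hy hxy, zf_per hN x hx y hy hxy])
        (fun x hx s hs => by
          show U (fun i => s * x i) - c * zf φ uz (fun i => s * x i) = U x - c * zf φ uz x
          rw [sU x hx s hs, zf_sc uz_sc hx hs])
        (fun x0 p r hx0 => by
          show U _ - c * zf φ uz _ = U _ - c * zf φ uz _
          rw [fU x0 p r hx0, zf_fl uz_fl])
        (fun x0 p r hx0 => by
          show U _ - c * zf φ uz _ = U _ - c * zf φ uz _
          rw [wU x0 p r hx0, zf_XV, zf_XV]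
          push_cast
          rw [uz_sw])
        (m5 := 0) (m7 := 2)
        (fun x hx => by
          show ∑ i, (U (Z5 x i) - c * zf φ uz (Z5 x i)) = 0 * (U x - c * zf φ uz x)
          rw [Finset.sum_sub_distrib, ← Finset.mul_sum, zf_u5 hx, U5 x hx, e5',
            cW _ (Z5_mem hx 1), cW _ (Z5_mem hx 2), cW _ (Z5_mem hx 4), cW _ (Z5_mem hx 5)]
          ring)
        (fun x hx => by
          show ∑ i, (U (Z7 x i) - c * zf φ uz (Z7 x i)) = 2 * (U x - c * zf φ uz x)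
          rw [Finset.sum_sub_distrib, ← Finset.mul_sum, zf_u7 hx, U7 x hx, e7,
            cW _ (Z7_mem hx 0), cW _ (Z7_mem hx 1)]
          ring)
    have cU : ∀ x ∈ XR, U x = c * φ (zg uz x) + d := by
      intro x hx
      have h9 := hd x hx
      change U x - c * φ (zg uz x) = d at h9
      linear_combination h9
    have key : ∀ x ∈ X9, h x = c * φ (f0z x) + d := fun x hx => H.val
      (fun x hx => by rw [← hU, cU x hx])
      (fun x hx => by
        rw [mU x hx, cU x hx, cW x hx, map_sub]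
        show _ - c * φ (zg wz x) = _
        ring)
      (fun x hx => by
        rw [mU1 x hx, cU x hx, cW x hx, map_add]
        show _ + c * φ (zg wz x) = _
        ring) hx
    have r13 : ∀ x ∈ X9, c * φ (∑ i, f0z (cyi (s13 i) (actc (c13 i) x))) + 14 * d =
        l13 * (c * φ (f0z x) + d) := by
      intro x hx
      have h9 := H.r13 x hx
      rw [key x hx] at h9
      rw [← h9, map_sum, Finset.mul_sum]
      have e : ∀ i : Fin 14, h (cyi (s13 i) (actc (c13 i) x)) =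
          c * φ (f0z (cyi (s13 i) (actc (c13 i) x))) + d := by
        intro i
        exact key _ (cyi_X9 _ (actc_X9 (c13_norm i) (by norm_num) hx))
      rw [Finset.sum_congr rfl (fun i _ => e i), Finset.sum_add_distrib]
      simp
    have ra := r13 ![1, 1, -2] (by show ((1 : ℤ) ^ 2 + 1 ^ 2 + (-2) ^ 2) % 9 = 6; norm_num)
    have rb := r13 ![1, 1, 7] (by show ((1 : ℤ) ^ 2 + 1 ^ 2 + 7 ^ 2) % 9 = 6; norm_num)
    rw [f0z_a.1, f0z_a.2, map_zero, map_one] at ra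
    rw [f0z_b.1, f0z_b.2, map_zero, map_one] at rb
    have hc0 : c = 0 := by
      have h9 : (l13 + 1) * c = 0 := by linear_combination ra - rb
      rcases mul_eq_zero.1 h9 with h9 | h9
      · have h10 : l13 = -1 := by linear_combination h9
        rw [h10] at ra
        linear_combination ra - 5 * d * h3
      · exact h9
    refine ⟨d, fun x hx => ?_⟩
    rw [key x hx, hc0]
    ring

/-- constancy -/
theorem HkR.const (h3 : (3 : κ) = 0) (H : HkR N h l5 l7 l13) : ∃ r, ∀ x ∈ X9, h x = r :=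
  HkR.const3 h3 (by omega) H.up

end

end Pool.Agent.Helper725_HQ.RR
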