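import Pool.Agent.Helper725_HQ.RCd4
import Pool.Agent.Helper725_HQ.RCc

/-! Forms of conductor four which are invariant under the ramified torus at three as functions on
the vectors. -/

set_option autoImplicit false
set_option linter.unusedVariables false
set_option linter.unusedSimpArgs false

namespace Pool.Agent.Helper725_HQ.RR

open Quaternion MvPolynomial

theorem Ad_actc {n : ℕ} {x : Fin 3 → ℤ} {u : ℍ[ℚ]} (hu : Ad n x u) {c : Fin 4 → ℤ} {N : ℤ}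
    (hN : c 0 ^ 2 + c 1 ^ 2 + c 2 ^ 2 + c 3 ^ 2 = N) (hN3 : N % 3 = 1) :
    Ad n (actc c x) (star (qc c) * u) := by
  have hg := GO_qc hN hN3
  apply Ad_conj hg (t := N) hN3 _ hu
  rw [pq_actc, ← hN, ← qc_norm, ← smul_mul_assoc, ← smul_mul_assoc, star_inv hg.ne]

section
variable {n k : ℕ} {F : AddSubgroup ℍ[ℚ] → AddSubgroup ℍ[ℚ] → ℍ[ℚ] → MvPolynomial (Fin 3) ℂ}

theorem form4R_left (hF : IsForm4R n k F) {α : ℍ[ℚ]} (hα : α ≠ 0) {I I' : AddSubgroup ℍ[ℚ]}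
    (hI : IsPair4 I I') {u : ℍ[ℚ]} (hu : Gen3 I u) :
    F (lm α I) (lm α I') (α * u) = lsub (rC α) (F I I' u) := by
  apply eq_of_ev
  intro x
  rw [ev_lsub hα]
  have h1 := hF.left α hα I I' u hI hu (α⁻¹ * x * α)
  have h2 : α * (α⁻¹ * x * α) * α⁻¹ = x := by
    rw [← mul_assoc, ← mul_assoc, mul_inv_cancel₀ hα, one_mul, mul_assoc, mul_inv_cancel₀ hα,
      mul_one]
  rw [h2] at h1
  exact h1

theorem form4R_ep (hF : IsForm4R n k F) (s : Fin 3) {u : ℍ[ℚ]} (hu : GO u) :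
    F Oo (lm (oms s) Lip) (ep * u) = lsub (rC ep) (F Oo (lm (oms (ng s)) Lip) u) := by
  rw [← form4R_left hF ep_ne (pair4_oms _) (gen_iff.2 hu)]
  have h2 : Gen3 (rm ep Oo) (ep * u) := by
    rw [rm_ep_Oo]; exact gen_lm ep_ne (gen_iff.2 hu)
  have h3 := hF.two Oo (lm (oms s) Lip) (ep * u) (pair4_oms s) h2
  rw [← rm_oms, ← rm_ep_Oo]
  exact h3.symm

theorem form4R_fr (hF : IsForm4R n k F) : Fr n k (F Oo Lip) := by
  have e0 : lm (oms 0) Lip = Lip := lm_one Lip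
  refine ⟨fun u => hF.hom _ _ _, ?_, ?_, ?_, ?_, ?_⟩
  · intro a b c d h u hu
    have hn : normSq (mk4 (a : ℚ) b c d) = 1 := by rw [normSq_int, h]; norm_num
    have hne : mk4 (a : ℚ) b c d ≠ 0 := by
      rw [← normSq_ne_zero, hn]; norm_num
    have h1 := form4R_left hF hne pair4_Lip (gen_iff.2 hu)
    rwa [mem_of_unit (int_mem a b c d) hn, Lip_unit ⟨a, b, c, d, rfl⟩
      ⟨a, -b, -c, -d, by apply ext4 <;> simp⟩ hn] at h1
  · intro u hu
    have h1 := form4R_ep hF 0 hu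
    rw [e0] at h1
    rw [h1]
    show lsub (rC ep) (F Oo (lm (oms 0) Lip) u) = _
    rw [e0]
  · intro u u' hu hu' ⟨z, hz, h⟩
    apply hF.lvl Oo Lip u u' pair4_Lip (gen_iff.2 hu) (gen_iff.2 hu')
    rw [mem_lm]
    refine ⟨z, hz, ?_⟩
    rw [h, nat_smulH]
    push_cast
    abel
  · intro u hu a b hab
    exact hF.tor Oo Lip u pair4_Lip (gen_iff.2 hu) a b hab
  · intro u hu
    exact hF.sgn Oo Lip u pair4_Lip (gen_iff.2 hu)

theorem form4R_scal (hF : IsForm4R n k F) (s : Fin 3) {u : ℍ[ℚ]} (hu : GO u) {a : ℤ}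
    (ha : ¬ (3 : ℤ) ∣ a) : F Oo (lm (oms s) Lip) ((a : ℚ) • u) = F Oo (lm (oms s) Lip) u := by
  have h := hF.tor Oo (lm (oms s) Lip) u (pair4_oms s) (gen_iff.2 hu) a 0 ha
  rw [← h]
  congr 1
  rw [Int.cast_zero]
  apply ext4 <;> simp [re_mul, imI_mul, imJ_mul, imK_mul, mul_comm]

theorem form4R_oms (hF : IsForm4R n k F) (s : Fin 3) {u : ℍ[ℚ]} (hu : GO u) :
    F Oo (lm (oms s) Lip) (oms s * u) = lsub (rC (oms s)) (F Oo Lip u) := by
  have h1 := form4R_left hF (oms_ne s) pair4_Lip (gen_iff.2 hu)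
  rwa [oms_Oo] at h1

theorem vl_oms (hF : IsForm4R n k F) (s : Fin 3) {x : Fin 3 → ℤ} {u : ℍ[ℚ]} (hu : Ad n x u) :
    vl (F Oo (lm (oms s) Lip) u) x = gv n (F Oo Lip) (cyi s x) := by
  have h1 := Ad_conj (GO_oms s) (t := 1) rfl (y := cyi s x)
    (by rw [Int.cast_one, one_smul]; exact pq_cyi s x) hu
  rw [gv_eq (form4R_fr hF) h1]
  have e : u = oms s * (star (oms s) * u) := by
    rw [← mul_assoc, self_mul_star, oms_norm, Quaternion.coe_one, one_mul]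
  conv_lhs => rw [e, form4R_oms hF s h1.1]
  rw [← evvl, ← evvl, ev_lsub (oms_ne s), pq_cyi]

/-- the sum over the three groups -/
theorem gv_tr (hF : IsForm4R n k F) {x : Fin 3 → ℤ} (hx : ∃ u, Ad n x u) :
    gv n (F Oo Lip) x + gv n (F Oo Lip) (cyi 1 x) + gv n (F Oo Lip) (cyi 2 x) = 0 := by
  obtain ⟨u, hu⟩ := hx
  have h1 := hF.tr Oo u Oo_isRI
  rw [pair4_set, finsum_mem_insert _ _ (Set.toFinite _), finsum_mem_pair Lip_ne3] at h1
  · have h2 := congrArg (fun P => vl P x) h1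
    have ha : ∀ P Q : MvPolynomial (Fin 3) ℂ, vl (P + Q) x = vl P x + vl Q x := by
      intro P Q
      unfold vl
      rw [map_add]
    have hz : vl (0 : MvPolynomial (Fin 3) ℂ) x = 0 := by
      unfold vl
      rw [map_zero]
    simp only [ha, hz] at h2
    have e0 := vl_oms hF 0 hu
    have e1 := vl_oms hF 1 hu
    have e2 := vl_oms hF 2 hu
    rw [show lm (oms 0) Lip = Lip from lm_one Lip] at e0
    change vl (F Oo (lm om Lip) u) x = _ at e1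
    change vl (F Oo (lm om2 Lip) u) x = _ at e2
    rw [e0, e1, e2] at h2
    change gv n (F Oo Lip) x + _ = _ at h2
    rw [add_assoc]
    exact h2
  · rw [Set.mem_insert_iff, Set.mem_singleton_iff]
    rintro (h | h)
    · exact Lip_ne1 h
    · exact Lip_ne2 h

theorem hecke_term4 (hF : IsForm4R n k F) {α : ℍ[ℚ]} (hα : α ∈ Hur) {p : ℕ}
    (hn : normSq α = p) (hp3 : ¬ 3 ∣ p) (hp2 : p.Coprime 2) (hJ : lm α Oo ∈ Sp p Oo) {s : Fin 3}
    (hs : α * oms s ∈ Lip) {u : ℍ[ℚ]} (hu : GO u) :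
    F (lm α Oo) (lm α Oo ⊓ Lip) (p * u) =
      lsub (rC α) (F Oo (lm (oms s) Lip) (star α * u)) := by
  have hg := GO_of_norm hα hn hp3
  rw [← form4R_left hF hg.ne (pair4_oms s) (gen_iff.2 (hg.star.mul hu)), ← mul_assoc,
    self_mul_star, hn, inf_unit hp2 hg.ne hJ (oms_mem s) (oms_norm s) hs]
  rfl

/-- evaluation of one term -/
theorem term_eval (hF : IsForm4R n k F) (s : Fin 3) {x : Fin 3 → ℤ} {u : ℍ[ℚ]} (hu : Ad n x u)
    {c : Fin 4 → ℤ} {N : ℤ} (hN : c 0 ^ 2 + c 1 ^ 2 + c 2 ^ 2 + c 3 ^ 2 = N) (hN3 : N % 3 = 1) :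
    (N : ℂ) ^ k * vl (lsub (rC (qc c)) (F Oo (lm (oms s) Lip) (star (qc c) * u))) x =
      gv n (F Oo Lip) (cyi s (actc c x)) := by
  rw [rot_lsubc hN (by omega) (hF.hom _ _ _) x, vl_oms hF s (Ad_actc hu hN hN3)]

end

end Pool.Agent.Helper725_HQ.RR
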