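import Pool.Agent.Helper725_HQ.RCForm
import Pool.Agent.Helper725_HQ.CHk

/-! The Hecke relations in conductor four for the ramified torus. -/

set_option autoImplicit false
set_option linter.unusedVariables false
set_option linter.unusedSimpArgs false

namespace Pool.Agent.Helper725_HQ.RR

open Quaternion MvPolynomial

section
variable {n k : ℕ} {F : AddSubgroup ℍ[ℚ] → AddSubgroup ℍ[ℚ] → ℍ[ℚ] → MvPolynomial (Fin 3) ℂ}

/-- scaling by two -/
theorem half_term (hF : IsForm4R n k F) (s : Fin 3) {α : ℍ[ℚ]} (hα : GO α) {u : ℍ[ℚ]}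
    (hu : GO u) : lsub (rC α) (F Oo (lm (oms s) Lip) (star α * u)) =
      lsub (rC ((2 : ℚ) • α)) (F Oo (lm (oms s) Lip) (star ((2 : ℚ) • α) * u)) := by
  have e1 : star ((2 : ℚ) • α) * u = ((2 : ℤ) : ℚ) • (star α * u) := by
    rw [← smul_mul_assoc]
    congr 1
    apply ext4 <;> simp
  rw [e1, form4R_scal hF s (hα.star.mul hu) (by norm_num)]
  have h2 : ((2 : ℚ) : ℍ[ℚ]) ≠ 0 := by
    intro h
    have h1 := ratmul 2 (1 : ℍ[ℚ])
    rw [h, zero_mul] at h1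
    have h3 := congrArg QuaternionAlgebra.re h1
    rw [Quaternion.re_smul, Quaternion.re_one, Quaternion.re_zero] at h3
    norm_num at h3
  rw [← ratmul, ← rC_mul h2 hα.ne, rC_coe (by norm_num)]

/-- the relation at five -/
theorem hk5 (hF : IsForm4R n k F) {lam : ℂ}
    (he : ∀ I I' u, IsPair4 I I' → Gen3 I u → hecke4N 5 F I I' u = lam • F I I' u)
    {x : Fin 3 → ℤ} {u : ℍ[ℚ]} (hu : Ad n x u) :
    ∑ i, gv n (F Oo Lip) (cyi (s5 i) (act (v5 i) x)) = (10 : ℂ) ^ k * lam * gv n (F Oo Lip) x := by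
  have h1 := he Oo Lip u pair4_Lip (gen_iff.2 hu.1)
  unfold hecke4N at h1
  have h2 : {J : AddSubgroup ℍ[ℚ] | IsRI J ∧ lm (5 : ℕ) Oo < J ∧ J < Oo} = Sp 5 Oo := rfl
  rw [h2, Sp5_eq, finsum_mem_range (fun i j h => inj5 h), finsum_eq_sum_of_fintype] at h1
  have h3 := congrArg (fun P => vl P x) h1
  simp only [vl_sum, vl_smul] at h3
  rw [gv_eq (form4R_fr hF) hu, mul_assoc, ← h3, Finset.mul_sum]
  apply Finset.sum_congr rfl
  intro i _
  have hn : normSq (qv (v5 i) * ep⁻¹) = ((5 : ℕ) : ℚ) := by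
    rw [map_mul, qv_norm, v5_norm, map_inv₀, normSq_ep]; norm_num
  have hJ : lm (qv (v5 i) * ep⁻¹) Oo ∈ Sp 5 Oo := by rw [Sp5_eq]; exact ⟨i, rfl⟩
  rw [hecke_term4 hF (mem5 i) hn (by norm_num) (by norm_num) hJ (mem_s5 i) hu.1]
  have hg := GO_of_norm (mem5 i) hn (by norm_num)
  have hw := hg.star.mul hu.1
  have e1 : ((2 : ℤ) : ℚ) • (star (qv (v5 i) * ep⁻¹) * u) = ep * (star (qv (v5 i)) * u) := by
    rw [star_mul, ep_inv]
    have : ((2 : ℤ) : ℚ) • star (mk4 (1 / 2) (-(1 / 2)) 0 0) = ep := by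
      unfold ep
      apply ext4 <;> simp
    rw [← smul_mul_assoc, ← smul_mul_assoc, this, mul_assoc]
  have hng : ng (ng (s5 i)) = s5 i := by
    have : ∀ i : Fin 6, ng (ng (s5 i)) = s5 i := by decide
    exact this i
  rw [← form4R_scal hF _ hw (a := 2) (by norm_num), e1, form4R_ep hF _ ((GO_qv _).star.mul hu.1),
    rC_mul hg.ne ep_ne, mul_assoc, inv_mul_cancel₀ ep_ne, mul_one, hng, ← qc_tc]
  have h4 := term_eval hF (s5 i) hu (c := tc 1 (v5 i)) (N := 10) (by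
    have := v5_norm i
    show (1 : ℤ) ^ 2 + (3 * v5 i 0) ^ 2 + (3 * v5 i 1) ^ 2 + (3 * v5 i 2) ^ 2 = 10
    linear_combination 9 * this) (by norm_num)
  rw [actc_tc, acta_one] at h4
  rw [← h4]
  norm_cast

/-- the relation at seven -/
theorem hk7 (hF : IsForm4R n k F) {lam : ℂ}
    (he : ∀ I I' u, IsPair4 I I' → Gen3 I u → hecke4N 7 F I I' u = lam • F I I' u)
    {x : Fin 3 → ℤ} {u : ℍ[ℚ]} (hu : Ad n x u) :
    ∑ i, gv n (F Oo Lip) (cyi (s7 i) (act (v7 i) x)) = (28 : ℂ) ^ k * lam * gv n (F Oo Lip) x := by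
  have h1 := he Oo Lip u pair4_Lip (gen_iff.2 hu.1)
  unfold hecke4N at h1
  have h2 : {J : AddSubgroup ℍ[ℚ] | IsRI J ∧ lm (7 : ℕ) Oo < J ∧ J < Oo} = Sp 7 Oo := rfl
  rw [h2, Sp7_eq, finsum_mem_range (fun i j h => inj7 h), finsum_eq_sum_of_fintype] at h1
  have h3 := congrArg (fun P => vl P x) h1
  simp only [vl_sum, vl_smul] at h3
  rw [gv_eq (form4R_fr hF) hu, mul_assoc, ← h3, Finset.mul_sum]
  apply Finset.sum_congr rfl
  intro i _
  have hlf2 : normSq hlf = 1 / 4 := by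
    rw [normSq_def']
    simp [hlf]; norm_num
  have hn : normSq (qv (v7 i) * hlf) = ((7 : ℕ) : ℚ) := by
    rw [map_mul, qv_norm, v7_norm, hlf2]; norm_num
  have hJ : lm (qv (v7 i) * hlf) Oo ∈ Sp 7 Oo := by rw [Sp7_eq]; exact ⟨i, rfl⟩
  rw [hecke_term4 hF (mem7 i) hn (by norm_num) (by norm_num) hJ (mem_s7 i) hu.1]
  have hg := GO_of_norm (mem7 i) hn (by norm_num)
  rw [half_term hF _ hg hu.1]
  have e : (2 : ℚ) • (qv (v7 i) * hlf) = qc (tc 1 (v7 i)) := by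
    rw [qc_tc]
    unfold hlf
    apply ext4 <;> simp [re_mul, imI_mul, imJ_mul, imK_mul] <;> ring
  rw [e]
  have h4 := term_eval hF (s7 i) hu (c := tc 1 (v7 i)) (N := 28) (by
    have := v7_norm i
    show (1 : ℤ) ^ 2 + (3 * v7 i 0) ^ 2 + (3 * v7 i 1) ^ 2 + (3 * v7 i 2) ^ 2 = 28
    linear_combination 9 * this) (by norm_num)
  rw [actc_tc, acta_one] at h4
  rw [← h4]
  norm_cast

/-- the relation at thirteen -/
theorem hk13 (hF : IsForm4R n k F) {lam : ℂ}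
    (he : ∀ I I' u, IsPair4 I I' → Gen3 I u → hecke4N 13 F I I' u = lam • F I I' u)
    {x : Fin 3 → ℤ} {u : ℍ[ℚ]} (hu : Ad n x u) :
    ∑ i, gv n (F Oo Lip) (cyi (s13 i) (actc (c13 i) x)) =
      (52 : ℂ) ^ k * lam * gv n (F Oo Lip) x := by
  have h1 := he Oo Lip u pair4_Lip (gen_iff.2 hu.1)
  unfold hecke4N at h1
  have h2 : {J : AddSubgroup ℍ[ℚ] | IsRI J ∧ lm (13 : ℕ) Oo < J ∧ J < Oo} = Sp 13 Oo := rfl
  rw [h2, Sp13_eq, finsum_mem_range (fun i j h => inj13 h), finsum_eq_sum_of_fintype] at h1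
  have h3 := congrArg (fun P => vl P x) h1
  simp only [vl_sum, vl_smul] at h3
  rw [gv_eq (form4R_fr hF) hu, mul_assoc, ← h3, Finset.mul_sum]
  apply Finset.sum_congr rfl
  intro i _
  have hJ : lm (q13 i) Oo ∈ Sp 13 Oo := by rw [Sp13_eq]; exact ⟨i, rfl⟩
  rw [hecke_term4 hF (q13_mem i) (q13_norm i) (by norm_num) (by norm_num) hJ (mem_s13 i) hu.1]
  have hg := GO_of_norm (q13_mem i) (q13_norm i) (by norm_num)
  rw [half_term hF _ hg hu.1]
  have e : (2 : ℚ) • q13 i = qc (c13 i) := by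
    unfold q13 qc
    apply ext4 <;> simp <;> ring
  rw [e]
  have h4 := term_eval hF (s13 i) hu (c := c13 i) (N := 52) (c13_norm i) (by norm_num)
  rw [← h4]
  norm_cast

end

end Pool.Agent.Helper725_HQ.RR
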