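import Pool.Agent.Helper725_HQ.RCFl

/-! Constancy of the reductions of the values of an eigenform of conductor four which is invariant
under the ramified torus. -/

set_option autoImplicit false
set_option linter.unusedVariables false
set_option linter.unusedSimpArgs false

namespace Pool.Agent.Helper725_HQ.RR

open Quaternion MvPolynomial

section
variable {n k : ℕ} {f : ℍ[ℚ] → MvPolynomial (Fin 3) ℂ}

theorem gf_i (hf : Fr n k f) {x : Fin 3 → ℤ} (hx : ∃ u, Ad n x u) :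
    gv n f ![x 0, -x 1, -x 2] = gv n f x := by
  have hg : GO (mk4 ((0 : ℤ) : ℚ) ((1 : ℤ) : ℚ) ((0 : ℤ) : ℚ) ((0 : ℤ) : ℚ)) := GO_int (by norm_num)
  refine gv_rot hf hg (hf.un 0 1 0 0 (by norm_num)) ?_ hx
  have e : (mk4 ((0 : ℤ) : ℚ) ((1 : ℤ) : ℚ) ((0 : ℤ) : ℚ) ((0 : ℤ) : ℚ))⁻¹ =
      mk4 0 (-1) 0 0 := by
    rw [inv_unit (by rw [normSq_int]; norm_num)]
    apply ext4 <;> simp
  rw [e]
  unfold pq
  apply ext4 <;> simp [re_mul, imI_mul, imJ_mul, imK_mul]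

theorem gf_j (hf : Fr n k f) {x : Fin 3 → ℤ} (hx : ∃ u, Ad n x u) :
    gv n f ![-x 0, x 1, -x 2] = gv n f x := by
  have hg : GO (mk4 ((0 : ℤ) : ℚ) ((0 : ℤ) : ℚ) ((1 : ℤ) : ℚ) ((0 : ℤ) : ℚ)) := GO_int (by norm_num)
  refine gv_rot hf hg (hf.un 0 0 1 0 (by norm_num)) ?_ hx
  have e : (mk4 ((0 : ℤ) : ℚ) ((0 : ℤ) : ℚ) ((1 : ℤ) : ℚ) ((0 : ℤ) : ℚ))⁻¹ =
      mk4 0 0 (-1) 0 := by
    rw [inv_unit (by rw [normSq_int]; norm_num)]
    apply ext4 <;> simp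
  rw [e]
  unfold pq
  apply ext4 <;> simp [re_mul, imI_mul, imJ_mul, imK_mul]

theorem gf_q (hf : Fr n k f) {x : Fin 3 → ℤ} (hx : ∃ u, Ad n x u) :
    gv n f ![x 0, x 2, -x 1] = gv n f x := by
  refine gv_rot hf GO_ep hf.ep ?_ hx
  rw [ep_inv]
  unfold pq ep
  apply ext4
  · simp [re_mul, imI_mul, imJ_mul, imK_mul]
  · simp [re_mul, imI_mul, imJ_mul, imK_mul]; ring
  · simp [re_mul, imI_mul, imJ_mul, imK_mul]; ring
  · simp [re_mul, imI_mul, imJ_mul, imK_mul]; ring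

end

section
variable {n k : ℕ} {F : AddSubgroup ℍ[ℚ] → AddSubgroup ℍ[ℚ] → ℍ[ℚ] → MvPolynomial (Fin 3) ℂ}

theorem form4R_ne (hF : IsForm4R n k F) (h : ∃ I I' u, F I I' u ≠ 0) :
    ∃ u, GO u ∧ F Oo Lip u ≠ 0 := by
  obtain ⟨I, I', u, h⟩ := h
  have h1 : IsPair4 I I' ∧ Gen3 I u := by
    by_contra h1
    exact h (hF.supp I I' u h1)
  obtain ⟨hI, hu⟩ := h1
  obtain ⟨α, hα, rfl, rfl⟩ := pair4_class hI
  have e : α * (α⁻¹ * u) = u := by rw [← mul_assoc, mul_inv_cancel₀ hα, one_mul]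
  rw [← e] at hu h
  have hu' := (gen_lm_iff hα).1 hu
  refine ⟨α⁻¹ * u, gen_iff.1 hu', ?_⟩
  intro h0
  apply h
  rw [form4R_left hF hα pair4_Lip hu', h0, map_zero]

/-- constancy of the reductions of the values of an eigenform -/
theorem all_val4R {V : ValuationSubring ℂ} (hV : Thr V) (hF : IsForm4R n k F)
    (hF0 : ∃ I I' u, F I I' u ≠ 0) {l5 l7 l13 : ℂ}
    (h5 : ∀ I I' u, IsPair4 I I' → Gen3 I u → hecke4N 5 F I I' u = l5 • F I I' u)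
    (h7 : ∀ I I' u, IsPair4 I I' → Gen3 I u → hecke4N 7 F I I' u = l7 • F I I' u)
    (h13 : ∀ I I' u, IsPair4 I I' → Gen3 I u → hecke4N 13 F I I' u = l13 • F I I' u) :
    ∃ c : ℂ, ∃ r : kap V, r ≠ 0 ∧
      ∀ x : Fin 3 → ℤ, (x 0 ^ 2 + x 1 ^ 2 + x 2 ^ 2) % 9 = 6 →
        ∃ v : V, c * gv n (F Oo Lip) x = (v : ℂ) ∧ rs V v = r := by
  have hf := form4R_fr hF
  obtain ⟨Q, hQ⟩ := gv_poly hf
  have ad : ∀ x ∈ X9, ∃ u, Ad n x u := fun x hx => Ad_X9 n hx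
  have hne : ∃ x ∈ X9, gv n (F Oo Lip) x ≠ 0 := by
    obtain ⟨u, hu, hu0⟩ := form4R_ne hF hF0
    obtain ⟨y, hy, hy3⟩ := exists_vecu (n := n) hu
    obtain ⟨z, hz, hz0⟩ := vl_coset hu0 y (n + 2)
    have hz1 : gv n (F Oo Lip) z ≠ 0 := by
      rw [gv_loc hf hy (fun i => dvd_trans (by
        rw [pow_succ 3 (n + 1)]; push_cast; exact Dvd.intro _ rfl) (hz i))]
      exact hz0
    have hz3 : (z 0 ^ 2 + z 1 ^ 2 + z 2 ^ 2) % 9 = 6 := by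
      have key : ∀ i, z i ^ 2 ≡ y i ^ 2 [ZMOD 9] := by
        intro i
        apply Int.ModEq.pow
        rw [Int.modEq_comm, Int.modEq_iff_dvd]
        refine dvd_trans ?_ (hz i)
        have e : ((3 ^ (n + 2) : ℕ) : ℤ) = 9 * 3 ^ n := by push_cast; ring
        rw [e]
        exact Dvd.intro _ rfl
      have hy3' : y 0 ^ 2 + y 1 ^ 2 + y 2 ^ 2 ≡ 6 [ZMOD 9] := hy3
      exact (((key 0).add (key 1)).add (key 2)).trans hy3'
    exact ⟨z, hz3, hz1⟩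
  obtain ⟨g, hg⟩ : ∃ g, g = gv n (F Oo Lip) := ⟨_, rfl⟩
  rw [← hg]
  obtain ⟨c, hcV, ⟨x₀, hx₀, v₀, hv₀, hv₀ne⟩, N, hper⟩ :=
    perg (X := X9) (g := g) hV (fun x hx => by rw [hg]; exact hQ x (ad x hx)) (by rw [hg]; exact hne)
  have R5 : ∀ x ∈ X9, ∑ i, g (cyi (s5 i) (act (v5 i) x)) = (10 : ℂ) ^ k * l5 * g x := by
    intro x hx
    obtain ⟨u, hu⟩ := ad x hx
    rw [hg]
    exact hk5 hF h5 hu
  have R7 : ∀ x ∈ X9, ∑ i, g (cyi (s7 i) (act (v7 i) x)) = (28 : ℂ) ^ k * l7 * g x := by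
    intro x hx
    obtain ⟨u, hu⟩ := ad x hx
    rw [hg]
    exact hk7 hF h7 hu
  have R13 : ∀ x ∈ X9, ∑ i, g (cyi (s13 i) (actc (c13 i) x)) = (52 : ℂ) ^ k * l13 * g x := by
    intro x hx
    obtain ⟨u, hu⟩ := ad x hx
    rw [hg]
    exact hk13 hF h13 hu
  have z5 : ∀ x ∈ X9, ∀ i, c * g (cyi (s5 i) (act (v5 i) x)) ∈ V := fun x hx i =>
    hcV _ (cyi_X9 _ (act_X9 _ hx))
  have z7 : ∀ x ∈ X9, ∀ i, c * g (cyi (s7 i) (act (v7 i) x)) ∈ V := fun x hx i =>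
    hcV _ (cyi_X9 _ (act_X9 _ hx))
  have z13 : ∀ x ∈ X9, ∀ i, c * g (cyi (s13 i) (actc (c13 i) x)) ∈ V := fun x hx i =>
    hcV _ (cyi_X9 _ (actc_X9 (c13_norm i) (by norm_num) hx))
  obtain ⟨m5, hm5⟩ := eig_int (z5 x₀ hx₀) hv₀ hv₀ne (R5 x₀ hx₀)
  obtain ⟨m7, hm7⟩ := eig_int (z7 x₀ hx₀) hv₀ hv₀ne (R7 x₀ hx₀)
  obtain ⟨m13, hm13⟩ := eig_int (z13 x₀ hx₀) hv₀ hv₀ne (R13 x₀ hx₀)
  have H : HkR (N + 1) (gred V c g) (rs V m5) (rs V m7) (rs V m13) := by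
    refine ⟨?_, ?_, ?_, ?_, ?_, ?_, ?_, ?_, ?_, ?_⟩
    · intro x hx y hy hxy
      rw [gred_pos (v := ⟨_, hcV x hx⟩) rfl, gred_pos (v := ⟨_, hcV y hy⟩) rfl]
      exact hper x hx y hy hxy _ _ rfl rfl
    · intro x hx s hs
      refine gred_scal (k := k) hV (hcV x hx) hs (fun s hs' => ?_) (fun s hs' => ?_)
      · rw [hg]; exact gv_scal hf (ad x hx) hs'
      · rw [hg]
        obtain ⟨u, hu⟩ := ad x hx
        exact gv_neg hf ⟨u, Ad_scal hu hs'⟩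
    · intro x hx
      apply gred_eq
      rw [hg]; exact gf_i hf (ad x hx)
    · intro x hx
      apply gred_eq
      rw [hg]; exact gf_j hf (ad x hx)
    · intro x hx
      apply gred_eq
      rw [hg]; exact gf_q hf (ad x hx)
    · intro s x0 p r hx0
      apply gred_eq
      rw [hg]; exact gv4_n hF s hx0
    · intro x hx
      rw [gred_pos (v := ⟨_, hcV x hx⟩) rfl, gred_pos (v := ⟨_, hcV _ (cyi_X9 1 hx)⟩) rfl,
        gred_pos (v := ⟨_, hcV _ (cyi_X9 2 hx)⟩) rfl, ← map_add, ← map_add, ← map_zero (rs V)]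
      congr 1
      apply Subtype.ext
      show c * g x + c * g (cyi 1 x) + c * g (cyi 2 x) = 0
      have := gv_tr hF (ad x hx)
      rw [← hg] at this
      rw [← mul_add, ← mul_add, this, mul_zero]
    · intro x hx
      exact gred_sum (z5 x hx) hm5 (hcV x hx) (R5 x hx)
    · intro x hx
      exact gred_sum (z7 x hx) hm7 (hcV x hx) (R7 x hx)
    · intro x hx
      exact gred_sum (z13 x hx) hm13 (hcV x hx) (R13 x hx)
  obtain ⟨r, hr⟩ := H.const (three_zero hV)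
  refine ⟨c, r, ?_, ?_⟩
  · rw [← hr x₀ hx₀, gred_pos hv₀]
    exact hv₀ne
  · intro x hx
    refine ⟨⟨_, hcV x hx⟩, rfl, ?_⟩
    rw [← hr x hx, gred_pos (v := ⟨_, hcV x hx⟩) rfl]

end

end Pool.Agent.Helper725_HQ.RR
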