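import Pool.Agent.Helper725_HQ.RCDefs
import Pool.Agent.Helper725_HQ.RCVal
import Pool.Agent.Helper725_HQ.RUni
import Pool.Agent.Helper725_HQ.DUni

/-! Simultaneous nonvanishing of the periods of all eigenforms of conductor two or four which are
invariant under a ramified torus at three. -/

set_option autoImplicit false
set_option linter.unusedSimpArgs false
set_option linter.unnecessarySeqFocus false

namespace Pool.Agent.Helper725_HQ.RR

open Quaternion MvPolynomial NumberField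
open scoped nonZeroDivisors

section
variable {K : Type} [Field K] [NumberField K] {ι : K →+* ℍ[ℚ]} {𝔞 : Ideal (𝓞 K)}

/-- one term of the toric period -/
theorem period_term4R {V : ValuationSubring ℂ} {n k : ℕ}
    {F : AddSubgroup ℍ[ℚ] → AddSubgroup ℍ[ℚ] → ℍ[ℚ] → MvPolynomial (Fin 3) ℂ}
    (hF : IsForm4R n k F) {c : ℂ} {r : kap V}
    (H : ∀ x : Fin 3 → ℤ, (x 0 ^ 2 + x 1 ^ 2 + x 2 ^ 2) % 9 = 6 →
        ∃ v : V, c * gv n (F Oo Lip) x = (v : ℂ) ∧ rs V v = r) {d : ℕ} (hd3 : d % 9 = 6)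
    (h𝔞 : 𝔞 ≠ ⊥) (h𝔞3 : ¬ 3 ∣ Ideal.absNorm 𝔞) (hs : Stab ι Oo) (hs' : Stab ι Lip) {s : 𝓞 K}
    {w : Fin 3 → ℤ} (hw : ι (s : K) = pq w) (hd : w 0 ^ 2 + w 1 ^ 2 + w 2 ^ 2 = (d : ℤ))
    {u : ℍ[ℚ]} (hu : Ad n w u) :
    ∃ v : V, c * ev (F (idl ι 𝔞 Oo) (idl ι 𝔞 Lip) ((Ideal.absNorm 𝔞 : ℕ) * u)) (ι (s : K)) =
      (v : ℂ) ∧ rs V v = r := by
  have hp := pair4_idl h𝔞 hs hs' pair4_Lip
  obtain ⟨α, hα, hαe, hαe'⟩ := pair4_class hp
  have hgen := gen_idl (𝔞 := 𝔞) hs Oo_isRI (gen_iff.2 hu.1) h𝔞3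
  have hmul : ∀ z ∈ Hur, α⁻¹ * (((Ideal.absNorm 𝔞 : ℕ) : ℍ[ℚ]) * z) ∈ Hur := by
    intro z hz
    have h1 := norm_mul_mem (ι := ι) (𝔞 := 𝔞) (I := Oo) hz
    rw [hαe, mem_lm' hα] at h1
    exact h1
  obtain ⟨N, hN⟩ : ∃ N, N = Ideal.absNorm 𝔞 := ⟨_, rfl⟩
  rw [← hN] at hgen hmul ⊢
  obtain ⟨u', hu'⟩ : ∃ u', u' = α⁻¹ * ((N : ℍ[ℚ]) * u) := ⟨_, rfl⟩
  have e1 : (N : ℍ[ℚ]) * u = α * u' := by
    rw [hu', ← mul_assoc, mul_inv_cancel₀ hα, one_mul]
  rw [hαe, e1] at hgen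
  have hgen' := (gen_lm_iff hα).1 hgen
  have hst := stab_idl (ι := ι) (𝔞 := 𝔞) (I := Oo)
  rw [hαe] at hst
  have h2 : α⁻¹ * ι (s : K) * α ∈ Hur := by
    have h3 := hst s α (mem_lm.2 ⟨1, Hur.one_mem, by rw [mul_one]⟩)
    rw [mem_lm' hα, ← mul_assoc] at h3
    exact h3
  have hα' : α⁻¹ ≠ 0 := inv_ne_zero hα
  have h4 : (α⁻¹ * ι (s : K) * α).re = 0 := by
    have e2 := re_conj hα' (ι (s : K))
    rw [inv_inv] at e2
    rw [e2, hw]; rfl
  have h5 : normSq (α⁻¹ * ι (s : K) * α) = (d : ℚ) := by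
    rw [map_mul, map_mul, hw, normSq_pq, hd]
    have e2 : normSq α⁻¹ * normSq α = 1 := by
      rw [← map_mul, inv_mul_cancel₀ hα, map_one]
    push_cast
    have e3 : normSq α⁻¹ * (d : ℚ) * normSq α = (normSq α⁻¹ * normSq α) * d := by ring
    rw [e3, e2, one_mul]
  obtain ⟨a, b, c', h6⟩ := pure_int h2 h4
  have h7 : α⁻¹ * ι (s : K) * α = pq ![a, b, c'] := by
    rw [h6]; rfl
  have h8 : (![a, b, c'] : Fin 3 → ℤ) 0 ^ 2 + (![a, b, c'] : Fin 3 → ℤ) 1 ^ 2 +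
      (![a, b, c'] : Fin 3 → ℤ) 2 ^ 2 = (d : ℤ) := by
    rw [h7, normSq_pq] at h5
    exact_mod_cast h5
  have had : Ad n ![a, b, c'] u' := by
    obtain ⟨_, t, ht, z, hz, h9⟩ := hu
    refine ⟨gen_iff.1 hgen', t, ht, α⁻¹ * ((N : ℍ[ℚ]) * z), hmul z hz, ?_⟩
    rw [← h7, hu', mul_assoc, ← mul_assoc α, mul_inv_cancel₀ hα, one_mul, mul_assoc,
      ← mul_assoc (ι (s : K)), (Nat.cast_commute N (ι (s : K))).eq.symm, mul_assoc (N : ℍ[ℚ]), hw,
      h9, mul_add, mul_add, mul_assoc α⁻¹, mul_assoc (N : ℍ[ℚ]), mul_smul_comm, mul_smul_comm]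
  have h10 : ev (F (idl ι 𝔞 Oo) (idl ι 𝔞 Lip) ((N : ℍ[ℚ]) * u)) (ι (s : K)) =
      gv n (F Oo Lip) ![a, b, c'] := by
    rw [hαe, hαe', e1, form4R_left hF hα pair4_Lip hgen', ev_lsub hα, h7, evvl,
      gv_eq (form4R_fr hF) had]
  rw [h10]
  apply H
  rw [h8]
  omega

/-- nonvanishing along one field -/
theorem nonvan_one4R {V : ValuationSubring ℂ} (hV : Thr V) {n k : ℕ}
    {F : AddSubgroup ℍ[ℚ] → AddSubgroup ℍ[ℚ] → ℍ[ℚ] → MvPolynomial (Fin 3) ℂ}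
    (hF : IsForm4R n k F) {c : ℂ} {r : kap V} (hr0 : r ≠ 0)
    (H : ∀ x : Fin 3 → ℤ, (x 0 ^ 2 + x 1 ^ 2 + x 2 ^ 2) % 9 = 6 →
        ∃ v : V, c * gv n (F Oo Lip) x = (v : ℂ) ∧ rs V v = r) {d : ℕ} (hd3 : d % 9 = 6)
    (hd : Squarefree d) (h8 : d % 4 = 1 ∨ d % 4 = 2) (h2 : Module.finrank ℚ K = 2)
    {x : K} (hx : x ^ 2 = -(d : K)) (hcl : ¬ 3 ∣ Nat.card (ClassGroup (𝓞 K))) :
    NonvanPer4R n F K := by
  have h8' : d % 8 = 3 ∨ d % 4 = 1 ∨ d % 4 = 2 := Or.inr h8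
  obtain ⟨w, hw⟩ := three_sq h8'
  have hd0 : 0 < d := by omega
  obtain ⟨ι, hι⟩ := exists_iota hd0 h2 hx hw
  have hs := stab_Oo hd h8' h2 hx hw hι
  have hs' := stab_Lip2 hd h8 h2 hx hι
  have hint : IsIntegral ℤ (x : K) := by
    refine ⟨Polynomial.X ^ 2 + Polynomial.C ((d : ℕ) : ℤ), ?_, ?_⟩
    · monicity!
    · rw [Polynomial.eval₂_add, Polynomial.eval₂_pow, Polynomial.eval₂_X,
        Polynomial.eval₂_C, hx]
      simp
  obtain ⟨u, hu⟩ := Ad_X9 n (x := w) (by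
    show (w 0 ^ 2 + w 1 ^ 2 + w 2 ^ 2) % 9 = 6
    rw [hw]; omega)
  refine ⟨ι, Oo, Lip, u, pair4_Lip, gen_iff.2 hu.1, hs, hs', x, ?_, ?_, ?_, ?_⟩
  · rintro rfl
    rw [zero_pow two_ne_zero, zero_eq_neg, Nat.cast_eq_zero] at hx
    omega
  · rw [hι]; rfl
  · obtain ⟨_, t, ht, z, hz, h9⟩ := hu
    refine ⟨t, by omega, ?_⟩
    rw [hι, h9, mem_lm]
    refine ⟨z, hz, ?_⟩
    rw [nat_smulH]
    push_cast
    abel
  · intro rep hrep hrep3 h0
    obtain ⟨s0, hs0⟩ : ∃ s0 : 𝓞 K, (s0 : K) = x := ⟨⟨x, hint⟩, rfl⟩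
    have key : ∀ cl : ClassGroup (𝓞 K), ∃ v : V,
        c * ev (F (idl ι (rep cl : Ideal (𝓞 K)) Oo) (idl ι (rep cl : Ideal (𝓞 K)) Lip)
          ((Ideal.absNorm (rep cl : Ideal (𝓞 K)) : ℕ) * u)) (ι x) = (v : ℂ) ∧ rs V v = r := by
      intro cl
      have hne : (rep cl : Ideal (𝓞 K)) ≠ ⊥ := nonZeroDivisors.coe_ne_zero _
      have := period_term4R (s := s0) hF H hd3 hne (hrep3 cl) hs hs' (w := w)
        (by rw [hs0]; exact hι) hw hu
      rw [hs0] at this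
      exact this
    choose v hv1 hv2 using key
    have h1 : ((∑ cl, v cl : V) : ℂ) = 0 := by
      have : ((∑ cl, v cl : V) : ℂ) = c * torp4N F ι rep Oo Lip u x := by
        unfold torp4N
        rw [Finset.mul_sum]
        have h3 : ((∑ cl, v cl : V) : ℂ) = V.subtype (∑ cl, v cl) := rfl
        rw [h3, map_sum]
        apply Finset.sum_congr rfl
        intro cl _
        exact (hv1 cl).symm
      rw [this, h0, mul_zero]
    have h2 : (∑ cl, v cl : V) = 0 := Subtype.ext h1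
    have h3 := congrArg (rs V) h2
    rw [map_sum, map_zero, Finset.sum_congr rfl (fun cl _ => hv2 cl), Finset.sum_const,
      Finset.card_univ, nsmul_eq_mul] at h3
    rcases mul_eq_zero.1 h3 with h4 | h4
    · apply card_unit hV hcl
      rw [Nat.card_eq_fintype_card]
      exact h4
    · exact hr0 h4

end


section
variable {n k : ℕ} {F : AddSubgroup ℍ[ℚ] → AddSubgroup ℍ[ℚ] → ℍ[ℚ] → MvPolynomial (Fin 3) ℂ}

theorem formRC_two (hF : IsFormRC 2 n k F) : IsFormR n k (fun I u => F I I u) := by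
  have pr : ∀ {I : AddSubgroup ℍ[ℚ]}, IsRI I → PairC 2 I I := fun hI => pairC_two.2 ⟨hI, rfl⟩
  refine ⟨?_, fun I u => hF.hom _ _ _, fun I u => hF.harm _ _ _, ?_, ?_, ?_, ?_, ?_, ?_⟩
  · intro I u h
    apply hF.supp
    rintro ⟨h1, h2⟩
    exact h ⟨h1.1, h2⟩
  · intro α hα I u hI hu x
    exact hF.left α hα I I u (pr hI) hu x
  · intro I u hI hu
    exact hF.two I I u (pr hI) hu
  · intro I u u' hI hu hu' h
    exact hF.lvl I I u u' (pr hI) hu hu' h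
  · intro I u hI hu
    exact hF.tor I I u (pr hI) hu
  · intro I J u hI hJ hu hu' h1 h2
    have h := hF.unif I I J u (pr hI) hJ hu hu' h1 h2
    rwa [inf_eq_left.2 h2] at h
  · intro I u hI hu
    exact hF.sgn I I u (pr hI) hu

theorem formRC_four (hF : IsFormRC 4 n k F) : IsForm4R n k F := by
  refine ⟨?_, hF.hom, hF.harm, ?_, ?_, ?_, ?_, ?_, ?_, ?_⟩
  · intro I I' u h
    apply hF.supp
    rintro ⟨h1, h2⟩
    exact h ⟨pairC_four.1 h1, h2⟩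
  · intro α hα I I' u hI hu x
    exact hF.left α hα I I' u (pairC_four.2 hI) hu x
  · intro I I' u hI hu
    exact hF.two I I' u (pairC_four.2 hI) hu
  · intro I I' u u' hI hu hu' h
    exact hF.lvl I I' u u' (pairC_four.2 hI) hu hu' h
  · intro I I' u hI hu
    exact hF.tor I I' u (pairC_four.2 hI) hu
  · intro I I' J u hI hJ hu hu' h1 h2
    exact hF.unif I I' J u (pairC_four.2 hI) hJ hu hu' h1 h2
  · intro I I' u hI hu
    exact hF.sgn I I' u (pairC_four.2 hI) hu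
  · intro I u hI
    have h := hF.tr rfl I u hI
    have e : {I' : AddSubgroup ℍ[ℚ] | PairC 4 I I'} = {I' | IsPair4 I I'} := by
      ext I'
      exact pairC_four
    rwa [e] at h

end

/-- simultaneous nonvanishing -/
theorem manyRC (T : Finset ℕ) (hT : ∀ p ∈ T, p.Prime)
    (δ : ∀ (p : ℕ) [Fact p.Prime], ℚ_[p]) (hδ0 : ∀ (p : ℕ) [Fact p.Prime], δ p ≠ 0)
    (hδ2 : ¬ IsSquare (δ 2)) (hδ3 : 3 ∈ T → IsSquare (3 * δ 3)) :
    ∃ c : ℝ, 0 < c ∧ ∃ x₀ : ℝ, ∀ x : ℝ, x₀ ≤ x → ∃ S : Finset (IntermediateField ℚ ℂ),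
      c * x ≤ (S.card : ℝ) ∧ ∀ E ∈ S, ∃ _ : NumberField E, Module.finrank ℚ E = 2 ∧
        |(discr E : ℝ)| < x ∧ (∀ p ∈ T, ∀ [Fact p.Prime], Loc p (δ p) E) ∧
        ∀ c n k : ℕ, (c = 2 ∨ c = 4 ∧ ¬ IsSquare (-3 * δ 2)) →
          ∀ F : AddSubgroup ℍ[ℚ] → AddSubgroup ℍ[ℚ] → ℍ[ℚ] → MvPolynomial (Fin 3) ℂ,
          IsFormRC c n k F → (∃ I I' u, F I I' u ≠ 0) →
          (∀ p : ℕ, p = 5 ∨ p = 7 ∨ c = 4 ∧ p = 13 → ∃ lam : ℂ, ∀ I I' u, PairC c I I' →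
            GenAt3 I u → heckeC p F I I' u = lam • F I I' u) →
          NonvanPerRC c n F E := by
  classical
  have h330 : (3 : ℚ_[3]) ≠ 0 := by norm_num
  obtain ⟨c', hc', x₀, hx₀⟩ := Pool.Agent.Helper725_DH.fields_manyU (hδ0 2) hδ2 h330
    (T.filter (fun p => 5 ≤ p)) (fun p hp => ⟨hT p (Finset.mem_filter.1 hp).1,
      (Finset.mem_filter.1 hp).2⟩) δ (fun p _ _ => hδ0 p)
  refine ⟨c', hc', x₀, ?_⟩
  intro x hx
  obtain ⟨S, hS, hSd⟩ := hx₀ x hx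
  refine ⟨S.image Ed, ?_, ?_⟩
  · rw [Finset.card_image_of_injOn]
    · exact hS
    · intro d hd d' hd' h
      obtain ⟨a1, a2, _⟩ := hSd d hd
      obtain ⟨b1, b2, _⟩ := hSd d' hd'
      exact Ed_inj a1 a2 b1 b2 h
  · intro E hE
    obtain ⟨d, hd, rfl⟩ := Finset.mem_image.1 hE
    obtain ⟨a1, a3, a4, a5, a6, a7, a8⟩ := hSd d hd
    have hd0 : 0 < d := by omega
    have hns : ¬ IsSquare (-(d : ℚ)) := by
      rintro ⟨q, hq⟩
      exact Pool.Agent.Helper725_DH.IQ.not_sq hd0 q (by rw [hq]; ring)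
    have hd2 : -(d : ℚ_[2]) ≠ 0 := by
      rw [neg_ne_zero]; exact_mod_cast hd0.ne'
    have h9 : ¬ 9 ∣ d := by
      intro h
      have := a1 3 (by norm_num; exact h)
      rw [Nat.isUnit_iff] at this
      omega
    have hd6 : d % 9 = 6 := six_of_sq hd0 h9 a6
    refine ⟨inferInstance, Ed_rank hd0, ?_, ?_, ?_⟩
    · rw [Ed_discr a1 a3]
      split_ifs at a4 ⊢ with h
      · push_cast
        rw [abs_neg, abs_of_nonneg (by positivity)]
        exact a4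
      · push_cast
        rw [abs_neg, abs_of_nonneg (by positivity)]
        exact a4
    · intro p hp hpf
      refine ⟨-(d : ℚ), xd d, ?_, hns, ?_⟩
      · rw [xd_sq]; push_cast; rfl
      · push_cast
        by_cases h5 : 5 ≤ p
        · exact a7 p (Finset.mem_filter.2 ⟨hp, h5⟩)
        · have h6 := (hT p hp).two_le
          have h7 : p ≠ 4 := by
            rintro rfl
            exact absurd (hT 4 hp) (by norm_num)
          have h8 : p = 2 ∨ p = 3 := by omega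
          rcases h8 with rfl | rfl
          · exact a5
          · have h9 := a6.mul (hδ3 hp)
            have h10 : IsSquare (((3 : ℚ_[3])⁻¹) ^ 2) := ⟨(3 : ℚ_[3])⁻¹, by ring⟩
            have h11 := h9.mul h10
            have e : -(d : ℚ_[3]) * 3 * (3 * δ 3) * ((3 : ℚ_[3])⁻¹) ^ 2 = -(d : ℚ_[3]) * δ 3 := by
              field_simp
            rw [e] at h11
            exact h11
    · intro c n k hc F hF hF0 he
      obtain ⟨V, hV⟩ := exists_V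
      obtain ⟨l5, h5⟩ := he 5 (Or.inl rfl)
      obtain ⟨l7, h7⟩ := he 7 (Or.inr (Or.inl rfl))
      rcases hc with rfl | ⟨rfl, hδ2'⟩
      · have hF' := formRC_two hF
        have hF0' : ∃ I u, F I I u ≠ 0 := by
          obtain ⟨I, I', u, h⟩ := hF0
          have h1 : PairC 2 I I' ∧ GenAt3 I u := by
            by_contra h1
            exact h (hF.supp I I' u h1)
          rw [(pairC_two.1 h1.1).2] at h
          exact ⟨I, u, h⟩
        obtain ⟨c, r, hr, H⟩ := all_valR hV hF' hF0'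
          (fun I u hI hu => by
            rw [heckeC_two]
            exact h5 I I u (pairC_two.2 ⟨hI, rfl⟩) hu)
          (fun I u hI hu => by
            rw [heckeC_two]
            exact h7 I I u (pairC_two.2 ⟨hI, rfl⟩) hu)
        obtain ⟨ι, I, u, b1, b2, b3, s, b4, b5, b6, b7⟩ := nonvan_oneR hV hF' hr H hd6 a1 a3
          (Ed_rank hd0) (xd_sq d) (a8 (Ed d) (Ed_rank hd0) ⟨xd d, xd_sq d⟩)
        exact ⟨ι, I, I, u, pairC_two.2 ⟨b1, rfl⟩, b2, b3, b3, s, b4, b5, b6, b7⟩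
      · obtain ⟨l13, h13⟩ := he 13 (Or.inr (Or.inr ⟨rfl, rfl⟩))
        have h8 : d % 4 = 1 ∨ d % 4 = 2 := by
          rcases a3 with h | h
          · exact absurd (sq_transfer hd2 (sq_two_m h) a5) hδ2'
          · exact h
        have hF' := formRC_four hF
        obtain ⟨c, r, hr, H⟩ := all_val4R hV hF' hF0
          (fun I I' u hI hu => h5 I I' u (pairC_four.2 hI) hu)
          (fun I I' u hI hu => h7 I I' u (pairC_four.2 hI) hu)
          (fun I I' u hI hu => h13 I I' u (pairC_four.2 hI) hu)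
        obtain ⟨ι, I, I', u, b1, b2, b3, b3', s, b4, b5, b6, b7⟩ := nonvan_one4R hV hF' hr H hd6 a1
          h8 (Ed_rank hd0) (xd_sq d) (a8 (Ed d) (Ed_rank hd0) ⟨xd d, xd_sq d⟩)
        exact ⟨ι, I, I', u, pairC_four.2 b1, b2, b3, b3', s, b4, b5, b6, b7⟩

end Pool.Agent.Helper725_HQ.RR
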