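import Pool.Agent.Helper725_HQ.CDefs

/-! Forms of conductor four at two which are invariant under the ramified torus. -/

set_option autoImplicit false

namespace Pool.Agent.Helper725_HQ.RR

open Quaternion MvPolynomial NumberField
open scoped nonZeroDivisors

/-- forms of conductor four -/
structure IsForm4R (n k : ℕ)
    (F : AddSubgroup ℍ[ℚ] → AddSubgroup ℍ[ℚ] → ℍ[ℚ] → MvPolynomial (Fin 3) ℂ) : Prop where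
  supp : ∀ I I' u, ¬ (IsPair4 I I' ∧ Gen3 I u) → F I I' u = 0
  hom : ∀ I I' u, (F I I' u).IsHomogeneous k
  harm : ∀ I I' u, ∑ i, pderiv i (pderiv i (F I I' u)) = 0
  left : ∀ α : ℍ[ℚ], α ≠ 0 → ∀ I I' u, IsPair4 I I' → Gen3 I u → ∀ x,
    ev (F (lm α I) (lm α I') (α * u)) (α * x * α⁻¹) = ev (F I I' u) x
  two : ∀ I I' u, IsPair4 I I' → Gen3 (rm (mk4 1 1 0 0) I) u →
    F (rm (mk4 1 1 0 0) I) (rm (mk4 1 1 0 0) I') u = F I I' u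
  lvl : ∀ I I' u u', IsPair4 I I' → Gen3 I u → Gen3 I u' →
    u' - u ∈ lm ((3 ^ n : ℕ) : ℍ[ℚ]) I → F I I' u' = F I I' u
  tor : ∀ I I' u, IsPair4 I I' → Gen3 I u → ∀ a b : ℤ, ¬ (3 : ℤ) ∣ a →
    F I I' (u * mk4 a b b (-2 * b)) = F I I' u
  unif : ∀ I I' J u, IsPair4 I I' → IsRI J → Gen3 I u → Gen3 J (u * mk4 0 1 1 (-2)) →
    lm 3 I ≤ J → J ≤ I → F J (J ⊓ I') (u * mk4 0 1 1 (-2)) = F I I' u
  sgn : ∀ I I' u, IsPair4 I I' → Gen3 I u →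
    F I I' (u * mk4 0 1 (-1) 0) = (-1 : ℂ) ^ k • F I I' u
  tr : ∀ I u, IsRI I → ∑ᶠ I' ∈ {I' : AddSubgroup ℍ[ℚ] | IsPair4 I I'}, F I I' u = 0

/-- nonvanishing -/
def NonvanPer4R (n : ℕ)
    (F : AddSubgroup ℍ[ℚ] → AddSubgroup ℍ[ℚ] → ℍ[ℚ] → MvPolynomial (Fin 3) ℂ)
    (K : Type) [Field K] [NumberField K] : Prop :=
  ∃ (ι : K →+* ℍ[ℚ]) (I I' : AddSubgroup ℍ[ℚ]) (u : ℍ[ℚ]), IsPair4 I I' ∧ Gen3 I u ∧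
    (∀ a : 𝓞 K, ∀ y ∈ I, ι (a : K) * y ∈ I) ∧ (∀ a : 𝓞 K, ∀ y ∈ I', ι (a : K) * y ∈ I') ∧
    ∃ s : K, s ≠ 0 ∧ (ι s).re = 0 ∧
      (∃ c : ℤ, ¬ (3 : ℤ) ∣ c ∧
        ι s * u - u * mk4 0 c c (-2 * c) ∈ lm ((3 ^ (n + 1) : ℕ) : ℍ[ℚ]) I) ∧
      ∀ rep : ClassGroup (𝓞 K) → (Ideal (𝓞 K))⁰, (∀ c, ClassGroup.mk0 (rep c) = c) →
        (∀ c, ¬ 3 ∣ Ideal.absNorm (rep c : Ideal (𝓞 K))) → torp4N F ι rep I I' u s ≠ 0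

end Pool.Agent.Helper725_HQ.RR
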