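import Pool.Agent.Helper725_HQ.RCore

/-! Eigenfunctions on the disc of the ramified torus are constant. -/

set_option autoImplicit false
set_option linter.unusedVariables false
set_option linter.unusedSimpArgs false

namespace Pool.Agent.Helper725_HQ.RR

open Quaternion

section
variable {N : ℕ}

/-- integral elements -/
def zq (a b c d : ℤ) : Qn N := ⟨a, b, c, d⟩

theorem zq_mul (a b c d a' b' c' d' : ℤ) : (zq a b c d * zq a' b' c' d' : Qn N) =
    zq (a * a' - 3 * b * b' - 2 * c * c' - 6 * d * d') (a * b' + b * a' + 2 * c * d' - 2 * d * c')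
      (a * c' + c * a' - 3 * b * d' + 3 * d * b') (a * d' + d * a' + b * c' - c * b') := by
  unfold zq
  apply QuaternionAlgebra.ext
  · simp; ring
  · simp; ring
  · simp; ring
  · simp; ring

theorem unit_int {s : ℤ} (h : ¬ (3 : ℤ) ∣ s) : IsUnit ((s : ℤ) : Zn N) := by
  have h1 : IsCoprime s ((3 ^ N : ℕ) : ℤ) := by
    push_cast
    exact IsCoprime.pow_right (((Prime.coprime_iff_not_dvd Int.prime_three).2 h).symm)
  obtain ⟨a, b, hab⟩ := h1
  have h2 : (s : Zn N) * (a : Zn N) = 1 := by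
    have h3 := congrArg (Int.cast : ℤ → Zn N) hab
    push_cast at h3
    have h4 : (3 : Zn N) ^ N = 0 := three_pow_zero le_rfl
    rw [h4, mul_zero, add_zero] at h3
    rw [mul_comm]; exact h3
  exact IsUnit.of_mul_eq_one _ h2

/-- the unit given by an integral element of norm prime to three -/
noncomputable def zu (a b c d : ℤ) (h : ¬ (3 : ℤ) ∣ a ^ 2 + 2 * c ^ 2) : (Qn N)ˣ :=
  have h0 : ¬ (3 : ℤ) ∣ a ^ 2 + 3 * b ^ 2 + 2 * c ^ 2 + 6 * d ^ 2 := by
    intro h1
    apply h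
    have h2 : a ^ 2 + 2 * c ^ 2 = (a ^ 2 + 3 * b ^ 2 + 2 * c ^ 2 + 6 * d ^ 2) -
      3 * (b ^ 2 + 2 * d ^ 2) := by ring
    rw [h2]
    exact dvd_sub h1 (dvd_mul_right _ _)
  have hv : (((a ^ 2 + 3 * b ^ 2 + 2 * c ^ 2 + 6 * d ^ 2 : ℤ)) : Zn N) *
      (((unit_int (N := N) h0).unit⁻¹ : (Zn N)ˣ) : Zn N) = 1 := (unit_int h0).mul_val_inv
  { val := zq a b c d
    inv := (((unit_int (N := N) h0).unit⁻¹ : (Zn N)ˣ) : Zn N) • zq a (-b) (-c) (-d)
    val_inv := by
      rw [mul_smul_comm, zq_mul]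
      generalize (((unit_int (N := N) h0).unit⁻¹ : (Zn N)ˣ) : Zn N) = e at hv
      unfold zq
      push_cast at hv
      apply QuaternionAlgebra.ext
      · simp; linear_combination hv
      · simp; ring
      · simp; ring
      · simp; ring
    inv_val := by
      rw [smul_mul_assoc, zq_mul]
      generalize (((unit_int (N := N) h0).unit⁻¹ : (Zn N)ˣ) : Zn N) = e at hv
      unfold zq
      push_cast at hv
      apply QuaternionAlgebra.ext
      · simp; linear_combination hv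
      · simp; ring
      · simp; ring
      · simp; ring }

theorem zu_val {a b c d : ℤ} (h : ¬ (3 : ℤ) ∣ a ^ 2 + 2 * c ^ 2) :
    ((zu a b c d h : (Qn N)ˣ) : Qn N) = zq a b c d := rfl

theorem kz_two {u v : (Qn N)ˣ} {s : (Zn N)ˣ} {ζ : Qn N}
    (h : (v : Qn N) = (s : Zn N) • (u : Qn N) + (9 : Zn N) • ζ) : u⁻¹ * v ∈ Kz N 2 := by
  refine ⟨s, ((s⁻¹ : (Zn N)ˣ) : Zn N) • (((u⁻¹ : (Qn N)ˣ) : Qn N) * ζ), ?_⟩
  have h1 : ((s : (Zn N)ˣ) : Zn N) * ((s⁻¹ : (Zn N)ˣ) : Zn N) = 1 := Units.mul_inv s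
  have h2 : (s : Zn N) * (3 : Zn N) ^ 2 * ((s⁻¹ : (Zn N)ˣ) : Zn N) = 9 := by
    linear_combination (9 : Zn N) * h1
  rw [Units.val_mul, h, mul_add, mul_smul_comm, Units.inv_mul, mul_smul_comm, smul_add, smul_smul,
    smul_smul, h2]

theorem kp_h : ((kp (im 0 1 0) : (Qn N)ˣ) : Qn N) = zq 1 0 3 0 := by
  rw [kap_val]
  unfold zq
  apply QuaternionAlgebra.ext <;> simp
theorem kp_a : ((kp (im 1 0 0) : (Qn N)ˣ) : Qn N) = zq 1 3 0 0 := by
  rw [kap_val]
  unfold zq
  apply QuaternionAlgebra.ext <;> simp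
theorem kp_b : ((kp (im 0 0 1) : (Qn N)ˣ) : Qn N) = zq 1 0 0 3 := by
  rw [kap_val]
  unfold zq
  apply QuaternionAlgebra.ext <;> simp
theorem tt_z : ((tt N : (Qn N)ˣ) : Qn N) = zq 1 0 0 1 := by
  rw [tt_val]
  unfold zq
  apply QuaternionAlgebra.ext <;> simp

theorem dec_of {β α γ m : ℕ} {a b c d : ℤ}
    (hA : ((tt N ^ β * (kp (im 0 1 0) ^ α * kp (im 1 0 0) ^ γ) * kp (im 0 0 1) ^ m :
      (Qn N)ˣ) : Qn N) = zq a b c d)
    {P : (Qn N)ˣ} {a' b' c' d' s x y z t : ℤ} (hP : (P : Qn N) = zq a' b' c' d')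
    (hs : ¬ (3 : ℤ) ∣ s) (h1 : a' = s * a + 9 * x) (h2 : b' = s * b + 9 * y)
    (h3 : c' = s * c + 9 * z) (h4 : d' = s * d + 9 * t) : Dec β α γ P := by
  obtain ⟨u, hu⟩ := unit_int (N := N) hs
  refine ⟨m, _, kz_two (u := tt N ^ β * (kp (im 0 1 0) ^ α * kp (im 1 0 0) ^ γ) *
    kp (im 0 0 1) ^ m) (v := P) (s := u) (ζ := zq x y z t) ?_, by rw [mul_inv_cancel_left]⟩
  rw [hA, hP, hu, h1, h2, h3, h4]
  unfold zq
  apply QuaternionAlgebra.ext
  · simp
  · simp
  · simp
  · simp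

end

section
variable {N : ℕ}

/-- the six elements of norm five -/
noncomputable def p1 (N : ℕ) : (Qn N)ˣ := zu (-4) 0 3 (-1) (by norm_num)
noncomputable def p2 (N : ℕ) : (Qn N)ˣ := zu (-2) 0 0 1 (by norm_num)
noncomputable def p3 (N : ℕ) : (Qn N)ˣ := zu (-4) 0 (-3) (-1) (by norm_num)
noncomputable def p4 (N : ℕ) : (Qn N)ˣ := zu (-4) 0 (-3) 1 (by norm_num)
noncomputable def p5 (N : ℕ) : (Qn N)ˣ := zu (-4) 0 3 1 (by norm_num)
noncomputable def p6 (N : ℕ) : (Qn N)ˣ := zu (-2) 0 0 (-1) (by norm_num)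
/-- the eight elements of norm seven -/
noncomputable def q1 (N : ℕ) : (Qn N)ˣ := zu (-2) 0 (-3) 1 (by norm_num)
noncomputable def q2 (N : ℕ) : (Qn N)ˣ := zu (-2) 0 0 (-2) (by norm_num)
noncomputable def q3 (N : ℕ) : (Qn N)ˣ := zu (-2) 0 3 1 (by norm_num)
noncomputable def q4 (N : ℕ) : (Qn N)ˣ := zu (-2) 0 3 (-1) (by norm_num)
noncomputable def q5 (N : ℕ) : (Qn N)ˣ := zu (-2) 0 (-3) (-1) (by norm_num)
noncomputable def q6 (N : ℕ) : (Qn N)ˣ := zu (-2) 0 0 2 (by norm_num)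
noncomputable def a1 (N : ℕ) : (Qn N)ˣ := zu 1 3 0 0 (by norm_num)
noncomputable def a2 (N : ℕ) : (Qn N)ˣ := zu 1 (-3) 0 0 (by norm_num)

theorem dp1 : Dec 1 2 1 (p1 N) := by
  refine dec_of (m := 2) (a := -3563) (b := 1575) (c := 8925) (d := 2401) ?_ (zu_val _)
    (s := 5) (x := 1979) (y := -875) (z := -4958) (t := -1334) (by norm_num) (by norm_num)
    (by norm_num) (by norm_num) (by norm_num)
  simp only [pow_one, pow_two, Units.val_mul, tt_z, kp_h, kp_a, kp_b, zq_mul]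
  norm_num

theorem dp2 : Dec 1 0 0 (p2 N) := by
  refine dec_of (m := 1) (a := -17) (b := 0) (c := 0) (d := 4) ?_ (zu_val _)
    (s := 7) (x := 13) (y := 0) (z := 0) (t := -3) (by norm_num) (by norm_num)
    (by norm_num) (by norm_num) (by norm_num)
  simp only [pow_one, pow_zero, mul_one, Units.val_mul, tt_z, kp_h, kp_a, kp_b, zq_mul]
  norm_num

theorem dp3 : Dec 1 1 2 (p3 N) := by
  refine dec_of (m := 2) (a := -2762) (b := -9306) (c := 264) (d := 2824) ?_ (zu_val _)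
    (s := 5) (x := 1534) (y := 5170) (z := -147) (t := -1569) (by norm_num) (by norm_num)
    (by norm_num) (by norm_num) (by norm_num)
  simp only [pow_one, pow_two, Units.val_mul, tt_z, kp_h, kp_a, kp_b, zq_mul]
  norm_num

theorem dp4 : Dec 2 1 1 (p4 N) := by
  refine dec_of (m := 2) (a := -7151) (b := 1467) (c := 327) (d := -1873) ?_ (zu_val _)
    (s := 8) (x := 6356) (y := -1304) (z := -291) (t := 1665) (by norm_num) (by norm_num)
    (by norm_num) (by norm_num) (by norm_num)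
  simp only [pow_one, pow_two, Units.val_mul, tt_z, kp_h, kp_a, kp_b, zq_mul]
  norm_num

theorem dp5 : Dec 2 2 2 (p5 N) := by
  refine dec_of (m := 2) (a := 55930) (b := -58086) (c := -29316) (d := -67060) ?_ (zu_val _)
    (s := 8) (x := -49716) (y := 51632) (z := 26059) (t := 59609) (by norm_num) (by norm_num)
    (by norm_num) (by norm_num) (by norm_num)
  simp only [pow_one, pow_two, Units.val_mul, tt_z, kp_h, kp_a, kp_b, zq_mul]
  norm_num

theorem dp6 : Dec 2 0 0 (p6 N) := by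
  refine dec_of (m := 0) (a := -5) (b := 0) (c := 0) (d := 2) ?_ (zu_val _)
    (s := 4) (x := 2) (y := 0) (z := 0) (t := -1) (by norm_num) (by norm_num)
    (by norm_num) (by norm_num) (by norm_num)
  simp only [pow_one, pow_two, pow_zero, mul_one, Units.val_mul, tt_z, kp_h, kp_a, kp_b, zq_mul]
  norm_num

theorem dq1 : Dec 1 2 1 (q1 N) := by
  refine dec_of (m := 1) (a := 721) (b := -945) (c := 420) (d := 238) ?_ (zu_val _)
    (s := 7) (x := -561) (y := 735) (z := -327) (t := -185) (by norm_num) (by norm_num)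
    (by norm_num) (by norm_num) (by norm_num)
  simp only [pow_one, pow_two, Units.val_mul, tt_z, kp_h, kp_a, kp_b, zq_mul]
  norm_num

theorem dq2 : Dec 1 0 0 (q2 N) := by
  refine dec_of (m := 0) (a := 1) (b := 0) (c := 0) (d := 1) ?_ (zu_val _)
    (s := 7) (x := -1) (y := 0) (z := 0) (t := -1) (by norm_num) (by norm_num)
    (by norm_num) (by norm_num) (by norm_num)
  simp only [pow_one, pow_zero, mul_one, Units.val_mul, tt_z, kp_h, kp_a, kp_b, zq_mul]

theorem dq3 : Dec 1 1 2 (q3 N) := by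
  refine dec_of (m := 1) (a := 874) (b := -198) (c := -1518) (d := 202) ?_ (zu_val _)
    (s := 7) (x := -680) (y := 154) (z := 1181) (t := -157) (by norm_num) (by norm_num)
    (by norm_num) (by norm_num) (by norm_num)
  simp only [pow_one, pow_two, Units.val_mul, tt_z, kp_h, kp_a, kp_b, zq_mul]
  norm_num

theorem dq4 : Dec 2 1 1 (q4 N) := by
  refine dec_of (m := 0) (a := 103) (b := -27) (c := 3) (d := 47) ?_ (zu_val _)
    (s := 4) (x := -46) (y := 12) (z := -1) (t := -21) (by norm_num) (by norm_num)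
    (by norm_num) (by norm_num) (by norm_num)
  simp only [pow_one, pow_two, pow_zero, mul_one, Units.val_mul, tt_z, kp_h, kp_a, kp_b, zq_mul]
  norm_num

theorem dq5 : Dec 2 2 2 (q5 N) := by
  refine dec_of (m := 0) (a := -1778) (b := 1134) (c := 168) (d := 1064) ?_ (zu_val _)
    (s := 4) (x := 790) (y := -504) (z := -75) (t := -473) (by norm_num) (by norm_num)
    (by norm_num) (by norm_num) (by norm_num)
  simp only [pow_one, pow_two, pow_zero, mul_one, Units.val_mul, tt_z, kp_h, kp_a, kp_b, zq_mul]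
  norm_num

theorem dq6 : Dec 2 0 0 (q6 N) := by
  refine dec_of (m := 1) (a := -41) (b := 0) (c := 0) (d := -13) ?_ (zu_val _)
    (s := 4) (x := 18) (y := 0) (z := 0) (t := 6) (by norm_num) (by norm_num)
    (by norm_num) (by norm_num) (by norm_num)
  simp only [pow_one, pow_two, pow_zero, mul_one, Units.val_mul, tt_z, kp_h, kp_a, kp_b, zq_mul]
  norm_num

theorem a1_eq : a1 N = kp (im 1 0 0) := by
  apply Units.ext
  rw [kp_a]; rfl

theorem a2_eq : a2 N = kp (im (-1) 0 0) := by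
  apply Units.ext
  rw [kap_val]
  show zq 1 (-3) 0 0 = _
  unfold zq
  apply QuaternionAlgebra.ext <;> simp

end

end Pool.Agent.Helper725_HQ.RR
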