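import Pool.Agent.Helper725_HQ.RSpan

/-! The descent for the ramified torus. -/

set_option autoImplicit false
set_option linter.unusedVariables false

namespace Pool.Agent.Helper725_HQ.RR

open Quaternion

/-- the third generator -/
def kk (N : ℕ) : Qn N := ⟨0, 0, 0, 1⟩

theorem seven_unit (N : ℕ) : IsUnit (7 : Zn N) := by
  have h := unit_three (N := N) 2
  have e : (1 + 3 * 2 : Zn N) = 7 := by norm_num
  rwa [e] at h

theorem two_unit (N : ℕ) : IsUnit (2 : Zn N) := by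
  have h := unit_three (N := N) (-1)
  have e : (1 + 3 * (-1) : Zn N) = -2 := by ring
  rw [e, IsUnit.neg_iff] at h
  exact h

/-- the inverse of seven -/
noncomputable def i7 (N : ℕ) : Zn N := ((seven_unit N).unit⁻¹ : (Zn N)ˣ)

theorem seven_i7 (N : ℕ) : (7 : Zn N) * i7 N = 1 := by
  unfold i7
  exact (seven_unit N).mul_val_inv

/-- the unit `1 + k` -/
noncomputable def tt (N : ℕ) : (Qn N)ˣ where
  val := ⟨1, 0, 0, 1⟩
  inv := ⟨i7 N, 0, 0, -i7 N⟩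
  val_inv := by
    have h := seven_i7 N
    apply QuaternionAlgebra.ext
    · simp; linear_combination h
    · simp
    · simp
    · simp
  inv_val := by
    have h := seven_i7 N
    apply QuaternionAlgebra.ext
    · simp; linear_combination h
    · simp
    · simp
    · simp

section
variable {N : ℕ}

theorem tt_val : ((tt N : (Qn N)ˣ) : Qn N) = ⟨1, 0, 0, 1⟩ := rfl
theorem tt_inv : (((tt N)⁻¹ : (Qn N)ˣ) : Qn N) = ⟨i7 N, 0, 0, -i7 N⟩ := rfl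

theorem Rel.conj {m : ℕ} {g : (Qn N)ˣ} {A : Qn N} (h : Rel m g A) (t : (Qn N)ˣ) :
    Rel m (t⁻¹ * g * t) (((t⁻¹ : (Qn N)ˣ) : Qn N) * A * (t : Qn N)) := by
  obtain ⟨s, ζ, hg⟩ := h
  refine ⟨s, ((t⁻¹ : (Qn N)ˣ) : Qn N) * ζ * (t : Qn N), ?_⟩
  have h1 : ((t⁻¹ : (Qn N)ˣ) : Qn N) * (t : Qn N) = 1 := Units.inv_mul t
  rw [Units.val_mul, Units.val_mul, hg]
  simp only [mul_smul_comm, smul_mul_assoc, mul_add, add_mul, mul_one, h1]

theorem tt_one {g : (Qn N)ˣ} (hg : g ∈ Kz N 1) : NE 1 (g⁻¹ * ((tt N)⁻¹ * g * tt N)) := by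
  obtain ⟨A, hA⟩ := Rel.of_mem hg
  have h1 := (hA.inv le_rfl).mul le_rfl (hA.conj (tt N))
  refine NE_of h1 (z := -2 * i7 N * (A.imI + 2 * A.imJ)) ?_
  have h := seven_i7 N
  rw [tt_inv, tt_val]
  simp
  linear_combination A.imJ * h

theorem tt_two {g : (Qn N)ˣ} (hg : NE 1 g) : g⁻¹ * ((tt N)⁻¹ * g * tt N) ∈ Kz N 2 := by
  obtain ⟨A, hA, hA0⟩ := hg
  have h1 := (hA.inv le_rfl).mul le_rfl (hA.conj (tt N))
  have h := seven_i7 N
  have h2 : Rel 1 (g⁻¹ * ((tt N)⁻¹ * g * tt N)) (0 : Qn N) := by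
    refine h1.congr ⟨⟨0, -4 * i7 N * A.imI, -2 * i7 N * A.imI, 0⟩, ?_⟩
    rw [tt_inv, tt_val]
    apply QuaternionAlgebra.ext
    · simp [hA0]
      linear_combination A.re * h
    · simp [hA0]
      linear_combination A.imI * h
    · simp [hA0]; ring
    · simp [hA0]
      linear_combination A.imK * h
  have h3 := (Rel.one (N := N) 1).div h2
  rwa [inv_one, one_mul] at h3

/-- decompositions of the elements of the Hecke operators -/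
def Dec (β α γ : ℕ) (p : (Qn N)ˣ) : Prop := ∃ m : ℕ, ∃ r ∈ Kz N 2,
  p = tt N ^ β * (kp (im 0 1 0) ^ α * kp (im 1 0 0) ^ γ) * kp (im 0 0 1) ^ m * r

end

section
variable {N : ℕ} {κ : Type*} [Field κ] {R : Type*} [Ring R] [Algebra κ R]
  {ρ : (Qn N)ˣ →* R} {w : ℕ} {Λ : R →ₗ[κ] κ}

theorem cjn (hs : Sc ρ) (h3 : (3 : R) = 0) (β : ℕ) {v : ℕ} {T : R} (hT : T ∈ J κ ρ v) :
    (cj ρ (tt N))^[β] T - T ∈ J κ ρ (v + 1) := by
  induction β generalizing T with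
  | zero => simp
  | succ β ih =>
    rw [Function.iterate_succ, Function.comp]
    have h1 := J_cj hs h3 (t := tt N) (fun g hg => tt_one hg) (fun g hg => tt_two hg) hT
    have h2 := J_conj hs h3 (t := tt N) (fun g hg => tt_one hg) (fun g hg => tt_two hg) hT
    have e : (cj ρ (tt N))^[β] (cj ρ (tt N) T) - T = ((cj ρ (tt N))^[β] (cj ρ (tt N) T) -
      cj ρ (tt N) T) + (cj ρ (tt N) T - T) := by abel
    rw [e]
    exact Submodule.add_mem _ (ih h1) h2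

theorem cjm (hs : Sc ρ) (h3 : (3 : R) = 0) (β : ℕ) {v : ℕ} {T : R} (hT : T ∈ J κ ρ v) :
    (cj ρ (tt N))^[β] T ∈ J κ ρ v := by
  have e : (cj ρ (tt N))^[β] T = ((cj ρ (tt N))^[β] T - T) + T := by abel
  rw [e]
  exact Submodule.add_mem _ (J_anti (by omega) (cjn hs h3 β hT)) hT

theorem Pt_pow (Pt : ∀ T, Λ (ρ (tt N) * T) = Λ T) (β : ℕ) (T X : R) :
    Λ (T * (ρ (tt N ^ β) * X)) = Λ ((cj ρ (tt N))^[β] T * X) := by
  induction β generalizing T with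
  | zero => simp
  | succ β ih =>
    rw [Function.iterate_succ, Function.comp, ← ih,
      ← Pt (cj ρ (tt N) T * (ρ (tt N ^ β) * X))]
    congr 1
    have h : ρ (tt N) * ρ (tt N)⁻¹ = 1 := by rw [← map_mul, mul_inv_cancel, map_one]
    unfold cj
    rw [pow_succ', map_mul]
    calc T * (ρ (tt N) * ρ (tt N ^ β) * X) = 1 * T * ρ (tt N) * ρ (tt N ^ β) * X := by
          noncomm_ring
      _ = (ρ (tt N) * ρ (tt N)⁻¹) * T * ρ (tt N) * ρ (tt N ^ β) * X := by rw [h]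
      _ = _ := by noncomm_ring

theorem dropB (hs : Sc ρ) (h3 : (3 : R) = 0) (P1 : ∀ T ∈ J κ ρ (w + 1), Λ T = 0)
    (P2 : ∀ T, Λ (gB ρ * T) = 0) {v : ℕ} (hv : w ≤ v + 6) {Y : R} (hY : Y ∈ J κ ρ v) (m : ℕ) :
    Λ (Y * ρ (kp (im 0 0 1) ^ m)) = Λ Y := by
  have hb : (kp (im 0 0 1) : (Qn N)ˣ) ∈ Kz N 1 := (kap_rel _).mem
  induction m with
  | zero => rw [pow_zero, map_one, mul_one]
  | succ m ih =>
    obtain ⟨Z, hZ⟩ : ∃ Z, Z = Y * ρ (kp (im 0 0 1) ^ m) := ⟨_, rfl⟩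
    have hZm : Z ∈ J κ ρ v := by
      rw [hZ]; exact J_mul' (by omega) hY (J_rho (Subgroup.pow_mem _ hb m))
    have e : Y * ρ (kp (im 0 0 1) ^ (m + 1)) = Z + gB ρ * Z + (Z * gB ρ - gB ρ * Z) := by
      rw [pow_succ, map_mul, ← mul_assoc, ← hZ]
      unfold gB
      noncomm_ring
    rw [e, map_add, map_add, P2, P1 _ (J_anti (by omega) (J_comm hs h3 hZm gB_mem)), hZ, ih,
      add_zero, add_zero]

theorem drop (hs : Sc ρ) (h3 : (3 : R) = 0) (P1 : ∀ T ∈ J κ ρ (w + 1), Λ T = 0)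
    (P2 : ∀ T, Λ (gB ρ * T) = 0) (Pt : ∀ T, Λ (ρ (tt N) * T) = Λ T) {v : ℕ} (hv : w ≤ v + 6)
    (hr : ∀ r ∈ Kz N 2, ∀ Y ∈ J κ ρ v, Λ (Y * (ρ r - 1)) = 0) {β α γ : ℕ} {p : (Qn N)ˣ}
    (hp : Dec β α γ p) {T : R} (hT : T ∈ J κ ρ v) :
    Λ (T * ρ p) = Λ ((cj ρ (tt N))^[β] T * ρ (kp (im 0 1 0) ^ α * kp (im 1 0 0) ^ γ)) := by
  obtain ⟨m, r, hrm, rfl⟩ := hp
  have hg : kp (im 0 1 0) ^ α * kp (im 1 0 0) ^ γ ∈ Kz N 1 :=
    Subgroup.mul_mem _ (Subgroup.pow_mem _ (kap_rel _).mem _)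
      (Subgroup.pow_mem _ (kap_rel _).mem _)
  obtain ⟨g, hge⟩ : ∃ g, g = kp (im 0 1 0) ^ α * kp (im 1 0 0) ^ γ := ⟨_, rfl⟩
  rw [← hge] at hg ⊢
  have e1 : T * ρ (tt N ^ β * g * kp (im 0 0 1) ^ m * r) =
      T * (ρ (tt N ^ β) * (ρ g * ρ (kp (im 0 0 1) ^ m) * ρ r)) := by
    rw [map_mul, map_mul, map_mul]
    noncomm_ring
  rw [e1, Pt_pow Pt]
  obtain ⟨T', hT'⟩ : ∃ T', T' = (cj ρ (tt N))^[β] T := ⟨_, rfl⟩
  have hT'm : T' ∈ J κ ρ v := by rw [hT']; exact cjm hs h3 β hT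
  rw [← hT']
  have hb : (kp (im 0 0 1) : (Qn N)ˣ) ∈ Kz N 1 := (kap_rel _).mem
  have hY : T' * ρ g ∈ J κ ρ v := J_mul' (by omega) hT'm (J_rho hg)
  have hY1 : T' * ρ g * ρ (kp (im 0 0 1) ^ m) ∈ J κ ρ v :=
    J_mul' (by omega) hY (J_rho (Subgroup.pow_mem _ hb m))
  have e2 : T' * (ρ g * ρ (kp (im 0 0 1) ^ m) * ρ r) = T' * ρ g * ρ (kp (im 0 0 1) ^ m) +
      T' * ρ g * ρ (kp (im 0 0 1) ^ m) * (ρ r - 1) := by noncomm_ring
  rw [e2, map_add, hr r hrm _ hY1, add_zero, dropB hs h3 P1 P2 hv hY]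

theorem sum_al (h3 : (3 : R) = 0) (u v : R) : (1 + u) ^ 2 * (1 + v) + 1 + (1 + u) * (1 + v) ^ 2 -
    u * u = u * v + u * u * v + v * v + u * (v * v) := by
  have e : (1 + u) ^ 2 * (1 + v) + 1 + (1 + u) * (1 + v) ^ 2 - u * u =
     3 * (1 + u + v + u * v) + (u * v + u * u * v + v * v + u * (v * v)) := by
    noncomm_ring
  rw [e, h3, zero_mul, zero_add]

theorem sum_al2 (h3 : (3 : R) = 0) (u v : R) : (1 + u) * (1 + v) + (1 + u) ^ 2 * (1 + v) ^ 2 + 1 -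
    u * u = (u * v + u * v) + (u * u * v + u * u * v) + v * v + (u * (v * v) + u * (v * v)) +
      u * u * (v * v) := by
  have e : (1 + u) * (1 + v) + (1 + u) ^ 2 * (1 + v) ^ 2 + 1 - u * u =
     3 * (1 + u + v + u * v) + ((u * v + u * v) + (u * u * v + u * u * v) + v * v +
      (u * (v * v) + u * (v * v)) + u * u * (v * v)) := by
    noncomm_ring
  rw [e, h3, zero_mul, zero_add]

theorem rho_h : ρ (kp (im 0 1 0)) = 1 + gH ρ := by unfold gH; abel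
theorem rho_a : ρ (kp (im 1 0 0)) = 1 + gA ρ := by unfold gA; abel

/-- the two sums -/
theorem sum_p (h3 : (3 : R) = 0) : ρ (kp (im 0 1 0) ^ 2 * kp (im 1 0 0) ^ 1) +
    ρ (kp (im 0 1 0) ^ 0 * kp (im 1 0 0) ^ 0) + ρ (kp (im 0 1 0) ^ 1 * kp (im 1 0 0) ^ 2) -
    gH ρ * gH ρ ∈ J κ ρ 5 := by
  have mH : gH ρ ∈ J κ ρ 2 := gH_mem
  have mA : gA ρ ∈ J κ ρ 3 := gA_mem
  have n1 : gH ρ * gA ρ ∈ J κ ρ 5 := J_mul' (by norm_num) mH mA
  have n2 : gH ρ * gH ρ * gA ρ ∈ J κ ρ 5 := J_mul' (by norm_num) (J_mul mH mH) mA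
  have n3 : gA ρ * gA ρ ∈ J κ ρ 5 := J_mul' (by norm_num) mA mA
  have n4 : gH ρ * (gA ρ * gA ρ) ∈ J κ ρ 5 := J_mul' (by norm_num) mH n3
  rw [pow_zero, pow_zero, pow_one, pow_one, mul_one, map_one, map_mul, map_mul, map_pow, map_pow,
    rho_h, rho_a, sum_al h3]
  exact Submodule.add_mem _ (Submodule.add_mem _ (Submodule.add_mem _ n1 n2) n3) n4

theorem sum_m (h3 : (3 : R) = 0) : ρ (kp (im 0 1 0) ^ 1 * kp (im 1 0 0) ^ 1) +
    ρ (kp (im 0 1 0) ^ 2 * kp (im 1 0 0) ^ 2) + ρ (kp (im 0 1 0) ^ 0 * kp (im 1 0 0) ^ 0) -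
    gH ρ * gH ρ ∈ J κ ρ 5 := by
  have mH : gH ρ ∈ J κ ρ 2 := gH_mem
  have mA : gA ρ ∈ J κ ρ 3 := gA_mem
  have n1 : gH ρ * gA ρ ∈ J κ ρ 5 := J_mul' (by norm_num) mH mA
  have n2 : gH ρ * gH ρ * gA ρ ∈ J κ ρ 5 := J_mul' (by norm_num) (J_mul mH mH) mA
  have n3 : gA ρ * gA ρ ∈ J κ ρ 5 := J_mul' (by norm_num) mA mA
  have n4 : gH ρ * (gA ρ * gA ρ) ∈ J κ ρ 5 := J_mul' (by norm_num) mH n3
  have n5 : gH ρ * gH ρ * (gA ρ * gA ρ) ∈ J κ ρ 5 := J_mul' (by norm_num)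
    (J_mul mH mH) n3
  rw [pow_zero, pow_zero, pow_one, pow_one, mul_one, map_one, map_mul, map_mul, map_pow, map_pow,
    rho_h, rho_a, sum_al2 h3]
  exact Submodule.add_mem _ (Submodule.add_mem _ (Submodule.add_mem _ (Submodule.add_mem _
    (Submodule.add_mem _ n1 n1) (Submodule.add_mem _ n2 n2)) n3) (Submodule.add_mem _ n4 n4)) n5

/-- the descent -/
theorem stage (hs : Sc ρ) (h3 : (3 : R) = 0) (h3k : (3 : κ) = 0) (hw : 1 ≤ w)
    (P1 : ∀ T ∈ J κ ρ (w + 1), Λ T = 0)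
    (P2 : ∀ T, Λ (gB ρ * T) = 0) (Pt : ∀ T, Λ (ρ (tt N) * T) = Λ T)
    {p1 p2 p3 p4 p5 p6 q1 q2 q3 q4 q5 q6 a' : (Qn N)ˣ}
    (d1 : Dec 1 2 1 p1) (d2 : Dec 1 0 0 p2) (d3 : Dec 1 1 2 p3) (d4 : Dec 2 1 1 p4)
    (d5 : Dec 2 2 2 p5) (d6 : Dec 2 0 0 p6)
    (f1 : Dec 1 2 1 q1) (f2 : Dec 1 0 0 q2) (f3 : Dec 1 1 2 q3) (f4 : Dec 2 1 1 q4)
    (f5 : Dec 2 2 2 q5) (f6 : Dec 2 0 0 q6) (ha' : ρ (kp (im 1 0 0)) * ρ a' = 1) (ha'' : NE 1 a')
    {c5 c7 : κ} (E5 : ∀ T, Λ (T * (ρ p1 + ρ p2 + ρ p3 + (ρ p4 + ρ p5 + ρ p6))) = c5 * Λ T)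
    (E7 : ∀ T, Λ (T * (ρ q1 + ρ q2 + ρ q3 + (ρ q4 + ρ q5 + ρ q6) +
      (ρ (kp (im 1 0 0)) + ρ a'))) = c7 * Λ T)
    (Pn : ∀ j, 2 + 3 * j = w → Λ (gH ρ * gA ρ ^ j) = 0) (Pe : w = 3 → Λ (gA ρ) = 0) :
    ∀ T ∈ J κ ρ w, Λ T = 0 := by
  by_contra hcon
  push Not at hcon
  obtain ⟨T0, hT0, hT0n⟩ := hcon
  have hr0 : ∀ v, w ≤ v + 5 → ∀ r ∈ Kz N 2, ∀ Y ∈ J κ ρ v, Λ (Y * (ρ r - 1)) = 0 := by
    intro v hv r hr Y hY
    exact P1 _ (J_mul' (by omega) hY (Y_six hs h3 hr))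
  have mH : gH ρ ∈ J κ ρ 2 := gH_mem
  have mA : gA ρ ∈ J κ ρ 3 := gA_mem
  have ma' : ρ a' - 1 ∈ J κ ρ 3 := J_three ha''
  have hgm : ∀ α γ : ℕ, kp (im 0 1 0) ^ α * kp (im 1 0 0) ^ γ ∈ Kz N 1 := fun α γ =>
    Subgroup.mul_mem _ (Subgroup.pow_mem _ (kap_rel _).mem _)
      (Subgroup.pow_mem _ (kap_rel _).mem _)
  -- the eigenvalues
  have key0 : ∀ β α γ p, Dec β α γ p → Λ (T0 * ρ p) = Λ T0 := by
    intro β α γ p hp
    rw [drop hs h3 P1 P2 Pt (v := w) (by omega) (hr0 w (by omega)) hp hT0]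
    obtain ⟨g, hge⟩ : ∃ g, g = kp (im 0 1 0) ^ α * kp (im 1 0 0) ^ γ := ⟨_, rfl⟩
    have hg : g ∈ Kz N 1 := by rw [hge]; exact hgm α γ
    rw [← hge]
    have h1 := cjn hs h3 β hT0
    have h2 := cjm hs h3 β hT0
    have e : (cj ρ (tt N))^[β] T0 * ρ g = T0 + ((cj ρ (tt N))^[β] T0 - T0) +
        (cj ρ (tt N))^[β] T0 * (ρ g - 1) := by noncomm_ring
    rw [e, map_add, map_add, P1 _ h1, P1 _ (J_mul' (by omega) h2 (J_two hg)), add_zero, add_zero]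
  have hc5 : c5 = 0 := by
    have h := E5 T0
    simp only [mul_add, map_add] at h
    rw [key0 _ _ _ _ d1, key0 _ _ _ _ d2, key0 _ _ _ _ d3, key0 _ _ _ _ d4, key0 _ _ _ _ d5,
      key0 _ _ _ _ d6] at h
    have h1 : c5 * Λ T0 = 0 := by
      rw [← h]
      linear_combination 2 * Λ T0 * h3k
    exact (mul_eq_zero.1 h1).resolve_right hT0n
  have haT : Λ (T0 * ρ (kp (im 1 0 0))) = Λ T0 := by
    have e : T0 * ρ (kp (im 1 0 0)) = T0 + T0 * gA ρ := by unfold gA; noncomm_ring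
    rw [e, map_add, P1 _ (J_mul' (by omega) hT0 mA), add_zero]
  have haT' : Λ (T0 * ρ a') = Λ T0 := by
    have e : T0 * ρ a' = T0 + T0 * (ρ a' - 1) := by noncomm_ring
    rw [e, map_add, P1 _ (J_mul' (by omega) hT0 ma'), add_zero]
  have hc7 : c7 = 2 := by
    have h := E7 T0
    simp only [mul_add, map_add] at h
    rw [key0 _ _ _ _ f1, key0 _ _ _ _ f2, key0 _ _ _ _ f3, key0 _ _ _ _ f4, key0 _ _ _ _ f5,
      key0 _ _ _ _ f6, haT, haT'] at h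
    have h1 : (c7 - 2) * Λ T0 = 0 := by
      linear_combination (-1 : κ) * h + 2 * Λ T0 * h3k
    have h2 := (mul_eq_zero.1 h1).resolve_right hT0n
    rwa [sub_eq_zero] at h2
  have two_z : ∀ x : κ, x + x = 0 → x = 0 := by
    intro x hx
    linear_combination x * h3k - hx
  -- the first stage
  have S1 : ∀ v, w ≤ v + 4 → ∀ T ∈ J κ ρ v, Λ (T * (gH ρ * gH ρ)) = 0 := by
    intro v hv T hT
    have D : ∀ {β α γ : ℕ} {p : (Qn N)ˣ}, Dec β α γ p → Λ (T * ρ p) =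
        Λ ((cj ρ (tt N))^[β] T * ρ (kp (im 0 1 0) ^ α * kp (im 1 0 0) ^ γ)) := fun hp =>
      drop hs h3 P1 P2 Pt (v := v) (by omega) (hr0 v (by omega)) hp hT
    have h := E5 T
    rw [hc5, zero_mul] at h
    simp only [mul_add, map_add] at h
    rw [D d1, D d2, D d3, D d4, D d5, D d6] at h
    have A1 : ∀ (β : ℕ) (S : R), S - gH ρ * gH ρ ∈ J κ ρ 5 →
        Λ ((cj ρ (tt N))^[β] T * S) = Λ (T * (gH ρ * gH ρ)) := by
      intro β S hS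
      have h1 := cjn hs h3 β hT
      have h2 := cjm hs h3 β hT
      have e : (cj ρ (tt N))^[β] T * S = T * (gH ρ * gH ρ) +
          ((cj ρ (tt N))^[β] T - T) * (gH ρ * gH ρ) +
          (cj ρ (tt N))^[β] T * (S - gH ρ * gH ρ) := by noncomm_ring
      rw [e, map_add, map_add, P1 _ (J_mul' (by omega) h1 (J_mul mH mH)),
        P1 _ (J_mul' (by omega) h2 hS), add_zero, add_zero]
    have a1 := A1 1 _ (sum_p h3)
    have a2 := A1 2 _ (sum_m h3)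
    simp only [mul_add, map_add] at a1 a2
    apply two_z
    linear_combination h - a1 - a2
  -- elements of the second congruence subgroup
  have S2 : ∀ v, w ≤ v + 6 → ∀ r ∈ Kz N 2, ∀ Y ∈ J κ ρ v, Λ (Y * (ρ r - 1)) = 0 := by
    intro v hv r hr Y hY
    obtain ⟨a, b, c, r', hr', rfl⟩ := gen 1 hr
    rw [pow_one]
    obtain ⟨x, hx⟩ : ∃ x : (Qn N)ˣ, x = (kp (im 1 0 0) ^ 3) ^ a := ⟨_, rfl⟩
    obtain ⟨y, hy⟩ : ∃ y : (Qn N)ˣ, y = (kp (im 0 1 0) ^ 3) ^ b := ⟨_, rfl⟩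
    obtain ⟨z, hz⟩ : ∃ z : (Qn N)ˣ, z = (kp (im 0 0 1) ^ 3) ^ c := ⟨_, rfl⟩
    have mx : ρ x - 1 ∈ J κ ρ 9 := by rw [hx]; exact Y_pow (Y_cube h3 (J_three ne_a)) a
    have my : ρ y - 1 ∈ J κ ρ 6 := by rw [hy]; exact Y_pow (Y_cube h3 mH) b
    have mz : ρ z - 1 ∈ J κ ρ 9 := by rw [hz]; exact Y_pow (Y_cube h3 (J_three ne_b)) c
    have mr : ρ r' - 1 ∈ J κ ρ 18 := Y_eighteen hs h3 hr'
    have ly : ρ y - 1 - (b : κ) • (ρ (kp (im 0 1 0) ^ 3) - 1) ∈ J κ ρ 12 := by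
      rw [hy]; exact Y_lin (Y_cube h3 mH) b
    have hc : ρ (kp (im 0 1 0) ^ 3) - 1 = gH ρ * (gH ρ * gH ρ) := by
      have e : ρ (kp (im 0 1 0) ^ 3) - 1 = gH ρ * (gH ρ * gH ρ) +
          3 * (gH ρ * gH ρ + gH ρ) := by
        rw [map_pow]; unfold gH; noncomm_ring
      rw [e, h3, zero_mul, add_zero]
    rw [hc] at ly
    rw [← hx, ← hy, ← hz, Y_prod (x * y * z) r', Y_prod (x * y) z, Y_prod x y]
    have e : ∀ X Y' Z W L : R, Y * (((X * Y' + X + Y') * Z + (X * Y' + X + Y') + Z) * W +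
        ((X * Y' + X + Y') * Z + (X * Y' + X + Y') + Z) + W) =
        Y * (((X * Y' + X + Y') * Z + (X * Y' + X + Y') + Z) * W + (X * Y' + X + Y') * Z + X * Y' +
          X + Z + W + (Y' - L)) + Y * L := by intros; noncomm_ring
    rw [e _ _ _ _ ((b : κ) • (gH ρ * (gH ρ * gH ρ))), map_add]
    have m1 : (ρ x - 1) * (ρ y - 1) + (ρ x - 1) + (ρ y - 1) ∈ J κ ρ 6 :=
      Submodule.add_mem _ (Submodule.add_mem _ (J_mul' (by omega) mx my) (J_anti (by omega) mx)) my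
    have m2 : ((ρ x - 1) * (ρ y - 1) + (ρ x - 1) + (ρ y - 1)) * (ρ z - 1) +
        ((ρ x - 1) * (ρ y - 1) + (ρ x - 1) + (ρ y - 1)) + (ρ z - 1) ∈ J κ ρ 6 :=
      Submodule.add_mem _ (Submodule.add_mem _ (J_mul' (by omega) m1 mz) m1)
        (J_anti (by omega) mz)
    rw [P1 _ (J_mul' (b := 7) (by omega) hY ?_), zero_add, mul_smul_comm, map_smul, ← mul_assoc,
      S1 (v + 2) (by omega) _ (J_mul hY mH), smul_zero]
    refine Submodule.add_mem _ (Submodule.add_mem _ (Submodule.add_mem _ (Submodule.add_mem _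
      (Submodule.add_mem _ (Submodule.add_mem _ ?_ ?_) ?_) (J_anti (by omega) mx))
      (J_anti (by omega) mz)) (J_anti (by omega) mr)) (J_anti (by omega) ly)
    · exact J_mul' (by omega) m2 mr
    · exact J_mul' (by omega) m1 mz
    · exact J_mul' (by omega) mx my
  -- the second stage
  have S3 : ∀ v, w ≤ v + 6 → ∀ T ∈ J κ ρ v, Λ (T * (gA ρ * gA ρ)) = 0 := by
    intro v hv T hT
    have D : ∀ {β α γ : ℕ} {p : (Qn N)ˣ}, Dec β α γ p → Λ (T * ρ p) =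
        Λ ((cj ρ (tt N))^[β] T * ρ (kp (im 0 1 0) ^ α * kp (im 1 0 0) ^ γ)) := fun hp =>
      drop hs h3 P1 P2 Pt (v := v) (by omega) (S2 v (by omega)) hp hT
    have h := E5 T
    rw [hc5, zero_mul] at h
    simp only [mul_add, map_add] at h
    rw [D d1, D d2, D d3, D d4, D d5, D d6] at h
    have h' := E7 T
    rw [hc7] at h'
    simp only [mul_add, map_add] at h'
    rw [D f1, D f2, D f3, D f4, D f5, D f6] at h'
    have h4 : Λ (T * ρ (kp (im 1 0 0))) + Λ (T * ρ a') = 2 * Λ T := by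
      linear_combination h' - h
    have e1 : (ρ (kp (im 1 0 0)) - 1) * (ρ a' - 1) = 1 - (ρ (kp (im 1 0 0)) - 1) - (ρ a' - 1) - 1 := by
      have : (ρ (kp (im 1 0 0)) - 1) * (ρ a' - 1) = ρ (kp (im 1 0 0)) * ρ a' -
        (ρ (kp (im 1 0 0)) - 1) - (ρ a' - 1) - 1 := by noncomm_ring
      rw [this, ha']
    obtain ⟨y, hy⟩ : ∃ y, y = ρ a' - 1 := ⟨_, rfl⟩
    have e2 : gA ρ * y = -gA ρ - y := by
      rw [hy]
      unfold gA
      rw [e1]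
      abel
    have e3 : T * ρ (kp (im 1 0 0)) + T * ρ a' = T + T + T * (gA ρ * gA ρ) +
        T * (gA ρ * gA ρ) * y := by
      have e4 : T * ρ (kp (im 1 0 0)) + T * ρ a' = T + T + T * (gA ρ + y) := by
        rw [hy]; unfold gA; noncomm_ring
      have e5 : gA ρ * gA ρ * y = -(gA ρ * gA ρ) + (gA ρ + y) := by
        rw [mul_assoc, e2, mul_sub, e2, mul_neg]
        abel
      rw [e4, mul_assoc T, e5]
      noncomm_ring
    have h5 := congrArg Λ e3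
    rw [map_add, map_add, map_add, map_add, h4, hy,
      P1 _ (J_mul' (b := 3) (by omega) (J_mul hT (J_mul mA mA)) ma')] at h5
    linear_combination (-1 : κ) * h5
  -- conclusion
  apply hT0n
  refine span_J hs h3 w Λ P1 P2 ?_ T0 hT0
  intro i j hij
  rcases i with _ | _ | i
  · rcases j with _ | _ | j
    · omega
    · rw [pow_zero, one_mul, zero_add, pow_one]
      exact Pe (by omega)
    · rw [pow_zero, one_mul]
      have e : gA ρ ^ (j + 1 + 1) = gA ρ ^ j * (gA ρ * gA ρ) := by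
        rw [pow_succ, pow_succ, mul_assoc]
      rw [e]
      exact S3 (3 * j) (by omega) _ (J_pow mA j)
  · rw [zero_add, pow_one]
    exact Pn j (by omega)
  · have c1 : gH ρ * gH ρ * gA ρ ^ j - gA ρ ^ j * (gH ρ * gH ρ) ∈ J κ ρ (2 + 2 + 3 * j + 4) :=
      J_comm hs h3 (J_mul mH mH) (J_pow mA j)
    have e : gH ρ ^ (i + 1 + 1) * gA ρ ^ j = gH ρ ^ i * (gH ρ * gH ρ * gA ρ ^ j -
        gA ρ ^ j * (gH ρ * gH ρ)) + gH ρ ^ i * gA ρ ^ j * (gH ρ * gH ρ) := by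
      rw [pow_succ, pow_succ]
      noncomm_ring
    rw [e, map_add, P1 _ (J_mul' (by omega) (J_pow mH i) c1), zero_add]
    exact S1 (2 * i + 3 * j) (by omega) _ (J_mul (J_pow mH i) (J_pow mA j))

end

end Pool.Agent.Helper725_HQ.RR
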