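import Pool.Agent.Helper725_HQ.RRed

/-! Constancy of the reductions near the base point of the ramified torus. -/

set_option autoImplicit false
set_option linter.unusedVariables false
set_option linter.unusedSimpArgs false

namespace Pool.Agent.Helper725_HQ.RR

open Quaternion MvPolynomial

theorem Z5_mem {x : Fin 3 → ℤ} (hx : x ∈ XR) (i : Fin 6) : Z5 x i ∈ XR := by
  obtain ⟨x0, p, r, hx0, rfl⟩ := XR_ex hx
  fin_cases i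
  · exact (Z5_0 x0 p r) ▸ XV_mem (by omega)
  · exact (Z5_1 x0 p r) ▸ XV_mem (by omega)
  · exact (Z5_2 x0 p r) ▸ XV_mem (by omega)
  · exact (Z5_3 x0 p r) ▸ XV_mem (by omega)
  · exact (Z5_4 x0 p r) ▸ XV_mem (by omega)
  · exact (Z5_5 x0 p r) ▸ XV_mem (by omega)

theorem Z7_mem {x : Fin 3 → ℤ} (hx : x ∈ XR) (i : Fin 8) : Z7 x i ∈ XR := by
  obtain ⟨x0, p, r, hx0, rfl⟩ := XR_ex hx
  fin_cases i
  · exact (Z7_0 x0 p r) ▸ XV_mem (by omega)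
  · exact (Z7_1 x0 p r) ▸ XV_mem (by omega)
  · exact (Z7_2 x0 p r) ▸ XV_mem (by omega)
  · exact (Z7_3 x0 p r) ▸ XV_mem (by omega)
  · exact (Z7_4 x0 p r) ▸ XV_mem (by omega)
  · exact (Z7_5 x0 p r) ▸ XV_mem (by omega)
  · exact (Z7_6 x0 p r) ▸ XV_mem (by omega)
  · exact (Z7_7 x0 p r) ▸ XV_mem (by omega)

theorem XR_smul {x : Fin 3 → ℤ} (hx : x ∈ XR) {s : ℤ} (hs : ¬ (3 : ℤ) ∣ s) :
    (fun i => s * x i) ∈ XR := by
  obtain ⟨x0, p, r, hx0, rfl⟩ := XR_ex hx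
  rw [XV_smul]
  apply XV_mem
  intro h
  rcases Int.prime_three.dvd_or_dvd h with h | h
  · exact hs h
  · exact hx0 h

/-- constancy of the reductions -/
theorem red_constR {V : ValuationSubring ℂ} (hV : Thr V) {k n : ℕ} {g : (Fin 3 → ℤ) → ℂ}
    {Q : (Fin 3 → ZMod (3 ^ n)) → MvPolynomial (Fin 3) ℂ}
    (hQ : ∀ x ∈ XR, g x = vl (Q (fun i => ((x i : ℤ) : ZMod (3 ^ n)))) x)
    (hne0 : ∃ x ∈ XR, g x ≠ 0)
    (hs : ∀ x ∈ XR, ∀ s : ℤ, s % 3 = 1 → g (fun i => s * x i) = (s : ℂ) ^ k * g x)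
    (hm : ∀ x ∈ XR, g (fun i => -x i) = g x)
    (hfl : ∀ x0 p r : ℤ, ¬ (3 : ℤ) ∣ x0 → g (XV (x0 - 6 * (p + r)) p (-(2 * p) - r)) =
      g (XV x0 p r))
    (hsw : ∀ x0 p r : ℤ, ¬ (3 : ℤ) ∣ x0 → g (XV (x0 + 9 * p) (-p) (r + 2 * p)) = g (XV x0 p r))
    {L5 L7 : ℂ} (h5 : ∀ x ∈ XR, ∑ i, g (Z5 x i) = L5 * g x)
    (h7 : ∀ x ∈ XR, ∑ i, g (Z7 x i) = L7 * g x) :
    ∃ c : ℂ, ∃ r : kap V, r ≠ 0 ∧ ∀ x ∈ XR, ∃ v : V, c * g x = (v : ℂ) ∧ rs V v = r := by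
  obtain ⟨c, hcV, ⟨x₀, hx₀, v₀, hv₀, hv₀ne⟩, N', hper⟩ := perg hV hQ hne0
  obtain ⟨N, hN⟩ : ∃ N, N = N' + 1 := ⟨_, rfl⟩
  rw [← hN] at hper
  have hN1 : 1 ≤ N := by omega
  obtain ⟨h, hh⟩ : ∃ h, h = gred V c g := ⟨_, rfl⟩
  have hp : Pe N h := by
    intro x hx y hy hxy
    rw [hh, gred_pos (v := ⟨_, hcV x hx⟩) rfl, gred_pos (v := ⟨_, hcV y hy⟩) rfl]
    exact hper x hx y hy hxy _ _ rfl rfl
  have hgd : Gd (toFn N h) := toFn_Gd hN1 hp (fun x hx s h3 => by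
    rw [hh]
    refine gred_scal hV (hcV x hx) h3 (fun s hs' => hs x hx s hs') (fun s hs' => ?_)
    exact hm _ (XR_smul hx (by omega)))
  obtain ⟨l5, hl5⟩ := eig_int (fun i => hcV _ (Z5_mem hx₀ i)) hv₀ hv₀ne (h5 x₀ hx₀)
  obtain ⟨l7, hl7⟩ := eig_int (fun i => hcV _ (Z7_mem hx₀ i)) hv₀ hv₀ne (h7 x₀ hx₀)
  have q5' : ∀ y, Dc y → rho (kap V) (RR.p1 N) (toFn N h) y + rho (kap V) (RR.p2 N) (toFn N h) y +
      rho (kap V) (RR.p3 N) (toFn N h) y +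
      (rho (kap V) (RR.p4 N) (toFn N h) y + rho (kap V) (RR.p5 N) (toFn N h) y +
        rho (kap V) (RR.p6 N) (toFn N h) y) = rs V l5 * toFn N h y := by
    intro y hy
    obtain ⟨x, hx, rfl⟩ := exists_encv hN1 hy
    obtain ⟨x0, p, r, hx0, rfl⟩ := XR_ex hx
    have h1 := gred_sum (fun i => hcV _ (Z5_mem hx i)) hl5 (hcV _ hx) (h5 _ hx)
    rw [← hh, Fin.sum_univ_six, Z5_0, Z5_1, Z5_2, Z5_3, Z5_4, Z5_5] at h1
    rw [encv_XV, toFn_P hp hx0, r_p1 hp hgd p r hx0, r_p2 hp hgd p r hx0, r_p3 hp hgd p r hx0,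
      r_p4 hp hgd p r hx0, r_p5 hp hgd p r hx0, r_p6 hp hgd p r hx0, ← h1]
    ring
  have q7' : ∀ y, Dc y → rho (kap V) (RR.q1 N) (toFn N h) y + rho (kap V) (RR.q2 N) (toFn N h) y +
      rho (kap V) (RR.q3 N) (toFn N h) y +
      (rho (kap V) (RR.q4 N) (toFn N h) y + rho (kap V) (RR.q5 N) (toFn N h) y +
        rho (kap V) (RR.q6 N) (toFn N h) y) +
      (rho (kap V) (RR.a1 N) (toFn N h) y + rho (kap V) (RR.a2 N) (toFn N h) y) =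
      rs V l7 * toFn N h y := by
    intro y hy
    obtain ⟨x, hx, rfl⟩ := exists_encv hN1 hy
    obtain ⟨x0, p, r, hx0, rfl⟩ := XR_ex hx
    have h1 := gred_sum (fun i => hcV _ (Z7_mem hx i)) hl7 (hcV _ hx) (h7 _ hx)
    rw [← hh, Fin.sum_univ_eight, Z7_0, Z7_1, Z7_2, Z7_3, Z7_4, Z7_5, Z7_6, Z7_7] at h1
    rw [encv_XV, toFn_P hp hx0, r_q1 hp hgd p r hx0, r_q2 hp hgd p r hx0, r_q3 hp hgd p r hx0,
      r_q4 hp hgd p r hx0, r_q5 hp hgd p r hx0, r_q6 hp hgd p r hx0, r_a1 hp hgd p r hx0,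
      r_a2 hp hgd p r hx0, ← h1]
    ring
  have hconst : ∀ y, Dc y → toFn N h y = toFn N h (kk N) := fun y hy =>
    const_R (three_zero hV) hgd
      (toFn_n hN1 hp (fun x0 p r hx0 => by rw [hh]; exact gred_eq (hfl x0 p r hx0)))
      (toFn_e hN1 hp (fun x0 p r hx0 => by rw [hh]; exact gred_eq (hsw x0 p r hx0))) q5' q7' hy
  refine ⟨c, toFn N h (kk N), ?_, ?_⟩
  · rw [← hconst _ (Dc_encv hx₀), toFn_im hp hx₀, hh, gred_pos hv₀]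
    exact hv₀ne
  · intro x hx
    refine ⟨⟨_, hcV x hx⟩, rfl, ?_⟩
    rw [← hconst _ (Dc_encv hx), toFn_im hp hx, hh, gred_pos (v := ⟨_, hcV x hx⟩) rfl]

end Pool.Agent.Helper725_HQ.RR
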