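import Pool.Agent.Helper725_HQ.RMain2
import Pool.Agent.Helper725_HQ.RRed2

/-! Functions on the vectors near the base point of the ramified torus. -/

set_option autoImplicit false
set_option linter.unusedVariables false
set_option linter.unusedSimpArgs false

namespace Pool.Agent.Helper725_HQ.RR

open Quaternion MvPolynomial

section
variable {N : ℕ} {κ : Type} [Field κ]

theorem op5 (hN : 1 ≤ N) {h : (Fin 3 → ℤ) → κ} (hp : Pe N h) (hgd : Gd (toFn N h)) {m : κ}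
    (H : ∀ x ∈ XR, ∑ i, h (Z5 x i) = m * h x) (y : Qn N) (hy : Dc y) :
    rho κ (RR.p1 N) (toFn N h) y + rho κ (RR.p2 N) (toFn N h) y +
      rho κ (RR.p3 N) (toFn N h) y +
      (rho κ (RR.p4 N) (toFn N h) y + rho κ (RR.p5 N) (toFn N h) y +
        rho κ (RR.p6 N) (toFn N h) y) = m * toFn N h y := by
  obtain ⟨x, hx, rfl⟩ := exists_encv hN hy
  obtain ⟨x0, p, r, hx0, rfl⟩ := XR_ex hx
  have h1 := H _ hx
  rw [Fin.sum_univ_six, Z5_0, Z5_1, Z5_2, Z5_3, Z5_4, Z5_5] at h1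
  rw [encv_XV, toFn_P hp hx0, r_p1 hp hgd p r hx0, r_p2 hp hgd p r hx0, r_p3 hp hgd p r hx0,
    r_p4 hp hgd p r hx0, r_p5 hp hgd p r hx0, r_p6 hp hgd p r hx0, ← h1]
  ring

theorem op7 (hN : 1 ≤ N) {h : (Fin 3 → ℤ) → κ} (hp : Pe N h) (hgd : Gd (toFn N h)) {m : κ}
    (H : ∀ x ∈ XR, ∑ i, h (Z7 x i) = m * h x) (y : Qn N) (hy : Dc y) :
    rho κ (RR.q1 N) (toFn N h) y + rho κ (RR.q2 N) (toFn N h) y +
      rho κ (RR.q3 N) (toFn N h) y +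
      (rho κ (RR.q4 N) (toFn N h) y + rho κ (RR.q5 N) (toFn N h) y +
        rho κ (RR.q6 N) (toFn N h) y) +
      (rho κ (RR.a1 N) (toFn N h) y + rho κ (RR.a2 N) (toFn N h) y) = m * toFn N h y := by
  obtain ⟨x, hx, rfl⟩ := exists_encv hN hy
  obtain ⟨x0, p, r, hx0, rfl⟩ := XR_ex hx
  have h1 := H _ hx
  rw [Fin.sum_univ_eight, Z7_0, Z7_1, Z7_2, Z7_3, Z7_4, Z7_5, Z7_6, Z7_7] at h1
  rw [encv_XV, toFn_P hp hx0, r_q1 hp hgd p r hx0, r_q2 hp hgd p r hx0, r_q3 hp hgd p r hx0,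
    r_q4 hp hgd p r hx0, r_q5 hp hgd p r hx0, r_q6 hp hgd p r hx0, r_a1 hp hgd p r hx0,
    r_a2 hp hgd p r hx0, ← h1]
  ring

theorem encP_one : encP N 1 0 0 = (2 : Zn N) • kk N := by
  unfold encP zq kk
  apply QuaternionAlgebra.ext <;> simp

/-- eigenfunctions are constant -/
theorem const_XR (h3 : (3 : κ) = 0) (hN : 1 ≤ N) {h : (Fin 3 → ℤ) → κ} (hp : Pe N h)
    (hs : ∀ x ∈ XR, ∀ s : ℤ, ¬ (3 : ℤ) ∣ s → h (fun i => s * x i) = h x)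
    (hfl : ∀ x0 p r : ℤ, ¬ (3 : ℤ) ∣ x0 → h (XV (x0 - 6 * (p + r)) p (-(2 * p) - r)) =
      h (XV x0 p r))
    (hA : h (XV (-8) (-4) 4) = h (XV 1 0 0)) {m5 m7 : κ}
    (h5 : ∀ x ∈ XR, ∑ i, h (Z5 x i) = m5 * h x)
    (h7 : ∀ x ∈ XR, ∑ i, h (Z7 x i) = m7 * h x) {x : Fin 3 → ℤ} (hx : x ∈ XR) :
    h x = h (XV 1 0 0) := by
  have hgd : Gd (toFn N h) := toFn_Gd hN hp hs
  have h13 : ¬ (3 : ℤ) ∣ 1 := by norm_num
  have u2 : ∃ u : (Zn N)ˣ, (u : Zn N) = 2 := by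
    obtain ⟨u, hu⟩ := two_unit N
    exact ⟨u, hu⟩
  obtain ⟨u, hu⟩ := u2
  have ek : encP N 1 0 0 = (u : Zn N) • kk N := by rw [hu]; exact encP_one
  have e1 : toFn N h (kk N) = h (XV 1 0 0) := by
    rw [← toFn_P hp h13, ek, hgd.1]
  have e2 : rho κ (kp (im 1 0 0)) (toFn N h) (kk N) = toFn N h (kk N) := by
    have ha1 : a1 N ∈ Kz N 1 := by rw [a1_eq]; exact (kap_rel _).mem
    have h8 := r_a1 hp hgd 0 0 h13
    rw [ek, (Gd_rho hgd ha1).1, a1_eq] at h8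
    rw [h8, e1, ← hA]
    norm_num
  have h9 := const_Rg h3 hgd (toFn_n hN hp hfl) e2 (op5 hN hp hgd h5) (op7 hN hp hgd h7)
    (Dc_encv hx)
  rw [toFn_im hp hx, e1] at h9
  exact h9

/-- the eigenvalues of a nonzero function -/
theorem eig_XR (h3 : (3 : κ) = 0) (hN : 1 ≤ N) {h : (Fin 3 → ℤ) → κ} (hp : Pe N h)
    (hs : ∀ x ∈ XR, ∀ s : ℤ, ¬ (3 : ℤ) ∣ s → h (fun i => s * x i) = h x) {m5 m7 : κ}
    (h5 : ∀ x ∈ XR, ∑ i, h (Z5 x i) = m5 * h x)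
    (h7 : ∀ x ∈ XR, ∑ i, h (Z7 x i) = m7 * h x) {x : Fin 3 → ℤ} (hx : x ∈ XR) (hne : h x ≠ 0) :
    m5 = 0 ∧ m7 = 2 := by
  have hgd : Gd (toFn N h) := toFn_Gd hN hp hs
  exact eig_vals h3 hgd (op5 hN hp hgd h5) (op7 hN hp hgd h7) (x := encv N x)
    (by rw [toFn_im hp hx]; exact hne)

end

/-- the coordinates modulo three of the exceptional eigenfunction -/
def wz (x0 p r : ZMod 3) : ZMod 3 := p * x0
/-- the coordinates modulo three of the exceptional eigenfunction -/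
def uz (x0 p r : ZMod 3) : ZMod 3 := r ^ 2 - p * r - p ^ 2

theorem wz5 : ∀ x0 p r : ZMod 3, x0 ≠ 0 →
    wz (10 * x0 - 54 * p - 72 * r) (6 * p + 8 * r) (-(20 * p) - 10 * r) +
    wz (4 * x0 - 72 * p - 54 * r) (2 * x0 + 14 * p - 2 * r) (2 * x0 - 16 * p - 12 * r) +
    wz (22 * x0 - 72 * r) (-(2 * x0) + 2 * r) (6 * x0 + 10 * p - 16 * r) +
    wz (10 * x0 + 90 * p) (-(10 * p) - 8 * r) (20 * p + 6 * r) +
    wz (-(20 * x0) + 90 * r) (2 * x0 + 6 * p - 10 * r) (-(6 * x0) - 8 * p + 20 * r) +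
    wz (-(2 * x0) - 72 * p) (-(2 * x0) + 8 * p + 10 * r) (-(2 * x0) - 22 * p) = 0 := by decide

theorem uz5 : ∀ x0 p r : ZMod 3, x0 ≠ 0 →
    uz (10 * x0 - 54 * p - 72 * r) (6 * p + 8 * r) (-(20 * p) - 10 * r) +
    uz (4 * x0 - 72 * p - 54 * r) (2 * x0 + 14 * p - 2 * r) (2 * x0 - 16 * p - 12 * r) +
    uz (22 * x0 - 72 * r) (-(2 * x0) + 2 * r) (6 * x0 + 10 * p - 16 * r) +
    uz (10 * x0 + 90 * p) (-(10 * p) - 8 * r) (20 * p + 6 * r) +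
    uz (-(20 * x0) + 90 * r) (2 * x0 + 6 * p - 10 * r) (-(6 * x0) - 8 * p + 20 * r) +
    uz (-(2 * x0) - 72 * p) (-(2 * x0) + 8 * p + 10 * r) (-(2 * x0) - 22 * p) =
    wz (4 * x0 - 72 * p - 54 * r) (2 * x0 + 14 * p - 2 * r) (2 * x0 - 16 * p - 12 * r) -
    wz (22 * x0 - 72 * r) (-(2 * x0) + 2 * r) (6 * x0 + 10 * p - 16 * r) +
    wz (-(20 * x0) + 90 * r) (2 * x0 + 6 * p - 10 * r) (-(6 * x0) - 8 * p + 20 * r) -
    wz (-(2 * x0) - 72 * p) (-(2 * x0) + 8 * p + 10 * r) (-(2 * x0) - 22 * p) := by decide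

theorem wz7 : ∀ x0 p r : ZMod 3, x0 ≠ 0 →
    wz (-(8 * x0) + 216 * p + 108 * r) (-(4 * x0) - 32 * p + 12 * r) (4 * x0 + 60 * p + 16 * r) +
    wz (-(44 * x0) + 108 * p + 216 * r) (4 * x0 - 20 * p - 12 * r) (-(4 * x0) + 48 * p + 40 * r) +
    wz (-(20 * x0) - 216 * p - 72 * r) (8 * x0 + 36 * p - 16 * r) (-(56 * p) - 28 * r) +
    wz (52 * x0 - 72 * p - 216 * r) (-(8 * x0) - 4 * p + 16 * r) (16 * x0 + 8 * p - 60 * r) +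
    wz (4 * x0 - 216 * p - 72 * r) (-(8 * x0) + 12 * p + 32 * r) (-(56 * p) - 28 * r) +
    wz (28 * x0 - 72 * p - 216 * r) (-(4 * p) + 16 * r) (-(40 * p) - 36 * r) +
    wz (-(68 * x0) - 72 * p + 216 * r) (8 * x0 + 20 * p - 32 * r) (-(16 * x0) - 40 * p + 36 * r) +
    wz (28 * x0 + 216 * p - 72 * r) (-(36 * p) - 16 * r) (40 * p - 4 * r) = 2 * wz x0 p r := by
  decide

theorem uz7 : ∀ x0 p r : ZMod 3, x0 ≠ 0 →
    uz (-(8 * x0) + 216 * p + 108 * r) (-(4 * x0) - 32 * p + 12 * r) (4 * x0 + 60 * p + 16 * r) +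
    uz (-(44 * x0) + 108 * p + 216 * r) (4 * x0 - 20 * p - 12 * r) (-(4 * x0) + 48 * p + 40 * r) +
    uz (-(20 * x0) - 216 * p - 72 * r) (8 * x0 + 36 * p - 16 * r) (-(56 * p) - 28 * r) +
    uz (52 * x0 - 72 * p - 216 * r) (-(8 * x0) - 4 * p + 16 * r) (16 * x0 + 8 * p - 60 * r) +
    uz (4 * x0 - 216 * p - 72 * r) (-(8 * x0) + 12 * p + 32 * r) (-(56 * p) - 28 * r) +
    uz (28 * x0 - 72 * p - 216 * r) (-(4 * p) + 16 * r) (-(40 * p) - 36 * r) +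
    uz (-(68 * x0) - 72 * p + 216 * r) (8 * x0 + 20 * p - 32 * r) (-(16 * x0) - 40 * p + 36 * r) +
    uz (28 * x0 + 216 * p - 72 * r) (-(36 * p) - 16 * r) (40 * p - 4 * r) = 2 * uz x0 p r +
    wz (-(8 * x0) + 216 * p + 108 * r) (-(4 * x0) - 32 * p + 12 * r) (4 * x0 + 60 * p + 16 * r) -
    wz (-(44 * x0) + 108 * p + 216 * r) (4 * x0 - 20 * p - 12 * r) (-(4 * x0) + 48 * p + 40 * r) := by
  decide

/-- a function of the coordinates modulo three -/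
def zf {κ : Type} [Field κ] (φ : ZMod 3 →+* κ) (f : ZMod 3 → ZMod 3 → ZMod 3 → ZMod 3)
    (x : Fin 3 → ℤ) : κ :=
  φ (f ((x 0 : ℤ) : ZMod 3) (((x 1 - x 0) / 9 : ℤ) : ZMod 3) (((x 2 + 2 * x 0) / 9 : ℤ) : ZMod 3))

section
variable {N : ℕ} {κ : Type} [Field κ] {φ : ZMod 3 →+* κ} {f : ZMod 3 → ZMod 3 → ZMod 3 → ZMod 3}

theorem zf_XV (x0 p r : ℤ) : zf φ f (XV x0 p r) = φ (f (x0 : ZMod 3) (p : ZMod 3) (r : ZMod 3)) := by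
  have h1 : (XV x0 p r 1 - XV x0 p r 0) / 9 = p := by
    show (x0 + 9 * p - x0) / 9 = p
    omega
  have h2 : (XV x0 p r 2 + 2 * XV x0 p r 0) / 9 = r := by
    show (-2 * x0 + 9 * r + 2 * x0) / 9 = r
    omega
  unfold zf
  rw [h1, h2]
  rfl

theorem zf_per (hN : 3 ≤ N) : Pe N (zf φ f) := by
  intro x hx y hy hxy
  obtain ⟨x0, p, r, hx0, rfl⟩ := XR_ex hx
  obtain ⟨y0, p', r', hy0, rfl⟩ := XR_ex hy
  rw [zf_XV, zf_XV]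
  have h27 : (27 : ℤ) ∣ ((3 ^ N : ℕ) : ℤ) := by
    obtain ⟨j, rfl⟩ := Nat.exists_eq_add_of_le hN
    rw [pow_add]
    push_cast
    exact Dvd.intro _ rfl
  have a0 : (27 : ℤ) ∣ x0 - y0 := h27.trans (hxy 0)
  have a1 : (27 : ℤ) ∣ (x0 + 9 * p) - (y0 + 9 * p') := h27.trans (hxy 1)
  have a2 : (27 : ℤ) ∣ (-2 * x0 + 9 * r) - (-2 * y0 + 9 * r') := h27.trans (hxy 2)
  have b0 : (x0 : ZMod 3) = (y0 : ZMod 3) := by
    rw [ZMod.intCast_eq_intCast_iff_dvd_sub]; push_cast; omega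
  have b1 : (p : ZMod 3) = (p' : ZMod 3) := by
    rw [ZMod.intCast_eq_intCast_iff_dvd_sub]; push_cast; omega
  have b2 : (r : ZMod 3) = (r' : ZMod 3) := by
    rw [ZMod.intCast_eq_intCast_iff_dvd_sub]; push_cast; omega
  rw [b0, b1, b2]

theorem z3_ne {x0 : ℤ} (h : ¬ (3 : ℤ) ∣ x0) : (x0 : ZMod 3) ≠ 0 := by
  intro h1
  rw [ZMod.intCast_zmod_eq_zero_iff_dvd] at h1
  exact h (by exact_mod_cast h1)

theorem zf_sc (hf : ∀ s x0 p r : ZMod 3, s ≠ 0 → f (s * x0) (s * p) (s * r) = f x0 p r)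
    {x : Fin 3 → ℤ} (hx : x ∈ XR) {s : ℤ} (hs : ¬ (3 : ℤ) ∣ s) :
    zf φ f (fun i => s * x i) = zf φ f x := by
  obtain ⟨x0, p, r, hx0, rfl⟩ := XR_ex hx
  rw [XV_smul, zf_XV, zf_XV]
  push_cast
  rw [hf _ _ _ _ (z3_ne hs)]

theorem wz_sc : ∀ s x0 p r : ZMod 3, s ≠ 0 → wz (s * x0) (s * p) (s * r) = wz x0 p r := by decide
theorem uz_sc : ∀ s x0 p r : ZMod 3, s ≠ 0 → uz (s * x0) (s * p) (s * r) = uz x0 p r := by decide

theorem wz_fl : ∀ x0 p r : ZMod 3, wz (x0 - 6 * (p + r)) p (-(2 * p) - r) = wz x0 p r := by decide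
theorem uz_fl : ∀ x0 p r : ZMod 3, uz (x0 - 6 * (p + r)) p (-(2 * p) - r) = uz x0 p r := by decide

theorem uz_sw : ∀ x0 p r : ZMod 3, uz (x0 + 9 * p) (-p) (r + 2 * p) = uz x0 p r := by decide

theorem zf_fl (hf : ∀ x0 p r : ZMod 3, f (x0 - 6 * (p + r)) p (-(2 * p) - r) = f x0 p r)
    (x0 p r : ℤ) : zf φ f (XV (x0 - 6 * (p + r)) p (-(2 * p) - r)) = zf φ f (XV x0 p r) := by
  rw [zf_XV, zf_XV]
  push_cast
  rw [hf]

theorem zf_w5 {x : Fin 3 → ℤ} (hx : x ∈ XR) : ∑ i, zf φ wz (Z5 x i) = 0 := by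
  obtain ⟨x0, p, r, hx0, rfl⟩ := XR_ex hx
  rw [Fin.sum_univ_six, Z5_0, Z5_1, Z5_2, Z5_3, Z5_4, Z5_5]
  simp only [zf_XV]
  push_cast
  rw [← map_add, ← map_add, ← map_add, ← map_add, ← map_add, wz5 _ _ _ (z3_ne hx0), map_zero]

theorem zf_u5 {x : Fin 3 → ℤ} (hx : x ∈ XR) : ∑ i, zf φ uz (Z5 x i) = zf φ wz (Z5 x 1) -
    zf φ wz (Z5 x 2) + zf φ wz (Z5 x 4) - zf φ wz (Z5 x 5) := by
  obtain ⟨x0, p, r, hx0, rfl⟩ := XR_ex hx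
  rw [Fin.sum_univ_six, Z5_0, Z5_1, Z5_2, Z5_3, Z5_4, Z5_5]
  simp only [zf_XV]
  push_cast
  rw [← map_add, ← map_add, ← map_add, ← map_add, ← map_add, uz5 _ _ _ (z3_ne hx0), map_sub,
    map_add, map_sub]

theorem zf_w7 {x : Fin 3 → ℤ} (hx : x ∈ XR) : ∑ i, zf φ wz (Z7 x i) = 2 * zf φ wz x := by
  obtain ⟨x0, p, r, hx0, rfl⟩ := XR_ex hx
  rw [Fin.sum_univ_eight, Z7_0, Z7_1, Z7_2, Z7_3, Z7_4, Z7_5, Z7_6, Z7_7]
  simp only [zf_XV]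
  push_cast
  rw [← map_add, ← map_add, ← map_add, ← map_add, ← map_add, ← map_add, ← map_add,
    wz7 _ _ _ (z3_ne hx0), map_mul, map_ofNat]

theorem zf_u7 {x : Fin 3 → ℤ} (hx : x ∈ XR) : ∑ i, zf φ uz (Z7 x i) = 2 * zf φ uz x +
    zf φ wz (Z7 x 0) - zf φ wz (Z7 x 1) := by
  obtain ⟨x0, p, r, hx0, rfl⟩ := XR_ex hx
  rw [Fin.sum_univ_eight, Z7_0, Z7_1, Z7_2, Z7_3, Z7_4, Z7_5, Z7_6, Z7_7]
  simp only [zf_XV]
  push_cast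
  rw [← map_add, ← map_add, ← map_add, ← map_add, ← map_add, ← map_add, ← map_add,
    uz7 _ _ _ (z3_ne hx0), map_sub, map_add, map_mul, map_ofNat]

end

end Pool.Agent.Helper725_HQ.RR
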