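import Pool.Agent.Helper725_HQ.BDefs

/-! Algebraic modular forms on the Hamilton quaternions which are invariant under a ramified torus
at three. -/

set_option autoImplicit false

namespace Pool.Agent.Helper725_HQ

open Quaternion MvPolynomial NumberField
open scoped nonZeroDivisors

/-- A form of degree `k` on the pairs `(I, u)` of a right ideal `I` of the Hurwitz order and a
generator `u` of `I` at three which only depends on `u` modulo `3 ^ n`. It is invariant under the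
normalizer of the local order at two, and under right multiplication at three by the
multiplicative group of the ramified quadratic field `ℚ₃(t)`, where `t = i + j - 2 k` and
`t ^ 2 = -6`; the element `i - j`, which normalizes this torus, acts by `(-1) ^ k`. The values are
harmonic homogeneous polynomials of degree `k` on the space of pure quaternions. -/
structure IsFormR (n k : ℕ) (F : AddSubgroup ℍ[ℚ] → ℍ[ℚ] → MvPolynomial (Fin 3) ℂ) : Prop where
  supp : ∀ I u, ¬ (IsRI I ∧ Gen3 I u) → F I u = 0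
  hom : ∀ I u, (F I u).IsHomogeneous k
  harm : ∀ I u, ∑ i, pderiv i (pderiv i (F I u)) = 0
  left : ∀ α : ℍ[ℚ], α ≠ 0 → ∀ I u, IsRI I → Gen3 I u → ∀ x,
    ev (F (lm α I) (α * u)) (α * x * α⁻¹) = ev (F I u) x
  two : ∀ I u, IsRI I → Gen3 (rm (mk4 1 1 0 0) I) u → F (rm (mk4 1 1 0 0) I) u = F I u
  lvl : ∀ I u u', IsRI I → Gen3 I u → Gen3 I u' → u' - u ∈ lm ((3 ^ n : ℕ) : ℍ[ℚ]) I →
    F I u' = F I u
  tor : ∀ I u, IsRI I → Gen3 I u → ∀ a b : ℤ, ¬ (3 : ℤ) ∣ a →
    F I (u * mk4 a b b (-2 * b)) = F I u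
  unif : ∀ I J u, IsRI I → IsRI J → Gen3 I u → Gen3 J (u * mk4 0 1 1 (-2)) → lm 3 I ≤ J → J ≤ I →
    F J (u * mk4 0 1 1 (-2)) = F I u
  sgn : ∀ I u, IsRI I → Gen3 I u → F I (u * mk4 0 1 (-1) 0) = (-1 : ℂ) ^ k • F I u

/-- Some toric period of `F` along `K` does not vanish: the ideal `I` is stable under the maximal
order of `K`, and conjugation by `u` takes the pure element `s` of `K` to a multiple of
`t = i + j - 2 k` modulo `3 ^ (n + 1)`. The ideals representing the classes are prime to three. -/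
def NonvanPerR (n : ℕ) (F : AddSubgroup ℍ[ℚ] → ℍ[ℚ] → MvPolynomial (Fin 3) ℂ)
    (K : Type) [Field K] [NumberField K] : Prop :=
  ∃ (ι : K →+* ℍ[ℚ]) (I : AddSubgroup ℍ[ℚ]) (u : ℍ[ℚ]), IsRI I ∧ Gen3 I u ∧
    (∀ a : 𝓞 K, ∀ y ∈ I, ι (a : K) * y ∈ I) ∧
    ∃ s : K, s ≠ 0 ∧ (ι s).re = 0 ∧
      (∃ c : ℤ, ¬ (3 : ℤ) ∣ c ∧
        ι s * u - u * mk4 0 c c (-2 * c) ∈ lm ((3 ^ (n + 1) : ℕ) : ℍ[ℚ]) I) ∧
      ∀ rep : ClassGroup (𝓞 K) → (Ideal (𝓞 K))⁰, (∀ c, ClassGroup.mk0 (rep c) = c) →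
        (∀ c, ¬ 3 ∣ Ideal.absNorm (rep c : Ideal (𝓞 K))) → torpN F ι rep I u s ≠ 0

end Pool.Agent.Helper725_HQ
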