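import Pool.Agent.Helper725_HQ.RCon

/-! Eigenfunctions on the disc of the ramified torus are constant. -/

set_option autoImplicit false
set_option linter.unusedVariables false
set_option linter.unusedSimpArgs false

namespace Pool.Agent.Helper725_HQ.RR

open Quaternion

section
variable {N : ℕ}

/-- the disc -/
def Dc (x : Qn N) : Prop := ∃ g ∈ Kz N 1, ∃ s : (Zn N)ˣ,
  x = (s : Zn N) • (((g⁻¹ : (Qn N)ˣ) : Qn N) * kk N * (g : Qn N))

theorem Dc_kk : Dc (kk N) := ⟨1, Subgroup.one_mem _, 1, by simp⟩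

theorem Dc_smul {x : Qn N} (h : Dc x) (s : (Zn N)ˣ) : Dc ((s : Zn N) • x) := by
  obtain ⟨g, hg, t, rfl⟩ := h
  exact ⟨g, hg, s * t, by rw [Units.val_mul, smul_smul]⟩

theorem Dc_conj {g : (Qn N)ˣ} (hg : g ∈ Kz N 1) {x : Qn N} (h : Dc x) :
    Dc (((g⁻¹ : (Qn N)ˣ) : Qn N) * x * (g : Qn N)) := by
  obtain ⟨g', hg', t, rfl⟩ := h
  refine ⟨g' * g, Subgroup.mul_mem _ hg' hg, t, ?_⟩
  rw [mul_inv_rev, Units.val_mul, Units.val_mul, mul_smul_comm, smul_mul_assoc]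
  congr 1
  noncomm_ring

theorem Kz_conj {m : ℕ} {g : (Qn N)ˣ} (hg : g ∈ Kz N m) (t : (Qn N)ˣ) : t⁻¹ * g * t ∈ Kz N m := by
  obtain ⟨s, η, h⟩ := hg
  refine ⟨s, ((t⁻¹ : (Qn N)ˣ) : Qn N) * η * (t : Qn N), ?_⟩
  have h1 : ((t⁻¹ : (Qn N)ˣ) : Qn N) * (t : Qn N) = 1 := Units.inv_mul t
  rw [Units.val_mul, Units.val_mul, h]
  simp only [mul_smul_comm, smul_mul_assoc, mul_add, add_mul, mul_one, h1]

/-- conjugation by an element commuting with the base point -/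
theorem Dc_tor {t : (Qn N)ˣ} (ht : kk N * (t : Qn N) = (t : Qn N) * kk N) {x : Qn N} (h : Dc x) :
    Dc (((t⁻¹ : (Qn N)ˣ) : Qn N) * x * (t : Qn N)) := by
  obtain ⟨g, hg, s, rfl⟩ := h
  refine ⟨t⁻¹ * g * t, Kz_conj hg t, s, ?_⟩
  have h1 : ((t⁻¹ : (Qn N)ˣ) : Qn N) * (t : Qn N) = 1 := Units.inv_mul t
  have h2 : (t : Qn N) * ((t⁻¹ : (Qn N)ˣ) : Qn N) = 1 := Units.mul_inv t
  have h3 : kk N = (t : Qn N) * kk N * ((t⁻¹ : (Qn N)ˣ) : Qn N) := by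
    rw [← ht, mul_assoc, h2, mul_one]
  have h4 : (t⁻¹ * g * t)⁻¹ = t⁻¹ * g⁻¹ * t := by group
  rw [h4, mul_smul_comm, smul_mul_assoc]
  congr 1
  simp only [Units.val_mul]
  calc ((t⁻¹ : (Qn N)ˣ) : Qn N) * (((g⁻¹ : (Qn N)ˣ) : Qn N) * kk N * (g : Qn N)) * (t : Qn N) =
      ((t⁻¹ : (Qn N)ˣ) : Qn N) * (((g⁻¹ : (Qn N)ˣ) : Qn N) * ((t : Qn N) * kk N *
        ((t⁻¹ : (Qn N)ˣ) : Qn N)) * (g : Qn N)) * (t : Qn N) := by rw [← h3]
    _ = _ := by noncomm_ring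

theorem tt_comm : kk N * (tt N : Qn N) = (tt N : Qn N) * kk N := by
  rw [tt_val]
  unfold kk
  apply QuaternionAlgebra.ext <;> simp

theorem tt_pow_comm (n : ℕ) : kk N * ((tt N ^ n : (Qn N)ˣ) : Qn N) =
    ((tt N ^ n : (Qn N)ˣ) : Qn N) * kk N := by
  induction n with
  | zero => simp
  | succ n ih =>
    rw [pow_succ, Units.val_mul, ← mul_assoc, ih, mul_assoc, tt_comm, ← mul_assoc]

theorem Dc_dec {β α γ : ℕ} {p : (Qn N)ˣ} (hp : Dec β α γ p) {x : Qn N} (h : Dc x) :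
    Dc (((p⁻¹ : (Qn N)ˣ) : Qn N) * x * (p : Qn N)) := by
  obtain ⟨m, r, hr, rfl⟩ := hp
  have hg : kp (im 0 1 0) ^ α * kp (im 1 0 0) ^ γ * kp (im 0 0 1) ^ m * r ∈ Kz N 1 :=
    Subgroup.mul_mem _ (Subgroup.mul_mem _ (Subgroup.mul_mem _ (Subgroup.pow_mem _ (kap_rel _).mem _)
      (Subgroup.pow_mem _ (kap_rel _).mem _)) (Subgroup.pow_mem _ (kap_rel _).mem _))
      (Kz_anti (by norm_num) hr)
  obtain ⟨g, hge⟩ : ∃ g, g = kp (im 0 1 0) ^ α * kp (im 1 0 0) ^ γ * kp (im 0 0 1) ^ m * r :=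
    ⟨_, rfl⟩
  have e : tt N ^ β * (kp (im 0 1 0) ^ α * kp (im 1 0 0) ^ γ) * kp (im 0 0 1) ^ m * r =
      tt N ^ β * g := by rw [hge]; simp only [mul_assoc]
  rw [← hge] at hg
  rw [e]
  have h1 := Dc_conj hg (Dc_tor (tt_pow_comm β) h)
  have e2 : (((tt N ^ β * g)⁻¹ : (Qn N)ˣ) : Qn N) * x * ((tt N ^ β * g : (Qn N)ˣ) : Qn N) =
      ((g⁻¹ : (Qn N)ˣ) : Qn N) * ((((tt N ^ β)⁻¹ : (Qn N)ˣ) : Qn N) * x *
        ((tt N ^ β : (Qn N)ˣ) : Qn N)) * (g : Qn N) := by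
    rw [mul_inv_rev, Units.val_mul, Units.val_mul]
    noncomm_ring
  rw [e2]
  exact h1

/-- conjugation by an element commuting with the base point, in the other direction -/
theorem Dc_tor' {t : (Qn N)ˣ} (ht : kk N * (t : Qn N) = (t : Qn N) * kk N) {x : Qn N}
    (h : Dc (((t⁻¹ : (Qn N)ˣ) : Qn N) * x * (t : Qn N))) : Dc x := by
  have ht' : kk N * ((t⁻¹ : (Qn N)ˣ) : Qn N) = ((t⁻¹ : (Qn N)ˣ) : Qn N) * kk N := by
    calc kk N * ((t⁻¹ : (Qn N)ˣ) : Qn N) = ((t⁻¹ : (Qn N)ˣ) : Qn N) * (t : Qn N) *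
          kk N * ((t⁻¹ : (Qn N)ˣ) : Qn N) := by rw [Units.inv_mul, one_mul]
      _ = ((t⁻¹ : (Qn N)ˣ) : Qn N) * ((t : Qn N) * kk N) * ((t⁻¹ : (Qn N)ˣ) : Qn N) := by
          noncomm_ring
      _ = ((t⁻¹ : (Qn N)ˣ) : Qn N) * (kk N * (t : Qn N)) * ((t⁻¹ : (Qn N)ˣ) : Qn N) := by rw [ht]
      _ = ((t⁻¹ : (Qn N)ˣ) : Qn N) * kk N * ((t : Qn N) * ((t⁻¹ : (Qn N)ˣ) : Qn N)) := by
          noncomm_ring
      _ = _ := by rw [Units.mul_inv, mul_one]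
  have h1 := Dc_tor (t := t⁻¹) ht' h
  rw [inv_inv] at h1
  have e : (t : Qn N) * (((t⁻¹ : (Qn N)ˣ) : Qn N) * x * (t : Qn N)) * ((t⁻¹ : (Qn N)ˣ) : Qn N) =
      x := by
    calc (t : Qn N) * (((t⁻¹ : (Qn N)ˣ) : Qn N) * x * (t : Qn N)) * ((t⁻¹ : (Qn N)ˣ) : Qn N) =
        ((t : Qn N) * ((t⁻¹ : (Qn N)ˣ) : Qn N)) * x * ((t : Qn N) * ((t⁻¹ : (Qn N)ˣ) : Qn N)) := by
          noncomm_ring
      _ = x := by rw [Units.mul_inv, one_mul, mul_one]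
  rwa [e] at h1

theorem Dc_conj' {g : (Qn N)ˣ} (hg : g ∈ Kz N 1) {x : Qn N}
    (h : Dc (((g⁻¹ : (Qn N)ˣ) : Qn N) * x * (g : Qn N))) : Dc x := by
  have h1 := Dc_conj ((Kz N 1).inv_mem hg) h
  rw [inv_inv] at h1
  have e : (g : Qn N) * (((g⁻¹ : (Qn N)ˣ) : Qn N) * x * (g : Qn N)) * ((g⁻¹ : (Qn N)ˣ) : Qn N) =
      x := by
    calc (g : Qn N) * (((g⁻¹ : (Qn N)ˣ) : Qn N) * x * (g : Qn N)) * ((g⁻¹ : (Qn N)ˣ) : Qn N) =
        ((g : Qn N) * ((g⁻¹ : (Qn N)ˣ) : Qn N)) * x * ((g : Qn N) * ((g⁻¹ : (Qn N)ˣ) : Qn N)) := by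
          noncomm_ring
      _ = x := by rw [Units.mul_inv, one_mul, mul_one]
  rwa [e] at h1

theorem Dc_dec' {β α γ : ℕ} {p : (Qn N)ˣ} (hp : Dec β α γ p) {x : Qn N}
    (h : Dc (((p⁻¹ : (Qn N)ˣ) : Qn N) * x * (p : Qn N))) : Dc x := by
  obtain ⟨m, r, hr, rfl⟩ := hp
  have hg : kp (im 0 1 0) ^ α * kp (im 1 0 0) ^ γ * kp (im 0 0 1) ^ m * r ∈ Kz N 1 :=
    Subgroup.mul_mem _ (Subgroup.mul_mem _ (Subgroup.mul_mem _ (Subgroup.pow_mem _ (kap_rel _).mem _)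
      (Subgroup.pow_mem _ (kap_rel _).mem _)) (Subgroup.pow_mem _ (kap_rel _).mem _))
      (Kz_anti (by norm_num) hr)
  obtain ⟨g, hge⟩ : ∃ g, g = kp (im 0 1 0) ^ α * kp (im 1 0 0) ^ γ * kp (im 0 0 1) ^ m * r :=
    ⟨_, rfl⟩
  have e : tt N ^ β * (kp (im 0 1 0) ^ α * kp (im 1 0 0) ^ γ) * kp (im 0 0 1) ^ m * r =
      tt N ^ β * g := by rw [hge]; simp only [mul_assoc]
  rw [← hge] at hg
  rw [e] at h
  have e2 : (((tt N ^ β * g)⁻¹ : (Qn N)ˣ) : Qn N) * x * ((tt N ^ β * g : (Qn N)ˣ) : Qn N) =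
      ((g⁻¹ : (Qn N)ˣ) : Qn N) * ((((tt N ^ β)⁻¹ : (Qn N)ˣ) : Qn N) * x *
        ((tt N ^ β : (Qn N)ˣ) : Qn N)) * (g : Qn N) := by
    rw [mul_inv_rev, Units.val_mul, Units.val_mul]
    noncomm_ring
  rw [e2] at h
  exact Dc_tor' (tt_pow_comm β) (Dc_conj' hg h)

end

section
variable {N : ℕ}

/-- conjugation by the first generator -/
def aln (N : ℕ) : Qn N →* Qn N where
  toFun x := ⟨x.re, x.imI, -x.imJ, -x.imK⟩
  map_one' := by apply QuaternionAlgebra.ext <;> simp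
  map_mul' x y := by
    apply QuaternionAlgebra.ext
    · simp
    · simp
    · simp; ring
    · simp; ring

/-- conjugation by the second generator -/
def ale (N : ℕ) : Qn N →* Qn N where
  toFun x := ⟨x.re, -x.imI, x.imJ, -x.imK⟩
  map_one' := by apply QuaternionAlgebra.ext <;> simp
  map_mul' x y := by
    apply QuaternionAlgebra.ext
    · simp
    · simp; ring
    · simp
    · simp; ring

end

section
variable {N : ℕ} {κ : Type} [Field κ]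

/-- homogeneous functions supported on the disc -/
def Gd (ψ : Fn N κ) : Prop :=
  (∀ (s : (Zn N)ˣ) (x : Qn N), ψ ((s : Zn N) • x) = ψ x) ∧ ∀ x, ¬ Dc x → ψ x = 0

theorem Gd_rho {ψ : Fn N κ} (h : Gd ψ) {g : (Qn N)ˣ} (hg : g ∈ Kz N 1) : Gd (rho κ g ψ) := by
  refine ⟨fun s x => ?_, fun x hx => ?_⟩
  · rw [rho_apply, rho_apply, mul_smul_comm, smul_mul_assoc, h.1]
  · rw [rho_apply]
    apply h.2
    intro h'
    exact hx (Dc_conj' hg h')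

theorem Gd_sub {ψ ψ' : Fn N κ} (h : Gd ψ) (h' : Gd ψ') : Gd (ψ - ψ') := by
  refine ⟨fun s x => ?_, fun x hx => ?_⟩
  · show ψ _ - ψ' _ = ψ _ - ψ' _
    rw [h.1, h'.1]
  · show ψ _ - ψ' _ = 0
    rw [h.2 x hx, h'.2 x hx, sub_zero]

theorem Gd_word {ψ : Fn N κ} (h : Gd ψ) (l : List (ℕ × Module.End κ (Fn N κ)))
    (hl : ∀ p ∈ l, Lt (rho (N := N) κ) p) : Gd ((l.map Prod.snd).prod ψ) := by
  induction l with
  | nil => exact h
  | cons p l ih =>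
    have hp := hl p (by simp)
    have h1 := ih (fun q hq => hl q (by simp [hq]))
    simp only [List.map_cons, List.prod_cons]
    show Gd (p.2 ((l.map Prod.snd).prod ψ))
    rcases hp with ⟨-, g, hg, hp2⟩ | ⟨-, g, hg, hp2⟩
    · rw [hp2]
      exact Gd_sub (Gd_rho h1 hg) h1
    · rw [hp2]
      exact Gd_sub (Gd_rho h1 hg.mem) h1

theorem Gd_J {ψ : Fn N κ} (h : Gd ψ) {w : ℕ} {T : Module.End κ (Fn N κ)}
    (hT : T ∈ J κ (rho (N := N) κ) w) : Gd (T ψ) := by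
  unfold J at hT
  induction hT using Submodule.span_induction with
  | mem x hx =>
    obtain ⟨l, h1, h2, rfl⟩ := hx
    exact Gd_word h l h1
  | zero => exact ⟨fun _ _ => rfl, fun _ _ => rfl⟩
  | add x y _ _ h1 h2 =>
    refine ⟨fun s z => ?_, fun z hz => ?_⟩
    · show x ψ _ + y ψ _ = x ψ _ + y ψ _
      rw [h1.1, h2.1]
    · show x ψ _ + y ψ _ = 0
      rw [h1.2 z hz, h2.2 z hz, add_zero]
  | smul r x _ h1 =>
    refine ⟨fun s z => ?_, fun z hz => ?_⟩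
    · show r * x ψ _ = r * x ψ _
      rw [h1.1]
    · show r * x ψ _ = 0
      rw [h1.2 z hz, mul_zero]

theorem J_nil (h3 : (3 : κ) = 0) : ∃ D : ℕ, ∀ T ∈ J κ (rho (N := N) κ) D, T = 0 := by
  obtain ⟨D, hD⟩ := Ia_nil (N := N) h3
  have hD' : ∀ T ∈ Ia κ (rho (N := N) κ) ^ (D + 1), T = 0 := by
    intro T hT
    rw [pow_succ] at hT
    induction hT using Submodule.mul_induction_on' with
    | mem_mul_mem x hx y hy => rw [hD x hx, zero_mul]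
    | add x _ y _ h1 h2 => rw [h1, h2, add_zero]
  refine ⟨3 * (D + 1), fun T hT => ?_⟩
  unfold J at hT
  induction hT using Submodule.span_induction with
  | mem x hx =>
    obtain ⟨l, h1, h2, rfl⟩ := hx
    apply hD'
    have key : ∀ l : List (ℕ × Module.End κ (Fn N κ)), (∀ p ∈ l, Lt (rho (N := N) κ) p) →
        (l.map Prod.snd).prod ∈ Ia κ (rho (N := N) κ) ^ l.length ∧
        (l.map Prod.fst).sum ≤ 3 * l.length := by
      intro l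
      induction l with
      | nil =>
        intro _
        refine ⟨?_, by simp⟩
        simp only [List.map_nil, List.prod_nil, List.length_nil, pow_zero]
        exact Submodule.mem_one.2 ⟨1, by simp⟩
      | cons p l ih =>
        intro hl
        obtain ⟨i1, i2⟩ := ih (fun q hq => hl q (by simp [hq]))
        have hp := hl p (by simp)
        simp only [List.map_cons, List.prod_cons, List.sum_cons, List.length_cons]
        have e : l.length + 1 = 1 + l.length := by ring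
        refine ⟨?_, ?_⟩
        · rw [e]
          refine fmul ?_ i1
          rcases hp with ⟨-, g, hg, hp2⟩ | ⟨-, g, hg, hp2⟩
          · rw [hp2]; exact y_mem1' hg
          · rw [hp2]; exact y_mem1' hg.mem
        · rcases hp with ⟨h, -⟩ | ⟨h, -⟩ <;> omega
    obtain ⟨k1, k2⟩ := key l h1
    exact Ia_anti (by omega) (by omega) k1
  | zero => rfl
  | add x y _ _ h1 h2 => rw [h1, h2, add_zero]
  | smul r x _ h1 => rw [h1, smul_zero]

/-- two functions related by a symmetry -/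
def Rl (al : Qn N →* Qn N) (ψ ψ' : Fn N κ) : Prop := ∀ x, ψ x = ψ' (-(al x))

theorem Rl_rho {al : Qn N →* Qn N} {ψ ψ' : Fn N κ} (h : Rl al ψ ψ')
    (g : (Qn N)ˣ) : Rl al (rho κ g ψ) (rho κ (Units.map al g) ψ') := by
  intro x
  rw [rho_apply, rho_apply, h, map_mul, map_mul, ← map_inv, Units.coe_map, Units.coe_map]
  congr 1
  simp only [mul_neg, neg_mul]

theorem Rl_sub {al : Qn N →* Qn N} {ψ ψ' φ φ' : Fn N κ} (h : Rl al ψ ψ') (h' : Rl al φ φ') :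
    Rl al (ψ - φ) (ψ' - φ') := by
  intro x
  show ψ x - φ x = ψ' _ - φ' _
  rw [h, h']

end

end Pool.Agent.Helper725_HQ.RR
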