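import Pool.Agent.Helper725_HQ.RRho

/-! A weight filtration for the Iwahori order. -/

set_option autoImplicit false
set_option linter.unusedVariables false

namespace Pool.Agent.Helper725_HQ.RR

open Quaternion

section
variable {N : ℕ}

/-- no component along the second generator -/
def NE (m : ℕ) (g : (Qn N)ˣ) : Prop := ∃ A : Qn N, Rel m g A ∧ A.imJ = 0

theorem NE.mem {m : ℕ} {g : (Qn N)ˣ} (h : NE m g) : g ∈ Kz N m := by
  obtain ⟨A, hA, _⟩ := h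
  exact hA.mem

theorem NE_of {m : ℕ} {g : (Qn N)ˣ} {A : Qn N} (h : Rel m g A) {z : Zn N} (hz : A.imJ = 3 * z) :
    NE m g := by
  refine ⟨⟨A.re, A.imI, 0, A.imK⟩, h.congr ⟨⟨0, 0, z, 0⟩, ?_⟩, rfl⟩
  apply QuaternionAlgebra.ext
  · simp
  · simp
  · simp [hz]
  · simp

theorem gen' (n : ℕ) {g : (Qn N)ˣ} (hg : NE (n + 1) g) : ∃ a c : ℕ, ∃ r ∈ Kz N (n + 1 + 1),
    g = (kp (im 1 0 0) ^ 3 ^ n) ^ a * (kp (im 0 0 1) ^ 3 ^ n) ^ c * r := by
  obtain ⟨A, hA, hJ⟩ := hg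
  obtain ⟨a, ha⟩ : ∃ a : ℕ, (a : Zn N) = A.imI := ZMod.natCast_zmod_surjective _
  obtain ⟨c, hc⟩ : ∃ c : ℕ, (c : Zn N) = A.imK := ZMod.natCast_zmod_surjective _
  have h1 : Rel (n + 1) g (a • im 1 0 0 + c • im 0 0 1) := by
    apply Rel.scal (by omega) (z := A.re)
    have h2 : (a • im 1 0 0 + c • im 0 0 1 : Qn N) + A.re • 1 = A := by
      rw [← Nat.cast_smul_eq_nsmul (Zn N) a,
        ← Nat.cast_smul_eq_nsmul (Zn N) c, ha, hc]
      apply QuaternionAlgebra.ext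
      · simp
      · simp
      · simp [hJ]
      · simp
    rw [h2]
    exact hA
  have h2 : Rel (n + 1) ((kp (im 1 0 0) ^ 3 ^ n) ^ a *
      (kp (im 0 0 1) ^ 3 ^ n) ^ c) (a • im 1 0 0 + c • im 0 0 1 : Qn N) := by
    refine Rel.mul (by omega) ?_ ?_
    · exact ((kap_rel _).cube_pow n).pow (by omega) a
    · exact ((kap_rel _).cube_pow n).pow (by omega) c
  exact ⟨a, c, _, h2.div h1, by rw [mul_inv_cancel_left]⟩

theorem comm_ne {g h : (Qn N)ˣ} (hg : g ∈ Kz N 1) (hh : h ∈ Kz N 1) :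
    NE 2 ((h * g)⁻¹ * (g * h)) := by
  obtain ⟨A, hA⟩ := Rel.of_mem hg
  obtain ⟨B, hB⟩ := Rel.of_mem hh
  refine NE_of (hA.comm le_rfl le_rfl hB) (z := -2 * (A.imI * B.imK - A.imK * B.imI)) ?_
  simp
  ring

theorem comm_ne2 {g h : (Qn N)ˣ} (hg : NE 1 g) (hh : NE 1 h) :
    (h * g)⁻¹ * (g * h) ∈ Kz N 3 := by
  obtain ⟨A, hA, hA0⟩ := hg
  obtain ⟨B, hB, hB0⟩ := hh
  have h1 := hA.comm le_rfl le_rfl hB
  have h2 : Rel 2 ((h * g)⁻¹ * (g * h)) (0 : Qn N) := by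
    refine Rel.congr h1 ⟨⟨0, 0, -2 * (A.imI * B.imK - A.imK * B.imI), 0⟩, ?_⟩
    apply QuaternionAlgebra.ext
    · simp [hA0, hB0]; ring
    · simp [hA0, hB0]; ring
    · simp [hA0, hB0]; ring
    · simp [hA0, hB0]; ring
  have h3 := (Rel.one (N := N) 2).div h2
  rwa [inv_one, one_mul] at h3

end

section
variable {N : ℕ} {k : Type*} [CommRing k] {R : Type*} [Ring R] [Algebra k R]
  {ρ : (Qn N)ˣ →* R}

/-- letters with their weights -/
def Lt (ρ : (Qn N)ˣ →* R) (p : ℕ × R) : Prop :=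
  (p.1 = 2 ∧ ∃ g ∈ Kz N 1, p.2 = ρ g - 1) ∨ (p.1 = 3 ∧ ∃ g, NE 1 g ∧ p.2 = ρ g - 1)

/-- products of letters -/
def Wd (ρ : (Qn N)ˣ →* R) (w : ℕ) : Set R :=
  {x | ∃ l : List (ℕ × R), (∀ p ∈ l, Lt ρ p) ∧ w ≤ (l.map Prod.fst).sum ∧
    x = (l.map Prod.snd).prod}

/-- the weight filtration -/
def J (k : Type*) [CommRing k] {R : Type*} [Ring R] [Algebra k R] (ρ : (Qn N)ˣ →* R) (w : ℕ) :
    Submodule k R := Submodule.span k (Wd ρ w)

theorem J_mul {a b : ℕ} {x y : R} (hx : x ∈ J k ρ a) (hy : y ∈ J k ρ b) :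
    x * y ∈ J k ρ (a + b) := by
  have h := Submodule.mul_mem_mul hx hy
  unfold J at h
  rw [Submodule.span_mul_span] at h
  refine Submodule.span_mono ?_ h
  rintro _ ⟨x, ⟨l, h1, h2, rfl⟩, y, ⟨l', h1', h2', rfl⟩, rfl⟩
  refine ⟨l ++ l', ?_, ?_, ?_⟩
  · intro p hp
    rcases List.mem_append.1 hp with hp | hp
    · exact h1 p hp
    · exact h1' p hp
  · rw [List.map_append, List.sum_append]
    omega
  · rw [List.map_append, List.prod_append]

theorem J_anti {a b : ℕ} (h : a ≤ b) {x : R} (hx : x ∈ J k ρ b) : x ∈ J k ρ a := by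
  refine Submodule.span_mono ?_ hx
  rintro _ ⟨l, h1, h2, rfl⟩
  exact ⟨l, h1, by omega, rfl⟩

theorem J_one : (1 : R) ∈ J k ρ 0 := Submodule.subset_span ⟨[], by simp, by simp, by simp⟩

theorem J_mul' {a b c : ℕ} (h : c ≤ a + b) {x y : R} (hx : x ∈ J k ρ a) (hy : y ∈ J k ρ b) :
    x * y ∈ J k ρ c := J_anti h (J_mul hx hy)

theorem J_two {g : (Qn N)ˣ} (hg : g ∈ Kz N 1) : ρ g - 1 ∈ J k ρ 2 :=
  Submodule.subset_span ⟨[(2, ρ g - 1)], by
    intro p hp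
    rw [List.mem_singleton] at hp
    subst hp
    exact Or.inl ⟨rfl, g, hg, rfl⟩, by simp, by simp⟩

theorem J_three {g : (Qn N)ˣ} (hg : NE 1 g) : ρ g - 1 ∈ J k ρ 3 :=
  Submodule.subset_span ⟨[(3, ρ g - 1)], by
    intro p hp
    rw [List.mem_singleton] at hp
    subst hp
    exact Or.inr ⟨rfl, g, hg, rfl⟩, by simp, by simp⟩

theorem J_rho {g : (Qn N)ˣ} (hg : g ∈ Kz N 1) : ρ g ∈ J k ρ 0 := by
  have h : ρ g = (ρ g - 1) + 1 := by abel
  rw [h]
  exact Submodule.add_mem _ (J_anti (by omega) (J_two hg)) J_one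

theorem J_word {l : List (ℕ × R)} (h : ∀ p ∈ l, Lt ρ p) :
    (l.map Prod.snd).prod ∈ J k ρ (l.map Prod.fst).sum :=
  Submodule.subset_span ⟨l, h, le_rfl, rfl⟩

theorem J_letter {p : ℕ × R} (h : Lt ρ p) : p.2 ∈ J k ρ p.1 := by
  have := J_word (k := k) (l := [p]) (by simpa using h)
  simpa using this

theorem Y_mul {g h : (Qn N)ˣ} {n : ℕ} (hg : ρ g - 1 ∈ J k ρ n) (hh : ρ h - 1 ∈ J k ρ n) :
    ρ (g * h) - 1 ∈ J k ρ n := by
  have e : ρ (g * h) - 1 = (ρ g - 1) * (ρ h - 1) + (ρ g - 1) + (ρ h - 1) := by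
    rw [map_mul]; exact alg2 _ _
  rw [e]
  exact Submodule.add_mem _ (Submodule.add_mem _ (J_mul' (by omega) hg hh) hg) hh

theorem Y_pow {g : (Qn N)ˣ} {n : ℕ} (h : ρ g - 1 ∈ J k ρ n) (a : ℕ) :
    ρ (g ^ a) - 1 ∈ J k ρ n := by
  induction a with
  | zero => rw [pow_zero, map_one, sub_self]; exact Submodule.zero_mem _
  | succ a ih =>
    rw [pow_succ]
    exact Y_mul ih h

theorem Y_cube (h3 : (3 : R) = 0) {g : (Qn N)ˣ} {n : ℕ} (h : ρ g - 1 ∈ J k ρ n) :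
    ρ (g ^ 3) - 1 ∈ J k ρ (3 * n) := by
  have e : ρ (g ^ 3) - 1 = (ρ g - 1) * (ρ g - 1) * (ρ g - 1) +
      3 * ((ρ g - 1) * (ρ g - 1) + (ρ g - 1)) := by
    rw [map_pow]; exact alg3 _
  rw [e, h3, zero_mul, add_zero]
  exact J_mul' (by omega) (J_mul h h) h

theorem Y_cube_pow (h3 : (3 : R) = 0) {g : (Qn N)ˣ} {w : ℕ} (h : ρ g - 1 ∈ J k ρ w) (n : ℕ) :
    ρ (g ^ 3 ^ n) - 1 ∈ J k ρ (3 ^ n * w) := by
  induction n with
  | zero => rw [pow_zero, pow_one, one_mul]; exact h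
  | succ n ih =>
    have e' : g ^ 3 ^ (n + 1) = (g ^ 3 ^ n) ^ 3 := by rw [← pow_mul, pow_succ]
    have e : 3 ^ (n + 1) * w = 3 * (3 ^ n * w) := by ring
    rw [e', e]
    exact Y_cube h3 ih

theorem ne_a : NE 1 (kp (im 1 0 0) : (Qn N)ˣ) := ⟨_, kap_rel _, rfl⟩
theorem ne_b : NE 1 (kp (im 0 0 1) : (Qn N)ˣ) := ⟨_, kap_rel _, rfl⟩

theorem Y_mem (hs : Sc ρ) (h3 : (3 : R) = 0) (n : ℕ) :
    (∀ g ∈ Kz N (n + 1), ρ g - 1 ∈ J k ρ (3 ^ n * 2)) ∧
      (∀ g, NE (n + 1) g → ρ g - 1 ∈ J k ρ (3 ^ n * 3)) := by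
  obtain ⟨j, hj⟩ : ∃ j, N ≤ n + 1 + j := ⟨N, by omega⟩
  induction j generalizing n with
  | zero =>
    have key : ∀ g ∈ Kz N (n + 1), ρ g = 1 := by
      intro g hg
      obtain ⟨s, η, h1⟩ := hg
      rw [three_pow_zero (by omega), zero_smul, add_zero] at h1
      exact hs _ s h1
    constructor
    · intro g hg
      rw [key g hg, sub_self]
      exact Submodule.zero_mem _
    · intro g hg
      rw [key g hg.mem, sub_self]
      exact Submodule.zero_mem _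
  | succ j ih =>
    obtain ⟨i1, i2⟩ := ih (n + 1) (by omega)
    have hp : 1 ≤ 3 ^ n := Nat.one_le_pow _ _ (by norm_num)
    have hp2 : 3 ^ (n + 1) = 3 * 3 ^ n := by ring
    constructor
    · intro g hg
      obtain ⟨a, b, c, r, hr, rfl⟩ := gen n hg
      refine Y_mul (Y_mul (Y_mul ?_ ?_) ?_) ?_
      · exact Y_pow (Y_cube_pow h3 (J_two (kap_rel _).mem) n) a
      · exact Y_pow (Y_cube_pow h3 (J_two (kap_rel _).mem) n) b
      · exact Y_pow (Y_cube_pow h3 (J_two (kap_rel _).mem) n) c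
      · exact J_anti (by omega) (i1 r hr)
    · intro g hg
      obtain ⟨a, c, r, hr, rfl⟩ := gen' n hg
      refine Y_mul (Y_mul ?_ ?_) ?_
      · exact Y_pow (Y_cube_pow h3 (J_three ne_a) n) a
      · exact Y_pow (Y_cube_pow h3 (J_three ne_b) n) c
      · exact J_anti (by omega) (i1 r hr)

theorem Y_six (hs : Sc ρ) (h3 : (3 : R) = 0) {g : (Qn N)ˣ} (hg : g ∈ Kz N 2) :
    ρ g - 1 ∈ J k ρ 6 := (Y_mem hs h3 1).1 g hg

theorem Y_nine (hs : Sc ρ) (h3 : (3 : R) = 0) {g : (Qn N)ˣ} (hg : NE 2 g) :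
    ρ g - 1 ∈ J k ρ 9 := (Y_mem hs h3 1).2 g hg

theorem Y_eighteen (hs : Sc ρ) (h3 : (3 : R) = 0) {g : (Qn N)ˣ} (hg : g ∈ Kz N 3) :
    ρ g - 1 ∈ J k ρ 18 := (Y_mem hs h3 2).1 g hg

theorem comm_two (hs : Sc ρ) (h3 : (3 : R) = 0) {g h : (Qn N)ˣ} (hg : g ∈ Kz N 1)
    (hh : h ∈ Kz N 1) : (ρ g - 1) * (ρ h - 1) - (ρ h - 1) * (ρ g - 1) ∈ J k ρ 9 := by
  have h1 := Y_nine (k := k) hs h3 (comm_ne hg hh)
  have e : (ρ g - 1) * (ρ h - 1) - (ρ h - 1) * (ρ g - 1) =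
      ρ (h * g) * (ρ ((h * g)⁻¹ * (g * h)) - 1) := by
    rw [alg4, mul_sub, ← map_mul ρ (h * g), mul_inv_cancel_left, mul_one, map_mul, map_mul]
  rw [e]
  exact J_mul' (by omega) (J_rho (Subgroup.mul_mem _ hh hg)) h1

theorem comm_three (hs : Sc ρ) (h3 : (3 : R) = 0) {g h : (Qn N)ˣ} (hg : NE 1 g)
    (hh : NE 1 h) : (ρ g - 1) * (ρ h - 1) - (ρ h - 1) * (ρ g - 1) ∈ J k ρ 18 := by
  have h1 := Y_eighteen (k := k) hs h3 (comm_ne2 hg hh)
  have e : (ρ g - 1) * (ρ h - 1) - (ρ h - 1) * (ρ g - 1) =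
      ρ (h * g) * (ρ ((h * g)⁻¹ * (g * h)) - 1) := by
    rw [alg4, mul_sub, ← map_mul ρ (h * g), mul_inv_cancel_left, mul_one, map_mul, map_mul]
  rw [e]
  exact J_mul' (by omega) (J_rho (Subgroup.mul_mem _ hh.mem hg.mem)) h1

theorem comm_lt (hs : Sc ρ) (h3 : (3 : R) = 0) {p q : ℕ × R} (hp : Lt ρ p) (hq : Lt ρ q) :
    p.2 * q.2 - q.2 * p.2 ∈ J k ρ (p.1 + q.1 + 4) := by
  rcases hp with ⟨hp1, g, hg, hp2⟩ | ⟨hp1, g, hg, hp2⟩ <;>
    rcases hq with ⟨hq1, h, hh, hq2⟩ | ⟨hq1, h, hh, hq2⟩ <;> rw [hp1, hq1, hp2, hq2]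
  · exact J_anti (by omega) (comm_two hs h3 hg hh)
  · exact comm_two hs h3 hg hh.mem
  · exact comm_two hs h3 hg.mem hh
  · exact J_anti (by omega) (comm_three hs h3 hg hh)

theorem comm_lw (hs : Sc ρ) (h3 : (3 : R) = 0) {p : ℕ × R} (hp : Lt ρ p) (l : List (ℕ × R))
    (hl : ∀ q ∈ l, Lt ρ q) : (l.map Prod.snd).prod * p.2 - p.2 * (l.map Prod.snd).prod ∈
      J k ρ ((l.map Prod.fst).sum + p.1 + 4) := by
  induction l with
  | nil => simp
  | cons q l ih =>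
    have hq := hl q (by simp)
    have hl' : ∀ q ∈ l, Lt ρ q := fun q hq => hl q (by simp [hq])
    simp only [List.map_cons, List.prod_cons, List.sum_cons]
    have e : q.2 * (l.map Prod.snd).prod * p.2 - p.2 * (q.2 * (l.map Prod.snd).prod) =
        q.2 * ((l.map Prod.snd).prod * p.2 - p.2 * (l.map Prod.snd).prod) +
        (q.2 * p.2 - p.2 * q.2) * (l.map Prod.snd).prod := by noncomm_ring
    rw [e]
    refine Submodule.add_mem _ (J_mul' (by omega) (J_letter hq) (ih hl')) ?_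
    exact J_mul' (by omega) (comm_lt hs h3 hq hp) (J_word hl')

theorem comm_ww (hs : Sc ρ) (h3 : (3 : R) = 0) (l l' : List (ℕ × R))
    (hl : ∀ q ∈ l, Lt ρ q) (hl' : ∀ q ∈ l', Lt ρ q) :
    (l.map Prod.snd).prod * (l'.map Prod.snd).prod -
      (l'.map Prod.snd).prod * (l.map Prod.snd).prod ∈
      J k ρ ((l.map Prod.fst).sum + (l'.map Prod.fst).sum + 4) := by
  induction l' with
  | nil => simp
  | cons q l' ih =>
    have hq := hl' q (by simp)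
    have hl'' : ∀ q ∈ l', Lt ρ q := fun q hq => hl' q (by simp [hq])
    simp only [List.map_cons, List.prod_cons, List.sum_cons]
    have e : (l.map Prod.snd).prod * (q.2 * (l'.map Prod.snd).prod) -
        q.2 * (l'.map Prod.snd).prod * (l.map Prod.snd).prod =
        ((l.map Prod.snd).prod * q.2 - q.2 * (l.map Prod.snd).prod) * (l'.map Prod.snd).prod +
        q.2 * ((l.map Prod.snd).prod * (l'.map Prod.snd).prod -
          (l'.map Prod.snd).prod * (l.map Prod.snd).prod) := by noncomm_ring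
    rw [e]
    refine Submodule.add_mem _ (J_mul' (by omega) (comm_lw hs h3 hq l hl) (J_word hl'')) ?_
    exact J_mul' (by omega) (J_letter hq) (ih hl'')

/-- commutators -/
theorem J_comm (hs : Sc ρ) (h3 : (3 : R) = 0) {a b : ℕ} {x y : R} (hx : x ∈ J k ρ a)
    (hy : y ∈ J k ρ b) : x * y - y * x ∈ J k ρ (a + b + 4) := by
  unfold J at hx hy
  induction hx, hy using Submodule.span_induction₂ with
  | mem_mem x y hx hy =>
    obtain ⟨l, h1, h2, rfl⟩ := hx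
    obtain ⟨l', h1', h2', rfl⟩ := hy
    exact J_anti (by omega) (comm_ww hs h3 l l' h1 h1')
  | zero_left y hy => rw [zero_mul, mul_zero, sub_self]; exact Submodule.zero_mem _
  | zero_right x hx => rw [zero_mul, mul_zero, sub_self]; exact Submodule.zero_mem _
  | add_left x y z _ _ _ h1 h2 =>
    have : (x + y) * z - z * (x + y) = (x * z - z * x) + (y * z - z * y) := by noncomm_ring
    rw [this]
    exact Submodule.add_mem _ h1 h2
  | add_right x y z _ _ _ h1 h2 =>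
    have : x * (y + z) - (y + z) * x = (x * y - y * x) + (x * z - z * x) := by noncomm_ring
    rw [this]
    exact Submodule.add_mem _ h1 h2
  | smul_left r x y _ _ h1 =>
    rw [smul_mul_assoc, mul_smul_comm, ← smul_sub]
    exact Submodule.smul_mem _ _ h1
  | smul_right r x y _ _ h1 =>
    rw [smul_mul_assoc, mul_smul_comm, ← smul_sub]
    exact Submodule.smul_mem _ _ h1

/-- conjugation -/
def cj (ρ : (Qn N)ˣ →* R) (t : (Qn N)ˣ) (x : R) : R := ρ t⁻¹ * x * ρ t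

theorem cj_mul (t : (Qn N)ˣ) (x y : R) : cj ρ t (x * y) = cj ρ t x * cj ρ t y := by
  have h : ρ t * ρ t⁻¹ = 1 := by rw [← map_mul, mul_inv_cancel, map_one]
  unfold cj
  calc ρ t⁻¹ * (x * y) * ρ t = ρ t⁻¹ * x * 1 * y * ρ t := by noncomm_ring
    _ = ρ t⁻¹ * x * (ρ t * ρ t⁻¹) * y * ρ t := by rw [h]
    _ = _ := by noncomm_ring

theorem cj_one (t : (Qn N)ˣ) : cj ρ t 1 = 1 := by
  unfold cj
  rw [mul_one, ← map_mul, inv_mul_cancel, map_one]

theorem cj_rho (t g : (Qn N)ˣ) : cj ρ t (ρ g) = ρ (t⁻¹ * g * t) := by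
  unfold cj
  rw [map_mul, map_mul]

theorem cj_sub (t : (Qn N)ˣ) (x y : R) : cj ρ t (x - y) = cj ρ t x - cj ρ t y := by
  unfold cj
  noncomm_ring

theorem cj_add (t : (Qn N)ˣ) (x y : R) : cj ρ t (x + y) = cj ρ t x + cj ρ t y := by
  unfold cj
  noncomm_ring

theorem cj_smul (t : (Qn N)ˣ) (c : k) (x : R) : cj ρ t (c • x) = c • cj ρ t x := by
  unfold cj
  rw [mul_smul_comm, smul_mul_assoc]

/-- conjugation by an element which acts unipotently -/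
theorem J_conj (hs : Sc ρ) (h3 : (3 : R) = 0) {t : (Qn N)ˣ}
    (ht1 : ∀ g ∈ Kz N 1, NE 1 (g⁻¹ * (t⁻¹ * g * t)))
    (ht2 : ∀ g, NE 1 g → g⁻¹ * (t⁻¹ * g * t) ∈ Kz N 2) {a : ℕ} {x : R} (hx : x ∈ J k ρ a) :
    cj ρ t x - x ∈ J k ρ (a + 1) := by
  have hl : ∀ p, Lt ρ p → cj ρ t p.2 - p.2 ∈ J k ρ (p.1 + 1) := by
    intro p hp
    have key : ∀ g : (Qn N)ˣ, cj ρ t (ρ g - 1) - (ρ g - 1) =
        ρ g * (ρ (g⁻¹ * (t⁻¹ * g * t)) - 1) := by
      intro g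
      rw [cj_sub, cj_one, cj_rho, mul_sub, ← map_mul ρ g, mul_inv_cancel_left, mul_one]
      abel
    rcases hp with ⟨hp1, g, hg, hp2⟩ | ⟨hp1, g, hg, hp2⟩
    · rw [hp1, hp2, key]
      exact J_mul' (by omega) (J_rho hg) (J_three (ht1 g hg))
    · rw [hp1, hp2, key]
      exact J_mul' (by omega) (J_rho hg.mem) (Y_six hs h3 (ht2 g hg))
  have hw : ∀ l : List (ℕ × R), (∀ p ∈ l, Lt ρ p) →
      cj ρ t (l.map Prod.snd).prod - (l.map Prod.snd).prod ∈ J k ρ ((l.map Prod.fst).sum + 1) := by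
    intro l
    induction l with
    | nil => intro _; simp [cj_one]
    | cons q l ih =>
      intro hl'
      have hq := hl' q (by simp)
      have hl'' : ∀ q ∈ l, Lt ρ q := fun q hq => hl' q (by simp [hq])
      have i := ih hl''
      simp only [List.map_cons, List.prod_cons, List.sum_cons]
      rw [cj_mul]
      have hX : cj ρ t (l.map Prod.snd).prod ∈ J k ρ (l.map Prod.fst).sum := by
        have e : cj ρ t (l.map Prod.snd).prod = (cj ρ t (l.map Prod.snd).prod -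
          (l.map Prod.snd).prod) + (l.map Prod.snd).prod := by abel
        rw [e]
        exact Submodule.add_mem _ (J_anti (by omega) i) (J_word hl'')
      have e : cj ρ t q.2 * cj ρ t (l.map Prod.snd).prod - q.2 * (l.map Prod.snd).prod =
          (cj ρ t q.2 - q.2) * cj ρ t (l.map Prod.snd).prod +
          q.2 * (cj ρ t (l.map Prod.snd).prod - (l.map Prod.snd).prod) := by noncomm_ring
      rw [e]
      exact Submodule.add_mem _ (J_mul' (by omega) (hl q hq) hX)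
        (J_mul' (by omega) (J_letter hq) i)
  unfold J at hx
  induction hx using Submodule.span_induction with
  | mem x hx =>
    obtain ⟨l, h1, h2, rfl⟩ := hx
    exact J_anti (by omega) (hw l h1)
  | zero =>
    have : cj ρ t 0 = 0 := by unfold cj; noncomm_ring
    rw [this, sub_self]; exact Submodule.zero_mem _
  | add x y _ _ h1 h2 =>
    have e : cj ρ t (x + y) - (x + y) = (cj ρ t x - x) + (cj ρ t y - y) := by
      rw [cj_add]; abel
    rw [e]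
    exact Submodule.add_mem _ h1 h2
  | smul r x _ h1 =>
    rw [cj_smul, ← smul_sub]
    exact Submodule.smul_mem _ _ h1

theorem J_cj (hs : Sc ρ) (h3 : (3 : R) = 0) {t : (Qn N)ˣ}
    (ht1 : ∀ g ∈ Kz N 1, NE 1 (g⁻¹ * (t⁻¹ * g * t)))
    (ht2 : ∀ g, NE 1 g → g⁻¹ * (t⁻¹ * g * t) ∈ Kz N 2) {a : ℕ} {x : R} (hx : x ∈ J k ρ a) :
    cj ρ t x ∈ J k ρ a := by
  have e : cj ρ t x = (cj ρ t x - x) + x := by abel
  rw [e]
  exact Submodule.add_mem _ (J_anti (by omega) (J_conj hs h3 ht1 ht2 hx)) hx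

end

end Pool.Agent.Helper725_HQ.RR
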