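import Pool.Agent.Helper725_HQ.RGv
import Pool.Agent.Helper725_HQ.BForm

/-! Forms invariant under the ramified torus at three as functions on the generators. -/

set_option autoImplicit false
set_option linter.unusedVariables false
set_option linter.unusedSimpArgs false

namespace Pool.Agent.Helper725_HQ.RR

open Quaternion MvPolynomial

section
variable {n k : ℕ} {F : AddSubgroup ℍ[ℚ] → ℍ[ℚ] → MvPolynomial (Fin 3) ℂ}

theorem formR_left (hF : IsFormR n k F) {α : ℍ[ℚ]} (hα : α ≠ 0) {I : AddSubgroup ℍ[ℚ]}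
    (hI : IsRI I) {u : ℍ[ℚ]} (hu : Gen3 I u) : F (lm α I) (α * u) = lsub (rC α) (F I u) := by
  apply eq_of_ev
  intro x
  rw [ev_lsub hα]
  have h1 := hF.left α hα I u hI hu (α⁻¹ * x * α)
  have h2 : α * (α⁻¹ * x * α) * α⁻¹ = x := by
    rw [← mul_assoc, ← mul_assoc, mul_inv_cancel₀ hα, one_mul, mul_assoc, mul_inv_cancel₀ hα,
      mul_one]
  rw [h2] at h1
  exact h1

theorem formR_fr (hF : IsFormR n k F) : Fr n k (F Oo) := by
  refine ⟨fun u => hF.hom _ _, ?_, ?_, ?_, ?_, ?_⟩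
  · intro a b c d h u hu
    have hn : normSq (mk4 (a : ℚ) b c d) = 1 := by rw [normSq_int, h]; norm_num
    have hne : mk4 (a : ℚ) b c d ≠ 0 := by
      rw [← normSq_ne_zero, hn]; norm_num
    have h1 := formR_left hF hne Oo_isRI (gen_iff.2 hu)
    rwa [mem_of_unit (int_mem a b c d) hn] at h1
  · intro u hu
    have h1 := formR_left hF ep_ne Oo_isRI (gen_iff.2 hu)
    rw [← h1]
    have h2 : Gen3 (rm ep Oo) (ep * u) := by
      rw [rm_ep_Oo]; exact gen_lm ep_ne (gen_iff.2 hu)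
    have h3 := hF.two Oo (ep * u) Oo_isRI h2
    rw [← rm_ep_Oo]
    exact h3.symm
  · intro u u' hu hu' ⟨z, hz, h⟩
    apply hF.lvl Oo u u' Oo_isRI (gen_iff.2 hu) (gen_iff.2 hu')
    rw [mem_lm]
    refine ⟨z, hz, ?_⟩
    rw [h, nat_smulH]
    push_cast
    abel
  · intro u hu a b hab
    exact hF.tor Oo u Oo_isRI (gen_iff.2 hu) a b hab
  · intro u hu
    exact hF.sgn Oo u Oo_isRI (gen_iff.2 hu)

theorem formR_ne (hF : IsFormR n k F) (h : ∃ I u, F I u ≠ 0) : ∃ u, GO u ∧ F Oo u ≠ 0 := by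
  obtain ⟨I, u, h⟩ := h
  have h1 : IsRI I ∧ Gen3 I u := by
    by_contra h1
    exact h (hF.supp I u h1)
  obtain ⟨hI, hu⟩ := h1
  obtain ⟨α, hα, rfl⟩ := principal hI
  have e : α * (α⁻¹ * u) = u := by rw [← mul_assoc, mul_inv_cancel₀ hα, one_mul]
  rw [← e] at hu h
  have hu' := (gen_lm_iff hα).1 hu
  refine ⟨α⁻¹ * u, gen_iff.1 hu', ?_⟩
  intro h0
  apply h
  rw [formR_left hF hα Oo_isRI hu', h0, map_zero]

theorem formR_om (hF : IsFormR n k F) {w : ℍ[ℚ]} (hw : w ∈ Hur) (h : normSq w = 1) {u : ℍ[ℚ]}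
    (hu : GO u) : F Oo (w * u) = lsub (rC w) (F Oo u) := by
  have hne : w ≠ 0 := by
    rw [← normSq_ne_zero, h]; norm_num
  have h1 := formR_left hF hne Oo_isRI (gen_iff.2 hu)
  rwa [mem_of_unit hw h] at h1

theorem hecke_termR (hF : IsFormR n k F) {α : ℍ[ℚ]} (hα : α ∈ Hur) {p : ℕ} (hn : normSq α = p)
    (hp3 : ¬ 3 ∣ p) {u : ℍ[ℚ]} (hu : GO u) :
    F (lm α Oo) (p * u) = lsub (rC α) (F Oo (star α * u)) := by
  have hg := GO_of_norm hα hn hp3
  rw [← formR_left hF hg.ne Oo_isRI (gen_iff.2 (hg.star.mul hu)), ← mul_assoc, self_mul_star, hn]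
  rfl

/-- the relation at five -/
theorem heckeR5 (hF : IsFormR n k F) {lam : ℂ}
    (he : ∀ I u, IsRI I → Gen3 I u → heckeN 5 F I u = lam • F I u) {u : ℍ[ℚ]} (hu : GO u) :
    ∑ i, lsub (rC (qv (v5 i))) (F Oo (star (qv (v5 i)) * u)) = lam • F Oo u := by
  have h1 := he Oo u Oo_isRI (gen_iff.2 hu)
  unfold heckeN at h1
  have h2 : {J : AddSubgroup ℍ[ℚ] | IsRI J ∧ lm (5 : ℕ) Oo < J ∧ J < Oo} = Sp 5 Oo := rfl
  rw [h2, Sp5_eq, finsum_mem_range (fun i j h => inj5 h), finsum_eq_sum_of_fintype] at h1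
  rw [← h1]
  apply Finset.sum_congr rfl
  intro i _
  have hn : normSq (qv (v5 i) * ep⁻¹) = ((5 : ℕ) : ℚ) := by
    rw [map_mul, qv_norm, v5_norm, map_inv₀, normSq_ep]; norm_num
  rw [hecke_termR hF (mem5 i) hn (by norm_num) hu]
  have hfu := formR_fr hF
  have hg := GO_of_norm (mem5 i) hn (by norm_num)
  have hw := hg.star.mul hu
  have e1 : ((2 : ℤ) : ℚ) • (star (qv (v5 i) * ep⁻¹) * u) = ep * (star (qv (v5 i)) * u) := by
    rw [star_mul, ep_inv]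
    have : ((2 : ℤ) : ℚ) • star (mk4 (1 / 2) (-(1 / 2)) 0 0) = ep := by
      unfold ep
      apply ext4 <;> simp
    rw [← smul_mul_assoc, ← smul_mul_assoc, this, mul_assoc]
  rw [← hfu.scal hw (a := 2) (by norm_num), e1, hfu.ep _ ((GO_qv _).star.mul hu),
    rC_mul hg.ne ep_ne, mul_assoc, inv_mul_cancel₀ ep_ne, mul_one]

/-- the relation at seven -/
theorem heckeR7 (hF : IsFormR n k F) {lam : ℂ}
    (he : ∀ I u, IsRI I → Gen3 I u → heckeN 7 F I u = lam • F I u) {u : ℍ[ℚ]} (hu : GO u) :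
    ∑ i, lsub (rC (qv (v7 i))) (F Oo (star (qv (v7 i)) * u)) = lam • F Oo u := by
  have h1 := he Oo u Oo_isRI (gen_iff.2 hu)
  unfold heckeN at h1
  have h2 : {J : AddSubgroup ℍ[ℚ] | IsRI J ∧ lm (7 : ℕ) Oo < J ∧ J < Oo} = Sp 7 Oo := rfl
  rw [h2, Sp7_eq, finsum_mem_range (fun i j h => inj7 h), finsum_eq_sum_of_fintype] at h1
  rw [← h1]
  apply Finset.sum_congr rfl
  intro i _
  have hlf2 : normSq hlf = 1 / 4 := by
    rw [normSq_def']
    simp [hlf]; norm_num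
  have hlf_ne : hlf ≠ 0 := by
    rw [← normSq_ne_zero, hlf2]; norm_num
  have hlfe : hlf = ((1 / 2 : ℚ) : ℍ[ℚ]) := by
    apply ext4 <;> simp [hlf]
  have hn : normSq (qv (v7 i) * hlf) = ((7 : ℕ) : ℚ) := by
    rw [map_mul, qv_norm, v7_norm, hlf2]; norm_num
  rw [hecke_termR hF (mem7 i) hn (by norm_num) hu]
  have hfu := formR_fr hF
  have hg := GO_of_norm (mem7 i) hn (by norm_num)
  have hw := hg.star.mul hu
  have e1 : ((2 : ℤ) : ℚ) • (star (qv (v7 i) * hlf) * u) = star (qv (v7 i)) * u := by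
    rw [star_mul]
    have : ((2 : ℤ) : ℚ) • star hlf = 1 := by
      unfold hlf
      apply ext4 <;> simp
    rw [← smul_mul_assoc, ← smul_mul_assoc, this, one_mul]
  rw [← hfu.scal hw (a := 2) (by norm_num), e1, ← rC_mul (qv_ne _) hlf_ne, hlfe,
    rC_coe (by norm_num)]

/-- the element `i + j + k` of norm three -/
noncomputable def nn : ℍ[ℚ] := mk4 0 1 1 1

theorem nn_norm : normSq nn = 3 := by
  rw [normSq_def']; unfold nn; simp; norm_num

theorem nn_ne : nn ≠ 0 := by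
  rw [← normSq_ne_zero, nn_norm]; norm_num

theorem nn_mem : nn ∈ Hur := by
  have := int_mem 0 1 1 1
  unfold nn
  simpa using this

theorem nn_inv3 : (3 : ℚ) • nn⁻¹ = -nn := by
  have h := star_inv nn_ne
  rw [nn_norm] at h
  rw [h]
  unfold nn
  apply ext4 <;> simp

theorem three_le_nn : lm 3 Oo ≤ lm nn Oo := by
  intro y hy
  obtain ⟨z, hz, rfl⟩ := mem_lm.1 hy
  rw [mem_lm]
  refine ⟨-nn * z, Hur.mul_mem (Hur.neg_mem nn_mem) hz, ?_⟩
  rw [← mul_assoc, three_smulH]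
  have e : nn * -nn = mk4 3 0 0 0 := by
    unfold nn
    apply ext4 <;> simp [re_mul, imI_mul, imJ_mul, imK_mul] <;> norm_num
  rw [e]
  apply ext4 <;> simp [re_mul, imI_mul, imJ_mul, imK_mul]

theorem nn_le : lm nn Oo ≤ Oo := by
  intro y hy
  obtain ⟨z, hz, rfl⟩ := mem_lm.1 hy
  exact Hur.mul_mem nn_mem hz

theorem ctau_one (c : ℚ) : c • mk4 0 1 1 (-2) = mk4 0 c c (-2 * c) := by
  apply ext4 <;> simp
  ring

/-- the invariance under the uniformizer of the torus -/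
theorem gvR_flip (hF : IsFormR n k F) {x y : Fin 3 → ℤ}
    (hx : ∃ x0 : ℤ, ∃ w : Fin 3 → ℤ, ∀ i, x i = x0 + 3 * w i) (hy : pq y = nn⁻¹ * pq x * nn)
    (hu : ∃ u, Ad (n + 1) x u) : gv n (F Oo) y = gv n (F Oo) x := by
  obtain ⟨u, hu⟩ := hu
  have hf := formR_fr hF
  rw [gv_eq hf (Ad_down hu)]
  obtain ⟨hg, c, hc, z, hz, h1⟩ := hu
  obtain ⟨x0, w, hw⟩ := hx
  -- the new generator
  obtain ⟨v, hv⟩ : ∃ v, v = nn⁻¹ * (u * mk4 0 1 1 (-2)) := ⟨_, rfl⟩
  have hnv : nn * v = u * mk4 0 1 1 (-2) := by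
    rw [hv, ← mul_assoc, mul_inv_cancel₀ nn_ne, one_mul]
  have hxe : nn⁻¹ * pq x = (x0 : ℍ[ℚ]) + (-nn) * pq w := by
    have e1 : pq x = (x0 : ℚ) • nn + (3 : ℚ) • pq w := by
      unfold pq nn
      apply ext4
      · simp
      · simp [hw]
      · simp [hw]
      · simp [hw]
    rw [e1, mul_add, mul_smul_comm, inv_mul_cancel₀ nn_ne, mul_smul_comm, ← smul_mul_assoc,
      nn_inv3]
    congr 1
    rw [← ratmul, mul_one]
    rfl
  have hz3 : nn⁻¹ * ((3 ^ (n + 2) : ℚ) • z) = (3 ^ (n + 1) : ℚ) • (-nn * z) := by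
    rw [mul_smul_comm, pow_succ, mul_smul, ← smul_mul_assoc (3 : ℚ), nn_inv3]
  have hcv : (c : ℚ) • v ∈ Hur := by
    have e1 : (c : ℚ) • v = nn⁻¹ * pq x * u - nn⁻¹ * ((3 ^ (n + 2) : ℚ) • z) := by
      rw [mul_assoc, h1, mul_add, ← ctau_one c, mul_smul_comm, mul_smul_comm, ← hv]
      abel
    rw [e1, hxe, hz3]
    refine Hur.sub_mem (Hur.mul_mem (Hur.add_mem (intCast_mem_Hur x0)
      (Hur.mul_mem (Hur.neg_mem nn_mem) (pq_mem w))) hg.1) ?_
    have := smul_Hur (Hur.mul_mem (Hur.neg_mem nn_mem) hz) (3 ^ (n + 1))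
    push_cast at this
    exact this
  have h3v : (3 : ℚ) • v ∈ Hur := by
    rw [hv, ← smul_mul_assoc, nn_inv3]
    exact Hur.mul_mem (Hur.neg_mem nn_mem) (Hur.mul_mem hg.1 tau_mem)
  have hvm : v ∈ Hur := by
    have e1 : v = (c : ℚ) • v - ((c / 3 : ℤ) : ℚ) • ((3 : ℚ) • v) := by
      rw [smul_smul, ← sub_smul]
      have e2 : (c : ℚ) - ((c / 3 : ℤ) : ℚ) * 3 = 1 := by
        have : c - (c / 3) * 3 = 1 := by omega
        exact_mod_cast this
      rw [e2, one_smul]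
    rw [e1]
    exact Hur.sub_mem hcv (smul_Hur h3v _)
  obtain ⟨m, hm, hm3⟩ := hg.2
  have hvn : normSq v = ((2 * m : ℕ) : ℚ) := by
    have h2 := congrArg normSq hnv
    rw [map_mul, map_mul, nn_norm, hm, normSq_def'] at h2
    rw [normSq_def'] 
    rw [normSq_def'] at h2
    simp at h2 ⊢
    linear_combination (1 / 3) * h2
  have hGv : GO v := ⟨hvm, 2 * m, hvn, by omega⟩
  have had : Ad n y v := by
    refine ⟨hGv, c, hc, -nn * (z * mk4 0 1 1 (-2)), Hur.mul_mem (Hur.neg_mem nn_mem)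
      (Hur.mul_mem hz tau_mem), ?_⟩
    rw [hy, mul_assoc, hnv, mul_assoc, ← mul_assoc (pq x), h1, add_mul, mul_add, smul_mul_assoc]
    congr 1
    · rw [hv, ← ctau_one c, mul_smul_comm, mul_smul_comm, smul_mul_assoc, mul_smul_comm]
      simp only [mul_assoc]
    · rw [mul_smul_comm, pow_succ, mul_smul, ← smul_mul_assoc (3 : ℚ), nn_inv3]
  rw [gv_eq hf had]
  have hJ : Gen3 (lm nn Oo) (u * mk4 0 1 1 (-2)) := by
    rw [← hnv]
    exact gen_lm nn_ne (gen_iff.2 hGv)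
  have h5 := hF.unif Oo (lm nn Oo) u Oo_isRI (isRI_lm Oo_isRI nn_ne) (gen_iff.2 hg) hJ three_le_nn nn_le
  rw [← hnv, formR_left hF nn_ne Oo_isRI (gen_iff.2 hGv)] at h5
  rw [← h5, ← evvl, ← evvl, ev_lsub nn_ne, hy]

end

end Pool.Agent.Helper725_HQ.RR
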