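import Pool.Agent.Helper725_HQ.RDefs
import Pool.Agent.Helper725_HQ.BVal

/-! Generators at three adapted to a vector, for the ramified torus. -/

set_option autoImplicit false
set_option linter.unusedVariables false
set_option linter.unusedSimpArgs false

namespace Pool.Agent.Helper725_HQ.RR

open Quaternion MvPolynomial

/-- functions on the generators of the Hurwitz order at three -/
structure Fr (n k : ℕ) (f : ℍ[ℚ] → MvPolynomial (Fin 3) ℂ) : Prop where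
  hom : ∀ u, (f u).IsHomogeneous k
  un : ∀ a b c d : ℤ, a ^ 2 + b ^ 2 + c ^ 2 + d ^ 2 = 1 → ∀ u, GO u →
    f (mk4 a b c d * u) = lsub (rC (mk4 a b c d)) (f u)
  ep : ∀ u, GO u → f (ep * u) = lsub (rC ep) (f u)
  lvl : ∀ u u', GO u → GO u' → (∃ z ∈ Hur, u' = u + (3 ^ n : ℚ) • z) → f u' = f u
  tor : ∀ u, GO u → ∀ a b : ℤ, ¬ (3 : ℤ) ∣ a → f (u * mk4 a b b (-2 * b)) = f u
  sgn : ∀ u, GO u → f (u * mk4 0 1 (-1) 0) = (-1 : ℂ) ^ k • f u

/-- `u` conjugates the vector `x` to a multiple of `i + j - 2 k` modulo `3 ^ (n + 1)` -/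
def Ad (n : ℕ) (x : Fin 3 → ℤ) (u : ℍ[ℚ]) : Prop :=
  GO u ∧ ∃ c : ℤ, c % 3 = 1 ∧ ∃ z ∈ Hur,
    pq x * u = u * mk4 0 c c (-2 * c) + (3 ^ (n + 1) : ℚ) • z

section
variable {n k : ℕ} {f : ℍ[ℚ] → MvPolynomial (Fin 3) ℂ}

theorem Fr.scal (hf : Fr n k f) {u : ℍ[ℚ]} (hu : GO u) {a : ℤ} (ha : ¬ (3 : ℤ) ∣ a) :
    f ((a : ℚ) • u) = f u := by
  have h := hf.tor u hu a 0 ha
  rw [← h]
  congr 1
  rw [Int.cast_zero]
  apply ext4 <;> simp [re_mul, imI_mul, imJ_mul, imK_mul, mul_comm]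

theorem tau_mem : mk4 0 1 1 (-2) ∈ Hur := by
  have := int_mem 0 1 1 (-2)
  simpa using this

theorem ctau_mem (c : ℤ) : mk4 0 c c (-2 * c) ∈ Hur := by
  have := int_mem 0 c c (-2 * c)
  push_cast at this
  exact this

/-- the polynomial attached to an adapted generator is unique -/
theorem ad_unique (hf : Fr n k f) {x : Fin 3 → ℤ} {u u' : ℍ[ℚ]} (h : Ad n x u) (h' : Ad n x u') :
    f u' = f u := by
  rcases Nat.eq_zero_or_pos n with hn | hn
  · subst hn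
    exact hf.lvl u u' h.1 h'.1 ⟨u' - u, Hur.sub_mem h'.1.1 h.1.1, by
      rw [pow_zero, one_smul]; abel⟩
  obtain ⟨hu, c, hc, z, hz, hxu⟩ := h
  obtain ⟨hu', c', hc', z', hz', hxu'⟩ := h'
  have hu1 := hu.1
  have hu1' := hu'.1
  obtain ⟨q, hq⟩ : ∃ q : ℤ, q = 3 ^ n := ⟨_, rfl⟩
  have hqQ1 : (3 ^ n : ℚ) = (q : ℚ) := by rw [hq]; push_cast; rfl
  have hqQ : (3 ^ (n + 1) : ℚ) = ((3 * q : ℤ) : ℚ) := by rw [hq, pow_succ]; push_cast; ring
  have hq3 : (3 : ℤ) ∣ q := by rw [hq]; exact dvd_pow_self 3 (by omega)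
  rw [hqQ] at hxu hxu'
  have hunit : ∀ m a : ℤ, ¬ (3 : ℤ) ∣ m → q ∣ m * a → q ∣ a := by
    intro m a hm h
    rw [hq] at h ⊢
    exact (IsCoprime.pow_left ((Prime.coprime_iff_not_dvd Int.prime_three).2 hm)).dvd_of_dvd_mul_left h
  have hunit3 : ∀ m a : ℤ, ¬ (3 : ℤ) ∣ m → 3 * q ∣ m * a → 3 * q ∣ a := by
    intro m a hm h
    have e : 3 * q = 3 ^ (n + 1) := by rw [hq, pow_succ]; ring
    rw [e] at h ⊢
    exact (IsCoprime.pow_left ((Prime.coprime_iff_not_dvd Int.prime_three).2 hm)).dvd_of_dvd_mul_left h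
  -- congruence of the constants
  have key : ∀ (u z : ℍ[ℚ]) (c : ℤ), GO u → z ∈ Hur →
      pq x * u = u * mk4 0 c c (-2 * c) + ((3 * q : ℤ) : ℚ) • z →
      3 * q ∣ (x 0 ^ 2 + x 1 ^ 2 + x 2 ^ 2) - 6 * c ^ 2 := by
    intro u z c hu hz h
    obtain ⟨hu1, m, hm, hm3⟩ := hu
    obtain ⟨w, hw⟩ : ∃ w, w = u * mk4 0 c c (-2 * c) := ⟨_, rfl⟩
    have hw1 : w ∈ Hur := by
      rw [hw]
      exact Hur.mul_mem hu1 (ctau_mem c)
    have hwn : normSq w = (m : ℚ) * (6 * (c : ℚ) ^ 2) := by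
      rw [hw, map_mul, hm, normSq_def']
      simp
      left
      ring
    have h1 := congrArg normSq h
    rw [map_mul, normSq_pq, hm, ← hw] at h1
    obtain ⟨t, ht⟩ : ∃ t : ℤ, 2 * (w * star z).re = t := by
      obtain ⟨A, B, C, D, h1, _⟩ := half_Hur (Hur.mul_mem hw1 (star_mem hz))
      exact ⟨A, by rw [h1]; ring⟩
    obtain ⟨l, hl⟩ := normSq_nat hz
    have h2 : normSq (w + ((3 * q : ℤ) : ℚ) • z) = normSq w +
        ((3 * q : ℤ) : ℚ) * (2 * (w * star z).re) + ((3 * q : ℤ) : ℚ) ^ 2 * normSq z := by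
      rw [normSq_def', normSq_def', normSq_def', re_mul]
      simp
      ring
    rw [h2, ht, hl, hwn] at h1
    have h3 : (x 0 ^ 2 + x 1 ^ 2 + x 2 ^ 2) * (m : ℤ) = (m : ℤ) * (6 * c ^ 2) + (3 * q) * t +
        (3 * q) ^ 2 * l := by
      exact_mod_cast h1
    apply hunit3 (m : ℤ) _ (by intro h; exact hm3 (by exact_mod_cast h))
    exact ⟨t + (3 * q) * l, by linear_combination h3⟩
  have k1 := key u z c hu hz hxu
  have k2 := key u' z' c' hu' hz' hxu'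
  have k3 : q ∣ c' - c := by
    apply hunit (2 * (c' + c))
    · omega
    · obtain ⟨a, ha⟩ := dvd_sub k1 k2
      refine ⟨a, ?_⟩
      have h3 : (3 : ℤ) * (2 * (c' + c) * (c' - c)) = 3 * (q * a) := by linear_combination ha
      exact mul_left_cancel₀ (by norm_num) h3
  obtain ⟨e, he⟩ := k3
  -- the commutator
  obtain ⟨m, hm, hm3⟩ := hu.2
  obtain ⟨m', hm', hm3'⟩ := hu'.2
  obtain ⟨v, hv⟩ : ∃ v, v = star u * u' := ⟨_, rfl⟩
  have hvm : v ∈ Hur := by rw [hv]; exact Hur.mul_mem (star_mem hu1) hu1'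
  have hvn : normSq v = (m : ℚ) * m' := by rw [hv, map_mul, normSq_star, hm, hm']
  have hst : star u * pq x = mk4 0 c c (-2 * c) * star u - ((3 * q : ℤ) : ℚ) • star z := by
    have h1 := congrArg Star.star hxu
    rw [star_mul, star_add, star_mul] at h1
    have e1 : star (pq x) = -pq x := by
      unfold pq
      apply ext4 <;> simp
    have e2 : star (mk4 0 c c (-2 * c)) = -mk4 0 (c : ℚ) c (-2 * c) := by
      apply ext4 <;> simp
    have e3 : star (((3 * q : ℤ) : ℚ) • z) = ((3 * q : ℤ) : ℚ) • star z := by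
      apply ext4 <;> simp
    rw [e1, e2, e3] at h1
    rw [mul_neg, neg_mul] at h1
    have h2 := congrArg Neg.neg h1
    rw [neg_neg, neg_add, neg_neg] at h2
    rw [h2, sub_eq_add_neg]
  have hcomm : (c : ℚ) • (mk4 0 1 1 (-2) * v - v * mk4 0 1 1 (-2)) =
      (q : ℚ) • ((e : ℚ) • (v * mk4 0 1 1 (-2)) + (3 : ℚ) • (star z * u' + star u * z')) := by
    have h1 : star u * (pq x * u') = (mk4 0 c c (-2 * c) * star u - ((3 * q : ℤ) : ℚ) • star z) *
        u' := by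
      rw [← mul_assoc, hst]
    rw [hxu', mul_add, ← mul_assoc, ← hv, sub_mul, mul_assoc, ← hv, mul_smul_comm,
      smul_mul_assoc] at h1
    have e1 : mk4 0 c c (-2 * c) * v = (c : ℚ) • (mk4 0 1 1 (-2) * v) := by
      have : mk4 0 c c (-2 * c) = (c : ℚ) • mk4 0 1 1 (-2) := by
        apply ext4 <;> simp
        ring
      rw [this, smul_mul_assoc]
    have e2 : v * mk4 0 c' c' (-2 * c') = (c : ℚ) • (v * mk4 0 1 1 (-2)) +
        (q : ℚ) • ((e : ℚ) • (v * mk4 0 1 1 (-2))) := by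
      have h3 : (c' : ℚ) = c + q * e := by
        have : c' = c + q * e := by rw [← he]; ring
        exact_mod_cast this
      have : mk4 0 c' c' (-2 * c') = (c' : ℚ) • mk4 0 1 1 (-2) := by
        apply ext4 <;> simp
        ring
      rw [this, mul_smul_comm, h3, add_smul, mul_smul]
    rw [e1, e2] at h1
    have h4 : (c : ℚ) • (mk4 0 1 1 (-2) * v) = (c : ℚ) • (v * mk4 0 1 1 (-2)) +
      (q : ℚ) • ((e : ℚ) • (v * mk4 0 1 1 (-2))) + ((3 * q : ℤ) : ℚ) • (star u * z') +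
        ((3 * q : ℤ) : ℚ) • (star z * u') := by
      rw [h1]; abel
    rw [smul_sub, h4]
    push_cast
    module
  obtain ⟨w, hw, hww⟩ : ∃ w ∈ Hur, (c : ℚ) • (mk4 0 1 1 (-2) * v - v * mk4 0 1 1 (-2)) =
      (q : ℚ) • w := by
    refine ⟨_, ?_, hcomm⟩
    have h3 := smul_Hur (Hur.add_mem (Hur.mul_mem (star_mem hz) hu1')
      (Hur.mul_mem (star_mem hu1) hz')) 3
    push_cast at h3
    exact Hur.add_mem (smul_Hur (Hur.mul_mem hvm tau_mem) e) h3
  obtain ⟨A, B, C, D, v1, v2, v3, v4⟩ := half_Hur hvm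
  obtain ⟨A', B', C', D', w1, w2, w3, w4⟩ := half_Hur hw
  have hC : q ∣ C - B := by
    have h1 := congrArg QuaternionAlgebra.imK hww
    simp [imK_mul] at h1
    rw [v3, v2, w4] at h1
    apply hunit (2 * c)
    · omega
    · refine ⟨D', ?_⟩
      have h2 : (2 : ℚ) * c * (C - B) = q * D' := by linear_combination 2 * h1
      exact_mod_cast h2
  have hD : q ∣ D + 2 * C := by
    have h1 := congrArg QuaternionAlgebra.imI hww
    simp [imI_mul] at h1
    rw [v4, v3, w2] at h1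
    apply hunit (2 * c)
    · omega
    · refine ⟨B', ?_⟩
      have h2 : (2 : ℚ) * c * (D + 2 * C) = q * B' := by linear_combination 2 * h1
      exact_mod_cast h2
  obtain ⟨C1, hC1⟩ := hC
  obtain ⟨D1, hD1⟩ := hD
  have hCB : C = B + q * C1 := by linarith
  have hDB : D = -2 * B + q * (D1 - 2 * C1) := by linear_combination hD1 - 2 * hC1
  have hAB : ¬ (3 : ℤ) ∣ A := by
    intro h3
    have h4 : A ^ 2 + B ^ 2 + C ^ 2 + D ^ 2 = 4 * ((m : ℤ) * m') := by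
      have h5 : ((A : ℚ) ^ 2 + B ^ 2 + C ^ 2 + D ^ 2) = 4 * (m * m') := by
        rw [← hvn, normSq_def', v1, v2, v3, v4]; ring
      exact_mod_cast h5
    obtain ⟨q', hq'⟩ := hq3
    obtain ⟨a, ha⟩ := h3
    have h6 : (3 : ℤ) ∣ 4 * ((m : ℤ) * m') := by
      rw [← h4, ha, hCB, hDB, hq']
      exact ⟨3 * a ^ 2 + 2 * B ^ 2 + 2 * B * q' * C1 + 3 * q' ^ 2 * C1 ^ 2 -
        4 * B * q' * (D1 - 2 * C1) + 3 * q' ^ 2 * (D1 - 2 * C1) ^ 2, by ring⟩
    rcases Int.prime_three.dvd_or_dvd h6 with h | h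
    · omega
    · rcases Int.prime_three.dvd_or_dvd h with h | h
      · exact hm3 (by exact_mod_cast h)
      · exact hm3' (by exact_mod_cast h)
  -- conclusion
  have s1 : f (u * mk4 A B B (-2 * B)) = f u := hf.tor u hu A B hAB
  have hgo : GO (u * mk4 A B B (-2 * B)) := by
    have := hu.mul (GO_int (a := A) (b := B) (c := B) (d := -2 * B) (by
      intro h
      have e : A ^ 2 + B ^ 2 + B ^ 2 + (-2 * B) ^ 2 = A ^ 2 + 3 * (2 * B ^ 2) := by ring
      rw [e] at h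
      have h1 : (3 : ℤ) ∣ A ^ 2 := by omega
      exact hAB (Int.prime_three.dvd_of_dvd_pow h1)))
    push_cast at this
    exact this
  have h2v : (2 : ℚ) • v = mk4 A B B (-2 * B) + (q : ℚ) • mk4 0 0 C1 (D1 - 2 * C1 : ℤ) := by
    apply ext4
    · simp [v1]; ring
    · simp [v2]; ring
    · simp [v3]; rw [hCB]; push_cast; ring
    · simp [v4]; rw [hDB]; push_cast; ring
  have h2m : ¬ (3 : ℤ) ∣ 2 * (m : ℤ) := by
    intro h
    rcases Int.prime_three.dvd_or_dvd h with h | h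
    · omega
    · exact hm3 (by exact_mod_cast h)
  have s2 : f (((2 * (m : ℤ) : ℤ) : ℚ) • u') = f u' := hf.scal hu' h2m
  have s3 : ((2 * (m : ℤ) : ℤ) : ℚ) • u' = u * mk4 A B B (-2 * B) +
      (3 ^ n : ℚ) • (u * mk4 0 0 C1 (D1 - 2 * C1 : ℤ)) := by
    have h1 : u * ((2 : ℚ) • v) = ((2 * (m : ℤ) : ℤ) : ℚ) • u' := by
      rw [hv, mul_smul_comm, ← mul_assoc, self_mul_star, hm, coe_mul_eq_smul, smul_smul]
      push_cast
      rfl
    rw [← h1, h2v, mul_add, mul_smul_comm, hqQ1]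
  have s4 := hf.lvl (u * mk4 A B B (-2 * B)) (((2 * (m : ℤ) : ℤ) : ℚ) • u') hgo (GO_smul hu' h2m)
    ⟨u * mk4 0 0 C1 (D1 - 2 * C1 : ℤ), by
      have := Hur.mul_mem hu1 (int_mem 0 0 C1 (D1 - 2 * C1))
      rwa [Int.cast_zero] at this, s3⟩
  rw [← s2, s4, s1]

end

end Pool.Agent.Helper725_HQ.RR
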