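import Pool.Agent.Helper725_HQ.RGen
import Pool.Agent.Helper725_HQ.RRed2

/-! The values of a form at adapted generators, for the ramified torus. -/

set_option autoImplicit false
set_option linter.unusedVariables false
set_option linter.unusedSimpArgs false

namespace Pool.Agent.Helper725_HQ.RR

open Quaternion MvPolynomial

section
variable {n k : ℕ} {f : ℍ[ℚ] → MvPolynomial (Fin 3) ℂ}

open Classical in
/-- the value at a vector -/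
noncomputable def gv (n : ℕ) (f : ℍ[ℚ] → MvPolynomial (Fin 3) ℂ) (x : Fin 3 → ℤ) : ℂ :=
  if h : ∃ u, Ad n x u then vl (f h.choose) x else 0

theorem gv_eq (hf : Fr n k f) {x : Fin 3 → ℤ} {u : ℍ[ℚ]} (h : Ad n x u) :
    gv n f x = vl (f u) x := by
  have h' : ∃ u, Ad n x u := ⟨u, h⟩
  unfold gv
  rw [dif_pos h', ad_unique hf h h'.choose_spec]

theorem Ad_down {x : Fin 3 → ℤ} {u : ℍ[ℚ]} (h : Ad (n + 1) x u) : Ad n x u := by
  obtain ⟨hu, c, hc, z, hz, h1⟩ := h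
  refine ⟨hu, c, hc, ((3 : ℤ) : ℚ) • z, smul_Hur hz 3, ?_⟩
  rw [h1, smul_smul]
  congr 2
  push_cast
  rw [pow_succ]

theorem Ad_loc {x y : Fin 3 → ℤ} {u : ℍ[ℚ]} (h : Ad n x u)
    (hxy : ∀ i, ((3 ^ (n + 1) : ℕ) : ℤ) ∣ y i - x i) : Ad n y u := by
  obtain ⟨hu, c, hc, z, hz, h1⟩ := h
  choose w hw using hxy
  refine ⟨hu, c, hc, z + pq w * u, Hur.add_mem hz (Hur.mul_mem (pq_mem w) hu.1), ?_⟩
  have e : pq y = pq x + (3 ^ (n + 1) : ℚ) • pq w := by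
    have h2 : ∀ i, (y i : ℚ) = x i + 3 ^ (n + 1) * w i := by
      intro i
      have h3 : y i = x i + ((3 ^ (n + 1) : ℕ) : ℤ) * w i := by rw [← hw i]; ring
      rw [h3]; push_cast; ring
    unfold pq
    apply ext4
    · simp
    · simp; rw [h2]
    · simp; rw [h2]
    · simp; rw [h2]
  rw [e, add_mul, h1, smul_mul_assoc, smul_add, add_assoc]

theorem ctau_smul (s c : ℚ) : s • mk4 0 c c (-2 * c) = mk4 0 (s * c) (s * c) (-2 * (s * c)) := by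
  apply ext4 <;> simp
  ring

theorem Ad_scal {x : Fin 3 → ℤ} {u : ℍ[ℚ]} (h : Ad n x u) {s : ℤ} (hs : s % 3 = 1) :
    Ad n (fun i => s * x i) u := by
  obtain ⟨hu, c, hc, z, hz, h1⟩ := h
  refine ⟨hu, s * c, by rw [Int.mul_emod, hs, hc]; rfl, (s : ℚ) • z, smul_Hur hz s, ?_⟩
  rw [pq_smul, smul_mul_assoc, h1, smul_add, smul_comm, ← mul_smul_comm, ctau_smul]
  push_cast
  rfl

theorem GO_e : GO (mk4 0 1 (-1) 0) := by
  have := GO_int (a := 0) (b := 1) (c := -1) (d := 0) (by norm_num)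
  simpa using this

theorem Ad_neg {x : Fin 3 → ℤ} {u : ℍ[ℚ]} (h : Ad n x u) :
    Ad n (fun i => -x i) (u * mk4 0 1 (-1) 0) := by
  obtain ⟨hu, c, hc, z, hz, h1⟩ := h
  refine ⟨hu.mul GO_e, c, hc, -(z * mk4 0 1 (-1) 0), Hur.neg_mem (Hur.mul_mem hz GO_e.1), ?_⟩
  have e : pq (fun i => -x i) = -pq x := by
    unfold pq
    apply ext4 <;> simp
  have e2 : mk4 0 c c (-2 * c) * mk4 0 1 (-1) 0 =
      -(mk4 0 1 (-1) 0 * mk4 0 (c : ℚ) c (-2 * c)) := by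
    apply ext4
    · simp [re_mul, imI_mul, imJ_mul, imK_mul]
    · simp [re_mul, imI_mul, imJ_mul, imK_mul]
    · simp [re_mul, imI_mul, imJ_mul, imK_mul]
    · simp [re_mul, imI_mul, imJ_mul, imK_mul]; ring
  rw [e, neg_mul, ← mul_assoc, h1, add_mul, mul_assoc, e2, smul_mul_assoc, smul_neg, mul_neg,
    neg_add, neg_neg, mul_assoc]

theorem Ad_conj {x y : Fin 3 → ℤ} {u α : ℍ[ℚ]} (hα : GO α) {t : ℤ} (ht : t % 3 = 1)
    (hy : pq y = (t : ℚ) • (α⁻¹ * pq x * α)) (h : Ad n x u) : Ad n y (star α * u) := by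
  obtain ⟨hu, c, hc, z, hz, h1⟩ := h
  refine ⟨hα.star.mul hu, t * c, by rw [Int.mul_emod, ht, hc]; rfl, (t : ℚ) • (star α * z),
    smul_Hur (Hur.mul_mem hα.star.1 hz) t, ?_⟩
  have e1 : α⁻¹ * pq x * α * (star α * u) = star α * (pq x * u) := by
    rw [mul_assoc (α⁻¹ * pq x), ← mul_assoc α, self_mul_star, coe_mul_eq_smul, mul_smul_comm,
      ← star_inv hα.ne, mul_assoc, smul_mul_assoc]
  rw [hy, smul_mul_assoc, e1, h1, mul_add, mul_smul_comm, smul_add, smul_comm (t : ℚ), mul_assoc,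
    ← mul_smul_comm, ← mul_smul_comm, ctau_smul]
  push_cast
  rfl

theorem Ad_exists1 (n : ℕ) {x0 p r : ℤ} (hx : x0 % 3 = 1) : ∃ u, Ad n (XV x0 p r) u := by
  obtain ⟨h, hh⟩ : ∃ h : ℤ, 2 * h = 3 ^ (n + 1) + 1 := by
    have h1 : Odd ((3 : ℤ) ^ (n + 1)) := Odd.pow (by decide)
    obtain ⟨a, ha⟩ := h1
    exact ⟨a + 1, by rw [ha]; ring⟩
  obtain ⟨Y, hY⟩ : ∃ Y : ℤ, Y = 2 * x0 ^ 2 + 6 * x0 * (p - 2 * r) + 27 * (p ^ 2 + r ^ 2) := ⟨_, rfl⟩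
  have hm : (h * Y) % 3 = 1 := by
    have h1 : (3 : ℤ) ∣ 3 ^ (n + 1) := dvd_pow_self 3 (by omega)
    have h2 : h % 3 = 2 := by omega
    have h3 : Y % 3 = 2 := by
      have h4 : x0 ^ 2 % 3 = 1 := by rw [pow_two, Int.mul_emod, hx]; rfl
      have h5 : Y = 2 * x0 ^ 2 + 3 * (2 * x0 * (p - 2 * r) + 9 * (p ^ 2 + r ^ 2)) := by
        rw [hY]; ring
      omega
    rw [Int.mul_emod, h2, h3]; rfl
  obtain ⟨c, hc, e, he⟩ := sqrt_int (n + 1) hm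
  push_cast at he
  have he2 : 6 * c ^ 2 - 3 * Y = 3 ^ (n + 1) * (6 * e + 3 * Y) := by
    linear_combination 6 * he + 3 * Y * hh
  obtain ⟨e', he'⟩ : ∃ e' : ℤ, e' = 2 * e + Y := ⟨_, rfl⟩
  have heQ : 6 * (c : ℚ) ^ 2 - 3 * (2 * (x0 : ℚ) ^ 2 + 6 * x0 * (p - 2 * r) + 27 * (p ^ 2 + r ^ 2)) =
      3 ^ (n + 1) * (3 * e') := by
    have h1 : 6 * c ^ 2 - 3 * (2 * x0 ^ 2 + 6 * x0 * (p - 2 * r) + 27 * (p ^ 2 + r ^ 2)) =
      3 ^ (n + 1) * (3 * e') := by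
      rw [← hY, he2, he']; ring
    exact_mod_cast h1
  refine ⟨mk4 (2 * (x0 + c) + 3 * (p - 2 * r) : ℤ) (3 * (2 * p + r) : ℤ) (-3 * r : ℤ) (3 * p : ℤ),
    GO_int ?_, c, hc, mk4 0 (-e' : ℤ) (-e' : ℤ) (2 * e' : ℤ), ?_, ?_⟩
  · intro h
    have e1 : (2 * (x0 + c) + 3 * (p - 2 * r)) ^ 2 + (3 * (2 * p + r)) ^ 2 + (-3 * r) ^ 2 +
      (3 * p) ^ 2 = (2 * (x0 + c) + 3 * (p - 2 * r)) ^ 2 + 3 * (3 * ((2 * p + r) ^ 2 + r ^ 2 +
      p ^ 2)) := by ring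
    rw [e1] at h
    have h1 : (3 : ℤ) ∣ (2 * (x0 + c) + 3 * (p - 2 * r)) ^ 2 := by omega
    have h2 := Int.prime_three.dvd_of_dvd_pow h1
    omega
  · have := int_mem 0 (-e') (-e') (2 * e')
    simpa using this
  · have hx0 : ((XV x0 p r 0 : ℤ) : ℚ) = x0 := rfl
    have hx1 : ((XV x0 p r 1 : ℤ) : ℚ) = x0 + 9 * p := by
      show ((x0 + 9 * p : ℤ) : ℚ) = _
      push_cast; ring
    have hx2 : ((XV x0 p r 2 : ℤ) : ℚ) = -2 * x0 + 9 * r := by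
      show ((-2 * x0 + 9 * r : ℤ) : ℚ) = _
      push_cast; ring
    unfold pq
    rw [hx0, hx1, hx2]
    apply ext4
    · simp [re_mul]; ring
    · simp [imI_mul]
      linear_combination (-1 / 3 : ℚ) * heQ
    · simp [imJ_mul]
      linear_combination (-1 / 3 : ℚ) * heQ
    · simp [imK_mul]
      linear_combination (2 / 3 : ℚ) * heQ

theorem neg_neg_vec (x : Fin 3 → ℤ) : (fun i => -(fun i => -x i) i) = x := by
  funext i
  simp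

theorem Ad_exists (n : ℕ) {x : Fin 3 → ℤ} (hx : x ∈ XR) : ∃ u, Ad n x u := by
  obtain ⟨x0, p, r, hx0, rfl⟩ := XR_ex hx
  have h01 : x0 % 3 = 1 ∨ (-x0) % 3 = 1 := by omega
  rcases h01 with h | h
  · exact Ad_exists1 n h
  · obtain ⟨u, hu⟩ := Ad_exists1 n (p := -p) (r := -r) h
    refine ⟨u * mk4 0 1 (-1) 0, ?_⟩
    have h1 := Ad_neg hu
    have e : (fun i => -(XV (-x0) (-p) (-r) i)) = XV x0 p r := by
      funext i
      fin_cases i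
      · show - -x0 = x0
        ring
      · show -(-x0 + 9 * -p) = x0 + 9 * p
        ring
      · show -(-2 * -x0 + 9 * -r) = -2 * x0 + 9 * r
        ring
    rw [e] at h1
    exact h1

theorem gv_rot (hf : Fr n k f) {α : ℍ[ℚ]} (hα : GO α)
    (hfα : ∀ u, GO u → f (α * u) = lsub (rC α) (f u)) {x y : Fin 3 → ℤ}
    (hy : pq y = α⁻¹ * pq x * α) (hx : ∃ u, Ad n x u) : gv n f y = gv n f x := by
  obtain ⟨u, hu⟩ := hx
  have h1 := Ad_conj (t := 1) hα rfl (by rw [Int.cast_one, one_smul]; exact hy) hu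
  rw [gv_eq hf h1, gv_eq hf hu]
  obtain ⟨m, hm, hm3⟩ := hα.2
  have h2 := hfα (star α * u) (hα.star.mul hu.1)
  rw [← mul_assoc, self_mul_star, coe_mul_eq_smul, hm] at h2
  have h3 := hf.scal hu.1 (a := (m : ℤ)) (by intro h; exact hm3 (by exact_mod_cast h))
  rw [Int.cast_natCast] at h3
  rw [← h3, h2, ← evvl, ← evvl, ev_lsub hα.ne, hy]

theorem gv_scal (hf : Fr n k f) {x : Fin 3 → ℤ} (hx : ∃ u, Ad n x u) {s : ℤ} (hs : s % 3 = 1) :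
    gv n f (fun i => s * x i) = (s : ℂ) ^ k * gv n f x := by
  obtain ⟨u, hu⟩ := hx
  rw [gv_eq hf (Ad_scal hu hs), gv_eq hf hu]
  unfold vl
  rw [← eval_hom (hf.hom u)]
  congr 1
  apply congrArg
  funext i
  push_cast
  rfl

theorem gv_neg (hf : Fr n k f) {x : Fin 3 → ℤ} (hx : ∃ u, Ad n x u) :
    gv n f (fun i => -x i) = gv n f x := by
  obtain ⟨u, hu⟩ := hx
  rw [gv_eq hf (Ad_neg hu), gv_eq hf hu, hf.sgn u hu.1]
  unfold vl
  have h := eval_hom (hf.hom u) (-1) (fun i => ((x i : ℤ) : ℂ))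
  have e : (fun j => (-1 : ℂ) * ((x j : ℤ) : ℂ)) = fun i => ((-x i : ℤ) : ℂ) := by
    funext i; push_cast; ring
  rw [e] at h
  rw [smul_eval, h, ← mul_assoc, ← mul_pow]
  norm_num

theorem gv_loc (hf : Fr n k f) {x y : Fin 3 → ℤ} {u : ℍ[ℚ]} (hu : Ad n x u)
    (hxy : ∀ i, ((3 ^ (n + 1) : ℕ) : ℤ) ∣ y i - x i) : gv n f y = vl (f u) y :=
  gv_eq hf (Ad_loc hu hxy)

theorem Ad_act {x : Fin 3 → ℤ} {u : ℍ[ℚ]} (hu : Ad n x u) (v : Fin 3 → ℤ) :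
    Ad n (act v x) (star (qv v) * u) := by
  apply Ad_conj (GO_qv v) (t := 1 + 9 * (v 0 ^ 2 + v 1 ^ 2 + v 2 ^ 2)) (by omega) _ hu
  rw [pq_act, ← qv_norm, ← smul_mul_assoc, ← smul_mul_assoc, star_inv (qv_ne v)]

/-- one term of a Hecke operator -/
theorem gv_act (hf : Fr n k f) {x : Fin 3 → ℤ} {u : ℍ[ℚ]} (hu : Ad n x u) {v : Fin 3 → ℤ} {N : ℤ}
    (hN : 1 + 9 * (v 0 ^ 2 + v 1 ^ 2 + v 2 ^ 2) = N) (hN0 : N ≠ 0) :
    (N : ℂ) ^ k * vl (lsub (rC (qv v)) (f (star (qv v) * u))) x = gv n f (act v x) := by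
  rw [rot_lsub hN hN0 (hf.hom _) x, gv_eq hf (Ad_act hu v)]

open Classical in
/-- local polynomials -/
theorem gv_poly (hf : Fr n k f) :
    ∃ Q : (Fin 3 → ZMod (3 ^ (n + 1))) → MvPolynomial (Fin 3) ℂ,
    ∀ x, (∃ u, Ad n x u) → gv n f x = vl (Q (fun i => ((x i : ℤ) : ZMod (3 ^ (n + 1))))) x := by
  refine ⟨fun r => if h : ∃ u, ∃ x, Ad n x u ∧ r = fun i => ((x i : ℤ) : ZMod (3 ^ (n + 1))) then
    f h.choose else 0, ?_⟩
  rintro x ⟨u, hu⟩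
  have h : ∃ u, ∃ y, Ad n y u ∧ (fun i => ((x i : ℤ) : ZMod (3 ^ (n + 1)))) =
    fun i => ((y i : ℤ) : ZMod (3 ^ (n + 1))) := ⟨u, x, hu, rfl⟩
  simp only
  rw [dif_pos h]
  obtain ⟨y, hy, hxy⟩ := h.choose_spec
  apply gv_loc hf hy
  intro i
  have h1 := congrFun hxy i
  rw [ZMod.intCast_eq_intCast_iff_dvd_sub, ← neg_sub, dvd_neg] at h1
  exact h1

/-- a vector conjugate to a multiple of `i + j - 2 k` -/
theorem exists_vecu {u : ℍ[ℚ]} (hu : GO u) : ∃ y : Fin 3 → ℤ, Ad n y u ∧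
    (y 0 ^ 2 + y 1 ^ 2 + y 2 ^ 2) % 9 = 6 := by
  obtain ⟨hu1, m, hm, hm3⟩ := hu
  have h1 : u * mk4 0 1 1 (-2) * star u ∈ Hur :=
    Hur.mul_mem (Hur.mul_mem hu1 tau_mem) (star_mem hu1)
  have h2 : (u * mk4 0 1 1 (-2) * star u).re = 0 := by
    simp [re_mul, imI_mul, imJ_mul, imK_mul]; ring
  obtain ⟨a, b, c, h3⟩ := pure_int h1 h2
  have h4 : (a ^ 2 + b ^ 2 + c ^ 2 : ℤ) = 6 * (m : ℤ) ^ 2 := by
    have h5 := congrArg normSq h3
    rw [map_mul, map_mul, normSq_star, hm] at h5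
    rw [normSq_def', normSq_def'] at h5
    simp at h5
    have h6 : ((a ^ 2 + b ^ 2 + c ^ 2 : ℤ) : ℚ) = ((6 * (m : ℤ) ^ 2 : ℤ) : ℚ) := by
      push_cast
      rw [← h5]; ring
    exact_mod_cast h6
  have hmm : (m : ℤ) % 3 = 1 ∨ (m : ℤ) % 3 = 2 := by omega
  have hm2 : ((m : ℤ) * m) % 3 = 1 := by
    rcases hmm with h | h <;> simp [Int.mul_emod, h]
  refine ⟨![m * a, m * b, m * c], ⟨⟨hu1, m, hm, hm3⟩, m * m, hm2, 0, Hur.zero_mem, ?_⟩, ?_⟩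
  · have e : pq ![(m : ℤ) * a, m * b, m * c] = (m : ℚ) • mk4 0 a b c := by
      unfold pq
      apply ext4 <;> simp
    rw [e, ← h3, smul_mul_assoc, mul_assoc, star_mul_self, hm, ← coe_commutes,
      coe_mul_eq_smul, smul_smul, smul_zero, add_zero, ← mul_smul_comm]
    congr 1
    apply ext4 <;> simp
    ring
  · show ((m : ℤ) * a) ^ 2 + (m * b) ^ 2 + (m * c) ^ 2 ≡ 6 [ZMOD 9]
    have e : ((m : ℤ) * a) ^ 2 + (m * b) ^ 2 + (m * c) ^ 2 = 6 * ((m * m) * (m * m)) := by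
      rw [show ((m : ℤ) * a) ^ 2 + (m * b) ^ 2 + (m * c) ^ 2 = m ^ 2 * (a ^ 2 + b ^ 2 + c ^ 2) by ring,
        h4]
      ring
    rw [e]
    have h5 : ((m : ℤ) * m) * (m * m) % 3 = 1 := by rw [Int.mul_emod, hm2]; rfl
    show 6 * (((m : ℤ) * m) * (m * m)) % 9 = 6 % 9
    omega

end

end Pool.Agent.Helper725_HQ.RR
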