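import Pool.Agent.Helper725_HQ.RDisc

/-! Eigenfunctions on the disc of the ramified torus are constant. -/

set_option autoImplicit false
set_option linter.unusedVariables false
set_option linter.unusedSimpArgs false

namespace Pool.Agent.Helper725_HQ.RR

open Quaternion

section
variable {N : ℕ} {κ : Type} [Field κ]

theorem kap_inv' (a b c : Zn N) : rho κ (kp (im a b c)) * rho κ (kp (im (-a) (-b) (-c))) = 1 := by
  rw [← map_mul]
  obtain ⟨s, hs'⟩ := unit_three (3 * (3 * a ^ 2 + 2 * b ^ 2 + 6 * c ^ 2))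
  apply rho_Sc _ s
  rw [Units.val_mul, kap_val, kap_val, hs']
  apply QuaternionAlgebra.ext
  · simp; ring
  · simp; ring
  · simp; ring
  · simp; ring

theorem pair_al {R : Type*} [Ring R] {r r' : R} (h : r * r' = 1) :
    (r - 1) + (r' - 1) = 0 - ((r - 1) * (r' - 1)) := by
  have : (r - 1) * (r' - 1) = r * r' - 1 - (r - 1) - (r' - 1) := by noncomm_ring
  rw [this, h]; abel

/-- eigenfunctions on the disc are constant -/
theorem const_R (h3 : (3 : κ) = 0) {φ : Fn N κ} (h : Gd φ)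
    (hn : ∀ x, φ x = φ (-(aln N x))) (he : ∀ x, φ x = φ (-(ale N x)))
    {c5 c7 : κ}
    (h5 : ∀ x, Dc x → rho κ (p1 N) φ x + rho κ (p2 N) φ x + rho κ (p3 N) φ x +
      (rho κ (p4 N) φ x + rho κ (p5 N) φ x + rho κ (p6 N) φ x) = c5 * φ x)
    (h7 : ∀ x, Dc x → rho κ (q1 N) φ x + rho κ (q2 N) φ x + rho κ (q3 N) φ x +
      (rho κ (q4 N) φ x + rho κ (q5 N) φ x + rho κ (q6 N) φ x) +
      (rho κ (a1 N) φ x + rho κ (a2 N) φ x) = c7 * φ x) {x : Qn N} (hx : Dc x) :
    φ x = φ (kk N) := by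
  have h3R : (3 : Module.End κ (Fn N κ)) = 0 := by
    have : (3 : Module.End κ (Fn N κ)) = algebraMap κ _ 3 := by rw [map_ofNat]
    rw [this, h3, map_zero]
  have hs : Sc (rho (N := N) κ) := rho_Sc
  have two_z : ∀ x : κ, x + x = 0 → x = 0 := by
    intro x hx
    linear_combination x * h3 - hx
  have nod : ∀ {β α γ : ℕ} {p : (Qn N)ˣ}, Dec β α γ p → ∀ x, ¬ Dc x → rho κ p φ x = 0 := by
    intro β α γ p hp x hx
    rw [rho_apply]
    apply h.2
    intro h'
    exact hx (Dc_dec' hp h')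
  have noa : ∀ g ∈ Kz N 1, ∀ x, ¬ Dc x → rho κ g φ x = 0 := fun g hg x hx =>
    (Gd_rho h hg).2 x hx
  have ha1 : a1 N ∈ Kz N 1 := by rw [a1_eq]; exact (kap_rel _).mem
  have ha2 : a2 N ∈ Kz N 1 := by rw [a2_eq]; exact (kap_rel _).mem
  have E5 : (rho κ (p1 N) + rho κ (p2 N) + rho κ (p3 N) + (rho κ (p4 N) + rho κ (p5 N) +
      rho κ (p6 N))) φ = c5 • φ := by
    funext x
    show rho κ (p1 N) φ x + rho κ (p2 N) φ x + rho κ (p3 N) φ x +
      (rho κ (p4 N) φ x + rho κ (p5 N) φ x + rho κ (p6 N) φ x) = c5 * φ x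
    by_cases hx : Dc x
    · exact h5 x hx
    · rw [nod dp1 x hx, nod dp2 x hx, nod dp3 x hx, nod dp4 x hx, nod dp5 x hx, nod dp6 x hx,
        h.2 x hx]
      ring
  have E7 : (rho κ (q1 N) + rho κ (q2 N) + rho κ (q3 N) + (rho κ (q4 N) + rho κ (q5 N) +
      rho κ (q6 N)) + (rho κ (a1 N) + rho κ (a2 N))) φ = c7 • φ := by
    funext x
    show rho κ (q1 N) φ x + rho κ (q2 N) φ x + rho κ (q3 N) φ x +
      (rho κ (q4 N) φ x + rho κ (q5 N) φ x + rho κ (q6 N) φ x) +
      (rho κ (a1 N) φ x + rho κ (a2 N) φ x) = c7 * φ x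
    by_cases hx : Dc x
    · exact h7 x hx
    · rw [nod dq1 x hx, nod dq2 x hx, nod dq3 x hx, nod dq4 x hx, nod dq5 x hx, nod dq6 x hx,
        noa _ ha1 x hx, noa _ ha2 x hx, h.2 x hx]
      ring
  rw [a1_eq, a2_eq] at E7
  -- images under the symmetries
  have kn : -(aln N (kk N)) = kk N := by
    show -(⟨0, 0, -0, -1⟩ : Qn N) = ⟨0, 0, 0, 1⟩
    apply QuaternionAlgebra.ext <;> simp
  have ke : -(ale N (kk N)) = kk N := by
    show -(⟨0, -0, 0, -1⟩ : Qn N) = ⟨0, 0, 0, 1⟩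
    apply QuaternionAlgebra.ext <;> simp
  have na : Units.map (aln N) (kp (im 1 0 0)) = kp (im 1 0 0) := by
    apply Units.ext
    show aln N (1 + (3 : Zn N) • im 1 0 0) = 1 + (3 : Zn N) • im 1 0 0
    show (⟨_, _, _, _⟩ : Qn N) = _
    apply QuaternionAlgebra.ext <;> simp
  have nh : Units.map (aln N) (kp (im 0 1 0)) = kp (im (-0) (-1) (-0)) := by
    apply Units.ext
    show aln N (1 + (3 : Zn N) • im 0 1 0) = 1 + (3 : Zn N) • im (-0) (-1) (-0)
    show (⟨_, _, _, _⟩ : Qn N) = _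
    apply QuaternionAlgebra.ext <;> simp
  have ea : Units.map (ale N) (kp (im 1 0 0)) = kp (im (-1) (-0) (-0)) := by
    apply Units.ext
    show ale N (1 + (3 : Zn N) • im 1 0 0) = 1 + (3 : Zn N) • im (-1) (-0) (-0)
    show (⟨_, _, _, _⟩ : Qn N) = _
    apply QuaternionAlgebra.ext <;> simp
  have step : ∀ w : ℕ, 1 ≤ w → (∀ T ∈ J κ (rho (N := N) κ) (w + 1), T φ = 0) →
      ∀ T ∈ J κ (rho (N := N) κ) w, T φ = 0 := by
    intro w hw hnext
    obtain ⟨Λ, hΛ⟩ : ∃ Λ : Module.End κ (Fn N κ) →ₗ[κ] κ, ∀ T, Λ T = T φ (kk N) :=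
      ⟨⟨⟨fun T => T φ (kk N), fun _ _ => rfl⟩, fun _ _ => rfl⟩, fun _ => rfl⟩
    have P1 : ∀ T ∈ J κ (rho (N := N) κ) (w + 1), Λ T = 0 := by
      intro T hT
      rw [hΛ, hnext T hT]; rfl
    have fixb : ∀ (t : (Qn N)ˣ), kk N * (t : Qn N) = (t : Qn N) * kk N → ∀ T, Λ (rho κ t * T) =
        Λ T := by
      intro t ht T
      rw [hΛ, hΛ]
      show rho κ t (T φ) (kk N) = _
      rw [rho_apply, mul_assoc, ht, ← mul_assoc, Units.inv_mul, one_mul]
    have P2 : ∀ T, Λ (gB (rho κ) * T) = 0 := by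
      intro T
      unfold gB
      rw [sub_mul, one_mul, map_sub, fixb _ _ T, sub_self]
      rw [kap_val, mul_add, add_mul, mul_one, one_mul, mul_smul_comm, smul_mul_assoc]
      rfl
    have Pt : ∀ T, Λ (rho κ (tt N) * T) = Λ T := fixb _ tt_comm
    have z := stage (ρ := rho (N := N) κ) (Λ := Λ) hs h3R h3 hw P1 P2 Pt dp1 dp2 dp3 dp4 dp5 dp6
      dq1 dq2 dq3 dq4 dq5 dq6 (a' := kp (im (-1) (-0) (-0))) (kap_inv' 1 0 0)
      ⟨_, kap_rel _, by simp⟩ (c5 := c5) (c7 := c7)
      (by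
        intro T
        rw [hΛ, hΛ]
        show T ((rho κ (p1 N) + rho κ (p2 N) + rho κ (p3 N) + (rho κ (p4 N) + rho κ (p5 N) +
          rho κ (p6 N))) φ) (kk N) = _
        rw [E5, map_smul]; rfl)
      (by
        intro T
        rw [hΛ, hΛ]
        have e : T ((rho κ (q1 N) + rho κ (q2 N) + rho κ (q3 N) + (rho κ (q4 N) + rho κ (q5 N) +
          rho κ (q6 N)) + (rho κ (kp (im 1 0 0)) + rho κ (kp (im (-1) (-0) (-0)))) :
            Module.End κ (Fn N κ)) φ) (kk N) =
          c7 * T φ (kk N) := by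
          have e' : (kp (im (-1) (-0) (-0)) : (Qn N)ˣ) = kp (im (-1) 0 0) := by
            rw [neg_zero]
          rw [e', E7, map_smul]; rfl
        exact e)
      (by
        intro j hj
        have r0 : Rl (aln N) ((gA (rho κ) ^ j) φ) ((gA (rho κ) ^ j) φ) := by
          clear hj
          induction j with
          | zero => exact hn
          | succ j ih =>
            rw [pow_succ']
            show Rl (aln N) (rho κ (kp (im 1 0 0)) ((gA (rho κ) ^ j) φ) - (gA (rho κ) ^ j) φ)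
              (rho κ (kp (im 1 0 0)) ((gA (rho κ) ^ j) φ) - (gA (rho κ) ^ j) φ)
            have h1 := Rl_rho ih (kp (im 1 0 0))
            rw [na] at h1
            exact Rl_sub h1 ih
        have h1 := Rl_rho r0 (kp (im 0 1 0))
        rw [nh] at h1
        have h2 := Rl_sub h1 r0 (kk N)
        rw [kn] at h2
        have h4 : Λ (gH (rho κ) * gA (rho κ) ^ j) =
            Λ ((rho κ (kp (im (-0) (-1) (-0))) - 1) * gA (rho κ) ^ j) := by
          rw [hΛ, hΛ]; exact h2
        have h5 : Λ (gH (rho κ) * gA (rho κ) ^ j) +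
            Λ ((rho κ (kp (im (-0) (-1) (-0))) - 1) * gA (rho κ) ^ j) = 0 := by
          rw [← map_add, ← add_mul]
          have e : gH (rho κ) + (rho κ (kp (im (-0) (-1) (-0))) - 1) =
              0 - (gH (rho κ) * (rho κ (kp (im (-0) (-1) (-0))) - 1)) :=
            pair_al (kap_inv' (κ := κ) (0 : Zn N) 1 0)
          rw [e, sub_mul, zero_mul, map_sub, map_zero,
            P1 _ (J_mul' (by omega) (J_mul gH_mem (J_two (kap_rel _).mem))
            (J_pow gA_mem j)), sub_zero]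
        rw [← h4] at h5
        exact two_z _ h5)
      (by
        intro hw3
        have h1 := Rl_rho (al := ale N) he (kp (im 1 0 0))
        rw [ea] at h1
        have h2 := Rl_sub h1 he (kk N)
        rw [ke] at h2
        have h4 : Λ (gA (rho κ)) = Λ (rho κ (kp (im (-1) (-0) (-0))) - 1) := by
          rw [hΛ, hΛ]; exact h2
        have h5 : Λ (gA (rho κ)) + Λ (rho κ (kp (im (-1) (-0) (-0))) - 1) = 0 := by
          rw [← map_add]
          have e : gA (rho κ) + (rho κ (kp (im (-1) (-0) (-0))) - 1) =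
              0 - (gA (rho κ) * (rho κ (kp (im (-1) (-0) (-0))) - 1)) :=
            pair_al (kap_inv' (κ := κ) (1 : Zn N) 0 0)
          rw [e, map_sub, map_zero,
            P1 _ (J_mul' (by omega) gA_mem (J_two (kap_rel _).mem)), sub_zero]
        rw [← h4] at h5
        exact two_z _ h5)
    intro T hT
    funext x
    by_cases hx : Dc x
    · obtain ⟨g, hg, s, rfl⟩ := hx
      rw [(Gd_J h hT).1]
      have h1 := z _ (J_mul' (c := w) (by omega) (J_rho hg) hT)
      rw [hΛ] at h1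
      exact h1
    · exact (Gd_J h hT).2 x hx
  have desc : ∀ m : ℕ, (∀ T ∈ J κ (rho (N := N) κ) (m + 1), T φ = 0) →
      ∀ T ∈ J κ (rho (N := N) κ) 1, T φ = 0 := by
    intro m
    induction m with
    | zero => intro h1; exact h1
    | succ m ih =>
      intro h1
      exact ih (step (m + 1) (by omega) h1)
  obtain ⟨D, hD⟩ := J_nil (N := N) h3
  have z1 := desc D (by
    intro T hT
    rw [hD T (J_anti (by omega) hT)]; rfl)
  obtain ⟨g, hg, s, rfl⟩ := hx
  rw [h.1]
  have h1 := z1 _ (J_anti (b := 2) (by norm_num) (J_two (ρ := rho (N := N) κ) hg))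
  have h2 : rho κ g φ (kk N) - φ (kk N) = 0 := congrFun h1 (kk N)
  rw [sub_eq_zero] at h2
  exact h2

end

end Pool.Agent.Helper725_HQ.RR
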