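import Pool.Agent.Helper725_HQ.RMain

/-! Eigenfunctions on the disc of the ramified torus: a variant with weaker symmetry. -/

set_option autoImplicit false
set_option linter.unusedVariables false
set_option linter.unusedSimpArgs false

namespace Pool.Agent.Helper725_HQ.RR

open Quaternion

section
variable {N : ℕ} {κ : Type*} [Field κ] {R : Type*} [Ring R] [Algebra κ R]
  {ρ : (Qn N)ˣ →* R} {w : ℕ} {Λ : R →ₗ[κ] κ}

/-- the eigenvalues -/
theorem stage0 (hs : Sc ρ) (h3 : (3 : R) = 0) (h3k : (3 : κ) = 0)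
    (P1 : ∀ T ∈ J κ ρ (w + 1), Λ T = 0)
    (P2 : ∀ T, Λ (gB ρ * T) = 0) (Pt : ∀ T, Λ (ρ (tt N) * T) = Λ T)
    {p1 p2 p3 p4 p5 p6 q1 q2 q3 q4 q5 q6 a' : (Qn N)ˣ}
    (d1 : Dec 1 2 1 p1) (d2 : Dec 1 0 0 p2) (d3 : Dec 1 1 2 p3) (d4 : Dec 2 1 1 p4)
    (d5 : Dec 2 2 2 p5) (d6 : Dec 2 0 0 p6)
    (f1 : Dec 1 2 1 q1) (f2 : Dec 1 0 0 q2) (f3 : Dec 1 1 2 q3) (f4 : Dec 2 1 1 q4)
    (f5 : Dec 2 2 2 q5) (f6 : Dec 2 0 0 q6) (ha' : ρ (kp (im 1 0 0)) * ρ a' = 1) (ha'' : NE 1 a')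
    {c5 c7 : κ} (E5 : ∀ T, Λ (T * (ρ p1 + ρ p2 + ρ p3 + (ρ p4 + ρ p5 + ρ p6))) = c5 * Λ T)
    (E7 : ∀ T, Λ (T * (ρ q1 + ρ q2 + ρ q3 + (ρ q4 + ρ q5 + ρ q6) +
      (ρ (kp (im 1 0 0)) + ρ a'))) = c7 * Λ T)
    {T0 : R} (hT0 : T0 ∈ J κ ρ w) (hT0n : Λ T0 ≠ 0) : c5 = 0 ∧ c7 = 2 := by
  have hr0 : ∀ v, w ≤ v + 5 → ∀ r ∈ Kz N 2, ∀ Y ∈ J κ ρ v, Λ (Y * (ρ r - 1)) = 0 := by
    intro v hv r hr Y hY
    exact P1 _ (J_mul' (by omega) hY (Y_six hs h3 hr))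
  have mH : gH ρ ∈ J κ ρ 2 := gH_mem
  have mA : gA ρ ∈ J κ ρ 3 := gA_mem
  have ma' : ρ a' - 1 ∈ J κ ρ 3 := J_three ha''
  have hgm : ∀ α γ : ℕ, kp (im 0 1 0) ^ α * kp (im 1 0 0) ^ γ ∈ Kz N 1 := fun α γ =>
    Subgroup.mul_mem _ (Subgroup.pow_mem _ (kap_rel _).mem _)
      (Subgroup.pow_mem _ (kap_rel _).mem _)
  -- the eigenvalues
  have key0 : ∀ β α γ p, Dec β α γ p → Λ (T0 * ρ p) = Λ T0 := by
    intro β α γ p hp
    rw [drop hs h3 P1 P2 Pt (v := w) (by omega) (hr0 w (by omega)) hp hT0]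
    obtain ⟨g, hge⟩ : ∃ g, g = kp (im 0 1 0) ^ α * kp (im 1 0 0) ^ γ := ⟨_, rfl⟩
    have hg : g ∈ Kz N 1 := by rw [hge]; exact hgm α γ
    rw [← hge]
    have h1 := cjn hs h3 β hT0
    have h2 := cjm hs h3 β hT0
    have e : (cj ρ (tt N))^[β] T0 * ρ g = T0 + ((cj ρ (tt N))^[β] T0 - T0) +
        (cj ρ (tt N))^[β] T0 * (ρ g - 1) := by noncomm_ring
    rw [e, map_add, map_add, P1 _ h1, P1 _ (J_mul' (by omega) h2 (J_two hg)), add_zero, add_zero]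
  have hc5 : c5 = 0 := by
    have h := E5 T0
    simp only [mul_add, map_add] at h
    rw [key0 _ _ _ _ d1, key0 _ _ _ _ d2, key0 _ _ _ _ d3, key0 _ _ _ _ d4, key0 _ _ _ _ d5,
      key0 _ _ _ _ d6] at h
    have h1 : c5 * Λ T0 = 0 := by
      rw [← h]
      linear_combination 2 * Λ T0 * h3k
    exact (mul_eq_zero.1 h1).resolve_right hT0n
  have haT : Λ (T0 * ρ (kp (im 1 0 0))) = Λ T0 := by
    have e : T0 * ρ (kp (im 1 0 0)) = T0 + T0 * gA ρ := by unfold gA; noncomm_ring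
    rw [e, map_add, P1 _ (J_mul' (by omega) hT0 mA), add_zero]
  have haT' : Λ (T0 * ρ a') = Λ T0 := by
    have e : T0 * ρ a' = T0 + T0 * (ρ a' - 1) := by noncomm_ring
    rw [e, map_add, P1 _ (J_mul' (by omega) hT0 ma'), add_zero]
  have hc7 : c7 = 2 := by
    have h := E7 T0
    simp only [mul_add, map_add] at h
    rw [key0 _ _ _ _ f1, key0 _ _ _ _ f2, key0 _ _ _ _ f3, key0 _ _ _ _ f4, key0 _ _ _ _ f5,
      key0 _ _ _ _ f6, haT, haT'] at h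
    have h1 : (c7 - 2) * Λ T0 = 0 := by
      linear_combination (-1 : κ) * h + 2 * Λ T0 * h3k
    have h2 := (mul_eq_zero.1 h1).resolve_right hT0n
    rwa [sub_eq_zero] at h2
  exact ⟨hc5, hc7⟩

end

section
variable {N : ℕ} {κ : Type} [Field κ]

/-- eigenfunctions on the disc are constant -/
theorem const_Rg (h3 : (3 : κ) = 0) {φ : Fn N κ} (h : Gd φ)
    (hn : ∀ x, φ x = φ (-(aln N x))) (he : rho κ (kp (im 1 0 0)) φ (kk N) = φ (kk N))
    {c5 c7 : κ}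
    (h5 : ∀ x, Dc x → rho κ (p1 N) φ x + rho κ (p2 N) φ x + rho κ (p3 N) φ x +
      (rho κ (p4 N) φ x + rho κ (p5 N) φ x + rho κ (p6 N) φ x) = c5 * φ x)
    (h7 : ∀ x, Dc x → rho κ (q1 N) φ x + rho κ (q2 N) φ x + rho κ (q3 N) φ x +
      (rho κ (q4 N) φ x + rho κ (q5 N) φ x + rho κ (q6 N) φ x) +
      (rho κ (a1 N) φ x + rho κ (a2 N) φ x) = c7 * φ x) {x : Qn N} (hx : Dc x) :
    φ x = φ (kk N) := by
  have h3R : (3 : Module.End κ (Fn N κ)) = 0 := by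
    have : (3 : Module.End κ (Fn N κ)) = algebraMap κ _ 3 := by rw [map_ofNat]
    rw [this, h3, map_zero]
  have hs : Sc (rho (N := N) κ) := rho_Sc
  have two_z : ∀ x : κ, x + x = 0 → x = 0 := by
    intro x hx
    linear_combination x * h3 - hx
  have nod : ∀ {β α γ : ℕ} {p : (Qn N)ˣ}, Dec β α γ p → ∀ x, ¬ Dc x → rho κ p φ x = 0 := by
    intro β α γ p hp x hx
    rw [rho_apply]
    apply h.2
    intro h'
    exact hx (Dc_dec' hp h')
  have noa : ∀ g ∈ Kz N 1, ∀ x, ¬ Dc x → rho κ g φ x = 0 := fun g hg x hx =>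
    (Gd_rho h hg).2 x hx
  have ha1 : a1 N ∈ Kz N 1 := by rw [a1_eq]; exact (kap_rel _).mem
  have ha2 : a2 N ∈ Kz N 1 := by rw [a2_eq]; exact (kap_rel _).mem
  have E5 : (rho κ (p1 N) + rho κ (p2 N) + rho κ (p3 N) + (rho κ (p4 N) + rho κ (p5 N) +
      rho κ (p6 N))) φ = c5 • φ := by
    funext x
    show rho κ (p1 N) φ x + rho κ (p2 N) φ x + rho κ (p3 N) φ x +
      (rho κ (p4 N) φ x + rho κ (p5 N) φ x + rho κ (p6 N) φ x) = c5 * φ x
    by_cases hx : Dc x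
    · exact h5 x hx
    · rw [nod dp1 x hx, nod dp2 x hx, nod dp3 x hx, nod dp4 x hx, nod dp5 x hx, nod dp6 x hx,
        h.2 x hx]
      ring
  have E7 : (rho κ (q1 N) + rho κ (q2 N) + rho κ (q3 N) + (rho κ (q4 N) + rho κ (q5 N) +
      rho κ (q6 N)) + (rho κ (a1 N) + rho κ (a2 N))) φ = c7 • φ := by
    funext x
    show rho κ (q1 N) φ x + rho κ (q2 N) φ x + rho κ (q3 N) φ x +
      (rho κ (q4 N) φ x + rho κ (q5 N) φ x + rho κ (q6 N) φ x) +
      (rho κ (a1 N) φ x + rho κ (a2 N) φ x) = c7 * φ x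
    by_cases hx : Dc x
    · exact h7 x hx
    · rw [nod dq1 x hx, nod dq2 x hx, nod dq3 x hx, nod dq4 x hx, nod dq5 x hx, nod dq6 x hx,
        noa _ ha1 x hx, noa _ ha2 x hx, h.2 x hx]
      ring
  rw [a1_eq, a2_eq] at E7
  -- images under the symmetries
  have kn : -(aln N (kk N)) = kk N := by
    show -(⟨0, 0, -0, -1⟩ : Qn N) = ⟨0, 0, 0, 1⟩
    apply QuaternionAlgebra.ext <;> simp
  have na : Units.map (aln N) (kp (im 1 0 0)) = kp (im 1 0 0) := by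
    apply Units.ext
    show aln N (1 + (3 : Zn N) • im 1 0 0) = 1 + (3 : Zn N) • im 1 0 0
    show (⟨_, _, _, _⟩ : Qn N) = _
    apply QuaternionAlgebra.ext <;> simp
  have nh : Units.map (aln N) (kp (im 0 1 0)) = kp (im (-0) (-1) (-0)) := by
    apply Units.ext
    show aln N (1 + (3 : Zn N) • im 0 1 0) = 1 + (3 : Zn N) • im (-0) (-1) (-0)
    show (⟨_, _, _, _⟩ : Qn N) = _
    apply QuaternionAlgebra.ext <;> simp
  have step : ∀ w : ℕ, 1 ≤ w → (∀ T ∈ J κ (rho (N := N) κ) (w + 1), T φ = 0) →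
      ∀ T ∈ J κ (rho (N := N) κ) w, T φ = 0 := by
    intro w hw hnext
    obtain ⟨Λ, hΛ⟩ : ∃ Λ : Module.End κ (Fn N κ) →ₗ[κ] κ, ∀ T, Λ T = T φ (kk N) :=
      ⟨⟨⟨fun T => T φ (kk N), fun _ _ => rfl⟩, fun _ _ => rfl⟩, fun _ => rfl⟩
    have P1 : ∀ T ∈ J κ (rho (N := N) κ) (w + 1), Λ T = 0 := by
      intro T hT
      rw [hΛ, hnext T hT]; rfl
    have fixb : ∀ (t : (Qn N)ˣ), kk N * (t : Qn N) = (t : Qn N) * kk N → ∀ T, Λ (rho κ t * T) =
        Λ T := by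
      intro t ht T
      rw [hΛ, hΛ]
      show rho κ t (T φ) (kk N) = _
      rw [rho_apply, mul_assoc, ht, ← mul_assoc, Units.inv_mul, one_mul]
    have P2 : ∀ T, Λ (gB (rho κ) * T) = 0 := by
      intro T
      unfold gB
      rw [sub_mul, one_mul, map_sub, fixb _ _ T, sub_self]
      rw [kap_val, mul_add, add_mul, mul_one, one_mul, mul_smul_comm, smul_mul_assoc]
      rfl
    have Pt : ∀ T, Λ (rho κ (tt N) * T) = Λ T := fixb _ tt_comm
    have z := stage (ρ := rho (N := N) κ) (Λ := Λ) hs h3R h3 hw P1 P2 Pt dp1 dp2 dp3 dp4 dp5 dp6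
      dq1 dq2 dq3 dq4 dq5 dq6 (a' := kp (im (-1) (-0) (-0))) (kap_inv' 1 0 0)
      ⟨_, kap_rel _, by simp⟩ (c5 := c5) (c7 := c7)
      (by
        intro T
        rw [hΛ, hΛ]
        show T ((rho κ (p1 N) + rho κ (p2 N) + rho κ (p3 N) + (rho κ (p4 N) + rho κ (p5 N) +
          rho κ (p6 N))) φ) (kk N) = _
        rw [E5, map_smul]; rfl)
      (by
        intro T
        rw [hΛ, hΛ]
        have e : T ((rho κ (q1 N) + rho κ (q2 N) + rho κ (q3 N) + (rho κ (q4 N) + rho κ (q5 N) +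
          rho κ (q6 N)) + (rho κ (kp (im 1 0 0)) + rho κ (kp (im (-1) (-0) (-0)))) :
            Module.End κ (Fn N κ)) φ) (kk N) =
          c7 * T φ (kk N) := by
          have e' : (kp (im (-1) (-0) (-0)) : (Qn N)ˣ) = kp (im (-1) 0 0) := by
            rw [neg_zero]
          rw [e', E7, map_smul]; rfl
        exact e)
      (by
        intro j hj
        have r0 : Rl (aln N) ((gA (rho κ) ^ j) φ) ((gA (rho κ) ^ j) φ) := by
          clear hj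
          induction j with
          | zero => exact hn
          | succ j ih =>
            rw [pow_succ']
            show Rl (aln N) (rho κ (kp (im 1 0 0)) ((gA (rho κ) ^ j) φ) - (gA (rho κ) ^ j) φ)
              (rho κ (kp (im 1 0 0)) ((gA (rho κ) ^ j) φ) - (gA (rho κ) ^ j) φ)
            have h1 := Rl_rho ih (kp (im 1 0 0))
            rw [na] at h1
            exact Rl_sub h1 ih
        have h1 := Rl_rho r0 (kp (im 0 1 0))
        rw [nh] at h1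
        have h2 := Rl_sub h1 r0 (kk N)
        rw [kn] at h2
        have h4 : Λ (gH (rho κ) * gA (rho κ) ^ j) =
            Λ ((rho κ (kp (im (-0) (-1) (-0))) - 1) * gA (rho κ) ^ j) := by
          rw [hΛ, hΛ]; exact h2
        have h5 : Λ (gH (rho κ) * gA (rho κ) ^ j) +
            Λ ((rho κ (kp (im (-0) (-1) (-0))) - 1) * gA (rho κ) ^ j) = 0 := by
          rw [← map_add, ← add_mul]
          have e : gH (rho κ) + (rho κ (kp (im (-0) (-1) (-0))) - 1) =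
              0 - (gH (rho κ) * (rho κ (kp (im (-0) (-1) (-0))) - 1)) :=
            pair_al (kap_inv' (κ := κ) (0 : Zn N) 1 0)
          rw [e, sub_mul, zero_mul, map_sub, map_zero,
            P1 _ (J_mul' (by omega) (J_mul gH_mem (J_two (kap_rel _).mem))
            (J_pow gA_mem j)), sub_zero]
        rw [← h4] at h5
        exact two_z _ h5)
      (by
        intro hw3
        rw [hΛ]
        show rho κ (kp (im 1 0 0)) φ (kk N) - φ (kk N) = 0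
        rw [he, sub_self])
    intro T hT
    funext x
    by_cases hx : Dc x
    · obtain ⟨g, hg, s, rfl⟩ := hx
      rw [(Gd_J h hT).1]
      have h1 := z _ (J_mul' (c := w) (by omega) (J_rho hg) hT)
      rw [hΛ] at h1
      exact h1
    · exact (Gd_J h hT).2 x hx
  have desc : ∀ m : ℕ, (∀ T ∈ J κ (rho (N := N) κ) (m + 1), T φ = 0) →
      ∀ T ∈ J κ (rho (N := N) κ) 1, T φ = 0 := by
    intro m
    induction m with
    | zero => intro h1; exact h1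
    | succ m ih =>
      intro h1
      exact ih (step (m + 1) (by omega) h1)
  obtain ⟨D, hD⟩ := J_nil (N := N) h3
  have z1 := desc D (by
    intro T hT
    rw [hD T (J_anti (by omega) hT)]; rfl)
  obtain ⟨g, hg, s, rfl⟩ := hx
  rw [h.1]
  have h1 := z1 _ (J_anti (b := 2) (by norm_num) (J_two (ρ := rho (N := N) κ) hg))
  have h2 : rho κ g φ (kk N) - φ (kk N) = 0 := congrFun h1 (kk N)
  rw [sub_eq_zero] at h2
  exact h2


/-- the eigenvalues of a nonzero eigenfunction on the disc -/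
theorem eig_vals (h3 : (3 : κ) = 0) {φ : Fn N κ} (h : Gd φ) {c5 c7 : κ}
    (h5 : ∀ x, Dc x → rho κ (p1 N) φ x + rho κ (p2 N) φ x + rho κ (p3 N) φ x +
      (rho κ (p4 N) φ x + rho κ (p5 N) φ x + rho κ (p6 N) φ x) = c5 * φ x)
    (h7 : ∀ x, Dc x → rho κ (q1 N) φ x + rho κ (q2 N) φ x + rho κ (q3 N) φ x +
      (rho κ (q4 N) φ x + rho κ (q5 N) φ x + rho κ (q6 N) φ x) +
      (rho κ (a1 N) φ x + rho κ (a2 N) φ x) = c7 * φ x) {x : Qn N} (hx : φ x ≠ 0) :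
    c5 = 0 ∧ c7 = 2 := by
  classical
  have h3R : (3 : Module.End κ (Fn N κ)) = 0 := by
    have : (3 : Module.End κ (Fn N κ)) = algebraMap κ _ 3 := by rw [map_ofNat]
    rw [this, h3, map_zero]
  have hs : Sc (rho (N := N) κ) := rho_Sc
  have two_z : ∀ x : κ, x + x = 0 → x = 0 := by
    intro x hx
    linear_combination x * h3 - hx
  have nod : ∀ {β α γ : ℕ} {p : (Qn N)ˣ}, Dec β α γ p → ∀ x, ¬ Dc x → rho κ p φ x = 0 := by
    intro β α γ p hp x hx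
    rw [rho_apply]
    apply h.2
    intro h'
    exact hx (Dc_dec' hp h')
  have noa : ∀ g ∈ Kz N 1, ∀ x, ¬ Dc x → rho κ g φ x = 0 := fun g hg x hx =>
    (Gd_rho h hg).2 x hx
  have ha1 : a1 N ∈ Kz N 1 := by rw [a1_eq]; exact (kap_rel _).mem
  have ha2 : a2 N ∈ Kz N 1 := by rw [a2_eq]; exact (kap_rel _).mem
  have E5 : (rho κ (p1 N) + rho κ (p2 N) + rho κ (p3 N) + (rho κ (p4 N) + rho κ (p5 N) +
      rho κ (p6 N))) φ = c5 • φ := by
    funext x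
    show rho κ (p1 N) φ x + rho κ (p2 N) φ x + rho κ (p3 N) φ x +
      (rho κ (p4 N) φ x + rho κ (p5 N) φ x + rho κ (p6 N) φ x) = c5 * φ x
    by_cases hx : Dc x
    · exact h5 x hx
    · rw [nod dp1 x hx, nod dp2 x hx, nod dp3 x hx, nod dp4 x hx, nod dp5 x hx, nod dp6 x hx,
        h.2 x hx]
      ring
  have E7 : (rho κ (q1 N) + rho κ (q2 N) + rho κ (q3 N) + (rho κ (q4 N) + rho κ (q5 N) +
      rho κ (q6 N)) + (rho κ (a1 N) + rho κ (a2 N))) φ = c7 • φ := by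
    funext x
    show rho κ (q1 N) φ x + rho κ (q2 N) φ x + rho κ (q3 N) φ x +
      (rho κ (q4 N) φ x + rho κ (q5 N) φ x + rho κ (q6 N) φ x) +
      (rho κ (a1 N) φ x + rho κ (a2 N) φ x) = c7 * φ x
    by_cases hx : Dc x
    · exact h7 x hx
    · rw [nod dq1 x hx, nod dq2 x hx, nod dq3 x hx, nod dq4 x hx, nod dq5 x hx, nod dq6 x hx,
        noa _ ha1 x hx, noa _ ha2 x hx, h.2 x hx]
      ring
  rw [a1_eq, a2_eq] at E7
  have hex : ∃ D : ℕ, ∀ T ∈ J κ (rho (N := N) κ) D, T φ = 0 := by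
    obtain ⟨D, hD⟩ := J_nil (N := N) h3
    exact ⟨D, fun T hT => by rw [hD T hT]; rfl⟩
  obtain ⟨D, hD1, hD2⟩ : ∃ D, (∀ T ∈ J κ (rho (N := N) κ) D, T φ = 0) ∧
      ∀ m < D, ¬ ∀ T ∈ J κ (rho (N := N) κ) m, T φ = 0 :=
    ⟨Nat.find hex, Nat.find_spec hex, fun m hm => Nat.find_min hex hm⟩
  have hD0 : D ≠ 0 := by
    rintro rfl
    exact hx (congrFun (hD1 1 J_one) x)
  obtain ⟨w, rfl⟩ : ∃ w, D = w + 1 := ⟨D - 1, by omega⟩
  have h0 := hD2 w (by omega)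
  push Not at h0
  obtain ⟨T0, hT0, hT0n⟩ := h0
  obtain ⟨y, hy⟩ : ∃ y, T0 φ y ≠ 0 := by
    by_contra hcon
    push Not at hcon
    exact hT0n (funext hcon)
  have hyD : Dc y := by
    by_contra hcon
    exact hy ((Gd_J h hT0).2 y hcon)
  obtain ⟨g, hg, s, rfl⟩ := hyD
  rw [(Gd_J h hT0).1] at hy
  obtain ⟨Λ, hΛ⟩ : ∃ Λ : Module.End κ (Fn N κ) →ₗ[κ] κ, ∀ T, Λ T = T φ (kk N) :=
    ⟨⟨⟨fun T => T φ (kk N), fun _ _ => rfl⟩, fun _ _ => rfl⟩, fun _ => rfl⟩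
  have P1 : ∀ T ∈ J κ (rho (N := N) κ) (w + 1), Λ T = 0 := by
    intro T hT
    rw [hΛ, hD1 T hT]; rfl
  have fixb : ∀ (t : (Qn N)ˣ), kk N * (t : Qn N) = (t : Qn N) * kk N → ∀ T, Λ (rho κ t * T) =
      Λ T := by
    intro t ht T
    rw [hΛ, hΛ]
    show rho κ t (T φ) (kk N) = _
    rw [rho_apply, mul_assoc, ht, ← mul_assoc, Units.inv_mul, one_mul]
  have P2 : ∀ T, Λ (gB (rho κ) * T) = 0 := by
    intro T
    unfold gB
    rw [sub_mul, one_mul, map_sub, fixb _ _ T, sub_self]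
    rw [kap_val, mul_add, add_mul, mul_one, one_mul, mul_smul_comm, smul_mul_assoc]
    rfl
  have Pt : ∀ T, Λ (rho κ (tt N) * T) = Λ T := fixb _ tt_comm
  refine stage0 (ρ := rho (N := N) κ) (Λ := Λ) hs h3R h3 P1 P2 Pt dp1 dp2 dp3 dp4 dp5 dp6
    dq1 dq2 dq3 dq4 dq5 dq6 (a' := kp (im (-1) (-0) (-0))) (kap_inv' 1 0 0)
    ⟨_, kap_rel _, by simp⟩ (c5 := c5) (c7 := c7) ?_ ?_
    (T0 := rho κ g * T0) (J_mul' (by omega) (J_rho hg) hT0) ?_
  · intro T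
    rw [hΛ, hΛ]
    show T ((rho κ (p1 N) + rho κ (p2 N) + rho κ (p3 N) + (rho κ (p4 N) + rho κ (p5 N) +
      rho κ (p6 N))) φ) (kk N) = _
    rw [E5, map_smul]; rfl
  · intro T
    rw [hΛ, hΛ]
    have e : T ((rho κ (q1 N) + rho κ (q2 N) + rho κ (q3 N) + (rho κ (q4 N) + rho κ (q5 N) +
      rho κ (q6 N)) + (rho κ (kp (im 1 0 0)) + rho κ (kp (im (-1) (-0) (-0)))) :
        Module.End κ (Fn N κ)) φ) (kk N) =
      c7 * T φ (kk N) := by
      have e' : (kp (im (-1) (-0) (-0)) : (Qn N)ˣ) = kp (im (-1) 0 0) := by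
        rw [neg_zero]
      rw [e', E7, map_smul]; rfl
    exact e
  · rw [hΛ]
    exact hy

end

end Pool.Agent.Helper725_HQ.RR
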