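import Pool.Agent.Helper725_HQ.RVec

/-! The two Hecke operators on the disc of the ramified torus. -/

set_option autoImplicit false
set_option linter.unusedVariables false
set_option linter.unusedSimpArgs false

namespace Pool.Agent.Helper725_HQ.RR

open Quaternion MvPolynomial

/-- cyclic permutations -/
def cy0 (z : Fin 3 → ℤ) : Fin 3 → ℤ := z
def cy1 (z : Fin 3 → ℤ) : Fin 3 → ℤ := ![z 1, z 2, z 0]
def cy2 (z : Fin 3 → ℤ) : Fin 3 → ℤ := ![z 2, z 0, z 1]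

/-- the neighbours -/
def Z5 (x : Fin 3 → ℤ) : Fin 6 → Fin 3 → ℤ := ![cy2 (act (v5 0) x),
  cy1 (act (v5 1) x),
  cy2 (act (v5 2) x),
  cy1 (act (v5 3) x),
  cy2 (act (v5 4) x),
  cy1 (act (v5 5) x)]
/-- the neighbours -/
def Z7 (x : Fin 3 → ℤ) : Fin 8 → Fin 3 → ℤ := ![cy0 (act (v7 0) x),
  cy0 (act (v7 1) x),
  cy2 (act (v7 2) x),
  cy1 (act (v7 3) x),
  cy2 (act (v7 4) x),
  cy1 (act (v7 5) x),
  cy1 (act (v7 6) x),
  cy2 (act (v7 7) x)]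

section
variable {N : ℕ} {κ : Type} [Field κ]

open Classical in
/-- the function on the disc modulo `3 ^ N` -/
noncomputable def toFn (N : ℕ) (h : (Fin 3 → ℤ) → κ) : Fn N κ :=
  fun y => if hh : ∃ x, x ∈ XR ∧ y = encv N x then h hh.choose else 0

/-- periodicity -/
def Pe (N : ℕ) (h : (Fin 3 → ℤ) → κ) : Prop :=
  ∀ x ∈ XR, ∀ y ∈ XR, (∀ i, ((3 ^ N : ℕ) : ℤ) ∣ x i - y i) → h x = h y

theorem toFn_im {h : (Fin 3 → ℤ) → κ} (hp : Pe N h) {x : Fin 3 → ℤ} (hx : x ∈ XR) :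
    toFn N h (encv N x) = h x := by
  have hh : ∃ z, z ∈ XR ∧ encv N x = encv N z := ⟨x, hx, rfl⟩
  unfold toFn
  rw [dif_pos hh]
  exact hp _ hh.choose_spec.1 _ hx (fun i => encv_inj hh.choose_spec.1 hx hh.choose_spec.2.symm i)

theorem toFn_zero {h : (Fin 3 → ℤ) → κ} {y : Qn N} (hy : ¬ Dc y) : toFn N h y = 0 := by
  unfold toFn
  rw [dif_neg]
  rintro ⟨x, hx, rfl⟩
  exact hy (Dc_encv hx)

theorem toFn_P {h : (Fin 3 → ℤ) → κ} (hp : Pe N h) {x0 p r : ℤ} (hx : ¬ (3 : ℤ) ∣ x0) :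
    toFn N h (encP N x0 p r) = h (XV x0 p r) := by
  rw [← encv_XV, toFn_im hp (XV_mem hx)]

theorem encP_smul (s x0 p r : ℤ) : (s : Zn N) • encP N x0 p r = encP N (s * x0) (s * p) (s * r) := by
  unfold encP zq
  apply QuaternionAlgebra.ext
  · simp
  · simp; ring
  · simp; ring
  · simp; ring

theorem XV_smul (s x0 p r : ℤ) : (fun i => s * XV x0 p r i) = XV (s * x0) (s * p) (s * r) := by
  funext i
  fin_cases i
  · rfl
  · show s * (x0 + 9 * p) = s * x0 + 9 * (s * p)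
    ring
  · show s * (-2 * x0 + 9 * r) = -2 * (s * x0) + 9 * (s * r)
    ring

theorem toFn_Gd (hN : 1 ≤ N) {h : (Fin 3 → ℤ) → κ} (hp : Pe N h)
    (hs : ∀ x ∈ XR, ∀ s : ℤ, ¬ (3 : ℤ) ∣ s → h (fun i => s * x i) = h x) : Gd (toFn N h) := by
  refine ⟨fun s y => ?_, fun y hy => toFn_zero hy⟩
  by_cases hy : Dc y
  · obtain ⟨x, hx, rfl⟩ := exists_encv hN hy
    obtain ⟨x0, p, r, hx0, rfl⟩ := XR_ex hx
    obtain ⟨s0, hs0⟩ := ZMod.intCast_surjective (s : Zn N)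
    have h30 : ¬ (3 : ℤ) ∣ s0 := by
      intro h
      obtain ⟨t, rfl⟩ := h
      have h4 : IsUnit (((3 * t : ℤ)) : Zn N) := by rw [hs0]; exact s.isUnit
      push_cast at h4
      have h5 : IsUnit (3 : Zn N) := isUnit_of_mul_isUnit_left h4
      have h6 : IsUnit ((3 : Zn N) ^ N) := h5.pow N
      rw [three_pow_zero le_rfl] at h6
      have h7 : (0 : Zn N) = 1 := (isUnit_zero_iff.1 h6)
      have h8 : ((1 : ℤ) : Zn N) = ((0 : ℤ) : Zn N) := by push_cast; exact h7.symm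
      rw [ZMod.intCast_eq_intCast_iff_dvd_sub] at h8
      have h3 : (3 : ℤ) ∣ ((3 ^ N : ℕ) : ℤ) := by
        push_cast
        exact dvd_pow_self 3 (by omega)
      have h9 := h3.trans h8
      omega
    have h31 : ¬ (3 : ℤ) ∣ s0 * x0 := by
      intro h
      rcases Int.prime_three.dvd_or_dvd h with h | h
      · exact h30 h
      · exact hx0 h
    rw [encv_XV, ← hs0, encP_smul, toFn_P hp h31, toFn_P hp hx0, ← XV_smul, hs _ (XV_mem hx0) s0 h30]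
  · rw [toFn_zero hy, toFn_zero]
    intro h
    apply hy
    have h1 := Dc_smul h s⁻¹
    rwa [smul_smul, Units.inv_mul, one_smul] at h1

theorem aln_aln (y : Qn N) : -(aln N (-(aln N y))) = y := by
  show -(⟨(-(⟨y.re, y.imI, -y.imJ, -y.imK⟩ : Qn N)).re, (-(⟨y.re, y.imI, -y.imJ, -y.imK⟩ : Qn N)).imI,
    -(-(⟨y.re, y.imI, -y.imJ, -y.imK⟩ : Qn N)).imJ, -(-(⟨y.re, y.imI, -y.imJ, -y.imK⟩ : Qn N)).imK⟩ :
    Qn N) = y
  apply QuaternionAlgebra.ext <;> simp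

theorem ale_ale (y : Qn N) : -(ale N (-(ale N y))) = y := by
  show -(⟨(-(⟨y.re, -y.imI, y.imJ, -y.imK⟩ : Qn N)).re, -(-(⟨y.re, -y.imI, y.imJ, -y.imK⟩ : Qn N)).imI,
    (-(⟨y.re, -y.imI, y.imJ, -y.imK⟩ : Qn N)).imJ, -(-(⟨y.re, -y.imI, y.imJ, -y.imK⟩ : Qn N)).imK⟩ :
    Qn N) = y
  apply QuaternionAlgebra.ext <;> simp

theorem aln_P (x0 p r : ℤ) : -(aln N (encP N x0 p r)) =
    encP N (x0 - 6 * (p + r)) p (-(2 * p) - r) := by
  show -(⟨_, _, _, _⟩ : Qn N) = _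
  unfold encP zq
  apply QuaternionAlgebra.ext
  · simp
  · simp; ring
  · simp
  · simp; ring

theorem ale_P (x0 p r : ℤ) : -(ale N (encP N x0 p r)) =
    encP N (x0 + 9 * p) (-p) (r + 2 * p) := by
  show -(⟨_, _, _, _⟩ : Qn N) = _
  unfold encP zq
  apply QuaternionAlgebra.ext
  · simp
  · simp; ring
  · simp
  · simp; ring

theorem toFn_n (hN : 1 ≤ N) {h : (Fin 3 → ℤ) → κ} (hp : Pe N h)
    (hfl : ∀ x0 p r : ℤ, ¬ (3 : ℤ) ∣ x0 → h (XV (x0 - 6 * (p + r)) p (-(2 * p) - r)) =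
      h (XV x0 p r)) (y : Qn N) : toFn N h y = toFn N h (-(aln N y)) := by
  have key : ∀ y : Qn N, Dc y → Dc (-(aln N y)) ∧ toFn N h y = toFn N h (-(aln N y)) := by
    intro y hy
    obtain ⟨x, hx, rfl⟩ := exists_encv hN hy
    obtain ⟨x0, p, r, hx0, rfl⟩ := XR_ex hx
    have h1 : ¬ (3 : ℤ) ∣ x0 - 6 * (p + r) := by omega
    rw [encv_XV, aln_P, toFn_P hp hx0, toFn_P hp h1, hfl x0 p r hx0]
    exact ⟨Dc_encP h1, rfl⟩
  by_cases hy : Dc y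
  · exact (key y hy).2
  · rw [toFn_zero hy, toFn_zero]
    intro h'
    apply hy
    have h1 := (key _ h').1
    rwa [aln_aln] at h1

theorem toFn_e (hN : 1 ≤ N) {h : (Fin 3 → ℤ) → κ} (hp : Pe N h)
    (hsw : ∀ x0 p r : ℤ, ¬ (3 : ℤ) ∣ x0 → h (XV (x0 + 9 * p) (-p) (r + 2 * p)) =
      h (XV x0 p r)) (y : Qn N) : toFn N h y = toFn N h (-(ale N y)) := by
  have key : ∀ y : Qn N, Dc y → Dc (-(ale N y)) ∧ toFn N h y = toFn N h (-(ale N y)) := by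
    intro y hy
    obtain ⟨x, hx, rfl⟩ := exists_encv hN hy
    obtain ⟨x0, p, r, hx0, rfl⟩ := XR_ex hx
    have h1 : ¬ (3 : ℤ) ∣ x0 + 9 * p := by omega
    rw [encv_XV, ale_P, toFn_P hp hx0, toFn_P hp h1, hsw x0 p r hx0]
    exact ⟨Dc_encP h1, rfl⟩
  by_cases hy : Dc y
  · exact (key y hy).2
  · rw [toFn_zero hy, toFn_zero]
    intro h'
    apply hy
    have h1 := (key _ h').1
    rwa [ale_ale] at h1

theorem toFn_zu {h : (Fin 3 → ℤ) → κ} (hp : Pe N h) (hg : Gd (toFn N h)) {a b c d : ℤ}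
    (h0 : ¬ (3 : ℤ) ∣ a ^ 2 + 2 * c ^ 2) {x0 p r y0 p' r' k : ℤ} (hk : ¬ (3 : ℤ) ∣ k)
    (hy : ¬ (3 : ℤ) ∣ y0)
    (e : zq a (-b) (-c) (-d) * encP N x0 p r * zq a b c d = (k : Zn N) • encP N y0 p' r') :
    rho κ (zu a b c d h0) (toFn N h) (encP N x0 p r) = h (XV y0 p' r') := by
  rw [rho_apply]
  obtain ⟨u, hu⟩ := unit_int (N := N) hk
  have e1 : (((zu a b c d h0)⁻¹ : (Qn N)ˣ) : Qn N) * encP N x0 p r *
      ((zu a b c d h0 : (Qn N)ˣ) : Qn N) = (((unit_int (N := N) (by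
        intro h1
        apply h0
        have h2 : a ^ 2 + 2 * c ^ 2 = (a ^ 2 + 3 * b ^ 2 + 2 * c ^ 2 + 6 * d ^ 2) -
          3 * (b ^ 2 + 2 * d ^ 2) := by ring
        rw [h2]
        exact dvd_sub h1 (dvd_mul_right _ _) :
          ¬ (3 : ℤ) ∣ a ^ 2 + 3 * b ^ 2 + 2 * c ^ 2 + 6 * d ^ 2)).unit⁻¹ : (Zn N)ˣ) : Zn N) •
      ((u : Zn N) • encP N y0 p' r') := by
    rw [hu, ← e, zu_val]
    show (_ • zq a (-b) (-c) (-d)) * encP N x0 p r * zq a b c d = _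
    rw [smul_mul_assoc, smul_mul_assoc]
  rw [e1, hg.1, hg.1, toFn_P hp hy]

theorem r_p1 {h : (Fin 3 → ℤ) → κ} (hp : Pe N h) (hg : Gd (toFn N h)) {x0 : ℤ} (p r : ℤ)
    (hx : ¬ (3 : ℤ) ∣ x0) : rho κ (p1 N) (toFn N h) (encP N x0 p r) =
      h (XV (4 * x0 - 72 * p - 54 * r) (2 * x0 + 14 * p - 2 * r) (2 * x0 - 16 * p - 12 * r)) := by
  refine toFn_zu hp hg _ (k := 4) (by norm_num) (by omega) ?_
  unfold encP
  rw [zq_mul, zq_mul]
  unfold zq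
  apply QuaternionAlgebra.ext
  · simp; ring
  · simp; ring
  · simp; ring
  · simp; ring

theorem r_p2 {h : (Fin 3 → ℤ) → κ} (hp : Pe N h) (hg : Gd (toFn N h)) {x0 : ℤ} (p r : ℤ)
    (hx : ¬ (3 : ℤ) ∣ x0) : rho κ (p2 N) (toFn N h) (encP N x0 p r) =
      h (XV (10 * x0 + 90 * p) (-(10 * p) - 8 * r) (20 * p + 6 * r)) := by
  refine toFn_zu hp hg _ (k := 1) (by norm_num) (by omega) ?_
  unfold encP
  rw [zq_mul, zq_mul]
  unfold zq
  apply QuaternionAlgebra.ext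
  · simp; ring
  · simp; ring
  · simp; ring
  · simp; ring

theorem r_p3 {h : (Fin 3 → ℤ) → κ} (hp : Pe N h) (hg : Gd (toFn N h)) {x0 : ℤ} (p r : ℤ)
    (hx : ¬ (3 : ℤ) ∣ x0) : rho κ (p3 N) (toFn N h) (encP N x0 p r) =
      h (XV (-(2 * x0) - 72 * p) (-(2 * x0) + 8 * p + 10 * r) (-(2 * x0) - 22 * p)) := by
  refine toFn_zu hp hg _ (k := 4) (by norm_num) (by omega) ?_
  unfold encP
  rw [zq_mul, zq_mul]
  unfold zq
  apply QuaternionAlgebra.ext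
  · simp; ring
  · simp; ring
  · simp; ring
  · simp; ring

theorem r_p4 {h : (Fin 3 → ℤ) → κ} (hp : Pe N h) (hg : Gd (toFn N h)) {x0 : ℤ} (p r : ℤ)
    (hx : ¬ (3 : ℤ) ∣ x0) : rho κ (p4 N) (toFn N h) (encP N x0 p r) =
      h (XV (-(20 * x0) + 90 * r) (2 * x0 + 6 * p - 10 * r) (-(6 * x0) - 8 * p + 20 * r)) := by
  refine toFn_zu hp hg _ (k := 4) (by norm_num) (by omega) ?_
  unfold encP
  rw [zq_mul, zq_mul]
  unfold zq
  apply QuaternionAlgebra.ext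
  · simp; ring
  · simp; ring
  · simp; ring
  · simp; ring

theorem r_p5 {h : (Fin 3 → ℤ) → κ} (hp : Pe N h) (hg : Gd (toFn N h)) {x0 : ℤ} (p r : ℤ)
    (hx : ¬ (3 : ℤ) ∣ x0) : rho κ (p5 N) (toFn N h) (encP N x0 p r) =
      h (XV (22 * x0 - 72 * r) (-(2 * x0) + 2 * r) (6 * x0 + 10 * p - 16 * r)) := by
  refine toFn_zu hp hg _ (k := 4) (by norm_num) (by omega) ?_
  unfold encP
  rw [zq_mul, zq_mul]
  unfold zq
  apply QuaternionAlgebra.ext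
  · simp; ring
  · simp; ring
  · simp; ring
  · simp; ring

theorem r_p6 {h : (Fin 3 → ℤ) → κ} (hp : Pe N h) (hg : Gd (toFn N h)) {x0 : ℤ} (p r : ℤ)
    (hx : ¬ (3 : ℤ) ∣ x0) : rho κ (p6 N) (toFn N h) (encP N x0 p r) =
      h (XV (10 * x0 - 54 * p - 72 * r) (6 * p + 8 * r) (-(20 * p) - 10 * r)) := by
  refine toFn_zu hp hg _ (k := 1) (by norm_num) (by omega) ?_
  unfold encP
  rw [zq_mul, zq_mul]
  unfold zq
  apply QuaternionAlgebra.ext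
  · simp; ring
  · simp; ring
  · simp; ring
  · simp; ring

theorem r_q1 {h : (Fin 3 → ℤ) → κ} (hp : Pe N h) (hg : Gd (toFn N h)) {x0 : ℤ} (p r : ℤ)
    (hx : ¬ (3 : ℤ) ∣ x0) : rho κ (q1 N) (toFn N h) (encP N x0 p r) =
      h (XV (-(68 * x0) - 72 * p + 216 * r) (8 * x0 + 20 * p - 32 * r) (-(16 * x0) - 40 * p + 36 * r)) := by
  refine toFn_zu hp hg _ (k := 1) (by norm_num) (by omega) ?_
  unfold encP
  rw [zq_mul, zq_mul]
  unfold zq
  apply QuaternionAlgebra.ext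
  · simp; ring
  · simp; ring
  · simp; ring
  · simp; ring

theorem r_q2 {h : (Fin 3 → ℤ) → κ} (hp : Pe N h) (hg : Gd (toFn N h)) {x0 : ℤ} (p r : ℤ)
    (hx : ¬ (3 : ℤ) ∣ x0) : rho κ (q2 N) (toFn N h) (encP N x0 p r) =
      h (XV (28 * x0 - 72 * p - 216 * r) (-(4 * p) + 16 * r) (-(40 * p) - 36 * r)) := by
  refine toFn_zu hp hg _ (k := 1) (by norm_num) (by omega) ?_
  unfold encP
  rw [zq_mul, zq_mul]
  unfold zq
  apply QuaternionAlgebra.ext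
  · simp; ring
  · simp; ring
  · simp; ring
  · simp; ring

theorem r_q3 {h : (Fin 3 → ℤ) → κ} (hp : Pe N h) (hg : Gd (toFn N h)) {x0 : ℤ} (p r : ℤ)
    (hx : ¬ (3 : ℤ) ∣ x0) : rho κ (q3 N) (toFn N h) (encP N x0 p r) =
      h (XV (52 * x0 - 72 * p - 216 * r) (-(8 * x0) - 4 * p + 16 * r) (16 * x0 + 8 * p - 60 * r)) := by
  refine toFn_zu hp hg _ (k := 1) (by norm_num) (by omega) ?_
  unfold encP
  rw [zq_mul, zq_mul]
  unfold zq
  apply QuaternionAlgebra.ext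
  · simp; ring
  · simp; ring
  · simp; ring
  · simp; ring

theorem r_q4 {h : (Fin 3 → ℤ) → κ} (hp : Pe N h) (hg : Gd (toFn N h)) {x0 : ℤ} (p r : ℤ)
    (hx : ¬ (3 : ℤ) ∣ x0) : rho κ (q4 N) (toFn N h) (encP N x0 p r) =
      h (XV (-(20 * x0) - 216 * p - 72 * r) (8 * x0 + 36 * p - 16 * r) (-(56 * p) - 28 * r)) := by
  refine toFn_zu hp hg _ (k := 1) (by norm_num) (by omega) ?_
  unfold encP
  rw [zq_mul, zq_mul]
  unfold zq
  apply QuaternionAlgebra.ext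
  · simp; ring
  · simp; ring
  · simp; ring
  · simp; ring

theorem r_q5 {h : (Fin 3 → ℤ) → κ} (hp : Pe N h) (hg : Gd (toFn N h)) {x0 : ℤ} (p r : ℤ)
    (hx : ¬ (3 : ℤ) ∣ x0) : rho κ (q5 N) (toFn N h) (encP N x0 p r) =
      h (XV (4 * x0 - 216 * p - 72 * r) (-(8 * x0) + 12 * p + 32 * r) (-(56 * p) - 28 * r)) := by
  refine toFn_zu hp hg _ (k := 1) (by norm_num) (by omega) ?_
  unfold encP
  rw [zq_mul, zq_mul]
  unfold zq
  apply QuaternionAlgebra.ext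
  · simp; ring
  · simp; ring
  · simp; ring
  · simp; ring

theorem r_q6 {h : (Fin 3 → ℤ) → κ} (hp : Pe N h) (hg : Gd (toFn N h)) {x0 : ℤ} (p r : ℤ)
    (hx : ¬ (3 : ℤ) ∣ x0) : rho κ (q6 N) (toFn N h) (encP N x0 p r) =
      h (XV (28 * x0 + 216 * p - 72 * r) (-(36 * p) - 16 * r) (40 * p - 4 * r)) := by
  refine toFn_zu hp hg _ (k := 1) (by norm_num) (by omega) ?_
  unfold encP
  rw [zq_mul, zq_mul]
  unfold zq
  apply QuaternionAlgebra.ext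
  · simp; ring
  · simp; ring
  · simp; ring
  · simp; ring

theorem r_a1 {h : (Fin 3 → ℤ) → κ} (hp : Pe N h) (hg : Gd (toFn N h)) {x0 : ℤ} (p r : ℤ)
    (hx : ¬ (3 : ℤ) ∣ x0) : rho κ (a1 N) (toFn N h) (encP N x0 p r) =
      h (XV (-(8 * x0) + 216 * p + 108 * r) (-(4 * x0) - 32 * p + 12 * r) (4 * x0 + 60 * p + 16 * r)) := by
  refine toFn_zu hp hg _ (k := 1) (by norm_num) (by omega) ?_
  unfold encP
  rw [zq_mul, zq_mul]
  unfold zq
  apply QuaternionAlgebra.ext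
  · simp; ring
  · simp; ring
  · simp; ring
  · simp; ring

theorem r_a2 {h : (Fin 3 → ℤ) → κ} (hp : Pe N h) (hg : Gd (toFn N h)) {x0 : ℤ} (p r : ℤ)
    (hx : ¬ (3 : ℤ) ∣ x0) : rho κ (a2 N) (toFn N h) (encP N x0 p r) =
      h (XV (-(44 * x0) + 108 * p + 216 * r) (4 * x0 - 20 * p - 12 * r) (-(4 * x0) + 48 * p + 40 * r)) := by
  refine toFn_zu hp hg _ (k := 1) (by norm_num) (by omega) ?_
  unfold encP
  rw [zq_mul, zq_mul]
  unfold zq
  apply QuaternionAlgebra.ext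
  · simp; ring
  · simp; ring
  · simp; ring
  · simp; ring

end

theorem Z5_0 (x0 p r : ℤ) : Z5 (XV x0 p r) 0 = XV (10 * x0 - 54 * p - 72 * r) (6 * p + 8 * r) (-(20 * p) - 10 * r) := by
  show cy2 (act (v5 0) (XV x0 p r)) = _
  funext i
  fin_cases i
  · simp [cy2, act, XV, v5, rotZ, Fin.sum_univ_three]; ring
  · simp [cy2, act, XV, v5, rotZ, Fin.sum_univ_three]; ring
  · simp [cy2, act, XV, v5, rotZ, Fin.sum_univ_three]; ring

theorem Z5_1 (x0 p r : ℤ) : Z5 (XV x0 p r) 1 = XV (4 * x0 - 72 * p - 54 * r) (2 * x0 + 14 * p - 2 * r) (2 * x0 - 16 * p - 12 * r) := by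
  show cy1 (act (v5 1) (XV x0 p r)) = _
  funext i
  fin_cases i
  · simp [cy1, act, XV, v5, rotZ, Fin.sum_univ_three]; ring
  · simp [cy1, act, XV, v5, rotZ, Fin.sum_univ_three]; ring
  · simp [cy1, act, XV, v5, rotZ, Fin.sum_univ_three]; ring

theorem Z5_2 (x0 p r : ℤ) : Z5 (XV x0 p r) 2 = XV (22 * x0 - 72 * r) (-(2 * x0) + 2 * r) (6 * x0 + 10 * p - 16 * r) := by
  show cy2 (act (v5 2) (XV x0 p r)) = _
  funext i
  fin_cases i
  · simp [cy2, act, XV, v5, rotZ, Fin.sum_univ_three]; ring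
  · simp [cy2, act, XV, v5, rotZ, Fin.sum_univ_three]; ring
  · simp [cy2, act, XV, v5, rotZ, Fin.sum_univ_three]; ring

theorem Z5_3 (x0 p r : ℤ) : Z5 (XV x0 p r) 3 = XV (10 * x0 + 90 * p) (-(10 * p) - 8 * r) (20 * p + 6 * r) := by
  show cy1 (act (v5 3) (XV x0 p r)) = _
  funext i
  fin_cases i
  · simp [cy1, act, XV, v5, rotZ, Fin.sum_univ_three]; ring
  · simp [cy1, act, XV, v5, rotZ, Fin.sum_univ_three]; ring
  · simp [cy1, act, XV, v5, rotZ, Fin.sum_univ_three]; ring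

theorem Z5_4 (x0 p r : ℤ) : Z5 (XV x0 p r) 4 = XV (-(20 * x0) + 90 * r) (2 * x0 + 6 * p - 10 * r) (-(6 * x0) - 8 * p + 20 * r) := by
  show cy2 (act (v5 4) (XV x0 p r)) = _
  funext i
  fin_cases i
  · simp [cy2, act, XV, v5, rotZ, Fin.sum_univ_three]; ring
  · simp [cy2, act, XV, v5, rotZ, Fin.sum_univ_three]; ring
  · simp [cy2, act, XV, v5, rotZ, Fin.sum_univ_three]; ring

theorem Z5_5 (x0 p r : ℤ) : Z5 (XV x0 p r) 5 = XV (-(2 * x0) - 72 * p) (-(2 * x0) + 8 * p + 10 * r) (-(2 * x0) - 22 * p) := by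
  show cy1 (act (v5 5) (XV x0 p r)) = _
  funext i
  fin_cases i
  · simp [cy1, act, XV, v5, rotZ, Fin.sum_univ_three]; ring
  · simp [cy1, act, XV, v5, rotZ, Fin.sum_univ_three]; ring
  · simp [cy1, act, XV, v5, rotZ, Fin.sum_univ_three]; ring

theorem Z7_0 (x0 p r : ℤ) : Z7 (XV x0 p r) 0 = XV (-(8 * x0) + 216 * p + 108 * r) (-(4 * x0) - 32 * p + 12 * r) (4 * x0 + 60 * p + 16 * r) := by
  show cy0 (act (v7 0) (XV x0 p r)) = _
  funext i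
  fin_cases i
  · simp [cy0, act, XV, v7, rotZ, Fin.sum_univ_three]; ring
  · simp [cy0, act, XV, v7, rotZ, Fin.sum_univ_three]; ring
  · simp [cy0, act, XV, v7, rotZ, Fin.sum_univ_three]; ring

theorem Z7_1 (x0 p r : ℤ) : Z7 (XV x0 p r) 1 = XV (-(44 * x0) + 108 * p + 216 * r) (4 * x0 - 20 * p - 12 * r) (-(4 * x0) + 48 * p + 40 * r) := by
  show cy0 (act (v7 1) (XV x0 p r)) = _
  funext i
  fin_cases i
  · simp [cy0, act, XV, v7, rotZ, Fin.sum_univ_three]; ring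
  · simp [cy0, act, XV, v7, rotZ, Fin.sum_univ_three]; ring
  · simp [cy0, act, XV, v7, rotZ, Fin.sum_univ_three]; ring

theorem Z7_2 (x0 p r : ℤ) : Z7 (XV x0 p r) 2 = XV (-(20 * x0) - 216 * p - 72 * r) (8 * x0 + 36 * p - 16 * r) (-(56 * p) - 28 * r) := by
  show cy2 (act (v7 2) (XV x0 p r)) = _
  funext i
  fin_cases i
  · simp [cy2, act, XV, v7, rotZ, Fin.sum_univ_three]; ring
  · simp [cy2, act, XV, v7, rotZ, Fin.sum_univ_three]; ring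
  · simp [cy2, act, XV, v7, rotZ, Fin.sum_univ_three]; ring

theorem Z7_3 (x0 p r : ℤ) : Z7 (XV x0 p r) 3 = XV (52 * x0 - 72 * p - 216 * r) (-(8 * x0) - 4 * p + 16 * r) (16 * x0 + 8 * p - 60 * r) := by
  show cy1 (act (v7 3) (XV x0 p r)) = _
  funext i
  fin_cases i
  · simp [cy1, act, XV, v7, rotZ, Fin.sum_univ_three]; ring
  · simp [cy1, act, XV, v7, rotZ, Fin.sum_univ_three]; ring
  · simp [cy1, act, XV, v7, rotZ, Fin.sum_univ_three]; ring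

theorem Z7_4 (x0 p r : ℤ) : Z7 (XV x0 p r) 4 = XV (4 * x0 - 216 * p - 72 * r) (-(8 * x0) + 12 * p + 32 * r) (-(56 * p) - 28 * r) := by
  show cy2 (act (v7 4) (XV x0 p r)) = _
  funext i
  fin_cases i
  · simp [cy2, act, XV, v7, rotZ, Fin.sum_univ_three]; ring
  · simp [cy2, act, XV, v7, rotZ, Fin.sum_univ_three]; ring
  · simp [cy2, act, XV, v7, rotZ, Fin.sum_univ_three]; ring

theorem Z7_5 (x0 p r : ℤ) : Z7 (XV x0 p r) 5 = XV (28 * x0 - 72 * p - 216 * r) (-(4 * p) + 16 * r) (-(40 * p) - 36 * r) := by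
  show cy1 (act (v7 5) (XV x0 p r)) = _
  funext i
  fin_cases i
  · simp [cy1, act, XV, v7, rotZ, Fin.sum_univ_three]; ring
  · simp [cy1, act, XV, v7, rotZ, Fin.sum_univ_three]; ring
  · simp [cy1, act, XV, v7, rotZ, Fin.sum_univ_three]; ring

theorem Z7_6 (x0 p r : ℤ) : Z7 (XV x0 p r) 6 = XV (-(68 * x0) - 72 * p + 216 * r) (8 * x0 + 20 * p - 32 * r) (-(16 * x0) - 40 * p + 36 * r) := by
  show cy1 (act (v7 6) (XV x0 p r)) = _
  funext i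
  fin_cases i
  · simp [cy1, act, XV, v7, rotZ, Fin.sum_univ_three]; ring
  · simp [cy1, act, XV, v7, rotZ, Fin.sum_univ_three]; ring
  · simp [cy1, act, XV, v7, rotZ, Fin.sum_univ_three]; ring

theorem Z7_7 (x0 p r : ℤ) : Z7 (XV x0 p r) 7 = XV (28 * x0 + 216 * p - 72 * r) (-(36 * p) - 16 * r) (40 * p - 4 * r) := by
  show cy2 (act (v7 7) (XV x0 p r)) = _
  funext i
  fin_cases i
  · simp [cy2, act, XV, v7, rotZ, Fin.sum_univ_three]; ring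
  · simp [cy2, act, XV, v7, rotZ, Fin.sum_univ_three]; ring
  · simp [cy2, act, XV, v7, rotZ, Fin.sum_univ_three]; ring

end Pool.Agent.Helper725_HQ.RR
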