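import Pool.Agent.Helper725_HQ.RFil

/-! Functionals on the weight filtration. -/

set_option autoImplicit false
set_option linter.unusedVariables false

namespace Pool.Agent.Helper725_HQ.RR

open Quaternion

section
variable {N : ℕ} {k : Type*} [CommRing k] {R : Type*} [Ring R] [Algebra k R]
  {ρ : (Qn N)ˣ →* R}

/-- the generators of the augmentation ideal -/
noncomputable def gA (ρ : (Qn N)ˣ →* R) : R := ρ (kp (im 1 0 0)) - 1
/-- the generators of the augmentation ideal -/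
noncomputable def gH (ρ : (Qn N)ˣ →* R) : R := ρ (kp (im 0 1 0)) - 1
/-- the generators of the augmentation ideal -/
noncomputable def gB (ρ : (Qn N)ˣ →* R) : R := ρ (kp (im 0 0 1)) - 1

theorem gA_mem : gA ρ ∈ J k ρ 3 := J_three ne_a
theorem gB_mem : gB ρ ∈ J k ρ 3 := J_three ne_b
theorem gH_mem : gH ρ ∈ J k ρ 2 := J_two (kap_rel _).mem

theorem J_pow {x : R} {n : ℕ} (hx : x ∈ J k ρ n) (j : ℕ) : x ^ j ∈ J k ρ (n * j) := by
  induction j with
  | zero => rw [pow_zero]; exact J_one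
  | succ j ih =>
    rw [pow_succ]
    exact J_mul' (by rw [Nat.mul_succ]) ih hx

theorem Y_lin {g : (Qn N)ˣ} {m : ℕ} (h : ρ g - 1 ∈ J k ρ m) (n : ℕ) :
    ρ (g ^ n) - 1 - (n : k) • (ρ g - 1) ∈ J k ρ (2 * m) := by
  induction n with
  | zero => rw [pow_zero, map_one, sub_self, Nat.cast_zero, zero_smul, sub_zero]
            exact Submodule.zero_mem _
  | succ n ih =>
    have e : ρ (g ^ (n + 1)) - 1 - ((n + 1 : ℕ) : k) • (ρ g - 1) =
        (ρ (g ^ n) - 1 - (n : k) • (ρ g - 1)) + (ρ (g ^ n) - 1) * (ρ g - 1) := by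
      rw [pow_succ, map_mul, alg2, Nat.cast_succ, add_smul, one_smul]
      abel
    rw [e]
    exact Submodule.add_mem _ ih (J_mul' (by omega) (Y_pow h n) h)

theorem Y_prod (g h : (Qn N)ˣ) : ρ (g * h) - 1 = (ρ g - 1) * (ρ h - 1) + (ρ g - 1) + (ρ h - 1) := by
  rw [map_mul]; exact alg2 _ _

theorem lt_two (hs : Sc ρ) (h3 : (3 : R) = 0) {g : (Qn N)ˣ} (hg : g ∈ Kz N 1) :
    ∃ β : k, (ρ g - 1) - β • gH ρ ∈ J k ρ 3 := by
  obtain ⟨a, b, c, r, hr, rfl⟩ := gen 0 hg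
  rw [pow_zero, pow_one, pow_one, pow_one]
  refine ⟨(b : k), ?_⟩
  obtain ⟨x, hx⟩ : ∃ x : (Qn N)ˣ, x = kp (im 1 0 0) ^ a := ⟨_, rfl⟩
  obtain ⟨y, hy⟩ : ∃ y : (Qn N)ˣ, y = kp (im 0 1 0) ^ b := ⟨_, rfl⟩
  obtain ⟨z, hz⟩ : ∃ z : (Qn N)ˣ, z = kp (im 0 0 1) ^ c := ⟨_, rfl⟩
  have mx : ρ x - 1 ∈ J k ρ 3 := by rw [hx]; exact Y_pow (J_three ne_a) a
  have my : ρ y - 1 ∈ J k ρ 2 := by rw [hy]; exact Y_pow (J_two (kap_rel _).mem) b
  have mz : ρ z - 1 ∈ J k ρ 3 := by rw [hz]; exact Y_pow (J_three ne_b) c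
  have mr : ρ r - 1 ∈ J k ρ 6 := Y_six hs h3 hr
  have ly : ρ y - 1 - (b : k) • gH ρ ∈ J k ρ 4 := by
    rw [hy]; exact Y_lin (J_two (kap_rel _).mem) b
  rw [← hx, ← hy, ← hz, Y_prod (x * y * z) r, Y_prod (x * y) z, Y_prod x y]
  have e : ∀ X Y Z W L : R, ((X * Y + X + Y) * Z + (X * Y + X + Y) + Z) * W +
      ((X * Y + X + Y) * Z + (X * Y + X + Y) + Z) + W - L =
      ((X * Y + X + Y) * Z + (X * Y + X + Y) + Z) * W + (X * Y + X + Y) * Z + X * Y + X + Z + W +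
      (Y - L) := by intros; noncomm_ring
  rw [e]
  have m1 : (ρ x - 1) * (ρ y - 1) + (ρ x - 1) + (ρ y - 1) ∈ J k ρ 2 :=
    Submodule.add_mem _ (Submodule.add_mem _ (J_mul' (by omega) mx my) (J_anti (by omega) mx)) my
  refine Submodule.add_mem _ (Submodule.add_mem _ (Submodule.add_mem _ (Submodule.add_mem _
    (Submodule.add_mem _ (Submodule.add_mem _ ?_ ?_) ?_) mx) mz) (J_anti (by omega) mr))
    (J_anti (by omega) ly)
  · refine J_mul' (a := 0) (by omega) ?_ mr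
    exact Submodule.add_mem _ (Submodule.add_mem _ (J_mul' (by omega) m1 mz)
      (J_anti (by omega) m1)) (J_anti (by omega) mz)
  · exact J_mul' (by omega) m1 mz
  · exact J_mul' (by omega) mx my

theorem lt_three (hs : Sc ρ) (h3 : (3 : R) = 0) {g : (Qn N)ˣ} (hg : NE 1 g) :
    ∃ α γ : k, (ρ g - 1) - (α • gA ρ + γ • gB ρ) ∈ J k ρ 4 := by
  obtain ⟨a, c, r, hr, rfl⟩ := gen' 0 hg
  rw [pow_zero, pow_one, pow_one]
  refine ⟨(a : k), (c : k), ?_⟩
  obtain ⟨x, hx⟩ : ∃ x : (Qn N)ˣ, x = kp (im 1 0 0) ^ a := ⟨_, rfl⟩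
  obtain ⟨z, hz⟩ : ∃ z : (Qn N)ˣ, z = kp (im 0 0 1) ^ c := ⟨_, rfl⟩
  have mx : ρ x - 1 ∈ J k ρ 3 := by rw [hx]; exact Y_pow (J_three ne_a) a
  have mz : ρ z - 1 ∈ J k ρ 3 := by rw [hz]; exact Y_pow (J_three ne_b) c
  have mr : ρ r - 1 ∈ J k ρ 6 := Y_six hs h3 hr
  have lx : ρ x - 1 - (a : k) • gA ρ ∈ J k ρ 6 := by
    rw [hx]; exact Y_lin (J_three ne_a) a
  have lz : ρ z - 1 - (c : k) • gB ρ ∈ J k ρ 6 := by
    rw [hz]; exact Y_lin (J_three ne_b) c
  rw [← hx, ← hz, Y_prod (x * z) r, Y_prod x z]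
  have e : ∀ X Z W L M : R, (X * Z + X + Z) * W + (X * Z + X + Z) + W - (L + M) =
      (X * Z + X + Z) * W + X * Z + W + (X - L) + (Z - M) := by intros; noncomm_ring
  rw [e]
  have m1 : (ρ x - 1) * (ρ z - 1) + (ρ x - 1) + (ρ z - 1) ∈ J k ρ 3 :=
    Submodule.add_mem _ (Submodule.add_mem _ (J_mul' (by omega) mx mz) (J_anti (by omega) mx)) mz
  refine Submodule.add_mem _ (Submodule.add_mem _ (Submodule.add_mem _ (Submodule.add_mem _
    ?_ ?_) (J_anti (by omega) mr)) (J_anti (by omega) lx)) (J_anti (by omega) lz)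
  · exact J_mul' (by omega) m1 mr
  · exact J_mul' (by omega) mx mz

/-- the functional is determined by its values on monomials -/
theorem span_J (hs : Sc ρ) (h3 : (3 : R) = 0) {M : Type*} [AddCommGroup M] [Module k M] (w : ℕ)
    (Λ : R →ₗ[k] M) (P1 : ∀ T ∈ J k ρ (w + 1), Λ T = 0) (P2 : ∀ T, Λ (gB ρ * T) = 0)
    (P3 : ∀ i j, 2 * i + 3 * j = w → Λ (gH ρ ^ i * gA ρ ^ j) = 0) : ∀ T ∈ J k ρ w, Λ T = 0 := by
  have mono : ∀ i j : ℕ, gH ρ ^ i * gA ρ ^ j ∈ J k ρ (2 * i + 3 * j) := fun i j =>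
    J_mul (J_pow gH_mem i) (J_pow gA_mem j)
  have key : ∀ l : List (ℕ × R), (∀ p ∈ l, Lt ρ p) → ∀ i j, w ≤ 2 * i + 3 * j +
      (l.map Prod.fst).sum → Λ (gH ρ ^ i * gA ρ ^ j * (l.map Prod.snd).prod) = 0 := by
    intro l
    induction l with
    | nil =>
      intro _ i j h
      rw [List.map_nil, List.prod_nil, mul_one]
      simp only [List.map_nil, List.sum_nil, add_zero] at h
      rcases Nat.eq_or_lt_of_le h with h | h
      · exact P3 i j h.symm
      · exact P1 _ (J_anti (by omega) (mono i j))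
    | cons p l ih =>
      intro hl i j h
      have hp := hl p (by simp)
      have hl' : ∀ q ∈ l, Lt ρ q := fun q hq => hl q (by simp [hq])
      have hX := J_word (k := k) hl'
      simp only [List.map_cons, List.prod_cons, List.sum_cons] at h ⊢
      obtain ⟨X, hXe⟩ : ∃ X, X = (l.map Prod.snd).prod := ⟨_, rfl⟩
      obtain ⟨s, hs'⟩ : ∃ s, s = (l.map Prod.fst).sum := ⟨_, rfl⟩
      rw [← hXe, ← hs'] at hX
      rw [← hs'] at h
      rw [← hXe]
      rw [← hXe, ← hs'] at ih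
      rcases hp with ⟨hp1, g, hg, hp2⟩ | ⟨hp1, g, hg, hp2⟩
      · obtain ⟨β, hβ⟩ := lt_two (k := k) hs h3 hg
        rw [hp2]
        have c1 : gA ρ ^ j * gH ρ - gH ρ * gA ρ ^ j ∈ J k ρ (3 * j + 2 + 4) :=
          J_comm hs h3 (J_pow gA_mem j) gH_mem
        have e : gH ρ ^ i * gA ρ ^ j * ((ρ g - 1) * X) =
            gH ρ ^ i * gA ρ ^ j * (ρ g - 1 - β • gH ρ) * X +
            β • (gH ρ ^ i * (gA ρ ^ j * gH ρ - gH ρ * gA ρ ^ j) * X) +
            β • (gH ρ ^ (i + 1) * gA ρ ^ j * X) := by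
          rw [pow_succ]
          simp only [mul_sub, sub_mul, mul_smul_comm, smul_mul_assoc, smul_sub, mul_assoc, mul_one,
            one_mul]
          abel
        rw [e, map_add, map_add, map_smul, map_smul, ih hl' (i + 1) j (by omega), smul_zero,
          add_zero, P1 _ (J_mul' (by omega) (J_mul (mono i j) hβ) hX), zero_add,
          P1 _ (J_mul' (by omega) (J_mul (J_pow gH_mem i) c1) hX), smul_zero]
      · obtain ⟨α, γ, hβ⟩ := lt_three (k := k) hs h3 hg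
        rw [hp2]
        have c1 : gH ρ ^ i * gA ρ ^ j * gB ρ - gB ρ * (gH ρ ^ i * gA ρ ^ j) ∈
            J k ρ (2 * i + 3 * j + 3 + 4) := J_comm hs h3 (mono i j) gB_mem
        have e : gH ρ ^ i * gA ρ ^ j * ((ρ g - 1) * X) =
            gH ρ ^ i * gA ρ ^ j * (ρ g - 1 - (α • gA ρ + γ • gB ρ)) * X +
            γ • ((gH ρ ^ i * gA ρ ^ j * gB ρ - gB ρ * (gH ρ ^ i * gA ρ ^ j)) * X) +
            γ • (gB ρ * (gH ρ ^ i * gA ρ ^ j * X)) +
            α • (gH ρ ^ i * gA ρ ^ (j + 1) * X) := by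
          rw [pow_succ (gA ρ) j]
          simp only [mul_sub, sub_mul, mul_smul_comm, smul_mul_assoc, smul_sub, mul_assoc, mul_one,
            one_mul, mul_add, add_mul]
          abel
        rw [e, map_add, map_add, map_add, map_smul, map_smul, map_smul,
          ih hl' i (j + 1) (by omega), smul_zero,
          add_zero, P1 _ (J_mul' (by omega) (J_mul (mono i j) hβ) hX), zero_add,
          P1 _ (J_mul' (by omega) c1 hX), smul_zero, P2, smul_zero, add_zero]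
  intro T hT
  unfold J at hT
  induction hT using Submodule.span_induction with
  | mem x hx =>
    obtain ⟨l, h1, h2, rfl⟩ := hx
    have h := key l h1 0 0 (by omega)
    rwa [pow_zero, pow_zero, one_mul, one_mul] at h
  | zero => exact map_zero _
  | add x y _ _ h1 h2 => rw [map_add, h1, h2, add_zero]
  | smul r x _ h1 => rw [map_smul, h1, smul_zero]

end

end Pool.Agent.Helper725_HQ.RR
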