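import Pool.Agent.Helper725_HQ.RMain
import Pool.Agent.Helper725_HQ.BRed

/-! Vectors near the base point of the ramified torus. -/

set_option autoImplicit false
set_option linter.unusedVariables false
set_option linter.unusedSimpArgs false

namespace Pool.Agent.Helper725_HQ.RR

open Quaternion MvPolynomial

/-- the vectors near a multiple of `(1, 1, -2)` -/
def XR : Set (Fin 3 → ℤ) := {x | ¬ (3 : ℤ) ∣ x 0 ∧ (9 : ℤ) ∣ x 1 - x 0 ∧ (9 : ℤ) ∣ x 2 + 2 * x 0}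

/-- coordinates -/
def XV (x0 p r : ℤ) : Fin 3 → ℤ := ![x0, x0 + 9 * p, -2 * x0 + 9 * r]

theorem XV_mem {x0 p r : ℤ} (h : ¬ (3 : ℤ) ∣ x0) : XV x0 p r ∈ XR := by
  refine ⟨h, ⟨p, ?_⟩, ⟨r, ?_⟩⟩
  · show x0 + 9 * p - x0 = 9 * p
    ring
  · show -2 * x0 + 9 * r + 2 * x0 = 9 * r
    ring

theorem XR_ex {x : Fin 3 → ℤ} (h : x ∈ XR) : ∃ x0 p r : ℤ, ¬ (3 : ℤ) ∣ x0 ∧ x = XV x0 p r := by
  obtain ⟨h0, ⟨p, hp⟩, ⟨r, hr⟩⟩ := h
  refine ⟨x 0, p, r, h0, ?_⟩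
  funext i
  fin_cases i
  · rfl
  · show x 1 = x 0 + 9 * p
    linarith
  · show x 2 = -2 * x 0 + 9 * r
    linarith

/-- the element of the Iwahori order attached to a vector -/
def encP (N : ℕ) (x0 p r : ℤ) : Qn N := zq 0 (6 * (p + r)) (-9 * p) (2 * x0 + 3 * p - 6 * r)

/-- the element of the Iwahori order attached to a vector -/
def encv (N : ℕ) (x : Fin 3 → ℤ) : Qn N := encP N (x 0) ((x 1 - x 0) / 9) ((x 2 + 2 * x 0) / 9)

section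
variable {N : ℕ}

theorem encv_XV (x0 p r : ℤ) : encv N (XV x0 p r) = encP N x0 p r := by
  have h1 : (XV x0 p r 1 - XV x0 p r 0) / 9 = p := by
    show (x0 + 9 * p - x0) / 9 = p
    omega
  have h2 : (XV x0 p r 2 + 2 * XV x0 p r 0) / 9 = r := by
    show (-2 * x0 + 9 * r + 2 * x0) / 9 = r
    omega
  unfold encv
  rw [h1, h2]
  rfl

theorem half_dvd {a : ℤ} (h : ((3 ^ N : ℕ) : ℤ) ∣ 2 * a) : ((3 ^ N : ℕ) : ℤ) ∣ a := by
  have h1 : IsCoprime ((3 ^ N : ℕ) : ℤ) 2 := by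
    push_cast
    apply IsCoprime.pow_left
    exact ⟨1, -1, by norm_num⟩
  exact h1.dvd_of_dvd_mul_left h

theorem encv_inj {x y : Fin 3 → ℤ} (hx : x ∈ XR) (hy : y ∈ XR) (h : encv N x = encv N y)
    (i : Fin 3) : ((3 ^ N : ℕ) : ℤ) ∣ x i - y i := by
  obtain ⟨x0, p, r, hx0, rfl⟩ := XR_ex hx
  obtain ⟨y0, p', r', hy0, rfl⟩ := XR_ex hy
  rw [encv_XV, encv_XV] at h
  have c1 : (((6 * (p + r) : ℤ)) : Zn N) = ((6 * (p' + r') : ℤ) : Zn N) :=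
    congrArg QuaternionAlgebra.imI h
  have c2 : (((-9 * p : ℤ)) : Zn N) = ((-9 * p' : ℤ) : Zn N) :=
    congrArg QuaternionAlgebra.imJ h
  have c3 : (((2 * x0 + 3 * p - 6 * r : ℤ)) : Zn N) = ((2 * y0 + 3 * p' - 6 * r' : ℤ) : Zn N) :=
    congrArg QuaternionAlgebra.imK h
  rw [ZMod.intCast_eq_intCast_iff_dvd_sub] at c1 c2 c3
  rw [← neg_sub, dvd_neg] at c1 c2 c3
  apply half_dvd
  fin_cases i
  · show _ ∣ 2 * (x0 - y0)
    have h1 := dvd_add (dvd_add c1 c2) c3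
    have e : 6 * (p + r) - 6 * (p' + r') + (-9 * p - -9 * p') +
      (2 * x0 + 3 * p - 6 * r - (2 * y0 + 3 * p' - 6 * r')) = 2 * (x0 - y0) := by ring
    rwa [e] at h1
  · show _ ∣ 2 * (x0 + 9 * p - (y0 + 9 * p'))
    have h1 := dvd_add (dvd_sub c1 c2) c3
    have e : 6 * (p + r) - 6 * (p' + r') - (-9 * p - -9 * p') +
      (2 * x0 + 3 * p - 6 * r - (2 * y0 + 3 * p' - 6 * r')) =
      2 * (x0 + 9 * p - (y0 + 9 * p')) := by ring
    rwa [e] at h1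
  · show _ ∣ 2 * (-2 * x0 + 9 * r - (-2 * y0 + 9 * r'))
    have h1 := dvd_sub (dvd_sub c1 c3) c3
    have e : 6 * (p + r) - 6 * (p' + r') - (2 * x0 + 3 * p - 6 * r - (2 * y0 + 3 * p' - 6 * r')) -
      (2 * x0 + 3 * p - 6 * r - (2 * y0 + 3 * p' - 6 * r')) =
      2 * (-2 * x0 + 9 * r - (-2 * y0 + 9 * r')) := by ring
    rwa [e] at h1

/-- one half modulo a power of three -/
theorem two_h2 : (2 : Zn N) * (((3 ^ N + 1) / 2 : ℕ) : Zn N) = 1 := two_hf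

/-- the vectors give elements of the disc -/
theorem Dc_encP {x0 p r : ℤ} (h0 : ¬ (3 : ℤ) ∣ x0) : Dc (encP N x0 p r) := by
  obtain ⟨D, hD⟩ : ∃ D : ℤ, D = 2 * x0 + 3 * p - 6 * r := ⟨_, rfl⟩
  have hD3 : ¬ (3 : ℤ) ∣ D := by omega
  obtain ⟨d, hd⟩ := unit_int (N := N) hD3
  obtain ⟨e, he⟩ : ∃ e : Zn N, e = ((d⁻¹ : (Zn N)ˣ) : Zn N) := ⟨_, rfl⟩
  have hde : (d : Zn N) * e = 1 := by rw [he]; exact Units.mul_inv d
  obtain ⟨w, hw⟩ := sqrt_unit (N := N) (3 * e ^ 2 * (2 * ((p : Zn N) + r) ^ 2 + 3 * (p : Zn N) ^ 2))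
  obtain ⟨u, hu⟩ := unit_three (N := N) w
  obtain ⟨t2, ht2⟩ := two_unit N
  obtain ⟨f, hf'⟩ : ∃ f : Zn N, f = ((t2⁻¹ : (Zn N)ˣ) : Zn N) := ⟨_, rfl⟩
  have h2f : (2 : Zn N) * f = 1 := by rw [hf', ← ht2]; exact Units.mul_inv t2
  obtain ⟨σ, hσ⟩ : ∃ σ : Zn N, σ = d * (1 + 3 * w) := ⟨_, rfl⟩
  have hσ2 : σ ^ 2 = (d : Zn N) ^ 2 + 18 * ((p : Zn N) + r) ^ 2 + 27 * (p : Zn N) ^ 2 := by
    rw [hσ, mul_pow, hw]
    linear_combination (9 * (2 * ((p : Zn N) + r) ^ 2 + 3 * (p : Zn N) ^ 2) *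
      ((d : Zn N) * e + 1)) * hde
  -- the conjugating element
  obtain ⟨η, hη⟩ : ∃ η : Qn N, η = ⟨f * w, -(f * e * p), -(f * e * (p + r)), 0⟩ := ⟨_, rfl⟩
  obtain ⟨q, hq⟩ : ∃ q : Qn N, q = ⟨σ + d, -(3 * p), -(3 * (p + r)), 0⟩ := ⟨_, rfl⟩
  have hqη : q = ((d * t2 : (Zn N)ˣ) : Zn N) • (kp η : Qn N) := by
    rw [kap_val, hq, hη, Units.val_mul, ht2, hσ]
    apply QuaternionAlgebra.ext
    · simp
      linear_combination (-(3 * (d : Zn N) * w)) * h2f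
    · simp
      linear_combination (-(3 * (p : Zn N) * (d : Zn N) * e)) * h2f - 3 * (p : Zn N) * hde
    · simp
      linear_combination (-(3 * ((p : Zn N) + r) * (d : Zn N) * e)) * h2f -
        3 * ((p : Zn N) + r) * hde
    · simp
  obtain ⟨g, hg⟩ : ∃ g : (Qn N)ˣ, (g : Qn N) = q := by
    refine ⟨⟨((d * t2 : (Zn N)ˣ) : Zn N) • (kp η : Qn N), (((d * t2)⁻¹ : (Zn N)ˣ) : Zn N) •
      ((kp η)⁻¹ : (Qn N)ˣ), ?_, ?_⟩, hqη.symm⟩
    · rw [smul_mul_assoc, mul_smul_comm, smul_smul, Units.mul_inv, Units.mul_inv, one_smul]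
    · rw [smul_mul_assoc, mul_smul_comm, smul_smul, Units.inv_mul, Units.inv_mul, one_smul]
  have hgK : g ∈ Kz N 1 := ⟨d * t2, η, by rw [hg, hqη, kap_val, pow_one]⟩
  have hX : encP N x0 p r = ⟨0, 6 * (p + r), -(9 * p), d⟩ := by
    unfold encP
    rw [← hD]
    unfold zq
    apply QuaternionAlgebra.ext
    · simp
    · simp
    · simp
    · simp [hd]
  have hrel : (g : Qn N) * encP N x0 p r = σ • (kk N * (g : Qn N)) := by
    rw [hg, hq, hX]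
    unfold kk
    apply QuaternionAlgebra.ext
    · simp
      ring
    · simp
      ring
    · simp
      ring
    · simp
      linear_combination (-1 : Zn N) * hσ2
  refine ⟨g, hgK, d * u, ?_⟩
  have e5 : ((d * u : (Zn N)ˣ) : Zn N) = σ := by rw [Units.val_mul, hu, hσ]
  rw [e5, mul_assoc, ← mul_smul_comm, ← hrel, ← mul_assoc, Units.inv_mul, one_mul]

theorem Dc_encv {x : Fin 3 → ℤ} (hx : x ∈ XR) : Dc (encv N x) := by
  obtain ⟨x0, p, r, hx0, rfl⟩ := XR_ex hx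
  rw [encv_XV]
  exact Dc_encP hx0

/-- the elements of the disc come from vectors -/
theorem exists_encv (hN : 1 ≤ N) {y : Qn N} (hy : Dc y) : ∃ x ∈ XR, y = encv N x := by
  obtain ⟨g, ⟨s, η, hg⟩, t, rfl⟩ := hy
  obtain ⟨A, hA⟩ := ZMod.intCast_surjective η.re
  obtain ⟨b, hb⟩ := ZMod.intCast_surjective η.imI
  obtain ⟨c, hc⟩ := ZMod.intCast_surjective η.imJ
  obtain ⟨d, hd⟩ := ZMod.intCast_surjective η.imK
  obtain ⟨a, ha⟩ : ∃ a : ℤ, a = 1 + 3 * A := ⟨_, rfl⟩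
  -- the norm
  obtain ⟨n, hn⟩ : ∃ n : ℤ, n = a ^ 2 + 27 * b ^ 2 + 18 * c ^ 2 + 54 * d ^ 2 := ⟨_, rfl⟩
  have hn3 : ¬ (3 : ℤ) ∣ n := by
    have e : n = 1 + 3 * (2 * A + 3 * A ^ 2 + 9 * b ^ 2 + 6 * c ^ 2 + 18 * d ^ 2) := by
      rw [hn, ha]; ring
    rw [e]; omega
  obtain ⟨m, hm⟩ := unit_int (N := N) hn3
  have hgv : (g : Qn N) = (s : Zn N) • zq a (3 * b) (3 * c) (3 * d) := by
    rw [hg]
    congr 1
    unfold zq
    rw [ha]
    apply QuaternionAlgebra.ext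
    · simp [hA]
    · simp [hb]
    · simp [hc]
    · simp [hd]
  have hginv : ((g⁻¹ : (Qn N)ˣ) : Qn N) = (((s⁻¹ * m⁻¹ : (Zn N)ˣ)) : Zn N) •
      zq a (-(3 * b)) (-(3 * c)) (-(3 * d)) := by
    apply Units.inv_eq_of_mul_eq_one_right
    rw [hgv, smul_mul_assoc, mul_smul_comm, zq_mul, smul_smul]
    have e1 : (zq (a * a - 3 * (3 * b) * -(3 * b) - 2 * (3 * c) * -(3 * c) - 6 * (3 * d) * -(3 * d))
        (a * -(3 * b) + 3 * b * a + 2 * (3 * c) * -(3 * d) - 2 * (3 * d) * -(3 * c))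
        (a * -(3 * c) + 3 * c * a - 3 * (3 * b) * -(3 * d) + 3 * (3 * d) * -(3 * b))
        (a * -(3 * d) + 3 * d * a + 3 * b * -(3 * c) - 3 * c * -(3 * b)) : Qn N) =
        (m : Zn N) • 1 := by
      rw [hm, hn]
      unfold zq
      apply QuaternionAlgebra.ext
      · simp; ring
      · simp; ring
      · simp; ring
      · simp; ring
    rw [e1, smul_smul]
    have e2 : (s : Zn N) * ((s⁻¹ * m⁻¹ : (Zn N)ˣ) : Zn N) * (m : Zn N) = 1 := by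
      rw [← Units.val_mul, ← Units.val_mul]
      have : s * (s⁻¹ * m⁻¹) * m = 1 := by group
      rw [this, Units.val_one]
    rw [e2, one_smul]
  obtain ⟨v, hv⟩ : ∃ v : (Zn N)ˣ, v = t * (m⁻¹) := ⟨_, rfl⟩
  obtain ⟨v0, hv0⟩ := ZMod.intCast_surjective (v : Zn N)
  have hv3 : ¬ (3 : ℤ) ∣ v0 := by
    intro h
    have h4 : IsUnit ((v0 : ℤ) : Zn N) := by rw [hv0]; exact v.isUnit
    obtain ⟨z, hz⟩ := h
    rw [hz] at h4
    push_cast at h4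
    have h5 : IsUnit (3 : Zn N) := isUnit_of_mul_isUnit_left h4
    have h6 : IsUnit ((3 : Zn N) ^ N) := h5.pow N
    rw [three_pow_zero le_rfl] at h6
    have h7 : (0 : Zn N) = 1 := (isUnit_zero_iff.1 h6)
    have h8 : ((1 : ℤ) : Zn N) = ((0 : ℤ) : Zn N) := by push_cast; exact h7.symm
    rw [ZMod.intCast_eq_intCast_iff_dvd_sub] at h8
    have h3 : (3 : ℤ) ∣ ((3 ^ N : ℕ) : ℤ) := by
      push_cast
      exact dvd_pow_self 3 (by omega)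
    have h9 := h3.trans h8
    omega
  obtain ⟨k2, hk2⟩ : ∃ k2 : ℤ, k2 = (((3 ^ N + 1) / 2 : ℕ) : ℤ) := ⟨_, rfl⟩
  have hk2' : (2 : Zn N) * (k2 : Zn N) = 1 := by rw [hk2, Int.cast_natCast]; exact two_h2
  have hodd : Odd (3 ^ N) := Odd.pow (by decide)
  have hk23 : ¬ (3 : ℤ) ∣ k2 := by
    have h3 : 3 ∣ 3 ^ N := dvd_pow_self 3 (by omega)
    obtain ⟨z, hz⟩ := h3
    obtain ⟨z', hz'⟩ := hodd
    omega
  -- the coordinates of the conjugate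
  have hval : ((t : Zn N) • (((g⁻¹ : (Qn N)ˣ) : Qn N) * kk N * (g : Qn N))) =
      (v0 : Zn N) • zq 0 (12 * (-(a * c) + 9 * b * d)) (18 * (a * b + 6 * c * d))
        (a ^ 2 + 54 * d ^ 2 - 27 * b ^ 2 - 18 * c ^ 2) := by
    have ek : kk N = zq 0 0 0 1 := by
      unfold kk zq
      apply QuaternionAlgebra.ext <;> simp
    rw [hginv, hgv, ek, smul_mul_assoc, smul_mul_assoc, mul_smul_comm, zq_mul, zq_mul, smul_smul,
      smul_smul, hv0]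
    have e2 : (t : Zn N) * ((s⁻¹ * m⁻¹ : (Zn N)ˣ) : Zn N) * (s : Zn N) = (v : Zn N) := by
      rw [← Units.val_mul, ← Units.val_mul, hv]
      congr 1
      rw [mul_assoc, mul_comm (s⁻¹) m⁻¹, inv_mul_cancel_right]
    rw [e2]
    congr 1
    unfold zq
    apply QuaternionAlgebra.ext
    · simp; ring
    · simp; ring
    · simp; ring
    · simp; ring
  rw [hval]
  obtain ⟨B, hB⟩ : ∃ B : ℤ, B = v0 * (4 * (-(a * c) + 9 * b * d)) := ⟨_, rfl⟩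
  obtain ⟨C, hC⟩ : ∃ C : ℤ, C = v0 * (2 * (a * b + 6 * c * d)) := ⟨_, rfl⟩
  obtain ⟨D, hD⟩ : ∃ D : ℤ, D = v0 * (a ^ 2 + 54 * d ^ 2 - 27 * b ^ 2 - 18 * c ^ 2) := ⟨_, rfl⟩
  have hD3 : ¬ (3 : ℤ) ∣ D := by
    intro h
    rw [hD] at h
    rcases Int.prime_three.dvd_or_dvd h with h | h
    · exact hv3 h
    · have e : a ^ 2 + 54 * d ^ 2 - 27 * b ^ 2 - 18 * c ^ 2 = 1 + 3 * (2 * A + 3 * A ^ 2 +
        18 * d ^ 2 - 9 * b ^ 2 - 6 * c ^ 2) := by rw [ha]; ring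
      rw [e] at h
      omega
  obtain ⟨p, hp⟩ : ∃ p : ℤ, p = -C := ⟨_, rfl⟩
  obtain ⟨r, hr⟩ : ∃ r : ℤ, r = B * k2 - p := ⟨_, rfl⟩
  have hx0 : ¬ (3 : ℤ) ∣ k2 * (D - 3 * p + 6 * r) := by
    intro h
    rcases Int.prime_three.dvd_or_dvd h with h | h
    · exact hk23 h
    · exact hD3 (by omega)
  refine ⟨XV (k2 * (D - 3 * p + 6 * r)) p r, XV_mem hx0, ?_⟩
  rw [encv_XV]
  unfold encP zq
  apply QuaternionAlgebra.ext
  · simp
  · simp [hp, hr]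
    have hB' := congrArg (Int.cast : ℤ → Zn N) hB
    push_cast at hB'
    rw [hB']
    linear_combination (-3 * ((v0 : Zn N) * (4 * (-((a : Zn N) * c) + 9 * b * d)))) * hk2'
  · simp [hp]
    have hC' := congrArg (Int.cast : ℤ → Zn N) hC
    push_cast at hC'
    rw [hC']
    ring
  · simp [hp, hr]
    have hD' := congrArg (Int.cast : ℤ → Zn N) hD
    push_cast at hD'
    rw [hD']
    obtain ⟨Q, hQ⟩ : ∃ Q : Zn N, Q = (a : Zn N) ^ 2 + 54 * (d : Zn N) ^ 2 - 27 * (b : Zn N) ^ 2 -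
      18 * (c : Zn N) ^ 2 := ⟨_, rfl⟩
    rw [← hQ]
    linear_combination (-((v0 : Zn N) * Q + 3 * (C : Zn N) + 6 * ((B : Zn N) * k2 + C))) * hk2'

end

end Pool.Agent.Helper725_HQ.RR
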