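import Pool.Agent.Helper725_HQ.T3

/-! Reduction of forms modulo a place above three. -/

set_option autoImplicit false
set_option linter.unusedSimpArgs false
set_option linter.unnecessarySeqFocus false

namespace Pool.Agent.Helper725_HQ

open Quaternion MvPolynomial

/-- the residue field -/
abbrev kap (V : ValuationSubring ℂ) := IsLocalRing.ResidueField V

/-- the residue map -/
noncomputable def rs (V : ValuationSubring ℂ) : V →+* kap V := IsLocalRing.residue V

/-- `V` lies above three -/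
def Thr (V : ValuationSubring ℂ) : Prop := (3 : V) ∈ IsLocalRing.maximalIdeal V

theorem three_zero {V : ValuationSubring ℂ} (h : Thr V) : (3 : kap V) = 0 := by
  have : rs V 3 = 0 := (IsLocalRing.residue_eq_zero_iff _).2 h
  rwa [map_ofNat] at this

theorem rs_eq_zero {V : ValuationSubring ℂ} {a : V} : rs V a = 0 ↔ ¬ IsUnit a := by
  unfold rs
  rw [IsLocalRing.residue_eq_zero_iff, IsLocalRing.mem_maximalIdeal, mem_nonunits_iff]

section
variable {V : ValuationSubring ℂ}

theorem sub_inj : Function.Injective V.subtype := Subtype.val_injective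

theorem lift_poly {P : MvPolynomial (Fin 3) ℂ} (h : ∀ m, coeff m P ∈ V) :
    ∃ f : MvPolynomial (Fin 3) V, map V.subtype f = P := by
  refine ⟨∑ m ∈ P.support, monomial m ⟨coeff m P, h m⟩, ?_⟩
  rw [map_sum]
  conv_rhs => rw [as_sum P]
  apply Finset.sum_congr rfl
  intro m _
  rw [map_monomial]
  rfl

/-- the reduction relation -/
def Red (V : ValuationSubring ℂ) (F : Fun3) (gA gB : MvPolynomial (Fin 3) (kap V)) : Prop :=
  ∃ fA fB : MvPolynomial (Fin 3) V, map V.subtype fA = F Oo (lm (pq nA) Oo) ∧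
    map V.subtype fB = F Oo (lm (pq nB) Oo) ∧ map (rs V) fA = gA ∧ map (rs V) fB = gB

variable {F G : Fun3} {gA gB gA' gB' : MvPolynomial (Fin 3) (kap V)}

theorem Red.unique (h : Red V F gA gB) (h' : Red V F gA' gB') : gA = gA' ∧ gB = gB' := by
  obtain ⟨fA, fB, h1, h2, rfl, rfl⟩ := h
  obtain ⟨fA', fB', h1', h2', rfl, rfl⟩ := h'
  have e1 : fA = fA' := map_injective V.subtype sub_inj (by rw [h1, h1'])
  have e2 : fB = fB' := map_injective V.subtype sub_inj (by rw [h2, h2'])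
  rw [e1, e2]
  exact ⟨rfl, rfl⟩

theorem Red.add (h : Red V F gA gB) (h' : Red V G gA' gB') :
    Red V (F + G) (gA + gA') (gB + gB') := by
  obtain ⟨fA, fB, h1, h2, rfl, rfl⟩ := h
  obtain ⟨fA', fB', h1', h2', rfl, rfl⟩ := h'
  refine ⟨fA + fA', fB + fB', ?_, ?_, ?_, ?_⟩
  · rw [map_add, h1, h1']; rfl
  · rw [map_add, h2, h2']; rfl
  · rw [map_add]
  · rw [map_add]

theorem Red.smul (h : Red V F gA gB) (a : V) :
    Red V ((a : ℂ) • F) (C (rs V a) * gA) (C (rs V a) * gB) := by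
  obtain ⟨fA, fB, h1, h2, rfl, rfl⟩ := h
  refine ⟨C a * fA, C a * fB, ?_, ?_, ?_, ?_⟩
  · rw [map_mul, map_C, h1]
    show C (a : ℂ) * _ = (a : ℂ) • F Oo (lm (pq nA) Oo)
    rw [smul_eq_C_mul]
  · rw [map_mul, map_C, h2]
    show C (a : ℂ) * _ = (a : ℂ) • F Oo (lm (pq nB) Oo)
    rw [smul_eq_C_mul]
  · rw [map_mul, map_C]
  · rw [map_mul, map_C]

theorem Red.zero : Red V 0 0 0 := ⟨0, 0, by rw [map_zero]; rfl, by rw [map_zero]; rfl,
  by rw [map_zero], by rw [map_zero]⟩

theorem Red.hom (h : Red V F gA gB) {k : ℕ} (hF : Form0 17 k F) :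
    gA.IsHomogeneous k ∧ gB.IsHomogeneous k := by
  obtain ⟨fA, fB, h1, h2, rfl, rfl⟩ := h
  constructor
  · apply IsHomogeneous.map
    apply IsHomogeneous.of_map sub_inj
    rw [h1]; exact hF.hom _ _
  · apply IsHomogeneous.map
    apply IsHomogeneous.of_map sub_inj
    rw [h2]; exact hF.hom _ _

/-- scaling a nonzero form so that its reduction is nonzero -/
theorem exists_scale {k : ℕ} (hF : Form0 17 k F) (h0 : F ≠ 0) :
    ∃ c : ℂ, c ≠ 0 ∧ ∃ gA gB, Red V (c • F) gA gB ∧ ¬ (gA = 0 ∧ gB = 0) := by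
  classical
  set PA := F Oo (lm (pq nA) Oo) with hPA
  set PB := F Oo (lm (pq nB) Oo) with hPB
  set S : Finset ℂ := PA.support.image (fun m => coeff m PA) ∪
    PB.support.image (fun m => coeff m PB) with hS
  have hne : S.Nonempty := by
    by_contra h
    rw [Finset.not_nonempty_iff_eq_empty, hS, Finset.union_eq_empty, Finset.image_eq_empty,
      Finset.image_eq_empty, support_eq_empty, support_eq_empty] at h
    exact h0 (form_ext hF h.1 h.2)
  have hnz : ∀ c ∈ S, c ≠ 0 := by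
    intro c hc
    rw [hS, Finset.mem_union, Finset.mem_image, Finset.mem_image] at hc
    rcases hc with ⟨m, hm, rfl⟩ | ⟨m, hm, rfl⟩
    · exact mem_support_iff.1 hm
    · exact mem_support_iff.1 hm
  obtain ⟨c0, hc0, hmax⟩ := Finset.exists_max_image S V.valuation hne
  have hc00 := hnz c0 hc0
  have key : ∀ c ∈ S, c0⁻¹ * c ∈ V := by
    intro c hc
    rw [← ValuationSubring.valuation_le_one_iff, map_mul, map_inv₀]
    have h1 := hmax c hc
    have h2 : V.valuation c0 ≠ 0 := (Valuation.ne_zero_iff _).2 hc00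
    rw [inv_mul_le_iff₀ (zero_lt_iff.2 h2), mul_one]
    exact h1
  have hA : ∀ m, coeff m (c0⁻¹ • PA) ∈ V := by
    intro m
    rw [coeff_smul, smul_eq_mul]
    by_cases hm : m ∈ PA.support
    · exact key _ (by rw [hS]; exact Finset.mem_union_left _ (Finset.mem_image_of_mem _ hm))
    · rw [notMem_support_iff.1 hm, mul_zero]; exact V.zero_mem
  have hB : ∀ m, coeff m (c0⁻¹ • PB) ∈ V := by
    intro m
    rw [coeff_smul, smul_eq_mul]
    by_cases hm : m ∈ PB.support
    · exact key _ (by rw [hS]; exact Finset.mem_union_right _ (Finset.mem_image_of_mem _ hm))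
    · rw [notMem_support_iff.1 hm, mul_zero]; exact V.zero_mem
  obtain ⟨fA, hfA⟩ := lift_poly hA
  obtain ⟨fB, hfB⟩ := lift_poly hB
  refine ⟨c0⁻¹, inv_ne_zero hc00, map (rs V) fA, map (rs V) fB, ⟨fA, fB, hfA, hfB, rfl, rfl⟩, ?_⟩
  rintro ⟨hgA, hgB⟩
  rw [hS, Finset.mem_union, Finset.mem_image, Finset.mem_image] at hc0
  rcases hc0 with ⟨m, hm, e⟩ | ⟨m, hm, e⟩
  · have h1 := congrArg (coeff m) hfA
    rw [coeff_map, coeff_smul, smul_eq_mul, e, inv_mul_cancel₀ hc00] at h1
    have h2 : coeff m fA = 1 := sub_inj (by rw [h1, map_one])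
    have h3 := congrArg (coeff m) hgA
    rw [coeff_map, h2, map_one, coeff_zero] at h3
    exact one_ne_zero h3
  · have h1 := congrArg (coeff m) hfB
    rw [coeff_map, coeff_smul, smul_eq_mul, e, inv_mul_cancel₀ hc00] at h1
    have h2 : coeff m fB = 1 := sub_inj (by rw [h1, map_one])
    have h3 := congrArg (coeff m) hgB
    rw [coeff_map, h2, map_one, coeff_zero] at h3
    exact one_ne_zero h3

/-- the linear form attached to an integral vector -/
noncomputable def Lp (V : ValuationSubring ℂ) (v : Fin 3 → ℤ) : MvPolynomial (Fin 3) (kap V) :=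
  ∑ j, C ((v j : ℤ) : kap V) * X j

/-- the value at an integral vector -/
noncomputable def evz (g : MvPolynomial (Fin 3) (kap V)) (v : Fin 3 → ℤ) : kap V :=
  eval (fun j => ((v j : ℤ) : kap V)) g

theorem red_lsub {f : MvPolynomial (Fin 3) V} {M : Fin 3 → Fin 3 → ℤ} :
    map V.subtype (lsub (fun i j => ((M i j : ℤ) : V)) f) =
      lsub (fun i j => ((M i j : ℤ) : ℂ)) (map V.subtype f) := by
  rw [map_lsub]
  congr 2

theorem red_lsub' {f : MvPolynomial (Fin 3) V} {M : Fin 3 → Fin 3 → ℤ} :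
    map (rs V) (lsub (fun i j => ((M i j : ℤ) : V)) f) =
      lsub (fun i j => ((M i j : ℤ) : kap V)) (map (rs V) f) := by
  rw [map_lsub]
  congr 2

theorem red_rank (hV : Thr V) {g : MvPolynomial (Fin 3) (kap V)} {k : ℕ} (hg : g.IsHomogeneous k)
    {M : Fin 3 → Fin 3 → ℤ} {u v : Fin 3 → ℤ} (h : ∀ i j, ∃ w : ℤ, M i j = -(u i) * v j + 3 * w) :
    lsub (fun i j => ((M i j : ℤ) : kap V)) g = C (evz g (-u)) * (Lp V v) ^ k := by
  have e : (fun i j => ((M i j : ℤ) : kap V)) =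
      fun i j => (((-u) i : ℤ) : kap V) * ((v j : ℤ) : kap V) := by
    funext i j
    obtain ⟨w, hw⟩ := h i j
    rw [hw]
    push_cast
    rw [three_zero hV, zero_mul, add_zero]
    simp
  rw [e, lsub_rank_one hg]
  rfl

/-- the reduced Hecke operator, first component -/
noncomputable def TbA (V : ValuationSubring ℂ) (k : ℕ) (gB : MvPolynomial (Fin 3) (kap V)) :
    MvPolynomial (Fin 3) (kap V) :=
  ∑ i, C (evz gB (-(uA i))) * (Lp V (aa i)) ^ k

/-- the reduced Hecke operator, second component -/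
noncomputable def TbB (V : ValuationSubring ℂ) (k : ℕ) (gA gB : MvPolynomial (Fin 3) (kap V)) :
    MvPolynomial (Fin 3) (kap V) :=
  ∑ i, C (evz (if bB i = nB then gB else gA) (-(uB i))) * (Lp V (aa i)) ^ k

theorem Red.T3 (hV : Thr V) {k : ℕ} (hF : Form0 17 k F) (h : Red V F gA gB) :
    Red V ((3 : ℂ) ^ k • TL 17 3 p3 F) (TbA V k gB) (TbB V k gA gB) := by
  have hh := h.hom hF
  obtain ⟨fA, fB, h1, h2, rfl, rfl⟩ := h
  refine ⟨∑ i, lsub (fun j l => ((eM (aa i) (gA i) j l : ℤ) : V)) fB,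
    ∑ i, lsub (fun j l => ((eM (aa i) (gB i) j l : ℤ) : V)) (if bB i = nB then fB else fA),
    ?_, ?_, ?_, ?_⟩
  · show _ = (3 : ℂ) ^ k • TL 17 3 p3 F Oo (lm (pq nA) Oo)
    rw [smul_eq_C_mul, T3A hF, map_sum]
    apply Finset.sum_congr rfl
    intro i _
    rw [red_lsub, h2]
  · show _ = (3 : ℂ) ^ k • TL 17 3 p3 F Oo (lm (pq nB) Oo)
    rw [smul_eq_C_mul, T3B hF, map_sum]
    apply Finset.sum_congr rfl
    intro i _
    rw [red_lsub]
    by_cases hi : bB i = nB
    · rw [if_pos hi, h2, hi]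
    · rw [if_neg hi, h1]
      have : bB i = nA := by
        have h3 : ∀ i, bB i = nA ∨ bB i = nB := by decide
        exact (h3 i).resolve_right hi
      rw [this]
  · rw [map_sum]
    unfold TbA
    apply Finset.sum_congr rfl
    intro i _
    rw [red_lsub', red_rank hV hh.2 (eMA3 i)]
  · rw [map_sum]
    unfold TbB
    apply Finset.sum_congr rfl
    intro i _
    rw [red_lsub']
    by_cases hi : bB i = nB
    · rw [if_pos hi, if_pos hi, red_rank hV hh.2 (eMB3 i)]
    · rw [if_neg hi, if_neg hi, red_rank hV hh.1 (eMB3 i)]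

/-- the matrix of the involution -/
def wM (n : Fin 3 → ℤ) (i j : Fin 3) : ℤ := 2 * n i * n j - (if i = j then 17 else 0)

theorem Red.ww {k : ℕ} (hF : Form0 17 k F) (h : Red V F gA gB) :
    Red V ((17 : ℂ) ^ k • ww 17 F) (lsub (fun i j => ((wM nA i j : ℤ) : kap V)) gA)
      (lsub (fun i j => ((wM nB i j : ℤ) : kap V)) gB) := by
  obtain ⟨fA, fB, h1, h2, rfl, rfl⟩ := h
  refine ⟨lsub (fun i j => ((wM nA i j : ℤ) : V)) fA, lsub (fun i j => ((wM nB i j : ℤ) : V)) fB,
    ?_, ?_, ?_, ?_⟩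
  · show _ = (17 : ℂ) ^ k • Helper725_HQ.ww 17 F Oo (lm (pq nA) Oo)
    rw [smul_eq_C_mul, ww_pq hF nA_norm, red_lsub, h1]
    rfl
  · show _ = (17 : ℂ) ^ k • Helper725_HQ.ww 17 F Oo (lm (pq nB) Oo)
    rw [smul_eq_C_mul, ww_pq hF nB_norm, red_lsub, h2]
    rfl
  · rw [red_lsub']
  · rw [red_lsub']

end

end Pool.Agent.Helper725_HQ
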