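import Pool.Agent.Helper725_HQ.Defs

/-! Right ideals of the Hurwitz order: elementary facts. -/

set_option autoImplicit false
set_option linter.unusedSimpArgs false
set_option linter.unnecessarySeqFocus false
set_option linter.unusedTactic false

namespace Pool.Agent.Helper725_HQ

open Quaternion

theorem mem_lm {α x : ℍ[ℚ]} {I : AddSubgroup ℍ[ℚ]} : x ∈ lm α I ↔ ∃ y ∈ I, α * y = x := by
  unfold lm
  rw [AddSubgroup.mem_map]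
  rfl

theorem mem_rm {β x : ℍ[ℚ]} {I : AddSubgroup ℍ[ℚ]} : x ∈ rm β I ↔ ∃ y ∈ I, y * β = x := by
  unfold rm
  rw [AddSubgroup.mem_map]
  rfl

theorem mem_lm' {α x : ℍ[ℚ]} (hα : α ≠ 0) {I : AddSubgroup ℍ[ℚ]} :
    x ∈ lm α I ↔ α⁻¹ * x ∈ I := by
  rw [mem_lm]
  constructor
  · rintro ⟨y, hy, rfl⟩
    rwa [← mul_assoc, inv_mul_cancel₀ hα, one_mul]
  · intro h
    exact ⟨_, h, by rw [← mul_assoc, mul_inv_cancel₀ hα, one_mul]⟩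

theorem mem_rm' {β x : ℍ[ℚ]} (hβ : β ≠ 0) {I : AddSubgroup ℍ[ℚ]} :
    x ∈ rm β I ↔ x * β⁻¹ ∈ I := by
  rw [mem_rm]
  constructor
  · rintro ⟨y, hy, rfl⟩
    rwa [mul_assoc, mul_inv_cancel₀ hβ, mul_one]
  · intro h
    exact ⟨_, h, by rw [mul_assoc, inv_mul_cancel₀ hβ, mul_one]⟩

theorem mul_mem_lm {α x : ℍ[ℚ]} {I : AddSubgroup ℍ[ℚ]} (h : x ∈ I) : α * x ∈ lm α I :=
  mem_lm.2 ⟨x, h, rfl⟩

theorem lm_lm (α β : ℍ[ℚ]) (I : AddSubgroup ℍ[ℚ]) : lm α (lm β I) = lm (α * β) I := by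
  ext x
  simp only [mem_lm]
  constructor
  · rintro ⟨y, ⟨z, hz, rfl⟩, rfl⟩
    exact ⟨z, hz, by rw [mul_assoc]⟩
  · rintro ⟨z, hz, rfl⟩
    exact ⟨β * z, ⟨z, hz, rfl⟩, by rw [mul_assoc]⟩

theorem rm_rm (α β : ℍ[ℚ]) (I : AddSubgroup ℍ[ℚ]) : rm α (rm β I) = rm (β * α) I := by
  ext x
  simp only [mem_rm]
  constructor
  · rintro ⟨y, ⟨z, hz, rfl⟩, rfl⟩
    exact ⟨z, hz, by rw [mul_assoc]⟩
  · rintro ⟨z, hz, rfl⟩
    exact ⟨z * β, ⟨z, hz, rfl⟩, by rw [mul_assoc]⟩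

theorem lm_rm (α β : ℍ[ℚ]) (I : AddSubgroup ℍ[ℚ]) : lm α (rm β I) = rm β (lm α I) := by
  ext x
  simp only [mem_rm, mem_lm]
  constructor
  · rintro ⟨y, ⟨z, hz, rfl⟩, rfl⟩
    exact ⟨α * z, ⟨z, hz, rfl⟩, by rw [mul_assoc]⟩
  · rintro ⟨y, ⟨z, hz, rfl⟩, rfl⟩
    exact ⟨z * β, ⟨z, hz, rfl⟩, by rw [mul_assoc]⟩

theorem lm_one (I : AddSubgroup ℍ[ℚ]) : lm 1 I = I := by
  ext x
  simp [mem_lm]

theorem lm_inv_lm {α : ℍ[ℚ]} (hα : α ≠ 0) (I : AddSubgroup ℍ[ℚ]) : lm α⁻¹ (lm α I) = I := by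
  rw [lm_lm, inv_mul_cancel₀ hα, lm_one]

theorem lm_lm_inv {α : ℍ[ℚ]} (hα : α ≠ 0) (I : AddSubgroup ℍ[ℚ]) : lm α (lm α⁻¹ I) = I := by
  rw [lm_lm, mul_inv_cancel₀ hα, lm_one]

theorem lm_inf {α : ℍ[ℚ]} (hα : α ≠ 0) (I J : AddSubgroup ℍ[ℚ]) :
    lm α (I ⊓ J) = lm α I ⊓ lm α J := by
  ext x
  simp only [AddSubgroup.mem_inf, mem_lm' hα]

theorem rm_inf {β : ℍ[ℚ]} (hβ : β ≠ 0) (I J : AddSubgroup ℍ[ℚ]) :
    rm β (I ⊓ J) = rm β I ⊓ rm β J := by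
  ext x
  simp only [AddSubgroup.mem_inf, mem_rm' hβ]

theorem lm_le {α : ℍ[ℚ]} (hα : α ≠ 0) {I J : AddSubgroup ℍ[ℚ]} : lm α I ≤ lm α J ↔ I ≤ J := by
  constructor
  · intro h x hx
    have := h (mul_mem_lm (α := α) hx)
    rwa [mem_lm' hα, ← mul_assoc, inv_mul_cancel₀ hα, one_mul] at this
  · intro h x hx
    rw [mem_lm' hα] at hx ⊢
    exact h hx

theorem rm_le {β : ℍ[ℚ]} (hβ : β ≠ 0) {I J : AddSubgroup ℍ[ℚ]} : rm β I ≤ rm β J ↔ I ≤ J := by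
  constructor
  · intro h x hx
    have := h (mem_rm.2 ⟨x, hx, rfl⟩ : x * β ∈ rm β I)
    rwa [mem_rm' hβ, mul_assoc, mul_inv_cancel₀ hβ, mul_one] at this
  · intro h x hx
    rw [mem_rm' hβ] at hx ⊢
    exact h hx

theorem lm_lt {α : ℍ[ℚ]} (hα : α ≠ 0) {I J : AddSubgroup ℍ[ℚ]} : lm α I < lm α J ↔ I < J := by
  rw [lt_iff_le_not_ge, lt_iff_le_not_ge, lm_le hα, lm_le hα]

theorem rm_lt {β : ℍ[ℚ]} (hβ : β ≠ 0) {I J : AddSubgroup ℍ[ℚ]} : rm β I < rm β J ↔ I < J := by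
  rw [lt_iff_le_not_ge, lt_iff_le_not_ge, rm_le hβ, rm_le hβ]

theorem lm_injective {α : ℍ[ℚ]} (hα : α ≠ 0) : Function.Injective (lm α) := by
  intro I J h
  rw [← lm_inv_lm hα I, h, lm_inv_lm hα]

theorem rm_injective {β : ℍ[ℚ]} (hβ : β ≠ 0) : Function.Injective (rm β) := by
  intro I J h
  apply le_antisymm
  · rw [← rm_le hβ, h]
  · rw [← rm_le hβ, h]

theorem natCast_comm (n : ℕ) (x : ℍ[ℚ]) : (n : ℍ[ℚ]) * x = x * n := Nat.cast_commute n x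

theorem lm_nat_lm (n : ℕ) (α : ℍ[ℚ]) (I : AddSubgroup ℍ[ℚ]) :
    lm (n : ℍ[ℚ]) (lm α I) = lm α (lm (n : ℍ[ℚ]) I) := by
  rw [lm_lm, lm_lm, natCast_comm]

theorem natCast_mem_Hur (n : ℕ) : (n : ℍ[ℚ]) ∈ Hur := natCast_mem Hur n

theorem intCast_mem_Hur (n : ℤ) : (n : ℍ[ℚ]) ∈ Hur := intCast_mem Hur n

theorem IsRI.nat_mul {I : AddSubgroup ℍ[ℚ]} (h : IsRI I) (n : ℕ) {x : ℍ[ℚ]} (hx : x ∈ I) :
    (n : ℍ[ℚ]) * x ∈ I := by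
  rw [natCast_comm]
  exact h.mul_mem x hx _ (natCast_mem_Hur n)

/-- every quaternion has an integer multiple in the Hurwitz order -/
theorem exists_den (x : ℍ[ℚ]) : ∃ n : ℕ, 0 < n ∧ (n : ℍ[ℚ]) * x ∈ Hur := by
  refine ⟨x.re.den * x.imI.den * x.imJ.den * x.imK.den, ?_, ?_⟩
  · have h1 := x.re.den_pos
    have h2 := x.imI.den_pos
    have h3 := x.imJ.den_pos
    have h4 := x.imK.den_pos
    positivity
  · have k1 := Rat.mul_den_eq_num x.re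
    have k2 := Rat.mul_den_eq_num x.imI
    have k3 := Rat.mul_den_eq_num x.imJ
    have k4 := Rat.mul_den_eq_num x.imK
    set d1 := x.re.den
    set d2 := x.imI.den
    set d3 := x.imJ.den
    set d4 := x.imK.den
    set n1 := x.re.num
    set n2 := x.imI.num
    set n3 := x.imJ.num
    set n4 := x.imK.num
    refine ⟨2 * (n1 * d2 * d3 * d4), n2 * d1 * d3 * d4 - n1 * d2 * d3 * d4,
      n3 * d1 * d2 * d4 - n1 * d2 * d3 * d4, n4 * d1 * d2 * d3 - n1 * d2 * d3 * d4, ?_, ?_, ?_, ?_⟩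
    · rw [re_mul, re_natCast, imI_natCast, imJ_natCast, imK_natCast]
      push_cast
      rw [← k1]; ring
    · rw [imI_mul, re_natCast, imI_natCast, imJ_natCast, imK_natCast]
      push_cast
      rw [← k2]; ring
    · rw [imJ_mul, re_natCast, imI_natCast, imJ_natCast, imK_natCast]
      push_cast
      rw [← k3]; ring
    · rw [imK_mul, re_natCast, imI_natCast, imJ_natCast, imK_natCast]
      push_cast
      rw [← k4]; ring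

theorem isRI_lm {I : AddSubgroup ℍ[ℚ]} (h : IsRI I) {α : ℍ[ℚ]} (hα : α ≠ 0) : IsRI (lm α I) := by
  obtain ⟨x, hx, hx0⟩ := h.ne_zero
  obtain ⟨n, hn, hnI⟩ := h.den
  obtain ⟨m, hm, hmα⟩ := exists_den α
  refine ⟨⟨α * x, mul_mem_lm hx, mul_ne_zero hα hx0⟩, ?_, n * m, by positivity, ?_⟩
  · intro y hy t ht
    obtain ⟨z, hz, rfl⟩ := mem_lm.1 hy
    rw [mul_assoc]
    exact mul_mem_lm (h.mul_mem z hz t ht)
  · intro y hy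
    obtain ⟨z, hz, rfl⟩ := mem_lm.1 hy
    have e : ((n * m : ℕ) : ℍ[ℚ]) * (α * z) = ((m : ℍ[ℚ]) * α) * ((n : ℍ[ℚ]) * z) := by
      rw [mul_comm n m]
      push_cast
      rw [mul_assoc, mul_assoc, ← mul_assoc (n : ℍ[ℚ]) α, natCast_comm n α, mul_assoc]
    rw [e]
    exact Hur.mul_mem hmα (hnI z hz)

theorem lm_isRI_iff {I : AddSubgroup ℍ[ℚ]} {α : ℍ[ℚ]} (hα : α ≠ 0) : IsRI (lm α I) ↔ IsRI I := by
  constructor
  · intro h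
    have := isRI_lm h (inv_ne_zero hα)
    rwa [lm_inv_lm hα] at this
  · intro h
    exact isRI_lm h hα

@[simp] theorem mk4_re (a b c d : ℚ) : (mk4 a b c d).re = a := rfl
@[simp] theorem mk4_imI (a b c d : ℚ) : (mk4 a b c d).imI = b := rfl
@[simp] theorem mk4_imJ (a b c d : ℚ) : (mk4 a b c d).imJ = c := rfl
@[simp] theorem mk4_imK (a b c d : ℚ) : (mk4 a b c d).imK = d := rfl

theorem ext4 {x y : ℍ[ℚ]} (h1 : x.re = y.re) (h2 : x.imI = y.imI) (h3 : x.imJ = y.imJ)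
    (h4 : x.imK = y.imK) : x = y := QuaternionAlgebra.ext h1 h2 h3 h4

/-- the quaternion `1 + i` -/
def ep : ℍ[ℚ] := mk4 1 1 0 0

theorem ep_re : ep.re = 1 := rfl
theorem ep_imI : ep.imI = 1 := rfl
theorem ep_imJ : ep.imJ = 0 := rfl
theorem ep_imK : ep.imK = 0 := rfl

theorem ep_ne : ep ≠ 0 := by
  intro h
  have := congrArg QuaternionAlgebra.re h
  rw [ep_re] at this
  simp at this

theorem ep_inv : ep⁻¹ = mk4 (1 / 2) (-(1 / 2)) 0 0 := by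
  apply inv_eq_of_mul_eq_one_right
  apply ext4 <;> simp [ep_re, ep_imI, ep_imJ, ep_imK, re_mul, imI_mul, imJ_mul, imK_mul] <;> norm_num

theorem ep_conj {x : ℍ[ℚ]} (hx : x ∈ Hur) : ep * x * ep⁻¹ ∈ Hur := by
  obtain ⟨a, b, c, d, h1, h2, h3, h4⟩ := hx
  rw [ep_inv]
  refine ⟨a, b, -a - d, c, ?_, ?_, ?_, ?_⟩ <;>
    simp only [re_mul, imI_mul, imJ_mul, imK_mul, ep_re, ep_imI, ep_imJ, ep_imK, h1, h2, h3, h4,
      mk4_re, mk4_imI, mk4_imJ, mk4_imK] <;> push_cast <;> ring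

theorem ep_conj' {x : ℍ[ℚ]} (hx : x ∈ Hur) : ep⁻¹ * x * ep ∈ Hur := by
  obtain ⟨a, b, c, d, h1, h2, h3, h4⟩ := hx
  rw [ep_inv]
  refine ⟨a, b, d, -a - c, ?_, ?_, ?_, ?_⟩ <;>
    simp only [re_mul, imI_mul, imJ_mul, imK_mul, ep_re, ep_imI, ep_imJ, ep_imK, h1, h2, h3, h4,
      mk4_re, mk4_imI, mk4_imJ, mk4_imK] <;> push_cast <;> ring

theorem ep_mem : ep ∈ Hur :=
  ⟨2, 0, -1, -1, by simp [ep_re], by simp [ep_imI], by simp [ep_imJ], by simp [ep_imK]⟩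

theorem isRI_rm {I : AddSubgroup ℍ[ℚ]} (h : IsRI I) : IsRI (rm ep I) := by
  obtain ⟨x, hx, hx0⟩ := h.ne_zero
  obtain ⟨n, hn, hnI⟩ := h.den
  refine ⟨⟨x * ep, mem_rm.2 ⟨x, hx, rfl⟩, mul_ne_zero hx0 ep_ne⟩, ?_, n, hn, ?_⟩
  · intro y hy t ht
    obtain ⟨z, hz, rfl⟩ := mem_rm.1 hy
    refine mem_rm.2 ⟨z * (ep * t * ep⁻¹), h.mul_mem z hz _ (ep_conj ht), ?_⟩
    rw [mul_assoc, mul_assoc (ep * t), inv_mul_cancel₀ ep_ne, mul_one, mul_assoc]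
  · intro y hy
    obtain ⟨z, hz, rfl⟩ := mem_rm.1 hy
    rw [← mul_assoc]
    exact Hur.mul_mem (hnI z hz) ep_mem

theorem isRI_rm_inv {I : AddSubgroup ℍ[ℚ]} (h : IsRI I) : IsRI (rm ep⁻¹ I) := by
  obtain ⟨x, hx, hx0⟩ := h.ne_zero
  obtain ⟨n, hn, hnI⟩ := h.den
  obtain ⟨m, hm, hmα⟩ := exists_den ep⁻¹
  refine ⟨⟨x * ep⁻¹, mem_rm.2 ⟨x, hx, rfl⟩, mul_ne_zero hx0 (inv_ne_zero ep_ne)⟩, ?_, n * m,
    by positivity, ?_⟩
  · intro y hy t ht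
    obtain ⟨z, hz, rfl⟩ := mem_rm.1 hy
    refine mem_rm.2 ⟨z * (ep⁻¹ * t * ep), h.mul_mem z hz _ (ep_conj' ht), ?_⟩
    rw [mul_assoc, mul_assoc (ep⁻¹ * t), mul_inv_cancel₀ ep_ne, mul_one, mul_assoc]
  · intro y hy
    obtain ⟨z, hz, rfl⟩ := mem_rm.1 hy
    have e : ((n * m : ℕ) : ℍ[ℚ]) * (z * ep⁻¹) = ((n : ℍ[ℚ]) * z) * ((m : ℍ[ℚ]) * ep⁻¹) := by
      push_cast
      rw [mul_assoc, mul_assoc, ← mul_assoc (m : ℍ[ℚ]) z, natCast_comm m z, mul_assoc]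
    rw [e]
    exact Hur.mul_mem (hnI z hz) hmα

theorem rm_inv_rm (I : AddSubgroup ℍ[ℚ]) : rm ep (rm ep⁻¹ I) = I := by
  rw [rm_rm, inv_mul_cancel₀ ep_ne]
  ext x
  simp [mem_rm]

theorem rm_rm_inv (I : AddSubgroup ℍ[ℚ]) : rm ep⁻¹ (rm ep I) = I := by
  rw [rm_rm, mul_inv_cancel₀ ep_ne]
  ext x
  simp [mem_rm]

theorem rm_isRI_iff {I : AddSubgroup ℍ[ℚ]} : IsRI (rm ep I) ↔ IsRI I := by
  constructor
  · intro h
    have := isRI_rm_inv h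
    rwa [rm_rm_inv] at this
  · exact fun h => isRI_rm h

/-- The intersection with a multiple of a right ideal contained in it. -/
theorem IsRI.inf {I J : AddSubgroup ℍ[ℚ]} (hI : IsRI I) (hJ : IsRI J) {x : ℍ[ℚ]} (hx : x ≠ 0)
    (h1 : x ∈ I) (h2 : x ∈ J) : IsRI (I ⊓ J) := by
  obtain ⟨n, hn, hnI⟩ := hI.den
  refine ⟨⟨x, ⟨h1, h2⟩, hx⟩, ?_, n, hn, fun y hy => hnI y hy.1⟩
  intro y hy t ht
  exact ⟨hI.mul_mem y hy.1 t ht, hJ.mul_mem y hy.2 t ht⟩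

theorem IsRI.sup {I J : AddSubgroup ℍ[ℚ]} (hI : IsRI I) (hJ : IsRI J) : IsRI (I ⊔ J) := by
  obtain ⟨n, hn, hnI⟩ := hI.den
  obtain ⟨m, hm, hmJ⟩ := hJ.den
  obtain ⟨x, hx, hx0⟩ := hI.ne_zero
  refine ⟨⟨x, AddSubgroup.mem_sup_left hx, hx0⟩, ?_, n * m, by positivity, ?_⟩
  · intro y hy t ht
    obtain ⟨a, ha, b, hb, rfl⟩ := AddSubgroup.mem_sup.1 hy
    rw [add_mul]
    exact AddSubgroup.add_mem _ (AddSubgroup.mem_sup_left (hI.mul_mem a ha t ht))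
      (AddSubgroup.mem_sup_right (hJ.mul_mem b hb t ht))
  · intro y hy
    obtain ⟨a, ha, b, hb, rfl⟩ := AddSubgroup.mem_sup.1 hy
    have e : ((n * m : ℕ) : ℍ[ℚ]) * (a + b) = (m : ℍ[ℚ]) * ((n : ℍ[ℚ]) * a) +
        (n : ℍ[ℚ]) * ((m : ℍ[ℚ]) * b) := by
      rw [mul_add]
      congr 1
      · rw [← mul_assoc, mul_comm n m]; push_cast; rfl
      · rw [← mul_assoc]; push_cast; rfl
    rw [e]
    exact Hur.add_mem (Hur.mul_mem (natCast_mem_Hur m) (hnI a ha))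
      (Hur.mul_mem (natCast_mem_Hur n) (hmJ b hb))

theorem natH_ne {n : ℕ} (hn : n ≠ 0) : (n : ℍ[ℚ]) ≠ 0 := by
  intro h
  have := congrArg QuaternionAlgebra.re h
  rw [re_natCast] at this
  simp at this
  exact hn this

end Pool.Agent.Helper725_HQ
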