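import Pool.Agent.Helper725_HQ.SExt

/-! Existence of eigenforms of slope one which are supercuspidal at two. -/

set_option autoImplicit false
set_option linter.unusedSimpArgs false
set_option linter.unnecessarySeqFocus false

namespace Pool.Agent.Helper725_HQ

open Quaternion MvPolynomial

/-- the value at the standard pair -/
noncomputable def vO4 (k : ℕ) : ↥(W4 k) →ₗ[ℂ] ↥(homogeneousSubmodule (Fin 3) ℂ k) where
  toFun G := ⟨G.1 Oo Lip, (mem_homogeneousSubmodule _ _).2 (G.2.hom Oo Lip)⟩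
  map_add' _ _ := rfl
  map_smul' _ _ := rfl

theorem W4_fin (k : ℕ) : FiniteDimensional ℂ ↥(W4 k) := by
  have h1 : FiniteDimensional ℂ ↥(homogeneousSubmodule (Fin 3) ℂ k) :=
    Module.Finite.iff_fg.2 (homogeneousSubmodule_fg (Fin 3) ℂ k)
  apply FiniteDimensional.of_injective (vO4 k)
  intro F G h
  have h2 : F.1 Oo Lip = G.1 Oo Lip := congrArg Subtype.val h
  have h3 : F - G = 0 := by
    apply Subtype.ext
    apply form4_ext (k := k) (F - G).2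
    show F.1 Oo Lip - G.1 Oo Lip = 0
    rw [h2, sub_self]
  exact sub_eq_zero.1 h3

/-- the normalized Hecke operator at three -/
noncomputable def TW4 (k : ℕ) : ↥(W4 k) →ₗ[ℂ] ↥(W4 k) :=
  ((3 : ℂ) ^ k / 3) • (TL4 3 p3).restrict (fun _ h => TL4_form p3 (by norm_num) h)

theorem TW4_apply {k : ℕ} (G : ↥(W4 k)) : (TW4 k G).1 = ((3 : ℂ) ^ k / 3) • TL4 3 p3 G.1 := rfl

section
variable {V : ValuationSubring ℂ}

/-- integrality -/
def InV (V : ValuationSubring ℂ) (P : MvPolynomial (Fin 3) ℂ) : Prop :=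
  ∃ f : MvPolynomial (Fin 3) V, map V.subtype f = P

theorem InV_scale {P : MvPolynomial (Fin 3) ℂ} (hP : P ≠ 0) :
    ∃ c : ℂ, c ≠ 0 ∧ InV V (c • P) ∧ ∀ a : ℂ, InV V (a • (c • P)) → a ∈ V := by
  classical
  obtain ⟨m, hm⟩ := support_nonempty.2 hP
  obtain ⟨c, hc, h1, j, hj, h2⟩ := scale_fin (V := V) P.support (fun m => coeff m P)
    ⟨m, hm, by simpa using hm⟩
  have hcoef : ∀ m, c * coeff m P ∈ V := by
    intro m
    by_cases hm : m ∈ P.support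
    · exact h1 m hm
    · rw [notMem_support_iff.1 hm, mul_zero]; exact V.zero_mem
  obtain ⟨f, hf⟩ := lift_poly (V := V) (P := c • P) (by
    intro m
    rw [coeff_smul, smul_eq_mul]
    exact hcoef m)
  refine ⟨c, hc, ⟨f, hf⟩, ?_⟩
  rintro a ⟨g, hg⟩
  have h3 : a * (c * coeff j P) = ((coeff j g : V) : ℂ) := by
    have h4 := congrArg (coeff j) hg
    rw [coeff_map, coeff_smul, coeff_smul, smul_eq_mul, smul_eq_mul] at h4
    exact h4.symm
  have h5 : c * coeff j P = 1 := h2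
  rw [h5, mul_one] at h3
  rw [h3]
  exact (coeff j g).2

theorem inV_T {k : ℕ} (hk : Even k) (hk0 : k ≠ 0) {G : ↥(W4 k)} {f : MvPolynomial (Fin 3) V}
    (hf : map V.subtype f = G.1 Oo Lip) :
    ∃ f₁ : MvPolynomial (Fin 3) V, map V.subtype f₁ = (TW4 k G).1 Oo Lip ∧ ∃ h : V,
      eval ![1, 1, 1] (pderiv 1 f₁) = -(2 ^ (k - 1) * k * (3 ^ (k - 1) + 1)) *
        eval ![1, 1, 1] (pderiv 1 f) + 3 * h := by
  have hsym : Sym4 f := Sym4.of_map sub_inj (by rw [hf]; exact sym4_form hk G.2)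
  have hhom : f.IsHomogeneous k := IsHomogeneous.of_map sub_inj (by rw [hf]; exact G.2.hom Oo Lip)
  obtain ⟨g, hg⟩ := TT_four three_ne hhom (Nat.one_le_iff_ne_zero.2 hk0) hsym
  obtain ⟨f₁, hf₁⟩ : ∃ f₁ : MvPolynomial (Fin 3) V, f₁ =
      C (-(2 ^ (k - 1) * eval ![1, 1, 1] (pderiv 1 f))) * SS k + 3 * g := ⟨_, rfl⟩
  rw [← hf₁] at hg
  refine ⟨f₁, ?_, eval ![1, 1, 1] (pderiv 1 g), ?_⟩
  · rw [TW4_apply, Pi.smul_apply, Pi.smul_apply, smul_eq_C_mul]
    have h1 := T4_TT G.2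
    rw [← hf, ← TT_map, hg, map_mul, map_ofNat] at h1
    have h3 : (C (3 : ℂ) : MvPolynomial (Fin 3) ℂ) ≠ 0 := by
      rw [Ne, C_eq_zero]; norm_num
    apply mul_left_cancel₀ h3
    rw [← mul_assoc, ← C_mul]
    have e : (3 : ℂ) * (3 ^ k / 3) = 3 ^ k := by field_simp
    rw [e, h1]
    rfl
  · have e3 : (C (3 : V) : MvPolynomial (Fin 3) V) = 3 := rfl
    rw [hf₁, ← e3, map_add, pderiv_C_mul, pderiv_C_mul, map_add, map_mul, map_mul, eval_C, eval_C,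
      eval_dSS]
    ring

theorem exists_slope4 {k : ℕ} (hV : Thr V) (hk : Even k) (hk0 : k ≠ 0) (hk3 : k % 3 ≠ 0) :
    ∃ w : V, rs V w ≠ 0 ∧ ∃ G : Fun3, Form4 k G ∧ G ≠ 0 ∧ ∃ lam : ℂ, TL4 3 p3 G = lam • G ∧
      (3 : ℂ) ^ k * lam = 3 * (w : ℂ) := by
  have hfd := W4_fin k
  have h3V : V.valuation 3 < 1 := val_of_thr hV
  have hk1 : 1 ≤ k - 1 := by
    obtain ⟨m, hm⟩ := hk
    omega
  have e1 : ∀ H : ↥(W4 k), (((aeval ![1, 1, 1] :
      MvPolynomial (Fin 3) ℂ →ₐ[ℂ] ℂ).toLinearMap ∘ₗ (pderiv (1 : Fin 3)).toLinearMap ∘ₗ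
      (homogeneousSubmodule (Fin 3) ℂ k).subtype ∘ₗ vO4 k)) H =
      eval ![1, 1, 1] (pderiv 1 (H.1 Oo Lip)) := fun _ => rfl
  have e2 : ∀ f : MvPolynomial (Fin 3) V, eval ![1, 1, 1] (pderiv 1 (map V.subtype f)) =
      ((eval ![1, 1, 1] (pderiv 1 f) : V) : ℂ) := by
    intro f
    rw [pderiv_map, eval_sub]
  obtain ⟨μ, hμ, w, hw0, hw⟩ := unit_eig (TW4 k) V {G | InV V (G.1 Oo Lip)} (by
      rintro G ⟨f, hf⟩
      obtain ⟨f₁, h1, h, h2⟩ := inV_T hk hk0 hf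
      exact ⟨f₁, h1⟩) (by
      intro G hG
      have hne : G.1 Oo Lip ≠ 0 := by
        intro h
        exact hG (Subtype.ext (form4_ext G.2 h))
      obtain ⟨c, hc, h1, h2⟩ := InV_scale (V := V) hne
      exact ⟨c, hc, h1, h2⟩)
    ((aeval ![1, 1, 1] : MvPolynomial (Fin 3) ℂ →ₐ[ℂ] ℂ).toLinearMap ∘ₗ
      (pderiv (1 : Fin 3)).toLinearMap ∘ₗ
      (homogeneousSubmodule (Fin 3) ℂ k).subtype ∘ₗ vO4 k)
    (((-(2 ^ (k - 1) * k * (3 ^ (k - 1) + 1)) : ℤ) : V) : ℂ) (by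
      apply val_one
      rw [map_intCast]
      apply rs_int_ne hV
      intro h
      rw [dvd_neg] at h
      rcases Int.prime_three.dvd_or_dvd h with h | h
      · rcases Int.prime_three.dvd_or_dvd h with h | h
        · have := Int.prime_three.dvd_of_dvd_pow h
          omega
        · omega
      · have h4 : (3 : ℤ) ∣ 3 ^ (k - 1) := dvd_pow_self 3 (by omega)
        have := (Int.dvd_add_right h4).1 h
        omega) (by
      rintro G ⟨f, hf⟩
      obtain ⟨f₁, h1, h, h2⟩ := inV_T hk hk0 hf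
      rw [e1, e1, ← h1, ← hf, e2, e2, h2]
      have e3 : ((-(2 ^ (k - 1) * k * (3 ^ (k - 1) + 1)) * eval ![1, 1, 1] (pderiv 1 f) + 3 * h : V) : ℂ) -
          (((-(2 ^ (k - 1) * k * (3 ^ (k - 1) + 1)) : ℤ) : V) : ℂ) *
            ((eval ![1, 1, 1] (pderiv 1 f) : V) : ℂ) = ((3 * h : V) : ℂ) := by
        push_cast
        ring
      rw [e3]
      apply val_lt
      rw [map_mul, three_zero' hV, zero_mul])
    ⟨extF (P0 ℂ k), P0_form hk⟩ (by
      refine ⟨P0 V k, ?_⟩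
      show _ = extF (P0 ℂ k) Oo Lip
      rw [extF_one (P0_unit hk)]
      unfold P0
      simp) (by
      rw [e1]
      show V.valuation (eval ![1, 1, 1] (pderiv 1 (extF (P0 ℂ k) Oo Lip))) = 1
      rw [extF_one (P0_unit hk), P0_d]
      have e3 : (-(k : ℂ)) = (((-k : ℤ) : V) : ℂ) := by push_cast; rfl
      rw [e3]
      apply val_one
      rw [map_intCast]
      apply rs_int_ne hV
      omega)
  have hμV : μ ∈ V := (V.valuation_le_one_iff μ).1 hμ.le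
  refine ⟨⟨μ, hμV⟩, ?_, w.1, w.2, ?_, (3 / 3 ^ k) * μ, ?_, ?_⟩
  · intro h
    have := val_lt h
    exact absurd hμ this.ne
  · intro h
    exact hw0 (Subtype.ext h)
  · have h1 : ((3 : ℂ) ^ k / 3) • TL4 3 p3 w.1 = μ • w.1 := congrArg Subtype.val hw
    have h2 : (3 : ℂ) / 3 ^ k * ((3 : ℂ) ^ k / 3) = 1 := by field_simp
    rw [mul_smul, ← h1, ← mul_smul, h2, one_smul]
  · show (3 : ℂ) ^ k * (3 / 3 ^ k * μ) = 3 * μ
    field_simp

end

/-- the Laplacian of a form -/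
noncomputable def LG4 (G : Fun3) : Fun3 := fun I I' => lap (G I I')

theorem lap_finsum {ι : Type*} {S : Set ι} (hS : S.Finite) (f : ι → MvPolynomial (Fin 3) ℂ) :
    ∑ᶠ i ∈ S, lap (f i) = lap (∑ᶠ i ∈ S, f i) := by
  rw [finsum_mem_eq_finite_toFinset_sum _ hS, finsum_mem_eq_finite_toFinset_sum _ hS, lap_sum]

theorem LG4_form {k : ℕ} {G : Fun3} (hG : Form4 k G) : Form4 (k - 2) (LG4 G) := by
  refine ⟨fun I I' h => ?_, fun I I' => ?_, fun α hα I I' => ?_, fun I I' => ?_, fun I hI => ?_⟩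
  · unfold LG4
    rw [hG.supp I I' h, lap_zero]
  · unfold LG4 lap
    apply IsHomogeneous.sum
    intro i _
    have h1 := ((hG.hom I I').pderiv (i := i)).pderiv (i := i)
    exact h1
  · unfold LG4
    rw [hG.left α hα, lap_rC hα]
  · unfold LG4
    rw [hG.two]
  · unfold LG4
    rw [lap_finsum (pairs4_finite hI), hG.tr I hI, lap_zero]

theorem LG4_TL {G : Fun3} : TL4 3 p3 (LG4 G) = LG4 (TL4 3 p3 G) := by
  funext I I'
  by_cases h : IsPair4 I I'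
  · unfold LG4
    rw [TL4_apply p3 h, TL4_apply p3 h, lap_finsum (Sp_finite p3 h.fst)]
  · unfold LG4
    rw [TL4_apply' p3 h, TL4_apply' p3 h, lap_zero]

/-- eigenforms of slope one are harmonic -/
theorem harm_of_slope4 {V : ValuationSubring ℂ} (hV : Thr V) {k : ℕ} (hk : 2 ≤ k) {G : Fun3}
    (hG : Form4 k G) {lam : ℂ} (he : TL4 3 p3 G = lam • G) {w : V} (hw : rs V w ≠ 0)
    (hlw : (3 : ℂ) ^ k * lam = 3 * (w : ℂ)) : LG4 G = 0 := by
  by_contra hne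
  have hL := LG4_form hG
  have he' : TL4 3 p3 (LG4 G) = lam • LG4 G := by
    rw [LG4_TL, he]
    funext I I'
    unfold LG4
    rw [Pi.smul_apply, Pi.smul_apply, Pi.smul_apply, Pi.smul_apply, smul_eq_C_mul, smul_eq_C_mul,
      lap_C_mul]
  have hP : LG4 G Oo Lip ≠ 0 := fun h => hne (form4_ext hL h)
  obtain ⟨c, hc, f, hf, hf0⟩ := scale_poly (V := V) hP
  have hL' : Form4 (k - 2) (c • LG4 G) := (W4 (k - 2)).smul_mem c hL
  have hfF : map V.subtype f = (c • LG4 G) Oo Lip := by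
    rw [hf, Pi.smul_apply, Pi.smul_apply, smul_eq_C_mul]
  have hlw2 : 3 * ((3 : ℂ) ^ (k - 2) * lam) = (w : ℂ) := by
    have e : (3 : ℂ) ^ k = 3 ^ (k - 2) * 9 := by
      have : (3 : ℂ) ^ k = 3 ^ (k - 2) * 3 ^ 2 := by
        rw [← pow_add]; congr 1; omega
      rw [this]; norm_num
    rw [e] at hlw
    linear_combination (1 / 3 : ℂ) * hlw
  have hTT : C (w : V) * f = 3 * TT f := by
    apply map_injective V.subtype sub_inj
    rw [map_mul, map_mul, map_C, TT_map, hfF, ← T4_TT hL', map_smul, he', map_ofNat]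
    have e1 : V.subtype w = 3 * (3 ^ (k - 2) * lam) := hlw2.symm
    rw [e1]
    simp only [Pi.smul_apply, smul_eq_C_mul, C_mul]
    have e3 : (C (3 : ℂ) : MvPolynomial (Fin 3) ℂ) = 3 := rfl
    rw [e3]
    ring
  have h1 := congrArg (map (rs V)) hTT
  rw [map_mul, map_mul, res3 hV, zero_mul, map_C] at h1
  rcases mul_eq_zero.1 h1 with h2 | h2
  · rw [C_eq_zero] at h2
    exact hw h2
  · exact hf0 h2

/-- existence of eigenforms of slope one for all Hecke operators -/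
theorem exists_eig4 {k : ℕ} (hk : Even k) (hk0 : k ≠ 0) (hk3 : k % 3 ≠ 0) :
    ∃ V : ValuationSubring ℂ, Thr V ∧ ∃ w : V, rs V w ≠ 0 ∧ ∃ G : Fun3, Form4 k G ∧ G ≠ 0 ∧
      (∀ I I', lap (G I I') = 0) ∧
      (∀ (p : ℕ) (hp : p.Prime), p ≠ 2 → ∃ μ : ℂ, TL4 p hp G = μ • G) ∧
      ∃ lam : ℂ, TL4 3 p3 G = lam • G ∧ (3 : ℂ) ^ k * lam = 3 * (w : ℂ) := by
  obtain ⟨V, hV⟩ := exists_V
  obtain ⟨w, hw, G0, hG0, hG00, lam, he, hlw⟩ := exists_slope4 hV hk hk0 hk3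
  refine ⟨V, hV, w, hw, ?_⟩
  set U : Submodule ℂ Fun3 := W4 k ⊓ LinearMap.ker (TL4 3 p3 - lam • LinearMap.id) with hU
  have hmem : ∀ G, G ∈ U ↔ Form4 k G ∧ TL4 3 p3 G = lam • G := by
    intro G
    rw [hU, Submodule.mem_inf, mem_W4, LinearMap.mem_ker, LinearMap.sub_apply,
      LinearMap.smul_apply, LinearMap.id_apply, sub_eq_zero]
  have hfd := W4_fin k
  have hUfd : FiniteDimensional ℂ U := Submodule.finiteDimensional_of_le (inf_le_left)
  have hU0 : U ≠ ⊥ := by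
    rw [Submodule.ne_bot_iff]
    exact ⟨G0, (hmem G0).2 ⟨hG0, he⟩, hG00⟩
  have hcop : ∀ p : ℕ, p.Prime → p ≠ 2 → p.Coprime 2 := fun p hp h =>
    (Nat.coprime_primes hp Nat.prime_two).2 h
  obtain ⟨G, hG, hG0', hall⟩ := common_eig
    (fun p : {p : ℕ // p.Prime ∧ p ≠ 2} => TL4 p.1 p.2.1) _ U hUfd rfl
    hU0 (by
      rintro ⟨p, hp, hp2⟩ u hu
      rw [hmem] at hu ⊢
      refine ⟨TL4_form hp (hcop p hp hp2) hu.1, ?_⟩
      by_cases h : p = 3
      · subst h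
        show TL4 3 p3 (TL4 3 p3 u) = lam • TL4 3 p3 u
        rw [hu.2, map_smul, hu.2]
      · rw [TL4_comm p3 hp (Ne.symm h) (by norm_num) (hcop p hp hp2), hu.2, map_smul]) (by
      rintro ⟨p, hp, hp2⟩ ⟨r, hr, hr2⟩ u hu
      by_cases h : p = r
      · subst h; rfl
      · exact TL4_comm hp hr h (hcop p hp hp2) (hcop r hr hr2) u)
  obtain ⟨h1, h2⟩ := (hmem G).1 hG
  have hk2 : 2 ≤ k := by
    obtain ⟨m, hm⟩ := hk
    omega
  refine ⟨G, h1, hG0', ?_, fun p hp hp2 => hall ⟨p, hp, hp2⟩, lam, h2, hlw⟩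
  intro I I'
  have := harm_of_slope4 hV hk2 h1 h2 hw hlw
  exact congrFun (congrFun this I) I'

end Pool.Agent.Helper725_HQ
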