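import Pool.Agent.Helper725_HQ.SVal

/-! Construction of forms which are supercuspidal at two. -/

set_option autoImplicit false
set_option linter.unusedSimpArgs false
set_option linter.unnecessarySeqFocus false

namespace Pool.Agent.Helper725_HQ

open Quaternion MvPolynomial

theorem pair4_class' {p : AddSubgroup ℍ[ℚ] × AddSubgroup ℍ[ℚ]} (h : IsPair4 p.1 p.2) :
    ∃ β : ℍ[ℚ], β ≠ 0 ∧ p.1 = lm β Oo ∧ p.2 = lm β Lip := pair4_class h

open Classical in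
/-- the form with a given value -/
noncomputable def extF (f₀ : MvPolynomial (Fin 3) ℂ) : Fun3 := fun I I' =>
  if h : IsPair4 I I' then lsub (rC (pair4_class h).choose) f₀ else 0

theorem extF_neg {f₀ : MvPolynomial (Fin 3) ℂ} {I I' : AddSubgroup ℍ[ℚ]} (h : ¬ IsPair4 I I') :
    extF f₀ I I' = 0 := by
  unfold extF
  rw [dif_neg h]

theorem extF_pos {f₀ : MvPolynomial (Fin 3) ℂ}
    (hu : ∀ a b c d : ℤ, a ^ 2 + b ^ 2 + c ^ 2 + d ^ 2 = 1 → lsub (rC (mk4 a b c d)) f₀ = f₀)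
    {β : ℍ[ℚ]} (hβ : β ≠ 0) : extF f₀ (lm β Oo) (lm β Lip) = lsub (rC β) f₀ := by
  have h : IsPair4 (lm β Oo) (lm β Lip) := (pair4_lm hβ).2 pair4_Lip
  unfold extF
  rw [dif_pos h]
  obtain ⟨h1, h2, h3⟩ := (pair4_class h).choose_spec
  set γ := (pair4_class h).choose with hγ
  obtain ⟨a, b, c, d, hn, e⟩ := stab_Lip hβ h2 h3
  have hne : mk4 (a : ℚ) b c d ≠ 0 := by
    intro h0
    rw [h0, mul_zero] at e
    exact h1 e
  rw [e, ← rC_mul hβ hne, hu a b c d hn]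

theorem extF_form {k : ℕ} {f₀ : MvPolynomial (Fin 3) ℂ} (hk : f₀.IsHomogeneous k)
    (hu : ∀ a b c d : ℤ, a ^ 2 + b ^ 2 + c ^ 2 + d ^ 2 = 1 → lsub (rC (mk4 a b c d)) f₀ = f₀)
    (hep : lsub (rC ep) f₀ = f₀)
    (htr : f₀ + (lsub (rC om) f₀ + lsub (rC om2) f₀) = 0) : Form4 k (extF f₀) := by
  have hleft : ∀ α : ℍ[ℚ], α ≠ 0 → ∀ I I', extF f₀ (lm α I) (lm α I') =
      lsub (rC α) (extF f₀ I I') := by
    intro α hα I I'
    by_cases h : IsPair4 I I'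
    · obtain ⟨β, hβ, rfl, rfl⟩ := pair4_class h
      rw [lm_lm, lm_lm, extF_pos hu (mul_ne_zero hα hβ), extF_pos hu hβ, rC_mul hα hβ]
    · rw [extF_neg h, extF_neg (fun h' => h ((pair4_lm hα).1 h')), map_zero]
  refine ⟨fun I I' h => extF_neg h, fun I I' => ?_, hleft, fun I I' => ?_, fun I hI => ?_⟩
  · by_cases h : IsPair4 I I'
    · obtain ⟨β, hβ, rfl, rfl⟩ := pair4_class h
      rw [extF_pos hu hβ]
      exact lsub_hom _ hk
    · rw [extF_neg h]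
      exact isHomogeneous_zero _ _ _
  · by_cases h : IsPair4 I I'
    · obtain ⟨β, hβ, rfl, rfl⟩ := pair4_class h
      rw [← lm_rm, ← lm_rm, rm_ep_Oo, ← Lip_ep, lm_lm, lm_lm,
        extF_pos hu (mul_ne_zero hβ ep_ne), extF_pos hu hβ, ← rC_mul hβ ep_ne, hep]
    · rw [extF_neg h, extF_neg (fun h' => h (pair4_rm.1 h'))]
  · obtain ⟨α, hα, rfl⟩ := principal hI
    have hset : {I' : AddSubgroup ℍ[ℚ] | IsPair4 (lm α Oo) I'} = lm α '' {I' | IsPair4 Oo I'} := by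
      ext I'
      constructor
      · intro h
        refine ⟨lm α⁻¹ I', ?_, lm_lm_inv hα I'⟩
        show IsPair4 Oo (lm α⁻¹ I')
        rw [← pair4_lm hα, lm_lm_inv hα]
        exact h
      · rintro ⟨J, hJ, rfl⟩
        exact (pair4_lm hα).2 hJ
    rw [hset, finsum_mem_image ((lm_injective hα).injOn)]
    have e : ∀ J ∈ {I' | IsPair4 Oo I'}, extF f₀ (lm α Oo) (lm α J) =
        lsub (rC α) (extF f₀ Oo J) := by
      intro J _
      rw [hleft α hα]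
    rw [finsum_mem_congr rfl e]
    have h1 : ∑ᶠ I' ∈ {I' : AddSubgroup ℍ[ℚ] | IsPair4 Oo I'}, extF f₀ Oo I' = 0 := by
      rw [tr_Oo hleft]
      have h2 : extF f₀ Oo Lip = f₀ := by
        have h3 := extF_pos hu (β := 1) one_ne_zero
        rw [lm_one, lm_one] at h3
        rw [h3]
        have h4 := hu 1 0 0 0 (by norm_num)
        have h5 : mk4 ((1 : ℤ) : ℚ) ((0 : ℤ) : ℚ) ((0 : ℤ) : ℚ) ((0 : ℤ) : ℚ) = 1 := by
          apply ext4 <;> simp
        rwa [h5] at h4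
      rw [h2, htr]
    have h2 := (lsub (rC α) : MvPolynomial (Fin 3) ℂ →+ MvPolynomial (Fin 3) ℂ).map_finsum_mem
      (fun J => extF f₀ Oo J) (pairs4_finite Oo_isRI)
    have h3 : (lsub (rC α) : MvPolynomial (Fin 3) ℂ →+ MvPolynomial (Fin 3) ℂ)
        (∑ᶠ I' ∈ {I' : AddSubgroup ℍ[ℚ] | IsPair4 Oo I'}, extF f₀ Oo I') = 0 := by
      rw [h1, map_zero]
    rw [h3] at h2
    exact h2.symm

theorem extF_one {f₀ : MvPolynomial (Fin 3) ℂ}
    (hu : ∀ a b c d : ℤ, a ^ 2 + b ^ 2 + c ^ 2 + d ^ 2 = 1 → lsub (rC (mk4 a b c d)) f₀ = f₀) :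
    extF f₀ Oo Lip = f₀ := by
  have h3 := extF_pos hu (β := 1) one_ne_zero
  rw [lm_one, lm_one] at h3
  rw [h3]
  have h4 := hu 1 0 0 0 (by norm_num)
  have h5 : mk4 ((1 : ℤ) : ℚ) ((0 : ℤ) : ℚ) ((0 : ℤ) : ℚ) ((0 : ℤ) : ℚ) = 1 := by
    apply ext4 <;> simp
  rwa [h5] at h4

/-- the starting value -/
noncomputable def P0 (R : Type*) [CommRing R] (k : ℕ) : MvPolynomial (Fin 3) R :=
  2 * X 0 ^ k - X 1 ^ k - X 2 ^ k

theorem P0_hom (R : Type*) [CommRing R] (k : ℕ) : (P0 R k).IsHomogeneous k := by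
  unfold P0
  have h : ∀ i : Fin 3, (X i ^ k : MvPolynomial (Fin 3) R).IsHomogeneous k := by
    intro i
    have := (isHomogeneous_X R i).pow k
    rwa [one_mul] at this
  refine ((?_ : (2 * X 0 ^ k : MvPolynomial (Fin 3) R).IsHomogeneous k).sub (h 1)).sub (h 2)
  have e : (2 : MvPolynomial (Fin 3) R) = C 2 := rfl
  rw [e]
  exact (h 0).C_mul 2

theorem P0_dg {R : Type*} [CommRing R] {k : ℕ} (hk : Even k) {a b c : ℤ} (ha : a ^ 2 = 1)
    (hb : b ^ 2 = 1) (hc : c ^ 2 = 1) : lsub (mz (dg a b c)) (P0 R k) = P0 R k := by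
  obtain ⟨m, rfl⟩ := hk
  have e : ∀ (t : ℤ) (x : MvPolynomial (Fin 3) R), t ^ 2 = 1 →
      (C ((t : ℤ) : R) * x) ^ (m + m) = x ^ (m + m) := by
    intro t x ht
    rw [mul_pow, ← C_pow, ← two_mul, pow_mul ((t : ℤ) : R), ← Int.cast_pow, ht, Int.cast_one,
      one_pow, C_1, one_mul]
  unfold P0
  rw [map_sub, map_sub, map_mul, map_pow, map_pow, map_pow, lsub_X, lsub_X, lsub_X, map_ofNat,
    Fin.sum_univ_three, Fin.sum_univ_three, Fin.sum_univ_three]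
  have h0 := e a (X 0) ha
  have h1 := e b (X 1) hb
  have h2 := e c (X 2) hc
  simp only [mz, dg, Matrix.cons_val_zero, Matrix.cons_val_one, Matrix.cons_val_two,
    Matrix.head_cons, Matrix.tail_cons, Int.cast_zero, C_0, zero_mul, add_zero, zero_add]
  rw [h0, h1, h2]


theorem P0_sw {R : Type*} [CommRing R] (k : ℕ) : lsub (mz swZ) (P0 R k) = P0 R k := by
  unfold P0
  rw [map_sub, map_sub, map_mul, map_pow, map_pow, map_pow, lsub_X, lsub_X, lsub_X, map_ofNat,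
    Fin.sum_univ_three, Fin.sum_univ_three, Fin.sum_univ_three]
  simp [mz, swZ]
  ring

theorem P0_tr {R : Type*} [CommRing R] (k : ℕ) :
    P0 R k + (lsub (mz cyZ) (P0 R k) + lsub (mz cy2) (P0 R k)) = 0 := by
  unfold P0
  rw [map_sub, map_sub, map_mul, map_pow, map_pow, map_pow, lsub_X, lsub_X, lsub_X, map_ofNat,
    Fin.sum_univ_three, Fin.sum_univ_three, Fin.sum_univ_three, map_sub, map_sub, map_mul, map_pow,
    map_pow, map_pow, lsub_X, lsub_X, lsub_X, map_ofNat,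
    Fin.sum_univ_three, Fin.sum_univ_three, Fin.sum_univ_three]
  simp [mz, cyZ, cy2]
  ring

theorem P0_unit {k : ℕ} (hk : Even k) (a b c d : ℤ) (h : a ^ 2 + b ^ 2 + c ^ 2 + d ^ 2 = 1) :
    lsub (rC (mk4 a b c d)) (P0 ℂ k) = P0 ℂ k := by
  have key : ∀ s0 s1 s2 : ℤ, s0 ^ 2 = 1 → s1 ^ 2 = 1 → s2 ^ 2 = 1 →
      (∀ i j, rotZ a b c d i j = 1 * dg s0 s1 s2 i j) →
      lsub (rC (mk4 a b c d)) (P0 ℂ k) = P0 ℂ k := by
    intro s0 s1 s2 h0 h1 h2 h3
    rw [← rot_mz h (by norm_num) h3]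
    exact P0_dg hk h0 h1 h2
  have ha : a = -1 ∨ a = 0 ∨ a = 1 := by
    have : -1 ≤ a := by nlinarith [sq_nonneg b, sq_nonneg c, sq_nonneg d]
    have : a ≤ 1 := by nlinarith [sq_nonneg b, sq_nonneg c, sq_nonneg d]
    omega
  have hb : b = -1 ∨ b = 0 ∨ b = 1 := by
    have : -1 ≤ b := by nlinarith [sq_nonneg a, sq_nonneg c, sq_nonneg d]
    have : b ≤ 1 := by nlinarith [sq_nonneg a, sq_nonneg c, sq_nonneg d]
    omega
  have hc : c = -1 ∨ c = 0 ∨ c = 1 := by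
    have : -1 ≤ c := by nlinarith [sq_nonneg b, sq_nonneg a, sq_nonneg d]
    have : c ≤ 1 := by nlinarith [sq_nonneg b, sq_nonneg a, sq_nonneg d]
    omega
  have hd : d = -1 ∨ d = 0 ∨ d = 1 := by
    have : -1 ≤ d := by nlinarith [sq_nonneg b, sq_nonneg a, sq_nonneg c]
    have : d ≤ 1 := by nlinarith [sq_nonneg b, sq_nonneg a, sq_nonneg c]
    omega
  rcases ha with rfl | rfl | rfl <;> rcases hb with rfl | rfl | rfl <;>
    rcases hc with rfl | rfl | rfl <;> rcases hd with rfl | rfl | rfl <;> first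
    | exact key 1 1 1 (by norm_num) (by norm_num) (by norm_num) (by decide)
    | exact key 1 (-1) (-1) (by norm_num) (by norm_num) (by norm_num) (by decide)
    | exact key (-1) 1 (-1) (by norm_num) (by norm_num) (by norm_num) (by decide)
    | exact key (-1) (-1) 1 (by norm_num) (by norm_num) (by norm_num) (by decide)
    | (exfalso; revert h; norm_num)

theorem P0_ep {k : ℕ} (hk : Even k) : lsub (rC ep) (P0 ℂ k) = P0 ℂ k := by
  have h3 : lsub (mz (![![1, 0, 0], ![0, 0, 1], ![0, -1, 0]])) (P0 ℂ k) = P0 ℂ k := by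
    apply Sym.comp (P0_sw k) (P0_dg hk (a := 1) (b := 1) (c := -1) (by norm_num) (by norm_num)
      (by norm_num)) (by decide)
  rw [rot_mz (a := 1) (b := 1) (c := 0) (d := 0) (N := 2) (by norm_num) (by norm_num)
    (by decide)] at h3
  have e : mk4 ((1 : ℤ) : ℚ) ((1 : ℤ) : ℚ) ((0 : ℤ) : ℚ) ((0 : ℤ) : ℚ) = ep := by
    unfold ep; simp
  rwa [e] at h3

theorem P0_trC (k : ℕ) :
    P0 ℂ k + (lsub (rC om) (P0 ℂ k) + lsub (rC om2) (P0 ℂ k)) = 0 := by
  rw [rC_om, rC_om2]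
  exact P0_tr k

theorem P0_form {k : ℕ} (hk : Even k) : Form4 k (extF (P0 ℂ k)) :=
  extF_form (P0_hom ℂ k) (P0_unit hk) (P0_ep hk) (P0_trC k)

theorem P0_d {R : Type*} [CommRing R] {k : ℕ} :
    eval ![1, 1, 1] (pderiv 1 (P0 R k)) = -(k : R) := by
  unfold P0
  have h2 : pderiv (1 : Fin 3) (2 : MvPolynomial (Fin 3) R) = 0 := by
    have : (2 : MvPolynomial (Fin 3) R) = C 2 := rfl
    rw [this, pderiv_C]
  have h3 : pderiv (1 : Fin 3) (2 * X 0 ^ k - X 1 ^ k - X 2 ^ k : MvPolynomial (Fin 3) R) =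
      pderiv 1 (2 * X 0 ^ k) - pderiv 1 (X 1 ^ k) - pderiv 1 (X 2 ^ k) := by
    rw [map_sub, map_sub]
  rw [h3, Derivation.leibniz, h2, Derivation.leibniz_pow,
    Derivation.leibniz_pow, Derivation.leibniz_pow, pderiv_X, pderiv_X, pderiv_X]
  simp [Pi.single_apply]

end Pool.Agent.Helper725_HQ
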