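import Pool.Agent.Helper725_HQ.SPair
import Pool.Agent.Helper725_HQ.LEx2

/-! Forms for the supercuspidal level structure at two. -/

set_option autoImplicit false
set_option linter.unusedSimpArgs false
set_option linter.unnecessarySeqFocus false

namespace Pool.Agent.Helper725_HQ

open Quaternion MvPolynomial

/-- forms without the harmonicity condition -/
structure Form4 (k : ℕ) (F : Fun3) : Prop where
  supp : ∀ I I', ¬ IsPair4 I I' → F I I' = 0
  hom : ∀ I I', (F I I').IsHomogeneous k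
  left : ∀ α : ℍ[ℚ], α ≠ 0 → ∀ I I', F (lm α I) (lm α I') = lsub (rC α) (F I I')
  two : ∀ I I', F (rm ep I) (rm ep I') = F I I'
  tr : ∀ I, IsRI I → ∑ᶠ I' ∈ {I' : AddSubgroup ℍ[ℚ] | IsPair4 I I'}, F I I' = 0

/-- the space of forms -/
def W4 (k : ℕ) : Submodule ℂ Fun3 where
  carrier := {F | Form4 k F}
  add_mem' := by
    intro F G hF hG
    refine ⟨fun I I' h => ?_, fun I I' => ?_, fun α hα I I' => ?_, fun I I' => ?_, fun I hI => ?_⟩
    · show F I I' + G I I' = 0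
      rw [hF.supp I I' h, hG.supp I I' h, add_zero]
    · exact (hF.hom I I').add (hG.hom I I')
    · show F _ _ + G _ _ = lsub (rC α) (F I I' + G I I')
      rw [hF.left α hα, hG.left α hα, map_add]
    · show F _ _ + G _ _ = F I I' + G I I'
      rw [hF.two, hG.two]
    · show ∑ᶠ I' ∈ {I' : AddSubgroup ℍ[ℚ] | IsPair4 I I'}, (F I I' + G I I') = 0
      rw [finsum_mem_add_distrib (pairs4_finite hI), hF.tr I hI, hG.tr I hI, add_zero]
  zero_mem' := by
    refine ⟨fun I I' _ => rfl, fun I I' => isHomogeneous_zero _ _ _, fun α hα I I' => ?_,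
      fun I I' => rfl, fun I hI => ?_⟩
    · show (0 : MvPolynomial (Fin 3) ℂ) = lsub (rC α) 0
      rw [map_zero]
    · show ∑ᶠ I' ∈ {I' : AddSubgroup ℍ[ℚ] | IsPair4 I I'}, (0 : MvPolynomial (Fin 3) ℂ) = 0
      simp
  smul_mem' := by
    intro c F hF
    refine ⟨fun I I' h => ?_, fun I I' => ?_, fun α hα I I' => ?_, fun I I' => ?_, fun I hI => ?_⟩
    · show c • F I I' = 0
      rw [hF.supp I I' h, smul_zero]
    · show (c • F I I').IsHomogeneous k
      rw [smul_eq_C_mul]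
      exact (hF.hom I I').C_mul c
    · show c • F _ _ = lsub (rC α) (c • F I I')
      rw [hF.left α hα, map_smul]
    · show c • F _ _ = c • F I I'
      rw [hF.two]
    · show ∑ᶠ I' ∈ {I' : AddSubgroup ℍ[ℚ] | IsPair4 I I'}, c • F I I' = 0
      rw [← smul_finsum_mem (pairs4_finite hI), hF.tr I hI, smul_zero]

theorem mem_W4 {k : ℕ} {F : Fun3} : F ∈ W4 k ↔ Form4 k F := Iff.rfl

open Classical in
/-- the Hecke operator as a function -/
noncomputable def T4 (p : ℕ) (F : Fun3) : Fun3 := fun I I' =>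
  if IsPair4 I I' then ∑ᶠ J ∈ Sp p I, F J (J ⊓ I') else 0

theorem T4_pos {p : ℕ} {F : Fun3} {I I' : AddSubgroup ℍ[ℚ]} (h : IsPair4 I I') :
    T4 p F I I' = ∑ᶠ J ∈ Sp p I, F J (J ⊓ I') := by
  unfold T4
  rw [if_pos h]

theorem T4_neg {p : ℕ} {F : Fun3} {I I' : AddSubgroup ℍ[ℚ]} (h : ¬ IsPair4 I I') :
    T4 p F I I' = 0 := by
  unfold T4
  rw [if_neg h]

/-- the Hecke operator -/
noncomputable def TL4 (p : ℕ) (hp : p.Prime) : Fun3 →ₗ[ℂ] Fun3 where
  toFun := T4 p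
  map_add' F G := by
    funext I I'
    rw [Pi.add_apply, Pi.add_apply]
    by_cases h : IsPair4 I I'
    · rw [T4_pos h, T4_pos h, T4_pos h, ← finsum_mem_add_distrib (Sp_finite hp h.fst)]
      rfl
    · rw [T4_neg h, T4_neg h, T4_neg h, add_zero]
  map_smul' c F := by
    funext I I'
    rw [Pi.smul_apply, Pi.smul_apply]
    by_cases h : IsPair4 I I'
    · rw [T4_pos h, T4_pos h, RingHom.id_apply, smul_finsum_mem (Sp_finite hp h.fst)]
      rfl
    · rw [T4_neg h, T4_neg h, smul_zero]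

section
variable {p : ℕ} (hp : p.Prime)

theorem TL4_apply {F : Fun3} {I I' : AddSubgroup ℍ[ℚ]} (h : IsPair4 I I') :
    TL4 p hp F I I' = ∑ᶠ J ∈ Sp p I, F J (J ⊓ I') := T4_pos h

theorem TL4_apply' {F : Fun3} {I I' : AddSubgroup ℍ[ℚ]} (h : ¬ IsPair4 I I') :
    TL4 p hp F I I' = 0 := T4_neg h

theorem TL4_form (hp2 : p.Coprime 2) {k : ℕ} {F : Fun3} (hF : Form4 k F) :
    Form4 k (TL4 p hp F) := by
  refine ⟨fun I I' h => TL4_apply' hp h, fun I I' => ?_, fun α hα I I' => ?_, fun I I' => ?_,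
    fun I hI => ?_⟩
  · by_cases h : IsPair4 I I'
    · rw [TL4_apply hp h, finsum_mem_eq_finite_toFinset_sum _ (Sp_finite hp h.fst)]
      exact IsHomogeneous.sum _ _ _ (fun J _ => hF.hom _ _)
    · rw [TL4_apply' hp h]
      exact isHomogeneous_zero _ _ _
  · by_cases h : IsPair4 I I'
    · rw [TL4_apply hp h, TL4_apply hp ((pair4_lm hα).2 h), Sp_lm hα,
        finsum_mem_image ((lm_injective hα).injOn)]
      have e : ∀ J ∈ Sp p I, F (lm α J) (lm α J ⊓ lm α I') = lsub (rC α) (F J (J ⊓ I')) := by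
        intro J _
        rw [← lm_inf hα, hF.left α hα]
      rw [finsum_mem_congr rfl e]
      exact ((lsub (rC α) : MvPolynomial (Fin 3) ℂ →+ MvPolynomial (Fin 3) ℂ).map_finsum_mem _
        (Sp_finite hp h.fst)).symm
    · rw [TL4_apply' hp h, TL4_apply' hp (fun h' => h ((pair4_lm hα).1 h')), map_zero]
  · by_cases h : IsPair4 I I'
    · rw [TL4_apply hp h, TL4_apply hp (pair4_rm.2 h), Sp_rm,
        finsum_mem_image ((rm_injective ep_ne).injOn)]
      apply finsum_mem_congr rfl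
      intro J _
      rw [← rm_inf ep_ne, hF.two]
    · rw [TL4_apply' hp h, TL4_apply' hp (fun h' => h (pair4_rm.1 h'))]
  · have e1 : ∀ I' ∈ {I' : AddSubgroup ℍ[ℚ] | IsPair4 I I'}, TL4 p hp F I I' =
        ∑ᶠ J ∈ Sp p I, F J (J ⊓ I') := fun I' hI' => TL4_apply hp hI'
    rw [finsum_mem_congr rfl e1, finsum_mem_comm _ (pairs4_finite hI) (Sp_finite hp hI)]
    apply finsum_mem_eq_zero_of_forall_eq_zero
    intro J hJ
    rw [← hF.tr J hJ.1]
    apply finsum_mem_eq_of_bijOn (fun I' => J ⊓ I')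
    · refine ⟨fun I' hI' => pair4_inf hp2 hI' hJ, ?_, ?_⟩
      · intro A hA B hB hAB
        have : J ⊓ A = J ⊓ B := hAB
        rw [← inf_sup4 hp2 hA hJ, ← inf_sup4 hp2 hB hJ, this]
      · intro J' hJ'
        exact ⟨J' ⊔ rm ep I, pair4_sup hp2 hI hJ hJ', sup_inf4 hp2 hJ hJ'⟩
    · intro I' _
      rfl

theorem TL4_comm {r : ℕ} (hr : r.Prime) (hpr : p ≠ r) (hp2 : p.Coprime 2) (hr2 : r.Coprime 2)
    (F : Fun3) : TL4 p hp (TL4 r hr F) = TL4 r hr (TL4 p hp F) := by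
  have key : ∀ (p r : ℕ) (hp : p.Prime) (hr : r.Prime), p ≠ r → p.Coprime 2 → r.Coprime 2 →
      ∀ I I', IsPair4 I I' → TL4 p hp (TL4 r hr F) I I' =
      ∑ᶠ K ∈ ⋃ J ∈ Sp p I, Sp r J, F K (K ⊓ I') := by
    intro p r hp hr hpr hp2 hr2 I I' h
    have hco : p.Coprime r := (Nat.coprime_primes hp hr).2 hpr
    rw [TL4_apply hp h, finsum_mem_biUnion]
    · apply finsum_mem_congr rfl
      intro J hJ
      rw [TL4_apply hr (pair4_inf hp2 h hJ)]
      apply finsum_mem_congr rfl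
      intro K hK
      rw [← inf_assoc, inf_eq_left.2 hK.2.2.le]
    · intro J hJ J' hJ' hne
      rw [Function.onFun, Set.disjoint_left]
      intro K hK hK'
      apply hne
      rw [← sup_two hco hJ hK, sup_two hco hJ' hK']
    · exact Sp_finite hp h.fst
    · intro J hJ
      exact Sp_finite hr hJ.1
  funext I I'
  by_cases h : IsPair4 I I'
  · rw [key p r hp hr hpr hp2 hr2 I I' h, key r p hr hp (Ne.symm hpr) hr2 hp2 I I' h,
      biUnion_swap ((Nat.coprime_primes hp hr).2 hpr) hp.ne_zero hr.ne_zero h.fst]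
  · rw [TL4_apply' hp h, TL4_apply' hr h]

end

theorem form4_ext {k : ℕ} {F : Fun3} (hF : Form4 k F) (h0 : F Oo Lip = 0) : F = 0 := by
  funext I I'
  by_cases h : IsPair4 I I'
  · obtain ⟨β, hβ, rfl, rfl⟩ := pair4_class h
    rw [hF.left β hβ, h0, map_zero]
    rfl
  · rw [hF.supp _ _ h]
    rfl

/-- the value of the sum over the three groups -/
theorem tr_Oo {F : Fun3} (hF : ∀ α : ℍ[ℚ], α ≠ 0 → ∀ I I',
    F (lm α I) (lm α I') = lsub (rC α) (F I I')) :
    ∑ᶠ I' ∈ {I' : AddSubgroup ℍ[ℚ] | IsPair4 Oo I'}, F Oo I' =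
      F Oo Lip + (lsub (rC om) (F Oo Lip) + lsub (rC om2) (F Oo Lip)) := by
  have h1 := hF om om_ne Oo Lip
  have h2 := hF om2 om2_ne Oo Lip
  rw [mem_of_unit om_mem om_norm] at h1
  rw [mem_of_unit om2_mem om2_norm] at h2
  rw [pair4_set, finsum_mem_insert _ _ (Set.toFinite _), finsum_mem_pair Lip_ne3, h1, h2]
  rw [Set.mem_insert_iff, Set.mem_singleton_iff]
  rintro (h | h)
  · exact Lip_ne1 h
  · exact Lip_ne2 h

theorem aa_inf_Lip (i : Fin 4) : lm (pq (aa i)) Oo ⊓ Lip = lm (pq (aa i)) Lip := by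
  apply le_antisymm
  · rintro x ⟨hx, hxL⟩
    obtain ⟨y, hy, rfl⟩ := mem_lm.1 hx
    refine mul_mem_lm ?_
    have h2 := pq_sq (aa i) (aa_norm i) y
    have h3 : ((3 : ℕ) : ℍ[ℚ]) * y ∈ Lip := by
      have h4 := Lip.neg_mem (Lip_mul (pq_Lip (aa i)) hxL)
      rw [h2, neg_neg] at h4
      exact h4
    have h5 : ((2 : ℕ) : ℍ[ℚ]) * y ∈ Lip := P_le_Lip (two_mem Oo_isRI hy)
    exact cop_mem (p := 3) (q := 2) (by norm_num) h3 h5
  · intro x hx
    obtain ⟨y, hy, rfl⟩ := mem_lm.1 hx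
    exact ⟨mul_mem_lm (Lip_le hy), Lip_mul (pq_Lip _) hy⟩

/-- the Hecke operator at three -/
theorem T3_four {k : ℕ} {F : Fun3} (hF : Form4 k F) :
    C ((3 : ℂ) ^ k) * TL4 3 p3 F Oo Lip = ∑ i, lsub (fun j l => ((2 * aa i j * aa i l -
      (if j = l then 3 else 0) : ℤ) : ℂ)) (F Oo Lip) := by
  rw [TL4_apply p3 pair4_Lip, Sp3_eq, finsum_mem_range (fun i j h => aa_inj h),
    finsum_eq_sum_of_fintype, Finset.mul_sum]
  apply Finset.sum_congr rfl
  intro i _
  have hai := pq_ne (by norm_num) (aa_norm i)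
  rw [aa_inf_Lip, hF.left _ hai]
  have h3 := nM_lsub (N := 3) (by exact_mod_cast aa_norm i) (by norm_num) (hF.hom Oo Lip)
  exact_mod_cast h3

theorem T4_TT {k : ℕ} {F : Fun3} (hF : Form4 k F) :
    C ((3 : ℂ) ^ k) * TL4 3 p3 F Oo Lip = TT (F Oo Lip) := by
  rw [T3_four hF]
  rfl

end Pool.Agent.Helper725_HQ
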