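import Pool.Agent.Helper725_HQ.SEx
import Pool.Agent.Helper725_HQ.LUni

/-! Periods of forms which are supercuspidal at two. -/

set_option autoImplicit false
set_option linter.unusedSimpArgs false
set_option linter.unnecessarySeqFocus false

namespace Pool.Agent.Helper725_HQ

open Quaternion MvPolynomial NumberField
open scoped nonZeroDivisors

/-- Some toric period of `F` along `K` does not vanish. -/
def NonvanPer4 (F : AddSubgroup ℍ[ℚ] → AddSubgroup ℍ[ℚ] → MvPolynomial (Fin 3) ℂ)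
    (K : Type) [Field K] [NumberField K] : Prop :=
  ∃ (ι : K →+* ℍ[ℚ]) (I I' : AddSubgroup ℍ[ℚ]), IsPair4 I I' ∧
    (∀ a : 𝓞 K, ∀ y ∈ I, ι (a : K) * y ∈ I) ∧ (∀ a : 𝓞 K, ∀ y ∈ I', ι (a : K) * y ∈ I') ∧
    ∃ s : K, s ≠ 0 ∧ (ι s).re = 0 ∧
    ∀ rep : ClassGroup (𝓞 K) → (Ideal (𝓞 K))⁰, (∀ c, ClassGroup.mk0 (rep c) = c) →
      torp F ι rep I I' s ≠ 0

/-- a Hecke eigenform of degree `k` which is supercuspidal of conductor four at two and has slope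
one at some place above three -/
structure SlopeOne4 (k : ℕ)
    (F : AddSubgroup ℍ[ℚ] → AddSubgroup ℍ[ℚ] → MvPolynomial (Fin 3) ℂ) : Prop where
  form : IsForm4 k F
  ne_zero : ∃ I I', F I I' ≠ 0
  eigen : ∀ p : ℕ, p.Prime → p ≠ 2 → ∃ lam : ℂ, ∀ I I', IsPair4 I I' →
    hecke p F I I' = lam • F I I'
  slope : ∃ V : ValuationSubring ℂ, V.valuation 3 < 1 ∧ ∃ lam : ℂ,
    (∀ I I', IsPair4 I I' → hecke 3 F I I' = lam • F I I') ∧
    V.valuation (3 ^ k * lam) = V.valuation 3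

section
variable {K : Type*} [Field K] {ι : K →+* ℍ[ℚ]} {𝔞 : Ideal (𝓞 K)} {I I' : AddSubgroup ℍ[ℚ]}

theorem idl_rm (β : ℍ[ℚ]) : idl ι 𝔞 (rm β I) = rm β (idl ι 𝔞 I) := by
  apply le_antisymm
  · apply idl_le
    intro a ha y hy
    obtain ⟨z, hz, rfl⟩ := mem_rm.1 hy
    exact mem_rm.2 ⟨ι (a : K) * z, mem_idl ha hz, by rw [mul_assoc]⟩
  · intro z hz
    obtain ⟨y, hy, rfl⟩ := mem_rm.1 hz
    refine rmul_idl ?_ hy
    intro a ha w hw
    rw [mul_assoc]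
    exact mem_idl ha (mem_rm.2 ⟨w, hw, rfl⟩)

theorem stab_rm (hs : Stab ι I) (β : ℍ[ℚ]) : Stab ι (rm β I) := by
  intro a z hz
  obtain ⟨y, hy, rfl⟩ := mem_rm.1 hz
  rw [← mul_assoc]
  exact mem_rm.2 ⟨_, hs a y hy, rfl⟩

theorem pair4_idl [NumberField K] (h : 𝔞 ≠ ⊥) (hs : Stab ι I) (hs' : Stab ι I')
    (hI : IsPair4 I I') : IsPair4 (idl ι 𝔞 I) (idl ι 𝔞 I') := by
  refine ⟨isRI_idl h hs hI.fst, ?_, ?_⟩
  · rw [← idl_rm]
    refine lt_of_le_not_ge (idl_mono hI.lt₁.le) ?_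
    intro h1
    exact not_le_of_gt hI.lt₁ (le_of_idl_le h hs' (stab_rm hs _) h1)
  · refine lt_of_le_not_ge (idl_mono hI.lt₂.le) ?_
    intro h1
    exact not_le_of_gt hI.lt₂ (le_of_idl_le h hs hs' h1)

end

theorem stab_Lip2 {K : Type} [Field K] [NumberField K] {d : ℕ} (hd : Squarefree d)
    (h8 : d % 4 = 1 ∨ d % 4 = 2) (h2 : Module.finrank ℚ K = 2) {x : K} (hx : x ^ 2 = -(d : K))
    {w : Fin 3 → ℤ} {ι : K →+* ℍ[ℚ]} (hι : ι x = pq w) : Stab ι Lip := by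
  have key : ∀ a : 𝓞 K, ι (a : K) ∈ Lip := by
    intro a
    obtain ⟨m, n, h⟩ := (Pool.Agent.Helper725_DH.IQ.imq2 (by omega) hd h2 hx).2 a
    rw [h, map_add, map_mul, map_intCast, map_intCast, hι]
    have hz : ∀ z : ℤ, (z : ℍ[ℚ]) ∈ Lip := by
      intro z
      have h1 := Lip.zsmul_mem one_Lip z
      rwa [zsmul_one] at h1
    exact Lip.add_mem (hz m) (Lip_mul (hz n) (pq_Lip w))
  intro a y hy
  exact Lip_mul (key a) hy

/-- one term of the toric period -/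
theorem period_term4 {K : Type} [Field K] [NumberField K] {V : ValuationSubring ℂ} {k : ℕ}
    {F : Fun3} (hF : Form4 k F) {c : ℂ} {r : kap V} {d : ℕ}
    (H : ∀ x : Fin 3 → ℤ, x 0 ^ 2 + x 1 ^ 2 + x 2 ^ 2 = (d : ℤ) →
      ∃ v : V, c * ev (F Oo Lip) (pq x) = (v : ℂ) ∧ rs V v = r)
    {ι : K →+* ℍ[ℚ]} {𝔞 : Ideal (𝓞 K)} (h𝔞 : 𝔞 ≠ ⊥)
    (hs : Stab ι Oo) (hs' : Stab ι Lip) {s : 𝓞 K}
    (hre : (ι (s : K)).re = 0) (hd : normSq (ι (s : K)) = (d : ℚ)) :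
    ∃ v : V, c * ev (F (idl ι 𝔞 Oo) (idl ι 𝔞 Lip)) (ι (s : K)) = (v : ℂ) ∧ rs V v = r := by
  have hp := pair4_idl h𝔞 hs hs' pair4_Lip
  obtain ⟨α, hα, hαe, hαe'⟩ := pair4_class hp
  have hst := stab_idl (ι := ι) (𝔞 := 𝔞) (I := Oo)
  rw [hαe] at hst
  rw [hαe, hαe', hF.left α hα, ev_lsub hα]
  have h2 : α⁻¹ * ι (s : K) * α ∈ Hur := by
    have h3 := hst s α (mem_lm.2 ⟨1, Hur.one_mem, by rw [mul_one]⟩)
    rw [mem_lm' hα, ← mul_assoc] at h3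
    exact h3
  have hα' : α⁻¹ ≠ 0 := inv_ne_zero hα
  have h4 : (α⁻¹ * ι (s : K) * α).re = 0 := by
    have e2 := re_conj hα' (ι (s : K))
    rw [inv_inv] at e2
    rw [e2, hre]
  have h5 : normSq (α⁻¹ * ι (s : K) * α) = (d : ℚ) := by
    rw [map_mul, map_mul, hd]
    have e2 : normSq α⁻¹ * normSq α = 1 := by
      rw [← map_mul, inv_mul_cancel₀ hα, map_one]
    have e3 : normSq α⁻¹ * (d : ℚ) * normSq α = (normSq α⁻¹ * normSq α) * d := by ring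
    rw [e3, e2, one_mul]
  obtain ⟨a, b, c', h6⟩ := pure_int h2 h4
  have h7 : α⁻¹ * ι (s : K) * α = pq ![a, b, c'] := by
    rw [h6]; rfl
  rw [h7, normSq_pq] at h5
  have h8 : (![a, b, c'] : Fin 3 → ℤ) 0 ^ 2 + (![a, b, c'] : Fin 3 → ℤ) 1 ^ 2 +
      (![a, b, c'] : Fin 3 → ℤ) 2 ^ 2 = (d : ℤ) := by exact_mod_cast h5
  rw [h7]
  exact H _ h8

/-- nonvanishing along one field -/
theorem nonvan_one4 {V : ValuationSubring ℂ} (hV : Thr V) {k : ℕ} {F : Fun3}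
    (hF : Form4 k F) {c : ℂ} {r : kap V} (hr0 : r ≠ 0) {d : ℕ}
    (H : ∀ x : Fin 3 → ℤ, x 0 ^ 2 + x 1 ^ 2 + x 2 ^ 2 = (d : ℤ) →
      ∃ v : V, c * ev (F Oo Lip) (pq x) = (v : ℂ) ∧ rs V v = r)
    {K : Type} [Field K] [NumberField K] (hd : Squarefree d)
    (h8 : d % 4 = 1 ∨ d % 4 = 2) (h2 : Module.finrank ℚ K = 2) {x : K}
    (hx : x ^ 2 = -(d : K))
    (hcl : ¬ 3 ∣ Nat.card (ClassGroup (𝓞 K))) : NonvanPer4 F K := by
  have h8' : d % 8 = 3 ∨ d % 4 = 1 ∨ d % 4 = 2 := Or.inr h8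
  obtain ⟨w, hw⟩ := three_sq h8'
  have hd0 : 0 < d := by omega
  obtain ⟨ι, hι⟩ := exists_iota hd0 h2 hx hw
  have hs := stab_Oo hd h8' h2 hx hw hι
  have hs' := stab_Lip2 hd h8 h2 hx hι
  have hint : IsIntegral ℤ (x : K) := by
    refine ⟨Polynomial.X ^ 2 + Polynomial.C ((d : ℕ) : ℤ), ?_, ?_⟩
    · monicity!
    · rw [Polynomial.eval₂_add, Polynomial.eval₂_pow, Polynomial.eval₂_X,
        Polynomial.eval₂_C, hx]
      simp
  refine ⟨ι, Oo, Lip, pair4_Lip, hs, hs', x, ?_, ?_, ?_⟩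
  · rintro rfl
    rw [zero_pow two_ne_zero, zero_eq_neg, Nat.cast_eq_zero] at hx
    omega
  · rw [hι]; rfl
  · intro rep hrep h0
    obtain ⟨s0, hs0⟩ : ∃ s0 : 𝓞 K, (s0 : K) = x := ⟨⟨x, hint⟩, rfl⟩
    have hre : (ι (s0 : K)).re = 0 := by
      rw [hs0, hι]; rfl
    have hns : normSq (ι (s0 : K)) = (d : ℚ) := by
      rw [hs0, hι, normSq_pq, hw]; rfl
    have key : ∀ cl : ClassGroup (𝓞 K), ∃ v : V,
        c * ev (F (idl ι (rep cl : Ideal (𝓞 K)) Oo) (idl ι (rep cl : Ideal (𝓞 K)) Lip)) (ι x) =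
          (v : ℂ) ∧ rs V v = r := by
      intro cl
      have hne : (rep cl : Ideal (𝓞 K)) ≠ ⊥ := nonZeroDivisors.coe_ne_zero _
      have := period_term4 hF H hne hs hs' hre hns
      rw [hs0] at this
      exact this
    choose v hv1 hv2 using key
    have h1 : ((∑ cl, v cl : V) : ℂ) = 0 := by
      have : ((∑ cl, v cl : V) : ℂ) = c * torp F ι rep Oo Lip x := by
        unfold torp
        rw [Finset.mul_sum]
        have h3 : ((∑ cl, v cl : V) : ℂ) = V.subtype (∑ cl, v cl) := rfl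
        rw [h3, map_sum]
        apply Finset.sum_congr rfl
        intro cl _
        exact (hv1 cl).symm
      rw [this, h0, mul_zero]
    have h2 : (∑ cl, v cl : V) = 0 := Subtype.ext h1
    have h3 := congrArg (rs V) h2
    rw [map_sum, map_zero, Finset.sum_congr rfl (fun cl _ => hv2 cl), Finset.sum_const,
      Finset.card_univ, nsmul_eq_mul] at h3
    rcases mul_eq_zero.1 h3 with h4 | h4
    · apply card_unit hV hcl
      rw [Nat.card_eq_fintype_card]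
      exact h4
    · exact hr0 h4

end Pool.Agent.Helper725_HQ
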