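import Pool.Agent.Helper725_HQ.SInv

/-! Taylor expansion of the Hecke operator at three for the forms supercuspidal at two. -/

set_option autoImplicit false
set_option linter.unusedSimpArgs false
set_option linter.unnecessarySeqFocus false

namespace Pool.Agent.Helper725_HQ

open MvPolynomial

section
variable {R : Type*} [CommRing R] {f : MvPolynomial (Fin 3) R} {k : ℕ}

/-- invariance under the three sign changes -/
def Fl (f : MvPolynomial (Fin 3) R) : Prop := ∀ i : Fin 4, lsub (mz (dg (aa i 0) (aa i 1) (aa i 2))) f = f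

theorem Sym4.fl (h : Sym4 f) : Fl f := by
  intro i
  fin_cases i
  · have : (mz (dg (aa 0 0) (aa 0 1) (aa 0 2)) : Fin 3 → Fin 3 → R) = fun i j => if i = j then 1 else 0 := by
      funext i j
      fin_cases i <;> fin_cases j <;> simp [mz, dg, aa]
    show lsub (mz (dg (aa 0 0) (aa 0 1) (aa 0 2))) f = f
    rw [this, lsub_id]
  · exact h.f0
  · exact h.f1
  · exact h.f2

theorem Fl.val (h : Fl f) (i : Fin 4) : eval (cz (aa i)) f = eval ![1, 1, 1] f := by
  rw [← v_dg (h i) ![1, 1, 1]]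
  congr 2
  funext j
  rw [Fin.sum_univ_three]
  fin_cases j <;> simp [cz, dg]

theorem Fl.grad (h : Fl f) (i : Fin 4) (j : Fin 3) :
    eval (cz (aa i)) (pderiv j f) = ((aa i j : ℤ) : R) * eval ![1, 1, 1] (pderiv j f) := by
  have h1 : eval (cz (aa i)) (pderiv j f) =
      ∑ l, mz (dg (aa i 0) (aa i 1) (aa i 2)) l j *
        eval (fun m => ∑ n, mz (dg (aa i 0) (aa i 1) (aa i 2)) m n * cz (aa i) n) (pderiv l f) := by
    conv_lhs => rw [← h i, pderiv_lsub, map_sum]
    apply Finset.sum_congr rfl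
    intro l _
    rw [map_mul, eval_C, eval_lsub]
  have e1 : (fun m => ∑ n, mz (dg (aa i 0) (aa i 1) (aa i 2)) m n * cz (aa i) n) =
      (![1, 1, 1] : Fin 3 → R) := by
    funext m
    rw [Fin.sum_univ_three]
    have hsq : ∀ i m, aa i m * aa i m = 1 := by decide
    have hsq' : ∀ m, ((aa i m : ℤ) : R) * ((aa i m : ℤ) : R) = 1 := by
      intro m
      rw [← Int.cast_mul, hsq i m, Int.cast_one]
    fin_cases m
    · simpa [mz, dg, cz] using hsq' 0
    · simpa [mz, dg, cz] using hsq' 1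
    · simpa [mz, dg, cz] using hsq' 2
  rw [h1, e1, Fin.sum_univ_three]
  fin_cases j <;> simp [mz, dg]

/-- the expansion of the Hecke operator at three modulo nine -/
theorem TT_gen (hf : f.IsHomogeneous k) (h : Fl f) :
    ∃ g : MvPolynomial (Fin 3) R, TT f = C (2 ^ k * eval ![1, 1, 1] f) * SS k -
      C (3 * 2 ^ (k - 1)) * (∑ i, (lf (aa i)) ^ (k - 1) *
        ∑ j, C (((aa i j : ℤ) : R) * eval ![1, 1, 1] (pderiv j f)) * X j) + 9 * g := by
  have key : ∀ i : Fin 4, ∃ g : MvPolynomial (Fin 3) R, lsub (mz (MM i)) f =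
      C (2 ^ k * eval ![1, 1, 1] f) * (lf (aa i)) ^ k -
      C (3 * 2 ^ (k - 1)) * ((lf (aa i)) ^ (k - 1) *
        ∑ j, C (((aa i j : ℤ) : R) * eval ![1, 1, 1] (pderiv j f)) * X j) + 9 * g := by
    intro i
    obtain ⟨g, hg⟩ := taylor (S := MvPolynomial (Fin 3) R) f
      (fun j => ∑ l, C (2 * ((aa i j : ℤ) : R) * ((aa i l : ℤ) : R)) * X l) (fun j => X j)
    refine ⟨g, ?_⟩
    have e1 : lsub (mz (MM i)) f = aeval (fun j =>
        (∑ l, C (2 * ((aa i j : ℤ) : R) * ((aa i l : ℤ) : R)) * X l) - 3 * X j) f := by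
      unfold lsub
      congr 1
      congr 1
      funext j
      have : ∀ l, C (mz (MM i) j l) * (X l : MvPolynomial (Fin 3) R) =
          C (2 * ((aa i j : ℤ) : R) * ((aa i l : ℤ) : R)) * X l - (if j = l then 3 * X j else 0) := by
        intro l
        unfold mz MM
        split_ifs with hjl
        · subst hjl
          push_cast
          rw [C_sub, sub_mul]
          congr 1
        · simp
      rw [Finset.sum_congr rfl (fun l _ => this l), Finset.sum_sub_distrib, Finset.sum_ite_eq,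
        if_pos (Finset.mem_univ _)]
    rw [e1, hg]
    have e2 : ∀ (q : MvPolynomial (Fin 3) R) (m : ℕ), q.IsHomogeneous m →
        aeval (fun j => ∑ l, C (2 * ((aa i j : ℤ) : R) * ((aa i l : ℤ) : R)) *
          (X l : MvPolynomial (Fin 3) R)) q = C (2 ^ m * eval (cz (aa i)) q) * (lf (aa i)) ^ m := by
      intro q m hq
      have := lsub_rank_one hq (fun j => 2 * ((aa i j : ℤ) : R)) (fun l => ((aa i l : ℤ) : R))
      unfold lsub at this
      rw [this]
      congr 2
      exact eval_two hq (cz (aa i))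
    rw [e2 f k hf, h.val i]
    have e3 : ∀ j : Fin 3, X j * aeval (fun j => ∑ l, C (2 * ((aa i j : ℤ) : R) *
        ((aa i l : ℤ) : R)) * (X l : MvPolynomial (Fin 3) R)) (pderiv j f) =
        C (2 ^ (k - 1)) * ((lf (aa i)) ^ (k - 1) *
          (C (((aa i j : ℤ) : R) * eval ![1, 1, 1] (pderiv j f)) * X j)) := by
      intro j
      rw [e2 _ (k - 1) hf.pderiv, h.grad i j, C_mul (a := 2 ^ (k - 1))]
      ring
    have e7 : (C (3 : R) : MvPolynomial (Fin 3) R) = 3 := rfl
    rw [Finset.sum_congr rfl (fun j _ => e3 j), ← Finset.mul_sum, ← Finset.mul_sum,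
      C_mul (a := (3 : R)), e7]
    ring
  choose g hg using key
  refine ⟨∑ i, g i, ?_⟩
  unfold TT SS
  rw [Finset.sum_congr rfl (fun i _ => hg i), Finset.sum_add_distrib, Finset.sum_sub_distrib,
    ← Finset.mul_sum, ← Finset.mul_sum, ← Finset.mul_sum]

theorem TT_four [IsDomain R] (h3 : (3 : R) ≠ 0) (hf : f.IsHomogeneous k) (hk : 1 ≤ k)
    (h : Sym4 f) : ∃ g : MvPolynomial (Fin 3) R, TT f =
      3 * (C (-(2 ^ (k - 1) * eval ![1, 1, 1] (pderiv 1 f))) * SS k + 3 * g) := by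
  obtain ⟨g, hg⟩ := TT_gen hf h.fl
  have h0 : eval ![1, 1, 1] f = 0 := (mul_eq_zero.1 h.three).resolve_left h3
  set μ := eval ![1, 1, 1] (pderiv 1 f) with hμ
  have e7 : (C (3 : R) : MvPolynomial (Fin 3) R) = 3 := rfl
  have e1 : ∀ i : Fin 4, (lf (aa i)) ^ (k - 1) *
      ∑ j, C (((aa i j : ℤ) : R) * eval ![1, 1, 1] (pderiv j f)) * X j =
      C μ * (lf (aa i)) ^ k - 3 * (C (μ * ((aa i 0 : ℤ) : R)) * (X 0 * (lf (aa i)) ^ (k - 1))) := by
    intro i
    have e2 : ∑ j, C (((aa i j : ℤ) : R) * eval ![1, 1, 1] (pderiv j f)) *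
        (X j : MvPolynomial (Fin 3) R) = C μ * lf (aa i) - 3 * (C (μ * ((aa i 0 : ℤ) : R)) * X 0) := by
      unfold lf
      rw [Fin.sum_univ_three, Fin.sum_univ_three, h.grad0 h3 hf, h.grad2, ← hμ]
      simp only [map_mul, map_neg, map_ofNat]
      ring
    rw [e2]
    have e3 : (lf (aa i) : MvPolynomial (Fin 3) R) ^ k = (lf (aa i)) ^ (k - 1) * lf (aa i) := by
      rw [← pow_succ, Nat.sub_add_cancel hk]
    rw [e3]
    ring
  rw [h0, mul_zero, C_0, zero_mul, zero_sub, Finset.sum_congr rfl (fun i _ => e1 i),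
    Finset.sum_sub_distrib, ← Finset.mul_sum, ← Finset.mul_sum] at hg
  refine ⟨C (2 ^ (k - 1)) * (∑ i, C (μ * ((aa i 0 : ℤ) : R)) * (X 0 * (lf (aa i)) ^ (k - 1))) + g, ?_⟩
  rw [hg, C_mul (a := (3 : R)), C_neg, C_mul (a := (2 : R) ^ (k - 1)), e7]
  unfold SS
  ring

end

theorem eval_dSS {R : Type*} [CommRing R] (k : ℕ) :
    eval ![1, 1, 1] (pderiv 1 (SS k : MvPolynomial (Fin 3) R)) = (k : R) * (3 ^ (k - 1) + 1) := by
  have hl : ∀ i : Fin 4, pderiv 1 (lf (aa i) : MvPolynomial (Fin 3) R) = C ((aa i 1 : ℤ) : R) := by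
    intro i
    unfold lf
    rw [Fin.sum_univ_three]
    simp [pderiv_X, Pi.single_apply]
  unfold SS
  rw [map_sum, map_sum]
  have h1 : ∀ i : Fin 4, eval ![1, 1, 1] (pderiv 1 ((lf (aa i) : MvPolynomial (Fin 3) R) ^ k)) =
      (k : R) * (((aa i 0 + aa i 1 + aa i 2 : ℤ) : R) ^ (k - 1) * ((aa i 1 : ℤ) : R)) := by
    intro i
    rw [Derivation.leibniz_pow, hl, smul_eq_mul, nsmul_eq_mul, map_mul, map_mul, map_natCast,
      map_pow, eval_C, eval_lf]
    congr 3
    push_cast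
    simp
  rw [Finset.sum_congr rfl (fun i _ => h1 i), ← Finset.mul_sum, Fin.sum_univ_four]
  congr 1
  simp [aa]

end Pool.Agent.Helper725_HQ
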