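import Pool.Agent.Helper725_HQ.STay

/-! Values of eigenforms of slope one which are supercuspidal at two. -/

set_option autoImplicit false
set_option linter.unusedSimpArgs false
set_option linter.unnecessarySeqFocus false

namespace Pool.Agent.Helper725_HQ

open Quaternion MvPolynomial

section
variable {V : ValuationSubring ℂ}

theorem res3 (hV : Thr V) : map (rs V) (3 : MvPolynomial (Fin 3) V) = 0 := by
  rw [map_ofNat]
  have : (3 : MvPolynomial (Fin 3) (kap V)) = C (3 : kap V) := rfl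
  rw [this, three_zero hV, C_0]

/-- reduction of an eigenform of slope one -/
theorem slope_four {k : ℕ} (hV : Thr V) (hk : Even k) (hk0 : k ≠ 0) {F : Fun3}
    (hF : Form4 k F) (hF0 : F ≠ 0) {lam : ℂ} (he : TL4 3 p3 F = lam • F) {w : V}
    (hw : rs V w ≠ 0) (hlw : (3 : ℂ) ^ k * lam = 3 * (w : ℂ)) :
    ∃ c : ℂ, c ≠ 0 ∧ ∃ f : MvPolynomial (Fin 3) V, map V.subtype f = C c * F Oo Lip ∧ Sym4 f ∧
      f.IsHomogeneous k ∧ rs V (eval ![1, 1, 1] (pderiv 1 f)) ≠ 0 ∧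
      ∃ ρ : kap V, ρ ≠ 0 ∧ map (rs V) f = C ρ * SS k := by
  have hP : F Oo Lip ≠ 0 := fun h => hF0 (form4_ext hF h)
  obtain ⟨c, hc, f, hf, hf0⟩ := scale_poly (V := V) hP
  have hF' : Form4 k (c • F) := (W4 k).smul_mem c hF
  have hfF : map V.subtype f = (c • F) Oo Lip := by
    rw [hf, Pi.smul_apply, Pi.smul_apply, smul_eq_C_mul]
  have hsym : Sym4 f := Sym4.of_map sub_inj (by rw [hfF]; exact sym4_form hk hF')
  have hhom : f.IsHomogeneous k := IsHomogeneous.of_map sub_inj (by rw [hfF]; exact hF'.hom Oo Lip)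
  have hTT : TT f = C (3 * w) * f := by
    apply map_injective V.subtype sub_inj
    rw [TT_map, hfF, ← T4_TT hF', map_mul, map_C, map_smul, he, hfF]
    have e1 : V.subtype (3 * w) = 3 ^ k * lam := hlw.symm
    rw [e1]
    simp only [Pi.smul_apply, smul_eq_C_mul, C_mul]
    ring
  obtain ⟨g, hg⟩ := TT_four three_ne hhom (Nat.one_le_iff_ne_zero.2 hk0) hsym
  rw [hTT] at hg
  have e3 : (C (3 : V) : MvPolynomial (Fin 3) V) = 3 := rfl
  have h3 : (3 : MvPolynomial (Fin 3) V) ≠ 0 := by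
    rw [← e3, Ne, C_eq_zero]; exact three_ne
  have hcancel : C w * f = C (-(2 ^ (k - 1) * eval ![1, 1, 1] (pderiv 1 f))) * SS k + 3 * g := by
    apply mul_left_cancel₀ h3
    rw [← hg, C_mul, e3]
    ring
  have hres := congrArg (map (rs V)) hcancel
  rw [map_mul, map_C, map_add, map_mul, map_C, map_mul, SS_map, res3 hV, zero_mul, add_zero] at hres
  have hwne : (C (rs V w) : MvPolynomial (Fin 3) (kap V)) ≠ 0 := by
    rw [Ne, C_eq_zero]; exact hw
  have hne : rs V (-(2 ^ (k - 1) * eval ![1, 1, 1] (pderiv 1 f))) ≠ 0 := by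
    intro h0
    rw [h0, C_0, zero_mul] at hres
    exact hf0 ((mul_eq_zero.1 hres).resolve_left hwne)
  refine ⟨c, hc, f, hf, hsym, hhom, ?_, (rs V w)⁻¹ *
    rs V (-(2 ^ (k - 1) * eval ![1, 1, 1] (pderiv 1 f))),
    mul_ne_zero (inv_ne_zero hw) hne, ?_⟩
  · intro h0
    apply hne
    rw [map_neg, map_mul, h0, mul_zero, neg_zero]
  · apply mul_left_cancel₀ hwne
    rw [hres, ← mul_assoc, ← C_mul, ← mul_assoc, mul_inv_cancel₀ hw, one_mul]

theorem slope_val4 {k : ℕ} (hV : Thr V) (hk : Even k) (hk0 : k ≠ 0) {F : Fun3}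
    (hF : Form4 k F) (hF0 : F ≠ 0) {lam : ℂ} (he : TL4 3 p3 F = lam • F) {w : V}
    (hw : rs V w ≠ 0) (hlw : (3 : ℂ) ^ k * lam = 3 * (w : ℂ)) {d : ℕ} (h9 : ¬ 9 ∣ d)
    (hgood : d % 3 ≠ 0 ∨ d % 9 = 6) :
    ∃ c : ℂ, c ≠ 0 ∧ ∃ r : kap V, r ≠ 0 ∧ ∀ x : Fin 3 → ℤ,
      x 0 ^ 2 + x 1 ^ 2 + x 2 ^ 2 = (d : ℤ) → ∃ v : V, c * ev (F Oo Lip) (pq x) = (v : ℂ) ∧
        rs V v = r := by
  obtain ⟨c, hc, f, hf, hsym, hhom, hμ, ρ, hρ, hres⟩ :=
    slope_four hV hk hk0 hF hF0 he hw hlw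
  have hval : ∀ x : Fin 3 → ℤ, c * ev (F Oo Lip) (pq x) =
      ((eval (fun j => ((x j : ℤ) : V)) f : V) : ℂ) := by
    intro x
    rw [← ev_map, hf, ← smul_eq_C_mul, ev_smul]
  by_cases h3 : d % 3 = 0
  · have hg' : d % 9 = 6 := by
      rcases hgood with h | h
      · exact absurd h3 h
      · exact h
    have h2ne : ((2 : ℤ) : kap V) ≠ 0 := rs_int_ne hV (by norm_num)
    refine ⟨c * (3 : ℂ)⁻¹, mul_ne_zero hc (by norm_num),
      rs V (eval ![1, 1, 1] (pderiv 1 f)) * ((2 : ℤ) : kap V), mul_ne_zero hμ h2ne, ?_⟩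
    intro x hx
    obtain ⟨y, hy⟩ := ram_form hx h3 h9
    obtain ⟨g, hg⟩ := taylor_eval f ![1, 1, 1] (fun j => ((y j : ℤ) : V))
    have e1 : eval (fun j => ((x j : ℤ) : V)) f =
        eval (fun j => (![1, 1, 1] : Fin 3 → V) j + 3 * ((y j : ℤ) : V)) f := by
      apply hsym.abs
      intro j
      have e2 : (![1, 1, 1] : Fin 3 → V) j = 1 := by fin_cases j <;> rfl
      rw [e2]
      rcases hy j with h | h
      · left; rw [h]; push_cast; rfl
      · right; rw [h]; push_cast; rfl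
    have h0 : eval ![1, 1, 1] f = 0 := (mul_eq_zero.1 hsym.three).resolve_left three_ne
    set μ := eval ![1, 1, 1] (pderiv 1 f) with hμdef
    have e4 : ∑ j, ((y j : ℤ) : V) * eval ![1, 1, 1] (pderiv j f) =
        μ * ((y 0 + y 1 + y 2 : ℤ) : V) - 3 * (((y 0 : ℤ) : V) * μ) := by
      rw [Fin.sum_univ_three, hsym.grad0 three_ne hhom, hsym.grad2, ← hμdef]
      push_cast
      ring
    rw [← e1, e4, h0] at hg
    refine ⟨μ * ((y 0 + y 1 + y 2 : ℤ) : V) + 3 * (g - ((y 0 : ℤ) : V) * μ), ?_, ?_⟩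
    · have e5 : c * (3 : ℂ)⁻¹ * ev (F Oo Lip) (pq x) = (3 : ℂ)⁻¹ * (c * ev (F Oo Lip) (pq x)) := by
        ring
      rw [e5, hval, hg]
      have e7 : (0 + 3 * (μ * ((y 0 + y 1 + y 2 : ℤ) : V) - 3 * (((y 0 : ℤ) : V) * μ)) + 9 * g : V) =
          3 * (μ * ((y 0 + y 1 + y 2 : ℤ) : V) + 3 * (g - ((y 0 : ℤ) : V) * μ)) := by ring
      have e6 : ((0 + 3 * (μ * ((y 0 + y 1 + y 2 : ℤ) : V) - 3 * (((y 0 : ℤ) : V) * μ)) + 9 * g : V) : ℂ) =
          3 * ((μ * ((y 0 + y 1 + y 2 : ℤ) : V) + 3 * (g - ((y 0 : ℤ) : V) * μ) : V) : ℂ) := by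
        rw [e7]
        rfl
      rw [e6, ← mul_assoc, inv_mul_cancel₀ (by norm_num), one_mul]
    · rw [map_add, map_mul, map_mul, three_zero' hV, zero_mul, add_zero, map_intCast]
      congr 1
      apply cast_mod hV
      have hs : (x 0 ^ 2 + x 1 ^ 2 + x 2 ^ 2 : ℤ) = 3 + 6 * (y 0 + y 1 + y 2) +
          9 * (y 0 ^ 2 + y 1 ^ 2 + y 2 ^ 2) := by
        have q : ∀ j, x j ^ 2 = (1 + 3 * y j) ^ 2 := by
          intro j
          rcases hy j with h | h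
          · rw [h]
          · rw [h, neg_sq]
        rw [q 0, q 1, q 2]
        ring
      rw [hx] at hs
      have : (d : ℤ) % 9 = 6 := by omega
      omega
  · refine ⟨c, hc, ρ * ((d : ℤ) : kap V), mul_ne_zero hρ (rs_int_ne hV (by omega)), ?_⟩
    intro x hx
    refine ⟨_, hval x, ?_⟩
    rw [← evz_map, hres, evz_C_mul, evz_SS hV hk hk0, hx]

end

end Pool.Agent.Helper725_HQ
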