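import Pool.Agent.Helper725_HQ.Cls2

/-! The Hecke operator at three, explicitly. -/

set_option autoImplicit false
set_option linter.unusedSimpArgs false
set_option linter.unnecessarySeqFocus false

namespace Pool.Agent.Helper725_HQ

open Quaternion MvPolynomial

/-- the integral matrix of conjugation -/
def rotZ (a b c d : ℤ) : Fin 3 → Fin 3 → ℤ :=
  ![![a ^ 2 + b ^ 2 - c ^ 2 - d ^ 2, 2 * (b * c + a * d), 2 * (b * d - a * c)],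
    ![2 * (b * c - a * d), a ^ 2 - b ^ 2 + c ^ 2 - d ^ 2, 2 * (c * d + a * b)],
    ![2 * (b * d + a * c), 2 * (c * d - a * b), a ^ 2 - b ^ 2 - c ^ 2 + d ^ 2]]

theorem rmat_rotZ {a b c d N : ℤ} (hN : a ^ 2 + b ^ 2 + c ^ 2 + d ^ 2 = N) (hN0 : N ≠ 0)
    (i j : Fin 3) : (N : ℚ) * rmat (mk4 a b c d) i j = rotZ a b c d i j := by
  have hNq : (N : ℚ) ≠ 0 := by exact_mod_cast hN0
  have hN' : (a : ℚ) ^ 2 + (b : ℚ) ^ 2 + (c : ℚ) ^ 2 + (d : ℚ) ^ 2 = N := by exact_mod_cast hN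
  have hinv : (mk4 a b c d : ℍ[ℚ])⁻¹ = ((N : ℚ)⁻¹) • mk4 a (-b) (-c) (-d) := by
    apply inv_eq_of_mul_eq_one_right
    rw [mul_smul_comm]
    have h1 : mk4 a b c d * mk4 a (-b) (-c) (-d) = (N : ℚ) • (1 : ℍ[ℚ]) := by
      apply ext4
      · rw [re_mul]; simp; linear_combination hN'
      · rw [imI_mul]; simp; ring
      · rw [imJ_mul]; simp; ring
      · rw [imK_mul]; simp; ring
    rw [h1, smul_smul, inv_mul_cancel₀ hNq, one_smul]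
  unfold rmat
  rw [hinv, smul_mul_assoc, smul_mul_assoc, vec_smul]
  have e : (N : ℚ) * ((N : ℚ)⁻¹ * vec (mk4 a (-b) (-c) (-d) * bas j * mk4 a b c d) i) =
      vec (mk4 a (-b) (-c) (-d) * bas j * mk4 a b c d) i := by
    field_simp
  rw [e]
  fin_cases i <;> fin_cases j <;>
    simp [vec, bas, rotZ, re_mul, imI_mul, imJ_mul, imK_mul] <;> ring1

/-- the matrix attached to an edge -/
def eM (v : Fin 3 → ℤ) (g : Fin 4 → ℤ) (i j : Fin 3) : ℤ :=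
  rotZ (-(v 0 * g 1 + v 1 * g 2 + v 2 * g 3)) (g 0 * v 0 + (v 1 * g 3 - v 2 * g 2))
    (g 0 * v 1 + (v 2 * g 1 - v 0 * g 3)) (g 0 * v 2 + (v 0 * g 2 - v 1 * g 1)) i j /
    (g 0 ^ 2 + g 1 ^ 2 + g 2 ^ 2 + g 3 ^ 2)

/-- the integrality condition -/
def eMok (v : Fin 3 → ℤ) (g : Fin 4 → ℤ) : Prop := v 0 ^ 2 + v 1 ^ 2 + v 2 ^ 2 = 3 ∧
  g 0 ^ 2 + g 1 ^ 2 + g 2 ^ 2 + g 3 ^ 2 ≠ 0 ∧ ∀ i j,
  rotZ (-(v 0 * g 1 + v 1 * g 2 + v 2 * g 3)) (g 0 * v 0 + (v 1 * g 3 - v 2 * g 2))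
    (g 0 * v 1 + (v 2 * g 1 - v 0 * g 3)) (g 0 * v 2 + (v 0 * g 2 - v 1 * g 1)) i j =
    (g 0 ^ 2 + g 1 ^ 2 + g 2 ^ 2 + g 3 ^ 2) * eM v g i j

instance (v : Fin 3 → ℤ) (g : Fin 4 → ℤ) : Decidable (eMok v g) := by
  unfold eMok; infer_instance

/-- the quaternion with integral coordinates -/
def q4 (g : Fin 4 → ℤ) : ℍ[ℚ] := mk4 (g 0) (g 1) (g 2) (g 3)

theorem normSq_q4 (g : Fin 4 → ℤ) :
    normSq (q4 g) = ((g 0 ^ 2 + g 1 ^ 2 + g 2 ^ 2 + g 3 ^ 2 : ℤ) : ℚ) := by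
  rw [normSq_def']; simp [q4]

theorem q4_ne {g : Fin 4 → ℤ} (h : g 0 ^ 2 + g 1 ^ 2 + g 2 ^ 2 + g 3 ^ 2 ≠ 0) : q4 g ≠ 0 := by
  rw [← normSq_ne_zero, normSq_q4]
  exact_mod_cast h

theorem eM_rmat {v : Fin 3 → ℤ} {g : Fin 4 → ℤ} (h : eMok v g) (i j : Fin 3) :
    (3 : ℚ) * rmat (pq v * q4 g) i j = eM v g i j := by
  obtain ⟨h1, h2, h3⟩ := h
  have e : pq v * q4 g = mk4 ((-(v 0 * g 1 + v 1 * g 2 + v 2 * g 3) : ℤ) : ℚ)
      ((g 0 * v 0 + (v 1 * g 3 - v 2 * g 2) : ℤ) : ℚ)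
      ((g 0 * v 1 + (v 2 * g 1 - v 0 * g 3) : ℤ) : ℚ)
      ((g 0 * v 2 + (v 0 * g 2 - v 1 * g 1) : ℤ) : ℚ) := by
    apply ext4
    · simp [re_mul, pq, q4]; ring
    · simp [imI_mul, pq, q4]; ring
    · simp [imJ_mul, pq, q4]; ring
    · simp [imK_mul, pq, q4]; ring
  have hN := rmat_rotZ (a := -(v 0 * g 1 + v 1 * g 2 + v 2 * g 3))
    (b := g 0 * v 0 + (v 1 * g 3 - v 2 * g 2)) (c := g 0 * v 1 + (v 2 * g 1 - v 0 * g 3))
    (d := g 0 * v 2 + (v 0 * g 2 - v 1 * g 1))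
    (N := 3 * (g 0 ^ 2 + g 1 ^ 2 + g 2 ^ 2 + g 3 ^ 2)) (by rw [← h1]; ring)
    (mul_ne_zero (by norm_num) h2) i j
  rw [h3 i j, ← e] at hN
  have h2' : ((g 0 ^ 2 + g 1 ^ 2 + g 2 ^ 2 + g 3 ^ 2 : ℤ) : ℚ) ≠ 0 := by exact_mod_cast h2
  apply mul_left_cancel₀ h2'
  rw [Int.cast_mul, Int.cast_mul] at hN
  rw [← hN]
  push_cast
  ring

theorem lsub_congr {A B : Fin 3 → Fin 3 → ℂ} (h : ∀ i j, A i j = B i j)
    (P : MvPolynomial (Fin 3) ℂ) : lsub A P = lsub B P := by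
  have : A = B := by
    funext i j
    exact h i j
  rw [this]

theorem eM_lsub {v : Fin 3 → ℤ} {g : Fin 4 → ℤ} (h : eMok v g) {k : ℕ}
    {P : MvPolynomial (Fin 3) ℂ} (hP : P.IsHomogeneous k) :
    C ((3 : ℂ) ^ k) * lsub (rC (pq v)) (lsub (rC (q4 g)) P) =
      lsub (fun i j => ((eM v g i j : ℤ) : ℂ)) P := by
  have h3 : pq v ≠ 0 := by
    rw [← normSq_ne_zero, normSq_pq, h.1]; norm_num
  rw [rC_mul h3 (q4_ne h.2.1), ← lsub_smul hP]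
  apply lsub_congr
  intro i j
  have := eM_rmat h i j
  rw [← Rat.cast_intCast, ← this, Rat.cast_mul, Rat.cast_ofNat]
  rfl

theorem nM_lsub {v : Fin 3 → ℤ} {N : ℤ} (hN : v 0 ^ 2 + v 1 ^ 2 + v 2 ^ 2 = N) (hN0 : N ≠ 0)
    {k : ℕ} {P : MvPolynomial (Fin 3) ℂ} (hP : P.IsHomogeneous k) :
    C ((N : ℂ) ^ k) * lsub (rC (pq v)) P =
      lsub (fun i j => ((2 * v i * v j - (if i = j then N else 0) : ℤ) : ℂ)) P := by
  rw [← lsub_smul hP]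
  apply lsub_congr
  intro i j
  have := rmat_pq hN hN0 i j
  have e : ((2 * v i * v j - (if i = j then N else 0) : ℤ) : ℂ) =
      (((2 * v i * v j - (if i = j then N else 0) : ℤ) : ℚ) : ℂ) := by
    rw [Rat.cast_intCast]
  rw [e]
  have e2 : ((2 * v i * v j - (if i = j then N else 0) : ℤ) : ℚ) = (N : ℚ) * rmat (pq v) i j := by
    rw [this]
    push_cast
    split_ifs <;> simp
  rw [e2, Rat.cast_mul, Rat.cast_intCast]
  rfl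

/-- divisibility of a triple product -/
def trip (n a t : Fin 3 → ℤ) : Prop :=
  (17 : ℤ) ∣ -(n 0 * (a 1 * t 2 - a 2 * t 1) + n 1 * (a 2 * t 0 - a 0 * t 2) +
    n 2 * (a 0 * t 1 - a 1 * t 0)) ∧
  (17 : ℤ) ∣ -(a 0 * t 0 + a 1 * t 1 + a 2 * t 2) * n 0 + (n 1 * (a 0 * t 1 - a 1 * t 0) -
    n 2 * (a 2 * t 0 - a 0 * t 2)) ∧
  (17 : ℤ) ∣ -(a 0 * t 0 + a 1 * t 1 + a 2 * t 2) * n 1 + (n 2 * (a 1 * t 2 - a 2 * t 1) -
    n 0 * (a 0 * t 1 - a 1 * t 0)) ∧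
  (17 : ℤ) ∣ -(a 0 * t 0 + a 1 * t 1 + a 2 * t 2) * n 2 + (n 0 * (a 2 * t 0 - a 0 * t 2) -
    n 1 * (a 1 * t 2 - a 2 * t 1))

instance (n a t : Fin 3 → ℤ) : Decidable (trip n a t) := by unfold trip; infer_instance

theorem trip_mem {n a t : Fin 3 → ℤ} (h : trip n a t) :
    ∃ h ∈ Hur, pq n * (pq a * pq t) = ((17 : ℕ) : ℍ[ℚ]) * h := by
  obtain ⟨⟨x, hx⟩, ⟨y, hy⟩, ⟨z, hz⟩, ⟨w, hw⟩⟩ := h
  refine ⟨mk4 x y z w, int_mem x y z w, ?_⟩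
  have e : ((17 : ℕ) : ℍ[ℚ]) * mk4 x y z w = (17 : ℚ) • mk4 x y z w := by
    rw [← ratmul]; norm_cast
  have hx' := congrArg (fun u : ℤ => (u : ℚ)) hx
  have hy' := congrArg (fun u : ℤ => (u : ℚ)) hy
  have hz' := congrArg (fun u : ℤ => (u : ℚ)) hz
  have hw' := congrArg (fun u : ℤ => (u : ℚ)) hw
  push_cast at hx' hy' hz' hw'
  rw [e]
  apply ext4
  · simp [re_mul, imI_mul, imJ_mul, imK_mul, pq]; linear_combination hx'
  · simp [re_mul, imI_mul, imJ_mul, imK_mul, pq]; linear_combination hy'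
  · simp [re_mul, imI_mul, imJ_mul, imK_mul, pq]; linear_combination hz'
  · simp [re_mul, imI_mul, imJ_mul, imK_mul, pq]; linear_combination hw'

/-- the neighbours of the first pair -/
def tA : Fin 4 → Fin 3 → ℤ := ![![-2, 3, 2], ![3, 2, -2], ![-3, -2, -2], ![-2, 3, -2]]
/-- the conjugating elements -/
def gA : Fin 4 → Fin 4 → ℤ := ![![0, 0, 1, 1], ![1, 0, 1, 0], ![0, 1, 0, -1], ![1, -1, 1, 1]]
/-- the neighbours of the second pair -/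
def tB : Fin 4 → Fin 3 → ℤ := ![![-2, -2, 3], ![4, 0, 1], ![0, -4, -1], ![-2, -2, 3]]
/-- the conjugating elements -/
def gB : Fin 4 → Fin 4 → ℤ := ![![0, 0, 0, 1], ![1, -1, -1, -1], ![0, 1, 0, -1], ![0, 0, 0, 1]]
/-- the types of the neighbours of the second pair -/
def bB : Fin 4 → Fin 3 → ℤ := ![nB, nA, nA, nB]

theorem edA : ∀ i, edg (gA i 0) (gA i 1) (gA i 2) (gA i 3) 1 (tA i) nB := by decide
theorem edB : ∀ i, edg (gB i 0) (gB i 1) (gB i 2) (gB i 3) 1 (tB i) (bB i) := by decide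
theorem tripA : ∀ i, trip nA (aa i) (tA i) := by decide
theorem tripB : ∀ i, trip nB (aa i) (tB i) := by decide
theorem tA_norm : ∀ i, tA i 0 ^ 2 + tA i 1 ^ 2 + tA i 2 ^ 2 = ((17 : ℕ) : ℤ) := by decide
theorem tB_norm : ∀ i, tB i 0 ^ 2 + tB i 1 ^ 2 + tB i 2 ^ 2 = ((17 : ℕ) : ℤ) := by decide
theorem eMA : ∀ i, eMok (aa i) (gA i) := by decide +kernel
theorem eMB : ∀ i, eMok (aa i) (gB i) := by decide +kernel

/-- values of `γ⁻¹ a γ` -/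
def uA : Fin 4 → Fin 3 → ℤ := ![![-1, 1, 1], ![-1, 1, -1], ![-1, 1, -1], ![1, -1, 1]]
/-- values of `γ⁻¹ a γ` -/
def uB : Fin 4 → Fin 3 → ℤ := ![![-1, -1, 1], ![1, -1, 1], ![-1, 1, -1], ![-1, -1, -1]]

theorem eMA3 : ∀ i j l, ∃ w : ℤ, eM (aa i) (gA i) j l = -(uA i j) * aa i l + 3 * w := by
  have : ∀ i j l, (eM (aa i) (gA i) j l + uA i j * aa i l) % 3 = 0 := by decide +kernel
  intro i j l
  obtain ⟨w, hw⟩ := Int.dvd_of_emod_eq_zero (this i j l)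
  exact ⟨w, by linear_combination hw⟩

theorem eMB3 : ∀ i j l, ∃ w : ℤ, eM (aa i) (gB i) j l = -(uB i j) * aa i l + 3 * w := by
  have : ∀ i j l, (eM (aa i) (gB i) j l + uB i j * aa i l) % 3 = 0 := by decide +kernel
  intro i j l
  obtain ⟨w, hw⟩ := Int.dvd_of_emod_eq_zero (this i j l)
  exact ⟨w, by linear_combination hw⟩

section
variable {k : ℕ} {F : Fun3} (hF : Form0 17 k F)
include hF

theorem T3A : C ((3 : ℂ) ^ k) * TL 17 3 p3 F Oo (lm (pq nA) Oo) =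
    ∑ i, lsub (fun j l => ((eM (aa i) (gA i) j l : ℤ) : ℂ)) (F Oo (lm (pq nB) Oo)) := by
  rw [T3_gen hF nA_norm tA_norm (fun i => trip_mem (tripA i)), Finset.mul_sum]
  apply Finset.sum_congr rfl
  intro i _
  rw [edg_form (edA i) hF]
  exact eM_lsub (eMA i) (hF.hom _ _)

theorem T3B : C ((3 : ℂ) ^ k) * TL 17 3 p3 F Oo (lm (pq nB) Oo) =
    ∑ i, lsub (fun j l => ((eM (aa i) (gB i) j l : ℤ) : ℂ)) (F Oo (lm (pq (bB i)) Oo)) := by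
  rw [T3_gen hF nB_norm tB_norm (fun i => trip_mem (tripB i)), Finset.mul_sum]
  apply Finset.sum_congr rfl
  intro i _
  rw [edg_form (edB i) hF]
  exact eM_lsub (eMB i) (hF.hom _ _)

theorem ww_pq {n : Fin 3 → ℤ} (hn : n 0 ^ 2 + n 1 ^ 2 + n 2 ^ 2 = ((17 : ℕ) : ℤ)) :
    C ((17 : ℂ) ^ k) * ww 17 F Oo (lm (pq n) Oo) =
      lsub (fun i j => ((2 * n i * n j - (if i = j then 17 else 0) : ℤ) : ℂ))
        (F Oo (lm (pq n) Oo)) := by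
  have h1 : lm ((17 : ℕ) : ℍ[ℚ]) Oo = lm (pq n) (lm (pq n) Oo) := by
    rw [lm_lm]
    have : pq n * pq n = -((17 : ℕ) : ℍ[ℚ]) := by
      have := pq_sq n hn 1
      rwa [mul_one, mul_one] at this
    rw [this, lm_neg_Oo]
  have h0 := pq_ne (by norm_num) hn
  rw [ww_apply, h1]
  have h2 := hF.left _ h0 Oo (lm (pq n) Oo)
  rw [h2]
  have h3 := nM_lsub (N := 17) (by exact_mod_cast hn) (by norm_num) (hF.hom Oo (lm (pq n) Oo))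
  exact_mod_cast h3

end

end Pool.Agent.Helper725_HQ
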