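import Pool.Agent.Helper725_HQ.Gam

/-! Isotropic vectors and right ideals of prime norm. -/

set_option autoImplicit false
set_option linter.unusedSimpArgs false
set_option linter.unnecessarySeqFocus false

namespace Pool.Agent.Helper725_HQ

open Quaternion MvPolynomial

/-- doubled coordinates -/
theorem doubled {β : ℍ[ℚ]} (hβ : β ∈ Hur) : ∃ A B C D : ℤ, β.re = A / 2 ∧ β.imI = B / 2 ∧
    β.imJ = C / 2 ∧ β.imK = D / 2 := by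
  obtain ⟨a, b, c, d, h1, h2, h3, h4⟩ := hβ
  refine ⟨a, a + 2 * b, a + 2 * c, a + 2 * d, h1, ?_, ?_, ?_⟩
  · rw [h2]; push_cast; ring
  · rw [h3]; push_cast; ring
  · rw [h4]; push_cast; ring

theorem conj_vec {β u : ℍ[ℚ]} (hβ : β ∈ Hur) (hu : u ∈ Hur) (hu0 : u.re = 0) (hu1 : normSq u = 1)
    {p : ℕ} (hn : normSq β = p) : ∃ v : Fin 3 → ℤ, pq v = β * u * star β ∧
    v 0 ^ 2 + v 1 ^ 2 + v 2 ^ 2 = (p : ℤ) ^ 2 ∧ pq v * β = (p : ℍ[ℚ]) * (β * u) := by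
  have hy : β * u * star β ∈ Hur := Hur.mul_mem (Hur.mul_mem hβ hu) (star_mem hβ)
  have hre : (β * u * star β).re = 0 := by
    simp only [re_mul, imI_mul, imJ_mul, imK_mul, re_star, imI_star, imJ_star, imK_star, hu0]
    ring
  obtain ⟨a, b, c, h⟩ := pure_int hy hre
  refine ⟨![a, b, c], ?_, ?_, ?_⟩
  · rw [h]; rfl
  · have h1 : normSq (β * u * star β) = (p : ℚ) ^ 2 := by
      rw [map_mul, map_mul, normSq_star, hn, hu1]; ring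
    rw [h, normSq_def'] at h1
    simp only [mk4_re, mk4_imI, mk4_imJ, mk4_imK] at h1
    have h2 : (a : ℚ) ^ 2 + b ^ 2 + c ^ 2 = (p : ℚ) ^ 2 := by linear_combination h1
    show a ^ 2 + b ^ 2 + c ^ 2 = (p : ℤ) ^ 2
    exact_mod_cast h2
  · have h1 : pq ![a, b, c] = β * u * star β := by rw [h]; rfl
    rw [h1, mul_assoc (β * u), star_mul_self, hn]
    rw [natCast_comm]
    congr 1

theorem exists_vec {p : ℕ} (hp : p.Prime) (hp2 : p ≠ 2) {β : ℍ[ℚ]} (hβ : β ∈ Hur)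
    (hn : normSq β = p) : ∃ v : Fin 3 → ℤ, v 0 ^ 2 + v 1 ^ 2 + v 2 ^ 2 = (p : ℤ) ^ 2 ∧
    ¬ (∀ i, (p : ℤ) ∣ v i) ∧ ∃ h ∈ Hur, pq v * β = (p : ℍ[ℚ]) * h := by
  have m1 : mk4 0 1 0 0 ∈ Hur := by simpa using int_mem 0 1 0 0
  have m2 : mk4 0 0 1 0 ∈ Hur := by simpa using int_mem 0 0 1 0
  have m3 : mk4 0 0 0 1 ∈ Hur := by simpa using int_mem 0 0 0 1
  obtain ⟨v1, e1, n1, k1⟩ := conj_vec hβ m1 rfl (by rw [normSq_def']; simp) hn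
  obtain ⟨v2, e2, n2, k2⟩ := conj_vec hβ m2 rfl (by rw [normSq_def']; simp) hn
  obtain ⟨v3, e3, n3, k3⟩ := conj_vec hβ m3 rfl (by rw [normSq_def']; simp) hn
  by_contra hcon
  have c1 : ∀ i, (p : ℤ) ∣ v1 i := by
    by_contra h
    exact hcon ⟨v1, n1, h, _, Hur.mul_mem hβ m1, k1⟩
  have c2 : ∀ i, (p : ℤ) ∣ v2 i := by
    by_contra h
    exact hcon ⟨v2, n2, h, _, Hur.mul_mem hβ m2, k2⟩
  have c3 : ∀ i, (p : ℤ) ∣ v3 i := by
    by_contra h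
    exact hcon ⟨v3, n3, h, _, Hur.mul_mem hβ m3, k3⟩
  obtain ⟨A, B, C, D, h1, h2, h3, h4⟩ := doubled hβ
  have hN : A ^ 2 + B ^ 2 + C ^ 2 + D ^ 2 = 4 * p := by
    rw [normSq_def', h1, h2, h3, h4] at hn
    have : (A : ℚ) ^ 2 + B ^ 2 + C ^ 2 + D ^ 2 = 4 * p := by linear_combination 4 * hn
    exact_mod_cast this
  have f1 : A ^ 2 + B ^ 2 - C ^ 2 - D ^ 2 = 4 * v1 0 := by
    have := congrArg QuaternionAlgebra.imI e1
    simp only [re_mul, imI_mul, imJ_mul, imK_mul, re_star, imI_star, imJ_star, imK_star,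
      mk4_re, mk4_imI, mk4_imJ, mk4_imK, pq, h1, h2, h3, h4] at this
    have h5 : (A : ℚ) ^ 2 + B ^ 2 - C ^ 2 - D ^ 2 = 4 * v1 0 := by linear_combination -4 * this
    exact_mod_cast h5
  have f2 : A ^ 2 - B ^ 2 + C ^ 2 - D ^ 2 = 4 * v2 1 := by
    have := congrArg QuaternionAlgebra.imJ e2
    simp only [re_mul, imI_mul, imJ_mul, imK_mul, re_star, imI_star, imJ_star, imK_star,
      mk4_re, mk4_imI, mk4_imJ, mk4_imK, pq, h1, h2, h3, h4] at this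
    have h5 : (A : ℚ) ^ 2 - B ^ 2 + C ^ 2 - D ^ 2 = 4 * v2 1 := by linear_combination -4 * this
    exact_mod_cast h5
  have f3 : A ^ 2 - B ^ 2 - C ^ 2 + D ^ 2 = 4 * v3 2 := by
    have := congrArg QuaternionAlgebra.imK e3
    simp only [re_mul, imI_mul, imJ_mul, imK_mul, re_star, imI_star, imJ_star, imK_star,
      mk4_re, mk4_imI, mk4_imJ, mk4_imK, pq, h1, h2, h3, h4] at this
    have h5 : (A : ℚ) ^ 2 - B ^ 2 - C ^ 2 + D ^ 2 = 4 * v3 2 := by linear_combination -4 * this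
    exact_mod_cast h5
  have hpz : Prime (p : ℤ) := Nat.prime_iff_prime_int.1 hp
  have h2p : ¬ (p : ℤ) ∣ 2 := by
    intro h
    have := (Nat.prime_dvd_prime_iff_eq hp Nat.prime_two).1 (by exact_mod_cast h)
    exact hp2 this
  obtain ⟨x1, hx1⟩ := c1 0
  obtain ⟨x2, hx2⟩ := c2 1
  obtain ⟨x3, hx3⟩ := c3 2
  have fin : ∀ X : ℤ, (p : ℤ) ∣ 4 * X ^ 2 → (p : ℤ) ∣ X := by
    intro X h
    have h' : (p : ℤ) ∣ 2 * (2 * X ^ 2) := by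
      have : 4 * X ^ 2 = 2 * (2 * X ^ 2) := by ring
      rwa [this] at h
    rcases hpz.dvd_or_dvd h' with h | h
    · exact absurd h h2p
    · rcases hpz.dvd_or_dvd h with h | h
      · exact absurd h h2p
      · exact hpz.dvd_of_dvd_pow h
  have dA : (p : ℤ) ∣ A := fin A ⟨4 + 4 * x1 + 4 * x2 + 4 * x3, by
    linear_combination hN + f1 + f2 + f3 + 4 * hx1 + 4 * hx2 + 4 * hx3⟩
  have dB : (p : ℤ) ∣ B := fin B ⟨4 + 4 * x1 - 4 * x2 - 4 * x3, by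
    linear_combination hN + f1 - f2 - f3 + 4 * hx1 - 4 * hx2 - 4 * hx3⟩
  have dC : (p : ℤ) ∣ C := fin C ⟨4 - 4 * x1 + 4 * x2 - 4 * x3, by
    linear_combination hN - f1 + f2 - f3 - 4 * hx1 + 4 * hx2 - 4 * hx3⟩
  have dD : (p : ℤ) ∣ D := fin D ⟨4 - 4 * x1 - 4 * x2 + 4 * x3, by
    linear_combination hN - f1 - f2 + f3 - 4 * hx1 - 4 * hx2 + 4 * hx3⟩
  obtain ⟨A', rfl⟩ := dA
  obtain ⟨B', rfl⟩ := dB
  obtain ⟨C', rfl⟩ := dC
  obtain ⟨D', rfl⟩ := dD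
  have h5 : (p : ℤ) * (A' ^ 2 + B' ^ 2 + C' ^ 2 + D' ^ 2) = 4 := by
    apply mul_left_cancel₀ hpz.ne_zero
    linear_combination hN
  have h6 : (p : ℤ) ∣ 2 * 2 := ⟨A' ^ 2 + B' ^ 2 + C' ^ 2 + D' ^ 2, by
    linear_combination -h5⟩
  rcases hpz.dvd_or_dvd h6 with h | h
  · exact h2p h
  · exact h2p h

theorem pq_sq (m : Fin 3 → ℤ) {p : ℕ} (hm : m 0 ^ 2 + m 1 ^ 2 + m 2 ^ 2 = (p : ℤ)) (x : ℍ[ℚ]) :
    pq m * (pq m * x) = -((p : ℍ[ℚ]) * x) := by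
  have h : pq m * pq m = -(p : ℍ[ℚ]) := by
    have hN' : (m 0 : ℚ) ^ 2 + (m 1 : ℚ) ^ 2 + (m 2 : ℚ) ^ 2 = p := by exact_mod_cast hm
    apply ext4
    · rw [re_mul]; simp [pq]; linear_combination -hN'
    · rw [imI_mul]; simp [pq]; ring
    · rw [imJ_mul]; simp [pq]; ring
    · rw [imK_mul]; simp [pq]; ring
  rw [← mul_assoc, h, neg_mul]

theorem mem_of_mul {m : Fin 3 → ℤ} {p : ℕ} (hp : p ≠ 0)
    (hm : m 0 ^ 2 + m 1 ^ 2 + m 2 ^ 2 = (p : ℤ)) {x : ℍ[ℚ]}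
    (h : ∃ h ∈ Hur, pq m * x = (p : ℍ[ℚ]) * h) : x ∈ lm (pq m) Oo := by
  obtain ⟨h, hh, e⟩ := h
  have h1 := pq_sq m hm x
  rw [e, ← mul_assoc, ← natCast_comm, mul_assoc, ← mul_neg] at h1
  have h2 := mul_left_cancel₀ (natH_ne hp) h1
  refine mem_lm.2 ⟨-h, Hur.neg_mem hh, ?_⟩
  rw [mul_neg, h2, neg_neg]

theorem pq_ne {m : Fin 3 → ℤ} {p : ℕ} (hp : p ≠ 0)
    (hm : m 0 ^ 2 + m 1 ^ 2 + m 2 ^ 2 = (p : ℤ)) : pq m ≠ 0 := by
  rw [← normSq_ne_zero, normSq_pq, hm]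
  exact_mod_cast hp

theorem lm_eq_pq {p : ℕ} (hp : p.Prime) {β : ℍ[ℚ]} (hβ : β ∈ Hur) (hn : normSq β = p)
    {v m w : Fin 3 → ℤ} {c : ℤ} (hc : ¬ (p : ℤ) ∣ c) (hv : ∀ i, v i = c * m i + p * w i)
    (hm : m 0 ^ 2 + m 1 ^ 2 + m 2 ^ 2 = (p : ℤ)) (h : ∃ h ∈ Hur, pq v * β = (p : ℍ[ℚ]) * h) :
    lm β Oo = lm (pq m) Oo := by
  apply lm_eq_of_le (pq_ne hp.ne_zero hm)
  · intro x hx
    obtain ⟨y, hy, rfl⟩ := mem_lm.1 hx
    have h1 : β ∈ lm (pq m) Oo := by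
      apply mem_of_mul hp.ne_zero hm
      obtain ⟨h, hh, e⟩ := h
      have hpz : Prime (p : ℤ) := Nat.prime_iff_prime_int.1 hp
      obtain ⟨s, t, hst⟩ := (Int.isCoprime_iff_gcd_eq_one.2
        ((Int.isCoprime_iff_gcd_eq_one.1 ((Prime.coprime_iff_not_dvd hpz).2 hc))) :
        IsCoprime (p : ℤ) c)
      refine ⟨(s : ℍ[ℚ]) * (pq m * β) + (t : ℍ[ℚ]) * (h - pq w * β), ?_, ?_⟩
      · exact Hur.add_mem (Hur.mul_mem (intCast_mem_Hur s) (Hur.mul_mem (pq_mem m) hβ))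
          (Hur.mul_mem (intCast_mem_Hur t) (Hur.sub_mem hh (Hur.mul_mem (pq_mem w) hβ)))
      · have h2 : pq v = (c : ℍ[ℚ]) * pq m + (p : ℍ[ℚ]) * pq w := by
          apply ext4
          · simp [pq, re_mul]
          · simp [pq, imI_mul, hv 0]
          · simp [pq, imJ_mul, hv 1]
          · simp [pq, imK_mul, hv 2]
        rw [h2, add_mul] at e
        have h3 : (p : ℍ[ℚ]) * (h - pq w * β) = (c : ℍ[ℚ]) * (pq m * β) := by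
          rw [mul_sub, ← e, ← mul_assoc, ← mul_assoc, add_sub_cancel_right]
        have h5 : (p : ℍ[ℚ]) * ((s : ℍ[ℚ]) * (pq m * β) + (t : ℍ[ℚ]) * (h - pq w * β)) =
            ((p : ℍ[ℚ]) * (s : ℍ[ℚ]) + (t : ℍ[ℚ]) * (c : ℍ[ℚ])) * (pq m * β) := by
          rw [mul_add, add_mul, ← mul_assoc, ← mul_assoc (p : ℍ[ℚ]) (t : ℍ[ℚ]),
            natCast_comm p (t : ℍ[ℚ]), mul_assoc (t : ℍ[ℚ]), h3, mul_assoc (t : ℍ[ℚ])]
        rw [h5]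
        have h4 : (p : ℍ[ℚ]) * (s : ℍ[ℚ]) + (t : ℍ[ℚ]) * (c : ℍ[ℚ]) = 1 := by
          have : ((s * p + t * c : ℤ) : ℍ[ℚ]) = 1 := by rw [hst]; simp
          push_cast at this
          rw [natCast_comm]
          exact this
        rw [h4, one_mul]
    obtain ⟨z, hz, e⟩ := mem_lm.1 h1
    rw [← e, mul_assoc]
    exact mul_mem_lm (Hur.mul_mem hz hy)
  · rw [hn, normSq_pq, hm]
    rfl

end Pool.Agent.Helper725_HQ
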